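import Pool.Agent.H978V.NDefs

set_option autoImplicit false

open scoped Quaternion

namespace Pool.Agent.H978V

open Pool.Agent.Helper557.Rz

/-- pigeonhole in a parallelepiped around the line of direction `(1, α, β)` -/
lemma short_core (D : ℕ) [NeZero D] (f : ℤ × ℤ × ℤ →+ ZMod D) (α β X Y : ℝ)
    (hX : 1 ≤ X) (hY : 0 < Y) (hC : 400 * (D : ℝ) ≤ X * Y ^ 2) :
    ∃ a b c : ℤ, (a, b, c) ≠ (0 : ℤ × ℤ × ℤ) ∧ f (a, b, c) = 0 ∧ |(a : ℝ)| ≤ X / 4 ∧
      |(b : ℝ) - a * α| ≤ Y / 8 ∧ |(c : ℝ) - a * β| ≤ Y / 8 := by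
  classical
  have hDpos : (0 : ℝ) < D := by exact_mod_cast Nat.pos_of_ne_zero (NeZero.ne D)
  obtain ⟨η, hη⟩ : ∃ η : ℝ, η = Y / 8 := ⟨_, rfl⟩
  have hη0 : 0 < η := by rw [hη]; positivity
  obtain ⟨B, hB⟩ : ∃ B : ℕ, B = ⌈Y⌉₊ := ⟨_, rfl⟩
  have hBY : Y ≤ B := by rw [hB]; exact Nat.le_ceil Y
  have hB1 : 1 ≤ B := by rw [hB]; exact Nat.one_le_iff_ne_zero.2 (by
    have := Nat.ceil_pos.2 hY
    omega)
  obtain ⟨A, hA⟩ : ∃ A : ℕ, A = ⌊X / 4⌋₊ + 1 := ⟨_, rfl⟩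
  have hAX : X / 4 < A := by rw [hA]; push_cast; exact Nat.lt_floor_add_one _
  have hA' : (A : ℝ) - 1 ≤ X / 4 := by
    rw [hA]; push_cast
    have := Nat.floor_le (show (0 : ℝ) ≤ X / 4 by positivity)
    linarith
  -- the points
  let pt : ℕ × ℕ × ℕ → ℤ × ℤ × ℤ := fun t => ((t.1 : ℤ), ⌊(t.1 : ℝ) * α⌋ + t.2.1, ⌊(t.1 : ℝ) * β⌋ + t.2.2)
  let cl : ℕ × ℕ × ℕ → ZMod D × ℤ × ℤ := fun t =>
    (f (pt t), ⌊(((⌊(t.1 : ℝ) * α⌋ + t.2.1 : ℤ) : ℝ) - t.1 * α) / η⌋,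
      ⌊(((⌊(t.1 : ℝ) * β⌋ + t.2.2 : ℤ) : ℝ) - t.1 * β) / η⌋)
  let S : Finset (ℕ × ℕ × ℕ) := Finset.range A ×ˢ (Finset.range B ×ˢ Finset.range B)
  obtain ⟨m1, hm1⟩ : ∃ m : ℤ, m = ⌊(-1 : ℝ) / η⌋ := ⟨_, rfl⟩
  obtain ⟨m2, hm2⟩ : ∃ m : ℤ, m = ⌊((B : ℝ) - 1) / η⌋ := ⟨_, rfl⟩
  let T : Finset (ZMod D × ℤ × ℤ) := Finset.univ ×ˢ (Finset.Icc m1 m2 ×ˢ Finset.Icc m1 m2)
  have hcell : ∀ (a s : ℕ) (γ : ℝ), s < B →
      ⌊(((⌊(a : ℝ) * γ⌋ + s : ℤ) : ℝ) - a * γ) / η⌋ ∈ Finset.Icc m1 m2 := by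
    intro a s γ hs
    have h1 : ((⌊(a : ℝ) * γ⌋ : ℤ) : ℝ) ≤ a * γ := Int.floor_le _
    have h2 : (a : ℝ) * γ < (⌊(a : ℝ) * γ⌋ : ℤ) + 1 := Int.lt_floor_add_one _
    have h3 : (s : ℝ) ≤ (B : ℝ) - 1 := by
      have : (s : ℝ) + 1 ≤ B := by exact_mod_cast hs
      linarith
    have h4 : (0 : ℝ) ≤ s := by positivity
    rw [Finset.mem_Icc, hm1, hm2]
    push_cast
    constructor
    · apply Int.floor_le_floor
      rw [div_le_div_iff_of_pos_right hη0]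
      linarith
    · apply Int.floor_le_floor
      rw [div_le_div_iff_of_pos_right hη0]
      linarith
  have hmaps : ∀ t ∈ S, cl t ∈ T := by
    intro t ht
    simp only [S, Finset.mem_product, Finset.mem_range] at ht
    simp only [T, cl, Finset.mem_product, Finset.mem_univ, true_and]
    exact ⟨hcell _ _ _ ht.2.1, hcell _ _ _ ht.2.2⟩
  have hm12 : m1 ≤ m2 + 1 := by
    rw [hm1, hm2]
    have : ⌊(-1 : ℝ) / η⌋ ≤ ⌊((B : ℝ) - 1) / η⌋ := by
      apply Int.floor_le_floor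
      rw [div_le_div_iff_of_pos_right hη0]
      have : (1 : ℝ) ≤ B := by exact_mod_cast hB1
      linarith
    linarith
  have hK : (((Finset.Icc m1 m2).card : ℕ) : ℝ) ≤ 10 * B / Y := by
    rw [Int.card_Icc]
    have h0 : (((m2 + 1 - m1).toNat : ℕ) : ℝ) = (m2 : ℝ) + 1 - m1 := by
      have : (((m2 + 1 - m1).toNat : ℕ) : ℤ) = m2 + 1 - m1 := Int.toNat_of_nonneg (by linarith)
      exact_mod_cast this
    rw [h0]
    have h1 : (m2 : ℝ) ≤ ((B : ℝ) - 1) / η := by rw [hm2]; exact Int.floor_le _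
    have h2 : (-1 : ℝ) / η < (m1 : ℝ) + 1 := by rw [hm1]; exact Int.lt_floor_add_one _
    have h3 : ((B : ℝ) - 1) / η = 8 * B / Y - 8 / Y := by rw [hη]; field_simp
    have h4 : (-1 : ℝ) / η = - (8 / Y) := by rw [hη]; field_simp
    have h5 : (1 : ℝ) ≤ B / Y := by rw [le_div_iff₀ hY]; linarith
    have h6 : 10 * (B : ℝ) / Y = 8 * B / Y + 2 * (B / Y) := by ring
    rw [h6]
    linarith
  have hcard : T.card < S.card := by
    have hT : T.card = D * ((Finset.Icc m1 m2).card * (Finset.Icc m1 m2).card) := by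
      simp only [T, Finset.card_product, Finset.card_univ, ZMod.card]
    have hS : S.card = A * (B * B) := by
      simp only [S, Finset.card_product, Finset.card_range]
    rw [hT, hS]
    have hB0 : (0 : ℝ) < B := by exact_mod_cast hB1
    have hT' : ((D * ((Finset.Icc m1 m2).card * (Finset.Icc m1 m2).card) : ℕ) : ℝ) ≤
        D * ((10 * B / Y) * (10 * B / Y)) := by
      push_cast
      gcongr
    have hlt : (D : ℝ) * ((10 * B / Y) * (10 * B / Y)) < ((A * (B * B) : ℕ) : ℝ) := by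
      push_cast
      have e : (D : ℝ) * ((10 * B / Y) * (10 * B / Y)) = (100 * D / Y ^ 2) * (B * B) := by
        field_simp
        ring
      rw [e]
      apply mul_lt_mul_of_pos_right _ (by positivity)
      rw [div_lt_iff₀ (by positivity)]
      have : X / 4 * Y ^ 2 < A * Y ^ 2 := mul_lt_mul_of_pos_right hAX (by positivity)
      nlinarith
    have := lt_of_le_of_lt hT' hlt
    exact_mod_cast this
  obtain ⟨t, ht, t', ht', hne, heq⟩ := Finset.exists_ne_map_eq_of_card_lt_of_maps_to hcard hmaps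
  simp only [S, Finset.mem_product, Finset.mem_range] at ht ht'
  obtain ⟨a, s, r⟩ := t
  obtain ⟨a', s', r'⟩ := t'
  simp only [cl, pt, Prod.mk.injEq] at heq
  obtain ⟨e1, e2, e3⟩ := heq
  simp only at ht ht'
  refine ⟨(a : ℤ) - a', (⌊(a : ℝ) * α⌋ + s) - (⌊(a' : ℝ) * α⌋ + s'), (⌊(a : ℝ) * β⌋ + r) - (⌊(a' : ℝ) * β⌋ + r'),
    ?_, ?_, ?_, ?_, ?_⟩
  · intro h0
    simp only [Prod.mk_eq_zero] at h0
    obtain ⟨g1, g2, g3⟩ := h0
    have ga : a = a' := by omega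
    subst ga
    apply hne
    have gs : s = s' := by omega
    have gr : r = r' := by omega
    rw [gs, gr]
  · have : (((a : ℤ) - a', (⌊(a : ℝ) * α⌋ + s) - (⌊(a' : ℝ) * α⌋ + s'), (⌊(a : ℝ) * β⌋ + r) - (⌊(a' : ℝ) * β⌋ + r')) :
        ℤ × ℤ × ℤ) = ((a : ℤ), ⌊(a : ℝ) * α⌋ + (s : ℤ), ⌊(a : ℝ) * β⌋ + (r : ℤ)) -
          ((a' : ℤ), ⌊(a' : ℝ) * α⌋ + (s' : ℤ), ⌊(a' : ℝ) * β⌋ + (r' : ℤ)) := rfl
    rw [this, map_sub, e1, sub_self]
  · push_cast
    have k1 : (a : ℝ) + 1 ≤ A := by exact_mod_cast ht.1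
    have k2 : (a' : ℝ) + 1 ≤ A := by exact_mod_cast ht'.1
    have k3 : (0 : ℝ) ≤ a := by positivity
    have k4 : (0 : ℝ) ≤ a' := by positivity
    rw [abs_le]
    constructor <;> linarith
  · have k := Int.abs_sub_lt_one_of_floor_eq_floor e2
    rw [← sub_div, abs_div, abs_of_pos hη0, div_lt_one hη0] at k
    rw [← hη]
    refine le_of_lt (lt_of_le_of_lt (le_of_eq ?_) k)
    congr 1
    push_cast
    ring
  · have k := Int.abs_sub_lt_one_of_floor_eq_floor e3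
    rw [← sub_div, abs_div, abs_of_pos hη0, div_lt_one hη0] at k
    rw [← hη]
    refine le_of_lt (lt_of_le_of_lt (le_of_eq ?_) k)
    congr 1
    push_cast
    ring

/-- the bounds on the length and on the vector product -/
lemma short_fin {p1 p2 p3 X Y a b c : ℝ} (hp : p1 ^ 2 + p2 ^ 2 + p3 ^ 2 = 1) (h2 : |p2| ≤ |p1|) (h3 : |p3| ≤ |p1|)
    (hX : 1 ≤ X) (hY : 0 < Y) (hYX : Y ≤ X) (ha : |a| ≤ X / 4) (hb : |b - a * (p2 / p1)| ≤ Y / 8)
    (hc : |c - a * (p3 / p1)| ≤ Y / 8) :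
    a ^ 2 + b ^ 2 + c ^ 2 ≤ X ^ 2 ∧ (b * p3 - c * p2) ^ 2 + (c * p1 - a * p3) ^ 2 + (a * p2 - b * p1) ^ 2 ≤ Y ^ 2 := by
  have hp1 : p1 ≠ 0 := by
    intro h0
    rw [h0, abs_zero] at h2 h3
    have e2 : p2 = 0 := abs_eq_zero.1 (le_antisymm h2 (abs_nonneg _))
    have e3 : p3 = 0 := abs_eq_zero.1 (le_antisymm h3 (abs_nonneg _))
    rw [h0, e2, e3] at hp
    norm_num at hp
  have hp1' : 0 < |p1| := abs_pos.2 hp1
  obtain ⟨α, hα⟩ : ∃ α : ℝ, α = p2 / p1 := ⟨_, rfl⟩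
  obtain ⟨β, hβ⟩ : ∃ β : ℝ, β = p3 / p1 := ⟨_, rfl⟩
  rw [← hα] at hb
  rw [← hβ] at hc
  have hα1 : |α| ≤ 1 := by rw [hα, abs_div, div_le_one hp1']; exact h2
  have hβ1 : |β| ≤ 1 := by rw [hβ, abs_div, div_le_one hp1']; exact h3
  have e2 : p2 = p1 * α := by rw [hα]; field_simp
  have e3 : p3 = p1 * β := by rw [hβ]; field_simp
  have hpp : p1 ^ 2 ≤ 1 := by nlinarith [sq_nonneg p2, sq_nonneg p3]
  obtain ⟨u, hu⟩ : ∃ u : ℝ, u = b - a * α := ⟨_, rfl⟩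
  obtain ⟨v, hv⟩ : ∃ v : ℝ, v = c - a * β := ⟨_, rfl⟩
  rw [← hu] at hb
  rw [← hv] at hc
  have eb : b = u + a * α := by rw [hu]; ring
  have ec : c = v + a * β := by rw [hv]; ring
  have bnd : ∀ x y z : ℝ, |x| ≤ X / 4 → |y| ≤ 1 → |z| ≤ Y / 8 → (z + x * y) ^ 2 ≤ (3 * X / 8) ^ 2 := by
    intro x y z hx hy hz
    apply sq_le_sq'
    · have : |z + x * y| ≤ |z| + |x| * |y| := by rw [← abs_mul]; exact abs_add_le _ _
      have h5 : |x| * |y| ≤ X / 4 * 1 := mul_le_mul hx hy (abs_nonneg _) (by positivity)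
      have := neg_abs_le (z + x * y)
      linarith
    · have : |z + x * y| ≤ |z| + |x| * |y| := by rw [← abs_mul]; exact abs_add_le _ _
      have h5 : |x| * |y| ≤ X / 4 * 1 := mul_le_mul hx hy (abs_nonneg _) (by positivity)
      have := le_abs_self (z + x * y)
      linarith
  constructor
  · have b1 := bnd a α u ha hα1 hb
    have b2 := bnd a β v ha hβ1 hc
    have b3 : a ^ 2 ≤ (X / 4) ^ 2 := sq_le_sq' (by linarith [neg_abs_le a]) (by linarith [le_abs_self a])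
    rw [eb, ec]
    nlinarith
  · have u2 : u ^ 2 ≤ (Y / 8) ^ 2 := sq_le_sq' (by linarith [neg_abs_le u]) (by linarith [le_abs_self u])
    have v2 : v ^ 2 ≤ (Y / 8) ^ 2 := sq_le_sq' (by linarith [neg_abs_le v]) (by linarith [le_abs_self v])
    have α2 : α ^ 2 ≤ 1 := by
      have := sq_le_sq' (show -1 ≤ α by linarith [neg_abs_le α]) (show α ≤ 1 by linarith [le_abs_self α])
      simpa using this
    have β2 : β ^ 2 ≤ 1 := by
      have := sq_le_sq' (show -1 ≤ β by linarith [neg_abs_le β]) (show β ≤ 1 by linarith [le_abs_self β])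
      simpa using this
    have i1 : b * p3 - c * p2 = p1 * (u * β - v * α) := by rw [e2, e3, eb, ec]; ring
    have i2 : c * p1 - a * p3 = p1 * v := by rw [e3, ec]; ring
    have i3 : a * p2 - b * p1 = - (p1 * u) := by rw [e2, eb]; ring
    rw [i1, i2, i3]
    have j1 : (u * β - v * α) ^ 2 ≤ 2 * (u ^ 2 + v ^ 2) := by
      have k1 : (u * β - v * α) ^ 2 ≤ 2 * (u * β) ^ 2 + 2 * (v * α) ^ 2 := by nlinarith [sq_nonneg (u * β + v * α)]
      have k2 : (u * β) ^ 2 ≤ u ^ 2 := by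
        rw [mul_pow]
        exact mul_le_of_le_one_right (sq_nonneg u) β2
      have k3 : (v * α) ^ 2 ≤ v ^ 2 := by
        rw [mul_pow]
        exact mul_le_of_le_one_right (sq_nonneg v) α2
      linarith
    have j2 : (p1 * (u * β - v * α)) ^ 2 ≤ 2 * (u ^ 2 + v ^ 2) := by
      rw [mul_pow]
      exact (mul_le_of_le_one_left (sq_nonneg _) hpp).trans j1
    have j3 : (p1 * v) ^ 2 ≤ v ^ 2 := by
      rw [mul_pow]
      exact mul_le_of_le_one_left (sq_nonneg _) hpp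
    have j4 : (-(p1 * u)) ^ 2 ≤ u ^ 2 := by
      rw [neg_sq, mul_pow]
      exact mul_le_of_le_one_left (sq_nonneg _) hpp
    have j5 : 6 * (Y / 8) ^ 2 ≤ Y ^ 2 := by nlinarith [sq_nonneg Y]
    linarith

/-- TARGET -/
theorem short_vec : ∃ C : ℝ, 1 ≤ C ∧ ∀ (D : ℕ) [NeZero D] (f : ℤ × ℤ × ℤ →+ ZMod D) (p : ℍ[ℝ]), UP p →
    ∀ X Y : ℝ, 1 ≤ X → 0 < Y → Y ≤ X → C * D ≤ X * Y ^ 2 →
    ∃ h : ℤ × ℤ × ℤ, h ≠ 0 ∧ f h = 0 ∧ Nd p X Y h := by
  refine ⟨400, by norm_num, ?_⟩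
  intro D _ f p hp X Y hX hY hYX hC
  obtain ⟨hre, hnorm⟩ := hp
  have hn : p.imI ^ 2 + p.imJ ^ 2 + p.imK ^ 2 = 1 := by
    have h1 : Quaternion.normSq p = 1 := by
      rw [Quaternion.normSq_eq_norm_mul_self, hnorm]; norm_num
    rw [Quaternion.normSq_def'] at h1
    rw [hre] at h1
    linarith
  -- maximal coordinate
  rcases le_total |p.imJ| |p.imI| with hJI | hIJ
  · rcases le_total |p.imK| |p.imI| with hKI | hIK
    · -- imI maximal
      obtain ⟨a, b, c, h0, hf, ha, hb, hc⟩ := short_core D f (p.imJ / p.imI) (p.imK / p.imI) X Y hX hY hC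
      obtain ⟨r1, r2⟩ := short_fin hn hJI hKI hX hY hYX ha hb hc
      refine ⟨(a, b, c), h0, hf, ?_, ?_⟩
      · simp only [dt]; push_cast; linarith
      · simp only [Sp, pq]; linarith
    · -- imK maximal
      have hKJ : |p.imJ| ≤ |p.imK| := hJI.trans hIK
      let g : ℤ × ℤ × ℤ →+ ZMod D :=
        f.comp { toFun := fun x => (x.2.1, x.2.2, x.1), map_zero' := rfl, map_add' := fun _ _ => rfl }
      obtain ⟨a, b, c, h0, hf, ha, hb, hc⟩ := short_core D g (p.imI / p.imK) (p.imJ / p.imK) X Y hX hY hC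
      have hn' : p.imK ^ 2 + p.imI ^ 2 + p.imJ ^ 2 = 1 := by linarith
      obtain ⟨r1, r2⟩ := short_fin hn' hIK hKJ hX hY hYX ha hb hc
      refine ⟨(b, c, a), ?_, hf, ?_, ?_⟩
      · intro h
        apply h0
        simp only [Prod.mk_eq_zero] at h ⊢
        tauto
      · simp only [dt]; push_cast; linarith
      · simp only [Sp, pq]; linarith
  · rcases le_total |p.imK| |p.imJ| with hKJ | hJK
    · -- imJ maximal
      let g : ℤ × ℤ × ℤ →+ ZMod D :=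
        f.comp { toFun := fun x => (x.2.2, x.1, x.2.1), map_zero' := rfl, map_add' := fun _ _ => rfl }
      obtain ⟨a, b, c, h0, hf, ha, hb, hc⟩ := short_core D g (p.imK / p.imJ) (p.imI / p.imJ) X Y hX hY hC
      have hn' : p.imJ ^ 2 + p.imK ^ 2 + p.imI ^ 2 = 1 := by linarith
      obtain ⟨r1, r2⟩ := short_fin hn' hKJ hIJ hX hY hYX ha hb hc
      refine ⟨(c, a, b), ?_, hf, ?_, ?_⟩
      · intro h
        apply h0
        simp only [Prod.mk_eq_zero] at h ⊢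
        tauto
      · simp only [dt]; push_cast; linarith
      · simp only [Sp, pq]; linarith
    · -- imK maximal
      have hIK : |p.imI| ≤ |p.imK| := hIJ.trans hJK
      let g : ℤ × ℤ × ℤ →+ ZMod D :=
        f.comp { toFun := fun x => (x.2.1, x.2.2, x.1), map_zero' := rfl, map_add' := fun _ _ => rfl }
      obtain ⟨a, b, c, h0, hf, ha, hb, hc⟩ := short_core D g (p.imI / p.imK) (p.imJ / p.imK) X Y hX hY hC
      have hn' : p.imK ^ 2 + p.imI ^ 2 + p.imJ ^ 2 = 1 := by linarith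
      obtain ⟨r1, r2⟩ := short_fin hn' hIK hJK hX hY hYX ha hb hc
      refine ⟨(b, c, a), ?_, hf, ?_, ?_⟩
      · intro h
        apply h0
        simp only [Prod.mk_eq_zero] at h ⊢
        tauto
      · simp only [dt]; push_cast; linarith
      · simp only [Sp, pq]; linarith

end Pool.Agent.H978V
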