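import Pool.Agent.H978V.NDefs

/-! Counting integral vectors in a needle. -/

set_option autoImplicit false

open scoped Quaternion

namespace Pool.Agent.H978V

open Pool.Agent.Helper557.Rz

namespace NC

/-- the sum of the squares of the coordinates of a unit pure quaternion -/
theorem up_sq {p : ℍ[ℝ]} (hp : UP p) : p.imI ^ 2 + p.imJ ^ 2 + p.imK ^ 2 = 1 := by
  obtain ⟨h0, h1⟩ := hp
  have h2 := Quaternion.normSq_eq_norm_mul_self p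
  rw [h1, Quaternion.normSq_def', h0] at h2
  nlinarith [h2]

theorem Sp_pq (p : ℍ[ℝ]) (x : ℤ × ℤ × ℤ) : Sp p (pq x) =
    ((x.2.1 : ℝ) * p.imK - x.2.2 * p.imJ) ^ 2 + ((x.2.2 : ℝ) * p.imI - x.1 * p.imK) ^ 2 +
      ((x.1 : ℝ) * p.imJ - x.2.1 * p.imI) ^ 2 := by
  simp [Sp, pq]

theorem dt_self (x : ℤ × ℤ × ℤ) : ((dt x x : ℤ) : ℝ) = (x.1 : ℝ) ^ 2 + (x.2.1 : ℝ) ^ 2 + (x.2.2 : ℝ) ^ 2 := by
  simp only [dt]
  push_cast
  ring

/-- counting lemma: one coordinate bounded by `X`, the two others in moving windows -/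
theorem window_count (X Y : ℝ) (hX : 1 ≤ X) (hY : 0 ≤ Y) (F : Finset (ℤ × ℤ × ℤ))
    (u v w : ℤ × ℤ × ℤ → ℤ) (hinj : ∀ x y, u x = u y → v x = v y → w x = w y → x = y)
    (α β γ : ℝ) (hα : 1 / 3 ≤ α ^ 2)
    (hu : ∀ x ∈ F, |(u x : ℝ)| ≤ X)
    (hv : ∀ x ∈ F, |(v x : ℝ) * α - u x * β| ≤ Y)
    (hw : ∀ x ∈ F, |(w x : ℝ) * α - u x * γ| ≤ Y) :
    (F.card : ℝ) ≤ 100 * X * (1 + Y) ^ 2 := by
  have hα0 : α ≠ 0 := by
    rintro rfl
    norm_num at hα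
  have hαa : 4 / 7 ≤ |α| := by
    by_contra h
    push Not at h
    have h1 : |α| ^ 2 < (4 / 7) ^ 2 := by
      have h0 := abs_nonneg α
      nlinarith
    rw [sq_abs] at h1
    norm_num at h1
    linarith
  set r : ℝ := 7 / 4 * Y with hr
  have hr0 : 0 ≤ r := by positivity
  have key : ∀ (a b c : ℝ), |a * α - b * c| ≤ Y → |a - b * c / α| ≤ r := by
    intro a b c h
    have h1 : a - b * c / α = (a * α - b * c) / α := by field_simp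
    rw [h1, abs_div, div_le_iff₀ (by linarith)]
    rw [hr]
    have : Y ≤ 7 / 4 * Y * (4 / 7) := by linarith
    calc |a * α - b * c| ≤ 7 / 4 * Y * (4 / 7) := by linarith
      _ ≤ 7 / 4 * Y * |α| := by
          apply mul_le_mul_of_nonneg_left hαa
          positivity
  let g : ℤ × ℤ × ℤ → ℤ × ℤ × ℤ := fun x =>
    (u x, v x - ⌊(u x : ℝ) * β / α⌋, w x - ⌊(u x : ℝ) * γ / α⌋)
  have hg : Function.Injective g := by
    intro x y h
    have h1 : u x = u y := congrArg Prod.fst h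
    have h2 : v x - ⌊(u x : ℝ) * β / α⌋ = v y - ⌊(u y : ℝ) * β / α⌋ :=
      congrArg (fun t => t.2.1) h
    have h3 : w x - ⌊(u x : ℝ) * γ / α⌋ = w y - ⌊(u y : ℝ) * γ / α⌋ :=
      congrArg (fun t => t.2.2) h
    rw [h1] at h2 h3
    exact hinj x y h1 (by linarith) (by linarith)
  let B : Finset (ℤ × ℤ × ℤ) := Finset.Icc (-⌊X⌋) ⌊X⌋ ×ˢ
    (Finset.Icc (-⌊r⌋) (⌊r⌋ + 1) ×ˢ Finset.Icc (-⌊r⌋) (⌊r⌋ + 1))
  have hwin : ∀ (m : ℤ) (t : ℝ), |(m : ℝ) - t| ≤ r → m - ⌊t⌋ ∈ Finset.Icc (-⌊r⌋) (⌊r⌋ + 1) := by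
    intro m t h
    rw [abs_le] at h
    rw [Finset.mem_Icc]
    have h1 := Int.floor_le t
    have h2 := Int.lt_floor_add_one t
    constructor
    · have h3 : -(m - ⌊t⌋) ≤ ⌊r⌋ := by
        apply Int.le_floor.mpr
        push_cast
        linarith
      linarith
    · have h3 : (m - ⌊t⌋) - 1 ≤ ⌊r⌋ := by
        apply Int.le_floor.mpr
        push_cast
        linarith
      linarith
  have hsub : F.image g ⊆ B := by
    intro z hz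
    rw [Finset.mem_image] at hz
    obtain ⟨x, hx, rfl⟩ := hz
    rw [Finset.mem_product, Finset.mem_product]
    refine ⟨?_, ?_, ?_⟩
    · have h := hu x hx
      rw [abs_le] at h
      show u x ∈ Finset.Icc (-⌊X⌋) ⌊X⌋
      rw [Finset.mem_Icc]
      constructor
      · have h3 : -(u x) ≤ ⌊X⌋ := by
          apply Int.le_floor.mpr
          push_cast
          linarith
        linarith
      · apply Int.le_floor.mpr
        exact h.2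
    · exact hwin _ _ (key _ _ _ (hv x hx))
    · exact hwin _ _ (key _ _ _ (hw x hx))
  have hcard := Finset.card_le_card hsub
  rw [Finset.card_image_of_injective _ hg] at hcard
  have hX0 : 0 ≤ ⌊X⌋ := Int.floor_nonneg.mpr (by linarith)
  have hr1 : 0 ≤ ⌊r⌋ := Int.floor_nonneg.mpr hr0
  have hB : (B.card : ℝ) = (2 * ⌊X⌋ + 1) * ((2 * ⌊r⌋ + 2) * (2 * ⌊r⌋ + 2)) := by
    rw [Finset.card_product, Finset.card_product, Int.card_Icc, Int.card_Icc]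
    have e1 : ((⌊X⌋ + 1 - -⌊X⌋).toNat : ℤ) = 2 * ⌊X⌋ + 1 := by
      rw [Int.toNat_of_nonneg (by linarith)]; ring
    have e2 : ((⌊r⌋ + 1 + 1 - -⌊r⌋).toNat : ℤ) = 2 * ⌊r⌋ + 2 := by
      rw [Int.toNat_of_nonneg (by linarith)]; ring
    have e1' : ((⌊X⌋ + 1 - -⌊X⌋).toNat : ℝ) = 2 * ⌊X⌋ + 1 := by exact_mod_cast e1
    have e2' : ((⌊r⌋ + 1 + 1 - -⌊r⌋).toNat : ℝ) = 2 * ⌊r⌋ + 2 := by exact_mod_cast e2
    rw [Nat.cast_mul, Nat.cast_mul, e1', e2']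
  have hc2 : (F.card : ℝ) ≤ (B.card : ℝ) := by exact_mod_cast hcard
  rw [hB] at hc2
  have f1 : (⌊X⌋ : ℝ) ≤ X := Int.floor_le X
  have f2 : (⌊r⌋ : ℝ) ≤ r := Int.floor_le r
  have f3 : (0 : ℝ) ≤ ⌊X⌋ := by exact_mod_cast hX0
  have f4 : (0 : ℝ) ≤ ⌊r⌋ := by exact_mod_cast hr1
  have g1 : (2 * (⌊X⌋ : ℝ) + 1) ≤ 3 * X := by linarith
  have g2 : (2 * (⌊r⌋ : ℝ) + 2) ≤ 4 * (1 + Y) := by
    rw [hr] at f2
    linarith
  have g3 : (2 * (⌊r⌋ : ℝ) + 2) * (2 * ⌊r⌋ + 2) ≤ (4 * (1 + Y)) * (4 * (1 + Y)) :=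
    mul_le_mul g2 g2 (by linarith) (by linarith)
  calc (F.card : ℝ) ≤ (2 * ⌊X⌋ + 1) * ((2 * ⌊r⌋ + 2) * (2 * ⌊r⌋ + 2)) := hc2
    _ ≤ (3 * X) * ((4 * (1 + Y)) * (4 * (1 + Y))) :=
        mul_le_mul g1 g3 (by positivity) (by linarith)
    _ ≤ 100 * X * (1 + Y) ^ 2 := by
        have : 0 ≤ X * (1 + Y) ^ 2 := by positivity
        nlinarith

theorem abs_le_of_sq3 {a b c Z : ℝ} (hZ : 0 ≤ Z) (h : a ^ 2 + b ^ 2 + c ^ 2 ≤ Z ^ 2) :
    |a| ≤ Z ∧ |b| ≤ Z ∧ |c| ≤ Z := by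
  refine ⟨?_, ?_, ?_⟩ <;> apply abs_le_of_sq_le_sq _ hZ <;> nlinarith [sq_nonneg a, sq_nonneg b, sq_nonneg c]

/-- triangle inequality in `ℝ³` in terms of squares -/
theorem tri {a b c a' b' c' A B : ℝ} (hA : 0 ≤ A) (hB : 0 ≤ B) (h : a ^ 2 + b ^ 2 + c ^ 2 ≤ A ^ 2)
    (h' : a' ^ 2 + b' ^ 2 + c' ^ 2 ≤ B ^ 2) :
    (a + a') ^ 2 + (b + b') ^ 2 + (c + c') ^ 2 ≤ (A + B) ^ 2 := by
  have h1 : (a * a' + b * b' + c * c') ^ 2 ≤ (A * B) ^ 2 := by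
    have h2 : (a * a' + b * b' + c * c') ^ 2 ≤
        (a ^ 2 + b ^ 2 + c ^ 2) * (a' ^ 2 + b' ^ 2 + c' ^ 2) := by
      nlinarith [sq_nonneg (a * b' - b * a'), sq_nonneg (a * c' - c * a'), sq_nonneg (b * c' - c * b')]
    have h3 : (a ^ 2 + b ^ 2 + c ^ 2) * (a' ^ 2 + b' ^ 2 + c' ^ 2) ≤ A ^ 2 * B ^ 2 :=
      mul_le_mul h h' (by positivity) (by positivity)
    nlinarith
  have h4 : a * a' + b * b' + c * c' ≤ A * B := le_trans (le_abs_self _) (abs_le_of_sq_le_sq h1 (by positivity))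
  nlinarith

/-- real needle -/
def NR (p : ℍ[ℝ]) (X Y : ℝ) (a b c : ℝ) : Prop :=
  a ^ 2 + b ^ 2 + c ^ 2 ≤ X ^ 2 ∧
    (b * p.imK - c * p.imJ) ^ 2 + (c * p.imI - a * p.imK) ^ 2 + (a * p.imJ - b * p.imI) ^ 2 ≤ Y ^ 2

theorem Nd_iff (p : ℍ[ℝ]) (X Y : ℝ) (x : ℤ × ℤ × ℤ) :
    Nd p X Y x ↔ NR p X Y x.1 x.2.1 x.2.2 := by
  unfold Nd NR
  rw [Sp_pq, dt_self]

theorem NR_add {p : ℍ[ℝ]} {X Y X' Y' a b c a' b' c' : ℝ} (hX : 0 ≤ X) (hY : 0 ≤ Y) (hX' : 0 ≤ X')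
    (hY' : 0 ≤ Y') (h : NR p X Y a b c) (h' : NR p X' Y' a' b' c') :
    NR p (X + X') (Y + Y') (a + a') (b + b') (c + c') := by
  refine ⟨tri hX hX' h.1 h'.1, ?_⟩
  have := tri hY hY' h.2 h'.2
  refine le_trans (le_of_eq ?_) this
  ring

theorem NR_half {p : ℍ[ℝ]} {X Y a b c : ℝ} (s : ℝ) (hs : |s| ≤ 1 / 2)
    (h : NR p (2 * X) (2 * Y) a b c) : NR p X Y (s * a) (s * b) (s * c) := by
  have h1 : s ^ 2 ≤ 1 / 4 := by
    have h2 : |s| ^ 2 ≤ (1 / 2) ^ 2 := by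
      have := abs_nonneg s
      nlinarith
    rw [sq_abs] at h2
    norm_num at h2 ⊢
    exact h2
  obtain ⟨ha, hb⟩ := h
  constructor
  · have : (s * a) ^ 2 + (s * b) ^ 2 + (s * c) ^ 2 = s ^ 2 * (a ^ 2 + b ^ 2 + c ^ 2) := by ring
    rw [this]
    have h3 : s ^ 2 * (a ^ 2 + b ^ 2 + c ^ 2) ≤ 1 / 4 * (2 * X) ^ 2 :=
      mul_le_mul h1 ha (by positivity) (by norm_num)
    linarith
  · have : (s * b * p.imK - s * c * p.imJ) ^ 2 + (s * c * p.imI - s * a * p.imK) ^ 2 +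
        (s * a * p.imJ - s * b * p.imI) ^ 2 = s ^ 2 * ((b * p.imK - c * p.imJ) ^ 2 +
          (c * p.imI - a * p.imK) ^ 2 + (a * p.imJ - b * p.imI) ^ 2) := by ring
    rw [this]
    have h3 : s ^ 2 * ((b * p.imK - c * p.imJ) ^ 2 +
          (c * p.imI - a * p.imK) ^ 2 + (a * p.imJ - b * p.imI) ^ 2) ≤ 1 / 4 * (2 * Y) ^ 2 :=
      mul_le_mul h1 hb (by positivity) (by norm_num)
    linarith

/-- grid counting -/
theorem grid_count (s : ℝ) (hs : 0 < s) (hs1 : s ≤ 1) (F : Finset (ℤ × ℤ × ℤ))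
    (u v : ℤ × ℤ × ℤ → ℝ) (hu : ∀ x ∈ F, |u x| ≤ 2) (hv : ∀ x ∈ F, |v x| ≤ 2)
    (hsep : ∀ x ∈ F, ∀ y ∈ F, x ≠ y → ¬ (|u x - u y| < s / 4 ∧ |v x - v y| < s / 4)) :
    (F.card : ℝ) ≤ 1000 / s ^ 2 := by
  let g : ℤ × ℤ × ℤ → ℤ × ℤ := fun x => (⌊4 * u x / s⌋, ⌊4 * v x / s⌋)
  have hfl : ∀ a b : ℝ, ⌊4 * a / s⌋ = ⌊4 * b / s⌋ → |a - b| < s / 4 := by
    intro a b h
    have h1 := Int.abs_sub_lt_one_of_floor_eq_floor h
    have h2 : 4 * a / s - 4 * b / s = (a - b) * (4 / s) := by ring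
    rw [h2, abs_mul, abs_of_pos (by positivity : (0 : ℝ) < 4 / s)] at h1
    rw [lt_div_iff₀ (by norm_num : (0 : ℝ) < 4)]
    have h3 : |a - b| * 4 = (|a - b| * (4 / s)) * s := by field_simp
    rw [h3]
    nlinarith
  have hg : Set.InjOn g (F : Set (ℤ × ℤ × ℤ)) := by
    intro x hx y hy h
    by_contra hne
    apply hsep x hx y hy hne
    exact ⟨hfl _ _ (congrArg Prod.fst h), hfl _ _ (congrArg Prod.snd h)⟩
  let I : Finset ℤ := Finset.Icc ⌊-(8 / s)⌋ ⌊8 / s⌋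
  have hI : ∀ a : ℝ, |a| ≤ 2 → ⌊4 * a / s⌋ ∈ I := by
    intro a ha
    rw [abs_le] at ha
    rw [Finset.mem_Icc]
    constructor
    · apply Int.floor_le_floor
      rw [neg_le, ← neg_div]
      apply div_le_div_of_nonneg_right _ hs.le
      linarith
    · apply Int.floor_le_floor
      apply div_le_div_of_nonneg_right _ hs.le
      linarith
  have hsub : F.image g ⊆ I ×ˢ I := by
    intro z hz
    rw [Finset.mem_image] at hz
    obtain ⟨x, hx, rfl⟩ := hz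
    rw [Finset.mem_product]
    exact ⟨hI _ (hu x hx), hI _ (hv x hx)⟩
  have hcard := Finset.card_le_card hsub
  rw [Finset.card_image_of_injOn hg, Finset.card_product] at hcard
  have h8 : (8 : ℝ) ≤ 8 / s := by
    rw [le_div_iff₀ hs]
    linarith
  have hIc : (I.card : ℝ) ≤ 18 / s := by
    rw [Int.card_Icc]
    have f1 : ⌊-(8 / s)⌋ ≤ ⌊8 / s⌋ := Int.floor_le_floor (by linarith)
    have e1 : ((⌊8 / s⌋ + 1 - ⌊-(8 / s)⌋).toNat : ℤ) = ⌊8 / s⌋ + 1 - ⌊-(8 / s)⌋ :=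
      Int.toNat_of_nonneg (by linarith)
    have e2 : ((⌊8 / s⌋ + 1 - ⌊-(8 / s)⌋).toNat : ℝ) = ⌊8 / s⌋ + 1 - ⌊-(8 / s)⌋ := by
      exact_mod_cast e1
    rw [e2]
    have f2 := Int.floor_le (8 / s)
    have f3 := Int.lt_floor_add_one (-(8 / s))
    have f4 : 18 / s = 8 / s + 8 / s + 2 / s := by ring
    have f5 : (2 : ℝ) ≤ 2 / s := by
      rw [le_div_iff₀ hs]
      linarith
    rw [f4]
    linarith
  have h1 : (F.card : ℝ) ≤ (I.card : ℝ) * I.card := by exact_mod_cast hcard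
  have h2 : (I.card : ℝ) * I.card ≤ 18 / s * (18 / s) :=
    mul_le_mul hIc hIc (by positivity) (by positivity)
  have h3 : 18 / s * (18 / s) = 324 / s ^ 2 := by
    field_simp
    norm_num
  have h4 : 324 / s ^ 2 ≤ 1000 / s ^ 2 := by
    apply div_le_div_of_nonneg_right _ (by positivity)
    norm_num
  linarith

/-- an orthonormal basis with a given first vector -/
theorem basis_exists (a b c : ℝ) (h : a ^ 2 + b ^ 2 + c ^ 2 = 1) :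
    ∃ e f g e' f' g' : ℝ,
      a * a + e * e + e' * e' = 1 ∧ b * b + f * f + f' * f' = 1 ∧ c * c + g * g + g' * g' = 1 ∧
      a * b + e * f + e' * f' = 0 ∧ a * c + e * g + e' * g' = 0 ∧ b * c + f * g + f' * g' = 0 := by
  have main : ∀ a b c : ℝ, 0 ≤ c → a ^ 2 + b ^ 2 + c ^ 2 = 1 → ∃ e f g e' f' g' : ℝ,
      a * a + e * e + e' * e' = 1 ∧ b * b + f * f + f' * f' = 1 ∧ c * c + g * g + g' * g' = 1 ∧
      a * b + e * f + e' * f' = 0 ∧ a * c + e * g + e' * g' = 0 ∧ b * c + f * g + f' * g' = 0 := by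
    intro a b c hc h
    obtain ⟨t, ht⟩ : ∃ t : ℝ, (1 + c) * t = 1 := ⟨(1 + c)⁻¹, mul_inv_cancel₀ (by positivity)⟩
    have key : 1 - 2 * t + (a ^ 2 + b ^ 2) * t ^ 2 = 0 := by
      have h1 : a ^ 2 + b ^ 2 = (1 - c) * (1 + c) := by linarith [h]
      rw [h1]
      have h2 : (1 - c) * (1 + c) * t ^ 2 = (1 - c) * t * ((1 + c) * t) := by ring
      rw [h2, ht]
      linarith
    refine ⟨1 - a ^ 2 * t, -(a * b * t), -a, -(a * b * t), 1 - b ^ 2 * t, -b, ?_, ?_, ?_, ?_, ?_, ?_⟩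
    · linear_combination a ^ 2 * key
    · linear_combination b ^ 2 * key
    · linear_combination h
    · linear_combination a * b * key
    · linear_combination a * t * h + a * (1 - c) * ht
    · linear_combination b * t * h + b * (1 - c) * ht
  rcases le_total 0 c with hc | hc
  · exact main a b c hc h
  · obtain ⟨e, f, g, e', f', g', h1, h2, h3, h4, h5, h6⟩ :=
      main (-a) (-b) (-c) (by linarith) (by linarith [h])
    exact ⟨e, f, g, e', f', g', by linarith, by linarith, by linarith, by linarith, by linarith,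
      by linarith⟩

theorem sq3_zero {x y z : ℝ} (h : x ^ 2 + y ^ 2 + z ^ 2 = 0) : x = 0 ∧ y = 0 ∧ z = 0 := by
  have hx := sq_nonneg x
  have hy := sq_nonneg y
  have hz := sq_nonneg z
  exact ⟨pow_eq_zero_iff (two_ne_zero) |>.mp (by linarith), pow_eq_zero_iff (two_ne_zero) |>.mp (by linarith),
    pow_eq_zero_iff (two_ne_zero) |>.mp (by linarith)⟩

theorem mul_div_aux {X : ℝ} (hX : 0 < X) (u v : ℝ) : X * u * (v / X) = u * v := by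
  field_simp

theorem mul_sub_div_aux {X : ℝ} (hX : 0 < X) (u v : ℝ) : X * (u / X - v / X) = u - v := by
  field_simp

theorem sq_lt_aux {t s : ℝ} (h : |t| < s) : t ^ 2 < s ^ 2 := by
  rw [← sq_abs]
  have := abs_nonneg t
  nlinarith

theorem sep_aux1 {X Y s a b c : ℝ} (hX : 0 < X) (hY : 0 < Y) (hYX : Y ≤ X) (hs : 0 < s) (h1 : a ^ 2 < (s / 2) ^ 2)
    (h2 : b ^ 2 < (s / 2) ^ 2) (h3 : c ^ 2 < (s / 2) ^ 2) :
    (X * a) ^ 2 + (Y * b) ^ 2 + (Y * c) ^ 2 < (s * X) ^ 2 := by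
  have hY2 : Y ^ 2 ≤ X ^ 2 := by nlinarith
  have k2 : (Y * b) ^ 2 ≤ X ^ 2 * b ^ 2 := by
    rw [mul_pow]
    exact mul_le_mul_of_nonneg_right hY2 (sq_nonneg _)
  have k3 : (Y * c) ^ 2 ≤ X ^ 2 * c ^ 2 := by
    rw [mul_pow]
    exact mul_le_mul_of_nonneg_right hY2 (sq_nonneg _)
  have hX2 : 0 < X ^ 2 := by positivity
  have k4 : X ^ 2 * (a ^ 2 + b ^ 2 + c ^ 2) < X ^ 2 * (3 * (s / 2) ^ 2) := by
    apply mul_lt_mul_of_pos_left _ hX2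
    linarith
  have k5 : 0 ≤ X ^ 2 * s ^ 2 := by positivity
  have k6 : (X * a) ^ 2 + X ^ 2 * b ^ 2 + X ^ 2 * c ^ 2 = X ^ 2 * (a ^ 2 + b ^ 2 + c ^ 2) := by ring
  have k7 : X ^ 2 * (3 * (s / 2) ^ 2) = 3 / 4 * (X ^ 2 * s ^ 2) := by ring
  have k8 : (s * X) ^ 2 = X ^ 2 * s ^ 2 := by ring
  linarith

theorem sep_aux2 {Y s b c : ℝ} (hY : 0 < Y) (hs : 0 < s)
    (h2 : b ^ 2 < (s / 2) ^ 2) (h3 : c ^ 2 < (s / 2) ^ 2) :
    (Y * b) ^ 2 + (Y * c) ^ 2 < (s * Y) ^ 2 := by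
  have hY2 : 0 < Y ^ 2 := by positivity
  have k4 : Y ^ 2 * (b ^ 2 + c ^ 2) < Y ^ 2 * (2 * (s / 2) ^ 2) := by
    apply mul_lt_mul_of_pos_left _ hY2
    linarith
  have k5 : 0 ≤ Y ^ 2 * s ^ 2 := by positivity
  have k6 : (Y * b) ^ 2 + (Y * c) ^ 2 = Y ^ 2 * (b ^ 2 + c ^ 2) := by ring
  have k7 : Y ^ 2 * (2 * (s / 2) ^ 2) = 1 / 2 * (Y ^ 2 * s ^ 2) := by ring
  have k8 : (s * Y) ^ 2 = Y ^ 2 * s ^ 2 := by ring
  linarith

theorem abs_dep {d₁ d₂ d₃ ν₁ ν₂ ν₃ : ℝ} (h : ν₁ * d₁ + ν₂ * d₂ + ν₃ * d₃ = 0) (h0 : ν₁ ≠ 0)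
    (h2 : |ν₂| ≤ |ν₁|) (h3 : |ν₃| ≤ |ν₁|) : |d₁| ≤ |d₂| + |d₃| := by
  have hp : 0 < |ν₁| := abs_pos.mpr h0
  have h4 : |ν₁| * |d₁| ≤ |ν₁| * (|d₂| + |d₃|) := by
    rw [← abs_mul]
    have h5 : ν₁ * d₁ = -(ν₂ * d₂ + ν₃ * d₃) := by linarith
    rw [h5, abs_neg]
    calc |ν₂ * d₂ + ν₃ * d₃| ≤ |ν₂ * d₂| + |ν₃ * d₃| := abs_add_le _ _
      _ = |ν₂| * |d₂| + |ν₃| * |d₃| := by rw [abs_mul, abs_mul]
      _ ≤ |ν₁| * |d₂| + |ν₁| * |d₃| := by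
          apply add_le_add <;> apply mul_le_mul_of_nonneg_right _ (abs_nonneg _) <;> assumption
      _ = |ν₁| * (|d₂| + |d₃|) := by ring
  exact le_of_mul_le_mul_left h4 hp

end NC

open NC

/-- TARGET 1 -/
theorem needle_pts (p : ℍ[ℝ]) (hp : UP p) (X Y : ℝ) (hX : 1 ≤ X) (hY : 0 ≤ Y) (F : Finset (ℤ × ℤ × ℤ))
    (hF : ∀ x ∈ F, Nd p X Y x) : (F.card : ℝ) ≤ 100 * X * (1 + Y) ^ 2 := by
  have hsq := up_sq hp
  have hcases : 1 / 3 ≤ p.imI ^ 2 ∨ 1 / 3 ≤ p.imJ ^ 2 ∨ 1 / 3 ≤ p.imK ^ 2 := by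
    by_contra h
    push Not at h
    linarith [h.1, h.2.1, h.2.2]
  have hb : ∀ x ∈ F, (|(x.1 : ℝ)| ≤ X ∧ |(x.2.1 : ℝ)| ≤ X ∧ |(x.2.2 : ℝ)| ≤ X) ∧
      |(x.2.1 : ℝ) * p.imK - x.2.2 * p.imJ| ≤ Y ∧ |(x.2.2 : ℝ) * p.imI - x.1 * p.imK| ≤ Y ∧
        |(x.1 : ℝ) * p.imJ - x.2.1 * p.imI| ≤ Y := by
    intro x hx
    have h := (Nd_iff _ _ _ _).mp (hF x hx)
    exact ⟨abs_le_of_sq3 (by linarith) h.1, abs_le_of_sq3 hY h.2⟩
  rcases hcases with h | h | h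
  · refine window_count X Y hX hY F (fun x => x.1) (fun x => x.2.1) (fun x => x.2.2) ?_ p.imI p.imJ
      p.imK h (fun x hx => (hb x hx).1.1) (fun x hx => ?_) (fun x hx => (hb x hx).2.2.1)
    · rintro ⟨x1, x2, x3⟩ ⟨y1, y2, y3⟩ h1 h2 h3
      simp only at h1 h2 h3
      rw [h1, h2, h3]
    · rw [abs_sub_comm]
      exact (hb x hx).2.2.2
  · refine window_count X Y hX hY F (fun x => x.2.1) (fun x => x.1) (fun x => x.2.2) ?_ p.imJ p.imI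
      p.imK h (fun x hx => (hb x hx).1.2.1) (fun x hx => (hb x hx).2.2.2) (fun x hx => ?_)
    · rintro ⟨x1, x2, x3⟩ ⟨y1, y2, y3⟩ h1 h2 h3
      simp only at h1 h2 h3
      rw [h1, h2, h3]
    · rw [abs_sub_comm]
      exact (hb x hx).2.1
  · refine window_count X Y hX hY F (fun x => x.2.2) (fun x => x.1) (fun x => x.2.1) ?_ p.imK p.imI
      p.imJ h (fun x hx => (hb x hx).1.2.2) (fun x hx => ?_) (fun x hx => (hb x hx).2.1)
    · rintro ⟨x1, x2, x3⟩ ⟨y1, y2, y3⟩ h1 h2 h3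
      simp only at h1 h2 h3
      rw [h1, h2, h3]
    · rw [abs_sub_comm]
      exact (hb x hx).2.2.1

/-- TARGET 2 -/
theorem rank3_count (D : ℕ) [NeZero D] (f : ℤ × ℤ × ℤ →+ ZMod D) (hf : Function.Surjective f) (p : ℍ[ℝ])
    (hp : UP p) (X Y : ℝ) (hX : 1 ≤ X) (hY : 0 < Y) (F : Finset (ℤ × ℤ × ℤ))
    (hF : ∀ x ∈ F, f x = 0 ∧ Nd p (2 * X) (2 * Y) x) (b₁ b₂ b₃ : ℤ × ℤ × ℤ) (h₁ : b₁ ∈ F) (h₂ : b₂ ∈ F) (h₃ : b₃ ∈ F)
    (hdet : dt (crz b₁ b₂) b₃ ≠ 0) : (D : ℝ) * F.card ≤ 12500 * X * (1 + Y) ^ 2 := by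
  have hz : ∀ c : ZMod D, ∃ z : ℤ × ℤ × ℤ, f z = c ∧ Nd p (3 * X) (3 * Y) z := by
    intro c
    obtain ⟨z, rfl⟩ := hf c
    -- Cramer
    set Δ : ℝ := ((dt (crz b₁ b₂) b₃ : ℤ) : ℝ) with hΔ
    have hΔ0 : Δ ≠ 0 := by
      rw [hΔ]
      exact_mod_cast hdet
    have hcr : ∃ t₁ t₂ t₃ : ℝ, (z.1 : ℝ) = t₁ * b₁.1 + t₂ * b₂.1 + t₃ * b₃.1 ∧
        (z.2.1 : ℝ) = t₁ * b₁.2.1 + t₂ * b₂.2.1 + t₃ * b₃.2.1 ∧
        (z.2.2 : ℝ) = t₁ * b₁.2.2 + t₂ * b₂.2.2 + t₃ * b₃.2.2 := by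
      refine ⟨((dt (crz b₂ b₃) z : ℤ) : ℝ) / Δ, ((dt (crz b₃ b₁) z : ℤ) : ℝ) / Δ,
        ((dt (crz b₁ b₂) z : ℤ) : ℝ) / Δ, ?_, ?_, ?_⟩
      all_goals
        rw [div_mul_eq_mul_div, div_mul_eq_mul_div, div_mul_eq_mul_div, ← add_div, ← add_div,
          eq_div_iff hΔ0, hΔ]
        simp only [dt, crz]
        push_cast
        ring
    obtain ⟨t₁, t₂, t₃, e1, e2, e3⟩ := hcr
    refine ⟨z - (round t₁ • b₁ + round t₂ • b₂ + round t₃ • b₃), ?_, ?_⟩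
    · rw [map_sub, map_add, map_add, map_zsmul, map_zsmul, map_zsmul, (hF _ h₁).1, (hF _ h₂).1,
        (hF _ h₃).1]
      simp
    · rw [Nd_iff]
      have hr : ∀ t : ℝ, |t - round t| ≤ 1 / 2 := fun t => abs_sub_round t
      have n1 := NR_half (t₁ - round t₁) (hr t₁) ((Nd_iff _ _ _ _).mp (hF _ h₁).2)
      have n2 := NR_half (t₂ - round t₂) (hr t₂) ((Nd_iff _ _ _ _).mp (hF _ h₂).2)
      have n3 := NR_half (t₃ - round t₃) (hr t₃) ((Nd_iff _ _ _ _).mp (hF _ h₃).2)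
      have hX0 : 0 ≤ X := by linarith
      have n12 := NR_add hX0 hY.le hX0 hY.le n1 n2
      have n123 := NR_add (by linarith) (by linarith) hX0 hY.le n12 n3
      have eX : X + X + X = 3 * X := by ring
      have eY : Y + Y + Y = 3 * Y := by ring
      rw [eX, eY] at n123
      convert n123 using 1
      · simp only [Prod.fst_sub, Prod.fst_add, Prod.smul_fst, smul_eq_mul]
        push_cast
        rw [e1]
        ring
      · simp only [Prod.fst_sub, Prod.fst_add, Prod.snd_sub, Prod.snd_add, Prod.smul_fst,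
          Prod.smul_snd, smul_eq_mul]
        push_cast
        rw [e2]
        ring
      · simp only [Prod.snd_sub, Prod.snd_add, Prod.smul_snd, smul_eq_mul]
        push_cast
        rw [e3]
        ring
  choose z hz1 hz2 using hz
  let P : Finset (ZMod D × (ℤ × ℤ × ℤ)) := Finset.univ ×ˢ F
  let g : ZMod D × (ℤ × ℤ × ℤ) → ℤ × ℤ × ℤ := fun q => z q.1 + q.2
  have hg : Set.InjOn g (P : Set (ZMod D × (ℤ × ℤ × ℤ))) := by
    rintro ⟨c, x⟩ hx ⟨c', x'⟩ hx' h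
    rw [Finset.mem_coe, Finset.mem_product] at hx hx'
    have hzx : z c + x = z c' + x' := h
    have h1 : f (z c + x) = f (z c' + x') := congrArg f hzx
    rw [map_add, map_add, hz1, hz1, (hF _ hx.2).1, (hF _ hx'.2).1, add_zero, add_zero] at h1
    subst h1
    have h2 : x = x' := add_left_cancel hzx
    rw [h2]
  have hmain := needle_pts p hp (5 * X) (5 * Y) (by linarith) (by linarith) (P.image g) (by
    intro y hy
    rw [Finset.mem_image] at hy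
    obtain ⟨⟨c, x⟩, hx, rfl⟩ := hy
    rw [Finset.mem_product] at hx
    rw [Nd_iff]
    have n1 := (Nd_iff _ _ _ _).mp (hz2 c)
    have n2 := (Nd_iff _ _ _ _).mp (hF _ hx.2).2
    have n12 := NR_add (by linarith) (by linarith) (by linarith) (by linarith) n1 n2
    have eX : 3 * X + 2 * X = 5 * X := by ring
    have eY : 3 * Y + 2 * Y = 5 * Y := by ring
    rw [eX, eY] at n12
    convert n12 using 1
    · show (((z c + x).1 : ℤ) : ℝ) = _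
      rw [Prod.fst_add]; push_cast; rfl
    · show (((z c + x).2.1 : ℤ) : ℝ) = _
      rw [Prod.snd_add, Prod.fst_add]; push_cast; rfl
    · show (((z c + x).2.2 : ℤ) : ℝ) = _
      rw [Prod.snd_add, Prod.snd_add]; push_cast; rfl)
  rw [Finset.card_image_of_injOn hg, Finset.card_product, Finset.card_univ, ZMod.card] at hmain
  push_cast at hmain
  refine le_trans hmain ?_
  have h1 : (1 + 5 * Y) ^ 2 ≤ 25 * (1 + Y) ^ 2 := by nlinarith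
  have h2 : 100 * (5 * X) * (1 + 5 * Y) ^ 2 ≤ 100 * (5 * X) * (25 * (1 + Y) ^ 2) :=
    mul_le_mul_of_nonneg_left h1 (by positivity)
  refine le_trans h2 (le_of_eq ?_)
  ring

/-- TARGET 3 -/
theorem planar_count (p : ℍ[ℝ]) (hp : UP p) (X Y s : ℝ) (hY : 0 < Y) (hYX : Y ≤ X) (hs : 0 < s) (hs1 : s ≤ 1)
    (n : ℤ × ℤ × ℤ) (hn : n ≠ 0) (F : Finset (ℤ × ℤ × ℤ))
    (hF : ∀ x ∈ F, Nd p (2 * X) (2 * Y) x ∧ dt n x = 0)
    (hsep : ∀ x ∈ F, ∀ y ∈ F, x ≠ y → (s * X) ^ 2 ≤ (dt (x - y) (x - y) : ℝ) ∨ (s * Y) ^ 2 ≤ Sp p (pq (x - y))) :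
    (F.card : ℝ) ≤ 1000 / s ^ 2 := by
  have hX : 0 < X := lt_of_lt_of_le hY hYX
  obtain ⟨e, f, g, e', f', g', c11, c22, c33, c12, c13, c23⟩ := basis_exists p.imI p.imJ p.imK (up_sq hp)
  set a := p.imI with ha
  set b := p.imJ with hb
  set c := p.imK with hc
  have hsq : a ^ 2 + b ^ 2 + c ^ 2 = 1 := up_sq hp
  -- coordinates
  let z₁ : ℤ × ℤ × ℤ → ℝ := fun x => (a * x.1 + b * x.2.1 + c * x.2.2) / X
  let z₂ : ℤ × ℤ × ℤ → ℝ := fun x => (e * x.1 + f * x.2.1 + g * x.2.2) / Y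
  let z₃ : ℤ × ℤ × ℤ → ℝ := fun x => (e' * x.1 + f' * x.2.1 + g' * x.2.2) / Y
  have hpars : ∀ x y z : ℝ, x ^ 2 + y ^ 2 + z ^ 2 =
      (a * x + b * y + c * z) ^ 2 + (e * x + f * y + g * z) ^ 2 + (e' * x + f' * y + g' * z) ^ 2 := by
    intro x y z
    linear_combination (-x ^ 2) * c11 - y ^ 2 * c22 - z ^ 2 * c33 - 2 * x * y * c12 -
      2 * x * z * c13 - 2 * y * z * c23
  have hcross : ∀ x y z : ℝ, (y * c - z * b) ^ 2 + (z * a - x * c) ^ 2 + (x * b - y * a) ^ 2 =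
      (e * x + f * y + g * z) ^ 2 + (e' * x + f' * y + g' * z) ^ 2 := by
    intro x y z
    have h1 : (y * c - z * b) ^ 2 + (z * a - x * c) ^ 2 + (x * b - y * a) ^ 2 =
        (a ^ 2 + b ^ 2 + c ^ 2) * (x ^ 2 + y ^ 2 + z ^ 2) - (a * x + b * y + c * z) ^ 2 := by ring
    rw [h1, hsq, hpars x y z]
    ring
  have hbd : ∀ x ∈ F, |z₁ x| ≤ 2 ∧ |z₂ x| ≤ 2 ∧ |z₃ x| ≤ 2 := by
    intro x hx
    have h := (Nd_iff _ _ _ _).mp (hF x hx).1
    obtain ⟨h1, h2⟩ := h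
    rw [← ha, ← hb, ← hc, hcross] at h2
    rw [hpars] at h1
    have k1 : |a * x.1 + b * x.2.1 + c * x.2.2| ≤ 2 * X := by
      apply abs_le_of_sq_le_sq _ (by positivity)
      linarith [sq_nonneg (e * x.1 + f * x.2.1 + g * x.2.2), sq_nonneg (e' * x.1 + f' * x.2.1 + g' * x.2.2)]
    have k2 : |e * x.1 + f * x.2.1 + g * x.2.2| ≤ 2 * Y := by
      apply abs_le_of_sq_le_sq _ (by positivity)
      linarith [sq_nonneg (e' * x.1 + f' * x.2.1 + g' * x.2.2)]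
    have k3 : |e' * x.1 + f' * x.2.1 + g' * x.2.2| ≤ 2 * Y := by
      apply abs_le_of_sq_le_sq _ (by positivity)
      linarith [sq_nonneg (e * x.1 + f * x.2.1 + g * x.2.2)]
    refine ⟨?_, ?_, ?_⟩
    · show |(a * x.1 + b * x.2.1 + c * x.2.2) / X| ≤ 2
      rw [abs_div, abs_of_pos hX, div_le_iff₀ hX]
      exact k1
    · show |(e * x.1 + f * x.2.1 + g * x.2.2) / Y| ≤ 2
      rw [abs_div, abs_of_pos hY, div_le_iff₀ hY]
      exact k2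
    · show |(e' * x.1 + f' * x.2.1 + g' * x.2.2) / Y| ≤ 2
      rw [abs_div, abs_of_pos hY, div_le_iff₀ hY]
      exact k3
  -- coefficients
  let ν₁ : ℝ := X * (a * n.1 + b * n.2.1 + c * n.2.2)
  let ν₂ : ℝ := Y * (e * n.1 + f * n.2.1 + g * n.2.2)
  let ν₃ : ℝ := Y * (e' * n.1 + f' * n.2.1 + g' * n.2.2)
  have hν : ¬ (ν₁ = 0 ∧ ν₂ = 0 ∧ ν₃ = 0) := by
    rintro ⟨h1, h2, h3⟩
    have k1 : a * n.1 + b * n.2.1 + c * n.2.2 = 0 := by
      rcases mul_eq_zero.mp h1 with h | h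
      · exact absurd h hX.ne'
      · exact h
    have k2 : e * n.1 + f * n.2.1 + g * n.2.2 = 0 := by
      rcases mul_eq_zero.mp h2 with h | h
      · exact absurd h hY.ne'
      · exact h
    have k3 : e' * n.1 + f' * n.2.1 + g' * n.2.2 = 0 := by
      rcases mul_eq_zero.mp h3 with h | h
      · exact absurd h hY.ne'
      · exact h
    have h4 := hpars n.1 n.2.1 n.2.2
    rw [k1, k2, k3] at h4
    obtain ⟨h5, h6, h7⟩ := sq3_zero (h4.trans (by ring))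
    apply hn
    have h5' : n.1 = 0 := by exact_mod_cast h5
    have h6' : n.2.1 = 0 := by exact_mod_cast h6
    have h7' : n.2.2 = 0 := by exact_mod_cast h7
    ext <;> simp [h5', h6', h7']
  have hlin : ∀ x ∈ F, ν₁ * z₁ x + ν₂ * z₂ x + ν₃ * z₃ x = 0 := by
    intro x hx
    have h := (hF x hx).2
    have h1 : ((dt n x : ℤ) : ℝ) = 0 := by rw [h]; simp
    simp only [dt] at h1
    push_cast at h1
    have e1 : ν₁ * z₁ x = (a * n.1 + b * n.2.1 + c * n.2.2) * (a * x.1 + b * x.2.1 + c * x.2.2) := by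
      exact mul_div_aux hX _ _
    have e2 : ν₂ * z₂ x = (e * n.1 + f * n.2.1 + g * n.2.2) * (e * x.1 + f * x.2.1 + g * x.2.2) := by
      exact mul_div_aux hY _ _
    have e3 : ν₃ * z₃ x =
        (e' * n.1 + f' * n.2.1 + g' * n.2.2) * (e' * x.1 + f' * x.2.1 + g' * x.2.2) := by
      exact mul_div_aux hY _ _
    rw [e1, e2, e3]
    linear_combination (n.1 * x.1 : ℝ) * c11 + (n.2.1 * x.2.1 : ℝ) * c22 + (n.2.2 * x.2.2 : ℝ) * c33 +
      (n.1 * x.2.1 + n.2.1 * x.1 : ℝ) * c12 + (n.1 * x.2.2 + n.2.2 * x.1 : ℝ) * c13 +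
      (n.2.1 * x.2.2 + n.2.2 * x.2.1 : ℝ) * c23 + h1
  -- the separation in terms of the coordinates
  have hs2 : ∀ x ∈ F, ∀ y ∈ F, x ≠ y →
      ¬ (|z₁ x - z₁ y| < s / 2 ∧ |z₂ x - z₂ y| < s / 2 ∧ |z₃ x - z₃ y| < s / 2) := by
    rintro x hx y hy hne ⟨h1, h2, h3⟩
    have q1 := sq_lt_aux h1
    have q2 := sq_lt_aux h2
    have q3 := sq_lt_aux h3
    have w1 : a * ((x - y).1 : ℤ) + b * ((x - y).2.1 : ℤ) + c * ((x - y).2.2 : ℤ) =
        X * (z₁ x - z₁ y) := by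
      show _ = X * ((a * x.1 + b * x.2.1 + c * x.2.2) / X - (a * y.1 + b * y.2.1 + c * y.2.2) / X)
      rw [mul_sub_div_aux hX]
      simp only [Prod.fst_sub, Prod.snd_sub]
      push_cast
      ring
    have w2 : e * ((x - y).1 : ℤ) + f * ((x - y).2.1 : ℤ) + g * ((x - y).2.2 : ℤ) =
        Y * (z₂ x - z₂ y) := by
      show _ = Y * ((e * x.1 + f * x.2.1 + g * x.2.2) / Y - (e * y.1 + f * y.2.1 + g * y.2.2) / Y)
      rw [mul_sub_div_aux hY]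
      simp only [Prod.fst_sub, Prod.snd_sub]
      push_cast
      ring
    have w3 : e' * ((x - y).1 : ℤ) + f' * ((x - y).2.1 : ℤ) + g' * ((x - y).2.2 : ℤ) =
        Y * (z₃ x - z₃ y) := by
      show _ = Y * ((e' * x.1 + f' * x.2.1 + g' * x.2.2) / Y - (e' * y.1 + f' * y.2.1 + g' * y.2.2) / Y)
      rw [mul_sub_div_aux hY]
      simp only [Prod.fst_sub, Prod.snd_sub]
      push_cast
      ring
    rcases hsep x hx y hy hne with h | h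
    · rw [dt_self, hpars, w1, w2, w3] at h
      exact absurd h (not_le.mpr (sep_aux1 hX hY hYX hs q1 q2 q3))
    · rw [Sp_pq, ← ha, ← hb, ← hc, hcross, w2, w3] at h
      exact absurd h (not_le.mpr (sep_aux2 hY hs q2 q3))
  have hdiff : ∀ x ∈ F, ∀ y ∈ F,
      ν₁ * (z₁ x - z₁ y) + ν₂ * (z₂ x - z₂ y) + ν₃ * (z₃ x - z₃ y) = 0 := by
    intro x hx y hy
    have h1 := hlin x hx
    have h2 := hlin y hy
    linear_combination h1 - h2
  -- three cases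
  have hmax : (|ν₂| ≤ |ν₁| ∧ |ν₃| ≤ |ν₁|) ∨ (|ν₁| ≤ |ν₂| ∧ |ν₃| ≤ |ν₂|) ∨
      (|ν₁| ≤ |ν₃| ∧ |ν₂| ≤ |ν₃|) := by
    rcases le_total |ν₁| |ν₂| with h1 | h1 <;> rcases le_total |ν₂| |ν₃| with h2 | h2 <;>
      rcases le_total |ν₁| |ν₃| with h3 | h3
    · right; right; exact ⟨h3, h2⟩
    · right; right; exact ⟨le_trans h1 h2, h2⟩
    · right; left; exact ⟨h1, h2⟩
    · right; left; exact ⟨h1, h2⟩
    · right; right; exact ⟨h3, h2⟩
    · left; exact ⟨h1, h3⟩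
    · left; exact ⟨h1, le_trans h2 h1⟩
    · left; exact ⟨h1, h3⟩
  have hzero : ∀ t : ℝ, |t| ≤ 0 → t = 0 := fun t ht => abs_eq_zero.mp (le_antisymm ht (abs_nonneg t))
  rcases hmax with ⟨m1, m2⟩ | ⟨m1, m2⟩ | ⟨m1, m2⟩
  · have hne : ν₁ ≠ 0 := by
      intro h0
      rw [h0, abs_zero] at m1 m2
      exact hν ⟨h0, hzero _ m1, hzero _ m2⟩
    refine grid_count s hs hs1 F z₂ z₃ (fun x hx => (hbd x hx).2.1) (fun x hx => (hbd x hx).2.2) ?_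
    rintro x hx y hy hxy ⟨k1, k2⟩
    have h := abs_dep (hdiff x hx y hy) hne m1 m2
    exact hs2 x hx y hy hxy ⟨by linarith, by linarith, by linarith⟩
  · have hne : ν₂ ≠ 0 := by
      intro h0
      rw [h0, abs_zero] at m1 m2
      exact hν ⟨hzero _ m1, h0, hzero _ m2⟩
    refine grid_count s hs hs1 F z₁ z₃ (fun x hx => (hbd x hx).1) (fun x hx => (hbd x hx).2.2) ?_
    rintro x hx y hy hxy ⟨k1, k2⟩
    have h := abs_dep (d₁ := z₂ x - z₂ y) (d₂ := z₁ x - z₁ y) (d₃ := z₃ x - z₃ y)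
      (ν₁ := ν₂) (ν₂ := ν₁) (ν₃ := ν₃) (by linarith [hdiff x hx y hy]) hne m1 m2
    exact hs2 x hx y hy hxy ⟨by linarith, by linarith, by linarith⟩
  · have hne : ν₃ ≠ 0 := by
      intro h0
      rw [h0, abs_zero] at m1 m2
      exact hν ⟨hzero _ m1, hzero _ m2, h0⟩
    refine grid_count s hs hs1 F z₁ z₂ (fun x hx => (hbd x hx).1) (fun x hx => (hbd x hx).2.1) ?_
    rintro x hx y hy hxy ⟨k1, k2⟩
    have h := abs_dep (d₁ := z₃ x - z₃ y) (d₂ := z₁ x - z₁ y) (d₃ := z₂ x - z₂ y)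
      (ν₁ := ν₃) (ν₂ := ν₁) (ν₃ := ν₂) (by linarith [hdiff x hx y hy]) hne m1 m2
    exact hs2 x hx y hy hxy ⟨by linarith, by linarith, by linarith⟩

end Pool.Agent.H978V
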