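import Pool.Agent.H978V.NDefs
import Pool.Agent.H978V.A1
import Pool.Agent.H978V.A2

/-!
JOB A5 (owner helper978, MP_06cce2_nt).  `H978V/*.lean` (library, with `NDefs`) is on origin/main.

The number of lines parallel to a shortest vector meeting the lattice points in a needle.

PROOF.  `C₀ ≥ 1` from `short_vec`.  Let `W` be the (finite) set of all `x` with `f x = 0`, `Nd p (2X) (2Y) x`; write `g(x)² = max (|x|²/X²) (|p × x|²/Y²)` (`g` is a norm: `|·|` and `|p × ·|` are seminorms).  `F ⊆ {g ≤ 1}` contains a nonzero vector; let `h ≠ 0` be a vector with `f h = 0` and minimal `s = g(h) ≤ 1` (among the nonzero vectors of `W` with `g ≤ 1`, a finite nonempty set); `s > 0`, even `s ≥ |h|/X ≥ 1/X`.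
(1) `M = ⌊1/s⌋ ≥ 1`, `M ≥ 1/(2s)`.  Choose for each element of `F.image (crz h)` a preimage `x ∈ F`; the points `x + m • h`, `0 ≤ m < M`, are distinct (`crz h (x + m • h) = crz h x`; same `x`, different `m`), are killed by `f` and have `g ≤ 1 + m s ≤ 2`: `|F.image (crz h)| · M ≤ |W|`, so `|F.image (crz h)| ≤ 2 s |W|`.
(2) If there are `b₁, b₂, b₃ ∈ W` with `dt (crz b₁ b₂) b₃ ≠ 0`: `rank3_count`: `|W| ≤ 12500 X (1+Y)²/D ≤ 25000 X (1 + Y²)/D`, so `|F.image (crz h)| ≤ 50000 (s X/D + s X Y²/D)`; `s X/D ≤ X`.  Let `s' = (C₀ D/(X Y²))^(1/3)`.  If `s' < 1`: `short_vec` for `s' X, s' Y` (`(s'X)³ = C₀ D X²/Y² ≥ 1`; `s'X (s'Y)² = C₀ D`) gives a nonzero vector with `g ≤ s' < 1`, so `s ≤ s'` and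
`s X Y²/D ≤ C₀^(1/3) (X Y²/D)^(2/3)`.  If `s' ≥ 1`: `X Y²/D ≤ C₀`, `s X Y²/D ≤ X Y²/D ≤ C₀^(1/3) (X Y²/D)^(2/3)`.
(3) Otherwise all of `W` lies in a plane: there is an integral `n ≠ 0` with `dt n x = 0` for all `x ∈ W` (if some `b₁, b₂ ∈ W` have `crz b₁ b₂ ≠ 0` take `n = crz b₁ b₂`; otherwise all of `W` is parallel to `h`, take any `n ≠ 0` orthogonal to `h`).  Distinct `x, y ∈ W`: `f (x - y) = 0`, `x - y ≠ 0`, so `g(x-y) ≥ s` (if `g(x-y) ≤ 1` by minimality, otherwise `g > 1 ≥ s`): `(sX)² ≤ |x-y|²` or `(sY)² ≤ |p × (x-y)|²`.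
`planar_count`: `|W| ≤ 1000/s²`, so `|F.image (crz h)| ≤ 2000/s ≤ 2000 X`.
-/

set_option autoImplicit false

open scoped Quaternion

namespace Pool.Agent.H978V

open Pool.Agent.Helper557.Rz




namespace CrossCount

/-- real vector -/
noncomputable def io (x : ℤ × ℤ × ℤ) : EuclideanSpace ℝ (Fin 3) := !₂[(x.1 : ℝ), (x.2.1 : ℝ), (x.2.2 : ℝ)]

/-- vector product with `p` -/
noncomputable def ka (p : ℍ[ℝ]) (x : ℤ × ℤ × ℤ) : EuclideanSpace ℝ (Fin 3) :=
  !₂[x.2.1 * p.imK - x.2.2 * p.imJ, x.2.2 * p.imI - x.1 * p.imK, x.1 * p.imJ - x.2.1 * p.imI]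

lemma io_add (x y : ℤ × ℤ × ℤ) : io (x + y) = io x + io y := by
  ext i
  fin_cases i <;> simp [io]

lemma ka_add (p : ℍ[ℝ]) (x y : ℤ × ℤ × ℤ) : ka p (x + y) = ka p x + ka p y := by
  ext i
  fin_cases i <;> simp [ka] <;> ring

lemma io_smul (m : ℕ) (x : ℤ × ℤ × ℤ) : io (m • x) = (m : ℝ) • io x := by
  ext i
  fin_cases i <;> simp [io]

lemma ka_smul (p : ℍ[ℝ]) (m : ℕ) (x : ℤ × ℤ × ℤ) : ka p (m • x) = (m : ℝ) • ka p x := by
  ext i
  fin_cases i <;> simp [ka] <;> ring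

lemma io_norm (x : ℤ × ℤ × ℤ) : ‖io x‖ ^ 2 = (dt x x : ℝ) := by
  rw [EuclideanSpace.real_norm_sq_eq, Fin.sum_univ_three]
  simp only [io, dt]
  simp
  ring

lemma ka_norm (p : ℍ[ℝ]) (x : ℤ × ℤ × ℤ) : ‖ka p x‖ ^ 2 = Sp p (pq x) := by
  rw [EuclideanSpace.real_norm_sq_eq, Fin.sum_univ_three]
  simp only [ka, Sp, pq]
  simp

/-- the norm whose unit ball is the needle -/
noncomputable def G (p : ℍ[ℝ]) (X Y : ℝ) (x : ℤ × ℤ × ℤ) : ℝ := max (‖io x‖ / X) (‖ka p x‖ / Y)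

lemma G_add (p : ℍ[ℝ]) {X Y : ℝ} (hX : 0 < X) (hY : 0 < Y) (x y : ℤ × ℤ × ℤ) :
    G p X Y (x + y) ≤ G p X Y x + G p X Y y := by
  unfold G
  apply max_le
  · have h1 : ‖io (x + y)‖ / X ≤ ‖io x‖ / X + ‖io y‖ / X := by
      rw [io_add, ← add_div]
      exact div_le_div_of_nonneg_right (norm_add_le _ _) hX.le
    exact h1.trans (add_le_add (le_max_left _ _) (le_max_left _ _))
  · have h1 : ‖ka p (x + y)‖ / Y ≤ ‖ka p x‖ / Y + ‖ka p y‖ / Y := by
      rw [ka_add, ← add_div]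
      exact div_le_div_of_nonneg_right (norm_add_le _ _) hY.le
    exact h1.trans (add_le_add (le_max_right _ _) (le_max_right _ _))

lemma G_smul (p : ℍ[ℝ]) {X Y : ℝ} (m : ℕ) (x : ℤ × ℤ × ℤ) :
    G p X Y (m • x) = m * G p X Y x := by
  unfold G
  rw [io_smul, ka_smul, norm_smul, norm_smul, Real.norm_of_nonneg (Nat.cast_nonneg m),
    mul_max_of_nonneg _ _ (Nat.cast_nonneg m), mul_div_assoc, mul_div_assoc]

lemma G_le (p : ℍ[ℝ]) {X Y : ℝ} (hX : 0 < X) (hY : 0 < Y) {t : ℝ} (ht : 0 ≤ t) (x : ℤ × ℤ × ℤ) :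
    G p X Y x ≤ t ↔ Nd p (t * X) (t * Y) x := by
  unfold G Nd
  rw [max_le_iff, div_le_iff₀ hX, div_le_iff₀ hY, ← io_norm, ← ka_norm,
    sq_le_sq₀ (norm_nonneg _) (by positivity), sq_le_sq₀ (norm_nonneg _) (by positivity)]

lemma dt_pos {x : ℤ × ℤ × ℤ} (hx : x ≠ 0) : 1 ≤ dt x x := by
  have h1 : dt x x ≠ 0 := by
    intro h
    apply hx
    unfold dt at h
    have h1 : x.1 = 0 := by nlinarith [mul_self_nonneg x.1, mul_self_nonneg x.2.1, mul_self_nonneg x.2.2]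
    have h2 : x.2.1 = 0 := by nlinarith [mul_self_nonneg x.1, mul_self_nonneg x.2.1, mul_self_nonneg x.2.2]
    have h3 : x.2.2 = 0 := by nlinarith [mul_self_nonneg x.1, mul_self_nonneg x.2.1, mul_self_nonneg x.2.2]
    exact Prod.ext h1 (Prod.ext h2 h3)
  have h2 : 0 ≤ dt x x := by
    unfold dt
    nlinarith [mul_self_nonneg x.1, mul_self_nonneg x.2.1, mul_self_nonneg x.2.2]
  omega

lemma G_pos (p : ℍ[ℝ]) {X Y : ℝ} (hX : 0 < X) {x : ℤ × ℤ × ℤ} (hx : x ≠ 0) :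
    1 / X ≤ G p X Y x := by
  have h1 : (1 : ℝ) ≤ (dt x x : ℝ) := by exact_mod_cast dt_pos hx
  rw [← io_norm] at h1
  have h2 : 1 ≤ ‖io x‖ := by nlinarith [norm_nonneg (io x)]
  exact (div_le_div_of_nonneg_right h2 hX.le).trans (le_max_left _ _)

lemma fin_W (B : ℝ) : {x : ℤ × ℤ × ℤ | (dt x x : ℝ) ≤ B ^ 2}.Finite := by
  obtain ⟨N, hN⟩ := exists_nat_gt |B|
  refine ((Set.finite_Icc (-(N : ℤ)) N).prod ((Set.finite_Icc (-(N : ℤ)) N).prod
    (Set.finite_Icc (-(N : ℤ)) N))).subset ?_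
  intro x hx
  have h1 : (dt x x : ℝ) ≤ (N : ℝ) ^ 2 := by
    have : B ^ 2 ≤ (N : ℝ) ^ 2 := by
      rw [← sq_abs B]
      exact pow_le_pow_left₀ (abs_nonneg _) hN.le 2
    exact le_trans hx this
  have h2 : dt x x ≤ (N : ℤ) ^ 2 := by exact_mod_cast h1
  unfold dt at h2
  have key : ∀ a : ℤ, a * a ≤ (N : ℤ) ^ 2 → a ∈ Set.Icc (-(N : ℤ)) N := by
    intro a ha
    exact abs_le.1 (abs_le_of_sq_le_sq' (by nlinarith) (by positivity) |> fun h => abs_le.2 h)
  refine ⟨key _ ?_, key _ ?_, key _ ?_⟩ <;>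
    nlinarith [mul_self_nonneg x.1, mul_self_nonneg x.2.1, mul_self_nonneg x.2.2]

lemma crz_shift (h x : ℤ × ℤ × ℤ) (m : ℕ) : crz h (x + m • h) = crz h x := by
  unfold crz
  refine Prod.ext ?_ (Prod.ext ?_ ?_) <;> simp <;> ring

lemma smul_inj {h : ℤ × ℤ × ℤ} (hh : h ≠ 0) {m m' : ℕ} (e : m • h = m' • h) : m = m' := by
  have h1 : (m • h).1 = (m' • h).1 := by rw [e]
  have h2 : (m • h).2.1 = (m' • h).2.1 := by rw [e]
  have h3 : (m • h).2.2 = (m' • h).2.2 := by rw [e]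
  rw [Prod.smul_fst, Prod.smul_fst, nsmul_eq_mul, nsmul_eq_mul] at h1
  rw [Prod.smul_snd, Prod.smul_snd, Prod.smul_fst, Prod.smul_fst, nsmul_eq_mul, nsmul_eq_mul] at h2
  rw [Prod.smul_snd, Prod.smul_snd, Prod.smul_snd, Prod.smul_snd, nsmul_eq_mul, nsmul_eq_mul] at h3
  by_contra hne
  have hne' : (m : ℤ) - m' ≠ 0 := by
    intro h0
    apply hne
    have : (m : ℤ) = m' := by linarith
    exact_mod_cast this
  apply hh
  refine Prod.ext ?_ (Prod.ext ?_ ?_)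
  · have : ((m : ℤ) - m') * h.1 = 0 := by linarith
    exact (mul_eq_zero.1 this).resolve_left hne'
  · have : ((m : ℤ) - m') * h.2.1 = 0 := by linarith
    exact (mul_eq_zero.1 this).resolve_left hne'
  · have : ((m : ℤ) - m') * h.2.2 = 0 := by linarith
    exact (mul_eq_zero.1 this).resolve_left hne'

/-- counting along the lines parallel to `h` -/
lemma line_count (D : ℕ) [NeZero D] (f : ℤ × ℤ × ℤ →+ ZMod D) (p : ℍ[ℝ]) {X Y : ℝ} (hX : 0 < X)
    (hY : 0 < Y) (F W : Finset (ℤ × ℤ × ℤ)) (hF : ∀ x ∈ F, f x = 0 ∧ Nd p X Y x)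
    (hW : ∀ x, x ∈ W ↔ f x = 0 ∧ Nd p (2 * X) (2 * Y) x) {h : ℤ × ℤ × ℤ} (hh : h ≠ 0) (hf : f h = 0)
    (M : ℕ) (hM : ∀ m < M, (m : ℝ) * G p X Y h ≤ 1) : (F.image (crz h)).card * M ≤ W.card := by
  classical
  have hch : ∀ c ∈ F.image (crz h), ∃ x ∈ F, crz h x = c := fun c hc => by
    simpa using hc
  choose! g hg1 hg2 using hch
  rw [← Finset.card_range M, ← Finset.card_product]
  refine Finset.card_le_card_of_injOn (fun q => g q.1 + q.2 • h) ?_ ?_
  · rintro ⟨c, m⟩ hq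
    have hq := Finset.mem_product.1 (Finset.mem_coe.1 hq)
    have hc : c ∈ F.image (crz h) := hq.1
    have hm : m < M := Finset.mem_range.1 hq.2
    rw [Finset.mem_coe, hW]
    refine ⟨?_, ?_⟩
    · simp only [map_add, map_nsmul, hf, (hF _ (hg1 c hc)).1]
      simp
    · rw [← G_le p hX hY (by norm_num)]
      have h1 : G p X Y (g c) ≤ 1 := by
        rw [G_le p hX hY (by norm_num), one_mul, one_mul]
        exact (hF _ (hg1 c hc)).2
      have h2 := G_add p hX hY (g c) (m • h)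
      rw [G_smul] at h2
      have h3 := hM m hm
      show G p X Y (g c + m • h) ≤ 2
      linarith
  · rintro ⟨c, m⟩ hq ⟨c', m'⟩ hq' e
    have hq := Finset.mem_product.1 (Finset.mem_coe.1 hq)
    have hq' := Finset.mem_product.1 (Finset.mem_coe.1 hq')
    simp only at e
    have hc : c = c' := by
      have h1 := congrArg (crz h) e
      rw [crz_shift, crz_shift, hg2 c hq.1, hg2 c' hq'.1] at h1
      exact h1
    subst hc
    have h2 : m • h = m' • h := add_left_cancel e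
    rw [smul_inj hh h2]

/-- a normal vector of a coplanar set -/
lemma normal {W : Finset (ℤ × ℤ × ℤ)} {h : ℤ × ℤ × ℤ} (hh : h ≠ 0) (hhW : h ∈ W)
    (hW : ∀ b₁ ∈ W, ∀ b₂ ∈ W, ∀ b₃ ∈ W, dt (crz b₁ b₂) b₃ = 0) :
    ∃ n : ℤ × ℤ × ℤ, n ≠ 0 ∧ ∀ x ∈ W, dt n x = 0 := by
  by_cases h1 : ∃ b₁ ∈ W, ∃ b₂ ∈ W, crz b₁ b₂ ≠ 0
  · obtain ⟨b₁, hb₁, b₂, hb₂, hb⟩ := h1
    exact ⟨crz b₁ b₂, hb, fun x hx => hW b₁ hb₁ b₂ hb₂ x hx⟩
  · push Not at h1
    by_cases h2 : h.1 = 0 ∧ h.2.1 = 0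
    · refine ⟨(1, 0, 0), by simp, fun x hx => ?_⟩
      have h3 := h1 h hhW x hx
      have h4 := congrArg (fun y => y.2.1) h3
      simp only [crz, Prod.snd_zero, Prod.fst_zero, h2.1, zero_mul, sub_zero] at h4
      have h5 : h.2.2 ≠ 0 := by
        intro h6
        exact hh (Prod.ext h2.1 (Prod.ext h2.2 h6))
      have h6 : x.1 = 0 := (mul_eq_zero.1 h4).resolve_left h5
      simp [dt, h6]
    · refine ⟨(-h.2.1, h.1, 0), ?_, fun x hx => ?_⟩
      · intro h3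
        apply h2
        have h4 := congrArg Prod.fst h3
        have h5 := congrArg (fun y => y.2.1) h3
        simp at h4 h5
        exact ⟨h5, h4⟩
      · have h3 := h1 h hhW x hx
        have h4 := congrArg (fun y => y.2.2) h3
        simp only [crz, Prod.snd_zero] at h4
        simp only [dt]
        linarith

end CrossCount

open CrossCount in
/-- TARGET -/
theorem cross_count : ∃ C : ℝ, 1 ≤ C ∧ ∀ (D : ℕ) [NeZero D] (f : ℤ × ℤ × ℤ →+ ZMod D), Function.Surjective f →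
    ∀ p : ℍ[ℝ], UP p → ∀ X Y : ℝ, 1 ≤ X → 0 < Y → Y ≤ X → ∀ F : Finset (ℤ × ℤ × ℤ),
    (∀ x ∈ F, f x = 0 ∧ Nd p X Y x) → (∃ x ∈ F, x ≠ 0) →
    ∃ h : ℤ × ℤ × ℤ, h ≠ 0 ∧ (dt h h : ℝ) ≤ X ^ 2 ∧
      ((F.image (crz h)).card : ℝ) ≤ C * (X + (X * Y ^ 2 / D) ^ (2 / 3 : ℝ)) := by
  classical
  obtain ⟨C₀, hC₀, hsv⟩ := short_vec
  refine ⟨50000 * C₀, by linarith, ?_⟩
  intro D _ f hf p hp X Y hX hY hYX F hF hF0
  have hX0 : 0 < X := by linarith
  -- the finite set `W`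
  have hWfin : {x : ℤ × ℤ × ℤ | f x = 0 ∧ Nd p (2 * X) (2 * Y) x}.Finite :=
    (fin_W (2 * X)).subset fun x hx => hx.2.1
  set W : Finset (ℤ × ℤ × ℤ) := hWfin.toFinset with hWdef
  have hW : ∀ x, x ∈ W ↔ f x = 0 ∧ Nd p (2 * X) (2 * Y) x := fun x => by
    rw [hWdef, Set.Finite.mem_toFinset]; rfl
  -- the shortest vector
  have hne : (W.filter fun x => x ≠ 0 ∧ G p X Y x ≤ 1).Nonempty := by
    obtain ⟨x, hx, hx0⟩ := hF0
    have h1 : G p X Y x ≤ 1 := by
      rw [G_le p hX0 hY (by norm_num), one_mul, one_mul]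
      exact (hF x hx).2
    refine ⟨x, Finset.mem_filter.2 ⟨(hW x).2 ⟨(hF x hx).1, ?_⟩, hx0, h1⟩⟩
    rw [← G_le p hX0 hY (by norm_num)]
    linarith
  obtain ⟨h, hhm, hmin⟩ := Finset.exists_min_image _ (G p X Y) hne
  obtain ⟨hhW, hh0, hh1⟩ := Finset.mem_filter.1 hhm
  have hfh : f h = 0 := ((hW h).1 hhW).1
  have hmin' : ∀ z : ℤ × ℤ × ℤ, z ≠ 0 → f z = 0 → G p X Y h ≤ G p X Y z := by
    intro z hz hfz
    by_cases hz1 : G p X Y z ≤ 1
    · refine hmin z (Finset.mem_filter.2 ⟨(hW z).2 ⟨hfz, ?_⟩, hz, hz1⟩)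
      rw [← G_le p hX0 hY (by norm_num)]
      linarith
    · push Not at hz1
      linarith
  set s : ℝ := G p X Y h with hs
  have hsX : 1 / X ≤ s := G_pos p hX0 hh0
  have hs0 : 0 < s := lt_of_lt_of_le (by positivity) hsX
  have hXh : (dt h h : ℝ) ≤ X ^ 2 := by
    have := (G_le p hX0 hY (zero_le_one) h).1 hh1
    rw [one_mul, one_mul] at this
    exact this.1
  refine ⟨h, hh0, hXh, ?_⟩
  -- counting on lines
  set M : ℕ := ⌊1 / s⌋₊ with hM
  have hs1 : 1 ≤ 1 / s := by rw [le_div_iff₀ hs0]; linarith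
  have hM1 : 1 ≤ M := Nat.le_floor (by simpa using hs1)
  have hM2 : 1 / (2 * s) ≤ M := by
    have h1 : 1 / s < M + 1 := Nat.lt_floor_add_one _
    have h2 : (1 : ℝ) ≤ M := by exact_mod_cast hM1
    have h3 : 1 / (2 * s) = (1 / s) / 2 := by field_simp
    rw [h3]
    linarith
  have hcount := line_count D f p hX0 hY F W hF hW hh0 hfh M (fun m hm => by
    have h1 : (m : ℝ) ≤ M := by exact_mod_cast hm.le
    have h2 : (M : ℝ) ≤ 1 / s := Nat.floor_le (by positivity)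
    have h3 : (m : ℝ) ≤ 1 / s := h1.trans h2
    have h4 : (m : ℝ) * s ≤ 1 / s * s := mul_le_mul_of_nonneg_right h3 hs0.le
    rwa [one_div_mul_cancel hs0.ne'] at h4)
  have hI : ((F.image (crz h)).card : ℝ) ≤ 2 * s * W.card := by
    have h1 : ((F.image (crz h)).card : ℝ) * M ≤ W.card := by exact_mod_cast hcount
    have h2 : ((F.image (crz h)).card : ℝ) * (1 / (2 * s)) ≤ W.card :=
      (mul_le_mul_of_nonneg_left hM2 (Nat.cast_nonneg _)).trans h1
    rw [mul_one_div, div_le_iff₀ (by positivity)] at h2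
    linarith
  have hD : (1 : ℝ) ≤ D := by
    have := NeZero.pos D
    exact_mod_cast this
  have hD0 : (0 : ℝ) < D := by linarith
  set Q : ℝ := X * Y ^ 2 / D with hQ
  have hQ0 : 0 < Q := by positivity
  have hQ23 : 0 ≤ Q ^ (2 / 3 : ℝ) := by positivity
  by_cases hr : ∃ b₁ ∈ W, ∃ b₂ ∈ W, ∃ b₃ ∈ W, dt (crz b₁ b₂) b₃ ≠ 0
  · obtain ⟨b₁, hb₁, b₂, hb₂, b₃, hb₃, hb⟩ := hr
    have h1 := rank3_count D f hf p hp X Y hX hY W (fun x hx => (hW x).1 hx) b₁ b₂ b₃ hb₁ hb₂ hb₃ hb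
    have h2 : (W.card : ℝ) ≤ 25000 * (X / D + Q) := by
      have h3 : (D : ℝ) * W.card ≤ 25000 * (X * (1 + Y ^ 2)) := by
        nlinarith [mul_nonneg hX0.le (sq_nonneg (1 - Y))]
      have h4 : (W.card : ℝ) ≤ 25000 * (X * (1 + Y ^ 2)) / D := by
        rw [le_div_iff₀ hD0]
        linarith
      refine h4.trans (le_of_eq ?_)
      rw [hQ]
      field_simp
    -- cube roots
    set q : ℝ := Q ^ (1 / 3 : ℝ) with hq
    have hq0 : 0 < q := by positivity
    have hq3 : q ^ 3 = Q := by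
      rw [hq, ← Real.rpow_natCast, ← Real.rpow_mul hQ0.le]
      norm_num
    have hq2 : Q ^ (2 / 3 : ℝ) = q ^ 2 := by
      rw [hq, ← Real.rpow_natCast, ← Real.rpow_mul hQ0.le]
      norm_num
    set c : ℝ := C₀ ^ (1 / 3 : ℝ) with hc
    have hc0 : 0 < c := by positivity
    have hc3 : c ^ 3 = C₀ := by
      rw [hc, ← Real.rpow_natCast, ← Real.rpow_mul (by linarith)]
      norm_num
    have hc1 : 1 ≤ c := by
      rw [hc]
      exact Real.one_le_rpow hC₀ (by norm_num)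
    have hcC : c ≤ C₀ := by
      rw [← hc3]
      nlinarith [mul_nonneg (mul_nonneg hc0.le (sub_nonneg.2 hc1)) (by linarith : 0 ≤ c + 1)]
    have hsQ : s * Q ≤ c * q ^ 2 := by
      by_cases hcq : c < q
      · have hs' : 0 < c / q := by positivity
        have e3 : (c / q) ^ 3 * Q = C₀ := by
          rw [div_pow, hc3, hq3]
          field_simp
        have e4 : (c / q) ^ 3 * (X * Y ^ 2) = C₀ * D := by
          have : X * Y ^ 2 = Q * D := by rw [hQ]; field_simp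
          rw [this, ← mul_assoc, e3]
        have h5 : 1 ≤ c / q * X := by
          by_contra h6
          push Not at h6
          have h7 : (c / q * X) ^ 3 < 1 := pow_lt_one₀ (by positivity) h6 (by norm_num)
          have h8 : (c / q * X) ^ 3 * Y ^ 2 = C₀ * D * X ^ 2 := by
            rw [← e4]; ring
          have h9 : Y ^ 2 ≤ X ^ 2 := pow_le_pow_left₀ hY.le hYX 2
          have h10 : X ^ 2 ≤ C₀ * D * X ^ 2 := by
            have : 1 ≤ C₀ * D := by nlinarith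
            nlinarith [sq_nonneg X]
          have h11 : (c / q * X) ^ 3 * Y ^ 2 < Y ^ 2 := by
            nlinarith [pow_pos hY 2]
          linarith
        obtain ⟨z, hz0, hfz, hz⟩ := hsv D f p hp (c / q * X) (c / q * Y) h5 (by positivity)
          (mul_le_mul_of_nonneg_left hYX hs'.le) (by
            have : c / q * X * (c / q * Y) ^ 2 = (c / q) ^ 3 * (X * Y ^ 2) := by ring
            rw [this, e4])
        have h6 : G p X Y z ≤ c / q := (G_le p hX0 hY hs'.le z).2 hz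
        have h7 := (hmin' z hz0 hfz).trans h6
        have h8 : s * Q ≤ c / q * Q := mul_le_mul_of_nonneg_right h7 hQ0.le
        refine h8.trans (le_of_eq ?_)
        rw [← hq3]
        field_simp
      · push Not at hcq
        have h5 : s * Q ≤ Q := mul_le_of_le_one_left hQ0.le hh1
        refine h5.trans ?_
        rw [← hq3]
        nlinarith [pow_pos hq0 2]
    have h5 : s * (X / D) ≤ X := by
      have h6 : X / D ≤ X := div_le_self hX0.le hD
      have h7 : 0 ≤ X / D := by positivity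
      nlinarith
    calc ((F.image (crz h)).card : ℝ) ≤ 2 * s * W.card := hI
      _ ≤ 2 * s * (25000 * (X / D + Q)) := mul_le_mul_of_nonneg_left h2 (by positivity)
      _ = 50000 * (s * (X / D) + s * Q) := by ring
      _ ≤ 50000 * (X + C₀ * q ^ 2) := by
          have : c * q ^ 2 ≤ C₀ * q ^ 2 := mul_le_mul_of_nonneg_right hcC (by positivity)
          linarith
      _ ≤ 50000 * C₀ * (X + Q ^ (2 / 3 : ℝ)) := by
          rw [hq2]
          nlinarith [mul_nonneg (sub_nonneg.2 hC₀) hX0.le]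
  · push Not at hr
    obtain ⟨n, hn, hnW⟩ := normal hh0 hhW (fun b₁ h₁ b₂ h₂ b₃ h₃ => hr b₁ h₁ b₂ h₂ b₃ h₃)
    have h1 := planar_count p hp X Y s hY hYX hs0 hh1 n hn W (fun x hx => ⟨((hW x).1 hx).2, hnW x hx⟩)
      (fun x hx y hy hxy => by
        have h2 : G p X Y h ≤ G p X Y (x - y) := hmin' (x - y) (sub_ne_zero.2 hxy) (by
          rw [map_sub, ((hW x).1 hx).1, ((hW y).1 hy).1, sub_zero])
        rcases le_max_iff.1 h2 with h3 | h3
        · left
          rw [← io_norm]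
          rw [le_div_iff₀ hX0] at h3
          exact pow_le_pow_left₀ (by positivity) h3 2
        · right
          rw [← ka_norm]
          rw [le_div_iff₀ hY] at h3
          exact pow_le_pow_left₀ (by positivity) h3 2)
    have h2 : 1 / s ≤ X := by
      rw [div_le_iff₀ hs0]
      rw [div_le_iff₀ hX0] at hsX
      linarith
    calc ((F.image (crz h)).card : ℝ) ≤ 2 * s * W.card := hI
      _ ≤ 2 * s * (1000 / s ^ 2) := mul_le_mul_of_nonneg_left h1 (by positivity)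
      _ = 2000 * (1 / s) := by field_simp; ring
      _ ≤ 2000 * X := by linarith
      _ ≤ 50000 * C₀ * (X + Q ^ (2 / 3 : ℝ)) := by
          nlinarith [mul_nonneg (sub_nonneg.2 hC₀) hX0.le, mul_nonneg (by linarith : 0 ≤ C₀) hQ23]

end Pool.Agent.H978V
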