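import Mathlib
import Pool.Agent.H510R2.Div

/-!
JOB M0 (owner helper978, MP_06cce2_nt).

The number of representations by `x² + H y²` is `≤ K N^δ`, uniformly in `H`.
-/

set_option autoImplicit false

namespace Pool.Agent.H978V

namespace BinRep

/-- `g² ∣ 4 H` with `H` squarefree gives `g ∣ 2` -/
theorem dvd_two (g H : ℤ) (hg : g ≠ 0) (hsq : Squarefree H) (h : g ^ 2 ∣ 4 * H) : g ∣ 2 := by
  have hpos : 0 < Int.gcd g 2 := Int.gcd_pos_of_ne_zero_left _ hg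
  obtain ⟨g', t, hgt, hg', ht⟩ := Int.exists_gcd_one hpos
  set d : ℤ := (Int.gcd g 2 : ℤ) with hd
  have hd0 : d ≠ 0 := by rw [hd]; exact_mod_cast hpos.ne'
  have h4 : (4 : ℤ) = (t * d) ^ 2 := by rw [← ht]; norm_num
  have h1 : (g' * d) ^ 2 ∣ (t * d) ^ 2 * H := by
    rw [← h4, ← hg']; exact h
  have h2 : g' ^ 2 * d ^ 2 ∣ t ^ 2 * H * d ^ 2 := by
    have e1 : (g' * d) ^ 2 = g' ^ 2 * d ^ 2 := by ring
    have e2 : (t * d) ^ 2 * H = t ^ 2 * H * d ^ 2 := by ring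
    rw [← e1, ← e2]; exact h1
  have h3 : g' ^ 2 ∣ t ^ 2 * H := (mul_dvd_mul_iff_right (pow_ne_zero 2 hd0)).1 h2
  have hc : IsCoprime g' t := Int.isCoprime_iff_gcd_eq_one.2 hgt
  have h5 : g' ^ 2 ∣ H := (hc.pow : IsCoprime (g' ^ 2) (t ^ 2)).dvd_of_dvd_mul_left h3
  have h6 : IsUnit g' := hsq g' (by rw [← pow_two]; exact h5)
  have h7 : g ∣ d := by
    rw [hg']
    obtain ⟨w, hw⟩ := h6.dvd (a := (1 : ℤ))
    exact ⟨w, by rw [mul_right_comm, ← hw, one_mul]⟩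
  exact h7.trans ⟨t, by rw [mul_comm]; exact ht⟩

theorem coprime_M {H M x z : ℤ} (hc : IsCoprime x z) (h : x ^ 2 + H * z ^ 2 = M) :
    IsCoprime z M := by
  rw [← h]
  have h1 : IsCoprime z (x ^ 2) := hc.symm.pow_right
  have h2 : x ^ 2 + H * z ^ 2 = x ^ 2 + z * (H * z) := by ring
  rw [h2]
  exact h1.add_mul_left_right _

theorem key {H M x₀ z₀ x z x' z' : ℤ} (hM : 1 ≤ M) (hsq : Squarefree H)
    (c0 : IsCoprime x₀ z₀) (e0 : x₀ ^ 2 + H * z₀ ^ 2 = M)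
    (c1 : IsCoprime x z) (e1 : x ^ 2 + H * z ^ 2 = M)
    (e2 : x' ^ 2 + H * z' ^ 2 = M)
    (hu : Int.gcd M (x * z₀ - x₀ * z) = Int.gcd M (x' * z₀ - x₀ * z')) :
    M ∣ 2 * (x * z' - x' * z) := by
  have hM0 : M ≠ 0 := by omega
  have hp : 0 < Int.gcd M (x * z₀ - x₀ * z) := Int.gcd_pos_of_ne_zero_left _ hM0
  have hp' : 0 < Int.gcd M (x' * z₀ - x₀ * z') := Int.gcd_pos_of_ne_zero_left _ hM0
  obtain ⟨v, a, hva, hMv, ha⟩ := Int.exists_gcd_one hp
  obtain ⟨v', a', hva', hMv', ha'⟩ := Int.exists_gcd_one hp'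
  rw [← hu] at hMv' ha'
  set u : ℤ := (Int.gcd M (x * z₀ - x₀ * z) : ℤ) with hudef
  have hu0 : u ≠ 0 := by rw [hudef]; exact_mod_cast hp.ne'
  have hvv : v' = v := by
    apply mul_right_cancel₀ hu0
    rw [← hMv, ← hMv']
  rw [hvv] at hva' hMv'
  -- `v ∣ x z₀ + x₀ z`
  have hv1 : v ∣ x * z₀ + x₀ * z := by
    have h1 : M ∣ (x * z₀ - x₀ * z) * (x * z₀ + x₀ * z) := by
      refine ⟨z₀ ^ 2 - z ^ 2, ?_⟩
      linear_combination z₀ ^ 2 * e1 - z ^ 2 * e0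
    have h2 : v * u ∣ a * (x * z₀ + x₀ * z) * u := by
      have e : a * (x * z₀ + x₀ * z) * u = a * u * (x * z₀ + x₀ * z) := by ring
      rw [e, ← ha, ← hMv]
      exact h1
    have h3 : v ∣ a * (x * z₀ + x₀ * z) := (mul_dvd_mul_iff_right hu0).1 h2
    exact (Int.isCoprime_iff_gcd_eq_one.2 hva).dvd_of_dvd_mul_left h3
  have hv2 : v ∣ x' * z₀ + x₀ * z' := by
    have h1 : M ∣ (x' * z₀ - x₀ * z') * (x' * z₀ + x₀ * z') := by
      refine ⟨z₀ ^ 2 - z' ^ 2, ?_⟩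
      linear_combination z₀ ^ 2 * e2 - z' ^ 2 * e0
    have h2 : v * u ∣ a' * (x' * z₀ + x₀ * z') * u := by
      have e : a' * (x' * z₀ + x₀ * z') * u = a' * u * (x' * z₀ + x₀ * z') := by ring
      rw [e, ← ha', ← hMv]
      exact h1
    have h3 : v ∣ a' * (x' * z₀ + x₀ * z') := (mul_dvd_mul_iff_right hu0).1 h2
    exact (Int.isCoprime_iff_gcd_eq_one.2 hva').dvd_of_dvd_mul_left h3
  have cz0 : IsCoprime z₀ M := coprime_M c0 e0
  have cz : IsCoprime z M := coprime_M c1 e1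
  have huM : u ∣ M := ⟨v, by rw [mul_comm]; exact hMv⟩
  have hvM : v ∣ M := ⟨u, hMv⟩
  have hu1 : u ∣ x * z₀ - x₀ * z := ⟨a, by rw [mul_comm u a]; exact ha⟩
  have hu2 : u ∣ x' * z₀ - x₀ * z' := ⟨a', by rw [mul_comm u a']; exact ha'⟩
  set D := x * z' - x' * z with hD
  have huD : u ∣ D := by
    have h1 : u ∣ z₀ * D := by
      have e : z₀ * D = z' * (x * z₀ - x₀ * z) - z * (x' * z₀ - x₀ * z') := by rw [hD]; ring
      rw [e]
      exact dvd_sub (hu1.mul_left _) (hu2.mul_left _)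
    exact (cz0.of_isCoprime_of_dvd_right huM).symm.dvd_of_dvd_mul_left h1
  have hvD : v ∣ D := by
    have h1 : v ∣ z₀ * D := by
      have e : z₀ * D = z' * (x * z₀ + x₀ * z) - z * (x' * z₀ + x₀ * z') := by rw [hD]; ring
      rw [e]
      exact dvd_sub (hv1.mul_left _) (hv2.mul_left _)
    exact (cz0.of_isCoprime_of_dvd_right hvM).symm.dvd_of_dvd_mul_left h1
  -- the gcd of `u` and `v`
  have hq : 0 < Int.gcd u v := Int.gcd_pos_of_ne_zero_left _ hu0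
  obtain ⟨u1, v1, huv, hu3, hv3⟩ := Int.exists_gcd_one hq
  set g : ℤ := (Int.gcd u v : ℤ) with hgdef
  have hg0 : g ≠ 0 := by rw [hgdef]; exact_mod_cast hq.ne'
  have hgu : g ∣ u := ⟨u1, by rw [mul_comm]; exact hu3⟩
  have hgv : g ∣ v := ⟨v1, by rw [mul_comm]; exact hv3⟩
  have hgM : g ∣ M := hgu.trans huM
  have hg2x : g ∣ 2 * x := by
    have h1 : g ∣ z₀ * (2 * x) := by
      have e : z₀ * (2 * x) = (x * z₀ - x₀ * z) + (x * z₀ + x₀ * z) := by ring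
      rw [e]
      exact dvd_add (hgu.trans hu1) (hgv.trans hv1)
    exact (cz0.of_isCoprime_of_dvd_right hgM).symm.dvd_of_dvd_mul_left h1
  have hggM : g ^ 2 ∣ M := by
    refine ⟨v1 * u1, ?_⟩
    rw [hMv]; linear_combination u * hv3 + v1 * g * hu3
  have hg4 : g ^ 2 ∣ 4 * H := by
    have h1 : g ^ 2 ∣ (4 * H) * z ^ 2 := by
      have e : (4 * H) * z ^ 2 = 4 * M - (2 * x) ^ 2 := by rw [← e1]; ring
      rw [e]
      exact dvd_sub (hggM.mul_left _) (pow_dvd_pow_of_dvd hg2x 2)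
    have hc : IsCoprime (g ^ 2) (z ^ 2) := (cz.of_isCoprime_of_dvd_right hgM).symm.pow
    exact hc.dvd_of_dvd_mul_right h1
  have hg2 : g ∣ 2 := dvd_two g H hg0 hsq hg4
  -- conclusion
  obtain ⟨s, hs⟩ := huD
  obtain ⟨t, ht⟩ := hvD
  have h1 : u1 * s = v1 * t := by
    apply mul_right_cancel₀ hg0
    have e1 : u1 * s * g = D := by linear_combination (-1 : ℤ) * hs - s * hu3
    have e2 : v1 * t * g = D := by linear_combination (-1 : ℤ) * ht - t * hv3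
    rw [e1, e2]
  have h2 : u1 ∣ t := by
    have : u1 ∣ v1 * t := ⟨s, h1.symm⟩
    exact (Int.isCoprime_iff_gcd_eq_one.2 huv).dvd_of_dvd_mul_left this
  obtain ⟨w, hw⟩ := h2
  have h3 : v1 * g * u1 ∣ D := ⟨w, by rw [ht, hw]; linear_combination (u1 * w) * hv3⟩
  have h4 : M = g * (v1 * g * u1) := by
    rw [hMv]; linear_combination u * hv3 + v1 * g * hu3
  rw [h4]
  exact mul_dvd_mul hg2 h3

theorem prim_count (H M : ℤ) (hH : 1 ≤ H) (hsq : Squarefree H) (hM : 1 ≤ M)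
    (F : Finset (ℤ × ℤ)) (hF : ∀ p ∈ F, IsCoprime p.1 p.2 ∧ p.1 ^ 2 + H * p.2 ^ 2 = M) :
    F.card ≤ 10 * M.natAbs.divisors.card := by
  classical
  rcases F.eq_empty_or_nonempty with h0 | ⟨p₀, hp₀⟩
  · rw [h0]; simp
  obtain ⟨c0, e0⟩ := hF p₀ hp₀
  refine Finset.card_le_mul_card_image_of_maps_to
    (f := fun p : ℤ × ℤ => Int.gcd M (p.1 * p₀.2 - p₀.1 * p.2)) ?_ 10 ?_
  · intro p _
    rw [Nat.mem_divisors]
    refine ⟨?_, by omega⟩
    exact Nat.gcd_dvd_left _ _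
  intro u _
  set S := F.filter (fun p : ℤ × ℤ => Int.gcd M (p.1 * p₀.2 - p₀.1 * p.2) = u) with hS
  rcases S.eq_empty_or_nonempty with h0 | ⟨p, hp⟩
  · rw [h0]; simp
  rw [hS, Finset.mem_filter] at hp
  obtain ⟨hpF, hpu⟩ := hp
  obtain ⟨c1, e1⟩ := hF p hpF
  have hdiv : ∀ q ∈ S, M ∣ 2 * (p.1 * q.2 - q.1 * p.2) := by
    intro q hq
    rw [hS, Finset.mem_filter] at hq
    obtain ⟨c2, e2⟩ := hF q hq.1
    exact key hM hsq c0 e0 c1 e1 e2 (by rw [hpu, hq.2])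
  have hcard : ((Finset.Icc (-2 : ℤ) 2) ×ˢ (Finset.univ : Finset Bool)).card = 10 := by
    rw [Finset.card_product]; simp
  rw [← hcard]
  refine Finset.card_le_card_of_injOn (fun q : ℤ × ℤ =>
    (2 * (p.1 * q.2 - q.1 * p.2) / M, decide (0 ≤ p.1 * q.1 + H * (p.2 * q.2)))) ?_ ?_
  · intro q hq
    have hq' : q ∈ S := hq
    obtain ⟨k, hk⟩ := hdiv q hq'
    rw [hS, Finset.mem_filter] at hq'
    obtain ⟨c2, e2⟩ := hF q hq'.1
    simp only [Finset.coe_product, Set.mem_prod, Finset.mem_coe, Finset.mem_Icc, Finset.mem_univ,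
      and_true]
    rw [hk, Int.mul_ediv_cancel_left _ (by omega : M ≠ 0)]
    have h1 : (p.1 * q.1 + H * (p.2 * q.2)) ^ 2 + H * (p.1 * q.2 - q.1 * p.2) ^ 2 = M ^ 2 := by
      linear_combination (q.1 ^ 2 + H * q.2 ^ 2) * e1 + M * e2
    have h2 : k ^ 2 * M ^ 2 ≤ 4 * M ^ 2 := by
      have h3 : k ^ 2 * M ^ 2 = 4 * (p.1 * q.2 - q.1 * p.2) ^ 2 := by
        have : (M * k) ^ 2 = (2 * (p.1 * q.2 - q.1 * p.2)) ^ 2 := by rw [hk]
        linear_combination this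
      rw [h3]
      nlinarith [sq_nonneg (p.1 * q.1 + H * (p.2 * q.2)), sq_nonneg (p.1 * q.2 - q.1 * p.2)]
    have h4 : k ^ 2 ≤ 2 ^ 2 := by
      have : (0 : ℤ) < M ^ 2 := by positivity
      have := le_of_mul_le_mul_right h2 this
      linarith
    have h5 := abs_le_of_sq_le_sq' h4 (by norm_num)
    exact h5
  · intro q hq q' hq' heq
    have hqS : q ∈ S := hq
    have hqS' : q' ∈ S := hq'
    obtain ⟨k, hk⟩ := hdiv q hqS
    obtain ⟨k', hk'⟩ := hdiv q' hqS'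
    rw [hS, Finset.mem_filter] at hqS hqS'
    obtain ⟨c2, e2⟩ := hF q hqS.1
    obtain ⟨c3, e3⟩ := hF q' hqS'.1
    simp only [Prod.mk.injEq] at heq
    obtain ⟨hk2, hb⟩ := heq
    rw [hk, hk', Int.mul_ediv_cancel_left _ (by omega : M ≠ 0),
      Int.mul_ediv_cancel_left _ (by omega : M ≠ 0)] at hk2
    have hDD : p.1 * q.2 - q.1 * p.2 = p.1 * q'.2 - q'.1 * p.2 := by
      have : 2 * (p.1 * q.2 - q.1 * p.2) = 2 * (p.1 * q'.2 - q'.1 * p.2) := by rw [hk, hk', hk2]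
      linarith
    have h1 : (p.1 * q.1 + H * (p.2 * q.2)) ^ 2 + H * (p.1 * q.2 - q.1 * p.2) ^ 2 = M ^ 2 := by
      linear_combination (q.1 ^ 2 + H * q.2 ^ 2) * e1 + M * e2
    have h2 : (p.1 * q'.1 + H * (p.2 * q'.2)) ^ 2 + H * (p.1 * q'.2 - q'.1 * p.2) ^ 2 = M ^ 2 := by
      linear_combination (q'.1 ^ 2 + H * q'.2 ^ 2) * e1 + M * e3
    have h3 : (p.1 * q.1 + H * (p.2 * q.2)) ^ 2 = (p.1 * q'.1 + H * (p.2 * q'.2)) ^ 2 := by
      rw [hDD] at h1; linarith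
    have hEE : p.1 * q.1 + H * (p.2 * q.2) = p.1 * q'.1 + H * (p.2 * q'.2) := by
      rcases sq_eq_sq_iff_eq_or_eq_neg.1 h3 with h | h
      · exact h
      · by_cases hs : 0 ≤ p.1 * q.1 + H * (p.2 * q.2)
        · have hs' : 0 ≤ p.1 * q'.1 + H * (p.2 * q'.2) := by
            rw [decide_eq_true hs] at hb
            exact of_decide_eq_true hb.symm
          linarith
        · have hs' : ¬ 0 ≤ p.1 * q'.1 + H * (p.2 * q'.2) := by
            rw [decide_eq_false hs] at hb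
            exact of_decide_eq_false hb.symm
          push Not at hs hs'
          linarith
    have hM0 : M ≠ 0 := by omega
    have hx : q.1 = q'.1 := by
      apply mul_left_cancel₀ hM0
      linear_combination p.1 * hEE - H * p.2 * hDD - q.1 * e1 + q'.1 * e1
    have hz : q.2 = q'.2 := by
      apply mul_left_cancel₀ hM0
      linear_combination p.2 * hEE + p.1 * hDD - q.2 * e1 + q'.2 * e1
    exact Prod.ext hx hz

theorem sqf_count (H N : ℤ) (hH : 1 ≤ H) (hsq : Squarefree H) (hN : 1 ≤ N)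
    (F : Finset (ℤ × ℤ)) (hF : ∀ p ∈ F, p.1 ^ 2 + H * p.2 ^ 2 = N) :
    F.card ≤ 10 * N.natAbs.divisors.card * N.natAbs.divisors.card := by
  classical
  refine Finset.card_le_mul_card_image_of_maps_to
    (f := fun p : ℤ × ℤ => Int.gcd p.1 p.2) ?_ _ ?_
  · intro p hp
    have h := hF p hp
    rw [Nat.mem_divisors]
    refine ⟨?_, by omega⟩
    have h1 : ((Int.gcd p.1 p.2 : ℕ) : ℤ) ∣ N := by
      rw [← h, pow_two, pow_two]
      exact dvd_add ((Int.gcd_dvd_left ..).mul_left _)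
        (((Int.gcd_dvd_right ..).mul_left _).mul_left _)
    exact Int.natCast_dvd.1 h1
  intro g _
  set S := F.filter (fun p : ℤ × ℤ => Int.gcd p.1 p.2 = g) with hS
  rcases S.eq_empty_or_nonempty with h0 | ⟨p, hp⟩
  · rw [h0]; simp
  rw [hS, Finset.mem_filter] at hp
  have hg0 : 0 < g := by
    rw [← hp.2]
    rcases Nat.eq_zero_or_pos (Int.gcd p.1 p.2) with h | h
    · rw [Int.gcd_eq_zero_iff] at h
      have := hF p hp.1
      rw [h.1, h.2] at this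
      norm_num at this
      omega
    · exact h
  have hgz : (g : ℤ) ≠ 0 := by exact_mod_cast hg0.ne'
  have hdec : ∀ q ∈ S, (g : ℤ) * (q.1 / g) = q.1 ∧ (g : ℤ) * (q.2 / g) = q.2 := by
    intro q hq
    rw [hS, Finset.mem_filter] at hq
    constructor
    · apply Int.mul_ediv_cancel'
      rw [← hq.2]; exact Int.gcd_dvd_left ..
    · apply Int.mul_ediv_cancel'
      rw [← hq.2]; exact Int.gcd_dvd_right ..
  have hgN : ∃ M : ℤ, N = (g : ℤ) ^ 2 * M := by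
    have hpS : p ∈ S := by rw [hS, Finset.mem_filter]; exact hp
    obtain ⟨h1, h2⟩ := hdec p hpS
    refine ⟨(p.1 / g) ^ 2 + H * (p.2 / g) ^ 2, ?_⟩
    rw [← hF p hp.1]
    nth_rewrite 1 [← h1]
    nth_rewrite 1 [← h2]
    ring
  obtain ⟨M, hM⟩ := hgN
  have hg2 : (0 : ℤ) < (g : ℤ) ^ 2 := by positivity
  have hM1 : 1 ≤ M := by
    by_contra hlt
    push Not at hlt
    have : (g : ℤ) ^ 2 * M ≤ 0 := mul_nonpos_of_nonneg_of_nonpos hg2.le (by omega)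
    omega
  have hinj : Set.InjOn (fun q : ℤ × ℤ => (q.1 / (g : ℤ), q.2 / (g : ℤ))) (S : Set (ℤ × ℤ)) := by
    intro q hq q' hq' heq
    obtain ⟨h1, h2⟩ := hdec q hq
    obtain ⟨h3, h4⟩ := hdec q' hq'
    simp only [Prod.mk.injEq] at heq
    refine Prod.ext ?_ ?_
    · rw [← h1, ← h3, heq.1]
    · rw [← h2, ← h4, heq.2]
  rw [← Finset.card_image_of_injOn hinj]
  refine (prim_count H M hH hsq hM1 _ ?_).trans ?_
  · intro r hr
    rw [Finset.mem_image] at hr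
    obtain ⟨q, hq, rfl⟩ := hr
    obtain ⟨h1, h2⟩ := hdec q hq
    rw [hS, Finset.mem_filter] at hq
    constructor
    · rw [Int.isCoprime_iff_gcd_eq_one]
      have h3 : Int.gcd ((g : ℤ) * (q.1 / g)) ((g : ℤ) * (q.2 / g)) = g := by
        rw [h1, h2]; exact hq.2
      rw [Int.gcd_mul_left, Int.natAbs_natCast] at h3
      have h4 : g * (q.1 / (g : ℤ)).gcd (q.2 / (g : ℤ)) = g * 1 := by rw [h3, mul_one]
      exact Nat.eq_of_mul_eq_mul_left hg0 h4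
    · have h3 := hF q hq.1
      rw [← h1, ← h2, hM] at h3
      have h4 : (g : ℤ) ^ 2 * ((q.1 / g) ^ 2 + H * (q.2 / g) ^ 2) = (g : ℤ) ^ 2 * M := by
        rw [← h3]; ring
      exact mul_left_cancel₀ hg2.ne' h4
  · apply Nat.mul_le_mul_left
    apply Finset.card_le_card
    apply Nat.divisors_subset_of_dvd (by omega)
    rw [hM, Int.natAbs_mul]
    exact Dvd.intro_left _ rfl

end BinRep

/-- TARGET -/
theorem binrep (δ : ℝ) (hδ : 0 < δ) : ∃ K : ℝ, 1 ≤ K ∧ ∀ (H N : ℕ), 1 ≤ H → 1 ≤ N →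
    ∀ F : Finset (ℤ × ℤ), (∀ p ∈ F, p.1 ^ 2 + H * p.2 ^ 2 = N) → (F.card : ℝ) ≤ K * (N : ℝ) ^ δ := by
  classical
  obtain ⟨C, hC0, hC⟩ := Pool.Agent.H510R2.divisor_bound (δ / 2) (by positivity)
  refine ⟨max 1 (10 * C ^ 2), le_max_left _ _, ?_⟩
  intro H N hH hN F hF
  obtain ⟨a, b, hab, hsq⟩ := Nat.sq_mul_squarefree H
  have hb0 : b ≠ 0 := by rintro rfl; simp at hab; omega
  have ha0 : a ≠ 0 := by rintro rfl; simp at hab; omega
  have hinj : Set.InjOn (fun q : ℤ × ℤ => (q.1, (b : ℤ) * q.2)) (F : Set (ℤ × ℤ)) := by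
    intro q _ q' _ heq
    simp only [Prod.mk.injEq] at heq
    refine Prod.ext heq.1 ?_
    exact mul_left_cancel₀ (by exact_mod_cast hb0) heq.2
  have h1 := BinRep.sqf_count (a : ℤ) (N : ℤ) (by omega) (Int.squarefree_natCast.2 hsq) (by omega)
    (F.image (fun q : ℤ × ℤ => (q.1, (b : ℤ) * q.2))) (by
      intro r hr
      rw [Finset.mem_image] at hr
      obtain ⟨q, hq, rfl⟩ := hr
      have := hF q hq
      rw [← hab] at this
      push_cast at this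
      rw [← this]
      ring)
  rw [Finset.card_image_of_injOn hinj, Int.natAbs_natCast] at h1
  have h2 := hC N hN
  have h3 : (F.card : ℝ) ≤ 10 * (N.divisors.card : ℝ) * (N.divisors.card : ℝ) := by
    exact_mod_cast h1
  have hN0 : (0 : ℝ) < N := by exact_mod_cast hN
  have h4 : ((N : ℝ) ^ (δ / 2)) * ((N : ℝ) ^ (δ / 2)) = (N : ℝ) ^ δ := by
    rw [← Real.rpow_add hN0]; congr 1; ring
  have h5 : (0 : ℝ) ≤ N.divisors.card := Nat.cast_nonneg _
  calc (F.card : ℝ) ≤ 10 * (N.divisors.card : ℝ) * (N.divisors.card : ℝ) := h3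
    _ ≤ 10 * (C * (N : ℝ) ^ (δ / 2)) * (C * (N : ℝ) ^ (δ / 2)) := by gcongr
    _ = 10 * C ^ 2 * (((N : ℝ) ^ (δ / 2)) * ((N : ℝ) ^ (δ / 2))) := by ring
    _ = 10 * C ^ 2 * (N : ℝ) ^ δ := by rw [h4]
    _ ≤ max 1 (10 * C ^ 2) * (N : ℝ) ^ δ := by
        apply mul_le_mul_of_nonneg_right (le_max_right _ _)
        positivity

end Pool.Agent.H978V
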