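import Pool.Agent.H978V.RDefs

/-!
JOB R1 (owner helper978, MP_06cce2_nt).  `H978V/*.lean` (library, with `RDefs`) is on origin/main.

The general splitting of the quaternions modulo an odd number.
-/

set_option autoImplicit false

open scoped Quaternion

namespace Pool.Agent.H978V

theorem r1_lift (p : ℕ) (hp : p.Prime) (hp2 : Odd p) (x y : ℤ) (n : ℕ) (hx : ¬ (p : ℤ) ∣ x)
    (h : (p : ℤ) ^ (n + 1) ∣ x ^ 2 + y ^ 2 + 1) :
    ∃ x' : ℤ, ¬ (p : ℤ) ∣ x' ∧ (p : ℤ) ^ (n + 2) ∣ x' ^ 2 + y ^ 2 + 1 := by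
  obtain ⟨c, hc⟩ := h
  have hpi : Prime (p : ℤ) := Nat.prime_iff_prime_int.mp hp
  have h2 : ¬ (p : ℤ) ∣ 2 := by
    intro h
    have h' : p ∣ 2 := by exact_mod_cast h
    have := (Nat.prime_dvd_prime_iff_eq hp Nat.prime_two).mp h'
    subst this
    exact absurd hp2 (by decide)
  have hcop : IsCoprime (2 * x) (p : ℤ) := by
    refine IsCoprime.symm ((Prime.coprime_iff_not_dvd hpi).mpr ?_)
    intro h
    rcases hpi.dvd_or_dvd h with h | h
    · exact h2 h
    · exact hx h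
  obtain ⟨u, v, huv⟩ := hcop
  refine ⟨x + (-(c * u)) * (p : ℤ) ^ (n + 1), ?_, ?_⟩
  · intro h
    apply hx
    have : (p : ℤ) ∣ (-(c * u)) * (p : ℤ) ^ (n + 1) :=
      Dvd.dvd.mul_left (dvd_pow_self _ (by omega)) _
    exact (dvd_add_left this).mp h
  · refine ⟨c * v + c ^ 2 * u ^ 2 * (p : ℤ) ^ n, ?_⟩
    have e : (x + (-(c * u)) * (p : ℤ) ^ (n + 1)) ^ 2 + y ^ 2 + 1
        = (x ^ 2 + y ^ 2 + 1) - 2 * x * (c * u) * (p : ℤ) ^ (n + 1)
          + c ^ 2 * u ^ 2 * ((p : ℤ) ^ (n + 1)) ^ 2 := by ring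
    rw [e, hc]
    have e2 : (2 : ℤ) * x * (c * u) = c * (1 - v * p) := by
      linear_combination c * huv
    rw [e2]
    ring

theorem r1_prime_pow (p : ℕ) (hp : p.Prime) (hp2 : Odd p) (n : ℕ) :
    ∃ x y : ℤ, ¬ (p : ℤ) ∣ x ∧ (p : ℤ) ^ (n + 1) ∣ x ^ 2 + y ^ 2 + 1 := by
  induction n with
  | zero =>
    haveI := Fact.mk hp
    obtain ⟨a, b, hab⟩ := ZMod.sq_add_sq p (-1)
    have key : (p : ℤ) ∣ (a.val : ℤ) ^ 2 + (b.val : ℤ) ^ 2 + 1 := by
      rw [← ZMod.intCast_zmod_eq_zero_iff_dvd]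
      push_cast
      rw [ZMod.natCast_zmod_val, ZMod.natCast_zmod_val, hab]
      ring
    by_cases h : (p : ℤ) ∣ (a.val : ℤ)
    · refine ⟨b.val, a.val, ?_, ?_⟩
      · intro h'
        have h1 : (p : ℤ) ∣ (a.val : ℤ) ^ 2 + (b.val : ℤ) ^ 2 :=
          dvd_add (dvd_pow h (by norm_num)) (dvd_pow h' (by norm_num))
        have h2 := (dvd_add_right h1).mp key
        have h3 : p ∣ 1 := by exact_mod_cast h2
        exact hp.one_lt.ne' (Nat.dvd_one.mp h3)
      · rw [zero_add, pow_one, add_comm ((b.val : ℤ) ^ 2)]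
        exact key
    · exact ⟨a.val, b.val, h, by rw [zero_add, pow_one]; exact key⟩
  | succ n ih =>
    obtain ⟨x, y, hx, h⟩ := ih
    obtain ⟨x', hx', h'⟩ := r1_lift p hp hp2 x y n hx h
    exact ⟨x', y, hx', h'⟩

theorem r1_int (D : ℕ) : Odd D → ∃ x y : ℤ, (D : ℤ) ∣ x ^ 2 + y ^ 2 + 1 := by
  induction D using Nat.recOnPosPrimePosCoprime with
  | prime_pow p n hp hn =>
    intro hD
    have hp2 : Odd p := by
      rw [Nat.odd_pow_iff (by omega)] at hD
      exact hD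
    obtain ⟨m, rfl⟩ : ∃ m, n = m + 1 := ⟨n - 1, by omega⟩
    obtain ⟨x, y, _, h⟩ := r1_prime_pow p hp hp2 m
    exact ⟨x, y, by push_cast; exact h⟩
  | zero => intro h; exact absurd h (by decide)
  | one => intro _; exact ⟨0, 0, by simp⟩
  | coprime a b ha hb hab iha ihb =>
    intro hD
    have hoa : Odd a := Nat.Odd.of_mul_left hD
    have hob : Odd b := Nat.Odd.of_mul_right hD
    obtain ⟨x1, y1, h1⟩ := iha hoa
    obtain ⟨x2, y2, h2⟩ := ihb hob
    obtain ⟨u, v, huv⟩ : IsCoprime (a : ℤ) (b : ℤ) := Nat.isCoprime_iff_coprime.mpr hab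
    refine ⟨x1 * (v * b) + x2 * (u * a), y1 * (v * b) + y2 * (u * a), ?_⟩
    push_cast
    refine IsCoprime.mul_dvd (Nat.isCoprime_iff_coprime.mpr hab) ?_ ?_
    · obtain ⟨c, hc⟩ := h1
      refine ⟨c + (x2 - x1) * u * (2 * x1 + (x2 - x1) * (u * a))
        + (y2 - y1) * u * (2 * y1 + (y2 - y1) * (u * a)), ?_⟩
      have e1 : x1 * (v * b) + x2 * (u * a) = x1 + (x2 - x1) * (u * a) := by
        linear_combination x1 * huv
      have e2 : y1 * (v * b) + y2 * (u * a) = y1 + (y2 - y1) * (u * a) := by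
        linear_combination y1 * huv
      rw [e1, e2]
      linear_combination hc
    · obtain ⟨c, hc⟩ := h2
      refine ⟨c + (x1 - x2) * v * (2 * x2 + (x1 - x2) * (v * b))
        + (y1 - y2) * v * (2 * y2 + (y1 - y2) * (v * b)), ?_⟩
      have e1 : x1 * (v * b) + x2 * (u * a) = x2 + (x1 - x2) * (v * b) := by
        linear_combination x2 * huv
      have e2 : y1 * (v * b) + y2 * (u * a) = y2 + (y1 - y2) * (v * b) := by
        linear_combination y2 * huv
      rw [e1, e2]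
      linear_combination hc

/-- TARGET 1 -/
theorem split_rs (D : ℕ) (hD : Odd D) : ∃ r s : ZMod D, r * r + s * s = -1 := by
  obtain ⟨x, y, h⟩ := r1_int D hD
  refine ⟨(x : ZMod D), (y : ZMod D), ?_⟩
  have := (ZMod.intCast_zmod_eq_zero_iff_dvd (x ^ 2 + y ^ 2 + 1) D).mpr h
  push_cast at this
  linear_combination this

/-- TARGET 2 -/
theorem Pg_mul {D : ℕ} {r s : ZMod D} (h : r * r + s * s = -1) (x y : ℍ[ℤ]) :
    Pg r s (x * y) = Pg r s x * Pg r s y := by
  unfold Pg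
  ext i j
  fin_cases i <;> fin_cases j
  · simp [Matrix.mul_apply, Fin.sum_univ_two]
    linear_combination (-((x.imI : ZMod D) * y.imI + x.imK * y.imK)) * h
  · simp [Matrix.mul_apply, Fin.sum_univ_two]
    linear_combination (-((x.imI : ZMod D) * y.imK - x.imK * y.imI)) * h
  · simp [Matrix.mul_apply, Fin.sum_univ_two]
    linear_combination ((x.imI : ZMod D) * y.imK - x.imK * y.imI) * h
  · simp [Matrix.mul_apply, Fin.sum_univ_two]
    linear_combination (-((x.imI : ZMod D) * y.imI + x.imK * y.imK)) * h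

/-- TARGET 3 -/
theorem Pg_int {D : ℕ} (r s : ZMod D) (c : ℤ) :
    Pg r s ((c : ℤ) : ℍ[ℤ]) = (c : ZMod D) • (1 : Matrix (Fin 2) (Fin 2) (ZMod D)) := by
  unfold Pg
  ext i j
  fin_cases i <;> fin_cases j <;> simp

theorem r1_two_cancel {D : ℕ} (hD : Odd D) {a : ZMod D} (h : 2 * a = 0) : a = 0 := by
  have hu : IsUnit ((2 : ℕ) : ZMod D) := (ZMod.isUnit_iff_coprime 2 D).mpr
    (Nat.coprime_two_left.mpr hD)
  have h' : ((2 : ℕ) : ZMod D) * a = 0 := by push_cast; exact h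
  exact hu.mul_right_eq_zero.mp h'

/-- TARGET 4 -/
theorem Pg_zero {D : ℕ} (hD : Odd D) {r s : ZMod D} (h : r * r + s * s = -1) (x : ℍ[ℤ]) :
    Pg r s x = 0 ↔ DvdQ D x := by
  unfold DvdQ
  rw [← ZMod.intCast_zmod_eq_zero_iff_dvd, ← ZMod.intCast_zmod_eq_zero_iff_dvd,
    ← ZMod.intCast_zmod_eq_zero_iff_dvd, ← ZMod.intCast_zmod_eq_zero_iff_dvd]
  constructor
  · intro h0
    have h00 := congrFun (congrFun h0 0) 0
    have h01 := congrFun (congrFun h0 0) 1
    have h10 := congrFun (congrFun h0 1) 0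
    have h11 := congrFun (congrFun h0 1) 1
    simp only [Pg, Matrix.of_apply, Matrix.cons_val', Matrix.cons_val_zero, Matrix.cons_val_one,
      Matrix.cons_val_fin_one, Matrix.zero_apply] at h00 h01 h10 h11
    have ha : (x.re : ZMod D) = 0 := r1_two_cancel hD (by linear_combination h00 + h11)
    have hc : (x.imJ : ZMod D) = 0 := r1_two_cancel hD (by linear_combination h01 - h10)
    have e1 : (x.imI : ZMod D) * r - x.imK * s = 0 := by linear_combination h00 - ha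
    have e2 : (x.imI : ZMod D) * s + x.imK * r = 0 := by linear_combination h01 - hc
    refine ⟨ha, ?_, hc, ?_⟩
    · linear_combination (-r) * e1 - s * e2 + (x.imI : ZMod D) * h
    · linear_combination s * e1 - r * e2 + (x.imK : ZMod D) * h
  · rintro ⟨h1, h2, h3, h4⟩
    unfold Pg
    rw [h1, h2, h3, h4]
    ext i j
    fin_cases i <;> fin_cases j <;> simp

/-- TARGET 5 -/
theorem Pg_det {D : ℕ} {r s : ZMod D} (h : r * r + s * s = -1) (x : ℍ[ℤ]) :
    (Pg r s x).det = ((Quaternion.normSq x : ℤ) : ZMod D) := by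
  rw [Matrix.det_fin_two, Quaternion.normSq_def']
  simp only [Pg, Matrix.of_apply, Matrix.cons_val', Matrix.cons_val_zero, Matrix.cons_val_one,
      Matrix.cons_val_fin_one]
  push_cast
  linear_combination (-((x.imI : ZMod D) ^ 2 + (x.imK : ZMod D) ^ 2)) * h

end Pool.Agent.H978V
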