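import Pool.Agent.H978V.MDefs
import Pool.Agent.H978V.R1
import Pool.Agent.H978V.M0

/-!
JOB M4a (owner helper978, MP_06cce2_nt).  `H978V/*.lean` (library, with `MDefs`) is on origin/main.

Number of integral quaternions `q` of norm `25^k` whose matrix modulo `D` fixes the line `e` and whose imaginary part is near the axis `h`.  `H = dt h h`.  `Sp (hp h) q = |h × Im q|² / H` (vector product of integral vectors).

PROOF.  For `q ∈ F` let `k(q) = h × Im q ∈ ℤ³` (integral, orthogonal to `h`), `|k(q)|² = H · Sp (hp h) q ≤ H T`.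
(a) Fibres.  `H · Im q = b h - h × k`, `b = h · Im q` (the identity `h × (h × Q) = h (h·Q) - H Q`), so `q` is determined by `k`, `b` and `q₀ = q.re`, and `b² + |k|² = H |Im q|²` (Lagrange), `q₀² + |Im q|² = 25^k`, so `b² + H q₀² = H 25^k - |k|²`.  If the right side is `0` then
`b = q₀ = 0`: one `q`; otherwise it is a natural number between `1` and `H 25^k`, and by `binrep` (with `δ`) there are at most `K (H 25^k)^δ` pairs `(b, q₀)`.
(b) Number of `k`.  Claim: if `q, q'` both satisfy `Fx t e` then `D ∣ 4 N₁² |k(q) - k(q')|²`, hence (`D` odd) `D ∣ N₁² |k(q) - k(q')|²`; also `D ∣ N₁² |k(q)|²` (take `q' = 1`, `k(1) = 0`).  Proof: for `e` unimodular (`Uni e : IsCoprime (e 0) (e 1)`) `Fx t e q` implies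
`Ph t q *ᵥ e = a • e` for some `a` (if `α e₀ + β e₁ = 1` and `y₀ e₁ = y₁ e₀` then `y = (α y₀ + β y₁) • e`).  Let `A = Ph t (N₁ • pq h)`, `B = Ph t (q - q')` (`Ph` is additive and multiplicative, `Q.Ph_mul`; real parts act as scalars), `B' = Ph t (Im q - Im q')`.  `A e = a e`, `B' e = b e`,
so `(A B' - B' A) e = 0`.  For pure quaternions `x y - y x = 2 (x × y)`: `Ph t (2 N₁ • pq (k(q) - k(q'))) e = 0`; `e` is unimodular, so the determinant is `0` (multiply by the adjugate), and `Q.Ph_det`: `D ∣ 4 N₁² |k(q) - k(q')|²`.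
So with `s² = D/N₁²`: distinct values `k, k'` satisfy `|k - k'|² ≥ s²`, and nonzero values satisfy `|k|² ≥ s²`.
All `k` are orthogonal to `h ≠ 0` and have `|k| ≤ ρ := √(H T)`.  If `H T < s²` then only `k = 0` is possible: at most one value.  Otherwise: let `i` be an index with `|h_i|` maximal (so `h_i ≠ 0`) and `(a, b)` the two other coordinates of `k`; from `h · k = 0` the third one has absolute value `≤ |a| + |b|`, so
`|k - k'|² ≤ 3 ((a-a')² + (b-b')²)`; so `(a - a')² + (b - b')² ≥ s²/3` for distinct values.  Cells of side `s/3` (`⌊a/(s/3)⌋, ⌊b/(s/3)⌋`) contain at most one value (`2 s²/9 < s²/3`), and there are at most `(6ρ/s + 2)² ≤ (8ρ/s)² = 64 H T N₁²/D` cells.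
So the number of values of `k` is at most `1 + 64 T (H N₁²)/D`.
(c) `|F| ≤ (1 + K (H 25^k)^δ) (1 + 64 T H N₁²/D)`.
-/

set_option autoImplicit false

open scoped Quaternion

namespace Pool.Agent.H978V

open Pool.Agent.Helper557.Rz


namespace M4a

/-- the vector product of `h` and the imaginary part of `q` -/
def kp (h : ℤ × ℤ × ℤ) (q : ℍ[ℤ]) : ℤ × ℤ × ℤ :=
  (h.2.1 * q.imK - h.2.2 * q.imJ, h.2.2 * q.imI - h.1 * q.imK, h.1 * q.imJ - h.2.1 * q.imI)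

/-- the scalar product of `h` and the imaginary part of `q` -/
def bp (h : ℤ × ℤ × ℤ) (q : ℍ[ℤ]) : ℤ := h.1 * q.imI + h.2.1 * q.imJ + h.2.2 * q.imK

theorem lagr (h : ℤ × ℤ × ℤ) (q : ℍ[ℤ]) : (bp h q) ^ 2 + dt (kp h q) (kp h q) =
    dt h h * (q.imI ^ 2 + q.imJ ^ 2 + q.imK ^ 2) := by
  simp only [bp, kp, dt]
  ring

theorem orth (h : ℤ × ℤ × ℤ) (q : ℍ[ℤ]) : dt h (kp h q) = 0 := by
  simp only [kp, dt]
  ring

theorem Sp_eq (h : ℤ × ℤ × ℤ) (hh : 0 < dt h h) (q : ℍ[ℤ]) :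
    (dt h h : ℝ) * Sp (hp h) q = (dt (kp h q) (kp h q) : ℝ) := by
  have hH : (0 : ℝ) < (dt h h : ℝ) := by exact_mod_cast hh
  have hc : (1 / Real.sqrt (dt h h : ℝ)) ^ 2 * (dt h h : ℝ) = 1 := by
    rw [div_pow, Real.sq_sqrt hH.le]
    field_simp
  have e1 : (hp h).imI = (1 / Real.sqrt (dt h h : ℝ)) * (h.1 : ℝ) := by
    unfold hp
    rw [Quaternion.imI_smul]
    rfl
  have e2 : (hp h).imJ = (1 / Real.sqrt (dt h h : ℝ)) * (h.2.1 : ℝ) := by
    unfold hp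
    rw [Quaternion.imJ_smul]
    rfl
  have e3 : (hp h).imK = (1 / Real.sqrt (dt h h : ℝ)) * (h.2.2 : ℝ) := by
    unfold hp
    rw [Quaternion.imK_smul]
    rfl
  have e4 : (dt (kp h q) (kp h q) : ℝ) = ((h.2.1 : ℝ) * q.imK - h.2.2 * q.imJ) ^ 2 +
      ((h.2.2 : ℝ) * q.imI - h.1 * q.imK) ^ 2 + ((h.1 : ℝ) * q.imJ - h.2.1 * q.imI) ^ 2 := by
    simp only [dt, kp]
    push_cast
    ring
  rw [e4]
  unfold Sp
  rw [e1, e2, e3]
  linear_combination (((h.2.1 : ℝ) * q.imK - h.2.2 * q.imJ) ^ 2 +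
      ((h.2.2 : ℝ) * q.imI - h.1 * q.imK) ^ 2 + ((h.1 : ℝ) * q.imJ - h.2.1 * q.imI) ^ 2) * hc

theorem Ph_sub {D : ℕ} (t : ZMod D × ZMod D) (x y : ℍ[ℤ]) :
    Q.Ph t (x - y) = Q.Ph t x - Q.Ph t y := by
  unfold Q.Ph Pg
  ext i j
  fin_cases i <;> fin_cases j <;> simp <;> ring

theorem eig {D : ℕ} {t : ZMod D × ZMod D} {e : Vec D} (he : Uni e) {q : ℍ[ℤ]} (hq : Fx t e q) :
    ∃ a : ZMod D, (Q.Ph t q).mulVec e = a • e := by
  obtain ⟨α, β, hab⟩ := he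
  unfold Fx at hq
  refine ⟨α * (Q.Ph t q).mulVec e 0 + β * (Q.Ph t q).mulVec e 1, ?_⟩
  funext i
  fin_cases i
  · show (Q.Ph t q).mulVec e 0 = (α * (Q.Ph t q).mulVec e 0 + β * (Q.Ph t q).mulVec e 1) * e 0
    linear_combination (-(Q.Ph t q).mulVec e 0) * hab + β * hq
  · show (Q.Ph t q).mulVec e 1 = (α * (Q.Ph t q).mulVec e 0 + β * (Q.Ph t q).mulVec e 1) * e 1
    linear_combination (-(Q.Ph t q).mulVec e 1) * hab - α * hq

theorem det_zero {D : ℕ} {e : Vec D} (he : Uni e) (M : Matrix (Fin 2) (Fin 2) (ZMod D))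
    (h : M.mulVec e = 0) : M.det = 0 := by
  obtain ⟨α, β, hab⟩ := he
  have h0 : M 0 0 * e 0 + M 0 1 * e 1 = 0 := by
    have := congrFun h 0
    simpa [Matrix.mulVec, dotProduct, Fin.sum_univ_two] using this
  have h1 : M 1 0 * e 0 + M 1 1 * e 1 = 0 := by
    have := congrFun h 1
    simpa [Matrix.mulVec, dotProduct, Fin.sum_univ_two] using this
  rw [Matrix.det_fin_two]
  linear_combination (-(M 0 0 * M 1 1 - M 0 1 * M 1 0)) * hab + α * (M 1 1 * h0 - M 0 1 * h1) +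
    β * (M 0 0 * h1 - M 1 0 * h0)

theorem comm_norm (h : ℤ × ℤ × ℤ) (n : ℤ) (d : ℍ[ℤ]) :
    Quaternion.normSq ((n • pq h) * d - d * (n • pq h)) = 4 * (n ^ 2 * dt (kp h d) (kp h d)) := by
  have c0 : ((n • pq h : ℍ[ℤ])).re = 0 := by
    rw [Quaternion.re_smul]
    exact mul_zero n
  have c1 : ((n • pq h : ℍ[ℤ])).imI = n * h.1 := by
    rw [Quaternion.imI_smul]
    rfl
  have c2 : ((n • pq h : ℍ[ℤ])).imJ = n * h.2.1 := by
    rw [Quaternion.imJ_smul]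
    rfl
  have c3 : ((n • pq h : ℍ[ℤ])).imK = n * h.2.2 := by
    rw [Quaternion.imK_smul]
    rfl
  rw [Quaternion.normSq_def']
  simp only [Quaternion.re_sub, Quaternion.imI_sub, Quaternion.imJ_sub, Quaternion.imK_sub,
    Quaternion.re_mul, Quaternion.imI_mul, Quaternion.imJ_mul, Quaternion.imK_mul, c0, c1, c2, c3,
    kp, dt]
  ring

theorem sep {D : ℕ} (hD : Odd D) {t : ZMod D × ZMod D} (ht : Q.Sq t) {e : Vec D} (he : Uni e)
    {h : ℤ × ℤ × ℤ} {N₁ : ℕ} (hh : Fx t e ((N₁ : ℤ) • pq h)) {d : ℍ[ℤ]} {b : ZMod D}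
    (hd : (Q.Ph t d).mulVec e = b • e) : (D : ℤ) ∣ (N₁ : ℤ) ^ 2 * dt (kp h d) (kp h d) := by
  obtain ⟨a, ha⟩ := eig he hh
  have h1 : (Q.Ph t (((N₁ : ℤ) • pq h) * d - d * ((N₁ : ℤ) • pq h))).mulVec e = 0 := by
    rw [Ph_sub, Q.Ph_mul ht, Q.Ph_mul ht, Matrix.sub_mulVec, ← Matrix.mulVec_mulVec,
      ← Matrix.mulVec_mulVec, hd, ha, Matrix.mulVec_smul, Matrix.mulVec_smul, hd, ha,
      smul_smul, smul_smul, mul_comm, sub_self]
  have h2 := det_zero he _ h1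
  rw [Q.Ph_det ht, comm_norm, ZMod.intCast_zmod_eq_zero_iff_dvd] at h2
  have h3 : IsCoprime (D : ℤ) 4 := by
    have h4 : Nat.Coprime D 4 := by
      have : Nat.Coprime D (2 ^ 2) := Nat.Coprime.pow_right 2 (Nat.coprime_two_right.2 hD)
      exact this
    exact_mod_cast Nat.isCoprime_iff_coprime.2 h4
  exact h3.dvd_of_dvd_mul_left h2

theorem tri (a b c x y z : ℝ) (ha : a ≠ 0) (hb : b ^ 2 ≤ a ^ 2) (hc : c ^ 2 ≤ a ^ 2)
    (h : a * x + b * y + c * z = 0) : x ^ 2 + y ^ 2 + z ^ 2 ≤ 3 * (y ^ 2 + z ^ 2) := by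
  have ha2 : 0 < a ^ 2 := by positivity
  have h1 : a ^ 2 * x ^ 2 ≤ a ^ 2 * (2 * (y ^ 2 + z ^ 2)) := by
    have e1 : a ^ 2 * x ^ 2 = (b * y + c * z) ^ 2 := by
      have : a * x = -(b * y + c * z) := by linarith
      calc a ^ 2 * x ^ 2 = (a * x) ^ 2 := by ring
        _ = (b * y + c * z) ^ 2 := by rw [this]; ring
    have e2 : (b * y + c * z) ^ 2 ≤ (b ^ 2 + c ^ 2) * (y ^ 2 + z ^ 2) := by
      nlinarith [sq_nonneg (b * z - c * y)]
    have e3 : (b ^ 2 + c ^ 2) * (y ^ 2 + z ^ 2) ≤ (a ^ 2 + a ^ 2) * (y ^ 2 + z ^ 2) :=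
      mul_le_mul_of_nonneg_right (add_le_add hb hc) (by positivity)
    rw [e1]
    linarith
  have h2 := le_of_mul_le_mul_left h1 ha2
  linarith

theorem pack {ι : Type*} (S : Finset ι) (a b : ι → ℝ) (s ρ : ℝ) (hs : 0 < s) (hρ : s ≤ ρ)
    (h1 : ∀ x ∈ S, |a x| ≤ ρ ∧ |b x| ≤ ρ)
    (h2 : ∀ x ∈ S, ∀ y ∈ S, x ≠ y → s ^ 2 ≤ 3 * ((a x - a y) ^ 2 + (b x - b y) ^ 2)) :
    (S.card : ℝ) ≤ 64 * (ρ / s) ^ 2 := by
  classical
  have hρ0 : 0 < ρ := hs.trans_le hρ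
  set u : ℝ := 3 * (ρ / s) with hu
  have hrs : 1 ≤ ρ / s := by rwa [one_le_div hs]
  let I : Finset ℤ := Finset.Icc ⌊-u⌋ ⌊u⌋
  have hI : (I.card : ℝ) ≤ 8 * (ρ / s) := by
    have e1 : I.card = (⌊u⌋ + 1 - ⌊-u⌋).toNat := Int.card_Icc _ _
    have e2 : ⌊-u⌋ ≤ ⌊u⌋ := Int.floor_le_floor (by rw [hu]; linarith)
    have e3 : ((⌊u⌋ + 1 - ⌊-u⌋).toNat : ℤ) = ⌊u⌋ + 1 - ⌊-u⌋ := Int.toNat_of_nonneg (by omega)
    have e4 : (((⌊u⌋ + 1 - ⌊-u⌋).toNat : ℤ) : ℝ) = (⌊u⌋ : ℝ) + 1 - (⌊-u⌋ : ℝ) := by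
      rw [e3]
      push_cast
      ring
    have e5 : (I.card : ℝ) = (⌊u⌋ : ℝ) + 1 - (⌊-u⌋ : ℝ) := by
      rw [e1, ← e4]
      norm_cast
    rw [e5]
    have e6 := Int.floor_le u
    have e7 := Int.lt_floor_add_one (-u)
    linarith
  have hsc : ∀ z : ℝ, |z| ≤ ρ → ⌊z * (3 / s)⌋ ∈ I := by
    intro z hz
    rw [abs_le] at hz
    have h3s : 0 < 3 / s := by positivity
    have e1 : u = ρ * (3 / s) := by rw [hu]; ring
    refine Finset.mem_Icc.2 ⟨Int.floor_le_floor ?_, Int.floor_le_floor ?_⟩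
    · rw [e1, ← neg_mul]
      exact mul_le_mul_of_nonneg_right hz.1 h3s.le
    · rw [e1]
      exact mul_le_mul_of_nonneg_right hz.2 h3s.le
  have hfl : ∀ z w : ℝ, ⌊z * (3 / s)⌋ = ⌊w * (3 / s)⌋ → (z - w) ^ 2 < (s / 3) ^ 2 := by
    intro z w hzw
    have h3s : 0 < 3 / s := by positivity
    have e1 := Int.abs_sub_lt_one_of_floor_eq_floor hzw
    have e2 : z * (3 / s) - w * (3 / s) = (z - w) * (3 / s) := by ring
    rw [e2, abs_mul, abs_of_pos h3s] at e1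
    have e3 : |z - w| < s / 3 := by
      rw [← lt_div_iff₀ h3s] at e1
      have : 1 / (3 / s) = s / 3 := by field_simp
      rwa [this] at e1
    rw [← sq_abs (z - w)]
    exact pow_lt_pow_left₀ e3 (abs_nonneg _) (by norm_num)
  have hcard : S.card ≤ (I ×ˢ I).card := by
    refine Finset.card_le_card_of_injOn (fun x => (⌊a x * (3 / s)⌋, ⌊b x * (3 / s)⌋)) ?_ ?_
    · intro x hx
      have := h1 x hx
      exact Finset.mem_coe.2 (Finset.mem_product.2 ⟨hsc _ this.1, hsc _ this.2⟩)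
    · intro x hx y hy hxy
      by_contra hne
      have e0 := h2 x hx y hy hne
      have e1 := hfl _ _ (congrArg Prod.fst hxy)
      have e2 := hfl _ _ (congrArg Prod.snd hxy)
      have e3 : (s / 3) ^ 2 = s ^ 2 / 9 := by ring
      rw [e3] at e1 e2
      have : 0 < s ^ 2 := by positivity
      linarith
  rw [Finset.card_product] at hcard
  have h3 : (S.card : ℝ) ≤ (I.card : ℝ) * I.card := by exact_mod_cast hcard
  have h4 : (I.card : ℝ) * I.card ≤ (8 * (ρ / s)) * (8 * (ρ / s)) :=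
    mul_le_mul hI hI (by positivity) (by positivity)
  calc (S.card : ℝ) ≤ (8 * (ρ / s)) * (8 * (ρ / s)) := h3.trans h4
    _ = 64 * (ρ / s) ^ 2 := by ring

theorem count_values (h : ℤ × ℤ × ℤ) (hh : 0 < dt h h) (m R : ℝ) (hm : 0 < m) (hR : m ≤ R)
    (S : Finset (ℤ × ℤ × ℤ)) (h1 : ∀ x ∈ S, dt h x = 0 ∧ (dt x x : ℝ) ≤ R)
    (h2 : ∀ x ∈ S, ∀ y ∈ S, x ≠ y → m ≤ (dt (x - y) (x - y) : ℝ)) :
    (S.card : ℝ) ≤ 64 * (R / m) := by
  have hR0 : 0 < R := hm.trans_le hR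
  have hs : 0 < Real.sqrt m := Real.sqrt_pos.2 hm
  have hρ : Real.sqrt m ≤ Real.sqrt R := Real.sqrt_le_sqrt hR
  have hq : (Real.sqrt R / Real.sqrt m) ^ 2 = R / m := by
    rw [div_pow, Real.sq_sqrt hR0.le, Real.sq_sqrt hm.le]
  have hdt : ∀ x : ℤ × ℤ × ℤ, (dt x x : ℝ) = (x.1 : ℝ) ^ 2 + (x.2.1 : ℝ) ^ 2 + (x.2.2 : ℝ) ^ 2 := by
    intro x
    simp only [dt]
    push_cast
    ring
  have hb : ∀ x ∈ S, |(x.1 : ℝ)| ≤ Real.sqrt R ∧ |(x.2.1 : ℝ)| ≤ Real.sqrt R ∧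
      |(x.2.2 : ℝ)| ≤ Real.sqrt R := by
    intro x hx
    have e1 := (h1 x hx).2
    rw [hdt] at e1
    refine ⟨Real.abs_le_sqrt ?_, Real.abs_le_sqrt ?_, Real.abs_le_sqrt ?_⟩ <;>
      nlinarith [sq_nonneg (x.1 : ℝ), sq_nonneg (x.2.1 : ℝ), sq_nonneg (x.2.2 : ℝ)]
  have hl : ∀ x ∈ S, ∀ y ∈ S, (h.1 : ℝ) * ((x.1 : ℝ) - y.1) + (h.2.1 : ℝ) * ((x.2.1 : ℝ) - y.2.1) +
      (h.2.2 : ℝ) * ((x.2.2 : ℝ) - y.2.2) = 0 := by
    intro x hx y hy
    have e1 : ((dt h x : ℤ) : ℝ) = 0 := by exact_mod_cast (h1 x hx).1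
    have e2 : ((dt h y : ℤ) : ℝ) = 0 := by exact_mod_cast (h1 y hy).1
    simp only [dt] at e1 e2
    push_cast at e1 e2
    linarith
  have hd : ∀ x ∈ S, ∀ y ∈ S, x ≠ y → m ≤ ((x.1 : ℝ) - y.1) ^ 2 + ((x.2.1 : ℝ) - y.2.1) ^ 2 +
      ((x.2.2 : ℝ) - y.2.2) ^ 2 := by
    intro x hx y hy hne
    have e1 := h2 x hx y hy hne
    rw [hdt] at e1
    simp only [Prod.fst_sub, Prod.snd_sub] at e1
    push_cast at e1
    exact e1
  have hhR : (0 : ℝ) < (h.1 : ℝ) ^ 2 + (h.2.1 : ℝ) ^ 2 + (h.2.2 : ℝ) ^ 2 := by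
    rw [← hdt]
    exact_mod_cast hh
  rw [← hq]
  have hsm : Real.sqrt m ^ 2 = m := Real.sq_sqrt hm.le
  rcases le_total ((h.2.1 : ℝ) ^ 2) ((h.1 : ℝ) ^ 2) with c1 | c1
  · rcases le_total ((h.2.2 : ℝ) ^ 2) ((h.1 : ℝ) ^ 2) with c2 | c2
    · have h0 : (h.1 : ℝ) ≠ 0 := by
        intro h0
        rw [h0] at c1 c2 hhR
        nlinarith
      refine pack S (fun x => (x.2.1 : ℝ)) (fun x => (x.2.2 : ℝ)) _ _ hs hρ
        (fun x hx => ⟨(hb x hx).2.1, (hb x hx).2.2⟩) ?_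
      intro x hx y hy hne
      rw [hsm]
      exact (hd x hx y hy hne).trans (tri _ _ _ _ _ _ h0 c1 c2 (hl x hx y hy))
    · have c3 := c1.trans c2
      have h0 : (h.2.2 : ℝ) ≠ 0 := by
        intro h0
        rw [h0] at c2 c3 hhR
        nlinarith
      refine pack S (fun x => (x.1 : ℝ)) (fun x => (x.2.1 : ℝ)) _ _ hs hρ
        (fun x hx => ⟨(hb x hx).1, (hb x hx).2.1⟩) ?_
      intro x hx y hy hne
      rw [hsm]
      have e1 := tri _ _ _ ((x.2.2 : ℝ) - y.2.2) ((x.1 : ℝ) - y.1) ((x.2.1 : ℝ) - y.2.1) h0 c2 c3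
        (by linarith [hl x hx y hy])
      have e2 := hd x hx y hy hne
      show m ≤ 3 * (((x.1 : ℝ) - y.1) ^ 2 + ((x.2.1 : ℝ) - y.2.1) ^ 2)
      linarith
  · rcases le_total ((h.2.2 : ℝ) ^ 2) ((h.2.1 : ℝ) ^ 2) with c2 | c2
    · have h0 : (h.2.1 : ℝ) ≠ 0 := by
        intro h0
        rw [h0] at c1 c2 hhR
        nlinarith
      refine pack S (fun x => (x.1 : ℝ)) (fun x => (x.2.2 : ℝ)) _ _ hs hρ
        (fun x hx => ⟨(hb x hx).1, (hb x hx).2.2⟩) ?_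
      intro x hx y hy hne
      rw [hsm]
      have e1 := tri _ _ _ ((x.2.1 : ℝ) - y.2.1) ((x.1 : ℝ) - y.1) ((x.2.2 : ℝ) - y.2.2) h0 c1 c2
        (by linarith [hl x hx y hy])
      have e2 := hd x hx y hy hne
      show m ≤ 3 * (((x.1 : ℝ) - y.1) ^ 2 + ((x.2.2 : ℝ) - y.2.2) ^ 2)
      linarith
    · have c3 := c1.trans c2
      have h0 : (h.2.2 : ℝ) ≠ 0 := by
        intro h0
        rw [h0] at c2 c3 hhR
        nlinarith
      refine pack S (fun x => (x.1 : ℝ)) (fun x => (x.2.1 : ℝ)) _ _ hs hρ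
        (fun x hx => ⟨(hb x hx).1, (hb x hx).2.1⟩) ?_
      intro x hx y hy hne
      rw [hsm]
      have e1 := tri _ _ _ ((x.2.2 : ℝ) - y.2.2) ((x.1 : ℝ) - y.1) ((x.2.1 : ℝ) - y.2.1) h0 c3 c2
        (by linarith [hl x hx y hy])
      have e2 := hd x hx y hy hne
      show m ≤ 3 * (((x.1 : ℝ) - y.1) ^ 2 + ((x.2.1 : ℝ) - y.2.1) ^ 2)
      linarith

/-- the quaternions with a given vector product -/
theorem fibre {δ K : ℝ} (hδ : 0 < δ) (hK : 1 ≤ K) (hb : ∀ (H N : ℕ), 1 ≤ H → 1 ≤ N →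
    ∀ F : Finset (ℤ × ℤ), (∀ p ∈ F, p.1 ^ 2 + H * p.2 ^ 2 = N) → (F.card : ℝ) ≤ K * (N : ℝ) ^ δ)
    {h : ℤ × ℤ × ℤ} (hh : 0 < dt h h) (k : ℕ) (c : ℤ × ℤ × ℤ) (F : Finset ℍ[ℤ])
    (hF : ∀ q ∈ F, Quaternion.normSq q = 25 ^ k ∧ kp h q = c) :
    (F.card : ℝ) ≤ K * ((dt h h : ℝ) * 25 ^ k) ^ δ := by
  classical
  have hHR : (1 : ℝ) ≤ (dt h h : ℝ) := by exact_mod_cast hh
  have h25 : (1 : ℝ) ≤ 25 ^ k := one_le_pow₀ (by norm_num)
  have hone : (1 : ℝ) ≤ (dt h h : ℝ) * 25 ^ k := by nlinarith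
  have hone' : (1 : ℝ) ≤ K * ((dt h h : ℝ) * 25 ^ k) ^ δ := by
    have := Real.one_le_rpow hone hδ.le
    nlinarith
  rcases F.eq_empty_or_nonempty with hE | ⟨q₀, hq₀⟩
  · rw [hE]
    simp only [Finset.card_empty, Nat.cast_zero]
    linarith
  have heq : ∀ q ∈ F, (bp h q) ^ 2 + dt h h * q.re ^ 2 = dt h h * 25 ^ k - dt c c := by
    intro q hq
    obtain ⟨h1, h2⟩ := hF q hq
    have h3 := lagr h q
    rw [h2] at h3
    rw [Quaternion.normSq_def'] at h1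
    linear_combination h3 + dt h h * h1
  have hinj : Set.InjOn (fun q : ℍ[ℤ] => (bp h q, q.re)) (F : Set ℍ[ℤ]) := by
    intro q hq q' hq' he
    have h1 := (hF q hq).2
    have h2 := (hF q' hq').2
    have e0 : bp h q = bp h q' := congrArg Prod.fst he
    have er : q.re = q'.re := congrArg Prod.snd he
    rw [← h2] at h1
    have k1 : h.2.1 * q.imK - h.2.2 * q.imJ = h.2.1 * q'.imK - h.2.2 * q'.imJ :=
      congrArg Prod.fst h1
    have k2 : h.2.2 * q.imI - h.1 * q.imK = h.2.2 * q'.imI - h.1 * q'.imK :=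
      congrArg (fun z => z.2.1) h1
    have k3 : h.1 * q.imJ - h.2.1 * q.imI = h.1 * q'.imJ - h.2.1 * q'.imI :=
      congrArg (fun z => z.2.2) h1
    have hne : dt h h ≠ 0 := hh.ne'
    unfold bp at e0
    refine QuaternionAlgebra.ext er ?_ ?_ ?_
    · apply mul_left_cancel₀ hne
      simp only [dt]
      linear_combination h.1 * e0 + h.2.2 * k2 - h.2.1 * k3
    · apply mul_left_cancel₀ hne
      simp only [dt]
      linear_combination h.2.1 * e0 + h.1 * k3 - h.2.2 * k1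
    · apply mul_left_cancel₀ hne
      simp only [dt]
      linear_combination h.2.2 * e0 + h.2.1 * k1 - h.1 * k2
  have hcard : (F.image (fun q : ℍ[ℤ] => (bp h q, q.re))).card = F.card :=
    Finset.card_image_of_injOn hinj
  have hN0 : 0 ≤ dt h h * 25 ^ k - dt c c := by
    rw [← heq q₀ hq₀]
    positivity
  rcases hN0.eq_or_lt with hN | hN
  · -- one element
    have hle : (F.image (fun q : ℍ[ℤ] => (bp h q, q.re))).card ≤ 1 := by
      rw [Finset.card_le_one]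
      have key : ∀ p ∈ F.image (fun q : ℍ[ℤ] => (bp h q, q.re)), p = (0, 0) := by
        intro p hp
        obtain ⟨q, hq, rfl⟩ := Finset.mem_image.1 hp
        have h1 := heq q hq
        rw [← hN] at h1
        have h2 : (bp h q) ^ 2 = 0 := by
          have := mul_nonneg hh.le (sq_nonneg q.re)
          nlinarith [sq_nonneg (bp h q)]
        have h3 : dt h h * q.re ^ 2 = 0 := by linarith
        have h4 : q.re ^ 2 = 0 := (mul_eq_zero.1 h3).resolve_left hh.ne'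
        exact Prod.ext (pow_eq_zero_iff (by norm_num) |>.1 h2)
          (pow_eq_zero_iff (by norm_num) |>.1 h4)
      intro p hp p' hp'
      rw [key p hp, key p' hp']
    rw [hcard] at hle
    have : (F.card : ℝ) ≤ 1 := by exact_mod_cast hle
    linarith
  · obtain ⟨N, hNN⟩ := Int.eq_ofNat_of_zero_le hN.le
    obtain ⟨H, hHH⟩ := Int.eq_ofNat_of_zero_le hh.le
    have hN1 : 1 ≤ N := by omega
    have hH1 : 1 ≤ H := by omega
    have h1 := hb H N hH1 hN1 (F.image (fun q : ℍ[ℤ] => (bp h q, q.re))) (by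
      intro p hp
      obtain ⟨q, hq, rfl⟩ := Finset.mem_image.1 hp
      have h1 := heq q hq
      rw [hNN] at h1
      rw [hHH] at h1
      exact h1)
    rw [hcard] at h1
    refine h1.trans (mul_le_mul_of_nonneg_left ?_ (by linarith))
    refine Real.rpow_le_rpow (by positivity) ?_ hδ.le
    have h2 : (N : ℝ) = (dt h h : ℝ) * 25 ^ k - (dt c c : ℝ) := by
      have : ((N : ℤ) : ℝ) = ((dt h h * 25 ^ k - dt c c : ℤ) : ℝ) := by
        rw [hNN]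
      push_cast at this
      exact this
    have h3 : (0 : ℝ) ≤ (dt c c : ℝ) := by
      have : 0 ≤ dt c c := by
        simp only [dt]
        nlinarith [sq_nonneg c.1, sq_nonneg c.2.1, sq_nonneg c.2.2]
      exact_mod_cast this
    linarith

end M4a

/-- TARGET -/
theorem circ_count (δ : ℝ) (hδ : 0 < δ) : ∃ K : ℝ, 1 ≤ K ∧ ∀ (D : ℕ) [NeZero D], Odd D →
    ∀ t : ZMod D × ZMod D, Q.Sq t → ∀ e : Vec D, Uni e → ∀ (h : ℤ × ℤ × ℤ) (N₁ : ℕ), 1 ≤ N₁ →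
    0 < dt h h → Fx t e ((N₁ : ℤ) • pq h) → ∀ (k : ℕ) (T : ℝ), 0 ≤ T → ∀ F : Finset ℍ[ℤ],
    (∀ q ∈ F, Quaternion.normSq q = 25 ^ k ∧ Fx t e q ∧ Sp (hp h) q ≤ T) →
    (F.card : ℝ) ≤ K * ((dt h h : ℝ) * 25 ^ k) ^ δ * (1 + T * ((dt h h : ℝ) * (N₁ : ℝ) ^ 2) / D) := by
  classical
  obtain ⟨K, hK, hb⟩ := binrep δ hδ
  refine ⟨64 * K, by linarith, ?_⟩
  intro D _ hD t ht e he h N₁ hN₁ hh hfx k T hT F hF
  have hHR : (1 : ℝ) ≤ (dt h h : ℝ) := by exact_mod_cast hh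
  have hH0 : (0 : ℝ) < (dt h h : ℝ) := by linarith
  have hNR : (1 : ℝ) ≤ (N₁ : ℝ) := by exact_mod_cast hN₁
  have hD0 : (0 : ℝ) < (D : ℝ) := by exact_mod_cast Nat.pos_of_ne_zero (NeZero.ne D)
  set L : ℝ := K * ((dt h h : ℝ) * 25 ^ k) ^ δ with hL
  have hL0 : 0 ≤ L := by positivity
  set S : Finset (ℤ × ℤ × ℤ) := F.image (M4a.kp h) with hS
  -- fibres
  have hfib : ∀ c ∈ S, ((F.filter fun q => M4a.kp h q = c).card : ℝ) ≤ L := by
    intro c _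
    refine M4a.fibre hδ hK hb hh k c _ ?_
    intro q hq
    rw [Finset.mem_filter] at hq
    exact ⟨(hF q hq.1).1, hq.2⟩
  have hcardF : (F.card : ℝ) ≤ S.card * L := by
    have h1 : F.card = ∑ c ∈ S, (F.filter fun q => M4a.kp h q = c).card :=
      Finset.card_eq_sum_card_image (M4a.kp h) F
    rw [h1]
    push_cast
    calc ∑ c ∈ S, ((F.filter fun q => M4a.kp h q = c).card : ℝ) ≤ ∑ _c ∈ S, L :=
          Finset.sum_le_sum hfib
      _ = S.card * L := by rw [Finset.sum_const, nsmul_eq_mul]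
  -- divisibility
  have hdv : ∀ q ∈ F, (D : ℤ) ∣ (N₁ : ℤ) ^ 2 * dt (M4a.kp h q) (M4a.kp h q) := by
    intro q hq
    obtain ⟨a, ha⟩ := M4a.eig he (hF q hq).2.1
    exact M4a.sep hD ht he hfx ha
  have hdv2 : ∀ q ∈ F, ∀ q' ∈ F, (D : ℤ) ∣ (N₁ : ℤ) ^ 2 *
      dt (M4a.kp h q - M4a.kp h q') (M4a.kp h q - M4a.kp h q') := by
    intro q hq q' hq'
    obtain ⟨a, ha⟩ := M4a.eig he (hF q hq).2.1
    obtain ⟨a', ha'⟩ := M4a.eig he (hF q' hq').2.1
    have h1 : (Q.Ph t (q - q')).mulVec e = (a - a') • e := by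
      rw [M4a.Ph_sub, Matrix.sub_mulVec, ha, ha', sub_smul]
    have h2 := M4a.sep hD ht he hfx h1
    have h3 : M4a.kp h (q - q') = M4a.kp h q - M4a.kp h q' := by
      simp only [M4a.kp, Quaternion.imI_sub, Quaternion.imJ_sub, Quaternion.imK_sub]
      refine Prod.ext ?_ (Prod.ext ?_ ?_)
      · simp only [Prod.fst_sub]
        ring
      · simp only [Prod.snd_sub, Prod.fst_sub]
        ring
      · simp only [Prod.snd_sub]
        ring
    rwa [h3] at h2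
  have hle : ∀ q ∈ F, (dt (M4a.kp h q) (M4a.kp h q) : ℝ) ≤ (dt h h : ℝ) * T := by
    intro q hq
    rw [← M4a.Sp_eq h hh q]
    exact mul_le_mul_of_nonneg_left (hF q hq).2.2 hH0.le
  have hpos : ∀ z : ℤ × ℤ × ℤ, z ≠ 0 → 0 < dt z z := by
    intro z hz
    by_contra hcon
    apply hz
    simp only [dt, not_lt] at hcon
    have h1 : z.1 = 0 := by nlinarith [sq_nonneg z.1, sq_nonneg z.2.1, sq_nonneg z.2.2]
    have h2 : z.2.1 = 0 := by nlinarith [sq_nonneg z.1, sq_nonneg z.2.1, sq_nonneg z.2.2]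
    have h3 : z.2.2 = 0 := by nlinarith [sq_nonneg z.1, sq_nonneg z.2.1, sq_nonneg z.2.2]
    exact Prod.ext h1 (Prod.ext h2 h3)
  have hlow : ∀ z : ℤ × ℤ × ℤ, z ≠ 0 → (D : ℤ) ∣ (N₁ : ℤ) ^ 2 * dt z z →
      (D : ℝ) / (N₁ : ℝ) ^ 2 ≤ (dt z z : ℝ) := by
    intro z hz hdz
    have h1 := hpos z hz
    have h2 : (D : ℤ) ≤ (N₁ : ℤ) ^ 2 * dt z z :=
      Int.le_of_dvd (by positivity) hdz
    have h3 : (D : ℝ) ≤ (N₁ : ℝ) ^ 2 * (dt z z : ℝ) := by exact_mod_cast h2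
    rw [div_le_iff₀ (by positivity)]
    linarith
  -- number of values
  have hval : (S.card : ℝ) ≤ 64 * (1 + T * ((dt h h : ℝ) * (N₁ : ℝ) ^ 2) / D) := by
    have hnn : 0 ≤ T * ((dt h h : ℝ) * (N₁ : ℝ) ^ 2) / D := by positivity
    rcases lt_or_ge ((dt h h : ℝ) * T) ((D : ℝ) / (N₁ : ℝ) ^ 2) with hlt | hge
    · have h1 : S.card ≤ 1 := by
        rw [Finset.card_le_one]
        have key : ∀ c ∈ S, c = 0 := by
          intro c hc
          obtain ⟨q, hq, rfl⟩ := Finset.mem_image.1 hc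
          by_contra hne
          have := hlow _ hne (hdv q hq)
          have := hle q hq
          linarith
        intro c hc c' hc'
        rw [key c hc, key c' hc']
      have h2 : (S.card : ℝ) ≤ 1 := by exact_mod_cast h1
      linarith
    · have h1 := M4a.count_values h hh ((D : ℝ) / (N₁ : ℝ) ^ 2) ((dt h h : ℝ) * T)
        (by positivity) hge S (by
          intro c hc
          obtain ⟨q, hq, rfl⟩ := Finset.mem_image.1 hc
          exact ⟨M4a.orth h q, hle q hq⟩) (by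
          intro c hc c' hc' hne
          obtain ⟨q, hq, rfl⟩ := Finset.mem_image.1 hc
          obtain ⟨q', hq', rfl⟩ := Finset.mem_image.1 hc'
          exact hlow _ (sub_ne_zero.2 hne) (hdv2 q hq q' hq'))
      have h2 : (dt h h : ℝ) * T / ((D : ℝ) / (N₁ : ℝ) ^ 2) =
          T * ((dt h h : ℝ) * (N₁ : ℝ) ^ 2) / D := by
        field_simp
      rw [h2] at h1
      linarith
  calc (F.card : ℝ) ≤ S.card * L := hcardF
    _ ≤ 64 * (1 + T * ((dt h h : ℝ) * (N₁ : ℝ) ^ 2) / D) * L :=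
        mul_le_mul_of_nonneg_right hval hL0
    _ = 64 * K * ((dt h h : ℝ) * 25 ^ k) ^ δ *
        (1 + T * ((dt h h : ℝ) * (N₁ : ℝ) ^ 2) / D) := by
        rw [hL]
        ring

end Pool.Agent.H978V
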