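import Pool.Agent.H978V.NDefs
import Pool.Agent.H978V.M0
import Pool.Agent.H978V.M4a
import Pool.Agent.H978V.A5

/-!
JOB A6 (owner helper978, MP_06cce2_nt).  `H978V/*.lean` (library, with `NDefs`, `M0` (`binrep`), `M4a` (`circ_count`)) is on origin/main.

Number of integral quaternions `q` of norm `25^k` whose matrix modulo `D` fixes the line `e` and whose imaginary part is near the line of `p₀`.  READ `H978V/M4a.lean` (`circ_count`, the case of an integral direction; the fibre argument is the same).  `Sp p₀ q = |p₀ × Im q|²`.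

PROOF.  `f x = (Q.Ph t (pq x)).mulVec e 0 * e 1 - (Q.Ph t (pq x)).mulVec e 1 * e 0` is additive in `x`, and `Fx t e q ↔ f (Im q) = 0` (the real part acts as a scalar).  `f` is surjective: with `Q.Ph t (pq x) = !![α, β; γ, -α]`, `f x = 2 α e₀ e₁ + β e₁² - γ e₀²`; `Uni e`: `a e₀ + b e₁ = 1`; for `c : ZMod D` take `α = a b c`, `β = b² c`, `γ = -a² c` (then `f x = c (a e₀ + b e₁)² = c`),
and `α = I r - K s`, `β = I s + J + K r`, `γ = I s - J + K r` is solvable for `I, J, K` modulo `D` (`2` is a unit; `r² + s² = -1`: `J = (β-γ)/2`, `w = (β+γ)/2 = I s + K r`, so `I = -(α r + w s)`, `K = α s - w r` up to signs; check), lifted to integers.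
Let `R = 5^k`.  `|Im q|² ≤ R²` and `Sp p₀ q ≤ |Im q|² ≤ R²`.  Put `X = R`, `Y² = min(T, R²) + ρ` with `ρ` tiny such that `0 < Y ≤ X` (for instance `Y² = max (min T (R²)) (1/R)`; then `(X Y²/D)^(2/3) ≤ (5^k T/D)^(2/3) + 1`).  If all `Im q` are `0` then `q = ± 5^k` and `|F| ≤ 2`.  Otherwise `cross_count` for the set of the `Im q` gives `h`, `H = dt h h ≤ 25^k`, `H ≥ 1`;
the number of values `κ = crz h (Im q)` is `≤ C (5^k + (5^k T/D)^(2/3) + 1)`.  Fibres: `H Im q = b h - h × κ`, `b = dt h (Im q)`, so `q` is determined by `κ, b, q₀ = q.re`, and `b² + H q₀² = H 25^k - |κ|²`: if this is `0`: one `q`; otherwise `binrep (δ/2)`: at most `K (H 25^k)^(δ/2) ≤ K (25^k)^δ`.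
-/

set_option autoImplicit false

open scoped Quaternion

namespace Pool.Agent.H978V

open Pool.Agent.Helper557.Rz

namespace A6

/-- the additive form of the condition `Fx` -/
def fz {D : ℕ} (t : ZMod D × ZMod D) (e : Vec D) : ℤ × ℤ × ℤ →+ ZMod D where
  toFun x := (Q.Ph t (pq x)).mulVec e 0 * e 1 - (Q.Ph t (pq x)).mulVec e 1 * e 0
  map_zero' := by
    simp [Q.Ph, Pg, pq, Matrix.mulVec, dotProduct, Fin.sum_univ_two]
  map_add' := by
    intro x y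
    simp [Q.Ph, Pg, pq, Matrix.mulVec, dotProduct, Fin.sum_univ_two]
    ring

theorem fz_apply {D : ℕ} (t : ZMod D × ZMod D) (e : Vec D) (x : ℤ × ℤ × ℤ) :
    fz t e x = 2 * ((x.1 : ZMod D) * t.1 - x.2.2 * t.2) * (e 0 * e 1) +
      ((x.1 : ZMod D) * t.2 + x.2.1 + x.2.2 * t.1) * e 1 ^ 2 -
      ((x.1 : ZMod D) * t.2 - x.2.1 + x.2.2 * t.1) * e 0 ^ 2 := by
  show (Q.Ph t (pq x)).mulVec e 0 * e 1 - (Q.Ph t (pq x)).mulVec e 1 * e 0 = _
  simp [Q.Ph, Pg, pq, Matrix.mulVec, dotProduct, Fin.sum_univ_two]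
  ring

theorem fz_Fx {D : ℕ} {t : ZMod D × ZMod D} {e : Vec D} {q : ℍ[ℤ]} (h : Fx t e q) :
    fz t e (q.imI, q.imJ, q.imK) = 0 := by
  unfold Fx at h
  rw [fz_apply]
  simp [Q.Ph, Pg, Matrix.mulVec, dotProduct, Fin.sum_univ_two] at h
  linear_combination h

theorem half {D : ℕ} (hD : Odd D) : ∃ a : ZMod D, 2 * a = 1 := by
  obtain ⟨m, hm⟩ := hD
  refine ⟨((m + 1 : ℕ) : ZMod D), ?_⟩
  have h1 : ((D : ℕ) : ZMod D) = 0 := ZMod.natCast_self D
  have h2 : ((2 * (m + 1) : ℕ) : ZMod D) = ((D + 1 : ℕ) : ZMod D) := by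
    congr 1
    omega
  push_cast at h2
  rw [h1] at h2
  push_cast
  linear_combination h2

theorem fz_surj {D : ℕ} [NeZero D] (hD : Odd D) {t : ZMod D × ZMod D} (ht : Q.Sq t) {e : Vec D}
    (he : Uni e) : Function.Surjective (fz t e) := by
  intro c
  obtain ⟨a, b, hab⟩ := he
  obtain ⟨g, hg⟩ := half hD
  unfold Q.Sq at ht
  set α : ZMod D := a * b * c with hα
  set J : ZMod D := g * (b ^ 2 * c + a ^ 2 * c) with hJ
  set w : ZMod D := g * (b ^ 2 * c - a ^ 2 * c) with hw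
  obtain ⟨i, hi⟩ := ZMod.intCast_surjective (-(α * t.1 + w * t.2))
  obtain ⟨j, hj⟩ := ZMod.intCast_surjective J
  obtain ⟨k, hk⟩ := ZMod.intCast_surjective (α * t.2 - w * t.1)
  refine ⟨(i, j, k), ?_⟩
  rw [fz_apply]
  simp only
  rw [hi, hj, hk]
  have e1 : -(α * t.1 + w * t.2) * t.1 - (α * t.2 - w * t.1) * t.2 = α := by
    linear_combination (-α) * ht
  have e2 : -(α * t.1 + w * t.2) * t.2 + (α * t.2 - w * t.1) * t.1 = w := by
    linear_combination (-w) * ht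
  have e3 : -(α * t.1 + w * t.2) * t.2 + J + (α * t.2 - w * t.1) * t.1 = b ^ 2 * c := by
    have : w + J = b ^ 2 * c := by
      rw [hw, hJ]
      linear_combination (b ^ 2 * c) * hg
    linear_combination e2 + this
  have e4 : -(α * t.1 + w * t.2) * t.2 - J + (α * t.2 - w * t.1) * t.1 = -(a ^ 2 * c) := by
    have : w - J = -(a ^ 2 * c) := by
      rw [hw, hJ]
      linear_combination (-(a ^ 2 * c)) * hg
    linear_combination e2 + this
  rw [e1, e3, e4, hα]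
  linear_combination c * (a * e 0 + b * e 1 + 1) * hab

theorem Sp_le {p : ℍ[ℝ]} (hp : UP p) (q : ℍ[ℤ]) :
    Sp p q ≤ (q.imI : ℝ) ^ 2 + (q.imJ : ℝ) ^ 2 + (q.imK : ℝ) ^ 2 := by
  obtain ⟨h0, h1⟩ := hp
  have h2 : p.imI ^ 2 + p.imJ ^ 2 + p.imK ^ 2 = 1 := by
    have h3 : Quaternion.normSq p = 1 := by
      rw [Quaternion.normSq_eq_norm_mul_self, h1, mul_one]
    rw [Quaternion.normSq_def', h0] at h3
    linarith
  have h3 : Sp p q + (q.imI * p.imI + q.imJ * p.imJ + q.imK * p.imK) ^ 2 =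
      ((q.imI : ℝ) ^ 2 + (q.imJ : ℝ) ^ 2 + (q.imK : ℝ) ^ 2) *
        (p.imI ^ 2 + p.imJ ^ 2 + p.imK ^ 2) := by
    unfold Sp
    ring
  rw [h2, mul_one] at h3
  nlinarith [sq_nonneg ((q.imI : ℝ) * p.imI + q.imJ * p.imJ + q.imK * p.imK)]

theorem re_count (k : ℕ) (F : Finset ℍ[ℤ]) (hF : ∀ q ∈ F, Quaternion.normSq q = 25 ^ k ∧
    (q.imI, q.imJ, q.imK) = ((0, 0, 0) : ℤ × ℤ × ℤ)) : F.card ≤ 2 := by
  classical
  have hinj : Set.InjOn (fun q : ℍ[ℤ] => q.re) (F : Set ℍ[ℤ]) := by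
    intro q hq q' hq' he
    have h1 := (hF q hq).2
    have h2 := (hF q' hq').2
    simp only [Prod.mk.injEq] at h1 h2
    exact QuaternionAlgebra.ext he (by rw [h1.1, h2.1]) (by rw [h1.2.1, h2.2.1])
      (by rw [h1.2.2, h2.2.2])
  have hsub : F.image (fun q : ℍ[ℤ] => q.re) ⊆ {(5 : ℤ) ^ k, -(5 : ℤ) ^ k} := by
    intro z hz
    obtain ⟨q, hq, rfl⟩ := Finset.mem_image.1 hz
    obtain ⟨h1, h2⟩ := hF q hq
    simp only [Prod.mk.injEq] at h2
    rw [Quaternion.normSq_def', h2.1, h2.2.1, h2.2.2] at h1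
    have h3 : q.re ^ 2 = (5 ^ k) ^ 2 := by
      rw [← pow_mul, mul_comm k 2, pow_mul]
      norm_num
      linarith
    rcases sq_eq_sq_iff_eq_or_eq_neg.1 h3 with h | h
    · rw [h]; simp
    · rw [h]; simp
  rw [← Finset.card_image_of_injOn hinj]
  exact (Finset.card_le_card hsub).trans Finset.card_le_two

end A6


/-- TARGET -/
theorem gen_count (δ : ℝ) (hδ : 0 < δ) : ∃ K : ℝ, 1 ≤ K ∧ ∀ (D : ℕ) [NeZero D], Odd D →
    ∀ t : ZMod D × ZMod D, Q.Sq t → ∀ e : Vec D, Uni e → ∀ p₀ : ℍ[ℝ], UP p₀ → ∀ (k : ℕ) (T : ℝ), 0 ≤ T →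
    ∀ F : Finset ℍ[ℤ], (∀ q ∈ F, Quaternion.normSq q = 25 ^ k ∧ Fx t e q ∧ Sp p₀ q ≤ T) →
    (F.card : ℝ) ≤ K * ((25 : ℝ) ^ k) ^ δ * (5 ^ k + (5 ^ k * T / D) ^ (2 / 3 : ℝ)) := by
  classical
  obtain ⟨K, hK, hb⟩ := binrep (δ / 2) (by positivity)
  obtain ⟨C, hC, hcc⟩ := cross_count
  refine ⟨2 * (C * K), by nlinarith, ?_⟩
  intro D _ hD t ht e he p₀ hp₀ k T hT F hF
  have hD0 : (0 : ℝ) < (D : ℝ) := by exact_mod_cast Nat.pos_of_ne_zero (NeZero.ne D)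
  have hD1 : (1 : ℝ) ≤ (D : ℝ) := by exact_mod_cast Nat.pos_of_ne_zero (NeZero.ne D)
  have hR1 : (1 : ℝ) ≤ (5 : ℝ) ^ k := one_le_pow₀ (by norm_num)
  have hR25 : ((5 : ℝ) ^ k) ^ 2 = 25 ^ k := by
    rw [← pow_mul, mul_comm k 2, pow_mul]
    norm_num
  have h25 : (1 : ℝ) ≤ 25 ^ k := one_le_pow₀ (by norm_num)
  have h25d : (1 : ℝ) ≤ ((25 : ℝ) ^ k) ^ δ := Real.one_le_rpow h25 hδ.le
  have hU0 : 0 ≤ (5 ^ k * T / D : ℝ) ^ (2 / 3 : ℝ) := Real.rpow_nonneg (by positivity) _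
  have hCK : 1 ≤ C * K := by nlinarith
  by_cases hall : ∀ q ∈ F, (q.imI, q.imJ, q.imK) = ((0, 0, 0) : ℤ × ℤ × ℤ)
  · have h1 := A6.re_count k F (fun q hq => ⟨(hF q hq).1, hall q hq⟩)
    have h2 : (F.card : ℝ) ≤ 2 := by exact_mod_cast h1
    have h3 : (1 : ℝ) ≤ C * K * ((25 : ℝ) ^ k) ^ δ := one_le_mul_of_one_le_of_one_le hCK h25d
    have h4 : (1 : ℝ) ≤ 5 ^ k + (5 ^ k * T / D : ℝ) ^ (2 / 3 : ℝ) := by linarith
    have h5 := one_le_mul_of_one_le_of_one_le h3 h4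
    nlinarith
  push Not at hall
  obtain ⟨q₁, hq₁, hne₁⟩ := hall
  -- the needle
  set R : ℝ := (5 : ℝ) ^ k with hR
  have hR0 : 0 < R := by linarith
  set Z : ℝ := max (min T (R ^ 2)) (1 / R) with hZ
  have hZ0 : 0 < Z := lt_of_lt_of_le (by positivity) (le_max_right _ _)
  have hZR : Z ≤ R ^ 2 := by
    refine max_le (min_le_right _ _) ?_
    rw [div_le_iff₀ hR0]
    nlinarith
  have hY2 : Real.sqrt Z ^ 2 = Z := Real.sq_sqrt hZ0.le
  have hY0 : 0 < Real.sqrt Z := Real.sqrt_pos.2 hZ0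
  have hYR : Real.sqrt Z ≤ R := by
    rw [Real.sqrt_le_left hR0.le]
    exact hZR
  have hnorm : ∀ q ∈ F, (q.imI : ℝ) ^ 2 + (q.imJ : ℝ) ^ 2 + (q.imK : ℝ) ^ 2 ≤ R ^ 2 := by
    intro q hq
    have h1 := (hF q hq).1
    rw [Quaternion.normSq_def'] at h1
    have h2 : (q.re : ℝ) ^ 2 + (q.imI : ℝ) ^ 2 + (q.imJ : ℝ) ^ 2 + (q.imK : ℝ) ^ 2 = 25 ^ k := by
      exact_mod_cast h1
    rw [hR25]
    nlinarith [sq_nonneg (q.re : ℝ)]
  obtain ⟨h, hh0, hhle, hcard⟩ := hcc D (A6.fz t e) (A6.fz_surj hD ht he) p₀ hp₀ R (Real.sqrt Z)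
    hR1 hY0 hYR (F.image fun q => (q.imI, q.imJ, q.imK)) (by
      intro x hx
      obtain ⟨q, hq, rfl⟩ := Finset.mem_image.1 hx
      refine ⟨A6.fz_Fx (hF q hq).2.1, ?_, ?_⟩
      · have h1 := hnorm q hq
        simp only [dt]
        push_cast
        linarith
      · rw [hY2]
        refine le_trans ?_ (le_max_left _ _)
        refine le_min (hF q hq).2.2 ?_
        exact (A6.Sp_le hp₀ q).trans (hnorm q hq))
      ⟨_, Finset.mem_image.2 ⟨q₁, hq₁, rfl⟩, hne₁⟩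
  have hh : 0 < dt h h := by
    by_contra hcon
    apply hh0
    simp only [dt, not_lt] at hcon
    have h1 : h.1 = 0 := by nlinarith [sq_nonneg h.1, sq_nonneg h.2.1, sq_nonneg h.2.2]
    have h2 : h.2.1 = 0 := by nlinarith [sq_nonneg h.1, sq_nonneg h.2.1, sq_nonneg h.2.2]
    have h3 : h.2.2 = 0 := by nlinarith [sq_nonneg h.1, sq_nonneg h.2.1, sq_nonneg h.2.2]
    exact Prod.ext h1 (Prod.ext h2 h3)
  rw [Finset.image_image] at hcard
  have himg : F.image (crz h ∘ fun q : ℍ[ℤ] => (q.imI, q.imJ, q.imK)) = F.image (M4a.kp h) := rfl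
  rw [himg, hY2] at hcard
  set S := F.image (M4a.kp h) with hS
  have hH0 : (0 : ℝ) < (dt h h : ℝ) := by exact_mod_cast hh
  set L : ℝ := K * ((25 : ℝ) ^ k) ^ δ with hL
  have hL0 : 0 ≤ L := by positivity
  have hfib : ∀ c ∈ S, ((F.filter fun q => M4a.kp h q = c).card : ℝ) ≤ L := by
    intro c _
    refine (M4a.fibre (by positivity) hK hb hh k c _ ?_).trans ?_
    · intro q hq
      rw [Finset.mem_filter] at hq
      exact ⟨(hF q hq.1).1, hq.2⟩
    · refine mul_le_mul_of_nonneg_left ?_ (by linarith)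
      have h1 : (dt h h : ℝ) * 25 ^ k ≤ ((25 : ℝ) ^ k) ^ (2 : ℝ) := by
        rw [Real.rpow_two, pow_two]
        exact mul_le_mul_of_nonneg_right (by rw [← hR25]; exact hhle) (by positivity)
      calc ((dt h h : ℝ) * 25 ^ k) ^ (δ / 2) ≤ (((25 : ℝ) ^ k) ^ (2 : ℝ)) ^ (δ / 2) :=
            Real.rpow_le_rpow (by positivity) h1 (by positivity)
        _ = ((25 : ℝ) ^ k) ^ δ := by
            rw [← Real.rpow_mul (by positivity)]
            congr 1
            ring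
  have hcardF : (F.card : ℝ) ≤ S.card * L := by
    have h1 : F.card = ∑ c ∈ S, (F.filter fun q => M4a.kp h q = c).card :=
      Finset.card_eq_sum_card_image (M4a.kp h) F
    rw [h1]
    push_cast
    calc ∑ c ∈ S, ((F.filter fun q => M4a.kp h q = c).card : ℝ) ≤ ∑ _c ∈ S, L :=
          Finset.sum_le_sum hfib
      _ = S.card * L := by rw [Finset.sum_const, nsmul_eq_mul]
  have hpow : (R * Z / D) ^ (2 / 3 : ℝ) ≤ (R * T / D) ^ (2 / 3 : ℝ) + 1 := by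
    rcases le_total (min T (R ^ 2)) (1 / R) with hc | hc
    · have h1 : Z = 1 / R := max_eq_right hc
      have h2 : R * Z / D ≤ 1 := by
        rw [h1, mul_one_div_cancel hR0.ne', div_le_one hD0]
        exact hD1
      have h3 : (R * Z / D) ^ (2 / 3 : ℝ) ≤ 1 :=
        Real.rpow_le_one (by positivity) h2 (by norm_num)
      have h4 : 0 ≤ (R * T / D) ^ (2 / 3 : ℝ) := Real.rpow_nonneg (by positivity) _
      linarith
    · have h1 : Z ≤ T := by
        rw [hZ, max_eq_left hc]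
        exact min_le_left _ _
      have h2 : (R * Z / D) ^ (2 / 3 : ℝ) ≤ (R * T / D) ^ (2 / 3 : ℝ) := by
        refine Real.rpow_le_rpow (by positivity) ?_ (by norm_num)
        exact div_le_div_of_nonneg_right (mul_le_mul_of_nonneg_left h1 hR0.le) hD0.le
      linarith
  have hSle : (S.card : ℝ) ≤ 2 * C * (R + (R * T / D) ^ (2 / 3 : ℝ)) := by
    refine hcard.trans ?_
    have h1 : R + (R * Z / D) ^ (2 / 3 : ℝ) ≤ 2 * (R + (R * T / D) ^ (2 / 3 : ℝ)) := by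
      linarith
    calc C * (R + (R * Z / D) ^ (2 / 3 : ℝ)) ≤ C * (2 * (R + (R * T / D) ^ (2 / 3 : ℝ))) :=
          mul_le_mul_of_nonneg_left h1 (by linarith)
      _ = 2 * C * (R + (R * T / D) ^ (2 / 3 : ℝ)) := by ring
  calc (F.card : ℝ) ≤ S.card * L := hcardF
    _ ≤ 2 * C * (R + (R * T / D) ^ (2 / 3 : ℝ)) * L := mul_le_mul_of_nonneg_right hSle hL0
    _ = 2 * (C * K) * ((25 : ℝ) ^ k) ^ δ * (R + (R * T / D) ^ (2 / 3 : ℝ)) := by
        rw [hL]
        ring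

end Pool.Agent.H978V
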