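import Mathlib

/-!
# Short V-words for diagonal rotations: arithmetic definitions

Integral quaternions are `ℍ[ℤ]`, with norm `Quaternion.normSq`.
-/

set_option autoImplicit false

open scoped Quaternion

namespace Pool.Agent.H978V

/-- the integral quaternions that are products of gates: real part `1` modulo `4`, the other coordinates even -/
def Gd (x : ℍ[ℤ]) : Prop := x.re % 4 = 1 ∧ x.imI % 2 = 0 ∧ x.imJ % 2 = 0 ∧ x.imK % 2 = 0

/-- integral points on the sphere of squared radius `n` in three-space -/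
noncomputable def S3 (n : ℕ) : Finset (ℤ × ℤ × ℤ) :=
  ((Finset.Icc (-(n : ℤ)) n) ×ˢ ((Finset.Icc (-(n : ℤ)) n) ×ˢ (Finset.Icc (-(n : ℤ)) n))).filter
    (fun y => y.1 ^ 2 + y.2.1 ^ 2 + y.2.2 ^ 2 = n)

/-- scalar product of integral vectors -/
def dt (y z : ℤ × ℤ × ℤ) : ℤ := y.1 * z.1 + y.2.1 * z.2.1 + y.2.2 * z.2.2

/-- the pure quaternion of an integral vector -/
def pq (y : ℤ × ℤ × ℤ) : ℍ[ℤ] := ⟨0, y.1, y.2.1, y.2.2⟩

lemma mem_S3 {n : ℕ} {y : ℤ × ℤ × ℤ} : y ∈ S3 n ↔ y.1 ^ 2 + y.2.1 ^ 2 + y.2.2 ^ 2 = n := by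
  unfold S3
  simp only [Finset.mem_filter, Finset.mem_product, Finset.mem_Icc, and_iff_right_iff_imp]
  intro h
  have key : ∀ a b c : ℤ, a ^ 2 + b ^ 2 + c ^ 2 = n → -(n : ℤ) ≤ a ∧ a ≤ n := by
    intro a b c h
    have h1 : a ^ 2 ≤ n := by nlinarith [sq_nonneg b, sq_nonneg c]
    constructor
    · by_contra hc
      push Not at hc
      nlinarith
    · by_contra hc
      push Not at hc
      nlinarith
  refine ⟨key _ _ _ h, key _ y.1 y.2.2 (by linarith), key _ y.1 y.2.1 (by linarith)⟩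

end Pool.Agent.H978V
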