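import Mathlib

/-!
# The V-basis and the diagonal matrices: definitions
-/

set_option autoImplicit false

namespace Pool.Agent.H978V

/-- the Pauli matrices `X`, `Y`, `Z` -/
noncomputable def pauli : Fin 3 → Matrix (Fin 2) (Fin 2) ℂ :=
  ![!![0, 1; 1, 0], !![0, -Complex.I; Complex.I, 0], !![1, 0; 0, -1]]

/-- the six matrices `(1/√5)(1 ± 2iP)` of the V-basis, `P` a Pauli matrix -/
noncomputable def Vset : Set (Matrix (Fin 2) (Fin 2) ℂ) :=
  {g | ∃ (k : Fin 3) (s : ℂ), (s = 1 ∨ s = -1) ∧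
    g = (1 / (Real.sqrt 5 : ℂ)) • (1 + (2 * s * Complex.I) • pauli k)}

/-- the diagonal matrix with entries `exp (iθ)`, `exp (-iθ)` -/
noncomputable def Udiag (θ : ℝ) : Matrix (Fin 2) (Fin 2) ℂ :=
  !![Complex.exp (θ * Complex.I), 0; 0, Complex.exp (-(θ * Complex.I))]

end Pool.Agent.H978V
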