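import Pool.Agent.H978V.Defs
import Pool.Agent.H978V.VDefs

set_option autoImplicit false

open scoped Quaternion

namespace Pool.Agent.H978V

open Pool.Agent.Helper557.Rz

/-- the matrix of four real numbers -/
noncomputable def Mq (a b c d : ℝ) : Matrix (Fin 2) (Fin 2) ℂ :=
  !![(a : ℂ) + b * Complex.I, (c : ℂ) + d * Complex.I;
     -(c : ℂ) + d * Complex.I, (a : ℂ) - b * Complex.I]

/-- the matrix of an integral quaternion -/
noncomputable def Mz (x : ℍ[ℤ]) : Matrix (Fin 2) (Fin 2) ℂ :=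
  Mq x.re x.imI x.imJ x.imK

lemma Mz_one : Mz 1 = 1 := by
  unfold Mz Mq
  ext i j
  fin_cases i <;> fin_cases j <;> simp

lemma Mz_mul (x y : ℍ[ℤ]) : Mz (x * y) = Mz x * Mz y := by
  unfold Mz Mq
  ext i j
  fin_cases i <;> fin_cases j <;>
    simp [Matrix.mul_apply, Fin.sum_univ_two, Complex.ext_iff] <;> constructor <;> ring

open scoped Matrix.Norms.L2Operator in
lemma norm_Mq (a b c d : ℝ) : ‖Mq a b c d‖ ^ 2 = a ^ 2 + b ^ 2 + c ^ 2 + d ^ 2 := by
  have h1 : (Mq a b c d).conjTranspose * Mq a b c d =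
      ((a ^ 2 + b ^ 2 + c ^ 2 + d ^ 2 : ℝ) : ℂ) • (1 : Matrix (Fin 2) (Fin 2) ℂ) := by
    unfold Mq
    ext i j
    fin_cases i <;> fin_cases j <;>
      simp [Matrix.mul_apply, Fin.sum_univ_two, Complex.ext_iff, pow_two] <;> constructor <;> ring
  have h2 := Matrix.l2_opNorm_conjTranspose_mul_self (Mq a b c d)
  rw [h1, norm_smul, norm_one, mul_one, Complex.norm_real, Real.norm_eq_abs,
    abs_of_nonneg (by positivity)] at h2
  rw [pow_two, ← h2]

lemma al_mem (a : Fin 6) : (1 / (Real.sqrt 5 : ℂ)) • Mz (al a) ∈ Vset := by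
  have hk : ∀ a : Fin 6, ∃ (k : Fin 3) (s : ℂ), (s = 1 ∨ s = -1) ∧
      Mz (al a) = 1 + (2 * s * Complex.I) • pauli k := by
    intro a
    fin_cases a
    · refine ⟨2, 1, Or.inl rfl, ?_⟩
      ext i j; fin_cases i <;> fin_cases j <;> simp [Mz, Mq, al, pauli, sub_eq_add_neg]
    · refine ⟨1, 1, Or.inl rfl, ?_⟩
      ext i j; fin_cases i <;> fin_cases j <;> simp [Mz, Mq, al, pauli, sub_eq_add_neg, mul_assoc]
    · refine ⟨0, 1, Or.inl rfl, ?_⟩
      ext i j; fin_cases i <;> fin_cases j <;> simp [Mz, Mq, al, pauli, sub_eq_add_neg]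
    · refine ⟨2, -1, Or.inr rfl, ?_⟩
      ext i j; fin_cases i <;> fin_cases j <;> simp [Mz, Mq, al, pauli, sub_eq_add_neg]
    · refine ⟨1, -1, Or.inr rfl, ?_⟩
      ext i j; fin_cases i <;> fin_cases j <;> simp [Mz, Mq, al, pauli, sub_eq_add_neg, mul_assoc]
    · refine ⟨0, -1, Or.inr rfl, ?_⟩
      ext i j; fin_cases i <;> fin_cases j <;> simp [Mz, Mq, al, pauli, sub_eq_add_neg]
  obtain ⟨k, s, hs, h⟩ := hk a
  exact ⟨k, s, hs, by rw [h]⟩

open scoped Matrix.Norms.L2Operator in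
/-- TARGET -/
theorem words_matrix (θ ε : ℝ) (hε : 0 < ε) (v : List (Fin 6))
    (h : (Real.cos θ - (qw v).re / Real.sqrt 5 ^ v.length) ^ 2 +
      (Real.sin θ - (qw v).imI / Real.sqrt 5 ^ v.length) ^ 2 +
      ((qw v).imJ / Real.sqrt 5 ^ v.length) ^ 2 + ((qw v).imK / Real.sqrt 5 ^ v.length) ^ 2 < ε ^ 2) :
    ∃ w : List (Matrix (Fin 2) (Fin 2) ℂ), (∀ g ∈ w, g ∈ Vset) ∧ w.length = v.length ∧
      ‖Udiag θ - w.prod‖ < ε := by
  have hw : ∀ v : List (Fin 6), ∃ w : List (Matrix (Fin 2) (Fin 2) ℂ), (∀ g ∈ w, g ∈ Vset) ∧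
      w.length = v.length ∧ w.prod = (1 / (Real.sqrt 5 : ℂ) ^ v.length) • Mz (qw v) := by
    intro v
    induction v with
    | nil => exact ⟨[], by simp, rfl, by simp [qw, Mz_one]⟩
    | cons a v ih =>
      obtain ⟨w, h1, h2, h3⟩ := ih
      refine ⟨w ++ [(1 / (Real.sqrt 5 : ℂ)) • Mz (al a)], ?_, ?_, ?_⟩
      · intro g hg
        rcases List.mem_append.1 hg with hg | hg
        · exact h1 g hg
        · rw [List.mem_singleton.1 hg]; exact al_mem a
      · simp [h2]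
      · rw [List.prod_append, h3, List.prod_singleton, qw, Mz_mul, smul_mul_smul_comm,
          List.length_cons, pow_succ]
        congr 1
        rw [one_div_mul_one_div]
  obtain ⟨w, h1, h2, h3⟩ := hw v
  refine ⟨w, h1, h2, ?_⟩
  have h4 : Udiag θ - w.prod = Mq (Real.cos θ - (qw v).re / Real.sqrt 5 ^ v.length)
      (Real.sin θ - (qw v).imI / Real.sqrt 5 ^ v.length)
      (-((qw v).imJ / Real.sqrt 5 ^ v.length)) (-((qw v).imK / Real.sqrt 5 ^ v.length)) := by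
    rw [h3]
    have e1 : Complex.exp (θ * Complex.I) = Real.cos θ + Real.sin θ * Complex.I := by
      rw [Complex.exp_mul_I]; simp
    have e2 : Complex.exp (-(θ * Complex.I)) = Real.cos θ - Real.sin θ * Complex.I := by
      rw [← neg_mul, Complex.exp_mul_I]; simp [sub_eq_add_neg]
    unfold Udiag Mz Mq
    rw [e1, e2]
    ext i j
    fin_cases i <;> fin_cases j <;> simp <;> ring
  rw [h4]
  have h5 := norm_Mq (Real.cos θ - (qw v).re / Real.sqrt 5 ^ v.length)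
      (Real.sin θ - (qw v).imI / Real.sqrt 5 ^ v.length)
      (-((qw v).imJ / Real.sqrt 5 ^ v.length)) (-((qw v).imK / Real.sqrt 5 ^ v.length))
  rw [neg_sq, neg_sq] at h5
  rw [← h5] at h
  exact lt_of_pow_lt_pow_left₀ 2 hε.le h

end Pool.Agent.H978V
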