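import Pool.Agent.H978V.F3
import Pool.Agent.H978V.C7

/-!
# Every diagonal unitary has V-words of length `(5 + δ) log_5 (1/ε) + C`

For every `δ > 0` there is one constant `C` such that every diagonal matrix of `SU(2)` and every `ε` in `(0,1)`
has an approximation by a word in the six matrices of the V-basis, of length at most `(5 + δ) log_5 (1/ε) + C`
and with operator norm error less than `ε`.  The bound is uniform in the diagonal matrix.

The proof (files `Pool/Agent/H978V/`) is elementary apart from Siegel's theorem on `L(1, χ)`.  A Gaussian integer
`v` close to the target is found by Dirichlet's theorem; the word is `v γ ζ γ* / N(v)`, where `γ` is a product of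
gates and `ζ` runs over the integral quaternions of a fixed real part and norm.  The directions and the lines
modulo `N(v)` of these `ζ` are counted with Linnik's lemma and the lower bound for the number of representations as a
sum of three squares, and `γ` is found with a spectral gap for the gates on the product of the two-sphere and the
projective line modulo `N(v)`, uniform in `v`.
-/

set_option autoImplicit false

namespace Pool.Agent.H978V.AxialFive

open Pool.Agent.H978V
open scoped Matrix.Norms.L2Operator

/-- For every `δ > 0` there is `C` such that for all real `θ` and all `ε` in `(0,1)` some word `w` in the V-basis has length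
at most `(5 + δ) log_5 (1/ε) + C` and satisfies `‖diag (exp (iθ), exp (-iθ)) - w‖ < ε` in the operator norm. -/
theorem result (δ : ℝ) (hδ : 0 < δ) : ∃ C : ℝ, ∀ θ ε : ℝ, 0 < ε → ε < 1 →
    ∃ w : List (Matrix (Fin 2) (Fin 2) ℂ), (∀ g ∈ w, g ∈ Vset) ∧
      (w.length : ℝ) ≤ (5 + δ) * Real.logb 5 (1 / ε) + C ∧ ‖Udiag θ - w.prod‖ < ε := by
  obtain ⟨C, hC⟩ := axial δ hδ
  refine ⟨C, fun θ ε hε hε1 => ?_⟩
  obtain ⟨v, hl, hv⟩ := hC θ ε hε hε1
  obtain ⟨w, hw, hwl, hwn⟩ := words_matrix θ ε hε v hv
  exact ⟨w, hw, by rw [hwl]; exact hl, hwn⟩

end Pool.Agent.H978V.AxialFive
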