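import Pool.Agent.H978V.Ar

set_option autoImplicit false

open scoped Quaternion

namespace Pool.Agent.H978V

lemma aux_B1_even (γ : ℍ[ℤ]) (h : (2 : ℤ) ∣ Quaternion.normSq γ) :
    ∃ ε γ' : ℍ[ℤ], Quaternion.normSq ε = 2 ∧ γ = ε * γ' := by
  rw [Quaternion.normSq_def'] at h
  obtain ⟨x, hx⟩ : ∃ x, x = γ.re := ⟨_, rfl⟩
  obtain ⟨y, hy⟩ : ∃ x, x = γ.imI := ⟨_, rfl⟩
  obtain ⟨z, hz⟩ : ∃ x, x = γ.imJ := ⟨_, rfl⟩
  obtain ⟨w, hw⟩ : ∃ x, x = γ.imK := ⟨_, rfl⟩
  rw [← hx, ← hy, ← hz, ← hw] at h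
  have hpar : (x % 2 = y % 2 ∧ z % 2 = w % 2) ∨ (x % 2 = z % 2 ∧ y % 2 = w % 2) ∨
      (x % 2 = w % 2 ∧ y % 2 = z % 2) := by
    have h1 : (x + y + z + w) % 2 = 0 := by
      have e : ∀ t : ℤ, (t ^ 2 - t) % 2 = 0 := by
        intro t
        have := Int.even_mul_pred_self t
        rw [Int.even_iff] at this
        rw [show t ^ 2 - t = t * (t - 1) by ring]
        exact this
      have e1 := e x
      have e2 := e y
      have e3 := e z
      have e4 := e w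
      omega
    omega
  rcases hpar with ⟨h1, h2⟩ | ⟨h1, h2⟩ | ⟨h1, h2⟩
  · obtain ⟨a, ha⟩ : ∃ a, x + y = 2 * a := ⟨(x + y) / 2, by omega⟩
    obtain ⟨c, hc⟩ : ∃ c, z + w = 2 * c := ⟨(z + w) / 2, by omega⟩
    refine ⟨⟨1, 1, 0, 0⟩, ⟨a, y - a, c, w - c⟩, ?_, ?_⟩
    · exact (Quaternion.normSq_def' _).trans (by norm_num)
    · refine Quaternion.ext _ _ (Eq.symm ((Quaternion.re_mul _ _).trans ?_))
        (Eq.symm ((Quaternion.imI_mul _ _).trans ?_)) (Eq.symm ((Quaternion.imJ_mul _ _).trans ?_))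
        (Eq.symm ((Quaternion.imK_mul _ _).trans ?_)) <;>
      simp only [← hx, ← hy, ← hz, ← hw] <;> linarith
  · obtain ⟨a, ha⟩ : ∃ a, x + z = 2 * a := ⟨(x + z) / 2, by omega⟩
    obtain ⟨d, hd⟩ : ∃ d, y + w = 2 * d := ⟨(y + w) / 2, by omega⟩
    refine ⟨⟨1, 0, 1, 0⟩, ⟨a, y - d, z - a, d⟩, ?_, ?_⟩
    · exact (Quaternion.normSq_def' _).trans (by norm_num)
    · refine Quaternion.ext _ _ (Eq.symm ((Quaternion.re_mul _ _).trans ?_))
        (Eq.symm ((Quaternion.imI_mul _ _).trans ?_)) (Eq.symm ((Quaternion.imJ_mul _ _).trans ?_))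
        (Eq.symm ((Quaternion.imK_mul _ _).trans ?_)) <;>
      simp only [← hx, ← hy, ← hz, ← hw] <;> linarith
  · obtain ⟨a, ha⟩ : ∃ a, x + w = 2 * a := ⟨(x + w) / 2, by omega⟩
    obtain ⟨b, hb⟩ : ∃ b, y + z = 2 * b := ⟨(y + z) / 2, by omega⟩
    refine ⟨⟨1, 0, 0, 1⟩, ⟨a, b, z - b, w - a⟩, ?_, ?_⟩
    · exact (Quaternion.normSq_def' _).trans (by norm_num)
    · refine Quaternion.ext _ _ (Eq.symm ((Quaternion.re_mul _ _).trans ?_))
        (Eq.symm ((Quaternion.imI_mul _ _).trans ?_)) (Eq.symm ((Quaternion.imJ_mul _ _).trans ?_))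
        (Eq.symm ((Quaternion.imK_mul _ _).trans ?_)) <;>
      simp only [← hx, ← hy, ← hz, ← hw] <;> linarith

lemma aux_B1_red (k : ℕ) (x : ℤ) : ∃ q r : ℤ, x = r + (2 * k + 1) * q ∧ r ^ 2 ≤ k ^ 2 := by
  refine ⟨(x + k) / (2 * k + 1), (x + k) % (2 * k + 1) - k, ?_, ?_⟩
  · have := Int.emod_add_mul_ediv (x + k) (2 * k + 1)
    linarith
  · have h1 := Int.emod_nonneg (x + k) (by positivity : (2 * (k : ℤ) + 1) ≠ 0)
    have h2 := Int.emod_lt_of_pos (x + k) (by positivity : 0 < (2 * (k : ℤ) + 1))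
    exact sq_le_sq' (by linarith) (by linarith)

/-- TARGET -/
theorem right_div (a : ℕ) (ha : Odd a) (η : ℍ[ℤ]) (h : (a : ℤ) ∣ Quaternion.normSq η) :
    ∃ α β : ℍ[ℤ], Quaternion.normSq α = a ∧ η = β * α := by
  induction a using Nat.strong_induction_on generalizing η with
  | _ a IH =>
    have Q : ∀ m : ℕ, m < a → 0 < m → ∀ γ : ℍ[ℤ], Quaternion.normSq γ = a * m →
        ∃ α β : ℍ[ℤ], Quaternion.normSq α = a ∧ γ = β * α := by
      intro m
      induction m using Nat.strong_induction_on with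
      | _ m IHm =>
        intro hma hm γ hγ
        rcases Nat.even_or_odd m with hev | hodd
        · obtain ⟨t, ht⟩ := hev
          obtain ⟨ε, γ', hε, hγ'⟩ := aux_B1_even γ (by
            rw [hγ, ht]; push_cast; exact ⟨a * t, by ring⟩)
          have h1 : Quaternion.normSq γ' = a * t := by
            have h0 : Quaternion.normSq γ = Quaternion.normSq ε * Quaternion.normSq γ' := by
              rw [hγ', map_mul]
            rw [hγ, hε, ht] at h0
            push_cast at h0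
            linarith
          obtain ⟨α, β, h2, h3⟩ := IHm t (by omega) (by omega) (by omega) γ' h1
          exact ⟨α, ε * β, h2, by rw [hγ', h3, mul_assoc]⟩
        · obtain ⟨α, β, h2, h3⟩ := IH m hma hodd (star γ) (by
            rw [Quaternion.normSq_star, hγ]; exact Dvd.intro_left _ rfl)
          refine ⟨star β, star α, ?_, ?_⟩
          · have h4 : Quaternion.normSq (star γ) =
                Quaternion.normSq β * Quaternion.normSq α := by rw [h3, map_mul]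
            rw [Quaternion.normSq_star, hγ, h2] at h4
            rw [Quaternion.normSq_star]
            have hm0 : (m : ℤ) ≠ 0 := by exact_mod_cast hm.ne'
            exact (mul_right_cancel₀ hm0 h4).symm
          · rw [← star_mul, ← h3, star_star]
    obtain ⟨k, hk⟩ := ha
    rw [Quaternion.normSq_def'] at h
    obtain ⟨q1, r1, e1, b1⟩ := aux_B1_red k η.re
    obtain ⟨q2, r2, e2, b2⟩ := aux_B1_red k η.imI
    obtain ⟨q3, r3, e3, b3⟩ := aux_B1_red k η.imJ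
    obtain ⟨q4, r4, e4, b4⟩ := aux_B1_red k η.imK
    have haZ : (a : ℤ) = 2 * k + 1 := by rw [hk]; push_cast; ring
    rw [← haZ] at e1 e2 e3 e4
    -- it suffices to treat the reduced quaternion
    obtain ⟨r, s1, s2, s3, s4⟩ : ∃ r : ℍ[ℤ], r.re = r1 ∧ r.imI = r2 ∧ r.imJ = r3 ∧ r.imK = r4 :=
      ⟨⟨r1, r2, r3, r4⟩, rfl, rfl, rfl, rfl⟩
    obtain ⟨q, t1, t2, t3, t4⟩ : ∃ q : ℍ[ℤ], q.re = q1 ∧ q.imI = q2 ∧ q.imJ = q3 ∧ q.imK = q4 :=
      ⟨⟨q1, q2, q3, q4⟩, rfl, rfl, rfl, rfl⟩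
    obtain ⟨α, β, h1, h2⟩ : ∃ α β : ℍ[ℤ], Quaternion.normSq α = a ∧ r = β * α := by
      have hN : Quaternion.normSq r = r1 ^ 2 + r2 ^ 2 + r3 ^ 2 + r4 ^ 2 := by
        rw [Quaternion.normSq_def', s1, s2, s3, s4]
      have hdvd : (a : ℤ) ∣ r1 ^ 2 + r2 ^ 2 + r3 ^ 2 + r4 ^ 2 := by
        obtain ⟨c, hc⟩ := h
        refine ⟨c - 2 * (r1 * q1 + r2 * q2 + r3 * q3 + r4 * q4) -
          a * (q1 ^ 2 + q2 ^ 2 + q3 ^ 2 + q4 ^ 2), ?_⟩
        rw [e1, e2, e3, e4] at hc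
        linear_combination hc
      obtain ⟨m, hm⟩ := hdvd
      have hapos : (0 : ℤ) < a := by rw [haZ]; positivity
      have hm0 : 0 ≤ m := by
        by_contra hc
        push Not at hc
        have : (a : ℤ) * m < 0 := mul_neg_of_pos_of_neg hapos hc
        nlinarith [sq_nonneg r1, sq_nonneg r2, sq_nonneg r3, sq_nonneg r4]
      have hma : m < a := by
        by_contra hc
        push Not at hc
        have h5 : (a : ℤ) * a ≤ a * m := mul_le_mul_of_nonneg_left hc hapos.le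
        have h6 : (a : ℤ) * a = 4 * k ^ 2 + 4 * k + 1 := by rw [haZ]; ring
        have h7 : (0 : ℤ) ≤ k := Nat.cast_nonneg k
        linarith
      rcases hm0.eq_or_lt with h0 | h0
      · -- the zero quaternion
        obtain ⟨a1, a2, a3, a4, h4⟩ := Nat.sum_four_squares a
        obtain ⟨α, u1, u2, u3, u4⟩ : ∃ r : ℍ[ℤ], r.re = a1 ∧ r.imI = a2 ∧ r.imJ = a3 ∧
          r.imK = a4 := ⟨⟨a1, a2, a3, a4⟩, rfl, rfl, rfl, rfl⟩
        refine ⟨α, 0, ?_, ?_⟩
        · rw [Quaternion.normSq_def', u1, u2, u3, u4]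
          exact_mod_cast h4
        · rw [zero_mul]
          exact Quaternion.normSq_eq_zero.1 (by rw [hN, hm, ← h0, mul_zero])
      · exact Q m.toNat (by omega) (by omega) r (by
          rw [hN, hm, Int.toNat_of_nonneg hm0])
    refine ⟨α, β + q * star α, h1, ?_⟩
    rw [add_mul, mul_assoc, Quaternion.star_mul_self, h1, ← h2, Quaternion.mul_coe_eq_smul]
    refine Quaternion.ext _ _ ?_ ?_ ?_ ?_
    · simp [e1, s1, t1]
    · simp [e2, s2, t2]
    · simp [e3, s3, t3]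
    · simp [e4, s4, t4]

end Pool.Agent.H978V
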