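import Pool.Agent.H978V.Ar
import Pool.Agent.H978V.B1

set_option autoImplicit false

open scoped Quaternion

namespace Pool.Agent.H978V


/-- the coordinates are coprime -/
def Bz (α : ℍ[ℤ]) : Prop :=
  ∃ r s t w : ℤ, r * α.re + s * α.imI + t * α.imJ + w * α.imK = 1

theorem bz_dvd_right {α γ : ℍ[ℤ]} {c : ℤ} (hα : Bz α) (h : γ * α = ((c : ℤ) : ℍ[ℤ])) :
    Quaternion.normSq α ∣ c := by
  obtain ⟨r, s, t, w, hb⟩ := hα
  have h1 : γ * α * star α = ((c : ℤ) : ℍ[ℤ]) * star α := by rw [h]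
  rw [mul_assoc, Quaternion.self_mul_star] at h1
  have e := Quaternion.ext_iff.1 h1
  simp at e
  obtain ⟨e1, e2, e3, e4⟩ := e
  refine ⟨γ.re * r - γ.imI * s - γ.imJ * t - γ.imK * w, ?_⟩
  linear_combination (-c) * hb - r * e1 + s * e2 + t * e3 + w * e4

theorem bz_dvd_left {α γ : ℍ[ℤ]} {c : ℤ} (hα : Bz α) (h : star α * γ = ((c : ℤ) : ℍ[ℤ])) :
    Quaternion.normSq α ∣ c := by
  refine bz_dvd_right (γ := star γ) hα ?_
  have h1 := congrArg star h
  rw [star_mul, star_star] at h1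
  rw [h1]
  ext <;> simp

@[simp] theorem pq_re (y : ℤ × ℤ × ℤ) : (pq y).re = 0 := rfl
@[simp] theorem pq_imI (y : ℤ × ℤ × ℤ) : (pq y).imI = y.1 := rfl
@[simp] theorem pq_imJ (y : ℤ × ℤ × ℤ) : (pq y).imJ = y.2.1 := rfl
@[simp] theorem pq_imK (y : ℤ × ℤ × ℤ) : (pq y).imK = y.2.2 := rfl

theorem bezout3 {y₀ : ℤ × ℤ × ℤ} (hprim : Int.gcd (Int.gcd y₀.1 y₀.2.1) y₀.2.2 = 1) :
    ∃ A B C : ℤ, A * y₀.1 + B * y₀.2.1 + C * y₀.2.2 = 1 := by
  have hb1 := Int.gcd_eq_gcd_ab y₀.1 y₀.2.1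
  have hb2 := Int.gcd_eq_gcd_ab (Int.gcd y₀.1 y₀.2.1) y₀.2.2
  rw [hprim] at hb2
  refine ⟨Int.gcdA y₀.1 y₀.2.1 * Int.gcdA (Int.gcd y₀.1 y₀.2.1) y₀.2.2,
    Int.gcdB y₀.1 y₀.2.1 * Int.gcdA (Int.gcd y₀.1 y₀.2.1) y₀.2.2,
    Int.gcdB (Int.gcd y₀.1 y₀.2.1) y₀.2.2, ?_⟩
  push_cast at hb2
  linear_combination -hb2 - Int.gcdA (Int.gcd y₀.1 y₀.2.1) y₀.2.2 * hb1

/-- an integral quaternion commuting with a primitive pure one -/
theorem commute_pq {y₀ : ℤ × ℤ × ℤ} (hprim : Int.gcd (Int.gcd y₀.1 y₀.2.1) y₀.2.2 = 1)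
    {δ : ℍ[ℤ]} (h : δ * pq y₀ = pq y₀ * δ) :
    ∃ t : ℤ, δ.imI = t * y₀.1 ∧ δ.imJ = t * y₀.2.1 ∧ δ.imK = t * y₀.2.2 := by
  obtain ⟨A, B, C, hb⟩ := bezout3 hprim
  have e := Quaternion.ext_iff.1 h
  simp at e
  obtain ⟨-, e2, e3, e4⟩ := e
  have e2' : δ.imJ * y₀.2.2 = δ.imK * y₀.2.1 := by linarith
  have e3' : δ.imK * y₀.1 = δ.imI * y₀.2.2 := by linarith
  have e4' : δ.imI * y₀.2.1 = δ.imJ * y₀.1 := by linarith
  refine ⟨A * δ.imI + B * δ.imJ + C * δ.imK, ?_, ?_, ?_⟩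
  · linear_combination (-δ.imI) * hb + B * e4' - C * e3'
  · linear_combination (-δ.imJ) * hb - A * e4' + C * e2'
  · linear_combination (-δ.imK) * hb + A * e3' - B * e2'

/-- the relation `α Y = y α` -/
def Rel (y₀ : ℤ × ℤ × ℤ) (y : ℤ × ℤ × ℤ) (α : ℍ[ℤ]) : Prop := α * pq y₀ = pq y * α

theorem star_pq (y : ℤ × ℤ × ℤ) : star (pq y) = -pq y := by
  ext <;> simp

theorem Rel.star {y₀ y : ℤ × ℤ × ℤ} {α : ℍ[ℤ]} (h : Rel y₀ y α) :
    Star.star α * pq y = pq y₀ * Star.star α := by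
  have h1 := congrArg Star.star h
  rw [star_mul, star_mul, star_pq, star_pq, neg_mul, mul_neg, neg_inj] at h1
  exact h1.symm

theorem Rel.commute {y₀ y : ℤ × ℤ × ℤ} {α α' : ℍ[ℤ]} (h : Rel y₀ y α) (h' : Rel y₀ y α') :
    (Star.star α' * α) * pq y₀ = pq y₀ * (Star.star α' * α) := by
  have h1 : α * pq y₀ = pq y * α := h
  rw [mul_assoc, h1, ← mul_assoc, h'.star, mul_assoc]

/-- the number of `α` with given `y` -/
theorem card_alpha (n : ℕ) (hn : 0 < n) (y₀ y : ℤ × ℤ × ℤ) (hy : y₀ ∈ S3 n)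
    (hprim : Int.gcd (Int.gcd y₀.1 y₀.2.1) y₀.2.2 = 1) (x : ℕ) (A : Finset ℍ[ℤ])
    (hA : ∀ α ∈ A, Bz α ∧ Rel y₀ y α ∧ Quaternion.normSq α ≤ x ∧ 0 < Quaternion.normSq α) :
    (A.card : ℝ) ≤ 3 * (2 * x / Real.sqrt n + 1) := by
  classical
  rcases A.eq_empty_or_nonempty with rfl | hne
  · simp; positivity
  obtain ⟨α', hα', hmax⟩ := A.exists_max_image (fun α => Quaternion.normSq α) hne
  obtain ⟨hbz', hrel', hx', hpos'⟩ := hA α' hα'
  set a' := Quaternion.normSq α' with ha'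
  have hn3 : y₀.1 ^ 2 + y₀.2.1 ^ 2 + y₀.2.2 ^ 2 = n := mem_S3.1 hy
  have key : ∀ α ∈ A, ∃ t : ℤ, (star α' * α).imI = t * y₀.1 ∧ (star α' * α).imJ = t * y₀.2.1 ∧
      (star α' * α).imK = t * y₀.2.2 := fun α hα =>
    commute_pq hprim (Rel.commute (hA α hα).2.1 hrel')
  choose! τ hτ using key
  have hnorm : ∀ α ∈ A, (star α' * α).re ^ 2 + n * (τ α) ^ 2 ≤ a' ^ 2 := by
    intro α hα
    obtain ⟨h1, h2, h3⟩ := hτ α hα
    have h4 : Quaternion.normSq (star α' * α) = a' * Quaternion.normSq α := by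
      rw [map_mul, Quaternion.normSq_star]
    have h4' := h4
    rw [Quaternion.normSq_def', h1, h2, h3] at h4
    have h5 : Quaternion.normSq α ≤ a' := hmax α hα
    have h6 : (star α' * α).re ^ 2 + n * (τ α) ^ 2 = a' * Quaternion.normSq α := by
      rw [← h4, ← hn3]; ring
    rw [h6]
    nlinarith
  -- the bound for `t`
  set m : ℕ := ⌊(x : ℝ) / Real.sqrt n⌋₊ with hm
  have hsn : 0 < Real.sqrt n := Real.sqrt_pos.2 (by exact_mod_cast hn)
  have ht : ∀ α ∈ A, τ α ∈ Finset.Icc (-(m : ℤ)) m := by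
    intro α hα
    have h1 := hnorm α hα
    have h2 : (n : ℤ) * (τ α) ^ 2 ≤ x ^ 2 := by
      have h3 : a' ^ 2 ≤ (x : ℤ) ^ 2 := by nlinarith
      nlinarith [sq_nonneg (star α' * α).re]
    have h3 : ((τ α).natAbs : ℝ) ≤ (x : ℝ) / Real.sqrt n := by
      rw [le_div_iff₀ hsn]
      apply le_of_sq_le_sq _ (by positivity)
      rw [mul_pow, Real.sq_sqrt (by positivity)]
      have h4 : ((n * (τ α) ^ 2 : ℤ) : ℝ) ≤ ((x ^ 2 : ℤ) : ℝ) := by exact_mod_cast h2
      push_cast at h4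
      rw [Nat.cast_natAbs, Int.cast_abs, sq_abs]
      linarith
    have h5 : (τ α).natAbs ≤ m := Nat.le_floor h3
    rw [Finset.mem_Icc]
    omega
  -- the fibres
  have hfib : ∀ t ∈ A.image τ, (A.filter (fun α => τ α = t)).card ≤ 3 := by
    intro t _
    have hinj : Set.InjOn (fun α : ℍ[ℤ] => (star α' * α).re / a')
        (A.filter (fun α => τ α = t) : Finset ℍ[ℤ]) := by
      intro α hα β hβ hab
      simp only [Finset.coe_filter, Set.mem_ofPred_eq] at hα hβ hab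
      obtain ⟨h1, h2, h3⟩ := hτ α hα.1
      obtain ⟨g1, g2, g3⟩ := hτ β hβ.1
      rw [hα.2] at h1 h2 h3
      rw [hβ.2] at g1 g2 g3
      have h5 : star α' * (α - β) =
          (((star α' * α).re - (star α' * β).re : ℤ) : ℍ[ℤ]) := by
        rw [mul_sub]
        ext
        · simp
        · rw [Quaternion.imI_sub, h1, g1]; simp
        · rw [Quaternion.imJ_sub, h2, g2]; simp
        · rw [Quaternion.imK_sub, h3, g3]; simp
      obtain ⟨k, hk⟩ := bz_dvd_left hbz' h5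
      have h6 : (star α' * α).re = (star α' * β).re + a' * k := by linarith
      rw [h6, Int.add_mul_ediv_left _ _ hpos'.ne'] at hab
      have hk0 : k = 0 := by omega
      rw [hk, hk0, mul_zero] at h5
      have h7 : star α' * (α - β) = 0 := by rw [h5]; rfl
      rcases mul_eq_zero.1 h7 with h8 | h8
      · exfalso
        rw [star_eq_zero] at h8
        rw [ha', h8, map_zero] at hpos'
        exact lt_irrefl _ hpos'
      · exact sub_eq_zero.1 h8
    have hmaps : Set.MapsTo (fun α : ℍ[ℤ] => (star α' * α).re / a')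
        (A.filter (fun α => τ α = t) : Finset ℍ[ℤ]) (Finset.Icc (-1 : ℤ) 1 : Finset ℤ) := by
      intro α hα
      simp only [Finset.coe_filter, Set.mem_ofPred_eq] at hα
      have h1 := hnorm α hα.1
      have h2 : (star α' * α).re ^ 2 ≤ a' ^ 2 := by nlinarith [sq_nonneg (τ α)]
      have h3 := abs_le_of_sq_le_sq' h2 hpos'.le
      simp only [Finset.coe_Icc, Set.mem_Icc]
      constructor
      · rw [Int.le_ediv_iff_mul_le hpos']
        linarith
      · have : (star α' * α).re / a' < 2 := by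
          rw [Int.ediv_lt_iff_lt_mul hpos']
          linarith
        omega
    have := Finset.card_le_card_of_injOn _ hmaps hinj
    simpa using this
  have h1 : A.card ≤ 3 * (A.image τ).card := Finset.card_le_mul_card_image A 3 hfib
  have h2 : (A.image τ).card ≤ 2 * m + 1 := by
    have h3 : A.image τ ⊆ Finset.Icc (-(m : ℤ)) m := by
      intro t ht'
      obtain ⟨α, hα, rfl⟩ := Finset.mem_image.1 ht'
      exact ht α hα
    have h4 := Finset.card_le_card h3
    rw [Int.card_Icc] at h4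
    omega
  have h3 : (m : ℝ) ≤ x / Real.sqrt n := Nat.floor_le (by positivity)
  have h4 : (A.card : ℝ) ≤ 3 * (2 * m + 1) := by
    have : A.card ≤ 3 * (2 * m + 1) := by omega
    exact_mod_cast this
  have h5 : 2 * (x : ℝ) / Real.sqrt n = 2 * (x / Real.sqrt n) := by ring
  rw [h5]
  linarith

/-- TARGET -/
theorem pairs_le (n : ℕ) (hn : 0 < n) (y₀ : ℤ × ℤ × ℤ) (hy : y₀ ∈ S3 n)
    (hprim : Int.gcd (Int.gcd y₀.1 y₀.2.1) y₀.2.2 = 1) (x : ℕ) :
    (∑ a ∈ (Finset.range (x + 1)).filter (fun a => Nat.Coprime a (2 * n)),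
      (((Finset.range a).filter (fun b => a ∣ b ^ 2 + n)).card : ℝ)) ≤
      3 * (S3 n).card * (2 * x / Real.sqrt n + 1) := by
  classical
  have hn3 : y₀.1 ^ 2 + y₀.2.1 ^ 2 + y₀.2.2 ^ 2 = n := mem_S3.1 hy
  obtain ⟨A, B, C, hbez⟩ := bezout3 hprim
  set P : Finset (Σ _ : ℕ, ℕ) :=
    ((Finset.range (x + 1)).filter (fun a => Nat.Coprime a (2 * n))).sigma
      (fun a => (Finset.range a).filter (fun b => a ∣ b ^ 2 + n)) with hP
  have hcard : (∑ a ∈ (Finset.range (x + 1)).filter (fun a => Nat.Coprime a (2 * n)),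
      (((Finset.range a).filter (fun b => a ∣ b ^ 2 + n)).card : ℝ)) = (P.card : ℝ) := by
    rw [hP, Finset.card_sigma]
    push_cast
    rfl
  rw [hcard]
  have key : ∀ p ∈ P, ∃ (α β : ℍ[ℤ]) (y : ℤ × ℤ × ℤ), Quaternion.normSq α = (p.1 : ℤ) ∧ Bz α ∧
      y ∈ S3 n ∧ Rel y₀ y α ∧ ((p.2 : ℤ) : ℍ[ℤ]) + pq y₀ = β * α := by
    rintro ⟨a, b⟩ hp
    simp only [hP, Finset.mem_sigma, Finset.mem_filter, Finset.mem_range] at hp
    obtain ⟨⟨hax, hcop⟩, hba, hdvd⟩ := hp
    have hodd : Odd a := by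
      rw [← Nat.not_even_iff_odd]
      intro hev
      have h2 : 2 ∣ Nat.gcd a (2 * n) := Nat.dvd_gcd hev.two_dvd (Dvd.intro _ rfl)
      rw [hcop] at h2
      omega
    have hns : Quaternion.normSq (((b : ℤ) : ℍ[ℤ]) + pq y₀) = ((b ^ 2 + n : ℕ) : ℤ) := by
      rw [Quaternion.normSq_def']
      push_cast
      rw [← hn3]
      simp
      ring
    have hdvd' : (a : ℤ) ∣ Quaternion.normSq (((b : ℤ) : ℍ[ℤ]) + pq y₀) := by
      rw [hns]; exact_mod_cast hdvd
    obtain ⟨α, β, hα, hβ⟩ := right_div a hodd _ hdvd'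
    have hapos : (0 : ℤ) < a := by
      have : a ≠ 0 := by rintro rfl; simp at hodd
      omega
    have hα0 : α ≠ 0 := by
      rintro rfl
      rw [map_zero] at hα
      omega
    set y' : ℍ[ℤ] := α * β - ((b : ℤ) : ℍ[ℤ]) with hy'
    have hrel : α * pq y₀ = y' * α := by
      have h1 : pq y₀ = β * α - ((b : ℤ) : ℍ[ℤ]) := by rw [← hβ]; abel
      rw [h1, hy', mul_sub, sub_mul, mul_assoc, (Int.cast_commute (b : ℤ) α).eq]
    have hnorm : Quaternion.normSq y' = n := by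
      have h1 := congrArg Quaternion.normSq hrel
      rw [map_mul, map_mul, hα, mul_comm] at h1
      have h2 : Quaternion.normSq (pq y₀) = n := by
        rw [Quaternion.normSq_def', ← hn3]
        simp
      rw [h2] at h1
      exact (mul_right_cancel₀ hapos.ne' h1).symm
    have hre : y'.re = 0 := by
      have h1 : α * pq y₀ * star α = y' * (α * star α) := by rw [hrel, mul_assoc]
      rw [Quaternion.self_mul_star, hα] at h1
      have h2 : (α * pq y₀ * star α).re = 0 := by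
        simp
        ring
      rw [h1] at h2
      simp at h2
      rcases h2 with h2 | h2
      · exact h2
      · omega
    have hy'eq : y' = pq (y'.imI, y'.imJ, y'.imK) := by
      ext <;> simp [hre]
    refine ⟨α, β, (y'.imI, y'.imJ, y'.imK), hα, ?_, ?_, ?_, hβ⟩
    · have e := Quaternion.ext_iff.1 hβ
      simp at e
      obtain ⟨-, e2, e3, e4⟩ := e
      refine ⟨A * β.imI + B * β.imJ + C * β.imK, A * β.re + B * β.imK - C * β.imJ,
        - A * β.imK + B * β.re + C * β.imI, A * β.imJ - B * β.imI + C * β.re, ?_⟩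
      linear_combination hbez - A * e2 - B * e3 - C * e4
    · rw [mem_S3, ← hnorm, Quaternion.normSq_def', hre]
      simp
    · unfold Rel
      rw [← hy'eq]
      exact hrel
  choose! al be yy hkey using key
  -- injectivity
  have hinj : Set.InjOn al (P : Set (Σ _ : ℕ, ℕ)) := by
    rintro ⟨a, b⟩ hp ⟨a', b'⟩ hq hpq
    obtain ⟨h1, h2, h3, h4, h5⟩ := hkey _ hp
    obtain ⟨g1, g2, g3, g4, g5⟩ := hkey _ hq
    simp only [hP, Finset.coe_sigma, Finset.coe_filter, Finset.mem_range, Set.mem_sigma_iff,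
      Set.mem_ofPred_eq] at hp hq
    have haa : a = a' := by
      rw [hpq] at h1
      have := h1.symm.trans g1
      exact_mod_cast this
    subst haa
    have h6 : (be ⟨a, b⟩ - be ⟨a, b'⟩) * al ⟨a, b⟩ = (((b : ℤ) - (b' : ℤ) : ℤ) : ℍ[ℤ]) := by
      rw [sub_mul, ← h5, hpq, ← g5]
      push_cast
      abel
    have h7 := bz_dvd_right h2 h6
    rw [h1] at h7
    have h8 : (b : ℤ) = b' := by
      obtain ⟨k, hk⟩ := h7
      have hb1 : (b : ℤ) < a := by exact_mod_cast hp.2.1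
      have hb2 : (b' : ℤ) < a := by exact_mod_cast hq.2.1
      simp only at hk
      have : k = 0 := by
        by_contra hk0
        rcases lt_or_gt_of_ne hk0 with h | h
        · have : (a : ℤ) * k ≤ -a := by nlinarith
          omega
        · have : (a : ℤ) * k ≥ a := by nlinarith
          omega
      rw [this] at hk
      omega
    have h9 : b = b' := by exact_mod_cast h8
    rw [h9]
  have hfib : ∀ y ∈ S3 n, ((P.filter (fun p => yy p = y)).card : ℝ) ≤
      3 * (2 * x / Real.sqrt n + 1) := by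
    intro y _
    have h1 : (P.filter (fun p => yy p = y)).card =
        ((P.filter (fun p => yy p = y)).image al).card := by
      rw [Finset.card_image_of_injOn]
      exact hinj.mono (by
        intro p hp
        exact (Finset.mem_filter.1 hp).1)
    rw [h1]
    refine card_alpha n hn y₀ y hy hprim x _ ?_
    intro α hα
    obtain ⟨p, hp, rfl⟩ := Finset.mem_image.1 hα
    obtain ⟨hp1, rfl⟩ := Finset.mem_filter.1 hp
    obtain ⟨h1, h2, h3, h4, h5⟩ := hkey _ hp1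
    simp only [hP, Finset.mem_sigma, Finset.mem_filter, Finset.mem_range] at hp1
    refine ⟨h2, h4, ?_, ?_⟩
    · rw [h1]
      have := hp1.1.1
      omega
    · rw [h1]
      have := hp1.2.1
      omega
  have hsum : (P.card : ℝ) = ∑ y ∈ S3 n, ((P.filter (fun p => yy p = y)).card : ℝ) := by
    rw [← Nat.cast_sum]
    congr 1
    exact Finset.card_eq_sum_card_fiberwise fun p hp => (hkey p hp).2.2.1
  rw [hsum]
  calc ∑ y ∈ S3 n, ((P.filter (fun p => yy p = y)).card : ℝ)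
      ≤ ∑ _y ∈ S3 n, 3 * (2 * (x : ℝ) / Real.sqrt n + 1) := Finset.sum_le_sum hfib
    _ = 3 * (S3 n).card * (2 * x / Real.sqrt n + 1) := by
        rw [Finset.sum_const, nsmul_eq_mul]
        ring

end Pool.Agent.H978V
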