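import Mathlib

/-!
JOB B3a (owner helper978, MP_06cce2_nt).

For `a` prime to `2n`: `∑_{b ∣ a} (-n / b) ≤ ∑_{r² ∣ a} ρ(a / r²)`, `ρ(m) = #{b mod m : m ∣ b² + n}`.
-/

set_option autoImplicit false

namespace Pool.Agent.H978V

/-- the number of solutions of `b² ≡ -n` modulo `m` -/
def js_R (n m : ℕ) : ℕ := ((Finset.range m).filter (fun b => m ∣ b ^ 2 + n)).card

lemma js_R_eq (n m : ℕ) (hn : 0 < n) :
    js_R n m = Nat.card {x : ZMod m // x ^ 2 + (n : ZMod m) = 0} := by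
  rcases Nat.eq_zero_or_pos m with hm | hm
  · subst hm
    have key : ∀ y : ℤ, y ^ 2 + (n : ℤ) ≠ 0 := by
      intro y
      have h1 : (0 : ℤ) < n := by exact_mod_cast hn
      have h2 : (0 : ℤ) ≤ y ^ 2 := sq_nonneg _
      omega
    have : IsEmpty {x : ZMod 0 // x ^ 2 + (n : ZMod 0) = 0} := ⟨fun x => key x.1 x.2⟩
    rw [Nat.card_of_isEmpty]
    rfl
  · have : NeZero m := ⟨hm.ne'⟩
    rw [Nat.card_eq_fintype_card, Fintype.card_subtype]
    unfold js_R
    refine Finset.card_bij (fun b _ => (b : ZMod m)) ?_ ?_ ?_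
    · intro b hb
      rw [Finset.mem_filter] at hb ⊢
      refine ⟨Finset.mem_univ _, ?_⟩
      have := (ZMod.natCast_eq_zero_iff (b ^ 2 + n) m).2 hb.2
      exact_mod_cast this
    · intro b hb b' hb' h
      rw [Finset.mem_filter, Finset.mem_range] at hb hb'
      rw [ZMod.natCast_eq_natCast_iff', Nat.mod_eq_of_lt hb.1, Nat.mod_eq_of_lt hb'.1] at h
      exact h
    · intro x hx
      rw [Finset.mem_filter] at hx
      refine ⟨x.val, ?_, ZMod.natCast_zmod_val x⟩
      rw [Finset.mem_filter, Finset.mem_range]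
      refine ⟨ZMod.val_lt x, ?_⟩
      rw [← ZMod.natCast_eq_zero_iff]
      push_cast
      rw [ZMod.natCast_zmod_val]
      exact hx.2

lemma js_R_mul (n : ℕ) (hn : 0 < n) {m k : ℕ} (h : Nat.Coprime m k) :
    js_R n (m * k) = js_R n m * js_R n k := by
  rw [js_R_eq n _ hn, js_R_eq n _ hn, js_R_eq n _ hn, ← Nat.card_prod]
  refine Nat.card_congr ?_
  refine ((ZMod.chineseRemainder h).toEquiv.subtypeEquiv
    (q := fun p : ZMod m × ZMod k => p.1 ^ 2 + (n : ZMod m) = 0 ∧ p.2 ^ 2 + (n : ZMod k) = 0)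
    fun x => ?_).trans (Equiv.subtypeProdEquivProd (p := fun x : ZMod m => x ^ 2 + (n : ZMod m) = 0)
      (q := fun x : ZMod k => x ^ 2 + (n : ZMod k) = 0))
  have h1 : x ^ 2 + (n : ZMod (m * k)) = 0 ↔
      ZMod.chineseRemainder h (x ^ 2 + (n : ZMod (m * k))) = 0 :=
    (map_eq_zero_iff _ (ZMod.chineseRemainder h).injective).symm
  rw [h1, map_add, map_pow, map_natCast, Prod.ext_iff]
  rfl

lemma js_R_one (n : ℕ) : js_R n 1 = 1 := by simp [js_R]

/-- the right-hand side -/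
def js_G (n a : ℕ) : ℕ :=
  ∑ r ∈ (Finset.range (a + 1)).filter (fun r => r ≠ 0 ∧ r ^ 2 ∣ a), js_R n (a / r ^ 2)

lemma js_mem {a r : ℕ} (ha : 0 < a) :
    r ∈ (Finset.range (a + 1)).filter (fun r => r ≠ 0 ∧ r ^ 2 ∣ a) ↔ r ≠ 0 ∧ r ^ 2 ∣ a := by
  rw [Finset.mem_filter, Finset.mem_range]
  refine ⟨fun h => h.2, fun h => ⟨?_, h⟩⟩
  have h1 := Nat.le_of_dvd ha h.2
  have h2 : r ≤ r ^ 2 := Nat.le_self_pow (by norm_num) r
  omega

lemma js_G_mul (n : ℕ) (hn : 0 < n) {m k : ℕ} (hm : 0 < m) (hk : 0 < k) (h : Nat.Coprime m k) :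
    js_G n m * js_G n k ≤ js_G n (m * k) := by
  unfold js_G
  rw [Finset.sum_mul_sum, ← Finset.sum_product']
  have e1 : ∀ x ∈ ((Finset.range (m + 1)).filter (fun r => r ≠ 0 ∧ r ^ 2 ∣ m)) ×ˢ
      ((Finset.range (k + 1)).filter (fun r => r ≠ 0 ∧ r ^ 2 ∣ k)),
      js_R n (m / x.1 ^ 2) * js_R n (k / x.2 ^ 2) = js_R n (m * k / (x.1 * x.2) ^ 2) := by
    intro x hx
    rw [Finset.mem_product, js_mem hm, js_mem hk] at hx
    rw [mul_pow, ← Nat.div_mul_div_comm hx.1.2 hx.2.2, js_R_mul n hn]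
    exact Nat.Coprime.coprime_dvd_left (Nat.div_dvd_of_dvd hx.1.2)
      (Nat.Coprime.coprime_dvd_right (Nat.div_dvd_of_dvd hx.2.2) h)
  rw [Finset.sum_congr rfl e1]
  have hinj : Set.InjOn (fun x : ℕ × ℕ => x.1 * x.2)
      (((Finset.range (m + 1)).filter (fun r => r ≠ 0 ∧ r ^ 2 ∣ m)) ×ˢ
      ((Finset.range (k + 1)).filter (fun r => r ≠ 0 ∧ r ^ 2 ∣ k)) : Finset (ℕ × ℕ)) := by
    rintro ⟨r, s⟩ hx ⟨r', s'⟩ hx' hxy
    rw [Finset.mem_coe, Finset.mem_product, js_mem hm, js_mem hk] at hx hx'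
    simp only at hx hx' hxy
    have d1 : r ∣ m := (dvd_pow_self r (by norm_num)).trans hx.1.2
    have d2 : s ∣ k := (dvd_pow_self s (by norm_num)).trans hx.2.2
    have d3 : r' ∣ m := (dvd_pow_self r' (by norm_num)).trans hx'.1.2
    have d4 : s' ∣ k := (dvd_pow_self s' (by norm_num)).trans hx'.2.2
    have c1 : Nat.Coprime r s' := Nat.Coprime.coprime_dvd_left d1 (Nat.Coprime.coprime_dvd_right d4 h)
    have c2 : Nat.Coprime r' s := Nat.Coprime.coprime_dvd_left d3 (Nat.Coprime.coprime_dvd_right d2 h)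
    have e2 : r ∣ r' := c1.dvd_of_dvd_mul_right (hxy ▸ dvd_mul_right r s)
    have e3 : r' ∣ r := c2.dvd_of_dvd_mul_right (hxy.symm ▸ dvd_mul_right r' s')
    have e4 : r = r' := Nat.dvd_antisymm e2 e3
    subst e4
    have e5 : s = s' := Nat.eq_of_mul_eq_mul_left (Nat.pos_of_ne_zero hx.1.1) hxy
    rw [e5]
  rw [← Finset.sum_image (f := fun t => js_R n (m * k / t ^ 2)) hinj]
  refine Finset.sum_le_sum_of_subset ?_
  intro t ht
  rw [Finset.mem_image] at ht
  obtain ⟨⟨r, s⟩, hx, rfl⟩ := ht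
  rw [Finset.mem_product, js_mem hm, js_mem hk] at hx
  rw [js_mem (Nat.mul_pos hm hk)]
  exact ⟨mul_ne_zero hx.1.1 hx.2.1, by rw [mul_pow]; exact Nat.mul_dvd_mul hx.1.2 hx.2.2⟩

/-- lifting solutions modulo powers of `p` -/
lemma js_lift (n p : ℕ) (hp : p.Prime) (hp2 : p ≠ 2) (hpn : ¬ p ∣ n)
    (h : ∃ b : ℤ, (p : ℤ) ∣ b ^ 2 + n) (j : ℕ) (hj : 1 ≤ j) :
    ∃ b : ℤ, (p : ℤ) ^ j ∣ b ^ 2 + n := by
  have hpp : Prime (p : ℤ) := Nat.prime_iff_prime_int.1 hp
  induction j, hj using Nat.le_induction with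
  | base => simpa using h
  | succ j hj ih =>
    obtain ⟨b, hb⟩ := ih
    have hpb : ¬ (p : ℤ) ∣ b := by
      intro hd
      apply hpn
      have h1 : (p : ℤ) ∣ b ^ 2 + n := (dvd_pow_self _ (by omega)).trans hb
      have h2 : (p : ℤ) ∣ n := (dvd_add_right (hd.trans (dvd_pow_self b (by norm_num)))).1 h1
      exact_mod_cast h2
    have hp2b : ¬ (p : ℤ) ∣ 2 * b := by
      intro hd
      rcases hpp.dvd_or_dvd hd with h1 | h1
      · have h2 : p ∣ 2 := by exact_mod_cast h1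
        exact hp2 ((Nat.prime_dvd_prime_iff_eq hp Nat.prime_two).1 h2)
      · exact hpb h1
    have hco : IsCoprime (p : ℤ) (2 * b) := (Prime.coprime_iff_not_dvd hpp).2 hp2b
    obtain ⟨u, s, hus⟩ := hco
    obtain ⟨c, hc⟩ := hb
    refine ⟨b - (b ^ 2 + n) * s, ?_⟩
    have e1 : (b - (b ^ 2 + n) * s) ^ 2 + (n : ℤ) =
        (b ^ 2 + n) * (p * u) + s ^ 2 * (b ^ 2 + n) ^ 2 := by
      linear_combination (b ^ 2 + (n : ℤ)) * (-hus)
    rw [e1, hc]
    refine dvd_add ⟨c * u, by ring⟩ ?_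
    have e2 : s ^ 2 * ((p : ℤ) ^ j * c) ^ 2 = (p : ℤ) ^ (j + 1) * ((p : ℤ) ^ (j - 1) * (s ^ 2 * c ^ 2)) := by
      have : (p : ℤ) ^ (j + 1) * (p : ℤ) ^ (j - 1) = ((p : ℤ) ^ j) ^ 2 := by
        rw [← pow_add, ← pow_mul]
        congr 1
        omega
      rw [← mul_assoc, this]
      ring
    rw [e2]
    exact dvd_mul_right _ _

lemma js_two (n p : ℕ) (hn : 0 < n) (hp : p.Prime) (hp2 : p ≠ 2) (hpn : ¬ p ∣ n)
    (h : ∃ b : ℤ, (p : ℤ) ∣ b ^ 2 + n) (j : ℕ) (hj : 1 ≤ j) : 2 ≤ js_R n (p ^ j) := by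
  have hpp : Prime (p : ℤ) := Nat.prime_iff_prime_int.1 hp
  obtain ⟨b, hb⟩ := js_lift n p hp hp2 hpn h j hj
  have : NeZero (p ^ j) := ⟨pow_ne_zero _ hp.ne_zero⟩
  have hpb : ¬ (p : ℤ) ∣ b := by
    intro hd
    apply hpn
    have h1 : (p : ℤ) ∣ b ^ 2 + n := (dvd_pow_self _ (by omega)).trans hb
    have h2 : (p : ℤ) ∣ n := (dvd_add_right (hd.trans (dvd_pow_self b (by norm_num)))).1 h1
    exact_mod_cast h2
  rw [js_R_eq n _ hn, Nat.card_eq_fintype_card]
  have h1 : ((b : ℤ) : ZMod (p ^ j)) ^ 2 + (n : ZMod (p ^ j)) = 0 := by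
    have := (ZMod.intCast_zmod_eq_zero_iff_dvd (b ^ 2 + n) (p ^ j)).2 (by exact_mod_cast hb)
    exact_mod_cast this
  have h2 : (-((b : ℤ) : ZMod (p ^ j))) ^ 2 + (n : ZMod (p ^ j)) = 0 := by rw [neg_sq]; exact h1
  have hne : (⟨(b : ZMod (p ^ j)), h1⟩ : {x : ZMod (p ^ j) // x ^ 2 + (n : ZMod (p ^ j)) = 0}) ≠
      ⟨-(b : ZMod (p ^ j)), h2⟩ := by
    intro he
    have h3 := congrArg Subtype.val he
    simp only at h3
    have h4 : ((2 * b : ℤ) : ZMod (p ^ j)) = 0 := by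
      push_cast
      linear_combination h3
    rw [ZMod.intCast_zmod_eq_zero_iff_dvd] at h4
    have h5 : (p : ℤ) ∣ 2 * b := by
      refine (dvd_pow_self (p : ℤ) (by omega : j ≠ 0)).trans ?_
      exact_mod_cast h4
    rcases hpp.dvd_or_dvd h5 with h6 | h6
    · have h7 : p ∣ 2 := by exact_mod_cast h6
      exact hp2 ((Nat.prime_dvd_prime_iff_eq hp Nat.prime_two).1 h7)
    · exact hpb h6
  exact Fintype.one_lt_card_iff.2 ⟨_, _, hne⟩

/-- lower bound at prime powers -/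
lemma js_G_pow (n p k : ℕ) (hp : p.Prime) :
    ∑ i ∈ Finset.range (k / 2 + 1), js_R n (p ^ (k - 2 * i)) ≤ js_G n (p ^ k) := by
  have hpos : 0 < p ^ k := pow_pos hp.pos k
  unfold js_G
  have e1 : ∀ i ∈ Finset.range (k / 2 + 1), js_R n (p ^ (k - 2 * i)) =
      js_R n (p ^ k / (p ^ i) ^ 2) := by
    intro i hi
    rw [Finset.mem_range] at hi
    rw [← pow_mul, mul_comm i 2, Nat.pow_div (by omega) hp.pos]
  rw [Finset.sum_congr rfl e1, ← Finset.sum_image (f := fun t => js_R n (p ^ k / t ^ 2))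
    (g := fun i => p ^ i) (fun i _ i' _ h => Nat.pow_right_injective hp.two_le h)]
  refine Finset.sum_le_sum_of_subset ?_
  intro t ht
  rw [Finset.mem_image] at ht
  obtain ⟨i, hi, rfl⟩ := ht
  rw [Finset.mem_range] at hi
  rw [js_mem hpos]
  refine ⟨pow_ne_zero _ hp.ne_zero, ?_⟩
  rw [← pow_mul]
  exact pow_dvd_pow _ (by omega)

open ArithmeticFunction in
/-- the Jacobi symbol as an arithmetic function -/
def js_J (n : ℕ) : ArithmeticFunction ℤ :=
  ⟨fun b => if b = 0 then 0 else jacobiSym (-(n : ℤ)) b, by simp⟩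

lemma js_J_apply (n b : ℕ) (hb : b ≠ 0) : js_J n b = jacobiSym (-(n : ℤ)) b := by
  change (if b = 0 then 0 else jacobiSym (-(n : ℤ)) b) = _
  rw [if_neg hb]

lemma js_J_mult (n : ℕ) : (js_J n).IsMultiplicative := by
  constructor
  · rw [js_J_apply n 1 one_ne_zero, jacobiSym.one_right]
  · intro a b _
    rcases eq_or_ne a 0 with ha | ha
    · subst ha; rw [zero_mul, ArithmeticFunction.map_zero, zero_mul]
    rcases eq_or_ne b 0 with hb | hb
    · subst hb; rw [mul_zero, ArithmeticFunction.map_zero, mul_zero]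
    have : NeZero a := ⟨ha⟩
    have : NeZero b := ⟨hb⟩
    rw [js_J_apply n _ (mul_ne_zero ha hb), js_J_apply n a ha, js_J_apply n b hb,
      jacobiSym.mul_right]

open ArithmeticFunction in
lemma js_F (n a : ℕ) : ((zeta : ArithmeticFunction ℤ) * js_J n) a =
    ∑ b ∈ a.divisors, jacobiSym (-(n : ℤ)) b := by
  rw [coe_zeta_mul_apply]
  refine Finset.sum_congr rfl fun b hb => ?_
  exact js_J_apply n b (Nat.pos_of_mem_divisors hb).ne'

open ArithmeticFunction in
lemma js_F_mul (n : ℕ) {m k : ℕ} (h : Nat.Coprime m k) :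
    (∑ b ∈ (m * k).divisors, jacobiSym (-(n : ℤ)) b) =
      (∑ b ∈ m.divisors, jacobiSym (-(n : ℤ)) b) * ∑ b ∈ k.divisors, jacobiSym (-(n : ℤ)) b := by
  rw [← js_F, ← js_F, ← js_F]
  exact (isMultiplicative_zeta.natCast.mul (js_J_mult n)).map_mul_of_coprime h

lemma js_main (n : ℕ) (hn : 0 < n) (a : ℕ) : Nat.Coprime a (2 * n) →
    0 ≤ (∑ b ∈ a.divisors, jacobiSym (-(n : ℤ)) b) ∧
      (∑ b ∈ a.divisors, jacobiSym (-(n : ℤ)) b) ≤ (js_G n a : ℤ) := by
  induction a using Nat.recOnPosPrimePosCoprime with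
  | zero =>
    intro h
    rw [Nat.coprime_zero_left] at h
    omega
  | one =>
    intro _
    have h1 : 1 ≤ js_G n 1 := by
      unfold js_G
      have h2 := Finset.single_le_sum (f := fun r => js_R n (1 / r ^ 2)) (fun _ _ => Nat.zero_le _)
        ((js_mem (a := 1) (r := 1) one_pos).2 ⟨one_ne_zero, by norm_num⟩)
      simp only [one_pow, Nat.div_one, js_R_one] at h2
      exact h2
    simp only [Nat.divisors_one, Finset.sum_singleton, jacobiSym.one_right]
    exact ⟨zero_le_one, by exact_mod_cast h1⟩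
  | prime_pow p k hp hk =>
    intro hco
    have hco' : Nat.Coprime p (2 * n) := Nat.Coprime.coprime_dvd_left (dvd_pow_self p hk.ne') hco
    have hp2 : p ≠ 2 := by
      rintro rfl
      have := Nat.Coprime.eq_one_of_dvd hco' (dvd_mul_right 2 n)
      omega
    have hpn : ¬ p ∣ n := by
      intro hd
      have := Nat.Coprime.eq_one_of_dvd hco' (hd.mul_left 2)
      exact hp.one_lt.ne' this
    have : Fact p.Prime := ⟨hp⟩
    rw [Nat.sum_divisors_prime_pow hp]
    simp_rw [jacobiSym.pow_right]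
    have hz : ((-(n : ℤ) : ℤ) : ZMod p) ≠ 0 := by
      intro h0
      rw [ZMod.intCast_zmod_eq_zero_iff_dvd, dvd_neg] at h0
      exact hpn (by exact_mod_cast h0)
    have hleg : jacobiSym (-(n : ℤ)) p = legendreSym p (-(n : ℤ)) :=
      (jacobiSym.legendreSym.to_jacobiSym p (-(n : ℤ))).symm
    rcases legendreSym.eq_one_or_neg_one p hz with h1 | h1
    · rw [hleg, h1]
      simp only [one_pow, Finset.sum_const, Finset.card_range, nsmul_eq_mul, mul_one]
      refine ⟨by positivity, ?_⟩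
      have hex : ∃ b : ℤ, (p : ℤ) ∣ b ^ 2 + n := by
        obtain ⟨x, hx⟩ := (legendreSym.eq_one_iff p hz).1 h1
        refine ⟨(x.val : ℤ), ?_⟩
        rw [← ZMod.intCast_zmod_eq_zero_iff_dvd]
        push_cast
        rw [ZMod.natCast_zmod_val]
        push_cast at hx
        linear_combination -hx
      have hge := js_G_pow n p k hp
      have h2 := fun j hj => js_two n p hn hp hp2 hpn hex j hj
      have h3 : k + 1 ≤ js_G n (p ^ k) := by
        refine le_trans ?_ hge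
        rw [Finset.sum_range_succ]
        rcases Nat.even_or_odd' k with ⟨m, rfl | rfl⟩
        · have e1 : 2 * m / 2 = m := by omega
          rw [e1, Nat.sub_self, pow_zero, js_R_one]
          have h4 : m * 2 ≤ ∑ i ∈ Finset.range m, js_R n (p ^ (2 * m - 2 * i)) := by
            have h5 := Finset.card_nsmul_le_sum (Finset.range m)
              (fun i => js_R n (p ^ (2 * m - 2 * i))) 2 (fun i hi => h2 _ (by
                rw [Finset.mem_range] at hi; omega))
            rwa [Finset.card_range, smul_eq_mul] at h5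
          omega
        · have e1 : (2 * m + 1) / 2 = m := by omega
          rw [e1]
          have h4 : m * 2 ≤ ∑ i ∈ Finset.range m, js_R n (p ^ (2 * m + 1 - 2 * i)) := by
            have h5 := Finset.card_nsmul_le_sum (Finset.range m)
              (fun i => js_R n (p ^ (2 * m + 1 - 2 * i))) 2 (fun i hi => h2 _ (by
                rw [Finset.mem_range] at hi; omega))
            rwa [Finset.card_range, smul_eq_mul] at h5
          have h6 := h2 (2 * m + 1 - 2 * m) (by omega)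
          omega
      exact_mod_cast h3
    · rw [hleg, h1]
      have hge := js_G_pow n p k hp
      rcases Nat.even_or_odd' k with ⟨m, rfl | rfl⟩
      · have e1 : ∑ i ∈ Finset.range (2 * m + 1), (-1 : ℤ) ^ i = 1 := by
          rw [neg_one_geom_sum, if_neg (by simp)]
        rw [e1]
        refine ⟨zero_le_one, ?_⟩
        have h3 : 1 ≤ js_G n (p ^ (2 * m)) := by
          refine le_trans ?_ hge
          rw [Finset.sum_range_succ]
          have e1 : 2 * m / 2 = m := by omega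
          rw [e1, Nat.sub_self, pow_zero, js_R_one]
          omega
        exact_mod_cast h3
      · have e1 : ∑ i ∈ Finset.range (2 * m + 1 + 1), (-1 : ℤ) ^ i = 0 := by
          rw [neg_one_geom_sum, if_pos ⟨m + 1, by ring⟩]
        rw [e1]
        exact ⟨le_rfl, Int.natCast_nonneg _⟩
  | coprime a b ha hb hab iha ihb =>
    intro hco
    obtain ⟨a1, a2⟩ := iha (Nat.Coprime.coprime_dvd_left (dvd_mul_right a b) hco)
    obtain ⟨b1, b2⟩ := ihb (Nat.Coprime.coprime_dvd_left (dvd_mul_left b a) hco)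
    rw [js_F_mul n hab]
    refine ⟨mul_nonneg a1 b1, ?_⟩
    have h1 := js_G_mul n hn (by omega : 0 < a) (by omega : 0 < b) hab
    calc _ ≤ (js_G n a : ℤ) * (js_G n b : ℤ) := mul_le_mul a2 b2 b1 (Int.natCast_nonneg _)
      _ ≤ (js_G n (a * b) : ℤ) := by exact_mod_cast h1

/-- TARGET -/
theorem jac_sum_le (n a : ℕ) (hn : 0 < n) (ha : Nat.Coprime a (2 * n)) :
    (∑ b ∈ a.divisors, jacobiSym (-(n : ℤ)) b) ≤
      ∑ r ∈ (Finset.range (a + 1)).filter (fun r => r ≠ 0 ∧ r ^ 2 ∣ a),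
        (((Finset.range (a / r ^ 2)).filter (fun b => (a / r ^ 2) ∣ b ^ 2 + n)).card : ℤ) := by
  refine (js_main n hn a ha).2.trans ?_
  unfold js_G js_R
  push_cast
  exact le_rfl

end Pool.Agent.H978V
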