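import Pool.Agent.H705R2.MLogB
import Pool.Agent.H843R2.KZ.T_HYP
import Pool.Agent.H843R2.KZ.T_PV
import Pool.Agent.H843R2.KZ.T_LSER
import Pool.Agent.H843R2.KZ.T_COP
import Pool.Agent.H843R2.KZ.T_POS
import Pool.Agent.H843R2.KZ.T_SIG
import Pool.Agent.H843R2.KZ.T_DIV
import Pool.Agent.Helper919.NonRes

/-!
Siegel lower bound for the divisor sum of the character `(-n / ·)`. The work is done by starting files:
`Pool/Agent/H843R2/KZ/T_HYP.lean` (`HYPaux.lower`, the hyperbola method), Siegel's theorem and the series of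
`L(1, χ)` from the same folder, and `Helper919.exists_jacobi_neg_one`.
-/

set_option autoImplicit false

namespace Pool.Agent.H978V

theorem b3_odd {n : ℕ} [NeZero (4 * n)] {a : ZMod (4 * n)} (ha : IsUnit a) : Odd a.val := by
  have h := (ZMod.isUnit_iff_coprime a.val (4 * n)).mp (by rwa [ZMod.natCast_zmod_val])
  have h2 : Nat.Coprime a.val 4 := Nat.Coprime.coprime_mul_right_right h
  have h3 : Nat.Coprime a.val 2 := Nat.Coprime.coprime_dvd_right (by norm_num) h2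
  exact (Nat.coprime_two_right.mp h3)

theorem b3_mod {n : ℕ} (a : ℕ) (ha : Odd a) :
    jacobiSym (-(n : ℤ)) (a % (4 * n)) = jacobiSym (-(n : ℤ)) a := by
  have h := jacobiSym.mod_right (-(n : ℤ)) ha
  rw [Int.natAbs_neg, Int.natAbs_natCast] at h
  exact h.symm

open Classical in
/-- the character `(-n / ·)` -/
noncomputable def b3_char (n : ℕ) (hn : 1 ≤ n) [NeZero (4 * n)] :
    DirichletCharacter ℂ (4 * n) where
  toFun a := if IsUnit a then ((jacobiSym (-(n : ℤ)) a.val : ℤ) : ℂ) else 0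
  map_one' := by
    have h : (1 : ZMod (4 * n)).val = 1 := by
      rw [ZMod.val_one_eq_one_mod]
      exact Nat.mod_eq_of_lt (by omega)
    rw [if_pos isUnit_one, h, jacobiSym.one_right]
    norm_num
  map_mul' a b := by
    by_cases ha : IsUnit a
    · by_cases hb : IsUnit b
      · have hab : IsUnit (a * b) := ha.mul hb
        rw [if_pos ha, if_pos hb, if_pos hab, ZMod.val_mul]
        have h1 := b3_odd ha
        have h2 := b3_odd hb
        rw [b3_mod _ (h1.mul h2), jacobiSym.mul_right' _ (Nat.ne_of_odd_add (by simpa using h1))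
          (Nat.ne_of_odd_add (by simpa using h2))]
        push_cast
        rfl
      · have hab : ¬ IsUnit (a * b) := fun h => hb (isUnit_of_mul_isUnit_right h)
        rw [if_neg hb, if_neg hab, mul_zero]
    · have hab : ¬ IsUnit (a * b) := fun h => ha (isUnit_of_mul_isUnit_left h)
      rw [if_neg ha, if_neg hab, zero_mul]
  map_nonunit' a ha := if_neg ha

theorem b3_apply (n : ℕ) (hn : 1 ≤ n) [NeZero (4 * n)] (m : ℕ) (hm : Odd m) :
    b3_char n hn (m : ZMod (4 * n)) = ((jacobiSym (-(n : ℤ)) m : ℤ) : ℂ) := by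
  classical
  have h0 : b3_char n hn (m : ZMod (4 * n)) = if IsUnit (m : ZMod (4 * n)) then
    ((jacobiSym (-(n : ℤ)) (m : ZMod (4 * n)).val : ℤ) : ℂ) else 0 := rfl
  rw [h0]
  split_ifs with h
  · rw [ZMod.val_natCast, b3_mod _ hm]
  · have h1 : ¬ Nat.Coprime m (4 * n) := fun hc => h ((ZMod.isUnit_iff_coprime m (4 * n)).mpr hc)
    have h2 : jacobiSym (-(n : ℤ)) m = 0 := by
      have hm0 : NeZero m := ⟨fun h0 => by rw [h0] at hm; exact absurd hm (by decide)⟩
      rw [jacobiSym.eq_zero_iff_not_coprime, Int.neg_gcd, Int.gcd_natCast_natCast]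
      intro hg
      apply h1
      have h4 : Nat.Coprime m 4 := by
        have := Nat.coprime_two_right.mpr hm
        exact Nat.Coprime.pow_right 2 this
      have h5 : Nat.Coprime m n := (Nat.coprime_iff_gcd_eq_one.mpr hg).symm
      exact Nat.Coprime.mul_right h4 h5
    rw [h2]; norm_num

theorem b3_exists (n : ℕ) (hn : 1 ≤ n) : ∃ χ : DirichletCharacter ℂ (4 * n), χ ≠ 1 ∧
    χ ^ 2 = 1 ∧ ∀ m : ℕ, Odd m → χ (m : ZMod (4 * n)) = ((jacobiSym (-(n : ℤ)) m : ℤ) : ℂ) := by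
  have hNZ : NeZero (4 * n) := ⟨by omega⟩
  refine ⟨b3_char n hn, ?_, ?_, fun m hm => b3_apply n hn m hm⟩
  · intro h
    obtain ⟨d, hd, hJ⟩ := Pool.Agent.Helper919.exists_jacobi_neg_one (-(n : ℤ)) (by
      rintro ⟨r, hr⟩
      have h1 := mul_self_nonneg r
      omega)
    have h1 := b3_apply n hn d hd
    rw [h, hJ] at h1
    by_cases hu : IsUnit (d : ZMod (4 * n))
    · rw [MulChar.one_apply hu] at h1
      norm_num at h1
    · rw [MulChar.map_nonunit _ hu] at h1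
      norm_num at h1
  · apply MulChar.ext
    intro u
    have hu : IsUnit (u : ZMod (4 * n)) := u.isUnit
    have ho := b3_odd hu
    have h1 := b3_apply n hn (u : ZMod (4 * n)).val ho
    rw [ZMod.natCast_zmod_val] at h1
    rw [MulChar.one_apply_coe, MulChar.pow_apply_coe, h1]
    have h2 : (jacobiSym (-(n : ℤ)) (u : ZMod (4 * n)).val) ^ 2 = 1 := by
      apply jacobiSym.sq_one
      have h3 := (ZMod.isUnit_iff_coprime (u : ZMod (4 * n)).val (4 * n)).mp
        (by rwa [ZMod.natCast_zmod_val])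
      have h4 : Nat.Coprime (u : ZMod (4 * n)).val n := Nat.Coprime.coprime_mul_left_right h3
      rw [Int.neg_gcd, Int.gcd_natCast_natCast]
      exact h4.symm
    exact_mod_cast h2

set_option maxHeartbeats 4000000 in
open Finset in
theorem char_sum_lower_aux (δ : ℝ) (hδ : 0 < δ) : ∃ (c : ℝ) (K : ℕ), 0 < c ∧ 1 ≤ K ∧
    ∀ n : ℕ, 1 ≤ n → ∀ x : ℕ, (K * n) ^ 8 ≤ x →
    c * (n : ℝ) ^ (-δ) * x ≤ ∑ a ∈ (Finset.range (x + 1)).filter (fun a => Nat.Coprime a (2 * n)),
      ((∑ b ∈ a.divisors, jacobiSym (-(n : ℤ)) b : ℤ) : ℝ) := by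
  set ε : ℝ := min δ 1 / 2 with hε
  have hm0 : 0 < min δ 1 := lt_min hδ one_pos
  have hε0 : 0 < ε := by positivity
  have hε1 : 2 * ε ≤ 1 := by
    have := min_le_right δ 1
    rw [hε]; linarith
  have hεδ : 2 * ε ≤ δ := by
    have := min_le_left δ 1
    rw [hε]; linarith
  obtain ⟨C1, hC1, hdiv⟩ := Pool.Agent.H843R2.KZ.DIV_ok ε hε0
  obtain ⟨c1, hc1, hsig⟩ := Pool.Agent.H843R2.KZ.SIG_ok Pool.Agent.H843R2.KZ.DIV_ok ε hε0
  set c : ℝ := c1 / (16 * C1) with hc
  have hc0 : 0 < c := by positivity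
  obtain ⟨K0, hK0⟩ := exists_nat_ge (1283 / c)
  refine ⟨c, K0 + 1, hc0, by omega, ?_⟩
  intro n hn x hx
  have hne : NeZero (4 * n) := ⟨by omega⟩
  obtain ⟨χ, h1, h2, hχ⟩ := b3_exists n hn
  have hK1 : 1 ≤ (K0 + 1) * n := Nat.mul_pos (by omega) hn
  have hx1 : 1 ≤ x := le_trans (Nat.one_le_pow _ _ hK1) hx
  set E : ℕ := Nat.sqrt x with hE
  have hE1 : 1 ≤ E := by
    rw [hE, Nat.le_sqrt]; omega
  have hED : E ≤ x := Nat.sqrt_le_self x
  have hlow := Pool.Agent.H843R2.KZ.HYPaux.lower Pool.Agent.H843R2.KZ.PV_ok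
    (Pool.Agent.H843R2.KZ.LSER_ok Pool.Agent.H843R2.KZ.PV_ok) Pool.Agent.H843R2.KZ.COP_ok
    Pool.Agent.H843R2.KZ.POS_ok n x E hn hE1 hED χ h1 h2
  have hsum : ∑ d ∈ (Icc 1 x).filter (fun d => Nat.Coprime d (2 * n)),
      ∑ e ∈ d.divisors, (χ (e : ZMod (4 * n))).re =
      ∑ a ∈ (Finset.range (x + 1)).filter (fun a => Nat.Coprime a (2 * n)),
      ((∑ b ∈ a.divisors, jacobiSym (-(n : ℤ)) b : ℤ) : ℝ) := by
    have hset : (Icc 1 x).filter (fun d => Nat.Coprime d (2 * n)) =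
        (Finset.range (x + 1)).filter (fun a => Nat.Coprime a (2 * n)) := by
      ext a
      simp only [mem_filter, mem_Icc, mem_range]
      constructor
      · rintro ⟨⟨h3, h4⟩, h5⟩
        exact ⟨by omega, h5⟩
      · rintro ⟨h3, h5⟩
        refine ⟨⟨?_, by omega⟩, h5⟩
        rcases Nat.eq_zero_or_pos a with h6 | h6
        · subst h6
          rw [Nat.coprime_zero_left] at h5
          omega
        · exact h6
    rw [hset]
    apply sum_congr rfl
    intro a ha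
    rw [mem_filter] at ha
    rw [Int.cast_sum]
    apply sum_congr rfl
    intro b hb
    have hb' : Nat.Coprime b (2 * n) :=
      Nat.Coprime.coprime_dvd_left (Nat.dvd_of_mem_divisors hb) ha.2
    have hodd : Odd b := Nat.coprime_two_right.mp (Nat.Coprime.coprime_mul_right_right hb')
    rw [hχ b hodd]
    exact Complex.intCast_re _
  rw [hsum] at hlow
  refine le_trans ?_ hlow
  -- real numbers
  have hnr : (1 : ℝ) ≤ n := by exact_mod_cast hn
  have hn0 : (0 : ℝ) < n := by linarith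
  have hxr : (1 : ℝ) ≤ x := by exact_mod_cast hx1
  have hx0 : (0 : ℝ) < x := by linarith
  have hEr : (1 : ℝ) ≤ E := by exact_mod_cast hE1
  set s : ℝ := √(x : ℝ) with hs
  have hs0 : 0 < s := Real.sqrt_pos.2 hx0
  have hss : s * s = x := Real.mul_self_sqrt hx0.le
  have hEs : (E : ℝ) ≤ s := by
    rw [hs]
    exact Real.nat_sqrt_le_real_sqrt
  have hsE : s ≤ 2 * E := by
    have h3 : s ≤ (E : ℝ) + 1 := by
      rw [hs]
      exact Real.real_sqrt_le_nat_sqrt_succ
    linarith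
  have hxE : (x : ℝ) / E ≤ 2 * s := by
    rw [div_le_iff₀ (by linarith)]
    nlinarith
  set a : ℝ := (n : ℝ) ^ ε with ha
  have ha1 : 1 ≤ a := Real.one_le_rpow hnr hε0.le
  have ha0 : 0 < a := by linarith
  have two1 : (2 : ℝ) ^ ε ≤ 2 := by
    calc (2 : ℝ) ^ ε ≤ (2 : ℝ) ^ (1 : ℝ) :=
          Real.rpow_le_rpow_of_exponent_le (by norm_num) (by linarith)
      _ = 2 := Real.rpow_one 2
  have four1 : (4 : ℝ) ^ ε ≤ 4 := by
    calc (4 : ℝ) ^ ε ≤ (4 : ℝ) ^ (1 : ℝ) :=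
          Real.rpow_le_rpow_of_exponent_le (by norm_num) (by linarith)
      _ = 4 := Real.rpow_one 4
  have p2 : (((2 * n : ℕ) : ℝ)) ^ ε ≤ 2 * a := by
    push_cast
    rw [Real.mul_rpow (by norm_num) hn0.le]
    exact mul_le_mul_of_nonneg_right two1 ha0.le
  have p4 : (((4 * n : ℕ) : ℝ)) ^ ε ≤ 4 * a := by
    push_cast
    rw [Real.mul_rpow (by norm_num) hn0.le]
    exact mul_le_mul_of_nonneg_right four1 ha0.le
  have q4pos : (0 : ℝ) < ((4 * n : ℕ) : ℝ) := by positivity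
  have hτ : ((2 * n).divisors.card : ℝ) ≤ C1 * (2 * a) :=
    (hdiv (2 * n) (by omega)).trans (mul_le_mul_of_nonneg_left p2 hC1.le)
  have hcl : 1 / (C1 * (2 * a)) ≤ (Nat.totient (2 * n) : ℝ) / ((2 * n : ℕ) : ℝ) := by
    have h3 := Pool.Agent.H843R2.KZ.HYPaux.tot_div (2 * n) (by omega)
    have h4 : (0 : ℝ) < ((2 * n : ℕ) : ℝ) := by positivity
    rw [div_le_div_iff₀ (by positivity) h4, one_mul]
    refine h3.trans ?_
    exact mul_le_mul_of_nonneg_left hτ (Nat.cast_nonneg _)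
  have hLl : c1 / (4 * a) ≤ ‖χ.LFunction 1‖ := by
    refine le_trans ?_ (hsig (4 * n) χ h2 h1)
    rw [Real.rpow_neg q4pos.le, ← div_eq_mul_inv]
    exact div_le_div_of_nonneg_left hc1.le (by positivity) p4
  have main : 2 * c * (a * a)⁻¹ * x ≤
      (Nat.totient (2 * n) : ℝ) / ((2 * n : ℕ) : ℝ) * x * ‖χ.LFunction 1‖ := by
    calc 2 * c * (a * a)⁻¹ * x = 1 / (C1 * (2 * a)) * x * (c1 / (4 * a)) := by
          rw [hc]; field_simp; ring
      _ ≤ (Nat.totient (2 * n) : ℝ) / ((2 * n : ℕ) : ℝ) * x * ‖χ.LFunction 1‖ := by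
          apply mul_le_mul _ hLl (by positivity) (by positivity)
          exact mul_le_mul_of_nonneg_right hcl hx0.le
  have e4 : ((4 * n : ℕ) : ℝ) = 4 * n := by push_cast; ring
  have err1 : 40 * (√((4 * n : ℕ) : ℝ) * (1 + Real.log ((4 * n : ℕ) : ℝ))) * ((x : ℝ) / E) ≤
      1280 * n ^ 2 * s := by
    have h3 : √((4 * n : ℕ) : ℝ) ≤ 4 * n := by
      rw [e4, Real.sqrt_le_left (by positivity)]
      nlinarith
    have h4 : 1 + Real.log ((4 * n : ℕ) : ℝ) ≤ 4 * n := by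
      have := Real.log_le_sub_one_of_pos q4pos
      rw [e4] at this ⊢
      linarith
    have h5 : 0 ≤ 1 + Real.log ((4 * n : ℕ) : ℝ) := by
      have : 0 ≤ Real.log ((4 * n : ℕ) : ℝ) := Real.log_natCast_nonneg _
      linarith
    calc 40 * (√((4 * n : ℕ) : ℝ) * (1 + Real.log ((4 * n : ℕ) : ℝ))) * ((x : ℝ) / E)
        ≤ 40 * ((4 * n) * (4 * n)) * (2 * s) := by
          apply mul_le_mul _ hxE (by positivity) (by positivity)
          apply mul_le_mul_of_nonneg_left _ (by norm_num)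
          exact mul_le_mul h3 h4 h5 (by positivity)
      _ = 1280 * n ^ 2 * s := by ring
  have err2 : (E : ℝ) * (((2 * n).divisors.card : ℝ) + 1) ≤ 3 * n ^ 2 * s := by
    have h3 : ((2 * n).divisors.card : ℝ) ≤ 2 * n := by
      have := Nat.card_divisors_le_self (2 * n)
      exact_mod_cast this
    calc (E : ℝ) * (((2 * n).divisors.card : ℝ) + 1) ≤ s * (3 * n ^ 2) := by
          apply mul_le_mul hEs _ (by positivity) hs0.le
          have h6 : (n : ℝ) ≤ n ^ 2 := by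
            rw [sq]; exact le_mul_of_one_le_left hn0.le hnr
          have h7 : (1 : ℝ) ≤ n ^ 2 := hnr.trans h6
          linarith
      _ = 3 * n ^ 2 * s := by ring
  have haa : a * a ≤ n := by
    rw [ha, ← Real.rpow_add hn0]
    calc (n : ℝ) ^ (ε + ε) ≤ (n : ℝ) ^ (1 : ℝ) :=
          Real.rpow_le_rpow_of_exponent_le hnr (by linarith)
      _ = n := Real.rpow_one _
  have hsK : ((K0 : ℝ) + 1) * n ^ 3 ≤ s := by
    rw [hs]
    apply Real.le_sqrt_of_sq_le
    have h3 : (((K0 + 1) * n : ℕ) : ℝ) ^ 8 ≤ x := by exact_mod_cast hx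
    push_cast at h3
    refine le_trans ?_ h3
    have h4 : (1 : ℝ) ≤ (K0 : ℝ) + 1 := by
      have : (0 : ℝ) ≤ K0 := Nat.cast_nonneg _
      linarith
    calc (((K0 : ℝ) + 1) * n ^ 3) ^ 2 = ((K0 : ℝ) + 1) ^ 2 * n ^ 6 := by ring
      _ ≤ ((K0 : ℝ) + 1) ^ 8 * n ^ 8 := by
          apply mul_le_mul
          · exact pow_le_pow_right₀ h4 (by norm_num)
          · exact pow_le_pow_right₀ hnr (by norm_num)
          · positivity
          · positivity
      _ = (((K0 : ℝ) + 1) * n) ^ 8 := by ring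
  have fin : 1283 * n ^ 2 * s ≤ c * (a * a)⁻¹ * x := by
    have h3 : 1283 ≤ c * ((K0 : ℝ) + 1) := by
      have h4 : 1283 ≤ K0 * c := (div_le_iff₀ hc0).1 hK0
      nlinarith
    have h4 : (n : ℝ)⁻¹ ≤ (a * a)⁻¹ := inv_anti₀ (by positivity) haa
    calc 1283 * (n : ℝ) ^ 2 * s ≤ (c * ((K0 : ℝ) + 1)) * (n : ℝ) ^ 2 * s := by
          apply mul_le_mul_of_nonneg_right _ hs0.le
          exact mul_le_mul_of_nonneg_right h3 (by positivity)
      _ = c * (n : ℝ)⁻¹ * ((((K0 : ℝ) + 1) * n ^ 3) * s) := by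
          field_simp
      _ ≤ c * (n : ℝ)⁻¹ * (s * s) := by
          apply mul_le_mul_of_nonneg_left _ (by positivity)
          exact mul_le_mul_of_nonneg_right hsK hs0.le
      _ ≤ c * (a * a)⁻¹ * (s * s) := by
          apply mul_le_mul_of_nonneg_right _ (by positivity)
          exact mul_le_mul_of_nonneg_left h4 hc0.le
      _ = c * (a * a)⁻¹ * x := by rw [hss]
  have hpow : (n : ℝ) ^ (-δ) ≤ (a * a)⁻¹ := by
    rw [ha, ← Real.rpow_add hn0, ← Real.rpow_neg hn0.le]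
    exact Real.rpow_le_rpow_of_exponent_le hnr (by linarith)
  have hfin : c * (n : ℝ) ^ (-δ) * x ≤ c * (a * a)⁻¹ * x := by
    apply mul_le_mul_of_nonneg_right _ hx0.le
    exact mul_le_mul_of_nonneg_left hpow hc0.le
  linarith

/-- TARGET -/
theorem char_sum_lower (δ : ℝ) (hδ : 0 < δ) : ∃ (c : ℝ) (K : ℕ), 0 < c ∧ 1 ≤ K ∧
    ∀ n : ℕ, 1 ≤ n → ∀ x : ℕ, (K * n) ^ 8 ≤ x →
    c * (n : ℝ) ^ (-δ) * x ≤ ∑ a ∈ (Finset.range (x + 1)).filter (fun a => Nat.Coprime a (2 * n)),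
      ((∑ b ∈ a.divisors, jacobiSym (-(n : ℤ)) b : ℤ) : ℝ) := char_sum_lower_aux δ hδ

end Pool.Agent.H978V
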