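import Pool.Agent.H591R2.ThreeSq

/-!
# Primitive sums of three squares for `n = 1, 2 mod 4`
-/

set_option autoImplicit false

namespace Pool.Agent.H978V

open Pool.Agent.H591R2 Pool.Agent.H591R2.St

/-- the linear form of the state is primitive -/
def Prim (s : St) : Prop := ∀ d : ℤ, d ∣ s.x → d ∣ s.y → d ∣ s.z → d ∣ 1

theorem prim_red12 {s : St} (h : Prim s) (t : ℤ) : Prim (s.red12 t) := by
  intro d hx hy hz
  have hx' : d ∣ s.x := hx
  have hy' : d ∣ s.y - t * s.x := hy
  refine h d hx' ?_ hz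
  have := dvd_add hy' (Dvd.dvd.mul_left hx' t)
  rwa [sub_add_cancel] at this

theorem prim_red23 {s : St} (h : Prim s) (t : ℤ) : Prim (s.red23 t) := by
  intro d hx hy hz
  have hy' : d ∣ s.y := hy
  have hz' : d ∣ s.z - t * s.y := hz
  refine h d hx hy' ?_
  have := dvd_add hz' (Dvd.dvd.mul_left hy' t)
  rwa [sub_add_cancel] at this

theorem prim_red13 {s : St} (h : Prim s) (t : ℤ) : Prim (s.red13 t) := by
  intro d hx hy hz
  have hx' : d ∣ s.x := hx
  have hz' : d ∣ s.z - t * s.x := hz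
  refine h d hx' hy ?_
  have := dvd_add hz' (Dvd.dvd.mul_left hx' t)
  rwa [sub_add_cancel] at this

theorem prim_swap12 {s : St} (h : Prim s) : Prim s.swap12 :=
  fun d hx hy hz => h d hy hx hz

theorem prim_swap23 {s : St} (h : Prim s) : Prim s.swap23 :=
  fun d hx hy hz => h d hx hz hy

theorem prim_step {s : St} (h : Prim s) : Prim s.step := by
  have h1 : Prim s.s1 := prim_red12 h _
  have h2 : Prim s.s1.s2 := prim_red13 (prim_red23 h1 _) _
  unfold step
  simp only
  split_ifs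
  · exact prim_swap12 h1
  · exact prim_swap23 h2
  · exact h2

theorem prim_iter {s : St} (h : Prim s) (N : ℕ) : Prim (step^[N] s) := by
  induction N generalizing s with
  | zero => exact h
  | succ N ih =>
    rw [Function.iterate_succ_apply]
    exact ih (prim_step h)

theorem gcd_of_prim {x y z : ℤ} (h : ∀ d : ℤ, d ∣ x → d ∣ y → d ∣ z → d ∣ 1) :
    Int.gcd (Int.gcd x y) z = 1 := by
  have h1 : ((Int.gcd (Int.gcd x y) z : ℕ) : ℤ) ∣ (Int.gcd x y : ℤ) := Int.gcd_dvd_left _ _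
  have h2 : ((Int.gcd (Int.gcd x y) z : ℕ) : ℤ) ∣ z := Int.gcd_dvd_right _ _
  have h3 := h _ (h1.trans (Int.gcd_dvd_left _ _)) (h1.trans (Int.gcd_dvd_right _ _)) h2
  have h4 := Int.natCast_dvd_natCast.1 (show ((Int.gcd (Int.gcd x y) z : ℕ) : ℤ) ∣ ((1 : ℕ) : ℤ) by
    simpa using h3)
  exact Nat.dvd_one.1 h4

/-- Any good primitive state writes `m` as a primitive sum of three squares. -/
theorem exists_sq_prim {m M : ℤ} {s : St} (hg : Good m M s) (hp : Prim s) :
    ∃ x y z : ℤ, x ^ 2 + y ^ 2 + z ^ 2 = m ∧ Int.gcd (Int.gcd x y) z = 1 := by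
  have hg' : Good m (max M 2) s := ⟨hg.a_pos, hg.D2_pos, hg.det_eq, hg.Q_eq,
    hg.a_le.trans (le_max_left _ _), hg.d_le.trans (le_max_left _ _),
    hg.f_le.trans (le_max_left _ _)⟩
  obtain ⟨N, hN⟩ : ∃ N : ℕ, s.pot * 3 ^ N < 4 ^ N := by
    obtain ⟨N, hN⟩ := pow_unbounded_of_one_lt ((s.pot : ℚ)) (show (1 : ℚ) < 4 / 3 by norm_num)
    refine ⟨N, ?_⟩
    rw [div_pow, lt_div_iff₀ (by positivity)] at hN
    exact_mod_cast hN
  obtain ⟨h1, h2⟩ := iter_spec (le_max_right _ _) N hg' hN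
  exact ⟨_, _, _, fin_sq h1 h2, gcd_of_prim (prim_iter hp N)⟩

theorem prim_init (a b c d e f x y : ℤ) : Prim ⟨a, b, c, d, e, f, x, y, 1⟩ :=
  fun _ _ _ hz => hz

/-- Primitive sums of three squares for `m = 1 mod 4`. -/
theorem prim_one {m : ℕ} (hm : m % 4 = 1) :
    ∃ x y z : ℤ, x ^ 2 + y ^ 2 + z ^ 2 = m ∧ Int.gcd (Int.gcd x y) z = 1 := by
  rcases Nat.lt_or_ge 1 m with h1 | h1
  · have hm0 : m ≠ 0 := by omega
    have : NeZero m := ⟨hm0⟩
    have hmodd : Odd m := Nat.odd_iff.2 (by omega)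
    have hcop : Nat.Coprime 4 m := by
      rw [show (4 : ℕ) = 2 ^ 2 by norm_num]
      exact Nat.Coprime.pow_left 2 (Nat.coprime_two_left.2 hmodd)
    -- a prime q with q = 1 mod 4 and q = -1 mod m
    obtain ⟨r, hr4, hrm⟩ := Nat.chineseRemainder hcop 1 (m - 1)
    have : NeZero (4 * m) := ⟨by omega⟩
    have hrc : Nat.Coprime r (4 * m) := by
      apply Nat.Coprime.mul_right
      · have h4 : r % 4 = 1 := hr4
        rw [show (4 : ℕ) = 2 ^ 2 by norm_num]
        exact Nat.Coprime.pow_right 2 (Nat.coprime_two_right.2 (Nat.odd_iff.2 (by omega)))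
      · have h5 : Nat.gcd m r = Nat.gcd m (m - 1) := by
          have := hrm.gcd_eq
          rwa [Nat.gcd_comm r m, Nat.gcd_comm (m - 1) m] at this
        have h6 : Nat.Coprime m (m - 1) := by
          have := Nat.coprime_self_sub_right (n := m) (m := 1) (by omega)
          exact this.2 (Nat.coprime_one_right m)
        exact Nat.Coprime.symm (h5.trans h6)
    obtain ⟨q, hqm, hq, hqr⟩ := Nat.forall_exists_prime_gt_and_eq_mod
      (a := (r : ZMod (4 * m))) ((ZMod.isUnit_iff_coprime r (4 * m)).2 hrc) (m + 2)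
    have hqr' : q ≡ r [MOD 4 * m] := (ZMod.natCast_eq_natCast_iff q r (4 * m)).1 hqr
    have hq4 : q % 4 = 1 := (Nat.ModEq.of_mul_right m hqr').trans hr4
    have hqm1 : q ≡ m - 1 [MOD m] := (Nat.ModEq.of_mul_left 4 hqr').trans hrm
    have hdvd : (m : ℤ) ∣ q + 1 := by
      have h7 : q + 1 ≡ m - 1 + 1 [MOD m] := hqm1.add_right 1
      rw [show m - 1 + 1 = m by omega] at h7
      have h8 : m ∣ q + 1 := (Nat.modEq_zero_iff_dvd).1 (h7.trans (by simp [Nat.ModEq]))
      exact_mod_cast h8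
    have : Fact q.Prime := ⟨hq⟩
    have hqodd : Odd q := Nat.odd_iff.2 (by omega)
    -- `-m` is a square modulo q
    have h6 : jacobiSym (-(m : ℤ)) q = 1 := by
      rw [jacobiSym.neg _ hqodd, ZMod.χ₄_nat_one_mod_four hq4, one_mul,
        jacobiSym.quadratic_reciprocity_one_mod_four hm hqodd]
      have h9 : jacobiSym (q : ℤ) m = jacobiSym (-1) m := by
        apply jacobiSym.mod_left'
        apply Int.emod_eq_emod_iff_emod_sub_eq_zero.2
        apply Int.emod_eq_zero_of_dvd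
        simpa using hdvd
      rw [h9, jacobiSym.at_neg_one hmodd, ZMod.χ₄_nat_one_mod_four hm]
    have h7 := ZMod.isSquare_of_jacobiSym_eq_one h6
    obtain ⟨b, hb⟩ : ∃ b : ℤ, (q : ℤ) ∣ b ^ 2 + m := by
      obtain ⟨t, ht⟩ := h7
      refine ⟨t.val, ?_⟩
      rw [← ZMod.intCast_zmod_eq_zero_iff_dvd]
      push_cast
      rw [ZMod.natCast_zmod_val]
      push_cast at ht
      linear_combination -ht
    obtain ⟨c, hc⟩ := hb
    obtain ⟨l, hl⟩ := hdvd
    have hm0' : (0 : ℤ) < m := by omega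
    set s : St := ⟨q, b, 0, c, 1, l, 0, 0, 1⟩ with hs
    have hD : s.D2 = m := by
      simp only [D2, hs]; linarith
    have hdet : s.det = 1 := by
      simp only [det, hs]
      have : (q : ℤ) * c * l + 2 * b * 0 * 1 - q * 1 ^ 2 - b ^ 2 * l - 0 ^ 2 * c
        = (q * c - b ^ 2) * l - q := by ring
      rw [this]
      have h8 : (q : ℤ) * c - b ^ 2 = m := by linarith
      rw [h8]; linarith
    have hQ : s.Q = m := by
      simp only [Q, hs]; linarith
    have hg : Good (m : ℤ) (max (q : ℤ) (max c l)) s :=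
      ⟨by simp only [hs]; exact_mod_cast hq.pos, by rw [hD]; exact hm0', hdet, hQ,
        le_max_left _ _, (le_max_left _ _).trans (le_max_right _ _),
        (le_max_right _ _).trans (le_max_right _ _)⟩
    exact exists_sq_prim hg (prim_init _ _ _ _ _ _ _ _)
  · have : m = 1 := by omega
    subst this
    exact ⟨1, 0, 0, by norm_num, by decide⟩

/-- Primitive sums of three squares for `m = 2 mod 4`. -/
theorem prim_two {m : ℕ} (hm : m % 4 = 2) :
    ∃ x y z : ℤ, x ^ 2 + y ^ 2 + z ^ 2 = m ∧ Int.gcd (Int.gcd x y) z = 1 := by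
  obtain ⟨n, hn⟩ : ∃ n, m = 2 * n := ⟨m / 2, by omega⟩
  have hnodd : Odd n := Nat.odd_iff.2 (by omega)
  rcases Nat.lt_or_ge 1 n with h1 | h1
  · have hn0 : n ≠ 0 := by omega
    have : NeZero n := ⟨hn0⟩
    have hcop : Nat.Coprime 8 n := by
      rw [show (8 : ℕ) = 2 ^ 3 by norm_num]
      exact Nat.Coprime.pow_left 3 (Nat.coprime_two_left.2 hnodd)
    -- the residue mod 8
    obtain ⟨a, ha⟩ : ∃ a : ℕ, (n % 4 = 1 ∧ a = 1) ∨ (n % 4 = 3 ∧ a = 5) := by
      rcases (show n % 4 = 1 ∨ n % 4 = 3 by omega) with h | h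
      · exact ⟨1, Or.inl ⟨h, rfl⟩⟩
      · exact ⟨5, Or.inr ⟨h, rfl⟩⟩
    -- a prime q with q = a mod 8 and q = -1 mod n
    obtain ⟨r, hr8, hrn⟩ := Nat.chineseRemainder hcop a (n - 1)
    have : NeZero (8 * n) := ⟨by omega⟩
    have hr8' : r % 8 = a := by
      have h4 : r % 8 = a % 8 := hr8
      omega
    have hrc : Nat.Coprime r (8 * n) := by
      apply Nat.Coprime.mul_right
      · rw [show (8 : ℕ) = 2 ^ 3 by norm_num]
        exact Nat.Coprime.pow_right 3 (Nat.coprime_two_right.2 (Nat.odd_iff.2 (by omega)))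
      · have h5 : Nat.gcd n r = Nat.gcd n (n - 1) := by
          have := hrn.gcd_eq
          rwa [Nat.gcd_comm r n, Nat.gcd_comm (n - 1) n] at this
        have h6 : Nat.Coprime n (n - 1) := by
          have := Nat.coprime_self_sub_right (n := n) (m := 1) (by omega)
          exact this.2 (Nat.coprime_one_right n)
        exact Nat.Coprime.symm (h5.trans h6)
    obtain ⟨q, hqn, hq, hqr⟩ := Nat.forall_exists_prime_gt_and_eq_mod
      (a := (r : ZMod (8 * n))) ((ZMod.isUnit_iff_coprime r (8 * n)).2 hrc) (n + 2)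
    have hqr' : q ≡ r [MOD 8 * n] := (ZMod.natCast_eq_natCast_iff q r (8 * n)).1 hqr
    have hq8 : q % 8 = a := by
      have : q % 8 = r % 8 := Nat.ModEq.of_mul_right n hqr'
      omega
    have hq4 : q % 4 = 1 := by omega
    have hqn1 : q ≡ n - 1 [MOD n] := (Nat.ModEq.of_mul_left 8 hqr').trans hrn
    have hdvdn : n ∣ q + 1 := by
      have h7 : q + 1 ≡ n - 1 + 1 [MOD n] := hqn1.add_right 1
      rw [show n - 1 + 1 = n by omega] at h7
      exact (Nat.modEq_zero_iff_dvd).1 (h7.trans (by simp [Nat.ModEq]))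
    have hdvd : (m : ℤ) ∣ q + 1 := by
      have h8 : m ∣ q + 1 := by
        rw [hn]
        exact Nat.Coprime.mul_dvd_of_dvd_of_dvd (Nat.coprime_two_left.2 hnodd) (by omega) hdvdn
      exact_mod_cast h8
    have hdvdn' : (n : ℤ) ∣ q + 1 := by exact_mod_cast hdvdn
    have : Fact q.Prime := ⟨hq⟩
    have hqodd : Odd q := Nat.odd_iff.2 (by omega)
    -- `-m` is a square modulo q
    have h6 : jacobiSym (-(m : ℤ)) q = 1 := by
      have h9 : jacobiSym (q : ℤ) n = jacobiSym (-1) n := by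
        apply jacobiSym.mod_left'
        apply Int.emod_eq_emod_iff_emod_sub_eq_zero.2
        apply Int.emod_eq_zero_of_dvd
        simpa using hdvdn'
      have hm2 : (m : ℤ) = 2 * (n : ℤ) := by exact_mod_cast hn
      rw [jacobiSym.neg _ hqodd, ZMod.χ₄_nat_one_mod_four hq4, one_mul, hm2,
        jacobiSym.mul_left, jacobiSym.at_two hqodd,
        ← jacobiSym.quadratic_reciprocity_one_mod_four hq4 hnodd, h9,
        jacobiSym.at_neg_one hnodd, ZMod.χ₈_nat_eq_if_mod_eight]
      rcases ha with ⟨h, rfl⟩ | ⟨h, rfl⟩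
      · rw [ZMod.χ₄_nat_one_mod_four h, if_neg (by omega), if_pos (by omega)]
        norm_num
      · rw [ZMod.χ₄_nat_three_mod_four h, if_neg (by omega), if_neg (by omega)]
        norm_num
    have h7 := ZMod.isSquare_of_jacobiSym_eq_one h6
    obtain ⟨b, hb⟩ : ∃ b : ℤ, (q : ℤ) ∣ b ^ 2 + m := by
      obtain ⟨t, ht⟩ := h7
      refine ⟨t.val, ?_⟩
      rw [← ZMod.intCast_zmod_eq_zero_iff_dvd]
      push_cast
      rw [ZMod.natCast_zmod_val]
      push_cast at ht
      linear_combination -ht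
    obtain ⟨c, hc⟩ := hb
    obtain ⟨l, hl⟩ := hdvd
    have hm0' : (0 : ℤ) < m := by omega
    set s : St := ⟨q, b, 0, c, 1, l, 0, 0, 1⟩ with hs
    have hD : s.D2 = m := by
      simp only [D2, hs]; linarith
    have hdet : s.det = 1 := by
      simp only [det, hs]
      have : (q : ℤ) * c * l + 2 * b * 0 * 1 - q * 1 ^ 2 - b ^ 2 * l - 0 ^ 2 * c
        = (q * c - b ^ 2) * l - q := by ring
      rw [this]
      have h8 : (q : ℤ) * c - b ^ 2 = m := by linarith
      rw [h8]; linarith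
    have hQ : s.Q = m := by
      simp only [Q, hs]; linarith
    have hg : Good (m : ℤ) (max (q : ℤ) (max c l)) s :=
      ⟨by simp only [hs]; exact_mod_cast hq.pos, by rw [hD]; exact hm0', hdet, hQ,
        le_max_left _ _, (le_max_left _ _).trans (le_max_right _ _),
        (le_max_right _ _).trans (le_max_right _ _)⟩
    exact exists_sq_prim hg (prim_init _ _ _ _ _ _ _ _)
  · have : m = 2 := by omega
    subst this
    exact ⟨1, 1, 0, by norm_num, by decide⟩

/-- TARGET -/
theorem prim3 (n : ℕ) (hn : n % 4 = 1 ∨ n % 4 = 2) :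
    ∃ x y z : ℤ, x ^ 2 + y ^ 2 + z ^ 2 = n ∧ Int.gcd (Int.gcd x y) z = 1 := by
  rcases hn with h | h
  · exact prim_one h
  · exact prim_two h

end Pool.Agent.H978V
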