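import Pool.Agent.H978V.Ar
import Pool.Agent.H978V.B2
import Pool.Agent.H978V.B3a
import Pool.Agent.H978V.B3b
import Pool.Agent.H978V.B4

/-!
JOB B5 (owner helper978, MP_06cce2_nt).  `Pool/Agent/H978V/Ar.lean` is on origin/main.

PROOF.  Take `c₀, K` from `char_sum_lower δ`, `x = (K n)^8`, `y₀` primitive from `prim3`.  By `jac_sum_le` and exchanging sums
(`a = r² m`, `m` prime to `2n`, `m ≤ x / r²`):
`c₀ n^{-δ} x ≤ ∑_{1 ≤ r ≤ √x} ∑_{m ≤ x/r², (m,2n)=1} ρ(m) ≤ ∑_{1 ≤ r ≤ √x} 3 r₃ (2 (x/r²)/√n + 1) ≤ 3 r₃ (4 x/√n + √x)`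
(`∑ 1/r² ≤ 2`), and `√x ≤ x/√n` because `√x = (K n)^4 ≥ √n`.  So `r₃ ≥ (c₀/15) n^{1/2-δ}`.
-/

set_option autoImplicit false

namespace Pool.Agent.H978V






namespace R3Lower256

/-- Reindexing the sum over pairs `(a, r)` with `r ^ 2 ∣ a`. -/
theorem exchange (n R x : ℕ) (hx : x = R ^ 2) (f : ℕ → ℕ) :
    (∑ a ∈ (Finset.range (x + 1)).filter (fun a => Nat.Coprime a (2 * n)),
      ∑ r ∈ (Finset.range (a + 1)).filter (fun r => r ≠ 0 ∧ r ^ 2 ∣ a), f (a / r ^ 2)) ≤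
    ∑ r ∈ Finset.Icc 1 R, ∑ m ∈ (Finset.range (x / r ^ 2 + 1)).filter
      (fun m => Nat.Coprime m (2 * n)), f m := by
  have h1 : (∑ a ∈ (Finset.range (x + 1)).filter (fun a => Nat.Coprime a (2 * n)),
      ∑ r ∈ (Finset.range (a + 1)).filter (fun r => r ≠ 0 ∧ r ^ 2 ∣ a), f (a / r ^ 2)) ≤
      ∑ a ∈ (Finset.range (x + 1)).filter (fun a => Nat.Coprime a (2 * n)),
      ∑ r ∈ Finset.Icc 1 R, if r ^ 2 ∣ a then f (a / r ^ 2) else 0 := by
    refine Finset.sum_le_sum fun a ha => ?_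
    rw [← Finset.sum_filter]
    refine Finset.sum_le_sum_of_subset ?_
    intro r hr
    rw [Finset.mem_filter, Finset.mem_range] at hr
    rw [Finset.mem_filter, Finset.mem_range] at ha
    rw [Finset.mem_filter, Finset.mem_Icc]
    obtain ⟨hr1, hr2, hr3⟩ := hr
    refine ⟨⟨by omega, ?_⟩, hr3⟩
    by_cases ha0 : a = 0
    · omega
    · have h2 := Nat.le_of_dvd (Nat.pos_of_ne_zero ha0) hr3
      have h3 : r ^ 2 ≤ R ^ 2 := by omega
      exact (Nat.pow_le_pow_iff_left (by norm_num)).1 h3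
  refine h1.trans ?_
  rw [Finset.sum_comm]
  refine Finset.sum_le_sum fun r hr => ?_
  rw [Finset.mem_Icc] at hr
  have hrpos : 0 < r := by omega
  have hr0 : 0 < r ^ 2 := by positivity
  rw [← Finset.sum_filter]
  have hinj : Set.InjOn (fun a : ℕ => a / r ^ 2)
      (((Finset.range (x + 1)).filter (fun a => Nat.Coprime a (2 * n))).filter
        (fun a => r ^ 2 ∣ a) : Finset ℕ) := by
    intro a ha b hb hab
    simp only [Finset.coe_filter, Finset.mem_filter, Finset.mem_range, Set.mem_ofPred_eq] at ha hb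
    obtain ⟨-, c, rfl⟩ := ha
    obtain ⟨-, d, rfl⟩ := hb
    simp only [Nat.mul_div_cancel_left _ hr0] at hab
    rw [hab]
  rw [← Finset.sum_image (f := f) hinj]
  refine Finset.sum_le_sum_of_subset ?_
  intro m hm
  rw [Finset.mem_image] at hm
  obtain ⟨a, ha, rfl⟩ := hm
  rw [Finset.mem_filter, Finset.mem_filter, Finset.mem_range] at ha
  obtain ⟨⟨ha1, ha2⟩, c, rfl⟩ := ha
  rw [Nat.mul_div_cancel_left _ hr0, Finset.mem_filter, Finset.mem_range]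
  refine ⟨?_, Nat.Coprime.coprime_mul_left ha2⟩
  have : c ≤ x / r ^ 2 := by
    rw [Nat.le_div_iff_mul_le hr0, mul_comm]
    omega
  omega

theorem sum_inv_sq' (R : ℕ) (hR : 1 ≤ R) :
    ∑ r ∈ Finset.Icc 1 R, (1 : ℝ) / (r : ℝ) ^ 2 ≤ 2 - 1 / (R : ℝ) := by
  induction R, hR using Nat.le_induction with
  | base => norm_num
  | succ R hR ih =>
    rw [Finset.sum_Icc_succ_top (by omega)]
    have hR0 : (0 : ℝ) < (R : ℝ) := by exact_mod_cast (show 0 < R by omega)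
    have h1 : (1 : ℝ) / ((R + 1 : ℕ) : ℝ) ^ 2 ≤ 1 / (R : ℝ) - 1 / ((R + 1 : ℕ) : ℝ) := by
      push_cast
      rw [div_sub_div _ _ hR0.ne' (by positivity), div_le_div_iff₀ (by positivity) (by positivity)]
      nlinarith
    linarith

theorem sum_inv_sq (R : ℕ) : ∑ r ∈ Finset.Icc 1 R, (1 : ℝ) / (r : ℝ) ^ 2 ≤ 2 := by
  rcases Nat.eq_zero_or_pos R with rfl | hR
  · simp
  · have h1 := sum_inv_sq' R hR
    have h2 : (0 : ℝ) ≤ 1 / (R : ℝ) := by positivity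
    linarith

end R3Lower256

/-- TARGET -/
theorem r3_lower (δ : ℝ) (hδ : 0 < δ) : ∃ c : ℝ, 0 < c ∧ ∀ n : ℕ, n % 4 = 1 ∨ n % 4 = 2 →
    c * (n : ℝ) ^ (1 / 2 - δ) ≤ ((S3 n).card : ℝ) := by
  obtain ⟨c, K, hc, hK, h⟩ := char_sum_lower δ hδ
  refine ⟨c / 15, by positivity, fun n hn => ?_⟩
  have hn1 : 1 ≤ n := by omega
  obtain ⟨u, v, w, h1, h2⟩ := prim3 n hn
  have hy : ((u, v, w) : ℤ × ℤ × ℤ) ∈ S3 n := mem_S3.2 h1
  set R := (K * n) ^ 4 with hR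
  set x := (K * n) ^ 8 with hx
  have hxR : x = R ^ 2 := by rw [hx, hR]; ring
  have hmain := h n hn1 x le_rfl
  set ρ : ℕ → ℕ := fun m => ((Finset.range m).filter (fun b => m ∣ b ^ 2 + n)).card with hρ
  have hKn : n ≤ K * n := Nat.le_mul_of_pos_left n (by omega)
  have hRn : n ≤ R := by
    rw [hR]
    calc n ≤ K * n := hKn
      _ = (K * n) ^ 1 := (pow_one _).symm
      _ ≤ (K * n) ^ 4 := Nat.pow_le_pow_right (by omega) (by norm_num)
  have hn0 : (0 : ℝ) < (n : ℝ) := by exact_mod_cast (show 0 < n by omega)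
  have hsq : 0 < Real.sqrt n := Real.sqrt_pos.2 hn0
  have hsqR : Real.sqrt n ≤ R := by
    rw [Real.sqrt_le_left (by positivity)]
    have h3 : (n : ℝ) ≤ (R : ℝ) := by exact_mod_cast hRn
    have h4 : (1 : ℝ) ≤ (R : ℝ) := by exact_mod_cast (show 1 ≤ R by omega)
    nlinarith
  have hR0 : (0 : ℝ) < (R : ℝ) := lt_of_lt_of_le hsq hsqR
  have hx0 : (0 : ℝ) < (x : ℝ) := by rw [hxR]; push_cast; positivity
  -- from Jacobi sums to numbers of solutions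
  have hA : (∑ a ∈ (Finset.range (x + 1)).filter (fun a => Nat.Coprime a (2 * n)),
      ((∑ b ∈ a.divisors, jacobiSym (-(n : ℤ)) b : ℤ) : ℝ)) ≤
      ((∑ a ∈ (Finset.range (x + 1)).filter (fun a => Nat.Coprime a (2 * n)),
      ∑ r ∈ (Finset.range (a + 1)).filter (fun r => r ≠ 0 ∧ r ^ 2 ∣ a), ρ (a / r ^ 2) : ℕ) : ℝ) := by
    rw [Nat.cast_sum]
    refine Finset.sum_le_sum fun a ha => ?_
    have h3 := jac_sum_le n a (by omega) (Finset.mem_filter.1 ha).2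
    have h4 : ((∑ b ∈ a.divisors, jacobiSym (-(n : ℤ)) b : ℤ) : ℝ) ≤
        ((∑ r ∈ (Finset.range (a + 1)).filter (fun r => r ≠ 0 ∧ r ^ 2 ∣ a),
        (((Finset.range (a / r ^ 2)).filter (fun b => (a / r ^ 2) ∣ b ^ 2 + n)).card : ℤ) : ℤ) : ℝ) := by
      exact_mod_cast h3
    refine h4.trans (le_of_eq ?_)
    push_cast
    rfl
  have hB := R3Lower256.exchange n R x hxR ρ
  have hB' : ((∑ a ∈ (Finset.range (x + 1)).filter (fun a => Nat.Coprime a (2 * n)),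
      ∑ r ∈ (Finset.range (a + 1)).filter (fun r => r ≠ 0 ∧ r ^ 2 ∣ a), ρ (a / r ^ 2) : ℕ) : ℝ) ≤
      ((∑ r ∈ Finset.Icc 1 R, ∑ m ∈ (Finset.range (x / r ^ 2 + 1)).filter
      (fun m => Nat.Coprime m (2 * n)), ρ m : ℕ) : ℝ) := by exact_mod_cast hB
  have hC : ((∑ r ∈ Finset.Icc 1 R, ∑ m ∈ (Finset.range (x / r ^ 2 + 1)).filter
      (fun m => Nat.Coprime m (2 * n)), ρ m : ℕ) : ℝ) ≤
      ∑ r ∈ Finset.Icc 1 R, 3 * ((S3 n).card : ℝ) *
        (2 * ((x : ℝ) * (1 / (r : ℝ) ^ 2)) / Real.sqrt n + 1) := by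
    push_cast
    refine Finset.sum_le_sum fun r hr => ?_
    have h3 := pairs_le n (by omega) (u, v, w) hy h2 (x / r ^ 2)
    refine h3.trans ?_
    have h4 : ((x / r ^ 2 : ℕ) : ℝ) ≤ (x : ℝ) * (1 / (r : ℝ) ^ 2) := by
      have := @Nat.cast_div_le ℝ _ _ _ x (r ^ 2)
      rw [mul_one_div]
      refine this.trans (le_of_eq ?_)
      push_cast
      rfl
    gcongr
  have hD : ∑ r ∈ Finset.Icc 1 R, 3 * ((S3 n).card : ℝ) *
        (2 * ((x : ℝ) * (1 / (r : ℝ) ^ 2)) / Real.sqrt n + 1) ≤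
      15 * ((S3 n).card : ℝ) * (x / Real.sqrt n) := by
    rw [← Finset.mul_sum, Finset.sum_add_distrib, ← Finset.sum_div, ← Finset.mul_sum,
      ← Finset.mul_sum, Finset.sum_const, Nat.card_Icc, nsmul_eq_mul, mul_one]
    have h5 := R3Lower256.sum_inv_sq R
    have h6 : 2 * ((x : ℝ) * ∑ r ∈ Finset.Icc 1 R, (1 : ℝ) / (r : ℝ) ^ 2) / Real.sqrt n ≤
        4 * (x / Real.sqrt n) := by
      have : 2 * ((x : ℝ) * ∑ r ∈ Finset.Icc 1 R, (1 : ℝ) / (r : ℝ) ^ 2) / Real.sqrt n =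
        (2 * ∑ r ∈ Finset.Icc 1 R, (1 : ℝ) / (r : ℝ) ^ 2) * (x / Real.sqrt n) := by ring
      rw [this]
      exact mul_le_mul_of_nonneg_right (by linarith) (by positivity)
    have h7 : ((R + 1 - 1 : ℕ) : ℝ) ≤ x / Real.sqrt n := by
      rw [Nat.add_sub_cancel, le_div_iff₀ hsq, hxR]
      push_cast
      nlinarith
    have h8 : (0 : ℝ) ≤ 3 * ((S3 n).card : ℝ) := by positivity
    calc 3 * ((S3 n).card : ℝ) * (2 * ((x : ℝ) * ∑ r ∈ Finset.Icc 1 R, (1 : ℝ) / (r : ℝ) ^ 2) /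
          Real.sqrt n + ((R + 1 - 1 : ℕ) : ℝ))
        ≤ 3 * ((S3 n).card : ℝ) * (4 * (x / Real.sqrt n) + x / Real.sqrt n) :=
          mul_le_mul_of_nonneg_left (add_le_add h6 h7) h8
      _ = 15 * ((S3 n).card : ℝ) * (x / Real.sqrt n) := by ring
  have hE : c * (n : ℝ) ^ (-δ) * x ≤ 15 * ((S3 n).card : ℝ) * (x / Real.sqrt n) :=
    hmain.trans (hA.trans (hB'.trans (hC.trans hD)))
  have hpow : (n : ℝ) ^ (1 / 2 - δ) = Real.sqrt n * (n : ℝ) ^ (-δ) := by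
    rw [Real.sqrt_eq_rpow, ← Real.rpow_add hn0]
    congr 1
  rw [hpow]
  have hF : (c * (n : ℝ) ^ (-δ) * Real.sqrt n) * x ≤ (15 * ((S3 n).card : ℝ)) * x := by
    have h9 := mul_le_mul_of_nonneg_right hE hsq.le
    have h10 : 15 * ((S3 n).card : ℝ) * (x / Real.sqrt n) * Real.sqrt n =
        15 * ((S3 n).card : ℝ) * x := by
      field_simp
    rw [h10] at h9
    linarith
  have hG := le_of_mul_le_mul_right hF hx0
  linarith

end Pool.Agent.H978V
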