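import Pool.Agent.H978V.Ar
import Pool.Agent.H978V.B1

/-!
Two classes of three squares modulo 4.
-/

set_option autoImplicit false

open scoped Quaternion

namespace Pool.Agent.H978V


namespace B6

section prime

open scoped NumberTheorySymbols


/-- a nonsquare has a prime factor of odd exponent -/
theorem exists_odd_prime_factor {n : ℕ} (hn : n ≠ 0) (h : ¬ IsSquare n) :
    ∃ l : ℕ, l.Prime ∧ l ∣ n ∧ Odd (n.factorization l) := by
  obtain ⟨a, b, hab, hsq⟩ := Nat.sq_mul_squarefree n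
  have ha1 : a ≠ 1 := by
    rintro rfl
    exact h ⟨b, by rw [← hab]; ring⟩
  have ha0 : a ≠ 0 := by
    rintro rfl
    simp at hab
    exact hn hab.symm
  have hb0 : b ≠ 0 := by
    rintro rfl
    simp at hab
    exact hn hab.symm
  refine ⟨a.minFac, Nat.minFac_prime ha1, ?_, ?_⟩
  · rw [← hab]
    exact dvd_mul_of_dvd_right (Nat.minFac_dvd a) _
  · have h1 : a.factorization a.minFac = 1 := by
      apply le_antisymm (hsq.natFactorization_le_one _)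
      exact (Nat.minFac_prime ha1).dvd_iff_one_le_factorization ha0 |>.1 (Nat.minFac_dvd a)
    rw [← hab, Nat.factorization_mul (pow_ne_zero 2 hb0) ha0, Nat.factorization_pow]
    simp only [Finsupp.coe_add, Finsupp.coe_smul, Pi.add_apply, Pi.smul_apply, smul_eq_mul, h1]
    exact ⟨_, rfl⟩

/-- the auxiliary prime -/
theorem exists_prime {n : ℕ} (hn : n % 8 = 1) (hsq : ¬ IsSquare n) :
    ∃ p : ℕ, p.Prime ∧ p % 4 = 3 ∧ ¬ p ∣ n ∧ J(-(n : ℤ) | p) = 1 := by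
  have hn0 : n ≠ 0 := by omega
  obtain ⟨l, hl, hln, hodd⟩ := exists_odd_prime_factor hn0 hsq
  have hlf : Fact l.Prime := ⟨hl⟩
  have hnodd : Odd n := Nat.odd_iff.2 (by omega)
  have hl2 : l ≠ 2 := by
    rintro rfl
    have := hnodd.of_dvd_nat hln
    revert this
    decide
  set k := n.factorization l with hk
  set n' := n / l ^ k with hn'
  have hprod : l ^ k * n' = n := Nat.ordProj_mul_ordCompl_eq_self n l
  have hn'0 : n' ≠ 0 := by
    intro h0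
    rw [h0, mul_zero] at hprod
    exact hn0 hprod.symm
  have hcop : Nat.Coprime l n' := Nat.coprime_ordCompl hl hn0
  have hlodd : Odd l := hnodd.of_dvd_nat hln
  have hn'odd : Odd n' := hnodd.of_dvd_nat ⟨l ^ k, by rw [← hprod]; ring⟩
  have hl4 : Nat.Coprime l 4 := (Nat.coprime_two_right.2 hlodd).pow_right 2
  have hn'4 : Nat.Coprime n' 4 := (Nat.coprime_two_right.2 hn'odd).pow_right 2
  -- a nonresidue
  obtain ⟨u, hu⟩ := FiniteField.exists_nonsquare (F := ZMod l) (by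
    rw [ZMod.ringChar_zmod_n]; exact hl2)
  have hu0 : u ≠ 0 := by
    rintro rfl
    exact hu ⟨0, by simp⟩
  obtain ⟨c1, hc1, hc1'⟩ := Nat.chineseRemainder hcop u.val 1
  obtain ⟨c, hc2, hc3⟩ := Nat.chineseRemainder (Nat.Coprime.mul_left hl4 hn'4) c1 3
  have hcl : c ≡ u.val [MOD l] := (hc2.of_dvd (dvd_mul_right _ _)).trans hc1
  have hcn : c ≡ 1 [MOD n'] := (hc2.of_dvd (dvd_mul_left _ _)).trans hc1'
  have hccop : Nat.Coprime c (l * n' * 4) := by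
    apply Nat.Coprime.mul_right
    · apply Nat.Coprime.mul_right
      · rw [Nat.coprime_comm, hl.coprime_iff_not_dvd]
        intro h
        apply hu0
        have h1 : (c : ZMod l) = (u.val : ZMod l) := (ZMod.natCast_eq_natCast_iff _ _ _).2 hcl
        rw [ZMod.natCast_zmod_val, (ZMod.natCast_eq_zero_iff _ _).2 h] at h1
        exact h1.symm
      · rw [Nat.Coprime, hcn.gcd_eq]
        simp
    · rw [Nat.Coprime, hc3.gcd_eq]
      rfl
  have hq0 : l * n' * 4 ≠ 0 := mul_ne_zero (mul_ne_zero hl.ne_zero hn'0) (by norm_num)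
  have hqne : NeZero (l * n' * 4) := ⟨hq0⟩
  obtain ⟨p, hpn, hp, hpc⟩ := Nat.forall_exists_prime_gt_and_eq_mod
    ((ZMod.isUnit_iff_coprime c (l * n' * 4)).2 hccop) n
  have hpc' : p ≡ c [MOD (l * n' * 4)] := (ZMod.natCast_eq_natCast_iff _ _ _).1 hpc
  have hp4 : p % 4 = 3 := by
    have h1 : p ≡ 3 [MOD 4] := (hpc'.of_dvd (dvd_mul_left _ _)).trans hc3
    exact h1
  have hpl : p ≡ u.val [MOD l] := (hpc'.of_dvd ⟨n' * 4, by ring⟩).trans hcl
  have hpn' : p ≡ 1 [MOD n'] := (hpc'.of_dvd ⟨l * 4, by ring⟩).trans hcn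
  have hpodd : Odd p := Nat.odd_iff.2 (by omega)
  refine ⟨p, hp, hp4, fun h => by have := Nat.le_of_dvd (by omega) h; omega, ?_⟩
  rw [jacobiSym.neg _ hpodd, ZMod.χ₄_nat_three_mod_four hp4,
    jacobiSym.quadratic_reciprocity_one_mod_four (by omega) hpodd]
  have h1 : J((p : ℤ) | n) = J((p : ℤ) | l) ^ k * J((p : ℤ) | n') := by
    conv_lhs => rw [← hprod]
    have i1 : NeZero (l ^ k) := ⟨pow_ne_zero _ hl.ne_zero⟩
    have i2 : NeZero n' := ⟨hn'0⟩
    rw [jacobiSym.mul_right, jacobiSym.pow_right]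
  have h2 : J((p : ℤ) | l) = -1 := by
    rw [← jacobiSym.legendreSym.to_jacobiSym, legendreSym.eq_neg_one_iff]
    have h3 : ((p : ℤ) : ZMod l) = u := by
      rw [Int.cast_natCast, (ZMod.natCast_eq_natCast_iff _ _ _).2 hpl, ZMod.natCast_zmod_val]
    rw [h3]
    exact hu
  have h4 : J((p : ℤ) | n') = 1 := by
    rw [jacobiSym.mod_left' (a₂ := 1) (by
      have := hpn'
      rw [Nat.ModEq] at this
      exact_mod_cast this), jacobiSym.one_left]
  rw [h1, h2, h4, hodd.neg_one_pow]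
  norm_num

/-- the auxiliary residue -/
theorem exists_root {n p : ℕ} (hp : p.Prime) (hp4 : p % 4 = 3) (hpn : ¬ p ∣ n)
    (hJ : J(-(n : ℤ) | p) = 1) :
    ∃ b : ℤ, (p : ℤ) ∣ b ^ 2 + n ∧ ¬ ((p : ℤ) ^ 2 ∣ b ^ 2 + n) := by
  have hpf : Fact p.Prime := ⟨hp⟩
  have h1 := ZMod.isSquare_of_jacobiSym_eq_one hJ
  have h2 : ∃ b : ℤ, (p : ℤ) ∣ b ^ 2 + n := by
    obtain ⟨r, hr⟩ := h1
    refine ⟨(r.val : ℤ), ?_⟩
    rw [← ZMod.intCast_zmod_eq_zero_iff_dvd]
    push_cast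
    rw [ZMod.natCast_zmod_val]
    push_cast at hr
    rw [pow_two, ← hr]
    ring
  obtain ⟨b, hb⟩ := h2
  by_cases h : (p : ℤ) ^ 2 ∣ b ^ 2 + n
  · refine ⟨b + p, ?_, ?_⟩
    · have : (b + p) ^ 2 + n = (b ^ 2 + n) + p * (2 * b + p) := by ring
      rw [this]
      exact dvd_add hb (dvd_mul_right _ _)
    · intro h3
      have h4 : (p : ℤ) ^ 2 ∣ 2 * b * p := by
        have : 2 * b * p = ((b + p) ^ 2 + n) - (b ^ 2 + n) - (p : ℤ) ^ 2 := by ring
        rw [this]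
        exact dvd_sub (dvd_sub h3 h) (dvd_refl _)
      rw [pow_two] at h4
      have hp0 : (p : ℤ) ≠ 0 := by exact_mod_cast hp.ne_zero
      have h5 : (p : ℤ) ∣ 2 * b := Int.dvd_of_mul_dvd_mul_right hp0 h4
      have hpp : Prime (p : ℤ) := Nat.prime_iff_prime_int.1 hp
      rcases hpp.dvd_or_dvd h5 with h6 | h6
      · have h7 : p ∣ 2 := by exact_mod_cast h6
        have := Nat.le_of_dvd (by norm_num) h7
        have := hp.two_le
        have : p = 2 := by omega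
        omega
      · have h8 : (p : ℤ) ∣ n := by
          have : (n : ℤ) = (b ^ 2 + n) - b * b := by ring
          rw [this]
          exact dvd_sub hb (dvd_mul_of_dvd_left h6 _)
        exact hpn (by exact_mod_cast h8)
  · exact ⟨b, hb, h⟩

end prime

def L0 : List (ZMod 4 × ZMod 4 × ZMod 4) := [(1,0,0),(3,0,0),(0,1,0),(0,3,0),(0,0,1),(0,0,3)]
def L2 : List (ZMod 4 × ZMod 4 × ZMod 4) := [(1,2,2),(3,2,2),(2,1,2),(2,3,2),(2,2,1),(2,2,3)]

set_option maxRecDepth 100000 in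
theorem chk : ∀ a b c d : ZMod 4, a * a + b * b + c * c + d * d = 3 →
    ∀ L ∈ [L0, L2], ∀ y ∈ L, ∀ z ∈ L,
      ¬ (-b * y.1 - c * y.2.1 - d * y.2.2 = -z.1 * b - z.2.1 * c - z.2.2 * d ∧
        a * y.1 + c * y.2.2 - d * y.2.1 = z.1 * a + z.2.1 * d - z.2.2 * c ∧
        a * y.2.1 + d * y.1 - b * y.2.2 = z.2.1 * a + z.2.2 * b - z.1 * d ∧
        a * y.2.2 + b * y.2.1 - c * y.1 = z.2.2 * a + z.1 * c - z.2.1 * b) := by
  decide +kernel

/-- the class of a point -/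
def cl (r : ℤ) (y : ℤ × ℤ × ℤ) : Prop :=
  (y.1 % 2 = 1 ∧ y.2.1 % 4 = r ∧ y.2.2 % 4 = r) ∨
  (y.2.1 % 2 = 1 ∧ y.2.2 % 4 = r ∧ y.1 % 4 = r) ∨
  (y.2.2 % 2 = 1 ∧ y.1 % 4 = r ∧ y.2.1 % 4 = r)

theorem sq_mod (x : ℤ) : (x % 4 = 0 ∧ x ^ 2 % 8 = 0) ∨ (x % 4 = 1 ∧ x ^ 2 % 8 = 1) ∨
    (x % 4 = 2 ∧ x ^ 2 % 8 = 4) ∨ (x % 4 = 3 ∧ x ^ 2 % 8 = 1) := by
  obtain ⟨q, hq⟩ : ∃ q, q = x / 4 := ⟨_, rfl⟩
  obtain ⟨r, hr⟩ : ∃ r, r = x % 4 := ⟨_, rfl⟩
  have hx : x = 4 * q + r := by omega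
  have hr' : r = 0 ∨ r = 1 ∨ r = 2 ∨ r = 3 := by omega
  have hx2 : x ^ 2 = 16 * q ^ 2 + 8 * (q * r) + r ^ 2 := by rw [hx]; ring
  rw [← hr, hx2]
  rcases hr' with h | h | h | h <;> subst h <;> omega

theorem cl_or {n : ℕ} (hn : n % 8 = 1) {y : ℤ × ℤ × ℤ} (hy : y ∈ S3 n) : cl 0 y ∨ cl 2 y := by
  rw [mem_S3] at hy
  obtain ⟨y1, y2, y3⟩ := y
  simp only at hy
  have hn' : (n : ℤ) % 8 = 1 := by omega
  have hy' : (y1 ^ 2 % 8 + y2 ^ 2 % 8 + y3 ^ 2 % 8) % 8 = 1 := by omega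
  unfold cl
  simp only
  rcases sq_mod y1 with ⟨h1, k1⟩ | ⟨h1, k1⟩ | ⟨h1, k1⟩ | ⟨h1, k1⟩ <;>
  rcases sq_mod y2 with ⟨h2, k2⟩ | ⟨h2, k2⟩ | ⟨h2, k2⟩ | ⟨h2, k2⟩ <;>
  rcases sq_mod y3 with ⟨h3, k3⟩ | ⟨h3, k3⟩ | ⟨h3, k3⟩ | ⟨h3, k3⟩ <;>
  rw [k1, k2, k3] at hy' <;>
  first
  | (exfalso; revert hy'; decide)
  | exact Or.inl (Or.inl ⟨by omega, h2, h3⟩)
  | exact Or.inl (Or.inr (Or.inl ⟨by omega, h3, h1⟩))
  | exact Or.inl (Or.inr (Or.inr ⟨by omega, h1, h2⟩))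
  | exact Or.inr (Or.inl ⟨by omega, h2, h3⟩)
  | exact Or.inr (Or.inr (Or.inl ⟨by omega, h3, h1⟩))
  | exact Or.inr (Or.inr (Or.inr ⟨by omega, h1, h2⟩))

theorem cast_mod (x : ℤ) : (x : ZMod 4) = ((x % 4 : ℤ) : ZMod 4) := by
  exact (ZMod.intCast_mod x 4).symm

theorem cl_mem {r : ℤ} (hr : r = 0 ∨ r = 2) : ∃ L ∈ [L0, L2], ∀ y : ℤ × ℤ × ℤ, cl r y →
    ((y.1 : ZMod 4), (y.2.1 : ZMod 4), (y.2.2 : ZMod 4)) ∈ L := by
  have key : ∀ x : ℤ, x % 2 = 1 → x % 4 = 1 ∨ x % 4 = 3 := by intro x h; omega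
  rcases hr with rfl | rfl
  · refine ⟨L0, by simp, ?_⟩
    rintro ⟨y1, y2, y3⟩ h
    rw [cast_mod y1, cast_mod y2, cast_mod y3]
    rcases h with ⟨h1, h2, h3⟩ | ⟨h1, h2, h3⟩ | ⟨h1, h2, h3⟩ <;>
      simp only at h1 h2 h3 <;> rcases key _ h1 with h4 | h4 <;> rw [h2, h3, h4] <;> decide
  · refine ⟨L2, by simp, ?_⟩
    rintro ⟨y1, y2, y3⟩ h
    rw [cast_mod y1, cast_mod y2, cast_mod y3]
    rcases h with ⟨h1, h2, h3⟩ | ⟨h1, h2, h3⟩ | ⟨h1, h2, h3⟩ <;>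
      simp only at h1 h2 h3 <;> rcases key _ h1 with h4 | h4 <;> rw [h2, h3, h4] <;> decide

/-- quaternions by coordinates -/
def mkq (a b c d : ℤ) : ℍ[ℤ] := ⟨a, b, c, d⟩

@[simp] theorem mkq_re (a b c d : ℤ) : (mkq a b c d).re = a := rfl
@[simp] theorem mkq_imI (a b c d : ℤ) : (mkq a b c d).imI = b := rfl
@[simp] theorem mkq_imJ (a b c d : ℤ) : (mkq a b c d).imJ = c := rfl
@[simp] theorem mkq_imK (a b c d : ℤ) : (mkq a b c d).imK = d := rfl

/-- the class changes -/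
theorem cl_change {r : ℤ} (hr : r = 0 ∨ r = 2) {α : ℍ[ℤ]} (hα : Quaternion.normSq α % 4 = 3) (b : ℤ)
    {y z : ℤ × ℤ × ℤ} (h : α * mkq b y.1 y.2.1 y.2.2 = mkq b z.1 z.2.1 z.2.2 * α)
    (hy : cl r y) : ¬ cl r z := by
  intro hz
  obtain ⟨L, hL, hcl⟩ := cl_mem hr
  have hc := chk (α.re : ZMod 4) (α.imI : ZMod 4) (α.imJ : ZMod 4) (α.imK : ZMod 4) (by
    rw [Quaternion.normSq_def'] at hα
    have h1 : (((α.re ^ 2 + α.imI ^ 2 + α.imJ ^ 2 + α.imK ^ 2 : ℤ)) : ZMod 4) = ((3 : ℤ) : ZMod 4) := by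
      rw [← hα]
      exact (ZMod.intCast_mod _ 4).symm
    push_cast at h1
    rw [← h1]
    ring) L hL _ (hcl y hy) _ (hcl z hz)
  apply hc
  have e1 : (α * mkq b y.1 y.2.1 y.2.2).re = (mkq b z.1 z.2.1 z.2.2 * α).re := by rw [h]
  have e2 : (α * mkq b y.1 y.2.1 y.2.2).imI = (mkq b z.1 z.2.1 z.2.2 * α).imI := by rw [h]
  have e3 : (α * mkq b y.1 y.2.1 y.2.2).imJ = (mkq b z.1 z.2.1 z.2.2 * α).imJ := by rw [h]
  have e4 : (α * mkq b y.1 y.2.1 y.2.2).imK = (mkq b z.1 z.2.1 z.2.2 * α).imK := by rw [h]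
  simp only [Quaternion.re_mul, Quaternion.imI_mul, Quaternion.imJ_mul, Quaternion.imK_mul, mkq_re,
    mkq_imI, mkq_imJ, mkq_imK] at e1 e2 e3 e4
  have c1 := congrArg (Int.cast : ℤ → ZMod 4) e1
  have c2 := congrArg (Int.cast : ℤ → ZMod 4) e2
  have c3 := congrArg (Int.cast : ℤ → ZMod 4) e3
  have c4 := congrArg (Int.cast : ℤ → ZMod 4) e4
  push_cast at c1 c2 c3 c4
  refine ⟨?_, ?_, ?_, ?_⟩
  · linear_combination c1
  · linear_combination c2
  · linear_combination c3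
  · linear_combination c4

/-- uniqueness of the left divisor -/
theorem left_unique {p : ℕ} (hp : p.Prime) {η α β α₁ β₁ : ℍ[ℤ]} (h1 : η = α * β) (h2 : η = α₁ * β₁)
    (hα : Quaternion.normSq α = p) (hα₁ : Quaternion.normSq α₁ = p)
    (hη : ¬ (p : ℤ) ^ 2 ∣ Quaternion.normSq η) :
    ∃ ε : ℍ[ℤ], Quaternion.normSq ε = 1 ∧ α = α₁ * ε := by
  have hpp : Prime (p : ℤ) := Nat.prime_iff_prime_int.1 hp
  have hp0 : (p : ℤ) ≠ 0 := hpp.ne_zero
  have hβ : ¬ (p : ℤ) ∣ Quaternion.normSq β := by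
    intro h
    apply hη
    rw [h1, map_mul, hα, pow_two]
    exact mul_dvd_mul_left _ h
  have e1 : star α₁ * α * β = (p : ℤ) • β₁ := by
    rw [mul_assoc, ← h1, h2, ← mul_assoc, Quaternion.star_mul_self, hα₁]
    ext <;> simp
  have e2 : (Quaternion.normSq β) • (star α₁ * α) = (p : ℤ) • (β₁ * star β) := by
    have h3 : star α₁ * α * β * star β = (p : ℤ) • (β₁ * star β) := by
      rw [e1, smul_mul_assoc]
    rw [← h3, mul_assoc, Quaternion.self_mul_star]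
    ext <;> simp <;> ring
  have key : ∀ x w : ℤ, Quaternion.normSq β * x = p * w → ∃ t, x = p * t := by
    intro x w h
    have h4 : (p : ℤ) ∣ Quaternion.normSq β * x := ⟨w, h⟩
    exact (hpp.dvd_or_dvd h4).resolve_left hβ
  obtain ⟨t1, ht1⟩ := key _ _ (congrArg QuaternionAlgebra.re e2)
  obtain ⟨t2, ht2⟩ := key _ _ (congrArg QuaternionAlgebra.imI e2)
  obtain ⟨t3, ht3⟩ := key _ _ (congrArg QuaternionAlgebra.imJ e2)
  obtain ⟨t4, ht4⟩ := key _ _ (congrArg QuaternionAlgebra.imK e2)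
  have e3 : star α₁ * α = (p : ℤ) • mkq t1 t2 t3 t4 := by
    ext
    · exact ht1
    · exact ht2
    · exact ht3
    · exact ht4
  have e4 : (p : ℤ) • α = (p : ℤ) • (α₁ * mkq t1 t2 t3 t4) := by
    have h5 : α₁ * (star α₁ * α) = (p : ℤ) • α := by
      rw [← mul_assoc, Quaternion.self_mul_star, hα₁]
      ext <;> simp
    rw [← h5, e3, mul_smul_comm]
  have e5 : α = α₁ * mkq t1 t2 t3 t4 := smul_right_injective ℍ[ℤ] hp0 e4
  refine ⟨mkq t1 t2 t3 t4, ?_, e5⟩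
  have h6 := congrArg Quaternion.normSq e5
  rw [map_mul, hα, hα₁] at h6
  exact (mul_right_injective₀ hp0 (by simpa using h6)).symm

/-- the units -/
noncomputable def UU : Finset (ℤ × ℤ × ℤ × ℤ) :=
  ((Finset.Icc (-1) 1) ×ˢ ((Finset.Icc (-1) 1) ×ˢ ((Finset.Icc (-1) 1) ×ˢ (Finset.Icc (-1) 1)))).filter
    (fun x => x.1 ^ 2 + x.2.1 ^ 2 + x.2.2.1 ^ 2 + x.2.2.2 ^ 2 = 1)

theorem UU_card : UU.card = 8 := by
  unfold UU
  decide +kernel

theorem mem_UU {ε : ℍ[ℤ]} (h : Quaternion.normSq ε = 1) : (ε.re, ε.imI, ε.imJ, ε.imK) ∈ UU := by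
  rw [Quaternion.normSq_def'] at h
  unfold UU
  simp only [Finset.mem_filter, Finset.mem_product, Finset.mem_Icc]
  have key : ∀ a b c d : ℤ, a ^ 2 + b ^ 2 + c ^ 2 + d ^ 2 = 1 → -1 ≤ a ∧ a ≤ 1 := by
    intro a b c d h
    have h1 : a ^ 2 ≤ 1 := by nlinarith [sq_nonneg b, sq_nonneg c, sq_nonneg d]
    constructor <;> nlinarith
  exact ⟨⟨key _ _ _ _ h, key _ ε.re ε.imJ ε.imK (by linarith), key _ ε.re ε.imI ε.imK (by linarith),
    key _ ε.re ε.imI ε.imJ (by linarith)⟩, h⟩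

end B6

namespace B6

open Classical in
/-- the comparison of the classes -/
theorem compare {n : ℕ} (hn : n % 8 = 1) (hsq : ¬ IsSquare n) {r r' : ℤ}
    (hr : (r = 0 ∧ r' = 2) ∨ (r = 2 ∧ r' = 0)) :
    ((S3 n).filter (cl r)).card ≤ 8 * ((S3 n).filter (cl r')).card := by
  obtain ⟨p, hp, hp4, hpn, hJ⟩ := exists_prime hn hsq
  obtain ⟨b, hb1, hb2⟩ := exists_root hp hp4 hpn hJ
  have hpodd : Odd p := Nat.odd_iff.2 (by omega)
  have hr0 : r = 0 ∨ r = 2 := by omega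
  have hnorm : ∀ y ∈ S3 n, Quaternion.normSq (mkq b y.1 y.2.1 y.2.2) = b ^ 2 + n := by
    intro y hy
    rw [mem_S3] at hy
    rw [Quaternion.normSq_def', ← hy]
    simp only [mkq_re, mkq_imI, mkq_imJ, mkq_imK]
    ring
  have hex : ∀ y : ℤ × ℤ × ℤ, ∃ α β : ℍ[ℤ], y ∈ S3 n → Quaternion.normSq α = p ∧
      (mkq b y.1 y.2.1 y.2.2) = β * α := by
    intro y
    by_cases hy : y ∈ S3 n
    · obtain ⟨α, β, h1, h2⟩ := right_div p hpodd (mkq b y.1 y.2.1 y.2.2) (by rw [hnorm y hy]; exact hb1)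
      exact ⟨α, β, fun _ => ⟨h1, h2⟩⟩
    · exact ⟨0, 0, fun h => absurd h hy⟩
  choose A B hAB using hex
  let f : ℤ × ℤ × ℤ → ℤ × ℤ × ℤ := fun y => ((A y * B y).imI, (A y * B y).imJ, (A y * B y).imK)
  have hf1 : ∀ y ∈ S3 n, mkq b (f y).1 (f y).2.1 (f y).2.2 = A y * B y := by
    intro y hy
    obtain ⟨h1, h2⟩ := hAB y hy
    have h3 : (A y * B y).re = b := by
      have h4 : (B y * A y).re = b := by rw [← h2, mkq_re]
      rw [← h4, Quaternion.re_mul, Quaternion.re_mul]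
      ring
    ext
    · exact h3.symm
    · rfl
    · rfl
    · rfl
  have hf2 : ∀ y ∈ S3 n, f y ∈ S3 n := by
    intro y hy
    obtain ⟨h1, h2⟩ := hAB y hy
    have h3 : Quaternion.normSq (A y * B y) = b ^ 2 + n := by
      rw [← hnorm y hy, h2, map_mul, map_mul, mul_comm]
    rw [← hf1 y hy, Quaternion.normSq_def'] at h3
    rw [mem_S3]
    simp only [mkq_re, mkq_imI, mkq_imJ, mkq_imK] at h3
    linarith
  have hf3 : ∀ y ∈ S3 n, A y * mkq b y.1 y.2.1 y.2.2 =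
      mkq b (f y).1 (f y).2.1 (f y).2.2 * A y := by
    intro y hy
    rw [hf1 y hy, (hAB y hy).2, mul_assoc]
  apply Finset.card_le_mul_card_image_of_maps_to (f := f)
  · intro y hy
    rw [Finset.mem_filter] at hy ⊢
    refine ⟨hf2 y hy.1, ?_⟩
    have h1 := cl_change hr0 (α := A y) (by rw [(hAB y hy.1).1]; omega) b (hf3 y hy.1) hy.2
    have h2 := cl_or hn (hf2 y hy.1)
    rcases hr with ⟨hr1, hr2⟩ | ⟨hr1, hr2⟩
    · rw [hr1] at h1
      rw [hr2]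
      exact h2.resolve_left h1
    · rw [hr1] at h1
      rw [hr2]
      exact h2.resolve_right h1
  · intro z _
    rcases Finset.eq_empty_or_nonempty
      ((Finset.filter (cl r) (S3 n)).filter (fun a => f a = z)) with h0 | ⟨y₁, hy₁⟩
    · rw [h0]; simp
    · rw [Finset.mem_filter, Finset.mem_filter] at hy₁
      obtain ⟨⟨hy1, -⟩, hz1⟩ := hy₁
      have hun : ∀ y : ℤ × ℤ × ℤ, ∃ ε : ℍ[ℤ], y ∈ S3 n → f y = z →
          Quaternion.normSq ε = 1 ∧ A y = A y₁ * ε := by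
        intro y
        by_cases h : y ∈ S3 n ∧ f y = z
        · obtain ⟨ε, h1, h2⟩ := left_unique hp (hf1 y h.1) (β₁ := B y₁) (α₁ := A y₁) (by
            rw [← hf1 y₁ hy1, h.2, hz1]) (hAB y h.1).1 (hAB y₁ hy1).1 (by
            rw [hnorm _ (hf2 y h.1)]
            exact hb2)
          exact ⟨ε, fun _ _ => ⟨h1, h2⟩⟩
        · exact ⟨0, fun h1 h2 => absurd ⟨h1, h2⟩ h⟩
      choose e he using hun
      rw [← UU_card]
      refine Finset.card_le_card_of_injOn (fun y => ((e y).re, (e y).imI, (e y).imJ, (e y).imK)) ?_ ?_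
      · intro y hy
        rw [Finset.mem_coe, Finset.mem_filter, Finset.mem_filter] at hy
        exact mem_UU (he y hy.1.1 hy.2).1
      · intro y hy y' hy' hee
        rw [Finset.mem_coe, Finset.mem_filter, Finset.mem_filter] at hy hy'
        simp only [Prod.mk.injEq] at hee
        have h1 : e y = e y' := by
          ext
          · exact hee.1
          · exact hee.2.1
          · exact hee.2.2.1
          · exact hee.2.2.2
        have h2 : A y = A y' := by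
          rw [(he y hy.1.1 hy.2).2, (he y' hy'.1.1 hy'.2).2, h1]
        have h3 := hf3 y hy.1.1
        have h4 := hf3 y' hy'.1.1
        rw [hy.2] at h3
        rw [hy'.2, ← h2, ← h3] at h4
        have hA0 : A y ≠ 0 := by
          intro h5
          have h6 := (hAB y hy.1.1).1
          rw [h5, map_zero] at h6
          have : (p : ℤ) ≠ 0 := by exact_mod_cast hp.ne_zero
          exact this h6.symm
        have h7 := mul_left_cancel₀ hA0 h4
        have i1 : (mkq b y'.1 y'.2.1 y'.2.2).imI = (mkq b y.1 y.2.1 y.2.2).imI := by rw [h7]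
        have i2 : (mkq b y'.1 y'.2.1 y'.2.2).imJ = (mkq b y.1 y.2.1 y.2.2).imJ := by rw [h7]
        have i3 : (mkq b y'.1 y'.2.1 y'.2.2).imK = (mkq b y.1 y.2.1 y.2.2).imK := by rw [h7]
        simp only [mkq_imI, mkq_imJ, mkq_imK] at i1 i2 i3
        exact Prod.ext i1.symm (Prod.ext i2.symm i3.symm)

open Classical in
theorem cl_card (n : ℕ) (r : ℤ) : ((S3 n).filter (cl r)).card ≤ 3 * ((S3 n).filter
      (fun y => y.1 % 2 = 1 ∧ y.2.1 % 4 = r ∧ y.2.2 % 4 = r)).card := by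
  set T := (S3 n).filter (fun y => y.1 % 2 = 1 ∧ y.2.1 % 4 = r ∧ y.2.2 % 4 = r) with hT
  have hsub : (S3 n).filter (cl r) ⊆ T ∪ (T.image (fun x => (x.2.2, x.1, x.2.1)) ∪
      T.image (fun x => (x.2.1, x.2.2, x.1))) := by
    rintro ⟨y1, y2, y3⟩ hy
    rw [Finset.mem_filter, mem_S3] at hy
    obtain ⟨h0, h⟩ := hy
    simp only at h0
    rw [Finset.mem_union, Finset.mem_union, Finset.mem_image, Finset.mem_image]
    rcases h with h | h | h
    · left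
      rw [hT, Finset.mem_filter, mem_S3]
      exact ⟨h0, h⟩
    · right; left
      refine ⟨(y2, y3, y1), ?_, rfl⟩
      rw [hT, Finset.mem_filter, mem_S3]
      simp only at h ⊢
      exact ⟨by linarith, h⟩
    · right; right
      refine ⟨(y3, y1, y2), ?_, rfl⟩
      rw [hT, Finset.mem_filter, mem_S3]
      simp only at h ⊢
      exact ⟨by linarith, h⟩
  have h1 := Finset.card_le_card hsub
  have h2 := Finset.card_union_le T (T.image (fun x => (x.2.2, x.1, x.2.1)) ∪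
      T.image (fun x => (x.2.1, x.2.2, x.1)))
  have h3 := Finset.card_union_le (T.image (fun x => (x.2.2, x.1, x.2.1)))
      (T.image (fun x => (x.2.1, x.2.2, x.1)))
  have h4 : (T.image (fun x => (x.2.2, x.1, x.2.1))).card ≤ T.card := Finset.card_image_le
  have h5 : (T.image (fun x => (x.2.1, x.2.2, x.1))).card ≤ T.card := Finset.card_image_le
  omega

open Classical in
theorem S3_card {n : ℕ} (hn : n % 8 = 1) (hsq : ¬ IsSquare n) {r r' : ℤ}
    (hr : (r = 0 ∧ r' = 2) ∨ (r = 2 ∧ r' = 0)) :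
    (S3 n).card ≤ 9 * ((S3 n).filter (cl r)).card := by
  have h1 : (S3 n) ⊆ (S3 n).filter (cl r) ∪ (S3 n).filter (cl r') := by
    intro y hy
    rw [Finset.mem_union, Finset.mem_filter, Finset.mem_filter]
    have h0 := cl_or hn hy
    rcases hr with ⟨rfl, rfl⟩ | ⟨rfl, rfl⟩
    · rcases h0 with h0 | h0
      · exact Or.inl ⟨hy, h0⟩
      · exact Or.inr ⟨hy, h0⟩
    · rcases h0 with h0 | h0
      · exact Or.inr ⟨hy, h0⟩
      · exact Or.inl ⟨hy, h0⟩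
  have h2 := Finset.card_le_card h1
  have h3 := Finset.card_union_le ((S3 n).filter (cl r)) ((S3 n).filter (cl r'))
  have h4 := compare hn hsq (r := r') (r' := r) (hr.symm.imp And.symm And.symm)
  omega

end B6

/-- TARGET -/
theorem class_lower : ∃ C : ℝ, 0 < C ∧ ∀ n : ℕ, n % 8 = 1 → ¬ IsSquare n → ∀ r : ℤ, r = 0 ∨ r = 2 →
    ((S3 n).card : ℝ) ≤ C * (((S3 n).filter
      (fun y => y.1 % 2 = 1 ∧ y.2.1 % 4 = r ∧ y.2.2 % 4 = r)).card : ℝ) := by
  refine ⟨27, by norm_num, fun n hn hsq r hr => ?_⟩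
  have h1 : (S3 n).card ≤ 27 * ((S3 n).filter
      (fun y => y.1 % 2 = 1 ∧ y.2.1 % 4 = r ∧ y.2.2 % 4 = r)).card := by
    have h2 := B6.cl_card n r
    rcases hr with rfl | rfl
    · have h3 := B6.S3_card hn hsq (r := 0) (r' := 2) (Or.inl ⟨rfl, rfl⟩)
      omega
    · have h3 := B6.S3_card hn hsq (r := 2) (r' := 0) (Or.inr ⟨rfl, rfl⟩)
      omega
  exact_mod_cast h1

end Pool.Agent.H978V
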