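import Pool.Agent.H978V.Ar

set_option autoImplicit false

namespace Pool.Agent.H978V

/-- cross product -/
def cp (y z : ℤ × ℤ × ℤ) : ℤ × ℤ × ℤ :=
  (y.2.1 * z.2.2 - y.2.2 * z.2.1, y.2.2 * z.1 - y.1 * z.2.2, y.1 * z.2.1 - y.2.1 * z.1)

namespace B7

/-- linear combination -/
def cmb (a b c : ℤ) (x y z : ℤ × ℤ × ℤ) : ℤ × ℤ × ℤ :=
  (a * x.1 + b * y.1 + c * z.1, a * x.2.1 + b * y.2.1 + c * z.2.1,
    a * x.2.2 + b * y.2.2 + c * z.2.2)

theorem dt_cmb (a b c : ℤ) (x y z : ℤ × ℤ × ℤ) : dt (cmb a b c x y z) (cmb a b c x y z) =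
    a ^ 2 * dt x x + b ^ 2 * dt y y + c ^ 2 * dt z z + 2 * a * b * dt x y + 2 * a * c * dt z x +
      2 * b * c * dt z y := by
  simp only [dt, cmb]; ring

theorem lagrange (l m : ℤ × ℤ × ℤ) :
    dt (cp l m) (cp l m) = dt l l * dt m m - dt l m ^ 2 := by
  simp only [dt, cp]; ring

theorem gram (l m z : ℤ × ℤ × ℤ) : dt z (cp l m) ^ 2 =
    (dt l l * dt m m - dt l m ^ 2) * dt z z - (dt m m * dt z l ^ 2 - 2 * dt l m * dt z l * dt z m +
      dt l l * dt z m ^ 2) := by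
  simp only [dt, cp]; ring

theorem bez (w : ℤ × ℤ × ℤ) (h : Int.gcd (Int.gcd w.1 w.2.1) w.2.2 = 1) :
    ∃ z : ℤ × ℤ × ℤ, dt z w = 1 := by
  have h1 := Int.gcd_eq_gcd_ab w.1 w.2.1
  have h2 := Int.gcd_eq_gcd_ab (Int.gcd w.1 w.2.1) w.2.2
  rw [h] at h2
  refine ⟨(Int.gcdA w.1 w.2.1 * Int.gcdA (Int.gcd w.1 w.2.1) w.2.2,
    Int.gcdB w.1 w.2.1 * Int.gcdA (Int.gcd w.1 w.2.1) w.2.2,
    Int.gcdB (Int.gcd w.1 w.2.1) w.2.2), ?_⟩
  simp only [dt]
  push_cast at h2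
  linear_combination -h2 - (Int.gcdA (Int.gcd w.1 w.2.1) w.2.2) * h1

theorem ne_zero_of_gcd (w : ℤ × ℤ × ℤ) (h : Int.gcd (Int.gcd w.1 w.2.1) w.2.2 = 1) :
    0 < dt w w := by
  have h0 : 0 ≤ dt w w := by
    simp only [dt]; nlinarith [mul_self_nonneg w.1, mul_self_nonneg w.2.1, mul_self_nonneg w.2.2]
  rcases h0.lt_or_eq with h1 | h1
  · exact h1
  · exfalso
    obtain ⟨z, hz⟩ := bez w h
    simp only [dt] at h1 hz
    have a1 : w.1 = 0 := by
      nlinarith [mul_self_nonneg w.1, mul_self_nonneg w.2.1, mul_self_nonneg w.2.2]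
    have a2 : w.2.1 = 0 := by
      nlinarith [mul_self_nonneg w.1, mul_self_nonneg w.2.1, mul_self_nonneg w.2.2]
    have a3 : w.2.2 = 0 := by
      nlinarith [mul_self_nonneg w.1, mul_self_nonneg w.2.1, mul_self_nonneg w.2.2]
    rw [a1, a2, a3] at hz
    simp at hz

/-- the unit vectors -/
def U : Finset (ℤ × ℤ × ℤ) :=
  {(1, 0, 0), (-1, 0, 0), (0, 1, 0), (0, -1, 0), (0, 0, 1), (0, 0, -1)}

theorem mem_U {v : ℤ × ℤ × ℤ} (h : dt v v = 1) : v ∈ U := by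
  obtain ⟨a, b, c⟩ := v
  simp only [dt] at h
  have ha : -1 ≤ a ∧ a ≤ 1 := by constructor <;> nlinarith [mul_self_nonneg b, mul_self_nonneg c]
  have hb : -1 ≤ b ∧ b ≤ 1 := by constructor <;> nlinarith [mul_self_nonneg a, mul_self_nonneg c]
  have hc : -1 ≤ c ∧ c ≤ 1 := by constructor <;> nlinarith [mul_self_nonneg a, mul_self_nonneg b]
  obtain ⟨ha1, ha2⟩ := ha
  obtain ⟨hb1, hb2⟩ := hb
  obtain ⟨hc1, hc2⟩ := hc
  interval_cases a <;> interval_cases b <;> interval_cases c <;> simp_all [U]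

theorem key_dvd (D c c' : ℤ) (hD : 0 < D) (h1 : D ∣ c ^ 2 - 1) (h2 : D ∣ c' ^ 2 - 1)
    (hg : Int.gcd (c - 1) D = Int.gcd (c' - 1) D) : D ∣ 2 * (c - c') := by
  have aux : ∀ x : ℤ, D ∣ x ^ 2 - 1 → ∃ h : ℤ, D = Int.gcd (x - 1) D * h ∧ h ∣ x + 1 := by
    intro x hx
    have hgpos : 0 < Int.gcd (x - 1) D := Int.gcd_pos_of_ne_zero_right _ hD.ne'
    have hgne : ((Int.gcd (x - 1) D : ℕ) : ℤ) ≠ 0 := by exact_mod_cast hgpos.ne'
    obtain ⟨h, hh⟩ : ((Int.gcd (x - 1) D : ℕ) : ℤ) ∣ D := Int.gcd_dvd_right _ _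
    obtain ⟨k, hk⟩ : ((Int.gcd (x - 1) D : ℕ) : ℤ) ∣ x - 1 := Int.gcd_dvd_left _ _
    refine ⟨h, hh, ?_⟩
    have hcop : IsCoprime h k := by
      have hb := Int.gcd_eq_gcd_ab (x - 1) D
      refine ⟨Int.gcdB (x - 1) D, Int.gcdA (x - 1) D, ?_⟩
      apply mul_left_cancel₀ hgne
      calc ((Int.gcd (x - 1) D : ℕ) : ℤ) * (Int.gcdB (x - 1) D * h + Int.gcdA (x - 1) D * k)
          = (((Int.gcd (x - 1) D : ℕ) : ℤ) * k) * Int.gcdA (x - 1) D +
            (((Int.gcd (x - 1) D : ℕ) : ℤ) * h) * Int.gcdB (x - 1) D := by ring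
        _ = (x - 1) * Int.gcdA (x - 1) D + D * Int.gcdB (x - 1) D := by rw [← hk, ← hh]
        _ = ((Int.gcd (x - 1) D : ℕ) : ℤ) * 1 := by rw [← hb, mul_one]
    obtain ⟨r, hr⟩ := hx
    have h3 : k * (x + 1) = h * r := by
      apply mul_left_cancel₀ hgne
      calc ((Int.gcd (x - 1) D : ℕ) : ℤ) * (k * (x + 1))
          = (((Int.gcd (x - 1) D : ℕ) : ℤ) * k) * (x + 1) := by ring
        _ = x ^ 2 - 1 := by rw [← hk]; ring
        _ = (((Int.gcd (x - 1) D : ℕ) : ℤ) * h) * r := by rw [← hh]; exact hr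
        _ = _ := by ring
    exact hcop.dvd_of_dvd_mul_left ⟨r, h3⟩
  obtain ⟨h, hh1, hh2⟩ := aux c h1
  obtain ⟨h', hh1', hh2'⟩ := aux c' h2
  have hgpos : 0 < Int.gcd (c - 1) D := Int.gcd_pos_of_ne_zero_right _ hD.ne'
  have hgne : ((Int.gcd (c - 1) D : ℕ) : ℤ) ≠ 0 := by exact_mod_cast hgpos.ne'
  have hhe : h = h' := by
    apply mul_left_cancel₀ hgne
    rw [← hh1, hg, ← hh1']
  subst hhe
  have hg1 : ((Int.gcd (c - 1) D : ℕ) : ℤ) ∣ c - 1 := Int.gcd_dvd_left _ _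
  have hg2 : ((Int.gcd (c - 1) D : ℕ) : ℤ) ∣ c' - 1 := by rw [hg]; exact Int.gcd_dvd_left _ _
  set g : ℤ := ((Int.gcd (c - 1) D : ℕ) : ℤ) with hgdef
  have hgd : g ∣ c - c' := by
    have := dvd_sub hg1 hg2
    rwa [show c - 1 - (c' - 1) = c - c' by ring] at this
  have hhd : h ∣ c - c' := by
    have := dvd_sub hh2 hh2'
    rwa [show c + 1 - (c' + 1) = c - c' by ring] at this
  obtain ⟨u, hu⟩ := hh2
  obtain ⟨v, hv⟩ := hg1
  have e1 : 2 * (c - c') = (h * (c - c')) * u - (g * (c - c')) * v := by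
    have : (2 : ℤ) = h * u - g * v := by linear_combination hu - hv
    calc 2 * (c - c') = (h * u - g * v) * (c - c') := by rw [← this]
      _ = _ := by ring
  rw [e1, hh1]
  apply dvd_sub
  · apply Dvd.dvd.mul_right
    rw [mul_comm g h]
    exact mul_dvd_mul_left h hgd
  · apply Dvd.dvd.mul_right
    exact mul_dvd_mul_left g hhd

/-- the residues with square one -/
def R1 (D : ℕ) : Finset ℕ := (Finset.range D).filter (fun c : ℕ => (D : ℤ) ∣ (c : ℤ) ^ 2 - 1)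

theorem card_R1 (D : ℕ) (hD : 0 < D) : (R1 D).card ≤ 2 * D.divisors.card := by
  have hDz : (0 : ℤ) < D := by exact_mod_cast hD
  apply Finset.card_le_mul_card_image_of_maps_to (f := fun c : ℕ => Int.gcd ((c : ℤ) - 1) D)
  · intro c _
    rw [Nat.mem_divisors]
    refine ⟨?_, hD.ne'⟩
    have := Int.gcd_dvd_right ((c : ℤ) - 1) D
    exact_mod_cast this
  · intro g _
    set S := (R1 D).filter (fun c : ℕ => Int.gcd ((c : ℤ) - 1) D = g) with hS
    rcases S.eq_empty_or_nonempty with h0 | hne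
    · rw [h0]; simp
    · have hsub : S ⊆ {S.min' hne, S.min' hne + D / 2} := by
        intro c hc
        have hmin := Finset.min'_mem S hne
        have hle := Finset.min'_le S c hc
        set c₀ := S.min' hne with hc₀
        rw [hS, Finset.mem_filter, R1, Finset.mem_filter, Finset.mem_range] at hc hmin
        have hd := key_dvd D c c₀ hDz hc.1.2 hmin.1.2 (by rw [hc.2, hmin.2])
        obtain ⟨k, hk⟩ := hd
        have h1 : (c : ℤ) < D := by exact_mod_cast hc.1.1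
        have h2 : (c₀ : ℤ) ≤ c := by exact_mod_cast hle
        have h3 : (0 : ℤ) ≤ c₀ := by positivity
        have hk0 : 0 ≤ k := by
          by_contra hneg
          push Not at hneg
          nlinarith
        have hk2 : k < 2 := by
          by_contra hbig
          push Not at hbig
          nlinarith
        rw [Finset.mem_insert, Finset.mem_singleton]
        interval_cases k
        · left; omega
        · right; omega
      exact (Finset.card_le_card hsub).trans Finset.card_le_two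

end B7

open B7

/-- TARGET -/
theorem saturated_le (A B C : ℤ) (F : Finset ((ℤ × ℤ × ℤ) × (ℤ × ℤ × ℤ)))
    (hF : ∀ p ∈ F, dt p.1 p.1 = A ∧ dt p.1 p.2 = B ∧ dt p.2 p.2 = C ∧
      Int.gcd (Int.gcd (cp p.1 p.2).1 (cp p.1 p.2).2.1) (cp p.1 p.2).2.2 = 1) :
    F.card ≤ 432 * (A * C - B ^ 2).natAbs.divisors.card := by
  classical
  rcases F.eq_empty_or_nonempty with h0 | ⟨q₀, hq₀⟩
  · rw [h0]; simp
  have hbez : ∀ q ∈ F, ∃ z : ℤ × ℤ × ℤ, dt z (cp q.1 q.2) = 1 := fun q hq => bez _ (hF q hq).2.2.2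
  choose! z hz using hbez
  set D : ℤ := A * C - B ^ 2 with hDdef
  have hDpos : 0 < D := by
    obtain ⟨h1, h2, h3, h4⟩ := hF q₀ hq₀
    have h5 := ne_zero_of_gcd _ h4
    rw [lagrange, h1, h2, h3] at h5
    exact h5
  have hDn : ((D.natAbs : ℕ) : ℤ) = D := Int.natAbs_of_nonneg hDpos.le
  have hDnpos : 0 < D.natAbs := by omega
  -- the Gram identity
  have hG : ∀ q ∈ F, D * dt (z q) (z q) - (C * dt (z q) q.1 ^ 2 -
      2 * B * dt (z q) q.1 * dt (z q) q.2 + A * dt (z q) q.2 ^ 2) = 1 := by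
    intro q hq
    obtain ⟨h1, h2, h3, h4⟩ := hF q hq
    have h5 := gram q.1 q.2 (z q)
    rw [hz q hq, h1, h2, h3] at h5
    rw [hDdef]; linear_combination -h5
  set p₁ : ℤ := dt (z q₀) q₀.1 with hp₁
  set p₂ : ℤ := dt (z q₀) q₀.2 with hp₂
  set Z₀ : ℤ := dt (z q₀) (z q₀) with hZ₀
  have hG0 : D * Z₀ - (C * p₁ ^ 2 - 2 * B * p₁ * p₂ + A * p₂ ^ 2) = 1 := hG q₀ hq₀
  set cc : (ℤ × ℤ × ℤ) × (ℤ × ℤ × ℤ) → ℤ := fun q =>
    -(dt (z q) q.1 * (C * p₁ - B * p₂) + dt (z q) q.2 * (A * p₂ - B * p₁)) with hcc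
  have hsq : ∀ q ∈ F, D ∣ cc q ^ 2 - 1 := by
    intro q hq
    have h1 := hG q hq
    refine ⟨D * dt (z q) (z q) * Z₀ - dt (z q) (z q) - Z₀ -
      (dt (z q) q.1 * p₂ - dt (z q) q.2 * p₁) ^ 2, ?_⟩
    simp only [hcc]
    set a := dt (z q) q.1
    set b := dt (z q) q.2
    set Zq := dt (z q) (z q)
    have e1 : (C * a ^ 2 - 2 * B * a * b + A * b ^ 2) = D * Zq - 1 := by linear_combination -h1
    have e2 : (C * p₁ ^ 2 - 2 * B * p₁ * p₂ + A * p₂ ^ 2) = D * Z₀ - 1 := by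
      linear_combination -hG0
    have e3 : (-(a * (C * p₁ - B * p₂) + b * (A * p₂ - B * p₁))) ^ 2 =
        (C * a ^ 2 - 2 * B * a * b + A * b ^ 2) * (C * p₁ ^ 2 - 2 * B * p₁ * p₂ + A * p₂ ^ 2) -
          D * (a * p₂ - b * p₁) ^ 2 := by
      rw [hDdef]; ring
    rw [e3, e1, e2]; ring
  -- splitting
  have hsplit : ∀ a b : ℤ, ∃ s₁ s₂ : ℤ,
      a = -(a * (C * p₁ - B * p₂) + b * (A * p₂ - B * p₁)) * p₁ + A * s₁ + B * s₂ ∧
      b = -(a * (C * p₁ - B * p₂) + b * (A * p₂ - B * p₁)) * p₂ + B * s₁ + C * s₂ := by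
    intro a b
    refine ⟨a * (C * Z₀ - p₂ ^ 2) + b * (p₁ * p₂ - B * Z₀),
      a * (p₁ * p₂ - B * Z₀) + b * (A * Z₀ - p₁ ^ 2), ?_, ?_⟩
    · rw [hDdef] at hG0; linear_combination (-a) * hG0
    · rw [hDdef] at hG0; linear_combination (-b) * hG0
  -- the map to residues
  set f : (ℤ × ℤ × ℤ) × (ℤ × ℤ × ℤ) → ℕ := fun q => (cc q % D).toNat with hf
  have hfD : ∀ q, ((f q : ℕ) : ℤ) = cc q % D := fun q => by
    rw [hf]; exact Int.toNat_of_nonneg (Int.emod_nonneg _ hDpos.ne')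
  have hmaps : ∀ q ∈ F, f q ∈ R1 D.natAbs := by
    intro q hq
    rw [R1, Finset.mem_filter, Finset.mem_range, hDn]
    constructor
    · have h1 := Int.emod_lt_of_pos (cc q) hDpos
      have h2 := hfD q
      omega
    · rw [hfD]
      have h1 : D ∣ cc q % D - cc q := by
        refine ⟨-(cc q / D), ?_⟩
        have := Int.emod_add_mul_ediv (cc q) D
        linear_combination this
      have h2 := hsq q hq
      have h3 : (cc q % D) ^ 2 - 1 = (cc q % D - cc q) * (cc q % D + cc q) + (cc q ^ 2 - 1) := by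
        ring
      rw [h3]
      exact dvd_add (Dvd.dvd.mul_right h1 _) h2
  have hfib : ∀ r ∈ R1 D.natAbs, (F.filter (fun q => f q = r)).card ≤ 216 := by
    intro r _
    rcases (F.filter (fun q => f q = r)).eq_empty_or_nonempty with h0 | ⟨q₁, hq₁⟩
    · rw [h0]; simp
    rw [Finset.mem_filter] at hq₁
    obtain ⟨hq₁F, hq₁r⟩ := hq₁
    -- the adjusted third vector
    have hadj : ∀ q ∈ F.filter (fun q => f q = r), ∃ ζ : ℤ × ℤ × ℤ, dt ζ (cp q.1 q.2) = 1 ∧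
        dt ζ q.1 = dt (z q₁) q₁.1 ∧ dt ζ q.2 = dt (z q₁) q₁.2 ∧ dt ζ ζ = dt (z q₁) (z q₁) := by
      intro q hq
      rw [Finset.mem_filter] at hq
      obtain ⟨hqF, hqr⟩ := hq
      obtain ⟨h1, h2, h3, h4⟩ := hF q hqF
      have hmod : D ∣ cc q₁ - cc q := by
        have e1 : cc q₁ % D = cc q % D := by rw [← hfD, ← hfD, hq₁r, hqr]
        exact Int.ModEq.dvd (show cc q ≡ cc q₁ [ZMOD D] from e1.symm)
      obtain ⟨k, hk⟩ := hmod
      obtain ⟨s₁, s₂, hs1, hs2⟩ := hsplit (dt (z q₁) q₁.1) (dt (z q₁) q₁.2)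
      obtain ⟨s₁', s₂', hs1', hs2'⟩ := hsplit (dt (z q) q.1) (dt (z q) q.2)
      change dt (z q₁) q₁.1 = cc q₁ * p₁ + A * s₁ + B * s₂ at hs1
      change dt (z q₁) q₁.2 = cc q₁ * p₂ + B * s₁ + C * s₂ at hs2
      change dt (z q) q.1 = cc q * p₁ + A * s₁' + B * s₂' at hs1'
      change dt (z q) q.2 = cc q * p₂ + B * s₁' + C * s₂' at hs2'
      set t₁ : ℤ := k * (C * p₁ - B * p₂) + (s₁ - s₁') with ht₁
      set t₂ : ℤ := k * (A * p₂ - B * p₁) + (s₂ - s₂') with ht₂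
      have hl : dt (cmb t₁ t₂ 1 q.1 q.2 (z q)) q.1 = dt (z q₁) q₁.1 := by
        have e1 : dt (cmb t₁ t₂ 1 q.1 q.2 (z q)) q.1 = t₁ * dt q.1 q.1 + t₂ * dt q.1 q.2 +
            dt (z q) q.1 := by simp only [dt, cmb]; ring
        rw [e1, h1, h2, ht₁, ht₂]
        rw [hDdef] at hk
        linear_combination hs1' - hs1 - p₁ * hk
      have hm : dt (cmb t₁ t₂ 1 q.1 q.2 (z q)) q.2 = dt (z q₁) q₁.2 := by
        have e1 : dt (cmb t₁ t₂ 1 q.1 q.2 (z q)) q.2 = t₁ * dt q.1 q.2 + t₂ * dt q.2 q.2 +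
            dt (z q) q.2 := by simp only [dt, cmb]; ring
        rw [e1, h2, h3, ht₁, ht₂]
        rw [hDdef] at hk
        linear_combination hs2' - hs2 - p₂ * hk
      have hw : dt (cmb t₁ t₂ 1 q.1 q.2 (z q)) (cp q.1 q.2) = 1 := by
        have e1 : dt (cmb t₁ t₂ 1 q.1 q.2 (z q)) (cp q.1 q.2) = dt (z q) (cp q.1 q.2) := by
          simp only [dt, cmb, cp]; ring
        rw [e1]; exact hz q hqF
      refine ⟨cmb t₁ t₂ 1 q.1 q.2 (z q), hw, hl, hm, ?_⟩
      have h5 := gram q.1 q.2 (cmb t₁ t₂ 1 q.1 q.2 (z q))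
      rw [hw, hl, hm, h1, h2, h3] at h5
      have h6 := hG q₁ hq₁F
      have h7 : D * dt (cmb t₁ t₂ 1 q.1 q.2 (z q)) (cmb t₁ t₂ 1 q.1 q.2 (z q)) =
          D * dt (z q₁) (z q₁) := by
        rw [hDdef] at h6 ⊢
        linear_combination -h5 - h6
      exact mul_left_cancel₀ hDpos.ne' h7
    choose! ζ hζw hζl hζm hζζ using hadj
    obtain ⟨g1, g2, g3, g4⟩ := hF q₁ hq₁F
    have hdet := hz q₁ hq₁F
    set l := q₁.1 with hl
    set m := q₁.2 with hm
    set zz := z q₁ with hzz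
    -- the three columns
    set col : ((ℤ × ℤ × ℤ) × (ℤ × ℤ × ℤ)) → (ℤ × ℤ × ℤ) × (ℤ × ℤ × ℤ) × (ℤ × ℤ × ℤ) := fun q =>
      (cmb (cp m zz).1 (cp zz l).1 (cp l m).1 q.1 q.2 (ζ q),
       cmb (cp m zz).2.1 (cp zz l).2.1 (cp l m).2.1 q.1 q.2 (ζ q),
       cmb (cp m zz).2.2 (cp zz l).2.2 (cp l m).2.2 q.1 q.2 (ζ q)) with hcol
    have hnorm : ∀ q ∈ F.filter (fun q => f q = r), ∀ a b c : ℤ,
        dt (cmb a b c q.1 q.2 (ζ q)) (cmb a b c q.1 q.2 (ζ q)) =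
        dt (cmb a b c l m zz) (cmb a b c l m zz) := by
      intro q hq a b c
      rw [dt_cmb, dt_cmb]
      have hqF := (Finset.mem_filter.1 hq).1
      obtain ⟨h1, h2, h3, h4⟩ := hF q hqF
      rw [h1, h2, h3, g1, g2, g3, hζl q hq, hζm q hq, hζζ q hq]
    have hmapsU : ∀ q ∈ F.filter (fun q => f q = r), col q ∈ U ×ˢ U ×ˢ U := by
      intro q hq
      rw [Finset.mem_product, Finset.mem_product]
      simp only [hcol]
      refine ⟨mem_U ?_, mem_U ?_, mem_U ?_⟩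
      · rw [hnorm q hq]
        have e1 : cmb (cp m zz).1 (cp zz l).1 (cp l m).1 l m zz = (dt zz (cp l m), 0, 0) := by
          simp only [cmb, cp, dt, Prod.mk.injEq]
          refine ⟨?_, ?_, ?_⟩ <;> ring
        rw [e1, hdet]; simp [dt]
      · rw [hnorm q hq]
        have e1 : cmb (cp m zz).2.1 (cp zz l).2.1 (cp l m).2.1 l m zz =
            (0, dt zz (cp l m), 0) := by
          simp only [cmb, cp, dt, Prod.mk.injEq]
          refine ⟨?_, ?_, ?_⟩ <;> ring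
        rw [e1, hdet]; simp [dt]
      · rw [hnorm q hq]
        have e1 : cmb (cp m zz).2.2 (cp zz l).2.2 (cp l m).2.2 l m zz =
            (0, 0, dt zz (cp l m)) := by
          simp only [cmb, cp, dt, Prod.mk.injEq]
          refine ⟨?_, ?_, ?_⟩ <;> ring
        rw [e1, hdet]; simp [dt]
    have hrec : ∀ x y t : ℤ × ℤ × ℤ, ∀ v : ℤ × ℤ × ℤ,
        cmb v.1 v.2.1 v.2.2 (cmb (cp m zz).1 (cp zz l).1 (cp l m).1 x y t)
          (cmb (cp m zz).2.1 (cp zz l).2.1 (cp l m).2.1 x y t)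
          (cmb (cp m zz).2.2 (cp zz l).2.2 (cp l m).2.2 x y t) =
        cmb (dt v (cp m zz)) (dt v (cp zz l)) (dt v (cp l m)) x y t := by
      intro x y t v
      simp only [cmb, dt, Prod.mk.injEq]
      refine ⟨?_, ?_, ?_⟩ <;> ring
    have hl1 : dt l (cp m zz) = 1 := by
      rw [← hdet]; simp only [dt, cp]; ring
    have hl2 : dt l (cp zz l) = 0 := by simp only [dt, cp]; ring
    have hl3 : dt l (cp l m) = 0 := by simp only [dt, cp]; ring
    have hm1 : dt m (cp m zz) = 0 := by simp only [dt, cp]; ring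
    have hm2 : dt m (cp zz l) = 1 := by
      rw [← hdet]; simp only [dt, cp]; ring
    have hm3 : dt m (cp l m) = 0 := by simp only [dt, cp]; ring
    have hinj : Set.InjOn col (F.filter (fun q => f q = r)) := by
      intro q _ q' _ he
      simp only [hcol, Prod.mk.injEq] at he
      obtain ⟨he1, he2, he3⟩ := he
      have r1 := hrec q.1 q.2 (ζ q) l
      have r1' := hrec q'.1 q'.2 (ζ q') l
      rw [he1, he2, he3, r1', hl1, hl2, hl3] at r1
      have r2 := hrec q.1 q.2 (ζ q) m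
      have r2' := hrec q'.1 q'.2 (ζ q') m
      rw [he1, he2, he3, r2', hm1, hm2, hm3] at r2
      have id1 : ∀ x y t : ℤ × ℤ × ℤ, cmb 1 0 0 x y t = x := by
        intro x y t; simp [cmb]
      have id2 : ∀ x y t : ℤ × ℤ × ℤ, cmb 0 1 0 x y t = y := by
        intro x y t; simp [cmb]
      rw [id1, id1] at r1
      rw [id2, id2] at r2
      exact Prod.ext r1.symm r2.symm
    calc (F.filter (fun q => f q = r)).card ≤ (U ×ˢ U ×ˢ U).card :=
          Finset.card_le_card_of_injOn col hmapsU hinj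
      _ = 216 := by rw [Finset.card_product, Finset.card_product, show U.card = 6 from rfl]
  have h1 := Finset.card_le_mul_card_image_of_maps_to hmaps 216 hfib
  have h2 := card_R1 D.natAbs hDnpos
  calc F.card ≤ 216 * (R1 D.natAbs).card := h1
    _ ≤ 216 * (2 * D.natAbs.divisors.card) := Nat.mul_le_mul_left _ h2
    _ = 432 * D.natAbs.divisors.card := by ring

end Pool.Agent.H978V
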