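import Pool.Agent.H978V.Ar
import Pool.Agent.H510R2.Div
import Pool.Agent.H978V.B7

set_option autoImplicit false

namespace Pool.Agent.H978V



/-- content of a nonzero vector and Bezout coefficients -/
lemma exists_content (y1 y2 y3 : ℤ) (h : ¬ (y1 = 0 ∧ y2 = 0 ∧ y3 = 0)) :
    ∃ (a : ℕ) (l1 l2 l3 u1 u2 u3 : ℤ), 0 < a ∧ y1 = a * l1 ∧ y2 = a * l2 ∧ y3 = a * l3 ∧
      u1 * l1 + u2 * l2 + u3 * l3 = 1 := by
  have hg0 : (Int.gcd (Int.gcd y1 y2) y3) ≠ 0 := by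
    intro h0
    rw [Int.gcd_eq_zero_iff] at h0
    obtain ⟨h1, h2⟩ := h0
    have h1' : Int.gcd y1 y2 = 0 := by exact_mod_cast h1
    rw [Int.gcd_eq_zero_iff] at h1'
    exact h ⟨h1'.1, h1'.2, h2⟩
  have hd1 : ((Int.gcd (Int.gcd y1 y2) y3 : ℕ) : ℤ) ∣ y1 :=
    (Int.gcd_dvd_left _ _).trans (Int.gcd_dvd_left _ _)
  have hd2 : ((Int.gcd (Int.gcd y1 y2) y3 : ℕ) : ℤ) ∣ y2 :=
    (Int.gcd_dvd_left _ _).trans (Int.gcd_dvd_right _ _)
  have hd3 : ((Int.gcd (Int.gcd y1 y2) y3 : ℕ) : ℤ) ∣ y3 := Int.gcd_dvd_right _ _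
  obtain ⟨l1, h1⟩ := hd1
  obtain ⟨l2, h2⟩ := hd2
  obtain ⟨l3, h3⟩ := hd3
  have e1 := Int.gcd_eq_gcd_ab y1 y2
  have e2 := Int.gcd_eq_gcd_ab (Int.gcd y1 y2) y3
  generalize hG : Int.gcd (Int.gcd y1 y2) y3 = G at *
  refine ⟨G, l1, l2, l3, Int.gcdA y1 y2 * Int.gcdA (Int.gcd y1 y2) y3,
    Int.gcdB y1 y2 * Int.gcdA (Int.gcd y1 y2) y3, Int.gcdB (Int.gcd y1 y2) y3,
    Nat.pos_of_ne_zero hg0, h1, h2, h3, ?_⟩
  have hG0 : (G : ℤ) ≠ 0 := by exact_mod_cast hg0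
  apply mul_left_cancel₀ hG0
  generalize Int.gcdA (Int.gcd y1 y2) y3 = A' at *
  generalize Int.gcdB (Int.gcd y1 y2) y3 = B' at *
  generalize Int.gcdA y1 y2 = A at *
  generalize Int.gcdB y1 y2 = B at *
  generalize (Int.gcd y1 y2 : ℤ) = H at *
  have : (G : ℤ) = (y1 * A + y2 * B) * A' + y3 * B' := by rw [← e1]; exact e2
  calc (G:ℤ) * (A * A' * l1 + B * A' * l2 + B' * l3)
      = (G * l1) * (A * A') + (G * l2) * (B * A') + (G * l3) * B' := by ring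
    _ = y1 * (A * A') + y2 * (B * A') + y3 * B' := by rw [← h1, ← h2, ← h3]
    _ = G * 1 := by rw [this]; ring

/-- the structure of a pair of vectors -/
structure Dec (p : (ℤ × ℤ × ℤ) × (ℤ × ℤ × ℤ)) where
  a : ℕ
  c : ℕ
  k : ℤ
  l : ℤ × ℤ × ℤ
  m : ℤ × ℤ × ℤ
  ha : 0 < a
  hc : 0 < c
  hk0 : 0 ≤ k
  hkc : k < c
  h1 : p.1 = (a * l.1, a * l.2.1, a * l.2.2)
  h2 : p.2 = (k * l.1 + c * m.1, k * l.2.1 + c * m.2.1, k * l.2.2 + c * m.2.2)
  hg : Int.gcd (Int.gcd (cp l m).1 (cp l m).2.1) (cp l m).2.2 = 1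

lemma exists_dec (y z : ℤ × ℤ × ℤ) (n : ℕ) (b : ℤ) (hb : |b| < n) (hy : dt y y = n) (hz : dt z z = n)
    (hyz : dt y z = b) : Nonempty (Dec (y, z)) := by
  obtain ⟨y1, y2, y3⟩ := y
  obtain ⟨z1, z2, z3⟩ := z
  simp only [dt] at hy hz hyz
  have hn : (0:ℤ) < n := lt_of_le_of_lt (abs_nonneg b) hb
  have hlag : (y2 * z3 - y3 * z2) ^ 2 + (y3 * z1 - y1 * z3) ^ 2 + (y1 * z2 - y2 * z1) ^ 2
      = (n:ℤ) ^ 2 - b ^ 2 := by
    have : (n:ℤ)^2 = (y1 * y1 + y2 * y2 + y3 * y3) * (z1 * z1 + z2 * z2 + z3 * z3) := by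
      rw [hy, hz]; ring
    rw [this, ← hyz]; ring
  have hpos : 0 < (n:ℤ)^2 - b^2 := by
    have := sq_lt_sq' (by linarith [abs_lt.mp hb |>.1]) (abs_lt.mp hb).2
    linarith
  obtain ⟨a, l1, l2, l3, u1, u2, u3, ha, e1, e2, e3, hu⟩ := exists_content y1 y2 y3 (by
    rintro ⟨rfl, rfl, rfl⟩; simp at hy; omega)
  have haz : (0:ℤ) < a := by exact_mod_cast ha
  obtain ⟨c, w1, w2, w3, v1, v2, v3, hc, f1, f2, f3, hv⟩ := exists_content
    (l2 * z3 - l3 * z2) (l3 * z1 - l1 * z3) (l1 * z2 - l2 * z1) (by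
    rintro ⟨g1, g2, g3⟩
    have : (y2 * z3 - y3 * z2) ^ 2 + (y3 * z1 - y1 * z3) ^ 2 + (y1 * z2 - y2 * z1) ^ 2 =
      (a:ℤ)^2 * ((l2 * z3 - l3 * z2)^2 + (l3 * z1 - l1 * z3)^2 + (l1 * z2 - l2 * z1)^2) := by
      rw [e1, e2, e3]; ring
    rw [g1, g2, g3] at this
    rw [this] at hlag
    simp at hlag
    linarith)
  have hcz : (0:ℤ) < c := by exact_mod_cast hc
  -- t = u · z
  set t : ℤ := u1 * z1 + u2 * z2 + u3 * z3 with ht
  -- m0 = - u × w
  set m1 : ℤ := -(u2 * w3 - u3 * w2) with hm1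
  set m2 : ℤ := -(u3 * w1 - u1 * w3) with hm2
  set m3 : ℤ := -(u1 * w2 - u2 * w1) with hm3
  have g1 : z1 = t * l1 + c * m1 := by
    have : (c:ℤ) * m1 = -(u2 * (c * w3) - u3 * (c * w2)) := by rw [hm1]; ring
    rw [this, ← f2, ← f3, ht]
    linear_combination (-z1) * hu
  have g2 : z2 = t * l2 + c * m2 := by
    have : (c:ℤ) * m2 = -(u3 * (c * w1) - u1 * (c * w3)) := by rw [hm2]; ring
    rw [this, ← f1, ← f3, ht]
    linear_combination (-z2) * hu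
  have g3 : z3 = t * l3 + c * m3 := by
    have : (c:ℤ) * m3 = -(u1 * (c * w2) - u2 * (c * w1)) := by rw [hm3]; ring
    rw [this, ← f1, ← f2, ht]
    linear_combination (-z3) * hu
  have hdiv : t % c + c * (t / c) = t := Int.emod_add_mul_ediv t c
  have q1 : l2 * (m3 + t / c * l3) - l3 * (m2 + t / c * l2) = w1 := by
    apply mul_left_cancel₀ hcz.ne'
    rw [← f1, g3, g2]; ring
  have q2 : l3 * (m1 + t / c * l1) - l1 * (m3 + t / c * l3) = w2 := by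
    apply mul_left_cancel₀ hcz.ne'
    rw [← f2, g3, g1]; ring
  have q3 : l1 * (m2 + t / c * l2) - l2 * (m1 + t / c * l1) = w3 := by
    apply mul_left_cancel₀ hcz.ne'
    rw [← f3, g2, g1]; ring
  refine ⟨⟨a, c, t % c, (l1, l2, l3), (m1 + t / c * l1, m2 + t / c * l2, m3 + t / c * l3), ha, hc,
    Int.emod_nonneg _ hcz.ne', Int.emod_lt_of_pos _ hcz, ?_, ?_, ?_⟩⟩
  · simp only [e1, e2, e3]
  · simp only [Prod.mk.injEq]
    refine ⟨?_, ?_, ?_⟩
    · rw [g1]; linear_combination (-l1) * hdiv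
    · rw [g2]; linear_combination (-l2) * hdiv
    · rw [g3]; linear_combination (-l3) * hdiv
  · simp only [cp]
    rw [q1, q2, q3]
    have : ((Int.gcd (Int.gcd w1 w2) w3 : ℕ) : ℤ) ∣ 1 := by
      rw [← hv]
      have d1 : ((Int.gcd (Int.gcd w1 w2) w3 : ℕ) : ℤ) ∣ w1 :=
        (Int.gcd_dvd_left _ _).trans (Int.gcd_dvd_left _ _)
      have d2 : ((Int.gcd (Int.gcd w1 w2) w3 : ℕ) : ℤ) ∣ w2 :=
        (Int.gcd_dvd_left _ _).trans (Int.gcd_dvd_right _ _)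
      have d3 : ((Int.gcd (Int.gcd w1 w2) w3 : ℕ) : ℤ) ∣ w3 := Int.gcd_dvd_right _ _
      exact dvd_add (dvd_add (d1.mul_left _) (d2.mul_left _)) (d3.mul_left _)
    have h1 : Int.gcd (Int.gcd w1 w2) w3 ∣ 1 := by exact_mod_cast this
    exact Nat.dvd_one.mp h1

/-- Gram relations -/
lemma Dec.gram {p : (ℤ × ℤ × ℤ) × (ℤ × ℤ × ℤ)} (D : Dec p) {n : ℕ} {b : ℤ} (hy : dt p.1 p.1 = n)
    (hz : dt p.2 p.2 = n) (hyz : dt p.1 p.2 = b) :
    (n:ℤ) = D.a ^ 2 * dt D.l D.l ∧ b = D.a * (D.k * dt D.l D.l + D.c * dt D.l D.m) ∧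
    (n:ℤ) = D.k ^ 2 * dt D.l D.l + 2 * D.k * D.c * dt D.l D.m + D.c ^ 2 * dt D.m D.m := by
  have h1 := D.h1
  have h2 := D.h2
  rw [h1] at hy hyz
  rw [h2] at hz hyz
  simp only [dt] at *
  refine ⟨by rw [← hy]; ring, by rw [← hyz]; ring, by rw [← hz]; ring⟩

/-- number of residues -/
lemma card_k_le (n a c : ℕ) (b : ℤ) (hn : 0 < n) (ha : 0 < a) (hc : 0 < c) (T : Finset ℤ)
    (hT : ∀ k ∈ T, 0 ≤ k ∧ k < c ∧ ∃ A B : ℤ, (n:ℤ) = a ^ 2 * A ∧ b = a * (k * A + c * B)) :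
    T.card ≤ Int.gcd n b := by
  classical
  rcases T.eq_empty_or_nonempty with rfl | ⟨k0, hk0⟩
  · simp
  obtain ⟨h00, h0c, A, B, hA, hB⟩ := hT k0 hk0
  have haz : (0:ℤ) < a := by exact_mod_cast ha
  have hcz : (0:ℤ) < c := by exact_mod_cast hc
  have hnz : (0:ℤ) < n := by exact_mod_cast hn
  set d : ℕ := Int.gcd c A with hd
  have hdpos : 0 < d := Int.gcd_pos_of_ne_zero_left _ hcz.ne'
  have hdz : (0:ℤ) < d := by exact_mod_cast hdpos
  have hdc : (d:ℤ) ∣ c := Int.gcd_dvd_left _ _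
  have hdA : (d:ℤ) ∣ A := Int.gcd_dvd_right _ _
  have hdn : (d:ℤ) ∣ n := by rw [hA]; exact hdA.mul_left _
  have hdb : (d:ℤ) ∣ b := by
    rw [hB]; exact (dvd_add (hdA.mul_left _) (hdc.mul_right _)).mul_left _
  have hdg : d ≤ Int.gcd n b := by
    apply Nat.le_of_dvd (Int.gcd_pos_of_ne_zero_left _ hnz.ne')
    have := Int.dvd_coe_gcd hdn hdb
    exact_mod_cast this
  refine le_trans ?_ hdg
  obtain ⟨c', hc'⟩ := hdc
  obtain ⟨A', hA'⟩ := hdA
  have hc'pos : 0 < c' := by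
    by_contra h
    push Not at h
    nlinarith
  -- coprimality
  have hcop : IsCoprime c' A' := by
    rw [Int.isCoprime_iff_gcd_eq_one]
    have h1 := hd
    rw [hc', hA', Int.gcd_mul_left] at h1
    have : (d:ℤ).natAbs = d := Int.natAbs_natCast d
    rw [this] at h1
    have h2 : d * 1 = d * Int.gcd c' A' := by omega
    exact (Nat.eq_of_mul_eq_mul_left hdpos h2).symm
  have hcong : ∀ k ∈ T, c' ∣ k - k0 := by
    intro k hk
    obtain ⟨_, _, A2, B2, hA2, hB2⟩ := hT k hk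
    have hAA : A2 = A := by
      have : (a:ℤ)^2 * A2 = a^2 * A := by rw [← hA2, ← hA]
      exact mul_left_cancel₀ (by positivity) this
    subst hAA
    have h3 : k * A2 + c * B2 = k0 * A2 + c * B := by
      have : (a:ℤ) * (k * A2 + c * B2) = a * (k0 * A2 + c * B) := by rw [← hB2, ← hB]
      exact mul_left_cancel₀ haz.ne' this
    have h4 : c' ∣ (k - k0) * A' := by
      refine ⟨B - B2, ?_⟩
      apply mul_left_cancel₀ hdz.ne'
      rw [hA', hc'] at h3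
      linear_combination h3
    exact hcop.dvd_of_dvd_mul_right h4
  -- map to Ico 0 d
  have : T.card ≤ (Finset.Ico (0:ℤ) d).card := by
    apply Finset.card_le_card_of_injOn (fun k => k / c')
    · intro k hk
      have hk' : k ∈ T := hk
      obtain ⟨h0, h1, _⟩ := hT k hk'
      simp only [Finset.coe_Ico, Set.mem_Ico]
      refine ⟨Int.ediv_nonneg h0 hc'pos.le, ?_⟩
      apply Int.ediv_lt_of_lt_mul hc'pos
      rw [← hc']; exact h1
    · intro k hk k2 hk2 he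
      have h1 := hcong k hk
      have h2 := hcong k2 hk2
      have h3 : c' ∣ k - k2 := by
        have := dvd_sub h1 h2
        simpa using this
      have h4 : k % c' = k2 % c' :=
        Int.emod_eq_emod_iff_emod_sub_eq_zero.mpr (Int.emod_eq_zero_of_dvd h3)
      have h5 : k / c' = k2 / c' := he
      rw [← Int.emod_add_mul_ediv k c', ← Int.emod_add_mul_ediv k2 c', h4, h5]
  simpa using this

/-- TARGET -/
theorem linnik_pairs (δ : ℝ) (hδ : 0 < δ) : ∃ K : ℝ, 0 < K ∧ ∀ (n : ℕ) (b : ℤ), |b| < n →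
    ((((S3 n) ×ˢ (S3 n)).filter (fun p => dt p.1 p.2 = b)).card : ℝ) ≤
      K * (n : ℝ) ^ δ * (Int.gcd n b : ℝ) := by
  classical
  obtain ⟨C, hC, hdiv⟩ := Pool.Agent.H510R2.divisor_bound (δ / 5) (by positivity)
  refine ⟨432 * C ^ 3, by positivity, ?_⟩
  intro n b hb
  have hnz : (0:ℤ) < n := lt_of_le_of_lt (abs_nonneg b) hb
  have hn : 0 < n := by exact_mod_cast hnz
  set P := ((S3 n) ×ˢ (S3 n)).filter (fun p => dt p.1 p.2 = b) with hP
  have hPm : ∀ p ∈ P, dt p.1 p.1 = n ∧ dt p.2 p.2 = n ∧ dt p.1 p.2 = b := by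
    intro p hp
    rw [hP, Finset.mem_filter, Finset.mem_product, mem_S3, mem_S3] at hp
    obtain ⟨⟨h1, h2⟩, h3⟩ := hp
    refine ⟨?_, ?_, h3⟩
    · rw [← h1]; simp only [dt]; ring
    · rw [← h2]; simp only [dt]; ring
  have hne : ∀ p ∈ P, Nonempty (Dec p) := by
    intro p hp
    obtain ⟨h1, h2, h3⟩ := hPm p hp
    exact exists_dec p.1 p.2 n b hb h1 h2 h3
  have hpos : 0 < (n:ℤ)^2 - b^2 := by
    have := sq_lt_sq' (by linarith [abs_lt.mp hb |>.1]) (abs_lt.mp hb).2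
    linarith
  set N : ℕ := ((n:ℤ)^2 - b^2).natAbs with hN
  have hN0 : N ≠ 0 := by
    rw [hN]; exact Int.natAbs_ne_zero.mpr hpos.ne'
  have hNz : (N:ℤ) = (n:ℤ)^2 - b^2 := by rw [hN]; exact Int.natAbs_of_nonneg hpos.le
  -- a dummy decomposition value
  let g : ((ℤ × ℤ × ℤ) × (ℤ × ℤ × ℤ)) → (ℕ × ℕ) × ℤ := fun p =>
    if h : Nonempty (Dec p) then (((Classical.choice h).a, (Classical.choice h).c), (Classical.choice h).k)
    else ((0, 0), 0)
  let e : ((ℤ × ℤ × ℤ) × (ℤ × ℤ × ℤ)) → ((ℤ × ℤ × ℤ) × (ℤ × ℤ × ℤ)) := fun p =>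
    if h : Nonempty (Dec p) then ((Classical.choice h).l, (Classical.choice h).m)
    else p
  -- step 1: fibres of g
  have hfib : ∀ q ∈ P.image g, (P.filter (fun p => g p = q)).card ≤ 432 * N.divisors.card := by
    intro q hq
    obtain ⟨p0, hp0, hgp0⟩ := Finset.mem_image.mp hq
    obtain ⟨D0, hD0⟩ : ∃ D0 : Dec p0, g p0 = ((D0.a, D0.c), D0.k) := by
      refine ⟨Classical.choice (hne p0 hp0), ?_⟩
      simp only [g]
      rw [dif_pos (hne p0 hp0)]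
    obtain ⟨i1, i2, i3⟩ := D0.gram (hPm p0 hp0).1 (hPm p0 hp0).2.1 (hPm p0 hp0).2.2
    have ha0 : (0:ℤ) < D0.a := by exact_mod_cast D0.ha
    have hc0 : (0:ℤ) < D0.c := by exact_mod_cast D0.hc
    have key : ∀ p ∈ P.filter (fun p => g p = q), ∃ D : Dec p, e p = (D.l, D.m) ∧
        D.a = D0.a ∧ D.c = D0.c ∧ D.k = D0.k := by
      intro p hp
      rw [Finset.mem_filter] at hp
      obtain ⟨hpP, hgp⟩ := hp
      refine ⟨Classical.choice (hne p hpP), ?_, ?_⟩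
      · simp only [e]
        rw [dif_pos (hne p hpP)]
      · have h1 : g p = (((Classical.choice (hne p hpP)).a, (Classical.choice (hne p hpP)).c),
          (Classical.choice (hne p hpP)).k) := by
          simp only [g]
          rw [dif_pos (hne p hpP)]
        rw [hgp, ← hgp0, hD0] at h1
        simp only [Prod.mk.injEq] at h1
        exact ⟨h1.1.1.symm, h1.1.2.symm, h1.2.symm⟩
    have hinj : Set.InjOn e (P.filter (fun p => g p = q) : Finset _) := by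
      intro p hp p' hp' hee
      obtain ⟨D, hD1, hD2, hD3, hD4⟩ := key p hp
      obtain ⟨D', hD1', hD2', hD3', hD4'⟩ := key p' hp'
      rw [hD1, hD1'] at hee
      simp only [Prod.mk.injEq] at hee
      obtain ⟨hl, hm⟩ := hee
      have r1 : p.1 = p'.1 := by rw [D.h1, D'.h1, hl, hD2, hD2']
      have r2 : p.2 = p'.2 := by rw [D.h2, D'.h2, hl, hm, hD3, hD3', hD4, hD4']
      exact Prod.ext r1 r2
    rw [← Finset.card_image_of_injOn hinj]
    refine (saturated_le (dt D0.l D0.l) (dt D0.l D0.m) (dt D0.m D0.m) _ ?_).trans ?_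
    · intro r hr
      obtain ⟨p, hp, rfl⟩ := Finset.mem_image.mp hr
      obtain ⟨D, hD1, hD2, hD3, hD4⟩ := key p hp
      have hpP : p ∈ P := (Finset.mem_filter.mp hp).1
      obtain ⟨j1, j2, j3⟩ := D.gram (hPm p hpP).1 (hPm p hpP).2.1 (hPm p hpP).2.2
      rw [hD2] at j1 j2
      rw [hD4, hD3] at j2 j3
      have k1 : dt D.l D.l = dt D0.l D0.l := by
        have : (D0.a:ℤ)^2 * dt D.l D.l = D0.a^2 * dt D0.l D0.l := by rw [← j1, ← i1]
        exact mul_left_cancel₀ (by positivity) this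
      have k2 : dt D.l D.m = dt D0.l D0.m := by
        rw [k1] at j2
        have h5 : (D0.a:ℤ) * (D0.k * dt D0.l D0.l + D0.c * dt D.l D.m) =
          D0.a * (D0.k * dt D0.l D0.l + D0.c * dt D0.l D0.m) := by rw [← j2, ← i2]
        have h6 := mul_left_cancel₀ ha0.ne' h5
        have h7 : (D0.c:ℤ) * dt D.l D.m = D0.c * dt D0.l D0.m := by linarith
        exact mul_left_cancel₀ hc0.ne' h7
      have k3 : dt D.m D.m = dt D0.m D0.m := by
        rw [k1, k2] at j3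
        have h7 : (D0.c:ℤ)^2 * dt D.m D.m = D0.c^2 * dt D0.m D0.m := by linarith
        exact mul_left_cancel₀ (by positivity) h7
      rw [hD1]
      exact ⟨k1, k2, k3, D.hg⟩
    · apply Nat.mul_le_mul_left
      apply Finset.card_le_card
      apply Nat.divisors_subset_of_dvd hN0
      rw [hN]
      apply Int.natAbs_dvd_natAbs.mpr
      refine ⟨(D0.a:ℤ)^2 * D0.c^2, ?_⟩
      have : (n:ℤ)^2 - b^2 = (D0.a ^ 2 * dt D0.l D0.l) * (D0.k ^ 2 * dt D0.l D0.l + 2 * D0.k * D0.c * dt D0.l D0.m + D0.c ^ 2 * dt D0.m D0.m) - (D0.a * (D0.k * dt D0.l D0.l + D0.c * dt D0.l D0.m))^2 := by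
        rw [← i1, ← i2, ← i3]; ring
      rw [this]; ring
  have hstep1 := Finset.card_le_mul_card_image P _ hfib
  -- step 2: the image of g
  have himg : ∀ q ∈ P.image g, q.1.1 ∣ n ∧ q.1.2 ∣ N ∧ 0 < q.1.1 ∧ 0 < q.1.2 ∧ 0 ≤ q.2 ∧ q.2 < q.1.2 ∧
      ∃ A B : ℤ, (n:ℤ) = q.1.1 ^ 2 * A ∧ b = q.1.1 * (q.2 * A + q.1.2 * B) := by
    intro q hq
    obtain ⟨p0, hp0, hgp0⟩ := Finset.mem_image.mp hq
    obtain ⟨D0, hD0⟩ : ∃ D0 : Dec p0, g p0 = ((D0.a, D0.c), D0.k) := by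
      refine ⟨Classical.choice (hne p0 hp0), ?_⟩
      simp only [g]
      rw [dif_pos (hne p0 hp0)]
    obtain ⟨i1, i2, i3⟩ := D0.gram (hPm p0 hp0).1 (hPm p0 hp0).2.1 (hPm p0 hp0).2.2
    rw [← hgp0, hD0]
    simp only
    refine ⟨?_, ?_, D0.ha, D0.hc, D0.hk0, D0.hkc, _, _, i1, i2⟩
    · have : (D0.a : ℤ) ∣ n := by rw [i1, sq, mul_assoc]; exact dvd_mul_right _ _
      exact_mod_cast this
    · have : (D0.c : ℤ) ∣ N := by
        rw [hNz]
        refine ⟨D0.c * D0.a^2 * (dt D0.l D0.l * dt D0.m D0.m - dt D0.l D0.m ^ 2), ?_⟩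
        have : (n:ℤ)^2 - b^2 = (D0.a ^ 2 * dt D0.l D0.l) * (D0.k ^ 2 * dt D0.l D0.l + 2 * D0.k * D0.c * dt D0.l D0.m + D0.c ^ 2 * dt D0.m D0.m) - (D0.a * (D0.k * dt D0.l D0.l + D0.c * dt D0.l D0.m))^2 := by
          rw [← i1, ← i2, ← i3]; ring
        rw [this]; ring
      exact_mod_cast this
  have hstep2 : (P.image g).card ≤ Int.gcd n b * (n.divisors.card * N.divisors.card) := by
    have h2 : ∀ r ∈ (P.image g).image Prod.fst, ((P.image g).filter (fun q => q.1 = r)).card ≤ Int.gcd n b := by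
      intro r hr
      obtain ⟨q0, hq0, rfl⟩ := Finset.mem_image.mp hr
      obtain ⟨_, _, h3, h4, _⟩ := himg q0 hq0
      have hinj : Set.InjOn (Prod.snd) (((P.image g).filter (fun q => q.1 = q0.1) : Finset _) : Set ((ℕ × ℕ) × ℤ)) := by
        intro q hq q' hq' he
        rw [Finset.mem_coe, Finset.mem_filter] at hq hq'
        exact Prod.ext (hq.2.trans hq'.2.symm) he
      rw [← Finset.card_image_of_injOn hinj]
      apply card_k_le n q0.1.1 q0.1.2 b hn h3 h4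
      intro k hk
      obtain ⟨q, hq, rfl⟩ := Finset.mem_image.mp hk
      rw [Finset.mem_filter] at hq
      obtain ⟨hq1, hq2⟩ := hq
      obtain ⟨_, _, _, _, h5, h6, h7⟩ := himg q hq1
      rw [hq2] at h6 h7
      exact ⟨h5, h6, h7⟩
    refine (Finset.card_le_mul_card_image _ _ h2).trans ?_
    apply Nat.mul_le_mul_left
    rw [← Finset.card_product]
    apply Finset.card_le_card
    intro r hr
    obtain ⟨q, hq, rfl⟩ := Finset.mem_image.mp hr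
    obtain ⟨h3, h4, _⟩ := himg q hq
    rw [Finset.mem_product, Nat.mem_divisors, Nat.mem_divisors]
    exact ⟨⟨h3, hn.ne'⟩, ⟨h4, hN0⟩⟩
  -- final
  have hfinal : P.card ≤ 432 * N.divisors.card * (Int.gcd n b * (n.divisors.card * N.divisors.card)) :=
    hstep1.trans (Nat.mul_le_mul_left _ hstep2)
  have hfinal' : (P.card : ℝ) ≤ 432 * N.divisors.card * (Int.gcd n b * (n.divisors.card * N.divisors.card)) := by
    exact_mod_cast hfinal
  have b1 := hdiv n hn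
  have b2 := hdiv N (Nat.one_le_iff_ne_zero.mpr hN0)
  have hnR : (0:ℝ) < n := by exact_mod_cast hn
  have b3 : (N:ℝ) ^ (δ/5) ≤ (n:ℝ) ^ (2 * (δ / 5)) := by
    have h1 : (N:ℝ) ≤ (n:ℝ)^2 := by
      have : (N:ℤ) ≤ (n:ℤ)^2 := by rw [hNz]; nlinarith [sq_nonneg b]
      exact_mod_cast this
    calc (N:ℝ) ^ (δ/5) ≤ ((n:ℝ)^2) ^ (δ/5) := Real.rpow_le_rpow (by positivity) h1 (by positivity)
      _ = (n:ℝ) ^ (2 * (δ / 5)) := by
        rw [← Real.rpow_natCast, ← Real.rpow_mul hnR.le]; norm_num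
  have b4 : (N.divisors.card : ℝ) ≤ C * (n:ℝ) ^ (2 * (δ / 5)) := b2.trans (by gcongr)
  calc (P.card : ℝ) ≤ 432 * N.divisors.card * (Int.gcd n b * (n.divisors.card * N.divisors.card)) := hfinal'
    _ ≤ 432 * (C * (n:ℝ) ^ (2 * (δ / 5))) * (Int.gcd n b * ((C * (n:ℝ) ^ (δ / 5)) * (C * (n:ℝ) ^ (2 * (δ / 5))))) := by
      gcongr
    _ = 432 * C ^ 3 * ((n:ℝ) ^ (2 * (δ / 5)) * (n:ℝ) ^ (δ / 5) * (n:ℝ) ^ (2 * (δ / 5))) * (Int.gcd n b) := by ring
    _ = 432 * C ^ 3 * (n:ℝ) ^ δ * (Int.gcd n b) := by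
      rw [← Real.rpow_add hnR, ← Real.rpow_add hnR]
      congr 3
      ring

end Pool.Agent.H978V
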