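import Pool.Agent.H978V.Ar
import Pool.Agent.H510R2.Div
import Pool.Agent.H978V.B8

set_option autoImplicit false

namespace Pool.Agent.H978V


namespace B8b

lemma gcd_sum (n U : ℕ) (hn : 1 ≤ n) :
    (∑ u ∈ Finset.Ioc 0 U, Nat.gcd n u) ≤ n.divisors.card * U := by
  classical
  have h1 : ∀ u ∈ Finset.Ioc 0 U, Nat.gcd n u ≤ ∑ g ∈ n.divisors, if g ∣ u then g else 0 := by
    intro u _
    have hmem : Nat.gcd n u ∈ n.divisors :=
      Nat.mem_divisors.2 ⟨Nat.gcd_dvd_left _ _, by omega⟩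
    calc Nat.gcd n u = (if Nat.gcd n u ∣ u then Nat.gcd n u else 0) := by
          rw [if_pos (Nat.gcd_dvd_right _ _)]
      _ ≤ ∑ g ∈ n.divisors, if g ∣ u then g else 0 :=
          Finset.single_le_sum (f := fun g => if g ∣ u then g else 0) (fun _ _ => Nat.zero_le _) hmem
  refine (Finset.sum_le_sum h1).trans ?_
  rw [Finset.sum_comm]
  have h2 : ∀ g ∈ n.divisors, (∑ u ∈ Finset.Ioc 0 U, if g ∣ u then g else 0) ≤ U := by
    intro g _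
    rw [← Finset.sum_filter, Finset.sum_const, Nat.Ioc_filter_dvd_card_eq_div, smul_eq_mul]
    exact Nat.div_mul_le_self U g
  refine (Finset.sum_le_sum h2).trans ?_
  rw [Finset.sum_const, smul_eq_mul]

lemma cs {n : ℕ} {y z : ℤ × ℤ × ℤ} (hy : y ∈ S3 n) (hz : z ∈ S3 n) :
    (dt y z) ^ 2 ≤ (n : ℤ) ^ 2 := by
  rw [mem_S3] at hy hz
  unfold dt
  have : (n : ℤ) ^ 2 = (y.1 ^ 2 + y.2.1 ^ 2 + y.2.2 ^ 2) * (z.1 ^ 2 + z.2.1 ^ 2 + z.2.2 ^ 2) := by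
    rw [hy, hz]; ring
  rw [this]
  nlinarith [sq_nonneg (y.1 * z.2.1 - y.2.1 * z.1), sq_nonneg (y.1 * z.2.2 - y.2.2 * z.1),
    sq_nonneg (y.2.1 * z.2.2 - y.2.2 * z.2.1)]

lemma dt_le {n : ℕ} {y z : ℤ × ℤ × ℤ} (hy : y ∈ S3 n) (hz : z ∈ S3 n) :
    |dt y z| ≤ (n : ℤ) := by
  have h := cs hy hz
  exact abs_le_of_sq_le_sq h (by positivity)

lemma eq_of_dt {n : ℕ} {y z : ℤ × ℤ × ℤ} (hy : y ∈ S3 n) (hz : z ∈ S3 n) (h : dt y z = n) :
    z = y := by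
  rw [mem_S3] at hy hz
  unfold dt at h
  have h0 : (z.1 - y.1) ^ 2 + (z.2.1 - y.2.1) ^ 2 + (z.2.2 - y.2.2) ^ 2 = 0 := by nlinarith
  have h1 : (z.1 - y.1) ^ 2 = 0 := by nlinarith [sq_nonneg (z.1 - y.1), sq_nonneg (z.2.1 - y.2.1), sq_nonneg (z.2.2 - y.2.2)]
  have h2 : (z.2.1 - y.2.1) ^ 2 = 0 := by nlinarith [sq_nonneg (z.1 - y.1), sq_nonneg (z.2.1 - y.2.1), sq_nonneg (z.2.2 - y.2.2)]
  have h3 : (z.2.2 - y.2.2) ^ 2 = 0 := by nlinarith [sq_nonneg (z.1 - y.1), sq_nonneg (z.2.1 - y.2.1), sq_nonneg (z.2.2 - y.2.2)]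
  have e1 := pow_eq_zero_iff (two_ne_zero) |>.1 h1
  have e2 := pow_eq_zero_iff (two_ne_zero) |>.1 h2
  have e3 := pow_eq_zero_iff (two_ne_zero) |>.1 h3
  ext
  · linarith
  · linarith
  · linarith

lemma eq_neg_of_dt {n : ℕ} {y z : ℤ × ℤ × ℤ} (hy : y ∈ S3 n) (hz : z ∈ S3 n) (h : dt y z = -n) :
    z = -y := by
  rw [mem_S3] at hy hz
  unfold dt at h
  have h0 : (z.1 + y.1) ^ 2 + (z.2.1 + y.2.1) ^ 2 + (z.2.2 + y.2.2) ^ 2 = 0 := by nlinarith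
  have h1 : (z.1 + y.1) ^ 2 = 0 := by nlinarith [sq_nonneg (z.1 + y.1), sq_nonneg (z.2.1 + y.2.1), sq_nonneg (z.2.2 + y.2.2)]
  have h2 : (z.2.1 + y.2.1) ^ 2 = 0 := by nlinarith [sq_nonneg (z.1 + y.1), sq_nonneg (z.2.1 + y.2.1), sq_nonneg (z.2.2 + y.2.2)]
  have h3 : (z.2.2 + y.2.2) ^ 2 = 0 := by nlinarith [sq_nonneg (z.1 + y.1), sq_nonneg (z.2.1 + y.2.1), sq_nonneg (z.2.2 + y.2.2)]
  have e1 := pow_eq_zero_iff (two_ne_zero) |>.1 h1
  have e2 := pow_eq_zero_iff (two_ne_zero) |>.1 h2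
  have e3 := pow_eq_zero_iff (two_ne_zero) |>.1 h3
  ext
  · simp only [Prod.fst_neg]; linarith
  · simp only [Prod.snd_neg, Prod.fst_neg]; linarith
  · simp only [Prod.snd_neg]; linarith

lemma gcd_shift (n D u : ℕ) (h : Nat.Coprime n D) :
    Int.gcd (n : ℤ) ((n : ℤ) - D * u) = Nat.gcd n u := by
  have h1 : Int.gcd (n : ℤ) ((n : ℤ) - D * u) = Int.gcd (n : ℤ) ((D * u : ℕ) : ℤ) := by
    have : ((n : ℤ) - D * u) = -((D * u : ℕ) : ℤ) + n := by push_cast; ring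
    rw [this, Int.gcd_add_self_right, Int.gcd_neg]
  rw [h1, Int.gcd_natCast_natCast]
  exact Nat.Coprime.gcd_mul_left_cancel_right u h.symm

end B8b

open B8b

/-- TARGET 1 -/
theorem pairs_cong (δ : ℝ) (hδ : 0 < δ) : ∃ K : ℝ, 0 < K ∧ ∀ (n D : ℕ), 1 ≤ n → 1 ≤ D →
    Nat.Coprime n D → ∀ Z : Finset (ℤ × ℤ × ℤ), Z ⊆ S3 n → ∀ X : ℝ, 0 ≤ X →
    (((Z ×ˢ Z).filter (fun p => (D : ℤ) ∣ n - dt p.1 p.2 ∧ ((n - dt p.1 p.2 : ℤ) : ℝ) ≤ X)).card : ℝ) ≤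
      2 * Z.card + K * (n : ℝ) ^ δ * (X / D) := by
  classical
  obtain ⟨K₁, hK₁, hL⟩ := linnik_pairs (δ / 2) (by positivity)
  obtain ⟨C, hC, hdiv⟩ := Pool.Agent.H510R2.divisor_bound (δ / 2) (by positivity)
  refine ⟨K₁ * C, by positivity, ?_⟩
  intro n D hn hD hcop Z hZ X hX
  set U : ℕ := ⌊X / D⌋₊ with hU
  have hDr : (0 : ℝ) < D := by exact_mod_cast hD
  set Cu : ℕ → Finset ((ℤ × ℤ × ℤ) × (ℤ × ℤ × ℤ)) := fun u =>
    if |(n : ℤ) - D * u| < n then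
      ((S3 n) ×ˢ (S3 n)).filter (fun p => dt p.1 p.2 = (n : ℤ) - D * u) else ∅ with hCu
  have hsub : (Z ×ˢ Z).filter (fun p => (D : ℤ) ∣ n - dt p.1 p.2 ∧ ((n - dt p.1 p.2 : ℤ) : ℝ) ≤ X) ⊆
      (Z.image (fun y => (y, y)) ∪ Z.image (fun y => (y, -y))) ∪ (Finset.Ioc 0 U).biUnion Cu := by
    intro p hp
    rw [Finset.mem_filter, Finset.mem_product] at hp
    obtain ⟨⟨hp1, hp2⟩, hdvd, hle⟩ := hp
    have hs1 := hZ hp1
    have hs2 := hZ hp2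
    have habs := dt_le hs1 hs2
    rw [abs_le] at habs
    rw [Finset.mem_union, Finset.mem_union, Finset.mem_image, Finset.mem_image, Finset.mem_biUnion]
    rcases eq_or_ne (dt p.1 p.2) n with h1 | h1
    · left; left
      exact ⟨p.1, hp1, by rw [Prod.ext_iff]; exact ⟨rfl, (eq_of_dt hs1 hs2 h1).symm⟩⟩
    rcases eq_or_ne (dt p.1 p.2) (-n) with h2 | h2
    · left; right
      exact ⟨p.1, hp1, by rw [Prod.ext_iff]; exact ⟨rfl, (eq_neg_of_dt hs1 hs2 h2).symm⟩⟩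
    right
    have hlt : dt p.1 p.2 < n := lt_of_le_of_ne habs.2 h1
    have hgt : -(n : ℤ) < dt p.1 p.2 := lt_of_le_of_ne habs.1 (Ne.symm h2)
    obtain ⟨u', hu'⟩ := hdvd
    have hDz : (0 : ℤ) < D := by exact_mod_cast hD
    have hu'pos : 0 < u' := by
      by_contra hc
      push Not at hc
      have : (D : ℤ) * u' ≤ 0 := mul_nonpos_of_nonneg_of_nonpos hDz.le hc
      linarith
    obtain ⟨u, rfl⟩ : ∃ u : ℕ, u' = (u : ℤ) := ⟨u'.toNat, by rw [Int.toNat_of_nonneg hu'pos.le]⟩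
    have hdt : dt p.1 p.2 = (n : ℤ) - D * u := by linarith
    refine ⟨u, ?_, ?_⟩
    · rw [Finset.mem_Ioc]
      refine ⟨by exact_mod_cast hu'pos, ?_⟩
      rw [hU]
      apply Nat.le_floor
      rw [le_div_iff₀ hDr]
      rw [hu'] at hle
      push_cast at hle
      linarith
    · simp only [hCu]
      rw [if_pos]
      · rw [Finset.mem_filter, Finset.mem_product]
        exact ⟨⟨hs1, hs2⟩, hdt⟩
      · rw [← hdt, abs_lt]
        exact ⟨hgt, hlt⟩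
  have hcard1 : (((Z ×ˢ Z).filter (fun p => (D : ℤ) ∣ n - dt p.1 p.2 ∧
      ((n - dt p.1 p.2 : ℤ) : ℝ) ≤ X)).card : ℝ) ≤ 2 * Z.card + ∑ u ∈ Finset.Ioc 0 U, ((Cu u).card : ℝ) := by
    have h1 := Finset.card_le_card hsub
    have h2 := Finset.card_union_le (Z.image (fun y => (y, y)) ∪ Z.image (fun y => (y, -y)))
      ((Finset.Ioc 0 U).biUnion Cu)
    have h3 := Finset.card_union_le (Z.image (fun y => (y, y))) (Z.image (fun y => (y, -y)))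
    have h4 : (Z.image (fun y => (y, y))).card ≤ Z.card := Finset.card_image_le
    have h5 : (Z.image (fun y => (y, -y))).card ≤ Z.card := Finset.card_image_le
    have h6 : ((Finset.Ioc 0 U).biUnion Cu).card ≤ ∑ u ∈ Finset.Ioc 0 U, (Cu u).card :=
      Finset.card_biUnion_le
    have h7 : ((Z ×ˢ Z).filter (fun p => (D : ℤ) ∣ n - dt p.1 p.2 ∧
      ((n - dt p.1 p.2 : ℤ) : ℝ) ≤ X)).card ≤ 2 * Z.card + ∑ u ∈ Finset.Ioc 0 U, (Cu u).card := by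
      omega
    exact_mod_cast h7
  have hnpos : (0 : ℝ) < n := by exact_mod_cast hn
  have hcard2 : ∀ u ∈ Finset.Ioc 0 U, ((Cu u).card : ℝ) ≤ K₁ * (n : ℝ) ^ (δ / 2) * (Nat.gcd n u : ℝ) := by
    intro u _
    simp only [hCu]
    split_ifs with h
    · have := hL n ((n : ℤ) - D * u) h
      rw [gcd_shift n D u hcop] at this
      exact this
    · simp only [Finset.card_empty, Nat.cast_zero]
      positivity
  have hsum : ∑ u ∈ Finset.Ioc 0 U, ((Cu u).card : ℝ) ≤ K₁ * (n : ℝ) ^ (δ / 2) * ((n.divisors.card : ℝ) * U) := by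
    calc ∑ u ∈ Finset.Ioc 0 U, ((Cu u).card : ℝ)
        ≤ ∑ u ∈ Finset.Ioc 0 U, K₁ * (n : ℝ) ^ (δ / 2) * (Nat.gcd n u : ℝ) := Finset.sum_le_sum hcard2
      _ = K₁ * (n : ℝ) ^ (δ / 2) * ((∑ u ∈ Finset.Ioc 0 U, Nat.gcd n u : ℕ) : ℝ) := by
          rw [← Finset.mul_sum]; push_cast; rfl
      _ ≤ K₁ * (n : ℝ) ^ (δ / 2) * ((n.divisors.card : ℝ) * U) := by
          apply mul_le_mul_of_nonneg_left _ (by positivity)
          exact_mod_cast gcd_sum n U hn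
  have hUle : (U : ℝ) ≤ X / D := Nat.floor_le (by positivity)
  have hfin : K₁ * (n : ℝ) ^ (δ / 2) * ((n.divisors.card : ℝ) * U) ≤ K₁ * C * (n : ℝ) ^ δ * (X / D) := by
    have h1 : (n.divisors.card : ℝ) * U ≤ (C * (n : ℝ) ^ (δ / 2)) * (X / D) :=
      mul_le_mul (hdiv n hn) hUle (by positivity) (by positivity)
    calc K₁ * (n : ℝ) ^ (δ / 2) * ((n.divisors.card : ℝ) * U)
        ≤ K₁ * (n : ℝ) ^ (δ / 2) * ((C * (n : ℝ) ^ (δ / 2)) * (X / D)) :=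
          mul_le_mul_of_nonneg_left h1 (by positivity)
      _ = K₁ * C * ((n : ℝ) ^ (δ / 2) * (n : ℝ) ^ (δ / 2)) * (X / D) := by ring
      _ = K₁ * C * (n : ℝ) ^ δ * (X / D) := by
          rw [← Real.rpow_add hnpos]; congr 3; ring
  linarith

/-- TARGET 2 -/
theorem energyB (δ : ℝ) (hδ : 0 < δ) : ∃ K : ℝ, 0 < K ∧ ∀ (n D N : ℕ), 1 ≤ n → 1 ≤ D → 1 ≤ N →
    Nat.Coprime n D → ∀ Z : Finset (ℤ × ℤ × ℤ), Z ⊆ S3 n →
    (∑ p ∈ (Z ×ˢ Z).filter (fun p => (D : ℤ) ∣ n - dt p.1 p.2),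
      min (N : ℝ) ((N : ℝ) ^ 2 * Real.exp (-(((N : ℝ) - 1) * ((n - dt p.1 p.2 : ℤ) : ℝ) / (8 * n))))) ≤
      K * ((n : ℝ) * N) ^ δ * (N * Z.card + n / D) := by
  classical
  obtain ⟨K₁, hK₁, hP⟩ := pairs_cong (δ / 2) (by positivity)
  set C₂ : ℝ := 2 * (1 / (δ / 2)) + 4 * ((4 : ℝ) ^ (δ / 2) / (δ / 2)) with hC₂
  have hC₂pos : 0 < C₂ := by positivity
  refine ⟨3 + 2 * K₁ + 16 * K₁ * C₂, by positivity, ?_⟩
  intro n D N hn hD hN hcop Z hZ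
  have hnr : (1 : ℝ) ≤ n := by exact_mod_cast hn
  have hNr : (1 : ℝ) ≤ N := by exact_mod_cast hN
  have hDr : (1 : ℝ) ≤ D := by exact_mod_cast hD
  have hnpos : (0 : ℝ) < n := by linarith
  have hNpos : (0 : ℝ) < N := by linarith
  have hDpos : (0 : ℝ) < D := by linarith
  have hnN : (1 : ℝ) ≤ (n : ℝ) * N := by nlinarith
  have hp1 : (1 : ℝ) ≤ ((n : ℝ) * N) ^ δ := Real.one_le_rpow hnN hδ.le
  have hp2 : ((n : ℝ) * N) ^ (δ / 2) ≤ ((n : ℝ) * N) ^ δ :=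
    Real.rpow_le_rpow_of_exponent_le hnN (by linarith)
  have hp3 : (n : ℝ) ^ (δ / 2) ≤ ((n : ℝ) * N) ^ (δ / 2) :=
    Real.rpow_le_rpow hnpos.le (by nlinarith) (by positivity)
  have hp4 : ((n : ℝ) * N) ^ (δ / 2) * ((n : ℝ) * N) ^ (δ / 2) = ((n : ℝ) * N) ^ δ := by
    rw [← Real.rpow_add (by positivity)]; congr 1; ring
  set F := (Z ×ˢ Z).filter (fun p => (D : ℤ) ∣ n - dt p.1 p.2) with hF
  set w : ((ℤ × ℤ × ℤ) × (ℤ × ℤ × ℤ)) → ℝ := fun p =>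
    min (N : ℝ) ((N : ℝ) ^ 2 * Real.exp (-(((N : ℝ) - 1) * ((n - dt p.1 p.2 : ℤ) : ℝ) / (8 * n)))) with hw
  have hwN : ∀ p, w p ≤ N := fun p => min_le_left _ _
  rcases Nat.lt_or_ge 1 N with hN2 | hN1
  swap
  · -- N = 1
    obtain rfl : N = 1 := by omega
    have hX := hP n D hn hD hcop Z hZ (2 * n) (by positivity)
    have hFeq : (Z ×ˢ Z).filter (fun p => (D : ℤ) ∣ n - dt p.1 p.2 ∧
        ((n - dt p.1 p.2 : ℤ) : ℝ) ≤ 2 * n) = F := by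
      rw [hF]
      apply Finset.filter_congr
      intro p hp
      rw [Finset.mem_product] at hp
      have habs := dt_le (hZ hp.1) (hZ hp.2)
      rw [abs_le] at habs
      constructor
      · exact fun h => h.1
      · intro h
        refine ⟨h, ?_⟩
        have : (n : ℤ) - dt p.1 p.2 ≤ 2 * n := by linarith [habs.1]
        exact_mod_cast this
    rw [hFeq] at hX
    have hs : ∑ p ∈ F, w p ≤ F.card := by
      calc ∑ p ∈ F, w p ≤ ∑ p ∈ F, (1 : ℝ) := Finset.sum_le_sum (fun p _ => by simpa using hwN p)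
        _ = F.card := by simp
    refine hs.trans (hX.trans ?_)
    have e1 : (n : ℝ) ^ (δ / 2) ≤ ((n : ℝ) * (1 : ℕ)) ^ δ := hp3.trans hp2
    have e2 : (0 : ℝ) ≤ (Z.card : ℝ) := by positivity
    have e3 : (0 : ℝ) ≤ (n : ℝ) / D := by positivity
    have e4 : K₁ * (n : ℝ) ^ (δ / 2) * (2 * n / D) ≤ 2 * K₁ * ((n : ℝ) * (1 : ℕ)) ^ δ * (n / D) := by
      calc K₁ * (n : ℝ) ^ (δ / 2) * (2 * n / D) = 2 * K₁ * (n : ℝ) ^ (δ / 2) * (n / D) := by ring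
        _ ≤ 2 * K₁ * ((n : ℝ) * (1 : ℕ)) ^ δ * (n / D) := by gcongr
    have e5 : 2 * (Z.card : ℝ) ≤ 3 * ((n : ℝ) * (1 : ℕ)) ^ δ * Z.card := by nlinarith
    set P := ((n : ℝ) * (1 : ℕ)) ^ δ with hPdef
    have hP0 : 0 < P := by linarith
    have e6 : (0:ℝ) ≤ 16 * K₁ * C₂ := by positivity
    have e7 : 0 ≤ P * Z.card := by positivity
    have e8 : 0 ≤ P * (n / D) := by positivity
    have f1 := mul_nonneg e6 e7
    have f2 := mul_nonneg e6 e8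
    have f3 := mul_nonneg hK₁.le e7
    have hR : (3 + 2 * K₁ + 16 * K₁ * C₂) * P * ((1 : ℕ) * Z.card + n / D) =
      3 * P * Z.card + 3 * (P * (n / D)) + 2 * (K₁ * (P * Z.card)) + 2 * K₁ * P * (n / D)
        + 16 * K₁ * C₂ * (P * Z.card) + 16 * K₁ * C₂ * (P * (n / D)) := by push_cast; ring
    rw [hR]
    linarith only [e4, e5, e8, f1, f2, f3]
  -- N ≥ 2
  have hN2r : (2 : ℝ) ≤ N := by exact_mod_cast hN2
  set L : ℝ := 2 * Real.log N + 4 * Real.log (2 * n + 2) with hLdef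
  have hlogN : 0 ≤ Real.log N := Real.log_nonneg hNr
  have hlogn : 0 < Real.log (2 * n + 2) := Real.log_pos (by linarith)
  have hLpos : 0 < L := by positivity
  set σ : ℝ := 8 * L / (N - 1) with hσ
  have hN1pos : (0 : ℝ) < N - 1 := by linarith
  have hσpos : 0 < σ := by positivity
  have hX := hP n D hn hD hcop Z hZ (n * σ) (by positivity)
  -- split the sum
  set G := F.filter (fun p => ((n - dt p.1 p.2 : ℤ) : ℝ) ≤ n * σ) with hG
  have hGeq : (Z ×ˢ Z).filter (fun p => (D : ℤ) ∣ n - dt p.1 p.2 ∧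
      ((n - dt p.1 p.2 : ℤ) : ℝ) ≤ n * σ) = G := by
    rw [hG, hF, Finset.filter_filter]
  rw [hGeq] at hX
  have hsplit : ∑ p ∈ F, w p = ∑ p ∈ G, w p + ∑ p ∈ F.filter (fun p => ¬ ((n - dt p.1 p.2 : ℤ) : ℝ) ≤ n * σ), w p := by
    rw [hG, Finset.sum_filter_add_sum_filter_not]
  have hsum1 : ∑ p ∈ G, w p ≤ N * G.card := by
    calc ∑ p ∈ G, w p ≤ ∑ p ∈ G, (N : ℝ) := Finset.sum_le_sum (fun p _ => hwN p)
      _ = N * G.card := by rw [Finset.sum_const, nsmul_eq_mul]; ring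
  have hwsmall : ∀ p ∈ F.filter (fun p => ¬ ((n - dt p.1 p.2 : ℤ) : ℝ) ≤ n * σ), w p ≤ 1 / (2 * (n : ℝ) + 2) ^ 4 := by
    intro p hp
    rw [Finset.mem_filter] at hp
    have hgt : (n : ℝ) * σ < ((n - dt p.1 p.2 : ℤ) : ℝ) := not_le.1 hp.2
    have h1 : L ≤ ((N : ℝ) - 1) * ((n - dt p.1 p.2 : ℤ) : ℝ) / (8 * n) := by
      rw [le_div_iff₀ (by positivity)]
      have : L * (8 * n) = ((N : ℝ) - 1) * (n * σ) := by
        rw [hσ]; field_simp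
      rw [this]
      exact mul_le_mul_of_nonneg_left hgt.le hN1pos.le
    have h2 : Real.exp (-(((N : ℝ) - 1) * ((n - dt p.1 p.2 : ℤ) : ℝ) / (8 * n))) ≤ Real.exp (-L) :=
      Real.exp_le_exp.2 (by linarith)
    have h3 : (N : ℝ) ^ 2 * Real.exp (-L) = 1 / (2 * (n : ℝ) + 2) ^ 4 := by
      have ea : Real.exp L = (N : ℝ) ^ 2 * (2 * (n : ℝ) + 2) ^ 4 := by
        rw [hLdef, Real.exp_add]
        congr 1
        · rw [mul_comm, Real.exp_mul, Real.exp_log hNpos]; norm_cast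
        · rw [mul_comm, Real.exp_mul, Real.exp_log (by positivity)]; norm_cast
      rw [Real.exp_neg, ea]
      field_simp
    calc w p ≤ (N : ℝ) ^ 2 * Real.exp (-(((N : ℝ) - 1) * ((n - dt p.1 p.2 : ℤ) : ℝ) / (8 * n))) := min_le_right _ _
      _ ≤ (N : ℝ) ^ 2 * Real.exp (-L) := mul_le_mul_of_nonneg_left h2 (by positivity)
      _ = _ := h3
  have hScard : ((S3 n).card : ℝ) ≤ (2 * (n : ℝ) + 2) ^ 3 := by
    have h1 : (S3 n).card ≤ (2 * n + 1) ^ 3 := by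
      unfold S3
      refine (Finset.card_filter_le _ _).trans ?_
      rw [Finset.card_product, Finset.card_product, Int.card_Icc]
      have : ((n : ℤ) + 1 - -(n : ℤ)).toNat = 2 * n + 1 := by omega
      rw [this]
      apply le_of_eq; ring
    have h2 : ((S3 n).card : ℝ) ≤ (2 * (n : ℝ) + 1) ^ 3 := by exact_mod_cast h1
    refine h2.trans ?_
    gcongr
    norm_num
  have hZcard : (Z.card : ℝ) ≤ (2 * (n : ℝ) + 2) ^ 3 := by
    have : (Z.card : ℝ) ≤ (S3 n).card := by exact_mod_cast Finset.card_le_card hZ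
    linarith
  have hsum2 : ∑ p ∈ F.filter (fun p => ¬ ((n - dt p.1 p.2 : ℤ) : ℝ) ≤ n * σ), w p ≤ Z.card := by
    have hc : ((F.filter (fun p => ¬ ((n - dt p.1 p.2 : ℤ) : ℝ) ≤ n * σ)).card : ℝ) ≤ (Z.card : ℝ) * Z.card := by
      have : (F.filter (fun p => ¬ ((n - dt p.1 p.2 : ℤ) : ℝ) ≤ n * σ)).card ≤ (Z ×ˢ Z).card :=
        Finset.card_le_card ((Finset.filter_subset _ _).trans (Finset.filter_subset _ _))
      rw [Finset.card_product] at this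
      exact_mod_cast this
    calc ∑ p ∈ F.filter (fun p => ¬ ((n - dt p.1 p.2 : ℤ) : ℝ) ≤ n * σ), w p
        ≤ ∑ p ∈ F.filter (fun p => ¬ ((n - dt p.1 p.2 : ℤ) : ℝ) ≤ n * σ), 1 / (2 * (n : ℝ) + 2) ^ 4 :=
          Finset.sum_le_sum hwsmall
      _ = ((F.filter (fun p => ¬ ((n - dt p.1 p.2 : ℤ) : ℝ) ≤ n * σ)).card : ℝ) * (1 / (2 * (n : ℝ) + 2) ^ 4) := by
          rw [Finset.sum_const, nsmul_eq_mul]
      _ ≤ ((Z.card : ℝ) * Z.card) * (1 / (2 * (n : ℝ) + 2) ^ 4) :=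
          mul_le_mul_of_nonneg_right hc (by positivity)
      _ ≤ ((Z.card : ℝ) * (2 * (n : ℝ) + 2) ^ 3) * (1 / (2 * (n : ℝ) + 2) ^ 4) := by
          gcongr
      _ = (Z.card : ℝ) * (1 / (2 * (n : ℝ) + 2)) := by field_simp
      _ ≤ (Z.card : ℝ) * 1 := by
          apply mul_le_mul_of_nonneg_left _ (by positivity)
          rw [div_le_one (by positivity)]; linarith
      _ = Z.card := mul_one _
  -- bound on N σ
  have hLle : L ≤ C₂ * ((n : ℝ) * N) ^ (δ / 2) := by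
    have h1 : Real.log N ≤ ((N : ℝ)) ^ (δ / 2) / (δ / 2) := Real.log_le_rpow_div hNpos.le (by positivity)
    have h2 : Real.log (2 * n + 2) ≤ (4 * (n : ℝ)) ^ (δ / 2) / (δ / 2) := by
      refine (Real.log_le_log (by positivity) (by linarith : 2 * (n : ℝ) + 2 ≤ 4 * n)).trans ?_
      exact Real.log_le_rpow_div (by positivity) (by positivity)
    have h3 : (N : ℝ) ^ (δ / 2) ≤ ((n : ℝ) * N) ^ (δ / 2) :=
      Real.rpow_le_rpow hNpos.le (by nlinarith) (by positivity)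
    have h4 : (4 * (n : ℝ)) ^ (δ / 2) ≤ (4 : ℝ) ^ (δ / 2) * ((n : ℝ) * N) ^ (δ / 2) := by
      rw [Real.mul_rpow (by norm_num) hnpos.le]
      exact mul_le_mul_of_nonneg_left hp3 (by positivity)
    calc L = 2 * Real.log N + 4 * Real.log (2 * n + 2) := rfl
      _ ≤ 2 * (((n : ℝ) * N) ^ (δ / 2) / (δ / 2)) + 4 * ((4 : ℝ) ^ (δ / 2) * ((n : ℝ) * N) ^ (δ / 2) / (δ / 2)) := by
          have a1 : Real.log N ≤ ((n : ℝ) * N) ^ (δ / 2) / (δ / 2) := h1.trans (by gcongr)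
          have a2 : Real.log (2 * n + 2) ≤ (4 : ℝ) ^ (δ / 2) * ((n : ℝ) * N) ^ (δ / 2) / (δ / 2) :=
            h2.trans (by gcongr)
          linarith
      _ = C₂ * ((n : ℝ) * N) ^ (δ / 2) := by rw [hC₂]; ring
  have hNσ : (N : ℝ) * σ ≤ 16 * L := by
    rw [hσ]
    have : (N : ℝ) * (8 * L / (N - 1)) = 8 * L * (N / (N - 1)) := by ring
    rw [this]
    have h2 : (N : ℝ) / (N - 1) ≤ 2 := by rw [div_le_iff₀ hN1pos]; linarith only [hN2r]
    have h3 := mul_le_mul_of_nonneg_left h2 (by positivity : 0 ≤ 8 * L)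
    linarith only [h3]
  -- combine
  have htot : ∑ p ∈ F, w p ≤ N * (2 * Z.card + K₁ * (n : ℝ) ^ (δ / 2) * (n * σ / D)) + Z.card := by
    rw [hsplit]
    have := mul_le_mul_of_nonneg_left hX hNpos.le
    linarith only [this, hsum1, hsum2]
  refine htot.trans ?_
  have hkey : N * (K₁ * (n : ℝ) ^ (δ / 2) * (n * σ / D)) ≤ 16 * K₁ * C₂ * ((n : ℝ) * N) ^ δ * (n / D) := by
    calc N * (K₁ * (n : ℝ) ^ (δ / 2) * (n * σ / D)) = K₁ * (n : ℝ) ^ (δ / 2) * (N * σ) * (n / D) := by ring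
      _ ≤ K₁ * ((n : ℝ) * N) ^ (δ / 2) * (16 * (C₂ * ((n : ℝ) * N) ^ (δ / 2))) * (n / D) := by
          have : (N : ℝ) * σ ≤ 16 * (C₂ * ((n : ℝ) * N) ^ (δ / 2)) := by linarith only [hNσ, hLle]
          gcongr
      _ = 16 * K₁ * C₂ * (((n : ℝ) * N) ^ (δ / 2) * ((n : ℝ) * N) ^ (δ / 2)) * (n / D) := by ring
      _ = _ := by rw [hp4]
  have hZ0 : (0 : ℝ) ≤ Z.card := by positivity
  have hnD : (0 : ℝ) ≤ (n : ℝ) / D := by positivity
  set P := ((n : ℝ) * N) ^ δ with hPdef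
  have e1 : (N : ℝ) * (2 * Z.card) + Z.card ≤ 3 * P * (N * Z.card) := by
    have a1 : (Z.card : ℝ) ≤ N * Z.card := by
      have := mul_le_mul_of_nonneg_right hNr hZ0
      linarith only [this]
    have a2 : (N : ℝ) * Z.card ≤ P * (N * Z.card) := by
      have h0 : 0 ≤ (N : ℝ) * Z.card := by positivity
      have := mul_le_mul_of_nonneg_right hp1 h0
      linarith only [this]
    linarith only [a1, a2]
  have e6 : (0:ℝ) ≤ 16 * K₁ * C₂ := by positivity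
  have hP0 : 0 < P := by linarith only [hp1]
  have e7 : 0 ≤ P * (N * Z.card) := by positivity
  have e8 : 0 ≤ P * (n / D) := by positivity
  have f1 := mul_nonneg e6 e7
  have f2 := mul_nonneg hK₁.le e7
  have f3 := mul_nonneg hK₁.le e8
  have hR : (3 + 2 * K₁ + 16 * K₁ * C₂) * P * (N * Z.card + n / D) =
      3 * P * (N * Z.card) + 3 * (P * (n / D)) + 2 * (K₁ * (P * (N * Z.card))) + 2 * (K₁ * (P * (n / D)))
        + 16 * K₁ * C₂ * (P * (N * Z.card)) + 16 * K₁ * C₂ * P * (n / D) := by ring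
  have hLh : (N : ℝ) * (2 * Z.card + K₁ * (n : ℝ) ^ (δ / 2) * (n * σ / D)) + Z.card =
      ((N : ℝ) * (2 * Z.card) + Z.card) + N * (K₁ * (n : ℝ) ^ (δ / 2) * (n * σ / D)) := by ring
  rw [hR, hLh]
  linarith only [e1, hkey, e8, f1, f2, f3]

end Pool.Agent.H978V
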