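import Pool.Agent.Helper557.Rz.Defs
import Pool.Agent.H978V.Ar

/-!
# Short V-words for diagonal rotations: definitions

Integral quaternions are `ℍ[ℤ]`; the six gates are `al` of `Helper557.Rz`, reduced words `RW`, products `qw`.
-/

set_option autoImplicit false

open MeasureTheory Set
open scoped Quaternion

namespace Pool.Agent.H978V

open Pool.Agent.Helper557.Rz

/-- vectors of length two over `ZMod e` -/
abbrev Vec (e : ℕ) := Fin 2 → ZMod e

/-- unimodular vectors -/
def Uni {e : ℕ} (u : Vec e) : Prop := IsCoprime (u 0) (u 1)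

/-- the matrix of an integral quaternion modulo `e`; `t` is a square root of `-1` -/
def Ph {e : ℕ} (t : ZMod e) (x : ℍ[ℤ]) : Matrix (Fin 2) (Fin 2) (ZMod e) :=
  !![(x.re : ZMod e) + x.imI * t, (x.imJ : ZMod e) + x.imK * t;
     -(x.imJ : ZMod e) + x.imK * t, (x.re : ZMod e) - x.imI * t]

/-- reduction of vectors modulo a divisor -/
def red {e c : ℕ} (h : c ∣ e) (u : Vec e) : Vec c := fun i => ZMod.castHom h (ZMod c) (u i)

/-- real functions on vectors: supported on unimodular vectors and invariant under units -/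
structure AdmR {e : ℕ} (f : Vec e → ℝ) : Prop where
  supp : ∀ u, ¬ Uni u → f u = 0
  inv : ∀ (a : (ZMod e)ˣ) (u : Vec e), f ((a : ZMod e) • u) = f u

/-- the same for families of continuous functions on the two-sphere -/
structure AdmF {e : ℕ} (F : Vec e → C(S 3, ℝ)) : Prop where
  supp : ∀ u, ¬ Uni u → F u = 0
  inv : ∀ (a : (ZMod e)ˣ) (u : Vec e), F ((a : ZMod e) • u) = F u

/-- new real functions: all sums over fibres of reductions to proper divisors vanish -/
def NewR {e : ℕ} [NeZero e] (f : Vec e → ℝ) : Prop :=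
  ∀ (c : ℕ) (h : c ∣ e), c ≠ e → ∀ w : Vec c, (∑ u : Vec e, if red h u = w then f u else 0) = 0

/-- new families -/
def NewF {e : ℕ} [NeZero e] (F : Vec e → C(S 3, ℝ)) : Prop :=
  ∀ (c : ℕ) (h : c ∣ e), c ≠ e → ∀ w : Vec c, (∑ u : Vec e, if red h u = w then F u else 0) = 0

/-- the action of the six gates on families, `R` the homomorphism to rotations -/
noncomputable def TF {e : ℕ} (R : ℍ[ℝ]ˣ →* Iso 3) (t : ZMod e) (F : Vec e → C(S 3, ℝ)) :
    Vec e → C(S 3, ℝ) :=
  fun u => ∑ a : Fin 6, cr (R (ua a)) (F ((Ph t (al a)).mulVec u))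

/-- inner product of families -/
noncomputable def ip {e : ℕ} [NeZero e] (F G : Vec e → C(S 3, ℝ)) : ℝ :=
  ∑ u : Vec e, ∫ x, F u x * G u x ∂(sg 3)

/-- total integral of a family -/
noncomputable def tot {e : ℕ} [NeZero e] (F : Vec e → C(S 3, ℝ)) : ℝ :=
  ∑ u : Vec e, ∫ x, F u x ∂(sg 3)

/-- quadratic form of a kernel on the sphere -/
noncomputable def QK {e : ℕ} [NeZero e] (K : S 3 → S 3 → ℝ) (F : Vec e → C(S 3, ℝ)) : ℝ :=
  ∑ u : Vec e, ∫ x, ∫ y, K x y * F u x * F u y ∂(sg 3) ∂(sg 3)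

/-- The defining property of the rotation homomorphism. -/
def IsRot (R : ℍ[ℝ]ˣ →* Iso 3) : Prop := ∀ (q : ℍ[ℝ]ˣ) (x : E 3),
    imq (R q x) = (q : ℍ[ℝ]) * imq x * ((q⁻¹ : ℍ[ℝ]ˣ) : ℍ[ℝ])

end Pool.Agent.H978V
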