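import Pool.Agent.Helper557.Rz.M_ps
import Pool.Agent.H978V.Defs

/-!
Pair sums over reduced words with general weights (generalisation of `Helper557/Rz/M_ps.lean`).
-/

set_option autoImplicit false

open MeasureTheory Set
open scoped Quaternion

namespace Pool.Agent.H978V

open Pool.Agent.Helper557.Rz

/-- pairs with equal first letters -/
lemma g4_part_eq (G : ℕ → ℍ[ℤ] → ℝ) (hG : ∀ l q, 0 ≤ G l q)
    (h5 : ∀ l q, G (l + 1) ((5 : ℤ) • q) = G l q) (l : ℕ) (C : ℝ)
    (hC : ∀ v ∈ RW l, (∑ a : Fin 6, if v.head? ≠ some (a + 3) then (1 : ℝ) else 0) = C) :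
    (∑ w ∈ RW (l + 1), ∑ w' ∈ RW (l + 1),
      if w.head? = w'.head? then G (l + 1) (qw w * star (qw w')) else 0) ≤
      C * ∑ w ∈ RW l, ∑ w' ∈ RW l, G l (qw w * star (qw w')) := by
  have h1 : (∑ w ∈ RW (l + 1), ∑ w' ∈ RW (l + 1),
      if w.head? = w'.head? then G (l + 1) (qw w * star (qw w')) else 0) ≤
      ∑ a : Fin 6, ∑ v ∈ RW l, ∑ v' ∈ RW l,
        (if v.head? ≠ some (a + 3) then (1 : ℝ) else 0) *
          G l (qw v * star (qw v')) := by
    rw [RW_sum_succ]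
    apply Finset.sum_le_sum
    intro a _
    apply Finset.sum_le_sum
    intro v _
    by_cases hv : v.head? ≠ some (a + 3)
    · rw [if_pos hv]
      simp only [if_pos hv, one_mul]
      rw [RW_sum_succ]
      have h2 : ∀ a' : Fin 6, (∑ v' ∈ RW l, if v'.head? ≠ some (a' + 3) then
          (if (a :: v).head? = (a' :: v').head? then
            G (l + 1) (qw (a :: v) * star (qw (a' :: v'))) else 0) else 0) ≤
          if a' = a then ∑ v' ∈ RW l, G l (qw v * star (qw v')) else 0 := by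
        intro a'
        by_cases ha : a' = a
        · subst ha
          rw [if_pos rfl]
          apply Finset.sum_le_sum
          intro v' _
          simp only [List.head?_cons, if_true]
          rw [qw_cons_star, h5]
          split_ifs
          · exact le_rfl
          · exact hG _ _
        · rw [if_neg ha]
          apply le_of_eq
          apply Finset.sum_eq_zero
          intro v' _
          have : ¬ ((a :: v).head? = (a' :: v').head?) := by
            simp only [List.head?_cons, Option.some.injEq]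
            exact fun h => ha h.symm
          rw [if_neg this, ite_self]
      refine (Finset.sum_le_sum fun a' _ => h2 a').trans ?_
      rw [Finset.sum_ite_eq' Finset.univ a]
      simp
    · rw [if_neg hv]
      simp only [if_neg hv, zero_mul]
      simp
  refine h1.trans (le_of_eq ?_)
  rw [Finset.sum_comm]
  rw [Finset.mul_sum]
  apply Finset.sum_congr rfl
  intro v hv
  rw [Finset.sum_comm, Finset.mul_sum]
  apply Finset.sum_congr rfl
  intro v' _
  rw [← Finset.sum_mul, hC v hv]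

/-- pairs with different first letters -/
lemma g4_part_ne (G : ℕ → ℍ[ℤ] → ℝ) (hG : ∀ l q, 0 ≤ G l q) (l : ℕ) :
    (∑ w ∈ RW l, ∑ w' ∈ RW l,
      if w.head? ≠ w'.head? then G l (qw w * star (qw w')) else 0) ≤
      ∑ p ∈ QQ l, G l ⟨p.1, p.2.1, p.2.2.1, p.2.2.2⟩ := by
  rw [← Finset.sum_product', ← Finset.sum_filter]
  have hinj : Set.InjOn tup ((RW l ×ˢ RW l).filter
      (fun x : List (Fin 6) × List (Fin 6) => x.1.head? ≠ x.2.head?)) := by
    rintro ⟨w, w'⟩ hp ⟨z, z'⟩ hq h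
    simp only [Finset.coe_filter, Finset.mem_product, Set.mem_ofPred_eq] at hp hq
    obtain ⟨⟨a1, a2⟩, a3⟩ := hp
    obtain ⟨⟨b1, b2⟩, b3⟩ := hq
    have he : qw w * star (qw w') = qw z * star (qw z') := by
      simp only [tup, Prod.mk.injEq] at h
      exact Quaternion.ext _ _ h.1 h.2.1 h.2.2.1 h.2.2.2
    obtain ⟨c1, c2⟩ := pair_inj l w w' z z' a1 a2 b1 b2 a3 b3 he
    rw [c1, c2]
  have h1 : (∑ x ∈ (RW l ×ˢ RW l).filter
      (fun x : List (Fin 6) × List (Fin 6) => x.1.head? ≠ x.2.head?),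
      G l (qw x.1 * star (qw x.2))) =
      ∑ p ∈ ((RW l ×ˢ RW l).filter
        (fun x : List (Fin 6) × List (Fin 6) => x.1.head? ≠ x.2.head?)).image tup,
        G l ⟨p.1, p.2.1, p.2.2.1, p.2.2.2⟩ := by
    rw [Finset.sum_image hinj]
    rfl
  rw [h1]
  apply Finset.sum_le_sum_of_subset_of_nonneg
  · intro q hq
    obtain ⟨p, hp, rfl⟩ := Finset.mem_image.1 hq
    rw [Finset.mem_filter, Finset.mem_product] at hp
    exact tup_mem l p hp.1.1 hp.1.2
  · intro q _ _
    exact hG _ _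

lemma g4_step (G : ℕ → ℍ[ℤ] → ℝ) (hG : ∀ l q, 0 ≤ G l q)
    (h5 : ∀ l q, G (l + 1) ((5 : ℤ) • q) = G l q) (l : ℕ) (C : ℝ)
    (hC : ∀ v ∈ RW l, (∑ a : Fin 6, if v.head? ≠ some (a + 3) then (1 : ℝ) else 0) = C) :
    ∑ w ∈ RW (l + 1), ∑ w' ∈ RW (l + 1), G (l + 1) (qw w * star (qw w')) ≤
      C * (∑ w ∈ RW l, ∑ w' ∈ RW l, G l (qw w * star (qw w'))) +
        ∑ p ∈ QQ (l + 1), G (l + 1) ⟨p.1, p.2.1, p.2.2.1, p.2.2.2⟩ := by
  refine le_trans (le_of_eq ?_) (add_le_add (g4_part_eq G hG h5 l C hC) (g4_part_ne G hG (l + 1)))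
  rw [← Finset.sum_add_distrib]
  apply Finset.sum_congr rfl
  intro w _
  rw [← Finset.sum_add_distrib]
  apply Finset.sum_congr rfl
  intro w' _
  by_cases h : w.head? = w'.head?
  · simp [h]
  · simp [h]

lemma g4_zero (G : ℕ → ℍ[ℤ] → ℝ) :
    ∑ w ∈ RW 0, ∑ w' ∈ RW 0, G 0 (qw w * star (qw w')) = G 0 1 := by
  simp [RW, qw]

/-- TARGET -/
theorem pair_sum_le (G : ℕ → ℍ[ℤ] → ℝ) (hG : ∀ l q, 0 ≤ G l q)
    (h5 : ∀ l q, G (l + 1) ((5 : ℤ) • q) = G l q) (l : ℕ) (hl : 1 ≤ l) :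
    ∑ w ∈ RW l, ∑ w' ∈ RW l, G l (qw w * star (qw w')) ≤
      6 * 5 ^ (l - 1) * G 0 1 + ∑ k ∈ Finset.Icc 1 l, (5 : ℝ) ^ (l - k) *
        ∑ p ∈ QQ k, G k ⟨p.1, p.2.1, p.2.2.1, p.2.2.2⟩ := by
  induction l, hl using Nat.le_induction with
  | base =>
    have h := g4_step G hG h5 0 6 (by
      intro v hv
      rw [RW, Finset.mem_singleton] at hv
      rw [hv, card_letters]
      simp)
    rw [g4_zero] at h
    simpa using h
  | succ l hl ih =>
    obtain ⟨m, rfl⟩ : ∃ m, l = m + 1 := ⟨l - 1, by omega⟩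
    have h := g4_step G hG h5 (m + 1) 5 (by
      intro v hv
      obtain ⟨b, hb⟩ := RW_ne_nil_ps m v hv
      rw [card_letters, hb]
      simp)
    have h2 : ∑ k ∈ Finset.Icc 1 (m + 1 + 1), (5 : ℝ) ^ (m + 1 + 1 - k) *
        ∑ p ∈ QQ k, G k ⟨p.1, p.2.1, p.2.2.1, p.2.2.2⟩ =
        5 * ∑ k ∈ Finset.Icc 1 (m + 1), (5 : ℝ) ^ (m + 1 - k) *
          ∑ p ∈ QQ k, G k ⟨p.1, p.2.1, p.2.2.1, p.2.2.2⟩ +
          ∑ p ∈ QQ (m + 1 + 1), G (m + 1 + 1) ⟨p.1, p.2.1, p.2.2.1, p.2.2.2⟩ := by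
      rw [Finset.sum_Icc_succ_top (by omega), Nat.sub_self, pow_zero, one_mul]
      congr 1
      rw [Finset.mul_sum]
      apply Finset.sum_congr rfl
      intro k hk
      rw [Finset.mem_Icc] at hk
      have : m + 1 + 1 - k = (m + 1 - k) + 1 := by omega
      rw [this, pow_succ]
      ring
    rw [h2]
    have h3 : (5 : ℝ) ^ (m + 1 + 1 - 1) = 5 * 5 ^ (m + 1 - 1) := by
      simp only [Nat.add_sub_cancel]
      rw [pow_succ]
      ring
    rw [h3]
    linarith

end Pool.Agent.H978V
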