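import Pool.Agent.H978V.Defs2
import Pool.Agent.W65.CS.R2
import Pool.Agent.H978V.G4

/-!
JOB C1 (owner helper978, MP_06cce2_nt).  Starting files `Helper557/Rz/*`, `W65/CS/R2.lean` (`R2_bound`: number of representations as a sum of two squares);
`H978V/{Ar,Defs,Defs2}.lean` are on origin/main.  `wt N s = min N (N² exp(-(N-1)s))`.

Energy of the word side.

PROOF.  `pair_sum_le` with `G k q = if (-imJ + imK t = 0 in ZMod D) then wt N ((imJ² + imK²)/(4·25^k)) else 0` (5 is a unit mod `D`): it is enough to show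
`∑_{p ∈ QQ k} G k p ≤ K (5^k N)^{δ/2} (25^k/D + √N 5^k + N)` and to sum: `6·5^{j-1} N + ∑_{k=1}^j 5^{j-k} K (5^j N)^{δ/2}(25^k/D + √N 5^k + N) ≤ K' (5^j N)^{δ} (25^j/D + N 5^j)` (`j ≤ C 5^{jδ/2}`).
Points `p = (x₁,x₂,x₃,x₄)`, `|p|² = 25^k`, `x₃ ≡ t x₄ mod D`.
* `N = 1`: `wt ≤ 1`; for each `x₄` (`≤ 2·5^k+1` values) at most `2·5^k/D + 1` values `x₃ ∈ [-5^k, 5^k]`, and `(x₁,x₂)` at most `C 25^{kδ/8}`: total `≤ C 25^{kδ/8} (25^k/D + 5^k + 1)`.
* `N ≥ 2`: `σ = min 1 (16 (2 log N + 4 k log 5 + 4)/(N-1))`, `R = 5^k √σ`.  Points with `x₃² + x₄² ≤ R²`: weight `≤ N`, number `≤ C 25^{kδ/8}(2R+1)(2R/D+1) ≤ C' 25^{kδ/8} (R²/D + R + 1)`, and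
  `N R² = N σ 25^k ≤ C (log N + k + 1) 25^k`, `N R = N √σ 5^k ≤ C √N (log N + k + 1)^{1/2} 5^k`.  The other points have weight `≤ N² exp(-(N-1)σ/4) ≤ 25^{-2k}` and there are at most `(2·5^k+1)^4`... use
  `QQ k` has at most `C 25^{k(1+δ)}`, or at most `2 (2·5^k+1)³ ≤ 54·125^k` elements, so their total is `≤ C`.  Logarithms are `≤ C (5^k N)^{δ/4}`.
-/

set_option autoImplicit false

open MeasureTheory Set
open scoped Quaternion

namespace Pool.Agent.H978V

open Pool.Agent.Helper557.Rz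


/-- residue classes in an interval -/
theorem energyA_class (D : ℕ) [NeZero D] (M : ℕ) (c : ZMod D) :
    (((Finset.Icc (-(M : ℤ)) M).filter (fun x : ℤ => -(x : ZMod D) + c = 0)).card : ℝ) ≤
      (2 * M + 1) / D + 1 := by
  have hD : (0 : ℝ) < D := by exact_mod_cast Nat.pos_of_ne_zero (NeZero.ne D)
  have hDz : (0 : ℤ) < D := by exact_mod_cast Nat.pos_of_ne_zero (NeZero.ne D)
  by_cases hne : ((Finset.Icc (-(M : ℤ)) M).filter (fun x : ℤ => -(x : ZMod D) + c = 0)).Nonempty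
  · obtain ⟨v, hv⟩ := hne
    rw [Finset.mem_filter] at hv
    have hsub : (Finset.Icc (-(M : ℤ)) M).filter (fun x : ℤ => -(x : ZMod D) + c = 0) ⊆
        (Finset.Ico (-(M : ℤ)) (M + 1)).filter (fun x => x ≡ v [ZMOD D]) := by
      intro x hx
      rw [Finset.mem_filter] at hx ⊢
      refine ⟨?_, ?_⟩
      · have := hx.1
        rw [Finset.mem_Icc] at this
        rw [Finset.mem_Ico]
        omega
      · rw [← ZMod.intCast_eq_intCast_iff]
        have h1 := hx.2
        have h2 := hv.2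
        have h3 : (x : ZMod D) = c := by
          rw [neg_add_eq_zero] at h1
          exact h1
        have h4 : (v : ZMod D) = c := by
          rw [neg_add_eq_zero] at h2
          exact h2
        rw [h3, h4]
    have hcard := Finset.card_le_card hsub
    have h5 := Int.Ico_filter_modEq_card (-(M : ℤ)) (M + 1) hDz v
    have h6 : ((((Finset.Ico (-(M : ℤ)) (M + 1)).filter (fun x => x ≡ v [ZMOD D])).card : ℤ) : ℚ) ≤
        (2 * M + 1) / D + 1 := by
      rw [h5]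
      push_cast
      have hDq : (0 : ℚ) < D := by exact_mod_cast Nat.pos_of_ne_zero (NeZero.ne D)
      apply max_le
      · have h7 := Int.ceil_lt_add_one (((M : ℚ) + 1 - v) / D)
        have h8 := Int.le_ceil ((-(M : ℚ) - v) / D)
        have h9 : ((M : ℚ) + 1 - v) / D - (-(M : ℚ) - v) / D = (2 * M + 1) / D := by
          field_simp
          ring
        linarith
      · positivity
    have h10 : (((Finset.Ico (-(M : ℤ)) (M + 1)).filter (fun x => x ≡ v [ZMOD D])).card : ℝ) ≤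
        (2 * M + 1) / D + 1 := by
      have h11 : ((((Finset.Ico (-(M : ℤ)) (M + 1)).filter (fun x => x ≡ v [ZMOD D])).card : ℚ) : ℝ) ≤
          (((2 * M + 1) / D + 1 : ℚ) : ℝ) := by
        exact_mod_cast h6
      push_cast at h11
      exact h11
    calc (((Finset.Icc (-(M : ℤ)) M).filter (fun x : ℤ => -(x : ZMod D) + c = 0)).card : ℝ) ≤
        (((Finset.Ico (-(M : ℤ)) (M + 1)).filter (fun x => x ≡ v [ZMOD D])).card : ℝ) := by
          exact_mod_cast hcard
      _ ≤ _ := h10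
  · rw [Finset.not_nonempty_iff_eq_empty.1 hne]
    simp only [Finset.card_empty, Nat.cast_zero]
    positivity

/-- pairs `(x₃, x₄)` in a square satisfying the congruence -/
theorem energyA_pairs (D : ℕ) [NeZero D] (M : ℕ) (t : ZMod D) :
    (((Finset.Icc (-(M : ℤ)) M ×ˢ Finset.Icc (-(M : ℤ)) M).filter
      (fun p : ℤ × ℤ => -(p.1 : ZMod D) + p.2 * t = 0)).card : ℝ) ≤
      (2 * M + 1) * ((2 * M + 1) / D + 1) := by
  have h1 : ((Finset.Icc (-(M : ℤ)) M ×ˢ Finset.Icc (-(M : ℤ)) M).filter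
      (fun p : ℤ × ℤ => -(p.1 : ZMod D) + p.2 * t = 0)).card =
      ∑ y ∈ Finset.Icc (-(M : ℤ)) M,
        ((Finset.Icc (-(M : ℤ)) M).filter (fun x : ℤ => -(x : ZMod D) + (y : ZMod D) * t = 0)).card := by
    rw [Finset.card_filter, Finset.sum_product_right]
    apply Finset.sum_congr rfl
    intro y _
    rw [Finset.card_filter]
  rw [h1]
  push_cast
  have h2 : ∀ y ∈ Finset.Icc (-(M : ℤ)) M,
      (((Finset.Icc (-(M : ℤ)) M).filter
        (fun x : ℤ => -(x : ZMod D) + (y : ZMod D) * t = 0)).card : ℝ) ≤ (2 * M + 1) / D + 1 :=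
    fun y _ => energyA_class D M _
  refine (Finset.sum_le_sum h2).trans ?_
  rw [Finset.sum_const, Int.card_Icc, nsmul_eq_mul]
  have h3 : ((((M : ℤ) + 1 - -(M : ℤ)).toNat : ℕ) : ℝ) = 2 * M + 1 := by
    have : ((M : ℤ) + 1 - -(M : ℤ)).toNat = 2 * M + 1 := by omega
    rw [this]
    push_cast
    ring
  rw [h3]

open Classical in
/-- the points of `QQ k` with small last two coordinates satisfying the congruence -/
noncomputable def energyA_set (D : ℕ) (k T : ℕ) (t : ZMod D) : Finset (ℤ × ℤ × ℤ × ℤ) :=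
  (QQ k).filter (fun p => -(p.2.2.1 : ZMod D) + (p.2.2.2 : ZMod D) * t = 0 ∧
    p.2.2.1 ^ 2 + p.2.2.2 ^ 2 ≤ (T : ℤ))

theorem energyA_mem_QQ {k : ℕ} {p : ℤ × ℤ × ℤ × ℤ} (hp : p ∈ QQ k) :
    p.1 ^ 2 + p.2.1 ^ 2 + p.2.2.1 ^ 2 + p.2.2.2 ^ 2 = 25 ^ k := by
  unfold QQ at hp
  rw [Finset.mem_filter] at hp
  exact hp.2

theorem energyA_card (C ε : ℝ) (hC1 : 1 ≤ C)
    (hC : ∀ m n : ℕ, m ≤ n → 1 ≤ n → ((Pool.Agent.W65.CS.R2 m).card : ℝ) ≤ C * (n : ℝ) ^ ε)
    (D : ℕ) [NeZero D] (k T : ℕ) (t : ZMod D) :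
    ((energyA_set D k T t).card : ℝ) ≤
      (2 * (Nat.sqrt T : ℝ) + 1) * ((2 * (Nat.sqrt T : ℝ) + 1) / D + 1) * (C * ((25 ^ k : ℕ) : ℝ) ^ ε) := by
  classical
  set M := Nat.sqrt T with hM
  set B := (Finset.Icc (-(M : ℤ)) M ×ˢ Finset.Icc (-(M : ℤ)) M).filter
      (fun p : ℤ × ℤ => -(p.1 : ZMod D) + p.2 * t = 0) with hB
  have hmaps : ∀ p ∈ energyA_set D k T t, (p.2.2.1, p.2.2.2) ∈ B := by
    intro p hp
    unfold energyA_set at hp
    rw [Finset.mem_filter] at hp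
    obtain ⟨hp1, hp2, hp3⟩ := hp
    rw [hB, Finset.mem_filter, Finset.mem_product]
    have key : ∀ a b : ℤ, a ^ 2 + b ^ 2 ≤ (T : ℤ) → a ∈ Finset.Icc (-(M : ℤ)) M := by
      intro a b hab
      have h1 : a.natAbs ^ 2 ≤ T := by
        have : ((a.natAbs ^ 2 : ℕ) : ℤ) ≤ T := by
          push_cast
          rw [sq_abs]
          nlinarith [sq_nonneg b]
        exact_mod_cast this
      have h2 : a.natAbs ≤ M := by
        rw [hM, Nat.le_sqrt']
        exact h1
      rw [Finset.mem_Icc]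
      omega
    refine ⟨⟨key _ _ hp3, key _ p.2.2.1 (by linarith)⟩, hp2⟩
  have hfib := Finset.card_eq_sum_card_fiberwise
    (f := fun p : ℤ × ℤ × ℤ × ℤ => (p.2.2.1, p.2.2.2)) (s := energyA_set D k T t) (t := B) hmaps
  rw [hfib, Nat.cast_sum]
  have hone : ∀ b ∈ B, ((((energyA_set D k T t).filter
      (fun p : ℤ × ℤ × ℤ × ℤ => (p.2.2.1, p.2.2.2) = b)).card : ℕ) : ℝ) ≤
      C * ((25 ^ k : ℕ) : ℝ) ^ ε := by
    intro b _
    by_cases hne : ((energyA_set D k T t).filter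
      (fun p : ℤ × ℤ × ℤ × ℤ => (p.2.2.1, p.2.2.2) = b)).Nonempty
    · obtain ⟨p0, hp0⟩ := hne
      rw [Finset.mem_filter] at hp0
      have hp0Q : p0 ∈ QQ k := by
        have := hp0.1
        unfold energyA_set at this
        exact (Finset.mem_filter.1 this).1
      have hq0 := energyA_mem_QQ hp0Q
      obtain ⟨m, hm⟩ : ∃ m : ℕ, (m : ℤ) = p0.1 ^ 2 + p0.2.1 ^ 2 :=
        ⟨(p0.1 ^ 2 + p0.2.1 ^ 2).toNat, Int.toNat_of_nonneg (by positivity)⟩
      have hb1 : p0.2.2.1 = b.1 := congrArg Prod.fst hp0.2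
      have hb2 : p0.2.2.2 = b.2 := congrArg Prod.snd hp0.2
      have hmle : m ≤ 25 ^ k := by
        have : (m : ℤ) ≤ ((25 ^ k : ℕ) : ℤ) := by
          push_cast
          nlinarith [sq_nonneg p0.2.2.1, sq_nonneg p0.2.2.2]
        exact_mod_cast this
      have hle : ((energyA_set D k T t).filter
          (fun p : ℤ × ℤ × ℤ × ℤ => (p.2.2.1, p.2.2.2) = b)).card ≤
          (Pool.Agent.W65.CS.R2 m).card := by
        apply Finset.card_le_card_of_injOn (fun p => (p.1, p.2.1))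
        · intro p hp
          rw [Finset.mem_coe, Finset.mem_filter] at hp
          have hpQ : p ∈ QQ k := by
            have := hp.1
            unfold energyA_set at this
            exact (Finset.mem_filter.1 this).1
          have hq := energyA_mem_QQ hpQ
          have hc1 : p.2.2.1 = b.1 := congrArg Prod.fst hp.2
          have hc2 : p.2.2.2 = b.2 := congrArg Prod.snd hp.2
          rw [Finset.mem_coe, Pool.Agent.W65.CS.mem_R2, hm]
          rw [hb1, hb2] at hq0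
          rw [hc1, hc2] at hq
          linarith
        · intro p hp p' hp' h
          rw [Finset.mem_coe, Finset.mem_filter] at hp hp'
          have h0 : (p.1, p.2.1) = (p'.1, p'.2.1) := h
          have h1 : p.1 = p'.1 := (Prod.mk.inj h0).1
          have h2 : p.2.1 = p'.2.1 := (Prod.mk.inj h0).2
          have h3 := hp.2.trans hp'.2.symm
          have h4 : p.2.2.1 = p'.2.2.1 := congrArg Prod.fst h3
          have h5 : p.2.2.2 = p'.2.2.2 := congrArg Prod.snd h3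
          exact Prod.ext h1 (Prod.ext h2 (Prod.ext h4 h5))
      have h25 : 1 ≤ 25 ^ k := Nat.one_le_pow _ _ (by norm_num)
      calc ((((energyA_set D k T t).filter
          (fun p : ℤ × ℤ × ℤ × ℤ => (p.2.2.1, p.2.2.2) = b)).card : ℕ) : ℝ) ≤
          ((Pool.Agent.W65.CS.R2 m).card : ℝ) := by exact_mod_cast hle
        _ ≤ C * ((25 ^ k : ℕ) : ℝ) ^ ε := hC m _ hmle h25
    · rw [Finset.not_nonempty_iff_eq_empty.1 hne]
      simp only [Finset.card_empty, Nat.cast_zero]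
      positivity
  have hsum := Finset.sum_le_sum hone
  rw [Finset.sum_const, nsmul_eq_mul] at hsum
  refine le_trans hsum ?_
  apply mul_le_mul_of_nonneg_right
  · exact energyA_pairs D M t
  · positivity

/-- crude bound for the number of points -/
theorem energyA_QQ_card (k : ℕ) : ((QQ k).card : ℝ) ≤ 81 * 625 ^ k := by
  have h1 : (QQ k).card ≤ (2 * 5 ^ k + 1) ^ 4 := by
    unfold QQ
    refine (Finset.card_filter_le _ _).trans ?_
    rw [Finset.card_product, Finset.card_product, Finset.card_product, Int.card_Icc]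
    have h3 : ((5 : ℤ) ^ k + 1 - -(5 : ℤ) ^ k).toNat = 2 * 5 ^ k + 1 := by
      have : ((5 : ℤ) ^ k + 1 - -(5 : ℤ) ^ k) = ((2 * 5 ^ k + 1 : ℕ) : ℤ) := by
        push_cast
        ring
      rw [this, Int.toNat_natCast]
    rw [h3]
    apply le_of_eq
    ring
  have h2 : ((2 * 5 ^ k + 1) ^ 4 : ℕ) ≤ 81 * 625 ^ k := by
    have h3 : 1 ≤ 5 ^ k := Nat.one_le_pow _ _ (by norm_num)
    calc ((2 * 5 ^ k + 1) ^ 4 : ℕ) ≤ (3 * 5 ^ k) ^ 4 := Nat.pow_le_pow_left (by omega) 4
      _ = 81 * 625 ^ k := by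
        rw [mul_pow, ← pow_mul, mul_comm k 4, pow_mul]
        norm_num
  exact_mod_cast h1.trans h2

open Classical in
/-- the weight in the energy -/
noncomputable def energyA_G (D : ℕ) (N : ℕ) (t : ZMod D) (k : ℕ) (q : ℍ[ℤ]) : ℝ :=
  if (-((q.imJ : ℤ) : ZMod D) + (q.imK : ZMod D) * t = 0) then
    wt N (((q.imJ ^ 2 + q.imK ^ 2 : ℤ) : ℝ) / (4 * 25 ^ k)) else 0

theorem energyA_wt_nonneg (N : ℕ) (s : ℝ) : 0 ≤ wt N s := by
  unfold wt
  positivity

theorem energyA_wt_le (N : ℕ) (s : ℝ) : wt N s ≤ N := by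
  unfold wt
  exact min_le_left _ _

/-- the logarithm in the choice of the radius -/
theorem energyA_wt_small (N k : ℕ) (hN : 2 ≤ N) (s : ℝ)
    (hs : 2 * Real.log N + 4 * k * Real.log 5 ≤ (N - 1) * s) :
    wt N s ≤ 1 / 625 ^ k := by
  unfold wt
  refine (min_le_right _ _).trans ?_
  have hN0 : (0 : ℝ) < N := by
    have : 0 < N := by omega
    exact_mod_cast this
  have h1 : Real.exp (-(((N : ℝ) - 1) * s)) ≤
      Real.exp (-(2 * Real.log N + 4 * k * Real.log 5)) := by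
    apply Real.exp_le_exp.2
    linarith
  have h2 : Real.exp (-(2 * Real.log N + 4 * k * Real.log 5)) = 1 / ((N : ℝ) ^ 2 * 625 ^ k) := by
    rw [Real.exp_neg, Real.exp_add, one_div]
    congr 2
    · rw [mul_comm, Real.exp_mul, Real.exp_log hN0]
      norm_num
    · have h5 : (4 * (k : ℝ) * Real.log 5) = Real.log 5 * ((4 * k : ℕ) : ℝ) := by
        push_cast
        ring
      rw [h5, Real.exp_mul, Real.exp_log (by norm_num), Real.rpow_natCast, pow_mul]
      norm_num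
  rw [h2] at h1
  calc (N : ℝ) ^ 2 * Real.exp (-(((N : ℝ) - 1) * s)) ≤ (N : ℝ) ^ 2 * (1 / ((N : ℝ) ^ 2 * 625 ^ k)) :=
        mul_le_mul_of_nonneg_left h1 (by positivity)
    _ = 1 / 625 ^ k := by
        field_simp

theorem energyA_count (D N L M : ℝ) (k : ℕ) (hD1 : 1 ≤ D) (hN : 1 ≤ N) (hL : 1 ≤ L) (hM0 : 0 ≤ M)
    (hMk : M ≤ 5 ^ k) (hNM : N * M ^ 2 ≤ L * 25 ^ k) :
    N * ((2 * M + 1) * ((2 * M + 1) / D + 1)) ≤ (8 * L) * (25 ^ k / D + N * 5 ^ k) := by
  have hD : 0 < D := by linarith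
  have h5k : (1 : ℝ) ≤ (5 : ℝ) ^ k := one_le_pow₀ (by norm_num)
  have hinv : 1 / D ≤ 1 := by
    rw [div_le_one hD]
    exact hD1
  have e1 : N * ((2 * M + 1) * ((2 * M + 1) / D + 1)) =
      N * (2 * M + 1) ^ 2 / D + N * (2 * M + 1) := by
    field_simp
  have e2 : N * (2 * M + 1) ^ 2 / D ≤ 8 * (N * M ^ 2) / D + 2 * N * (1 / D) := by
    have e3 : (2 * M + 1) ^ 2 ≤ 8 * M ^ 2 + 2 := by nlinarith [sq_nonneg (2 * M - 1)]
    have e4 : N * (2 * M + 1) ^ 2 ≤ 8 * (N * M ^ 2) + 2 * N := by nlinarith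
    calc N * (2 * M + 1) ^ 2 / D ≤ (8 * (N * M ^ 2) + 2 * N) / D :=
          div_le_div_of_nonneg_right e4 hD.le
      _ = _ := by ring
  have e5 : 8 * (N * M ^ 2) / D ≤ 8 * (L * 25 ^ k) / D :=
    div_le_div_of_nonneg_right (by linarith) hD.le
  have e6 : 2 * N * (1 / D) ≤ 2 * N * 1 := mul_le_mul_of_nonneg_left hinv (by positivity)
  have e7 : N * (2 * M + 1) ≤ N * (3 * 5 ^ k) := by
    apply mul_le_mul_of_nonneg_left _ (by positivity)
    linarith
  have e8 : N ≤ N * 5 ^ k := le_mul_of_one_le_right (by positivity) h5k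
  have e9 : 0 ≤ N * (5 : ℝ) ^ k := by positivity
  have e10 : N * (5 : ℝ) ^ k ≤ L * (N * 5 ^ k) := le_mul_of_one_le_left e9 hL
  rw [e1]
  calc N * (2 * M + 1) ^ 2 / D + N * (2 * M + 1) ≤
      8 * (L * 25 ^ k) / D + 5 * (N * 5 ^ k) := by linarith
    _ ≤ 8 * (L * 25 ^ k) / D + 8 * (L * (N * 5 ^ k)) := by linarith
    _ = _ := by ring

/-- the main estimate at one level -/
theorem energyA_level (ε : ℝ) (hε : 0 < ε) : ∃ K : ℝ, 0 < K ∧ ∀ (D : ℕ) [NeZero D] (N k : ℕ),
    1 ≤ N → ∀ t : ZMod D,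
    ∑ p ∈ QQ k, energyA_G D N t k ⟨p.1, p.2.1, p.2.2.1, p.2.2.2⟩ ≤
      K * ((5 : ℝ) ^ k * N) ^ ε * (25 ^ k / D + N * 5 ^ k) := by
  classical
  obtain ⟨C, hC1, hC⟩ := Pool.Agent.W65.CS.R2_bound (ε / 4) (by positivity)
  refine ⟨C * (8 * (32 / (ε / 2) + 1)) + 81, by positivity, ?_⟩
  intro D _ N k hN t
  have hD : (0 : ℝ) < D := by exact_mod_cast Nat.pos_of_ne_zero (NeZero.ne D)
  have hNr : (1 : ℝ) ≤ N := by exact_mod_cast hN
  set X : ℝ := (5 : ℝ) ^ k * N with hX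
  have h5k : (1 : ℝ) ≤ (5 : ℝ) ^ k := one_le_pow₀ (by norm_num)
  have hX1 : 1 ≤ X := by nlinarith
  have hX0 : 0 < X := by linarith
  -- the radius
  obtain ⟨σ, hσ0, hσN, hσ2⟩ : ∃ σ : ℝ, 0 ≤ σ ∧ N * min 1 σ ≤ 32 * Real.log X + 1 ∧
      (∀ s : ℝ, 1 > min 1 σ → min 1 σ < 4 * s → wt N s ≤ 1 / 625 ^ k) := by
    rcases Nat.lt_or_ge 1 N with h2 | h2
    · have hN1 : (0 : ℝ) < N - 1 := by
        have : (1 : ℝ) < N := by exact_mod_cast h2
        linarith
      have hlogN : 0 ≤ Real.log N := Real.log_nonneg hNr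
      have hlog5 : 0 ≤ Real.log 5 := Real.log_nonneg (by norm_num)
      refine ⟨4 * (2 * Real.log N + 4 * k * Real.log 5) / (N - 1), by positivity, ?_, ?_⟩
      · have h3 : N * min 1 (4 * (2 * Real.log N + 4 * k * Real.log 5) / (N - 1)) ≤
            N * (4 * (2 * Real.log N + 4 * k * Real.log 5) / (N - 1)) :=
          mul_le_mul_of_nonneg_left (min_le_right _ _) (by positivity)
        have h4 : (N : ℝ) ≤ 2 * (N - 1) := by
          have : (2 : ℝ) ≤ N := by exact_mod_cast h2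
          linarith
        have h5 : N * (4 * (2 * Real.log N + 4 * k * Real.log 5) / (N - 1)) ≤
            8 * (2 * Real.log N + 4 * k * Real.log 5) := by
          rw [mul_div_assoc', div_le_iff₀ hN1]
          have h6 : 0 ≤ 4 * (2 * Real.log N + 4 * k * Real.log 5) := by positivity
          nlinarith
        have h6 : Real.log X = k * Real.log 5 + Real.log N := by
          rw [hX, Real.log_mul (by positivity) (by positivity), Real.log_pow]
        rw [h6]
        nlinarith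
      · intro s h3 h4
        have h5 : min 1 (4 * (2 * Real.log N + 4 * k * Real.log 5) / (N - 1)) =
            4 * (2 * Real.log N + 4 * k * Real.log 5) / (N - 1) := by
          apply min_eq_right
          by_contra hcon
          push Not at hcon
          rw [min_eq_left hcon.le] at h3
          exact lt_irrefl _ h3
        rw [h5, div_lt_iff₀ hN1] at h4
        apply energyA_wt_small N k h2
        linarith
    · have hN1 : N = 1 := by omega
      subst hN1
      refine ⟨1, by norm_num, ?_, ?_⟩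
      · have : 0 ≤ Real.log X := Real.log_nonneg hX1
        rw [min_self]
        push_cast
        linarith
      · intro s h3 _
        rw [min_self] at h3
        exact absurd h3 (lt_irrefl _)
  set T : ℕ := ⌊min 1 σ * 25 ^ k⌋₊ with hT
  have hmin0 : 0 ≤ min 1 σ := le_min zero_le_one hσ0
  have hTle : (T : ℝ) ≤ min 1 σ * 25 ^ k := Nat.floor_le (by positivity)
  -- pointwise bound
  have hpt : ∀ p ∈ QQ k, energyA_G D N t k ⟨p.1, p.2.1, p.2.2.1, p.2.2.2⟩ ≤
      (if p ∈ energyA_set D k T t then (N : ℝ) else 0) + 1 / 625 ^ k := by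
    intro p hp
    have hp2 : 0 ≤ (1 : ℝ) / 625 ^ k := by positivity
    unfold energyA_G
    simp only []
    split_ifs with h1 h2 h2
    · have := energyA_wt_le N (((p.2.2.1 ^ 2 + p.2.2.2 ^ 2 : ℤ) : ℝ) / (4 * 25 ^ k))
      linarith
    · rw [zero_add]
      have h3 : ¬ (p.2.2.1 ^ 2 + p.2.2.2 ^ 2 ≤ (T : ℤ)) := by
        intro h4
        apply h2
        unfold energyA_set
        rw [Finset.mem_filter]
        exact ⟨hp, h1, h4⟩
      push Not at h3
      have hq := energyA_mem_QQ hp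
      have h4 : (((p.2.2.1 ^ 2 + p.2.2.2 ^ 2).toNat : ℕ) : ℤ) = p.2.2.1 ^ 2 + p.2.2.2 ^ 2 :=
        Int.toNat_of_nonneg (by positivity)
      set m := (p.2.2.1 ^ 2 + p.2.2.2 ^ 2).toNat with hm
      have h5 : T < m := by
        have : (T : ℤ) < m := by rw [h4]; exact h3
        exact_mod_cast this
      have h6 : min 1 σ * 25 ^ k < m := Nat.lt_of_floor_lt h5
      have h7 : (m : ℝ) ≤ 25 ^ k := by
        have : (m : ℤ) ≤ 25 ^ k := by
          rw [h4]
          nlinarith [sq_nonneg p.1, sq_nonneg p.2.1]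
        exact_mod_cast this
      have h25 : (0 : ℝ) < 25 ^ k := by positivity
      have h8 : ((p.2.2.1 ^ 2 + p.2.2.2 ^ 2 : ℤ) : ℝ) = m := by
        rw [← h4]
        push_cast
        rfl
      rw [h8]
      apply hσ2
      · by_contra hcon
        push Not at hcon
        nlinarith
      · have h9 : 4 * ((m : ℝ) / (4 * 25 ^ k)) = m / 25 ^ k := by
          field_simp
        rw [h9, lt_div_iff₀ h25]
        exact h6
    · positivity
    · positivity
  have hsum := Finset.sum_le_sum hpt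
  refine hsum.trans ?_
  rw [Finset.sum_add_distrib, Finset.sum_const, nsmul_eq_mul, ← Finset.sum_filter]
  have hfil : (QQ k).filter (fun p => p ∈ energyA_set D k T t) = energyA_set D k T t := by
    ext p
    rw [Finset.mem_filter]
    constructor
    · exact fun h => h.2
    · intro h
      refine ⟨?_, h⟩
      unfold energyA_set at h
      exact (Finset.mem_filter.1 h).1
  rw [hfil, Finset.sum_const, nsmul_eq_mul]
  have hsec : ((QQ k).card : ℝ) * (1 / 625 ^ k) ≤ 81 := by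
    have h1 := energyA_QQ_card k
    rw [mul_one_div, div_le_iff₀ (by positivity)]
    exact h1
  -- the first class
  set M : ℝ := (Nat.sqrt T : ℝ) with hM
  have hM0 : 0 ≤ M := Nat.cast_nonneg _
  have hMsq : M ^ 2 ≤ min 1 σ * 25 ^ k := by
    have h1 : (Nat.sqrt T) ^ 2 ≤ T := Nat.sqrt_le' T
    have h2 : M ^ 2 ≤ T := by
      rw [hM]
      exact_mod_cast h1
    linarith
  have hMk : M ≤ 5 ^ k := by
    have h1 : M ^ 2 ≤ (5 ^ k : ℝ) ^ 2 := by
      have h2 : ((5 : ℝ) ^ k) ^ 2 = 25 ^ k := by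
        rw [← pow_mul, mul_comm, pow_mul]
        norm_num
      rw [h2]
      have h3 : min 1 σ * (25 : ℝ) ^ k ≤ 1 * 25 ^ k :=
        mul_le_mul_of_nonneg_right (min_le_left _ _) (by positivity)
      linarith
    exact le_of_sq_le_sq h1 (by positivity)
  have hNM : N * M ^ 2 ≤ (32 * Real.log X + 1) * 25 ^ k := by
    have h1 : N * M ^ 2 ≤ N * (min 1 σ * 25 ^ k) := mul_le_mul_of_nonneg_left hMsq (by positivity)
    have h2 : N * (min 1 σ * 25 ^ k) = (N * min 1 σ) * 25 ^ k := by ring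
    rw [h2] at h1
    exact h1.trans (mul_le_mul_of_nonneg_right hσN (by positivity))
  have hcard := energyA_card C (ε / 4) hC1 hC D k T t
  rw [← hM] at hcard
  have hlogX : 0 ≤ Real.log X := Real.log_nonneg hX1
  have hcount : N * ((2 * M + 1) * ((2 * M + 1) / D + 1)) ≤
      (8 * (32 * Real.log X + 1)) * (25 ^ k / D + N * 5 ^ k) := by
    have hD1 : (1 : ℝ) ≤ D := by
      have : 1 ≤ D := Nat.pos_of_ne_zero (NeZero.ne D)
      exact_mod_cast this
    exact energyA_count D N (32 * Real.log X + 1) M k hD1 hNr (by linarith) hM0 hMk hNM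
  have hlog : 32 * Real.log X + 1 ≤ (32 / (ε / 2) + 1) * X ^ (ε / 2) := by
    have h1 := Real.log_le_rpow_div hX0.le (show 0 < ε / 2 by positivity)
    have h2 : 1 ≤ X ^ (ε / 2) := Real.one_le_rpow hX1 (by positivity)
    calc 32 * Real.log X + 1 ≤ 32 * (X ^ (ε / 2) / (ε / 2)) + X ^ (ε / 2) := by linarith
      _ = _ := by ring
  have h25X : ((25 ^ k : ℕ) : ℝ) ^ (ε / 4) ≤ X ^ (ε / 2) := by
    have h1 : ((25 ^ k : ℕ) : ℝ) = ((5 : ℝ) ^ k) ^ (2 : ℝ) := by
      rw [Real.rpow_two, ← pow_mul, mul_comm, pow_mul]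
      push_cast
      norm_num
    rw [h1, ← Real.rpow_mul (by positivity)]
    have h2 : (2 : ℝ) * (ε / 4) = ε / 2 := by ring
    rw [h2]
    apply Real.rpow_le_rpow (by positivity) _ (by positivity)
    rw [hX]
    nlinarith
  set Y : ℝ := 25 ^ k / D + N * 5 ^ k with hY
  have hY1 : 1 ≤ Y := by
    have h1 : (0 : ℝ) ≤ 25 ^ k / D := by positivity
    have h2 : 1 ≤ N * (5 : ℝ) ^ k := by nlinarith
    linarith
  have hXX : X ^ (ε / 2) * X ^ (ε / 2) = X ^ ε := by
    rw [← Real.rpow_add hX0]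
    congr 1
    ring
  have hXe : 1 ≤ X ^ ε := Real.one_le_rpow hX1 hε.le
  have hXe2 : 0 ≤ X ^ (ε / 2) := by positivity
  have hfirst : ((energyA_set D k T t).card : ℝ) * N ≤
      C * (8 * (32 / (ε / 2) + 1)) * X ^ ε * Y := by
    calc ((energyA_set D k T t).card : ℝ) * N ≤
        ((2 * M + 1) * ((2 * M + 1) / D + 1) * (C * ((25 ^ k : ℕ) : ℝ) ^ (ε / 4))) * N :=
          mul_le_mul_of_nonneg_right hcard (by positivity)
      _ = (N * ((2 * M + 1) * ((2 * M + 1) / D + 1))) * (C * ((25 ^ k : ℕ) : ℝ) ^ (ε / 4)) := by ring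
      _ ≤ ((8 * (32 * Real.log X + 1)) * Y) * (C * X ^ (ε / 2)) := by
          apply mul_le_mul hcount
          · exact mul_le_mul_of_nonneg_left h25X (by positivity)
          · positivity
          · positivity
      _ ≤ ((8 * ((32 / (ε / 2) + 1) * X ^ (ε / 2))) * Y) * (C * X ^ (ε / 2)) := by
          apply mul_le_mul_of_nonneg_right
          · apply mul_le_mul_of_nonneg_right
            · linarith
            · linarith
          · positivity
      _ = C * (8 * (32 / (ε / 2) + 1)) * (X ^ (ε / 2) * X ^ (ε / 2)) * Y := by ring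
      _ = C * (8 * (32 / (ε / 2) + 1)) * X ^ ε * Y := by rw [hXX]
  have hXY : 1 ≤ X ^ ε * Y := by nlinarith
  calc ((energyA_set D k T t).card : ℝ) * N + ((QQ k).card : ℝ) * (1 / 625 ^ k) ≤
      C * (8 * (32 / (ε / 2) + 1)) * X ^ ε * Y + 81 * (X ^ ε * Y) := by linarith
    _ = _ := by ring

theorem energyA_five (D : ℕ) [NeZero D] (h5 : Nat.Coprime D 5) (N : ℕ) (t : ZMod D) (l : ℕ)
    (q : ℍ[ℤ]) : energyA_G D N t (l + 1) ((5 : ℤ) • q) = energyA_G D N t l q := by
  unfold energyA_G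
  have hu : IsUnit ((5 : ℕ) : ZMod D) := by
    rw [ZMod.isUnit_iff_coprime]
    exact h5.symm
  have h1 : (-(((5 : ℤ) • q).imJ : ZMod D) + (((5 : ℤ) • q).imK : ZMod D) * t = 0) ↔
      (-(q.imJ : ZMod D) + (q.imK : ZMod D) * t = 0) := by
    simp only [Quaternion.imJ_smul, Quaternion.imK_smul, smul_eq_mul]
    have h2 : (-(((5 * q.imJ : ℤ)) : ZMod D) + ((5 * q.imK : ℤ) : ZMod D) * t) =
        ((5 : ℕ) : ZMod D) * (-(q.imJ : ZMod D) + (q.imK : ZMod D) * t) := by
      push_cast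
      ring
    rw [h2]
    exact hu.mul_right_eq_zero
  have h3 : ((((5 : ℤ) • q).imJ ^ 2 + ((5 : ℤ) • q).imK ^ 2 : ℤ) : ℝ) / (4 * 25 ^ (l + 1)) =
      ((q.imJ ^ 2 + q.imK ^ 2 : ℤ) : ℝ) / (4 * 25 ^ l) := by
    simp only [Quaternion.imJ_smul, Quaternion.imK_smul, smul_eq_mul]
    push_cast
    rw [pow_succ]
    field_simp
    ring
  rw [h3]
  simp only [h1]

open Classical in
/-- TARGET -/
theorem energyA (δ : ℝ) (hδ : 0 < δ) : ∃ K : ℝ, 0 < K ∧ ∀ (D : ℕ) [NeZero D] (N j : ℕ),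
    Nat.Coprime D 5 → 1 ≤ N → 1 ≤ j → ∀ t : ZMod D,
    (∑ w ∈ RW j, ∑ w' ∈ RW j,
      if (-((qw w * star (qw w')).imJ : ZMod D) + (qw w * star (qw w')).imK * t = 0) then
        wt N ((((qw w * star (qw w')).imJ ^ 2 + (qw w * star (qw w')).imK ^ 2 : ℤ) : ℝ) / (4 * 25 ^ j))
      else 0) ≤
      K * ((5 : ℝ) ^ j * N) ^ δ * (25 ^ j / D + N * 5 ^ j) := by
  obtain ⟨K, hK0, hK⟩ := energyA_level (δ / 2) (by positivity)
  refine ⟨2 + K / (δ / 2), by positivity, ?_⟩
  intro D _ N j h5 hN hj t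
  have hD : (0 : ℝ) < D := by exact_mod_cast Nat.pos_of_ne_zero (NeZero.ne D)
  have hNr : (1 : ℝ) ≤ N := by exact_mod_cast hN
  have h5j : (1 : ℝ) ≤ (5 : ℝ) ^ j := one_le_pow₀ (by norm_num)
  set X : ℝ := (5 : ℝ) ^ j * N with hX
  set Y : ℝ := 25 ^ j / D + N * 5 ^ j with hY
  have hX1 : 1 ≤ X := by nlinarith
  have hX0 : 0 < X := by linarith
  have hmain := pair_sum_le (energyA_G D N t) (fun l q => by
    unfold energyA_G
    split_ifs
    · exact energyA_wt_nonneg _ _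
    · exact le_rfl) (energyA_five D h5 N t) j hj
  have hG0 : energyA_G D N t 0 1 ≤ N := by
    unfold energyA_G
    split_ifs
    · exact energyA_wt_le _ _
    · positivity
  have hlhs : (∑ w ∈ RW j, ∑ w' ∈ RW j,
      if (-((qw w * star (qw w')).imJ : ZMod D) + (qw w * star (qw w')).imK * t = 0) then
        wt N ((((qw w * star (qw w')).imJ ^ 2 + (qw w * star (qw w')).imK ^ 2 : ℤ) : ℝ) / (4 * 25 ^ j))
      else 0) = ∑ w ∈ RW j, ∑ w' ∈ RW j, energyA_G D N t j (qw w * star (qw w')) := by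
    apply Finset.sum_congr rfl
    intro w _
    apply Finset.sum_congr rfl
    intro w' _
    unfold energyA_G
    rfl
  rw [hlhs]
  refine hmain.trans ?_
  -- the terms
  have hXe : 1 ≤ X ^ (δ / 2) := Real.one_le_rpow hX1 (by positivity)
  have hterm : ∀ k ∈ Finset.Icc 1 j, (5 : ℝ) ^ (j - k) *
      ∑ p ∈ QQ k, energyA_G D N t k ⟨p.1, p.2.1, p.2.2.1, p.2.2.2⟩ ≤ K * X ^ (δ / 2) * Y := by
    intro k hk
    rw [Finset.mem_Icc] at hk
    have h1 := hK D N k hN t
    have h2 : (5 : ℝ) ^ (j - k) * 5 ^ k = 5 ^ j := by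
      rw [← pow_add]
      congr 1
      omega
    have h3 : (5 : ℝ) ^ (j - k) * 25 ^ k ≤ 25 ^ j := by
      have h4 : (5 : ℝ) ^ (j - k) ≤ 25 ^ (j - k) := pow_le_pow_left₀ (by norm_num) (by norm_num) _
      have h6 : (25 : ℝ) ^ (j - k) * 25 ^ k = 25 ^ j := by
        rw [← pow_add]
        congr 1
        omega
      rw [← h6]
      exact mul_le_mul_of_nonneg_right h4 (by positivity)
    have h7 : (5 : ℝ) ^ k ≤ 5 ^ j := pow_le_pow_right₀ (by norm_num) hk.2
    have h8 : ((5 : ℝ) ^ k * N) ^ (δ / 2) ≤ X ^ (δ / 2) := by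
      apply Real.rpow_le_rpow (by positivity) _ (by positivity)
      rw [hX]
      exact mul_le_mul_of_nonneg_right h7 (by positivity)
    calc (5 : ℝ) ^ (j - k) * ∑ p ∈ QQ k, energyA_G D N t k ⟨p.1, p.2.1, p.2.2.1, p.2.2.2⟩ ≤
        (5 : ℝ) ^ (j - k) * (K * ((5 : ℝ) ^ k * N) ^ (δ / 2) * (25 ^ k / D + N * 5 ^ k)) :=
          mul_le_mul_of_nonneg_left h1 (by positivity)
      _ = K * ((5 : ℝ) ^ k * N) ^ (δ / 2) *
          (((5 : ℝ) ^ (j - k) * 25 ^ k) / D + N * ((5 : ℝ) ^ (j - k) * 5 ^ k)) := by ring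
      _ ≤ K * X ^ (δ / 2) * (25 ^ j / D + N * 5 ^ j) := by
          apply mul_le_mul
          · exact mul_le_mul_of_nonneg_left h8 hK0.le
          · rw [h2]
            have := div_le_div_of_nonneg_right h3 hD.le
            linarith
          · positivity
          · positivity
      _ = K * X ^ (δ / 2) * Y := by rw [hY]
  have hsum := Finset.sum_le_sum hterm
  rw [Finset.sum_const, Nat.card_Icc, nsmul_eq_mul] at hsum
  have hj2 : ((j + 1 - 1 : ℕ) : ℝ) = j := by simp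
  rw [hj2] at hsum
  have hjX : (j : ℝ) ≤ X ^ (δ / 2) / (δ / 2) := by
    have h1 := Real.log_le_rpow_div hX0.le (show 0 < δ / 2 by positivity)
    have h2 : Real.log X = j * Real.log 5 + Real.log N := by
      rw [hX, Real.log_mul (by positivity) (by positivity), Real.log_pow]
    have h3 : 0 ≤ Real.log N := Real.log_nonneg hNr
    have h4 : 1 ≤ Real.log 5 := by
      rw [Real.le_log_iff_exp_le (by norm_num)]
      linarith [Real.exp_one_lt_d9]
    have h5 : (0 : ℝ) ≤ j := Nat.cast_nonneg _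
    nlinarith
  have hXX : X ^ (δ / 2) * X ^ (δ / 2) = X ^ δ := by
    rw [← Real.rpow_add hX0]
    congr 1
    ring
  have hY0 : 0 ≤ Y := by positivity
  have hXd : 1 ≤ X ^ δ := Real.one_le_rpow hX1 hδ.le
  have h1 : 6 * 5 ^ (j - 1) * energyA_G D N t 0 1 ≤ 2 * (X ^ δ * Y) := by
    have h2 : (5 : ℝ) ^ j = 5 * 5 ^ (j - 1) := by
      rw [← pow_succ']
      congr 1
      omega
    have h3 : 6 * (5 : ℝ) ^ (j - 1) * energyA_G D N t 0 1 ≤ 6 * 5 ^ (j - 1) * N :=
      mul_le_mul_of_nonneg_left hG0 (by positivity)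
    have h4 : 6 * (5 : ℝ) ^ (j - 1) * N ≤ 2 * (N * 5 ^ j) := by
      rw [h2]
      have : 0 ≤ (5 : ℝ) ^ (j - 1) * N := by positivity
      nlinarith
    have h6 : N * (5 : ℝ) ^ j ≤ Y := by
      rw [hY]
      have : (0 : ℝ) ≤ 25 ^ j / D := by positivity
      linarith
    have h7 : Y ≤ X ^ δ * Y := by nlinarith
    linarith
  calc 6 * 5 ^ (j - 1) * energyA_G D N t 0 1 + ∑ k ∈ Finset.Icc 1 j, (5 : ℝ) ^ (j - k) *
        ∑ p ∈ QQ k, energyA_G D N t k ⟨p.1, p.2.1, p.2.2.1, p.2.2.2⟩ ≤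
      2 * (X ^ δ * Y) + j * (K * X ^ (δ / 2) * Y) := by linarith
    _ ≤ 2 * (X ^ δ * Y) + (X ^ (δ / 2) / (δ / 2)) * (K * X ^ (δ / 2) * Y) := by
        have : (j : ℝ) * (K * X ^ (δ / 2) * Y) ≤ (X ^ (δ / 2) / (δ / 2)) * (K * X ^ (δ / 2) * Y) :=
          mul_le_mul_of_nonneg_right hjX (by positivity)
        linarith
    _ = 2 * (X ^ δ * Y) + K / (δ / 2) * (X ^ (δ / 2) * X ^ (δ / 2)) * Y := by ring
    _ = (2 + K / (δ / 2)) * X ^ δ * Y := by rw [hXX]; ring

end Pool.Agent.H978V
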