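import Pool.Agent.H978V.Defs2
import Pool.Agent.Helper557.Rz.M_gap3

/-!
JOB C2 (owner helper978, MP_06cce2_nt).  Starting files `Helper557/Rz/*`; `H978V/{Ar,Defs,Defs2}.lean` are on origin/main.

PROOF of `k2_le`.  `0 ≤ kk N ≤ N`, `∫ kk N x y dx = 1` (`ker3`, symmetry), so `0 ≤ k2 ≤ N`.  `u(x,y) = 1 - |x-y|²/4` (`dist_sq_u` in `M_kera.lean`).  For all `x`: `|x-y| + |x-z| ≥ |y-z|`, so one of the two
distances is `≥ |y-z|/2` and `u(x,y) u(x,z) ≤ 1 - |y-z|²/16 ≤ exp(-|y-z|²/16)`; so `k2 ≤ N² exp(-(N-1)|y-z|²/16)`, `|y - z|² = 2 - 2⟨y,z⟩`.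

PROOF of the rest.  `fam` is a finite sum over `z ∈ Z` of families supported on the unit orbit of `uz z`, which has exactly `φ(D)` elements (`α • u = β • u`, `u` unimodular, implies `α = β`).
`tot`: each term has integral `φ(D) ∫ kk N x (yz z) = φ(D)`.  `ip`: the orbits of `uz z` and `uz' z'` are equal if `uz' z' = a • uz z` for some unit `a`, otherwise disjoint.
-/

set_option autoImplicit false

open MeasureTheory Set
open scoped Quaternion

namespace Pool.Agent.H978V

open Pool.Agent.Helper557.Rz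


/-! ### auxiliary facts -/

lemma c2_kk_nonneg (N : ℕ) (x y : S 3) : 0 ≤ kk N x y := by
  unfold kk
  exact mul_nonneg (Nat.cast_nonneg N) (pow_nonneg (ker_nonneg 3 x y).1 _)

lemma c2_kk_le (N : ℕ) (x y : S 3) : kk N x y ≤ N := by
  unfold kk
  have h := pow_le_one₀ (n := N - 1) (ker_nonneg 3 x y).1 (ker_nonneg 3 x y).2
  have hN : (0 : ℝ) ≤ N := Nat.cast_nonneg N
  nlinarith

lemma c2_kk_sym (N : ℕ) (x y : S 3) : kk N x y = kk N y x := by
  unfold kk
  rw [ker_sym]

lemma c2_kk_int (N : ℕ) (hN : 1 ≤ N) (y : S 3) : ∫ x, kk N x y ∂(sg 3) = 1 := by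
  rw [← ker3 N hN y]
  congr 1
  funext x
  exact c2_kk_sym N x y

lemma c2_intc (f : C(S 3, ℝ)) : Integrable (fun x => f x) (sg 3) := intc f

lemma c2_kkC_apply (N : ℕ) (y x : S 3) : kkC N y x = kk N x y := rfl

/-- TARGET 1 -/
theorem k2_le (N : ℕ) (hN : 1 ≤ N) (y z : S 3) :
    0 ≤ k2 N y z ∧ k2 N y z ≤ wt N ((2 - 2 * inner ℝ (y : E 3) (z : E 3)) / 16) := by
  haveI := sg_prob 3 (by norm_num)
  have hint : Integrable (fun x => kk N x y * kk N x z) (sg 3) := c2_intc (kkC N y * kkC N z)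
  constructor
  · exact integral_nonneg (fun x => mul_nonneg (c2_kk_nonneg N x y) (c2_kk_nonneg N x z))
  · have hd : dist y z ^ 2 = 2 - 2 * inner ℝ (y : E 3) (z : E 3) := by
      rw [dist_sq_u]; unfold u; ring
    unfold wt
    refine le_min ?_ ?_
    · calc k2 N y z ≤ ∫ x, (N : ℝ) * kk N x y ∂(sg 3) := by
            unfold k2
            apply integral_mono hint ((c2_intc (kkC N y)).const_mul _)
            intro x
            have h1 := c2_kk_nonneg N x y
            have h2 := c2_kk_le N x z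
            change kk N x y * kk N x z ≤ (N : ℝ) * kk N x y
            nlinarith
        _ = N := by rw [integral_const_mul, c2_kk_int N hN, mul_one]
    · rw [← hd]
      have hpt : ∀ x : S 3, kk N x y * kk N x z ≤
          (N : ℝ) ^ 2 * Real.exp (-(((N : ℝ) - 1) * (dist y z ^ 2 / 16))) := by
        intro x
        have e1 : u x y = 1 - dist x y ^ 2 / 4 := by rw [dist_sq_u]; ring
        have e2 : u x z = 1 - dist x z ^ 2 / 4 := by rw [dist_sq_u]; ring
        have hb1 := ker_nonneg 3 x y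
        have hb2 := ker_nonneg 3 x z
        have htri : dist y z ≤ dist x y + dist x z := by
          have := dist_triangle y x z
          rwa [dist_comm y x] at this
        have hu : u x y * u x z ≤ 1 - dist y z ^ 2 / 16 := by
          have hd0 : 0 ≤ dist y z := dist_nonneg
          rcases le_total (dist y z / 2) (dist x y) with h | h
          · have h3 : u x y ≤ 1 - dist y z ^ 2 / 16 := by
              rw [e1]; nlinarith
            nlinarith [mul_le_mul_of_nonneg_left hb2.2 hb1.1]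
          · have h3 : u x z ≤ 1 - dist y z ^ 2 / 16 := by
              rw [e2]
              have h4 : dist y z / 2 ≤ dist x z := by linarith
              nlinarith
            nlinarith [mul_le_mul_of_nonneg_right hb1.2 hb2.1]
        have hu0 : 0 ≤ u x y * u x z := mul_nonneg hb1.1 hb2.1
        have hexp : u x y * u x z ≤ Real.exp (-(dist y z ^ 2 / 16)) :=
          hu.trans (by have := Real.add_one_le_exp (-(dist y z ^ 2 / 16)); linarith)
        have hpow : (u x y * u x z) ^ (N - 1) ≤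
            Real.exp (-(((N : ℝ) - 1) * (dist y z ^ 2 / 16))) := by
          calc (u x y * u x z) ^ (N - 1) ≤ Real.exp (-(dist y z ^ 2 / 16)) ^ (N - 1) :=
                pow_le_pow_left₀ hu0 hexp _
            _ = Real.exp (-(((N : ℝ) - 1) * (dist y z ^ 2 / 16))) := by
                rw [← Real.exp_nat_mul]
                congr 1
                rw [Nat.cast_sub hN]
                push_cast
                ring
        unfold kk
        calc (N : ℝ) * u x y ^ (N - 1) * (N * u x z ^ (N - 1))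
            = (N : ℝ) ^ 2 * (u x y * u x z) ^ (N - 1) := by rw [mul_pow]; ring
          _ ≤ _ := mul_le_mul_of_nonneg_left hpow (by positivity)
      calc k2 N y z ≤ ∫ x : S 3, (N : ℝ) ^ 2 *
              Real.exp (-(((N : ℝ) - 1) * (dist y z ^ 2 / 16))) ∂(sg 3) := by
            unfold k2
            exact integral_mono hint (integrable_const _) hpt
        _ = _ := by simp

lemma c2_uni_smul {D : ℕ} (a : (ZMod D)ˣ) (u : Vec D) : Uni ((a : ZMod D) • u) ↔ Uni u := by
  unfold Uni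
  simp only [Pi.smul_apply, smul_eq_mul]
  exact isCoprime_mul_unit_left a.isUnit _ _

lemma c2_orb_iff {D : ℕ} (a : (ZMod D)ˣ) (u v : Vec D) :
    (∃ b : (ZMod D)ˣ, (a : ZMod D) • u = (b : ZMod D) • v) ↔ ∃ b : (ZMod D)ˣ, u = (b : ZMod D) • v := by
  constructor
  · rintro ⟨b, hb⟩
    refine ⟨a⁻¹ * b, ?_⟩
    rw [Units.val_mul, mul_smul, ← hb, smul_smul]
    simp
  · rintro ⟨b, hb⟩
    refine ⟨a * b, ?_⟩
    rw [hb, Units.val_mul, mul_smul]

/-- TARGET 2 -/
theorem fam_adm {D : ℕ} [NeZero D] {ι : Type} (Z : Finset ι) (uz : ι → Vec D) (yz : ι → S 3) (N : ℕ)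
    (hu : ∀ z ∈ Z, Uni (uz z)) : AdmF (fam Z uz yz N) := by
  classical
  constructor
  · intro v hv
    unfold fam
    apply Finset.sum_eq_zero
    intro z hz
    rw [if_neg]
    rintro ⟨a, ha⟩
    apply hv
    rw [ha, c2_uni_smul]
    exact hu z hz
  · intro a v
    unfold fam
    apply Finset.sum_congr rfl
    intro z _
    have h := c2_orb_iff a v (uz z)
    by_cases h1 : ∃ b : (ZMod D)ˣ, v = (b : ZMod D) • uz z
    · rw [if_pos h1, if_pos (h.2 h1)]
    · rw [if_neg h1, if_neg (fun h2 => h1 (h.1 h2))]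

lemma c2_smul_inj {D : ℕ} {v : Vec D} (hv : Uni v) :
    Function.Injective (fun a : (ZMod D)ˣ => (a : ZMod D) • v) := by
  intro a b hab
  obtain ⟨r, s, hrs⟩ := hv
  have h0 := congrFun hab 0
  have h1 := congrFun hab 1
  simp only [Pi.smul_apply, smul_eq_mul] at h0 h1
  apply Units.ext
  calc (a : ZMod D) = a * (r * v 0 + s * v 1) := by rw [hrs, mul_one]
    _ = r * (a * v 0) + s * (a * v 1) := by ring
    _ = r * (b * v 0) + s * (b * v 1) := by rw [h0, h1]
    _ = b * (r * v 0 + s * v 1) := by ring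
    _ = b := by rw [hrs, mul_one]

open Classical in
lemma c2_orb_card {D : ℕ} [NeZero D] {v : Vec D} (hv : Uni v) :
    (Finset.univ.filter (fun u : Vec D => ∃ a : (ZMod D)ˣ, u = (a : ZMod D) • v)).card =
      D.totient := by
  have : Finset.univ.filter (fun u : Vec D => ∃ a : (ZMod D)ˣ, u = (a : ZMod D) • v) =
      (Finset.univ : Finset (ZMod D)ˣ).image (fun a : (ZMod D)ˣ => (a : ZMod D) • v) := by
    ext u
    simp only [Finset.mem_filter, Finset.mem_univ, true_and, Finset.mem_image]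
    exact ⟨fun ⟨a, ha⟩ => ⟨a, ha.symm⟩, fun ⟨a, ha⟩ => ⟨a, ha.symm⟩⟩
  rw [this, Finset.card_image_of_injective _ (c2_smul_inj hv), Finset.card_univ,
    ZMod.card_units_eq_totient]

open Classical in
lemma c2_orb_sum {D : ℕ} [NeZero D] {v : Vec D} (hv : Uni v) (c : ℝ) :
    (∑ u : Vec D, if (∃ a : (ZMod D)ˣ, u = (a : ZMod D) • v) then c else 0) = D.totient * c := by
  rw [← Finset.sum_filter, Finset.sum_const, c2_orb_card hv, nsmul_eq_mul]

open Classical in
lemma c2_fam_apply {D : ℕ} {ι : Type} (Z : Finset ι) (uz : ι → Vec D) (yz : ι → S 3) (N : ℕ)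
    (v : Vec D) (x : S 3) : fam Z uz yz N v x =
      ∑ z ∈ Z, if (∃ a : (ZMod D)ˣ, v = (a : ZMod D) • uz z) then kk N x (yz z) else 0 := by
  unfold fam
  rw [ContinuousMap.sum_apply]
  apply Finset.sum_congr rfl
  intro z _
  split_ifs
  · rfl
  · rfl

/-- TARGET 3 -/
theorem fam_tot {D : ℕ} [NeZero D] {ι : Type} (Z : Finset ι) (uz : ι → Vec D) (yz : ι → S 3) (N : ℕ)
    (hN : 1 ≤ N) (hu : ∀ z ∈ Z, Uni (uz z)) : tot (fam Z uz yz N) = D.totient * Z.card := by
  classical
  unfold tot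
  have h1 : ∀ v : Vec D, ∫ x, fam Z uz yz N v x ∂(sg 3) =
      ∑ z ∈ Z, if (∃ a : (ZMod D)ˣ, v = (a : ZMod D) • uz z) then (1 : ℝ) else 0 := by
    intro v
    simp only [c2_fam_apply]
    rw [integral_finsetSum]
    · apply Finset.sum_congr rfl
      intro z _
      split_ifs
      · exact c2_kk_int N hN _
      · simp
    · intro z _
      split_ifs
      · exact c2_intc (kkC N (yz z))
      · exact integrable_zero _ _ _
  simp only [h1]
  rw [Finset.sum_comm]
  calc _ = ∑ z ∈ Z, (D.totient : ℝ) * 1 := by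
        apply Finset.sum_congr rfl
        intro z hz
        exact c2_orb_sum (hu z hz) 1
    _ = _ := by simp [mul_comm]

open Classical in
/-- TARGET 4 -/
theorem fam_ip {D : ℕ} [NeZero D] {ι ι' : Type} (Z : Finset ι) (uz : ι → Vec D) (yz : ι → S 3)
    (Z' : Finset ι') (uz' : ι' → Vec D) (yz' : ι' → S 3) (N : ℕ) (hN : 1 ≤ N)
    (hu : ∀ z ∈ Z, Uni (uz z)) (hu' : ∀ z ∈ Z', Uni (uz' z)) :
    ip (fam Z uz yz N) (fam Z' uz' yz' N) = D.totient *
      ∑ z ∈ Z, ∑ z' ∈ Z', if (∃ a : (ZMod D)ˣ, uz' z' = (a : ZMod D) • uz z) then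
        k2 N (yz z) (yz' z') else 0 := by
  unfold ip
  have h1 : ∀ v : Vec D, ∫ x, fam Z uz yz N v x * fam Z' uz' yz' N v x ∂(sg 3) =
      ∑ z ∈ Z, ∑ z' ∈ Z', if (∃ a : (ZMod D)ˣ, v = (a : ZMod D) • uz z) then
        (if (∃ a : (ZMod D)ˣ, v = (a : ZMod D) • uz' z') then k2 N (yz z) (yz' z') else 0) else 0 := by
    intro v
    have h2 : ∀ x : S 3, fam Z uz yz N v x * fam Z' uz' yz' N v x =
        ∑ z ∈ Z, ∑ z' ∈ Z', if (∃ a : (ZMod D)ˣ, v = (a : ZMod D) • uz z) then
        (if (∃ a : (ZMod D)ˣ, v = (a : ZMod D) • uz' z') then kk N x (yz z) * kk N x (yz' z')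
          else 0) else 0 := by
      intro x
      rw [c2_fam_apply, c2_fam_apply, Finset.sum_mul_sum]
      apply Finset.sum_congr rfl
      intro z _
      apply Finset.sum_congr rfl
      intro z' _
      split_ifs <;> simp
    have hint : ∀ (z : ι) (z' : ι'), Integrable (fun x =>
        if (∃ a : (ZMod D)ˣ, v = (a : ZMod D) • uz z) then
        (if (∃ a : (ZMod D)ˣ, v = (a : ZMod D) • uz' z') then kk N x (yz z) * kk N x (yz' z')
          else 0) else 0) (sg 3) := by
      intro z z'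
      split_ifs
      · exact c2_intc (kkC N (yz z) * kkC N (yz' z'))
      · exact integrable_zero _ _ _
      · exact integrable_zero _ _ _
    simp only [h2]
    rw [integral_finsetSum _ (fun z _ => integrable_finsetSum _ (fun z' _ => hint z z'))]
    apply Finset.sum_congr rfl
    intro z _
    rw [integral_finsetSum _ (fun z' _ => hint z z')]
    apply Finset.sum_congr rfl
    intro z' _
    split_ifs
    · rfl
    · simp
    · simp
  simp only [h1]
  rw [Finset.sum_comm, Finset.mul_sum]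
  apply Finset.sum_congr rfl
  intro z hz
  rw [Finset.sum_comm, Finset.mul_sum]
  apply Finset.sum_congr rfl
  intro z' hz'
  by_cases hzz : ∃ a : (ZMod D)ˣ, uz' z' = (a : ZMod D) • uz z
  · rw [if_pos hzz, ← c2_orb_sum (hu z hz)]
    apply Finset.sum_congr rfl
    intro v _
    by_cases hv : ∃ a : (ZMod D)ˣ, v = (a : ZMod D) • uz z
    · rw [if_pos hv, if_pos hv, if_pos]
      obtain ⟨a, ha⟩ := hzz
      obtain ⟨b, hb⟩ := hv
      refine ⟨b * a⁻¹, ?_⟩
      rw [hb, ha, Units.val_mul, smul_smul, mul_assoc]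
      simp
    · rw [if_neg hv, if_neg hv]
  · rw [if_neg hzz, mul_zero]
    apply Finset.sum_eq_zero
    intro v _
    by_cases hv : ∃ a : (ZMod D)ˣ, v = (a : ZMod D) • uz z
    · rw [if_pos hv, if_neg]
      rintro ⟨b, hb⟩
      obtain ⟨a, ha⟩ := hv
      apply hzz
      refine ⟨b⁻¹ * a, ?_⟩
      rw [Units.val_mul, mul_smul, ← ha, hb, smul_smul]
      simp
    · rw [if_neg hv]

lemma c2_Ph_star {D : ℕ} (t : ZMod D) (ht : t * t = -1) (x : ℍ[ℤ]) (v : Vec D) :
    (Ph t (star x)).mulVec ((Ph t x).mulVec v) =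
      ((x.re ^ 2 + x.imI ^ 2 + x.imJ ^ 2 + x.imK ^ 2 : ℤ) : ZMod D) • v := by
  funext i
  have h2 : t ^ 2 = -1 := by rw [pow_two]; exact ht
  fin_cases i
  · simp [Ph, Matrix.mulVec, dotProduct, Fin.sum_univ_two]
    linear_combination (-(x.imI : ZMod D) ^ 2 * v 0 - (x.imK : ZMod D) ^ 2 * v 0) * h2
  · simp [Ph, Matrix.mulVec, dotProduct, Fin.sum_univ_two]
    linear_combination (-(x.imI : ZMod D) ^ 2 * v 1 - (x.imK : ZMod D) ^ 2 * v 1) * h2

lemma c2_norm_qw (w : List (Fin 6)) :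
    (qw w).re ^ 2 + (qw w).imI ^ 2 + (qw w).imJ ^ 2 + (qw w).imK ^ 2 = 5 ^ w.length := by
  induction w with
  | nil => simp [qw]
  | cons a v ih =>
    have hm : ∀ p q : ℍ[ℤ], (p * q).re ^ 2 + (p * q).imI ^ 2 + (p * q).imJ ^ 2 + (p * q).imK ^ 2 =
        (p.re ^ 2 + p.imI ^ 2 + p.imJ ^ 2 + p.imK ^ 2) *
          (q.re ^ 2 + q.imI ^ 2 + q.imJ ^ 2 + q.imK ^ 2) := by
      intro p q
      simp only [Quaternion.re_mul, Quaternion.imI_mul, Quaternion.imJ_mul, Quaternion.imK_mul]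
      ring
    have ha : (al a).re ^ 2 + (al a).imI ^ 2 + (al a).imJ ^ 2 + (al a).imK ^ 2 = 5 := by
      fin_cases a <;> simp [al]
    simp only [qw]
    rw [hm, ih, ha, List.length_cons, pow_succ]

lemma c2_cr_kkC (g : Iso 3) (N : ℕ) (y : S 3) : cr g (kkC N y) = kkC N (rot g⁻¹ y) := by
  ext x
  rw [cr_apply, c2_kkC_apply, c2_kkC_apply]
  unfold kk
  conv_lhs => rw [← rot_rot_inv g y, ker_rot]

lemma c2_cr_sum {ι : Type} (g : Iso 3) (Z : Finset ι) (f : ι → C(S 3, ℝ)) :
    cr g (∑ z ∈ Z, f z) = ∑ z ∈ Z, cr g (f z) := by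
  ext x
  simp [ContinuousMap.sum_apply]

lemma c2_cr_zero (g : Iso 3) : cr g (0 : C(S 3, ℝ)) = 0 := by
  ext x
  simp

/-- TARGET 5 -/
theorem actw_fam {D : ℕ} [NeZero D] (h5 : Nat.Coprime D 5) (R : ℍ[ℝ]ˣ →* Iso 3) (t : ZMod D)
    (ht : t * t = -1) {ι : Type} (Z : Finset ι) (uz : ι → Vec D) (yz : ι → S 3) (N : ℕ)
    (w : List (Fin 6)) :
    actw R t w (fam Z uz yz N) =
      fam Z (fun z => (Ph t (star (qw w))).mulVec (uz z)) (fun z => rot (R (uw w))⁻¹ (yz z)) N := by
  classical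
  have hunit : ∃ c : (ZMod D)ˣ, (c : ZMod D) = ((5 ^ w.length : ℤ) : ZMod D) := by
    refine ⟨ZMod.unitOfCoprime (5 ^ w.length) (Nat.Coprime.pow_left _ h5.symm), ?_⟩
    rw [ZMod.coe_unitOfCoprime]
    push_cast
    rfl
  obtain ⟨c, hc⟩ := hunit
  have hk1 : ∀ v : Vec D, (Ph t (star (qw w))).mulVec ((Ph t (qw w)).mulVec v) =
      (c : ZMod D) • v := by
    intro v
    rw [c2_Ph_star t ht, c2_norm_qw, hc]
  have hk2 : ∀ v : Vec D, (Ph t (qw w)).mulVec ((Ph t (star (qw w))).mulVec v) =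
      (c : ZMod D) • v := by
    intro v
    have h := c2_Ph_star t ht (star (qw w)) v
    rw [star_star] at h
    rw [h, hc, ← c2_norm_qw w]
    congr 2
    simp
  funext v
  unfold actw fam
  rw [c2_cr_sum]
  apply Finset.sum_congr rfl
  intro z _
  have hiff : (∃ a : (ZMod D)ˣ, (Ph t (qw w)).mulVec v = (a : ZMod D) • uz z) ↔
      ∃ a : (ZMod D)ˣ, v = (a : ZMod D) • (Ph t (star (qw w))).mulVec (uz z) := by
    constructor
    · rintro ⟨a, ha⟩
      have h := hk1 v
      rw [ha, Matrix.mulVec_smul] at h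
      refine ⟨c⁻¹ * a, ?_⟩
      rw [Units.val_mul, mul_smul, h, smul_smul]
      simp
    · rintro ⟨a, ha⟩
      refine ⟨a * c, ?_⟩
      rw [ha, Matrix.mulVec_smul, hk2, smul_smul, Units.val_mul]
  by_cases h : ∃ a : (ZMod D)ˣ, (Ph t (qw w)).mulVec v = (a : ZMod D) • uz z
  · rw [if_pos h, if_pos (hiff.1 h), c2_cr_kkC]
  · rw [if_neg h, if_neg (fun h2 => h (hiff.2 h2)), c2_cr_zero]

end Pool.Agent.H978V
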