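import Pool.Agent.H510R2.Div
import Pool.Agent.W65.CS.R2

set_option autoImplicit false
open Finset ArithmeticFunction
open scoped ArithmeticFunction.Moebius

namespace Pool.Agent.H978V

/-- residue class of `j` for `f ∣ r0 + 16 j`, `f` odd -/
lemma aux_C3a_class (f : ℕ) (hf : Odd f) (r0 : ℤ) :
    ∃ v : ℕ, ∀ j : ℕ, ((f : ℤ) ∣ r0 + 16 * j) ↔ j ≡ v [MOD f] := by
  have hf0 : 0 < f := hf.pos
  have hcop : IsCoprime (16 : ℤ) (f : ℤ) := by
    have h1 : Nat.Coprime 16 f := by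
      have : Nat.Coprime (2 ^ 4) f := Nat.Coprime.pow_left 4 (Nat.coprime_two_left.2 hf)
      simpa using this
    exact_mod_cast (Nat.isCoprime_iff_coprime.2 h1)
  obtain ⟨a, b, hab⟩ := hcop
  -- a * 16 + b * f = 1
  have hfz : (0 : ℤ) < f := by exact_mod_cast hf0
  refine ⟨((-r0 * a) % f).toNat, fun j => ?_⟩
  have hv : ((((-r0 * a) % f).toNat : ℕ) : ℤ) = (-r0 * a) % f :=
    Int.toNat_of_nonneg (Int.emod_nonneg _ hfz.ne')
  rw [← Int.natCast_modEq_iff, hv]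
  constructor
  · rintro ⟨c, hc⟩
    have h1 : (j : ℤ) ≡ -r0 * a [ZMOD f] := by
      rw [Int.modEq_iff_dvd]
      refine ⟨- a * c - b * j, ?_⟩
      linear_combination (-a) * hc + (j : ℤ) * hab
    exact h1.trans (Int.mod_modEq _ _).symm
  · intro h
    have h1 : (j : ℤ) ≡ -r0 * a [ZMOD f] := h.trans (Int.mod_modEq _ _)
    rw [Int.modEq_iff_dvd] at h1
    obtain ⟨c, hc⟩ := h1
    refine ⟨r0 * b - 16 * c, ?_⟩
    linear_combination (-16) * hc - r0 * hab

lemma aux_C3a_count (f : ℕ) (hf : Odd f) (r0 : ℤ) (L : ℕ) :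
    |((((range L).filter (fun j : ℕ => (f : ℤ) ∣ r0 + 16 * j)).card : ℕ) : ℝ) - (L : ℝ) / f| ≤ 1 := by
  obtain ⟨v, hv⟩ := aux_C3a_class f hf r0
  have hf0 : 0 < f := hf.pos
  have h1 : ((range L).filter (fun j : ℕ => (f : ℤ) ∣ r0 + 16 * j)).card =
      L / f + if v % f < L % f then 1 else 0 := by
    rw [← Nat.count_modEq_card L hf0 v, Nat.count_eq_card_filter_range]
    congr 1
    apply filter_congr
    intro j _
    exact hv j
  have hfr : (0 : ℝ) < f := by exact_mod_cast hf0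
  have h2 : ((L / f : ℕ) : ℝ) ≤ (L : ℝ) / f := Nat.cast_div_le
  have h3 : (L : ℝ) / f < ((L / f : ℕ) : ℝ) + 1 := by
    rw [div_lt_iff₀ hfr]
    have := Nat.lt_div_mul_add (a := L) hf0
    have h4 : L < (L / f + 1) * f := by linarith [this, add_mul (L / f) 1 f]
    exact_mod_cast h4
  rw [h1, abs_le]
  push_cast
  split_ifs <;> constructor <;> linarith

lemma aux_C3a_moebius (n : ℕ) :
    ∑ d ∈ n.divisors, μ d = if n = 1 then (1 : ℤ) else 0 := by
  have := congrArg (fun F : ArithmeticFunction ℤ => F n) moebius_mul_coe_zeta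
  simp only [coe_mul_zeta_apply, one_apply] at this
  exact this

/-- sieve: lower bound for the number of `j < L` with `r0 + 16 j` prime to `D` (squarefree, odd) -/
lemma aux_C3a_sieve (D : ℕ) (hD : Odd D) (hs : Squarefree D) (r0 : ℤ) (L : ℕ) :
    (L : ℝ) / (D.divisors.card : ℝ) - (D.divisors.card : ℝ) ≤
      ((((range L).filter (fun j : ℕ => IsCoprime (r0 + 16 * j) (D : ℤ))).card : ℕ) : ℝ) := by
  have hD0 : D ≠ 0 := hs.ne_zero
  have key : ((((range L).filter (fun j : ℕ => IsCoprime (r0 + 16 * j) (D : ℤ))).card : ℕ) : ℤ) =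
      ∑ d ∈ D.divisors, μ d * (((range L).filter (fun j : ℕ => (d : ℤ) ∣ r0 + 16 * j)).card : ℤ) := by
    have h1 : ∀ j : ℕ, (if IsCoprime (r0 + 16 * j) (D : ℤ) then (1 : ℤ) else 0) =
        ∑ d ∈ D.divisors, if (d : ℤ) ∣ r0 + 16 * j then μ d else 0 := by
      intro j
      have hg : Int.gcd (r0 + 16 * j) D ≠ 0 := by
        intro h
        rw [Int.gcd_eq_zero_iff] at h
        exact hD0 (by exact_mod_cast h.2)
      rw [← sum_filter]
      have h2 : D.divisors.filter (fun d : ℕ => (d : ℤ) ∣ r0 + 16 * j) =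
          (Int.gcd (r0 + 16 * j) D).divisors := by
        ext d
        simp only [mem_filter, Nat.mem_divisors]
        constructor
        · rintro ⟨⟨h3, _⟩, h4⟩
          exact ⟨by exact_mod_cast Int.dvd_coe_gcd h4 (by exact_mod_cast h3), hg⟩
        · rintro ⟨h3, _⟩
          have h4 : (d : ℤ) ∣ (Int.gcd (r0 + 16 * j) D : ℤ) := by exact_mod_cast h3
          refine ⟨⟨by exact_mod_cast h4.trans (Int.gcd_dvd_right _ _), hD0⟩, h4.trans (Int.gcd_dvd_left _ _)⟩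
      rw [h2, aux_C3a_moebius _]
      simp only [Int.isCoprime_iff_gcd_eq_one]
    calc _ = ∑ j ∈ range L, (if IsCoprime (r0 + 16 * j) (D : ℤ) then (1 : ℤ) else 0) := by
          rw [Finset.sum_boole]
      _ = ∑ j ∈ range L, ∑ d ∈ D.divisors, (if (d : ℤ) ∣ r0 + 16 * j then μ d else 0) :=
          Finset.sum_congr rfl (fun j _ => h1 j)
      _ = ∑ d ∈ D.divisors, ∑ j ∈ range L, (if (d : ℤ) ∣ r0 + 16 * j then μ d else 0) :=
          Finset.sum_comm
      _ = _ := by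
          refine Finset.sum_congr rfl (fun d _ => ?_)
          rw [← sum_filter, sum_const, nsmul_eq_mul, mul_comm]
  have key' : ((((range L).filter (fun j : ℕ => IsCoprime (r0 + 16 * j) (D : ℤ))).card : ℕ) : ℝ) =
      ∑ d ∈ D.divisors, (μ d : ℝ) * (((range L).filter (fun j : ℕ => (d : ℤ) ∣ r0 + 16 * j)).card : ℝ) := by
    have := congrArg (fun z : ℤ => (z : ℝ)) key
    simpa using this
  have hmu : ∀ d : ℕ, |(μ d : ℝ)| ≤ 1 := by
    intro d
    have := abs_moebius_le_one (n := d)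
    exact_mod_cast this
  -- main term
  have hmain : ∑ d ∈ D.divisors, (μ d : ℝ) * ((L : ℝ) / d) = L * ∏ p ∈ D.primeFactors, (1 - (p : ℝ)⁻¹) := by
    let g : ArithmeticFunction ℝ := ⟨fun n => (n : ℝ)⁻¹, by simp⟩
    have hg : g.IsMultiplicative := by
      refine ⟨by simp [g], ?_⟩
      intro m n _
      simp only [g, ArithmeticFunction.coe_mk, Nat.cast_mul, mul_inv]
    have h := IsMultiplicative.prodPrimeFactors_one_sub_of_squarefree g hg hs
    simp only [g, ArithmeticFunction.coe_mk] at h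
    rw [h, mul_sum]
    refine sum_congr rfl (fun d _ => ?_)
    rw [div_eq_mul_inv]; ring
  have hprod : ((D.divisors.card : ℝ))⁻¹ ≤ ∏ p ∈ D.primeFactors, (1 - (p : ℝ)⁻¹) := by
    have h1 : ((D.divisors.card : ℝ))⁻¹ = ∏ p ∈ D.primeFactors, (2 : ℝ)⁻¹ := by
      rw [prod_const, Nat.card_divisors hD0, inv_pow]
      congr 1
      push_cast
      rw [← prod_const]
      refine prod_congr rfl (fun p hp => ?_)
      have : D.factorization p = 1 := by
        have h2 := (Nat.squarefree_iff_factorization_le_one hD0).1 hs p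
        have h3 : D.factorization p ≠ 0 := by
          have := Nat.support_factorization D
          rw [← this] at hp
          exact Finsupp.mem_support_iff.1 hp
        omega
      rw [this]; norm_num
    rw [h1]
    refine prod_le_prod (fun p _ => by norm_num) (fun p hp => ?_)
    have hp2 : (2 : ℝ) ≤ p := by exact_mod_cast (Nat.prime_of_mem_primeFactors hp).two_le
    have : (p : ℝ)⁻¹ ≤ 2⁻¹ := inv_anti₀ (by norm_num) hp2
    linarith [this, show (1 : ℝ) - 2⁻¹ = 2⁻¹ by norm_num]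
  have herr : |∑ d ∈ D.divisors, (μ d : ℝ) * (((range L).filter (fun j : ℕ => (d : ℤ) ∣ r0 + 16 * j)).card : ℝ) -
      ∑ d ∈ D.divisors, (μ d : ℝ) * ((L : ℝ) / d)| ≤ D.divisors.card := by
    rw [← sum_sub_distrib]
    refine (abs_sum_le_sum_abs _ _).trans ?_
    have h1 : ∀ d ∈ D.divisors, |(μ d : ℝ) * (((range L).filter (fun j : ℕ => (d : ℤ) ∣ r0 + 16 * j)).card : ℝ) -
      (μ d : ℝ) * ((L : ℝ) / d)| ≤ 1 := by
      intro d hd
      rw [← mul_sub, abs_mul]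
      have hdo : Odd d := hD.of_dvd_nat (Nat.dvd_of_mem_divisors hd)
      calc _ ≤ 1 * 1 := mul_le_mul (hmu d) (aux_C3a_count d hdo r0 L) (abs_nonneg _) zero_le_one
        _ = 1 := one_mul 1
    calc _ ≤ ∑ d ∈ D.divisors, (1 : ℝ) := sum_le_sum h1
      _ = _ := by simp
  rw [key']
  have h5 := (abs_le.1 herr).1
  rw [hmain] at h5
  have h6 : (L : ℝ) * ((D.divisors.card : ℝ))⁻¹ ≤ L * ∏ p ∈ D.primeFactors, (1 - (p : ℝ)⁻¹) :=
    mul_le_mul_of_nonneg_left hprod (Nat.cast_nonneg L)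
  rw [div_eq_mul_inv]
  linarith


lemma aux_C3a_rad (D : ℕ) (hD : D ≠ 0) : ∃ D' : ℕ, D' ∣ D ∧ Squarefree D' ∧
    ∀ m : ℤ, IsCoprime m (D' : ℤ) → IsCoprime m (D : ℤ) := by
  refine ⟨∏ p ∈ D.primeFactors, p, Nat.prod_primeFactors_dvd D, ?_, ?_⟩
  · apply Finset.squarefree_prod_of_pairwise_isCoprime
    · intro p hp q hq hpq
      have h1 := (Nat.coprime_primes (Nat.prime_of_mem_primeFactors hp)
        (Nat.prime_of_mem_primeFactors hq)).2 hpq
      exact Nat.coprime_iff_isRelPrime.1 h1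
    · intro p hp
      exact (Nat.prime_of_mem_primeFactors hp).prime.squarefree
  · intro m hm
    rw [Int.isCoprime_iff_gcd_eq_one] at hm ⊢
    change Nat.Coprime m.natAbs (D : ℤ).natAbs
    change Nat.Coprime m.natAbs ((∏ p ∈ D.primeFactors, p : ℕ) : ℤ).natAbs at hm
    rw [Int.natAbs_natCast] at hm ⊢
    apply Nat.coprime_of_dvd
    intro p hp h1 h2
    have h3 : p ∣ ∏ p ∈ D.primeFactors, p :=
      dvd_prod_of_mem (fun p => p) (Nat.mem_primeFactors.2 ⟨hp, h2, hD⟩)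
    have h4 := Nat.dvd_gcd h1 h3
    rw [hm] at h4
    exact hp.one_lt.ne' (Nat.dvd_one.1 h4)

/-- TARGET -/
theorem sieve_m (δ : ℝ) (hδ : 0 < δ) : ∃ K : ℝ, 0 < K ∧ ∀ (D N₀ : ℕ), Odd D → D ≤ N₀ → ∀ r : ℤ,
    ∀ A B : ℝ, K * (N₀ : ℝ) ^ δ ≤ B - A → ∃ m : ℤ, A ≤ m ∧ (m : ℝ) ≤ B ∧ m % 16 = r % 16 ∧
      IsCoprime m (D : ℤ) ∧ ¬ IsSquare ((N₀ : ℤ) - m ^ 2) := by
  classical
  obtain ⟨C₁, hC₁, h₁⟩ := Pool.Agent.H510R2.divisor_bound (δ / 2) (by positivity)
  obtain ⟨C₂, hC₂, h₂⟩ := Pool.Agent.W65.CS.R2_bound (δ / 2) (by positivity)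
  refine ⟨16 * (C₁ * (C₁ + C₂) + 2), by positivity, ?_⟩
  intro D N₀ hD hDN r A B hAB
  have hDpos : 0 < D := hD.pos
  have hNpos : 1 ≤ N₀ := le_trans hDpos hDN
  have hN1 : (1 : ℝ) ≤ N₀ := by exact_mod_cast hNpos
  set X : ℝ := (N₀ : ℝ) ^ (δ / 2) with hX
  have hX1 : 1 ≤ X := Real.one_le_rpow hN1 (by positivity)
  have hXX : (N₀ : ℝ) ^ δ = X * X := by
    rw [hX, ← Real.rpow_add (by linarith)]; congr 1; ring
  rw [hXX] at hAB
  obtain ⟨D', hD'D, hD's, hcop⟩ := aux_C3a_rad D hDpos.ne'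
  have hD'o : Odd D' := hD.of_dvd_nat hD'D
  have hD'pos : 1 ≤ D' := Nat.pos_of_ne_zero hD's.ne_zero
  have htau : ((D'.divisors.card : ℕ) : ℝ) ≤ C₁ * X := by
    refine (h₁ D' hD'pos).trans (mul_le_mul_of_nonneg_left ?_ hC₁.le)
    apply Real.rpow_le_rpow (by positivity) _ (by positivity)
    exact_mod_cast (Nat.le_of_dvd hDpos hD'D).trans hDN
  have htau1 : (1 : ℝ) ≤ ((D'.divisors.card : ℕ) : ℝ) := by
    have : 0 < D'.divisors.card := Finset.card_pos.2 ⟨1, Nat.one_mem_divisors.2 hD's.ne_zero⟩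
    exact_mod_cast this
  set L : ℕ := ⌊(B - A) / 16⌋₊ with hL
  have hKpos : 0 ≤ 16 * (C₁ * (C₁ + C₂) + 2) * (X * X) := by positivity
  have hL1 : (B - A) / 16 < L + 1 := Nat.lt_floor_add_one _
  have hL2 : (L : ℝ) ≤ (B - A) / 16 := Nat.floor_le (by linarith)
  have hL3 : (C₁ * (C₁ + C₂)) * (X * X) + 1 ≤ L := by
    have : (1 : ℝ) ≤ X * X := by nlinarith
    nlinarith
  set r0 : ℤ := ⌈A⌉ + (r - ⌈A⌉) % 16 with hr0
  have hr1 : A ≤ r0 := by
    have h1 : A ≤ ⌈A⌉ := Int.le_ceil A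
    have h2 : (0 : ℤ) ≤ (r - ⌈A⌉) % 16 := Int.emod_nonneg _ (by norm_num)
    have h3 : (0 : ℝ) ≤ (((r - ⌈A⌉) % 16 : ℤ) : ℝ) := by exact_mod_cast h2
    rw [hr0]; push_cast; linarith
  have hr2 : (r0 : ℝ) ≤ A + 16 := by
    have h1 : (⌈A⌉ : ℝ) < A + 1 := Int.ceil_lt_add_one A
    have h2 : (r - ⌈A⌉) % 16 ≤ 15 := by omega
    have h3 : (((r - ⌈A⌉) % 16 : ℤ) : ℝ) ≤ 15 := by exact_mod_cast h2
    rw [hr0]; push_cast; linarith
  by_contra hcon
  push Not at hcon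
  set S := (range L).filter (fun j : ℕ => IsCoprime (r0 + 16 * j) (D' : ℤ)) with hS
  have hSsq : ∀ j ∈ S, IsSquare ((N₀ : ℤ) - (r0 + 16 * j) ^ 2) := by
    intro j hj
    rw [hS, mem_filter, mem_range] at hj
    obtain ⟨hjL, hjc⟩ := hj
    have hjr : (j : ℝ) + 1 ≤ L := by exact_mod_cast hjL
    have hj0 : (0 : ℝ) ≤ j := Nat.cast_nonneg j
    apply hcon (r0 + 16 * j)
    · push_cast; linarith
    · push_cast; linarith
    · rw [hr0]; omega
    · exact hcop _ hjc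
  have hcard : S.card ≤ (Pool.Agent.W65.CS.R2 N₀).card := by
    choose! h hh using hSsq
    refine Finset.card_le_card_of_injOn (fun j : ℕ => ((r0 + 16 * (j : ℤ), h j) : ℤ × ℤ)) ?_ ?_
    · intro j hj
      have h5 := hh j (by simpa using hj)
      simp only [mem_coe, Pool.Agent.W65.CS.mem_R2]
      linarith [h5, sq (h j)]
    · intro j _ j' _ hjj
      simp only [Prod.mk.injEq] at hjj
      have := hjj.1
      omega
  have hcardR : (S.card : ℝ) ≤ C₂ * X :=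
    le_trans (by exact_mod_cast hcard) (h₂ N₀ N₀ le_rfl hNpos)
  have hsieve := aux_C3a_sieve D' hD'o hD's r0 L
  rw [← hS] at hsieve
  have h7 : (L : ℝ) / (D'.divisors.card : ℝ) ≤ C₁ * X + C₂ * X := by linarith
  rw [div_le_iff₀ (by linarith)] at h7
  have h8 : (C₁ * X + C₂ * X) * (D'.divisors.card : ℝ) ≤ (C₁ * X + C₂ * X) * (C₁ * X) :=
    mul_le_mul_of_nonneg_left htau (by positivity)
  have h9 : (C₁ * X + C₂ * X) * (C₁ * X) = (C₁ * (C₁ + C₂)) * (X * X) := by ring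
  linarith

end Pool.Agent.H978V
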