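import Pool.Agent.H978V.Defs2
import Pool.Agent.H978V.B5
import Pool.Agent.H978V.B6

/-!
JOB C3b (owner helper978, MP_06cce2_nt).  `H978V/{Ar,Defs,Defs2}.lean` are on origin/main.

The three 2-adic types of `v = a + b i` (all statements below were checked by computer).  `GC a b c D ζ`: `v ζ = c w`, `re w ≡ D mod 4`, imaginary coordinates of `w` even.
`zq m s y = m + s y`.  `N₀ = (a² + b²) 5^l`.

Type I: `a` odd, `b` even (`c = 1`, `D = a²+b² ≡ 1 mod 4`).  Choose `p` such that `N₀ = D 5^l ≡ 1 mod 8` for `l ≡ p mod 2` (`5^l ≡ 1` or `5 mod 8`).  Then `N₀ mod 16 ∈ {1, 9}`; choose `r ≡ a mod 4` with `r² ≡ N₀ - 8 mod 16`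
(`±1 mod 8` have square `1`, `±3 mod 8` square `9` mod 16).  For `m ≡ r mod 16`: `N₀ - m² ≡ 8 mod 16`, `n = (N₀ - m²)/4 ≡ 2 mod 4`, `s = 2`, `Z = S3 n`, `r3_lower`.  `GC`: real part of `v ζ` is `a m - 2 b y₁ ≡ a² ≡ 1 ≡ D mod 4`,
the others are even.
Type II: `a` even, `b` odd (`c = 1`, `D ≡ 1 mod 4`), any `l` (`p = 0`), `r = 0`: `m` even, `n = N₀ - m² ≡ 1 mod 4`, `s = 1`, `Z = {y ∈ S3 n : y₁ ≡ -b mod 4, y₂, y₃ even}`.  Every `y ∈ S3 n` has exactly one odd coordinate; permuting coordinates and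
changing the sign of the first: `|Z| ≥ |S3 n|/6`.  `GC`: real part `a m - b y₁ ≡ b² ≡ 1 mod 4`; the others `a y₁ + b m`, `a y₂ - b y₃`, `a y₃ + b y₂` are even.
Type III: `a, b` odd (`c = 2`, `a² + b² = 2D ≡ 2 mod 8`, `D ≡ 1 mod 4`), any `l`, `r = 1`: `N₀ ≡ 2 mod 8`, `m` odd, `n = N₀ - m² ≡ 1 mod 8`, not a square, `s = 1`.  Let `z = b (a m - (a²+b²))` (odd),
`Z = {y ∈ S3 n : y₁ ≡ z mod 8, y₂ ≡ y₃ ≡ ρ mod 4}` where `ρ = 0` if `z² ≡ n mod 16` and `ρ = 2` if `z² ≡ n - 8 mod 16` (one of the two holds since `z² ≡ 1 mod 8`).  For `y` in the class of `class_lower` with this `ρ`: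
`y₁² = n - y₂² - y₃² ≡ n - 2ρ² ≡ z² mod 16`, so `y₁ ≡ ± z mod 8`; changing the sign of `y₁`: `|Z| ≥` half of the class.  `GC`: with `d = 2D`: `a m - b y₁ ≡ d mod 8` (as `b² ≡ 1 mod 8`), `a y₁ + b m ≡ 0 mod 4`
(`a y₁ + b m ≡ a b (a m - d) + b m = b m (a²+1) - a b d ≡ 2 b m - 2 a b ≡ 0 mod 4`), `a y₂ - b y₃ ≡ 0`, `a y₃ + b y₂ ≡ 0 mod 4` (`y₂ ≡ y₃ ∈ {0,2} mod 4`).  So `v ζ = 2 w`, `re w ≡ D mod 4`, rest even.
`n ≥ 1` because `0 < N₀ - m²`.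
-/

set_option autoImplicit false

open scoped Quaternion

namespace Pool.Agent.H978V



lemma zs_GC_of {a b c m s : ℤ} {D : ℕ} {y : ℤ × ℤ × ℤ} (w0 w1 w2 w3 : ℤ)
    (h0 : a * m - b * (s * y.1) = c * w0)
    (h1 : a * (s * y.1) + b * m = c * w1)
    (h2 : a * (s * y.2.1) - b * (s * y.2.2) = c * w2)
    (h3 : a * (s * y.2.2) + b * (s * y.2.1) = c * w3)
    (k0 : (w0 - D) % 4 = 0) (k1 : w1 % 2 = 0) (k2 : w2 % 2 = 0) (k3 : w3 % 2 = 0) :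
    GC a b c D (zq m s y) := by
  refine ⟨⟨w0, w1, w2, w3⟩, ?_, k0, k1, k2, k3⟩
  have e1 : c • (⟨w0, w1, w2, w3⟩ : ℍ[ℤ]) = (⟨c * w0, c * w1, c * w2, c * w3⟩ : ℍ[ℤ]) := by
    apply Quaternion.ext <;> simp
  have e2 : vq a b * zq m s y = (⟨a * m - b * (s * y.1), a * (s * y.1) + b * m,
      a * (s * y.2.1) - b * (s * y.2.2), a * (s * y.2.2) + b * (s * y.2.1)⟩ : ℍ[ℤ]) := by
    apply Quaternion.ext
    · rw [Quaternion.re_mul]; simp only [vq, zq]; ring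
    · rw [Quaternion.imI_mul]; simp only [vq, zq]; ring
    · rw [Quaternion.imJ_mul]; simp only [vq, zq]; ring
    · rw [Quaternion.imK_mul]; simp only [vq, zq]; ring
  have e3 : (⟨a * m - b * (s * y.1), a * (s * y.1) + b * m,
      a * (s * y.2.1) - b * (s * y.2.2), a * (s * y.2.2) + b * (s * y.2.1)⟩ : ℍ[ℤ]) =
      (⟨c * w0, c * w1, c * w2, c * w3⟩ : ℍ[ℤ]) := by rw [h0, h1, h2, h3]
  exact e2.trans (e3.trans e1.symm)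

lemma zs_sq_odd_mod8 {x : ℤ} (h : x % 2 = 1) : ∃ k : ℤ, x ^ 2 = 8 * k + 1 := by
  obtain ⟨t, rfl⟩ : ∃ t, x = 2 * t + 1 := ⟨x / 2, by omega⟩
  have h2 : (t * (t + 1)) % 2 = 0 := by
    rcases Int.emod_two_eq_zero_or_one t with h | h <;> simp [Int.mul_emod, Int.add_emod, h]
  obtain ⟨k, hk⟩ : ∃ k, t * (t + 1) = 2 * k := ⟨t * (t + 1) / 2, by omega⟩
  exact ⟨k, by linear_combination 4 * hk⟩

lemma zs_pow5_mod4 (l : ℕ) : ∃ k : ℤ, (5 : ℤ) ^ l = 4 * k + 1 := by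
  induction l with
  | zero => exact ⟨0, by norm_num⟩
  | succ l ih =>
    obtain ⟨k, hk⟩ := ih
    exact ⟨5 * k + 1, by rw [pow_succ, hk]; ring⟩

lemma zs_pow5_mod8_even (l : ℕ) (h : l % 2 = 0) : ∃ k : ℤ, (5 : ℤ) ^ l = 8 * k + 1 := by
  obtain ⟨j, rfl⟩ : ∃ j, l = 2 * j := ⟨l / 2, by omega⟩
  rw [pow_mul]
  induction j with
  | zero => exact ⟨0, by norm_num⟩
  | succ j ih =>
    obtain ⟨k, hk⟩ := ih (by omega)
    exact ⟨25 * k + 3, by rw [pow_succ, hk]; ring⟩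

lemma zs_pow5_mod8_odd (l : ℕ) (h : l % 2 = 1) : ∃ k : ℤ, (5 : ℤ) ^ l = 8 * k + 5 := by
  obtain ⟨j, rfl⟩ : ∃ j, l = j + 1 := ⟨l - 1, by omega⟩
  obtain ⟨k, hk⟩ := zs_pow5_mod8_even j (by omega)
  exact ⟨5 * k, by rw [pow_succ, hk]; ring⟩

/-- Type I -/
lemma zs_type1 {κ c₁ δ : ℝ} (hκ : κ ≤ c₁)
    (hr : ∀ n : ℕ, n % 4 = 1 ∨ n % 4 = 2 → c₁ * (n : ℝ) ^ (1 / 2 - δ) ≤ ((S3 n).card : ℝ))
    {a b : ℤ} {D : ℕ} (ha : a % 2 = 1) (hb : b % 2 = 0) (hD : a ^ 2 + b ^ 2 = D) :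
    ∃ p : ℕ, p < 2 ∧ ∀ l : ℕ, l % 2 = p →
    ∃ r : ℤ, ∀ m : ℤ, m % 16 = r % 16 → m ^ 2 < (a ^ 2 + b ^ 2) * 5 ^ l →
    ∃ (s : ℤ) (n : ℕ) (Z : Finset (ℤ × ℤ × ℤ)), (s = 1 ∨ s = 2) ∧ 1 ≤ n ∧
      m ^ 2 + s ^ 2 * n = (a ^ 2 + b ^ 2) * 5 ^ l ∧ Z ⊆ S3 n ∧
      κ * (n : ℝ) ^ (1 / 2 - δ) ≤ (Z.card : ℝ) ∧ ∀ y ∈ Z, GC a b 1 D (zq m s y) := by
  obtain ⟨ka, hka⟩ := zs_sq_odd_mod8 ha
  obtain ⟨b', rfl⟩ : ∃ b', b = 2 * b' := ⟨b / 2, by omega⟩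
  set N := a ^ 2 + (2 * b') ^ 2 with hN
  have hN1 : N % 4 = 1 := by
    have : N = 4 * (2 * ka + b' ^ 2) + 1 := by rw [hN, hka]; ring
    omega
  -- choose p
  have hp : ∃ p : ℕ, p < 2 ∧ ∀ l : ℕ, l % 2 = p → (N * 5 ^ l) % 8 = 1 := by
    have h8 : N % 8 = 1 ∨ N % 8 = 5 := by omega
    rcases h8 with h8 | h8
    · refine ⟨0, by norm_num, fun l hl => ?_⟩
      obtain ⟨k, hk⟩ := zs_pow5_mod8_even l hl
      obtain ⟨q, hq⟩ : ∃ q, N = 8 * q + 1 := ⟨N / 8, by omega⟩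
      have : N * 5 ^ l = 8 * ((8 * q + 1) * k + q) + 1 := by rw [hk, hq]; ring
      omega
    · refine ⟨1, by norm_num, fun l hl => ?_⟩
      obtain ⟨k, hk⟩ := zs_pow5_mod8_odd l hl
      obtain ⟨q, hq⟩ : ∃ q, N = 8 * q + 5 := ⟨N / 8, by omega⟩
      have : N * 5 ^ l = 8 * ((8 * q + 5) * k + 5 * q + 3) + 1 := by rw [hk, hq]; ring
      omega
  obtain ⟨p, hp2, hp⟩ := hp
  refine ⟨p, hp2, fun l hl => ?_⟩
  have h1 := hp l hl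
  set M := N * 5 ^ l with hM
  have hr' : ∃ r : ℤ, r % 4 = a % 4 ∧ (M - r ^ 2) % 16 = 8 ∧ 0 ≤ r ∧ r < 16 := by
    have h16 : M % 16 = 1 ∨ M % 16 = 9 := by omega
    have h4 : a % 4 = 1 ∨ a % 4 = 3 := by omega
    rcases h16 with h16 | h16 <;> rcases h4 with h4 | h4
    · exact ⟨5, by omega, by omega, by norm_num, by norm_num⟩
    · exact ⟨3, by omega, by omega, by norm_num, by norm_num⟩
    · exact ⟨1, by omega, by omega, by norm_num, by norm_num⟩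
    · exact ⟨7, by omega, by omega, by norm_num, by norm_num⟩
  obtain ⟨r, hr4, hr16, hr0, hr15⟩ := hr'
  refine ⟨r, fun m hm hlt => ?_⟩
  obtain ⟨t, ht⟩ : ∃ t, m = r + 16 * t := ⟨(m - r) / 16, by omega⟩
  have hm16 : (M - m ^ 2) % 16 = 8 := by
    have : M - m ^ 2 = (M - r ^ 2) + 16 * (-(2 * r * t) - 16 * t ^ 2) := by rw [ht]; ring
    omega
  obtain ⟨n, hn⟩ : ∃ n : ℕ, M - m ^ 2 = 4 * (n : ℤ) := by
    refine ⟨((M - m ^ 2) / 4).toNat, ?_⟩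
    omega
  have hn2 : n % 4 = 2 := by omega
  refine ⟨2, n, S3 n, Or.inr rfl, by omega, by linarith, Finset.Subset.refl _, ?_, ?_⟩
  · refine le_trans (mul_le_mul_of_nonneg_right hκ (by positivity)) (hr n (Or.inr hn2))
  · intro y _
    have hre : ∃ k : ℤ, a * m - (2 * b') * (2 * y.1) - D = 4 * k := by
      obtain ⟨q, hq⟩ : ∃ q, m = a + 4 * q := ⟨(m - a) / 4, by omega⟩
      refine ⟨a * q - b' * y.1 - b' ^ 2, ?_⟩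
      rw [← hD, hq]; ring
    obtain ⟨k, hk⟩ := hre
    refine zs_GC_of _ _ _ _ (one_mul _).symm (one_mul _).symm (one_mul _).symm (one_mul _).symm ?_ ?_ ?_ ?_
    · omega
    · have : a * (2 * y.1) + 2 * b' * m = 2 * (a * y.1 + b' * m) := by ring
      omega
    · have : a * (2 * y.2.1) - 2 * b' * (2 * y.2.2) = 2 * (a * y.2.1 - 2 * b' * y.2.2) := by ring
      omega
    · have : a * (2 * y.2.2) + 2 * b' * (2 * y.2.1) = 2 * (a * y.2.2 + 2 * b' * y.2.1) := by ring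
      omega

/-- exactly one odd coordinate -/
lemma zs_one_odd {x y z n : ℤ} (h : x ^ 2 + y ^ 2 + z ^ 2 = n) (hn : n % 4 = 1) :
    (x % 2 = 1 ∧ y % 2 = 0 ∧ z % 2 = 0) ∨ (x % 2 = 0 ∧ y % 2 = 1 ∧ z % 2 = 0) ∨
      (x % 2 = 0 ∧ y % 2 = 0 ∧ z % 2 = 1) := by
  have key : ∀ u : ℤ, (u % 2 = 0 ∧ u ^ 2 % 4 = 0) ∨ (u % 2 = 1 ∧ u ^ 2 % 4 = 1) := by
    intro u
    rcases Int.emod_two_eq_zero_or_one u with hu | hu
    · left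
      obtain ⟨t, rfl⟩ : ∃ t, u = 2 * t := ⟨u / 2, by omega⟩
      refine ⟨hu, ?_⟩
      have : (2 * t) ^ 2 = 4 * t ^ 2 := by ring
      omega
    · right
      obtain ⟨k, hk⟩ := zs_sq_odd_mod8 hu
      exact ⟨hu, by omega⟩
  rcases key x with ⟨h1, h1'⟩ | ⟨h1, h1'⟩ <;> rcases key y with ⟨h2, h2'⟩ | ⟨h2, h2'⟩ <;>
    rcases key z with ⟨h3, h3'⟩ | ⟨h3, h3'⟩ <;> omega

lemma zs_card_type2 (n : ℕ) (b : ℤ) (hn : n % 4 = 1) (hb : b % 2 = 1) :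
    (S3 n).card ≤ 6 * ((S3 n).filter
      (fun y => (y.1 + b) % 4 = 0 ∧ y.2.1 % 2 = 0 ∧ y.2.2 % 2 = 0)).card := by
  classical
  set Z := (S3 n).filter (fun y => (y.1 + b) % 4 = 0 ∧ y.2.1 % 2 = 0 ∧ y.2.2 % 2 = 0) with hZ
  let f : Fin 6 → (ℤ × ℤ × ℤ) → (ℤ × ℤ × ℤ) := fun k z =>
    match k with
    | 0 => (z.1, z.2.1, z.2.2)
    | 1 => (-z.1, z.2.1, z.2.2)
    | 2 => (z.2.1, z.1, z.2.2)
    | 3 => (z.2.1, -z.1, z.2.2)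
    | 4 => (z.2.1, z.2.2, z.1)
    | 5 => (z.2.1, z.2.2, -z.1)
  have hsub : S3 n ⊆ Finset.univ.biUnion (fun k => Z.image (f k)) := by
    intro y hy
    obtain ⟨y1, y2, y3⟩ := y
    have hy' := mem_S3.1 hy
    simp only at hy'
    have hn' : (n : ℤ) % 4 = 1 := by omega
    simp only [Finset.mem_biUnion, Finset.mem_univ, true_and, Finset.mem_image]
    rcases zs_one_odd hy' hn' with ⟨h1, h2, h3⟩ | ⟨h1, h2, h3⟩ | ⟨h1, h2, h3⟩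
    · rcases (by omega : (y1 + b) % 4 = 0 ∨ (-y1 + b) % 4 = 0) with h | h
      · exact ⟨0, (y1, y2, y3), by rw [hZ, Finset.mem_filter, mem_S3]; exact ⟨by simpa using hy', h, h2, h3⟩, rfl⟩
      · exact ⟨1, (-y1, y2, y3), by rw [hZ, Finset.mem_filter, mem_S3]; exact ⟨by simpa using hy', h, h2, h3⟩, by simp [f]⟩
    · rcases (by omega : (y2 + b) % 4 = 0 ∨ (-y2 + b) % 4 = 0) with h | h
      · exact ⟨2, (y2, y1, y3), by rw [hZ, Finset.mem_filter, mem_S3]; exact ⟨by simp only; linarith, h, h1, h3⟩, rfl⟩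
      · exact ⟨3, (-y2, y1, y3), by rw [hZ, Finset.mem_filter, mem_S3]; exact ⟨by simp only [neg_sq]; linarith, h, h1, h3⟩, by simp [f]⟩
    · rcases (by omega : (y3 + b) % 4 = 0 ∨ (-y3 + b) % 4 = 0) with h | h
      · exact ⟨4, (y3, y1, y2), by rw [hZ, Finset.mem_filter, mem_S3]; exact ⟨by simp only; linarith, h, h1, h2⟩, rfl⟩
      · exact ⟨5, (-y3, y1, y2), by rw [hZ, Finset.mem_filter, mem_S3]; exact ⟨by simp only [neg_sq]; linarith, h, h1, h2⟩, by simp [f]⟩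
  calc (S3 n).card ≤ (Finset.univ.biUnion (fun k => Z.image (f k))).card := Finset.card_le_card hsub
    _ ≤ ∑ k : Fin 6, (Z.image (f k)).card := Finset.card_biUnion_le
    _ ≤ ∑ _k : Fin 6, Z.card := Finset.sum_le_sum (fun k _ => Finset.card_image_le)
    _ = 6 * Z.card := by simp

/-- Type II -/
lemma zs_type2 {κ c₁ δ : ℝ} (hκ : κ ≤ c₁ / 6)
    (hr : ∀ n : ℕ, n % 4 = 1 ∨ n % 4 = 2 → c₁ * (n : ℝ) ^ (1 / 2 - δ) ≤ ((S3 n).card : ℝ))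
    {a b : ℤ} {D : ℕ} (ha : a % 2 = 0) (hb : b % 2 = 1) (hD : a ^ 2 + b ^ 2 = D) :
    ∃ p : ℕ, p < 2 ∧ ∀ l : ℕ, l % 2 = p →
    ∃ r : ℤ, ∀ m : ℤ, m % 16 = r % 16 → m ^ 2 < (a ^ 2 + b ^ 2) * 5 ^ l →
    ∃ (s : ℤ) (n : ℕ) (Z : Finset (ℤ × ℤ × ℤ)), (s = 1 ∨ s = 2) ∧ 1 ≤ n ∧
      m ^ 2 + s ^ 2 * n = (a ^ 2 + b ^ 2) * 5 ^ l ∧ Z ⊆ S3 n ∧
      κ * (n : ℝ) ^ (1 / 2 - δ) ≤ (Z.card : ℝ) ∧ ∀ y ∈ Z, GC a b 1 D (zq m s y) := by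
  obtain ⟨kb, hkb⟩ := zs_sq_odd_mod8 hb
  obtain ⟨a', rfl⟩ : ∃ a', a = 2 * a' := ⟨a / 2, by omega⟩
  refine ⟨0, by norm_num, fun l _ => ⟨0, fun m hm hlt => ?_⟩⟩
  obtain ⟨q, hq⟩ := zs_pow5_mod4 l
  obtain ⟨m', rfl⟩ : ∃ m', m = 4 * m' := ⟨m / 4, by omega⟩
  set M := ((2 * a') ^ 2 + b ^ 2) * 5 ^ l with hM
  have hM1 : M % 4 = 1 := by
    have : M = 4 * ((4 * (a' ^ 2 + 2 * kb) + 1) * q + (a' ^ 2 + 2 * kb)) + 1 := by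
      rw [hM, hq, hkb]; ring
    omega
  have hMm : (M - (4 * m') ^ 2) % 4 = 1 := by
    have : M - (4 * m') ^ 2 = M + 4 * (-4 * m' ^ 2) := by ring
    omega
  obtain ⟨n, hn⟩ : ∃ n : ℕ, M - (4 * m') ^ 2 = (n : ℤ) := by
    refine ⟨(M - (4 * m') ^ 2).toNat, ?_⟩
    omega
  have hn4 : n % 4 = 1 := by omega
  refine ⟨1, n, (S3 n).filter (fun y => (y.1 + b) % 4 = 0 ∧ y.2.1 % 2 = 0 ∧ y.2.2 % 2 = 0),
    Or.inl rfl, by omega, by linarith, Finset.filter_subset _ _, ?_, ?_⟩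
  · have h1 := hr n (Or.inl hn4)
    have h2 : ((S3 n).card : ℝ) ≤ 6 * (((S3 n).filter
      (fun y => (y.1 + b) % 4 = 0 ∧ y.2.1 % 2 = 0 ∧ y.2.2 % 2 = 0)).card : ℝ) := by
      exact_mod_cast zs_card_type2 n b hn4 hb
    have h3 : κ * (n : ℝ) ^ (1 / 2 - δ) ≤ c₁ / 6 * (n : ℝ) ^ (1 / 2 - δ) :=
      mul_le_mul_of_nonneg_right hκ (by positivity)
    linarith
  · intro y hy
    obtain ⟨hy0, hy1, hy2, hy3⟩ := Finset.mem_filter.1 hy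
    obtain ⟨t, ht⟩ : ∃ t, y.1 = -b + 4 * t := ⟨(y.1 + b) / 4, by omega⟩
    obtain ⟨u, hu⟩ : ∃ u, y.2.1 = 2 * u := ⟨y.2.1 / 2, by omega⟩
    obtain ⟨v, hv⟩ : ∃ v, y.2.2 = 2 * v := ⟨y.2.2 / 2, by omega⟩
    refine zs_GC_of _ _ _ _ (one_mul _).symm (one_mul _).symm (one_mul _).symm (one_mul _).symm ?_ ?_ ?_ ?_
    · have : 2 * a' * (4 * m') - b * (1 * y.1) - D = 4 * (2 * a' * m' - b * t - a' ^ 2) := by
        rw [← hD, ht]; ring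
      omega
    · have : 2 * a' * (1 * y.1) + b * (4 * m') = 2 * (a' * y.1 + 2 * b * m') := by ring
      omega
    · have : 2 * a' * (1 * y.2.1) - b * (1 * y.2.2) = 2 * (a' * y.2.1 - b * v) := by rw [hv]; ring
      omega
    · have : 2 * a' * (1 * y.2.2) + b * (1 * y.2.1) = 2 * (a' * y.2.2 + b * u) := by rw [hu]; ring
      omega

lemma zs_sq_mod16 {x y : ℤ} (hx : x % 2 = 1) (hy : y % 2 = 1) (h : (x ^ 2 - y ^ 2) % 16 = 0) :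
    (x - y) % 8 = 0 ∨ (x + y) % 8 = 0 := by
  obtain ⟨s, rfl⟩ : ∃ s, x = y + 2 * s := ⟨(x - y) / 2, by omega⟩
  have h1 : (y + 2 * s) ^ 2 - y ^ 2 = 4 * (s * (y + s)) := by ring
  have h2 : (s * (y + s)) % 4 = 0 := by omega
  rcases Int.emod_two_eq_zero_or_one s with hs | hs
  · left
    obtain ⟨t, rfl⟩ : ∃ t, s = 2 * t := ⟨s / 2, by omega⟩
    obtain ⟨k, hk⟩ : ∃ k, y = 2 * k + 1 := ⟨y / 2, by omega⟩
    have h3 : 2 * t * (y + 2 * t) = 2 * (t * (y + 2 * t)) := by ring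
    have h4 : (t * (y + 2 * t)) % 2 = 0 := by omega
    have h5 : t * (y + 2 * t) = 2 * (t * k + t ^ 2) + t := by rw [hk]; ring
    omega
  · right
    obtain ⟨t, ht⟩ : ∃ t, y + s = 2 * t := ⟨(y + s) / 2, by omega⟩
    obtain ⟨k, hk⟩ : ∃ k, s = 2 * k + 1 := ⟨s / 2, by omega⟩
    have h3 : s * (y + s) = 2 * (2 * (k * t) + t) := by rw [ht, hk]; ring
    omega

lemma zs_odd_sq_mod16 {x : ℤ} (hx : x % 2 = 1) : x ^ 2 % 16 = 1 ∨ x ^ 2 % 16 = 9 := by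
  obtain ⟨k, hk⟩ := zs_sq_odd_mod8 hx
  omega

lemma zs_card_type3 (n : ℕ) (z ρ : ℤ) (hz : z % 2 = 1) (hρ : ρ = 0 ∨ ρ = 2)
    (h : (z ^ 2 - n - 4 * ρ) % 16 = 0) :
    ((S3 n).filter (fun y => y.1 % 2 = 1 ∧ y.2.1 % 4 = ρ ∧ y.2.2 % 4 = ρ)).card ≤
      2 * ((S3 n).filter
      (fun y => (y.1 - z) % 8 = 0 ∧ y.2.1 % 4 = ρ ∧ y.2.2 % 4 = ρ)).card := by
  classical
  set Z := (S3 n).filter (fun y => (y.1 - z) % 8 = 0 ∧ y.2.1 % 4 = ρ ∧ y.2.2 % 4 = ρ) with hZ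
  have hsub : (S3 n).filter (fun y => y.1 % 2 = 1 ∧ y.2.1 % 4 = ρ ∧ y.2.2 % 4 = ρ) ⊆
      Z ∪ Z.image (fun y => (-y.1, y.2.1, y.2.2)) := by
    intro y hy
    obtain ⟨y1, y2, y3⟩ := y
    obtain ⟨hy0, hy1, hy2, hy3⟩ := Finset.mem_filter.1 hy
    have hy' := mem_S3.1 hy0
    simp only at hy' hy1 hy2 hy3
    have h16 : (y1 ^ 2 - z ^ 2) % 16 = 0 := by
      obtain ⟨u, hu⟩ : ∃ u, y2 = 4 * u + ρ := ⟨y2 / 4, by omega⟩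
      obtain ⟨v, hv⟩ : ∃ v, y3 = 4 * v + ρ := ⟨y3 / 4, by omega⟩
      rcases hρ with rfl | rfl
      · have : y1 ^ 2 = n - 16 * (u ^ 2 + v ^ 2) := by
          rw [← hy', hu, hv]; ring
        omega
      · have : y1 ^ 2 = n - 8 - 16 * (u ^ 2 + u + v ^ 2 + v) := by
          rw [← hy', hu, hv]; ring
        omega
    rw [Finset.mem_union, Finset.mem_image]
    rcases zs_sq_mod16 hy1 hz h16 with h8 | h8
    · left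
      rw [hZ, Finset.mem_filter]
      exact ⟨hy0, h8, hy2, hy3⟩
    · right
      refine ⟨(-y1, y2, y3), ?_, by simp⟩
      rw [hZ, Finset.mem_filter, mem_S3]
      refine ⟨by simpa using hy', ?_, hy2, hy3⟩
      simp only
      omega
  calc _ ≤ (Z ∪ Z.image (fun y => (-y.1, y.2.1, y.2.2))).card := Finset.card_le_card hsub
    _ ≤ Z.card + (Z.image (fun y => (-y.1, y.2.1, y.2.2))).card := Finset.card_union_le _ _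
    _ ≤ Z.card + Z.card := Nat.add_le_add_left Finset.card_image_le _
    _ = 2 * Z.card := by ring

/-- Type III -/
lemma zs_type3 {κ c₁ C δ : ℝ} (hC : 0 < C) (hκ : κ ≤ c₁ / (2 * C))
    (hr : ∀ n : ℕ, n % 4 = 1 ∨ n % 4 = 2 → c₁ * (n : ℝ) ^ (1 / 2 - δ) ≤ ((S3 n).card : ℝ))
    (hcl : ∀ n : ℕ, n % 8 = 1 → ¬ IsSquare n → ∀ r : ℤ, r = 0 ∨ r = 2 →
    ((S3 n).card : ℝ) ≤ C * (((S3 n).filter
      (fun y => y.1 % 2 = 1 ∧ y.2.1 % 4 = r ∧ y.2.2 % 4 = r)).card : ℝ))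
    {a b : ℤ} {D : ℕ} (ha : a % 2 = 1) (hb : b % 2 = 1) (hD : a ^ 2 + b ^ 2 = 2 * D) :
    ∃ p : ℕ, p < 2 ∧ ∀ l : ℕ, l % 2 = p →
    ∃ r : ℤ, ∀ m : ℤ, m % 16 = r % 16 → m ^ 2 < (a ^ 2 + b ^ 2) * 5 ^ l →
      ¬ IsSquare ((a ^ 2 + b ^ 2) * 5 ^ l - m ^ 2) →
    ∃ (s : ℤ) (n : ℕ) (Z : Finset (ℤ × ℤ × ℤ)), (s = 1 ∨ s = 2) ∧ 1 ≤ n ∧
      m ^ 2 + s ^ 2 * n = (a ^ 2 + b ^ 2) * 5 ^ l ∧ Z ⊆ S3 n ∧
      κ * (n : ℝ) ^ (1 / 2 - δ) ≤ (Z.card : ℝ) ∧ ∀ y ∈ Z, GC a b 2 D (zq m s y) := by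
  obtain ⟨ka, hka⟩ := zs_sq_odd_mod8 ha
  obtain ⟨kb, hkb⟩ := zs_sq_odd_mod8 hb
  refine ⟨0, by norm_num, fun l _ => ⟨1, fun m hm hlt hsq => ?_⟩⟩
  obtain ⟨q, hq⟩ := zs_pow5_mod4 l
  have hm1 : m % 2 = 1 := by omega
  obtain ⟨km, hkm⟩ := zs_sq_odd_mod8 hm1
  set M := (a ^ 2 + b ^ 2) * 5 ^ l with hM
  have hM1 : M % 8 = 2 := by
    have : M = 8 * ((4 * ka + 4 * kb + 1) * q + (ka + kb)) + 2 := by
      rw [hM, hq, hka, hkb]; ring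
    omega
  obtain ⟨n, hn⟩ : ∃ n : ℕ, M - m ^ 2 = (n : ℤ) := by
    refine ⟨(M - m ^ 2).toNat, ?_⟩
    omega
  have hn8 : n % 8 = 1 := by omega
  have hnsq : ¬ IsSquare n := by
    rintro ⟨x, hx⟩
    apply hsq
    rw [hn, hx]
    exact ⟨(x : ℤ), by push_cast; ring⟩
  obtain ⟨z, hz⟩ : ∃ z, z = b * (a * m - (a ^ 2 + b ^ 2)) := ⟨_, rfl⟩
  have hzo : z % 2 = 1 := by
    obtain ⟨a', ha'⟩ : ∃ t, a = 2 * t + 1 := ⟨a / 2, by omega⟩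
    obtain ⟨b', hb'⟩ : ∃ t, b = 2 * t + 1 := ⟨b / 2, by omega⟩
    obtain ⟨m', hm'⟩ : ∃ t, m = 2 * t + 1 := ⟨m / 2, by omega⟩
    have : z = 2 * (b' * (a * m - (a ^ 2 + b ^ 2)) + (2 * a' * m' + a' + m' - D)) + 1 := by
      rw [hz, hD, hb', ha', hm']; ring
    omega
  obtain ⟨ρ, hρ, hρ16⟩ : ∃ ρ : ℤ, (ρ = 0 ∨ ρ = 2) ∧ (z ^ 2 - n - 4 * ρ) % 16 = 0 := by
    have h1 := zs_odd_sq_mod16 hzo
    have h2 : (n : ℤ) % 16 = 1 ∨ (n : ℤ) % 16 = 9 := by omega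
    rcases h1 with h1 | h1 <;> rcases h2 with h2 | h2
    · exact ⟨0, Or.inl rfl, by omega⟩
    · exact ⟨2, Or.inr rfl, by omega⟩
    · exact ⟨2, Or.inr rfl, by omega⟩
    · exact ⟨0, Or.inl rfl, by omega⟩
  refine ⟨1, n, (S3 n).filter (fun y => (y.1 - z) % 8 = 0 ∧ y.2.1 % 4 = ρ ∧ y.2.2 % 4 = ρ),
    Or.inl rfl, by omega, by linarith, Finset.filter_subset _ _, ?_, ?_⟩
  · have h1 := hr n (Or.inl (by omega))
    have h2 := hcl n hn8 hnsq ρ hρ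
    have h3 : (((S3 n).filter (fun y => y.1 % 2 = 1 ∧ y.2.1 % 4 = ρ ∧ y.2.2 % 4 = ρ)).card : ℝ) ≤
      2 * (((S3 n).filter
      (fun y => (y.1 - z) % 8 = 0 ∧ y.2.1 % 4 = ρ ∧ y.2.2 % 4 = ρ)).card : ℝ) := by
      exact_mod_cast zs_card_type3 n z ρ hzo hρ hρ16
    have h4 : κ * (n : ℝ) ^ (1 / 2 - δ) ≤ c₁ / (2 * C) * (n : ℝ) ^ (1 / 2 - δ) :=
      mul_le_mul_of_nonneg_right hκ (by positivity)
    refine h4.trans ?_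
    rw [div_mul_eq_mul_div, div_le_iff₀ (by positivity)]
    calc c₁ * (n : ℝ) ^ (1 / 2 - δ) ≤ _ := h1
      _ ≤ _ := h2
      _ ≤ C * _ := mul_le_mul_of_nonneg_left h3 hC.le
      _ = _ := by ring
  · intro y hy
    obtain ⟨hy0, hy1, hy2, hy3⟩ := Finset.mem_filter.1 hy
    obtain ⟨t, ht⟩ : ∃ t, y.1 = z + 8 * t := ⟨(y.1 - z) / 8, by omega⟩
    obtain ⟨u, hu⟩ : ∃ u, y.2.1 = 4 * u + ρ := ⟨y.2.1 / 4, by omega⟩
    obtain ⟨v, hv⟩ : ∃ v, y.2.2 = 4 * v + ρ := ⟨y.2.2 / 4, by omega⟩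
    obtain ⟨ρ', rfl⟩ : ∃ r, ρ = 2 * r := ⟨ρ / 2, by omega⟩
    obtain ⟨e, he⟩ : ∃ e, a = b + 2 * e := ⟨(a - b) / 2, by omega⟩
    obtain ⟨g, hg⟩ : ∃ g, m = a + 2 * g := ⟨(m - a) / 2, by omega⟩
    -- real part
    have r0' : a * m - b * (1 * y.1) = 2 * (D + 4 * (2 * kb * D - a * m * kb - b * t)) := by
      have : b * (1 * y.1) = b ^ 2 * (a * m - 2 * D) + 8 * (b * t) := by
        rw [ht, hz, hD]; ring
      rw [this, hkb]; ring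
    have r1 : a * (1 * y.1) + b * m = 2 * (2 * (b * g + 2 * (b * m * ka) - 2 * (a * b) * (ka + kb) + 2 * (a * t))) := by
      have : a * (1 * y.1) = a ^ 2 * (b * m) - a * b * (a ^ 2 + b ^ 2) + 8 * (a * t) := by
        rw [ht, hz]; ring
      rw [this, hka, hkb, hg]; ring
    have r2 : a * (1 * y.2.1) - b * (1 * y.2.2) = 2 * (2 * (a * u - b * v + e * ρ')) := by
      rw [hu, hv, he]; ring
    have r3 : a * (1 * y.2.2) + b * (1 * y.2.1) = 2 * (2 * (a * v + b * u + (b + e) * ρ')) := by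
      rw [hu, hv, he]; ring
    exact zs_GC_of _ _ _ _ r0' r1 r2 r3 (by omega) (by omega) (by omega) (by omega)

/-- TARGET -/
theorem zset (δ : ℝ) (hδ : 0 < δ) : ∃ κ : ℝ, 0 < κ ∧ ∀ (a b c : ℤ) (D : ℕ), IsCoprime a b →
    (c = 1 ∨ c = 2) → Odd D → a ^ 2 + b ^ 2 = c * D → ∃ p : ℕ, p < 2 ∧ ∀ l : ℕ, l % 2 = p →
    ∃ r : ℤ, ∀ m : ℤ, m % 16 = r % 16 → m ^ 2 < (a ^ 2 + b ^ 2) * 5 ^ l →
      ¬ IsSquare ((a ^ 2 + b ^ 2) * 5 ^ l - m ^ 2) →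
    ∃ (s : ℤ) (n : ℕ) (Z : Finset (ℤ × ℤ × ℤ)), (s = 1 ∨ s = 2) ∧ 1 ≤ n ∧
      m ^ 2 + s ^ 2 * n = (a ^ 2 + b ^ 2) * 5 ^ l ∧ Z ⊆ S3 n ∧
      κ * (n : ℝ) ^ (1 / 2 - δ) ≤ (Z.card : ℝ) ∧ ∀ y ∈ Z, GC a b c D (zq m s y) := by
  obtain ⟨c₁, hc₁, hr⟩ := r3_lower δ hδ
  obtain ⟨C, hC, hcl⟩ := class_lower
  refine ⟨min (c₁ / 6) (c₁ / (2 * C)), by positivity, ?_⟩
  intro a b c D _ hc hDo hD
  have key : ∀ u : ℤ, (u % 2 = 0 ∧ u ^ 2 % 4 = 0) ∨ (u % 2 = 1 ∧ u ^ 2 % 4 = 1) := by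
    intro u
    rcases Int.emod_two_eq_zero_or_one u with hu | hu
    · left
      obtain ⟨t, rfl⟩ : ∃ t, u = 2 * t := ⟨u / 2, by omega⟩
      refine ⟨hu, ?_⟩
      have : (2 * t) ^ 2 = 4 * t ^ 2 := by ring
      omega
    · right
      obtain ⟨k, hk⟩ := zs_sq_odd_mod8 hu
      exact ⟨hu, by omega⟩
  obtain ⟨D', hD'⟩ := hDo
  rcases hc with rfl | rfl
  · rw [one_mul] at hD
    rcases key a with ⟨ha, ha'⟩ | ⟨ha, ha'⟩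
    · have hb : b % 2 = 1 := by
        rcases key b with ⟨hb, hb'⟩ | ⟨hb, hb'⟩
        · omega
        · exact hb
      obtain ⟨p, hp, H⟩ := zs_type2 (δ := δ) (κ := min (c₁ / 6) (c₁ / (2 * C))) (min_le_left _ _) hr ha hb hD
      refine ⟨p, hp, fun l hl => ?_⟩
      obtain ⟨r, H⟩ := H l hl
      exact ⟨r, fun m hm hlt _ => H m hm hlt⟩
    · have hb : b % 2 = 0 := by
        rcases key b with ⟨hb, hb'⟩ | ⟨hb, hb'⟩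
        · exact hb
        · omega
      obtain ⟨p, hp, H⟩ := zs_type1 (δ := δ) (κ := min (c₁ / 6) (c₁ / (2 * C)))
        ((min_le_left _ _).trans (by linarith)) hr ha hb hD
      refine ⟨p, hp, fun l hl => ?_⟩
      obtain ⟨r, H⟩ := H l hl
      exact ⟨r, fun m hm hlt _ => H m hm hlt⟩
  · have ha : a % 2 = 1 := by
      rcases key a with ⟨ha, ha'⟩ | ⟨ha, ha'⟩
      · rcases key b with ⟨hb, hb'⟩ | ⟨hb, hb'⟩ <;> omega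
      · exact ha
    have hb : b % 2 = 1 := by
      rcases key b with ⟨hb, hb'⟩ | ⟨hb, hb'⟩
      · rcases key a with ⟨ha, ha'⟩ | ⟨ha, ha'⟩ <;> omega
      · exact hb
    exact zs_type3 hC (min_le_right _ _) hr hcl ha hb hD

end Pool.Agent.H978V
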