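import Mathlib

set_option autoImplicit false

namespace Pool.Agent.H978V

/-- stripping the factors `1 + 2 s i` -/
theorem dv_strip (s : ℤ) (hs : s * s = 1) : ∀ (n : ℕ) (A B : ℤ), (A ^ 2 + B ^ 2).natAbs ≤ n →
    IsCoprime A B → ¬ (5 : ℤ) ∣ A - 2 * s * B →
    ∃ (k : ℕ) (a b : ℤ), IsCoprime a b ∧ ¬ (5 : ℤ) ∣ a ^ 2 + b ^ 2 ∧
      A ^ 2 + B ^ 2 = 5 ^ k * (a ^ 2 + b ^ 2) ∧
      ((A : ℂ) + B * Complex.I) = (1 + 2 * s * Complex.I) ^ k * (a + b * Complex.I) := by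
  intro n
  induction n with
  | zero =>
    intro A B hn hc h5
    exfalso
    have h0 : A ^ 2 + B ^ 2 = 0 := by omega
    have hA : A = 0 := by nlinarith [sq_nonneg A, sq_nonneg B]
    have hB : B = 0 := by nlinarith [sq_nonneg A, sq_nonneg B]
    rw [hA, hB] at h5
    exact h5 (by norm_num)
  | succ n ih =>
    intro A B hn hc h5
    by_cases hd : (5 : ℤ) ∣ A ^ 2 + B ^ 2
    · have h1 : (5 : ℤ) ∣ (A + 2 * s * B) * (A - 2 * s * B) := by
        have e : (A + 2 * s * B) * (A - 2 * s * B) = (A ^ 2 + B ^ 2) - 5 * B ^ 2 := by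
          linear_combination (-4 * B ^ 2) * hs
        rw [e]
        exact dvd_sub hd (dvd_mul_right _ _)
      have h2 : (5 : ℤ) ∣ A + 2 * s * B := by
        have hp : Prime (5 : ℤ) := by norm_num
        exact (hp.dvd_or_dvd h1).resolve_right h5
      have h3 : (5 : ℤ) ∣ B - 2 * s * A := by
        have e : B - 2 * s * A = (-2 * s) * (A + 2 * s * B) + 5 * B := by
          linear_combination (4 * B) * hs
        rw [e]
        exact dvd_add (h2.mul_left _) (dvd_mul_right _ _)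
      obtain ⟨A', hA'⟩ := h2
      obtain ⟨B', hB'⟩ := h3
      have eA : A = A' - 2 * s * B' := by
        have : 5 * A = 5 * (A' - 2 * s * B') := by
          linear_combination hA' - 2 * s * hB' - 4 * A * hs
        linarith
      have eB : B = B' + 2 * s * A' := by
        have : 5 * B = 5 * (B' + 2 * s * A') := by
          linear_combination hB' + 2 * s * hA' - 4 * B * hs
        linarith
      have hsum : A ^ 2 + B ^ 2 = 5 * (A' ^ 2 + B' ^ 2) := by
        rw [eA, eB]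
        linear_combination (4 * A' ^ 2 + 4 * B' ^ 2) * hs
      have hc' : IsCoprime A' B' := by
        obtain ⟨u, v, huv⟩ := hc
        refine ⟨u + 2 * s * v, v - 2 * s * u, ?_⟩
        rw [← huv, eA, eB]
        ring
      have hA5 : ¬ (5 : ℤ) ∣ A := by
        intro h
        have hB5 : (5 : ℤ) ∣ B := by
          have e : B = 5 * B' + 2 * s * A := by linarith
          rw [e]
          exact dvd_add (dvd_mul_right _ _) (h.mul_left _)
        exact h5 (dvd_sub h (hB5.mul_left _))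
      have hne : A' ^ 2 + B' ^ 2 ≠ 0 := by
        intro h0
        have hA0 : A' = 0 := by nlinarith [sq_nonneg A', sq_nonneg B']
        have hB0 : B' = 0 := by nlinarith [sq_nonneg A', sq_nonneg B']
        apply hA5
        rw [eA, hA0, hB0]
        norm_num
      have hlt : (A' ^ 2 + B' ^ 2).natAbs ≤ n := by
        have := sq_nonneg A'
        have := sq_nonneg B'
        omega
      have hA5' : ¬ (5 : ℤ) ∣ A' - 2 * s * B' := by rw [← eA]; exact hA5
      obtain ⟨k, a, b, h1, h2, h3, h4⟩ := ih A' B' hlt hc' hA5'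
      refine ⟨k + 1, a, b, h1, h2, ?_, ?_⟩
      · rw [hsum, h3, pow_succ]; ring
      · have hsC : (s : ℂ) * s = 1 := by exact_mod_cast hs
        rw [pow_succ', mul_assoc, ← h4, eA, eB]
        push_cast
        linear_combination (-2 * (s : ℂ) * B') * Complex.I_sq
    · exact ⟨0, A, B, hc, hd, by simp, by simp⟩

theorem dv_strip' (A B : ℤ) (hc : IsCoprime A B) :
    ∃ (k : ℕ) (s a b : ℤ), (s = 1 ∨ s = -1) ∧ IsCoprime a b ∧ ¬ (5 : ℤ) ∣ a ^ 2 + b ^ 2 ∧
      A ^ 2 + B ^ 2 = 5 ^ k * (a ^ 2 + b ^ 2) ∧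
      ((A : ℂ) + B * Complex.I) = (1 + 2 * s * Complex.I) ^ k * (a + b * Complex.I) := by
  by_cases h : (5 : ℤ) ∣ A - 2 * 1 * B
  · have h' : ¬ (5 : ℤ) ∣ A - 2 * (-1) * B := by
      intro h''
      obtain ⟨x, hx⟩ := h
      obtain ⟨y, hy⟩ := h''
      have h1 : (5 : ℤ) ∣ A := by omega
      have h2 : (5 : ℤ) ∣ B := by omega
      obtain ⟨u, v, huv⟩ := hc
      have h3 : (5 : ℤ) ∣ 1 := by
        rw [← huv]
        exact dvd_add (h1.mul_left _) (h2.mul_left _)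
      norm_num at h3
    obtain ⟨k, a, b, h1, h2, h3, h4⟩ := dv_strip (-1) (by norm_num) _ A B le_rfl hc h'
    exact ⟨k, -1, a, b, Or.inr rfl, h1, h2, h3, h4⟩
  · obtain ⟨k, a, b, h1, h2, h3, h4⟩ := dv_strip 1 (by norm_num) _ A B le_rfl hc h
    exact ⟨k, 1, a, b, Or.inl rfl, h1, h2, h3, h4⟩

/-- Dirichlet, the half `|sin| ≤ |cos|` -/
theorem dv_half (c σ ε : ℝ) (h1 : c ^ 2 + σ ^ 2 = 1) (h : |σ| ≤ |c|) (hε : 0 < ε) (hε1 : ε < 1) :
    ∃ A B : ℤ, IsCoprime A B ∧ (A : ℝ) ^ 2 + B ^ 2 ≤ 4 / ε ∧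
      ((A : ℝ) * σ - B * c) ^ 2 ≤ ε ∧ 0 < (A : ℝ) * c + B * σ := by
  have hc0 : c ≠ 0 := by
    intro h0
    rw [h0, abs_zero] at h
    have : σ = 0 := abs_eq_zero.1 (le_antisymm h (abs_nonneg _))
    rw [h0, this] at h1
    norm_num at h1
  set τ := σ / c with hτ
  have hτc : σ = τ * c := by rw [hτ]; field_simp
  have hτ1 : |τ| ≤ 1 := by
    rw [hτ, abs_div]
    exact div_le_one_of_le₀ h (abs_nonneg _)
  have hsq : 0 < Real.sqrt ε := Real.sqrt_pos.2 hε
  have hsq1 : Real.sqrt ε < 1 := by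
    rw [Real.sqrt_lt' one_pos]; simpa using hε1
  have hss : Real.sqrt ε ^ 2 = ε := Real.sq_sqrt hε.le
  set N := ⌊1 / Real.sqrt ε⌋₊ with hN
  have hN1 : 1 ≤ N := by
    rw [hN, Nat.one_le_floor_iff]
    rw [le_div_iff₀ hsq]
    linarith
  have hNle : (N : ℝ) ≤ 1 / Real.sqrt ε := Nat.floor_le (by positivity)
  have hNlt : 1 / Real.sqrt ε < N + 1 := Nat.lt_floor_add_one _
  obtain ⟨r, hr1, hr2⟩ := Real.exists_rat_abs_sub_le_and_den_le τ (n := N) (by omega)
  have hq0 : (0 : ℝ) < r.den := by exact_mod_cast r.pos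
  have hq1 : (1 : ℝ) ≤ r.den := by exact_mod_cast r.pos
  have hrr : (r : ℝ) * r.den = r.num := by
    have := Rat.mul_den_eq_num r
    exact_mod_cast this
  have hb : |(r.den : ℝ) * τ - r.num| < Real.sqrt ε := by
    have e : (r.den : ℝ) * τ - r.num = r.den * (τ - r) := by rw [← hrr]; ring
    rw [e, abs_mul, abs_of_pos hq0]
    have h2 : (r.den : ℝ) * |τ - r| ≤ 1 / (N + 1) := by
      calc (r.den : ℝ) * |τ - r| ≤ r.den * (1 / ((N + 1) * r.den)) :=
            mul_le_mul_of_nonneg_left hr1 hq0.le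
        _ = 1 / (N + 1) := by field_simp
    refine lt_of_le_of_lt h2 ?_
    rw [div_lt_iff₀ (by positivity)]
    rw [div_lt_iff₀ hsq] at hNlt
    linarith
  have hb' := abs_lt.1 hb
  have hτ' := abs_le.1 hτ1
  have hqN : (r.den : ℝ) ≤ N := by exact_mod_cast hr2
  have hqe : (r.den : ℝ) ^ 2 ≤ 1 / ε := by
    have h3 : (r.den : ℝ) ≤ 1 / Real.sqrt ε := hqN.trans hNle
    have h4 : (r.den : ℝ) ^ 2 ≤ (1 / Real.sqrt ε) ^ 2 := pow_le_pow_left₀ hq0.le h3 2
    rwa [div_pow, hss, one_pow] at h4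
  have hpq : |r.num| ≤ (r.den : ℤ) := by
    have h3 : |(r.num : ℝ)| < r.den + 1 := by
      have h4 : |(r.den : ℝ) * τ| ≤ r.den := by
        rw [abs_mul, abs_of_pos hq0]
        nlinarith
      have h5 := abs_le.1 h4
      rw [abs_lt]
      constructor <;> linarith
    have h4 : |r.num| < (r.den : ℤ) + 1 := by exact_mod_cast h3
    omega
  have hpq' : (r.num : ℝ) ^ 2 ≤ (r.den : ℝ) ^ 2 := by
    have h5 : |(r.num : ℝ)| ≤ |(r.den : ℝ)| := by
      rw [abs_of_pos hq0]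
      exact_mod_cast hpq
    exact sq_le_sq.2 h5
  have hcop : IsCoprime r.num (r.den : ℤ) := by
    rw [Int.isCoprime_iff_gcd_eq_one]
    exact r.reduced
  have hc1 : c ^ 2 ≤ 1 := by nlinarith [sq_nonneg σ]
  have hsm : ((r.den : ℝ) * τ - r.num) ^ 2 ≤ ε := by
    rw [← hss]
    exact sq_le_sq.2 (by rw [abs_of_pos hsq]; exact hb.le)
  have hpos : 0 < (r.den : ℝ) + r.num * τ := by
    have e : (r.den : ℝ) + r.num * τ = r.den + r.den * τ ^ 2 - (r.den * τ - r.num) * τ := by ring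
    have h6 : |((r.den : ℝ) * τ - r.num) * τ| < 1 := by
      rw [abs_mul]
      calc |(r.den : ℝ) * τ - r.num| * |τ| ≤ |(r.den : ℝ) * τ - r.num| * 1 :=
            mul_le_mul_of_nonneg_left hτ1 (abs_nonneg _)
        _ < 1 := by linarith
    have h7 := (abs_lt.1 h6).2
    have h8 : 0 ≤ (r.den : ℝ) * τ ^ 2 := by positivity
    rw [e]; linarith
  have hD : (r.den : ℝ) ^ 2 + (r.num : ℝ) ^ 2 ≤ 4 / ε := by
    have : 1 / ε * 4 = 4 / ε := by ring
    have h9 : 0 ≤ 1 / ε := by positivity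
    rw [← this]; linarith
  have hm : (c * ((r.den : ℝ) * τ - r.num)) ^ 2 ≤ ε := by
    rw [mul_pow]
    nlinarith [sq_nonneg ((r.den : ℝ) * τ - r.num), sq_nonneg c]
  rcases lt_or_gt_of_ne hc0 with hc | hc
  · refine ⟨-(r.den : ℤ), -r.num, (hcop.symm.neg_left).neg_right, ?_, ?_, ?_⟩
    · push_cast
      rw [neg_sq, neg_sq]; exact hD
    · push_cast
      have e : (-(r.den : ℝ) * σ - -(r.num : ℝ) * c) ^ 2 = (c * ((r.den : ℝ) * τ - r.num)) ^ 2 := by
        rw [hτc]; ring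
      rw [e]; exact hm
    · push_cast
      have e : -(r.den : ℝ) * c + -(r.num : ℝ) * σ = (-c) * ((r.den : ℝ) + r.num * τ) := by
        rw [hτc]; ring
      rw [e]
      exact mul_pos (by linarith) hpos
  · refine ⟨(r.den : ℤ), r.num, hcop.symm, ?_, ?_, ?_⟩
    · push_cast
      exact hD
    · push_cast
      have e : ((r.den : ℝ) * σ - (r.num : ℝ) * c) ^ 2 = (c * ((r.den : ℝ) * τ - r.num)) ^ 2 := by
        rw [hτc]; ring
      rw [e]; exact hm
    · push_cast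
      have e : (r.den : ℝ) * c + (r.num : ℝ) * σ = c * ((r.den : ℝ) + r.num * τ) := by
        rw [hτc]; ring
      rw [e]
      exact mul_pos hc hpos

theorem dv_full (c σ ε : ℝ) (h1 : c ^ 2 + σ ^ 2 = 1) (hε : 0 < ε) (hε1 : ε < 1) :
    ∃ A B : ℤ, IsCoprime A B ∧ (A : ℝ) ^ 2 + B ^ 2 ≤ 4 / ε ∧
      ((A : ℝ) * σ - B * c) ^ 2 ≤ ε ∧ 0 < (A : ℝ) * c + B * σ := by
  rcases le_total |σ| |c| with h | h
  · exact dv_half c σ ε h1 h hε hε1
  · obtain ⟨A, B, h2, h3, h4, h5⟩ := dv_half σ c ε (by linarith) h hε hε1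
    refine ⟨B, A, h2.symm, by linarith, ?_, by linarith⟩
    have e : ((B : ℝ) * σ - A * c) ^ 2 = ((A : ℝ) * c - B * σ) ^ 2 := by ring
    rw [e]; exact h4

theorem dv_re (c σ : ℝ) (A B : ℤ) :
    (((c : ℂ) + (σ : ℂ) * Complex.I) * ((A : ℂ) - B * Complex.I)).re = A * c + B * σ := by
  simp [Complex.mul_re]
  ring

theorem dv_im (c σ : ℝ) (A B : ℤ) :
    (((c : ℂ) + (σ : ℂ) * Complex.I) * ((A : ℂ) - B * Complex.I)).im = A * σ - B * c := by
  simp [Complex.mul_im]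
  ring

/-- TARGET -/
theorem dirichlet_v (θ ε : ℝ) (hε : 0 < ε) (hε1 : ε < 1) :
    ∃ (k : ℕ) (s : ℤ) (a b : ℤ) (φ : ℝ), (s = 1 ∨ s = -1) ∧ IsCoprime a b ∧ ¬ (5 : ℤ) ∣ a ^ 2 + b ^ 2 ∧
      (5 : ℝ) ^ k * (a ^ 2 + b ^ 2) ≤ 4 / ε ∧ (5 : ℝ) ^ k * (a ^ 2 + b ^ 2) * φ ^ 2 ≤ 4 * ε ∧
      |φ| ≤ 2 ∧
      Complex.exp (θ * Complex.I) = ((1 + 2 * s * Complex.I) / (Real.sqrt 5 : ℂ)) ^ k *
        ((a + b * Complex.I) / (Real.sqrt ((a : ℝ) ^ 2 + b ^ 2) : ℂ)) * Complex.exp (φ * Complex.I) := by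
  obtain ⟨A, B, hc, hD, hs, hpos⟩ := dv_full (Real.cos θ) (Real.sin θ) ε
    (Real.cos_sq_add_sin_sq θ) hε hε1
  obtain ⟨k, s, a, b, h1, h2, h3, h4, h5⟩ := dv_strip' A B hc
  have h4R : (A : ℝ) ^ 2 + B ^ 2 = 5 ^ k * (a ^ 2 + b ^ 2) := by exact_mod_cast h4
  set w : ℂ := Complex.exp (θ * Complex.I) * ((A : ℂ) - B * Complex.I) with hw
  have hexp : Complex.exp (θ * Complex.I) = ((Real.cos θ : ℝ) : ℂ) + (Real.sin θ : ℝ) * Complex.I := by
    rw [Complex.exp_mul_I, Complex.ofReal_cos, Complex.ofReal_sin]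
  have hre : w.re = A * Real.cos θ + B * Real.sin θ := by
    rw [hw, hexp, dv_re]
  have him : w.im = A * Real.sin θ - B * Real.cos θ := by
    rw [hw, hexp, dv_im]
  have hcs := Real.cos_sq_add_sin_sq θ
  have hDw : Complex.normSq w = (A : ℝ) ^ 2 + B ^ 2 := by
    rw [Complex.normSq_apply, hre, him]
    linear_combination ((A : ℝ) ^ 2 + B ^ 2) * hcs
  have hDpos : 0 < (A : ℝ) ^ 2 + B ^ 2 := by
    rw [← hDw, Complex.normSq_pos]
    intro h0
    rw [h0] at hre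
    simp only [Complex.zero_re] at hre
    linarith
  have hnorm : ‖w‖ = Real.sqrt ((A : ℝ) ^ 2 + B ^ 2) := by
    rw [← hDw]; rfl
  set D : ℝ := (A : ℝ) ^ 2 + B ^ 2 with hDdef
  have hφ1 : |Complex.arg w| < Real.pi / 2 := by
    rw [Complex.abs_arg_lt_pi_div_two_iff]
    left
    rw [hre]; exact hpos
  have hsin : Real.sqrt D * Real.sin (Complex.arg w) = w.im := by
    have := Complex.norm_mul_sin_arg w
    rwa [hnorm] at this
  have hjord : Complex.arg w ^ 2 ≤ 4 * Real.sin (Complex.arg w) ^ 2 := by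
    have h6 : 2 / Real.pi * |Complex.arg w| ≤ Real.sin |Complex.arg w| :=
      Real.mul_le_sin (abs_nonneg _) hφ1.le
    have h7 : Real.sin |Complex.arg w| ^ 2 = Real.sin (Complex.arg w) ^ 2 := by
      rcases abs_choice (Complex.arg w) with h | h
      · rw [h]
      · rw [h, Real.sin_neg, neg_sq]
    have hpi : 0 < Real.pi := Real.pi_pos
    have h8 : (1 / 2 : ℝ) ≤ 2 / Real.pi := by
      rw [div_le_div_iff₀ (by norm_num) hpi]
      linarith [Real.pi_le_four]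
    have h9 : 1 / 2 * |Complex.arg w| ≤ Real.sin |Complex.arg w| :=
      le_trans (mul_le_mul_of_nonneg_right h8 (abs_nonneg _)) h6
    have h10 := pow_le_pow_left₀ (by positivity) h9 2
    rw [h7, mul_pow, sq_abs] at h10
    linarith
  refine ⟨k, s, a, b, Complex.arg w, h1, h2, h3, ?_, ?_, ?_, ?_⟩
  · rw [← h4R]; exact hD
  · rw [← h4R]
    have h6 : D * Real.sin (Complex.arg w) ^ 2 ≤ ε := by
      have e : D * Real.sin (Complex.arg w) ^ 2 = (Real.sqrt D * Real.sin (Complex.arg w)) ^ 2 := by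
        rw [mul_pow, Real.sq_sqrt hDpos.le]
      rw [e, hsin, him]
      exact hs
    calc D * Complex.arg w ^ 2 ≤ D * (4 * Real.sin (Complex.arg w) ^ 2) :=
          mul_le_mul_of_nonneg_left hjord hDpos.le
      _ = 4 * (D * Real.sin (Complex.arg w) ^ 2) := by ring
      _ ≤ 4 * ε := by linarith
  · linarith [Real.pi_le_four]
  · have hsqD : Real.sqrt D = Real.sqrt 5 ^ k * Real.sqrt ((a : ℝ) ^ 2 + b ^ 2) := by
      rw [h4R, Real.sqrt_mul (by positivity)]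
      congr 1
      rw [Real.sqrt_eq_iff_mul_self_eq (by positivity) (by positivity), ← mul_pow,
        Real.mul_self_sqrt (by norm_num)]
    have hsqD0 : (Real.sqrt D : ℂ) ≠ 0 := by
      rw [Complex.ofReal_ne_zero]
      exact (Real.sqrt_pos.2 hDpos).ne'
    have hpolar : (Real.sqrt D : ℂ) * Complex.exp (Complex.arg w * Complex.I) = w := by
      rw [← hnorm]
      exact Complex.norm_mul_exp_arg_mul_I w
    have hprod : (((1 + 2 * s * Complex.I) / (Real.sqrt 5 : ℂ)) ^ k *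
        ((a + b * Complex.I) / (Real.sqrt ((a : ℝ) ^ 2 + b ^ 2) : ℂ)) : ℂ) =
        ((A : ℂ) + B * Complex.I) / (Real.sqrt D : ℂ) := by
      rw [hsqD, h5, Complex.ofReal_mul, Complex.ofReal_pow, div_pow, div_mul_div_comm]
    rw [hprod]
    have hDD : (Real.sqrt D : ℂ) * (Real.sqrt D : ℂ) = (A : ℂ) ^ 2 + B ^ 2 := by
      rw [← Complex.ofReal_mul, Real.mul_self_sqrt hDpos.le, hDdef]
      push_cast; ring
    have hAB : ((A : ℂ) + B * Complex.I) * ((A : ℂ) - B * Complex.I) = (A : ℂ) ^ 2 + B ^ 2 := by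
      linear_combination (-(B : ℂ) ^ 2) * Complex.I_sq
    rw [div_mul_eq_mul_div, eq_div_iff hsqD0]
    apply mul_right_cancel₀ hsqD0
    rw [mul_assoc, hDD, ← hAB]
    have : Complex.exp (θ * Complex.I) * (((A : ℂ) + B * Complex.I) * ((A : ℂ) - B * Complex.I)) =
        ((A : ℂ) + B * Complex.I) * w := by rw [hw]; ring
    rw [this]
    linear_combination (-((A : ℂ) + B * Complex.I)) * hpolar

end Pool.Agent.H978V
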