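import Pool.Agent.H978V.Defs

/-!
# Integral quaternions of norm `5 ^ l` with real part `1` modulo `4` and even imaginary coordinates are words
-/

set_option autoImplicit false

open scoped Quaternion

namespace Pool.Agent.H978V

open Pool.Agent.Helper557.Rz

theorem c5_fin : ∀ r i j k : ZMod 5, r * r + i * i + j * j + k * k = 0 →
    (i = 2 * r ∧ j = 2 * k) ∨ (j = 2 * r ∧ k = 2 * i) ∨ (k = 2 * r ∧ i = 2 * j) ∨
    (i = -2 * r ∧ j = -2 * k) ∨ (j = -2 * r ∧ k = -2 * i) ∨ (k = -2 * r ∧ i = -2 * j) := by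
  decide +kernel

theorem c5_dvd {a b : ℤ} (h : (a : ZMod 5) = 2 * (b : ZMod 5)) : (5 : ℤ) ∣ a - 2 * b := by
  have h1 : ((a - 2 * b : ℤ) : ZMod 5) = 0 := by
    push_cast
    rw [h]
    ring
  exact (ZMod.intCast_zmod_eq_zero_iff_dvd _ 5).1 h1

theorem c5_dvd' {a b : ℤ} (h : (a : ZMod 5) = -2 * (b : ZMod 5)) : (5 : ℤ) ∣ a + 2 * b := by
  have h1 : ((a + 2 * b : ℤ) : ZMod 5) = 0 := by
    push_cast
    rw [h]
    ring
  exact (ZMod.intCast_zmod_eq_zero_iff_dvd _ 5).1 h1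

theorem c5_norm (x : ℍ[ℤ]) : Quaternion.normSq x =
    x.re * x.re + x.imI * x.imI + x.imJ * x.imJ + x.imK * x.imK := by
  rw [Quaternion.normSq_def']
  ring

theorem c5_norm_al (a : Fin 6) : Quaternion.normSq (al a) = 5 := by
  rw [c5_norm]
  fin_cases a <;> simp [al]

theorem c5_ext (x y z : ℍ[ℤ])
    (h0 : y.re * z.re - y.imI * z.imI - y.imJ * z.imJ - y.imK * z.imK = x.re)
    (h1 : y.re * z.imI + y.imI * z.re + y.imJ * z.imK - y.imK * z.imJ = x.imI)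
    (h2 : y.re * z.imJ - y.imI * z.imK + y.imJ * z.re + y.imK * z.imI = x.imJ)
    (h3 : y.re * z.imK + y.imI * z.imJ - y.imJ * z.imI + y.imK * z.re = x.imK) : y * z = x := by
  ext
  · rw [Quaternion.re_mul, h0]
  · rw [Quaternion.imI_mul, h1]
  · rw [Quaternion.imJ_mul, h2]
  · rw [Quaternion.imK_mul, h3]

theorem c5_exists (x : ℍ[ℤ]) (h : (5 : ℤ) ∣ Quaternion.normSq x) :
    ∃ (a : Fin 6) (y : ℍ[ℤ]), y * al a = x := by
  have h1 : (x.re : ZMod 5) * x.re + x.imI * x.imI + x.imJ * x.imJ + x.imK * x.imK = 0 := by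
    rw [c5_norm] at h
    have := (ZMod.intCast_zmod_eq_zero_iff_dvd _ 5).2 h
    push_cast at this
    exact this
  rcases c5_fin _ _ _ _ h1 with ⟨h2, h3⟩ | ⟨h2, h3⟩ | ⟨h2, h3⟩ | ⟨h2, h3⟩ | ⟨h2, h3⟩ | ⟨h2, h3⟩
  · have h4 := c5_dvd h2
    have h5 := c5_dvd h3
    refine ⟨0, ⟨(x.re + 2 * x.imI) / 5, (x.imI - 2 * x.re) / 5, (x.imJ - 2 * x.imK) / 5,
      (x.imK + 2 * x.imJ) / 5⟩, ?_⟩
    refine c5_ext _ _ _ ?_ ?_ ?_ ?_ <;> simp [al] <;> omega
  · have h4 := c5_dvd h2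
    have h5 := c5_dvd h3
    refine ⟨1, ⟨(x.re + 2 * x.imJ) / 5, (x.imI + 2 * x.imK) / 5, (x.imJ - 2 * x.re) / 5,
      (x.imK - 2 * x.imI) / 5⟩, ?_⟩
    refine c5_ext _ _ _ ?_ ?_ ?_ ?_ <;> simp [al] <;> omega
  · have h4 := c5_dvd h2
    have h5 := c5_dvd h3
    refine ⟨2, ⟨(x.re + 2 * x.imK) / 5, (x.imI - 2 * x.imJ) / 5, (x.imJ + 2 * x.imI) / 5,
      (x.imK - 2 * x.re) / 5⟩, ?_⟩
    refine c5_ext _ _ _ ?_ ?_ ?_ ?_ <;> simp [al] <;> omega
  · have h4 := c5_dvd' h2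
    have h5 := c5_dvd' h3
    refine ⟨3, ⟨(x.re - 2 * x.imI) / 5, (x.imI + 2 * x.re) / 5, (x.imJ + 2 * x.imK) / 5,
      (x.imK - 2 * x.imJ) / 5⟩, ?_⟩
    refine c5_ext _ _ _ ?_ ?_ ?_ ?_ <;> simp [al] <;> omega
  · have h4 := c5_dvd' h2
    have h5 := c5_dvd' h3
    refine ⟨4, ⟨(x.re - 2 * x.imJ) / 5, (x.imI - 2 * x.imK) / 5, (x.imJ + 2 * x.re) / 5,
      (x.imK + 2 * x.imI) / 5⟩, ?_⟩
    refine c5_ext _ _ _ ?_ ?_ ?_ ?_ <;> simp [al] <;> omega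
  · have h4 := c5_dvd' h2
    have h5 := c5_dvd' h3
    refine ⟨5, ⟨(x.re - 2 * x.imK) / 5, (x.imI + 2 * x.imJ) / 5, (x.imJ - 2 * x.imI) / 5,
      (x.imK + 2 * x.re) / 5⟩, ?_⟩
    refine c5_ext _ _ _ ?_ ?_ ?_ ?_ <;> simp [al] <;> omega

theorem c5_good (a : Fin 6) (y : ℍ[ℤ]) : Gd (y * al a) ↔ Gd y := by
  unfold Gd
  rw [Quaternion.re_mul, Quaternion.imI_mul, Quaternion.imJ_mul, Quaternion.imK_mul]
  fin_cases a <;> simp [al] <;> omega

/-- TARGET 1 -/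
theorem words_of_good (l : ℕ) (x : ℍ[ℤ]) (hx : Gd x) (hn : Quaternion.normSq x = 5 ^ l) :
    ∃ w : List (Fin 6), w.length = l ∧ qw w = x := by
  induction l generalizing x with
  | zero =>
    refine ⟨[], rfl, ?_⟩
    obtain ⟨h1, h2, h3, h4⟩ := hx
    rw [c5_norm, pow_zero] at hn
    have hr : x.re = 1 := by
      have h7 := mul_self_nonneg x.imI
      have h8 := mul_self_nonneg x.imJ
      have h9 := mul_self_nonneg x.imK
      have h5 : x.re ≤ 1 := by nlinarith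
      have h6 : -1 ≤ x.re := by nlinarith
      omega
    have hi : x.imI = 0 := by
      rw [hr] at hn
      nlinarith [mul_self_nonneg x.imI, mul_self_nonneg x.imJ, mul_self_nonneg x.imK]
    have hj : x.imJ = 0 := by
      rw [hr] at hn
      nlinarith [mul_self_nonneg x.imI, mul_self_nonneg x.imJ, mul_self_nonneg x.imK]
    have hk : x.imK = 0 := by
      rw [hr] at hn
      nlinarith [mul_self_nonneg x.imI, mul_self_nonneg x.imJ, mul_self_nonneg x.imK]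
    change (1 : ℍ[ℤ]) = x
    ext <;> simp [hr, hi, hj, hk]
  | succ l ih =>
    obtain ⟨a, y, rfl⟩ := c5_exists x (by rw [hn, pow_succ]; exact dvd_mul_left _ _)
    rw [map_mul, c5_norm_al, pow_succ] at hn
    have h1 := mul_right_cancel₀ (by norm_num) hn
    obtain ⟨w, hw, rfl⟩ := ih y ((c5_good a y).1 hx) h1
    exact ⟨a :: w, by rw [List.length_cons, hw], rfl⟩

/-- TARGET 2 -/
theorem good_qw (w : List (Fin 6)) : Gd (qw w) ∧ Quaternion.normSq (qw w) = 5 ^ w.length := by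
  induction w with
  | nil =>
    change Gd 1 ∧ Quaternion.normSq (1 : ℍ[ℤ]) = 5 ^ 0
    refine ⟨?_, by simp⟩
    unfold Gd
    simp
  | cons a v ih =>
    change Gd (qw v * al a) ∧ Quaternion.normSq (qw v * al a) = 5 ^ (v.length + 1)
    refine ⟨(c5_good a _).2 ih.1, ?_⟩
    rw [map_mul, c5_norm_al, ih.2, pow_succ]

end Pool.Agent.H978V
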