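import Pool.Agent.H978V.K18

/-!
# In every conjugacy class of `SU(2)` the V-word length of almost every element is `(3 + o(1)) log_5 (1/ε)`

The elements of `SU(2)` of trace `2τ` are the matrices `τ I + i √(1-τ²) (n₀ X + n₁ Y + n₂ Z)`, `n` on the unit sphere of `ℝ³`.
For *every* `τ` in `(-1, 1)` and almost every `n` the shortest word in the V-basis within `ε` of this matrix has length
`(3 + o(1)) log_5 (1/ε)`.  (The statement for Haar-almost every element of `SU(2)` follows by Fubini's theorem, `haar_len3` in
`Pool/Agent/H978V/K18.lean`.)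

The proof (files `Pool/Agent/H978V/K*.lean`) is elementary apart from Siegel's theorem on `L(1, χ)`.  The integral quaternions of norm
`5^l` whose real part lies in a short window around `τ √5^l` are counted from below with sums of three squares; pairs of such quaternions
with nearly the same direction are counted from above with Linnik's lemma for two vectors of different norms; the resulting bound
for the `L²` norm and a spectral gap of the gates on the two-sphere show that the directions not served have small measure at each scale.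
The lower bound for the length is a count of quaternions near the class.
-/

set_option autoImplicit false

namespace Pool.Agent.H978V.ClassAverage

open Pool.Agent.H978V MeasureTheory
open scoped Matrix.Norms.L2Operator

/-- `U` has asymptotic word length `3 log_5 (1/ε)`: for every `δ > 0`, for all sufficiently small `ε > 0` there is a word in the V-basis of
length at most `(3 + δ) log_5 (1/ε)` within `ε` of `U`, and every word within `ε` of `U` has length at least `(3 - δ) log_5 (1/ε)`. -/
def Length3 (U : Matrix (Fin 2) (Fin 2) ℂ) : Prop :=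
  ∀ δ : ℝ, 0 < δ → ∃ ε₀ : ℝ, 0 < ε₀ ∧ ∀ ε : ℝ, 0 < ε → ε < ε₀ →
    (∃ w : List (Matrix (Fin 2) (Fin 2) ℂ), (∀ g ∈ w, g ∈ Vset) ∧
      (w.length : ℝ) ≤ (3 + δ) * Real.logb 5 (1 / ε) ∧ ‖U - w.prod‖ < ε) ∧
    (∀ w : List (Matrix (Fin 2) (Fin 2) ℂ), (∀ g ∈ w, g ∈ Vset) → ‖U - w.prod‖ < ε →
      (3 - δ) * Real.logb 5 (1 / ε) ≤ w.length)

theorem length3_of (U : Matrix (Fin 2) (Fin 2) ℂ) (h : Len3 U) : Length3 U := by
  intro δ hδ
  have h1 := h δ hδ
  rw [eventually_nhdsWithin_iff, Metric.eventually_nhds_iff] at h1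
  obtain ⟨ε₀, h0, h2⟩ := h1
  refine ⟨ε₀, h0, fun ε hε hε' => h2 ?_ hε⟩
  rw [Real.dist_eq, sub_zero, abs_of_pos hε]
  exact hε'

/-- For every `τ` in `(-1, 1)` and almost every unit vector `n` of `ℝ³` (surface measure), the unitary
`τ I + i √(1-τ²) (n₀ X + n₁ Y + n₂ Z)` has asymptotic word length `3 log_5 (1/ε)`. -/
theorem result (τ : ℝ) (h1 : -1 < τ) (h2 : τ < 1) :
    ∀ᵐ n : Metric.sphere (0 : EuclideanSpace ℝ (Fin 3)) 1
      ∂((volume : Measure (EuclideanSpace ℝ (Fin 3))).toSphere),
      Length3 ((τ : ℂ) • 1 + ((Real.sqrt (1 - τ ^ 2) : ℝ) * Complex.I : ℂ) •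
        (((n : EuclideanSpace ℝ (Fin 3)) 0 : ℂ) • pauli 0 + ((n : EuclideanSpace ℝ (Fin 3)) 1 : ℂ) • pauli 1 +
          ((n : EuclideanSpace ℝ (Fin 3)) 2 : ℂ) • pauli 2)) := by
  filter_upwards [class_len3 τ h1 h2] with n hn
  exact length3_of _ hn

end Pool.Agent.H978V.ClassAverage
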