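import Pool.Agent.H978V.Defs
import Pool.Agent.Helper557.Rz.M_kerc

/-!
# Short V-words for diagonal rotations: more definitions
-/

set_option autoImplicit false

open MeasureTheory Set
open scoped Quaternion

namespace Pool.Agent.H978V

open Pool.Agent.Helper557.Rz

/-- the action of a word on families -/
noncomputable def actw {e : ℕ} (R : ℍ[ℝ]ˣ →* Iso 3) (t : ZMod e) (w : List (Fin 6))
    (F : Vec e → C(S 3, ℝ)) : Vec e → C(S 3, ℝ) :=
  fun u => cr (R (uw w)) (F ((Ph t (qw w)).mulVec u))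

open Classical in
/-- number of unimodular vectors -/
noncomputable def NU (D : ℕ) [NeZero D] : ℕ := (Finset.univ.filter (fun u : Vec D => Uni u)).card

/-- the kernel `kk N · y` as a continuous function -/
noncomputable def kkC (N : ℕ) (y : S 3) : C(S 3, ℝ) :=
  ⟨fun x => kk N x y, by
    unfold kk
    exact continuous_const.mul (((ker_cont 3).comp (Continuous.prodMk continuous_id continuous_const)).pow _)⟩

/-- the composition of `kk N` with itself -/
noncomputable def k2 (N : ℕ) (y z : S 3) : ℝ := ∫ x, kk N x y * kk N x z ∂(sg 3)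

open Classical in
/-- sum of kernels placed at the points `yz z`, on the unit orbits of the vectors `uz z` -/
noncomputable def fam {D : ℕ} {ι : Type} (Z : Finset ι) (uz : ι → Vec D) (yz : ι → S 3) (N : ℕ) :
    Vec D → C(S 3, ℝ) :=
  fun u => ∑ z ∈ Z, if (∃ a : (ZMod D)ˣ, u = (a : ZMod D) • uz z) then kkC N (yz z) else 0

/-- the point `±` first unit vector of the sphere -/
noncomputable def ehat (sgn : Bool) : S 3 :=
  ⟨(if sgn then 1 else -1 : ℝ) • EuclideanSpace.single (0 : Fin 3) (1 : ℝ), by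
    rw [mem_sphere_zero_iff_norm, norm_smul]
    cases sgn <;> simp⟩

/-- the quaternion with real part `m` and imaginary part `s y` -/
def zq (m s : ℤ) (y : ℤ × ℤ × ℤ) : ℍ[ℤ] := ⟨m, s * y.1, s * y.2.1, s * y.2.2⟩

/-- weight of the diagonal estimate -/
noncomputable def wt (N : ℕ) (s : ℝ) : ℝ :=
  min (N : ℝ) ((N : ℝ) ^ 2 * Real.exp (-(((N : ℝ) - 1) * s)))

/-- the quaternion `a + b i` -/
def vq (a b : ℤ) : ℍ[ℤ] := ⟨a, b, 0, 0⟩

/-- The 2-adic condition: `(a + b i) ζ = c w` with `w` of real part `D` modulo `4` and even imaginary coordinates. -/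
def GC (a b c : ℤ) (D : ℕ) (ζ : ℍ[ℤ]) : Prop :=
  ∃ w : ℍ[ℤ], vq a b * ζ = c • w ∧ (w.re - D) % 4 = 0 ∧ w.imI % 2 = 0 ∧
    w.imJ % 2 = 0 ∧ w.imK % 2 = 0

end Pool.Agent.H978V
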