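import Pool.Agent.H978V.MDefs
import Pool.Agent.H978V.C1

/-!
JOB M4b (owner helper978, MP_06cce2_nt), done by helper363.

Abstract form of the energy estimate of `H978V/C1.lean`: `energy_abs`.
-/

set_option autoImplicit false

open scoped Quaternion

namespace Pool.Agent.H978V

open Pool.Agent.Helper557.Rz

/-- quaternion of a quadruple -/
def energyM_q (p : ℤ × ℤ × ℤ × ℤ) : ℍ[ℤ] := ⟨p.1, p.2.1, p.2.2.1, p.2.2.2⟩

theorem energyM_q_inj : Function.Injective energyM_q := by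
  intro p p' h
  have h1 := congrArg QuaternionAlgebra.re h
  have h2 := congrArg QuaternionAlgebra.imI h
  have h3 := congrArg QuaternionAlgebra.imJ h
  have h4 := congrArg QuaternionAlgebra.imK h
  exact Prod.ext h1 (Prod.ext h2 (Prod.ext h3 h4))

theorem energyM_normSq {k : ℕ} {p : ℤ × ℤ × ℤ × ℤ} (hp : p ∈ QQ k) :
    Quaternion.normSq (energyM_q p) = 25 ^ k := by
  rw [Quaternion.normSq_def']
  exact energyA_mem_QQ hp

open Classical in
/-- the weight in the energy -/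
noncomputable def energyM_G (P : ℍ[ℤ] → Prop) (S : ℍ[ℤ] → ℝ) (N k : ℕ) (q : ℍ[ℤ]) : ℝ :=
  if P q then wt N (S q / (4 * 25 ^ k)) else 0

theorem energyM_five (P : ℍ[ℤ] → Prop) (S : ℍ[ℤ] → ℝ) (hP : ∀ q, P ((5 : ℤ) • q) ↔ P q)
    (hS : ∀ q, S ((5 : ℤ) • q) = 25 * S q) (N l : ℕ) (q : ℍ[ℤ]) :
    energyM_G P S N (l + 1) ((5 : ℤ) • q) = energyM_G P S N l q := by
  unfold energyM_G
  have h3 : S ((5 : ℤ) • q) / (4 * 25 ^ (l + 1)) = S q / (4 * 25 ^ l) := by
    rw [hS, pow_succ]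
    field_simp
  rw [h3]
  by_cases h : P q
  · rw [if_pos ((hP q).2 h), if_pos h]
  · rw [if_neg (fun h' => h ((hP q).1 h')), if_neg h]

/-- choice of the radius -/
theorem energyM_radius (N k : ℕ) (hN : 1 ≤ N) : ∃ T : ℝ, 0 ≤ T ∧
    N * T ≤ (32 * Real.log ((5 : ℝ) ^ k * N) + 1) * 25 ^ k ∧
    ∀ s : ℝ, s ≤ 25 ^ k → T < s → wt N (s / (4 * 25 ^ k)) ≤ 1 / 625 ^ k := by
  have hNr : (1 : ℝ) ≤ N := by exact_mod_cast hN
  have h5k : (1 : ℝ) ≤ (5 : ℝ) ^ k := one_le_pow₀ (by norm_num)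
  have h25 : (0 : ℝ) < 25 ^ k := by positivity
  have hX1 : 1 ≤ (5 : ℝ) ^ k * N := by nlinarith
  rcases Nat.lt_or_ge 1 N with h2 | h2
  · have hN1 : (0 : ℝ) < N - 1 := by
      have : (1 : ℝ) < N := by exact_mod_cast h2
      linarith
    have hlogN : 0 ≤ Real.log N := Real.log_nonneg hNr
    have hlog5 : 0 ≤ Real.log 5 := Real.log_nonneg (by norm_num)
    set Λ : ℝ := 2 * Real.log N + 4 * k * Real.log 5 with hΛ
    have hΛ0 : 0 ≤ Λ := by positivity
    refine ⟨4 * Λ / (N - 1) * 25 ^ k, by positivity, ?_, ?_⟩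
    · rw [← mul_assoc]
      apply mul_le_mul_of_nonneg_right _ h25.le
      have h4 : (N : ℝ) ≤ 2 * (N - 1) := by
        have : (2 : ℝ) ≤ N := by exact_mod_cast h2
        linarith
      have h5 : N * (4 * Λ / (N - 1)) ≤ 8 * Λ := by
        rw [mul_div_assoc', div_le_iff₀ hN1]
        nlinarith
      have h6 : Real.log ((5 : ℝ) ^ k * N) = k * Real.log 5 + Real.log N := by
        rw [Real.log_mul (by positivity) (by positivity), Real.log_pow]
      rw [h6]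
      rw [hΛ] at h5 ⊢
      nlinarith
    · intro s _ hs
      apply energyA_wt_small N k h2
      have h7 : 4 * Λ / (N - 1) < s / 25 ^ k := by
        rw [lt_div_iff₀ h25]
        exact hs
      rw [div_lt_iff₀ hN1] at h7
      have h8 : s / (4 * 25 ^ k) = (s / 25 ^ k) / 4 := by
        field_simp
      rw [h8]
      linarith
  · have hN1 : N = 1 := by omega
    subst hN1
    refine ⟨25 ^ k, by positivity, ?_, ?_⟩
    · have : 0 ≤ Real.log ((5 : ℝ) ^ k * ((1 : ℕ) : ℝ)) := Real.log_nonneg hX1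
      push_cast at this ⊢
      nlinarith
    · intro s hs hs2
      exact absurd hs (not_le.2 hs2)

/-- the estimate at one level -/
theorem energyM_level (δ : ℝ) (hδ : 0 < δ) (P : ℍ[ℤ] → Prop) (S : ℍ[ℤ] → ℝ)
    (D' C₁ : ℝ) (A : ℕ → ℝ) (hD' : 0 < D') (hC₁ : 1 ≤ C₁) (hA : ∀ k, 1 ≤ A k)
    (hSn : ∀ q, S q ≤ ((Quaternion.normSq q : ℤ) : ℝ))
    (hcount : ∀ (k : ℕ) (T : ℝ), 0 ≤ T → ∀ F : Finset ℍ[ℤ],
      (∀ q ∈ F, Quaternion.normSq q = 25 ^ k ∧ P q ∧ S q ≤ T) →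
      (F.card : ℝ) ≤ C₁ * ((25 : ℝ) ^ k) ^ (δ / 4) * A k * (1 + Real.sqrt (T / D') + T / D'))
    (N k : ℕ) (hN : 1 ≤ N) :
    ∑ p ∈ QQ k, energyM_G P S N k ⟨p.1, p.2.1, p.2.2.1, p.2.2.2⟩ ≤
      (2 * (32 / (δ / 2) + 1) + 81) * C₁ * ((5 : ℝ) ^ k * N) ^ δ * (A k * (N + 25 ^ k / D')) := by
  classical
  obtain ⟨T, hT0, hNT, hT⟩ := energyM_radius N k hN
  have hNr : (1 : ℝ) ≤ N := by exact_mod_cast hN
  have h5k : (1 : ℝ) ≤ (5 : ℝ) ^ k := one_le_pow₀ (by norm_num)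
  have h25 : (0 : ℝ) < 25 ^ k := by positivity
  set X : ℝ := (5 : ℝ) ^ k * N with hX
  have hX1 : 1 ≤ X := by nlinarith
  have hX0 : 0 < X := by linarith
  set F : Finset ℍ[ℤ] := ((QQ k).filter (fun p => P (energyM_q p) ∧ S (energyM_q p) ≤ T)).image
    energyM_q with hF
  have hFc : F.card = ((QQ k).filter (fun p => P (energyM_q p) ∧ S (energyM_q p) ≤ T)).card :=
    Finset.card_image_of_injective _ energyM_q_inj
  have hFb := hcount k T hT0 F (by
    intro q hq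
    rw [hF, Finset.mem_image] at hq
    obtain ⟨p, hp, rfl⟩ := hq
    rw [Finset.mem_filter] at hp
    exact ⟨energyM_normSq hp.1, hp.2⟩)
  -- pointwise bound
  have hpt : ∀ p ∈ QQ k, energyM_G P S N k ⟨p.1, p.2.1, p.2.2.1, p.2.2.2⟩ ≤
      (if P (energyM_q p) ∧ S (energyM_q p) ≤ T then (N : ℝ) else 0) + 1 / 625 ^ k := by
    intro p hp
    have hp2 : 0 ≤ (1 : ℝ) / 625 ^ k := by positivity
    have he : (⟨p.1, p.2.1, p.2.2.1, p.2.2.2⟩ : ℍ[ℤ]) = energyM_q p := rfl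
    rw [he]
    unfold energyM_G
    by_cases h1 : P (energyM_q p)
    · by_cases h2 : S (energyM_q p) ≤ T
      · rw [if_pos h1, if_pos ⟨h1, h2⟩]
        have := energyA_wt_le N (S (energyM_q p) / (4 * 25 ^ k))
        linarith
      · rw [if_pos h1, if_neg (fun h => h2 h.2), zero_add]
        apply hT _ _ (not_le.1 h2)
        have h3 := hSn (energyM_q p)
        rw [energyM_normSq hp] at h3
        push_cast at h3
        exact h3
    · rw [if_neg h1, if_neg (fun h => h1 h.1)]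
      linarith
  have hsum := Finset.sum_le_sum hpt
  refine hsum.trans ?_
  rw [Finset.sum_add_distrib, Finset.sum_const, nsmul_eq_mul, ← Finset.sum_filter,
    Finset.sum_const, nsmul_eq_mul, ← hFc]
  have hsec : ((QQ k).card : ℝ) * (1 / 625 ^ k) ≤ 81 := by
    have h1 := energyA_QQ_card k
    rw [mul_one_div, div_le_iff₀ (by positivity)]
    exact h1
  have hlogX : 0 ≤ Real.log X := Real.log_nonneg hX1
  have hlog : 32 * Real.log X + 1 ≤ (32 / (δ / 2) + 1) * X ^ (δ / 2) := by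
    have h1 := Real.log_le_rpow_div hX0.le (show 0 < δ / 2 by positivity)
    have h2 : 1 ≤ X ^ (δ / 2) := Real.one_le_rpow hX1 (by positivity)
    calc 32 * Real.log X + 1 ≤ 32 * (X ^ (δ / 2) / (δ / 2)) + X ^ (δ / 2) := by linarith
      _ = _ := by ring
  have h25X : ((25 : ℝ) ^ k) ^ (δ / 4) ≤ X ^ (δ / 2) := by
    have h1 : (25 : ℝ) ^ k = ((5 : ℝ) ^ k) ^ (2 : ℝ) := by
      rw [Real.rpow_two, ← pow_mul, mul_comm, pow_mul]
      norm_num
    rw [h1, ← Real.rpow_mul (by positivity)]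
    have h2 : (2 : ℝ) * (δ / 4) = δ / 2 := by ring
    rw [h2]
    apply Real.rpow_le_rpow (by positivity) _ (by positivity)
    rw [hX]
    nlinarith
  have hAk := hA k
  have hC0 : 0 < C₁ := by linarith
  have hA0 : 0 < A k := by linarith
  set Z : ℝ := N + 25 ^ k / D' with hZ
  have hq0 : (0 : ℝ) ≤ 25 ^ k / D' := by positivity
  have hZ1 : 1 ≤ Z := by linarith
  set x : ℝ := T / D' with hx
  have hx0 : 0 ≤ x := by positivity
  have hsq : Real.sqrt x ≤ 1 + x := by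
    rw [Real.sqrt_le_left (by linarith)]
    nlinarith
  have hNx : N * x ≤ (32 * Real.log X + 1) * (25 ^ k / D') := by
    rw [hx, ← mul_div_assoc, ← mul_div_assoc]
    exact div_le_div_of_nonneg_right hNT hD'.le
  have hcnt : N * (1 + Real.sqrt x + x) ≤ 2 * (32 * Real.log X + 1) * Z := by
    have h1 : N * (1 + Real.sqrt x + x) ≤ N * (2 + 2 * x) :=
      mul_le_mul_of_nonneg_left (by linarith) (by positivity)
    have h2 : (N : ℝ) ≤ (32 * Real.log X + 1) * N := by nlinarith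
    rw [hZ]
    nlinarith
  have hXX : X ^ (δ / 2) * X ^ (δ / 2) = X ^ δ := by
    rw [← Real.rpow_add hX0]
    congr 1
    ring
  have hXd : 1 ≤ X ^ δ := Real.one_le_rpow hX1 hδ.le
  have hXd2 : 0 ≤ X ^ (δ / 2) := by positivity
  have hfirst : (F.card : ℝ) * N ≤
      2 * (32 / (δ / 2) + 1) * C₁ * X ^ δ * (A k * Z) := by
    calc (F.card : ℝ) * N ≤
        (C₁ * ((25 : ℝ) ^ k) ^ (δ / 4) * A k * (1 + Real.sqrt x + x)) * N :=
          mul_le_mul_of_nonneg_right hFb (by positivity)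
      _ = (C₁ * ((25 : ℝ) ^ k) ^ (δ / 4) * A k) * (N * (1 + Real.sqrt x + x)) := by ring
      _ ≤ (C₁ * X ^ (δ / 2) * A k) * (2 * (32 * Real.log X + 1) * Z) := by
          apply mul_le_mul
          · apply mul_le_mul_of_nonneg_right _ hA0.le
            exact mul_le_mul_of_nonneg_left h25X hC0.le
          · exact hcnt
          · have := Real.sqrt_nonneg x
            positivity
          · positivity
      _ ≤ (C₁ * X ^ (δ / 2) * A k) * (2 * ((32 / (δ / 2) + 1) * X ^ (δ / 2)) * Z) := by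
          apply mul_le_mul_of_nonneg_left
          · apply mul_le_mul_of_nonneg_right
            · linarith
            · linarith
          · positivity
      _ = 2 * (32 / (δ / 2) + 1) * C₁ * (X ^ (δ / 2) * X ^ (δ / 2)) * (A k * Z) := by ring
      _ = 2 * (32 / (δ / 2) + 1) * C₁ * X ^ δ * (A k * Z) := by rw [hXX]
  have hone : 1 ≤ C₁ * X ^ δ * (A k * Z) := by
    have h1 : 1 ≤ A k * Z := one_le_mul_of_one_le_of_one_le hAk hZ1
    have h2 : 1 ≤ C₁ * X ^ δ := one_le_mul_of_one_le_of_one_le hC₁ hXd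
    exact one_le_mul_of_one_le_of_one_le h2 h1
  calc (F.card : ℝ) * N + ((QQ k).card : ℝ) * (1 / 625 ^ k) ≤
      2 * (32 / (δ / 2) + 1) * C₁ * X ^ δ * (A k * Z) + 81 * (C₁ * X ^ δ * (A k * Z)) := by linarith
    _ = _ := by ring

open Classical in
/-- TARGET -/
theorem energy_abs (δ : ℝ) (hδ : 0 < δ) : ∃ K : ℝ, 0 < K ∧ ∀ (P : ℍ[ℤ] → Prop) (S : ℍ[ℤ] → ℝ)
    (D' C₁ : ℝ) (A : ℕ → ℝ), 0 < D' → 1 ≤ C₁ → (∀ k, 1 ≤ A k) → (∀ q, 0 ≤ S q) →
    (∀ q, S q ≤ ((Quaternion.normSq q : ℤ) : ℝ)) → (∀ q, P ((5 : ℤ) • q) ↔ P q) →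
    (∀ q, S ((5 : ℤ) • q) = 25 * S q) →
    (∀ (k : ℕ) (T : ℝ), 0 ≤ T → ∀ F : Finset ℍ[ℤ],
      (∀ q ∈ F, Quaternion.normSq q = 25 ^ k ∧ P q ∧ S q ≤ T) →
      (F.card : ℝ) ≤ C₁ * ((25 : ℝ) ^ k) ^ (δ / 4) * A k * (1 + Real.sqrt (T / D') + T / D')) →
    ∀ N j : ℕ, 1 ≤ N → 1 ≤ j →
    (∑ w ∈ RW j, ∑ w' ∈ RW j, if P (qw w * star (qw w')) then
        wt N (S (qw w * star (qw w')) / (4 * 25 ^ j)) else 0) ≤
      K * C₁ * ((5 : ℝ) ^ j * N) ^ δ *
        ∑ k ∈ Finset.range (j + 1), 5 ^ (j - k) * A k * (N + 25 ^ k / D') := by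
  refine ⟨2 * (32 / (δ / 2) + 1) + 81, by positivity, ?_⟩
  intro P S D' C₁ A hD' hC₁ hA _ hSn hP hS hcount N j hN hj
  have hNr : (1 : ℝ) ≤ N := by exact_mod_cast hN
  have h5j : (1 : ℝ) ≤ (5 : ℝ) ^ j := one_le_pow₀ (by norm_num)
  set X : ℝ := (5 : ℝ) ^ j * N with hX
  have hX1 : 1 ≤ X := by nlinarith
  have hX0 : 0 < X := by linarith
  have hmain := pair_sum_le (energyM_G P S N) (fun l q => by
    unfold energyM_G
    split_ifs
    · exact energyA_wt_nonneg _ _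
    · exact le_rfl) (energyM_five P S hP hS N) j hj
  have hG0 : energyM_G P S N 0 1 ≤ N := by
    unfold energyM_G
    split_ifs
    · exact energyA_wt_le _ _
    · positivity
  have hlhs : (∑ w ∈ RW j, ∑ w' ∈ RW j, if P (qw w * star (qw w')) then
        wt N (S (qw w * star (qw w')) / (4 * 25 ^ j)) else 0) =
      ∑ w ∈ RW j, ∑ w' ∈ RW j, energyM_G P S N j (qw w * star (qw w')) := by
    apply Finset.sum_congr rfl
    intro w _
    apply Finset.sum_congr rfl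
    intro w' _
    unfold energyM_G
    rfl
  rw [hlhs]
  refine hmain.trans ?_
  set K : ℝ := 2 * (32 / (δ / 2) + 1) + 81 with hK
  have hK2 : 2 ≤ K := by
    have : 0 < 32 / (δ / 2) := by positivity
    rw [hK]
    linarith
  have hC0 : 0 < C₁ := by linarith
  have hXd : 1 ≤ X ^ δ := Real.one_le_rpow hX1 hδ.le
  have hterm : ∀ k ∈ Finset.Icc 1 j, (5 : ℝ) ^ (j - k) *
      ∑ p ∈ QQ k, energyM_G P S N k ⟨p.1, p.2.1, p.2.2.1, p.2.2.2⟩ ≤
      K * C₁ * X ^ δ * (5 ^ (j - k) * A k * (N + 25 ^ k / D')) := by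
    intro k hk
    rw [Finset.mem_Icc] at hk
    have h1 := energyM_level δ hδ P S D' C₁ A hD' hC₁ hA hSn hcount N k hN
    have h7 : (5 : ℝ) ^ k ≤ 5 ^ j := pow_le_pow_right₀ (by norm_num) hk.2
    have h8 : ((5 : ℝ) ^ k * N) ^ δ ≤ X ^ δ := by
      apply Real.rpow_le_rpow (by positivity) _ hδ.le
      rw [hX]
      exact mul_le_mul_of_nonneg_right h7 (by positivity)
    have hA0 : 0 < A k := by linarith [hA k]
    have hZ0 : (0 : ℝ) ≤ A k * (N + 25 ^ k / D') := by positivity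
    calc (5 : ℝ) ^ (j - k) * ∑ p ∈ QQ k, energyM_G P S N k ⟨p.1, p.2.1, p.2.2.1, p.2.2.2⟩ ≤
        (5 : ℝ) ^ (j - k) * (K * C₁ * ((5 : ℝ) ^ k * N) ^ δ * (A k * (N + 25 ^ k / D'))) :=
          mul_le_mul_of_nonneg_left h1 (by positivity)
      _ ≤ (5 : ℝ) ^ (j - k) * (K * C₁ * X ^ δ * (A k * (N + 25 ^ k / D'))) := by
          apply mul_le_mul_of_nonneg_left _ (by positivity)
          apply mul_le_mul_of_nonneg_right _ hZ0
          exact mul_le_mul_of_nonneg_left h8 (by positivity)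
      _ = K * C₁ * X ^ δ * (5 ^ (j - k) * A k * (N + 25 ^ k / D')) := by ring
  have hsum := Finset.sum_le_sum hterm
  rw [← Finset.mul_sum] at hsum
  have h0 : 6 * 5 ^ (j - 1) * energyM_G P S N 0 1 ≤
      K * C₁ * X ^ δ * (5 ^ (j - 0) * A 0 * (N + 25 ^ 0 / D')) := by
    have h2 : (5 : ℝ) ^ j = 5 * 5 ^ (j - 1) := by
      rw [← pow_succ']
      congr 1
      omega
    have h3 : 6 * (5 : ℝ) ^ (j - 1) * energyM_G P S N 0 1 ≤ 6 * 5 ^ (j - 1) * N :=
      mul_le_mul_of_nonneg_left hG0 (by positivity)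
    have h4 : 6 * (5 : ℝ) ^ (j - 1) * N ≤ 2 * (5 ^ j * N) := by
      rw [h2]
      have : 0 ≤ (5 : ℝ) ^ (j - 1) * N := by positivity
      nlinarith
    have h5 : 1 / D' > 0 := by positivity
    have h6 : (5 : ℝ) ^ j * N ≤ 5 ^ (j - 0) * A 0 * (N + 25 ^ 0 / D') := by
      rw [Nat.sub_zero, pow_zero]
      have h7 : (5 : ℝ) ^ j * 1 ≤ 5 ^ j * A 0 := mul_le_mul_of_nonneg_left (hA 0) (by positivity)
      rw [mul_one] at h7
      have h8 : (N : ℝ) ≤ N + 1 / D' := by linarith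
      have h9 : 0 ≤ (5 : ℝ) ^ j * A 0 := by linarith
      exact mul_le_mul h7 h8 (by positivity) h9
    have h10 : 2 ≤ K * C₁ * X ^ δ := by
      have h11 : 2 * 1 ≤ K * C₁ := mul_le_mul hK2 hC₁ (by norm_num) (by linarith)
      have h12 : (2 * 1) * 1 ≤ K * C₁ * X ^ δ := mul_le_mul h11 hXd (by norm_num) (by positivity)
      linarith
    have h13 : 0 ≤ (5 : ℝ) ^ j * N := by positivity
    calc 6 * (5 : ℝ) ^ (j - 1) * energyM_G P S N 0 1 ≤ 2 * (5 ^ j * N) := h3.trans h4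
      _ ≤ (K * C₁ * X ^ δ) * (5 ^ j * N) := mul_le_mul_of_nonneg_right h10 h13
      _ ≤ _ := mul_le_mul_of_nonneg_left h6 (by positivity)
  have hrange : ∑ k ∈ Finset.range (j + 1), 5 ^ (j - k) * A k * (N + 25 ^ k / D') =
      (5 ^ (j - 0) * A 0 * (N + 25 ^ 0 / D')) +
        ∑ k ∈ Finset.Icc 1 j, 5 ^ (j - k) * A k * (N + 25 ^ k / D') := by
    rw [Finset.sum_range_succ', add_comm]
    congr 1
    rw [Finset.range_eq_Ico]
    have : Finset.Icc 1 j = Finset.Ico (0 + 1) (j + 1) := by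
      ext a
      simp only [Finset.mem_Icc, Finset.mem_Ico]
      omega
    rw [this, Finset.sum_Ico_add' (fun k => 5 ^ (j - k) * A k * ((N : ℝ) + 25 ^ k / D')) 0 j 1]
  rw [hrange, mul_add]
  exact add_le_add h0 hsum

end Pool.Agent.H978V
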