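import Pool.Agent.H978V.MDefs
import Pool.Agent.H978V.C1
import Pool.Agent.H978V.M4a
import Pool.Agent.H978V.M4b

/-!
JOB M4 (owner helper978, MP_06cce2_nt).  `H978V/*.lean` (library, with `MDefs`) is on origin/main.

The energy of the words for a rational axis.

PROOF.  We may assume `δ ≤ 1` (replace `δ` by `min δ 1`; `5^j N ≥ 1`).  `H = dt h h ≥ 1`.  Apply `energy_abs` with `P = Fx t e`, `S = Sp (hp h)`, `D' = D/(H N₁²)`, `C₁ = K_a H^(δ/4)` (`K_a ≥ 1` from `circ_count (δ/4)`), `A = 1`.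
`Sp ≥ 0` clear; `Sp (hp h) q ≤ |Im q|² ≤ normSq q` (Lagrange, `hp h` has imaginary part of length one); `Sp p (5 • q) = 25 Sp p q`; `Fx t e (5 • q) ↔ Fx t e q`: `Q.Ph t (5 • q) = 5 • Q.Ph t q` (`Q.Ph_mul`, `Q.Ph_int` or directly from the definition `Pg`), `5` is a unit modulo `D`.
Count: `circ_count` (`(H 25^k)^(δ/4) = H^(δ/4) (25^k)^(δ/4)`, `T (H N₁²)/D = T/D'`).
Then `∑_{k ≤ j} 5^(j-k) (N + 25^k/D') ≤ 2 (N 5^j + 25^j/D') ≤ 2 H N₁² (N 5^j + 25^j/D)` and `H^(δ/4) ≤ H`, so the bound `2 K K_a H² N₁² (5^j N)^δ (..)`.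
-/

set_option autoImplicit false

open scoped Quaternion

namespace Pool.Agent.H978V

open Pool.Agent.Helper557.Rz



theorem energy_circ_re (c : ℤ) (q : ℍ[ℤ]) : (c • q).re = c * q.re := Quaternion.re_smul ..

theorem energy_circ_imI (c : ℤ) (q : ℍ[ℤ]) : (c • q).imI = c * q.imI := Quaternion.imI_smul ..

theorem energy_circ_imJ (c : ℤ) (q : ℍ[ℤ]) : (c • q).imJ = c * q.imJ := Quaternion.imJ_smul ..

theorem energy_circ_imK (c : ℤ) (q : ℍ[ℤ]) : (c • q).imK = c * q.imK := Quaternion.imK_smul ..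

theorem energy_circ_smul {D : ℕ} (hD5 : Nat.Coprime D 5) (t : ZMod D × ZMod D) (e : Vec D)
    (q : ℍ[ℤ]) : Fx t e ((5 : ℤ) • q) ↔ Fx t e q := by
  have h5 : IsUnit ((5 : ℤ) : ZMod D) := by
    have h1 : IsUnit ((5 : ℕ) : ZMod D) := (ZMod.isUnit_iff_coprime 5 D).2 hD5.symm
    simpa using h1
  have hsm : Q.Ph t ((5 : ℤ) • q) = ((5 : ℤ) : ZMod D) • Q.Ph t q := by
    unfold Q.Ph Pg
    rw [energy_circ_re, energy_circ_imI, energy_circ_imJ, energy_circ_imK]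
    push_cast
    ext i j
    fin_cases i <;> fin_cases j <;> simp <;> ring
  unfold Fx
  rw [hsm, Matrix.smul_mulVec, Pi.smul_apply, Pi.smul_apply, smul_eq_mul, smul_eq_mul, mul_assoc,
    mul_assoc]
  exact h5.mul_right_inj

theorem energy_circ_hp {h : ℤ × ℤ × ℤ} (hh : 0 < dt h h) :
    (hp h).imI ^ 2 + (hp h).imJ ^ 2 + (hp h).imK ^ 2 = 1 := by
  have hH : (0 : ℝ) < (dt h h : ℝ) := by exact_mod_cast hh
  have hs : Real.sqrt (dt h h : ℝ) ^ 2 = (dt h h : ℝ) := Real.sq_sqrt hH.le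
  have hs0 : Real.sqrt (dt h h : ℝ) ≠ 0 := (Real.sqrt_pos.2 hH).ne'
  have hdt : (dt h h : ℝ) = (h.1 : ℝ) ^ 2 + (h.2.1 : ℝ) ^ 2 + (h.2.2 : ℝ) ^ 2 := by
    unfold dt
    push_cast
    ring
  have e1 : (hp h).imI = (1 / Real.sqrt (dt h h : ℝ)) * (h.1 : ℝ) := by
    unfold hp
    rw [Quaternion.imI_smul, smul_eq_mul]
    rfl
  have e2 : (hp h).imJ = (1 / Real.sqrt (dt h h : ℝ)) * (h.2.1 : ℝ) := by
    unfold hp
    rw [Quaternion.imJ_smul, smul_eq_mul]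
    rfl
  have e3 : (hp h).imK = (1 / Real.sqrt (dt h h : ℝ)) * (h.2.2 : ℝ) := by
    unfold hp
    rw [Quaternion.imK_smul, smul_eq_mul]
    rfl
  rw [e1, e2, e3]
  have : (1 / Real.sqrt (dt h h : ℝ) * (h.1 : ℝ)) ^ 2 + (1 / Real.sqrt (dt h h : ℝ) * (h.2.1 : ℝ)) ^ 2 +
      (1 / Real.sqrt (dt h h : ℝ) * (h.2.2 : ℝ)) ^ 2 =
      ((h.1 : ℝ) ^ 2 + (h.2.1 : ℝ) ^ 2 + (h.2.2 : ℝ) ^ 2) / Real.sqrt (dt h h : ℝ) ^ 2 := by
    field_simp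
  rw [this, hs, ← hdt, div_self hH.ne']

theorem energy_circ_Sp_le {p : ℍ[ℝ]} (hp1 : p.imI ^ 2 + p.imJ ^ 2 + p.imK ^ 2 = 1) (q : ℍ[ℤ]) :
    Sp p q ≤ ((Quaternion.normSq q : ℤ) : ℝ) := by
  rw [Quaternion.normSq_def']
  push_cast
  unfold Sp
  have h1 : ((q.imJ : ℝ) * p.imK - q.imK * p.imJ) ^ 2 + (q.imK * p.imI - q.imI * p.imK) ^ 2 +
      (q.imI * p.imJ - q.imJ * p.imI) ^ 2 =
      ((q.imI : ℝ) ^ 2 + q.imJ ^ 2 + q.imK ^ 2) * (p.imI ^ 2 + p.imJ ^ 2 + p.imK ^ 2) -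
      (q.imI * p.imI + q.imJ * p.imJ + q.imK * p.imK) ^ 2 := by ring
  rw [h1, hp1]
  nlinarith [sq_nonneg ((q.imI : ℝ) * p.imI + q.imJ * p.imJ + q.imK * p.imK), sq_nonneg (q.re : ℝ)]

theorem energy_circ_sum (N D' : ℝ) (hN : 0 ≤ N) (hD : 0 < D') (j : ℕ) :
    ∑ k ∈ Finset.range (j + 1), (5 : ℝ) ^ (j - k) * 1 * (N + 25 ^ k / D') ≤
      2 * (N * 5 ^ j + 25 ^ j / D') := by
  have h1 : ∀ k ∈ Finset.range (j + 1), (5 : ℝ) ^ (j - k) * 1 * (N + 25 ^ k / D') =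
      N * 5 ^ (j - k) + 5 ^ j / D' * 5 ^ k := by
    intro k hk
    have hk' : k ≤ j := Nat.lt_succ_iff.1 (Finset.mem_range.1 hk)
    have e1 : (5 : ℝ) ^ j = 5 ^ (j - k) * 5 ^ k := by rw [← pow_add, Nat.sub_add_cancel hk']
    have e2 : (25 : ℝ) ^ k = 5 ^ k * 5 ^ k := by rw [← mul_pow]; norm_num
    rw [e1, e2]
    ring
  rw [Finset.sum_congr rfl h1, Finset.sum_add_distrib, ← Finset.mul_sum, ← Finset.mul_sum]
  have h2 : ∑ k ∈ Finset.range (j + 1), (5 : ℝ) ^ (j - k) = ∑ k ∈ Finset.range (j + 1), (5 : ℝ) ^ k := by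
    rw [← Finset.sum_range_reflect]
    apply Finset.sum_congr rfl
    intro k hk
    have hk' : k ≤ j := Nat.lt_succ_iff.1 (Finset.mem_range.1 hk)
    congr 1
    omega
  have h3 : ∑ k ∈ Finset.range (j + 1), (5 : ℝ) ^ k ≤ 2 * 5 ^ j := by
    rw [geom_sum_eq (by norm_num)]
    have : (0 : ℝ) < 5 ^ j := by positivity
    rw [pow_succ]
    linarith
  rw [h2]
  have e3 : (25 : ℝ) ^ j = 5 ^ j * 5 ^ j := by rw [← mul_pow]; norm_num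
  rw [e3]
  have h4 : 0 ≤ (5 : ℝ) ^ j / D' := by positivity
  calc N * ∑ k ∈ Finset.range (j + 1), (5 : ℝ) ^ k + 5 ^ j / D' * ∑ k ∈ Finset.range (j + 1), (5 : ℝ) ^ k ≤
      N * (2 * 5 ^ j) + 5 ^ j / D' * (2 * 5 ^ j) :=
        add_le_add (mul_le_mul_of_nonneg_left h3 hN) (mul_le_mul_of_nonneg_left h3 h4)
    _ = _ := by ring

open Classical in
/-- TARGET -/
theorem energy_circ (δ : ℝ) (hδ : 0 < δ) : ∃ K : ℝ, 1 ≤ K ∧ ∀ (D : ℕ) [NeZero D], Odd D →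
    Nat.Coprime D 5 → ∀ t : ZMod D × ZMod D, Q.Sq t → ∀ e : Vec D, Uni e →
    ∀ (h : ℤ × ℤ × ℤ) (N₁ : ℕ), 1 ≤ N₁ → 0 < dt h h → Fx t e ((N₁ : ℤ) • pq h) →
    ∀ N j : ℕ, 1 ≤ N → 1 ≤ j →
    (∑ w ∈ RW j, ∑ w' ∈ RW j, if Fx t e (qw w * star (qw w')) then
        wt N (Sp (hp h) (qw w * star (qw w')) / (4 * 25 ^ j)) else 0) ≤
      K * ((dt h h : ℝ) * N₁) ^ 2 * ((5 : ℝ) ^ j * N) ^ δ * (25 ^ j / D + N * 5 ^ j) := by
  have hδ1 : 0 < min δ 1 := lt_min hδ one_pos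
  obtain ⟨K, hK, hE⟩ := energy_abs (min δ 1) hδ1
  obtain ⟨Ka, hKa, hC⟩ := circ_count (min δ 1 / 4) (by positivity)
  refine ⟨2 * K * Ka + 1, by nlinarith, ?_⟩
  intro D _ hD hD5 t ht e he h N₁ hN₁ hh hF N j hN hj
  have hDpos : (0 : ℝ) < D := by exact_mod_cast Nat.pos_of_ne_zero (NeZero.ne D)
  have hH1 : (1 : ℝ) ≤ (dt h h : ℝ) := by exact_mod_cast hh
  set H : ℝ := (dt h h : ℝ) with hHdef
  have hH0 : 0 < H := by linarith
  have hN1r : (1 : ℝ) ≤ N₁ := by exact_mod_cast hN₁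
  have hN1sq : (1 : ℝ) ≤ (N₁ : ℝ) ^ 2 := one_le_pow₀ hN1r
  have hNr : (1 : ℝ) ≤ N := by exact_mod_cast hN
  have hHN : 0 < H * (N₁ : ℝ) ^ 2 := by positivity
  have hHd : 1 ≤ H ^ (min δ 1 / 4) := Real.one_le_rpow hH1 (by positivity)
  have hHd2 : H ^ (min δ 1 / 4) ≤ H := by
    have h1 : min δ 1 / 4 ≤ 1 := by
      have := min_le_right δ 1
      linarith
    calc H ^ (min δ 1 / 4) ≤ H ^ (1 : ℝ) := Real.rpow_le_rpow_of_exponent_le hH1 h1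
      _ = H := Real.rpow_one H
  have hmain := hE (Fx t e) (Sp (hp h)) (D / (H * (N₁ : ℝ) ^ 2)) (Ka * H ^ (min δ 1 / 4)) (fun _ => 1)
    (by positivity) (by nlinarith) (fun _ => le_refl 1)
    (fun q => by unfold Sp; positivity)
    (energy_circ_Sp_le (energy_circ_hp hh)) (energy_circ_smul hD5 t e)
    (fun q => by
      unfold Sp
      rw [energy_circ_imI, energy_circ_imJ, energy_circ_imK]
      push_cast
      ring)
    (by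
      intro k T hT F hF'
      have h1 := hC D hD t ht e he h N₁ hN₁ hh hF k T hT F hF'
      have h2 : (H * 25 ^ k) ^ (min δ 1 / 4) = H ^ (min δ 1 / 4) * ((25 : ℝ) ^ k) ^ (min δ 1 / 4) :=
        Real.mul_rpow hH0.le (by positivity)
      have h3 : T / (D / (H * (N₁ : ℝ) ^ 2)) = T * (H * (N₁ : ℝ) ^ 2) / D := by
        rw [div_div_eq_mul_div]
      have h4 : 0 ≤ Real.sqrt (T / (D / (H * (N₁ : ℝ) ^ 2))) := Real.sqrt_nonneg _
      rw [h2] at h1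
      have h5 : 0 ≤ Ka * H ^ (min δ 1 / 4) * ((25 : ℝ) ^ k) ^ (min δ 1 / 4) := by positivity
      calc (F.card : ℝ) ≤ Ka * (H ^ (min δ 1 / 4) * ((25 : ℝ) ^ k) ^ (min δ 1 / 4)) *
            (1 + T * (H * (N₁ : ℝ) ^ 2) / D) := h1
        _ = Ka * H ^ (min δ 1 / 4) * ((25 : ℝ) ^ k) ^ (min δ 1 / 4) *
            (1 + T / (D / (H * (N₁ : ℝ) ^ 2))) := by rw [h3]; ring
        _ ≤ Ka * H ^ (min δ 1 / 4) * ((25 : ℝ) ^ k) ^ (min δ 1 / 4) *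
            (1 + Real.sqrt (T / (D / (H * (N₁ : ℝ) ^ 2))) + T / (D / (H * (N₁ : ℝ) ^ 2))) :=
              mul_le_mul_of_nonneg_left (by linarith) h5
        _ = _ := by ring)
    N j hN hj
  refine hmain.trans ?_
  have hsum := energy_circ_sum (N : ℝ) (D / (H * (N₁ : ℝ) ^ 2)) (by positivity) (by positivity) j
  have hX1 : (1 : ℝ) ≤ (5 : ℝ) ^ j * N := by
    have : (1 : ℝ) ≤ (5 : ℝ) ^ j := one_le_pow₀ (by norm_num)
    nlinarith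
  have hXd : ((5 : ℝ) ^ j * N) ^ (min δ 1) ≤ ((5 : ℝ) ^ j * N) ^ δ :=
    Real.rpow_le_rpow_of_exponent_le hX1 (min_le_left _ _)
  have hXd0 : 0 ≤ ((5 : ℝ) ^ j * N) ^ δ := by positivity
  have hXd1 : 0 ≤ ((5 : ℝ) ^ j * N) ^ (min δ 1) := by positivity
  have hHN1 : 1 ≤ H * (N₁ : ℝ) ^ 2 := by nlinarith
  have hS : 2 * ((N : ℝ) * 5 ^ j + 25 ^ j / (D / (H * (N₁ : ℝ) ^ 2))) ≤
      2 * (H * (N₁ : ℝ) ^ 2) * (25 ^ j / D + N * 5 ^ j) := by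
    have h3 : (25 : ℝ) ^ j / (D / (H * (N₁ : ℝ) ^ 2)) = (H * (N₁ : ℝ) ^ 2) * (25 ^ j / D) := by
      rw [div_div_eq_mul_div]
      ring
    rw [h3]
    have h4 : (N : ℝ) * 5 ^ j ≤ (H * (N₁ : ℝ) ^ 2) * (N * 5 ^ j) :=
      le_mul_of_one_le_left (by positivity) hHN1
    nlinarith
  have hR0 : 0 ≤ (25 : ℝ) ^ j / D + N * 5 ^ j := by positivity
  calc K * (Ka * H ^ (min δ 1 / 4)) * ((5 : ℝ) ^ j * N) ^ (min δ 1) *
        ∑ k ∈ Finset.range (j + 1), 5 ^ (j - k) * (fun _ => (1 : ℝ)) k *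
          (N + 25 ^ k / (D / (H * (N₁ : ℝ) ^ 2))) ≤
      K * (Ka * H) * ((5 : ℝ) ^ j * N) ^ δ * (2 * (H * (N₁ : ℝ) ^ 2) * (25 ^ j / D + N * 5 ^ j)) := by
        apply mul_le_mul _ (hsum.trans hS) _ (by positivity)
        · apply mul_le_mul _ hXd hXd1 (by positivity)
          apply mul_le_mul_of_nonneg_left _ hK.le
          exact mul_le_mul_of_nonneg_left hHd2 (by linarith)
        · apply Finset.sum_nonneg
          intro k _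
          positivity
    _ = (2 * K * Ka) * ((H * N₁) ^ 2 * ((5 : ℝ) ^ j * N) ^ δ * (25 ^ j / D + N * 5 ^ j)) := by ring
    _ ≤ (2 * K * Ka + 1) * ((H * N₁) ^ 2 * ((5 : ℝ) ^ j * N) ^ δ * (25 ^ j / D + N * 5 ^ j)) :=
        mul_le_mul_of_nonneg_right (by linarith) (by positivity)
    _ = _ := by ring

end Pool.Agent.H978V
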