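import Pool.Agent.H978V.NDefs
import Pool.Agent.H978V.M4b
import Pool.Agent.H978V.M4
import Pool.Agent.H978V.A6

/-!
JOB E1 (owner helper978, MP_06cce2_nt).  `H978V/*.lean` (library, with `NDefs`, `M4b`) is on origin/main.

`energy_abs2` is `energy_abs` of `H978V/M4b.lean` (PROVED; READ IT and copy its proof; its lemmas can be used) with `D'` depending on `k`: the proof treats each level `k` separately.

PROOF of `energy_gen`.  WLOG `δ ≤ 1` (`5^j N ≥ 1`).  `energy_abs2 (δ/2)` with `P = Fx t e`, `S = Sp p₀`, `A k = 5^k`, `D' k = D · 5^(k/2)`, `C₁ = 2 K_g`, `K_g` from `gen_count (δ/8)`; READ `H978V/M4.lean` (`energy_circ`), where the side conditions for `Fx t e` and `Sp` are proved (`Sp p₀ q ≤ normSq q` for `UP p₀`).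
Count: `(5^k T/D)^(2/3) = 5^k z^(2/3)` with `z = T/(D 5^(k/2))`, `z^(2/3) ≤ 1 + z`; so `K_g (25^k)^(δ/8) (5^k + 5^k (1 + z)) ≤ 2 K_g (25^k)^(δ/8) 5^k (1 + √z + z)`.
Conclusion: `∑_{k ≤ j} 5^(j-k) 5^k (N + 25^k/(D 5^(k/2))) = 5^j ∑_k (N + 5^(3k/2)/D) ≤ 5^j ((j+1) N + 2 · 5^(3j/2)/D)`, `j + 1 ≤ C_δ (5^j)^(δ/2)`.
-/

set_option autoImplicit false

open scoped Quaternion

namespace Pool.Agent.H978V

open Pool.Agent.Helper557.Rz

/-- the estimate at one level -/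
theorem energy2_level (δ : ℝ) (hδ : 0 < δ) (P : ℍ[ℤ] → Prop) (S : ℍ[ℤ] → ℝ)
    (D' C₁ : ℝ) (A : ℕ → ℝ) (k : ℕ) (hD' : 0 < D') (hC₁ : 1 ≤ C₁) (hA : ∀ k, 1 ≤ A k)
    (hSn : ∀ q, S q ≤ ((Quaternion.normSq q : ℤ) : ℝ))
    (hcount : ∀ (T : ℝ), 0 ≤ T → ∀ F : Finset ℍ[ℤ],
      (∀ q ∈ F, Quaternion.normSq q = 25 ^ k ∧ P q ∧ S q ≤ T) →
      (F.card : ℝ) ≤ C₁ * ((25 : ℝ) ^ k) ^ (δ / 4) * A k * (1 + Real.sqrt (T / D') + T / D'))
    (N : ℕ) (hN : 1 ≤ N) :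
    ∑ p ∈ QQ k, energyM_G P S N k ⟨p.1, p.2.1, p.2.2.1, p.2.2.2⟩ ≤
      (2 * (32 / (δ / 2) + 1) + 81) * C₁ * ((5 : ℝ) ^ k * N) ^ δ * (A k * (N + 25 ^ k / D')) := by
  classical
  obtain ⟨T, hT0, hNT, hT⟩ := energyM_radius N k hN
  have hNr : (1 : ℝ) ≤ N := by exact_mod_cast hN
  have h5k : (1 : ℝ) ≤ (5 : ℝ) ^ k := one_le_pow₀ (by norm_num)
  have h25 : (0 : ℝ) < 25 ^ k := by positivity
  set X : ℝ := (5 : ℝ) ^ k * N with hX
  have hX1 : 1 ≤ X := by nlinarith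
  have hX0 : 0 < X := by linarith
  set F : Finset ℍ[ℤ] := ((QQ k).filter (fun p => P (energyM_q p) ∧ S (energyM_q p) ≤ T)).image
    energyM_q with hF
  have hFc : F.card = ((QQ k).filter (fun p => P (energyM_q p) ∧ S (energyM_q p) ≤ T)).card :=
    Finset.card_image_of_injective _ energyM_q_inj
  have hFb := hcount T hT0 F (by
    intro q hq
    rw [hF, Finset.mem_image] at hq
    obtain ⟨p, hp, rfl⟩ := hq
    rw [Finset.mem_filter] at hp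
    exact ⟨energyM_normSq hp.1, hp.2⟩)
  -- pointwise bound
  have hpt : ∀ p ∈ QQ k, energyM_G P S N k ⟨p.1, p.2.1, p.2.2.1, p.2.2.2⟩ ≤
      (if P (energyM_q p) ∧ S (energyM_q p) ≤ T then (N : ℝ) else 0) + 1 / 625 ^ k := by
    intro p hp
    have hp2 : 0 ≤ (1 : ℝ) / 625 ^ k := by positivity
    have he : (⟨p.1, p.2.1, p.2.2.1, p.2.2.2⟩ : ℍ[ℤ]) = energyM_q p := rfl
    rw [he]
    unfold energyM_G
    by_cases h1 : P (energyM_q p)
    · by_cases h2 : S (energyM_q p) ≤ T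
      · rw [if_pos h1, if_pos ⟨h1, h2⟩]
        have := energyA_wt_le N (S (energyM_q p) / (4 * 25 ^ k))
        linarith
      · rw [if_pos h1, if_neg (fun h => h2 h.2), zero_add]
        apply hT _ _ (not_le.1 h2)
        have h3 := hSn (energyM_q p)
        rw [energyM_normSq hp] at h3
        push_cast at h3
        exact h3
    · rw [if_neg h1, if_neg (fun h => h1 h.1)]
      linarith
  have hsum := Finset.sum_le_sum hpt
  refine hsum.trans ?_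
  rw [Finset.sum_add_distrib, Finset.sum_const, nsmul_eq_mul, ← Finset.sum_filter,
    Finset.sum_const, nsmul_eq_mul, ← hFc]
  have hsec : ((QQ k).card : ℝ) * (1 / 625 ^ k) ≤ 81 := by
    have h1 := energyA_QQ_card k
    rw [mul_one_div, div_le_iff₀ (by positivity)]
    exact h1
  have hlogX : 0 ≤ Real.log X := Real.log_nonneg hX1
  have hlog : 32 * Real.log X + 1 ≤ (32 / (δ / 2) + 1) * X ^ (δ / 2) := by
    have h1 := Real.log_le_rpow_div hX0.le (show 0 < δ / 2 by positivity)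
    have h2 : 1 ≤ X ^ (δ / 2) := Real.one_le_rpow hX1 (by positivity)
    calc 32 * Real.log X + 1 ≤ 32 * (X ^ (δ / 2) / (δ / 2)) + X ^ (δ / 2) := by linarith
      _ = _ := by ring
  have h25X : ((25 : ℝ) ^ k) ^ (δ / 4) ≤ X ^ (δ / 2) := by
    have h1 : (25 : ℝ) ^ k = ((5 : ℝ) ^ k) ^ (2 : ℝ) := by
      rw [Real.rpow_two, ← pow_mul, mul_comm, pow_mul]
      norm_num
    rw [h1, ← Real.rpow_mul (by positivity)]
    have h2 : (2 : ℝ) * (δ / 4) = δ / 2 := by ring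
    rw [h2]
    apply Real.rpow_le_rpow (by positivity) _ (by positivity)
    rw [hX]
    nlinarith
  have hAk := hA k
  have hC0 : 0 < C₁ := by linarith
  have hA0 : 0 < A k := by linarith
  set Z : ℝ := N + 25 ^ k / D' with hZ
  have hq0 : (0 : ℝ) ≤ 25 ^ k / D' := by positivity
  have hZ1 : 1 ≤ Z := by linarith
  set x : ℝ := T / D' with hx
  have hx0 : 0 ≤ x := by positivity
  have hsq : Real.sqrt x ≤ 1 + x := by
    rw [Real.sqrt_le_left (by linarith)]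
    nlinarith
  have hNx : N * x ≤ (32 * Real.log X + 1) * (25 ^ k / D') := by
    rw [hx, ← mul_div_assoc, ← mul_div_assoc]
    exact div_le_div_of_nonneg_right hNT hD'.le
  have hcnt : N * (1 + Real.sqrt x + x) ≤ 2 * (32 * Real.log X + 1) * Z := by
    have h1 : N * (1 + Real.sqrt x + x) ≤ N * (2 + 2 * x) :=
      mul_le_mul_of_nonneg_left (by linarith) (by positivity)
    have h2 : (N : ℝ) ≤ (32 * Real.log X + 1) * N := by nlinarith
    rw [hZ]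
    nlinarith
  have hXX : X ^ (δ / 2) * X ^ (δ / 2) = X ^ δ := by
    rw [← Real.rpow_add hX0]
    congr 1
    ring
  have hXd : 1 ≤ X ^ δ := Real.one_le_rpow hX1 hδ.le
  have hXd2 : 0 ≤ X ^ (δ / 2) := by positivity
  have hfirst : (F.card : ℝ) * N ≤
      2 * (32 / (δ / 2) + 1) * C₁ * X ^ δ * (A k * Z) := by
    calc (F.card : ℝ) * N ≤
        (C₁ * ((25 : ℝ) ^ k) ^ (δ / 4) * A k * (1 + Real.sqrt x + x)) * N :=
          mul_le_mul_of_nonneg_right hFb (by positivity)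
      _ = (C₁ * ((25 : ℝ) ^ k) ^ (δ / 4) * A k) * (N * (1 + Real.sqrt x + x)) := by ring
      _ ≤ (C₁ * X ^ (δ / 2) * A k) * (2 * (32 * Real.log X + 1) * Z) := by
          apply mul_le_mul
          · apply mul_le_mul_of_nonneg_right _ hA0.le
            exact mul_le_mul_of_nonneg_left h25X hC0.le
          · exact hcnt
          · have := Real.sqrt_nonneg x
            positivity
          · positivity
      _ ≤ (C₁ * X ^ (δ / 2) * A k) * (2 * ((32 / (δ / 2) + 1) * X ^ (δ / 2)) * Z) := by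
          apply mul_le_mul_of_nonneg_left
          · apply mul_le_mul_of_nonneg_right
            · linarith
            · linarith
          · positivity
      _ = 2 * (32 / (δ / 2) + 1) * C₁ * (X ^ (δ / 2) * X ^ (δ / 2)) * (A k * Z) := by ring
      _ = 2 * (32 / (δ / 2) + 1) * C₁ * X ^ δ * (A k * Z) := by rw [hXX]
  have hone : 1 ≤ C₁ * X ^ δ * (A k * Z) := by
    have h1 : 1 ≤ A k * Z := one_le_mul_of_one_le_of_one_le hAk hZ1
    have h2 : 1 ≤ C₁ * X ^ δ := one_le_mul_of_one_le_of_one_le hC₁ hXd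
    exact one_le_mul_of_one_le_of_one_le h2 h1
  calc (F.card : ℝ) * N + ((QQ k).card : ℝ) * (1 / 625 ^ k) ≤
      2 * (32 / (δ / 2) + 1) * C₁ * X ^ δ * (A k * Z) + 81 * (C₁ * X ^ δ * (A k * Z)) := by linarith
    _ = _ := by ring

open Classical in
/-- TARGET 1 -/
theorem energy_abs2 (δ : ℝ) (hδ : 0 < δ) : ∃ K : ℝ, 0 < K ∧ ∀ (P : ℍ[ℤ] → Prop) (S : ℍ[ℤ] → ℝ)
    (D' : ℕ → ℝ) (C₁ : ℝ) (A : ℕ → ℝ), (∀ k, 0 < D' k) → 1 ≤ C₁ → (∀ k, 1 ≤ A k) → (∀ q, 0 ≤ S q) →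
    (∀ q, S q ≤ ((Quaternion.normSq q : ℤ) : ℝ)) → (∀ q, P ((5 : ℤ) • q) ↔ P q) →
    (∀ q, S ((5 : ℤ) • q) = 25 * S q) →
    (∀ (k : ℕ) (T : ℝ), 0 ≤ T → ∀ F : Finset ℍ[ℤ],
      (∀ q ∈ F, Quaternion.normSq q = 25 ^ k ∧ P q ∧ S q ≤ T) →
      (F.card : ℝ) ≤ C₁ * ((25 : ℝ) ^ k) ^ (δ / 4) * A k * (1 + Real.sqrt (T / D' k) + T / D' k)) →
    ∀ N j : ℕ, 1 ≤ N → 1 ≤ j →
    (∑ w ∈ RW j, ∑ w' ∈ RW j, if P (qw w * star (qw w')) then
        wt N (S (qw w * star (qw w')) / (4 * 25 ^ j)) else 0) ≤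
      K * C₁ * ((5 : ℝ) ^ j * N) ^ δ *
        ∑ k ∈ Finset.range (j + 1), 5 ^ (j - k) * A k * (N + 25 ^ k / D' k) := by
  refine ⟨2 * (32 / (δ / 2) + 1) + 81, by positivity, ?_⟩
  intro P S D' C₁ A hD' hC₁ hA _ hSn hP hS hcount N j hN hj
  have hNr : (1 : ℝ) ≤ N := by exact_mod_cast hN
  have h5j : (1 : ℝ) ≤ (5 : ℝ) ^ j := one_le_pow₀ (by norm_num)
  set X : ℝ := (5 : ℝ) ^ j * N with hX
  have hX1 : 1 ≤ X := by nlinarith
  have hX0 : 0 < X := by linarith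
  have hmain := pair_sum_le (energyM_G P S N) (fun l q => by
    unfold energyM_G
    split_ifs
    · exact energyA_wt_nonneg _ _
    · exact le_rfl) (energyM_five P S hP hS N) j hj
  have hG0 : energyM_G P S N 0 1 ≤ N := by
    unfold energyM_G
    split_ifs
    · exact energyA_wt_le _ _
    · positivity
  have hlhs : (∑ w ∈ RW j, ∑ w' ∈ RW j, if P (qw w * star (qw w')) then
        wt N (S (qw w * star (qw w')) / (4 * 25 ^ j)) else 0) =
      ∑ w ∈ RW j, ∑ w' ∈ RW j, energyM_G P S N j (qw w * star (qw w')) := by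
    apply Finset.sum_congr rfl
    intro w _
    apply Finset.sum_congr rfl
    intro w' _
    unfold energyM_G
    rfl
  rw [hlhs]
  refine hmain.trans ?_
  set K : ℝ := 2 * (32 / (δ / 2) + 1) + 81 with hK
  have hK2 : 2 ≤ K := by
    have : 0 < 32 / (δ / 2) := by positivity
    rw [hK]
    linarith
  have hC0 : 0 < C₁ := by linarith
  have hXd : 1 ≤ X ^ δ := Real.one_le_rpow hX1 hδ.le
  have hterm : ∀ k ∈ Finset.Icc 1 j, (5 : ℝ) ^ (j - k) *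
      ∑ p ∈ QQ k, energyM_G P S N k ⟨p.1, p.2.1, p.2.2.1, p.2.2.2⟩ ≤
      K * C₁ * X ^ δ * (5 ^ (j - k) * A k * (N + 25 ^ k / D' k)) := by
    intro k hk
    rw [Finset.mem_Icc] at hk
    have h1 := energy2_level δ hδ P S (D' k) C₁ A k (hD' k) hC₁ hA hSn (hcount k) N hN
    have h7 : (5 : ℝ) ^ k ≤ 5 ^ j := pow_le_pow_right₀ (by norm_num) hk.2
    have h8 : ((5 : ℝ) ^ k * N) ^ δ ≤ X ^ δ := by
      apply Real.rpow_le_rpow (by positivity) _ hδ.le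
      rw [hX]
      exact mul_le_mul_of_nonneg_right h7 (by positivity)
    have hA0 : 0 < A k := by linarith [hA k]
    have hDk := hD' k
    have hZ0 : (0 : ℝ) ≤ A k * (N + 25 ^ k / D' k) := by positivity
    calc (5 : ℝ) ^ (j - k) * ∑ p ∈ QQ k, energyM_G P S N k ⟨p.1, p.2.1, p.2.2.1, p.2.2.2⟩ ≤
        (5 : ℝ) ^ (j - k) * (K * C₁ * ((5 : ℝ) ^ k * N) ^ δ * (A k * (N + 25 ^ k / D' k))) :=
          mul_le_mul_of_nonneg_left h1 (by positivity)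
      _ ≤ (5 : ℝ) ^ (j - k) * (K * C₁ * X ^ δ * (A k * (N + 25 ^ k / D' k))) := by
          apply mul_le_mul_of_nonneg_left _ (by positivity)
          apply mul_le_mul_of_nonneg_right _ hZ0
          exact mul_le_mul_of_nonneg_left h8 (by positivity)
      _ = K * C₁ * X ^ δ * (5 ^ (j - k) * A k * (N + 25 ^ k / D' k)) := by ring
  have hsum := Finset.sum_le_sum hterm
  rw [← Finset.mul_sum] at hsum
  have h0 : 6 * 5 ^ (j - 1) * energyM_G P S N 0 1 ≤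
      K * C₁ * X ^ δ * (5 ^ (j - 0) * A 0 * (N + 25 ^ 0 / D' 0)) := by
    have h2 : (5 : ℝ) ^ j = 5 * 5 ^ (j - 1) := by
      rw [← pow_succ']
      congr 1
      omega
    have h3 : 6 * (5 : ℝ) ^ (j - 1) * energyM_G P S N 0 1 ≤ 6 * 5 ^ (j - 1) * N :=
      mul_le_mul_of_nonneg_left hG0 (by positivity)
    have h4 : 6 * (5 : ℝ) ^ (j - 1) * N ≤ 2 * (5 ^ j * N) := by
      rw [h2]
      have : 0 ≤ (5 : ℝ) ^ (j - 1) * N := by positivity
      nlinarith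
    have hDk := hD' 0
    have h5 : 1 / D' 0 > 0 := by positivity
    have h6 : (5 : ℝ) ^ j * N ≤ 5 ^ (j - 0) * A 0 * (N + 25 ^ 0 / D' 0) := by
      rw [Nat.sub_zero, pow_zero]
      have h7 : (5 : ℝ) ^ j * 1 ≤ 5 ^ j * A 0 := mul_le_mul_of_nonneg_left (hA 0) (by positivity)
      rw [mul_one] at h7
      have h8 : (N : ℝ) ≤ N + 1 / D' 0 := by linarith
      have h9 : 0 ≤ (5 : ℝ) ^ j * A 0 := by linarith
      exact mul_le_mul h7 h8 (by positivity) h9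
    have h10 : 2 ≤ K * C₁ * X ^ δ := by
      have h11 : 2 * 1 ≤ K * C₁ := mul_le_mul hK2 hC₁ (by norm_num) (by linarith)
      have h12 : (2 * 1) * 1 ≤ K * C₁ * X ^ δ := mul_le_mul h11 hXd (by norm_num) (by positivity)
      linarith
    have h13 : 0 ≤ (5 : ℝ) ^ j * N := by positivity
    calc 6 * (5 : ℝ) ^ (j - 1) * energyM_G P S N 0 1 ≤ 2 * (5 ^ j * N) := h3.trans h4
      _ ≤ (K * C₁ * X ^ δ) * (5 ^ j * N) := mul_le_mul_of_nonneg_right h10 h13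
      _ ≤ _ := mul_le_mul_of_nonneg_left h6 (by positivity)
  have hrange : ∑ k ∈ Finset.range (j + 1), 5 ^ (j - k) * A k * (N + 25 ^ k / D' k) =
      (5 ^ (j - 0) * A 0 * (N + 25 ^ 0 / D' 0)) +
        ∑ k ∈ Finset.Icc 1 j, 5 ^ (j - k) * A k * (N + 25 ^ k / D' k) := by
    rw [Finset.sum_range_succ', add_comm]
    congr 1
    rw [Finset.range_eq_Ico]
    have : Finset.Icc 1 j = Finset.Ico (0 + 1) (j + 1) := by
      ext a
      simp only [Finset.mem_Icc, Finset.mem_Ico]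
      omega
    rw [this, Finset.sum_Ico_add' (fun k => 5 ^ (j - k) * A k * ((N : ℝ) + 25 ^ k / D' k)) 0 j 1]
  rw [hrange, mul_add]
  exact add_le_add h0 hsum


theorem energyG_two_thirds (z : ℝ) (hz : 0 ≤ z) : z ^ (2 / 3 : ℝ) ≤ 1 + z := by
  rcases le_total z 1 with h | h
  · have h1 : z ^ (2 / 3 : ℝ) ≤ 1 := Real.rpow_le_one hz h (by norm_num)
    linarith
  · have h1 : z ^ (2 / 3 : ℝ) ≤ z ^ (1 : ℝ) := Real.rpow_le_rpow_of_exponent_le h (by norm_num)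
    rw [Real.rpow_one] at h1
    linarith

theorem energyG_scale (a y : ℝ) (ha : 0 < a) (hy : 0 ≤ y) :
    (a * y) ^ (2 / 3 : ℝ) = a * (y / a ^ (1 / 2 : ℝ)) ^ (2 / 3 : ℝ) := by
  rw [Real.mul_rpow ha.le hy, Real.div_rpow hy (by positivity), ← Real.rpow_mul ha.le]
  have h1 : (1 / 2 : ℝ) * (2 / 3) = 1 / 3 := by norm_num
  have h2 : a = a ^ (1 / 3 : ℝ) * a ^ (2 / 3 : ℝ) := by
    rw [← Real.rpow_add ha]
    norm_num
  have h3 : a ^ (1 / 3 : ℝ) ≠ 0 := (Real.rpow_pos_of_pos ha _).ne'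
  rw [h1]
  nth_rewrite 2 [h2]
  field_simp

theorem energyG_div (a : ℝ) (ha : 0 < a) (D : ℝ) (hD : 0 < D) :
    a ^ 2 / (D * a ^ (1 / 2 : ℝ)) = a ^ (3 / 2 : ℝ) / D := by
  have h2 : a ^ 2 = a ^ (3 / 2 : ℝ) * a ^ (1 / 2 : ℝ) := by
    rw [← Real.rpow_add ha, ← Real.rpow_natCast]
    norm_num
  have h3 : a ^ (1 / 2 : ℝ) ≠ 0 := (Real.rpow_pos_of_pos ha _).ne'
  rw [h2]
  field_simp

theorem energyG_geom (j : ℕ) :
    ∑ k ∈ Finset.range (j + 1), ((5 : ℝ) ^ k) ^ (3 / 2 : ℝ) ≤ 2 * ((5 : ℝ) ^ j) ^ (3 / 2 : ℝ) := by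
  induction j with
  | zero => simp
  | succ n ih =>
    rw [Finset.sum_range_succ]
    have h1 : ((5 : ℝ) ^ (n + 1)) ^ (3 / 2 : ℝ) = ((5 : ℝ) ^ n) ^ (3 / 2 : ℝ) * (5 : ℝ) ^ (3 / 2 : ℝ) := by
      rw [pow_succ, Real.mul_rpow (by positivity) (by norm_num)]
    have h2 : (5 : ℝ) ^ (1 : ℝ) ≤ (5 : ℝ) ^ (3 / 2 : ℝ) :=
      Real.rpow_le_rpow_of_exponent_le (by norm_num) (by norm_num)
    rw [Real.rpow_one] at h2
    have h3 : 0 < ((5 : ℝ) ^ n) ^ (3 / 2 : ℝ) := by positivity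
    rw [h1]
    nlinarith

theorem energyG_lin (δ : ℝ) (hδ : 0 < δ) (j : ℕ) :
    ((j : ℝ) + 1) ≤ (1 + 2 / δ) * ((5 : ℝ) ^ j) ^ (δ / 2) := by
  have hlog5 : 1 ≤ Real.log 5 := by
    rw [Real.le_log_iff_exp_le (by norm_num)]
    have := Real.exp_one_lt_d9
    linarith
  have h1 : ((5 : ℝ) ^ j) ^ (δ / 2) = Real.exp (j * (δ / 2) * Real.log 5) := by
    rw [← Real.rpow_natCast, ← Real.rpow_mul (by norm_num), Real.rpow_def_of_pos (by norm_num)]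
    congr 1
    ring
  have h2 := Real.add_one_le_exp (j * (δ / 2) * Real.log 5)
  have hj : (0 : ℝ) ≤ j := Nat.cast_nonneg _
  have h3 : (j : ℝ) * (δ / 2) ≤ j * (δ / 2) * Real.log 5 :=
    le_mul_of_one_le_right (by positivity) hlog5
  rw [h1]
  have h4 : (1 + 2 / δ) * (j * (δ / 2) + 1) ≤ (1 + 2 / δ) * Real.exp (j * (δ / 2) * Real.log 5) :=
    mul_le_mul_of_nonneg_left (by linarith) (by positivity)
  refine le_trans ?_ h4
  have h5 : (1 + 2 / δ) * (j * (δ / 2) + 1) = j + 1 + (j * (δ / 2) + 2 / δ) := by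
    field_simp
    ring
  rw [h5]
  have : 0 ≤ (j : ℝ) * (δ / 2) + 2 / δ := by positivity
  linarith

theorem energyG_sum (N D : ℝ) (hN : 0 ≤ N) (hD : 0 < D) (j : ℕ) :
    ∑ k ∈ Finset.range (j + 1), (5 : ℝ) ^ (j - k) * 5 ^ k *
        (N + 25 ^ k / (D * ((5 : ℝ) ^ k) ^ (1 / 2 : ℝ))) ≤
      2 * ((j : ℝ) + 1) * (5 ^ j * (N + ((5 : ℝ) ^ j) ^ (3 / 2 : ℝ) / D)) := by
  have h1 : ∀ k ∈ Finset.range (j + 1), (5 : ℝ) ^ (j - k) * 5 ^ k *
        (N + 25 ^ k / (D * ((5 : ℝ) ^ k) ^ (1 / 2 : ℝ))) =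
      5 ^ j * N + 5 ^ j / D * ((5 : ℝ) ^ k) ^ (3 / 2 : ℝ) := by
    intro k hk
    have hk' : k ≤ j := Nat.lt_succ_iff.1 (Finset.mem_range.1 hk)
    have e1 : (5 : ℝ) ^ (j - k) * 5 ^ k = 5 ^ j := by rw [← pow_add, Nat.sub_add_cancel hk']
    have e2 : (25 : ℝ) ^ k = (5 ^ k) ^ 2 := by
      rw [← pow_mul, mul_comm, pow_mul]
      norm_num
    rw [e1, e2, energyG_div _ (by positivity) D hD]
    ring
  rw [Finset.sum_congr rfl h1, Finset.sum_add_distrib, Finset.sum_const, Finset.card_range,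
    nsmul_eq_mul, ← Finset.mul_sum]
  have h2 := mul_le_mul_of_nonneg_left (energyG_geom j) (show (0 : ℝ) ≤ 5 ^ j / D by positivity)
  have h3 : (0 : ℝ) ≤ j := Nat.cast_nonneg _
  have h4 : (0 : ℝ) ≤ 5 ^ j / D * ((5 : ℝ) ^ j) ^ (3 / 2 : ℝ) := by positivity
  have h5 : (0 : ℝ) ≤ 5 ^ j * N := by positivity
  push_cast
  calc ((j : ℝ) + 1) * (5 ^ j * N) + 5 ^ j / D * ∑ k ∈ Finset.range (j + 1), ((5 : ℝ) ^ k) ^ (3 / 2 : ℝ) ≤
      ((j : ℝ) + 1) * (5 ^ j * N) + 5 ^ j / D * (2 * ((5 : ℝ) ^ j) ^ (3 / 2 : ℝ)) := by linarith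
    _ ≤ 2 * ((j : ℝ) + 1) * (5 ^ j * N) + 2 * ((j : ℝ) + 1) * (5 ^ j / D * ((5 : ℝ) ^ j) ^ (3 / 2 : ℝ)) := by
        nlinarith
    _ = _ := by ring

theorem energyG_UP {p : ℍ[ℝ]} (h : UP p) : p.imI ^ 2 + p.imJ ^ 2 + p.imK ^ 2 = 1 := by
  have h1 := Quaternion.normSq_eq_norm_mul_self p
  rw [h.2, Quaternion.normSq_def', h.1] at h1
  linarith

open Classical in
/-- TARGET 2 -/
theorem energy_gen (δ : ℝ) (hδ : 0 < δ) : ∃ K : ℝ, 1 ≤ K ∧ ∀ (D : ℕ) [NeZero D], Odd D →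
    Nat.Coprime D 5 → ∀ t : ZMod D × ZMod D, Q.Sq t → ∀ e : Vec D, Uni e → ∀ p₀ : ℍ[ℝ], UP p₀ →
    ∀ N j : ℕ, 1 ≤ N → 1 ≤ j →
    (∑ w ∈ RW j, ∑ w' ∈ RW j, if Fx t e (qw w * star (qw w')) then
        wt N (Sp p₀ (qw w * star (qw w')) / (4 * 25 ^ j)) else 0) ≤
      K * ((5 : ℝ) ^ j * N) ^ δ * (5 ^ j * (N + ((5 : ℝ) ^ j) ^ (3 / 2 : ℝ) / D)) := by
  have hδ1 : 0 < min δ 1 := lt_min hδ one_pos
  obtain ⟨K, hK, hE⟩ := energy_abs2 (min δ 1 / 2) (by positivity)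
  obtain ⟨Kg, hKg, hC⟩ := gen_count (min δ 1 / 8) (by positivity)
  have hcst : 0 < 1 + 2 / min δ 1 := by positivity
  have hKg0 : 0 < Kg := by linarith
  refine ⟨4 * K * Kg * (1 + 2 / min δ 1) + 1, by
    have : 0 ≤ 4 * K * Kg * (1 + 2 / min δ 1) := by positivity
    linarith, ?_⟩
  intro D _ hD hD5 t ht e he p₀ hp N j hN hj
  have hDpos : (0 : ℝ) < D := by exact_mod_cast Nat.pos_of_ne_zero (NeZero.ne D)
  have hNr : (1 : ℝ) ≤ N := by exact_mod_cast hN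
  have hmain := hE (Fx t e) (Sp p₀) (fun k => D * ((5 : ℝ) ^ k) ^ (1 / 2 : ℝ)) (2 * Kg)
    (fun k => (5 : ℝ) ^ k)
    (fun k => by positivity) (by linarith) (fun k => one_le_pow₀ (by norm_num))
    (fun q => by unfold Sp; positivity)
    (energy_circ_Sp_le (energyG_UP hp)) (energy_circ_smul hD5 t e)
    (fun q => by
      unfold Sp
      rw [energy_circ_imI, energy_circ_imJ, energy_circ_imK]
      push_cast
      ring)
    (by
      intro k T hT F hF'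
      have h1 := hC D hD t ht e he p₀ hp k T hT F hF'
      have e1 : min δ 1 / 2 / 4 = min δ 1 / 8 := by ring
      rw [e1]
      have h5 : (0 : ℝ) < 5 ^ k := by positivity
      set z : ℝ := T / (D * ((5 : ℝ) ^ k) ^ (1 / 2 : ℝ)) with hz
      have hz0 : 0 ≤ z := by positivity
      have h2 : (5 ^ k * T / D : ℝ) ^ (2 / 3 : ℝ) = 5 ^ k * z ^ (2 / 3 : ℝ) := by
        have h3 := energyG_scale ((5 : ℝ) ^ k) (T / D) h5 (by positivity)
        rw [← mul_div_assoc, div_div] at h3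
        exact h3
      have h4 := energyG_two_thirds z hz0
      have h6 : 0 ≤ Real.sqrt z := Real.sqrt_nonneg z
      rw [h2] at h1
      have h7 : 0 ≤ Kg * ((25 : ℝ) ^ k) ^ (min δ 1 / 8) := by positivity
      calc (F.card : ℝ) ≤ Kg * ((25 : ℝ) ^ k) ^ (min δ 1 / 8) * (5 ^ k + 5 ^ k * z ^ (2 / 3 : ℝ)) := h1
        _ ≤ Kg * ((25 : ℝ) ^ k) ^ (min δ 1 / 8) * (2 * (5 ^ k * (1 + Real.sqrt z + z))) := by
            apply mul_le_mul_of_nonneg_left _ h7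
            nlinarith
        _ = _ := by ring)
    N j hN hj
  refine hmain.trans ?_
  have hsum := energyG_sum (N : ℝ) D (by positivity) hDpos j
  have h5j : (1 : ℝ) ≤ (5 : ℝ) ^ j := one_le_pow₀ (by norm_num)
  have hX1 : (1 : ℝ) ≤ (5 : ℝ) ^ j * N := by nlinarith
  have hX0 : (0 : ℝ) < (5 : ℝ) ^ j * N := by linarith
  have hlin := energyG_lin (min δ 1) hδ1 j
  have h5X : ((5 : ℝ) ^ j) ^ (min δ 1 / 2) ≤ ((5 : ℝ) ^ j * N) ^ (min δ 1 / 2) :=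
    Real.rpow_le_rpow (by positivity) (le_mul_of_one_le_right (by positivity) hNr) (by positivity)
  have hXX : ((5 : ℝ) ^ j * N) ^ (min δ 1 / 2) * ((5 : ℝ) ^ j * N) ^ (min δ 1 / 2) =
      ((5 : ℝ) ^ j * N) ^ (min δ 1) := by
    rw [← Real.rpow_add hX0]
    congr 1
    ring
  have hXd : ((5 : ℝ) ^ j * N) ^ (min δ 1) ≤ ((5 : ℝ) ^ j * N) ^ δ :=
    Real.rpow_le_rpow_of_exponent_le hX1 (min_le_left _ _)
  have hXd0 : 0 ≤ ((5 : ℝ) ^ j * N) ^ δ := by positivity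
  set Y : ℝ := 5 ^ j * (N + ((5 : ℝ) ^ j) ^ (3 / 2 : ℝ) / D) with hY
  have hY0 : 0 ≤ Y := by positivity
  have hXh : 0 ≤ ((5 : ℝ) ^ j * N) ^ (min δ 1 / 2) := by positivity
  calc K * (2 * Kg) * ((5 : ℝ) ^ j * N) ^ (min δ 1 / 2) *
        ∑ k ∈ Finset.range (j + 1), 5 ^ (j - k) * (fun k => (5 : ℝ) ^ k) k *
          (N + 25 ^ k / (fun k => D * ((5 : ℝ) ^ k) ^ (1 / 2 : ℝ)) k) ≤
      K * (2 * Kg) * ((5 : ℝ) ^ j * N) ^ (min δ 1 / 2) * (2 * ((j : ℝ) + 1) * Y) :=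
        mul_le_mul_of_nonneg_left hsum (by positivity)
    _ ≤ K * (2 * Kg) * ((5 : ℝ) ^ j * N) ^ (min δ 1 / 2) *
        (2 * ((1 + 2 / min δ 1) * ((5 : ℝ) ^ j * N) ^ (min δ 1 / 2)) * Y) := by
        apply mul_le_mul_of_nonneg_left _ (by positivity)
        apply mul_le_mul_of_nonneg_right _ hY0
        have h8 := mul_le_mul_of_nonneg_left h5X hcst.le
        linarith
    _ = 4 * K * Kg * (1 + 2 / min δ 1) *
        (((5 : ℝ) ^ j * N) ^ (min δ 1 / 2) * ((5 : ℝ) ^ j * N) ^ (min δ 1 / 2)) * Y := by ring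
    _ = 4 * K * Kg * (1 + 2 / min δ 1) * (((5 : ℝ) ^ j * N) ^ (min δ 1)) * Y := by rw [hXX]
    _ ≤ 4 * K * Kg * (1 + 2 / min δ 1) * (((5 : ℝ) ^ j * N) ^ δ) * Y := by
        apply mul_le_mul_of_nonneg_right _ hY0
        exact mul_le_mul_of_nonneg_left hXd (by positivity)
    _ ≤ (4 * K * Kg * (1 + 2 / min δ 1) + 1) * (((5 : ℝ) ^ j * N) ^ δ) * Y := by
        apply mul_le_mul_of_nonneg_right _ hY0
        exact mul_le_mul_of_nonneg_right (by linarith) hXd0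

end Pool.Agent.H978V
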