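import Pool.Agent.Helper557.Rz.M_psd

/-!
The difference of two kernels `kk` is a finite sum of squares of continuous features.
-/

set_option autoImplicit false

open MeasureTheory Set

namespace Pool.Agent.H978V

open Pool.Agent.Helper557.Rz

theorem feat_cont {X : Type} [TopologicalSpace X] (v w : X → Fin 4 → ℝ)
    (hv : ∀ a, Continuous fun x => v x a) (hw : ∀ a, Continuous fun x => w x a) (M : ℕ) :
    ∃ (ι : Type) (_ : Fintype ι) (p q : X → ι → ℝ),
      (∀ k, Continuous fun x => p x k) ∧ (∀ k, Continuous fun x => q x k) ∧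
      (∀ x y, ∑ k, p x k * p y k = (∑ a, v x a * v y a) ^ (M + 1)) ∧
      (∀ x y, ∑ k, q x k * p y k = (M + 1) * (∑ a, w x a * v y a) * (∑ a, v x a * v y a) ^ M) ∧
      (∀ x y, ∑ k, q x k * q y k = (M + 1) * (∑ a, w x a * w y a) * (∑ a, v x a * v y a) ^ M
        + (M + 1) * M * (∑ a, w x a * v y a) * (∑ a, v x a * w y a) *
          (∑ a, v x a * v y a) ^ (M - 1)) := by
  induction M with
  | zero =>
    refine ⟨Fin 4, inferInstance, v, w, hv, hw, ?_, ?_, ?_⟩
    · intro x y; simp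
    · intro x y; simp
    · intro x y; simp
  | succ M ih =>
    obtain ⟨ι, hι, p, q, cp, cq, h1, h2, h3⟩ := ih
    have hprod : ∀ (f g : ι → ℝ) (s t : Fin 4 → ℝ),
        ∑ k : ι × Fin 4, (f k.1 * s k.2) * (g k.1 * t k.2) = (∑ k, f k * g k) * (∑ a, s a * t a) := by
      intro f g s t
      rw [Finset.sum_mul_sum, Fintype.sum_prod_type]
      refine Finset.sum_congr rfl fun k _ => Finset.sum_congr rfl fun a _ => ?_
      ring
    have h2' : ∀ x y, ∑ k, p x k * q y k = (M + 1) * (∑ a, v x a * w y a) * (∑ a, v x a * v y a) ^ M := by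
      intro x y
      have h4 := h2 y x
      have e1 : ∑ k, q y k * p x k = ∑ k, p x k * q y k := Finset.sum_congr rfl fun k _ => mul_comm _ _
      have e2 : ∑ a, w y a * v x a = ∑ a, v x a * w y a := Finset.sum_congr rfl fun k _ => mul_comm _ _
      have e3 : ∑ a, v y a * v x a = ∑ a, v x a * v y a := Finset.sum_congr rfl fun k _ => mul_comm _ _
      rw [e1, e2, e3] at h4
      exact h4
    refine ⟨ι × Fin 4, inferInstance, fun x k => p x k.1 * v x k.2,
      fun x k => q x k.1 * v x k.2 + p x k.1 * w x k.2, ?_, ?_, ?_, ?_, ?_⟩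
    · intro k
      exact (cp k.1).mul (hv k.2)
    · intro k
      exact ((cq k.1).mul (hv k.2)).add ((cp k.1).mul (hw k.2))
    · intro x y
      rw [hprod, h1]
      ring
    · intro x y
      simp only [add_mul, Finset.sum_add_distrib]
      rw [hprod, hprod, h1, h2]
      push_cast
      ring
    · intro x y
      simp only [add_mul, mul_add, Finset.sum_add_distrib]
      rw [hprod, hprod, hprod, hprod, h1, h2, h3, h2']
      push_cast
      rcases M with _ | M
      · simp
        ring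
      · simp only [Nat.add_sub_cancel]
        push_cast
        ring

theorem coord_cont (i : Fin 3) : Continuous fun z : S 3 => z.1 i := by
  fun_prop

/-- one step -/
theorem step_feat (M : ℕ) : ∃ (J : Type) (_ : Fintype J) (q : J → C(S 3, ℝ)),
    ∀ x y : S 3, kk (M + 2) x y - kk (M + 1) x y = ∑ j, q j x * q j y := by
  let v : S 3 → Fin 4 → ℝ := fun z => ![1, z.1 0, z.1 1, z.1 2]
  let w0 : S 3 → Fin 4 → ℝ := fun z => ![0, 0, - z.1 2, z.1 1]
  let w1 : S 3 → Fin 4 → ℝ := fun z => ![0, z.1 2, 0, - z.1 0]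
  let w2 : S 3 → Fin 4 → ℝ := fun z => ![0, - z.1 1, z.1 0, 0]
  have c0 := coord_cont 0
  have c1 := coord_cont 1
  have c2 := coord_cont 2
  have hv : ∀ a, Continuous fun x => v x a := by
    intro a; fin_cases a
    · exact continuous_const
    · exact c0
    · exact c1
    · exact c2
  have hw0 : ∀ a, Continuous fun x => w0 x a := by
    intro a; fin_cases a
    · exact continuous_const
    · exact continuous_const
    · exact c2.neg
    · exact c1
  have hw1 : ∀ a, Continuous fun x => w1 x a := by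
    intro a; fin_cases a
    · exact continuous_const
    · exact c2
    · exact continuous_const
    · exact c0.neg
  have hw2 : ∀ a, Continuous fun x => w2 x a := by
    intro a; fin_cases a
    · exact continuous_const
    · exact c1.neg
    · exact c0
    · exact continuous_const
  obtain ⟨ι0, i0, p0, q0, -, d0, -, -, h0⟩ := feat_cont v w0 hv hw0 M
  obtain ⟨ι1, i1, p1, q1, -, d1, -, -, h1⟩ := feat_cont v w1 hv hw1 M
  obtain ⟨ι2, i2, p2, q2, -, d2, -, -, h2⟩ := feat_cont v w2 hv hw2 M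
  have key : ∀ y z : S 3, ∑ k, q0 y k * q0 z k + ∑ k, q1 y k * q1 z k + ∑ k, q2 y k * q2 z k
      = (M + 1) * 2 ^ (M + 1) * (kk (M + 2) y z - kk (M + 1) y z) := by
    intro y z
    rw [h0, h1, h2]
    unfold kk
    rw [u_eq_9335]
    have hy := unit_9335 y
    have hz := unit_9335 z
    simp only [v, w0, w1, w2, Fin.sum_univ_four]
    simp only [Matrix.cons_val_zero, Matrix.cons_val_one, Matrix.cons_val, mul_zero, zero_mul,
      zero_add, add_zero, one_mul, mul_one]
    generalize y.1 0 = y0 at *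
    generalize y.1 1 = y1 at *
    generalize y.1 2 = y2 at *
    generalize z.1 0 = z0 at *
    generalize z.1 1 = z1 at *
    generalize z.1 2 = z2 at *
    have e0 : (1 + y0 * z0 + y1 * z1 + y2 * z2) = 1 + (y0 * z0 + y1 * z1 + y2 * z2) := by ring
    have hS : (-y2 * z1 + y1 * z2) * (y1 * -z2 + y2 * z1) + (y2 * z0 + -y0 * z2) * (y0 * z2 + y2 * -z0)
        + (-y1 * z0 + y0 * z1) * (y0 * -z1 + y1 * z0) =
        (y0 * z0 + y1 * z1 + y2 * z2) ^ 2 - (y0 * y0 + y1 * y1 + y2 * y2) * (z0 * z0 + z1 * z1 + z2 * z2) := by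
      ring
    rw [hy, hz] at hS
    rw [e0]
    have hT : (-y2 * -z2 + y1 * z1) + (y2 * z2 + -y0 * -z0) + (-y1 * -z1 + y0 * z0) =
        2 * (y0 * z0 + y1 * z1 + y2 * z2) := by ring
    generalize y0 * z0 + y1 * z1 + y2 * z2 = t at *
    have e3 : (M : ℝ) + 1 ≠ 0 := by positivity
    rcases M with _ | M
    · simp only [Nat.cast_zero, zero_add, mul_zero, zero_mul, add_zero, pow_zero, mul_one, one_mul]
      norm_num
      linear_combination hT
    · simp only [Nat.add_sub_cancel, div_pow]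
      have e4 : M + 1 + 2 - 1 = M + 2 := by omega
      rw [e4]
      push_cast
      have h2 : (2:ℝ) ^ M ≠ 0 := by positivity
      have hR : ((M:ℝ) + 1 + 1) * 2 ^ (M + 1 + 1) * (((M:ℝ) + 1 + 2) * ((1 + t) ^ (M + 2) / 2 ^ (M + 2)) -
          ((M:ℝ) + 1 + 1) * ((1 + t) ^ (M + 1) / 2 ^ (M + 1))) =
          ((M:ℝ) + 2) * (((M:ℝ) + 3) * (1 + t) ^ (M + 2) - 2 * ((M:ℝ) + 2) * (1 + t) ^ (M + 1)) := by
        have e5 : (2:ℝ) ^ (M + 2) = 2 ^ M * 4 := by ring
        have e6 : (2:ℝ) ^ (M + 1) = 2 ^ M * 2 := by ring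
        have e7 : (2:ℝ) ^ (M + 1 + 1) = 2 ^ M * 4 := by ring
        rw [e5, e6]
        field_simp
        ring
      rw [hR]
      linear_combination (1 + t) * (((M:ℝ) + 1 + 1)) * (1 + t) ^ M * hT + ((M:ℝ) + 1 + 1) * ((M:ℝ) + 1) * (1 + t) ^ M * hS
  have hpos : (0 : ℝ) < (M + 1) * 2 ^ (M + 1) := by positivity
  set C : ℝ := (M + 1) * 2 ^ (M + 1) with hC
  set s : ℝ := Real.sqrt C⁻¹ with hs
  have hss : s * s = C⁻¹ := Real.mul_self_sqrt (inv_nonneg.2 hpos.le)
  have hCne : C ≠ 0 := hpos.ne'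
  refine ⟨(ι0 ⊕ ι1) ⊕ ι2, inferInstance, Sum.elim (Sum.elim
    (fun k => ⟨fun x => s * q0 x k, (continuous_const.mul (d0 k))⟩)
    (fun k => ⟨fun x => s * q1 x k, (continuous_const.mul (d1 k))⟩))
    (fun k => ⟨fun x => s * q2 x k, (continuous_const.mul (d2 k))⟩), ?_⟩
  intro x y
  rw [Fintype.sum_sum_type, Fintype.sum_sum_type]
  simp only [Sum.elim_inl, Sum.elim_inr, ContinuousMap.coe_mk]
  have e : ∀ a b : ℝ, s * a * (s * b) = C⁻¹ * (a * b) := by
    intro a b; rw [← hss]; ring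
  simp only [e]
  rw [← Finset.mul_sum, ← Finset.mul_sum, ← Finset.mul_sum, ← mul_add, ← mul_add, key]
  field_simp

/-- TARGET -/
theorem kk_feat (N N' : ℕ) (hN : 1 ≤ N) (h : N ≤ N') : ∃ (J : Type) (_ : Fintype J) (q : J → C(S 3, ℝ)),
    ∀ x y : S 3, kk N' x y - kk N x y = ∑ j, q j x * q j y := by
  induction N', h using Nat.le_induction with
  | base => exact ⟨Empty, inferInstance, fun j => j.elim, fun x y => by simp⟩
  | succ N' hN' ih =>
    obtain ⟨J, _, q, hq⟩ := ih
    obtain ⟨M, rfl⟩ : ∃ M, N' = M + 1 := ⟨N' - 1, by omega⟩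
    obtain ⟨J', _, q', hq'⟩ := step_feat M
    refine ⟨J ⊕ J', inferInstance, Sum.elim q q', fun x y => ?_⟩
    rw [Fintype.sum_sum_type]
    simp only [Sum.elim_inl, Sum.elim_inr]
    rw [← hq, ← hq']
    ring

end Pool.Agent.H978V
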