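import Pool.Agent.H978V.Defs

/-!
JOB G1 (owner helper978, MP_06cce2_nt).  `Pool/Agent/H978V/{Ar,Defs}.lean` are on origin/main (they import the starting file
`Helper557/Rz/Defs.lean`).  This job only uses `Vec, Uni, red, AdmR, NewR` (finite combinatorics over `ZMod e`).

Let `h, k : Vec e → ℝ` be supported on unimodular vectors, invariant under units, new.  Then
`∑_{g ∈ GL₂(Z/e)} (∑_u h(g u) k(u))² ≤ e² φ(e) τ(e) |h|² |k|²`.   (Equality version checked by computer for e = 3,5,6,9: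
LHS = |G| ∑_{c∣e} μ(e/c)² φ(e)² / |R_c| · |h|²|k|².)

PROOF.  LHS `= ∑_{u,u'} k(u) k(u') K(u,u')`, `K(u,u') = ∑_g h(g u) h(g u')`, over unimodular `u, u'`.
Put `c(u,u') = gcd(det(u,u'), e)`, `R_c = {(u,u') unimodular : c(u,u') = c}`.
(a) For `(u₁,u₁'), (u₂,u₂') ∈ R_c` there are `g ∈ G` and a unit `α` with `g u₁ = u₂`, `g u₁' = α u₂'`.  [Complete `u_i` to a matrix of
determinant one, so wlog `u₁ = u₂ = e₁`, `u_i' = (s_i, t_i)`, `t_i = c · unit` (every `t ∈ Z/e` is `gcd(t,e)` times a unit: lift a unit of `Z/(e/c)`),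
`s_i` unit mod `c` because `(s_i,t_i)` is unimodular; choose a unit `α` of `Z/e` with `α s₂ ≡ s₁ mod c` (units lift, `ZMod.unitsMap_surjective`),
`x` with `x t₁ = α s₂ - s₁`, unit `y` with `y t₁ = α t₂`; `g = [[1,x],[0,y]]`.]  Hence, `h` being unit invariant, `K = κ_c` is constant on `R_c`.
(b) `S_c(h) := ∑_{R_c} h(u)h(u')`.  For `c ∣ e`: `∑_{u,u' : c ∣ det(u,u')} h(u) h(u')` is `0` if `c ≠ e` and `φ(e)|h|²` if `c = e`: for unimodular `u,u'`,
`c ∣ det(u,u')` iff `red u' = σ • red u` for a (unique) unit `σ` of `Z/c`; for each `u, σ` the sum over the fibre `{u' : red u' = σ red u}` is zero by newness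
when `c ≠ e`; when `c = e` it is `h(σ u) = h(u)`.  Moebius inversion over the divisors: `S_c(h) = μ(e/c) φ(e) |h|²`.
(`1[gcd(t,e) = c] = ∑_{c ∣ c' ∣ e, c' ∣ t} μ(c'/c)`.)  Only `|S_c(h)| ≤ φ(e)|h|²` is needed.
(c) `κ_c |R_c| = ∑_g ∑_{R_c} h(gu)h(gu') = |G| S_c(h)`.  So LHS `= ∑_c κ_c S_c(k) = ∑_c |G| S_c(h) S_c(k)/|R_c|`.
(d) `|G| φ(e) ≤ e² |R_c|`: `G × units` acts transitively on `R_c` (nonempty: `(e₁,(1,c))`), `(g,α)·(u,u') = (g u, α⁻¹ g u')`, and the stabiliser of
`(e₁, (s,t))` has at most `e c ≤ e²` elements: `g = [[1,x],[0,y]]`, `s + x t = α s`, `y t = α t`: so `α ≡ 1 mod c` (at most `e/c` values), for given `α`, `y` has at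
most `c` values (mod e/c determined), `x` at most `c` values.
So LHS `≤ ∑_{c ∣ e} (e²/φ(e)) φ(e)² |h|²|k|² = e² φ(e) τ(e) |h|²|k|²`.
-/

set_option autoImplicit false

namespace Pool.Agent.H978V

section Gen

variable {R : Type*} [CommRing R]

/-- the determinant of two vectors -/
def finlem_dt (u v : Fin 2 → R) : R := u 0 * v 1 - u 1 * v 0

theorem finlem_dt_mulVec (M : Matrix (Fin 2) (Fin 2) R) (u v : Fin 2 → R) :
    finlem_dt (M.mulVec u) (M.mulVec v) = M.det * finlem_dt u v := by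
  simp only [finlem_dt, Matrix.mulVec, dotProduct, Fin.sum_univ_two, Matrix.det_fin_two]
  ring

theorem finlem_dt_smul (a : R) (u v : Fin 2 → R) : finlem_dt u (a • v) = a * finlem_dt u v := by
  simp only [finlem_dt, Pi.smul_apply, smul_eq_mul]
  ring

theorem finlem_uni_mulVec (g : (Matrix (Fin 2) (Fin 2) R)ˣ) {u : Fin 2 → R}
    (hu : IsCoprime (u 0) (u 1)) :
    IsCoprime ((g : Matrix (Fin 2) (Fin 2) R).mulVec u 0)
      ((g : Matrix (Fin 2) (Fin 2) R).mulVec u 1) := by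
  obtain ⟨p, q, h⟩ := hu
  set w : Fin 2 → R := Matrix.vecMul ![p, q] ((g⁻¹ : (Matrix (Fin 2) (Fin 2) R)ˣ) :
    Matrix (Fin 2) (Fin 2) R) with hw
  refine ⟨w 0, w 1, ?_⟩
  have h1 : w 0 * (g : Matrix (Fin 2) (Fin 2) R).mulVec u 0 +
      w 1 * (g : Matrix (Fin 2) (Fin 2) R).mulVec u 1 =
      dotProduct w ((g : Matrix (Fin 2) (Fin 2) R).mulVec u) := by
    simp [dotProduct, Fin.sum_univ_two]
  rw [h1, hw, ← Matrix.dotProduct_mulVec, Matrix.mulVec_mulVec, ← Units.val_mul, inv_mul_cancel,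
    Units.val_one, Matrix.one_mulVec]
  simp [dotProduct, Fin.sum_univ_two, h]

theorem finlem_uni_smul (a : Rˣ) {u : Fin 2 → R} (hu : IsCoprime (u 0) (u 1)) :
    IsCoprime (((a : R) • u) 0) (((a : R) • u) 1) := by
  obtain ⟨p, q, h⟩ := hu
  refine ⟨p * (a⁻¹ : Rˣ), q * (a⁻¹ : Rˣ), ?_⟩
  have h1 : ((a⁻¹ : Rˣ) : R) * (a : R) = 1 := a.inv_mul
  simp only [Pi.smul_apply, smul_eq_mul]
  linear_combination (p * u 0 + q * u 1) * h1 + h

theorem finlem_prop {w w' : Fin 2 → R} (hw : IsCoprime (w 0) (w 1))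
    (hw' : IsCoprime (w' 0) (w' 1)) (h : finlem_dt w w' = 0) : ∃ a : Rˣ, w' = (a : R) • w := by
  obtain ⟨p, q, h1⟩ := hw
  obtain ⟨p', q', h2⟩ := hw'
  unfold finlem_dt at h
  have e0 : w' 0 = (p * w' 0 + q * w' 1) * w 0 := by
    linear_combination (-w' 0) * h1 + (-q) * h
  have e1 : w' 1 = (p * w' 0 + q * w' 1) * w 1 := by
    linear_combination (-w' 1) * h1 + p * h
  have h3 : (p * w' 0 + q * w' 1) * (p' * w 0 + q' * w 1) = 1 := by
    linear_combination h2 - p' * e0 - q' * e1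
  refine ⟨⟨p * w' 0 + q * w' 1, p' * w 0 + q' * w 1, h3, by rw [mul_comm]; exact h3⟩, ?_⟩
  funext i
  fin_cases i
  · exact e0
  · exact e1

theorem finlem_inj {w : Fin 2 → R} (hw : IsCoprime (w 0) (w 1)) {a b : R} (h : a • w = b • w) :
    a = b := by
  obtain ⟨p, q, h1⟩ := hw
  have h0 := congrFun h 0
  have h2 := congrFun h 1
  simp only [Pi.smul_apply, smul_eq_mul] at h0 h2
  linear_combination (-a + b) * h1 + p * h0 + q * h2

end Gen

section Cls

variable {e : ℕ} [NeZero e]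

/-- the class of an element of `ZMod e`: its greatest common divisor with `e` -/
def finlem_cls (t : ZMod e) : ℕ := Nat.gcd t.val e

omit [NeZero e] in
theorem finlem_cls_dvd (t : ZMod e) : finlem_cls t ∣ e := Nat.gcd_dvd_right _ _

theorem finlem_cast_iff {c : ℕ} (h : c ∣ e) (t : ZMod e) :
    ZMod.castHom h (ZMod c) t = 0 ↔ c ∣ finlem_cls t := by
  have h1 : ZMod.castHom h (ZMod c) t = ((t.val : ℕ) : ZMod c) := by
    conv_lhs => rw [← ZMod.natCast_zmod_val t]
    rw [map_natCast]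
  rw [h1, ZMod.natCast_eq_zero_iff, finlem_cls, Nat.dvd_gcd_iff]
  exact ⟨fun h2 => ⟨h2, h⟩, fun h2 => h2.1⟩

theorem finlem_cls_unit {a : ZMod e} (ha : IsUnit a) (t : ZMod e) :
    finlem_cls (a * t) = finlem_cls t := by
  have key : ∀ c, c ∣ e → (c ∣ finlem_cls (a * t) ↔ c ∣ finlem_cls t) := by
    intro c hc
    rw [← finlem_cast_iff hc, ← finlem_cast_iff hc, map_mul]
    exact (ha.map (ZMod.castHom hc (ZMod c))).mul_right_eq_zero
  exact Nat.dvd_antisymm ((key _ (finlem_cls_dvd _)).1 dvd_rfl)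
    ((key _ (finlem_cls_dvd _)).2 dvd_rfl)

theorem finlem_cls_spec (t : ZMod e) : ∃ a : (ZMod e)ˣ, t = (a : ZMod e) * (finlem_cls t : ℕ) := by
  obtain ⟨d, hd, a, ha, rfl⟩ := ZMod.eq_unit_mul_divisor t
  obtain ⟨a, rfl⟩ := ha
  refine ⟨a, ?_⟩
  have h1 : finlem_cls ((a : ZMod e) * ((d : ℕ) : ZMod e)) = d := by
    rw [finlem_cls_unit a.isUnit]
    have key : ∀ c, c ∣ e → (c ∣ finlem_cls ((d : ℕ) : ZMod e) ↔ c ∣ d) := by
      intro c hc
      rw [← finlem_cast_iff hc, map_natCast, ZMod.natCast_eq_zero_iff]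
    exact Nat.dvd_antisymm ((key _ (finlem_cls_dvd _)).1 dvd_rfl) ((key _ hd).2 dvd_rfl)
  rw [h1]

theorem finlem_sr {s t : ZMod e} (h : IsCoprime s t) : ∃ x, IsUnit (s + x * t) := by
  obtain ⟨p, q, h1⟩ := h
  obtain ⟨a, ha⟩ := finlem_cls_spec t
  set d := finlem_cls t with hd
  have hde : d ∣ e := finlem_cls_dvd t
  have ht0 : ZMod.castHom hde (ZMod d) t = 0 := (finlem_cast_iff hde t).2 dvd_rfl
  have h2 : ZMod.castHom hde (ZMod d) p * ZMod.castHom hde (ZMod d) s = 1 := by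
    have := congrArg (ZMod.castHom hde (ZMod d)) h1
    rw [map_add, map_mul, map_mul, ht0, mul_zero, add_zero, map_one] at this
    exact this
  obtain ⟨b, hb⟩ := ZMod.unitsMap_surjective hde
    ⟨ZMod.castHom hde (ZMod d) s, ZMod.castHom hde (ZMod d) p, by rw [mul_comm]; exact h2, h2⟩
  have hb' : ZMod.castHom hde (ZMod d) (b : ZMod e) = ZMod.castHom hde (ZMod d) s := by
    have := congrArg Units.val hb
    exact this
  have h3 : ZMod.castHom hde (ZMod d) ((b : ZMod e) - s) = 0 := by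
    rw [map_sub, hb', sub_self]
  rw [finlem_cast_iff] at h3
  obtain ⟨b', hb2⟩ := finlem_cls_spec ((b : ZMod e) - s)
  obtain ⟨k, hk⟩ := h3
  refine ⟨b' * k * (a⁻¹ : (ZMod e)ˣ), ?_⟩
  have h4 : s + b' * k * (a⁻¹ : (ZMod e)ˣ) * t = b := by
    have h5 : ((a⁻¹ : (ZMod e)ˣ) : ZMod e) * (a : ZMod e) = 1 := a.inv_mul
    rw [hk, Nat.cast_mul] at hb2
    linear_combination (b' * k * (a⁻¹ : (ZMod e)ˣ)) * ha - hb2 + (b' * k * (d : ℕ)) * h5
  rw [h4]
  exact b.isUnit

theorem finlem_moebius (n : ℕ) : ∑ m ∈ n.divisors, (ArithmeticFunction.moebius m : ℤ) =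
    if n = 1 then 1 else 0 := by
  have h := congrArg (fun f : ArithmeticFunction ℤ => f n)
    (ArithmeticFunction.moebius_mul_coe_zeta)
  simp only [ArithmeticFunction.coe_mul_zeta_apply] at h
  rw [h, ArithmeticFunction.one_apply]

theorem finlem_ind (c : ℕ) (hc : c ∣ e) (t : ZMod e) :
    (if finlem_cls t = c then (1 : ℝ) else 0) =
      ∑ m ∈ (e / c).divisors, (ArithmeticFunction.moebius m : ℝ) *
        (if c * m ∣ finlem_cls t then 1 else 0) := by
  have he : e ≠ 0 := NeZero.ne e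
  have hc0 : 0 < c := Nat.pos_of_dvd_of_pos hc (Nat.pos_of_ne_zero he)
  by_cases h : c ∣ finlem_cls t
  · obtain ⟨n, hn⟩ := h
    have hcls : 0 < finlem_cls t :=
      Nat.pos_of_dvd_of_pos (finlem_cls_dvd t) (Nat.pos_of_ne_zero he)
    have hn0 : n ≠ 0 := by
      rintro rfl
      rw [mul_zero] at hn
      omega
    have hne : n ∣ e / c := by
      have := finlem_cls_dvd t
      rw [hn] at this
      exact (Nat.dvd_div_iff_mul_dvd hc).2 this
    have h1 : ∀ m, (c * m ∣ finlem_cls t ↔ m ∣ n) := by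
      intro m
      rw [hn]
      exact Nat.mul_dvd_mul_iff_left hc0
    have h2 : (if finlem_cls t = c then (1 : ℝ) else 0) = ((if n = 1 then 1 else 0 : ℤ) : ℝ) := by
      have : finlem_cls t = c ↔ n = 1 := by
        rw [hn]
        constructor
        · intro h3
          exact Nat.eq_of_mul_eq_mul_left hc0 (by rw [h3, mul_one])
        · rintro rfl
          rw [mul_one]
      by_cases h3 : n = 1
      · rw [if_pos (this.2 h3), if_pos h3]; simp
      · rw [if_neg (fun h4 => h3 (this.1 h4)), if_neg h3]; simp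
    rw [h2, ← finlem_moebius n, Int.cast_sum]
    have hed : e / c ≠ 0 := (Nat.div_pos (Nat.le_of_dvd (Nat.pos_of_ne_zero he) hc) hc0).ne'
    rw [← Finset.sum_subset (Nat.divisors_subset_of_dvd hed hne)]
    · refine Finset.sum_congr rfl fun m hm => ?_
      rw [if_pos ((h1 m).2 (Nat.dvd_of_mem_divisors hm)), mul_one]
    · intro m _ hm
      rw [if_neg, mul_zero]
      intro h3
      exact hm (Nat.mem_divisors.2 ⟨(h1 m).1 h3, hn0⟩)
  · rw [if_neg]
    · symm
      refine Finset.sum_eq_zero fun m _ => ?_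
      rw [if_neg, mul_zero]
      intro h3
      exact h ((dvd_mul_right c m).trans h3)
    · intro h3
      exact h (by rw [h3])

end Cls

section Main

variable {e : ℕ} [NeZero e]

/-- Sum over the vectors proportional to `u` modulo `c`. -/
theorem finlem_fibre {c : ℕ} (hc : c ∣ e) [NeZero c] {f : Vec e → ℝ} (hf : AdmR f) {u : Vec e}
    (hu : Uni u) :
    (∑ v : Vec e, if c ∣ finlem_cls (finlem_dt u v) then f v else 0) =
      ∑ a : (ZMod c)ˣ, ∑ v : Vec e, if red hc v = (a : ZMod c) • red hc u then f v else 0 := by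
  rw [Finset.sum_comm]
  refine Finset.sum_congr rfl fun v _ => ?_
  by_cases hv : Uni v
  · have hur : IsCoprime (red hc u 0) (red hc u 1) := hu.map (ZMod.castHom hc (ZMod c))
    have hvr : IsCoprime (red hc v 0) (red hc v 1) := hv.map (ZMod.castHom hc (ZMod c))
    have hdt : finlem_dt (red hc u) (red hc v) = ZMod.castHom hc (ZMod c) (finlem_dt u v) := by
      simp only [finlem_dt, red, map_sub, map_mul]
    by_cases h : c ∣ finlem_cls (finlem_dt u v)
    · rw [if_pos h]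
      rw [← finlem_cast_iff hc, ← hdt] at h
      obtain ⟨a, ha⟩ := finlem_prop hur hvr h
      rw [Finset.sum_eq_single a]
      · rw [if_pos ha]
      · intro b _ hb
        rw [if_neg]
        intro h2
        rw [ha] at h2
        exact hb (Units.ext (finlem_inj hur h2.symm))
      · intro h2
        exact absurd (Finset.mem_univ a) h2
    · rw [if_neg h]
      symm
      refine Finset.sum_eq_zero fun a _ => ?_
      rw [if_neg]
      intro h2
      apply h
      rw [← finlem_cast_iff hc, ← hdt, h2, finlem_dt_smul]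
      simp only [finlem_dt]
      ring
  · rw [hf.supp v hv]
    simp

theorem finlem_T {c : ℕ} (hc : c ∣ e) {f : Vec e → ℝ} (hf : AdmR f) (nf : NewR f) :
    (∑ u : Vec e, ∑ v : Vec e, if c ∣ finlem_cls (finlem_dt u v) then f u * f v else 0) =
      if c = e then (Nat.totient e : ℝ) * ∑ u : Vec e, f u ^ 2 else 0 := by
  have hc0 : NeZero c := ⟨fun h => NeZero.ne e (Nat.eq_zero_of_zero_dvd (h ▸ hc))⟩
  have h1 : ∀ u : Vec e, (∑ v : Vec e, if c ∣ finlem_cls (finlem_dt u v) then f u * f v else 0) =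
      f u * (if c = e then (Nat.totient e : ℝ) * f u else 0) := by
    intro u
    by_cases hu : Uni u
    · have h2 : (∑ v : Vec e, if c ∣ finlem_cls (finlem_dt u v) then f u * f v else 0) =
          f u * ∑ v : Vec e, (if c ∣ finlem_cls (finlem_dt u v) then f v else 0) := by
        rw [Finset.mul_sum]
        refine Finset.sum_congr rfl fun v _ => ?_
        rw [mul_ite, mul_zero]
      rw [h2, finlem_fibre hc hf hu]
      congr 1
      by_cases hce : c = e
      · subst hce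
        rw [if_pos rfl]
        have h3 : ∀ a : (ZMod c)ˣ, (∑ v : Vec c, if red hc v = (a : ZMod c) • red hc u then f v else 0)
            = f u := by
          intro a
          have hred : ∀ v : Vec c, red hc v = v := by
            intro v
            funext i
            simp [red]
          rw [Finset.sum_eq_single ((a : ZMod c) • u)]
          · rw [if_pos (by rw [hred, hred])]
            exact hf.inv a u
          · intro b _ hb
            rw [if_neg]
            rw [hred, hred]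
            exact hb
          · intro h4
            exact absurd (Finset.mem_univ _) h4
        rw [Finset.sum_congr rfl fun a _ => h3 a, Finset.sum_const, nsmul_eq_mul, Finset.card_univ,
          ZMod.card_units_eq_totient]
      · rw [if_neg hce]
        refine Finset.sum_eq_zero (fun a _ => ?_)
        exact nf c hc hce ((a : ZMod c) • red hc u)
    · rw [hf.supp u hu]
      simp
  rw [Finset.sum_congr rfl fun u _ => h1 u]
  split_ifs with h
  · rw [Finset.mul_sum]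
    exact Finset.sum_congr rfl fun u _ => by ring
  · simp

/-- The sum of `f u * f v` over the pairs of class `c`. -/
noncomputable def finlem_S (f : Vec e → ℝ) (c : ℕ) : ℝ :=
  ∑ u : Vec e, ∑ v : Vec e, if finlem_cls (finlem_dt u v) = c then f u * f v else 0

theorem finlem_S_le {c : ℕ} (hc : c ∣ e) {f : Vec e → ℝ} (hf : AdmR f) (nf : NewR f) :
    |finlem_S f c| ≤ (Nat.totient e : ℝ) * ∑ u : Vec e, f u ^ 2 := by
  have he : e ≠ 0 := NeZero.ne e
  have hc0 : 0 < c := Nat.pos_of_dvd_of_pos hc (Nat.pos_of_ne_zero he)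
  have hed : e / c ≠ 0 := (Nat.div_pos (Nat.le_of_dvd (Nat.pos_of_ne_zero he) hc) hc0).ne'
  have h1 : finlem_S f c = ∑ m ∈ (e / c).divisors, (ArithmeticFunction.moebius m : ℝ) *
      (∑ u : Vec e, ∑ v : Vec e,
        if c * m ∣ finlem_cls (finlem_dt u v) then f u * f v else 0) := by
    unfold finlem_S
    simp_rw [Finset.mul_sum]
    conv_rhs => rw [Finset.sum_comm]
    refine Finset.sum_congr rfl fun u _ => ?_
    conv_rhs => rw [Finset.sum_comm]
    refine Finset.sum_congr rfl fun v _ => ?_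
    have h2 : (if finlem_cls (finlem_dt u v) = c then f u * f v else 0) =
        (if finlem_cls (finlem_dt u v) = c then (1 : ℝ) else 0) * (f u * f v) := by
      split_ifs <;> simp
    rw [h2, finlem_ind c hc, Finset.sum_mul]
    refine Finset.sum_congr rfl fun m _ => ?_
    split_ifs <;> ring
  have h3 : finlem_S f c = (ArithmeticFunction.moebius (e / c) : ℝ) *
      ((Nat.totient e : ℝ) * ∑ u : Vec e, f u ^ 2) := by
    rw [h1, Finset.sum_eq_single (e / c)]
    · rw [Nat.mul_div_cancel' hc, finlem_T dvd_rfl hf nf, if_pos rfl]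
    · intro m hm hme
      have hmd := Nat.dvd_of_mem_divisors hm
      have hcm : c * m ∣ e := (Nat.dvd_div_iff_mul_dvd hc).1 hmd
      rw [finlem_T hcm hf nf, if_neg, mul_zero]
      intro h4
      apply hme
      rw [← h4, Nat.mul_div_cancel_left _ hc0]
    · intro h4
      exact absurd (Nat.mem_divisors_self _ hed) h4
  rw [h3, abs_mul]
  have h4 : |(ArithmeticFunction.moebius (e / c) : ℝ)| ≤ 1 := by
    have := ArithmeticFunction.abs_moebius_le_one (n := e / c)
    exact_mod_cast this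
  have h5 : 0 ≤ (Nat.totient e : ℝ) * ∑ u : Vec e, f u ^ 2 :=
    mul_nonneg (Nat.cast_nonneg _) (Finset.sum_nonneg fun u _ => sq_nonneg _)
  rw [abs_of_nonneg h5]
  exact mul_le_of_le_one_left h5 h4

/-- Normal form of a pair. -/
theorem finlem_normal {u v : Vec e} (hu : Uni u) (hv : Uni v) :
    ∃ (g : (Matrix (Fin 2) (Fin 2) (ZMod e))ˣ) (a : (ZMod e)ˣ),
      (g : Matrix (Fin 2) (Fin 2) (ZMod e)).mulVec u = ![1, 0] ∧
      (g : Matrix (Fin 2) (Fin 2) (ZMod e)).mulVec v = ![(a : ZMod e), finlem_dt u v] := by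
  obtain ⟨p, q, h1⟩ := hu
  obtain ⟨p', q', h2⟩ := hv
  have hst : IsCoprime (p * v 0 + q * v 1) (finlem_dt u v) := by
    refine ⟨p' * u 0 + q' * u 1, q' * p - p' * q, ?_⟩
    unfold finlem_dt
    linear_combination (p' * v 0 + q' * v 1) * h1 + h2
  obtain ⟨x, a, hx⟩ := finlem_sr hst
  set M : Matrix (Fin 2) (Fin 2) (ZMod e) := !![p - x * u 1, q + x * u 0; -u 1, u 0] with hM
  have hdet : M.det = 1 := by
    rw [hM, Matrix.det_fin_two_of]
    linear_combination h1
  have hunit : IsUnit M := by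
    rw [Matrix.isUnit_iff_isUnit_det, hdet]
    exact isUnit_one
  obtain ⟨g, hg⟩ := hunit
  refine ⟨g, a, ?_, ?_⟩
  · rw [hg]
    funext i
    fin_cases i
    · simp [hM, Matrix.mulVec, dotProduct, Fin.sum_univ_two]
      linear_combination h1
    · simp [hM, Matrix.mulVec, dotProduct, Fin.sum_univ_two]
      ring
  · rw [hg]
    funext i
    fin_cases i
    · simp [hM, Matrix.mulVec, dotProduct, Fin.sum_univ_two]
      unfold finlem_dt at hx
      rw [hx]
      ring
    · simp [hM, Matrix.mulVec, dotProduct, Fin.sum_univ_two, finlem_dt]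
      ring

/-- The group acts transitively on the pairs of a given class. -/
theorem finlem_trans {u v u' v' : Vec e} (hu : Uni u) (hv : Uni v) (hu' : Uni u') (hv' : Uni v')
    (h : finlem_cls (finlem_dt u v) = finlem_cls (finlem_dt u' v')) :
    ∃ (g : (Matrix (Fin 2) (Fin 2) (ZMod e))ˣ) (a : (ZMod e)ˣ),
      (g : Matrix (Fin 2) (Fin 2) (ZMod e)).mulVec u = u' ∧
      (g : Matrix (Fin 2) (Fin 2) (ZMod e)).mulVec v = (a : ZMod e) • v' := by
  obtain ⟨g1, a1, h1, h2⟩ := finlem_normal hu hv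
  obtain ⟨g2, a2, h3, h4⟩ := finlem_normal hu' hv'
  obtain ⟨b1, hb1⟩ := finlem_cls_spec (finlem_dt u v)
  obtain ⟨b2, hb2⟩ := finlem_cls_spec (finlem_dt u' v')
  -- y * t1 = a * t2, a = a1 / a2
  set y : (ZMod e)ˣ := a1 * a2⁻¹ * b2 * b1⁻¹ with hy
  set D : Matrix (Fin 2) (Fin 2) (ZMod e) := !![1, 0; 0, (y : ZMod e)] with hD
  have hDu : IsUnit D := by
    rw [Matrix.isUnit_iff_isUnit_det, hD, Matrix.det_fin_two_of]
    simp
  obtain ⟨gD, hgD⟩ := hDu
  have hyt : (y : ZMod e) * finlem_dt u v = ((a1 * a2⁻¹ : (ZMod e)ˣ) : ZMod e) * finlem_dt u' v' := by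
    rw [hb1, hb2, h, hy]
    have h5 : ((b1⁻¹ : (ZMod e)ˣ) : ZMod e) * (b1 : ZMod e) = 1 := b1.inv_mul
    push_cast
    linear_combination ((a1 : ZMod e) * ((a2⁻¹ : (ZMod e)ˣ) : ZMod e) * b2 *
      (finlem_cls (finlem_dt u' v') : ℕ)) * h5
  have key1 : (g2⁻¹ * gD * g1 : (Matrix (Fin 2) (Fin 2) (ZMod e))ˣ).1.mulVec u = u' := by
    have h5 : (g2⁻¹ * g2 : (Matrix (Fin 2) (Fin 2) (ZMod e))ˣ).1.mulVec u' = u' := by
      rw [inv_mul_cancel, Units.val_one, Matrix.one_mulVec]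
    rw [Units.val_mul, Units.val_mul, ← Matrix.mulVec_mulVec, ← Matrix.mulVec_mulVec, h1]
    rw [Units.val_mul, ← Matrix.mulVec_mulVec, h3] at h5
    have h6 : (gD : Matrix (Fin 2) (Fin 2) (ZMod e)).mulVec ![1, 0] = ![1, 0] := by
      rw [hgD, hD]
      funext i
      fin_cases i <;> simp [Matrix.mulVec, dotProduct, Fin.sum_univ_two]
    rw [h6, h5]
  have key2 : (g2⁻¹ * gD * g1 : (Matrix (Fin 2) (Fin 2) (ZMod e))ˣ).1.mulVec v =
      ((a1 * a2⁻¹ : (ZMod e)ˣ) : ZMod e) • v' := by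
    have h5 : (g2⁻¹ * g2 : (Matrix (Fin 2) (Fin 2) (ZMod e))ˣ).1.mulVec v' = v' := by
      rw [inv_mul_cancel, Units.val_one, Matrix.one_mulVec]
    rw [Units.val_mul, Units.val_mul, ← Matrix.mulVec_mulVec, ← Matrix.mulVec_mulVec, h2]
    rw [Units.val_mul, ← Matrix.mulVec_mulVec, h4] at h5
    have h6 : (gD : Matrix (Fin 2) (Fin 2) (ZMod e)).mulVec ![(a1 : ZMod e), finlem_dt u v] =
        ((a1 * a2⁻¹ : (ZMod e)ˣ) : ZMod e) • ![(a2 : ZMod e), finlem_dt u' v'] := by
      rw [hgD, hD]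
      funext i
      fin_cases i
      · simp [Matrix.mulVec, dotProduct, Fin.sum_univ_two]
      · simpa [Matrix.mulVec, dotProduct, Fin.sum_univ_two] using hyt
    rw [h6, Matrix.mulVec_smul, h5]
  exact ⟨_, _, key1, key2⟩

/-- The pairs of unimodular vectors of class `c`. -/
noncomputable def finlem_RC (c : ℕ) : Finset (Vec e × Vec e) := by
  classical
  exact Finset.univ.filter fun p =>
    Uni p.1 ∧ Uni p.2 ∧ finlem_cls (finlem_dt p.1 p.2) = c

theorem finlem_mem_RC {c : ℕ} {p : Vec e × Vec e} : p ∈ finlem_RC c ↔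
    Uni p.1 ∧ Uni p.2 ∧ finlem_cls (finlem_dt p.1 p.2) = c := by
  classical
  unfold finlem_RC
  simp

theorem finlem_RC_act {c : ℕ} (g : (Matrix (Fin 2) (Fin 2) (ZMod e))ˣ) {p : Vec e × Vec e}
    (hp : p ∈ finlem_RC c) : ((g : Matrix (Fin 2) (Fin 2) (ZMod e)).mulVec p.1,
      (g : Matrix (Fin 2) (Fin 2) (ZMod e)).mulVec p.2) ∈ finlem_RC c := by
  rw [finlem_mem_RC] at hp ⊢
  refine ⟨finlem_uni_mulVec g hp.1, finlem_uni_mulVec g hp.2.1, ?_⟩
  rw [finlem_dt_mulVec, finlem_cls_unit, hp.2.2]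
  exact (Matrix.isUnit_iff_isUnit_det _).1 g.isUnit

theorem finlem_sum_RC {c : ℕ} {f : Vec e → ℝ} (hf : AdmR f) :
    ∑ p ∈ finlem_RC (e := e) c, f p.1 * f p.2 = finlem_S f c := by
  classical
  unfold finlem_S
  rw [← Finset.sum_product', Finset.univ_product_univ]
  rw [← Finset.sum_filter]
  refine Finset.sum_subset ?_ ?_
  · intro p hp
    rw [finlem_mem_RC] at hp
    exact Finset.mem_filter.2 ⟨Finset.mem_univ _, hp.2.2⟩
  · intro p hp hp2
    rw [finlem_mem_RC] at hp2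
    rw [Finset.mem_filter] at hp
    by_cases h1 : Uni p.1
    · by_cases h2 : Uni p.2
      · exact absurd ⟨h1, h2, hp.2⟩ hp2
      · rw [hf.supp _ h2, mul_zero]
    · rw [hf.supp _ h1, zero_mul]

theorem finlem_sum_act {c : ℕ} (g : (Matrix (Fin 2) (Fin 2) (ZMod e))ˣ) (f : Vec e → ℝ) :
    ∑ p ∈ finlem_RC (e := e) c, f ((g : Matrix (Fin 2) (Fin 2) (ZMod e)).mulVec p.1) *
      f ((g : Matrix (Fin 2) (Fin 2) (ZMod e)).mulVec p.2) =
      ∑ p ∈ finlem_RC (e := e) c, f p.1 * f p.2 := by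
  refine Finset.sum_nbij' (fun p => ((g : Matrix (Fin 2) (Fin 2) (ZMod e)).mulVec p.1,
      (g : Matrix (Fin 2) (Fin 2) (ZMod e)).mulVec p.2))
    (fun p => (((g⁻¹ : (Matrix (Fin 2) (Fin 2) (ZMod e))ˣ) :
      Matrix (Fin 2) (Fin 2) (ZMod e)).mulVec p.1,
      ((g⁻¹ : (Matrix (Fin 2) (Fin 2) (ZMod e))ˣ) : Matrix (Fin 2) (Fin 2) (ZMod e)).mulVec p.2))
    (fun p hp => finlem_RC_act g hp) (fun p hp => finlem_RC_act g⁻¹ hp) ?_ ?_ (fun p _ => rfl)
  · intro p _
    simp only [Matrix.mulVec_mulVec, ← Units.val_mul, inv_mul_cancel, Units.val_one,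
      Matrix.one_mulVec, Prod.mk.eta]
  · intro p _
    simp only [Matrix.mulVec_mulVec, ← Units.val_mul, mul_inv_cancel, Units.val_one,
      Matrix.one_mulVec, Prod.mk.eta]

/-- The counting bound. -/
theorem finlem_count [Fintype (Matrix (Fin 2) (Fin 2) (ZMod e))ˣ] {c : ℕ} {p : Vec e × Vec e}
    (hp : p ∈ finlem_RC c) :
    Fintype.card (Matrix (Fin 2) (Fin 2) (ZMod e))ˣ * Nat.totient e ≤
      e ^ 2 * (finlem_RC (e := e) c).card := by
  classical
  obtain ⟨u, v⟩ := p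
  rw [finlem_mem_RC] at hp
  obtain ⟨hu, hv, hc⟩ := hp
  simp only at hu hv hc
  let F : (Matrix (Fin 2) (Fin 2) (ZMod e))ˣ × (ZMod e)ˣ → Vec e × Vec e := fun x =>
    ((x.1 : Matrix (Fin 2) (Fin 2) (ZMod e)).mulVec u,
      ((x.2⁻¹ : (ZMod e)ˣ) : ZMod e) • (x.1 : Matrix (Fin 2) (Fin 2) (ZMod e)).mulVec v)
  have h1 : (Finset.univ : Finset ((Matrix (Fin 2) (Fin 2) (ZMod e))ˣ × (ZMod e)ˣ)).card ≤
      e ^ 2 * (Finset.univ.image F).card := by
    refine Finset.card_le_mul_card_image _ _ ?_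
    rintro b _
    obtain ⟨p, q, hpq⟩ := hu
    let w : Vec e := ![-q, p]
    have hcard : e ^ 2 = (Finset.univ : Finset (Vec e)).card := by
      rw [Finset.card_univ]
      simp [ZMod.card]
    rw [hcard]
    refine Finset.card_le_card_of_injOn (fun x => (x.1 : Matrix (Fin 2) (Fin 2) (ZMod e)).mulVec w)
      (fun _ _ => Finset.mem_coe.2 (Finset.mem_univ _)) ?_
    rintro ⟨g, a⟩ hx ⟨g', a'⟩ hx' hgw
    simp only [Finset.coe_filter, Finset.mem_univ, true_and, Set.mem_ofPred_eq, F] at hx hx' hgw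
    have hxx := hx.trans hx'.symm
    rw [Prod.mk.injEq] at hxx
    obtain ⟨hgu, hgv⟩ := hxx
    have hz : ∀ z : Vec e, z = (z 0 * p + z 1 * q) • u + (z 1 * u 0 - z 0 * u 1) • w := by
      intro z
      funext i
      fin_cases i
      · simp [w]
        linear_combination (-z 0) * hpq
      · simp [w]
        linear_combination (-z 1) * hpq
    have hgz : ∀ z : Vec e, (g : Matrix (Fin 2) (Fin 2) (ZMod e)).mulVec z =
        (g' : Matrix (Fin 2) (Fin 2) (ZMod e)).mulVec z := by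
      intro z
      rw [hz z, Matrix.mulVec_add, Matrix.mulVec_add, Matrix.mulVec_smul, Matrix.mulVec_smul,
        Matrix.mulVec_smul, Matrix.mulVec_smul, hgu, hgw]
    have hgg : g = g' := by
      apply Units.ext
      exact Matrix.mulVec_injective (funext hgz)
    subst hgg
    have hgv' : Uni ((g : Matrix (Fin 2) (Fin 2) (ZMod e)).mulVec v) := finlem_uni_mulVec g hv
    have haa : a⁻¹ = a'⁻¹ := Units.ext (finlem_inj hgv' hgv)
    rw [inv_inj] at haa
    rw [haa]
  have h2 : (Finset.univ.image F) ⊆ finlem_RC (e := e) c := by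
    intro b hb
    obtain ⟨x, _, rfl⟩ := Finset.mem_image.1 hb
    rw [finlem_mem_RC]
    refine ⟨finlem_uni_mulVec x.1 hu, finlem_uni_smul x.2⁻¹ (finlem_uni_mulVec x.1 hv), ?_⟩
    simp only [F]
    rw [finlem_dt_smul, finlem_cls_unit (Units.isUnit _), finlem_dt_mulVec, finlem_cls_unit, hc]
    exact (Matrix.isUnit_iff_isUnit_det _).1 x.1.isUnit
  have h3 : (Finset.univ : Finset ((Matrix (Fin 2) (Fin 2) (ZMod e))ˣ × (ZMod e)ˣ)).card =
      Fintype.card (Matrix (Fin 2) (Fin 2) (ZMod e))ˣ * Nat.totient e := by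
    rw [Finset.card_univ, Fintype.card_prod, ZMod.card_units_eq_totient]
  rw [← h3]
  exact h1.trans (Nat.mul_le_mul_left _ (Finset.card_le_card h2))

/-- The kernel. -/
noncomputable def finlem_K [Fintype (Matrix (Fin 2) (Fin 2) (ZMod e))ˣ] (h : Vec e → ℝ)
    (u v : Vec e) : ℝ :=
  ∑ g : (Matrix (Fin 2) (Fin 2) (ZMod e))ˣ,
    h ((g : Matrix (Fin 2) (Fin 2) (ZMod e)).mulVec u) *
      h ((g : Matrix (Fin 2) (Fin 2) (ZMod e)).mulVec v)

theorem finlem_K_const [Fintype (Matrix (Fin 2) (Fin 2) (ZMod e))ˣ] {h : Vec e → ℝ} (hh : AdmR h)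
    {c : ℕ} {p p' : Vec e × Vec e} (hp : p ∈ finlem_RC c) (hp' : p' ∈ finlem_RC c) :
    finlem_K h p.1 p.2 = finlem_K h p'.1 p'.2 := by
  rw [finlem_mem_RC] at hp hp'
  obtain ⟨g, a, h1, h2⟩ := finlem_trans hp.1 hp.2.1 hp'.1 hp'.2.1 (hp.2.2.trans hp'.2.2.symm)
  unfold finlem_K
  symm
  refine Fintype.sum_equiv (Equiv.mulRight g) _ _ fun x => ?_
  rw [Equiv.coe_mulRight, Units.val_mul, ← Matrix.mulVec_mulVec, ← Matrix.mulVec_mulVec, h1, h2,
    Matrix.mulVec_smul, hh.inv]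

theorem finlem_class_le [Fintype (Matrix (Fin 2) (Fin 2) (ZMod e))ˣ] {h k : Vec e → ℝ}
    (hh : AdmR h) (hk : AdmR k) (nh : NewR h) (nk : NewR k) {c : ℕ} (hc : c ∣ e) :
    ∑ p ∈ finlem_RC (e := e) c, k p.1 * k p.2 * finlem_K h p.1 p.2 ≤
      (e : ℝ) ^ 2 * (Nat.totient e) * (∑ u : Vec e, h u ^ 2) * (∑ u : Vec e, k u ^ 2) := by
  have hHn : 0 ≤ ∑ u : Vec e, h u ^ 2 := Finset.sum_nonneg fun u _ => sq_nonneg _
  have hKn : 0 ≤ ∑ u : Vec e, k u ^ 2 := Finset.sum_nonneg fun u _ => sq_nonneg _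
  rcases (finlem_RC (e := e) c).eq_empty_or_nonempty with h0 | ⟨p0, hp0⟩
  · rw [h0, Finset.sum_empty]
    positivity
  · set κ := finlem_K h p0.1 p0.2 with hκ
    have h1 : ∑ p ∈ finlem_RC (e := e) c, k p.1 * k p.2 * finlem_K h p.1 p.2 =
        finlem_S k c * κ := by
      rw [← finlem_sum_RC hk, Finset.sum_mul]
      refine Finset.sum_congr rfl fun p hp => ?_
      rw [finlem_K_const hh hp hp0]
    have h2 : ((finlem_RC (e := e) c).card : ℝ) * κ =
        (Fintype.card (Matrix (Fin 2) (Fin 2) (ZMod e))ˣ : ℝ) * finlem_S h c := by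
      have h3 : ∑ p ∈ finlem_RC (e := e) c, finlem_K h p.1 p.2 =
          ((finlem_RC (e := e) c).card : ℝ) * κ := by
        rw [Finset.sum_congr rfl fun p hp => finlem_K_const hh hp hp0, Finset.sum_const,
          nsmul_eq_mul]
      rw [← h3]
      unfold finlem_K
      rw [Finset.sum_comm, Finset.sum_congr rfl fun g _ => finlem_sum_act g h, Finset.sum_const,
        nsmul_eq_mul, Finset.card_univ, finlem_sum_RC hh]
    have h4 := finlem_count hp0
    have h5 : (Fintype.card (Matrix (Fin 2) (Fin 2) (ZMod e))ˣ : ℝ) * (Nat.totient e) ≤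
        (e : ℝ) ^ 2 * ((finlem_RC (e := e) c).card : ℝ) := by exact_mod_cast h4
    have hcard : (0 : ℝ) < ((finlem_RC (e := e) c).card : ℝ) := by
      exact_mod_cast Finset.card_pos.2 ⟨p0, hp0⟩
    have h6 := finlem_S_le hc hh nh
    have h7 := finlem_S_le hc hk nk
    rw [h1]
    refine le_of_mul_le_mul_left ?_ hcard
    have htot : (0 : ℝ) ≤ Nat.totient e := Nat.cast_nonneg _
    have hG : (0 : ℝ) ≤ (Fintype.card (Matrix (Fin 2) (Fin 2) (ZMod e))ˣ : ℝ) := Nat.cast_nonneg _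
    calc ((finlem_RC (e := e) c).card : ℝ) * (finlem_S k c * κ)
        = finlem_S k c * (((finlem_RC (e := e) c).card : ℝ) * κ) := by ring
      _ = (Fintype.card (Matrix (Fin 2) (Fin 2) (ZMod e))ˣ : ℝ) * (finlem_S h c * finlem_S k c) := by
          rw [h2]; ring
      _ ≤ (Fintype.card (Matrix (Fin 2) (Fin 2) (ZMod e))ˣ : ℝ) *
          (((Nat.totient e : ℝ) * ∑ u : Vec e, h u ^ 2) *
            ((Nat.totient e : ℝ) * ∑ u : Vec e, k u ^ 2)) := by
          refine mul_le_mul_of_nonneg_left ?_ hG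
          calc finlem_S h c * finlem_S k c ≤ |finlem_S h c * finlem_S k c| := le_abs_self _
            _ = |finlem_S h c| * |finlem_S k c| := abs_mul _ _
            _ ≤ _ := mul_le_mul h6 h7 (abs_nonneg _) (by positivity)
      _ = ((Fintype.card (Matrix (Fin 2) (Fin 2) (ZMod e))ˣ : ℝ) * (Nat.totient e)) *
          ((Nat.totient e : ℝ) * (∑ u : Vec e, h u ^ 2) * ∑ u : Vec e, k u ^ 2) := by ring
      _ ≤ ((e : ℝ) ^ 2 * ((finlem_RC (e := e) c).card : ℝ)) *
          ((Nat.totient e : ℝ) * (∑ u : Vec e, h u ^ 2) * ∑ u : Vec e, k u ^ 2) :=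
          mul_le_mul_of_nonneg_right h5 (by positivity)
      _ = _ := by ring

theorem finlem_main [Fintype (Matrix (Fin 2) (Fin 2) (ZMod e))ˣ] {h k : Vec e → ℝ}
    (hh : AdmR h) (hk : AdmR k) (nh : NewR h) (nk : NewR k) :
    ∑ g : (Matrix (Fin 2) (Fin 2) (ZMod e))ˣ,
      (∑ u : Vec e, h ((g : Matrix (Fin 2) (Fin 2) (ZMod e)).mulVec u) * k u) ^ 2 ≤
      (e : ℝ) ^ 2 * (Nat.totient e) * (e.divisors.card) * (∑ u : Vec e, h u ^ 2) *
        (∑ u : Vec e, k u ^ 2) := by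
  classical
  have h1 : ∑ g : (Matrix (Fin 2) (Fin 2) (ZMod e))ˣ,
      (∑ u : Vec e, h ((g : Matrix (Fin 2) (Fin 2) (ZMod e)).mulVec u) * k u) ^ 2 =
      ∑ p : Vec e × Vec e, k p.1 * k p.2 * finlem_K h p.1 p.2 := by
    unfold finlem_K
    simp_rw [Finset.mul_sum]
    rw [Finset.sum_comm]
    refine Finset.sum_congr rfl fun g _ => ?_
    rw [sq, Finset.sum_mul_sum, ← Finset.sum_product', Finset.univ_product_univ]
    exact Finset.sum_congr rfl fun p _ => by ring
  have h2 : ∑ p : Vec e × Vec e, k p.1 * k p.2 * finlem_K h p.1 p.2 =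
      ∑ c ∈ e.divisors, ∑ p ∈ finlem_RC (e := e) c, k p.1 * k p.2 * finlem_K h p.1 p.2 := by
    have h3 : ∑ p : Vec e × Vec e, k p.1 * k p.2 * finlem_K h p.1 p.2 =
        ∑ p ∈ Finset.univ.filter (fun p : Vec e × Vec e => Uni p.1 ∧ Uni p.2),
          k p.1 * k p.2 * finlem_K h p.1 p.2 := by
      symm
      refine Finset.sum_subset (Finset.filter_subset _ _) ?_
      intro p _ hp
      rw [Finset.mem_filter] at hp
      by_cases h4 : Uni p.1
      · by_cases h5 : Uni p.2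
        · exact absurd ⟨Finset.mem_univ _, h4, h5⟩ hp
        · rw [hk.supp _ h5]; ring
      · rw [hk.supp _ h4]; ring
    rw [h3, ← Finset.sum_fiberwise_of_maps_to (t := e.divisors)
      (g := fun p : Vec e × Vec e => finlem_cls (finlem_dt p.1 p.2))
      (fun p _ => Nat.mem_divisors.2 ⟨finlem_cls_dvd _, NeZero.ne e⟩)]
    refine Finset.sum_congr rfl fun c _ => ?_
    refine Finset.sum_congr ?_ fun _ _ => rfl
    ext p
    rw [finlem_mem_RC, Finset.mem_filter, Finset.mem_filter]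
    simp only [Finset.mem_univ, true_and, and_assoc]
  rw [h1, h2]
  calc _ ≤ ∑ c ∈ e.divisors, (e : ℝ) ^ 2 * (Nat.totient e) * (∑ u : Vec e, h u ^ 2) *
        (∑ u : Vec e, k u ^ 2) :=
        Finset.sum_le_sum fun c hc => finlem_class_le hh hk nh nk (Nat.dvd_of_mem_divisors hc)
    _ = _ := by
        rw [Finset.sum_const, nsmul_eq_mul]
        ring

end Main

open Classical in
/-- TARGET -/
theorem finite_lemma (e : ℕ) [NeZero e] (h k : Vec e → ℝ) (hh : AdmR h) (hk : AdmR k)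
    (nh : NewR h) (nk : NewR k) :
    ∑ g : (Matrix (Fin 2) (Fin 2) (ZMod e))ˣ,
      (∑ u : Vec e, h ((g : Matrix (Fin 2) (Fin 2) (ZMod e)).mulVec u) * k u) ^ 2 ≤
      (e : ℝ) ^ 2 * (Nat.totient e) * (e.divisors.card) * (∑ u : Vec e, h u ^ 2) *
        (∑ u : Vec e, k u ^ 2) :=
  finlem_main hh hk nh nk

end Pool.Agent.H978V
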