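import Pool.Agent.Helper557.Rz.Defs
import Pool.Agent.H978V.Ar
import Pool.Agent.H510R2.Div
import Pool.Agent.W65.CS.R2

set_option autoImplicit false

open scoped Quaternion

namespace Pool.Agent.H978V

open Pool.Agent.Helper557.Rz

/-- number of representations as a sum of three squares -/
theorem scalar_count_r3 (δ : ℝ) (hδ : 0 < δ) : ∃ C : ℝ, 1 ≤ C ∧ ∀ m n : ℕ, 1 ≤ m → m ≤ n →
    ∀ F : Finset (ℤ × ℤ × ℤ), (∀ p ∈ F, p.1 ^ 2 + p.2.1 ^ 2 + p.2.2 ^ 2 = m) →
      (F.card : ℝ) ≤ C * Real.sqrt m * (n : ℝ) ^ δ := by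
  obtain ⟨C, hC, h⟩ := Pool.Agent.W65.CS.R2_bound δ hδ
  refine ⟨3 * C, by linarith, ?_⟩
  intro m n hm hmn F hF
  set s := Nat.sqrt m with hs
  have hC0 : 0 ≤ C := by linarith
  have hn0 : 0 ≤ (n : ℝ) ^ δ := by positivity
  have hmaps : ∀ p ∈ F, p.1 ∈ Finset.Icc (-(s : ℤ)) s := by
    intro p hp
    have h1 := hF p hp
    have h2 : p.1.natAbs ^ 2 ≤ m := by
      zify
      rw [sq_abs]
      nlinarith [sq_nonneg p.2.1, sq_nonneg p.2.2]
    have h3 : p.1.natAbs ≤ s := Nat.le_sqrt'.2 h2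
    rw [Finset.mem_Icc]
    omega
  have hfib : ∀ a ∈ Finset.Icc (-(s : ℤ)) s,
      ((F.filter (fun p => p.1 = a)).card : ℝ) ≤ C * (n : ℝ) ^ δ := by
    intro a ha
    rw [Finset.mem_Icc] at ha
    have ha1 : a.natAbs ≤ s := by omega
    have ha2 : a.natAbs ^ 2 ≤ m := by
      have := Nat.le_sqrt'.1 ha1
      exact this
    have hcard : (F.filter (fun p => p.1 = a)).card ≤
        (Pool.Agent.W65.CS.R2 (m - a.natAbs ^ 2)).card := by
      apply Finset.card_le_card_of_injOn (fun p => p.2)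
      · intro p hp
        rw [Finset.mem_coe, Finset.mem_filter] at hp
        have h1 := hF p hp.1
        rw [Finset.mem_coe]
        show (p.2.1, p.2.2) ∈ _
        rw [Pool.Agent.W65.CS.mem_R2, Nat.cast_sub ha2]
        push_cast
        rw [sq_abs, ← hp.2]
        linarith
      · intro p hp q hq hpq
        rw [Finset.mem_coe, Finset.mem_filter] at hp hq
        exact Prod.ext (hp.2.trans hq.2.symm) hpq
    have h2 := h (m - a.natAbs ^ 2) n (by omega) (by omega)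
    exact (by exact_mod_cast hcard : ((F.filter (fun p => p.1 = a)).card : ℝ) ≤
      ((Pool.Agent.W65.CS.R2 (m - a.natAbs ^ 2)).card : ℝ)).trans h2
  have hcard : (F.card : ℝ) = ∑ a ∈ Finset.Icc (-(s : ℤ)) s,
      ((F.filter (fun p => p.1 = a)).card : ℝ) := by
    rw [Finset.card_eq_sum_card_fiberwise hmaps]
    push_cast
    rfl
  rw [hcard]
  refine (Finset.sum_le_sum hfib).trans ?_
  rw [Finset.sum_const, nsmul_eq_mul, Int.card_Icc]
  have e1 : ((s : ℤ) + 1 - -(s : ℤ)).toNat = 2 * s + 1 := by omega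
  rw [e1]
  have hs1 : (s : ℝ) ≤ Real.sqrt m := Real.nat_sqrt_le_real_sqrt
  have hs2 : 1 ≤ Real.sqrt m := by
    rw [Real.one_le_sqrt]
    exact_mod_cast hm
  push_cast
  have h3 : (2 * (s : ℝ) + 1) ≤ 3 * Real.sqrt m := by linarith
  calc (2 * (s : ℝ) + 1) * (C * (n : ℝ) ^ δ) ≤ (3 * Real.sqrt m) * (C * (n : ℝ) ^ δ) :=
        mul_le_mul_of_nonneg_right h3 (by positivity)
    _ = 3 * C * Real.sqrt m * (n : ℝ) ^ δ := by ring

/-- sum of an antitone function over integers which are congruent to each other -/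
theorem scalar_count_ap (H : ℕ → ℝ) (hH : Antitone H) (hH0 : ∀ i, 0 ≤ H i) (q R : ℕ) (hq : 1 ≤ q)
    (F : Finset ℕ) (hF : F ⊆ Finset.Icc 1 R) (hcong : ∀ j ∈ F, ∀ j' ∈ F, j ≤ j' → q ∣ j' - j) :
    ∑ j ∈ F, H j ≤ H 0 + (∑ i ∈ Finset.Icc 1 R, H i) / q := by
  have hqr : (1 : ℝ) ≤ q := by exact_mod_cast hq
  have hq0 : (0 : ℝ) < q := by linarith
  rw [← Finset.sum_filter_add_sum_filter_not F (fun j => j ≤ q)]
  refine add_le_add ?_ ?_
  · have hcard : (F.filter (fun j => j ≤ q)).card ≤ 1 := by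
      rw [Finset.card_le_one]
      intro a ha b hb
      rw [Finset.mem_filter] at ha hb
      have ha1 := Finset.mem_Icc.1 (hF ha.1)
      have hb1 := Finset.mem_Icc.1 (hF hb.1)
      rcases le_total a b with hab | hab
      · have := Nat.eq_zero_of_dvd_of_lt (hcong a ha.1 b hb.1 hab) (by omega)
        omega
      · have := Nat.eq_zero_of_dvd_of_lt (hcong b hb.1 a ha.1 hab) (by omega)
        omega
    have h1 := Finset.sum_le_card_nsmul (F.filter (fun j => j ≤ q)) H (H 0)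
      (fun j _ => hH (Nat.zero_le j))
    refine h1.trans ?_
    rw [nsmul_eq_mul]
    have : ((F.filter (fun j => j ≤ q)).card : ℝ) ≤ 1 := by exact_mod_cast hcard
    nlinarith [hH0 0]
  · rw [le_div_iff₀ hq0]
    have hterm : ∀ j ∈ F.filter (fun j => ¬ j ≤ q), H j * q ≤
        ∑ i ∈ Finset.Ioc (j - q) j, H i := by
      intro j hj
      rw [Finset.mem_filter] at hj
      have h1 := Finset.card_nsmul_le_sum (Finset.Ioc (j - q) j) H (H j)
        (fun i hi => hH (Finset.mem_Ioc.1 hi).2)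
      rw [Nat.card_Ioc, nsmul_eq_mul] at h1
      have e1 : j - (j - q) = q := by omega
      rw [e1] at h1
      linarith
    rw [Finset.sum_mul]
    refine (Finset.sum_le_sum hterm).trans ?_
    rw [← Finset.sum_biUnion]
    · apply Finset.sum_le_sum_of_subset_of_nonneg
      · intro i hi
        rw [Finset.mem_biUnion] at hi
        obtain ⟨j, hj, hij⟩ := hi
        rw [Finset.mem_filter] at hj
        have hj1 := Finset.mem_Icc.1 (hF hj.1)
        rw [Finset.mem_Ioc] at hij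
        rw [Finset.mem_Icc]
        omega
      · intro i _ _
        exact hH0 i
    · intro a ha b hb hab
      rw [Finset.mem_coe, Finset.mem_filter] at ha hb
      have key : ∀ a b : ℕ, a ∈ F → b ∈ F → a < b → a ≤ b - q := by
        intro a b ha hb hlt
        have h1 := hcong a ha b hb hlt.le
        have h2 := Nat.le_of_dvd (by omega) h1
        omega
      show Disjoint (Finset.Ioc (a - q) a) (Finset.Ioc (b - q) b)
      rw [Finset.disjoint_left]
      intro i hi1 hi2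
      rw [Finset.mem_Ioc] at hi1 hi2
      rcases lt_or_gt_of_ne hab with h | h
      · have := key a b ha.1 hb.1 h
        omega
      · have := key b a hb.1 ha.1 h
        omega

/-- sum over the admissible residue classes -/
theorem scalar_count_classes (H : ℕ → ℝ) (hH : Antitone H) (hH0 : ∀ i, 0 ≤ H i) (q R : ℕ)
    (hq : 1 ≤ q) (hcop : Nat.Coprime q (2 * R)) :
    ∑ j ∈ (Finset.Icc 1 R).filter (fun j => q ∣ j * (2 * R - j)), H j ≤
      (q.divisors.card : ℝ) * (H 0 + (∑ i ∈ Finset.Icc 1 R, H i) / q) := by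
  have hmaps : ∀ j ∈ (Finset.Icc 1 R).filter (fun j => q ∣ j * (2 * R - j)),
      Nat.gcd j q ∈ q.divisors := by
    intro j _
    rw [Nat.mem_divisors]
    exact ⟨Nat.gcd_dvd_right _ _, by omega⟩
  rw [← Finset.sum_fiberwise_of_maps_to hmaps, ← nsmul_eq_mul]
  refine Finset.sum_le_card_nsmul _ _ _ ?_
  intro g _
  refine scalar_count_ap H hH hH0 q R hq _ ?_ ?_
  · exact (Finset.filter_subset _ _).trans (Finset.filter_subset _ _)
  · intro j hj j' hj' hle
    rw [Finset.mem_filter, Finset.mem_filter, Finset.mem_Icc] at hj hj'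
    obtain ⟨⟨⟨hj1, hjR⟩, hjd⟩, hjg⟩ := hj
    obtain ⟨⟨⟨hj1', hjR'⟩, hjd'⟩, hjg'⟩ := hj'
    have hgpos : 0 < g := by
      rw [← hjg]
      exact Nat.gcd_pos_of_pos_left _ hj1
    have hgq : g ∣ q := by rw [← hjg]; exact Nat.gcd_dvd_right _ _
    have hgj : g ∣ j := by rw [← hjg]; exact Nat.gcd_dvd_left _ _
    have hgj' : g ∣ j' := by rw [← hjg']; exact Nat.gcd_dvd_left _ _
    obtain ⟨h, hh⟩ := hgq
    have hhd : ∀ i : ℕ, 1 ≤ i → Nat.gcd i q = g → q ∣ i * (2 * R - i) → h ∣ 2 * R - i := by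
      intro i hi hig hid
      obtain ⟨i1, hi1⟩ : g ∣ i := by rw [← hig]; exact Nat.gcd_dvd_left _ _
      have hcop1 : Nat.Coprime i1 h := by
        have h1 : Nat.gcd (g * i1) (g * h) = g := by rw [← hi1, ← hh]; exact hig
        rw [Nat.gcd_mul_left] at h1
        exact Nat.eq_of_mul_eq_mul_left hgpos (by rw [h1, mul_one])
      have h2 : g * h ∣ g * (i1 * (2 * R - i)) := by
        rw [← hh, ← mul_assoc, ← hi1]
        exact hid
      have h3 : h ∣ i1 * (2 * R - i) := Nat.dvd_of_mul_dvd_mul_left hgpos h2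
      exact (Nat.Coprime.symm hcop1).dvd_of_dvd_mul_left h3
    have h1 := hhd j hj1 hjg hjd
    have h2 := hhd j' hj1' hjg' hjd'
    have h3 : h ∣ j' - j := by
      have : j' - j = (2 * R - j) - (2 * R - j') := by omega
      rw [this]
      exact Nat.dvd_sub h1 h2
    have h4 : g ∣ j' - j := Nat.dvd_sub hgj' hgj
    have hcop2 : Nat.Coprime g h := by
      have hd1 : Nat.gcd g h ∣ q := by
        rw [hh]
        exact (Nat.gcd_dvd_left _ _).mul_right _
      have hd2 : Nat.gcd g h ∣ 2 * R := by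
        have e : 2 * R = (2 * R - j) + j := by omega
        rw [e]
        exact dvd_add ((Nat.gcd_dvd_right _ _).trans h1) ((Nat.gcd_dvd_left _ _).trans hgj)
      exact Nat.eq_one_of_dvd_one ((Nat.dvd_gcd hd1 hd2).trans (by rw [hcop]))
    rw [hh]
    exact hcop2.mul_dvd_of_dvd_of_dvd h4 h3

/-- the smooth majorant -/
noncomputable def scalar_count_H (x y : ℝ) : ℝ := x ^ 2 / ((x + y) * Real.sqrt (x + y))

theorem scalar_count_H_nonneg {x y : ℝ} (hx : 0 < x) (hy : 0 ≤ y) : 0 ≤ scalar_count_H x y := by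
  unfold scalar_count_H
  positivity

theorem scalar_count_H_anti {x y z : ℝ} (hx : 0 < x) (hy : 0 ≤ y) (hyz : y ≤ z) :
    scalar_count_H x z ≤ scalar_count_H x y := by
  unfold scalar_count_H
  apply div_le_div_of_nonneg_left (by positivity)
  · have : 0 < x + y := by linarith
    positivity
  · have h1 : x + y ≤ x + z := by linarith
    have h2 := Real.sqrt_le_sqrt h1
    have h3 := Real.sqrt_nonneg (x + y)
    have h4 : 0 < x + y := by linarith
    exact mul_le_mul h1 h2 h3 (by linarith)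

theorem scalar_count_H_zero {x : ℝ} (hx : 0 < x) : scalar_count_H x 0 = Real.sqrt x := by
  unfold scalar_count_H
  rw [add_zero]
  have hs := Real.sqrt_pos.2 hx
  rw [div_eq_iff (by positivity)]
  have : Real.sqrt x * Real.sqrt x = x := Real.mul_self_sqrt hx.le
  calc x ^ 2 = x * (Real.sqrt x * Real.sqrt x) := by rw [this]; ring
    _ = _ := by ring

theorem scalar_count_step {u v : ℝ} (hu : 0 < u) (hv : 0 < v) (h : v ^ 2 = u ^ 2 + 1) :
    1 / (v ^ 2 * v) ≤ 2 * (1 / u - 1 / v) := by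
  have huv : u < v := by nlinarith
  have e : 2 * (1 / u - 1 / v) = 2 * (v - u) / (u * v) := by field_simp
  rw [e, div_le_div_iff₀ (by positivity) (by positivity)]
  have h1 : (v - u) * (v + u) = 1 := by nlinarith
  have h2 : u * (v + u) ≤ 2 * v ^ 2 := by nlinarith
  have h3 : u ≤ 2 * v ^ 2 * (v - u) := by
    have hvu : 0 < v + u := by linarith
    have : u * (v + u) ≤ 2 * v ^ 2 * (v - u) * (v + u) := by
      calc u * (v + u) ≤ 2 * v ^ 2 := h2
        _ = 2 * v ^ 2 * ((v - u) * (v + u)) := by rw [h1, mul_one]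
        _ = _ := by ring
    exact le_of_mul_le_mul_right this hvu
  calc 1 * (u * v) = u * v := by ring
    _ ≤ 2 * v ^ 2 * (v - u) * v := mul_le_mul_of_nonneg_right h3 hv.le
    _ = 2 * (v - u) * (v ^ 2 * v) := by ring

theorem scalar_count_H_sum {x : ℝ} (hx : 0 < x) (R : ℕ) :
    ∑ i ∈ Finset.Icc 1 R, scalar_count_H x i ≤ 2 * (x * Real.sqrt x) := by
  have key : ∑ i ∈ Finset.Icc 1 R, scalar_count_H x i ≤
      2 * x ^ 2 * (1 / Real.sqrt x - 1 / Real.sqrt (x + R)) := by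
    induction R with
    | zero => simp
    | succ R ih =>
      rw [Finset.sum_Icc_succ_top (by omega)]
      have h1 : 0 < x + R := by positivity
      have h2 : 0 < x + ((R + 1 : ℕ) : ℝ) := by positivity
      have hs := scalar_count_step (Real.sqrt_pos.2 h1) (Real.sqrt_pos.2 h2) (by
        rw [Real.sq_sqrt h1.le, Real.sq_sqrt h2.le]
        push_cast
        ring)
      rw [Real.sq_sqrt h2.le] at hs
      have h3 : scalar_count_H x ((R + 1 : ℕ) : ℝ) =
          x ^ 2 * (1 / ((x + ((R + 1 : ℕ) : ℝ)) * Real.sqrt (x + ((R + 1 : ℕ) : ℝ)))) := by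
        unfold scalar_count_H
        rw [mul_one_div]
      rw [h3]
      have h4 := mul_le_mul_of_nonneg_left hs (sq_nonneg x)
      linarith
  refine key.trans ?_
  have hs := Real.sqrt_pos.2 hx
  have h1 : 0 ≤ 1 / Real.sqrt (x + R) := by positivity
  have h2 : x ^ 2 * (1 / Real.sqrt x) = x * Real.sqrt x := by
    rw [mul_one_div, div_eq_iff hs.ne']
    have : Real.sqrt x * Real.sqrt x = x := Real.mul_self_sqrt hx.le
    calc x ^ 2 = x * (Real.sqrt x * Real.sqrt x) := by rw [this]; ring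
      _ = _ := by ring
  have h3 : 0 ≤ x ^ 2 * (1 / Real.sqrt (x + R)) := by positivity
  nlinarith

theorem scalar_count_major {A x y : ℝ} (hA : 1 ≤ A) (hx : 0 < x) (hy : 0 < y) :
    Real.sqrt y * min A ((3 / 2) * x ^ 2 / y ^ 2) ≤ 6 * A * scalar_count_H x y := by
  have hA0 : 0 ≤ A := by linarith
  set z := max x y with hz
  have hz0 : 0 < z := lt_of_lt_of_le hx (le_max_left _ _)
  have hxy : x + y ≤ 4 * z := by
    have := le_max_left x y
    have := le_max_right x y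
    linarith
  have hxy2 : x + y ≤ 2 * z := by
    have := le_max_left x y
    have := le_max_right x y
    linarith
  have hsq : Real.sqrt (x + y) ≤ 2 * Real.sqrt z := by
    have h1 := Real.sqrt_le_sqrt hxy
    have h2 : Real.sqrt (4 * z) = 2 * Real.sqrt z := by
      rw [Real.sqrt_mul (by norm_num)]
      congr 1
      rw [show (4 : ℝ) = 2 ^ 2 by norm_num]
      exact Real.sqrt_sq (by norm_num)
    rwa [h2] at h1
  have hsz := Real.sqrt_pos.2 hz0
  have hsxy : 0 < Real.sqrt (x + y) := Real.sqrt_pos.2 (by linarith)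
  have hHlow : x ^ 2 / (4 * (z * Real.sqrt z)) ≤ scalar_count_H x y := by
    unfold scalar_count_H
    apply div_le_div_of_nonneg_left (by positivity) (by positivity)
    calc (x + y) * Real.sqrt (x + y) ≤ (2 * z) * (2 * Real.sqrt z) :=
          mul_le_mul hxy2 hsq hsxy.le (by positivity)
      _ = 4 * (z * Real.sqrt z) := by ring
  rcases le_total y x with h | h
  · have hzx : z = x := max_eq_left h
    rw [hzx] at hHlow
    have e1 : x ^ 2 / (4 * (x * Real.sqrt x)) = Real.sqrt x / 4 := by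
      have hs := Real.sqrt_pos.2 hx
      rw [div_eq_div_iff (by positivity) (by norm_num)]
      have : Real.sqrt x * Real.sqrt x = x := Real.mul_self_sqrt hx.le
      calc x ^ 2 * 4 = 4 * x * (Real.sqrt x * Real.sqrt x) := by rw [this]; ring
        _ = _ := by ring
    rw [e1] at hHlow
    calc Real.sqrt y * min A ((3 / 2) * x ^ 2 / y ^ 2) ≤ Real.sqrt x * A :=
          mul_le_mul (Real.sqrt_le_sqrt h) (min_le_left _ _)
            (le_min hA0 (by positivity)) (Real.sqrt_nonneg _)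
      _ ≤ 6 * A * (Real.sqrt x / 4) := by
          have := mul_nonneg hA0 (Real.sqrt_nonneg x)
          nlinarith
      _ ≤ _ := mul_le_mul_of_nonneg_left hHlow (by positivity)
  · have hzy : z = y := max_eq_right h
    rw [hzy] at hHlow
    have hs := Real.sqrt_pos.2 hy
    have hyy : Real.sqrt y * Real.sqrt y = y := Real.mul_self_sqrt hy.le
    calc Real.sqrt y * min A ((3 / 2) * x ^ 2 / y ^ 2) ≤
          Real.sqrt y * ((3 / 2) * x ^ 2 / y ^ 2) :=
          mul_le_mul_of_nonneg_left (min_le_right _ _) (Real.sqrt_nonneg _)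
      _ = 6 * (x ^ 2 / (4 * (y * Real.sqrt y))) := by
          rw [← mul_div_assoc, ← mul_div_assoc, div_eq_div_iff (by positivity) (by positivity)]
          calc Real.sqrt y * ((3 / 2) * x ^ 2) * (4 * (y * Real.sqrt y)) =
                6 * x ^ 2 * y * (Real.sqrt y * Real.sqrt y) := by ring
            _ = 6 * x ^ 2 * y ^ 2 := by rw [hyy]; ring
      _ ≤ 6 * A * (x ^ 2 / (4 * (y * Real.sqrt y))) := by
          have : 0 ≤ x ^ 2 / (4 * (y * Real.sqrt y)) := by positivity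
          nlinarith
      _ ≤ _ := mul_le_mul_of_nonneg_left hHlow (by positivity)

theorem scalar_count_natAbs (m : ℕ) (φ : ℕ → ℝ) (hφ : ∀ i, 0 ≤ φ i) :
    ∑ a ∈ Finset.Icc (-(m : ℤ)) m, φ a.natAbs ≤ 2 * ∑ i ∈ Finset.range (m + 1), φ i := by
  have hmaps : ∀ a ∈ Finset.Icc (-(m : ℤ)) m, a.natAbs ∈ Finset.range (m + 1) := by
    intro a ha
    rw [Finset.mem_Icc] at ha
    rw [Finset.mem_range]
    omega
  rw [← Finset.sum_fiberwise_of_maps_to hmaps, Finset.mul_sum]
  refine Finset.sum_le_sum fun i _ => ?_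
  have h1 : ∑ a ∈ (Finset.Icc (-(m : ℤ)) m).filter (fun a => a.natAbs = i), φ a.natAbs =
      ∑ _a ∈ (Finset.Icc (-(m : ℤ)) m).filter (fun a => a.natAbs = i), φ i := by
    refine Finset.sum_congr rfl fun a ha => ?_
    rw [(Finset.mem_filter.1 ha).2]
  rw [h1, Finset.sum_const, nsmul_eq_mul]
  apply mul_le_mul_of_nonneg_right _ (hφ i)
  have hsub : (Finset.Icc (-(m : ℤ)) m).filter (fun a => a.natAbs = i) ⊆ {(i : ℤ), -(i : ℤ)} := by
    intro a ha
    rw [Finset.mem_filter] at ha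
    rw [Finset.mem_insert, Finset.mem_singleton]
    omega
  have := (Finset.card_le_card hsub).trans Finset.card_le_two
  exact_mod_cast this

theorem scalar_count_BB_nonneg {A : ℝ} (hA : 1 ≤ A) (N : ℕ) (s : ℝ) : 0 ≤ BB A N s := by
  have hAN : 0 ≤ A * (N : ℝ) := by positivity
  rw [BB]
  split_ifs
  · exact hAN
  · apply le_min hAN
    positivity

/-- one fibre -/
theorem scalar_count_fibre {C3 δ : ℝ} (hC3 : 1 ≤ C3)
    (h3 : ∀ m n : ℕ, 1 ≤ m → m ≤ n →
    ∀ F : Finset (ℤ × ℤ × ℤ), (∀ p ∈ F, p.1 ^ 2 + p.2.1 ^ 2 + p.2.2 ^ 2 = m) →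
      (F.card : ℝ) ≤ C3 * Real.sqrt m * (n : ℝ) ^ δ)
    {A : ℝ} (hA : 1 ≤ A) (e k N : ℕ) (he : 1 ≤ e) (hN : 1 ≤ N) (a : ℤ) (j : ℕ) (hj1 : 1 ≤ j)
    (hjR : j ≤ 5 ^ k) (haj : a.natAbs = 5 ^ k - j) :
    ∑ p ∈ (QQ k).filter (fun p => p.1 = a), (if ((e : ℤ) ∣ p.2.1 ∧ (e : ℤ) ∣ p.2.2.1 ∧
        (e : ℤ) ∣ p.2.2.2) then
      BB A N (((p.2.1 ^ 2 + p.2.2.1 ^ 2 + p.2.2.2 ^ 2 : ℤ) : ℝ) / 25 ^ k) else 0) ≤
      if e ^ 2 ∣ j * (2 * 5 ^ k - j) then
        C3 * (Real.sqrt (2 * 5 ^ k) / e) * ((25 : ℝ) ^ k) ^ δ * N *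
          (6 * A * scalar_count_H (5 ^ k / N) j) else 0 := by
  have hNr : (1 : ℝ) ≤ N := by exact_mod_cast hN
  have hN0 : (0 : ℝ) < N := by linarith
  have her : (1 : ℝ) ≤ e := by exact_mod_cast he
  have he0 : (0 : ℝ) < e := by linarith
  have hez : (0 : ℤ) < e := by exact_mod_cast he
  set R : ℝ := (5 : ℝ) ^ k with hR
  have hR0 : 0 < R := by positivity
  have hR2 : (25 : ℝ) ^ k = R ^ 2 := by
    rw [hR, ← pow_mul, mul_comm, pow_mul]; norm_num
  have hj0 : (0 : ℝ) < j := by exact_mod_cast hj1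
  have hjle : (j : ℝ) ≤ R := by
    rw [hR]
    exact_mod_cast hjR
  have ha2 : (a : ℤ) ^ 2 = (5 ^ k - j) ^ 2 := by
    have h1 : (a : ℤ) ^ 2 = ((a.natAbs : ℕ) : ℤ) ^ 2 := by
      rw [Int.natCast_natAbs, sq_abs]
    rw [h1, haj, Nat.cast_sub hjR]
    push_cast
    rfl
  have h25 : (25 : ℤ) ^ k = (5 ^ k) ^ 2 := by
    rw [← pow_mul, mul_comm, pow_mul]; norm_num
  -- the filtered set
  rw [← Finset.sum_filter]
  set G := ((QQ k).filter (fun p => p.1 = a)).filter (fun p => (e : ℤ) ∣ p.2.1 ∧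
    (e : ℤ) ∣ p.2.2.1 ∧ (e : ℤ) ∣ p.2.2.2) with hG
  set M : ℕ := j * (2 * 5 ^ k - j) with hM
  have hMz : (M : ℤ) = j * (2 * 5 ^ k - j) := by
    rw [hM, Nat.cast_mul, Nat.cast_sub (by omega)]
    push_cast
    rfl
  have hsum : ∀ p ∈ G, p.2.1 ^ 2 + p.2.2.1 ^ 2 + p.2.2.2 ^ 2 = (M : ℤ) := by
    intro p hp
    rw [hG, Finset.mem_filter, Finset.mem_filter, QQ, Finset.mem_filter] at hp
    have h1 := hp.1.1.2
    rw [hp.1.2, ha2, h25] at h1
    rw [hMz]
    linarith
  have hM1 : 1 ≤ M := by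
    rw [hM]
    exact Nat.one_le_iff_ne_zero.2 (Nat.mul_ne_zero (by omega) (by omega))
  have hMr : (M : ℝ) = j * (2 * R - j) := by
    have h1 : ((M : ℤ) : ℝ) = (((j : ℤ) * (2 * 5 ^ k - j) : ℤ) : ℝ) := by rw [hMz]
    push_cast at h1
    rw [h1, hR]
  have hMlow : j * R ≤ (M : ℝ) := by
    rw [hMr]
    apply mul_le_mul_of_nonneg_left _ hj0.le
    linarith
  have hMup : (M : ℝ) ≤ 2 * R * j := by
    rw [hMr]
    nlinarith
  have hMup2 : M ≤ 25 ^ k := by
    have h1 : (M : ℤ) ≤ 25 ^ k := by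
      rw [hMz, h25]
      nlinarith [sq_nonneg ((5 : ℤ) ^ k - j)]
    exact_mod_cast h1
  by_cases hd : e ^ 2 ∣ M
  · rw [if_pos hd]
    obtain ⟨m, hm⟩ := hd
    have hm1 : 1 ≤ m := by
      rcases Nat.eq_zero_or_pos m with h | h
      · rw [h, mul_zero] at hm
        omega
      · exact h
    have hmM : m ≤ M := by
      rw [hm]
      exact Nat.le_mul_of_pos_left m (by positivity)
    have hmr : Real.sqrt m = Real.sqrt M / e := by
      have : (M : ℝ) = (e : ℝ) ^ 2 * m := by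
        rw [hm]
        push_cast
        ring
      rw [this, Real.sqrt_mul (by positivity), Real.sqrt_sq he0.le]
      field_simp
    have hcard : (G.card : ℝ) ≤ C3 * Real.sqrt m * ((25 ^ k : ℕ) : ℝ) ^ δ := by
      have hinj : Set.InjOn (fun p : ℤ × ℤ × ℤ × ℤ =>
          (p.2.1 / (e : ℤ), p.2.2.1 / (e : ℤ), p.2.2.2 / (e : ℤ))) (G : Set (ℤ × ℤ × ℤ × ℤ)) := by
        intro p hp q hq h
        rw [Finset.mem_coe, hG, Finset.mem_filter, Finset.mem_filter] at hp hq
        obtain ⟨⟨_, hp1⟩, hpa, hpb, hpc⟩ := hp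
        obtain ⟨⟨_, hq1⟩, hqa, hqb, hqc⟩ := hq
        simp only [Prod.mk.injEq] at h
        refine Prod.ext (hp1.trans hq1.symm) (Prod.ext ?_ (Prod.ext ?_ ?_))
        · rw [← Int.ediv_mul_cancel hpa, ← Int.ediv_mul_cancel hqa, h.1]
        · rw [← Int.ediv_mul_cancel hpb, ← Int.ediv_mul_cancel hqb, h.2.1]
        · rw [← Int.ediv_mul_cancel hpc, ← Int.ediv_mul_cancel hqc, h.2.2]
      rw [← Finset.card_image_of_injOn hinj]
      apply h3 m (25 ^ k) hm1 (hmM.trans hMup2)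
      intro y hy
      rw [Finset.mem_image] at hy
      obtain ⟨p, hp, rfl⟩ := hy
      have hs := hsum p hp
      rw [hG, Finset.mem_filter] at hp
      obtain ⟨_, ⟨x1, hx1⟩, ⟨x2, hx2⟩, ⟨x3, hx3⟩⟩ := hp
      rw [hx1, hx2, hx3] at hs
      simp only [hx1, hx2, hx3, Int.mul_ediv_cancel_left _ hez.ne']
      have hMz2 : (M : ℤ) = (e : ℤ) ^ 2 * m := by
        rw [hm]
        push_cast
        ring
      rw [hMz2] at hs
      have he2 : (e : ℤ) ^ 2 ≠ 0 := by positivity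
      apply mul_left_cancel₀ he2
      linarith
    have hs : ∀ p ∈ G,
        BB A N (((p.2.1 ^ 2 + p.2.2.1 ^ 2 + p.2.2.2 ^ 2 : ℤ) : ℝ) / 25 ^ k) ≤
        N * min A ((3 / 2) * (R / N) ^ 2 / (j : ℝ) ^ 2) := by
      intro p hp
      rw [hsum p hp, hR2]
      have hM0 : (0 : ℝ) < ((M : ℤ) : ℝ) := by exact_mod_cast hM1
      have hspos : 0 < ((M : ℤ) : ℝ) / R ^ 2 := by positivity
      rw [BB, if_neg (not_le.2 hspos)]
      rw [mul_min_of_nonneg _ _ hN0.le]
      apply min_le_min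
      · rw [mul_comm]
      · have h4 : (j : ℝ) / R ≤ ((M : ℤ) : ℝ) / R ^ 2 := by
          rw [div_le_div_iff₀ hR0 (by positivity)]
          have : (j : ℝ) * R ≤ ((M : ℤ) : ℝ) := by
            push_cast; exact hMlow
          nlinarith
        have h5 : (3 / 2) / (N * (((M : ℤ) : ℝ) / R ^ 2) ^ 2) ≤
            (3 / 2) / (N * ((j : ℝ) / R) ^ 2) := by
          apply div_le_div_of_nonneg_left (by norm_num) (by positivity)
          apply mul_le_mul_of_nonneg_left _ hN0.le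
          exact pow_le_pow_left₀ (by positivity) h4 2
        refine h5.trans (le_of_eq ?_)
        field_simp
    refine (Finset.sum_le_sum hs).trans ?_
    rw [Finset.sum_const, nsmul_eq_mul]
    have hmin0 : 0 ≤ min A ((3 / 2) * (R / N) ^ 2 / (j : ℝ) ^ 2) := by
      apply le_min (by linarith)
      positivity
    have hsqM : Real.sqrt M ≤ Real.sqrt (2 * R) * Real.sqrt j := by
      rw [← Real.sqrt_mul (by positivity)]
      exact Real.sqrt_le_sqrt hMup
    have hmaj := scalar_count_major hA (div_pos hR0 hN0) hj0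
    have h25c : (((25 ^ k : ℕ) : ℝ)) = (25 : ℝ) ^ k := by push_cast; rfl
    rw [h25c] at hcard
    have hδ0 : 0 ≤ ((25 : ℝ) ^ k) ^ δ := by positivity
    calc (G.card : ℝ) * (N * min A ((3 / 2) * (R / N) ^ 2 / (j : ℝ) ^ 2))
        ≤ (C3 * (Real.sqrt (2 * R) * Real.sqrt j / e) * ((25 : ℝ) ^ k) ^ δ) *
          (N * min A ((3 / 2) * (R / N) ^ 2 / (j : ℝ) ^ 2)) := by
          apply mul_le_mul_of_nonneg_right _ (by positivity)
          refine hcard.trans ?_
          apply mul_le_mul_of_nonneg_right _ hδ0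
          apply mul_le_mul_of_nonneg_left _ (by linarith)
          rw [hmr]
          exact div_le_div_of_nonneg_right hsqM he0.le
      _ = C3 * (Real.sqrt (2 * R) / e) * ((25 : ℝ) ^ k) ^ δ * N *
          (Real.sqrt j * min A ((3 / 2) * (R / N) ^ 2 / (j : ℝ) ^ 2)) := by
          field_simp
      _ ≤ _ := by
          apply mul_le_mul_of_nonneg_left hmaj
          positivity
  · rw [if_neg hd]
    have hempty : G = ∅ := by
      rw [Finset.eq_empty_iff_forall_notMem]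
      intro p hp
      have hs := hsum p hp
      rw [hG, Finset.mem_filter] at hp
      obtain ⟨_, hx1, hx2, hx3⟩ := hp
      apply hd
      have h1 : ((e : ℤ)) ^ 2 ∣ (M : ℤ) := by
        rw [← hs]
        exact dvd_add (dvd_add (pow_dvd_pow_of_dvd hx1 2) (pow_dvd_pow_of_dvd hx2 2))
          (pow_dvd_pow_of_dvd hx3 2)
      exact_mod_cast h1
    rw [hempty, Finset.sum_empty]

theorem scalar_count_fibre0 {A : ℝ} (hA : 1 ≤ A) (e k N : ℕ) (a : ℤ)
    (hik : a.natAbs = 5 ^ k) :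
    ∑ p ∈ (QQ k).filter (fun p => p.1 = a), (if ((e : ℤ) ∣ p.2.1 ∧ (e : ℤ) ∣ p.2.2.1 ∧
        (e : ℤ) ∣ p.2.2.2) then
      BB A N (((p.2.1 ^ 2 + p.2.2.1 ^ 2 + p.2.2.2 ^ 2 : ℤ) : ℝ) / 25 ^ k) else 0) ≤ A * N := by
  have ha2 : (a : ℤ) ^ 2 = 25 ^ k := by
    have : (a : ℤ) ^ 2 = ((a.natAbs : ℕ) : ℤ) ^ 2 := by
      rw [Int.natCast_natAbs, sq_abs]
    rw [this, hik]
    push_cast
    rw [← pow_mul, mul_comm, pow_mul]; norm_num
  have hall : ∀ p ∈ (QQ k).filter (fun p => p.1 = a), p = (a, 0, 0, 0) := by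
    intro p hp
    rw [Finset.mem_filter] at hp
    have h1 := hp.1
    rw [QQ, Finset.mem_filter] at h1
    have h2 := h1.2
    rw [hp.2, ha2] at h2
    have h3 : p.2.1 ^ 2 = 0 := by
      nlinarith [sq_nonneg p.2.1, sq_nonneg p.2.2.1, sq_nonneg p.2.2.2]
    have h4 : p.2.2.1 ^ 2 = 0 := by
      nlinarith [sq_nonneg p.2.1, sq_nonneg p.2.2.1, sq_nonneg p.2.2.2]
    have h5 : p.2.2.2 ^ 2 = 0 := by
      nlinarith [sq_nonneg p.2.1, sq_nonneg p.2.2.1, sq_nonneg p.2.2.2]
    have h6 := pow_eq_zero_iff (two_ne_zero) |>.1 h3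
    have h7 := pow_eq_zero_iff (two_ne_zero) |>.1 h4
    have h8 := pow_eq_zero_iff (two_ne_zero) |>.1 h5
    refine Prod.ext hp.2 (Prod.ext h6 (Prod.ext h7 h8))
  have hsub : (QQ k).filter (fun p => p.1 = a) ⊆ {(a, 0, 0, 0)} := by
    intro p hp
    rw [Finset.mem_singleton]
    exact hall p hp
  refine (Finset.sum_le_sum_of_subset_of_nonneg hsub fun p _ _ => ?_).trans ?_
  · split_ifs
    · exact scalar_count_BB_nonneg hA N _
    · exact le_rfl
  rw [Finset.sum_singleton]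
  simp [BB]

/-- TARGET -/
theorem scalar_count (A : ℝ) (hA : 1 ≤ A) (δ : ℝ) (hδ : 0 < δ) : ∃ C : ℝ, 0 < C ∧
    ∀ (e k N : ℕ), 1 ≤ e → Odd e → Nat.Coprime e 5 → 1 ≤ N →
    (∑ p ∈ QQ k, if ((e : ℤ) ∣ p.2.1 ∧ (e : ℤ) ∣ p.2.2.1 ∧ (e : ℤ) ∣ p.2.2.2) then
        BB A N (((p.2.1 ^ 2 + p.2.2.1 ^ 2 + p.2.2.2 ^ 2 : ℤ) : ℝ) / 25 ^ k) else 0) ≤
      C * (25 : ℝ) ^ (δ * k) * (e : ℝ) ^ δ *
        (N + Real.sqrt N * 5 ^ k / e + 25 ^ k / ((e : ℝ) ^ 3 * Real.sqrt N)) := by
  obtain ⟨C3, hC3, h3⟩ := scalar_count_r3 δ hδ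
  obtain ⟨Cd, hCd, hd⟩ := Pool.Agent.H510R2.divisor_bound (δ / 2) (by positivity)
  refine ⟨2 * A + 48 * C3 * A * Cd, by positivity, ?_⟩
  intro e k N he hodd hcop hN
  have hNr : (1 : ℝ) ≤ N := by exact_mod_cast hN
  have hN0 : (0 : ℝ) < N := by linarith
  have her : (1 : ℝ) ≤ e := by exact_mod_cast he
  have he0 : (0 : ℝ) < e := by linarith
  set R : ℝ := (5 : ℝ) ^ k with hR
  have hR0 : 0 < R := by positivity
  have hR2 : (25 : ℝ) ^ k = R ^ 2 := by
    rw [hR, ← pow_mul, mul_comm, pow_mul]; norm_num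
  set x : ℝ := R / N with hx
  have hx0 : 0 < x := div_pos hR0 hN0
  set D : ℝ := (25 : ℝ) ^ (δ * k) with hD
  have hD1 : 1 ≤ D := Real.one_le_rpow (by norm_num) (by positivity)
  have hD' : ((25 : ℝ) ^ k) ^ δ = D := by
    rw [hD, ← Real.rpow_natCast, ← Real.rpow_mul (by norm_num), mul_comm]
  set E : ℝ := (e : ℝ) ^ δ with hE
  have hE1 : 1 ≤ E := Real.one_le_rpow her hδ.le
  set K : ℝ := C3 * (Real.sqrt (2 * R) / e) * D * N * (6 * A) with hK
  have hK0 : 0 ≤ K := by positivity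
  let φ : ℕ → ℝ := fun i => if i < 5 ^ k then
    (if e ^ 2 ∣ (5 ^ k - i) * (2 * 5 ^ k - (5 ^ k - i)) then
      K * scalar_count_H x ((5 ^ k - i : ℕ) : ℝ) else 0) else A * N
  have hφ0 : ∀ i, 0 ≤ φ i := by
    intro i
    simp only [φ]
    split_ifs
    · exact mul_nonneg hK0 (scalar_count_H_nonneg hx0 (by positivity))
    · exact le_rfl
    · positivity
  have hmaps : ∀ p ∈ QQ k, p.1 ∈ Finset.Icc (-((5 ^ k : ℕ) : ℤ)) ((5 ^ k : ℕ) : ℤ) := by
    intro p hp
    rw [QQ, Finset.mem_filter, Finset.mem_product] at hp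
    have := hp.1.1
    push_cast
    exact this
  have h1 : (∑ p ∈ QQ k, if ((e : ℤ) ∣ p.2.1 ∧ (e : ℤ) ∣ p.2.2.1 ∧ (e : ℤ) ∣ p.2.2.2) then
        BB A N (((p.2.1 ^ 2 + p.2.2.1 ^ 2 + p.2.2.2 ^ 2 : ℤ) : ℝ) / 25 ^ k) else 0) ≤
      ∑ a ∈ Finset.Icc (-((5 ^ k : ℕ) : ℤ)) ((5 ^ k : ℕ) : ℤ), φ a.natAbs := by
    rw [← Finset.sum_fiberwise_of_maps_to hmaps]
    refine Finset.sum_le_sum fun a ha => ?_
    rw [Finset.mem_Icc] at ha
    simp only [φ]
    by_cases h : a.natAbs < 5 ^ k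
    · rw [if_pos h]
      have hf := scalar_count_fibre hC3 h3 hA e k N he hN a (5 ^ k - a.natAbs) (by omega) (by omega)
        (by omega)
      refine hf.trans (le_of_eq ?_)
      split_ifs
      · rw [hD', hK]
        ring
      · rfl
    · rw [if_neg h]
      exact scalar_count_fibre0 hA e k N a (by omega)
  have h2 := h1.trans (scalar_count_natAbs (5 ^ k) φ hφ0)
  have h4 : ∑ i ∈ Finset.range (5 ^ k + 1), φ i = A * N +
      K * ∑ j ∈ (Finset.Icc (1 : ℕ) (5 ^ k)).filter (fun j => e ^ 2 ∣ j * (2 * 5 ^ k - j)),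
        scalar_count_H x j := by
    rw [Finset.sum_range_succ]
    have e1 : φ (5 ^ k) = A * N := by simp [φ]
    rw [e1, add_comm]
    congr 1
    rw [Finset.mul_sum, Finset.sum_filter]
    apply Finset.sum_bij' (fun (i : ℕ) _ => 5 ^ k - i) (fun (j : ℕ) _ => 5 ^ k - j)
    · intro i hi
      rw [Finset.mem_range] at hi
      rw [Finset.mem_Icc]
      omega
    · intro j hj
      rw [Finset.mem_Icc] at hj
      rw [Finset.mem_range]
      omega
    · intro i hi
      rw [Finset.mem_range] at hi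
      omega
    · intro j hj
      rw [Finset.mem_Icc] at hj
      omega
    · intro i hi
      rw [Finset.mem_range] at hi
      simp only [φ, hi, if_true]
  have hcop2 : Nat.Coprime (e ^ 2) (2 * 5 ^ k) := by
    apply Nat.Coprime.pow_left
    apply Nat.Coprime.mul_right
    · exact (Nat.coprime_two_right).2 hodd
    · exact Nat.Coprime.pow_right k hcop
  have h5 := scalar_count_classes (fun j => scalar_count_H x j)
    (fun i j hij => scalar_count_H_anti hx0 (by positivity) (by exact_mod_cast hij))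
    (fun i => scalar_count_H_nonneg hx0 (by positivity)) (e ^ 2) (5 ^ k)
    (Nat.one_le_pow _ _ he) hcop2
  have h6 := scalar_count_H_sum hx0 (5 ^ k)
  have h7 := hd (e ^ 2) (Nat.one_le_pow _ _ he)
  have hE2 : (((e ^ 2 : ℕ) : ℝ)) ^ (δ / 2) = E := by
    push_cast
    rw [hE, ← Real.rpow_natCast, ← Real.rpow_mul he0.le]
    congr 1
    push_cast
    ring
  rw [hE2] at h7
  have hsx := Real.sqrt_pos.2 hx0
  have h8 : ∑ j ∈ (Finset.Icc (1 : ℕ) (5 ^ k)).filter (fun j => e ^ 2 ∣ j * (2 * 5 ^ k - j)),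
        scalar_count_H x j ≤ (Cd * E) * (Real.sqrt x + 2 * (x * Real.sqrt x) / (e : ℝ) ^ 2) := by
    refine h5.trans ?_
    have h9 : scalar_count_H x ((0 : ℕ) : ℝ) = Real.sqrt x := by
      rw [Nat.cast_zero]
      exact scalar_count_H_zero hx0
    simp only [h9]
    apply mul_le_mul h7 _ _ (by positivity)
    · have : (((e ^ 2 : ℕ) : ℝ)) = (e : ℝ) ^ 2 := by push_cast; rfl
      rw [this]
      gcongr
    · have : 0 ≤ ∑ i ∈ Finset.Icc (1 : ℕ) (5 ^ k), scalar_count_H x (i : ℝ) :=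
        Finset.sum_nonneg fun i _ => scalar_count_H_nonneg hx0 (by positivity)
      positivity
  rw [h4] at h2
  -- identities with square roots
  have hsR := Real.sqrt_pos.2 hR0
  have hsN := Real.sqrt_pos.2 hN0
  have hRR : Real.sqrt R * Real.sqrt R = R := Real.mul_self_sqrt hR0.le
  have hNN : Real.sqrt N * Real.sqrt N = N := Real.mul_self_sqrt hN0.le
  have hsqx : Real.sqrt x = Real.sqrt R / Real.sqrt N := by
    rw [hx, Real.sqrt_div hR0.le]
  have hs2 : Real.sqrt (2 * R) ≤ 2 * Real.sqrt R := by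
    rw [Real.sqrt_mul (by norm_num)]
    apply mul_le_mul_of_nonneg_right _ hsR.le
    rw [Real.sqrt_le_left (by norm_num)]
    norm_num
  set S1 : ℝ := Real.sqrt N * R / e with hS1
  set S2 : ℝ := R ^ 2 / ((e : ℝ) ^ 3 * Real.sqrt N) with hS2
  have hS10 : 0 ≤ S1 := by positivity
  have hS20 : 0 ≤ S2 := by positivity
  have hKS : K * (Real.sqrt x + 2 * (x * Real.sqrt x) / (e : ℝ) ^ 2) ≤
      12 * C3 * A * D * (S1 + 2 * S2) := by
    have hstep : K ≤ C3 * (2 * Real.sqrt R / e) * D * N * (6 * A) := by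
      rw [hK]
      gcongr
    have hid : C3 * (2 * Real.sqrt R / e) * D * N * (6 * A) *
        (Real.sqrt x + 2 * (x * Real.sqrt x) / (e : ℝ) ^ 2) = 12 * C3 * A * D * (S1 + 2 * S2) := by
      have i1 : (Real.sqrt R / e) * N * Real.sqrt x = S1 := by
        rw [hsqx, hS1]
        calc Real.sqrt R / e * N * (Real.sqrt R / Real.sqrt N) =
              (Real.sqrt R * Real.sqrt R) * (N / Real.sqrt N) / e := by
              field_simp
          _ = Real.sqrt N * R / e := by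
              rw [hRR, Real.div_sqrt]
              ring
      have i2 : (Real.sqrt R / e) * N * ((x * Real.sqrt x) / (e : ℝ) ^ 2) = S2 := by
        rw [hsqx, hS2, hx]
        calc Real.sqrt R / e * N * (R / N * (Real.sqrt R / Real.sqrt N) / (e : ℝ) ^ 2) =
              (Real.sqrt R * Real.sqrt R) * R / ((e : ℝ) ^ 3 * Real.sqrt N) := by
              field_simp
          _ = R ^ 2 / ((e : ℝ) ^ 3 * Real.sqrt N) := by
              rw [hRR]
              ring
      rw [← i1, ← i2]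
      ring
    rw [← hid]
    apply mul_le_mul_of_nonneg_right hstep
    positivity
  have h10 : K * ∑ j ∈ (Finset.Icc (1 : ℕ) (5 ^ k)).filter (fun j => e ^ 2 ∣ j * (2 * 5 ^ k - j)),
        scalar_count_H x j ≤ (Cd * E) * (12 * C3 * A * D * (S1 + 2 * S2)) := by
    calc K * ∑ j ∈ (Finset.Icc (1 : ℕ) (5 ^ k)).filter (fun j => e ^ 2 ∣ j * (2 * 5 ^ k - j)),
          scalar_count_H x j ≤
          K * ((Cd * E) * (Real.sqrt x + 2 * (x * Real.sqrt x) / (e : ℝ) ^ 2)) :=
          mul_le_mul_of_nonneg_left h8 hK0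
      _ = (Cd * E) * (K * (Real.sqrt x + 2 * (x * Real.sqrt x) / (e : ℝ) ^ 2)) := by ring
      _ ≤ _ := mul_le_mul_of_nonneg_left hKS (by positivity)
  refine h2.trans ?_
  rw [hR2]
  have hDE : 1 ≤ D * E := one_le_mul_of_one_le_of_one_le hD1 hE1
  have hDE0 : 0 ≤ D * E := by positivity
  have q1 : 2 * (A * N) ≤ 2 * A * D * E * N := by
    have : A * N ≤ (D * E) * (A * N) := le_mul_of_one_le_left (by positivity) hDE
    nlinarith
  have q2 : 2 * ((Cd * E) * (12 * C3 * A * D * (S1 + 2 * S2))) ≤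
      48 * C3 * A * Cd * D * E * (S1 + S2) := by
    have : 0 ≤ Cd * E * (C3 * A * D) * S1 := by positivity
    nlinarith
  have q3 : 0 ≤ 2 * A * D * E * (S1 + S2) := by positivity
  have q4 : 0 ≤ 48 * C3 * A * Cd * D * E * N := by positivity
  calc 2 * (A * N + K * ∑ j ∈ (Finset.Icc (1 : ℕ) (5 ^ k)).filter
          (fun j => e ^ 2 ∣ j * (2 * 5 ^ k - j)), scalar_count_H x j)
      ≤ 2 * (A * N) + 2 * ((Cd * E) * (12 * C3 * A * D * (S1 + 2 * S2))) := by linarith
    _ ≤ 2 * A * D * E * N + 48 * C3 * A * Cd * D * E * (S1 + S2) := by linarith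
    _ ≤ (2 * A + 48 * C3 * A * Cd) * D * E * (N + S1 + S2) := by nlinarith

end Pool.Agent.H978V
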