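import Pool.Agent.H978V.Defs
import Pool.Agent.H510R2.Div
import Pool.Agent.Helper557.Rz.M_act
import Pool.Agent.Helper557.Rz.M_inj
import Pool.Agent.Helper557.Rz.M_tb
import Pool.Agent.Helper557.Rz.M_fnb
import Pool.Agent.Helper557.Rz.M_treval
import Pool.Agent.Helper557.Rz.M_rq
import Pool.Agent.H978V.G2
import Pool.Agent.H978V.G3
import Pool.Agent.H978V.G4
import Pool.Agent.H978V.G5

/-!
JOB G6 (owner helper978, MP_06cce2_nt).  Starting files `Helper557/Rz/*`, `H510R2/Div.lean`; `H978V/{Ar,Defs}.lean` are on origin/main.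

Block bounds for new eigenfunctions.

PROOF.  Let `N = 25^i`, `K = kk (25 N) - kk N` (features from `kk_feat`), `A = 25`.  For words `w, w'` with `q = qw w * star (qw w')`:
`∫ K(w⁻¹x, w'⁻¹x) dx = fN (25N) s - fN N s ≤ BB 25 N s`, `s = im2 q / 25^l`: this is done in `Helper557/Rz/M_tb.lean` (`block_bound`, `block_gen`) with
`tr_eval`, `RQ_u`, `fN_diff`, `fN_le`; copy.  So by `trace_prod`, then `pair_sum_le` with `G l q = [e ∣ imI, imJ, imK] BB 25 N (im2 q/25^l)`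
(`e` prime to 5, so `e ∣ 5x ↔ e ∣ x`; for `G 0 1 = BB 25 N 0 = 25 N`), and `scalar_count 25 δ`:
`lam² QK K H ≤ e² τ(e) ip(H,H) [6·5^{l-1}·25 N + ∑_{k=1}^l 5^{l-k} C 25^{δk} e^δ (N + √N 5^k/e + 25^k/(e³√N))]`
`≤ C' e^{2+2δ} ip · 25^{δl} l (5^l N + √N 5^l + 25^l/(e³√N))`   (`τ(e) ≤ C e^δ`).
Choose `l = 3 i + m`, `m ≥ 1` minimal with `e³ ≤ 5^m` (so `5^m ≤ 5 e³`): `5^l ≤ 5 e³ N^{3/2}`, so the last term is `≤ 5·5^l N`:
`lam² QK ≤ C'' l 25^{δl} e^{2δ} e² N 5^l ip`, and `e² N ≤ (e³ N^{3/2})^{2/3} ≤ 5^{2l/3}`.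
`lam_lower` (`M_act.lean`) with `a₀ = 4.35`, `a₀ + 5/a₀ ≤ 5.5 = 11/2`: `lam ≥ 4.35^l`, and `4.35² = 18.92 > 5^{5/3} · 1.29` (5^{5/3} = 14.62).  With `δ` small
(e.g. `25^{δ} ≤ 1.02`, `e^{2δ} ≤ 5^{δ l}`), `QK ≤ C l (14.62·1.05/18.92)^l ip ≤ C (0.82)^l ip ≤ C 5^{-l/10}... ` (note `5^{-1/10} = 0.851`), and
`5^{-l/10} = 5^{-3i/10} 5^{-m/10} ≤ 5^{-3i/10} e^{-3/10}`.
Second statement: `K = 1 = kk 1` (one constant feature), `∫ K = 1 ≤ BB 25 1 s` for `0 ≤ s ≤ 1` (`min 25 (1.5/s²) ≥ 1`), so the same computation with `N = 1`, `l = m`.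
-/

set_option autoImplicit false

open MeasureTheory Set
open scoped Quaternion

namespace Pool.Agent.H978V

open Pool.Agent.Helper557.Rz






/-! ### auxiliary lemmas for the target -/

lemma g6_inv (K : S 3 → S 3 → ℝ) (hKr : ∀ (g : Iso 3) x y, K (rot g x) (rot g y) = K x y)
    (g g' : Iso 3) (x : S 3) : K (rot g⁻¹ x) (rot g'⁻¹ x) = K x (rot (g * g'⁻¹) x) := by
  rw [← hKr g (rot g⁻¹ x) (rot g'⁻¹ x), rot_rot_inv, ← rot_mul]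

lemma g6_cg (K : S 3 → S 3 → ℝ) (hK : Continuous fun p : S 3 × S 3 => K p.1 p.2)
    (f : S 3 → S 3) (hf : Continuous f) : Continuous fun x : S 3 => K x (f x) :=
  hK.comp (continuous_id.prodMk hf)

lemma g6_kc (M : ℕ) (g : Iso 3) : Continuous fun x : S 3 => kk M x (rot g x) :=
  g6_cg (kk M) (kk_cont M) (rot g) (rot_continuous g)

lemma g6_pair_int (R : ℍ[ℝ]ˣ →* Iso 3) (hR : IsRot R) (N N' : ℕ) (hN : 1 ≤ N) (hNN : N ≤ N')
    (A : ℝ) (hA : (N' : ℝ) ≤ A * N) (l : ℕ) (w w' : List (Fin 6)) (hwl : w ∈ RW l)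
    (hwl' : w' ∈ RW l) :
    ∫ x, (kk N' (rot (R (uw w))⁻¹ x) (rot (R (uw w'))⁻¹ x) -
      kk N (rot (R (uw w))⁻¹ x) (rot (R (uw w'))⁻¹ x)) ∂(sg 3) ≤
      BB A N ((im2 (qw w * star (qw w')) : ℝ) / 25 ^ l) := by
  have := sg_prob 3 (by norm_num)
  have hN' : 1 ≤ N' := hN.trans hNN
  have hk : ∀ (M : ℕ) (x : S 3), kk M (rot (R (uw w))⁻¹ x) (rot (R (uw w'))⁻¹ x) =
      kk M x (rot (R (uw w * (uw w')⁻¹)) x) := by
    intro M x
    have e3 : R (uw w) * (R (uw w'))⁻¹ = R (uw w * (uw w')⁻¹) := by rw [map_mul, map_inv]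
    rw [g6_inv (kk M) (fun g x y => by simp only [kk, ker_rot]), e3]
  simp only [hk]
  obtain ⟨h0, h1, b, hb, hu⟩ := RQ_u R hR (uw w * (uw w')⁻¹)
  have hkc : ∀ M : ℕ, Continuous fun x : S 3 => kk M x (rot (R (uw w * (uw w')⁻¹)) x) :=
    fun M => g6_kc M _
  rw [integral_sub (s_int _ (hkc N')) (s_int _ (hkc N)),
    tr_eval N' hN' _ _ h0 b hb hu, tr_eval N hN _ _ h0 b hb hu, ← sq_word l w w' hwl hwl']
  generalize Helper557.Rz.sq ((uw w * (uw w')⁻¹ : ℍ[ℝ]ˣ) : ℍ[ℝ]) = s at h0 h1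
  have hA' : fN N' s - fN N s ≤ A * N := by
    have a1 := fN_le N' hN' s h0 h1
    have a2 := fN_nonneg' N s h0 h1
    linarith
  unfold BB
  split_ifs with hs0
  · exact hA'
  · exact le_min hA' (fN_diff N N' hN hNN s (not_le.mp hs0) h1)

lemma g6_one_int (R : ℍ[ℝ]ˣ →* Iso 3) (hR : IsRot R) (l : ℕ) (w w' : List (Fin 6))
    (hwl : w ∈ RW l) (hwl' : w' ∈ RW l) :
    ∫ _x : S 3, (1 : ℝ) ∂(sg 3) ≤
      BB 25 (1 : ℕ) ((im2 (qw w * star (qw w')) : ℝ) / 25 ^ l) := by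
  have := sg_prob 3 (by norm_num)
  obtain ⟨h0, h1, -⟩ := RQ_u R hR (uw w * (uw w')⁻¹)
  rw [← sq_word l w w' hwl hwl']
  generalize Helper557.Rz.sq ((uw w * (uw w')⁻¹ : ℍ[ℝ]ˣ) : ℍ[ℝ]) = s at h0 h1
  rw [integral_const]
  simp only [probReal_univ, smul_eq_mul, mul_one, Nat.cast_one]
  unfold BB
  split_ifs with hs0
  · norm_num
  · push Not at hs0
    refine le_min (by norm_num) ?_
    rw [one_mul, le_div_iff₀ (by positivity)]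
    nlinarith

lemma BB_nonneg (A : ℝ) (hA : 0 ≤ A) (N : ℝ) (hN : 0 ≤ N) (s : ℝ) : 0 ≤ BB A N s := by
  unfold BB
  split_ifs with h
  · positivity
  · push Not at h
    exact le_min (by positivity) (by positivity)

lemma im2_smul (q : ℍ[ℤ]) : im2 ((5 : ℤ) • q) = 25 * im2 q := by
  unfold im2
  rw [Quaternion.imI_smul, Quaternion.imJ_smul, Quaternion.imK_smul]
  simp only [smul_eq_mul]
  ring

lemma dvd_five (e : ℕ) (h5 : Nat.Coprime e 5) (x : ℤ) : (e : ℤ) ∣ 5 * x ↔ (e : ℤ) ∣ x := by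
  have : IsCoprime (e : ℤ) 5 := by exact_mod_cast Nat.isCoprime_iff_coprime.2 h5
  exact ⟨fun h => this.dvd_of_dvd_mul_left h, fun h => h.mul_left 5⟩

lemma ip_nonneg {e : ℕ} [NeZero e] (H : Vec e → C(S 3, ℝ)) : 0 ≤ ip H H := by
  unfold ip
  exact Finset.sum_nonneg fun u _ => integral_nonneg fun x => mul_self_nonneg _

lemma g6_core (δ : ℝ) (hδ : 0 < δ) : ∃ C : ℝ, 0 < C ∧ ∀ (R : ℍ[ℝ]ˣ →* Iso 3), IsRot R →
    ∀ (e : ℕ) [NeZero e], Odd e → Nat.Coprime e 5 → ∀ t : ZMod e, t * t = -1 →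
    ∀ H : Vec e → C(S 3, ℝ), AdmF H → NewF H → ∀ lm : ℝ,
    (∀ u, TF R t H u = lm • H u) →
    ∀ (J : Type) [Fintype J] (q : J → C(S 3, ℝ)) (K : S 3 → S 3 → ℝ)
    (_hK : ∀ x y, K x y = ∑ j, q j x * q j y) (N : ℕ) (_hN : 1 ≤ N) (l : ℕ) (_hl : 1 ≤ l)
    (_hI : ∀ w ∈ RW l, ∀ w' ∈ RW l,
      ∫ x, K (rot (R (uw w))⁻¹ x) (rot (R (uw w'))⁻¹ x) ∂(sg 3) ≤
        BB 25 N ((im2 (qw w * star (qw w')) : ℝ) / 25 ^ l))
    (_hsz : (5 : ℝ) ^ l ≤ 5 * (e : ℝ) ^ 3 * (Real.sqrt N) ^ 3),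
    (lam lm l) ^ 2 * QK K H ≤
      C * ((e : ℝ) ^ 2 * ((e : ℝ) ^ δ) ^ 2 * (l * (25 : ℝ) ^ (δ * l) * (5 ^ l * N))) * ip H H := by
  classical
  obtain ⟨C1, hC1, hs⟩ := scalar_count 25 (by norm_num) δ hδ
  obtain ⟨C2, hC2, hd⟩ := Pool.Agent.H510R2.divisor_bound δ hδ
  refine ⟨C2 * (30 + 7 * C1), by positivity, ?_⟩
  intro R hR e hne he h5 t ht H hA hNw lm hE J hJ q K hK N hN l hl hI hsz
  have he0 : e ≠ 0 := NeZero.ne e
  have he1 : 1 ≤ e := Nat.one_le_iff_ne_zero.2 he0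
  have heR : (1 : ℝ) ≤ e := by exact_mod_cast he1
  have heδ : (1 : ℝ) ≤ (e : ℝ) ^ δ := Real.one_le_rpow heR hδ.le
  have hNR : (1 : ℝ) ≤ N := by exact_mod_cast hN
  have hr1 : 1 ≤ Real.sqrt N := by
    rw [show (1 : ℝ) = Real.sqrt 1 by simp]; exact Real.sqrt_le_sqrt hNR
  have hr2 : Real.sqrt N ^ 2 = N := Real.sq_sqrt (by linarith)
  have hipn := ip_nonneg H
  have htp := trace_prod R hR e he h5 t ht H hA hNw lm hE J q K hK l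
  obtain ⟨G, hGdef⟩ : ∃ G : ℕ → ℍ[ℤ] → ℝ, ∀ l q, G l q =
      if ((e : ℤ) ∣ q.imI ∧ (e : ℤ) ∣ q.imJ ∧ (e : ℤ) ∣ q.imK) then
        BB 25 N ((im2 q : ℝ) / 25 ^ l) else 0 := ⟨_, fun _ _ => rfl⟩
  have hG0 : ∀ l q, 0 ≤ G l q := by
    intro l q
    rw [hGdef]
    split_ifs
    · exact BB_nonneg 25 (by norm_num) N (by linarith) _
    · exact le_rfl
  have hG5 : ∀ l q, G (l + 1) ((5 : ℤ) • q) = G l q := by
    intro l q
    rw [hGdef, hGdef, im2_smul, Quaternion.imI_smul, Quaternion.imJ_smul, Quaternion.imK_smul]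
    simp only [smul_eq_mul, dvd_five e h5]
    have : (((25 * im2 q : ℤ)) : ℝ) / 25 ^ (l + 1) = (im2 q : ℝ) / 25 ^ l := by
      push_cast
      rw [pow_succ]
      field_simp
    rw [this]
  have hps := pair_sum_le G hG0 hG5 l hl
  have h1 : (∑ w ∈ RW l, ∑ w' ∈ RW l,
        if ((e : ℤ) ∣ (qw w * star (qw w')).imI ∧ (e : ℤ) ∣ (qw w * star (qw w')).imJ ∧
          (e : ℤ) ∣ (qw w * star (qw w')).imK) then
          ∫ x, K (rot (R (uw w))⁻¹ x) (rot (R (uw w'))⁻¹ x) ∂(sg 3) else 0) ≤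
      ∑ w ∈ RW l, ∑ w' ∈ RW l, G l (qw w * star (qw w')) := by
    refine Finset.sum_le_sum fun w hw => Finset.sum_le_sum fun w' hw' => ?_
    rw [hGdef]
    split_ifs
    · exact hI w hw w' hw'
    · exact le_rfl
  have hG01 : G 0 1 = 25 * N := by
    rw [hGdef]
    simp [BB, im2]
  have h25δ : ∀ k : ℕ, k ≤ l → (25 : ℝ) ^ (δ * k) ≤ (25 : ℝ) ^ (δ * l) := by
    intro k hk
    apply Real.rpow_le_rpow_of_exponent_le (by norm_num)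
    have : (k : ℝ) ≤ l := by exact_mod_cast hk
    nlinarith
  have h25l : (1 : ℝ) ≤ (25 : ℝ) ^ (δ * l) := Real.one_le_rpow (by norm_num) (by positivity)
  have hk : ∀ k ∈ Finset.Icc 1 l, (5 : ℝ) ^ (l - k) *
        ∑ p ∈ QQ k, G k ⟨p.1, p.2.1, p.2.2.1, p.2.2.2⟩ ≤
        C1 * 25 ^ (δ * l) * (e : ℝ) ^ δ * (7 * (5 ^ l * N)) := by
    intro k hk
    rw [Finset.mem_Icc] at hk
    have h2 : ∑ p ∈ QQ k, G k ⟨p.1, p.2.1, p.2.2.1, p.2.2.2⟩ ≤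
        C1 * (25 : ℝ) ^ (δ * k) * (e : ℝ) ^ δ *
        (N + Real.sqrt N * 5 ^ k / e + 25 ^ k / ((e : ℝ) ^ 3 * Real.sqrt N)) := by
      refine le_trans (le_of_eq ?_) (hs e k N he1 he h5 hN)
      refine Finset.sum_congr rfl fun p _ => ?_
      refine (hGdef k _).trans ?_
      simp only [im2]
    have hb1 : (1 : ℝ) ≤ 5 ^ k := one_le_pow₀ (by norm_num)
    have ha1 : (1 : ℝ) ≤ 5 ^ (l - k) := one_le_pow₀ (by norm_num)
    have hab : (5 : ℝ) ^ (l - k) * 5 ^ k = 5 ^ l := by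
      rw [← pow_add]; congr 1; omega
    have h25 : (25 : ℝ) ^ k = (5 ^ k) ^ 2 := by
      rw [← pow_mul, mul_comm, pow_mul]; norm_num
    have h3 : (5 : ℝ) ^ (l - k) *
        (N + Real.sqrt N * 5 ^ k / e + 25 ^ k / ((e : ℝ) ^ 3 * Real.sqrt N)) ≤
        7 * (5 ^ l * N) := by
      rw [h25, ← hab]
      set a := (5 : ℝ) ^ (l - k)
      set b := (5 : ℝ) ^ k
      set r := Real.sqrt N
      have hrpos : 0 < r := by linarith
      have hbl : b ≤ 5 * (e : ℝ) ^ 3 * r ^ 3 := by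
        refine le_trans ?_ hsz
        rw [← hab]
        nlinarith
      have t1 : (N : ℝ) ≤ b * N := by nlinarith
      have t2 : r * b / e ≤ b * N := by
        rw [div_le_iff₀ (by linarith), ← hr2]
        have : r * 1 ≤ r * (r * e) :=
          mul_le_mul_of_nonneg_left (by nlinarith) hrpos.le
        nlinarith
      have t3 : b ^ 2 / ((e : ℝ) ^ 3 * r) ≤ 5 * (b * N) := by
        have hpos : 0 < (e : ℝ) ^ 3 * r := by positivity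
        rw [div_le_iff₀ hpos, ← hr2]
        have : b * b ≤ b * (5 * (e : ℝ) ^ 3 * r ^ 3) :=
          mul_le_mul_of_nonneg_left hbl (by linarith)
        nlinarith
      have t4 : (N : ℝ) + r * b / e + b ^ 2 / ((e : ℝ) ^ 3 * r) ≤ 7 * (b * N) := by linarith
      have := mul_le_mul_of_nonneg_left t4 (show 0 ≤ a by linarith)
      linarith
    have h4 : 0 ≤ (N : ℝ) + Real.sqrt N * 5 ^ k / e + 25 ^ k / ((e : ℝ) ^ 3 * Real.sqrt N) := by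
      positivity
    calc (5 : ℝ) ^ (l - k) * ∑ p ∈ QQ k, G k ⟨p.1, p.2.1, p.2.2.1, p.2.2.2⟩
        ≤ (5 : ℝ) ^ (l - k) * (C1 * (25 : ℝ) ^ (δ * k) * (e : ℝ) ^ δ *
        (N + Real.sqrt N * 5 ^ k / e + 25 ^ k / ((e : ℝ) ^ 3 * Real.sqrt N))) :=
          mul_le_mul_of_nonneg_left h2 (by positivity)
      _ = (C1 * (25 : ℝ) ^ (δ * k) * (e : ℝ) ^ δ) * ((5 : ℝ) ^ (l - k) *
        (N + Real.sqrt N * 5 ^ k / e + 25 ^ k / ((e : ℝ) ^ 3 * Real.sqrt N))) := by ring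
      _ ≤ (C1 * 25 ^ (δ * l) * (e : ℝ) ^ δ) * (7 * (5 ^ l * N)) := by
          refine mul_le_mul ?_ h3 (by positivity) (by positivity)
          refine mul_le_mul_of_nonneg_right ?_ (by positivity)
          exact mul_le_mul_of_nonneg_left (h25δ k hk.2) hC1.le
  have hsum : ∑ k ∈ Finset.Icc 1 l, (5 : ℝ) ^ (l - k) *
        ∑ p ∈ QQ k, G k ⟨p.1, p.2.1, p.2.2.1, p.2.2.2⟩ ≤
        l * (C1 * 25 ^ (δ * l) * (e : ℝ) ^ δ * (7 * (5 ^ l * N))) := by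
    refine (Finset.sum_le_sum hk).trans (le_of_eq ?_)
    rw [Finset.sum_const, nsmul_eq_mul]
    simp
  have hl1 : (1 : ℝ) ≤ l := by exact_mod_cast hl
  have hS : (∑ w ∈ RW l, ∑ w' ∈ RW l,
        if ((e : ℤ) ∣ (qw w * star (qw w')).imI ∧ (e : ℤ) ∣ (qw w * star (qw w')).imJ ∧
          (e : ℤ) ∣ (qw w * star (qw w')).imK) then
          ∫ x, K (rot (R (uw w))⁻¹ x) (rot (R (uw w'))⁻¹ x) ∂(sg 3) else 0) ≤
      (30 + 7 * C1) * (l * 25 ^ (δ * l) * (e : ℝ) ^ δ * (5 ^ l * N)) := by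
    refine h1.trans (hps.trans ?_)
    rw [hG01]
    have e1 : 6 * (5 : ℝ) ^ (l - 1) * (25 * N) = 30 * (5 ^ l * N) := by
      obtain ⟨m, rfl⟩ : ∃ m, l = m + 1 := ⟨l - 1, by omega⟩
      rw [Nat.add_sub_cancel, pow_succ]
      ring
    have e2 : (5 : ℝ) ^ l * N ≤ l * 25 ^ (δ * l) * (e : ℝ) ^ δ * (5 ^ l * N) := by
      have : 1 ≤ (l : ℝ) * 25 ^ (δ * l) * (e : ℝ) ^ δ := by
        have a1 : 1 ≤ (l : ℝ) * 25 ^ (δ * l) := one_le_mul_of_one_le_of_one_le hl1 h25l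
        exact one_le_mul_of_one_le_of_one_le a1 heδ
      exact le_mul_of_one_le_left (by positivity) this
    rw [e1]
    nlinarith [hsum, e2]
  have hcard := hd e he1
  calc (lam lm l) ^ 2 * QK K H
      ≤ (e : ℝ) ^ 2 * (e.divisors.card) *
      (∑ w ∈ RW l, ∑ w' ∈ RW l,
        if ((e : ℤ) ∣ (qw w * star (qw w')).imI ∧ (e : ℤ) ∣ (qw w * star (qw w')).imJ ∧
          (e : ℤ) ∣ (qw w * star (qw w')).imK) then
          ∫ x, K (rot (R (uw w))⁻¹ x) (rot (R (uw w'))⁻¹ x) ∂(sg 3) else 0) * ip H H := htp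
    _ ≤ (e : ℝ) ^ 2 * (e.divisors.card) *
      ((30 + 7 * C1) * (l * 25 ^ (δ * l) * (e : ℝ) ^ δ * (5 ^ l * N))) * ip H H := by
        refine mul_le_mul_of_nonneg_right ?_ hipn
        exact mul_le_mul_of_nonneg_left hS (by positivity)
    _ ≤ (e : ℝ) ^ 2 * (C2 * (e : ℝ) ^ δ) *
      ((30 + 7 * C1) * (l * 25 ^ (δ * l) * (e : ℝ) ^ δ * (5 ^ l * N))) * ip H H := by
        gcongr
    _ = _ := by ring



lemma g6_pow18 : (5 : ℝ) ^ (269 / 150 : ℝ) ≤ 18 := by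
  have h : ((5 : ℝ) ^ (61 / 34 : ℝ)) ^ (34 : ℕ) ≤ 18 ^ 34 := by
    rw [← Real.rpow_natCast, ← Real.rpow_mul (by norm_num)]
    norm_num
  have h2 : (5 : ℝ) ^ (61 / 34 : ℝ) ≤ 18 :=
    (pow_le_pow_iff_left₀ (by positivity) (by norm_num) (by norm_num)).1 h
  exact (Real.rpow_le_rpow_of_exponent_le (by norm_num) (by norm_num)).trans h2

lemma g6_bern (l : ℕ) : (l : ℝ) * 18 ^ l ≤ 20 * ((87 / 20 : ℝ) ^ 2) ^ l := by
  have h : 1 + (l : ℝ) * (1 / 20) ≤ (1 + 1 / 20 : ℝ) ^ l :=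
    one_add_mul_le_pow (by norm_num) l
  have h2 : ((1 + 1 / 20 : ℝ)) ^ l * 18 ^ l ≤ ((87 / 20 : ℝ) ^ 2) ^ l := by
    rw [← mul_pow]
    exact pow_le_pow_left₀ (by norm_num) (by norm_num) l
  have h3 : (0 : ℝ) < 18 ^ l := by positivity
  nlinarith

lemma g6_num (C : ℝ) (hC : 0 < C) (e i m l : ℕ) (he : 1 ≤ e) (hm1 : 1 ≤ m) (hl : l = 3 * i + m)
    (hm : (e : ℝ) ^ 3 ≤ 5 ^ m) (lm Q I : ℝ) (hI : 0 ≤ I) (h1 : 11 / 2 ≤ lm) (h2 : lm ≤ 6)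
    (h : (lam lm l) ^ 2 * Q ≤ C * ((e : ℝ) ^ 2 * ((e : ℝ) ^ (1 / 100 : ℝ)) ^ 2 *
      (l * (25 : ℝ) ^ ((1 / 100 : ℝ) * l) * (5 ^ l * (25 : ℝ) ^ i))) * I) :
    Q ≤ 20 * C * (5 : ℝ) ^ (-(3 / 10 : ℝ) * i) * (e : ℝ) ^ (-(3 / 10 : ℝ)) * I := by
  have heR : (1 : ℝ) ≤ e := by exact_mod_cast he
  rcases lt_or_ge Q 0 with hQ | hQ
  · exact hQ.le.trans (by positivity)
  have hll : (87 / 20 : ℝ) ^ l ≤ lam lm l := by
    refine lam_lower (87 / 20) ?_ (by norm_num) lm (le_trans (by norm_num) h1) h2 l (by omega)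
    rw [Real.sqrt_lt' (by norm_num)]
    norm_num
  have hll2 : ((87 / 20 : ℝ) ^ 2) ^ l ≤ (lam lm l) ^ 2 := by
    rw [← pow_mul, mul_comm 2 l, pow_mul]
    exact pow_le_pow_left₀ (by positivity) hll 2
  set X : ℝ := (5 : ℝ) ^ ((l : ℝ) / 3) with hX
  have hXpos : 0 < X := by positivity
  have hX3 : X ^ 3 = 5 ^ l := by
    rw [hX, ← Real.rpow_natCast, ← Real.rpow_mul (by norm_num), ← Real.rpow_natCast 5 l]
    congr 1
    push_cast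
    ring
  have hE : (e : ℝ) * 5 ^ i ≤ X := by
    have h3 : ((e : ℝ) * 5 ^ i) ^ 3 ≤ X ^ 3 := by
      rw [hX3, hl, pow_add, mul_pow, ← pow_mul, mul_comm i 3, mul_comm]
      exact mul_le_mul_of_nonneg_left hm (by positivity)
    exact (pow_le_pow_iff_left₀ (by positivity) hXpos.le (by norm_num)).1 h3
  have h5i : (1 : ℝ) ≤ 5 ^ i := one_le_pow₀ (by norm_num)
  have heX : (e : ℝ) ≤ X := by nlinarith
  have b1 : (e : ℝ) ^ 2 * 25 ^ i ≤ X ^ 2 := by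
    have : (e : ℝ) ^ 2 * 25 ^ i = ((e : ℝ) * 5 ^ i) ^ 2 := by
      rw [mul_pow, ← pow_mul, mul_comm i 2, pow_mul]; norm_num
    rw [this]
    exact pow_le_pow_left₀ (by positivity) hE 2
  have b2 : (e : ℝ) ^ (1 / 100 : ℝ) ≤ X ^ (1 / 100 : ℝ) :=
    Real.rpow_le_rpow (by positivity) heX (by norm_num)
  have b3 : ((e : ℝ) ^ (1 / 100 : ℝ)) ^ 2 ≤ (X ^ (1 / 100 : ℝ)) ^ 2 :=
    pow_le_pow_left₀ (by positivity) b2 2
  have hbase : X ^ 2 * (X ^ (1 / 100 : ℝ)) ^ 2 * ((25 : ℝ) ^ ((1 / 100 : ℝ) * l) * 5 ^ l) ≤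
      18 ^ l * (5 : ℝ) ^ (-(l : ℝ) / 10) := by
    have e1 : X ^ 2 * (X ^ (1 / 100 : ℝ)) ^ 2 * ((25 : ℝ) ^ ((1 / 100 : ℝ) * l) * 5 ^ l) =
        ((5 : ℝ) ^ (269 / 150 : ℝ)) ^ l * (5 : ℝ) ^ (-(l : ℝ) / 10) := by
      have h25 : (25 : ℝ) = 5 ^ (2 : ℝ) := by norm_num
      rw [h25, hX]
      simp only [← Real.rpow_natCast]
      rw [← Real.rpow_mul (by positivity), ← Real.rpow_mul (by positivity),
        ← Real.rpow_mul (by positivity), ← Real.rpow_mul (by positivity),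
        ← Real.rpow_mul (by positivity), ← Real.rpow_add (by norm_num),
        ← Real.rpow_add (by norm_num), ← Real.rpow_add (by norm_num),
        ← Real.rpow_add (by norm_num)]
      congr 1
      push_cast
      ring
    rw [e1]
    exact mul_le_mul_of_nonneg_right (pow_le_pow_left₀ (by positivity) g6_pow18 l) (by positivity)
  have hmain : ((87 / 20 : ℝ) ^ 2) ^ l * Q ≤
      ((87 / 20 : ℝ) ^ 2) ^ l * (20 * C * (5 : ℝ) ^ (-(l : ℝ) / 10) * I) := by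
    calc ((87 / 20 : ℝ) ^ 2) ^ l * Q ≤ (lam lm l) ^ 2 * Q := mul_le_mul_of_nonneg_right hll2 hQ
      _ ≤ C * ((e : ℝ) ^ 2 * ((e : ℝ) ^ (1 / 100 : ℝ)) ^ 2 *
          (l * (25 : ℝ) ^ ((1 / 100 : ℝ) * l) * (5 ^ l * (25 : ℝ) ^ i))) * I := h
      _ = C * (((e : ℝ) ^ 2 * 25 ^ i) * ((e : ℝ) ^ (1 / 100 : ℝ)) ^ 2 *
          ((25 : ℝ) ^ ((1 / 100 : ℝ) * l) * 5 ^ l) * l) * I := by ring
      _ ≤ C * (X ^ 2 * (X ^ (1 / 100 : ℝ)) ^ 2 *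
          ((25 : ℝ) ^ ((1 / 100 : ℝ) * l) * 5 ^ l) * l) * I := by gcongr
      _ ≤ C * (18 ^ l * (5 : ℝ) ^ (-(l : ℝ) / 10) * l) * I := by gcongr
      _ = C * (5 : ℝ) ^ (-(l : ℝ) / 10) * I * (l * 18 ^ l) := by ring
      _ ≤ C * (5 : ℝ) ^ (-(l : ℝ) / 10) * I * (20 * ((87 / 20 : ℝ) ^ 2) ^ l) :=
          mul_le_mul_of_nonneg_left (g6_bern l) (by positivity)
      _ = _ := by ring
  have hQ2 : Q ≤ 20 * C * (5 : ℝ) ^ (-(l : ℝ) / 10) * I :=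
    le_of_mul_le_mul_left hmain (by positivity)
  refine hQ2.trans ?_
  have hsplit : (5 : ℝ) ^ (-(l : ℝ) / 10) =
      (5 : ℝ) ^ (-(3 / 10 : ℝ) * i) * (5 : ℝ) ^ (-(m : ℝ) / 10) := by
    rw [← Real.rpow_add (by norm_num)]
    congr 1
    rw [hl]
    push_cast
    ring
  have hme : (5 : ℝ) ^ (-(m : ℝ) / 10) ≤ (e : ℝ) ^ (-(3 / 10 : ℝ)) := by
    have a1 : (e : ℝ) ^ (3 / 10 : ℝ) ≤ (5 : ℝ) ^ ((m : ℝ) / 10) := by
      have a2 := Real.rpow_le_rpow (by positivity) hm (show (0 : ℝ) ≤ 1 / 10 by norm_num)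
      rw [← Real.rpow_natCast, ← Real.rpow_natCast, ← Real.rpow_mul (by positivity),
        ← Real.rpow_mul (by norm_num)] at a2
      have e1 : ((3 : ℕ) : ℝ) * (1 / 10) = 3 / 10 := by norm_num
      have e2 : (m : ℝ) * (1 / 10) = (m : ℝ) / 10 := by ring
      rwa [e1, e2] at a2
    rw [neg_div, Real.rpow_neg (by norm_num), Real.rpow_neg (by positivity)]
    exact inv_anti₀ (by positivity) a1
  rw [hsplit]
  calc 20 * C * ((5 : ℝ) ^ (-(3 / 10 : ℝ) * i) * (5 : ℝ) ^ (-(m : ℝ) / 10)) * I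
      = 20 * C * (5 : ℝ) ^ (-(3 / 10 : ℝ) * i) * (5 : ℝ) ^ (-(m : ℝ) / 10) * I := by ring
    _ ≤ _ := by gcongr

/-- TARGET -/
theorem block_e (R : ℍ[ℝ]ˣ →* Iso 3) (hR : IsRot R) : ∃ C : ℝ, 0 < C ∧
    ∀ (e : ℕ) [NeZero e], Odd e → Nat.Coprime e 5 → ∀ t : ZMod e, t * t = -1 →
    ∀ H : Vec e → C(S 3, ℝ), AdmF H → NewF H → ∀ lm : ℝ, 11 / 2 ≤ lm → lm ≤ 6 →
    (∀ u, TF R t H u = lm • H u) →
    (∀ i : ℕ, QK (fun x y => kk (25 ^ (i + 1)) x y - kk (25 ^ i) x y) H ≤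
      C * (5 : ℝ) ^ (-(3 / 10 : ℝ) * i) * (e : ℝ) ^ (-(3 / 10 : ℝ)) * ip H H) ∧
    QK (fun _ _ => 1) H ≤ C * (e : ℝ) ^ (-(3 / 10 : ℝ)) * ip H H := by
  obtain ⟨C, hC, hcore⟩ := g6_core (1 / 100) (by norm_num)
  refine ⟨20 * C, by positivity, ?_⟩
  intro e hne he h5 t ht H hA hNw lm h1 h2 hE
  have he1 : 1 ≤ e := Nat.one_le_iff_ne_zero.2 (NeZero.ne e)
  set m := Nat.log 5 (e ^ 3) + 1 with hm
  have hm1 : 1 ≤ m := by omega
  have hme : (e : ℝ) ^ 3 ≤ 5 ^ m := by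
    have := (Nat.lt_pow_succ_log_self (b := 5) (by norm_num) (e ^ 3)).le
    exact_mod_cast this
  have hme2 : (5 : ℝ) ^ m ≤ 5 * (e : ℝ) ^ 3 := by
    have h3 : 5 ^ Nat.log 5 (e ^ 3) ≤ e ^ 3 := Nat.pow_log_le_self 5 (by positivity)
    have h4 : (5 : ℝ) ^ Nat.log 5 (e ^ 3) ≤ (e : ℝ) ^ 3 := by exact_mod_cast h3
    rw [hm, pow_succ]
    linarith
  have hsq : ∀ i : ℕ, Real.sqrt ((25 ^ i : ℕ) : ℝ) = 5 ^ i := by
    intro i
    push_cast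
    rw [show (25 : ℝ) ^ i = (5 ^ i) ^ 2 by rw [← pow_mul, mul_comm i 2, pow_mul]; norm_num]
    exact Real.sqrt_sq (by positivity)
  have hsz : ∀ i : ℕ, (5 : ℝ) ^ (3 * i + m) ≤ 5 * (e : ℝ) ^ 3 *
      (Real.sqrt ((25 ^ i : ℕ) : ℝ)) ^ 3 := by
    intro i
    rw [hsq, pow_add, ← pow_mul, mul_comm i 3, mul_comm]
    exact mul_le_mul_of_nonneg_right hme2 (by positivity)
  have hip := ip_nonneg H
  constructor
  · intro i
    have hNN : 25 ^ i ≤ 25 ^ (i + 1) := Nat.pow_le_pow_right (by norm_num) (by omega)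
    have hN1 : 1 ≤ 25 ^ i := Nat.one_le_pow _ _ (by norm_num)
    obtain ⟨J, hJ, q, hq⟩ := kk_feat (25 ^ i) (25 ^ (i + 1)) hN1 hNN
    have hc := hcore R hR e he h5 t ht H hA hNw lm hE J q
      (fun x y => kk (25 ^ (i + 1)) x y - kk (25 ^ i) x y) hq (25 ^ i) hN1 (3 * i + m)
      (by omega) (fun w hw w' hw' => g6_pair_int R hR (25 ^ i) (25 ^ (i + 1)) hN1 hNN 25
        (by push_cast; rw [pow_succ]; linarith) (3 * i + m) w w' hw hw') (hsz i)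
    have hc' := g6_num C hC e i m (3 * i + m) he1 hm1 rfl hme lm _ (ip H H) hip h1 h2
      (by simpa only [Nat.cast_pow, Nat.cast_ofNat] using hc)
    exact hc'
  · have hc := hcore R hR e he h5 t ht H hA hNw lm hE Unit (fun _ => 1)
      (fun _ _ => 1) (fun x y => by simp) 1 le_rfl (3 * 0 + m)
      (by omega) (fun w hw w' hw' => g6_one_int R hR (3 * 0 + m) w w' hw hw')
      (by simpa using hsz 0)
    have hc' := g6_num C hC e 0 m (3 * 0 + m) he1 hm1 rfl hme lm _ (ip H H) hip h1 h2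
      (by simpa only [Nat.cast_one, pow_zero] using hc)
    simpa using hc'

end Pool.Agent.H978V
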