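import Pool.Agent.H978V.Defs
import Pool.Agent.Helper557.Rz.M_ev
import Pool.Agent.H978V.G6

/-!
JOB G7 (owner helper978, MP_06cce2_nt).  Starting files `Helper557/Rz/*`; `H978V/{Ar,Defs}.lean` are on origin/main.

PROOF.  `QK (kk (25^I)) H = QK (kk 1) H + ∑_{i<I} QK (kk 25^{i+1} - kk 25^i) H`, `kk 1 = 1`.  For `I → ∞`, `QK (kk (25^I)) H → ip H H` by `MN_tendsto`
(`QK (kk N) H = ∑_u ∫ H u x · MN N (H u) x`; see `ev_close`, `ev_diff` in `M_ev.lean`).  By `block_e` all the terms are bounded: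
`ip H H ≤ C e^{-3/10} (1 + 1/(1 - 5^{-3/10})) ip H H`, so `ip H H = 0` if `e ≥ E₀`.  And for `I₀` fixed with `C 5^{-3 I₀/10}/(1 - 5^{-3/10}) ≤ 1/2`
(`e ≥ 1`): `ip H H ≤ QK (kk (25^{I₀})) H + (1/2) ip H H`.  `N₀ = 25^{I₀}`.
-/

set_option autoImplicit false

open MeasureTheory Set
open scoped Quaternion

namespace Pool.Agent.H978V

open Pool.Agent.Helper557.Rz



lemma nl_q : 0 < (5 : ℝ) ^ (-(3 / 10 : ℝ)) ∧ (5 : ℝ) ^ (-(3 / 10 : ℝ)) < 1 :=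
  ⟨Real.rpow_pos_of_pos (by norm_num) _, Real.rpow_lt_one_of_one_lt_of_neg (by norm_num) (by norm_num)⟩

lemma nl_pow (i : ℕ) : (5 : ℝ) ^ (-(3 / 10 : ℝ) * i) = ((5 : ℝ) ^ (-(3 / 10 : ℝ))) ^ i :=
  Real.rpow_mul_natCast (by norm_num) _ _

lemma nl_QK {e : ℕ} [NeZero e] (N : ℕ) (H : Vec e → C(S 3, ℝ)) :
    QK (kk N) H = ∑ u : Vec e, ∫ x, H u x * MN N (H u) x ∂(sg 3) := by
  unfold QK
  refine Finset.sum_congr rfl fun u _ => ?_
  refine integral_congr_ae (Filter.Eventually.of_forall fun x => ?_)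
  exact ev_inner N (H u) x

lemma nl_diff {e : ℕ} [NeZero e] (N N' : ℕ) (hN : 1 ≤ N) (hN' : 1 ≤ N') (H : Vec e → C(S 3, ℝ)) :
    QK (fun x y => kk N' x y - kk N x y) H = QK (kk N') H - QK (kk N) H := by
  rw [nl_QK, nl_QK, ← Finset.sum_sub_distrib]
  unfold QK
  refine Finset.sum_congr rfl fun u _ => ?_
  exact ev_diff N N' hN hN' (H u)

lemma nl_one {e : ℕ} [NeZero e] (H : Vec e → C(S 3, ℝ)) :
    QK (kk (25 ^ 0)) H = QK (fun _ _ => 1) H := by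
  have : (kk (25 ^ 0) : S 3 → S 3 → ℝ) = fun _ _ => 1 := by
    funext x y
    simp [kk]
  rw [this]

lemma nl_sq {e : ℕ} (H : Vec e → C(S 3, ℝ)) (u : Vec e) :
    Integrable (fun x => H u x * H u x) (sg 3) :=
  ev_integrable ((H u).continuous.mul (H u).continuous)

lemma nl_nonneg {e : ℕ} [NeZero e] (H : Vec e → C(S 3, ℝ)) : 0 ≤ ip H H := by
  unfold ip
  exact Finset.sum_nonneg fun u _ => integral_nonneg fun x => mul_self_nonneg _

lemma nl_close1 (N : ℕ) (hN : 1 ≤ N) (ψ : C(S 3, ℝ)) (ε : ℝ) (hε : 0 < ε)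
    (h : ∀ x : S 3, |MN N ψ x - ψ x| ≤ ε) :
    ∫ x, ψ x * ψ x ∂(sg 3) ≤ ∫ x, ψ x * MN N ψ x ∂(sg 3) +
      ε * ((1 + ∫ x, ψ x * ψ x ∂(sg 3)) / 2) := by
  have hp := sg_prob 3 (by norm_num)
  have i1 : Integrable (fun x => ψ x * ψ x) (sg 3) :=
    ev_integrable (ψ.continuous.mul ψ.continuous)
  have i2 : Integrable (fun x => ψ x * MN N ψ x) (sg 3) :=
    ev_integrable (ψ.continuous.mul (ev_MN_cont N hN ψ))
  have i3 : Integrable (fun x => ε * ((1 + ψ x * ψ x) / 2)) (sg 3) :=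
    ev_integrable (continuous_const.mul
      ((continuous_const.add (ψ.continuous.mul ψ.continuous)).div_const 2))
  have h2 : ∫ x, ψ x * ψ x ∂(sg 3) ≤
      ∫ x, (ψ x * MN N ψ x + ε * ((1 + ψ x * ψ x) / 2)) ∂(sg 3) := by
    refine integral_mono i1 (i2.add i3) fun x => ?_
    show ψ x * ψ x ≤ ψ x * MN N ψ x + ε * ((1 + ψ x * ψ x) / 2)
    have h3 : |ψ x * (MN N ψ x - ψ x)| ≤ |ψ x| * ε := by
      rw [abs_mul]
      exact mul_le_mul_of_nonneg_left (h x) (abs_nonneg _)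
    have h4 : |ψ x| ≤ (1 + ψ x * ψ x) / 2 := by
      have := sq_nonneg (|ψ x| - 1)
      rw [sub_sq, sq_abs] at this
      nlinarith
    have h5 := (abs_le.1 h3).1
    nlinarith [mul_le_mul_of_nonneg_right h4 hε.le]
  have h6 : ∫ x, (ψ x * MN N ψ x + ε * ((1 + ψ x * ψ x) / 2)) ∂(sg 3) =
      ∫ x, ψ x * MN N ψ x ∂(sg 3) + ε * ((1 + ∫ x, ψ x * ψ x ∂(sg 3)) / 2) := by
    rw [integral_add i2 i3, integral_const_mul, integral_div, integral_add (integrable_const _) i1]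
    simp
  rw [h6] at h2
  exact h2

lemma nl_close {e : ℕ} [NeZero e] (H : Vec e → C(S 3, ℝ)) (ε : ℝ) (hε : 0 < ε) :
    ∃ N₁ : ℕ, ∀ N, N₁ ≤ N → ip H H ≤ QK (kk N) H + ε := by
  obtain ⟨M, hM⟩ : ∃ M : ℝ, M = ∑ u : Vec e, (1 + ∫ x, H u x * H u x ∂(sg 3)) / 2 := ⟨_, rfl⟩
  have hM0 : 0 ≤ M := by
    rw [hM]
    refine Finset.sum_nonneg fun u _ => ?_
    have : 0 ≤ ∫ x, H u x * H u x ∂(sg 3) := integral_nonneg fun x => mul_self_nonneg _
    linarith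
  have hε' : 0 < ε / (M + 1) := by positivity
  choose N₀ hN₀ hN₀' using fun u : Vec e => MN_tendsto (H u) (ε / (M + 1)) hε'
  refine ⟨max 1 (Finset.univ.sup N₀), fun N hN => ?_⟩
  have hN1 : 1 ≤ N := (le_max_left _ _).trans hN
  have h1 : ∀ u : Vec e, ∫ x, H u x * H u x ∂(sg 3) ≤ ∫ x, H u x * MN N (H u) x ∂(sg 3) +
      (ε / (M + 1)) * ((1 + ∫ x, H u x * H u x ∂(sg 3)) / 2) := by
    intro u
    refine nl_close1 N hN1 (H u) _ hε' (hN₀' u N ?_)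
    exact (Finset.le_sup (f := N₀) (Finset.mem_univ u)).trans ((le_max_right _ _).trans hN)
  have h2 : ip H H ≤ QK (kk N) H + (ε / (M + 1)) * M := by
    have e1 : (ε / (M + 1)) * M =
        ∑ u : Vec e, (ε / (M + 1)) * ((1 + ∫ x, H u x * H u x ∂(sg 3)) / 2) := by
      rw [← Finset.mul_sum, ← hM]
    rw [nl_QK, e1, ← Finset.sum_add_distrib]
    exact Finset.sum_le_sum fun u _ => h1 u
  have h3 : (ε / (M + 1)) * M ≤ ε := by
    rw [div_mul_eq_mul_div, div_le_iff₀ (by linarith)]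
    nlinarith
  linarith

lemma nl_E0 (C : ℝ) (hC : 0 < C) : ∃ E₀ : ℕ, 1 ≤ E₀ ∧ ∀ e : ℕ, E₀ ≤ e →
    C * (e : ℝ) ^ (-(3 / 10 : ℝ)) ≤ 1 / 2 := by
  have ht : Filter.Tendsto (fun n : ℕ => C * (n : ℝ) ^ (-(3 / 10 : ℝ))) Filter.atTop (nhds (C * 0)) :=
    ((tendsto_rpow_neg_atTop (by norm_num)).comp tendsto_natCast_atTop_atTop).const_mul C
  rw [mul_zero] at ht
  have h := (ht.eventually_lt_const (show (0 : ℝ) < 1 / 2 by norm_num))
  obtain ⟨E₀, hE₀⟩ := Filter.eventually_atTop.1 h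
  exact ⟨max 1 E₀, le_max_left _ _, fun e he => (hE₀ e ((le_max_right _ _).trans he)).le⟩

/-- TARGET -/
theorem new_low (R : ℍ[ℝ]ˣ →* Iso 3) (hR : IsRot R) : ∃ N₀ E₀ : ℕ, 1 ≤ N₀ ∧
    ∀ (e : ℕ) [NeZero e], Odd e → Nat.Coprime e 5 → ∀ t : ZMod e, t * t = -1 →
    ∀ H : Vec e → C(S 3, ℝ), AdmF H → NewF H → ∀ lm : ℝ, 11 / 2 ≤ lm → lm ≤ 6 →
    (∀ u, TF R t H u = lm • H u) →
    (E₀ ≤ e → ip H H = 0) ∧ 1 / 2 * ip H H ≤ QK (kk N₀) H := by
  obtain ⟨C, hC, hblock⟩ := block_e R hR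
  obtain ⟨q, hq⟩ : ∃ q : ℝ, q = (5 : ℝ) ^ (-(3 / 10 : ℝ)) := ⟨_, rfl⟩
  have hq0 : 0 < q := hq ▸ nl_q.1
  have hq1 : q < 1 := hq ▸ nl_q.2
  have h1q : 0 < 1 - q := by linarith
  obtain ⟨I₀, hI₀⟩ : ∃ I₀ : ℕ, C * q ^ I₀ / (1 - q) ≤ 1 / 2 := by
    obtain ⟨m, hm⟩ := exists_pow_lt_of_lt_one (show 0 < (1 - q) / (2 * C) by positivity) hq1
    refine ⟨m, ?_⟩
    rw [div_le_iff₀ h1q]
    have h3 : C * q ^ m ≤ C * ((1 - q) / (2 * C)) := mul_le_mul_of_nonneg_left hm.le hC.le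
    have h4 : C * ((1 - q) / (2 * C)) = 1 / 2 * (1 - q) := by field_simp
    linarith
  obtain ⟨E₀, hE₀1, hE₀⟩ := nl_E0 (C * (1 + 1 / (1 - q))) (by positivity)
  refine ⟨25 ^ I₀, E₀, Nat.one_le_pow _ _ (by norm_num), ?_⟩
  intro e _ hodd hcop t ht H hadm hnew lm hlm1 hlm2 heig
  obtain ⟨hb, hb0⟩ := hblock e hodd hcop t ht H hadm hnew lm hlm1 hlm2 heig
  have he0 : (0 : ℝ) < e := Nat.cast_pos.2 (Nat.pos_of_ne_zero (NeZero.ne e))
  have he1 : (1 : ℝ) ≤ e := by exact_mod_cast Nat.one_le_iff_ne_zero.2 (NeZero.ne e)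
  obtain ⟨w, hw⟩ : ∃ w : ℝ, w = (e : ℝ) ^ (-(3 / 10 : ℝ)) := ⟨_, rfl⟩
  have hw0 : 0 < w := hw ▸ Real.rpow_pos_of_pos he0 _
  have hw1 : w ≤ 1 := hw ▸ Real.rpow_le_one_of_one_le_of_nonpos he1 (by norm_num)
  have hI0 := nl_nonneg H
  rw [← hw] at hb0
  -- the blocks
  have hstep : ∀ i : ℕ, QK (kk (25 ^ (i + 1))) H ≤ QK (kk (25 ^ i)) H + C * q ^ i * w * ip H H := by
    intro i
    have h1 := hb i
    rw [nl_diff _ _ (Nat.one_le_pow _ _ (by norm_num)) (Nat.one_le_pow _ _ (by norm_num)), nl_pow,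
      ← hq, ← hw] at h1
    linarith
  have hsum : ∀ j i : ℕ, QK (kk (25 ^ (j + i))) H ≤
      QK (kk (25 ^ j)) H + C * w * ip H H * ((q ^ j - q ^ (j + i)) / (1 - q)) := by
    intro j i
    induction i with
    | zero => simp
    | succ i ih =>
      have h2 := hstep (j + i)
      have h3 : C * w * ip H H * ((q ^ j - q ^ (j + (i + 1))) / (1 - q)) =
          C * w * ip H H * ((q ^ j - q ^ (j + i)) / (1 - q)) + C * q ^ (j + i) * w * ip H H := by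
        field_simp
        ring
      rw [h3]
      have h4 : j + (i + 1) = j + i + 1 := by ring
      rw [h4]
      linarith
  have hmain : ∀ j : ℕ, ip H H ≤ QK (kk (25 ^ j)) H + C * w * ip H H * (q ^ j / (1 - q)) := by
    intro j
    refine le_of_forall_pos_le_add fun ε hε => ?_
    obtain ⟨N₁, hN₁⟩ := nl_close H ε hε
    have h5 : N₁ ≤ 25 ^ (j + N₁) := by
      have h2 : j + N₁ < 25 ^ (j + N₁) := Nat.lt_pow_self (by norm_num)
      omega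
    have h2 := hN₁ _ h5
    have h3 := hsum j N₁
    have h4 : C * w * ip H H * ((q ^ j - q ^ (j + N₁)) / (1 - q)) ≤
        C * w * ip H H * (q ^ j / (1 - q)) := by
      refine mul_le_mul_of_nonneg_left ?_ (by positivity)
      refine div_le_div_of_nonneg_right ?_ h1q.le
      have : 0 < q ^ (j + N₁) := pow_pos hq0 _
      linarith
    linarith
  constructor
  · intro hle
    have h1 := hmain 0
    rw [nl_one] at h1
    have h2 := hE₀ e hle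
    rw [← hw] at h2
    have h3 : C * w * ip H H + C * w * ip H H * (q ^ 0 / (1 - q)) =
        (C * (1 + 1 / (1 - q)) * w) * ip H H := by
      rw [pow_zero]; ring
    have h4 : (C * (1 + 1 / (1 - q)) * w) * ip H H ≤ 1 / 2 * ip H H :=
      mul_le_mul_of_nonneg_right h2 hI0
    linarith
  · have h1 := hmain I₀
    have h2 : C * w * ip H H * (q ^ I₀ / (1 - q)) = (C * q ^ I₀ / (1 - q)) * (w * ip H H) := by
      ring
    have h3 : (C * q ^ I₀ / (1 - q)) * (w * ip H H) ≤ 1 / 2 * (w * ip H H) :=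
      mul_le_mul_of_nonneg_right hI₀ (by positivity)
    have h4 : w * ip H H ≤ ip H H := by nlinarith
    linarith

end Pool.Agent.H978V
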