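import Pool.Agent.H978V.Defs
import Pool.Agent.Helper557.Rz.M_erg
import Pool.Agent.H978V.G8b

set_option autoImplicit false

open MeasureTheory Set
open scoped Quaternion

namespace Pool.Agent.H978V

open Pool.Agent.Helper557.Rz


theorem ep_Ph_mul {e : ℕ} (t : ZMod e) (ht : t * t = -1) (x y : ℍ[ℤ]) :
    Ph t (x * y) = Ph t x * Ph t y := by
  unfold Ph
  ext i j
  fin_cases i <;> fin_cases j <;>
    simp [Matrix.mul_apply, Fin.sum_univ_two]
  · linear_combination (-((x.imI : ZMod e) * y.imI + x.imK * y.imK)) * ht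
  · linear_combination (-((x.imI : ZMod e) * y.imK - x.imK * y.imI)) * ht
  · linear_combination (-((x.imK : ZMod e) * y.imI - x.imI * y.imK)) * ht
  · linear_combination (-((x.imI : ZMod e) * y.imI + x.imK * y.imK)) * ht

theorem ep_det {e : ℕ} (t : ZMod e) (ht : t * t = -1) (a : Fin 6) :
    (Ph t (al a)).det = 5 := by
  fin_cases a <;> simp [Ph, al, Matrix.det_fin_two]
  · linear_combination (-4 : ZMod e) * ht
  · norm_num
  · linear_combination (-4 : ZMod e) * ht
  · linear_combination (-4 : ZMod e) * ht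
  · norm_num
  · linear_combination (-4 : ZMod e) * ht

theorem ep_bij {e : ℕ} [NeZero e] (h5 : Nat.Coprime e 5) (t : ZMod e) (ht : t * t = -1)
    (a : Fin 6) : Function.Bijective (fun u : Vec e => (Ph t (al a)).mulVec u) := by
  have hu : IsUnit (Ph t (al a)) := by
    rw [Matrix.isUnit_iff_isUnit_det, ep_det t ht]
    have := (ZMod.isUnit_iff_coprime 5 e).2 h5.symm
    exact_mod_cast this
  exact Finite.injective_iff_bijective.1 (Matrix.mulVec_injective_of_isUnit hu)

theorem ep_const (R : ℍ[ℝ]ˣ →* Iso 3) (hR : IsRot R) (e : ℕ) [NeZero e]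
    (h5 : Nat.Coprime e 5) (t : ZMod e) (ht : t * t = -1) (F : Vec e → C(S 3, ℝ))
    (hinv : ∀ (a : Fin 6) (u : Vec e) (x : S 3),
      F ((Ph t (al a)).mulVec u) (rot (R (ua a)) x) = F u x) (g : ℝ → ℝ) (hg : Continuous g)
    (x y : S 3) : ∑ u : Vec e, g (F u x) = ∑ u : Vec e, g (F u y) := by
  have h := ergodic3 R hR (⟨fun x => ∑ u : Vec e, g (F u x), by fun_prop⟩ : C(S 3, ℝ)) ?_ x y
  · exact h
  · intro a x
    simp only [ContinuousMap.coe_mk]
    rw [← (ep_bij h5 t ht a).sum_comp (fun u => g (F u (rot (R (ua a)) x)))]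
    simp only [hinv]

theorem ep_fconst (R : ℍ[ℝ]ˣ →* Iso 3) (hR : IsRot R) (e : ℕ) [NeZero e]
    (h5 : Nat.Coprime e 5) (t : ZMod e) (ht : t * t = -1) (F : Vec e → C(S 3, ℝ))
    (hinv : ∀ (a : Fin 6) (u : Vec e) (x : S 3),
      F ((Ph t (al a)).mulVec u) (rot (R (ua a)) x) = F u x) (u : Vec e)
    (x y : S 3) : F u x = F u y := by
  have hfin : ∀ z, F u z ∈ Set.range (fun v => F v x) := by
    intro z
    have h1 := ep_const R hR e h5 t ht F hinv (fun r => (∏ v : Vec e, (r - F v x)) ^ 2)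
      (by fun_prop) x z
    have h2 : ∑ v : Vec e, (∏ w : Vec e, (F v x - F w x)) ^ 2 = 0 := by
      apply Finset.sum_eq_zero
      intro v _
      have h0 : ∏ w : Vec e, (F v x - F w x) = 0 :=
        Finset.prod_eq_zero (Finset.mem_univ v) (sub_self _)
      rw [h0]
      norm_num
    rw [h2] at h1
    have h3 := (Finset.sum_eq_zero_iff_of_nonneg (fun v _ => sq_nonneg _)).1 h1.symm u
      (Finset.mem_univ u)
    have h4 := pow_eq_zero_iff (two_ne_zero) |>.1 h3
    obtain ⟨v, _, hv⟩ := Finset.prod_eq_zero_iff.1 h4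
    exact ⟨v, (sub_eq_zero.1 hv).symm⟩
  have hpc : IsPreconnected (Metric.sphere (0 : E 3) 1) :=
    isPreconnected_sphere (by
      rw [← Module.finrank_eq_rank, finrank_euclideanSpace_fin]
      norm_num) 0 1
  have : PreconnectedSpace (S 3) := Subtype.preconnectedSpace hpc
  have hs : (Set.range (F u)).Subsingleton := by
    have hp : IsPreconnected (Set.range (F u)) := isPreconnected_range (F u).continuous
    have hf : (Set.range (F u)).Finite :=
      (Set.finite_range (fun v => F v x)).subset (by rintro _ ⟨z, rfl⟩; exact hfin z)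
    exact hf.countable.isTotallyDisconnected _ (subset_refl _) hp
  exact hs ⟨x, rfl⟩ ⟨y, rfl⟩

/-- TARGET -/
theorem ergodic_prod (R : ℍ[ℝ]ˣ →* Iso 3) (hR : IsRot R) (e : ℕ) [NeZero e] (he : Odd e)
    (h5 : Nat.Coprime e 5) (t : ZMod e) (ht : t * t = -1) (F : Vec e → C(S 3, ℝ)) (hA : AdmF F)
    (hinv : ∀ (a : Fin 6) (u : Vec e) (x : S 3),
      F ((Ph t (al a)).mulVec u) (rot (R (ua a)) x) = F u x) :
    ∃ c : ℝ, ∀ u : Vec e, Uni u → ∀ x : S 3, F u x = c := by
  have hc := ep_fconst R hR e h5 t ht F hinv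
  obtain ⟨x₀⟩ : Nonempty (S 3) := (NormedSpace.sphere_nonempty.2 zero_le_one).to_subtype
  have h1 : ∀ (w : List (Fin 6)) (u : Vec e), F ((Ph t (qw w)).mulVec u) x₀ = F u x₀ := by
    intro w
    induction w with
    | nil =>
      intro u
      have : Ph t (qw []) = 1 := by
        ext i j
        fin_cases i <;> fin_cases j <;> simp [Ph, qw]
      rw [this, Matrix.one_mulVec]
    | cons a v ih =>
      intro u
      rw [show qw (a :: v) = qw v * al a from rfl, ep_Ph_mul t ht, ← Matrix.mulVec_mulVec, ih]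
      rw [hc _ x₀ (rot (R (ua a)) x₀), hinv]
  by_cases hne : ∃ u : Vec e, Uni u
  · obtain ⟨v, hv⟩ := hne
    refine ⟨F v x₀, fun u hu x => ?_⟩
    obtain ⟨w, a, hw⟩ := transitive_uni e he h5 t ht u v hu hv
    rw [hc u x x₀, ← h1 w u, hw, hA.inv]
  · exact ⟨0, fun u hu => absurd ⟨u, hu⟩ hne⟩

end Pool.Agent.H978V
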