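import Pool.Agent.H978V.Defs
import Pool.Agent.Helper557.Rz.M_gap3
import Pool.Agent.Y779.RZ.Sq
import Pool.Agent.H978V.G7
import Pool.Agent.H978V.G8c

set_option autoImplicit false

open MeasureTheory Set
open scoped Quaternion

namespace Pool.Agent.H978V

open Pool.Agent.Helper557.Rz



namespace G9

variable {e : ℕ}

/-! ### matrices -/

theorem ph_inv {t : ZMod e} (ht : t * t = -1) (a : Fin 6) :
    Ph t (al (a + 3)) * Ph t (al a) = (5 : ZMod e) • (1 : Matrix (Fin 2) (Fin 2) (ZMod e)) := by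
  have h4 : (4 : ZMod e) * (t * t) = -4 := by rw [ht]; ring
  fin_cases a <;> ext i j <;> fin_cases i <;> fin_cases j <;>
    simp [Ph, al, Matrix.mul_apply, Fin.sum_univ_two] <;> first
    | linear_combination (-1 : ZMod e) * h4
    | linear_combination h4
    | ring

/-- the gate matrix -/
def A (t : ZMod e) (a : Fin 6) (u : Vec e) : Vec e := (Ph t (al a)).mulVec u

theorem A_inv {t : ZMod e} (ht : t * t = -1) (a : Fin 6) (u : Vec e) :
    A t (a + 3) (A t a u) = (5 : ZMod e) • u := by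
  unfold A
  rw [Matrix.mulVec_mulVec, ph_inv ht, Matrix.smul_mulVec, Matrix.one_mulVec]

theorem A_smul (t c : ZMod e) (a : Fin 6) (u : Vec e) : A t a (c • u) = c • A t a u :=
  Matrix.mulVec_smul _ _ _

theorem A_inj (h5 : Nat.Coprime e 5) {t : ZMod e} (ht : t * t = -1) (a : Fin 6) :
    Function.Injective (A t a) := by
  intro u v h
  have h1 : (5 : ZMod e) • u = (5 : ZMod e) • v := by
    rw [← A_inv ht a u, ← A_inv ht a v, h]
  have h2 : IsUnit (5 : ZMod e) := by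
    have := (ZMod.unitOfCoprime 5 h5.symm).isUnit
    simpa using this
  exact h2.smul_left_cancel.1 h1

/-- the gate permutation -/
noncomputable def Ae [NeZero e] (h5 : Nat.Coprime e 5) {t : ZMod e} (ht : t * t = -1)
    (a : Fin 6) : Vec e ≃ Vec e :=
  Equiv.ofBijective (A t a) (Finite.injective_iff_bijective.1 (A_inj h5 ht a))

theorem Ae_apply [NeZero e] (h5 : Nat.Coprime e 5) {t : ZMod e} (ht : t * t = -1)
    (a : Fin 6) (u : Vec e) : Ae h5 ht a u = A t a u := rfl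

theorem uni_A {t : ZMod e} {a : Fin 6} {u : Vec e} (h : Uni (A t a u)) : Uni u := by
  obtain ⟨p, q, hpq⟩ := h
  refine ⟨p * (Ph t (al a)) 0 0 + q * (Ph t (al a)) 1 0,
    p * (Ph t (al a)) 0 1 + q * (Ph t (al a)) 1 1, ?_⟩
  rw [← hpq]
  unfold A
  simp only [Matrix.mulVec, dotProduct, Fin.sum_univ_two]
  ring

theorem adm_inv {F : Vec e → C(S 3, ℝ)} (hF : AdmF F) (h5 : Nat.Coprime e 5) {t : ZMod e}
    (ht : t * t = -1) (a : Fin 6) (u : Vec e) : F (A t (a + 3) (A t a u)) = F u := by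
  rw [A_inv ht]
  have h := hF.inv (ZMod.unitOfCoprime 5 h5.symm) u
  simpa using h

/-! ### the operator -/

theorem TF_eq (R : ℍ[ℝ]ˣ →* Iso 3) (t : ZMod e) (F : Vec e → C(S 3, ℝ)) (u : Vec e) :
    TF R t F u = ∑ a : Fin 6, cr (R (ua a)) (F (A t a u)) := rfl

/-- the operator as a linear map -/
noncomputable def TL (R : ℍ[ℝ]ˣ →* Iso 3) (t : ZMod e) :
    (Vec e → C(S 3, ℝ)) →ₗ[ℝ] (Vec e → C(S 3, ℝ)) where
  toFun := TF R t
  map_add' F G := by
    funext u
    rw [Pi.add_apply, TF_eq, TF_eq, TF_eq, ← Finset.sum_add_distrib]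
    rfl
  map_smul' c F := by
    funext u
    rw [Pi.smul_apply, TF_eq, TF_eq, RingHom.id_apply, Finset.smul_sum]
    rfl

theorem TL_apply (R : ℍ[ℝ]ˣ →* Iso 3) (t : ZMod e) (F : Vec e → C(S 3, ℝ)) :
    TL R t F = TF R t F := rfl

theorem adm_TF (R : ℍ[ℝ]ˣ →* Iso 3) (t : ZMod e) {F : Vec e → C(S 3, ℝ)} (hF : AdmF F) :
    AdmF (TF R t F) where
  supp u hu := by
    rw [TF_eq]
    refine Finset.sum_eq_zero fun a _ => ?_
    rw [hF.supp _ (fun h => hu (uni_A h))]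
    rfl
  inv c u := by
    rw [TF_eq, TF_eq]
    refine Finset.sum_congr rfl fun a _ => ?_
    rw [A_smul, hF.inv]

section
variable [NeZero e]

theorem ip_eq (F G : Vec e → C(S 3, ℝ)) : ip F G = ∑ u, II (F u * G u) := rfl

theorem tot_eq (F : Vec e → C(S 3, ℝ)) : tot F = ∑ u, II (F u) := rfl

theorem ip_comm (F G : Vec e → C(S 3, ℝ)) : ip F G = ip G F := by
  rw [ip_eq, ip_eq]
  exact Finset.sum_congr rfl fun u _ => by rw [mul_comm]

theorem ip_nonneg (F : Vec e → C(S 3, ℝ)) : 0 ≤ ip F F :=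
  Finset.sum_nonneg fun u _ => II_nonneg (F u)

theorem ip_pos {F : Vec e → C(S 3, ℝ)} (hF : F ≠ 0) : 0 < ip F F := by
  obtain ⟨u, hu⟩ := Function.ne_iff.1 hF
  exact Finset.sum_pos' (fun u _ => II_nonneg (F u)) ⟨u, Finset.mem_univ u, II_pos _ hu⟩

/-- the bilinear form -/
noncomputable def B (e : ℕ) [NeZero e] :
    (Vec e → C(S 3, ℝ)) →ₗ[ℝ] (Vec e → C(S 3, ℝ)) →ₗ[ℝ] ℝ :=
  LinearMap.mk₂ ℝ ip
    (fun F F' G => by
      simp only [ip_eq, Pi.add_apply, add_mul, map_add, Finset.sum_add_distrib])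
    (fun c F G => by
      simp only [ip_eq, Pi.smul_apply, smul_mul_assoc, map_smul, Finset.smul_sum])
    (fun F G G' => by
      simp only [ip_eq, Pi.add_apply, mul_add, map_add, Finset.sum_add_distrib])
    (fun c F G => by
      simp only [ip_eq, Pi.smul_apply, mul_smul_comm, map_smul, Finset.smul_sum])

theorem B_apply (F G : Vec e → C(S 3, ℝ)) : B e F G = ip F G := rfl

theorem cr_adj (R : ℍ[ℝ]ˣ →* Iso 3) (hR : IsRot R) (a : Fin 6) (f h : C(S 3, ℝ)) :
    II (cr (R (ua a)) f * h) = II (f * cr (R (ua (a + 3))) h) := by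
  rw [← II_rot (R (ua a)) (f * cr (R (ua (a + 3))) h)]
  congr 1
  ext x
  show f (rot (R (ua a)) x) * h x =
    f (rot (R (ua a)) x) * h (rot (R (ua (a + 3))) (rot (R (ua a)) x))
  rw [ua_inv R hR a x]

theorem TF_sym (R : ℍ[ℝ]ˣ →* Iso 3) (hR : IsRot R) (h5 : Nat.Coprime e 5) {t : ZMod e}
    (ht : t * t = -1) {F G : Vec e → C(S 3, ℝ)} (hG : AdmF G) :
    ip (TF R t F) G = ip F (TF R t G) := by
  have h1 : ip (TF R t F) G = ∑ a : Fin 6, ∑ u, II (F u * cr (R (ua (a + 3))) (G (A t (a + 3) u))) := by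
    rw [ip_eq]
    simp only [TF_eq, Finset.sum_mul, map_sum]
    rw [Finset.sum_comm]
    refine Finset.sum_congr rfl fun a _ => ?_
    rw [← (Ae h5 ht a).sum_comp (fun u => II (F u * cr (R (ua (a + 3))) (G (A t (a + 3) u))))]
    refine Finset.sum_congr rfl fun u _ => ?_
    rw [cr_adj R hR, Ae_apply, adm_inv hG h5 ht]
  have h2 : ip F (TF R t G) = ∑ a : Fin 6, ∑ u, II (F u * cr (R (ua a)) (G (A t a u))) := by
    rw [ip_eq]
    simp only [TF_eq, Finset.mul_sum, map_sum]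
    rw [Finset.sum_comm]
  rw [h1, h2]
  exact Equiv.sum_comp (Equiv.addRight (3 : Fin 6))
    (fun a => ∑ u, II (F u * cr (R (ua a)) (G (A t a u))))

theorem TF_le (R : ℍ[ℝ]ˣ →* Iso 3) (h5 : Nat.Coprime e 5) {t : ZMod e}
    (ht : t * t = -1) (F : Vec e → C(S 3, ℝ)) : ip (TF R t F) F ≤ 6 * ip F F := by
  have h1 : ∀ a : Fin 6, ∑ u, II (cr (R (ua a)) (F (A t a u)) * F u) ≤ ip F F := by
    intro a
    have h2 : ∀ u, 2 * II (cr (R (ua a)) (F (A t a u)) * F u) ≤
        II (F (A t a u) * F (A t a u)) + II (F u * F u) := by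
      intro u
      have h3 := II_nonneg (cr (R (ua a)) (F (A t a u)) - F u)
      have e1 : (cr (R (ua a)) (F (A t a u)) - F u) * (cr (R (ua a)) (F (A t a u)) - F u) =
          cr (R (ua a)) (F (A t a u) * F (A t a u)) + F u * F u -
            (2 : ℝ) • (cr (R (ua a)) (F (A t a u)) * F u) := by
        ext x
        show (F (A t a u) (rot (R (ua a)) x) - F u x) * (F (A t a u) (rot (R (ua a)) x) - F u x) =
          F (A t a u) (rot (R (ua a)) x) * F (A t a u) (rot (R (ua a)) x) + F u x * F u x -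
            (2 : ℝ) * (F (A t a u) (rot (R (ua a)) x) * F u x)
        ring
      rw [e1, map_sub, map_add, II_rot, map_smul, smul_eq_mul] at h3
      linarith
    have h4 := Finset.sum_le_sum fun u (_ : u ∈ Finset.univ) => h2 u
    rw [← Finset.mul_sum, Finset.sum_add_distrib] at h4
    have h6 : ∑ u, II (F (A t a u) * F (A t a u)) = ip F F :=
      (Ae h5 ht a).sum_comp (fun u => II (F u * F u))
    rw [h6] at h4
    have h7 : ∑ u, II (F u * F u) = ip F F := rfl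
    rw [h7] at h4
    linarith
  have h8 : ip (TF R t F) F = ∑ a : Fin 6, ∑ u, II (cr (R (ua a)) (F (A t a u)) * F u) := by
    rw [ip_eq]
    simp only [TF_eq, Finset.sum_mul, map_sum]
    rw [Finset.sum_comm]
  rw [h8]
  calc _ ≤ ∑ _a : Fin 6, ip F F := Finset.sum_le_sum fun a _ => h1 a
    _ = 6 * ip F F := by
      rw [Finset.sum_const, Finset.card_univ, Fintype.card_fin, nsmul_eq_mul]
      norm_num

theorem tot_TF (R : ℍ[ℝ]ˣ →* Iso 3) (h5 : Nat.Coprime e 5) {t : ZMod e}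
    (ht : t * t = -1) (F : Vec e → C(S 3, ℝ)) : tot (TF R t F) = 6 * tot F := by
  rw [tot_eq]
  simp only [TF_eq, map_sum, II_rot]
  rw [Finset.sum_comm]
  have h1 : ∀ a : Fin 6, ∑ u, II (F (A t a u)) = tot F := by
    intro a
    exact (Ae h5 ht a).sum_comp (fun u => II (F u))
  simp only [h1]
  rw [Finset.sum_const, Finset.card_univ, Fintype.card_fin, nsmul_eq_mul]
  norm_num

end

/-! ### fibre sums -/

section
variable {c : ℕ}

/-- sums over the fibres of the reduction -/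
def PF [NeZero e] (h : c ∣ e) (F : Vec e → C(S 3, ℝ)) (w : Vec c) : C(S 3, ℝ) :=
  ∑ u : Vec e, if red h u = w then F u else 0

theorem red_red {d : ℕ} (h' : d ∣ c) (h : c ∣ e) (u : Vec e) :
    red h' (red h u) = red (h'.trans h) u := by
  funext i
  unfold red
  rw [← RingHom.comp_apply, ZMod.castHom_comp]

theorem red_self (u : Vec e) : red (dvd_refl e) u = u := by
  funext i
  unfold red
  rw [ZMod.castHom_self]
  rfl

theorem red_A (h : c ∣ e) (t : ZMod e) (a : Fin 6) (u : Vec e) :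
    red h (A t a u) = A (ZMod.castHom h (ZMod c) t) a (red h u) := by
  funext i
  have h1 : A t a u i = Ph t (al a) i 0 * u 0 + Ph t (al a) i 1 * u 1 := by
    unfold A
    simp only [Matrix.mulVec, dotProduct, Fin.sum_univ_two]
  have h2 : A (ZMod.castHom h (ZMod c) t) a (red h u) i =
      Ph (ZMod.castHom h (ZMod c) t) (al a) i 0 * ZMod.castHom h (ZMod c) (u 0) +
      Ph (ZMod.castHom h (ZMod c) t) (al a) i 1 * ZMod.castHom h (ZMod c) (u 1) := by
    unfold A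
    simp only [Matrix.mulVec, dotProduct, Fin.sum_univ_two]
    rfl
  rw [h2]
  show ZMod.castHom h (ZMod c) (A t a u i) = _
  rw [h1, map_add, map_mul, map_mul]
  have h3 : ∀ j : Fin 2, ZMod.castHom h (ZMod c) (Ph t (al a) i j) =
      Ph (ZMod.castHom h (ZMod c) t) (al a) i j := by
    intro j
    fin_cases i <;> fin_cases j <;>
      simp only [Ph, Matrix.of_apply, Matrix.cons_val', Matrix.cons_val_zero, Matrix.cons_val_one,
        Matrix.cons_val_fin_one, Fin.zero_eta, Fin.mk_one, Fin.isValue,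
        map_add, map_sub, map_neg, map_mul, map_intCast]
  rw [h3, h3]

theorem uni_red (h : c ∣ e) {u : Vec e} (hu : Uni u) : Uni (red h u) :=
  IsCoprime.map hu (ZMod.castHom h (ZMod c))

theorem cast_sq (h : c ∣ e) {t : ZMod e} (ht : t * t = -1) :
    ZMod.castHom h (ZMod c) t * ZMod.castHom h (ZMod c) t = -1 := by
  rw [← map_mul, ht, map_neg, map_one]

variable [NeZero e] [NeZero c]

theorem tot_PF (h : c ∣ e) (F : Vec e → C(S 3, ℝ)) : tot (PF h F) = tot F := by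
  rw [tot_eq, tot_eq]
  simp only [PF, map_sum]
  rw [Finset.sum_comm]
  refine Finset.sum_congr rfl fun u _ => ?_
  rw [Finset.sum_eq_single (red h u)]
  · rw [if_pos rfl]
  · intro w _ hw
    rw [if_neg hw.symm, map_zero]
  · intro h'; exact absurd (Finset.mem_univ _) h'

theorem PF_PF {d : ℕ} (h' : d ∣ c) (h : c ∣ e) (F : Vec e → C(S 3, ℝ)) :
    PF h' (PF h F) = PF (h'.trans h) F := by
  funext z
  unfold PF
  have h1 : ∀ w : Vec c, (if red h' w = z then ∑ u : Vec e, (if red h u = w then F u else 0)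
      else 0) = ∑ u : Vec e, if red h u = w then (if red h' w = z then F u else 0) else 0 := by
    intro w
    by_cases hw : red h' w = z
    · simp only [hw, if_true]
    · simp only [hw, if_false, ite_self, Finset.sum_const_zero]
  simp only [h1]
  rw [Finset.sum_comm]
  refine Finset.sum_congr rfl fun u _ => ?_
  rw [Finset.sum_eq_single (red h u)]
  · rw [if_pos rfl, red_red]
  · intro w _ hw
    rw [if_neg hw.symm]
  · intro h'; exact absurd (Finset.mem_univ _) h'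

omit [NeZero c] in
theorem PF_self (F : Vec e → C(S 3, ℝ)) : PF (dvd_refl e) F = F := by
  funext w
  unfold PF
  simp only [red_self]
  rw [Finset.sum_ite_eq']
  simp

omit [NeZero c] in
theorem adm_PF (h : c ∣ e) {F : Vec e → C(S 3, ℝ)} (hF : AdmF F) : AdmF (PF h F) where
  supp w hw := by
    unfold PF
    refine Finset.sum_eq_zero fun u _ => ?_
    by_cases hu : red h u = w
    · rw [if_pos hu]
      refine hF.supp u fun hun => hw ?_
      rw [← hu]
      exact uni_red h hun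
    · rw [if_neg hu]
  inv a w := by
    obtain ⟨b, rfl⟩ := ZMod.unitsMap_surjective h a
    unfold PF
    have hb : Function.Bijective (fun u : Vec e => (b : ZMod e) • u) :=
      (MulAction.bijective b)
    rw [← hb.sum_comp (fun u => if red h u = ((ZMod.unitsMap h b : (ZMod c)ˣ) : ZMod c) • w then F u
      else 0)]
    refine Finset.sum_congr rfl fun u _ => ?_
    have h1 : red h ((b : ZMod e) • u) =
        ((ZMod.unitsMap h b : (ZMod c)ˣ) : ZMod c) • red h u := by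
      funext i
      exact map_mul (ZMod.castHom h (ZMod c)) _ _
    have h2 : (red h ((b : ZMod e) • u) = ((ZMod.unitsMap h b : (ZMod c)ˣ) : ZMod c) • w) ↔
        red h u = w := by
      rw [h1]
      exact (ZMod.unitsMap h b).isUnit.smul_left_cancel
    simp only [h2, hF.inv]

omit [NeZero c] in
theorem new_PF (h : c ∣ e) (F : Vec e → C(S 3, ℝ)) [NeZero c]
    (hmin : ∀ (d : ℕ) (hd : d ∣ c), d ≠ c → PF (hd.trans h) F = 0) : NewF (PF h F) := by
  intro d hd hne w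
  have h1 := congrFun (PF_PF hd h F) w
  rw [hmin d hd hne] at h1
  exact h1

omit [NeZero c] in
theorem TF_PF (R : ℍ[ℝ]ˣ →* Iso 3) (h5 : Nat.Coprime e 5) (h5' : Nat.Coprime c 5) (h : c ∣ e)
    {t : ZMod e} (ht : t * t = -1) (F : Vec e → C(S 3, ℝ)) (w : Vec c) :
    TF R (ZMod.castHom h (ZMod c) t) (PF h F) w = PF h (TF R t F) w := by
  rw [TF_eq]
  unfold PF
  have h1 : ∀ a : Fin 6, (∑ u : Vec e, if red h u = A (ZMod.castHom h (ZMod c) t) a w then F u
      else 0) = ∑ u : Vec e, if red h u = w then F (A t a u) else 0 := by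
    intro a
    rw [← (Ae h5 ht a).sum_comp (fun u => if red h u = A (ZMod.castHom h (ZMod c) t) a w then F u
      else 0)]
    refine Finset.sum_congr rfl fun u _ => ?_
    have h3 : (red h (Ae h5 ht a u) = A (ZMod.castHom h (ZMod c) t) a w) ↔ red h u = w := by
      rw [Ae_apply, red_A]
      exact (A_inj h5' (cast_sq h ht) a).eq_iff
    exact if_congr h3 rfl rfl
  simp only [h1]
  have h2 : ∀ a : Fin 6, cr (R (ua a)) (∑ u : Vec e, if red h u = w then F (A t a u) else 0) =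
      ∑ u : Vec e, if red h u = w then cr (R (ua a)) (F (A t a u)) else 0 := by
    intro a
    rw [← crL_apply, map_sum]
    refine Finset.sum_congr rfl fun u _ => ?_
    split_ifs
    · rfl
    · rw [map_zero]
  simp only [h2]
  rw [Finset.sum_comm]
  refine Finset.sum_congr rfl fun u _ => ?_
  split_ifs
  · rfl
  · exact Finset.sum_const_zero

end

/-! ### the bound for eigenfamilies -/

theorem fin_max {ι : Type} [Finite ι] (P : ι → ℝ → Prop) (hP : ∀ i a b, a ≤ b → P i a → P i b)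
    (h : ∀ i, ∃ l : ℝ, l < 6 ∧ P i l) : ∃ l : ℝ, l < 6 ∧ ∀ i, P i l := by
  choose f hf1 hf2 using h
  obtain ⟨M, hM⟩ : ∃ M, M < 6 ∧ ∀ i, f i ≤ M := by
    cases isEmpty_or_nonempty ι
    · exact ⟨5, by norm_num, fun i => isEmptyElim i⟩
    · obtain ⟨i, hi⟩ := Finite.exists_max f
      exact ⟨f i, hf1 i, hi⟩
  exact ⟨M, hM.1, fun i => hP i _ _ (hM.2 i) (hf2 i)⟩

/-- the bound of `small_gap` -/
def SB (R : ℍ[ℝ]ˣ →* Iso 3) (N : ℕ) (e : ℕ) [NeZero e] (t : ZMod e) (l : ℝ) : Prop :=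
  ∀ H : Vec e → C(S 3, ℝ), AdmF H → tot H = 0 → (∃ u, H u ≠ 0) →
    (∃ G : Vec e → C(S 3, ℝ), ∀ u x, H u x = MN N (G u) x) →
    ∀ lm : ℝ, (∀ u, TF R t H u = lm • H u) → lm ≤ l

theorem SB_mono {R : ℍ[ℝ]ˣ →* Iso 3} {N : ℕ} {e : ℕ} [NeZero e] {t : ZMod e} {a b : ℝ}
    (hab : a ≤ b) (h : SB R N e t a) : SB R N e t b :=
  fun H h1 h2 h3 h4 lm h5 => (h H h1 h2 h3 h4 lm h5).trans hab

theorem small_all (R : ℍ[ℝ]ˣ →* Iso 3) (hR : IsRot R) (N : ℕ) (hN : 1 ≤ N) (E : ℕ) :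
    ∃ l : ℝ, l < 6 ∧ ∀ (e : ℕ) [NeZero e], e < E → Odd e → Nat.Coprime e 5 →
      ∀ t : ZMod e, t * t = -1 → SB R N e t l := by
  obtain ⟨l, hl, h⟩ := fin_max (ι := Fin E)
    (fun i l => ∀ [NeZero i.1], Odd i.1 → Nat.Coprime i.1 5 →
      ∀ t : ZMod i.1, t * t = -1 → SB R N i.1 t l)
    (fun i a b hab h _ h1 h2 t ht => SB_mono hab (h h1 h2 t ht)) (by
      intro i
      by_cases h0 : i.1 = 0
      · exact ⟨5, by norm_num, fun {hz} => absurd h0 hz.out⟩
      by_cases h1 : Odd i.1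
      swap
      · exact ⟨5, by norm_num, fun h => absurd h h1⟩
      by_cases h2 : Nat.Coprime i.1 5
      swap
      · exact ⟨5, by norm_num, fun _ h => absurd h h2⟩
      have : NeZero i.1 := ⟨h0⟩
      obtain ⟨l, hl, h⟩ := fin_max (ι := ZMod i.1) (fun t l => t * t = -1 → SB R N i.1 t l)
        (fun t a b hab h ht => SB_mono hab (h ht)) (by
          intro t
          by_cases ht : t * t = -1
          · obtain ⟨l, hl, h⟩ := small_gap R hR i.1 h1 h2 t ht N hN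
            exact ⟨l, hl, fun _ => h⟩
          · exact ⟨5, by norm_num, fun h => absurd h ht⟩)
      exact ⟨l, hl, fun _ _ t ht => h t ht⟩)
  exact ⟨l, hl, fun e _ he h1 h2 t ht => h ⟨e, he⟩ h1 h2 t ht⟩

section
variable [NeZero e]

omit [NeZero e] in
theorem adm_L {F : Vec e → C(S 3, ℝ)} (hF : AdmF F) (L : C(S 3, ℝ) →ₗ[ℝ] C(S 3, ℝ)) :
    AdmF (fun u => L (F u)) where
  supp u hu := by
    show L (F u) = 0
    rw [hF.supp u hu, map_zero]
  inv c u := by
    show L (F _) = L (F u)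
    rw [hF.inv]

omit [NeZero e] in
theorem TF_L (R : ℍ[ℝ]ˣ →* Iso 3) (t : ZMod e) (F : Vec e → C(S 3, ℝ))
    (L : C(S 3, ℝ) →ₗ[ℝ] C(S 3, ℝ)) (hL : ∀ (g : Iso 3) ψ, L (cr g ψ) = cr g (L ψ)) (u : Vec e) :
    TF R t (fun u => L (F u)) u = L (TF R t F u) := by
  rw [TF_eq, TF_eq, map_sum]
  exact Finset.sum_congr rfl fun a _ => (hL _ _).symm

theorem tot_L (F : Vec e → C(S 3, ℝ))
    (L : C(S 3, ℝ) →ₗ[ℝ] C(S 3, ℝ)) (hL : ∀ ψ, ∫ x, L ψ x ∂(sg 3) = ∫ x, ψ x ∂(sg 3)) :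
    tot (fun u => L (F u)) = tot F :=
  Finset.sum_congr rfl fun u _ => hL (F u)

theorem QK_L (N : ℕ) (F : Vec e → C(S 3, ℝ))
    (L : C(S 3, ℝ) →ₗ[ℝ] C(S 3, ℝ)) (hL : ∀ ψ x, L ψ x = MN N ψ x) :
    QK (kk N) F = ∑ u, II (F u * L (F u)) := by
  refine Finset.sum_congr rfl fun u _ => ?_
  rw [II_apply]
  refine integral_congr_ae (Filter.Eventually.of_forall (fun x => ?_))
  show ∫ y, kk N x y * F u x * F u y ∂(sg 3) = F u x * L (F u) x
  rw [hL, MN, ← integral_const_mul]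
  refine integral_congr_ae (Filter.Eventually.of_forall (fun y => ?_))
  show kk N x y * F u x * F u y = F u x * (kk N x y * F u y)
  ring

end

theorem eig_bound (R : ℍ[ℝ]ˣ →* Iso 3) (hR : IsRot R) : ∃ l₁ : ℝ, 0 ≤ l₁ ∧ l₁ < 6 ∧
    ∀ (D : ℕ) [NeZero D], Odd D → Nat.Coprime D 5 → ∀ t : ZMod D, t * t = -1 →
    ∀ F : Vec D → C(S 3, ℝ), AdmF F → tot F = 0 → F ≠ 0 → ∀ lm : ℝ, lm ≤ 6 →
    (∀ u, TF R t F u = lm • F u) → lm ≤ l₁ := by
  obtain ⟨N₀, E₀, hN₀, hnew⟩ := new_low R hR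
  obtain ⟨l₂, hl₂, hsmall⟩ := small_all R hR N₀ hN₀ E₀
  obtain ⟨L, hL1, hL2, hL3, hL4⟩ := MN_facts N₀ hN₀
  refine ⟨max (11 / 2) l₂, le_trans (by norm_num) (le_max_left _ _),
    max_lt (by norm_num) hl₂, ?_⟩
  intro D _ hD h5 t ht F hF hF0 hne lm hlm6 hlm
  by_contra hcon
  push Not at hcon
  have hlm1 : 11 / 2 ≤ lm := (le_max_left _ _).trans hcon.le
  have hlm2 : l₂ < lm := lt_of_le_of_lt (le_max_right _ _) hcon
  classical
  have hex : ∃ e : ℕ, ∃ h : e ∣ D, PF h F ≠ 0 := ⟨D, dvd_refl D, by rwa [PF_self]⟩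
  obtain ⟨e, ⟨he, heF⟩, hmin⟩ : ∃ e : ℕ, (∃ h : e ∣ D, PF h F ≠ 0) ∧
      ∀ d : ℕ, d < e → ¬ ∃ h : d ∣ D, PF h F ≠ 0 :=
    ⟨Nat.find hex, Nat.find_spec hex, fun d hd => Nat.find_min hex hd⟩
  have he0 : e ≠ 0 := by
    rintro rfl
    exact NeZero.ne D (zero_dvd_iff.1 he)
  have : NeZero e := ⟨he0⟩
  have heodd : Odd e := hD.of_dvd_nat he
  have he5 : Nat.Coprime e 5 := h5.coprime_dvd_left he
  have hadm : AdmF (PF he F) := adm_PF he hF
  have hnw : NewF (PF he F) := by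
    refine new_PF he F ?_
    intro d hd hde
    by_contra hd0
    refine hmin d ?_ ⟨hd.trans he, hd0⟩
    exact lt_of_le_of_ne (Nat.le_of_dvd (Nat.pos_of_ne_zero he0) hd) hde
  have ht' := cast_sq he ht
  have heig : ∀ w, TF R (ZMod.castHom he (ZMod e) t) (PF he F) w = lm • PF he F w := by
    intro w
    rw [TF_PF R h5 he5 he ht]
    unfold PF
    rw [Finset.smul_sum]
    refine Finset.sum_congr rfl fun u _ => ?_
    rw [hlm u, smul_ite, smul_zero]
  have htot : tot (PF he F) = 0 := by rw [tot_PF, hF0]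
  obtain ⟨hn1, hn2⟩ := hnew e heodd he5 _ ht' (PF he F) hadm hnw lm hlm1 hlm6 heig
  have hpos := ip_pos heF
  by_cases hE : E₀ ≤ e
  · rw [hn1 hE] at hpos
    exact lt_irrefl _ hpos
  · push Not at hE
    rw [QK_L N₀ _ L hL1] at hn2
    have hex2 : ∃ u, L (PF he F u) ≠ 0 := by
      by_contra hall
      push Not at hall
      simp only [hall, mul_zero, map_zero, Finset.sum_const_zero] at hn2
      linarith
    have h6 := hsmall e hE heodd he5 _ ht' (fun u => L (PF he F u)) (adm_L hadm L)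
      (by rw [tot_L _ L hL4, htot]) hex2 ⟨PF he F, fun u x => hL1 _ _⟩ lm (by
        intro u
        rw [TF_L R _ _ L hL3, heig, map_smul])
    linarith

/-! ### the spaces -/

section
variable [NeZero e]

theorem tot_add (F G : Vec e → C(S 3, ℝ)) : tot (F + G) = tot F + tot G := by
  simp only [tot_eq, Pi.add_apply, map_add, Finset.sum_add_distrib]

theorem tot_smul (c : ℝ) (F : Vec e → C(S 3, ℝ)) : tot (c • F) = c * tot F := by
  simp only [tot_eq, Pi.smul_apply, map_smul, Finset.mul_sum, smul_eq_mul]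

/-- the stable spaces -/
def VN (e : ℕ) [NeZero e] (L : C(S 3, ℝ) →ₗ[ℝ] C(S 3, ℝ)) : Submodule ℝ (Vec e → C(S 3, ℝ)) where
  carrier := {F | AdmF F ∧ tot F = 0 ∧ ∀ u, F u ∈ LinearMap.range L}
  add_mem' := by
    rintro F G ⟨h1, h2, h3⟩ ⟨h4, h5, h6⟩
    refine ⟨⟨fun u hu => ?_, fun a u => ?_⟩, ?_, fun u => ?_⟩
    · rw [Pi.add_apply, h1.supp u hu, h4.supp u hu, add_zero]
    · rw [Pi.add_apply, Pi.add_apply, h1.inv, h4.inv]
    · rw [tot_add, h2, h5, add_zero]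
    · exact Submodule.add_mem _ (h3 u) (h6 u)
  zero_mem' := by
    refine ⟨⟨fun u _ => rfl, fun a u => rfl⟩, ?_, fun u => Submodule.zero_mem _⟩
    simp [tot_eq]
  smul_mem' := by
    rintro c F ⟨h1, h2, h3⟩
    refine ⟨⟨fun u hu => ?_, fun a u => ?_⟩, ?_, fun u => ?_⟩
    · rw [Pi.smul_apply, h1.supp u hu, smul_zero]
    · rw [Pi.smul_apply, Pi.smul_apply, h1.inv]
    · rw [tot_smul, h2, mul_zero]
    · exact Submodule.smul_mem _ _ (h3 u)

theorem VN_fd (L : C(S 3, ℝ) →ₗ[ℝ] C(S 3, ℝ)) (hL : FiniteDimensional ℝ (LinearMap.range L)) :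
    FiniteDimensional ℝ (VN e L) := by
  have : FiniteDimensional ℝ
      (LinearMap.range ((LinearMap.range L).subtype.compLeft (Vec e))) := inferInstance
  refine Submodule.finiteDimensional_of_le
    (S₂ := LinearMap.range ((LinearMap.range L).subtype.compLeft (Vec e))) ?_
  rintro F ⟨-, -, h⟩
  exact ⟨fun u => ⟨F u, h u⟩, rfl⟩

theorem VN_stab (R : ℍ[ℝ]ˣ →* Iso 3) (h5 : Nat.Coprime e 5) {t : ZMod e} (ht : t * t = -1)
    (L : C(S 3, ℝ) →ₗ[ℝ] C(S 3, ℝ)) (hL : ∀ (g : Iso 3) ψ, L (cr g ψ) = cr g (L ψ))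
    {F : Vec e → C(S 3, ℝ)} (hF : F ∈ VN e L) : TL R t F ∈ VN e L := by
  obtain ⟨h1, h2, h3⟩ := hF
  refine ⟨adm_TF R t h1, ?_, fun u => ?_⟩
  · rw [TL_apply, tot_TF R h5 ht, h2, mul_zero]
  · rw [TL_apply, TF_eq]
    refine Submodule.sum_mem _ fun a _ => ?_
    obtain ⟨f, hf⟩ := h3 (A t a u)
    exact ⟨cr (R (ua a)) f, by rw [hL, hf]⟩

theorem VN_bound (R : ℍ[ℝ]ˣ →* Iso 3) (hR : IsRot R) (h5 : Nat.Coprime e 5) {t : ZMod e}
    (ht : t * t = -1) (l₁ : ℝ)
    (hb : ∀ F : Vec e → C(S 3, ℝ), AdmF F → tot F = 0 → F ≠ 0 → ∀ lm : ℝ, lm ≤ 6 →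
      (∀ u, TF R t F u = lm • F u) → lm ≤ l₁)
    (L : C(S 3, ℝ) →ₗ[ℝ] C(S 3, ℝ)) (hL2 : FiniteDimensional ℝ (LinearMap.range L))
    (hL : ∀ (g : Iso 3) ψ, L (cr g ψ) = cr g (L ψ))
    {F : Vec e → C(S 3, ℝ)} (hF : F ∈ VN e L) : ip (TF R t F) F ≤ l₁ * ip F F := by
  by_cases hV : VN e L = ⊥
  · rw [hV] at hF
    have hF0 : F = 0 := by simpa using hF
    subst hF0
    simp [ip_eq]
  have : Nontrivial (VN e L) := Submodule.nontrivial_iff_ne_bot.mpr hV
  have := VN_fd (e := e) L hL2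
  have hTV : ∀ G ∈ VN e L, TL R t G ∈ VN e L := fun G hG => VN_stab R h5 ht L hL hG
  obtain ⟨v, hv, lm, h1, h2⟩ := top_eig ((B e).compl₁₂ (VN e L).subtype (VN e L).subtype)
    (fun x y => ip_comm _ _)
    (fun x hx => ip_pos (F := (x : Vec e → C(S 3, ℝ))) (by simpa using hx))
    ((TL R t).restrict hTV)
    (fun x y => TF_sym R hR h5 ht (F := (x : Vec e → C(S 3, ℝ))) y.2.1)
  have hv0 : (v : Vec e → C(S 3, ℝ)) ≠ 0 := by simpa using hv
  have hvp := ip_pos hv0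
  have h3 : TF R t (v : Vec e → C(S 3, ℝ)) = lm • (v : Vec e → C(S 3, ℝ)) := by
    have := congrArg Subtype.val h1
    exact this
  have hlm6 : lm ≤ 6 := by
    have h4 := TF_le R h5 ht (v : Vec e → C(S 3, ℝ))
    rw [h3] at h4
    have h5 : ip (lm • (v : Vec e → C(S 3, ℝ))) (v : Vec e → C(S 3, ℝ)) =
        lm * ip (v : Vec e → C(S 3, ℝ)) (v : Vec e → C(S 3, ℝ)) := by
      rw [← B_apply, ← B_apply, map_smul, LinearMap.smul_apply, smul_eq_mul]
    rw [h5] at h4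
    exact le_of_mul_le_mul_right h4 hvp
  have hle := hb v v.2.1 v.2.2.1 hv0 lm hlm6 (fun u => congrFun h3 u)
  have h6 : ip (TF R t F) F ≤ lm * ip F F := h2 ⟨F, hF⟩
  exact h6.trans (mul_le_mul_of_nonneg_right hle (ip_nonneg F))

theorem ip_cont : Continuous (fun F : Vec e → C(S 3, ℝ) => ip F F) := by
  have h : (fun F : Vec e → C(S 3, ℝ) => ip F F) = fun F => ∑ u, II (F u * F u) := rfl
  rw [h]
  exact continuous_finsetSum _ fun u _ =>
    II_cont.comp ((continuous_apply u).mul (continuous_apply u))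

theorem ipT_cont (R : ℍ[ℝ]ˣ →* Iso 3) (t : ZMod e) :
    Continuous (fun F : Vec e → C(S 3, ℝ) => ip (TF R t F) F) := by
  have h : (fun F : Vec e → C(S 3, ℝ) => ip (TF R t F) F) =
      fun F => ∑ u, II ((∑ a : Fin 6, cr (R (ua a)) (F (A t a u))) * F u) := rfl
  rw [h]
  refine continuous_finsetSum _ fun u _ => II_cont.comp (Continuous.mul ?_ (continuous_apply u))
  exact continuous_finsetSum _ fun a _ => (cr_cont _).comp (continuous_apply _)

end

end G9

/-- TARGET -/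
theorem gap_unif (R : ℍ[ℝ]ˣ →* Iso 3) (hR : IsRot R) : ∃ l₁ : ℝ, 0 ≤ l₁ ∧ l₁ < 6 ∧
    ∀ (D : ℕ) [NeZero D], Odd D → Nat.Coprime D 5 → ∀ t : ZMod D, t * t = -1 →
    ∀ F : Vec D → C(S 3, ℝ), AdmF F → tot F = 0 → ip (TF R t F) F ≤ l₁ * ip F F := by
  obtain ⟨l₁, h0, h6, hb⟩ := G9.eig_bound R hR
  refine ⟨l₁, h0, h6, ?_⟩
  intro D _ hD h5 t ht F hF hF0
  have hch : ∀ N : ℕ, 1 ≤ N → ∃ G : Vec D → C(S 3, ℝ), (∀ u x, G u x = MN N (F u) x) ∧
      ip (TF R t G) G ≤ l₁ * ip G G := by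
    intro N hN
    obtain ⟨L, hL1, hL2, hL3, hL4⟩ := MN_facts N hN
    refine ⟨fun u => L (F u), fun u x => hL1 _ _, ?_⟩
    refine G9.VN_bound R hR h5 ht l₁ (hb D hD h5 t ht) L hL2 hL3 ?_
    exact ⟨G9.adm_L hF L, by rw [G9.tot_L _ L hL4, hF0], fun u => ⟨F u, rfl⟩⟩
  choose! G hG1 hG2 using hch
  have hlim : Filter.Tendsto G Filter.atTop (nhds F) := by
    rw [tendsto_pi_nhds]
    intro u
    rw [Metric.tendsto_atTop]
    intro ε hε
    obtain ⟨N₁, hN₁, h1⟩ := MN_tendsto (F u) (ε / 2) (by positivity)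
    refine ⟨N₁, fun N hN => ?_⟩
    have h2 : dist (G N u) (F u) ≤ ε / 2 := by
      rw [ContinuousMap.dist_le (by positivity)]
      intro x
      rw [Real.dist_eq, hG1 N (hN₁.trans hN)]
      exact h1 N hN x
    linarith
  have hc : Continuous (fun F : Vec D → C(S 3, ℝ) => l₁ * ip F F - ip (TF R t F) F) :=
    (continuous_const.mul G9.ip_cont).sub (G9.ipT_cont R t)
  have hl := (hc.tendsto F).comp hlim
  have hz : 0 ≤ l₁ * ip F F - ip (TF R t F) F := by
    refine ge_of_tendsto hl ?_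
    filter_upwards [Filter.eventually_ge_atTop 1] with N hN
    have := hG2 N hN
    simp only [Function.comp]
    linarith
  linarith

end Pool.Agent.H978V
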