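import Pool.Agent.H978V.Defs2

/-!
JOB H1 (owner helper978, MP_06cce2_nt), proved by helper234.
-/

set_option autoImplicit false

open scoped Quaternion

namespace Pool.Agent.H978V

lemma h1_ph_mul {e : ℕ} (t : ZMod e) (ht : t * t = -1) (x y : ℍ[ℤ]) :
    Ph t (x * y) = Ph t x * Ph t y := by
  ext i j
  fin_cases i <;> fin_cases j <;>
    simp [Ph, Matrix.mul_apply, Fin.sum_univ_two, Quaternion.re_mul, Quaternion.imI_mul,
      Quaternion.imJ_mul, Quaternion.imK_mul]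
  · linear_combination (-(x.imI : ZMod e) * y.imI - (x.imK : ZMod e) * y.imK) * ht
  · linear_combination (-(x.imI : ZMod e) * y.imK + (x.imK : ZMod e) * y.imI) * ht
  · linear_combination (-(x.imK : ZMod e) * y.imI + (x.imI : ZMod e) * y.imK) * ht
  · linear_combination (-(x.imI : ZMod e) * y.imI - (x.imK : ZMod e) * y.imK) * ht

lemma h1_ph_smul {e : ℕ} (t : ZMod e) (c : ℤ) (x : ℍ[ℤ]) :
    Ph t (c • x) = (c : ZMod e) • Ph t x := by
  ext i j
  fin_cases i <;> fin_cases j <;> simp [Ph] <;> ring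

lemma h1_uni_of {D : ℕ} (x y : ℤ) (h : ∀ l : ℕ, l.Prime → (l : ℤ) ∣ (D : ℤ) → (l : ℤ) ∣ x → (l : ℤ) ∣ y → False) :
    IsCoprime (x : ZMod D) (y : ZMod D) := by
  have hg : Int.gcd (Int.gcd x y) D = 1 := by
    by_contra hne
    obtain ⟨l, hl, hd⟩ := Nat.exists_prime_and_dvd hne
    have hd1 : (l : ℤ) ∣ (Int.gcd x y : ℤ) :=
      (Int.natCast_dvd_natCast.2 hd).trans (Int.gcd_dvd_left _ _)
    have hd2 : (l : ℤ) ∣ (D : ℤ) := (Int.natCast_dvd_natCast.2 hd).trans (Int.gcd_dvd_right _ _)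
    exact h l hl hd2 (hd1.trans (Int.gcd_dvd_left _ _)) (hd1.trans (Int.gcd_dvd_right _ _))
  have h1 := Int.gcd_eq_gcd_ab (Int.gcd x y : ℤ) (D : ℤ)
  rw [hg] at h1
  have h2 := Int.gcd_eq_gcd_ab x y
  set A := Int.gcdA (Int.gcd x y : ℤ) (D : ℤ)
  set B := Int.gcdB (Int.gcd x y : ℤ) (D : ℤ)
  refine ⟨(Int.gcdA x y * A : ℤ), (Int.gcdB x y * A : ℤ), ?_⟩
  have h3 : (1 : ℤ) = (x * Int.gcdA x y + y * Int.gcdB x y) * A + D * B := by
    rw [← h2]; push_cast at h1; linarith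
  have h4 := congrArg (Int.cast : ℤ → ZMod D) h3
  push_cast at h4
  rw [ZMod.natCast_self] at h4
  push_cast
  linear_combination -h4

/-- TARGET 1 -/
theorem uvec (D : ℕ) [NeZero D] (hD : Odd D) (t : ZMod D) (ht : t * t = -1) (ζ : ℍ[ℤ])
    (hN : (D : ℤ) ∣ Quaternion.normSq ζ) (hre : IsCoprime ζ.re (D : ℤ)) :
    ∃ u : Vec D, Uni u ∧ (∀ z : Vec D, ∃ s : ZMod D, (Ph t ζ).mulVec z = s • u) ∧
      (Ph t (star ζ)).mulVec u = 0 := by
  classical
  obtain ⟨T, hT⟩ : ∃ T : ℤ, (T : ZMod D) = t := ⟨(t.val : ℤ), by simp⟩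
  set P : ℤ := ζ.re + ζ.imI * T with hP
  set Q : ℤ := ζ.imJ + ζ.imK * T with hQ
  set R : ℤ := -ζ.imJ + ζ.imK * T with hR
  set S : ℤ := ζ.re - ζ.imI * T with hS
  have hD0 : D ≠ 0 := NeZero.ne D
  set z1 : ℕ := ∏ l ∈ D.primeFactors.filter (fun l : ℕ => (l : ℤ) ∣ P), l with hz1
  set z2 : ℕ := ∏ l ∈ D.primeFactors.filter (fun l : ℕ => ¬ (l : ℤ) ∣ P), l with hz2
  have hB : Ph t ζ = !![(P : ZMod D), Q; R, S] := by
    simp only [Ph, hP, hQ, hR, hS]
    push_cast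
    rw [hT]
  set z : Vec D := ![(z1 : ZMod D), (z2 : ZMod D)] with hz
  set u : Vec D := (Ph t ζ).mulVec z with hu
  have hu0 : u 0 = ((P * z1 + Q * z2 : ℤ) : ZMod D) := by
    rw [hu, hB]
    simp [Matrix.mulVec, dotProduct, Fin.sum_univ_two, hz]
  have hu1 : u 1 = ((R * z1 + S * z2 : ℤ) : ZMod D) := by
    rw [hu, hB]
    simp [Matrix.mulVec, dotProduct, Fin.sum_univ_two, hz]
  have hpr : ∀ l : ℕ, l.Prime → ∀ (s : Finset ℕ), s ⊆ D.primeFactors → l ∣ ∏ l ∈ s, l → l ∈ s := by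
    intro l hl s hs hd
    obtain ⟨m, hm, hlm⟩ := (Prime.dvd_finsetProd_iff hl.prime _).1 hd
    have : l = m := (Nat.prime_dvd_prime_iff_eq hl (Nat.prime_of_mem_primeFactors (hs hm))).1 hlm
    rwa [this]
  have huni : Uni u := by
    unfold Uni
    rw [hu0, hu1]
    apply h1_uni_of
    intro l hl hlD h0 h1
    have hlD' : l ∣ D := Int.natCast_dvd_natCast.1 hlD
    have hlmem : l ∈ D.primeFactors := Nat.mem_primeFactors.2 ⟨hl, hlD', hD0⟩
    have hlp : Prime (l : ℤ) := Nat.prime_iff_prime_int.1 hl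
    by_cases hlP : (l : ℤ) ∣ P
    · have hdz1 : (l : ℤ) ∣ (z1 : ℤ) := by
        rw [Int.natCast_dvd_natCast, hz1]
        exact Finset.dvd_prod_of_mem _ (Finset.mem_filter.2 ⟨hlmem, hlP⟩)
      have hndz2 : ¬ (l : ℤ) ∣ (z2 : ℤ) := by
        rw [Int.natCast_dvd_natCast, hz2]
        intro hd
        have := hpr l hl _ (Finset.filter_subset _ _) hd
        exact (Finset.mem_filter.1 this).2 hlP
      have h2 : (l : ℤ) ∣ S * z2 := by
        have := dvd_sub h1 (dvd_mul_of_dvd_right hdz1 R)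
        rwa [add_sub_cancel_left] at this
      have h3 : (l : ℤ) ∣ S := (hlp.dvd_or_dvd h2).resolve_right hndz2
      have h4 : (l : ℤ) ∣ 2 * ζ.re := by
        have := dvd_add hlP h3
        have he : P + S = 2 * ζ.re := by rw [hP, hS]; ring
        rwa [he] at this
      rcases hlp.dvd_or_dvd h4 with h5 | h5
      · have h6 : l ∣ 2 := by exact_mod_cast h5
        have h7 : l = 2 := (Nat.prime_dvd_prime_iff_eq hl Nat.prime_two).1 h6
        rw [h7] at hlD'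
        exact (Nat.not_even_iff_odd.2 hD) (even_iff_two_dvd.2 hlD')
      · exact hlp.not_isUnit (hre.isUnit_of_dvd' h5 hlD)
    · have hdz2 : (l : ℤ) ∣ (z2 : ℤ) := by
        rw [Int.natCast_dvd_natCast, hz2]
        exact Finset.dvd_prod_of_mem _ (Finset.mem_filter.2 ⟨hlmem, hlP⟩)
      have hndz1 : ¬ (l : ℤ) ∣ (z1 : ℤ) := by
        rw [Int.natCast_dvd_natCast, hz1]
        intro hd
        have := hpr l hl _ (Finset.filter_subset _ _) hd
        exact hlP (Finset.mem_filter.1 this).2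
      have h2 : (l : ℤ) ∣ P * z1 := by
        have := dvd_sub h0 (dvd_mul_of_dvd_right hdz2 Q)
        rwa [add_sub_cancel_right] at this
      rcases hlp.dvd_or_dvd h2 with h5 | h5
      · exact hlP h5
      · exact hndz1 h5
  have hN0 : ((Quaternion.normSq ζ : ℤ) : ZMod D) = 0 := by
    rwa [ZMod.intCast_zmod_eq_zero_iff_dvd]
  have hdet : (P : ZMod D) * S = Q * R := by
    have hn : (Quaternion.normSq ζ : ℤ) = ζ.re ^ 2 + ζ.imI ^ 2 + ζ.imJ ^ 2 + ζ.imK ^ 2 :=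
      Quaternion.normSq_def' ζ
    rw [hn] at hN0
    push_cast at hN0
    simp only [hP, hQ, hR, hS]
    push_cast
    rw [hT]
    linear_combination hN0 - ((ζ.imI : ZMod D) ^ 2 + (ζ.imK : ZMod D) ^ 2) * ht
  refine ⟨u, huni, ?_, ?_⟩
  · intro z'
    obtain ⟨r0, r1, hr⟩ := huni
    set w := (Ph t ζ).mulVec z' with hw
    have hw0 : w 0 = P * z' 0 + Q * z' 1 := by
      rw [hw, hB]; simp [Matrix.mulVec, dotProduct, Fin.sum_univ_two]
    have hw1 : w 1 = R * z' 0 + S * z' 1 := by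
      rw [hw, hB]; simp [Matrix.mulVec, dotProduct, Fin.sum_univ_two]
    have hdet2 : u 0 * w 1 = u 1 * w 0 := by
      rw [hu0, hu1, hw0, hw1]
      push_cast
      linear_combination ((z1 : ZMod D) * z' 1 - z2 * z' 0) * hdet
    refine ⟨r0 * w 0 + r1 * w 1, ?_⟩
    ext i
    fin_cases i
    · simp only [Pi.smul_apply, smul_eq_mul, Fin.zero_eta]
      linear_combination (-w 0) * hr - r1 * hdet2
    · simp only [Pi.smul_apply, smul_eq_mul, Fin.mk_one]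
      linear_combination (-w 1) * hr + r0 * hdet2
  · rw [hu, Matrix.mulVec_mulVec, ← h1_ph_mul t ht]
    have : star ζ * ζ = ((Quaternion.normSq ζ : ℤ) : ℍ[ℤ]) := Quaternion.star_mul_self ζ
    rw [this]
    have h0 : Ph t (((Quaternion.normSq ζ : ℤ) : ℍ[ℤ])) = 0 := by
      ext i j
      fin_cases i <;> fin_cases j <;> simp [Ph, hN0]
    rw [h0, Matrix.zero_mulVec]

/-- quaternion from coordinates -/
def h1_mk (a b c d : ℤ) : ℍ[ℤ] := ⟨a, b, c, d⟩

lemma h1_mk0 (a b c d : ℤ) : (h1_mk a b c d).re = a := rfl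
lemma h1_mk1 (a b c d : ℤ) : (h1_mk a b c d).imI = b := rfl
lemma h1_mk2 (a b c d : ℤ) : (h1_mk a b c d).imJ = c := rfl
lemma h1_mk3 (a b c d : ℤ) : (h1_mk a b c d).imK = d := rfl
lemma h1_vq0 (a b : ℤ) : (vq a b).re = a := rfl
lemma h1_vq1 (a b : ℤ) : (vq a b).imI = b := rfl
lemma h1_vq2 (a b : ℤ) : (vq a b).imJ = 0 := rfl
lemma h1_vq3 (a b : ℤ) : (vq a b).imK = 0 := rfl

/-- division by `c` -/
lemma h1_div (c : ℤ) (D : ℕ) (hD : Odd D) (hc : c = 1 ∨ c = 2) (z q : ℤ) (h : D * z = c * q) :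
    ∃ y, z = c * y ∧ D * y = q := by
  rcases hc with rfl | rfl
  · exact ⟨z, by ring, by linarith⟩
  · have h2 : Even ((D : ℤ) * z) := ⟨q, by rw [h]; ring⟩
    rcases Int.even_mul.1 h2 with h3 | h3
    · exact absurd h3 (by rw [Int.not_even_iff_odd]; exact_mod_cast hD)
    · obtain ⟨y, hy⟩ := h3
      refine ⟨y, by rw [hy]; ring, ?_⟩
      rw [hy] at h
      linarith

lemma h1_divq (c : ℤ) (D : ℕ) (hD : Odd D) (hc : c = 1 ∨ c = 2) (Z Q : ℍ[ℤ]) (h : (D : ℤ) • Z = c • Q) :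
    ∃ Y : ℍ[ℤ], Z = c • Y ∧ (D : ℤ) • Y = Q := by
  have h0 := congrArg (fun x : ℍ[ℤ] => x.re) h
  have h1 := congrArg (fun x : ℍ[ℤ] => x.imI) h
  have h2 := congrArg (fun x : ℍ[ℤ] => x.imJ) h
  have h3 := congrArg (fun x : ℍ[ℤ] => x.imK) h
  simp only [Quaternion.re_smul, Quaternion.imI_smul, Quaternion.imJ_smul, Quaternion.imK_smul,
    smul_eq_mul] at h0 h1 h2 h3
  obtain ⟨y0, hy0, hy0'⟩ := h1_div c D hD hc _ _ h0
  obtain ⟨y1, hy1, hy1'⟩ := h1_div c D hD hc _ _ h1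
  obtain ⟨y2, hy2, hy2'⟩ := h1_div c D hD hc _ _ h2
  obtain ⟨y3, hy3, hy3'⟩ := h1_div c D hD hc _ _ h3
  refine ⟨h1_mk y0 y1 y2 y3, ?_, ?_⟩
  · ext <;> simp [hy0, hy1, hy2, hy3, h1_mk0, h1_mk1, h1_mk2, h1_mk3]
  · ext <;> simp [hy0', hy1', hy2', hy3', h1_mk0, h1_mk1, h1_mk2, h1_mk3]

lemma h1_conj (a b c : ℤ) (D : ℕ) (hc : c = 1 ∨ c = 2) (hab : a ^ 2 + b ^ 2 = c * D) (u : ℍ[ℤ]) :
    ∃ U : ℍ[ℤ], vq a b * u * star (vq a b) = c • U ∧ U.re = D * u.re := by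
  rcases hc with rfl | rfl
  · refine ⟨vq a b * u * star (vq a b), by simp, ?_⟩
    simp [h1_vq0, h1_vq1, h1_vq2, h1_vq3]
    linear_combination u.re * hab
  · refine ⟨h1_mk (D * u.re) (D * u.imI) ((D - b ^ 2) * u.imJ - a * b * u.imK)
      ((D - b ^ 2) * u.imK + a * b * u.imJ), ?_, rfl⟩
    ext <;> simp [h1_vq0, h1_vq1, h1_vq2, h1_vq3, h1_mk0, h1_mk1, h1_mk2, h1_mk3, -zsmul_eq_mul]
    · linear_combination u.re * hab
    · linear_combination u.imI * hab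
    · linear_combination u.imJ * hab
    · linear_combination u.imK * hab

/-- TARGET 2 -/
theorem gc_conj (a b c : ℤ) (D : ℕ) (hD : Odd D) (hc : c = 1 ∨ c = 2) (hab : a ^ 2 + b ^ 2 = c * D)
    (ζ γ : ℍ[ℤ]) (hζ : GC a b c D ζ) (hγ : Gd γ) : GC a b c D (γ * ζ * star γ) := by
  obtain ⟨w, hw, hw0, hw1, hw2, hw3⟩ := hζ
  obtain ⟨g0, g1, g2, g3⟩ := hγ
  -- `γ = 1 + 2 u`
  obtain ⟨k, hk⟩ : ∃ k, γ.re = 1 + 2 * (2 * k) := ⟨γ.re / 4, by omega⟩
  obtain ⟨x1, hx1⟩ : ∃ k, γ.imI = 2 * k := ⟨γ.imI / 2, by omega⟩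
  obtain ⟨x2, hx2⟩ : ∃ k, γ.imJ = 2 * k := ⟨γ.imJ / 2, by omega⟩
  obtain ⟨x3, hx3⟩ : ∃ k, γ.imK = 2 * k := ⟨γ.imK / 2, by omega⟩
  obtain ⟨u, hu0, hu1, hu2, hu3⟩ : ∃ u : ℍ[ℤ], u.re = 2 * k ∧ u.imI = x1 ∧ u.imJ = x2 ∧ u.imK = x3 :=
    ⟨h1_mk (2 * k) x1 x2 x3, rfl, rfl, rfl, rfl⟩
  have hγu : γ = 1 + (2 : ℤ) • u := by
    ext <;> simp [hu0, hu1, hu2, hu3, hk, hx1, hx2, hx3, -zsmul_eq_mul]
  obtain ⟨U, hU, hUre⟩ := h1_conj a b c D hc hab u
  have hc0 : c ≠ 0 := by rcases hc with rfl | rfl <;> norm_num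
  -- `D ζ = v* w`
  have hvv : star (vq a b) * vq a b = (((c * D : ℤ)) : ℍ[ℤ]) := by
    ext <;> simp [h1_vq0, h1_vq1, h1_vq2, h1_vq3]
    · linear_combination hab
    · ring
  have hDζ : (D : ℤ) • ζ = star (vq a b) * w := by
    have h1 : c • ((D : ℤ) • ζ) = c • (star (vq a b) * w) := by
      calc c • ((D : ℤ) • ζ) = (((c * D : ℤ)) : ℍ[ℤ]) * ζ := by
            ext <;> simp <;> ring
        _ = star (vq a b) * (vq a b * ζ) := by rw [← hvv, mul_assoc]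
        _ = c • (star (vq a b) * w) := by rw [hw, mul_smul_comm]
    exact smul_right_injective _ hc0 h1
  obtain ⟨Y, hY, hY'⟩ := h1_divq c D hD hc (vq a b * u * ζ) (U * w) (by
    rw [← smul_mul_assoc c, ← hU, ← mul_smul_comm, hDζ]
    simp only [mul_assoc])
  refine ⟨w + (2 : ℤ) • Y + (2 : ℤ) • (w * star u) + (4 : ℤ) • (Y * star u), ?_, ?_⟩
  · rw [hγu]
    have e1 : vq a b * ((1 + (2 : ℤ) • u) * ζ * star (1 + (2 : ℤ) • u)) =
        vq a b * ζ + (2 : ℤ) • (vq a b * u * ζ) + (2 : ℤ) • (vq a b * ζ * star u) +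
          (4 : ℤ) • (vq a b * u * ζ * star u) := by
      have : star (1 + (2 : ℤ) • u) = 1 + (2 : ℤ) • star u := by
        rw [star_add, star_one, star_smul]
        simp only [star_trivial]
      rw [this]
      simp only [mul_add, add_mul, mul_one, one_mul, smul_mul_assoc, mul_smul_comm, mul_assoc, smul_add,
        smul_smul]
      norm_num
      abel
    rw [e1, hw, hY]
    simp only [smul_add, smul_mul_assoc, smul_smul]
    simp only [mul_comm c]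
  · -- parities
    obtain ⟨m1, hm1⟩ : ∃ m, w.imI = 2 * m := ⟨w.imI / 2, by omega⟩
    obtain ⟨m2, hm2⟩ : ∃ m, w.imJ = 2 * m := ⟨w.imJ / 2, by omega⟩
    obtain ⟨m3, hm3⟩ : ∃ m, w.imK = 2 * m := ⟨w.imK / 2, by omega⟩
    have hYre : Even Y.re := by
      have h := congrArg (fun x : ℍ[ℤ] => x.re) hY'
      simp only [Quaternion.re_smul, smul_eq_mul, Quaternion.re_mul] at h
      rw [hUre, hm1, hm2, hm3] at h
      have h2 : Even ((D : ℤ) * Y.re) := by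
        rw [h]
        refine ⟨D * k * w.re - U.imI * m1 - U.imJ * m2 - U.imK * m3, ?_⟩
        rw [hu0]
        ring
      rcases Int.even_mul.1 h2 with h3 | h3
      · exact absurd h3 (by rw [Int.not_even_iff_odd]; exact_mod_cast hD)
      · exact h3
    obtain ⟨y, hy⟩ := hYre
    obtain ⟨s, hs⟩ : ∃ s, (w * star u).re = 2 * s := by
      refine ⟨w.re * k + m1 * x1 + m2 * x2 + m3 * x3, ?_⟩
      simp [Quaternion.re_mul, hu0, hu1, hu2, hu3, hm1, hm2, hm3]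
      ring
    refine ⟨?_, ?_, ?_, ?_⟩
    · simp only [Quaternion.re_add, Quaternion.re_smul, smul_eq_mul, hs, hy]
      omega
    · simp only [Quaternion.imI_add, Quaternion.imI_smul, smul_eq_mul]
      omega
    · simp only [Quaternion.imJ_add, Quaternion.imJ_smul, smul_eq_mul]
      omega
    · simp only [Quaternion.imK_add, Quaternion.imK_smul, smul_eq_mul]
      omega

/-- TARGET 3 -/
theorem extract (a b c : ℤ) (D : ℕ) [NeZero D] (hD : Odd D) (hc : c = 1 ∨ c = 2)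
    (hab : a ^ 2 + b ^ 2 = c * D) (t : ZMod D) (ht : t * t = -1) (hv : (a : ZMod D) + b * t = 0)
    (ζ q : ℍ[ℤ]) (hg : GC a b c D (q * ζ * star q))
    (h1 : Ph t (q * ζ) 1 0 = 0) (h2 : Ph t (q * ζ) 1 1 = 0) :
    ∃ x : ℍ[ℤ], Gd x ∧ vq a b * (q * ζ * star q) = (a ^ 2 + b ^ 2) • x := by
  obtain ⟨w, hw, hw0, hw1, hw2, hw3⟩ := hg
  have h2u : IsUnit (2 : ZMod D) := by
    have : IsUnit ((2 : ℕ) : ZMod D) := by
      rw [ZMod.isUnit_iff_coprime]
      exact (Nat.coprime_two_left).2 hD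
    exact_mod_cast this
  have hcu : IsUnit (c : ZMod D) := by
    rcases hc with rfl | rfl
    · simp
    · exact_mod_cast h2u
  have htu : IsUnit t := IsUnit.of_mul_eq_one (-t) (by linear_combination -ht)
  have hzero : Ph t (c • w) = 0 := by
    rw [← hw, h1_ph_mul t ht, h1_ph_mul t ht]
    have h3 : Ph t (vq a b) * Ph t (q * ζ) = 0 := by
      ext i j
      fin_cases i <;> fin_cases j
      · simp only [Matrix.mul_apply, Fin.sum_univ_two, Fin.zero_eta, h1]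
        simp [Ph, h1_vq0, h1_vq1, h1_vq2, h1_vq3, hv]
      · simp only [Matrix.mul_apply, Fin.sum_univ_two, Fin.zero_eta, Fin.mk_one, h2]
        simp [Ph, h1_vq0, h1_vq1, h1_vq2, h1_vq3, hv]
      · simp only [Matrix.mul_apply, Fin.sum_univ_two, Fin.zero_eta, Fin.mk_one, h1]
        simp [Ph, h1_vq0, h1_vq1, h1_vq2, h1_vq3]
      · simp only [Matrix.mul_apply, Fin.sum_univ_two, Fin.zero_eta, Fin.mk_one, h2]
        simp [Ph, h1_vq0, h1_vq1, h1_vq2, h1_vq3]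
    rw [← Matrix.mul_assoc, h3, Matrix.zero_mul]
  rw [h1_ph_smul] at hzero
  have hent : ∀ i j, Ph t w i j = 0 := by
    intro i j
    have := congrFun (congrFun hzero i) j
    simp only [Matrix.smul_apply, smul_eq_mul, Matrix.zero_apply] at this
    exact (hcu.mul_right_eq_zero).1 this
  have e00 := hent 0 0
  have e01 := hent 0 1
  have e10 := hent 1 0
  have e11 := hent 1 1
  simp [Ph] at e00 e01 e10 e11
  have r0 : ((w.re : ℤ) : ZMod D) = 0 := (h2u.mul_right_eq_zero).1 (by linear_combination e00 + e11)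
  have r1 : ((w.imI : ℤ) : ZMod D) = 0 := (htu.mul_right_eq_zero).1
    ((h2u.mul_right_eq_zero).1 (by linear_combination e00 - e11))
  have r2 : ((w.imJ : ℤ) : ZMod D) = 0 := (h2u.mul_right_eq_zero).1 (by linear_combination e01 - e10)
  have r3 : ((w.imK : ℤ) : ZMod D) = 0 := (htu.mul_right_eq_zero).1
    ((h2u.mul_right_eq_zero).1 (by linear_combination e01 + e10))
  rw [ZMod.intCast_zmod_eq_zero_iff_dvd] at r0 r1 r2 r3
  obtain ⟨x0, hx0⟩ := r0
  obtain ⟨x1, hx1⟩ := r1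
  obtain ⟨x2, hx2⟩ := r2
  obtain ⟨x3, hx3⟩ := r3
  have hev : ∀ x : ℤ, ((D : ℤ) * x) % 2 = 0 → x % 2 = 0 := by
    intro x hx
    rcases Int.even_mul.1 (Int.even_iff.2 hx) with h3 | h3
    · exact absurd h3 (by rw [Int.not_even_iff_odd]; exact_mod_cast hD)
    · exact Int.even_iff.1 h3
  refine ⟨h1_mk x0 x1 x2 x3, ⟨?_, ?_, ?_, ?_⟩, ?_⟩
  · show x0 % 4 = 1
    have h4 : (4 : ℤ) ∣ D * (x0 - 1) := by
      have : (4 : ℤ) ∣ w.re - D := Int.dvd_of_emod_eq_zero hw0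
      rw [hx0] at this
      have he : (D : ℤ) * x0 - D = D * (x0 - 1) := by ring
      rwa [he] at this
    have h5 : IsCoprime (4 : ℤ) D := by
      have : Nat.Coprime 4 D := by
        have h6 : Nat.Coprime 2 D := (Nat.coprime_two_left).2 hD
        have := Nat.Coprime.pow_left 2 h6
        simpa using this
      exact_mod_cast Nat.isCoprime_iff_coprime.2 this
    have h6 : (4 : ℤ) ∣ x0 - 1 := h5.dvd_of_dvd_mul_left h4
    omega
  · show x1 % 2 = 0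
    exact hev _ (by rw [← hx1]; exact hw1)
  · show x2 % 2 = 0
    exact hev _ (by rw [← hx2]; exact hw2)
  · show x3 % 2 = 0
    exact hev _ (by rw [← hx3]; exact hw3)
  · rw [hw, hab]
    ext <;> simp [hx0, hx1, hx2, hx3, h1_mk0, h1_mk1, h1_mk2, h1_mk3] <;> ring

end Pool.Agent.H978V
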