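import Pool.Agent.H978V.Defs2
import Pool.Agent.Helper557.Rz.M_inj
import Pool.Agent.Helper557.Rz.M_rq
import Pool.Agent.Helper557.Rz.M_kera
import Pool.Agent.H978V.C2
import Pool.Agent.H978V.G10
import Pool.Agent.H978V.H1

/-!
JOB H2 (owner helper978, MP_06cce2_nt).  Starting files `Helper557/Rz/*`; `H978V/{Ar,Defs,Defs2}.lean` are on origin/main.

The hitting theorem in arithmetic form.  `R` exists by `exists_RQ` (`M_rq.lean`).

PROOF.  `κ = 12/(6 + l₁)`.  For `y ∈ Z`: `ζ_y = zq m s y`, `normSq ζ_y = m² + s² n`, divisible by `D`; `u_y` from `uvec`.  `ŷ = (1/√n)(y₁,y₂,y₃) ∈ S 3`.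
`fB = fam Z u_· ŷ_· N`; `fA = fam (RW j) (w ↦ (Ph t (star (qw w))).mulVec e₁) (w ↦ rot (R (uw w))⁻¹ ê) N`, `e₁ = (1,0)`, `ê = ehat sgn`.
`tot fB = φ(D)|Z|`, `tot fA = φ(D)|RW j|`, `|RW j| = 6·5^{j-1}` (`NU D ≤ D²`).
(B) `ip fB fB = φ(D) ∑_{y,y'} [u_{y'} ∈ units u_y] k2 N ŷ ŷ'`.  If `u_{y'} = α u_y` then `Ph t (star ζ_y) Ph t ζ_{y'} = 0` (the image of `Ph t ζ_{y'}` is in `(ZMod D) u_{y'}` and `Ph t (star ζ_y) u_y = 0`), so the trace
`2 re (star ζ_y * ζ_{y'}) = 2 (m² + s² dt y y') ≡ 0 mod D`; with `m² + s² n ≡ 0` and `s, 2` units: `D ∣ n - dt y y'`.  `k2 ≤ wt N ((2 - 2 dt y y'/n)/16) = wt N ((n - dt y y')/(8n))`.  So `ip fB fB ≤ φ(D) EB`.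
(A) `ip fA fA = φ(D) ∑_{w,w'} [..] k2 N (R(w)⁻¹ê) (R(w')⁻¹ê)`.  The condition `Ph(star w') e₁ ∈ units · Ph(star w) e₁` gives, multiplying by `Ph (qw w)` (`qw w * star (qw w) = 5^j`): the second coordinate of
`Ph t (q) e₁` is zero for `q = qw w * star (qw w')`: `-imJ + imK t = 0`.  `k2` is invariant under rotations, so `k2 = k2 N ê (R(uw w * (uw w')⁻¹) ê)`, and `⟨ê, R(q) ê⟩ = (q₀² + q₁² - q₂² - q₃²)/N(q) = 1 - 2 (q₂²+q₃²)/25^j`, so
`k2 ≤ wt N (4 (q₂²+q₃²)/25^j / 16)`.  So `ip fA fA ≤ φ(D) EA`.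
(C) The hypothesis of `mixing`: `(6+l₁)^i φ √(EA EB) ≤ (1/2) 12^i φ² |Z||RW j|/NU` follows from `4 D⁴ EA EB ≤ κ^{2i} φ² |Z|² (6·5^{j-1})²` and `NU ≤ D²`.
So there is `w₀`, `|w₀| ≤ i`, with `(1/2) φ²|Z||RW j|/NU ≤ ip (actw R t w₀ fB) fA = φ ∑_{y,w} [Ph(star w) e₁ ∈ units Ph(star w₀) u_y] k2 N (R(w₀)⁻¹ŷ) (R(w)⁻¹ê)`; so some `(y,w)` has the bracket true and
`k2 N (R(w)R(w₀)⁻¹ ŷ) ê ≥ φ/(2 NU) ≥ 1/(2D²)`.
Let `γ = (w₀.reverse.map (· + 3)) ++ w`: `qw γ = qw w * star (qw w₀)` (`j9340_app`, `j9340_rev` in `M_inj.lean`), length `≤ i + j`.  Multiplying the bracket by `Ph (qw w)`: `Ph t (qw γ) u_y = unit • e₁`, so the image of `Ph t (qw γ * ζ_y)` is in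
`(ZMod D) e₁`: second row zero.  `R(uw w) R(uw w₀)⁻¹ ŷ` is the direction of `Y = qw γ * pq y * star (qw γ)` (norm `25^{|γ|} n`), so its scalar product with `ê` is `± Y.imI/(5^{|γ|} √n)`; apply `k2_le`.
-/

set_option autoImplicit false

open MeasureTheory Set
open scoped Quaternion

namespace Pool.Agent.H978V

open Pool.Agent.Helper557.Rz








/-! ### arithmetic lemmas -/

lemma hit_Ph_mul {D : ℕ} {t : ZMod D} (ht : t * t = -1) (x y : ℍ[ℤ]) :
    Ph t (x * y) = Ph t x * Ph t y := by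
  ext i j
  fin_cases i <;> fin_cases j
  · simp only [Ph, Matrix.mul_apply, Fin.sum_univ_two, Quaternion.re_mul, Quaternion.imI_mul]
    simp
    linear_combination (-(x.imI * y.imI + x.imK * y.imK : ZMod D)) * ht
  · simp only [Ph, Matrix.mul_apply, Fin.sum_univ_two, Quaternion.imJ_mul, Quaternion.imK_mul]
    simp
    linear_combination ((x.imK * y.imI - x.imI * y.imK : ZMod D)) * ht
  · simp only [Ph, Matrix.mul_apply, Fin.sum_univ_two, Quaternion.imJ_mul, Quaternion.imK_mul]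
    simp
    linear_combination (-(x.imK * y.imI - x.imI * y.imK : ZMod D)) * ht
  · simp only [Ph, Matrix.mul_apply, Fin.sum_univ_two, Quaternion.re_mul, Quaternion.imI_mul]
    simp
    linear_combination (-(x.imI * y.imI + x.imK * y.imK : ZMod D)) * ht

lemma hit_Ph_int {D : ℕ} (t : ZMod D) (c : ℤ) :
    Ph t ((c : ℤ) : ℍ[ℤ]) = (c : ZMod D) • (1 : Matrix (Fin 2) (Fin 2) (ZMod D)) := by
  ext i j
  fin_cases i <;> fin_cases j <;> simp [Ph]

lemma hit_nsq (w : List (Fin 6)) : Quaternion.normSq (qw w) = 5 ^ w.length := by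
  induction w with
  | nil => simp [qw]
  | cons a v ih =>
    show Quaternion.normSq (qw v * al a) = 5 ^ (v.length + 1)
    rw [map_mul, ih, pow_succ]
    congr 1
    rw [Quaternion.normSq_def']
    fin_cases a <;> rfl

lemma hit_norm (w : List (Fin 6)) :
    qw w * star (qw w) = ((5 ^ w.length : ℤ) : ℍ[ℤ]) := by
  rw [Quaternion.self_mul_star, hit_nsq]
  rfl

lemma hit_Ph_norm {D : ℕ} {t : ZMod D} (ht : t * t = -1) (w : List (Fin 6)) :
    Ph t (qw w) * Ph t (star (qw w)) =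
      ((5 : ZMod D) ^ w.length) • (1 : Matrix (Fin 2) (Fin 2) (ZMod D)) := by
  rw [← hit_Ph_mul ht, hit_norm, hit_Ph_int]
  push_cast
  rfl

lemma hit_unit5 {D : ℕ} (h5 : Nat.Coprime D 5) (l : ℕ) : IsUnit ((5 : ZMod D) ^ l) := by
  refine IsUnit.pow l ?_
  have := (ZMod.isUnit_iff_coprime 5 D).2 h5.symm
  exact_mod_cast this

lemma hit_Uni {D : ℕ} (A B : Matrix (Fin 2) (Fin 2) (ZMod D)) (c : ZMod D) (hc : IsUnit c)
    (h : B * A = c • 1) (u : Vec D) (hu : Uni u) : Uni (A.mulVec u) := by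
  obtain ⟨c', hc'⟩ : ∃ c', c' * c = 1 := hc.exists_left_inv
  obtain ⟨x, y, hxy⟩ := hu
  have h1 : B.mulVec (A.mulVec u) = c • u := by
    rw [Matrix.mulVec_mulVec, h, Matrix.smul_mulVec, Matrix.one_mulVec]
  have h2 := congrFun h1 0
  have h3 := congrFun h1 1
  generalize A.mulVec u = v at *
  simp only [Matrix.mulVec, dotProduct, Fin.sum_univ_two, Pi.smul_apply, smul_eq_mul] at h2 h3
  refine ⟨c' * (x * B 0 0 + y * B 1 0), c' * (x * B 0 1 + y * B 1 1), ?_⟩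
  linear_combination c' * x * h2 + c' * y * h3 + c' * c * hxy + hc'

lemma hit_Uni_star {D : ℕ} (h5 : Nat.Coprime D 5) {t : ZMod D} (ht : t * t = -1)
    (w : List (Fin 6)) (u : Vec D) (hu : Uni u) : Uni ((Ph t (star (qw w))).mulVec u) :=
  hit_Uni _ (Ph t (qw w)) _ (hit_unit5 h5 _) (hit_Ph_norm ht w) u hu

/-- the first unit vector -/
def hit_e1 (D : ℕ) : Vec D := ![1, 0]

lemma hit_e1_Uni (D : ℕ) : Uni (hit_e1 D) := by
  refine ⟨1, 0, ?_⟩
  simp [hit_e1]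

lemma hit_card (l : ℕ) : (RW (l + 1)).card = 6 * 5 ^ l := by
  have hcount : ∀ (l : ℕ) (c : ℕ), (∀ v ∈ RW l,
      (Finset.univ.filter (fun a : Fin 6 => v.head? ≠ some (a + 3))).card = c) →
      (RW (l + 1)).card = c * (RW l).card := by
    intro l c hc
    show (((Finset.univ ×ˢ RW l).filter
      (fun p : Fin 6 × List (Fin 6) => p.2.head? ≠ some (p.1 + 3))).image
        (fun p => p.1 :: p.2)).card = _
    rw [Finset.card_image_of_injective, Finset.card_filter, Finset.sum_product_right]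
    · simp only
      rw [Finset.sum_congr rfl (g := fun _ => c)]
      · rw [Finset.sum_const, smul_eq_mul, mul_comm]
      · intro v hv
        rw [← Finset.card_filter]
        exact hc v hv
    · rintro ⟨a, v⟩ ⟨b, w⟩ h
      simpa using h
  induction l with
  | zero =>
    rw [hcount 0 6]
    · rfl
    · intro v hv
      have : v = [] := by simpa [RW] using hv
      subst this
      decide
  | succ l ih =>
    rw [hcount (l + 1) 5, ih]
    · rw [pow_succ]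
      ring
    · intro v hv
      obtain ⟨b, v', rfl, -, -⟩ := j9340_cases l v hv
      rw [List.head?_cons]
      have key : ∀ b : Fin 6,
          (Finset.univ.filter (fun a : Fin 6 => some b ≠ some (a + 3))).card = 5 := by decide
      exact key b

lemma hit_len {l : ℕ} {w : List (Fin 6)} (h : w ∈ RW l) : w.length = l :=
  ((j9340_chain l w).1 h).1

lemma hit_NU (D : ℕ) [NeZero D] : 1 ≤ NU D ∧ NU D ≤ D ^ 2 := by
  classical
  constructor
  · refine Finset.card_pos.2 ⟨hit_e1 D, ?_⟩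
    rw [Finset.mem_filter]
    exact ⟨Finset.mem_univ _, hit_e1_Uni D⟩
  · refine (Finset.card_filter_le _ _).trans ?_
    rw [Finset.card_univ, Fintype.card_fun, Fintype.card_fin, ZMod.card]

/-- divisibility from proportional vectors -/
lemma hit_dvd {D : ℕ} [NeZero D] (hD : Odd D) {t : ZMod D} (ht : t * t = -1) (n : ℕ) (m s : ℤ)
    (hs : s = 1 ∨ s = 2) (hmn : (D : ℤ) ∣ m ^ 2 + s ^ 2 * n) (y y' : ℤ × ℤ × ℤ) (v v' : Vec D)
    (h1 : (Ph t (star (zq m s y))).mulVec v = 0)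
    (h2 : ∀ z : Vec D, ∃ c : ZMod D, (Ph t (zq m s y')).mulVec z = c • v')
    (a : ZMod D) (h3 : v' = a • v) : (D : ℤ) ∣ n - dt y y' := by
  have h4 : ∀ z : Vec D, (Ph t (star (zq m s y) * zq m s y')).mulVec z = 0 := by
    intro z
    obtain ⟨c, hc⟩ := h2 z
    rw [hit_Ph_mul ht, ← Matrix.mulVec_mulVec, hc, h3, Matrix.mulVec_smul, Matrix.mulVec_smul, h1,
      smul_zero, smul_zero]
  have e0 := congrFun (h4 ![1, 0]) 0
  have e1 := congrFun (h4 ![0, 1]) 1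
  have hre : (star (zq m s y) * zq m s y').re = m ^ 2 + s ^ 2 * dt y y' := by
    rw [Quaternion.re_mul, Quaternion.re_star, Quaternion.imI_star, Quaternion.imJ_star,
      Quaternion.imK_star]
    simp only [zq, dt]
    ring
  generalize star (zq m s y) * zq m s y' = X at *
  simp only [Matrix.mulVec, dotProduct, Fin.sum_univ_two, Pi.zero_apply] at e0 e1
  simp [Ph] at e0 e1
  have e2 : ((2 * (m ^ 2 + s ^ 2 * dt y y') : ℤ) : ZMod D) = 0 := by
    rw [← hre]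
    push_cast
    linear_combination e0 + e1
  rw [ZMod.intCast_zmod_eq_zero_iff_dvd] at e2
  have hc2 : IsCoprime (D : ℤ) 2 := by
    rw [Int.isCoprime_iff_gcd_eq_one]
    have : Nat.Coprime D 2 := hD.coprime_two_right
    exact_mod_cast this
  have e3 : (D : ℤ) ∣ m ^ 2 + s ^ 2 * dt y y' := hc2.dvd_of_dvd_mul_left e2
  have e4 : (D : ℤ) ∣ s ^ 2 * (n - dt y y') := by
    have := dvd_sub hmn e3
    have e : m ^ 2 + s ^ 2 * n - (m ^ 2 + s ^ 2 * dt y y') = s ^ 2 * (n - dt y y') := by ring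
    rwa [e] at this
  have hcs : IsCoprime (D : ℤ) (s ^ 2) := by
    refine IsCoprime.pow_right ?_
    rcases hs with rfl | rfl
    · exact isCoprime_one_right
    · exact hc2
  exact hcs.dvd_of_dvd_mul_left e4

/-! ### rotations -/

lemma hit_uw (w : List (Fin 6)) : ((uw w : ℍ[ℝ]ˣ) : ℍ[ℝ]) = cz (qw w) := by
  induction w with
  | nil => show ((1 : ℍ[ℝ]ˣ) : ℍ[ℝ]) = cz 1; rw [cz_one]; rfl
  | cons a v ih =>
    show ((uw v * ua a : ℍ[ℝ]ˣ) : ℍ[ℝ]) = cz (qw v * al a)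
    rw [Units.val_mul, ih, cz_mul]
    rfl

lemma hit_nsqr (q : ℍ[ℤ]) : Quaternion.normSq (cz q) = ((Quaternion.normSq q : ℤ) : ℝ) := by
  rw [Quaternion.normSq_def', Quaternion.normSq_def']
  simp [cz]

lemma hit_uwinv (w : List (Fin 6)) :
    (((uw w)⁻¹ : ℍ[ℝ]ˣ) : ℍ[ℝ]) = ((5 : ℝ) ^ w.length)⁻¹ • star (cz (qw w)) := by
  rw [unit_inv, hit_uw, hit_nsqr, hit_nsq]
  push_cast
  rfl

lemma hit_rot (R : ℍ[ℝ]ˣ →* Iso 3) (hR : IsRot R) (w w₀ : List (Fin 6)) (x : E 3) :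
    imq (R (uw w) ((R (uw w₀))⁻¹ x)) = ((5 : ℝ) ^ (w₀.length + w.length))⁻¹ •
      (cz (qw w * star (qw w₀)) * imq x * star (cz (qw w * star (qw w₀)))) := by
  have h1 : R (uw w) ((R (uw w₀))⁻¹ x) = R (uw w * (uw w₀)⁻¹) x := by
    rw [map_mul, map_inv]
    rfl
  rw [h1, hR, mul_inv_rev, inv_inv, Units.val_mul, Units.val_mul, hit_uw, hit_uw, hit_uwinv,
    hit_uwinv, cz_mul, cz_star, star_mul, star_star]
  simp only [smul_mul_assoc, mul_smul_comm, smul_smul, mul_assoc]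
  congr 1
  rw [pow_add, mul_inv]
  ring

lemma hit_inner_e (v : E 3) (sgn : Bool) :
    inner ℝ v (ehat sgn : E 3) = (if sgn then (1 : ℝ) else -1) * v 0 := by
  show inner ℝ v ((if sgn then 1 else -1 : ℝ) • EuclideanSpace.single (0 : Fin 3) (1 : ℝ)) = _
  rw [real_inner_smul_right, EuclideanSpace.inner_single_right]
  simp

lemma hit_inner_rot (R : ℍ[ℝ]ˣ →* Iso 3) (hR : IsRot R) (w w₀ : List (Fin 6)) (x : S 3)
    (sgn : Bool) : inner ℝ ((rot (R (uw w₀))⁻¹ x : S 3) : E 3)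
      ((rot (R (uw w))⁻¹ (ehat sgn) : S 3) : E 3) =
      (if sgn then (1 : ℝ) else -1) * (((5 : ℝ) ^ (w₀.length + w.length))⁻¹ *
      (cz (qw w * star (qw w₀)) * imq x * star (cz (qw w * star (qw w₀)))).imI) := by
  rw [rot_coe, rot_coe, ← LinearIsometryEquiv.inner_map_map (R (uw w))]
  have h1 : (R (uw w)) ((R (uw w))⁻¹ (ehat sgn : E 3)) = (ehat sgn : E 3) := by
    show (R (uw w) * (R (uw w))⁻¹) (ehat sgn : E 3) = _
    rw [mul_inv_cancel]
    rfl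
  rw [h1, hit_inner_e]
  congr 1
  have h2 := congrArg QuaternionAlgebra.imI (hit_rot R hR w w₀ (x : E 3))
  rw [Quaternion.imI_smul] at h2
  exact h2

/-- a multiple of the unit `i` -/
noncomputable def hit_pi (c : ℝ) : ℍ[ℝ] := ⟨0, c, 0, 0⟩

lemma hit_imq_e (sgn : Bool) :
    imq (ehat sgn : E 3) = hit_pi (if sgn then (1 : ℝ) else -1) := by
  cases sgn <;> (ext <;> simp [imq, ehat, hit_pi])

lemma hit_A_inner (R : ℍ[ℝ]ˣ →* Iso 3) (hR : IsRot R) (j : ℕ) (w w₀ : List (Fin 6))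
    (hw : w.length = j) (hw₀ : w₀.length = j) (sgn : Bool) :
    (2 - 2 * inner ℝ ((rot (R (uw w₀))⁻¹ (ehat sgn) : S 3) : E 3)
      ((rot (R (uw w))⁻¹ (ehat sgn) : S 3) : E 3)) / 16 =
      ((((qw w * star (qw w₀)).imJ ^ 2 + (qw w * star (qw w₀)).imK ^ 2 : ℤ) : ℝ) / (4 * 25 ^ j)) := by
  rw [hit_inner_rot R hR w w₀ (ehat sgn) sgn, hit_imq_e, hw, hw₀]
  have hN : Quaternion.normSq (qw w * star (qw w₀)) = 5 ^ (j + j) := by
    rw [map_mul, Quaternion.normSq_star, hit_nsq, hit_nsq, hw, hw₀, pow_add]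
  rw [Quaternion.normSq_def'] at hN
  generalize qw w * star (qw w₀) = q at *
  have hN' : ((q.re : ℝ) ^ 2 + (q.imI : ℝ) ^ 2 + (q.imJ : ℝ) ^ 2 + (q.imK : ℝ) ^ 2) =
      (5 : ℝ) ^ (j + j) := by exact_mod_cast hN
  have h25 : (25 : ℝ) ^ j = 5 ^ (j + j) := by
    rw [← two_mul, pow_mul]
    norm_num
  have h0 : (0 : ℝ) < 5 ^ (j + j) := by positivity
  rw [h25]
  have hs : ∀ c : ℝ, (cz q * hit_pi c * star (cz q)).imI =
      c * ((q.re : ℝ) ^ 2 + (q.imI : ℝ) ^ 2 - (q.imJ : ℝ) ^ 2 - (q.imK : ℝ) ^ 2) := by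
    intro c
    rw [Quaternion.imI_mul, Quaternion.re_mul, Quaternion.imI_mul, Quaternion.imJ_mul,
      Quaternion.imK_mul, Quaternion.re_star, Quaternion.imI_star, Quaternion.imJ_star,
      Quaternion.imK_star]
    simp only [cz, hit_pi]
    ring
  rw [hs]
  have h1 : (if sgn then (1 : ℝ) else -1) * (((5 : ℝ) ^ (j + j))⁻¹ * ((if sgn then (1 : ℝ) else -1) *
      ((q.re : ℝ) ^ 2 + (q.imI : ℝ) ^ 2 - (q.imJ : ℝ) ^ 2 - (q.imK : ℝ) ^ 2))) =
      ((5 : ℝ) ^ (j + j))⁻¹ *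
      ((q.re : ℝ) ^ 2 + (q.imI : ℝ) ^ 2 - (q.imJ : ℝ) ^ 2 - (q.imK : ℝ) ^ 2) := by
    have hss : (if sgn then (1 : ℝ) else -1) * (if sgn then (1 : ℝ) else -1) = 1 := by
      cases sgn <;> norm_num
    linear_combination ((5 : ℝ) ^ (j + j))⁻¹ *
      ((q.re : ℝ) ^ 2 + (q.imI : ℝ) ^ 2 - (q.imJ : ℝ) ^ 2 - (q.imK : ℝ) ^ 2) * hss
  rw [h1]
  push_cast
  generalize (5 : ℝ) ^ (j + j) = T at *
  field_simp
  linarith

lemma hit_C_inner (R : ℍ[ℝ]ˣ →* Iso 3) (hR : IsRot R) (n : ℕ) (hn : 1 ≤ n) (w w₀ : List (Fin 6))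
    (y : ℤ × ℤ × ℤ) (x : S 3) (hx : imq (x : E 3) = (Real.sqrt n)⁻¹ • cz (pq y)) (sgn : Bool) :
    (2 - 2 * inner ℝ ((rot (R (uw w₀))⁻¹ x : S 3) : E 3)
      ((rot (R (uw w))⁻¹ (ehat sgn) : S 3) : E 3)) / 16 =
      (1 - (if sgn then (1 : ℝ) else -1) *
        (((qw w * star (qw w₀)) * pq y * star (qw w * star (qw w₀))).imI : ℝ) /
          (5 ^ (w₀.length + w.length) * Real.sqrt n)) / 8 := by
  rw [hit_inner_rot R hR w w₀ x sgn, hx]
  generalize qw w * star (qw w₀) = q at *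
  rw [mul_smul_comm, smul_mul_assoc, Quaternion.imI_smul, ← cz_star, ← cz_mul, ← cz_mul]
  have : (cz (q * pq y * star q)).imI = ((q * pq y * star q).imI : ℝ) := rfl
  rw [this, smul_eq_mul]
  have h0 : (0 : ℝ) < 5 ^ (w₀.length + w.length) := by positivity
  have h1 : 0 < Real.sqrt n := Real.sqrt_pos.2 (by exact_mod_cast hn)
  generalize (5 : ℝ) ^ (w₀.length + w.length) = T at *
  generalize Real.sqrt n = r at *
  generalize ((q * pq y * star q).imI : ℝ) = c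
  field_simp
  ring

lemma hit_wt0 (N : ℕ) (x : ℝ) : 0 ≤ wt N x := le_min (Nat.cast_nonneg _) (by positivity)

/-- the bound for the sums over the places -/
lemma hit_B {D : ℕ} [NeZero D] (hD : Odd D) {t : ZMod D} (ht : t * t = -1) (n N : ℕ) (m s : ℤ)
    (hn : 1 ≤ n) (hN : 1 ≤ N) (hs : s = 1 ∨ s = 2) (hmn : (D : ℤ) ∣ m ^ 2 + s ^ 2 * n)
    (Z : Finset (ℤ × ℤ × ℤ)) (u : ℤ × ℤ × ℤ → Vec D) (yh : ℤ × ℤ × ℤ → S 3)
    (hu1 : ∀ y ∈ Z, Uni (u y))
    (hu2 : ∀ y ∈ Z, ∀ z : Vec D, ∃ c : ZMod D, (Ph t (zq m s y)).mulVec z = c • u y)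
    (hu3 : ∀ y ∈ Z, (Ph t (star (zq m s y))).mulVec (u y) = 0)
    (hyh : ∀ y ∈ Z, ∀ y' ∈ Z, inner ℝ (yh y : E 3) (yh y' : E 3) = (dt y y' : ℝ) / n) :
    ip (fam Z u yh N) (fam Z u yh N) ≤ D.totient *
      ∑ y ∈ Z, ∑ y' ∈ Z, if (D : ℤ) ∣ n - dt y y' then
        wt N (((n - dt y y' : ℤ) : ℝ) / (8 * n)) else 0 := by
  classical
  rw [fam_ip Z u yh Z u yh N hN hu1 hu1]
  refine mul_le_mul_of_nonneg_left ?_ (Nat.cast_nonneg _)
  refine Finset.sum_le_sum fun y hy => Finset.sum_le_sum fun y' hy' => ?_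
  by_cases h : ∃ a : (ZMod D)ˣ, u y' = (a : ZMod D) • u y
  · rw [if_pos h]
    obtain ⟨a, ha⟩ := h
    rw [if_pos (hit_dvd hD ht n m s hs hmn y y' (u y) (u y') (hu3 y hy) (hu2 y' hy') a ha)]
    refine (k2_le N hN (yh y) (yh y')).2.trans (le_of_eq ?_)
    congr 1
    rw [hyh y hy y' hy']
    have hn0 : (0 : ℝ) < n := by exact_mod_cast hn
    push_cast
    field_simp
    ring
  · rw [if_neg h]
    split_ifs
    · exact hit_wt0 _ _
    · exact le_rfl

/-- the bound for the sums over the words -/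
lemma hit_A {D : ℕ} [NeZero D] (h5 : Nat.Coprime D 5) {t : ZMod D} (ht : t * t = -1) (N j : ℕ)
    (hN : 1 ≤ N) (sgn : Bool) (R : ℍ[ℝ]ˣ →* Iso 3) (hR : IsRot R) :
    ip (fam (RW j) (fun w => (Ph t (star (qw w))).mulVec (hit_e1 D))
        (fun w => rot (R (uw w))⁻¹ (ehat sgn)) N)
      (fam (RW j) (fun w => (Ph t (star (qw w))).mulVec (hit_e1 D))
        (fun w => rot (R (uw w))⁻¹ (ehat sgn)) N) ≤ D.totient *
      ∑ w ∈ RW j, ∑ w' ∈ RW j,
      if (-((qw w * star (qw w')).imJ : ZMod D) + (qw w * star (qw w')).imK * t = 0) then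
        wt N ((((qw w * star (qw w')).imJ ^ 2 + (qw w * star (qw w')).imK ^ 2 : ℤ) : ℝ) / (4 * 25 ^ j))
      else 0 := by
  classical
  have hu : ∀ w ∈ RW j, Uni ((Ph t (star (qw w))).mulVec (hit_e1 D)) := fun w _ =>
    hit_Uni_star h5 ht w _ (hit_e1_Uni D)
  rw [fam_ip _ _ _ _ _ _ N hN hu hu]
  refine mul_le_mul_of_nonneg_left ?_ (Nat.cast_nonneg _)
  refine Finset.sum_le_sum fun w hw => Finset.sum_le_sum fun w' hw' => ?_
  by_cases h : ∃ a : (ZMod D)ˣ, (Ph t (star (qw w'))).mulVec (hit_e1 D) =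
      (a : ZMod D) • (Ph t (star (qw w))).mulVec (hit_e1 D)
  · rw [if_pos h]
    obtain ⟨a, ha⟩ := h
    have h1 : (Ph t (qw w * star (qw w'))).mulVec (hit_e1 D) =
        ((a : ZMod D) * 5 ^ w.length) • hit_e1 D := by
      rw [hit_Ph_mul ht, ← Matrix.mulVec_mulVec, ha, Matrix.mulVec_smul, Matrix.mulVec_mulVec,
        hit_Ph_norm ht, Matrix.smul_mulVec, Matrix.one_mulVec, smul_smul]
    have h2 := congrFun h1 1
    rw [if_pos (by
      simp only [Matrix.mulVec, dotProduct, Fin.sum_univ_two, Pi.smul_apply] at h2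
      simpa [Ph, hit_e1] using h2)]
    refine (k2_le N hN _ _).2.trans (le_of_eq ?_)
    congr 1
    rw [real_inner_comm]
    exact hit_A_inner R hR j w w' (hit_len hw) (hit_len hw') sgn
  · rw [if_neg h]
    split_ifs
    · exact hit_wt0 _ _
    · exact le_rfl

/-- real arithmetic for the hypothesis of the mixing theorem -/
lemma hit_real (l₁ ph z c NUr D2 A B EA EB : ℝ) (i : ℕ) (hl : 0 ≤ l₁) (hph : 0 < ph) (hz : 0 < z)
    (hc : 0 < c) (hNU : 0 < NUr) (hD2 : NUr ≤ D2) (hEA : 0 ≤ EA) (hEB : 0 ≤ EB)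
    (hA : A ≤ ph * EA) (hB : B ≤ ph * EB)
    (h : 4 * D2 ^ 2 * (EA * EB) ≤ (12 / (6 + l₁)) ^ (2 * i) * ph ^ 2 * z ^ 2 * c ^ 2) :
    (6 + l₁) ^ i * (Real.sqrt B * Real.sqrt A) ≤
      1 / 2 * 12 ^ i * ((ph * z) * (ph * c) / NUr) := by
  have hD20 : 0 < D2 := hNU.trans_le hD2
  have hl6 : 0 < 6 + l₁ := by linarith
  have h1 : Real.sqrt B * Real.sqrt A ≤ ph * Real.sqrt (EA * EB) := by
    calc Real.sqrt B * Real.sqrt A ≤ Real.sqrt (ph * EB) * Real.sqrt (ph * EA) :=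
          mul_le_mul (Real.sqrt_le_sqrt hB) (Real.sqrt_le_sqrt hA) (Real.sqrt_nonneg _)
            (Real.sqrt_nonneg _)
      _ = ph * Real.sqrt (EA * EB) := by
          rw [← Real.sqrt_mul (by positivity)]
          have : ph * EB * (ph * EA) = ph ^ 2 * (EA * EB) := by ring
          rw [this, Real.sqrt_mul (by positivity), Real.sqrt_sq hph.le]
  have h2 : 2 * D2 * Real.sqrt (EA * EB) ≤ (12 / (6 + l₁)) ^ i * ph * z * c := by
    have hk : 0 ≤ (12 / (6 + l₁)) ^ i * ph * z * c := by positivity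
    have h3 : 2 * D2 * Real.sqrt (EA * EB) = Real.sqrt (4 * D2 ^ 2 * (EA * EB)) := by
      have : 4 * D2 ^ 2 * (EA * EB) = (2 * D2) ^ 2 * (EA * EB) := by ring
      rw [this, Real.sqrt_mul (sq_nonneg (2 * D2)), Real.sqrt_sq (by positivity)]
    rw [h3]
    refine Real.sqrt_le_iff.2 ⟨hk, h.trans (le_of_eq ?_)⟩
    rw [mul_pow, mul_pow, mul_pow, ← pow_mul, mul_comm i 2]
  have h4 : (6 + l₁) ^ i * (12 / (6 + l₁)) ^ i = 12 ^ i := by
    rw [← mul_pow, mul_div_cancel₀ _ hl6.ne']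
  have h5 : (6 + l₁) ^ i * (Real.sqrt B * Real.sqrt A) ≤
      1 / 2 * 12 ^ i * ((ph * z) * (ph * c) / D2) := by
    have h6 : (6 + l₁) ^ i * (Real.sqrt B * Real.sqrt A) ≤
        (6 + l₁) ^ i * (ph * Real.sqrt (EA * EB)) :=
      mul_le_mul_of_nonneg_left h1 (by positivity)
    refine h6.trans ?_
    have h7 : 1 / 2 * 12 ^ i * ((ph * z) * (ph * c) / D2) =
        (6 + l₁) ^ i * (ph * (((12 / (6 + l₁)) ^ i * ph * z * c) / (2 * D2))) := by
      rw [← h4]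
      generalize (12 / (6 + l₁)) ^ i = K
      generalize (6 + l₁) ^ i = M
      field_simp
    rw [h7]
    refine mul_le_mul_of_nonneg_left (mul_le_mul_of_nonneg_left ?_ hph.le) (by positivity)
    rw [le_div_iff₀ (by positivity)]
    linarith
  refine h5.trans ?_
  refine mul_le_mul_of_nonneg_left ?_ (by positivity)
  exact div_le_div_of_nonneg_left (by positivity) hNU hD2

/-- the averaging step -/
lemma hit_avg {X Y : Type} (F : Finset X) (G : Finset Y) (f : X → Y → ℝ) (c : ℝ)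
    (hF : F.Nonempty) (hG : G.Nonempty) (h : c * F.card * G.card ≤ ∑ x ∈ F, ∑ y ∈ G, f x y) :
    ∃ x ∈ F, ∃ y ∈ G, c ≤ f x y := by
  by_contra hc
  push Not at hc
  have h1 : ∑ x ∈ F, ∑ y ∈ G, f x y < ∑ x ∈ F, ∑ y ∈ G, c :=
    Finset.sum_lt_sum_of_nonempty hF fun x hx =>
      Finset.sum_lt_sum_of_nonempty hG fun y hy => hc x hx y hy
  simp only [Finset.sum_const, nsmul_eq_mul] at h1
  linarith

open Classical in
/-- TARGET -/
theorem hit : ∃ κ : ℝ, 1 < κ ∧ ∀ (D : ℕ) [NeZero D], Odd D → Nat.Coprime D 5 →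
    ∀ t : ZMod D, t * t = -1 → ∀ (n N j i : ℕ) (m s : ℤ) (Z : Finset (ℤ × ℤ × ℤ)) (sgn : Bool)
    (EA EB : ℝ), 1 ≤ n → 1 ≤ N → 1 ≤ j → (s = 1 ∨ s = 2) → IsCoprime m (D : ℤ) →
    (D : ℤ) ∣ m ^ 2 + s ^ 2 * n → Z ⊆ S3 n → Z.Nonempty →
    (∑ p ∈ (Z ×ˢ Z).filter (fun p => (D : ℤ) ∣ n - dt p.1 p.2),
      wt N (((n - dt p.1 p.2 : ℤ) : ℝ) / (8 * n))) ≤ EB →
    (∑ w ∈ RW j, ∑ w' ∈ RW j,
      if (-((qw w * star (qw w')).imJ : ZMod D) + (qw w * star (qw w')).imK * t = 0) then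
        wt N ((((qw w * star (qw w')).imJ ^ 2 + (qw w * star (qw w')).imK ^ 2 : ℤ) : ℝ) / (4 * 25 ^ j))
      else 0) ≤ EA →
    4 * (D : ℝ) ^ 4 * (EA * EB) ≤
      κ ^ (2 * i) * (D.totient : ℝ) ^ 2 * (Z.card : ℝ) ^ 2 * (6 * 5 ^ (j - 1)) ^ 2 →
    ∃ y ∈ Z, ∃ γ : List (Fin 6), γ.length ≤ i + j ∧
      Ph t (qw γ * zq m s y) 1 0 = 0 ∧ Ph t (qw γ * zq m s y) 1 1 = 0 ∧
      1 / (2 * (D : ℝ) ^ 2) ≤ wt N ((1 - (if sgn then (1 : ℝ) else -1) *
        ((qw γ * pq y * star (qw γ)).imI : ℝ) / (5 ^ γ.length * Real.sqrt n)) / 8) := by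
  classical
  obtain ⟨R, hR⟩ := exists_RQ
  obtain ⟨l₁, hl0, hl6, hmix⟩ := mixing R hR
  refine ⟨12 / (6 + l₁), by rw [one_lt_div (by linarith)]; linarith, ?_⟩
  intro D _ hD h5 t ht n N j i m s Z sgn EA EB hn hN hj hs hmc hmn hZS hZ hEB hEA hmain
  have hD0 : 0 < D := NeZero.pos D
  have hn0 : (0 : ℝ) < n := by exact_mod_cast hn
  have hsn : 0 < Real.sqrt n := Real.sqrt_pos.2 hn0
  -- the vectors
  have hu : ∀ y : ℤ × ℤ × ℤ, ∃ u : Vec D, y ∈ Z → (Uni u ∧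
      (∀ z : Vec D, ∃ c : ZMod D, (Ph t (zq m s y)).mulVec z = c • u) ∧
      (Ph t (star (zq m s y))).mulVec u = 0) := by
    intro y
    by_cases hy : y ∈ Z
    · have hS := mem_S3.1 (hZS hy)
      have hns : Quaternion.normSq (zq m s y) = m ^ 2 + s ^ 2 * n := by
        rw [Quaternion.normSq_def', ← hS]
        simp only [zq]
        ring
      obtain ⟨u, hu⟩ := uvec D hD t ht (zq m s y) (by rw [hns]; exact hmn) hmc
      exact ⟨u, fun _ => hu⟩
    · exact ⟨0, fun h => absurd h hy⟩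
  choose u hu using hu
  -- the points of the sphere
  have hyh : ∀ y : ℤ × ℤ × ℤ, ∃ x : S 3, y ∈ Z →
      imq (x : E 3) = (Real.sqrt n)⁻¹ • cz (pq y) := by
    intro y
    by_cases hy : y ∈ Z
    · have hS := mem_S3.1 (hZS hy)
      have hre : ((Real.sqrt n)⁻¹ • cz (pq y)).re = 0 := by
        rw [Quaternion.re_smul]
        simp [cz, pq]
      have hnorm : ‖toV ((Real.sqrt n)⁻¹ • cz (pq y))‖ = 1 := by
        have h1 := normSq_imq (toV ((Real.sqrt n)⁻¹ • cz (pq y)))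
        rw [imq_toV hre, Quaternion.normSq_smul, hit_nsqr] at h1
        have h2 : Quaternion.normSq (pq y) = n := by
          rw [Quaternion.normSq_def', ← hS]
          simp only [pq]
          ring
        rw [h2, inv_pow, Real.sq_sqrt hn0.le] at h1
        have h3 : (n : ℝ)⁻¹ * (((n : ℕ) : ℤ) : ℝ) = 1 := by
          push_cast
          exact inv_mul_cancel₀ hn0.ne'
        rw [h3] at h1
        have h4 := norm_nonneg (toV ((Real.sqrt n)⁻¹ • cz (pq y)))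
        nlinarith
      exact ⟨⟨toV ((Real.sqrt n)⁻¹ • cz (pq y)), mem_sphere_zero_iff_norm.2 hnorm⟩,
        fun _ => imq_toV hre⟩
    · exact ⟨ehat true, fun h => absurd h hy⟩
  choose yh hyh using hyh
  have hinn : ∀ y ∈ Z, ∀ y' ∈ Z, inner ℝ (yh y : E 3) (yh y' : E 3) = (dt y y' : ℝ) / n := by
    intro y hy y' hy'
    have h1 := hyh y hy
    have h2 := hyh y' hy'
    have a0 : (yh y : E 3) 0 = (Real.sqrt n)⁻¹ * y.1 := by
      have := congrArg QuaternionAlgebra.imI h1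
      rw [Quaternion.imI_smul] at this
      exact this
    have a1 : (yh y : E 3) 1 = (Real.sqrt n)⁻¹ * y.2.1 := by
      have := congrArg QuaternionAlgebra.imJ h1
      rw [Quaternion.imJ_smul] at this
      exact this
    have a2 : (yh y : E 3) 2 = (Real.sqrt n)⁻¹ * y.2.2 := by
      have := congrArg QuaternionAlgebra.imK h1
      rw [Quaternion.imK_smul] at this
      exact this
    have b0 : (yh y' : E 3) 0 = (Real.sqrt n)⁻¹ * y'.1 := by
      have := congrArg QuaternionAlgebra.imI h2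
      rw [Quaternion.imI_smul] at this
      exact this
    have b1 : (yh y' : E 3) 1 = (Real.sqrt n)⁻¹ * y'.2.1 := by
      have := congrArg QuaternionAlgebra.imJ h2
      rw [Quaternion.imJ_smul] at this
      exact this
    have b2 : (yh y' : E 3) 2 = (Real.sqrt n)⁻¹ * y'.2.2 := by
      have := congrArg QuaternionAlgebra.imK h2
      rw [Quaternion.imK_smul] at this
      exact this
    rw [PiLp.inner_apply, Fin.sum_univ_three, a0, a1, a2, b0, b1, b2]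
    have h3 : (Real.sqrt n)⁻¹ * (Real.sqrt n)⁻¹ = (n : ℝ)⁻¹ := by
      rw [← mul_inv, Real.mul_self_sqrt hn0.le]
    unfold dt
    push_cast
    simp only [RCLike.inner_apply, conj_trivial]
    rw [div_eq_inv_mul, ← h3]
    ring
  -- the two families
  obtain ⟨j', rfl⟩ : ∃ j', j = j' + 1 := ⟨j - 1, by omega⟩
  have hcard := hit_card j'
  have hRWne : (RW (j' + 1)).Nonempty := by
    rw [← Finset.card_pos, hcard]
    positivity
  have hphi : 0 < D.totient := Nat.totient_pos.2 hD0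
  have hphir : (0 : ℝ) < D.totient := by exact_mod_cast hphi
  have hNU := hit_NU D
  have hNUr : (0 : ℝ) < NU D := by exact_mod_cast hNU.1
  have hNU2 : (NU D : ℝ) ≤ (D : ℝ) ^ 2 := by exact_mod_cast hNU.2
  have hZr : (0 : ℝ) < Z.card := by exact_mod_cast hZ.card_pos
  have hUA : ∀ w ∈ RW (j' + 1), Uni ((Ph t (star (qw w))).mulVec (hit_e1 D)) := fun w _ =>
    hit_Uni_star h5 ht w _ (hit_e1_Uni D)
  have hUB : ∀ y ∈ Z, Uni (u y) := fun y hy => (hu y hy).1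
  have hIB := hit_B hD ht n N m s hn hN hs hmn Z u yh hUB (fun y hy => (hu y hy).2.1)
    (fun y hy => (hu y hy).2.2) hinn
  have hIA := hit_A h5 ht N (j' + 1) hN sgn R hR
  have hsB : ∑ y ∈ Z, ∑ y' ∈ Z, (if (D : ℤ) ∣ n - dt y y' then
        wt N (((n - dt y y' : ℤ) : ℝ) / (8 * n)) else 0) ≤ EB := by
    rw [Finset.sum_filter, Finset.sum_product] at hEB
    exact hEB
  have hEB0 : 0 ≤ EB := by
    refine le_trans (Finset.sum_nonneg fun y _ => Finset.sum_nonneg fun y' _ => ?_) hsB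
    split_ifs
    · exact hit_wt0 _ _
    · exact le_rfl
  have hEA0 : 0 ≤ EA := by
    refine le_trans (Finset.sum_nonneg fun y _ => Finset.sum_nonneg fun y' _ => ?_) hEA
    split_ifs
    · exact hit_wt0 _ _
    · exact le_rfl
  have hIB2 := hIB.trans (mul_le_mul_of_nonneg_left hsB hphir.le)
  have hIA2 := hIA.trans (mul_le_mul_of_nonneg_left hEA hphir.le)
  have htB := fam_tot Z u yh N hN hUB
  have htA := fam_tot (RW (j' + 1)) (fun w => (Ph t (star (qw w))).mulVec (hit_e1 D))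
    (fun w => rot (R (uw w))⁻¹ (ehat sgn)) N hN hUA
  have hcr : ((RW (j' + 1)).card : ℝ) = 6 * 5 ^ j' := by
    rw [hcard]
    push_cast
    rfl
  have hjj : j' + 1 - 1 = j' := rfl
  rw [hjj] at hmain
  have hyp := hit_real l₁ D.totient Z.card (6 * 5 ^ j') (NU D) ((D : ℝ) ^ 2) _ _ EA EB i hl0 hphir
    hZr (by positivity) hNUr hNU2 hEA0 hEB0 hIA2 hIB2 (by
      have e : 4 * ((D : ℝ) ^ 2) ^ 2 * (EA * EB) = 4 * (D : ℝ) ^ 4 * (EA * EB) := by ring
      rw [e]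
      exact hmain)
  rw [← hcr, ← htA, ← htB] at hyp
  obtain ⟨w₀, hw₀, hbig⟩ := hmix D hD h5 t ht _ _ (fam_adm Z u yh N hUB)
    (fam_adm (RW (j' + 1)) (fun w => (Ph t (star (qw w))).mulVec (hit_e1 D))
      (fun w => rot (R (uw w))⁻¹ (ehat sgn)) N hUA) i hyp
  have hUC : ∀ y ∈ Z, Uni ((Ph t (star (qw w₀))).mulVec (u y)) := fun y hy =>
    hit_Uni_star h5 ht w₀ _ (hUB y hy)
  rw [actw_fam h5 R t ht, fam_ip _ _ _ _ _ _ N hN hUC hUA, htA, htB] at hbig
  have hbig2 : (D.totient : ℝ) / (2 * NU D) * Z.card * (RW (j' + 1)).card ≤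
      ∑ z ∈ Z, ∑ z' ∈ RW (j' + 1), if (∃ a : (ZMod D)ˣ,
        (Ph t (star (qw z'))).mulVec (hit_e1 D) = (a : ZMod D) • (Ph t (star (qw w₀))).mulVec (u z))
        then k2 N (rot (R (uw w₀))⁻¹ (yh z)) (rot (R (uw z'))⁻¹ (ehat sgn)) else 0 := by
    have h1 : 1 / 2 * ((D.totient : ℝ) * Z.card * ((D.totient : ℝ) * (RW (j' + 1)).card) / NU D) =
        D.totient * ((D.totient : ℝ) / (2 * NU D) * Z.card * (RW (j' + 1)).card) := by
      field_simp
    rw [h1] at hbig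
    exact le_of_mul_le_mul_left hbig hphir
  obtain ⟨y, hy, w, hw, hyw⟩ := hit_avg Z (RW (j' + 1)) _ _ hZ hRWne hbig2
  have hpos : 0 < (D.totient : ℝ) / (2 * NU D) := by positivity
  have hbr : ∃ a : (ZMod D)ˣ, (Ph t (star (qw w))).mulVec (hit_e1 D) =
      (a : ZMod D) • (Ph t (star (qw w₀))).mulVec (u y) := by
    by_contra hc
    rw [if_neg hc] at hyw
    linarith
  rw [if_pos hbr] at hyw
  obtain ⟨a, ha⟩ := hbr
  have hγ : qw ((w₀.reverse.map (· + 3)) ++ w) = qw w * star (qw w₀) := by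
    rw [j9340_app, j9340_rev]
  have hlen : ((w₀.reverse.map (· + 3)) ++ w).length = w₀.length + w.length := by
    rw [List.length_append, List.length_map, List.length_reverse]
  -- the image of the product
  have him : ∀ z : Vec D, ((Ph t (qw w * star (qw w₀) * zq m s y)).mulVec z) 1 = 0 := by
    intro z
    obtain ⟨c, hc⟩ := (hu y hy).2.1 z
    have h1 : (a : ZMod D) • (Ph t (qw w * star (qw w₀))).mulVec (u y) =
        ((5 : ZMod D) ^ w.length) • hit_e1 D := by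
      rw [hit_Ph_mul ht, ← Matrix.mulVec_mulVec, ← Matrix.mulVec_smul, ← ha, Matrix.mulVec_mulVec,
        hit_Ph_norm ht, Matrix.smul_mulVec, Matrix.one_mulVec]
    have h2 : (Ph t (qw w * star (qw w₀))).mulVec (u y) =
        (((a⁻¹ : (ZMod D)ˣ) : ZMod D) * (5 : ZMod D) ^ w.length) • hit_e1 D := by
      rw [← smul_smul, ← h1, smul_smul, Units.inv_mul, one_smul]
    rw [hit_Ph_mul ht, ← Matrix.mulVec_mulVec, hc, Matrix.mulVec_smul, h2]
    simp [hit_e1]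
  refine ⟨y, hy, (w₀.reverse.map (· + 3)) ++ w, ?_, ?_, ?_, ?_⟩
  · rw [hlen, hit_len hw]
    omega
  · rw [hγ]
    have := him ![1, 0]
    simpa [Matrix.mulVec, dotProduct, Fin.sum_univ_two] using this
  · rw [hγ]
    have := him ![0, 1]
    simpa [Matrix.mulVec, dotProduct, Fin.sum_univ_two] using this
  · rw [hγ, hlen, ← hit_C_inner R hR n hn w w₀ y (yh y) (hyh y hy) sgn]
    refine le_trans ?_ (hyw.trans (k2_le N hN _ _).2)
    rw [div_le_div_iff₀ (by positivity) (by positivity)]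
    have h1 : (1 : ℝ) ≤ D.totient := by exact_mod_cast hphi
    nlinarith

end Pool.Agent.H978V
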