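import Pool.Agent.H978V.RDefs
import Pool.Agent.H978V.B4
import Pool.Agent.H978V.C5
import Pool.Agent.H978V.R1

/-!
JOB R3 (owner helper978, MP_06cce2_nt).  `H978V/*.lean` (library, with `RDefs`) is on origin/main.

Transitivity of the gates on the projective line over `Z/e`, for the general splitting `Pg r s`, `r² + s² = -1`.
The case `s = 0`, `r = t` (`Ph t`) is `transitive_uni` in `H978V/G8b.lean`: ADAPT THAT FILE (`Ph t` is used only through multiplicativity, `Ph t 1 = 1`, the nilpotency of the image of a pure quaternion of norm `0`, the anticommutator of two pure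
quaternions, and the fact that a pure quaternion is nonzero modulo `p`; for `Pg`: the pure quaternion `(y₁,y₂,y₃)` goes to `[[y₁ r - y₃ s, y₁ s + y₂ + y₃ r], [y₁ s - y₂ + y₃ r, -(y₁ r - y₃ s)]]`,
`Q² = -(y₁²+y₂²+y₃²)`, `Q(y) Q(z) + Q(z) Q(y) = -2 (y·z)`).  In the last part of the proof (entries modulo `p` of the two matrices) a different choice of basis vector may be needed: two transversal nilpotent matrices
`Q(y')`, `Q(y'')` with `Q' Q'' + Q'' Q'` a unit are enough for any splitting (if both have the same kernel modulo `p` then the anticommutator is `0` modulo `p`).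
The facts on `Pg` (multiplicativity etc.) are given below.
-/

set_option autoImplicit false

open scoped Quaternion

namespace Pool.Agent.H978V

open Pool.Agent.Helper557.Rz




/-- products of gates up to units -/
def trg_R {e : ℕ} (r s : ZMod e) (M : Matrix (Fin 2) (Fin 2) (ZMod e)) : Prop :=
  ∃ (w : List (Fin 6)) (a : (ZMod e)ˣ), Pg r s (qw w) = (a : ZMod e) • M

theorem trg_qw_append (w w' : List (Fin 6)) : qw (w ++ w') = qw w' * qw w := by
  induction w with
  | nil => simp [qw]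
  | cons a w ih => rw [List.cons_append, qw, qw, ih, mul_assoc]

theorem trg_Pg_one {e : ℕ} (r s : ZMod e) : Pg r s 1 = 1 := by
  ext i j
  fin_cases i <;> fin_cases j <;> simp [Pg]

theorem trg_R_one {e : ℕ} (r s : ZMod e) : trg_R r s 1 :=
  ⟨[], 1, by rw [qw, trg_Pg_one]; simp⟩

theorem trg_R_mul {e : ℕ} {r s : ZMod e} (ht : r * r + s * s = -1)
    {M M' : Matrix (Fin 2) (Fin 2) (ZMod e)} (h : trg_R r s M)
    (h' : trg_R r s M') : trg_R r s (M * M') := by
  obtain ⟨w, a, hw⟩ := h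
  obtain ⟨w', a', hw'⟩ := h'
  refine ⟨w' ++ w, a * a', ?_⟩
  rw [trg_qw_append, Pg_mul ht, hw, hw', Matrix.smul_mul,
    Matrix.mul_smul, smul_smul, Units.val_mul]

theorem trg_R_pow {e : ℕ} {r s : ZMod e} (ht : r * r + s * s = -1)
    {M : Matrix (Fin 2) (Fin 2) (ZMod e)} (h : trg_R r s M) (j : ℕ) :
    trg_R r s (M ^ j) := by
  induction j with
  | zero => rw [pow_zero]; exact trg_R_one r s
  | succ j ih => rw [pow_succ]; exact trg_R_mul ht ih h

/-- the nilpotent matrices -/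
def trg_Q {e : ℕ} (r s a b c : ZMod e) : Matrix (Fin 2) (Fin 2) (ZMod e) :=
  !![a * r - c * s, a * s + b + c * r; a * s - b + c * r, -(a * r - c * s)]

theorem trg_Q_sq {e : ℕ} {r s : ZMod e} (ht : r * r + s * s = -1) (a b c : ZMod e)
    (h : a ^ 2 + b ^ 2 + c ^ 2 = 0) : trg_Q r s a b c * trg_Q r s a b c = 0 := by
  ext i j
  fin_cases i <;> fin_cases j <;>
    simp [trg_Q, Matrix.mul_apply, Fin.sum_univ_two]
  · linear_combination (a ^ 2 + c ^ 2) * ht - h
  · ring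
  · ring
  · linear_combination (a ^ 2 + c ^ 2) * ht - h

theorem trg_Q_anti {e : ℕ} {r s : ZMod e} (ht : r * r + s * s = -1) (a b c w : ZMod e)
    (h : a ^ 2 + b ^ 2 + c ^ 2 = 0) :
    trg_Q r s a b c * trg_Q r s (a * (1 - 2 * w)) (-(b * (1 - 2 * w))) c +
      trg_Q r s (a * (1 - 2 * w)) (-(b * (1 - 2 * w))) c * trg_Q r s a b c =
    (4 * (w * a ^ 2 + (1 - w) * b ^ 2)) • (1 : Matrix (Fin 2) (Fin 2) (ZMod e)) := by
  ext i j
  fin_cases i <;> fin_cases j <;>
    simp [trg_Q, Matrix.mul_apply, Fin.sum_univ_two]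
  · linear_combination (2 * a ^ 2 * (1 - 2 * w) + 2 * c ^ 2) * ht - 2 * h
  · ring
  · ring
  · linear_combination (2 * a ^ 2 * (1 - 2 * w) + 2 * c ^ 2) * ht - 2 * h

theorem trg_unit {e : ℕ} [NeZero e] (x : ZMod e)
    (h : ∀ (p : ℕ) (_ : p.Prime) (hp : p ∣ e), ZMod.castHom hp (ZMod p) x ≠ 0) : IsUnit x := by
  have hx : ((x.val : ℕ) : ZMod e) = x := ZMod.natCast_zmod_val x
  rw [← hx, ZMod.isUnit_iff_coprime]
  by_contra hc
  obtain ⟨p, hp, h1, h2⟩ := Nat.Prime.not_coprime_iff_dvd.1 hc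
  apply h p hp h2
  rw [← hx, map_natCast, ZMod.natCast_eq_zero_iff]
  exact h1

theorem trg_idem {e : ℕ} [NeZero e] (x : ZMod e) :
    ∃ n : ℕ, 0 < n ∧ x ^ n * x ^ n = x ^ n := by
  obtain ⟨i, j, hij, h⟩ := Finite.exists_ne_map_eq_of_infinite (fun n : ℕ => x ^ n)
  wlog hlt : i < j generalizing i j
  · exact this j i hij.symm h.symm (by omega)
  obtain ⟨p, rfl⟩ := Nat.exists_eq_add_of_lt hlt
  have key : ∀ n, i ≤ n → x ^ (n + (p + 1)) = x ^ n := by
    intro n hn
    obtain ⟨d, rfl⟩ := Nat.exists_eq_add_of_le hn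
    have e1 : i + d + (p + 1) = (i + p + 1) + d := by ring
    rw [e1, pow_add, ← h, pow_add]
  have key2 : ∀ k n, i ≤ n → x ^ (n + k * (p + 1)) = x ^ n := by
    intro k
    induction k with
    | zero => intro n _; rw [Nat.zero_mul, Nat.add_zero]
    | succ k ih =>
      intro n hn
      have e : n + (k + 1) * (p + 1) = (n + k * (p + 1)) + (p + 1) := by ring
      rw [e, key _ (by omega), ih n hn]
  refine ⟨(i + 1) * (p + 1), by positivity, ?_⟩
  rw [← pow_add]
  exact key2 (i + 1) _ (by nlinarith)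

theorem trg_cast_idem {e : ℕ} (x : ZMod e) (n : ℕ) (hn : 0 < n)
    (h : x ^ n * x ^ n = x ^ n) (p : ℕ) (hp : p.Prime) (hpe : p ∣ e) :
    ZMod.castHom hpe (ZMod p) (x ^ n) = if ZMod.castHom hpe (ZMod p) x = 0 then 0 else 1 := by
  have : Fact p.Prime := ⟨hp⟩
  have h1 := congrArg (ZMod.castHom hpe (ZMod p)) h
  rw [map_mul, map_pow] at h1
  rw [map_pow]
  split_ifs with h2
  · rw [h2, zero_pow hn.ne']
  · have h3 : (ZMod.castHom hpe (ZMod p) x) ^ n ≠ 0 := pow_ne_zero _ h2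
    exact mul_left_cancel₀ h3 (by rw [h1, mul_one])

/-- stable range -/
theorem trg_stable {e : ℕ} [NeZero e] (a b : ZMod e) (h : IsCoprime a b) :
    ∃ c, IsUnit (b + c * a) := by
  obtain ⟨n, hn, hid⟩ := trg_idem b
  refine ⟨1 - b ^ n, trg_unit _ fun p hp hpe => ?_⟩
  have : Fact p.Prime := ⟨hp⟩
  have h1 := trg_cast_idem b n hn hid p hp hpe
  rw [map_add, map_mul, map_sub, map_one, h1]
  obtain ⟨u, v, huv⟩ := h
  have h2 := congrArg (ZMod.castHom hpe (ZMod p)) huv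
  rw [map_add, map_mul, map_mul, map_one] at h2
  split_ifs with h3
  · rw [h3] at h2 ⊢
    intro h4
    rw [sub_zero, one_mul, zero_add] at h4
    rw [h4] at h2
    simp at h2
  · rw [sub_self, zero_mul, add_zero]
    exact h3

/-- the algebraic core -/
theorem trg_core {e : ℕ} [NeZero e] (r s : ZMod e) (ht : r * r + s * s = -1)
    (P N : Matrix (Fin 2) (Fin 2) (ZMod e)) (κ : ZMod e) (hκ : IsUnit κ)
    (hP : P * P = 0) (hN : N * N = 0) (hPN : P * N + N * P = κ • 1)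
    (htr : P 1 1 = - P 0 0) (hent : ∀ (p : ℕ) (_ : p.Prime) (hp : p ∣ e),
      ZMod.castHom hp (ZMod p) (P 1 0) ≠ 0 ∨ ZMod.castHom hp (ZMod p) (P 0 1) ≠ 0)
    (hRP : ∀ c : ZMod e, trg_R r s (1 + c • P))
    (hRN : ∀ c : ZMod e, trg_R r s (1 + c • N))
    (u v : Vec e) (hu : Uni u) (hv : Uni v) :
    ∃ (w : List (Fin 6)) (a : (ZMod e)ˣ), (Pg r s (qw w)).mulVec u = (a : ZMod e) • v := by
  obtain ⟨κ', hκ'⟩ := hκ.exists_left_inv
  -- the vector `g`
  obtain ⟨n, hn, hid⟩ := trg_idem (P 1 0)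
  set g : Vec e := ![P 1 0 ^ n, 1 - P 1 0 ^ n] with hg
  have hq : IsUnit (g 0 * (P.mulVec g) 1 - g 1 * (P.mulVec g) 0) := by
    refine trg_unit _ fun p hp hpe => ?_
    have : Fact p.Prime := ⟨hp⟩
    have h1 := trg_cast_idem (P 1 0) n hn hid p hp hpe
    have e0 : (P.mulVec g) 0 = P 0 0 * g 0 + P 0 1 * g 1 := by
      simp [Matrix.mulVec, dotProduct, Fin.sum_univ_two]
    have e1 : (P.mulVec g) 1 = P 1 0 * g 0 + P 1 1 * g 1 := by
      simp [Matrix.mulVec, dotProduct, Fin.sum_univ_two]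
    have g0 : g 0 = P 1 0 ^ n := rfl
    have g1 : g 1 = 1 - P 1 0 ^ n := rfl
    rw [e0, e1, g0, g1]
    simp only [map_sub, map_mul, map_add, map_one, h1]
    rcases hent p hp hpe with h2 | h2
    · rw [if_neg h2]
      simpa using h2
    · split_ifs with h3
      · simpa using h2
      · simpa using h3
  set f : Vec e := P.mulVec g with hf
  set f' : Vec e := κ' • N.mulVec f with hf'
  have hPf : P.mulVec f = 0 := by
    rw [hf, Matrix.mulVec_mulVec, hP, Matrix.zero_mulVec]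
  have hNf' : N.mulVec f' = 0 := by
    rw [hf', Matrix.mulVec_smul, Matrix.mulVec_mulVec, hN, Matrix.zero_mulVec, smul_zero]
  have hNf : N.mulVec f = κ • f' := by
    rw [hf', smul_smul, mul_comm κ κ', hκ', one_smul]
  have hPf' : P.mulVec f' = f := by
    have h1 : (P * N + N * P).mulVec f = κ • f := by
      rw [hPN, Matrix.smul_mulVec, Matrix.one_mulVec]
    rw [Matrix.add_mulVec, ← Matrix.mulVec_mulVec, ← Matrix.mulVec_mulVec, hPf,
      Matrix.mulVec_zero, add_zero] at h1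
    rw [hf', Matrix.mulVec_smul, h1, smul_smul, hκ', one_smul]
  have hdet : f 0 * f' 1 - f 1 * f' 0 = -(g 0 * f 1 - g 1 * f 0) := by
    have e0 : f 0 = P 0 0 * g 0 + P 0 1 * g 1 := by
      simp [hf, Matrix.mulVec, dotProduct, Fin.sum_univ_two]
    have e1 : f 1 = P 1 0 * g 0 + P 1 1 * g 1 := by
      simp [hf, Matrix.mulVec, dotProduct, Fin.sum_univ_two]
    have e2 : f 0 = P 0 0 * f' 0 + P 0 1 * f' 1 := by
      conv_lhs => rw [← hPf']
      simp [Matrix.mulVec, dotProduct, Fin.sum_univ_two]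
    have e3 : f 1 = P 1 0 * f' 0 + P 1 1 * f' 1 := by
      conv_lhs => rw [← hPf']
      simp [Matrix.mulVec, dotProduct, Fin.sum_univ_two]
    linear_combination f' 1 * e0 - f' 0 * e1 + g 0 * e3 - g 1 * e2 + (f' 1 * g 0 - f' 0 * g 1) * htr
  have hΔ : IsUnit (f 0 * f' 1 - f 1 * f' 0) := by rw [hdet]; exact hq.neg
  obtain ⟨Δ', hΔ'⟩ := hΔ.exists_left_inv
  clear_value f' f
  -- the normal form
  have hnf : ∀ w : Vec e, Uni w → ∃ (c d : ZMod e) (β1 : (ZMod e)ˣ),
      (1 + d • P).mulVec ((1 + c • N).mulVec w) = (β1 : ZMod e) • f' := by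
    intro w hw
    set α := Δ' * (w 0 * f' 1 - w 1 * f' 0) with hα
    set β := Δ' * (f 0 * w 1 - f 1 * w 0) with hβ
    have hw2 : w = α • f + β • f' := by
      ext i
      fin_cases i
      · simp only [Pi.add_apply, Pi.smul_apply, smul_eq_mul, hα, hβ]
        change w 0 = _ * f 0 + _ * f' 0
        linear_combination (-w 0) * hΔ'
      · simp only [Pi.add_apply, Pi.smul_apply, smul_eq_mul, hα, hβ]
        change w 1 = _ * f 1 + _ * f' 1
        linear_combination (-w 1) * hΔ'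
    have hcop : IsCoprime α β := by
      obtain ⟨a, b, hab⟩ := hw
      have h0 : w 0 = α * f 0 + β * f' 0 := by conv_lhs => rw [hw2]; simp
      have h1 : w 1 = α * f 1 + β * f' 1 := by conv_lhs => rw [hw2]; simp
      exact ⟨a * f 0 + b * f 1, a * f' 0 + b * f' 1, by
        linear_combination hab - a * h0 - b * h1⟩
    obtain ⟨c0, hc0⟩ := trg_stable α β hcop
    obtain ⟨β1, hβ1⟩ := hc0
    refine ⟨c0 * κ', -(α * ((β1⁻¹ : (ZMod e)ˣ) : ZMod e)), β1, ?_⟩
    have hNw : N.mulVec w = (α * κ) • f' := by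
      rw [hw2, Matrix.mulVec_add, Matrix.mulVec_smul, Matrix.mulVec_smul, hNf, hNf', smul_zero,
        add_zero, smul_smul]
    have h1 : (1 + (c0 * κ') • N).mulVec w = α • f + (β1 : ZMod e) • f' := by
      rw [Matrix.add_mulVec, Matrix.one_mulVec, Matrix.smul_mulVec, hNw, hβ1]
      conv_lhs => rw [hw2]
      rw [add_assoc, smul_smul, ← add_smul]
      congr 2
      linear_combination (c0 * α) * hκ'
    rw [h1, Matrix.add_mulVec, Matrix.one_mulVec, Matrix.smul_mulVec, Matrix.mulVec_add,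
      Matrix.mulVec_smul, Matrix.mulVec_smul, hPf, hPf', smul_zero, zero_add, smul_smul,
      neg_mul, mul_assoc, Units.inv_mul, mul_one, neg_smul]
    abel
  obtain ⟨c1, d1, β1, h1⟩ := hnf u hu
  obtain ⟨c2, d2, β2, h2⟩ := hnf v hv
  have hinv : ∀ (Q : Matrix (Fin 2) (Fin 2) (ZMod e)) (c : ZMod e), Q * Q = 0 →
      (1 + (-c) • Q) * (1 + c • Q) = 1 := by
    intro Q c hQ
    rw [add_mul, one_mul, mul_add, mul_one, Matrix.smul_mul, Matrix.mul_smul, hQ]
    simp
  have h3 : v = (1 + (-c2) • N).mulVec ((1 + (-d2) • P).mulVec ((β2 : ZMod e) • f')) := by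
    have h4 : (1 + (-d2) • P).mulVec ((β2 : ZMod e) • f') = (1 + c2 • N).mulVec v := by
      rw [← h2, Matrix.mulVec_mulVec, hinv P d2 hP, Matrix.one_mulVec]
    rw [h4, Matrix.mulVec_mulVec, hinv N c2 hN, Matrix.one_mulVec]
  have hM := trg_R_mul ht (trg_R_mul ht (hRN (-c2)) (hRP (-d2)))
    (trg_R_mul ht (hRP d1) (hRN c1))
  obtain ⟨w, a, hw⟩ := hM
  refine ⟨w, a * β1 * β2⁻¹, ?_⟩
  rw [hw, Matrix.smul_mulVec, ← Matrix.mulVec_mulVec, ← Matrix.mulVec_mulVec,
    ← Matrix.mulVec_mulVec, h1, h3]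
  simp only [Matrix.mulVec_smul, smul_smul]
  congr 1
  push_cast
  rw [mul_assoc ((a : ZMod e) * β1), Units.inv_mul, mul_one]

theorem trg_pow {e : ℕ} (Q : Matrix (Fin 2) (Fin 2) (ZMod e)) (hQ : Q * Q = 0)
    (c : ZMod e) (j : ℕ) : (1 + c • Q) ^ j = 1 + ((j : ZMod e) * c) • Q := by
  induction j with
  | zero => simp
  | succ j ih =>
    rw [pow_succ, ih, add_mul, one_mul, mul_add, mul_one, Matrix.smul_mul, Matrix.mul_smul, hQ]
    simp only [smul_zero, add_zero]
    push_cast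
    rw [add_mul, one_mul, add_smul]
    abel

theorem trg_five (k : ℕ) : (5 : ℤ) ^ k % 4 = 1 := by
  induction k with
  | zero => rfl
  | succ k ih => rw [pow_succ]; omega

theorem trg_reach {e : ℕ} [NeZero e] (he : Odd e) (h5 : Nat.Coprime e 5) {r s : ZMod e}
    (ht : r * r + s * s = -1) (k : ℕ) (y1 y2 y3 : ℤ)
    (hy : y1 ^ 2 + y2 ^ 2 + y3 ^ 2 = 2 * e * (5 ^ k - 2 * e)) (c : ZMod e) :
    trg_R r s (1 + c • trg_Q r s y1 y2 y3) := by
  have hQ : trg_Q r s (y1 : ZMod e) y2 y3 * trg_Q r s y1 y2 y3 = 0 := by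
    refine trg_Q_sq ht _ _ _ ?_
    have := congrArg (Int.cast : ℤ → ZMod e) hy
    push_cast at this
    rw [this]
    simp
  -- the quaternion
  obtain ⟨X, r0, r1, r2, r3⟩ : ∃ X : ℍ[ℤ], X.re = 5 ^ k - 4 * e ∧ X.imI = 2 * y1 ∧
      X.imJ = 2 * y2 ∧ X.imK = 2 * y3 := ⟨⟨_, _, _, _⟩, rfl, rfl, rfl, rfl⟩
  have hx : Gd X := by
    refine ⟨?_, ?_, ?_, ?_⟩
    · rw [r0]
      have h1 := trg_five k
      omega
    · rw [r1]
      omega
    · rw [r2]
      omega
    · rw [r3]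
      omega
  have hn : Quaternion.normSq X = 5 ^ (2 * k) := by
    rw [Quaternion.normSq_def', r0, r1, r2, r3, pow_mul']
    linear_combination 4 * hy
  obtain ⟨w, -, hw⟩ := words_of_good (2 * k) _ hx hn
  have h5u : IsUnit ((5 : ZMod e) ^ k) := by
    have : IsUnit (5 : ZMod e) := by
      have := (ZMod.isUnit_iff_coprime 5 e).2 h5.symm
      exact_mod_cast this
    exact this.pow k
  have h2u : IsUnit (2 : ZMod e) := by
    have := (ZMod.isUnit_iff_coprime 2 e).2 (Nat.coprime_two_left.2 he)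
    exact_mod_cast this
  obtain ⟨a, ha⟩ := h5u
  obtain ⟨b, hb⟩ := h2u
  have hbase : trg_R r s (1 + ((2 : ZMod e) * ((a⁻¹ : (ZMod e)ˣ) : ZMod e)) •
      trg_Q r s (y1 : ZMod e) y2 y3) := by
    refine ⟨w, a, ?_⟩
    have haa : (a : ZMod e) * ((a⁻¹ : (ZMod e)ˣ) : ZMod e) = 1 := Units.mul_inv a
    rw [hw]
    ext i j
    fin_cases i <;> fin_cases j <;> simp [Pg, trg_Q, ← ha, r0, r1, r2, r3]
    · linear_combination (-(2 * ((y1 : ZMod e) * r - y3 * s))) * haa
    · linear_combination (-(2 * ((y1 : ZMod e) * s + y2 + y3 * r))) * haa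
    · linear_combination (-(2 * ((y1 : ZMod e) * s - y2 + y3 * r))) * haa
    · linear_combination ((2 * ((y1 : ZMod e) * r - y3 * s))) * haa
  have h1 := trg_R_pow ht hbase (c * a * ((b⁻¹ : (ZMod e)ˣ) : ZMod e)).val
  rw [trg_pow _ hQ, ZMod.natCast_zmod_val] at h1
  have h2 : c * a * ((b⁻¹ : (ZMod e)ˣ) : ZMod e) * (2 * ((a⁻¹ : (ZMod e)ˣ) : ZMod e)) = c := by
    have e1 : ((b⁻¹ : (ZMod e)ˣ) : ZMod e) * b = 1 := Units.inv_mul b
    have e2 : (a : ZMod e) * ((a⁻¹ : (ZMod e)ˣ) : ZMod e) = 1 := Units.mul_inv a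
    rw [← hb]
    linear_combination (c * (((b⁻¹ : (ZMod e)ˣ) : ZMod e) * b)) * e2 + c * e1
  rwa [h2] at h1

theorem trg_main (e : ℕ) [NeZero e] (he : Odd e) (h5 : Nat.Coprime e 5) (r s : ZMod e)
    (ht : r * r + s * s = -1) (u v : Vec e) (hu : Uni u) (hv : Uni v) :
    ∃ (w : List (Fin 6)) (a : (ZMod e)ˣ), (Pg r s (qw w)).mulVec u = (a : ZMod e) • v := by
  obtain ⟨k, hk⟩ : ∃ k : ℕ, 2 * e < 5 ^ k := ⟨2 * e, Nat.lt_pow_self (by norm_num)⟩
  have hodd5 : Odd (5 ^ k) := Odd.pow (by decide)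
  obtain ⟨x, y, z, hxyz, hgcd⟩ := prim3 (2 * e * (5 ^ k - 2 * e)) (by
    right
    have h1 : Odd (e * (5 ^ k - 2 * e)) := he.mul (Nat.Odd.sub_even hk.le hodd5 (by simp))
    obtain ⟨m, hm⟩ := h1
    have h2 : 2 * e * (5 ^ k - 2 * e) = 2 * (e * (5 ^ k - 2 * e)) := by ring
    rw [h2, hm]
    omega)
  have hxyz' : x ^ 2 + y ^ 2 + z ^ 2 = 2 * (e : ℤ) * (5 ^ k - 2 * e) := by
    rw [hxyz]
    push_cast [Nat.cast_sub hk.le]
    ring
  have hsum : (x : ZMod e) ^ 2 + (y : ZMod e) ^ 2 + (z : ZMod e) ^ 2 = 0 := by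
    have := congrArg (Int.cast : ℤ → ZMod e) hxyz'
    push_cast at this
    rw [this]
    simp
  have hodd : ∀ (p : ℕ) (_ : p.Prime) (hp : p ∣ e), (2 : ZMod p) ≠ 0 := by
    intro p hp hpe h2
    have h3 : p ∣ 2 := (ZMod.natCast_eq_zero_iff 2 p).1 (by exact_mod_cast h2)
    have h4 : p = 2 := (Nat.prime_dvd_prime_iff_eq hp Nat.prime_two).1 h3
    subst h4
    exact (Nat.not_even_iff_odd.2 he) (even_iff_two_dvd.2 hpe)
  -- not all coordinates vanish modulo `p`
  have hprim : ∀ (p : ℕ) (_ : p.Prime) (hp : p ∣ e), ¬ ((x : ZMod p) = 0 ∧ (y : ZMod p) = 0 ∧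
      (z : ZMod p) = 0) := by
    rintro p hp hpe ⟨h1, h2, h3⟩
    rw [ZMod.intCast_zmod_eq_zero_iff_dvd] at h1 h2 h3
    have h4 : (p : ℤ) ∣ ((Int.gcd x y : ℕ) : ℤ) := Int.dvd_coe_gcd h1 h2
    have h5 : (p : ℤ) ∣ ((Int.gcd (Int.gcd x y) z : ℕ) : ℤ) := Int.dvd_coe_gcd h4 h3
    rw [hgcd] at h5
    have h6 : p ∣ 1 := by exact_mod_cast h5
    exact hp.one_lt.ne' (Nat.dvd_one.1 h6)
  have hsump : ∀ (p : ℕ) (_ : p.Prime) (hp : p ∣ e), (x : ZMod p) ^ 2 + (y : ZMod p) ^ 2 +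
      (z : ZMod p) ^ 2 = 0 := by
    intro p hp hpe
    have := congrArg (ZMod.castHom hpe (ZMod p)) hsum
    simpa only [map_add, map_pow, map_intCast, map_zero] using this
  obtain ⟨m, hm, hid⟩ := trg_idem (x : ZMod e)
  set ww : ZMod e := (x : ZMod e) ^ m with hww
  have hκ : IsUnit (4 * (ww * (x : ZMod e) ^ 2 + (1 - ww) * (y : ZMod e) ^ 2)) := by
    refine trg_unit _ fun p hp hpe => ?_
    have : Fact p.Prime := ⟨hp⟩
    have h1 := trg_cast_idem (x : ZMod e) m hm hid p hp hpe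
    have h2 := hodd p hp hpe
    have h4 : (4 : ZMod p) ≠ 0 := by
      have : (4 : ZMod p) = 2 * 2 := by norm_num
      rw [this]
      exact mul_ne_zero h2 h2
    rw [map_mul, map_add, map_mul, map_mul, map_sub, map_one, h1]
    simp only [map_intCast, map_pow, map_ofNat]
    split_ifs with h5
    · rw [zero_mul, zero_add, sub_zero, one_mul]
      refine mul_ne_zero h4 (pow_ne_zero _ fun h6 => hprim p hp hpe ⟨h5, h6, ?_⟩)
      have h7 := hsump p hp hpe
      rw [h5, h6] at h7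
      simpa using h7
    · rw [one_mul, sub_self, zero_mul, add_zero]
      exact mul_ne_zero h4 (pow_ne_zero _ h5)
  have hw2 : (1 - 2 * ww) ^ 2 = 1 := by
    linear_combination 4 * hid
  refine trg_core r s ht (trg_Q r s x y z)
    (trg_Q r s (x * (1 - 2 * ww)) (-(y * (1 - 2 * ww))) z) _ hκ
    (trg_Q_sq ht _ _ _ hsum) (trg_Q_sq ht _ _ _ ?_)
    (trg_Q_anti ht _ _ _ ww hsum) ?_ ?_
    (trg_reach he h5 ht k x y z hxyz') ?_ u v hu hv
  · linear_combination hsum + ((x : ZMod e) ^ 2 + (y : ZMod e) ^ 2) * hw2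
  · simp [trg_Q]
  · intro p hp hpe
    have : Fact p.Prime := ⟨hp⟩
    by_contra hc
    push Not at hc
    obtain ⟨h1, h2⟩ := hc
    have h3 := hodd p hp hpe
    simp only [trg_Q, Matrix.of_apply, Matrix.cons_val', Matrix.cons_val_zero,
      Matrix.cons_val_one, Matrix.cons_val_fin_one, map_add, map_sub, map_neg, map_mul, map_intCast] at h1 h2
    set ρ := ZMod.castHom hpe (ZMod p) r with hρ
    set σ := ZMod.castHom hpe (ZMod p) s with hσ
    have hτ2 : ρ * ρ + σ * σ = -1 := by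
      rw [hρ, hσ, ← map_mul, ← map_mul, ← map_add, ht, map_neg, map_one]
    have h7 := hsump p hp hpe
    have hy0 : (y : ZMod p) = 0 := by
      have : (2 : ZMod p) * y = 0 := by linear_combination h2 - h1
      exact (mul_eq_zero.1 this).resolve_left h3
    have hxz : (x : ZMod p) * σ + z * ρ = 0 := by
      have : (2 : ZMod p) * ((x : ZMod p) * σ + z * ρ) = 0 := by linear_combination h2 + h1
      exact (mul_eq_zero.1 this).resolve_left h3
    rw [hy0] at h7
    have hxz2 : (x : ZMod p) * ρ - z * σ = 0 := by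
      have : ((x : ZMod p) * ρ - z * σ) ^ 2 = 0 := by
        linear_combination ((x : ZMod p) ^ 2 + z ^ 2) * hτ2 - h7 - ((x : ZMod p) * σ + z * ρ) * hxz
      exact pow_eq_zero_iff (two_ne_zero) |>.1 this
    have hx0 : (x : ZMod p) = 0 := by
      linear_combination (x : ZMod p) * hτ2 - ρ * hxz2 - σ * hxz
    have hz0 : (z : ZMod p) = 0 := by
      linear_combination (z : ZMod p) * hτ2 + σ * hxz2 - ρ * hxz
    exact hprim p hp hpe ⟨hx0, hy0, hz0⟩
  · intro c
    have hA := trg_reach he h5 ht k (-x) y z (by rw [← hxyz']; ring) (c * ww)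
    have hB := trg_reach he h5 ht k x (-y) z (by rw [← hxyz']; ring) (c * (1 - ww))
    have hAB := trg_R_mul ht hA hB
    have hid' : ww * ww = ww := hid
    have : (1 + (c * ww) • trg_Q r s ((-x : ℤ) : ZMod e) y z) *
        (1 + (c * (1 - ww)) • trg_Q r s (x : ZMod e) ((-y : ℤ) : ZMod e) z) =
        1 + c • trg_Q r s (x * (1 - 2 * ww)) (-(y * (1 - 2 * ww))) z := by
      have h1 : (c * ww) • trg_Q r s ((-x : ℤ) : ZMod e) y z *
          ((c * (1 - ww)) • trg_Q r s (x : ZMod e) ((-y : ℤ) : ZMod e) z) = 0 := by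
        rw [Matrix.smul_mul, Matrix.mul_smul, smul_smul]
        have : c * ww * (c * (1 - ww)) = 0 := by linear_combination (-c ^ 2) * hid'
        rw [this, zero_smul]
      rw [add_mul, one_mul, mul_add, mul_one, h1, add_zero, add_assoc]
      congr 1
      ext i j
      fin_cases i <;> fin_cases j <;> simp [trg_Q] <;> ring
    rwa [this] at hAB

/-- TARGET -/
theorem transitive_g (e : ℕ) [NeZero e] (he : Odd e) (h5 : Nat.Coprime e 5) (r s : ZMod e)
    (h : r * r + s * s = -1) (u v : Vec e) (hu : Uni u) (hv : Uni v) :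
    ∃ (w : List (Fin 6)) (a : (ZMod e)ˣ), (Pg r s (qw w)).mulVec u = (a : ZMod e) • v :=
  trg_main e he h5 r s h u v hu hv

end Pool.Agent.H978V
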