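import Pool.Agent.H978V.RDefs
import Pool.Agent.H978V.R1
import Pool.Agent.H978V.R3

/-!
JOB R4 (owner helper978, MP_06cce2_nt).  `H978V/*.lean` (library, with `RDefs`) is on origin/main.

Reaching the annihilator of `v` by a word of bounded length.

PROOF of TARGET 1.  `M = Pg r s x = [[p, q], [p', q']]`, `det M = normSq x = 0` in `ZMod D`.  For every prime `l ∣ D` the matrix `M` is nonzero modulo `l` (`Pg_zero` for the modulus `l`, reduction of `r, s`; `x` is primitive modulo `l`).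
There is `z : Vec D` with `M z` nonzero modulo every prime `l ∣ D`: let `z₀` be (mod `D`) divisible exactly by the primes `l ∣ D` for which the first column of `M` is `0` mod `l`, and `z₁` divisible exactly by the other primes dividing `D`:
then `M (z₀, z₁) ≡ z₀ · first column ≠ 0`, resp. `≡ z₁ · second column ≠ 0` modulo `l`.  A pair in `ZMod D` is unimodular iff it is nonzero modulo every prime divisor of `D` (see `uvec` in `H978V/H1.lean`, `transitive_uni_unit` etc. in G8b).  `u = M z`.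
For any `z'`: `w = M z'` has `det (u, w) = det M det (z, z') = 0`, and if `α u₀ + β u₁ = 1` then `w = (α w₀ + β w₁) u`.
PROOF of TARGET 2.  Apply TARGET 1 to `star v`: `k = Pg (star v) z` unimodular with `Pg v k = Pg (v * star v) z = normSq v z = 0`.  (`star v` is primitive modulo the same primes.)
For each unimodular `u` choose by `transitive_g` a word `w_u` with `Pg (qw w_u) u = a k`, `a` a unit; `L` = maximum of the lengths over the finitely many `u : Vec D`.  Given `z`, TARGET 1 gives `u` unimodular with `Pg z z' ∈ (ZMod D) u` for all `z'`.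
`Pg (v * (qw w * z)) z' = Pg v (Pg (qw w) (c u)) = c a Pg v k = 0` for all `z'`, so `Pg (v * (qw w * z)) = 0`, and `Pg_zero`.
-/

set_option autoImplicit false

open scoped Quaternion

namespace Pool.Agent.H978V

open Pool.Agent.Helper557.Rz







/-- unimodularity from prime divisors -/
lemma r4_uni_of {D : ℕ} (x y : ℤ) (h : ∀ l : ℕ, l.Prime → (l : ℤ) ∣ (D : ℤ) → (l : ℤ) ∣ x →
    (l : ℤ) ∣ y → False) : IsCoprime (x : ZMod D) (y : ZMod D) := by
  have hg : Int.gcd (Int.gcd x y) D = 1 := by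
    by_contra hne
    obtain ⟨l, hl, hd⟩ := Nat.exists_prime_and_dvd hne
    have hd1 : (l : ℤ) ∣ (Int.gcd x y : ℤ) :=
      (Int.natCast_dvd_natCast.2 hd).trans (Int.gcd_dvd_left _ _)
    have hd2 : (l : ℤ) ∣ (D : ℤ) := (Int.natCast_dvd_natCast.2 hd).trans (Int.gcd_dvd_right _ _)
    exact h l hl hd2 (hd1.trans (Int.gcd_dvd_left _ _)) (hd1.trans (Int.gcd_dvd_right _ _))
  have h1 := Int.gcd_eq_gcd_ab (Int.gcd x y : ℤ) (D : ℤ)
  rw [hg] at h1
  have h2 := Int.gcd_eq_gcd_ab x y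
  set A := Int.gcdA (Int.gcd x y : ℤ) (D : ℤ)
  set B := Int.gcdB (Int.gcd x y : ℤ) (D : ℤ)
  refine ⟨(Int.gcdA x y * A : ℤ), (Int.gcdB x y * A : ℤ), ?_⟩
  have h3 : (1 : ℤ) = (x * Int.gcdA x y + y * Int.gcdB x y) * A + D * B := by
    rw [← h2]; push_cast at h1; linarith
  have h4 := congrArg (Int.cast : ℤ → ZMod D) h3
  push_cast at h4
  rw [ZMod.natCast_self] at h4
  push_cast
  linear_combination -h4

/-- TARGET 1 -/
theorem line_g (D : ℕ) [NeZero D] (hD : Odd D) (r s : ZMod D) (h : r * r + s * s = -1) (x : ℍ[ℤ])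
    (hx : PrimMod D x) (hN : (D : ℤ) ∣ Quaternion.normSq x) :
    ∃ u : Vec D, Uni u ∧ (∃ z, u = (Pg r s x).mulVec z) ∧
      ∀ z : Vec D, ∃ c : ZMod D, (Pg r s x).mulVec z = c • u := by
  classical
  obtain ⟨T, hT⟩ : ∃ T : ℤ, (T : ZMod D) = r := ⟨(r.val : ℤ), by simp⟩
  obtain ⟨U, hU⟩ : ∃ U : ℤ, (U : ZMod D) = s := ⟨(s.val : ℤ), by simp⟩
  have hTU : (D : ℤ) ∣ T * T + U * U + 1 := by
    rw [← ZMod.intCast_zmod_eq_zero_iff_dvd]
    push_cast
    rw [hT, hU, h]; ring
  set P : ℤ := x.re + x.imI * T - x.imK * U with hP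
  set Q : ℤ := x.imI * U + x.imJ + x.imK * T with hQ
  set R : ℤ := x.imI * U - x.imJ + x.imK * T with hR
  set S : ℤ := x.re - x.imI * T + x.imK * U with hS
  have hB : Pg r s x = !![(P : ZMod D), Q; R, S] := by
    simp only [Pg, hP, hQ, hR, hS]
    push_cast
    rw [hT, hU]
  have hnz : ∀ l : ℕ, l.Prime → l ∣ D → ¬ ((l : ℤ) ∣ P ∧ (l : ℤ) ∣ Q ∧ (l : ℤ) ∣ R ∧ (l : ℤ) ∣ S) := by
    rintro l hl hlD ⟨h1, h2, h3, h4⟩
    apply hx l hl hlD
    have hlo : Odd l := Odd.of_dvd_nat hD hlD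
    have hrs : (T : ZMod l) * T + (U : ZMod l) * U = -1 := by
      have : (l : ℤ) ∣ T * T + U * U + 1 := (Int.natCast_dvd_natCast.2 hlD).trans hTU
      rw [← ZMod.intCast_zmod_eq_zero_iff_dvd] at this
      push_cast at this
      linear_combination this
    rw [← Pg_zero hlo hrs]
    rw [← ZMod.intCast_zmod_eq_zero_iff_dvd] at h1 h2 h3 h4
    have hB' : Pg (T : ZMod l) (U : ZMod l) x = !![(P : ZMod l), Q; R, S] := by
      simp only [Pg, hP, hQ, hR, hS]
      push_cast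
      rfl
    rw [hB', h1, h2, h3, h4]
    ext i j
    fin_cases i <;> fin_cases j <;> rfl
  have hD0 : D ≠ 0 := NeZero.ne D
  set z1 : ℕ := ∏ l ∈ D.primeFactors.filter (fun l : ℕ => (l : ℤ) ∣ P ∧ (l : ℤ) ∣ R), l with hz1
  set z2 : ℕ := ∏ l ∈ D.primeFactors.filter (fun l : ℕ => ¬ ((l : ℤ) ∣ P ∧ (l : ℤ) ∣ R)), l with hz2
  set z : Vec D := ![(z1 : ZMod D), (z2 : ZMod D)] with hz
  set u : Vec D := (Pg r s x).mulVec z with hu
  have hu0 : u 0 = ((P * z1 + Q * z2 : ℤ) : ZMod D) := by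
    rw [hu, hB]
    simp [Matrix.mulVec, dotProduct, Fin.sum_univ_two, hz]
  have hu1 : u 1 = ((R * z1 + S * z2 : ℤ) : ZMod D) := by
    rw [hu, hB]
    simp [Matrix.mulVec, dotProduct, Fin.sum_univ_two, hz]
  have hpr : ∀ l : ℕ, l.Prime → ∀ (s : Finset ℕ), s ⊆ D.primeFactors → l ∣ ∏ l ∈ s, l → l ∈ s := by
    intro l hl s hs hd
    obtain ⟨m, hm, hlm⟩ := (Prime.dvd_finsetProd_iff hl.prime _).1 hd
    have : l = m := (Nat.prime_dvd_prime_iff_eq hl (Nat.prime_of_mem_primeFactors (hs hm))).1 hlm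
    rwa [this]
  have huni : Uni u := by
    unfold Uni
    rw [hu0, hu1]
    apply r4_uni_of
    intro l hl hlD h0 h1
    have hlD' : l ∣ D := Int.natCast_dvd_natCast.1 hlD
    have hlmem : l ∈ D.primeFactors := Nat.mem_primeFactors.2 ⟨hl, hlD', hD0⟩
    have hlp : Prime (l : ℤ) := Nat.prime_iff_prime_int.1 hl
    by_cases hlP : (l : ℤ) ∣ P ∧ (l : ℤ) ∣ R
    · have hdz1 : (l : ℤ) ∣ (z1 : ℤ) := by
        rw [Int.natCast_dvd_natCast, hz1]
        exact Finset.dvd_prod_of_mem _ (Finset.mem_filter.2 ⟨hlmem, hlP⟩)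
      have hndz2 : ¬ (l : ℤ) ∣ (z2 : ℤ) := by
        rw [Int.natCast_dvd_natCast, hz2]
        intro hd
        have := hpr l hl _ (Finset.filter_subset _ _) hd
        exact (Finset.mem_filter.1 this).2 hlP
      have h2 : (l : ℤ) ∣ S * z2 := by
        have := dvd_sub h1 (dvd_mul_of_dvd_right hdz1 R)
        rwa [add_sub_cancel_left] at this
      have h3 : (l : ℤ) ∣ S := (hlp.dvd_or_dvd h2).resolve_right hndz2
      have h2' : (l : ℤ) ∣ Q * z2 := by
        have := dvd_sub h0 (dvd_mul_of_dvd_right hdz1 P)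
        rwa [add_sub_cancel_left] at this
      have h3' : (l : ℤ) ∣ Q := (hlp.dvd_or_dvd h2').resolve_right hndz2
      exact hnz l hl hlD' ⟨hlP.1, h3', hlP.2, h3⟩
    · have hdz2 : (l : ℤ) ∣ (z2 : ℤ) := by
        rw [Int.natCast_dvd_natCast, hz2]
        exact Finset.dvd_prod_of_mem _ (Finset.mem_filter.2 ⟨hlmem, hlP⟩)
      have hndz1 : ¬ (l : ℤ) ∣ (z1 : ℤ) := by
        rw [Int.natCast_dvd_natCast, hz1]
        intro hd
        have := hpr l hl _ (Finset.filter_subset _ _) hd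
        exact hlP (Finset.mem_filter.1 this).2
      have h2 : (l : ℤ) ∣ P * z1 := by
        have := dvd_sub h0 (dvd_mul_of_dvd_right hdz2 Q)
        rwa [add_sub_cancel_right] at this
      have h3 : (l : ℤ) ∣ R * z1 := by
        have := dvd_sub h1 (dvd_mul_of_dvd_right hdz2 S)
        rwa [add_sub_cancel_right] at this
      exact hlP ⟨(hlp.dvd_or_dvd h2).resolve_right hndz1, (hlp.dvd_or_dvd h3).resolve_right hndz1⟩
  have hN0 : ((Quaternion.normSq x : ℤ) : ZMod D) = 0 := by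
    rwa [ZMod.intCast_zmod_eq_zero_iff_dvd]
  have hdet : (P : ZMod D) * S = Q * R := by
    have hd := Pg_det h x
    rw [hN0, hB, Matrix.det_fin_two_of] at hd
    linear_combination hd
  refine ⟨u, huni, ⟨z, rfl⟩, ?_⟩
  intro z'
  obtain ⟨r0, r1, hr⟩ := huni
  set w := (Pg r s x).mulVec z' with hw
  have hw0 : w 0 = P * z' 0 + Q * z' 1 := by
    rw [hw, hB]; simp [Matrix.mulVec, dotProduct, Fin.sum_univ_two]
  have hw1 : w 1 = R * z' 0 + S * z' 1 := by
    rw [hw, hB]; simp [Matrix.mulVec, dotProduct, Fin.sum_univ_two]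
  have hdet2 : u 0 * w 1 = u 1 * w 0 := by
    rw [hu0, hu1, hw0, hw1]
    push_cast
    linear_combination ((z1 : ZMod D) * z' 1 - z2 * z' 0) * hdet
  refine ⟨r0 * w 0 + r1 * w 1, ?_⟩
  ext i
  fin_cases i
  · simp only [Pi.smul_apply, smul_eq_mul, Fin.zero_eta]
    linear_combination (-w 0) * hr - r1 * hdet2
  · simp only [Pi.smul_apply, smul_eq_mul, Fin.mk_one]
    linear_combination (-w 1) * hr + r0 * hdet2

/-- TARGET 2 -/
theorem reach_g (D : ℕ) (hD : Odd D) (h5 : Nat.Coprime D 5) (v : ℍ[ℤ]) (hv : PrimMod D v)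
    (hN : (D : ℤ) ∣ Quaternion.normSq v) : ∃ L : ℕ, ∀ z : ℍ[ℤ], PrimMod D z →
      (D : ℤ) ∣ Quaternion.normSq z → ∃ w : List (Fin 6), w.length ≤ L ∧
        DvdQ D (v * (qw w * z)) := by
  classical
  have hD0 : D ≠ 0 := by
    rintro rfl
    exact absurd hD (by decide)
  have : NeZero D := ⟨hD0⟩
  obtain ⟨r, s, h⟩ := split_rs D hD
  have hv' : PrimMod D (star v) := by
    intro l hl hlD hdv
    apply hv l hl hlD
    obtain ⟨h0, h1, h2, h3⟩ := hdv
    rw [Quaternion.re_star] at h0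
    rw [Quaternion.imI_star, dvd_neg] at h1
    rw [Quaternion.imJ_star, dvd_neg] at h2
    rw [Quaternion.imK_star, dvd_neg] at h3
    exact ⟨h0, h1, h2, h3⟩
  have hN' : (D : ℤ) ∣ Quaternion.normSq (star v) := by
    rw [Quaternion.normSq_star]; exact hN
  obtain ⟨k, hk, ⟨z0, hz0⟩, -⟩ := line_g D hD r s h (star v) hv' hN'
  have hvk : (Pg r s v).mulVec k = 0 := by
    have e : v * star v = (Int.cast (Quaternion.normSq v) : ℍ[ℤ]) := by
      rw [Quaternion.self_mul_star]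
      ext <;> simp
    rw [hz0, Matrix.mulVec_mulVec, ← Pg_mul h, e, Pg_int]
    have : ((Quaternion.normSq v : ℤ) : ZMod D) = 0 := by
      rwa [ZMod.intCast_zmod_eq_zero_iff_dvd]
    rw [this, zero_smul, Matrix.zero_mulVec]
  have hch : ∀ u : Vec D, ∃ w : List (Fin 6), Uni u → ∃ a : (ZMod D)ˣ,
      (Pg r s (qw w)).mulVec u = (a : ZMod D) • k := by
    intro u
    by_cases hu : Uni u
    · obtain ⟨w, a, hw⟩ := transitive_g D hD h5 r s h u k hu hk
      exact ⟨w, fun _ => ⟨a, hw⟩⟩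
    · exact ⟨[], fun h' => absurd h' hu⟩
  choose W hW using hch
  refine ⟨Finset.univ.sup (fun u : Vec D => (W u).length), ?_⟩
  intro z hz hzN
  obtain ⟨u, hu, -, hlin⟩ := line_g D hD r s h z hz hzN
  obtain ⟨a, ha⟩ := hW u hu
  refine ⟨W u, Finset.le_sup (f := fun u : Vec D => (W u).length) (Finset.mem_univ u), ?_⟩
  rw [← Pg_zero hD h]
  have key : ∀ z' : Vec D, (Pg r s (v * (qw (W u) * z))).mulVec z' = 0 := by
    intro z'
    obtain ⟨c, hc⟩ := hlin z'
    rw [Pg_mul h, Pg_mul h, ← Matrix.mulVec_mulVec, ← Matrix.mulVec_mulVec, hc, Matrix.mulVec_smul,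
      ha, Matrix.mulVec_smul, Matrix.mulVec_smul, hvk, smul_zero, smul_zero]
  ext i j
  have := congrFun (key (Pi.single j 1)) i
  simpa using this

end Pool.Agent.H978V
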