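import Pool.Agent.H978V.MDefs
import Pool.Agent.H978V.C2
import Pool.Agent.H978V.R4

/-!
# Families and kernels for a general splitting
-/

set_option autoImplicit false

open MeasureTheory Set
open scoped Quaternion

namespace Pool.Agent.H978V

open Pool.Agent.Helper557.Rz

lemma m5_star_mul {D : ℕ} {t : ZMod D × ZMod D} (ht : Q.Sq t) (x : ℍ[ℤ]) (v : Vec D) :
    (Q.Ph t (star x)).mulVec ((Q.Ph t x).mulVec v) = ((Quaternion.normSq x : ℤ) : ZMod D) • v := by
  rw [Matrix.mulVec_mulVec, ← Q.Ph_mul ht]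
  have h : star x * x = ((Quaternion.normSq x : ℤ) : ℍ[ℤ]) := Quaternion.star_mul_self x
  rw [h, Q.Ph_int, Matrix.smul_mulVec, Matrix.one_mulVec]

theorem actw_fam_g {D : ℕ} [NeZero D] (h5 : Nat.Coprime D 5) (R : ℍ[ℝ]ˣ →* Iso 3)
    (t : ZMod D × ZMod D) (ht : Q.Sq t) {ι : Type} (Z : Finset ι) (uz : ι → Vec D) (yz : ι → S 3)
    (N : ℕ) (w : List (Fin 6)) :
    Q.actw R t w (fam Z uz yz N) =
      fam Z (fun z => (Q.Ph t (star (qw w))).mulVec (uz z)) (fun z => rot (R (uw w))⁻¹ (yz z)) N := by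
  classical
  have hunit : ∃ c : (ZMod D)ˣ, (c : ZMod D) = ((5 ^ w.length : ℤ) : ZMod D) := by
    refine ⟨ZMod.unitOfCoprime (5 ^ w.length) (Nat.Coprime.pow_left _ h5.symm), ?_⟩
    rw [ZMod.coe_unitOfCoprime]
    push_cast
    rfl
  obtain ⟨c, hc⟩ := hunit
  have hn : Quaternion.normSq (qw w) = 5 ^ w.length := (good_qw w).2
  have hk1 : ∀ v : Vec D, (Q.Ph t (star (qw w))).mulVec ((Q.Ph t (qw w)).mulVec v) =
      (c : ZMod D) • v := by
    intro v
    rw [m5_star_mul ht, hn, hc]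
  have hk2 : ∀ v : Vec D, (Q.Ph t (qw w)).mulVec ((Q.Ph t (star (qw w))).mulVec v) =
      (c : ZMod D) • v := by
    intro v
    have h := m5_star_mul ht (star (qw w)) v
    rw [star_star, Quaternion.normSq_star, hn] at h
    rw [h, hc]
  funext v
  unfold Q.actw fam
  rw [c2_cr_sum]
  apply Finset.sum_congr rfl
  intro z _
  have hiff : (∃ a : (ZMod D)ˣ, (Q.Ph t (qw w)).mulVec v = (a : ZMod D) • uz z) ↔
      ∃ a : (ZMod D)ˣ, v = (a : ZMod D) • (Q.Ph t (star (qw w))).mulVec (uz z) := by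
    constructor
    · rintro ⟨a, ha⟩
      have h := hk1 v
      rw [ha, Matrix.mulVec_smul] at h
      refine ⟨c⁻¹ * a, ?_⟩
      rw [Units.val_mul, mul_smul, h, smul_smul]
      simp
    · rintro ⟨a, ha⟩
      refine ⟨a * c, ?_⟩
      rw [ha, Matrix.mulVec_smul, hk2, smul_smul, Units.val_mul]
  by_cases h : ∃ a : (ZMod D)ˣ, (Q.Ph t (qw w)).mulVec v = (a : ZMod D) • uz z
  · rw [if_pos h, if_pos (hiff.1 h), c2_cr_kkC]
  · rw [if_neg h, if_neg (fun h2 => h (hiff.2 h2)), c2_cr_zero]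

theorem uvec_g (D : ℕ) [NeZero D] (hD : Odd D) (t : ZMod D × ZMod D) (ht : Q.Sq t) (ζ : ℍ[ℤ])
    (hN : (D : ℤ) ∣ Quaternion.normSq ζ) (hre : IsCoprime ζ.re (D : ℤ)) :
    ∃ u : Vec D, Uni u ∧ (∀ z : Vec D, ∃ s : ZMod D, (Q.Ph t ζ).mulVec z = s • u) ∧
      (Q.Ph t (star ζ)).mulVec u = 0 := by
  have hp : PrimMod D ζ := by
    intro p hp hpD hd
    have h1 : (p : ℤ) ∣ 1 := by
      obtain ⟨a, b, hab⟩ := hre
      rw [← hab]
      exact dvd_add (Dvd.dvd.mul_left hd.1 _) (Dvd.dvd.mul_left (by exact_mod_cast hpD) _)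
    exact hp.one_lt.ne' (Nat.dvd_one.1 (by exact_mod_cast h1))
  obtain ⟨u, hu, ⟨z, hz⟩, himg⟩ := line_g D hD t.1 t.2 ht ζ hp hN
  refine ⟨u, hu, himg, ?_⟩
  rw [hz]
  have h := m5_star_mul ht ζ z
  rw [show Pg t.1 t.2 ζ = Q.Ph t ζ from rfl, h]
  rw [(ZMod.intCast_zmod_eq_zero_iff_dvd _ D).2 hN, zero_smul]

/-- the kernel of the matrix of `v` -/
theorem ker_g (D : ℕ) [NeZero D] (hD : Odd D) (t : ZMod D × ZMod D) (ht : Q.Sq t) (v : ℍ[ℤ])
    (hv : PrimMod D v) (hN : (D : ℤ) ∣ Quaternion.normSq v) :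
    ∃ e : Vec D, Uni e ∧ (Q.Ph t v).mulVec e = 0 ∧ ∀ q : ℍ[ℤ], DvdQ D (v * q * star v) → Fx t e q := by
  have hsp : PrimMod D (star v) := by
    intro p hp hpD hd
    refine hv p hp hpD ?_
    obtain ⟨h1, h2, h3, h4⟩ := hd
    refine ⟨?_, ?_, ?_, ?_⟩
    · simpa using h1
    · simpa using h2
    · simpa using h3
    · simpa using h4
  obtain ⟨e, he, ⟨z, hz⟩, himg⟩ := line_g D hD t.1 t.2 ht (star v) hsp (by rwa [Quaternion.normSq_star])
  change e = (Q.Ph t (star v)).mulVec z at hz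
  have hve : (Q.Ph t v).mulVec e = 0 := by
    rw [hz]
    have h := m5_star_mul ht (star v) z
    rw [star_star, Quaternion.normSq_star] at h
    rw [h, (ZMod.intCast_zmod_eq_zero_iff_dvd _ D).2 hN, zero_smul]
  refine ⟨e, he, hve, fun q hq => ?_⟩
  -- the vector x = Ph q e is in the kernel of Ph v
  set x := (Q.Ph t q).mulVec e with hx
  have hvx : (Q.Ph t v).mulVec x = 0 := by
    have h0 := (Q.Ph_zero hD ht _).2 hq
    rw [Q.Ph_mul ht, Q.Ph_mul ht] at h0
    rw [hx, hz, Matrix.mulVec_mulVec, Matrix.mulVec_mulVec, h0, Matrix.zero_mulVec]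
  unfold Fx
  rw [← hx]
  -- δ • Ph v = 0 for δ = det (x, e)
  set dl : ZMod D := x 0 * e 1 - x 1 * e 0 with hdl
  have hM : dl • Q.Ph t v = 0 := by
    have a0 := congrFun hve 0
    have a1 := congrFun hve 1
    have b0 := congrFun hvx 0
    have b1 := congrFun hvx 1
    simp only [Matrix.mulVec, dotProduct, Fin.sum_univ_two, Pi.zero_apply] at a0 a1 b0 b1
    ext i k
    fin_cases i <;> fin_cases k <;> simp only [Matrix.smul_apply, smul_eq_mul, Matrix.zero_apply, hdl, Fin.zero_eta, Fin.mk_one, Fin.isValue]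
    · linear_combination e 1 * b0 - x 1 * a0
    · linear_combination x 0 * a0 - e 0 * b0
    · linear_combination e 1 * b1 - x 1 * a1
    · linear_combination x 0 * a1 - e 0 * b1
  obtain ⟨d, hd⟩ : ∃ d : ℤ, ((d : ℤ) : ZMod D) = dl := ⟨dl.val, by simp⟩
  have hdv : DvdQ D (((d : ℤ) : ℍ[ℤ]) * v) := by
    refine (Q.Ph_zero hD ht _).1 ?_
    rw [Q.Ph_mul ht, Q.Ph_int, hd, Matrix.smul_mul, Matrix.one_mul, hM]
  have hD0 : dl = 0 := by
    rw [← hd, ZMod.intCast_zmod_eq_zero_iff_dvd]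
    obtain ⟨h1, h2, h3, h4⟩ := hdv
    simp only [Quaternion.re_mul, Quaternion.imI_mul, Quaternion.imJ_mul, Quaternion.imK_mul,
      Quaternion.re_intCast, Quaternion.imI_intCast, Quaternion.imJ_intCast, Quaternion.imK_intCast,
      zero_mul, sub_zero, add_zero] at h1 h2 h3 h4
    have hDpos : 0 < D := Nat.pos_of_ne_zero (NeZero.ne D)
    by_contra hnd
    obtain ⟨D', hD'⟩ : ((Int.gcd D d : ℕ) : ℤ) ∣ D := Int.gcd_dvd_left ..
    obtain ⟨d', hd'⟩ : ((Int.gcd D d : ℕ) : ℤ) ∣ d := Int.gcd_dvd_right ..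
    set g : ℕ := Int.gcd D d with hg
    have hg0 : (0 : ℤ) < g := by
      have : 0 < g := Int.gcd_pos_of_ne_zero_left _ (by exact_mod_cast hDpos.ne')
      exact_mod_cast this
    have hcop : IsCoprime D' d' := by
      rw [Int.isCoprime_iff_gcd_eq_one]
      have h5 : g * Int.gcd D' d' = g * 1 := by
        have h6 : Int.gcd ((g : ℤ) * D') ((g : ℤ) * d') = g * Int.gcd D' d' := by
          rw [Int.gcd_mul_left]; simp
        rw [← h6, ← hD', ← hd', mul_one]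
      have h7 : 0 < g := by exact_mod_cast hg0
      exact Nat.eq_of_mul_eq_mul_left h7 h5
    have key : ∀ x : ℤ, (D : ℤ) ∣ d * x → D' ∣ x := by
      intro x hx
      have h8 : (g : ℤ) * D' ∣ (g : ℤ) * (d' * x) := by
        rw [← hD', ← mul_assoc, ← hd']; exact hx
      exact hcop.dvd_of_dvd_mul_left ((mul_dvd_mul_iff_left hg0.ne').1 h8)
    have hD'pos : 0 < D' := by
      have : (0 : ℤ) < D := by exact_mod_cast hDpos
      rw [hD'] at this
      exact (pos_iff_pos_of_mul_pos this).1 hg0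
    have hD'1 : D'.natAbs ≠ 1 := by
      intro h9
      have h10 : D' = 1 := by omega
      apply hnd
      rw [hD', h10, mul_one, hd']
      exact dvd_mul_right _ _
    obtain ⟨p, hp, hpD⟩ := Nat.exists_prime_and_dvd hD'1
    have hpD' : (p : ℤ) ∣ D' := Int.natCast_dvd.2 hpD
    refine hv p hp ?_ ⟨hpD'.trans (key _ h1), hpD'.trans (key _ h2), hpD'.trans (key _ h3), hpD'.trans (key _ h4)⟩
    have : (p : ℤ) ∣ (D : ℤ) := by rw [hD']; exact Dvd.dvd.mul_left hpD' _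
    exact_mod_cast this
  linear_combination hD0

end Pool.Agent.H978V
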