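import Pool.Agent.H978V.MDefs
import Pool.Agent.H978V.H2
import Pool.Agent.H978V.Q.G10
import Pool.Agent.Helper557.Rz.M_inj
import Pool.Agent.Helper557.Rz.M_rq
import Pool.Agent.Helper557.Rz.M_kera
import Pool.Agent.H978V.M5

set_option autoImplicit false

open MeasureTheory Set
open scoped Quaternion

namespace Pool.Agent.H978V

open Pool.Agent.Helper557.Rz



/-! ### arithmetic lemmas for a general splitting -/

lemma hg_Ph_norm {D : ℕ} {t : ZMod D × ZMod D} (ht : Q.Sq t) (w : List (Fin 6)) :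
    Q.Ph t (qw w) * Q.Ph t (star (qw w)) =
      ((5 : ZMod D) ^ w.length) • (1 : Matrix (Fin 2) (Fin 2) (ZMod D)) := by
  rw [← Q.Ph_mul ht, hit_norm, Q.Ph_int]
  push_cast
  rfl

lemma hg_Uni_star {D : ℕ} (h5 : Nat.Coprime D 5) {t : ZMod D × ZMod D} (ht : Q.Sq t)
    (w : List (Fin 6)) (u : Vec D) (hu : Uni u) : Uni ((Q.Ph t (star (qw w))).mulVec u) :=
  hit_Uni _ (Q.Ph t (qw w)) _ (hit_unit5 h5 _) (hg_Ph_norm ht w) u hu

/-- a quaternion whose matrix kills all vectors is divisible by `D` -/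
lemma hg_kill {D : ℕ} (hD : Odd D) {t : ZMod D × ZMod D} (ht : Q.Sq t) (X : ℍ[ℤ])
    (h : ∀ z : Vec D, (Q.Ph t X).mulVec z = 0) : DvdQ D X := by
  rw [← Q.Ph_zero hD ht]
  ext i k
  have h1 := congrFun (h (Pi.single k 1)) i
  rw [Matrix.mulVec_single_one] at h1
  simpa using h1

/-- divisibility from proportional vectors -/
lemma hg_dvd {D : ℕ} [NeZero D] (hD : Odd D) {t : ZMod D × ZMod D} (ht : Q.Sq t) (n : ℕ) (m : ℤ)
    (hmn : (D : ℤ) ∣ m ^ 2 + n) (y y' : ℤ × ℤ × ℤ) (v v' : Vec D)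
    (h1 : (Q.Ph t (star (mq m y))).mulVec v = 0)
    (h2 : ∀ z : Vec D, ∃ c : ZMod D, (Q.Ph t (mq m y')).mulVec z = c • v')
    (a : ZMod D) (h3 : v' = a • v) : (D : ℤ) ∣ n - dt y y' := by
  have h4 : ∀ z : Vec D, (Q.Ph t (star (mq m y) * mq m y')).mulVec z = 0 := by
    intro z
    obtain ⟨c, hc⟩ := h2 z
    rw [Q.Ph_mul ht, ← Matrix.mulVec_mulVec, hc, h3, Matrix.mulVec_smul, Matrix.mulVec_smul, h1,
      smul_zero, smul_zero]
  have hre : (star (mq m y) * mq m y').re = m ^ 2 + dt y y' := by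
    rw [Quaternion.re_mul, Quaternion.re_star, Quaternion.imI_star, Quaternion.imJ_star,
      Quaternion.imK_star]
    simp only [mq, dt]
    ring
  have e3 : (D : ℤ) ∣ m ^ 2 + dt y y' := by
    rw [← hre]
    exact (hg_kill hD ht _ h4).1
  have := dvd_sub hmn e3
  have e : m ^ 2 + (n : ℤ) - (m ^ 2 + dt y y') = n - dt y y' := by ring
  rwa [e] at this

/-! ### rotations -/

lemma hg_imq_norm (x : E 3) : ‖imq x‖ ^ 2 = ‖x‖ ^ 2 := by
  rw [← normSq_imq, Quaternion.normSq_eq_norm_mul_self, pow_two]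

lemma hg_imq_sub (x y : E 3) : imq (x - y) = imq x - imq y := by
  rw [sub_eq_add_neg, imq_add, ← neg_one_smul ℝ y, imq_smul, neg_one_smul, sub_eq_add_neg]

lemma hg_inner (R : ℍ[ℝ]ˣ →* Iso 3) (hR : IsRot R) (w w₀ : List (Fin 6)) (x x₀ : S 3) :
    (2 - 2 * inner ℝ ((rot (R (uw w₀))⁻¹ x : S 3) : E 3)
      ((rot (R (uw w))⁻¹ x₀ : S 3) : E 3)) =
      ‖((5 : ℝ) ^ (w₀.length + w.length))⁻¹ •
      (cz (qw w * star (qw w₀)) * imq x * star (cz (qw w * star (qw w₀)))) - imq (x₀ : E 3)‖ ^ 2 := by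
  rw [rot_coe, rot_coe, ← LinearIsometryEquiv.inner_map_map (R (uw w))]
  have h1 : (R (uw w)) ((R (uw w))⁻¹ (x₀ : E 3)) = (x₀ : E 3) := by
    show (R (uw w) * (R (uw w))⁻¹) (x₀ : E 3) = _
    rw [mul_inv_cancel]
    rfl
  rw [h1, ← hit_rot R hR w w₀ (x : E 3), ← hg_imq_sub, hg_imq_norm, norm_sub_sq_real]
  have h2 : ‖(R (uw w)) ((R (uw w₀))⁻¹ (x : E 3))‖ = 1 := by
    rw [LinearIsometryEquiv.norm_map, LinearIsometryEquiv.norm_map]
    exact mem_sphere_zero_iff_norm.1 x.2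
  have h3 : ‖(x₀ : E 3)‖ = 1 := mem_sphere_zero_iff_norm.1 x₀.2
  rw [h2, h3]
  ring

/-- the vector product identity -/
lemma hg_Sp (p : ℍ[ℝ]) (hp : UP p) (q : ℍ[ℤ]) (T : ℝ) (hT : 0 < T)
    (hN : ((Quaternion.normSq q : ℤ) : ℝ) = T) :
    ‖(T)⁻¹ • (cz q * p * star (cz q)) - p‖ ^ 2 / 16 = Sp p q / (4 * T) := by
  obtain ⟨hre, hnorm⟩ := hp
  have hn1 : p.imI ^ 2 + p.imJ ^ 2 + p.imK ^ 2 = 1 := by
    have h1 := Quaternion.normSq_eq_norm_mul_self (a := p)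
    rw [hnorm, Quaternion.normSq_def', hre] at h1
    linarith
  have hN' : ((q.re : ℝ) ^ 2 + (q.imI : ℝ) ^ 2 + (q.imJ : ℝ) ^ 2 + (q.imK : ℝ) ^ 2) = T := by
    rw [← hN, Quaternion.normSq_def']
    push_cast
    ring
  have key : ∀ X : ℍ[ℝ], X = cz q * p * star (cz q) → X.re = 0 ∧
      (X.imI - T * p.imI) ^ 2 + (X.imJ - T * p.imJ) ^ 2 + (X.imK - T * p.imK) ^ 2 =
        4 * T * Sp p q := by
    intro X hX
    subst hX
    rw [← hN']
    constructor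
    · simp only [Quaternion.re_mul, Quaternion.imI_mul, Quaternion.imJ_mul,
        Quaternion.imK_mul, Quaternion.re_star, Quaternion.imI_star, Quaternion.imJ_star,
        Quaternion.imK_star, hre, cz]
      ring
    · unfold Sp
      simp only [Quaternion.re_mul, Quaternion.imI_mul, Quaternion.imJ_mul,
        Quaternion.imK_mul, Quaternion.re_star, Quaternion.imI_star, Quaternion.imJ_star,
        Quaternion.imK_star, hre, cz]
      ring
  obtain ⟨k0, k1⟩ := key _ rfl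
  generalize cz q * p * star (cz q) = X at *
  rw [pow_two ‖_‖, ← Quaternion.normSq_eq_norm_mul_self, Quaternion.normSq_def']
  have f0 : ((T)⁻¹ • X - p).re = 0 := by
    rw [Quaternion.re_sub, Quaternion.re_smul, k0, hre]
    simp
  have f1 : ((T)⁻¹ • X - p).imI = T⁻¹ * (X.imI - T * p.imI) := by
    rw [Quaternion.imI_sub, Quaternion.imI_smul, smul_eq_mul]
    field_simp
  have f2 : ((T)⁻¹ • X - p).imJ = T⁻¹ * (X.imJ - T * p.imJ) := by
    rw [Quaternion.imJ_sub, Quaternion.imJ_smul, smul_eq_mul]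
    field_simp
  have f3 : ((T)⁻¹ • X - p).imK = T⁻¹ * (X.imK - T * p.imK) := by
    rw [Quaternion.imK_sub, Quaternion.imK_smul, smul_eq_mul]
    field_simp
  rw [f0, f1, f2, f3]
  have : (0 : ℝ) ^ 2 + (T⁻¹ * (X.imI - T * p.imI)) ^ 2 + (T⁻¹ * (X.imJ - T * p.imJ)) ^ 2 +
      (T⁻¹ * (X.imK - T * p.imK)) ^ 2 = T⁻¹ ^ 2 * (4 * T * Sp p q) := by
    rw [← k1]
    ring
  rw [this]
  field_simp
  ring

lemma hg_A_inner (R : ℍ[ℝ]ˣ →* Iso 3) (hR : IsRot R) (j : ℕ) (w w₀ : List (Fin 6))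
    (hw : w.length = j) (hw₀ : w₀.length = j) (x₀ : S 3) (hp : UP (imq (x₀ : E 3))) :
    (2 - 2 * inner ℝ ((rot (R (uw w₀))⁻¹ x₀ : S 3) : E 3)
      ((rot (R (uw w))⁻¹ x₀ : S 3) : E 3)) / 16 =
      Sp (imq (x₀ : E 3)) (qw w * star (qw w₀)) / (4 * 25 ^ j) := by
  rw [hg_inner R hR w w₀ x₀ x₀, hw, hw₀]
  have hN : Quaternion.normSq (qw w * star (qw w₀)) = 5 ^ (j + j) := by
    rw [map_mul, Quaternion.normSq_star, hit_nsq, hit_nsq, hw, hw₀, pow_add]
  have h25 : (25 : ℝ) ^ j = 5 ^ (j + j) := by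
    rw [← two_mul, pow_mul]
    norm_num
  rw [h25]
  exact hg_Sp _ hp _ _ (by positivity) (by rw [hN]; push_cast; rfl)

/-- the bound for the sums over the places -/
lemma hg_B {D : ℕ} [NeZero D] (hD : Odd D) {t : ZMod D × ZMod D} (ht : Q.Sq t) (n N : ℕ) (m : ℤ)
    (hn : 1 ≤ n) (hN : 1 ≤ N) (hmn : (D : ℤ) ∣ m ^ 2 + n)
    (Z : Finset (ℤ × ℤ × ℤ)) (u : ℤ × ℤ × ℤ → Vec D) (yh : ℤ × ℤ × ℤ → S 3)
    (hu1 : ∀ y ∈ Z, Uni (u y))
    (hu2 : ∀ y ∈ Z, ∀ z : Vec D, ∃ c : ZMod D, (Q.Ph t (mq m y)).mulVec z = c • u y)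
    (hu3 : ∀ y ∈ Z, (Q.Ph t (star (mq m y))).mulVec (u y) = 0)
    (hyh : ∀ y ∈ Z, ∀ y' ∈ Z, inner ℝ (yh y : E 3) (yh y' : E 3) = (dt y y' : ℝ) / n) :
    ip (fam Z u yh N) (fam Z u yh N) ≤ D.totient *
      ∑ y ∈ Z, ∑ y' ∈ Z, if (D : ℤ) ∣ n - dt y y' then
        wt N (((n - dt y y' : ℤ) : ℝ) / (8 * n)) else 0 := by
  classical
  rw [fam_ip Z u yh Z u yh N hN hu1 hu1]
  refine mul_le_mul_of_nonneg_left ?_ (Nat.cast_nonneg _)
  refine Finset.sum_le_sum fun y hy => Finset.sum_le_sum fun y' hy' => ?_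
  by_cases h : ∃ a : (ZMod D)ˣ, u y' = (a : ZMod D) • u y
  · rw [if_pos h]
    obtain ⟨a, ha⟩ := h
    rw [if_pos (hg_dvd hD ht n m hmn y y' (u y) (u y') (hu3 y hy) (hu2 y' hy') a ha)]
    refine (k2_le N hN (yh y) (yh y')).2.trans (le_of_eq ?_)
    congr 1
    rw [hyh y hy y' hy']
    have hn0 : (0 : ℝ) < n := by exact_mod_cast hn
    push_cast
    field_simp
    ring
  · rw [if_neg h]
    split_ifs
    · exact hit_wt0 _ _
    · exact le_rfl

open Classical in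
/-- the bound for the sums over the words -/
lemma hg_A {D : ℕ} [NeZero D] (h5 : Nat.Coprime D 5) {t : ZMod D × ZMod D} (ht : Q.Sq t) (N j : ℕ)
    (hN : 1 ≤ N) (e : Vec D) (he : Uni e) (R : ℍ[ℝ]ˣ →* Iso 3) (hR : IsRot R) (x₀ : S 3)
    (hp : UP (imq (x₀ : E 3))) :
    ip (fam (RW j) (fun w => (Q.Ph t (star (qw w))).mulVec e)
        (fun w => rot (R (uw w))⁻¹ x₀) N)
      (fam (RW j) (fun w => (Q.Ph t (star (qw w))).mulVec e)
        (fun w => rot (R (uw w))⁻¹ x₀) N) ≤ D.totient *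
      ∑ w ∈ RW j, ∑ w' ∈ RW j,
      if Fx t e (qw w * star (qw w')) then
        wt N (Sp (imq (x₀ : E 3)) (qw w * star (qw w')) / (4 * 25 ^ j)) else 0 := by
  have hu : ∀ w ∈ RW j, Uni ((Q.Ph t (star (qw w))).mulVec e) := fun w _ =>
    hg_Uni_star h5 ht w _ he
  rw [fam_ip _ _ _ _ _ _ N hN hu hu]
  refine mul_le_mul_of_nonneg_left ?_ (Nat.cast_nonneg _)
  refine Finset.sum_le_sum fun w hw => Finset.sum_le_sum fun w' hw' => ?_
  by_cases h : ∃ a : (ZMod D)ˣ, (Q.Ph t (star (qw w'))).mulVec e =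
      (a : ZMod D) • (Q.Ph t (star (qw w))).mulVec e
  · rw [if_pos h]
    obtain ⟨a, ha⟩ := h
    have h1 : (Q.Ph t (qw w * star (qw w'))).mulVec e = ((a : ZMod D) * 5 ^ w.length) • e := by
      rw [Q.Ph_mul ht, ← Matrix.mulVec_mulVec, ha, Matrix.mulVec_smul, Matrix.mulVec_mulVec,
        hg_Ph_norm ht, Matrix.smul_mulVec, Matrix.one_mulVec, smul_smul]
    rw [if_pos (by
      unfold Fx
      rw [h1, Pi.smul_apply, Pi.smul_apply, smul_eq_mul, smul_eq_mul]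
      ring)]
    refine (k2_le N hN _ _).2.trans (le_of_eq ?_)
    congr 1
    rw [real_inner_comm]
    exact hg_A_inner R hR j w w' (hit_len hw) (hit_len hw') x₀ hp
  · rw [if_neg h]
    split_ifs
    · exact hit_wt0 _ _
    · exact le_rfl

open Classical in
/-- TARGET -/
theorem hit_g : ∃ κ : ℝ, 1 < κ ∧ ∀ (D : ℕ) [NeZero D], Odd D → Nat.Coprime D 5 →
    ∀ t : ZMod D × ZMod D, Q.Sq t → ∀ (v : ℍ[ℤ]) (e : Vec D), Uni e → (Q.Ph t v).mulVec e = 0 →
    ∀ p₀ : ℍ[ℝ], UP p₀ → ∀ (n N j i : ℕ) (m : ℤ) (Z : Finset (ℤ × ℤ × ℤ))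
    (EA EB : ℝ), 1 ≤ n → 1 ≤ N → 1 ≤ j → IsCoprime m (D : ℤ) →
    (D : ℤ) ∣ m ^ 2 + n → Z ⊆ S3 n → Z.Nonempty →
    (∑ p ∈ (Z ×ˢ Z).filter (fun p => (D : ℤ) ∣ n - dt p.1 p.2),
      wt N (((n - dt p.1 p.2 : ℤ) : ℝ) / (8 * n))) ≤ EB →
    (∑ w ∈ RW j, ∑ w' ∈ RW j,
      if Fx t e (qw w * star (qw w')) then wt N (Sp p₀ (qw w * star (qw w')) / (4 * 25 ^ j))
      else 0) ≤ EA →
    4 * (D : ℝ) ^ 4 * (EA * EB) ≤
      κ ^ (2 * i) * (D.totient : ℝ) ^ 2 * (Z.card : ℝ) ^ 2 * (6 * 5 ^ (j - 1)) ^ 2 →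
    ∃ y ∈ Z, ∃ γ : List (Fin 6), γ.length ≤ i + j ∧ DvdQ D (v * (qw γ * mq m y)) ∧
      1 / (2 * (D : ℝ) ^ 2) ≤ wt N (‖rt γ (hat n y) - p₀‖ ^ 2 / 16) := by
  obtain ⟨R, hR⟩ := exists_RQ
  obtain ⟨l₁, hl0, hl6, hmix⟩ := Q.mixing R hR
  refine ⟨12 / (6 + l₁), by rw [one_lt_div (by linarith)]; linarith, ?_⟩
  intro D _ hD h5 t ht v e he hve p₀ hp₀ n N j i m Z EA EB hn hN hj hmc hmn hZS hZ hEB hEA hmain
  have hD0 : 0 < D := NeZero.pos D
  have hn0 : (0 : ℝ) < n := by exact_mod_cast hn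
  have hsn : 0 < Real.sqrt n := Real.sqrt_pos.2 hn0
  -- the target point
  obtain ⟨x₀, hx₀⟩ : ∃ x₀ : S 3, imq (x₀ : E 3) = p₀ := by
    have h1 := hg_imq_norm (toV p₀)
    rw [imq_toV hp₀.1, hp₀.2] at h1
    have h4 := norm_nonneg (toV p₀)
    have hnorm : ‖toV p₀‖ = 1 := by nlinarith
    exact ⟨⟨toV p₀, mem_sphere_zero_iff_norm.2 hnorm⟩, imq_toV hp₀.1⟩
  subst hx₀
  -- the vectors
  have hu : ∀ y : ℤ × ℤ × ℤ, ∃ u : Vec D, y ∈ Z → (Uni u ∧
      (∀ z : Vec D, ∃ c : ZMod D, (Q.Ph t (mq m y)).mulVec z = c • u) ∧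
      (Q.Ph t (star (mq m y))).mulVec u = 0) := by
    intro y
    by_cases hy : y ∈ Z
    · have hS := mem_S3.1 (hZS hy)
      have hns : Quaternion.normSq (mq m y) = m ^ 2 + n := by
        rw [Quaternion.normSq_def', ← hS]
        simp only [mq]
        ring
      obtain ⟨u, hu⟩ := uvec_g D hD t ht (mq m y) (by rw [hns]; exact hmn) hmc
      exact ⟨u, fun _ => hu⟩
    · exact ⟨0, fun h => absurd h hy⟩
  choose u hu using hu
  -- the points of the sphere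
  have hyh : ∀ y : ℤ × ℤ × ℤ, ∃ x : S 3, y ∈ Z → imq (x : E 3) = hat n y := by
    intro y
    by_cases hy : y ∈ Z
    · have hS := mem_S3.1 (hZS hy)
      have hre : (hat n y).re = 0 := by
        unfold hat
        rw [Quaternion.re_smul]
        simp [cz, pq]
      have hnorm : ‖toV (hat n y)‖ = 1 := by
        have h1 := normSq_imq (toV (hat n y))
        rw [imq_toV hre] at h1
        have h5 : Quaternion.normSq (hat n y) =
            (1 / Real.sqrt n) ^ 2 * ((Quaternion.normSq (pq y) : ℤ) : ℝ) := by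
          unfold hat
          rw [Quaternion.normSq_smul, hit_nsqr]
        rw [h5] at h1
        have h2 : Quaternion.normSq (pq y) = n := by
          rw [Quaternion.normSq_def', ← hS]
          simp only [pq]
          ring
        rw [h2, one_div, inv_pow, Real.sq_sqrt hn0.le] at h1
        have h3 : (n : ℝ)⁻¹ * (((n : ℕ) : ℤ) : ℝ) = 1 := by
          push_cast
          exact inv_mul_cancel₀ hn0.ne'
        rw [h3] at h1
        have h4 := norm_nonneg (toV (hat n y))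
        nlinarith
      exact ⟨⟨toV (hat n y), mem_sphere_zero_iff_norm.2 hnorm⟩, fun _ => imq_toV hre⟩
    · exact ⟨ehat true, fun h => absurd h hy⟩
  choose yh hyh using hyh
  have hinn : ∀ y ∈ Z, ∀ y' ∈ Z, inner ℝ (yh y : E 3) (yh y' : E 3) = (dt y y' : ℝ) / n := by
    intro y hy y' hy'
    have co : ∀ y ∈ Z, (yh y : E 3) 0 = (1 / Real.sqrt n) * y.1 ∧
        (yh y : E 3) 1 = (1 / Real.sqrt n) * y.2.1 ∧
        (yh y : E 3) 2 = (1 / Real.sqrt n) * y.2.2 := by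
      intro y hy
      have h1 := hyh y hy
      unfold hat at h1
      refine ⟨?_, ?_, ?_⟩
      · have := congrArg QuaternionAlgebra.imI h1
        rw [Quaternion.imI_smul] at this
        exact this
      · have := congrArg QuaternionAlgebra.imJ h1
        rw [Quaternion.imJ_smul] at this
        exact this
      · have := congrArg QuaternionAlgebra.imK h1
        rw [Quaternion.imK_smul] at this
        exact this
    obtain ⟨a0, a1, a2⟩ := co y hy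
    obtain ⟨b0, b1, b2⟩ := co y' hy'
    rw [PiLp.inner_apply, Fin.sum_univ_three, a0, a1, a2, b0, b1, b2]
    have h3 : (1 / Real.sqrt n) * (1 / Real.sqrt n) = (n : ℝ)⁻¹ := by
      rw [one_div, ← mul_inv, Real.mul_self_sqrt hn0.le]
    unfold dt
    push_cast
    simp only [RCLike.inner_apply, conj_trivial]
    linear_combination ((y.1 : ℝ) * y'.1 + y.2.1 * y'.2.1 + y.2.2 * y'.2.2) * h3
  -- the two families
  obtain ⟨j', rfl⟩ : ∃ j', j = j' + 1 := ⟨j - 1, by omega⟩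
  have hcard := hit_card j'
  have hRWne : (RW (j' + 1)).Nonempty := by
    rw [← Finset.card_pos, hcard]
    positivity
  have hphi : 0 < D.totient := Nat.totient_pos.2 hD0
  have hphir : (0 : ℝ) < D.totient := by exact_mod_cast hphi
  have hNU := hit_NU D
  have hNUr : (0 : ℝ) < NU D := by exact_mod_cast hNU.1
  have hNU2 : (NU D : ℝ) ≤ (D : ℝ) ^ 2 := by exact_mod_cast hNU.2
  have hZr : (0 : ℝ) < Z.card := by exact_mod_cast hZ.card_pos
  have hUA : ∀ w ∈ RW (j' + 1), Uni ((Q.Ph t (star (qw w))).mulVec e) := fun w _ =>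
    hg_Uni_star h5 ht w _ he
  have hUB : ∀ y ∈ Z, Uni (u y) := fun y hy => (hu y hy).1
  have hIB := hg_B hD ht n N m hn hN hmn Z u yh hUB (fun y hy => (hu y hy).2.1)
    (fun y hy => (hu y hy).2.2) hinn
  have hIA := hg_A h5 ht N (j' + 1) hN e he R hR x₀ hp₀
  have hsB : ∑ y ∈ Z, ∑ y' ∈ Z, (if (D : ℤ) ∣ n - dt y y' then
        wt N (((n - dt y y' : ℤ) : ℝ) / (8 * n)) else 0) ≤ EB := by
    rw [Finset.sum_filter, Finset.sum_product] at hEB
    exact hEB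
  have hEB0 : 0 ≤ EB := by
    refine le_trans (Finset.sum_nonneg fun y _ => Finset.sum_nonneg fun y' _ => ?_) hsB
    split_ifs
    · exact hit_wt0 _ _
    · exact le_rfl
  have hEA0 : 0 ≤ EA := by
    refine le_trans (Finset.sum_nonneg fun y _ => Finset.sum_nonneg fun y' _ => ?_) hEA
    split_ifs
    · exact hit_wt0 _ _
    · exact le_rfl
  have hIB2 := hIB.trans (mul_le_mul_of_nonneg_left hsB hphir.le)
  have hIA2 := hIA.trans (mul_le_mul_of_nonneg_left hEA hphir.le)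
  have htB := fam_tot Z u yh N hN hUB
  have htA := fam_tot (RW (j' + 1)) (fun w => (Q.Ph t (star (qw w))).mulVec e)
    (fun w => rot (R (uw w))⁻¹ x₀) N hN hUA
  have hcr : ((RW (j' + 1)).card : ℝ) = 6 * 5 ^ j' := by
    rw [hcard]
    push_cast
    rfl
  have hjj : j' + 1 - 1 = j' := rfl
  rw [hjj] at hmain
  have hyp := hit_real l₁ D.totient Z.card (6 * 5 ^ j') (NU D) ((D : ℝ) ^ 2) _ _ EA EB i hl0 hphir
    hZr (by positivity) hNUr hNU2 hEA0 hEB0 hIA2 hIB2 (by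
      have e : 4 * ((D : ℝ) ^ 2) ^ 2 * (EA * EB) = 4 * (D : ℝ) ^ 4 * (EA * EB) := by ring
      rw [e]
      exact hmain)
  rw [← hcr, ← htA, ← htB] at hyp
  obtain ⟨w₀, hw₀, hbig⟩ := hmix D hD h5 t ht _ _ (fam_adm Z u yh N hUB)
    (fam_adm (RW (j' + 1)) (fun w => (Q.Ph t (star (qw w))).mulVec e)
      (fun w => rot (R (uw w))⁻¹ x₀) N hUA) i hyp
  have hUC : ∀ y ∈ Z, Uni ((Q.Ph t (star (qw w₀))).mulVec (u y)) := fun y hy =>
    hg_Uni_star h5 ht w₀ _ (hUB y hy)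
  rw [actw_fam_g h5 R t ht, fam_ip _ _ _ _ _ _ N hN hUC hUA, htA, htB] at hbig
  have hbig2 : (D.totient : ℝ) / (2 * NU D) * Z.card * (RW (j' + 1)).card ≤
      ∑ z ∈ Z, ∑ z' ∈ RW (j' + 1), if (∃ a : (ZMod D)ˣ,
        (Q.Ph t (star (qw z'))).mulVec e = (a : ZMod D) • (Q.Ph t (star (qw w₀))).mulVec (u z))
        then k2 N (rot (R (uw w₀))⁻¹ (yh z)) (rot (R (uw z'))⁻¹ x₀) else 0 := by
    have h1 : 1 / 2 * ((D.totient : ℝ) * Z.card * ((D.totient : ℝ) * (RW (j' + 1)).card) / NU D) =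
        D.totient * ((D.totient : ℝ) / (2 * NU D) * Z.card * (RW (j' + 1)).card) := by
      field_simp
    rw [h1] at hbig
    exact le_of_mul_le_mul_left hbig hphir
  obtain ⟨y, hy, w, hw, hyw⟩ := hit_avg Z (RW (j' + 1)) _ _ hZ hRWne hbig2
  have hpos : 0 < (D.totient : ℝ) / (2 * NU D) := by positivity
  have hbr : ∃ a : (ZMod D)ˣ, (Q.Ph t (star (qw w))).mulVec e =
      (a : ZMod D) • (Q.Ph t (star (qw w₀))).mulVec (u y) := by
    by_contra hc
    rw [if_neg hc] at hyw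
    linarith
  rw [if_pos hbr] at hyw
  obtain ⟨a, ha⟩ := hbr
  have hγ : qw ((w₀.reverse.map (· + 3)) ++ w) = qw w * star (qw w₀) := by
    rw [j9340_app, j9340_rev]
  have hlen : ((w₀.reverse.map (· + 3)) ++ w).length = w₀.length + w.length := by
    rw [List.length_append, List.length_map, List.length_reverse]
  -- the image of the product
  have him : ∀ z : Vec D,
      (Q.Ph t (v * (qw w * star (qw w₀) * mq m y))).mulVec z = 0 := by
    intro z
    obtain ⟨c, hc⟩ := (hu y hy).2.1 z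
    have h1 : (a : ZMod D) • (Q.Ph t (qw w * star (qw w₀))).mulVec (u y) =
        ((5 : ZMod D) ^ w.length) • e := by
      rw [Q.Ph_mul ht, ← Matrix.mulVec_mulVec, ← Matrix.mulVec_smul, ← ha, Matrix.mulVec_mulVec,
        hg_Ph_norm ht, Matrix.smul_mulVec, Matrix.one_mulVec]
    have h2 : (Q.Ph t (qw w * star (qw w₀))).mulVec (u y) =
        (((a⁻¹ : (ZMod D)ˣ) : ZMod D) * (5 : ZMod D) ^ w.length) • e := by
      rw [← smul_smul, ← h1, smul_smul, Units.inv_mul, one_smul]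
    rw [Q.Ph_mul ht, Q.Ph_mul ht, ← Matrix.mulVec_mulVec, ← Matrix.mulVec_mulVec, hc,
      Matrix.mulVec_smul, h2, Matrix.mulVec_smul, Matrix.mulVec_smul, hve, smul_zero, smul_zero]
  refine ⟨y, hy, (w₀.reverse.map (· + 3)) ++ w, ?_, ?_, ?_⟩
  · rw [hlen, hit_len hw]
    omega
  · rw [hγ]
    exact hg_kill hD ht _ him
  · have h6 : rt ((w₀.reverse.map (· + 3)) ++ w) (hat n y) =
        ((5 : ℝ) ^ (w₀.length + w.length))⁻¹ •
          (cz (qw w * star (qw w₀)) * imq (yh y : E 3) * star (cz (qw w * star (qw w₀)))) := by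
      unfold rt
      rw [hγ, hlen, hyh y hy, one_div]
    rw [h6, ← hg_inner R hR w w₀ (yh y) x₀]
    refine le_trans ?_ (hyw.trans (k2_le N hN _ _).2)
    rw [div_le_div_iff₀ (by positivity) (by positivity)]
    have h1 : (1 : ℝ) ≤ D.totient := by exact_mod_cast hphi
    nlinarith

end Pool.Agent.H978V
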