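import Pool.Agent.H978V.SDefs
import Pool.Agent.Helper557.Rz.M_act

/-!
Facts about `lam` and the threshold `l0 δ` (MP_06cce2_nt).
-/

set_option autoImplicit false

open MeasureTheory Set
open scoped Quaternion

namespace Pool.Agent.H978V.Q

open Pool.Agent.H978V Pool.Agent.Helper557.Rz

private lemma lamS_rec (x : ℝ) (n : ℕ) : lam x (n + 3) = x * lam x (n + 2) - 5 * lam x (n + 1) := rfl

private lemma lamS_neg (x : ℝ) : ∀ l : ℕ, lam (-x) l = (-1) ^ l * lam x l ∧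
    lam (-x) (l + 1) = (-1) ^ (l + 1) * lam x (l + 1) ∧
    lam (-x) (l + 2) = (-1) ^ (l + 2) * lam x (l + 2) := by
  intro l
  induction l with
  | zero =>
    refine ⟨by simp [lam], by simp [lam], by simp [lam]⟩
  | succ l ih =>
    refine ⟨ih.2.1, ih.2.2, ?_⟩
    rw [show l + 1 + 2 = l + 3 from rfl, lamS_rec, lamS_rec, ih.2.2, ih.2.1]
    ring

private lemma lamS_abs (x : ℝ) (l : ℕ) : |lam x l| = |lam |x| l| := by
  rcases le_total 0 x with h | h
  · rw [abs_of_nonneg h]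
  · rw [abs_of_nonpos h, (lamS_neg x l).1, abs_mul, abs_pow]
    simp

private lemma lamS_a0 (δ : ℝ) (hδ : 0 < δ) : Real.sqrt 5 < (5 : ℝ) ^ (5 / 6 + δ) := by
  rw [Real.sqrt_eq_rpow]
  exact Real.rpow_lt_rpow_of_exponent_lt (by norm_num) (by linarith)

private lemma lamS_div (δ : ℝ) : 5 / (5 : ℝ) ^ (5 / 6 + δ) = (5 : ℝ) ^ (1 / 6 - δ) := by
  have h : (5 : ℝ) ^ (1 / 6 - δ) = (5 : ℝ) ^ (1 - (5 / 6 + δ)) := by
    congr 1
    ring
  rw [h, Real.rpow_sub (by norm_num), Real.rpow_one]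

private lemma lamS_six : ∀ n : ℕ, lam 6 (n + 1) = 6 * 5 ^ n ∧ lam 6 (n + 2) = 6 * 5 ^ (n + 1) := by
  intro n
  induction n with
  | zero => constructor <;> norm_num [lam]
  | succ n ih =>
    refine ⟨ih.2, ?_⟩
    rw [show n + 1 + 2 = n + 3 from rfl, lamS_rec, ih.2, ih.1]
    ring

private noncomputable def lamS_pp (α β : ℂ) : ℕ → ℂ
  | 0 => 1
  | (n + 1) => α * lamS_pp α β n + β ^ (n + 1)

private lemma lamS_pp_rec (α β : ℂ) (n : ℕ) :
    lamS_pp α β (n + 2) = (α + β) * lamS_pp α β (n + 1) - α * β * lamS_pp α β n := by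
  have h1 : lamS_pp α β (n + 2) = α * lamS_pp α β (n + 1) + β ^ (n + 2) := rfl
  have h2 : lamS_pp α β (n + 1) = α * lamS_pp α β n + β ^ (n + 1) := rfl
  rw [h1, h2]
  ring

private lemma lamS_pp_norm (α β : ℂ) (a : ℝ) (hα : ‖α‖ ≤ a) (hβ : ‖β‖ ≤ a) (n : ℕ) :
    ‖lamS_pp α β n‖ ≤ (n + 1) * a ^ n := by
  have ha : 0 ≤ a := (norm_nonneg α).trans hα
  induction n with
  | zero => simp [lamS_pp]
  | succ n ih =>
    have h2 : lamS_pp α β (n + 1) = α * lamS_pp α β n + β ^ (n + 1) := rfl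
    rw [h2]
    calc ‖α * lamS_pp α β n + β ^ (n + 1)‖ ≤ ‖α‖ * ‖lamS_pp α β n‖ + ‖β‖ ^ (n + 1) := by
          refine (norm_add_le _ _).trans ?_
          rw [norm_mul, norm_pow]
      _ ≤ a * ((n + 1) * a ^ n) + a ^ (n + 1) :=
          add_le_add (mul_le_mul hα ih (norm_nonneg _) ha) (pow_le_pow_left₀ (norm_nonneg _) hβ _)
      _ = ((n + 1 : ℕ) + 1) * a ^ (n + 1) := by push_cast; ring

private lemma lamS_pp_lam (α β : ℂ) (x : ℝ) (hs : α + β = x) (hp : α * β = 5) : ∀ n : ℕ,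
    ((lam x (n + 1) : ℝ) : ℂ) = lamS_pp α β (n + 1) - (if n = 0 then 0 else lamS_pp α β (n - 1)) ∧
    ((lam x (n + 2) : ℝ) : ℂ) = lamS_pp α β (n + 2) - lamS_pp α β n := by
  intro n
  have e1 : lamS_pp α β 1 = x := by
    rw [← hs]
    simp [lamS_pp]
  have e0 : lamS_pp α β 0 = 1 := rfl
  induction n with
  | zero =>
    constructor
    · simp [lam, e1]
    · rw [lamS_pp_rec, hs, hp, e0]
      simp only [zero_add, e1]
      simp [lam]
      ring
  | succ n ih =>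
    refine ⟨by simpa using ih.2, ?_⟩
    rw [show n + 1 + 2 = n + 3 from rfl, lamS_rec]
    push_cast
    rw [ih.2, ih.1, show n + 3 = (n + 1) + 2 from rfl, lamS_pp_rec α β (n + 1), hs, hp]
    rcases n with _ | n
    · simp only [zero_add, e1, e0, if_true, sub_zero]
      ring
    · rw [lamS_pp_rec α β (n + 1), lamS_pp_rec α β n, hs, hp]
      simp only [Nat.add_eq_zero_iff, one_ne_zero, and_false, if_false, Nat.add_sub_cancel]
      ring

private lemma lamS_bound (α β : ℂ) (x : ℝ) (hs : α + β = x) (hp : α * β = 5) (a : ℝ) (ha : 1 ≤ a)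
    (hα : ‖α‖ ≤ a) (hβ : ‖β‖ ≤ a) (l : ℕ) : |lam x l| ≤ 2 * (l + 1) * a ^ l := by
  rcases l with _ | _ | n
  · norm_num [lam]
  · have h1 : |x| ≤ 2 * a := by
      have : ‖(x : ℂ)‖ ≤ 2 * a := by
        rw [← hs]
        refine (norm_add_le _ _).trans ?_
        linarith
      simpa using this
    simp only [lam]
    push_cast
    simp only [zero_add, pow_one]
    linarith
  · have h1 : |lam x (n + 2)| = ‖((lam x (n + 2) : ℝ) : ℂ)‖ := by simp
    rw [h1, (lamS_pp_lam α β x hs hp n).2]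
    refine (norm_sub_le _ _).trans ?_
    have h2 := lamS_pp_norm α β a hα hβ (n + 2)
    have h3 := lamS_pp_norm α β a hα hβ n
    have h4 : a ^ n ≤ a ^ (n + 2) := pow_le_pow_right₀ ha (by omega)
    have h5 : (n + 1 : ℝ) * a ^ n ≤ (n + 1) * a ^ (n + 2) := by gcongr
    have h6 : 0 < a ^ (n + 2) := by positivity
    push_cast at h2 ⊢
    nlinarith

/-- TARGET 1 -/
theorem lam_sq_lower (δ : ℝ) (hδ : 0 < δ) (hδ6 : δ < 1 / 6) (lm : ℝ) (h1 : l0 δ ≤ |lm|) (h2 : |lm| ≤ 6) (l : ℕ) (hl : 1 ≤ l) :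
    (5 : ℝ) ^ (2 * (5 / 6 + δ) * l) ≤ (lam lm l) ^ 2 := by
  have h3 : ((5 : ℝ) ^ (5 / 6 + δ)) ^ l ≤ lam |lm| l := by
    refine lam_lower _ (lamS_a0 δ hδ) ?_ |lm| ?_ h2 l hl
    · calc (5 : ℝ) ^ (5 / 6 + δ) < (5 : ℝ) ^ (1 : ℝ) :=
          Real.rpow_lt_rpow_of_exponent_lt (by norm_num) (by linarith)
        _ = 5 := Real.rpow_one 5
    · rw [lamS_div]
      exact h1
  have h4 : (lam lm l) ^ 2 = (lam |lm| l) ^ 2 := by
    rw [← sq_abs, lamS_abs, sq_abs]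
  rw [h4]
  calc (5 : ℝ) ^ (2 * (5 / 6 + δ) * l) = (((5 : ℝ) ^ (5 / 6 + δ)) ^ l) ^ 2 := by
        rw [← Real.rpow_natCast, ← Real.rpow_natCast, ← Real.rpow_mul (by positivity),
          ← Real.rpow_mul (by positivity)]
        congr 1
        push_cast
        ring
    _ ≤ _ := pow_le_pow_left₀ (by positivity) h3 2

/-- TARGET 2 -/
theorem lam_le (lm : ℝ) (h : |lm| ≤ 6) (l : ℕ) (hl : 1 ≤ l) : |lam lm l| ≤ 6 * 5 ^ (l - 1) := by
  obtain ⟨h5, h6⟩ := abs_le.1 h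
  set θ : ℝ := Real.arccos (lm / 6) with hθ
  have hc : Real.cos θ = lm / 6 := Real.cos_arccos (by linarith) (by linarith)
  let sg : Fin 6 → ℝ := ![θ, θ, θ, -θ, -θ, -θ]
  let t : Fin 6 → ℝ → ℝ := fun a s => s + sg a
  have ht : ∀ a x, t (a + 3) (t a x) = x := by
    intro a x
    fin_cases a <;> simp [t, sg]
  let act : List (Fin 6) → ℝ → ℝ := fun w x => w.foldl (fun y a => t a y) x
  have hψ : ∀ x, ∑ a, Real.cos (t a x) = lm * Real.cos x := by
    intro x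
    simp only [Fin.sum_univ_six, t, sg]
    simp only [Matrix.cons_val]
    rw [Real.cos_add, ← sub_eq_add_neg, Real.cos_sub, hc]
    ring
  have hw := word_eigen t ht act (fun _ => rfl) (fun _ _ _ => rfl) Real.cos lm hψ l 0
  have hw1 := word_eigen t ht act (fun _ => rfl) (fun _ _ _ => rfl) (fun _ => (1 : ℝ)) 6
    (fun x => by norm_num [Fin.sum_univ_six]) l 0
  rw [Real.cos_zero, mul_one] at hw
  rw [mul_one] at hw1
  obtain ⟨n, rfl⟩ : ∃ n, l = n + 1 := ⟨l - 1, by omega⟩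
  rw [(lamS_six n).1] at hw1
  rw [← hw, Nat.add_sub_cancel, ← hw1]
  refine (Finset.abs_sum_le_sum_abs _ _).trans (Finset.sum_le_sum fun w _ => ?_)
  exact Real.abs_cos_le_one _

/-- TARGET 3 -/
theorem lam_upper (δ : ℝ) (hδ : 0 < δ) (lm : ℝ) (h : |lm| ≤ l0 δ) (l : ℕ) :
    |lam lm l| ≤ 2 * (l + 1) * ((5 : ℝ) ^ (5 / 6 + δ)) ^ l := by
  have h0 : |lm| ≤ (5 : ℝ) ^ (5 / 6 + δ) + 5 / (5 : ℝ) ^ (5 / 6 + δ) := by
    rw [lamS_div]
    exact h
  have h5 := lamS_a0 δ hδ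
  set a : ℝ := (5 : ℝ) ^ (5 / 6 + δ) with ha
  have hs5 : 0 < Real.sqrt 5 := Real.sqrt_pos.2 (by norm_num)
  have hsq := Real.sq_sqrt (show (0:ℝ) ≤ 5 by norm_num)
  have ha0 : 0 < a := hs5.trans h5
  have ha5 : 5 < a ^ 2 := by nlinarith
  have ha1 : 1 ≤ a := by nlinarith
  rw [lamS_abs]
  set y : ℝ := |lm| with hy
  have hy0 : 0 ≤ y := abs_nonneg _
  rcases le_total (y ^ 2) 20 with hc | hc
  · set r := Real.sqrt (20 - y ^ 2) with hr
    have hr2 : r ^ 2 = 20 - y ^ 2 := Real.sq_sqrt (by linarith)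
    have hI : (Complex.I : ℂ) ^ 2 = -1 := Complex.I_sq
    have hr2' : (r : ℂ) ^ 2 = 20 - (y : ℂ) ^ 2 := by exact_mod_cast congrArg (fun z : ℝ => (z : ℂ)) hr2
    have hnorm : ∀ s : ℝ, s ^ 2 = 20 - y ^ 2 → ‖((y / 2 : ℝ) : ℂ) + ((s / 2 : ℝ) : ℂ) * Complex.I‖ ≤ a := by
      intro s hs
      have e : ‖((y / 2 : ℝ) : ℂ) + ((s / 2 : ℝ) : ℂ) * Complex.I‖ ^ 2 = 5 := by
        rw [← Complex.normSq_eq_norm_sq, Complex.normSq_add_mul_I]
        nlinarith
      by_contra hcon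
      push Not at hcon
      nlinarith [norm_nonneg (((y / 2 : ℝ) : ℂ) + ((s / 2 : ℝ) : ℂ) * Complex.I)]
    refine lamS_bound (((y / 2 : ℝ) : ℂ) + ((r / 2 : ℝ) : ℂ) * Complex.I)
      (((y / 2 : ℝ) : ℂ) + ((-r / 2 : ℝ) : ℂ) * Complex.I) y ?_ ?_ a ha1 (hnorm r hr2)
      (hnorm (-r) (by rw [neg_sq]; exact hr2)) l
    · push_cast
      ring
    · push_cast
      linear_combination (-(r : ℂ) ^ 2 / 4) * hI + (1 / 4) * hr2'
  · set r := Real.sqrt (y ^ 2 - 20) with hr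
    have hr2 : r ^ 2 = y ^ 2 - 20 := Real.sq_sqrt (by linarith)
    have hr0 : 0 ≤ r := Real.sqrt_nonneg _
    have hry : r ≤ y := by
      by_contra hcon
      push Not at hcon
      nlinarith
    have h6 : y * a ≤ a ^ 2 + 5 := by
      have : y * a ≤ (a + 5 / a) * a := mul_le_mul_of_nonneg_right h0 ha0.le
      rw [add_mul, div_mul_cancel₀ _ ha0.ne'] at this
      nlinarith
    have hα : (y + r) / 2 ≤ a := by
      by_contra hcon
      push Not at hcon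
      -- (a - α)(a - β) = a² - y a + 5 ≥ 0, α > a, so β ≥ a, αβ > a² > 5
      have e : (a - (y + r) / 2) * (a - (y - r) / 2) = a ^ 2 - y * a + 5 := by
        nlinarith
      have e1 : 0 ≤ (a - (y + r) / 2) * (a - (y - r) / 2) := by rw [e]; linarith
      have e2 : a ≤ (y - r) / 2 := by
        by_contra hcon2
        push Not at hcon2
        nlinarith [mul_pos (show 0 < (y + r) / 2 - a by linarith) (show 0 < a - (y - r) / 2 by linarith)]
      have e3 : a * a ≤ (y + r) / 2 * ((y - r) / 2) := mul_le_mul hcon.le e2 ha0.le (by linarith)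
      nlinarith
    refine lamS_bound (((y + r) / 2 : ℝ) : ℂ) (((y - r) / 2 : ℝ) : ℂ) y ?_ ?_ a ha1 ?_ ?_ l
    · push_cast
      ring
    · rw [← Complex.ofReal_mul]
      have : (y + r) / 2 * ((y - r) / 2) = 5 := by nlinarith
      rw [this]
      norm_num
    · rw [Complex.norm_real, Real.norm_of_nonneg (by linarith)]
      exact hα
    · rw [Complex.norm_real, Real.norm_of_nonneg (by linarith)]
      linarith

end Pool.Agent.H978V.Q
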