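import Mathlib

/-!
JOB S9 (owner helper978, MP_06cce2_nt).  Only linear algebra.

PROOF.  As in `top_eig` of `Pool/Agent/Helper557/Rz/M_topeig.lean` (starting file, READ IT): `InnerProductSpace.Core` from `B`, then `LinearMap.IsSymmetric.eigenvectorBasis` and `eigenvalues` (Mathlib).
-/

set_option autoImplicit false

namespace Pool.Agent.H978V.Q

/-- TARGET -/
theorem eig_basis {V : Type} [AddCommGroup V] [Module ℝ V] [FiniteDimensional ℝ V]
    (B : V →ₗ[ℝ] V →ₗ[ℝ] ℝ) (hs : ∀ x y, B x y = B y x) (hp : ∀ x, x ≠ 0 → 0 < B x x)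
    (T : V →ₗ[ℝ] V) (hT : ∀ x y, B (T x) y = B x (T y)) :
    ∃ (n : ℕ) (b : Fin n → V) (μ : Fin n → ℝ), (∀ i j, B (b i) (b j) = if i = j then 1 else 0) ∧
      (∀ i, T (b i) = μ i • b i) ∧ ∀ x, x = ∑ i, B x (b i) • b i := by
  classical
  let core : InnerProductSpace.Core ℝ V :=
    { inner := fun x y => B x y
      conj_inner_symm := fun x y => by simpa using hs y x
      re_inner_nonneg := fun x => by
        by_cases hx : x = 0
        · simp [hx]
        · simpa using (hp x hx).le
      add_left := fun x y z => by simp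
      smul_left := fun x y r => by simp
      definite := fun x hx => by
        by_contra h
        exact absurd hx (hp x h).ne' }
  let _i : NormedAddCommGroup V := core.toNormedAddCommGroup
  let _i : InnerProductSpace ℝ V := InnerProductSpace.ofCore core.toCore
  have hin : ∀ x y : V, inner ℝ x y = B x y := fun x y => rfl
  have hsym : T.IsSymmetric := fun x y => hT x y
  let b := hsym.eigenvectorBasis rfl
  refine ⟨Module.finrank ℝ V, fun i => b i, fun i => hsym.eigenvalues rfl i, ?_, ?_, ?_⟩
  · intro i j
    have h := (orthonormal_iff_ite.mp b.orthonormal) i j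
    rw [← hin]
    exact h
  · intro i
    exact hsym.apply_eigenvectorBasis rfl i
  · intro x
    have h := b.sum_repr' x
    refine h.symm.trans (Finset.sum_congr rfl fun i _ => ?_)
    rw [hin, hs]

end Pool.Agent.H978V.Q
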