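import Pool.Agent.H978V.SDefs
import Pool.Agent.H978V.S0
import Pool.Agent.H978V.S9

/-!
JOB S10 (owner helper978, MP_06cce2_nt).  `H978V/*.lean` (library, with `SDefs`, `Q/*.lean`) is on origin/main.

The spectral estimate on the finite-dimensional stable spaces `G9.VN D L` (admissible, total integral zero, values in the range of `L`; `Q/G9.lean`, READ the proof of `VN_bound`).

PROOF.  `V = G9.VN D L` is finite-dimensional (`VN_fd`) and stable (`VN_stab`).  `eig_basis` for `B = (G9.B D).compl₁₂ V.subtype V.subtype` and `(G9.TL R t).restrict _` (as in `VN_bound`): `b_k ∈ V` orthonormal for `ip`, `TF R t b_k = μ_k • b_k`.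
`μ_k ≤ l₁` (`hgap` for `b_k`, `ip b_k b_k = 1`), `μ_k ≥ -6` (`ip (TF F) F ≥ -6 ip F F`, as `TF_le`), so `|μ_k| ≤ 6`.
`PW R t i₀ i b_k = (6 + μ_k)^i₀ * lam μ_k i • b_k` (`mxL R t F = 6 • F + TF R t F`: `mxL_apply`, `mx_TF` in `Q/G10.lean`; `tp_eigen` in `Q/G3.lean` for the sum over `RW i`; `actw R t w F = fun u => cr (R (uw w)) (F ((Ph t (qw w)).mulVec u))`).  `PW` is additive and homogeneous.
`F = ∑ f_k b_k`, `f_k = ip F b_k`, `G = ∑ g_k b_k`; `ip (PW F) G = ∑_k p_k f_k g_k`, `p_k = (6+μ_k)^i₀ lam μ_k i`.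
For `|μ_k| < l0 δ`: `|p_k| ≤ 12^i₀ · 2 (i+1) (5^(5/6+δ))^i` (`lam_upper`), and `∑ |f_k g_k| ≤ √(∑ f_k²) √(∑ g_k²) ≤ √(ip F F) √(ip G G)`.
For `|μ_k| ≥ l0 δ`: `|p_k| ≤ (6 + l₁)^i₀ · 6 · 5^(i-1)` (`lam_le`; `0 ≤ 6 + μ_k ≤ 6 + l₁`); `H = ∑_{bad} f_k b_k ∈ BigS`, `tot H = 0`, `ip F H = ∑_{bad} f_k² = ip H H ≤ a √(ip H H)`, so `√(∑_{bad} f_k²) ≤ a`; same for `G` with `b`; Cauchy-Schwarz.
-/

set_option autoImplicit false

open MeasureTheory Set
open scoped Quaternion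

namespace Pool.Agent.H978V.Q

open Pool.Agent.H978V Pool.Agent.Helper557.Rz




section specVN

variable {D : ℕ} [NeZero D] {R : ℍ[ℝ]ˣ →* Iso 3} {t : ZMod D × ZMod D}

/-- the action of a word as a linear map -/
noncomputable def svA (R : ℍ[ℝ]ˣ →* Iso 3) (t : ZMod D × ZMod D) (w : List (Fin 6)) :
    (Vec D → C(S 3, ℝ)) →ₗ[ℝ] (Vec D → C(S 3, ℝ)) where
  toFun := actw R t w
  map_add' _ _ := rfl
  map_smul' _ _ := rfl

/-- the sum over the reduced words as a linear map -/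
noncomputable def svP (R : ℍ[ℝ]ˣ →* Iso 3) (t : ZMod D × ZMod D) (i₀ i : ℕ) :
    (Vec D → C(S 3, ℝ)) →ₗ[ℝ] (Vec D → C(S 3, ℝ)) :=
  (∑ w ∈ RW i, svA R t w) ∘ₗ (mxL R t ^ i₀)

lemma svP_apply (i₀ i : ℕ) (F : Vec D → C(S 3, ℝ)) : svP R t i₀ i F = PW R t i₀ i F := by
  unfold svP PW
  rw [LinearMap.comp_apply, LinearMap.sum_apply]
  rfl

lemma sv_mxL {F : Vec D → C(S 3, ℝ)} {m : ℝ} (h : TF R t F = m • F) (i : ℕ) :
    (mxL R t ^ i) F = (6 + m) ^ i • F := by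
  induction i with
  | zero => simp
  | succ i ih =>
    rw [pow_succ', Module.End.mul_apply, ih, map_smul, mxL_apply, ← mx_TF, h, ← add_smul, smul_smul,
      pow_succ]

lemma sv_PW (hR : IsRot R) (h5 : Nat.Coprime D 5) (ht : Sq t) {F : Vec D → C(S 3, ℝ)}
    (hF : AdmF F) {m : ℝ} (h : TF R t F = m • F) (i₀ i : ℕ) :
    PW R t i₀ i F = ((6 + m) ^ i₀ * lam m i) • F := by
  rw [← svP_apply]
  unfold svP
  rw [LinearMap.comp_apply, sv_mxL h, map_smul, mul_smul]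
  congr 1
  rw [LinearMap.sum_apply]
  funext u
  have h1 := tp_eigen R hR h5 ht F hF m (fun u => by rw [h]; rfl) i u
  rw [Pi.smul_apply, ← h1, Finset.sum_apply]
  rfl

lemma sv_ip {n : ℕ} {b : Fin n → Vec D → C(S 3, ℝ)}
    (hb : ∀ i j, ip (b i) (b j) = if i = j then 1 else 0) (s : Finset (Fin n)) (c d : Fin n → ℝ) :
    ip (∑ k, c k • b k) (∑ k ∈ s, d k • b k) = ∑ k ∈ s, c k * d k := by
  rw [mx_ip_sum_right]
  refine Finset.sum_congr rfl fun k _ => ?_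
  rw [mx_ip_smul_right, mx_ip_sum, Finset.sum_eq_single k]
  · rw [mx_ip_smul, hb, if_pos rfl]
    ring
  · intro j _ hj
    rw [mx_ip_smul, hb, if_neg hj, mul_zero]
  · intro h
    exact absurd (Finset.mem_univ _) h

lemma sv_ip2 {n : ℕ} {b : Fin n → Vec D → C(S 3, ℝ)}
    (hb : ∀ i j, ip (b i) (b j) = if i = j then 1 else 0) (s : Finset (Fin n)) (d : Fin n → ℝ) :
    ip (∑ k ∈ s, d k • b k) (∑ k ∈ s, d k • b k) = ∑ k ∈ s, d k * d k := by
  classical
  have h1 : ∑ k ∈ s, d k • b k = ∑ k, (if k ∈ s then d k else 0) • b k := by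
    rw [← Finset.sum_filter_add_sum_filter_not Finset.univ (fun k => k ∈ s)]
    rw [Finset.sum_congr rfl (g := fun k => d k • b k) (s₂ := Finset.univ.filter (fun k => k ∈ s)),
      Finset.sum_eq_zero (s := Finset.univ.filter (fun k => k ∉ s)), add_zero,
      Finset.filter_univ_mem]
    · intro k hk
      rw [if_neg (Finset.mem_filter.1 hk).2, zero_smul]
    · intro k hk
      rw [if_pos (Finset.mem_filter.1 hk).2]
  have h2 := sv_ip hb s (fun k => if k ∈ s then d k else 0) d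
  rw [← h1] at h2
  rw [h2]
  refine Finset.sum_congr rfl fun k hk => ?_
  simp only [hk, if_true]

lemma sv_cs {n : ℕ} (s : Finset (Fin n)) (f g : Fin n → ℝ) :
    ∑ k ∈ s, |f k * g k| ≤ Real.sqrt (∑ k ∈ s, f k * f k) * Real.sqrt (∑ k ∈ s, g k * g k) := by
  have h1 := Finset.sum_mul_sq_le_sq_mul_sq s (fun k => |f k|) (fun k => |g k|)
  simp only [sq_abs] at h1
  have h2 : ∑ k ∈ s, |f k * g k| = ∑ k ∈ s, |f k| * |g k| :=
    Finset.sum_congr rfl fun k _ => abs_mul _ _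
  rw [h2, ← Real.sqrt_mul (Finset.sum_nonneg fun k _ => mul_self_nonneg _)]
  refine Real.le_sqrt_of_sq_le ?_
  simpa only [pow_two] using h1

end specVN

/-- TARGET -/
theorem spec_VN (R : ℍ[ℝ]ˣ →* Iso 3) (hR : IsRot R) (δ : ℝ) (hδ : 0 < δ) (D : ℕ) [NeZero D]
    (h5 : Nat.Coprime D 5) (t : ZMod D × ZMod D) (ht : Sq t) (l₁ : ℝ)
    (hl0 : 0 ≤ l₁) (hl6 : l₁ < 6)
    (hgap : ∀ F : Vec D → C(S 3, ℝ), AdmF F → tot F = 0 → ip (TF R t F) F ≤ l₁ * ip F F)
    (L : C(S 3, ℝ) →ₗ[ℝ] C(S 3, ℝ)) (hL2 : FiniteDimensional ℝ (LinearMap.range L))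
    (hL : ∀ (g : Iso 3) ψ, L (cr g ψ) = cr g (L ψ)) (F G : Vec D → C(S 3, ℝ)) (hF : F ∈ G9.VN D L)
    (hG : G ∈ G9.VN D L) (a b : ℝ) (ha : 0 ≤ a) (hb : 0 ≤ b)
    (hFa : ∀ H ∈ BigS R t δ, tot H = 0 → |ip F H| ≤ a * Real.sqrt (ip H H))
    (hGb : ∀ H ∈ BigS R t δ, tot H = 0 → |ip G H| ≤ b * Real.sqrt (ip H H))
    (i₀ i : ℕ) (hi : 1 ≤ i) :
    |ip (PW R t i₀ i F) G| ≤ (6 + l₁) ^ i₀ * (6 * 5 ^ (i - 1)) * (a * b) +
      12 ^ i₀ * (2 * (i + 1) * ((5 : ℝ) ^ (5 / 6 + δ)) ^ i) * (Real.sqrt (ip F F) * Real.sqrt (ip G G)) := by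
  classical
  have hfd := G9.VN_fd (e := D) L hL2
  have hTV : ∀ G ∈ G9.VN D L, G9.TL R t G ∈ G9.VN D L := fun G hG => G9.VN_stab R h5 ht L hL hG
  obtain ⟨n, bb, μ, horth, heig, hexp⟩ := eig_basis
    ((G9.B D).compl₁₂ (G9.VN D L).subtype (G9.VN D L).subtype)
    (fun x y => G9.ip_comm _ _)
    (fun x hx => G9.ip_pos (F := (x : Vec D → C(S 3, ℝ))) (by simpa using hx))
    ((G9.TL R t).restrict hTV)
    (fun x y => G9.TF_sym R hR h5 ht (F := (x : Vec D → C(S 3, ℝ))) y.2.1)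
  set e : Fin n → Vec D → C(S 3, ℝ) := fun k => (bb k : Vec D → C(S 3, ℝ)) with he
  have he_orth : ∀ i j, ip (e i) (e j) = if i = j then 1 else 0 := fun i j => horth i j
  have he_eig : ∀ k, TF R t (e k) = μ k • e k := fun k => congrArg Subtype.val (heig k)
  have he_exp : ∀ H ∈ G9.VN D L, H = ∑ k, ip H (e k) • e k := by
    intro H hH
    have h1 := congrArg Subtype.val (hexp ⟨H, hH⟩)
    rw [Submodule.coe_sum] at h1
    exact h1
  have he_adm : ∀ k, AdmF (e k) := fun k => (bb k).2.1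
  have he_tot : ∀ k, tot (e k) = 0 := fun k => (bb k).2.2.1
  have he_one : ∀ k, ip (e k) (e k) = 1 := fun k => by rw [he_orth, if_pos rfl]
  -- the eigenvalues
  have hμ1 : ∀ k, μ k ≤ l₁ := by
    intro k
    have h1 := hgap (e k) (he_adm k) (he_tot k)
    rw [he_eig, mx_ip_smul, he_one, mul_one, mul_one] at h1
    exact h1
  have hμ0 : ∀ k, 0 ≤ 6 + μ k := by
    intro k
    have h1 := mxL_nonneg (R := R) ht h5 (e k)
    rw [mxL_apply, ← mx_TF, he_eig, ← add_smul, mx_ip_smul, he_one, mul_one] at h1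
    exact h1
  have hμ6 : ∀ k, |μ k| ≤ 6 := fun k => abs_le.2 ⟨by linarith [hμ0 k], by linarith [hμ1 k]⟩
  set f : Fin n → ℝ := fun k => ip F (e k) with hf
  set g : Fin n → ℝ := fun k => ip G (e k) with hg
  have hFe : F = ∑ k, f k • e k := he_exp F hF
  have hGe : G = ∑ k, g k • e k := he_exp G hG
  set p : Fin n → ℝ := fun k => (6 + μ k) ^ i₀ * lam (μ k) i with hp
  -- the form
  have hform : ip (PW R t i₀ i F) G = ∑ k, p k * f k * g k := by
    have h1 : PW R t i₀ i F = ∑ k, (p k * f k) • e k := by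
      rw [← svP_apply]
      conv_lhs => rw [hFe]
      rw [map_sum]
      refine Finset.sum_congr rfl fun k _ => ?_
      rw [map_smul, svP_apply, sv_PW hR h5 ht (he_adm k) (he_eig k), smul_smul, mul_comm (f k)]
    rw [h1]
    conv_lhs => rw [hGe]
    exact sv_ip he_orth Finset.univ _ _
  have hFF : ip F F = ∑ k, f k * f k := by
    conv_lhs => rw [hFe]
    exact sv_ip he_orth Finset.univ _ _
  have hGG : ip G G = ∑ k, g k * g k := by
    conv_lhs => rw [hGe]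
    exact sv_ip he_orth Finset.univ _ _
  -- bad and good indices
  set bad : Finset (Fin n) := Finset.univ.filter (fun k => l0 δ ≤ |μ k|) with hbad
  have hbig : ∀ d : Fin n → ℝ, ∑ k ∈ bad, d k • e k ∈ BigS R t δ := by
    intro d
    refine Submodule.sum_mem _ fun k hk => Submodule.smul_mem _ _ (Submodule.subset_span ?_)
    exact ⟨he_adm k, μ k, (Finset.mem_filter.1 hk).2, hμ6 k, fun u => by rw [he_eig]; rfl⟩
  have htot0 : ∀ d : Fin n → ℝ, tot (∑ k ∈ bad, d k • e k) = 0 := by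
    intro d
    have h1 : ∀ s : Finset (Fin n), tot (∑ k ∈ s, d k • e k) = 0 := by
      intro s
      induction s using Finset.induction_on with
      | empty =>
        have : (0 : Vec D → C(S 3, ℝ)) = (0 : ℝ) • (0 : Vec D → C(S 3, ℝ)) := by simp
        rw [Finset.sum_empty, this, mx_tot_smul, zero_mul]
      | insert a s ha ih =>
        rw [Finset.sum_insert ha, mx_tot_add, ih, mx_tot_smul, he_tot, mul_zero, add_zero]
    exact h1 bad
  have hkey : ∀ (H : Vec D → C(S 3, ℝ)) (c : ℝ) (h : Fin n → ℝ), 0 ≤ c → H = ∑ k, h k • e k →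
      (∀ K ∈ BigS R t δ, tot K = 0 → |ip H K| ≤ c * Real.sqrt (ip K K)) →
      Real.sqrt (∑ k ∈ bad, h k * h k) ≤ c := by
    intro H c h hc hH hK
    have h1 := hK _ (hbig h) (htot0 h)
    have h2 : ip H (∑ k ∈ bad, h k • e k) = ∑ k ∈ bad, h k * h k := by
      conv_lhs => rw [hH]
      exact sv_ip he_orth bad _ _
    rw [h2, sv_ip2 he_orth] at h1
    set S := ∑ k ∈ bad, h k * h k with hS
    have hS0 : 0 ≤ S := Finset.sum_nonneg fun k _ => mul_self_nonneg _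
    rw [abs_of_nonneg hS0] at h1
    by_contra hcon
    push Not at hcon
    have h3 : 0 < Real.sqrt S := hc.trans_lt hcon
    have h4 : Real.sqrt S * Real.sqrt S = S := Real.mul_self_sqrt hS0
    nlinarith
  have hfa := hkey F a f ha hFe hFa
  have hgb := hkey G b g hb hGe hGb
  -- the two parts
  have hC1 : 0 ≤ (6 + l₁) ^ i₀ * (6 * 5 ^ (i - 1)) := by positivity
  have hC2 : 0 ≤ 12 ^ i₀ * (2 * (i + 1) * ((5 : ℝ) ^ (5 / 6 + δ)) ^ i) := by positivity
  have hpb : ∀ k ∈ bad, |p k * f k * g k| ≤ (6 + l₁) ^ i₀ * (6 * 5 ^ (i - 1)) * |f k * g k| := by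
    intro k _
    rw [mul_assoc, abs_mul]
    refine mul_le_mul_of_nonneg_right ?_ (abs_nonneg _)
    rw [hp]
    simp only
    rw [abs_mul, abs_pow, abs_of_nonneg (hμ0 k)]
    refine mul_le_mul (pow_le_pow_left₀ (hμ0 k) (by linarith [hμ1 k]) _)
      (lam_le (μ k) (hμ6 k) i hi) (abs_nonneg _) (by positivity)
  have hpg : ∀ k ∈ Finset.univ.filter (fun k => ¬ l0 δ ≤ |μ k|), |p k * f k * g k| ≤
      12 ^ i₀ * (2 * (i + 1) * ((5 : ℝ) ^ (5 / 6 + δ)) ^ i) * |f k * g k| := by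
    intro k hk
    have hk' := (not_le.1 (Finset.mem_filter.1 hk).2).le
    rw [mul_assoc (p k), abs_mul]
    refine mul_le_mul_of_nonneg_right ?_ (abs_nonneg _)
    rw [hp]
    simp only
    rw [abs_mul, abs_pow, abs_of_nonneg (hμ0 k)]
    refine mul_le_mul (pow_le_pow_left₀ (hμ0 k) (by linarith [hμ1 k]) _)
      (lam_upper δ hδ (μ k) hk' i) (abs_nonneg _) (by positivity)
  rw [hform]
  refine (Finset.abs_sum_le_sum_abs _ _).trans ?_
  rw [← Finset.sum_filter_add_sum_filter_not Finset.univ (fun k => l0 δ ≤ |μ k|)]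
  refine add_le_add ?_ ?_
  · refine (Finset.sum_le_sum hpb).trans ?_
    rw [← Finset.mul_sum]
    refine mul_le_mul_of_nonneg_left ?_ hC1
    refine (sv_cs bad f g).trans ?_
    exact mul_le_mul hfa hgb (Real.sqrt_nonneg _) ha
  · refine (Finset.sum_le_sum hpg).trans ?_
    rw [← Finset.mul_sum]
    refine mul_le_mul_of_nonneg_left ?_ hC2
    refine (sv_cs _ f g).trans ?_
    rw [hFF, hGG]
    refine mul_le_mul (Real.sqrt_le_sqrt ?_) (Real.sqrt_le_sqrt ?_) (Real.sqrt_nonneg _)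
      (Real.sqrt_nonneg _)
    · exact Finset.sum_le_sum_of_subset_of_nonneg (Finset.subset_univ _)
        fun k _ _ => mul_self_nonneg _
    · exact Finset.sum_le_sum_of_subset_of_nonneg (Finset.subset_univ _)
        fun k _ _ => mul_self_nonneg _

end Pool.Agent.H978V.Q
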