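import Pool.Agent.H978V.SDefs

/-!
JOB S11 (owner helper978, MP_06cce2_nt).  `H978V/*.lean` (library, with `SDefs`, `Q/*.lean`) is on origin/main.

Words and the operator `PW R t i₀ i F = ∑ w ∈ RW i, actw R t w ((mxL R t ^ i₀) F)`.  READ `H978V/Q/G10.lean` (`mx_words`, `mxU_pow`, `mxL_tot`, `mx_actw`, ..).

PROOF.  (1) As `mx_words`, by induction on `i₀`, for all `F` (`mxL R t ^ (i₀+1) F = mxL R t ^ i₀ (mxL R t F)`, `mxL R t F = 6 • F + ∑ a, mxg R t a F`, `actw R t w (mxg R t a F) = actw R t (w ++ [a]) F`); for `i₀ = 0`: the sum over `RW i` of numbers `< c`; `|RW i| = 6 * 5^(i-1)` for `i ≥ 1` (in the library `Helper557/Rz`; words in `RW i` have length `i`).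
(2) `tot (actw R t w F) = tot F` (as `mxg_tot`; the map `u ↦ Ph t (qw w) u` is a bijection since `qw w * star (qw w) = 5^l`, `5` a unit) and `tot (mxL F) = 12 tot F`.
(3) `actw R t w (mxU D) = mxU D` (unimodularity is preserved by the gates, `mx_uni`), `mxU_pow`.
(4), (5): `actw` and `mxL R t ^ i₀` are linear; (6): `AdmF` is preserved.
-/

set_option autoImplicit false

open MeasureTheory Set
open scoped Quaternion

namespace Pool.Agent.H978V.Q

open Pool.Agent.H978V Pool.Agent.Helper557.Rz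

section pwaux

variable {D : ℕ} [NeZero D] {R : ℍ[ℝ]ˣ →* Iso 3} {t : ZMod D × ZMod D}

lemma pw_card (l : ℕ) : (RW (l + 1)).card = 6 * 5 ^ l := by
  have hcount : ∀ (l : ℕ) (c : ℕ), (∀ v ∈ RW l,
      (Finset.univ.filter (fun a : Fin 6 => v.head? ≠ some (a + 3))).card = c) →
      (RW (l + 1)).card = c * (RW l).card := by
    intro l c hc
    show (((Finset.univ ×ˢ RW l).filter
      (fun p : Fin 6 × List (Fin 6) => p.2.head? ≠ some (p.1 + 3))).image
        (fun p => p.1 :: p.2)).card = _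
    rw [Finset.card_image_of_injective, Finset.card_filter, Finset.sum_product_right]
    · simp only
      rw [Finset.sum_congr rfl (g := fun _ => c)]
      · rw [Finset.sum_const, smul_eq_mul, mul_comm]
      · intro v hv
        rw [← Finset.card_filter]
        exact hc v hv
    · rintro ⟨a, v⟩ ⟨b, w⟩ h
      simpa using h
  induction l with
  | zero =>
    rw [hcount 0 6]
    · rfl
    · intro v hv
      have : v = [] := by simpa [RW] using hv
      subst this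
      decide
  | succ l ih =>
    rw [hcount (l + 1) 5, ih]
    · rw [pow_succ]
      ring
    · intro v hv
      obtain ⟨b, v', rfl, -, -⟩ := j9340_cases l v hv
      rw [List.head?_cons]
      have key : ∀ b : Fin 6, (Finset.univ.filter
          (fun a : Fin 6 => some b ≠ some (a + 3))).card = 5 := by decide
      exact key b

lemma pw_cardR (i : ℕ) (hi : 1 ≤ i) : ((RW i).card : ℝ) = 6 * 5 ^ (i - 1) := by
  obtain ⟨l, rfl⟩ : ∃ l, i = l + 1 := ⟨i - 1, by omega⟩
  rw [pw_card]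
  push_cast
  simp

lemma pw_len (i : ℕ) : ∀ w ∈ RW i, w.length = i := by
  intro w hw
  induction i generalizing w with
  | zero =>
    have : w = [] := by simpa [RW] using hw
    subst this
    rfl
  | succ i ih =>
    obtain ⟨b, v', rfl, h, -⟩ := j9340_cases i w hw
    rw [List.length_cons, ih v' h]

/-- the action of a word as a linear map -/
noncomputable def pwl (R : ℍ[ℝ]ˣ →* Iso 3) (t : ZMod D × ZMod D) (w : List (Fin 6)) :
    (Vec D → C(S 3, ℝ)) →ₗ[ℝ] (Vec D → C(S 3, ℝ)) where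
  toFun F := actw R t w F
  map_add' _ _ := rfl
  map_smul' _ _ := rfl

lemma pwl_apply (w : List (Fin 6)) (F : Vec D → C(S 3, ℝ)) : pwl R t w F = actw R t w F := rfl

lemma PW_eq (i₀ i : ℕ) (F : Vec D → C(S 3, ℝ)) :
    PW R t i₀ i F = (∑ w ∈ RW i, pwl R t w) ((mxL R t ^ i₀) F) := by
  unfold PW
  rw [LinearMap.sum_apply]
  rfl

/-- `PW` as a linear map -/
noncomputable def pwL (R : ℍ[ℝ]ˣ →* Iso 3) (t : ZMod D × ZMod D) (i₀ i : ℕ) :
    (Vec D → C(S 3, ℝ)) →ₗ[ℝ] (Vec D → C(S 3, ℝ)) :=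
  (∑ w ∈ RW i, pwl R t w) ∘ₗ (mxL R t ^ i₀)

lemma PW_eq' (i₀ i : ℕ) (F : Vec D → C(S 3, ℝ)) : PW R t i₀ i F = pwL R t i₀ i F := PW_eq i₀ i F

lemma pw_cons (ht : Sq t) (a : Fin 6) (w : List (Fin 6)) (F : Vec D → C(S 3, ℝ)) :
    actw R t (a :: w) F = mxg R t a (actw R t w F) := by
  funext v
  rw [mxg_apply]
  unfold actw
  rw [qw, uw, mx_Ph_mul ht, ← Matrix.mulVec_mulVec]
  ext x
  show F _ (rot (R (uw w * ua a)) x) = F _ (rot (R (uw w)) (rot (R (ua a)) x))
  rw [map_mul, rot_mul]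

lemma pw_actw_tot (ht : Sq t) (h5 : Nat.Coprime D 5) (w : List (Fin 6)) (F : Vec D → C(S 3, ℝ)) :
    tot (actw R t w F) = tot F := by
  induction w with
  | nil => rw [mx_actw_nil]
  | cons a w ih => rw [pw_cons ht, mxg_tot ht h5, ih]

lemma pw_actw_adm (ht : Sq t) (w : List (Fin 6)) {F : Vec D → C(S 3, ℝ)} (hF : AdmF F) :
    AdmF (actw R t w F) := by
  induction w with
  | nil => rwa [mx_actw_nil]
  | cons a w ih =>
    rw [pw_cons ht]
    exact mxg_adm a ih

lemma pw_actw_U (ht : Sq t) (h5 : Nat.Coprime D 5) (w : List (Fin 6)) :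
    actw R t w (mxU D) = mxU D := by
  induction w with
  | nil => rw [mx_actw_nil]
  | cons a w ih => rw [pw_cons ht, ih, mxU_gate ht h5]

lemma pw_L_tot (ht : Sq t) (h5 : Nat.Coprime D 5) (i : ℕ) (F : Vec D → C(S 3, ℝ)) :
    tot ((mxL R t ^ i) F) = 12 ^ i * tot F := by
  induction i with
  | zero => simp
  | succ i ih =>
    rw [pow_succ', Module.End.mul_apply, mxL_tot ht h5, ih, pow_succ]
    ring

lemma pw_L_adm (i : ℕ) {F : Vec D → C(S 3, ℝ)} (hF : AdmF F) : AdmF ((mxL R t ^ i) F) := by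
  induction i with
  | zero => simpa using hF
  | succ i ih =>
    rw [pow_succ', Module.End.mul_apply]
    exact mxL_adm ih

lemma pw_tot_sum {ι : Type} (s : Finset ι) (F : ι → Vec D → C(S 3, ℝ)) :
    tot (∑ a ∈ s, F a) = ∑ a ∈ s, tot (F a) := by
  classical
  induction s using Finset.induction_on with
  | empty =>
    have : (0 : Vec D → C(S 3, ℝ)) = (0 : ℝ) • (0 : Vec D → C(S 3, ℝ)) := by simp
    rw [Finset.sum_empty, Finset.sum_empty, this, mx_tot_smul, zero_mul]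
  | insert a s ha ih => rw [Finset.sum_insert ha, Finset.sum_insert ha, mx_tot_add, ih]

lemma pw_cr_cont (g : Iso 3) : Continuous (fun f : C(S 3, ℝ) => cr g f) :=
  ContinuousMap.continuous_precomp _

lemma pw_actw_cont (R : ℍ[ℝ]ˣ →* Iso 3) (t : ZMod D × ZMod D) (w : List (Fin 6)) :
    Continuous (fun F : Vec D → C(S 3, ℝ) => actw R t w F) := by
  refine continuous_pi fun v => ?_
  exact (pw_cr_cont _).comp (continuous_apply _)

lemma pw_g_cont (R : ℍ[ℝ]ˣ →* Iso 3) (t : ZMod D × ZMod D) (a : Fin 6) :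
    Continuous (fun F : Vec D → C(S 3, ℝ) => mxg R t a F) := by
  refine continuous_pi fun v => ?_
  exact (pw_cr_cont _).comp (continuous_apply _)

lemma pw_L_cont (R : ℍ[ℝ]ˣ →* Iso 3) (t : ZMod D × ZMod D) :
    Continuous (fun F : Vec D → C(S 3, ℝ) => mxL R t F) := by
  have : (fun F : Vec D → C(S 3, ℝ) => mxL R t F) =
      fun F => (6 : ℝ) • F + ∑ a : Fin 6, mxg R t a F := by
    funext F
    exact mxL_apply R t F
  rw [this]
  exact (continuous_id.const_smul (6 : ℝ)).add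
    (continuous_finsetSum _ fun a _ => pw_g_cont R t a)

lemma pw_Lpow_cont (R : ℍ[ℝ]ˣ →* Iso 3) (t : ZMod D × ZMod D) (i : ℕ) :
    Continuous (fun F : Vec D → C(S 3, ℝ) => (mxL R t ^ i) F) := by
  induction i with
  | zero =>
    have : (fun F : Vec D → C(S 3, ℝ) => (mxL R t ^ 0) F) = fun F => F := by
      funext F
      rw [pow_zero, Module.End.one_apply]
    rw [this]
    exact continuous_id
  | succ i ih =>
    have : (fun F : Vec D → C(S 3, ℝ) => (mxL R t ^ (i + 1)) F) =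
        (fun F => mxL R t F) ∘ fun F => (mxL R t ^ i) F := by
      funext F
      rw [pow_succ', Module.End.mul_apply]
      rfl
    rw [this]
    exact (pw_L_cont R t).comp ih

end pwaux

/-- TARGET 1 -/
theorem pw_words {D : ℕ} [NeZero D] (R : ℍ[ℝ]ˣ →* Iso 3) (t : ZMod D × ZMod D) (ht : Sq t) (c : ℝ)
    (G : Vec D → C(S 3, ℝ)) (i₀ i : ℕ) (hi : 1 ≤ i) (F : Vec D → C(S 3, ℝ))
    (h : ∀ w : List (Fin 6), w.length ≤ i₀ + i → ip (actw R t w F) G < c) :
    ip (PW R t i₀ i F) G < 12 ^ i₀ * (6 * 5 ^ (i - 1)) * c := by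
  induction i₀ generalizing F with
  | zero =>
    have h1 : ∀ w ∈ RW i, ip (actw R t w F) G < c := fun w hw => h w (by rw [pw_len i w hw]; omega)
    have hne : (RW i).Nonempty := by
      rw [← Finset.card_pos]
      have := pw_cardR i hi
      by_contra hcon
      have h0 : (RW i).card = 0 := by omega
      rw [h0] at this
      have h2 : (0 : ℝ) < 6 * 5 ^ (i - 1) := by positivity
      rw [← this] at h2
      simp at h2
    have h3 := Finset.sum_lt_sum_of_nonempty hne h1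
    rw [Finset.sum_const, nsmul_eq_mul, pw_cardR i hi] at h3
    have h4 : PW R t 0 i F = ∑ w ∈ RW i, actw R t w F := by
      unfold PW
      simp
    rw [h4, mx_ip_sum, pow_zero, one_mul]
    exact h3
  | succ i₀ ih =>
    have e0 : PW R t (i₀ + 1) i F = pwL R t i₀ i (mxL R t F) := by
      rw [PW_eq, pow_succ, Module.End.mul_apply]
      rfl
    rw [e0, mxL_apply, map_add, map_smul, map_sum, mx_ip_add, mx_ip_smul, mx_ip_sum]
    have h1 := ih F fun w hw => h w (by omega)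
    rw [PW_eq'] at h1
    have h2 : ∀ a : Fin 6, ip (pwL R t i₀ i (mxg R t a F)) G < 12 ^ i₀ * (6 * 5 ^ (i - 1)) * c := by
      intro a
      rw [← PW_eq']
      refine ih _ fun w hw => ?_
      rw [mx_actw ht]
      exact h _ (by simp; omega)
    have h3 := Finset.sum_lt_sum_of_nonempty (s := (Finset.univ : Finset (Fin 6)))
      Finset.univ_nonempty fun a _ => h2 a
    rw [Finset.sum_const, Finset.card_univ, Fintype.card_fin, nsmul_eq_mul] at h3
    push_cast at h3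
    rw [pow_succ]
    linarith

/-- TARGET 2 -/
theorem pw_tot {D : ℕ} [NeZero D] (R : ℍ[ℝ]ˣ →* Iso 3) (hR : IsRot R) (h5 : Nat.Coprime D 5)
    (t : ZMod D × ZMod D) (ht : Sq t) (i₀ i : ℕ) (hi : 1 ≤ i) (F : Vec D → C(S 3, ℝ)) (hF : AdmF F) :
    tot (PW R t i₀ i F) = 12 ^ i₀ * (6 * 5 ^ (i - 1)) * tot F := by
  unfold PW
  rw [pw_tot_sum, Finset.sum_congr rfl fun w _ => pw_actw_tot ht h5 w _, Finset.sum_const,
    nsmul_eq_mul, pw_cardR i hi, pw_L_tot ht h5]
  ring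

/-- TARGET 3 -/
theorem pw_U {D : ℕ} [NeZero D] (R : ℍ[ℝ]ˣ →* Iso 3) (h5 : Nat.Coprime D 5)
    (t : ZMod D × ZMod D) (ht : Sq t) (i₀ i : ℕ) (hi : 1 ≤ i) :
    PW R t i₀ i (mxU D) = ((12 : ℝ) ^ i₀ * (6 * 5 ^ (i - 1))) • mxU D := by
  unfold PW
  rw [mxU_pow ht h5]
  have : ∀ w ∈ RW i, actw R t w ((12 : ℝ) ^ i₀ • mxU D) = (12 : ℝ) ^ i₀ • mxU D := by
    intro w _
    rw [← pwl_apply, map_smul, pwl_apply, pw_actw_U ht h5]
  rw [Finset.sum_congr rfl this, Finset.sum_const, ← Nat.cast_smul_eq_nsmul ℝ, pw_cardR i hi, smul_smul,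
    mul_comm]

/-- TARGET 4 -/
theorem pw_add {D : ℕ} [NeZero D] (R : ℍ[ℝ]ˣ →* Iso 3) (t : ZMod D × ZMod D) (i₀ i : ℕ)
    (F G : Vec D → C(S 3, ℝ)) : PW R t i₀ i (F + G) = PW R t i₀ i F + PW R t i₀ i G := by
  rw [PW_eq', PW_eq', PW_eq', map_add]

/-- TARGET 5 -/
theorem pw_smul {D : ℕ} [NeZero D] (R : ℍ[ℝ]ˣ →* Iso 3) (t : ZMod D × ZMod D) (i₀ i : ℕ) (c : ℝ)
    (F : Vec D → C(S 3, ℝ)) : PW R t i₀ i (c • F) = c • PW R t i₀ i F := by
  rw [PW_eq', PW_eq', map_smul]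

/-- TARGET 6 -/
theorem pw_adm {D : ℕ} [NeZero D] (R : ℍ[ℝ]ˣ →* Iso 3) (h5 : Nat.Coprime D 5)
    (t : ZMod D × ZMod D) (ht : Sq t) (i₀ i : ℕ) (F : Vec D → C(S 3, ℝ)) (hF : AdmF F) :
    AdmF (PW R t i₀ i F) :=
  mx_adm_sum _ _ fun w _ => pw_actw_adm ht w (pw_L_adm i₀ hF)

/-- TARGET 7 -/
theorem pw_cont {D : ℕ} [NeZero D] (R : ℍ[ℝ]ˣ →* Iso 3) (t : ZMod D × ZMod D) (i₀ i : ℕ) :
    Continuous (fun p : (Vec D → C(S 3, ℝ)) × (Vec D → C(S 3, ℝ)) => ip (PW R t i₀ i p.1) p.2) := by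
  have h1 : Continuous (fun F : Vec D → C(S 3, ℝ) => PW R t i₀ i F) := by
    unfold PW
    exact continuous_finsetSum _ fun w _ => (pw_actw_cont R t w).comp (pw_Lpow_cont R t i₀)
  simp only [mx_ip]
  refine continuous_finsetSum _ fun v _ => ?_
  have h2 : Continuous (fun p : (Vec D → C(S 3, ℝ)) × (Vec D → C(S 3, ℝ)) => PW R t i₀ i p.1 v) :=
    (continuous_apply v).comp (h1.comp continuous_fst)
  have h3 : Continuous (fun p : (Vec D → C(S 3, ℝ)) × (Vec D → C(S 3, ℝ)) => p.2 v) :=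
    (continuous_apply v).comp continuous_snd
  exact II_cont.comp (h2.mul h3)

end Pool.Agent.H978V.Q
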