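import Pool.Agent.H978V.SDefs

set_option autoImplicit false

open MeasureTheory Set
open scoped Quaternion

namespace Pool.Agent.H978V.Q

open Pool.Agent.H978V Pool.Agent.Helper557.Rz

open Classical in
/-- number of unimodular vectors with given reduction -/
private noncomputable def s6fbk {D c : ℕ} [NeZero D] (h : c ∣ D) (w : Vec c) : ℕ :=
  (Finset.univ.filter (fun u : Vec D => Uni u ∧ red h u = w)).card

private theorem s6mem_fbk {D c : ℕ} [NeZero D] (h : c ∣ D) (w : Vec c) (u : Vec D) :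
    (open Classical in u ∈ Finset.univ.filter (fun u : Vec D => Uni u ∧ red h u = w)) ↔
      Uni u ∧ red h u = w := by
  simp only [Finset.mem_filter, Finset.mem_univ, true_and]

/-- upper elementary step -/
private def s6up {e : ℕ} (x : ZMod e) (u : Vec e) : Vec e := ![u 0 + x * u 1, u 1]

/-- lower elementary step -/
private def s6lo {e : ℕ} (x : ZMod e) (u : Vec e) : Vec e := ![u 0, u 1 + x * u 0]

private theorem s6up_uni {e : ℕ} {x : ZMod e} {u : Vec e} (hu : Uni u) : Uni (s6up x u) := by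
  unfold Uni s6up
  simp only [Matrix.cons_val_zero, Matrix.cons_val_one]
  exact IsCoprime.add_mul_right_left_iff.2 hu

private theorem s6lo_uni {e : ℕ} {x : ZMod e} {u : Vec e} (hu : Uni u) : Uni (s6lo x u) := by
  unfold Uni s6lo
  simp only [Matrix.cons_val_zero, Matrix.cons_val_one]
  exact IsCoprime.add_mul_right_right_iff.2 hu

private theorem s6up_up {e : ℕ} (x : ZMod e) (u : Vec e) : s6up (-x) (s6up x u) = u := by
  funext i
  fin_cases i
  · simp [s6up]
  · simp [s6up]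

private theorem s6lo_lo {e : ℕ} (x : ZMod e) (u : Vec e) : s6lo (-x) (s6lo x u) = u := by
  funext i
  fin_cases i
  · simp [s6lo]
  · simp [s6lo]

private theorem s6red_up {e c : ℕ} (h : c ∣ e) (x : ZMod e) (u : Vec e) :
    red h (s6up x u) = s6up (ZMod.castHom h (ZMod c) x) (red h u) := by
  funext i
  fin_cases i
  · show ZMod.castHom h (ZMod c) (u 0 + x * u 1) = ZMod.castHom h (ZMod c) (u 0) +
      ZMod.castHom h (ZMod c) x * ZMod.castHom h (ZMod c) (u 1)
    rw [map_add, map_mul]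
  · rfl

private theorem s6red_lo {e c : ℕ} (h : c ∣ e) (x : ZMod e) (u : Vec e) :
    red h (s6lo x u) = s6lo (ZMod.castHom h (ZMod c) x) (red h u) := by
  funext i
  fin_cases i
  · rfl
  · show ZMod.castHom h (ZMod c) (u 1 + x * u 0) = ZMod.castHom h (ZMod c) (u 1) +
      ZMod.castHom h (ZMod c) x * ZMod.castHom h (ZMod c) (u 0)
    rw [map_add, map_mul]

private theorem s6fbk_up_le {D c : ℕ} [NeZero D] (h : c ∣ D) (x : ZMod c) (w : Vec c) :
    s6fbk h w ≤ s6fbk h (s6up x w) := by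
  classical
  obtain ⟨X, hX⟩ := ZMod.castHom_surjective h x
  unfold s6fbk
  refine Finset.card_le_card_of_injOn (s6up X) ?_ ?_
  · intro u hu
    have hu' := (s6mem_fbk h w u).1 (Finset.mem_coe.1 hu)
    refine Finset.mem_coe.2 ((s6mem_fbk h (s6up x w) _).2 ⟨s6up_uni hu'.1, ?_⟩)
    rw [s6red_up, hX, hu'.2]
  · intro u _ v _ huv
    rw [← s6up_up X u, ← s6up_up X v, huv]

private theorem s6fbk_lo_le {D c : ℕ} [NeZero D] (h : c ∣ D) (x : ZMod c) (w : Vec c) :
    s6fbk h w ≤ s6fbk h (s6lo x w) := by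
  classical
  obtain ⟨X, hX⟩ := ZMod.castHom_surjective h x
  unfold s6fbk
  refine Finset.card_le_card_of_injOn (s6lo X) ?_ ?_
  · intro u hu
    have hu' := (s6mem_fbk h w u).1 (Finset.mem_coe.1 hu)
    refine Finset.mem_coe.2 ((s6mem_fbk h (s6lo x w) _).2 ⟨s6lo_uni hu'.1, ?_⟩)
    rw [s6red_lo, hX, hu'.2]
  · intro u _ v _ huv
    rw [← s6lo_lo X u, ← s6lo_lo X v, huv]

private theorem s6fbk_up {D c : ℕ} [NeZero D] (h : c ∣ D) (x : ZMod c) (w : Vec c) :
    s6fbk h (s6up x w) = s6fbk h w := by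
  refine le_antisymm ?_ (s6fbk_up_le h x w)
  have h1 := s6fbk_up_le h (-x) (s6up x w)
  rwa [s6up_up] at h1

private theorem s6fbk_lo {D c : ℕ} [NeZero D] (h : c ∣ D) (x : ZMod c) (w : Vec c) :
    s6fbk h (s6lo x w) = s6fbk h w := by
  refine le_antisymm ?_ (s6fbk_lo_le h x w)
  have h1 := s6fbk_lo_le h (-x) (s6lo x w)
  rwa [s6lo_lo] at h1

/-- stable range one for `ZMod c` -/
private theorem s6exists_unit {c : ℕ} [NeZero c] (w : Vec c) (hw : Uni w) :
    ∃ x : ZMod c, IsUnit (w 0 + x * w 1) := by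
  classical
  set a := (w 0).val with ha
  set b := (w 1).val with hb
  have hwa : ((a : ℕ) : ZMod c) = w 0 := ZMod.natCast_zmod_val _
  have hwb : ((b : ℕ) : ZMod c) = w 1 := ZMod.natCast_zmod_val _
  have hc0 : c ≠ 0 := NeZero.ne c
  set x : ℕ := ∏ p ∈ c.primeFactors.filter (fun p => ¬ p ∣ a), p with hx
  refine ⟨(x : ZMod c), ?_⟩
  have e1 : w 0 + (x : ZMod c) * w 1 = ((a + x * b : ℕ) : ZMod c) := by
    push_cast
    rw [hwa, hwb]
  rw [e1, ZMod.isUnit_iff_coprime]
  refine Nat.coprime_of_dvd fun p hp hpn hpc => ?_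
  by_cases hpa : p ∣ a
  · have h1 : p ∣ x * b := (Nat.dvd_add_right hpa).1 hpn
    rcases (Nat.Prime.dvd_mul hp).1 h1 with h2 | h2
    · rw [hx] at h2
      obtain ⟨r, hr, hpr⟩ := (Prime.dvd_finsetProd_iff hp.prime _).1 h2
      rw [Finset.mem_filter] at hr
      have hrp : r.Prime := Nat.prime_of_mem_primeFactors hr.1
      have : p = r := (Nat.prime_dvd_prime_iff_eq hp hrp).1 hpr
      exact hr.2 (this ▸ hpa)
    · have : Fact p.Prime := ⟨hp⟩
      have h3 : IsCoprime (ZMod.castHom hpc (ZMod p) (w 0)) (ZMod.castHom hpc (ZMod p) (w 1)) :=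
        IsCoprime.map hw (ZMod.castHom hpc (ZMod p))
      rw [← hwa, ← hwb, map_natCast, map_natCast, (ZMod.natCast_eq_zero_iff a p).2 hpa,
        (ZMod.natCast_eq_zero_iff b p).2 h2, isCoprime_zero_left] at h3
      exact not_isUnit_zero h3
  · have h2 : p ∣ x := by
      rw [hx]
      refine Finset.dvd_prod_of_mem _ (Finset.mem_filter.2 ⟨?_, hpa⟩)
      exact Nat.mem_primeFactors.2 ⟨hp, hpc, hc0⟩
    exact hpa ((Nat.dvd_add_left (dvd_mul_of_dvd_left h2 b)).1 hpn)

private theorem s6fbk_eq {D c : ℕ} [NeZero D] [NeZero c] (h : c ∣ D) (w : Vec c) (hw : Uni w) :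
    s6fbk h w = s6fbk h ![1, 0] := by
  obtain ⟨x, hx⟩ := s6exists_unit w hw
  obtain ⟨a, ha⟩ := hx
  -- first step
  rw [← s6fbk_up h x w]
  -- second step
  rw [← s6fbk_lo h ((1 - (a : ZMod c) - w 1) * ((a⁻¹ : (ZMod c)ˣ) : ZMod c)) (s6up x w)]
  have e2 : s6lo ((1 - (a : ZMod c) - w 1) * ((a⁻¹ : (ZMod c)ˣ) : ZMod c)) (s6up x w) = ![(a : ZMod c), 1 - a] := by
    funext i
    fin_cases i
    · simp [s6lo, s6up, ha]
    · simp only [s6lo, s6up, Matrix.cons_val_zero, Matrix.cons_val_one, Fin.mk_one]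
      rw [← ha, mul_assoc, Units.inv_mul]
      ring
  rw [e2, ← s6fbk_up h 1]
  have e3 : s6up 1 ![(a : ZMod c), 1 - a] = ![1, 1 - (a : ZMod c)] := by
    funext i
    fin_cases i
    · simp [s6up]
    · simp [s6up]
  rw [e3, ← s6fbk_lo h (-(1 - (a : ZMod c)))]
  have e4 : s6lo (-(1 - (a : ZMod c))) ![1, 1 - (a : ZMod c)] = ![1, 0] := by
    funext i
    fin_cases i
    · simp [s6lo]
    · simp [s6lo]
  rw [e4]

private theorem s6sum_fbk {D c : ℕ} [NeZero D] [NeZero c] (h : c ∣ D) :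
    NU D = NU c * s6fbk h ![1, 0] := by
  classical
  have h1 : NU D = ∑ w ∈ Finset.univ.filter (fun w : Vec c => Uni w), s6fbk h w := by
    have h2 : (Finset.univ.filter (fun u : Vec D => Uni u)).card =
        ∑ w ∈ Finset.univ.filter (fun w : Vec c => Uni w),
          ((Finset.univ.filter (fun u : Vec D => Uni u)).filter (fun u => red h u = w)).card := by
      refine Finset.card_eq_sum_card_fiberwise fun u hu => ?_
      simp only [Finset.coe_filter, Finset.mem_univ, true_and, Set.mem_ofPred_eq] at hu ⊢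
      exact IsCoprime.map hu (ZMod.castHom h (ZMod c))
    unfold NU
    convert h2 using 2 with w hw
    unfold s6fbk
    rw [Finset.filter_filter]
  rw [h1, Finset.sum_congr rfl fun w hw => s6fbk_eq h w (by simpa using hw), Finset.sum_const,
    smul_eq_mul]
  rfl

open Classical in
/-- TARGET -/
theorem fiber_const {D c : ℕ} [NeZero D] [NeZero c] (h : c ∣ D) (w : Vec c) (hw : Uni w) :
    ((Finset.univ.filter (fun u : Vec D => Uni u ∧ red h u = w)).card : ℝ) * NU c = NU D := by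
  have h1 : (Finset.univ.filter (fun u : Vec D => Uni u ∧ red h u = w)).card =
      s6fbk h ![1, 0] := s6fbk_eq h w hw
  rw [h1, s6sum_fbk h]
  push_cast
  ring

end Pool.Agent.H978V.Q
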