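import Pool.Agent.H978V.SDefs
import Pool.Agent.H978V.S0

/-!
JOB S1 (owner helper978, MP_06cce2_nt).  `H978V/*.lean` (library, with `SDefs`, `Q/*.lean`) is on origin/main.

Variant of `block_e` of `H978V/Q/G6.lean` (READ IT: `g6_core`, `g6_num`, `block_e`; `g6_core` can be used as it is) for all eigenvalues with `|lm| ≥ l0 δ`.

PROOF.  `g6_core` with `δ₁ = δ/4`, `l = 3 i + m`, `m = Nat.log 5 (e^3) + 1` as in `block_e`: `(lam lm l)^2 * Q ≤ C e^2 (e^δ₁)^2 l 25^(δ₁ l) 5^l 25^i * ip H H` and `(lam lm l)^2 ≥ 5^(2 (5/6+δ) l)` (`lam_sq_lower`).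
`X = 5^(l/3) ≥ e 5^i`: `e^2 25^i ≤ 5^(2l/3)`, `e^(2 δ₁) ≤ 5^(2 δ₁ l/3)`, so `Q ≤ C l 5^(l (2/3 + 2δ₁/3 + 2δ₁ + 1 - 5/3 - 2δ)) ip = C l 5^(-(2δ - 8δ₁/3) l) ip = C l 5^(-(4/3) δ l) ip ≤ C_δ 5^(-δ l) ip` (`l ≤ C_δ 5^(δ l/3)`),
and `5^(-δ l) = 5^(-3 δ i) 5^(-δ m) ≤ 5^(-δ i) (e^3)^(-δ) ≤ 5^(-δ i) e^(-δ)` (`5^m ≥ e^3`, `e ≥ 1`).
-/

set_option autoImplicit false

open MeasureTheory Set
open scoped Quaternion

namespace Pool.Agent.H978V.Q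

open Pool.Agent.H978V Pool.Agent.Helper557.Rz


lemma s_lin (δ : ℝ) (hδ : 0 < δ) (l : ℕ) : (l : ℝ) ≤ 3 / δ * (5 : ℝ) ^ (δ * l / 3) := by
  have h5 : (1 : ℝ) ≤ Real.log 5 := by
    rw [Real.le_log_iff_exp_le (by norm_num)]
    have := Real.exp_one_lt_d9
    linarith
  have h1 : δ * l / 3 + 1 ≤ Real.exp (Real.log 5 * (δ * l / 3)) := by
    refine le_trans ?_ (Real.add_one_le_exp _)
    have : 0 ≤ δ * l / 3 := by positivity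
    nlinarith
  rw [Real.rpow_def_of_pos (by norm_num)]
  have h2 : δ * l / 3 ≤ Real.exp (Real.log 5 * (δ * l / 3)) := by linarith
  calc (l : ℝ) = 3 / δ * (δ * l / 3) := by field_simp
    _ ≤ _ := mul_le_mul_of_nonneg_left h2 (by positivity)

lemma s_num (δ : ℝ) (hδ : 0 < δ) (hδ6 : δ < 1 / 6) (C : ℝ) (hC : 0 < C) (e i m l : ℕ)
    (he : 1 ≤ e) (hm1 : 1 ≤ m) (hl : l = 3 * i + m)
    (hm : (e : ℝ) ^ 3 ≤ 5 ^ m) (lm Q I : ℝ) (hI : 0 ≤ I) (h1 : l0 δ ≤ |lm|) (h2 : |lm| ≤ 6)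
    (h : (lam lm l) ^ 2 * Q ≤ C * ((e : ℝ) ^ 2 * ((e : ℝ) ^ (δ / 4)) ^ 2 *
      (l * (25 : ℝ) ^ ((δ / 4) * l) * (5 ^ l * (25 : ℝ) ^ i))) * I) :
    Q ≤ (3 * C / δ) * (5 : ℝ) ^ (-(δ * i)) * (e : ℝ) ^ (-δ) * I := by
  have heR : (1 : ℝ) ≤ e := by exact_mod_cast he
  rcases lt_or_ge Q 0 with hQ | hQ
  · exact hQ.le.trans (by positivity)
  have hll2 := lam_sq_lower δ hδ hδ6 lm h1 h2 l (by omega)
  set X : ℝ := (5 : ℝ) ^ ((l : ℝ) / 3) with hX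
  have hXpos : 0 < X := by positivity
  have hX3 : X ^ 3 = 5 ^ l := by
    rw [hX, ← Real.rpow_natCast, ← Real.rpow_mul (by norm_num), ← Real.rpow_natCast 5 l]
    congr 1
    push_cast
    ring
  have hE : (e : ℝ) * 5 ^ i ≤ X := by
    have h3 : ((e : ℝ) * 5 ^ i) ^ 3 ≤ X ^ 3 := by
      rw [hX3, hl, pow_add, mul_pow, ← pow_mul, mul_comm i 3, mul_comm]
      exact mul_le_mul_of_nonneg_left hm (by positivity)
    exact (pow_le_pow_iff_left₀ (by positivity) hXpos.le (by norm_num)).1 h3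
  have h5i : (1 : ℝ) ≤ 5 ^ i := one_le_pow₀ (by norm_num)
  have heX : (e : ℝ) ≤ X := by nlinarith
  have b1 : (e : ℝ) ^ 2 * 25 ^ i ≤ X ^ 2 := by
    have : (e : ℝ) ^ 2 * 25 ^ i = ((e : ℝ) * 5 ^ i) ^ 2 := by
      rw [mul_pow, ← pow_mul, mul_comm i 2, pow_mul]; norm_num
    rw [this]
    exact pow_le_pow_left₀ (by positivity) hE 2
  have b2 : (e : ℝ) ^ (δ / 4) ≤ X ^ (δ / 4) :=
    Real.rpow_le_rpow (by positivity) heX (by positivity)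
  have b3 : ((e : ℝ) ^ (δ / 4)) ^ 2 ≤ (X ^ (δ / 4)) ^ 2 :=
    pow_le_pow_left₀ (by positivity) b2 2
  have hbase : X ^ 2 * (X ^ (δ / 4)) ^ 2 * ((25 : ℝ) ^ ((δ / 4) * l) * 5 ^ l) =
      (5 : ℝ) ^ (2 * (5 / 6 + δ) * l) * (5 : ℝ) ^ (-(4 / 3 * δ * l)) := by
    have h25 : (25 : ℝ) = 5 ^ (2 : ℝ) := by norm_num
    rw [h25, hX]
    simp only [← Real.rpow_natCast]
    rw [← Real.rpow_mul (by positivity), ← Real.rpow_mul (by positivity),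
      ← Real.rpow_mul (by positivity), ← Real.rpow_mul (by positivity),
      ← Real.rpow_add (by norm_num),
      ← Real.rpow_add (by norm_num), ← Real.rpow_add (by norm_num),
      ← Real.rpow_add (by norm_num)]
    congr 1
    push_cast
    ring
  have hY : (5 : ℝ) ^ (-(4 / 3 * δ * l)) * (5 : ℝ) ^ (δ * l / 3) = (5 : ℝ) ^ (-(δ * l)) := by
    rw [← Real.rpow_add (by norm_num)]
    congr 1
    ring
  have hmain : (5 : ℝ) ^ (2 * (5 / 6 + δ) * l) * Q ≤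
      (5 : ℝ) ^ (2 * (5 / 6 + δ) * l) * (3 * C / δ * (5 : ℝ) ^ (-(δ * l)) * I) := by
    calc (5 : ℝ) ^ (2 * (5 / 6 + δ) * l) * Q ≤ (lam lm l) ^ 2 * Q :=
          mul_le_mul_of_nonneg_right hll2 hQ
      _ ≤ C * ((e : ℝ) ^ 2 * ((e : ℝ) ^ (δ / 4)) ^ 2 *
          (l * (25 : ℝ) ^ ((δ / 4) * l) * (5 ^ l * (25 : ℝ) ^ i))) * I := h
      _ = C * (((e : ℝ) ^ 2 * 25 ^ i) * ((e : ℝ) ^ (δ / 4)) ^ 2 *
          ((25 : ℝ) ^ ((δ / 4) * l) * 5 ^ l) * l) * I := by ring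
      _ ≤ C * (X ^ 2 * (X ^ (δ / 4)) ^ 2 *
          ((25 : ℝ) ^ ((δ / 4) * l) * 5 ^ l) * l) * I := by gcongr
      _ = C * ((5 : ℝ) ^ (2 * (5 / 6 + δ) * l) * (5 : ℝ) ^ (-(4 / 3 * δ * l)) * l) * I := by
          rw [hbase]
      _ ≤ C * ((5 : ℝ) ^ (2 * (5 / 6 + δ) * l) * (5 : ℝ) ^ (-(4 / 3 * δ * l)) *
          (3 / δ * (5 : ℝ) ^ (δ * l / 3))) * I := by
          have := s_lin δ hδ l
          gcongr
      _ = (5 : ℝ) ^ (2 * (5 / 6 + δ) * l) * (3 * C / δ *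
          ((5 : ℝ) ^ (-(4 / 3 * δ * l)) * (5 : ℝ) ^ (δ * l / 3)) * I) := by ring
      _ = _ := by rw [hY]
  have hQ2 : Q ≤ 3 * C / δ * (5 : ℝ) ^ (-(δ * l)) * I :=
    le_of_mul_le_mul_left hmain (by positivity)
  refine hQ2.trans ?_
  have hsplit : (5 : ℝ) ^ (-(δ * l)) = (5 : ℝ) ^ (-(δ * (3 * i))) * (5 : ℝ) ^ (-(δ * m)) := by
    rw [← Real.rpow_add (by norm_num)]
    congr 1
    rw [hl]
    push_cast
    ring
  have hie : (5 : ℝ) ^ (-(δ * (3 * i))) ≤ (5 : ℝ) ^ (-(δ * i)) := by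
    apply Real.rpow_le_rpow_of_exponent_le (by norm_num)
    have : 0 ≤ δ * i := by positivity
    nlinarith
  have hme : (5 : ℝ) ^ (-(δ * m)) ≤ (e : ℝ) ^ (-δ) := by
    have a1 : (e : ℝ) ^ δ ≤ (5 : ℝ) ^ (δ * m) := by
      have a0 : (e : ℝ) ≤ 5 ^ m := by
        refine le_trans ?_ hm
        nlinarith [sq_nonneg ((e : ℝ) - 1)]
      have a2 := Real.rpow_le_rpow (by positivity) a0 hδ.le
      rw [← Real.rpow_natCast, ← Real.rpow_mul (by norm_num)] at a2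
      rwa [mul_comm (m : ℝ) δ] at a2
    rw [Real.rpow_neg (by norm_num), Real.rpow_neg (by positivity)]
    exact inv_anti₀ (by positivity) a1
  rw [hsplit]
  calc 3 * C / δ * ((5 : ℝ) ^ (-(δ * (3 * i))) * (5 : ℝ) ^ (-(δ * m))) * I
      = 3 * C / δ * (5 : ℝ) ^ (-(δ * (3 * i))) * (5 : ℝ) ^ (-(δ * m)) * I := by ring
    _ ≤ _ := by gcongr

/-- TARGET -/
theorem block_s (R : ℍ[ℝ]ˣ →* Iso 3) (hR : IsRot R) (δ : ℝ) (hδ : 0 < δ) (hδ6 : δ < 1 / 6) :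
    ∃ C : ℝ, 0 < C ∧
    ∀ (e : ℕ) [NeZero e], Odd e → Nat.Coprime e 5 → ∀ t : ZMod e × ZMod e, Sq t →
    ∀ H : Vec e → C(S 3, ℝ), AdmF H → NewF H → ∀ lm : ℝ, l0 δ ≤ |lm| → |lm| ≤ 6 →
    (∀ u, TF R t H u = lm • H u) →
    (∀ i : ℕ, QK (fun x y => kk (25 ^ (i + 1)) x y - kk (25 ^ i) x y) H ≤
      C * (5 : ℝ) ^ (-(δ * i)) * (e : ℝ) ^ (-δ) * ip H H) ∧
    QK (fun _ _ => 1) H ≤ C * (e : ℝ) ^ (-δ) * ip H H := by
  obtain ⟨C, hC, hcore⟩ := g6_core (δ / 4) (by positivity)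
  refine ⟨3 * C / δ, by positivity, ?_⟩
  intro e hne he h5 t ht H hA hNw lm h1 h2 hE
  have he1 : 1 ≤ e := Nat.one_le_iff_ne_zero.2 (NeZero.ne e)
  set m := Nat.log 5 (e ^ 3) + 1 with hm
  have hm1 : 1 ≤ m := by omega
  have hme : (e : ℝ) ^ 3 ≤ 5 ^ m := by
    have := (Nat.lt_pow_succ_log_self (b := 5) (by norm_num) (e ^ 3)).le
    exact_mod_cast this
  have hme2 : (5 : ℝ) ^ m ≤ 5 * (e : ℝ) ^ 3 := by
    have h3 : 5 ^ Nat.log 5 (e ^ 3) ≤ e ^ 3 := Nat.pow_log_le_self 5 (by positivity)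
    have h4 : (5 : ℝ) ^ Nat.log 5 (e ^ 3) ≤ (e : ℝ) ^ 3 := by exact_mod_cast h3
    rw [hm, pow_succ]
    linarith
  have hsq : ∀ i : ℕ, Real.sqrt ((25 ^ i : ℕ) : ℝ) = 5 ^ i := by
    intro i
    push_cast
    rw [show (25 : ℝ) ^ i = (5 ^ i) ^ 2 by rw [← pow_mul, mul_comm i 2, pow_mul]; norm_num]
    exact Real.sqrt_sq (by positivity)
  have hsz : ∀ i : ℕ, (5 : ℝ) ^ (3 * i + m) ≤ 5 * (e : ℝ) ^ 3 *
      (Real.sqrt ((25 ^ i : ℕ) : ℝ)) ^ 3 := by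
    intro i
    rw [hsq, pow_add, ← pow_mul, mul_comm i 3, mul_comm]
    exact mul_le_mul_of_nonneg_right hme2 (by positivity)
  have hip := ip_nonneg H
  constructor
  · intro i
    have hNN : 25 ^ i ≤ 25 ^ (i + 1) := Nat.pow_le_pow_right (by norm_num) (by omega)
    have hN1 : 1 ≤ 25 ^ i := Nat.one_le_pow _ _ (by norm_num)
    obtain ⟨J, hJ, q, hq⟩ := kk_feat (25 ^ i) (25 ^ (i + 1)) hN1 hNN
    have hc := hcore R hR e he h5 t ht H hA hNw lm hE J q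
      (fun x y => kk (25 ^ (i + 1)) x y - kk (25 ^ i) x y) hq (25 ^ i) hN1 (3 * i + m)
      (by omega) (fun w hw w' hw' => g6_pair_int R hR (25 ^ i) (25 ^ (i + 1)) hN1 hNN 25
        (by push_cast; rw [pow_succ]; linarith) (3 * i + m) w w' hw hw') (hsz i)
    have hc' := s_num δ hδ hδ6 C hC e i m (3 * i + m) he1 hm1 rfl hme lm _ (ip H H) hip h1 h2
      (by simpa only [Nat.cast_pow, Nat.cast_ofNat] using hc)
    exact hc'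
  · have hc := hcore R hR e he h5 t ht H hA hNw lm hE Unit (fun _ => 1)
      (fun _ _ => 1) (fun x y => by simp) 1 le_rfl (3 * 0 + m)
      (by omega) (fun w hw w' hw' => g6_one_int R hR (3 * 0 + m) w w' hw hw')
      (by simpa using hsz 0)
    have hc' := s_num δ hδ hδ6 C hC e 0 m (3 * 0 + m) he1 hm1 rfl hme lm _ (ip H H) hip h1 h2
      (by simpa only [Nat.cast_one, pow_zero] using hc)
    simpa using hc'

end Pool.Agent.H978V.Q
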