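import Pool.Agent.H978V.SDefs
import Pool.Agent.H978V.S1

/-!
JOB S2 (owner helper978, MP_06cce2_nt).
-/

set_option autoImplicit false

open MeasureTheory Set
open scoped Quaternion

namespace Pool.Agent.H978V.Q

open Pool.Agent.H978V Pool.Agent.Helper557.Rz


lemma ns_q (δ : ℝ) (hδ : 0 < δ) : 0 < (5 : ℝ) ^ (-δ) ∧ (5 : ℝ) ^ (-δ) < 1 :=
  ⟨Real.rpow_pos_of_pos (by norm_num) _,
    Real.rpow_lt_one_of_one_lt_of_neg (by norm_num) (by linarith)⟩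

lemma ns_pow (δ : ℝ) (i : ℕ) : (5 : ℝ) ^ (-(δ * i)) = ((5 : ℝ) ^ (-δ)) ^ i := by
  rw [← neg_mul]
  exact Real.rpow_mul_natCast (by norm_num) _ _

lemma ns_E0 (C δ : ℝ) (hδ : 0 < δ) : ∃ E₀ : ℕ, 1 ≤ E₀ ∧ ∀ e : ℕ, E₀ ≤ e →
    C * (e : ℝ) ^ (-δ) ≤ 1 / 2 := by
  have ht : Filter.Tendsto (fun n : ℕ => C * (n : ℝ) ^ (-δ)) Filter.atTop (nhds (C * 0)) :=
    ((tendsto_rpow_neg_atTop hδ).comp tendsto_natCast_atTop_atTop).const_mul C
  rw [mul_zero] at ht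
  have h := (ht.eventually_lt_const (show (0 : ℝ) < 1 / 2 by norm_num))
  obtain ⟨E₀, hE₀⟩ := Filter.eventually_atTop.1 h
  exact ⟨max 1 E₀, le_max_left _ _, fun e he => (hE₀ e ((le_max_right _ _).trans he)).le⟩

/-- TARGET -/
theorem new_s (R : ℍ[ℝ]ˣ →* Iso 3) (hR : IsRot R) (δ : ℝ) (hδ : 0 < δ) (hδ6 : δ < 1 / 6) :
    ∃ E₀ : ℕ, ∀ (e : ℕ) [NeZero e], E₀ ≤ e → Odd e → Nat.Coprime e 5 → ∀ t : ZMod e × ZMod e, Sq t →
    ∀ H : Vec e → C(S 3, ℝ), AdmF H → NewF H → ∀ lm : ℝ, l0 δ ≤ |lm| → |lm| ≤ 6 →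
    (∀ u, TF R t H u = lm • H u) → H = 0 := by
  obtain ⟨C, hC, hblock⟩ := block_s R hR δ hδ hδ6
  obtain ⟨q, hq⟩ : ∃ q : ℝ, q = (5 : ℝ) ^ (-δ) := ⟨_, rfl⟩
  have hq0 : 0 < q := hq ▸ (ns_q δ hδ).1
  have hq1 : q < 1 := hq ▸ (ns_q δ hδ).2
  have h1q : 0 < 1 - q := by linarith
  obtain ⟨E₀, hE₀1, hE₀⟩ := ns_E0 (C * (1 + 1 / (1 - q))) δ hδ
  refine ⟨E₀, ?_⟩
  intro e _ hle hodd hcop t ht H hadm hnew lm hlm1 hlm2 heig
  obtain ⟨hb, hb0⟩ := hblock e hodd hcop t ht H hadm hnew lm hlm1 hlm2 heig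
  have he0 : (0 : ℝ) < e := Nat.cast_pos.2 (Nat.pos_of_ne_zero (NeZero.ne e))
  obtain ⟨w, hw⟩ : ∃ w : ℝ, w = (e : ℝ) ^ (-δ) := ⟨_, rfl⟩
  have hw0 : 0 < w := hw ▸ Real.rpow_pos_of_pos he0 _
  have hI0 := nl_nonneg H
  rw [← hw] at hb0
  have hstep : ∀ i : ℕ, QK (kk (25 ^ (i + 1))) H ≤ QK (kk (25 ^ i)) H + C * q ^ i * w * ip H H := by
    intro i
    have h1 := hb i
    rw [nl_diff _ _ (Nat.one_le_pow _ _ (by norm_num)) (Nat.one_le_pow _ _ (by norm_num)), ns_pow,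
      ← hq, ← hw] at h1
    linarith
  have hsum : ∀ i : ℕ, QK (kk (25 ^ i)) H ≤
      QK (kk (25 ^ 0)) H + C * w * ip H H * ((1 - q ^ i) / (1 - q)) := by
    intro i
    induction i with
    | zero => simp
    | succ i ih =>
      have h2 := hstep i
      have h3 : C * w * ip H H * ((1 - q ^ (i + 1)) / (1 - q)) =
          C * w * ip H H * ((1 - q ^ i) / (1 - q)) + C * q ^ i * w * ip H H := by
        field_simp
        ring
      rw [h3]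
      linarith
  have hmain : ip H H ≤ QK (kk (25 ^ 0)) H + C * w * ip H H * (1 / (1 - q)) := by
    refine le_of_forall_pos_le_add fun ε hε => ?_
    obtain ⟨N₁, hN₁⟩ := nl_close H ε hε
    have h5 : N₁ ≤ 25 ^ N₁ := (Nat.lt_pow_self (by norm_num)).le
    have h2 := hN₁ _ h5
    have h3 := hsum N₁
    have h4 : C * w * ip H H * ((1 - q ^ N₁) / (1 - q)) ≤ C * w * ip H H * (1 / (1 - q)) := by
      refine mul_le_mul_of_nonneg_left ?_ (by positivity)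
      refine div_le_div_of_nonneg_right ?_ h1q.le
      have : 0 < q ^ N₁ := pow_pos hq0 _
      linarith
    linarith
  have hz : ip H H = 0 := by
    rw [nl_one] at hmain
    have h2 := hE₀ e hle
    rw [← hw] at h2
    have h3 : C * w * ip H H + C * w * ip H H * (1 / (1 - q)) =
        (C * (1 + 1 / (1 - q)) * w) * ip H H := by ring
    have h4 : (C * (1 + 1 / (1 - q)) * w) * ip H H ≤ 1 / 2 * ip H H :=
      mul_le_mul_of_nonneg_right h2 hI0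
    linarith
  by_contra hne
  exact absurd hz (G9.ip_pos hne).ne'

end Pool.Agent.H978V.Q
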