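import Pool.Agent.H978V.SDefs
import Pool.Agent.H978V.S2
import Pool.Agent.H978V.S6

set_option autoImplicit false

open MeasureTheory Set
open scoped Quaternion

namespace Pool.Agent.H978V.Q

open Pool.Agent.H978V Pool.Agent.Helper557.Rz



namespace S7

theorem uni_smul {e : ℕ} (a : (ZMod e)ˣ) {u : Vec e} (hu : Uni u) : Uni ((a : ZMod e) • u) := by
  obtain ⟨p, q, hpq⟩ := hu
  refine ⟨p * ((a⁻¹ : (ZMod e)ˣ) : ZMod e), q * ((a⁻¹ : (ZMod e)ˣ) : ZMod e), ?_⟩
  have h1 : ((a⁻¹ : (ZMod e)ˣ) : ZMod e) * (a : ZMod e) = 1 := a.inv_mul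
  simp only [Pi.smul_apply, smul_eq_mul]
  calc p * ((a⁻¹ : (ZMod e)ˣ) : ZMod e) * ((a : ZMod e) * u 0) +
        q * ((a⁻¹ : (ZMod e)ˣ) : ZMod e) * ((a : ZMod e) * u 1)
      = (((a⁻¹ : (ZMod e)ˣ) : ZMod e) * (a : ZMod e)) * (p * u 0 + q * u 1) := by ring
    _ = 1 := by rw [h1, hpq, one_mul]

theorem uni_smul_iff {e : ℕ} (a : (ZMod e)ˣ) {u : Vec e} : Uni ((a : ZMod e) • u) ↔ Uni u := by
  refine ⟨fun h => ?_, uni_smul a⟩
  have h1 := uni_smul a⁻¹ h
  rwa [smul_smul, Units.inv_mul, one_smul] at h1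

theorem uni_A_iff {e : ℕ} (h5 : Nat.Coprime e 5) {t : ZMod e × ZMod e} (ht : Sq t) (a : Fin 6)
    {u : Vec e} : Uni (G9.A t a u) ↔ Uni u := by
  refine ⟨G9.uni_A, fun h => ?_⟩
  have h1 : Uni (G9.A t (a + 3) (G9.A t a u)) := by
    rw [G9.A_inv ht]
    have h2 := uni_smul (ZMod.unitOfCoprime 5 h5.symm) h
    simpa using h2
  exact G9.uni_A h1

theorem red_smul {e c : ℕ} (h : c ∣ e) (b : (ZMod e)ˣ) (u : Vec e) :
    red h ((b : ZMod e) • u) = ((ZMod.unitsMap h b : (ZMod c)ˣ) : ZMod c) • red h u := by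
  funext i
  exact map_mul (ZMod.castHom h (ZMod c)) _ _

open Classical in
/-- pull back of a family -/
noncomputable def LB {D c : ℕ} (h : c ∣ D) (G : Vec c → C(S 3, ℝ)) (u : Vec D) : C(S 3, ℝ) :=
  if Uni u then G (red h u) else 0

theorem LB_of {D c : ℕ} (h : c ∣ D) (G : Vec c → C(S 3, ℝ)) {u : Vec D} (hu : Uni u) :
    LB h G u = G (red h u) := if_pos hu

theorem LB_not {D c : ℕ} (h : c ∣ D) (G : Vec c → C(S 3, ℝ)) {u : Vec D} (hu : ¬ Uni u) :
    LB h G u = 0 := if_neg hu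

theorem adm_LB {D c : ℕ} (h : c ∣ D) {G : Vec c → C(S 3, ℝ)} (hG : AdmF G) : AdmF (LB h G) where
  supp u hu := LB_not h G hu
  inv a u := by
    by_cases hu : Uni u
    · rw [LB_of h G hu, LB_of h G (uni_smul a hu), red_smul, hG.inv]
    · rw [LB_not h G hu, LB_not h G (fun h' => hu ((uni_smul_iff a).1 h'))]

theorem TF_LB {D c : ℕ} (R : ℍ[ℝ]ˣ →* Iso 3) (h5 : Nat.Coprime D 5) (h : c ∣ D)
    {t : ZMod D × ZMod D} (ht : Sq t) (G : Vec c → C(S 3, ℝ)) :
    TF R t (LB h G) = LB h (TF R (cst h t) G) := by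
  funext u
  rw [G9.TF_eq]
  by_cases hu : Uni u
  · rw [LB_of h _ hu, G9.TF_eq]
    refine Finset.sum_congr rfl fun a _ => ?_
    rw [LB_of h G ((uni_A_iff h5 ht a).2 hu), G9.red_A]
  · rw [LB_not h _ hu]
    refine Finset.sum_eq_zero fun a _ => ?_
    rw [LB_not h G (fun h' => hu (G9.uni_A h'))]
    rfl

theorem PF_add {e c : ℕ} [NeZero e] (h : c ∣ e) (F G : Vec e → C(S 3, ℝ)) :
    G9.PF h (F + G) = G9.PF h F + G9.PF h G := by
  funext w
  rw [Pi.add_apply]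
  unfold G9.PF
  rw [← Finset.sum_add_distrib]
  refine Finset.sum_congr rfl fun u _ => ?_
  split_ifs
  · rfl
  · rw [add_zero]

theorem PF_smul {e c : ℕ} [NeZero e] (h : c ∣ e) (r : ℝ) (F : Vec e → C(S 3, ℝ)) :
    G9.PF h (r • F) = r • G9.PF h F := by
  funext w
  rw [Pi.smul_apply]
  unfold G9.PF
  rw [Finset.smul_sum]
  refine Finset.sum_congr rfl fun u _ => ?_
  rw [smul_ite, smul_zero]
  rfl

theorem PF_sub {e c : ℕ} [NeZero e] (h : c ∣ e) (F G : Vec e → C(S 3, ℝ)) :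
    G9.PF h (F - G) = G9.PF h F - G9.PF h G := by
  have h1 : F - G = F + (-1 : ℝ) • G := by
    rw [neg_one_smul, sub_eq_add_neg]
  rw [h1, PF_add, PF_smul, neg_one_smul, sub_eq_add_neg]

theorem PF_zero {e c : ℕ} [NeZero e] (h : c ∣ e) :
    G9.PF h (0 : Vec e → C(S 3, ℝ)) = 0 := by
  have := PF_smul h 0 (0 : Vec e → C(S 3, ℝ))
  rwa [zero_smul, zero_smul] at this

open Classical in
theorem PF_LB {D c : ℕ} [NeZero D] [NeZero c] (h : c ∣ D) {G : Vec c → C(S 3, ℝ)} (hG : AdmF G) :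
    (NU c : ℝ) • G9.PF h (LB h G) = (NU D : ℝ) • G := by
  funext w
  rw [Pi.smul_apply, Pi.smul_apply]
  by_cases hw : Uni w
  · have h1 : G9.PF h (LB h G) w =
        ((Finset.univ.filter (fun u : Vec D => Uni u ∧ red h u = w)).card : ℝ) • G w := by
      unfold G9.PF
      rw [Finset.card_eq_sum_ones, Nat.cast_sum, Finset.sum_smul, Finset.sum_filter]
      refine Finset.sum_congr rfl fun u _ => ?_
      by_cases h2 : red h u = w
      · by_cases hu : Uni u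
        · rw [if_pos h2, if_pos ⟨hu, h2⟩, LB_of h G hu, h2, Nat.cast_one, one_smul]
        · rw [if_pos h2, if_neg (fun h' => hu h'.1), LB_not h G hu]
      · rw [if_neg h2, if_neg (fun h' => h2 h'.2)]
    rw [h1, smul_smul, mul_comm, fiber_const h w hw]
  · rw [hG.supp w hw, smul_zero]
    have h1 : G9.PF h (LB h G) w = 0 := by
      unfold G9.PF
      refine Finset.sum_eq_zero fun u _ => ?_
      by_cases h2 : red h u = w
      · have hu : ¬ Uni u := fun hu => hw (h2 ▸ G9.uni_red h hu)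
        rw [if_pos h2, LB_not h G hu]
      · rw [if_neg h2]
    rw [h1, smul_zero]

theorem adm_sub {e : ℕ} {F G : Vec e → C(S 3, ℝ)} (hF : AdmF F) (hG : AdmF G) (r s : ℝ) :
    AdmF (r • F - s • G) where
  supp u hu := by
    rw [Pi.sub_apply, Pi.smul_apply, Pi.smul_apply, hF.supp u hu, hG.supp u hu, smul_zero,
      smul_zero, sub_zero]
  inv a u := by
    rw [Pi.sub_apply, Pi.smul_apply, Pi.smul_apply, hF.inv, hG.inv]
    rfl

end S7

/-- TARGET -/
theorem pull_back (R : ℍ[ℝ]ˣ →* Iso 3) (hR : IsRot R) (δ : ℝ) (hδ : 0 < δ) (hδ6 : δ < 1 / 6) :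
    ∃ E₁ : ℕ, 1 ≤ E₁ ∧ ∀ (D : ℕ) [NeZero D], Odd D → Nat.Coprime D 5 → ∀ t : ZMod D × ZMod D, Sq t →
    ∃ (c : ℕ) (_ : NeZero c) (h : c ∣ D), c ≤ E₁ ∧ ∀ F ∈ BigS R t δ, ∀ u : Vec D, Uni u →
      (NU D : ℝ) • F u = (NU c : ℝ) • G9.PF h F (red h u) := by
  obtain ⟨E₀, hE₀⟩ := new_s R hR δ hδ hδ6
  refine ⟨E₀.factorial, Nat.succ_le_of_lt (Nat.factorial_pos _), ?_⟩
  intro D _ hD h5 t ht
  have hDpos : 0 < D := Nat.pos_of_ne_zero (NeZero.ne D)
  have hcpos : 0 < Nat.gcd D E₀.factorial := Nat.gcd_pos_of_pos_left _ hDpos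
  set c := Nat.gcd D E₀.factorial with hc
  have hcz : NeZero c := ⟨hcpos.ne'⟩
  have h : c ∣ D := Nat.gcd_dvd_left _ _
  have hc5 : Nat.Coprime c 5 := h5.coprime_dvd_left h
  refine ⟨c, hcz, h, Nat.le_of_dvd (Nat.factorial_pos _) (Nat.gcd_dvd_right _ _), ?_⟩
  intro F hF
  induction hF using Submodule.span_induction with
  | zero =>
    intro u _
    rw [S7.PF_zero, Pi.zero_apply, Pi.zero_apply, smul_zero, smul_zero]
  | add F G _ _ ihF ihG =>
    intro u hu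
    rw [S7.PF_add, Pi.add_apply, Pi.add_apply, smul_add, smul_add, ihF u hu, ihG u hu]
  | smul r F _ ihF =>
    intro u hu
    rw [S7.PF_smul, Pi.smul_apply, Pi.smul_apply, smul_comm, ihF u hu, smul_comm]
  | mem F hF =>
    obtain ⟨hadm, lm, hlm1, hlm2, hlm⟩ := hF
    have hlm' : TF R t F = lm • F := funext hlm
    have hadmP : AdmF (G9.PF h F) := G9.adm_PF h hadm
    have hTP : TF R (cst h t) (G9.PF h F) = lm • G9.PF h F := by
      funext w
      rw [G9.TF_PF R h5 hc5 h ht, hlm', S7.PF_smul]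
    set F' : Vec D → C(S 3, ℝ) := (NU D : ℝ) • F - (NU c : ℝ) • S7.LB h (G9.PF h F) with hF'
    have hadm' : AdmF F' := S7.adm_sub hadm (S7.adm_LB h hadmP) _ _
    have hTF' : TF R t F' = lm • F' := by
      have e1 : TF R t (S7.LB h (G9.PF h F)) = lm • S7.LB h (G9.PF h F) := by
        rw [S7.TF_LB R h5 h ht, hTP]
        funext u
        rw [Pi.smul_apply]
        by_cases hu : Uni u
        · rw [S7.LB_of h _ hu, S7.LB_of h _ hu, Pi.smul_apply]
        · rw [S7.LB_not h _ hu, S7.LB_not h _ hu, smul_zero]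
      rw [← G9.TL_apply, hF', map_sub, map_smul, map_smul, G9.TL_apply, G9.TL_apply, hlm', e1,
        smul_sub, smul_comm lm, smul_comm lm]
    have hPF' : G9.PF h F' = 0 := by
      rw [hF', S7.PF_sub, S7.PF_smul, S7.PF_smul, S7.PF_LB h hadmP, sub_self]
    have hzero : F' = 0 := by
      by_contra hne
      classical
      have hex : ∃ e : ℕ, ∃ he : e ∣ D, G9.PF he F' ≠ 0 := ⟨D, dvd_refl D, by rwa [G9.PF_self]⟩
      obtain ⟨e, ⟨he, heF⟩, hmin⟩ : ∃ e : ℕ, (∃ he : e ∣ D, G9.PF he F' ≠ 0) ∧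
          ∀ d : ℕ, d < e → ¬ ∃ he : d ∣ D, G9.PF he F' ≠ 0 :=
        ⟨Nat.find hex, Nat.find_spec hex, fun d hd => Nat.find_min hex hd⟩
      have he0 : e ≠ 0 := by
        rintro rfl
        exact NeZero.ne D (zero_dvd_iff.1 he)
      have : NeZero e := ⟨he0⟩
      have heodd : Odd e := hD.of_dvd_nat he
      have he5 : Nat.Coprime e 5 := h5.coprime_dvd_left he
      have hadme : AdmF (G9.PF he F') := G9.adm_PF he hadm'
      have hnw : NewF (G9.PF he F') := by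
        refine G9.new_PF he F' ?_
        intro d hd hde
        by_contra hd0
        refine hmin d ?_ ⟨hd.trans he, hd0⟩
        exact lt_of_le_of_ne (Nat.le_of_dvd (Nat.pos_of_ne_zero he0) hd) hde
      have heig : ∀ w, TF R (cst he t) (G9.PF he F') w = lm • G9.PF he F' w := by
        intro w
        rw [G9.TF_PF R h5 he5 he ht, hTF', S7.PF_smul]
        rfl
      by_cases hE : E₀ ≤ e
      · exact heF (hE₀ e hE heodd he5 _ (G9.cast_sq he ht) _ hadme hnw lm hlm1 hlm2 heig)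
      · push Not at hE
        have hec : e ∣ c := Nat.dvd_gcd he (Nat.dvd_factorial (Nat.pos_of_ne_zero he0) hE.le)
        apply heF
        have h1 := G9.PF_PF hec h F'
        rw [hPF', S7.PF_zero] at h1
        exact h1.symm
    intro u hu
    have h1 := congrFun hzero u
    rw [hF', Pi.sub_apply, Pi.smul_apply, Pi.smul_apply, S7.LB_of h _ hu, Pi.zero_apply,
      sub_eq_zero] at h1
    exact h1

end Pool.Agent.H978V.Q
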