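import Pool.Agent.H978V.SDefs
import Pool.Agent.H978V.Q.G3

set_option autoImplicit false

open MeasureTheory Set
open scoped Quaternion

namespace Pool.Agent.H978V.Q

open Pool.Agent.H978V Pool.Agent.Helper557.Rz

/-- TARGET -/
theorem trace_old (R : ℍ[ℝ]ˣ →* Iso 3) (hR : IsRot R) (e : ℕ) [NeZero e]
    (h5 : Nat.Coprime e 5) (t : ZMod e × ZMod e) (ht : Sq t) (H : Vec e → C(S 3, ℝ)) (hA : AdmF H)
    (lm : ℝ) (hE : ∀ u, TF R t H u = lm • H u)
    (J : Type) [Fintype J] (q : J → C(S 3, ℝ)) (K : S 3 → S 3 → ℝ)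
    (hK : ∀ x y, K x y = ∑ j, q j x * q j y) (l : ℕ) :
    (lam lm l) ^ 2 * QK K H ≤
      (∑ u : Vec e, ∑ w ∈ RW l, ∑ w' ∈ RW l,
        if (Ph t (qw w)).mulVec u = (Ph t (qw w')).mulVec u then
          ∫ x, K (rot (R (uw w))⁻¹ x) (rot (R (uw w'))⁻¹ x) ∂(sg 3) else 0) * ip H H := by
  classical
  obtain ⟨hj, hhj⟩ : ∃ hj : J → Vec e → ℝ, ∀ j u, hj j u = tpI (q j * H u) := ⟨_, fun _ _ => rfl⟩
  obtain ⟨Q, hQ⟩ : ∃ Q : List (Fin 6) → J → C(S 3, ℝ), ∀ w j, Q w j = cr (R (uw w))⁻¹ (q j) :=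
    ⟨_, fun _ _ => rfl⟩
  have h3 : ∀ j u, lam lm l * hj j u = ∑ w ∈ RW l, tpI (Q w j * H ((Ph t (qw w)).mulVec u)) := by
    intro j u
    have h4 := tp_eigen R hR h5 ht H hA lm hE l u
    have h5' : lam lm l * hj j u = tpI (q j * (lam lm l • H u)) := by
      rw [hhj, mul_smul_comm, map_smul, smul_eq_mul]
    rw [h5', ← h4, Finset.mul_sum, map_sum]
    refine Finset.sum_congr rfl fun w _ => ?_
    rw [tp_adj, hQ]
  have hK2 : ∀ w w', ∑ j, tpI (Q w j * Q w' j) =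
      ∫ x, K (rot (R (uw w))⁻¹ x) (rot (R (uw w'))⁻¹ x) ∂(sg 3) := by
    intro w w'
    simp only [hK]
    rw [integral_finsetSum]
    · refine Finset.sum_congr rfl fun j _ => ?_
      rw [hQ, hQ]
      rfl
    · intro j _
      exact tp_int (cr (R (uw w))⁻¹ (q j) * cr (R (uw w'))⁻¹ (q j))
  have hL : (lam lm l) ^ 2 * QK K H =
      ∑ u : Vec e, ∑ j, (∑ w ∈ RW l, tpI (Q w j * H ((Ph t (qw w)).mulVec u))) ^ 2 := by
    rw [tp_QK H J q K hK, Finset.mul_sum]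
    refine Finset.sum_congr rfl fun u _ => ?_
    rw [Finset.mul_sum]
    refine Finset.sum_congr rfl fun j _ => ?_
    rw [← h3 j u, hhj]
    ring
  rw [hL, Finset.sum_mul]
  refine Finset.sum_le_sum fun u _ => ?_
  have hone : ∀ j, (∑ w ∈ RW l, tpI (Q w j * H ((Ph t (qw w)).mulVec u))) ^ 2 ≤
      (∑ w ∈ RW l, ∑ w' ∈ RW l, if (Ph t (qw w)).mulVec u = (Ph t (qw w')).mulVec u then
        tpI (Q w j * Q w' j) else 0) * ip H H := by
    intro j
    have h := (tp_sort (RW l) (fun w => (Ph t (qw w)).mulVec u)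
      (fun w (_ : Unit) => Q w j) (fun g (_ : Unit) => H g)).1
    simp only [Finset.univ_unique, Finset.sum_singleton] at h
    exact h
  refine (Finset.sum_le_sum fun j _ => hone j).trans (le_of_eq ?_)
  rw [← Finset.sum_mul]
  congr 1
  rw [Finset.sum_comm]
  refine Finset.sum_congr rfl fun w _ => ?_
  rw [Finset.sum_comm]
  refine Finset.sum_congr rfl fun w' _ => ?_
  by_cases hc : (Ph t (qw w)).mulVec u = (Ph t (qw w')).mulVec u
  · simp only [if_pos hc]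
    exact hK2 w w'
  · simp only [if_neg hc, Finset.sum_const_zero]

end Pool.Agent.H978V.Q
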