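import Pool.Agent.H978V.SDefs
import Pool.Agent.H978V.Q.G6
import Pool.Agent.H978V.Q.G7
import Pool.Agent.H978V.S0
import Pool.Agent.H978V.S4

/-!
JOB S5 (owner helper978, MP_06cce2_nt).  `H978V/*.lean` (library, with `SDefs`, `Q/*.lean`) is on origin/main.

Eigenfamilies of bounded level with large eigenvalues have at least half of their mass in low frequencies.

PROOF.  (a) For every `δ₁ > 0` there is `C` with `∑_{w,w' ∈ RW l} BB 25 N (im2 (qw w * star (qw w')) / 25^l) ≤ C (l 25^(δ₁ l) 5^l N)` for `N, l ≥ 1`, `5^l ≤ 5 (√N)³`: this is the computation in the proof of `g6_core` (`H978V/Q/G6.lean`, READ IT) with `e = 1` (`pair_sum_le`, `scalar_count`).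
(b) As in `block_e` (`Q/G6.lean`), but with `trace_old` instead of `trace_prod`: for a block `K = kk (25^(i+1)) - kk (25^i)` (`kk_feat`, `g6_pair_int` with `N = 25^i`: the integrals are `≤ BB 25 N (..)`, and `BB ≥ 0`, so the sum over `u, w, w'` is at most `(card (Vec e)) · ∑_{w,w'} BB = e² · ∑_{w,w'} BB`), `l = 3 i + 1`
(`5^l = 5 · 125^i = 5 (√N)³`): `(lam lm l)² QK(block) H ≤ e² C l 25^(δ₁ l) 5^l 25^i ip H H`, with `25^i ≤ 5^(2l/3)` and `(lam lm l)² ≥ 5^((5/3 + 2δ) l)` (`lam_sq_lower`), `δ₁ = δ/2`: `QK(block) H ≤ C e² l 5^(-δ l) ip H H ≤ C' E₁² 5^(-δ i) ip H H` (`l 5^(-δ l) ≤ C'' 5^(-δ i)`, as `l = 3i+1`).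
(c) As in `new_low` (`Q/G7.lean`; `nl_*` lemmas can be used): for `j` with `C' E₁² 5^(-δ j)/(1 - 5^(-δ)) ≤ 1/2`: `ip H H ≤ QK (kk (25^j)) H + (1/2) ip H H`.  `N₁ = 25^j`.
-/

set_option autoImplicit false

open MeasureTheory Set
open scoped Quaternion

namespace Pool.Agent.H978V.Q

open Pool.Agent.H978V Pool.Agent.Helper557.Rz



/-! ### auxiliary lemmas for the target -/

/-- the scalar count for all pairs of words -/
lemma s5_core (δ : ℝ) (hδ : 0 < δ) : ∃ C : ℝ, 0 < C ∧ ∀ (N l : ℕ), 1 ≤ N → 1 ≤ l →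
    (5 : ℝ) ^ l ≤ 5 * (Real.sqrt N) ^ 3 →
    ∑ w ∈ RW l, ∑ w' ∈ RW l, BB 25 N ((im2 (qw w * star (qw w')) : ℝ) / 25 ^ l) ≤
      C * (l * (25 : ℝ) ^ (δ * l) * (5 ^ l * N)) := by
  obtain ⟨C1, hC1, hs⟩ := scalar_count 25 (by norm_num) δ hδ
  refine ⟨30 + 7 * C1, by positivity, ?_⟩
  intro N l hN hl hsz
  have hNR : (1 : ℝ) ≤ N := by exact_mod_cast hN
  have hr1 : 1 ≤ Real.sqrt N := by
    rw [show (1 : ℝ) = Real.sqrt 1 by simp]; exact Real.sqrt_le_sqrt hNR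
  have hr2 : Real.sqrt N ^ 2 = N := Real.sq_sqrt (by linarith)
  obtain ⟨G, hGdef⟩ : ∃ G : ℕ → ℍ[ℤ] → ℝ, ∀ l q, G l q = BB 25 N ((im2 q : ℝ) / 25 ^ l) :=
    ⟨_, fun _ _ => rfl⟩
  have hG0 : ∀ l q, 0 ≤ G l q := by
    intro l q
    rw [hGdef]
    exact BB_nonneg 25 (by norm_num) N (by linarith) _
  have hG5 : ∀ l q, G (l + 1) ((5 : ℤ) • q) = G l q := by
    intro l q
    rw [hGdef, hGdef, im2_smul]
    have : (((25 * im2 q : ℤ)) : ℝ) / 25 ^ (l + 1) = (im2 q : ℝ) / 25 ^ l := by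
      push_cast
      rw [pow_succ]
      field_simp
    rw [this]
  have hps := pair_sum_le G hG0 hG5 l hl
  have hG01 : G 0 1 = 25 * N := by
    rw [hGdef]
    simp [BB, im2]
  have h25δ : ∀ k : ℕ, k ≤ l → (25 : ℝ) ^ (δ * k) ≤ (25 : ℝ) ^ (δ * l) := by
    intro k hk
    apply Real.rpow_le_rpow_of_exponent_le (by norm_num)
    have : (k : ℝ) ≤ l := by exact_mod_cast hk
    nlinarith
  have h25l : (1 : ℝ) ≤ (25 : ℝ) ^ (δ * l) := Real.one_le_rpow (by norm_num) (by positivity)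
  have hk : ∀ k ∈ Finset.Icc 1 l, (5 : ℝ) ^ (l - k) *
        ∑ p ∈ QQ k, G k ⟨p.1, p.2.1, p.2.2.1, p.2.2.2⟩ ≤
        C1 * 25 ^ (δ * l) * (7 * (5 ^ l * N)) := by
    intro k hk
    rw [Finset.mem_Icc] at hk
    have h2 : ∑ p ∈ QQ k, G k ⟨p.1, p.2.1, p.2.2.1, p.2.2.2⟩ ≤
        C1 * (25 : ℝ) ^ (δ * k) *
        (N + Real.sqrt N * 5 ^ k + 25 ^ k / (Real.sqrt N)) := by
      have h3 := hs 1 k N le_rfl (by norm_num) (by norm_num) hN
      have h4 : C1 * (25 : ℝ) ^ (δ * k) * ((1 : ℕ) : ℝ) ^ δ *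
        (N + Real.sqrt N * 5 ^ k / ((1 : ℕ) : ℝ) + 25 ^ k / ((((1 : ℕ) : ℝ)) ^ 3 * Real.sqrt N)) =
          C1 * (25 : ℝ) ^ (δ * k) *
        (N + Real.sqrt N * 5 ^ k + 25 ^ k / (Real.sqrt N)) := by
        rw [Nat.cast_one, Real.one_rpow, mul_one, div_one, one_pow, one_mul]
      rw [h4] at h3
      refine le_trans (le_of_eq ?_) h3
      refine Finset.sum_congr rfl fun p _ => ?_
      refine (hGdef k _).trans ?_
      simp [im2]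
    have hb1 : (1 : ℝ) ≤ 5 ^ k := one_le_pow₀ (by norm_num)
    have ha1 : (1 : ℝ) ≤ 5 ^ (l - k) := one_le_pow₀ (by norm_num)
    have hab : (5 : ℝ) ^ (l - k) * 5 ^ k = 5 ^ l := by
      rw [← pow_add]; congr 1; omega
    have h25 : (25 : ℝ) ^ k = (5 ^ k) ^ 2 := by
      rw [← pow_mul, mul_comm, pow_mul]; norm_num
    have h3 : (5 : ℝ) ^ (l - k) *
        (N + Real.sqrt N * 5 ^ k + 25 ^ k / (Real.sqrt N)) ≤
        7 * (5 ^ l * N) := by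
      rw [h25, ← hab]
      set a := (5 : ℝ) ^ (l - k)
      set b := (5 : ℝ) ^ k
      set r := Real.sqrt N
      have hrpos : 0 < r := by linarith
      have hbl : b ≤ 5 * r ^ 3 := by
        refine le_trans ?_ hsz
        rw [← hab]
        nlinarith
      have t1 : (N : ℝ) ≤ b * N := by nlinarith
      have t2 : r * b ≤ b * N := by
        rw [← hr2]
        nlinarith [mul_nonneg (mul_nonneg hrpos.le (by linarith : (0 : ℝ) ≤ b)) (by linarith : (0 : ℝ) ≤ r - 1)]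
      have t3 : b ^ 2 / r ≤ 5 * (b * N) := by
        rw [div_le_iff₀ hrpos, ← hr2]
        have : b * b ≤ b * (5 * r ^ 3) :=
          mul_le_mul_of_nonneg_left hbl (by linarith)
        nlinarith
      have t4 : (N : ℝ) + r * b + b ^ 2 / r ≤ 7 * (b * N) := by linarith
      have := mul_le_mul_of_nonneg_left t4 (show 0 ≤ a by linarith)
      linarith
    have h4 : 0 ≤ (N : ℝ) + Real.sqrt N * 5 ^ k + 25 ^ k / (Real.sqrt N) := by
      positivity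
    calc (5 : ℝ) ^ (l - k) * ∑ p ∈ QQ k, G k ⟨p.1, p.2.1, p.2.2.1, p.2.2.2⟩
        ≤ (5 : ℝ) ^ (l - k) * (C1 * (25 : ℝ) ^ (δ * k) *
        (N + Real.sqrt N * 5 ^ k + 25 ^ k / (Real.sqrt N))) :=
          mul_le_mul_of_nonneg_left h2 (by positivity)
      _ = (C1 * (25 : ℝ) ^ (δ * k)) * ((5 : ℝ) ^ (l - k) *
        (N + Real.sqrt N * 5 ^ k + 25 ^ k / (Real.sqrt N))) := by ring
      _ ≤ (C1 * 25 ^ (δ * l)) * (7 * (5 ^ l * N)) := by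
          refine mul_le_mul ?_ h3 (by positivity) (by positivity)
          exact mul_le_mul_of_nonneg_left (h25δ k hk.2) hC1.le
  have hsum : ∑ k ∈ Finset.Icc 1 l, (5 : ℝ) ^ (l - k) *
        ∑ p ∈ QQ k, G k ⟨p.1, p.2.1, p.2.2.1, p.2.2.2⟩ ≤
        l * (C1 * 25 ^ (δ * l) * (7 * (5 ^ l * N))) := by
    refine (Finset.sum_le_sum hk).trans (le_of_eq ?_)
    rw [Finset.sum_const, nsmul_eq_mul]
    simp
  have hl1 : (1 : ℝ) ≤ l := by exact_mod_cast hl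
  have h1 : ∑ w ∈ RW l, ∑ w' ∈ RW l, BB 25 N ((im2 (qw w * star (qw w')) : ℝ) / 25 ^ l) =
      ∑ w ∈ RW l, ∑ w' ∈ RW l, G l (qw w * star (qw w')) := by
    refine Finset.sum_congr rfl fun w _ => Finset.sum_congr rfl fun w' _ => ?_
    rw [hGdef]
  rw [h1]
  refine hps.trans ?_
  rw [hG01]
  have e1 : 6 * (5 : ℝ) ^ (l - 1) * (25 * N) = 30 * (5 ^ l * N) := by
    obtain ⟨m, rfl⟩ : ∃ m, l = m + 1 := ⟨l - 1, by omega⟩
    rw [Nat.add_sub_cancel, pow_succ]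
    ring
  have e2 : (5 : ℝ) ^ l * N ≤ l * 25 ^ (δ * l) * (5 ^ l * N) := by
    have : 1 ≤ (l : ℝ) * 25 ^ (δ * l) := one_le_mul_of_one_le_of_one_le hl1 h25l
    exact le_mul_of_one_le_left (by positivity) this
  rw [e1]
  nlinarith [hsum, e2]

/-- the block bound before the numerics -/
lemma s5_block (δ : ℝ) (hδ : 0 < δ) : ∃ C : ℝ, 0 < C ∧ ∀ (R : ℍ[ℝ]ˣ →* Iso 3), IsRot R →
    ∀ (e : ℕ) [NeZero e], Nat.Coprime e 5 → ∀ t : ZMod e × ZMod e, Sq t →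
    ∀ H : Vec e → C(S 3, ℝ), AdmF H → ∀ lm : ℝ, (∀ u, TF R t H u = lm • H u) →
    ∀ i : ℕ, (lam lm (3 * i + 1)) ^ 2 *
        QK (fun x y => kk (25 ^ (i + 1)) x y - kk (25 ^ i) x y) H ≤
      C * ((e : ℝ) ^ 2 * (((3 * i + 1 : ℕ) : ℝ) * (25 : ℝ) ^ (δ * ((3 * i + 1 : ℕ) : ℝ)) *
        (5 ^ (3 * i + 1) * (25 : ℝ) ^ i))) * ip H H := by
  obtain ⟨C, hC, hcore⟩ := s5_core δ hδ
  refine ⟨C, hC, ?_⟩
  intro R hR e hne h5 t ht H hA lm hE i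
  have hNN : 25 ^ i ≤ 25 ^ (i + 1) := Nat.pow_le_pow_right (by norm_num) (by omega)
  have hN1 : 1 ≤ 25 ^ i := Nat.one_le_pow _ _ (by norm_num)
  obtain ⟨J, hJ, q, hq⟩ := kk_feat (25 ^ i) (25 ^ (i + 1)) hN1 hNN
  have htr := trace_old R hR e h5 t ht H hA lm hE J q
    (fun x y => kk (25 ^ (i + 1)) x y - kk (25 ^ i) x y) hq (3 * i + 1)
  have hsq : Real.sqrt ((25 ^ i : ℕ) : ℝ) = 5 ^ i := by
    push_cast
    rw [show (25 : ℝ) ^ i = (5 ^ i) ^ 2 by rw [← pow_mul, mul_comm i 2, pow_mul]; norm_num]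
    exact Real.sqrt_sq (by positivity)
  have hsz : (5 : ℝ) ^ (3 * i + 1) ≤ 5 * (Real.sqrt ((25 ^ i : ℕ) : ℝ)) ^ 3 := by
    rw [hsq, pow_succ, ← pow_mul, mul_comm i 3, mul_comm]
  have hc := hcore (25 ^ i) (3 * i + 1) hN1 (by omega) hsz
  have hip := ip_nonneg H
  have hcard : (Fintype.card (Vec e) : ℝ) = (e : ℝ) ^ 2 := by
    have : Fintype.card (Vec e) = e ^ 2 := by
      rw [Fintype.card_fun, ZMod.card, Fintype.card_fin]
    rw [this]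
    push_cast
    ring
  have hB : ∀ w ∈ RW (3 * i + 1), ∀ w' ∈ RW (3 * i + 1), ∀ u : Vec e,
      (if (Ph t (qw w)).mulVec u = (Ph t (qw w')).mulVec u then
          ∫ x, (kk (25 ^ (i + 1)) (rot (R (uw w))⁻¹ x) (rot (R (uw w'))⁻¹ x) -
            kk (25 ^ i) (rot (R (uw w))⁻¹ x) (rot (R (uw w'))⁻¹ x)) ∂(sg 3) else 0) ≤
        BB 25 ((25 ^ i : ℕ) : ℝ) ((im2 (qw w * star (qw w')) : ℝ) / 25 ^ (3 * i + 1)) := by
    intro w hw w' hw' u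
    split_ifs
    · exact g6_pair_int R hR (25 ^ i) (25 ^ (i + 1)) hN1 hNN 25
        (by push_cast; rw [pow_succ]; linarith) (3 * i + 1) w w' hw hw'
    · exact BB_nonneg 25 (by norm_num) _ (by positivity) _
  have hsum : (∑ u : Vec e, ∑ w ∈ RW (3 * i + 1), ∑ w' ∈ RW (3 * i + 1),
        if (Ph t (qw w)).mulVec u = (Ph t (qw w')).mulVec u then
          ∫ x, (kk (25 ^ (i + 1)) (rot (R (uw w))⁻¹ x) (rot (R (uw w'))⁻¹ x) -
            kk (25 ^ i) (rot (R (uw w))⁻¹ x) (rot (R (uw w'))⁻¹ x)) ∂(sg 3) else 0) ≤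
      (e : ℝ) ^ 2 * (C * (((3 * i + 1 : ℕ) : ℝ) * (25 : ℝ) ^ (δ * ((3 * i + 1 : ℕ) : ℝ)) *
        (5 ^ (3 * i + 1) * ((25 ^ i : ℕ) : ℝ)))) := by
    calc _ ≤ ∑ _u : Vec e, ∑ w ∈ RW (3 * i + 1), ∑ w' ∈ RW (3 * i + 1),
          BB 25 ((25 ^ i : ℕ) : ℝ) ((im2 (qw w * star (qw w')) : ℝ) / 25 ^ (3 * i + 1)) :=
          Finset.sum_le_sum fun u _ => Finset.sum_le_sum fun w hw =>
            Finset.sum_le_sum fun w' hw' => hB w hw w' hw' u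
      _ = (e : ℝ) ^ 2 * ∑ w ∈ RW (3 * i + 1), ∑ w' ∈ RW (3 * i + 1),
          BB 25 ((25 ^ i : ℕ) : ℝ) ((im2 (qw w * star (qw w')) : ℝ) / 25 ^ (3 * i + 1)) := by
          rw [Finset.sum_const, nsmul_eq_mul, Finset.card_univ, hcard]
      _ ≤ _ := mul_le_mul_of_nonneg_left hc (by positivity)
  refine htr.trans ?_
  refine (mul_le_mul_of_nonneg_right hsum hip).trans (le_of_eq ?_)
  push_cast
  ring

lemma s5_lin (δ : ℝ) (hδ : 0 < δ) (i : ℕ) :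
    ((3 * i + 1 : ℕ) : ℝ) * (5 : ℝ) ^ (-δ * ((3 * i + 1 : ℕ) : ℝ)) ≤
      (1 + 3 / δ) * ((5 : ℝ) ^ (-δ)) ^ i := by
  have hi : (0 : ℝ) ≤ i := Nat.cast_nonneg i
  have h1 : 1 + δ * i ≤ (5 : ℝ) ^ (δ * i) := by
    have h5 : (1 : ℝ) ≤ Real.log 5 := by
      rw [Real.le_log_iff_exp_le (by norm_num)]
      have := Real.exp_one_lt_d9
      linarith
    rw [Real.rpow_def_of_pos (by norm_num)]
    have h2 := Real.add_one_le_exp (Real.log 5 * (δ * i))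
    have h3 : δ * i ≤ Real.log 5 * (δ * i) := le_mul_of_one_le_left (by positivity) h5
    linarith
  have h4 : (5 : ℝ) ^ (-δ * ((3 * i + 1 : ℕ) : ℝ)) ≤
      ((5 : ℝ) ^ (δ * i))⁻¹ * ((5 : ℝ) ^ (-δ)) ^ i := by
    rw [← Real.rpow_neg (by norm_num), ← Real.rpow_mul_natCast (by norm_num), ← Real.rpow_add (by norm_num)]
    apply Real.rpow_le_rpow_of_exponent_le (by norm_num)
    push_cast
    nlinarith
  have h5 : (0 : ℝ) < (5 : ℝ) ^ (δ * i) := by positivity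
  have h6 : (0 : ℝ) < ((5 : ℝ) ^ (-δ)) ^ i := by positivity
  have h7 : ((3 * i + 1 : ℕ) : ℝ) ≤ (1 + 3 / δ) * (5 : ℝ) ^ (δ * i) := by
    have h8 : (1 + 3 / δ) * (1 + δ * i) = 1 + δ * i + 3 / δ + 3 * i := by
      field_simp
      ring
    have h9 : (1 + 3 / δ) * (1 + δ * i) ≤ (1 + 3 / δ) * (5 : ℝ) ^ (δ * i) :=
      mul_le_mul_of_nonneg_left h1 (by positivity)
    have h10 : 0 ≤ δ * i + 3 / δ := by positivity
    push_cast
    linarith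
  calc ((3 * i + 1 : ℕ) : ℝ) * (5 : ℝ) ^ (-δ * ((3 * i + 1 : ℕ) : ℝ))
      ≤ ((1 + 3 / δ) * (5 : ℝ) ^ (δ * i)) * (((5 : ℝ) ^ (δ * i))⁻¹ * ((5 : ℝ) ^ (-δ)) ^ i) :=
        mul_le_mul h7 h4 (by positivity) (by positivity)
    _ = (1 + 3 / δ) * ((5 : ℝ) ^ (-δ)) ^ i := by
        field_simp

lemma s5_num (δ : ℝ) (hδ : 0 < δ) (C : ℝ) (hC : 0 < C) (e i l : ℕ) (hl : l = 3 * i + 1)
    (L Q I : ℝ) (hI : 0 ≤ I) (hL : (5 : ℝ) ^ (2 * (5 / 6 + δ) * l) ≤ L)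
    (h : L * Q ≤ C * ((e : ℝ) ^ 2 *
      ((l : ℝ) * (25 : ℝ) ^ ((δ / 2) * l) * (5 ^ l * (25 : ℝ) ^ i))) * I) :
    Q ≤ C * (e : ℝ) ^ 2 * (1 + 3 / δ) * ((5 : ℝ) ^ (-δ)) ^ i * I := by
  rcases lt_or_ge Q 0 with hQ | hQ
  · exact hQ.le.trans (by positivity)
  set X : ℝ := (5 : ℝ) ^ (2 * (5 / 6 + δ) * l) with hX
  have hX0 : 0 < X := by positivity
  have h1 : X * Q ≤ C * ((e : ℝ) ^ 2 *
      ((l : ℝ) * (25 : ℝ) ^ ((δ / 2) * l) * (5 ^ l * (25 : ℝ) ^ i))) * I :=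
    (mul_le_mul_of_nonneg_right hL hQ).trans h
  have h2 : (25 : ℝ) ^ ((δ / 2) * l) * (5 ^ l * (25 : ℝ) ^ i) ≤ X * (5 : ℝ) ^ (-δ * l) := by
    have h25 : (25 : ℝ) = 5 ^ (2 : ℝ) := by norm_num
    rw [h25, hX, ← Real.rpow_natCast 5 l, ← Real.rpow_natCast ((5 : ℝ) ^ (2 : ℝ)) i,
      ← Real.rpow_mul (by norm_num), ← Real.rpow_mul (by norm_num),
      ← Real.rpow_add (by norm_num), ← Real.rpow_add (by norm_num),
      ← Real.rpow_add (by norm_num)]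
    apply Real.rpow_le_rpow_of_exponent_le (by norm_num)
    rw [hl]
    push_cast
    nlinarith [hδ, (Nat.cast_nonneg i : (0 : ℝ) ≤ i)]
  have h3 : X * Q ≤ X * (C * (e : ℝ) ^ 2 * (1 + 3 / δ) * ((5 : ℝ) ^ (-δ)) ^ i * I) := by
    have h4 := s5_lin δ hδ i
    rw [← hl] at h4
    calc X * Q ≤ C * ((e : ℝ) ^ 2 *
          ((l : ℝ) * (25 : ℝ) ^ ((δ / 2) * l) * (5 ^ l * (25 : ℝ) ^ i))) * I := h1
      _ = (C * (e : ℝ) ^ 2 * l * I) * ((25 : ℝ) ^ ((δ / 2) * l) * (5 ^ l * (25 : ℝ) ^ i)) := by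
          ring
      _ ≤ (C * (e : ℝ) ^ 2 * l * I) * (X * (5 : ℝ) ^ (-δ * l)) :=
          mul_le_mul_of_nonneg_left h2 (by positivity)
      _ = (X * (C * (e : ℝ) ^ 2) * I) * ((l : ℝ) * (5 : ℝ) ^ (-δ * l)) := by ring
      _ ≤ (X * (C * (e : ℝ) ^ 2) * I) * ((1 + 3 / δ) * ((5 : ℝ) ^ (-δ)) ^ i) :=
          mul_le_mul_of_nonneg_left h4 (by positivity)
      _ = _ := by ring
  exact le_of_mul_le_mul_left h3 hX0

/-- TARGET -/
theorem old_s (R : ℍ[ℝ]ˣ →* Iso 3) (hR : IsRot R) (δ : ℝ) (hδ : 0 < δ) (hδ6 : δ < 1 / 6) (E₁ : ℕ) :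
    ∃ N₁ : ℕ, 1 ≤ N₁ ∧ ∀ (e : ℕ) [NeZero e], e ≤ E₁ → Nat.Coprime e 5 → ∀ t : ZMod e × ZMod e, Sq t →
    ∀ H : Vec e → C(S 3, ℝ), AdmF H → ∀ lm : ℝ, l0 δ ≤ |lm| → |lm| ≤ 6 →
    (∀ u, TF R t H u = lm • H u) → 1 / 2 * ip H H ≤ QK (kk N₁) H := by
  obtain ⟨C₀, hC₀, hblock⟩ := s5_block (δ / 2) (by positivity)
  obtain ⟨q, hq⟩ : ∃ q : ℝ, q = (5 : ℝ) ^ (-δ) := ⟨_, rfl⟩
  have hq0 : 0 < q := hq ▸ Real.rpow_pos_of_pos (by norm_num) _
  have hq1 : q < 1 := hq ▸ Real.rpow_lt_one_of_one_lt_of_neg (by norm_num) (by linarith)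
  have h1q : 0 < 1 - q := by linarith
  obtain ⟨C, hCdef⟩ : ∃ C : ℝ, C = C₀ * ((E₁ : ℝ) + 1) ^ 2 * (1 + 3 / δ) := ⟨_, rfl⟩
  have hC : 0 < C := by rw [hCdef]; positivity
  obtain ⟨I₀, hI₀⟩ : ∃ I₀ : ℕ, C * q ^ I₀ / (1 - q) ≤ 1 / 2 := by
    obtain ⟨m, hm⟩ := exists_pow_lt_of_lt_one (show 0 < (1 - q) / (2 * C) by positivity) hq1
    refine ⟨m, ?_⟩
    rw [div_le_iff₀ h1q]
    have h3 : C * q ^ m ≤ C * ((1 - q) / (2 * C)) := mul_le_mul_of_nonneg_left hm.le hC.le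
    have h4 : C * ((1 - q) / (2 * C)) = 1 / 2 * (1 - q) := by field_simp
    linarith
  refine ⟨25 ^ I₀, Nat.one_le_pow _ _ (by norm_num), ?_⟩
  intro e _ heE hcop t ht H hadm lm hlm1 hlm2 heig
  have hI0 := nl_nonneg H
  -- the blocks
  have hb : ∀ i : ℕ, QK (fun x y => kk (25 ^ (i + 1)) x y - kk (25 ^ i) x y) H ≤
      C * q ^ i * ip H H := by
    intro i
    have h1 := hblock R hR e hcop t ht H hadm lm heig i
    have h2 := lam_sq_lower δ hδ hδ6 lm hlm1 hlm2 (3 * i + 1) (by omega)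
    have h3 := s5_num δ hδ C₀ hC₀ e i (3 * i + 1) rfl _ _ (ip H H) hI0 h2 h1
    rw [← hq] at h3
    refine h3.trans ?_
    have h4 : C₀ * (e : ℝ) ^ 2 * (1 + 3 / δ) ≤ C := by
      rw [hCdef]
      have h5 : (e : ℝ) ^ 2 ≤ ((E₁ : ℝ) + 1) ^ 2 := by
        have : (e : ℝ) ≤ E₁ := by exact_mod_cast heE
        exact pow_le_pow_left₀ (by positivity) (by linarith) 2
      gcongr
    gcongr
  have hstep : ∀ i : ℕ, QK (kk (25 ^ (i + 1))) H ≤ QK (kk (25 ^ i)) H + C * q ^ i * ip H H := by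
    intro i
    have h1 := hb i
    rw [nl_diff _ _ (Nat.one_le_pow _ _ (by norm_num)) (Nat.one_le_pow _ _ (by norm_num))] at h1
    linarith
  have hsum : ∀ j i : ℕ, QK (kk (25 ^ (j + i))) H ≤
      QK (kk (25 ^ j)) H + C * ip H H * ((q ^ j - q ^ (j + i)) / (1 - q)) := by
    intro j i
    induction i with
    | zero => simp
    | succ i ih =>
      have h2 := hstep (j + i)
      have h3 : C * ip H H * ((q ^ j - q ^ (j + (i + 1))) / (1 - q)) =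
          C * ip H H * ((q ^ j - q ^ (j + i)) / (1 - q)) + C * q ^ (j + i) * ip H H := by
        field_simp
        ring
      rw [h3]
      have h4 : j + (i + 1) = j + i + 1 := by ring
      rw [h4]
      linarith
  have hmain : ∀ j : ℕ, ip H H ≤ QK (kk (25 ^ j)) H + C * ip H H * (q ^ j / (1 - q)) := by
    intro j
    refine le_of_forall_pos_le_add fun ε hε => ?_
    obtain ⟨N₁, hN₁⟩ := nl_close H ε hε
    have h5 : N₁ ≤ 25 ^ (j + N₁) := by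
      have h2 : j + N₁ < 25 ^ (j + N₁) := Nat.lt_pow_self (by norm_num)
      omega
    have h2 := hN₁ _ h5
    have h3 := hsum j N₁
    have h4 : C * ip H H * ((q ^ j - q ^ (j + N₁)) / (1 - q)) ≤
        C * ip H H * (q ^ j / (1 - q)) := by
      refine mul_le_mul_of_nonneg_left ?_ (by positivity)
      refine div_le_div_of_nonneg_right ?_ h1q.le
      have : 0 < q ^ (j + N₁) := pow_pos hq0 _
      linarith
    linarith
  have h1 := hmain I₀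
  have h2 : C * ip H H * (q ^ I₀ / (1 - q)) = (C * q ^ I₀ / (1 - q)) * ip H H := by ring
  have h3 : (C * q ^ I₀ / (1 - q)) * ip H H ≤ 1 / 2 * ip H H :=
    mul_le_mul_of_nonneg_right hI₀ hI0
  linarith

end Pool.Agent.H978V.Q
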