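import Pool.Agent.H978V.SDefs
import Pool.Agent.H978V.S5

/-!
JOB S8a (owner helper978, MP_06cce2_nt).  `H978V/*.lean` (library, with `SDefs`, `Q/*.lean`) is on origin/main.

Supremum norm of the families in the span of the eigenfamilies with large eigenvalues, bounded level.
-/

set_option autoImplicit false

open MeasureTheory Set
open scoped Quaternion

namespace Pool.Agent.H978V.Q

open Pool.Agent.H978V Pool.Agent.Helper557.Rz


namespace S8a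

section
variable {e : ℕ} [NeZero e]

/-- the eigenspaces -/
noncomputable def Eg (R : ℍ[ℝ]ˣ →* Iso 3) (t : ZMod e × ZMod e) (lm : ℝ) :
    Submodule ℝ (Vec e → C(S 3, ℝ)) where
  carrier := {F | AdmF F ∧ G9.TL R t F = lm • F}
  add_mem' := by
    rintro F G ⟨h1, h2⟩ ⟨h3, h4⟩
    exact ⟨mx_adm_add h1 h3, by rw [map_add, h2, h4, smul_add]⟩
  zero_mem' := ⟨mx_adm_zero, by rw [map_zero, smul_zero]⟩
  smul_mem' := by
    rintro c F ⟨h1, h2⟩
    exact ⟨mx_adm_smul c h1, by rw [map_smul, h2, smul_comm]⟩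

theorem mem_Eg {R : ℍ[ℝ]ˣ →* Iso 3} {t : ZMod e × ZMod e} {lm : ℝ} {F : Vec e → C(S 3, ℝ)} :
    F ∈ Eg R t lm ↔ AdmF F ∧ ∀ u, TF R t F u = lm • F u :=
  ⟨fun h => ⟨h.1, fun u => congrFun h.2 u⟩, fun h => ⟨h.1, funext h.2⟩⟩

/-- good eigenvalues -/
abbrev Gd (δ : ℝ) : Type := {lm : ℝ // l0 δ ≤ |lm| ∧ |lm| ≤ 6}

theorem big_dec {R : ℍ[ℝ]ˣ →* Iso 3} {t : ZMod e × ZMod e} {δ : ℝ} {F : Vec e → C(S 3, ℝ)}
    (hF : F ∈ BigS R t δ) : ∃ f : Gd δ →₀ (Vec e → C(S 3, ℝ)), (∀ i, f i ∈ Eg R t i.1) ∧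
      ∑ i ∈ f.support, f i = F := by
  have h : BigS R t δ ≤ ⨆ i : Gd δ, Eg R t i.1 := by
    unfold BigS
    rw [Submodule.span_le]
    rintro G ⟨h1, lm, h2, h3, h4⟩
    exact Submodule.mem_iSup_of_mem (p := fun i : Gd δ => Eg R t i.1) ⟨lm, h2, h3⟩
      (mem_Eg.2 ⟨h1, h4⟩)
  exact (Submodule.mem_iSup_iff_exists_finsupp _ _).1 (h hF)

/-- the smoothing operator -/
noncomputable def ML (e : ℕ) (L : C(S 3, ℝ) →ₗ[ℝ] C(S 3, ℝ)) :
    (Vec e → C(S 3, ℝ)) →ₗ[ℝ] (Vec e → C(S 3, ℝ)) := L.compLeft (Vec e)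

theorem ML_apply (L : C(S 3, ℝ) →ₗ[ℝ] C(S 3, ℝ)) (F : Vec e → C(S 3, ℝ)) :
    ML e L F = fun u => L (F u) := rfl

theorem ML_Eg {R : ℍ[ℝ]ˣ →* Iso 3} {t : ZMod e × ZMod e} {lm : ℝ}
    {L : C(S 3, ℝ) →ₗ[ℝ] C(S 3, ℝ)} (hL : ∀ (g : Iso 3) ψ, L (cr g ψ) = cr g (L ψ))
    {F : Vec e → C(S 3, ℝ)} (hF : F ∈ Eg R t lm) : ML e L F ∈ Eg R t lm := by
  rw [mem_Eg] at hF ⊢
  refine ⟨G9.adm_L hF.1 L, fun u => ?_⟩
  rw [ML_apply, G9.TF_L R t F L hL, hF.2, map_smul]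

theorem ML_big {R : ℍ[ℝ]ˣ →* Iso 3} {t : ZMod e × ZMod e} {δ : ℝ}
    {L : C(S 3, ℝ) →ₗ[ℝ] C(S 3, ℝ)} (hL : ∀ (g : Iso 3) ψ, L (cr g ψ) = cr g (L ψ))
    {F : Vec e → C(S 3, ℝ)} (hF : F ∈ BigS R t δ) : ML e L F ∈ BigS R t δ := by
  have h : BigS R t δ ≤ (BigS R t δ).comap (ML e L) := by
    conv_lhs => unfold BigS
    rw [Submodule.span_le]
    rintro G ⟨h1, lm, h2, h3, h4⟩
    refine Submodule.subset_span ⟨G9.adm_L h1 L, lm, h2, h3, fun u => ?_⟩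
    rw [ML_apply, G9.TF_L R t G L hL, h4, map_smul]
  exact h hF

theorem orth {R : ℍ[ℝ]ˣ →* Iso 3} (hR : IsRot R) (h5 : Nat.Coprime e 5) {t : ZMod e × ZMod e}
    (ht : Sq t) {a b : ℝ} (hab : a ≠ b) {F G : Vec e → C(S 3, ℝ)} (hF : F ∈ Eg R t a)
    (hG : G ∈ Eg R t b) : ip F G = 0 := by
  rw [mem_Eg] at hF hG
  have h1 := G9.TF_sym R hR h5 ht (F := F) (G := G) hG.1
  have h2 : TF R t F = a • F := funext hF.2
  have h3 : TF R t G = b • G := funext hG.2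
  rw [h2, h3, mx_ip_smul, mx_ip_smul_right] at h1
  have h4 : (a - b) * ip F G = 0 := by linarith
  rcases mul_eq_zero.1 h4 with h | h
  · exact absurd (sub_eq_zero.1 h) hab
  · exact h

theorem half {R : ℍ[ℝ]ˣ →* Iso 3} (hR : IsRot R) (h5 : Nat.Coprime e 5) {t : ZMod e × ZMod e}
    (ht : Sq t) {δ : ℝ} {N : ℕ} {L : C(S 3, ℝ) →ₗ[ℝ] C(S 3, ℝ)} (hL1 : ∀ ψ x, L ψ x = MN N ψ x)
    (hL : ∀ (g : Iso 3) ψ, L (cr g ψ) = cr g (L ψ))
    (hN : ∀ H : Vec e → C(S 3, ℝ), AdmF H → ∀ lm : ℝ, l0 δ ≤ |lm| → |lm| ≤ 6 →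
      (∀ u, TF R t H u = lm • H u) → 1 / 2 * ip H H ≤ QK (kk N) H)
    {F : Vec e → C(S 3, ℝ)} (hF : F ∈ BigS R t δ) : 1 / 2 * ip F F ≤ ip (ML e L F) F := by
  obtain ⟨f, hf, rfl⟩ := big_dec hF
  classical
  have h1 : ∀ i ∈ f.support, ip (f i) (∑ j ∈ f.support, f j) = ip (f i) (f i) := by
    intro i hi
    rw [mx_ip_sum_right, Finset.sum_eq_single i]
    · intro j _ hj
      exact orth hR h5 ht (fun h => hj (Subtype.ext h.symm)) (hf i) (hf j)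
    · intro h
      exact absurd hi h
  have h2 : ∀ i ∈ f.support, ip (ML e L (f i)) (∑ j ∈ f.support, f j) = ip (ML e L (f i)) (f i) := by
    intro i hi
    rw [mx_ip_sum_right, Finset.sum_eq_single i]
    · intro j _ hj
      exact orth hR h5 ht (fun h => hj (Subtype.ext h.symm)) (ML_Eg hL (hf i)) (hf j)
    · intro h
      exact absurd hi h
  rw [map_sum, mx_ip_sum, mx_ip_sum, Finset.sum_congr rfl h1, Finset.sum_congr rfl h2,
    Finset.mul_sum]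
  refine Finset.sum_le_sum fun i _ => ?_
  have h3 := mem_Eg.1 (hf i)
  have h4 := hN (f i) h3.1 i.1 i.2.1 i.2.2 h3.2
  rw [G9.QK_L N (f i) L hL1] at h4
  rw [mx_ip_comm (ML e L (f i)) (f i)]
  exact h4

theorem surj {R : ℍ[ℝ]ˣ →* Iso 3} (hR : IsRot R) (h5 : Nat.Coprime e 5) {t : ZMod e × ZMod e}
    (ht : Sq t) {δ : ℝ} {N : ℕ} {L : C(S 3, ℝ) →ₗ[ℝ] C(S 3, ℝ)} (hL1 : ∀ ψ x, L ψ x = MN N ψ x)
    (hL2 : FiniteDimensional ℝ (LinearMap.range L))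
    (hL : ∀ (g : Iso 3) ψ, L (cr g ψ) = cr g (L ψ))
    (hN : ∀ H : Vec e → C(S 3, ℝ), AdmF H → ∀ lm : ℝ, l0 δ ≤ |lm| → |lm| ≤ 6 →
      (∀ u, TF R t H u = lm • H u) → 1 / 2 * ip H H ≤ QK (kk N) H)
    {F : Vec e → C(S 3, ℝ)} (hF : F ∈ BigS R t δ) : ∃ H ∈ BigS R t δ, ML e L H = F := by
  have hfd1 : FiniteDimensional ℝ
      (LinearMap.range ((LinearMap.range L).subtype.compLeft (Vec e))) := inferInstance
  have hfd2 : FiniteDimensional ℝ (LinearMap.range (ML e L)) := by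
    refine Submodule.finiteDimensional_of_le
      (S₂ := LinearMap.range ((LinearMap.range L).subtype.compLeft (Vec e))) ?_
    rintro _ ⟨G, rfl⟩
    exact ⟨fun u => ⟨L (G u), G u, rfl⟩, rfl⟩
  have hinj0 : ∀ G ∈ BigS R t δ, ML e L G = 0 → G = 0 := by
    intro G hG h0
    have h1 := half hR h5 ht hL1 hL hN hG
    rw [h0] at h1
    have h2 : ip (0 : Vec e → C(S 3, ℝ)) G = 0 := by
      have := mx_ip_smul (0 : ℝ) (0 : Vec e → C(S 3, ℝ)) G
      simpa using this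
    by_contra hne
    have h3 := G9.ip_pos hne
    linarith
  let f1 : BigS R t δ →ₗ[ℝ] LinearMap.range (ML e L) := (ML e L).rangeRestrict.comp (BigS R t δ).subtype
  have hf1 : Function.Injective f1 := by
    rw [injective_iff_map_eq_zero]
    intro G hG
    have h1 : ML e L (G : Vec e → C(S 3, ℝ)) = 0 := congrArg Subtype.val hG
    exact Subtype.ext (hinj0 G.1 G.2 h1)
  have hfd3 : FiniteDimensional ℝ (BigS R t δ) := FiniteDimensional.of_injective f1 hf1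
  let f2 : BigS R t δ →ₗ[ℝ] BigS R t δ := (ML e L).restrict (fun G hG => ML_big hL hG)
  have hf2 : Function.Injective f2 := by
    rw [injective_iff_map_eq_zero]
    intro G hG
    have h1 : ML e L (G : Vec e → C(S 3, ℝ)) = 0 := congrArg Subtype.val hG
    exact Subtype.ext (hinj0 G.1 G.2 h1)
  obtain ⟨H, hH⟩ := (LinearMap.injective_iff_surjective.1 hf2) ⟨F, hF⟩
  exact ⟨H.1, H.2, congrArg Subtype.val hH⟩

theorem point {N : ℕ} {L : C(S 3, ℝ) →ₗ[ℝ] C(S 3, ℝ)} (hL1 : ∀ ψ x, L ψ x = MN N ψ x)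
    (H : Vec e → C(S 3, ℝ)) (u : Vec e) (x : S 3) : |L (H u) x| ≤ N * Real.sqrt (ip H H) := by
  classical
  have := sg_prob 3 (by norm_num)
  let k : C(S 3, ℝ) := ⟨fun y => kk N x y, ev_kk_cont N x⟩
  let G : Vec e → C(S 3, ℝ) := fun v => if v = u then k else 0
  have h1 : ip G H = L (H u) x := by
    rw [mx_ip, Finset.sum_eq_single u]
    · show II ((if u = u then k else 0) * H u) = _
      rw [if_pos rfl, hL1, II_apply]
      rfl
    · intro v _ hv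
      show II ((if v = u then k else 0) * H v) = 0
      rw [if_neg hv, zero_mul, map_zero]
    · intro h
      exact absurd (Finset.mem_univ _) h
  have h2 : ip G G = II (k * k) := by
    rw [mx_ip, Finset.sum_eq_single u]
    · show II ((if u = u then k else 0) * (if u = u then k else 0)) = _
      rw [if_pos rfl]
    · intro v _ hv
      show II ((if v = u then k else 0) * (if v = u then k else 0)) = 0
      rw [if_neg hv, zero_mul, map_zero]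
    · intro h
      exact absurd (Finset.mem_univ _) h
  have h3 : II (k * k) ≤ (N : ℝ) ^ 2 := by
    refine (le_abs_self _).trans ((II_le _).trans ?_)
    rw [ContinuousMap.norm_le _ (by positivity)]
    intro y
    have h4 := ker_nonneg 3 x y
    have h5 : 0 ≤ kk N x y := mul_nonneg (Nat.cast_nonneg _) (pow_nonneg h4.1 _)
    have h6 : kk N x y ≤ N := by
      unfold kk
      exact mul_le_of_le_one_right (Nat.cast_nonneg _) (pow_le_one₀ h4.1 h4.2)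
    show ‖kk N x y * kk N x y‖ ≤ _
    rw [Real.norm_of_nonneg (mul_nonneg h5 h5), pow_two]
    exact mul_le_mul h6 h6 h5 (Nat.cast_nonneg _)
  rw [← h1]
  refine (mx_cs G H).trans (mul_le_mul_of_nonneg_right ?_ (Real.sqrt_nonneg _))
  rw [h2]
  exact Real.sqrt_le_iff.2 ⟨Nat.cast_nonneg _, h3⟩

end

end S8a

/-- TARGET -/
theorem bad_sup_low (R : ℍ[ℝ]ˣ →* Iso 3) (hR : IsRot R) (δ : ℝ) (hδ : 0 < δ) (hδ6 : δ < 1 / 6) (E₁ : ℕ) :
    ∃ C : ℝ, 0 < C ∧ ∀ (e : ℕ) [NeZero e], e ≤ E₁ → Nat.Coprime e 5 → ∀ t : ZMod e × ZMod e, Sq t →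
    ∀ F ∈ BigS R t δ, ∀ (u : Vec e) (x : S 3), |F u x| ≤ C * Real.sqrt (ip F F) := by
  obtain ⟨N₁, hN₁, hN⟩ := old_s R hR δ hδ hδ6 E₁
  obtain ⟨L, hL1, hL2, hL3, -⟩ := MN_facts N₁ hN₁
  have hN0 : (0 : ℝ) < N₁ := by exact_mod_cast hN₁
  refine ⟨2 * N₁, by positivity, ?_⟩
  intro e _ he h5 t ht F hF u x
  obtain ⟨H, hH, rfl⟩ := S8a.surj hR h5 ht hL1 hL2 hL3 (hN e he h5 t ht) hF
  have h1 := S8a.half hR h5 ht hL1 hL3 (hN e he h5 t ht) hH
  have h2 := (le_abs_self _).trans (mx_cs (S8a.ML e L H) H)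
  have h3 := mx_ip_nonneg H
  have h4 : Real.sqrt (ip H H) ≤ 2 * Real.sqrt (ip (S8a.ML e L H) (S8a.ML e L H)) := by
    have h5 : Real.sqrt (ip H H) * Real.sqrt (ip H H) = ip H H := Real.mul_self_sqrt h3
    rcases (Real.sqrt_nonneg (ip H H)).eq_or_lt with h6 | h6
    · rw [← h6]
      positivity
    · have h7 : Real.sqrt (ip H H) * Real.sqrt (ip H H) ≤
          (2 * Real.sqrt (ip (S8a.ML e L H) (S8a.ML e L H))) * Real.sqrt (ip H H) := by
        rw [h5]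
        linarith
      exact le_of_mul_le_mul_right h7 h6
  calc |S8a.ML e L H u x| = |L (H u) x| := rfl
    _ ≤ N₁ * Real.sqrt (ip H H) := S8a.point hL1 H u x
    _ ≤ N₁ * (2 * Real.sqrt (ip (S8a.ML e L H) (S8a.ML e L H))) :=
        mul_le_mul_of_nonneg_left h4 hN0.le
    _ = _ := by ring

end Pool.Agent.H978V.Q
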