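import Pool.Agent.H978V.SDefs
import Pool.Agent.H978V.S6
import Pool.Agent.H978V.S7
import Pool.Agent.H978V.S8a

/-!
JOB S8b (owner helper978, MP_06cce2_nt).  `H978V/*.lean` (library, with `SDefs`, `Q/*.lean`) is on origin/main.

Supremum norm of the families in the span of the eigenfamilies with large eigenvalues, all levels.

PROOF.  `E₁` from `pull_back`, `C` from `bad_sup_low E₁`.  For `F ∈ BigS R t δ` at level `D`: `c, h` from `pull_back`; `P = G9.PF h F` is in `BigS R (cst h t) δ` (`PF` is additive and homogeneous; `G9.adm_PF`, `G9.TF_PF`, `cst_sq`; span induction; `c` is coprime to `5`).  `F` is admissible (all members of `BigS` are).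
`F u = (NU c/NU D) • P (red h u)` for unimodular `u`, `F u = 0` otherwise.  `ip F F = ∑_{u unimodular} (NU c/NU D)² ∫ P(red h u)² = (NU c/NU D)² · (NU D/NU c) · ip P P = (NU c/NU D) ip P P` (`fiber_const`; `P w = 0` for `w` not unimodular).
So `|F u x| = (NU c/NU D) |P (red h u) x| ≤ (NU c/NU D) C √(ip P P) = C √(NU c/NU D) √(ip F F)`, and `NU c ≤ c² ≤ E₁²`.  `C₁ = C E₁`.
-/

set_option autoImplicit false

open MeasureTheory Set
open scoped Quaternion

namespace Pool.Agent.H978V.Q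

open Pool.Agent.H978V Pool.Agent.Helper557.Rz




namespace S8b

variable {D : ℕ}

/-- fibre sums as a linear map -/
noncomputable def PL [NeZero D] {c : ℕ} (h : c ∣ D) : (Vec D → C(S 3, ℝ)) →ₗ[ℝ] (Vec c → C(S 3, ℝ)) where
  toFun := G9.PF h
  map_add' F G := by
    funext w
    show (∑ u : Vec D, if red h u = w then (F + G) u else 0) =
      (∑ u : Vec D, if red h u = w then F u else 0) + ∑ u : Vec D, if red h u = w then G u else 0
    rw [← Finset.sum_add_distrib]
    refine Finset.sum_congr rfl fun u _ => ?_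
    split_ifs
    · rfl
    · rw [add_zero]
  map_smul' c F := by
    funext w
    show (∑ u : Vec D, if red h u = w then (c • F) u else 0) =
      c • ∑ u : Vec D, if red h u = w then F u else 0
    rw [Finset.smul_sum]
    refine Finset.sum_congr rfl fun u _ => ?_
    split_ifs
    · rfl
    · rw [smul_zero]

theorem PL_apply [NeZero D] {c : ℕ} (h : c ∣ D) (F : Vec D → C(S 3, ℝ)) : PL h F = G9.PF h F := rfl

theorem supp_BigS (R : ℍ[ℝ]ˣ →* Iso 3) (t : ZMod D × ZMod D) (δ : ℝ) {F : Vec D → C(S 3, ℝ)}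
    (hF : F ∈ BigS R t δ) (u : Vec D) (hu : ¬ Uni u) : F u = 0 := by
  unfold BigS at hF
  induction hF using Submodule.span_induction with
  | mem G hG => exact hG.1.supp u hu
  | zero => rfl
  | add G H _ _ h1 h2 => rw [Pi.add_apply, h1, h2, add_zero]
  | smul c G _ h1 => rw [Pi.smul_apply, h1, smul_zero]

theorem PF_BigS [NeZero D] (R : ℍ[ℝ]ˣ →* Iso 3) (h5 : Nat.Coprime D 5) {c : ℕ} [NeZero c] (h : c ∣ D)
    (h5' : Nat.Coprime c 5) {t : ZMod D × ZMod D} (ht : Sq t) (δ : ℝ) {F : Vec D → C(S 3, ℝ)}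
    (hF : F ∈ BigS R t δ) : G9.PF h F ∈ BigS R (cst h t) δ := by
  rw [← PL_apply]
  unfold BigS at hF ⊢
  induction hF using Submodule.span_induction with
  | mem G hG =>
    refine Submodule.subset_span ⟨G9.adm_PF h hG.1, ?_⟩
    obtain ⟨lm, h1, h2, h3⟩ := hG.2
    refine ⟨lm, h1, h2, fun w => ?_⟩
    rw [PL_apply, G9.TF_PF R h5 h5' h ht]
    unfold G9.PF
    rw [Finset.smul_sum]
    refine Finset.sum_congr rfl fun u _ => ?_
    rw [h3 u, smul_ite, smul_zero]
  | zero => rw [map_zero]; exact Submodule.zero_mem _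
  | add G H _ _ h1 h2 => rw [map_add]; exact Submodule.add_mem _ h1 h2
  | smul c G _ h1 => rw [map_smul]; exact Submodule.smul_mem _ _ h1

theorem NU_pos (D : ℕ) [NeZero D] : 0 < NU D := by
  classical
  unfold NU
  rw [Finset.card_pos]
  refine ⟨fun i => if i = 0 then 1 else 0, ?_⟩
  rw [Finset.mem_filter]
  refine ⟨Finset.mem_univ _, ?_⟩
  unfold Uni
  simp only [if_true]
  exact isCoprime_one_left

theorem NU_le (D : ℕ) [NeZero D] : NU D ≤ D ^ 2 := by
  classical
  unfold NU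
  refine (Finset.card_le_univ _).trans ?_
  rw [Fintype.card_fun, ZMod.card, Fintype.card_fin]

open Classical in
theorem fiber_all {c : ℕ} [NeZero D] [NeZero c] (h : c ∣ D) (P : Vec c → C(S 3, ℝ))
    (hP : ∀ w, ¬ Uni w → P w = 0) :
    (NU c : ℝ) * ∑ u ∈ Finset.univ.filter (fun u : Vec D => Uni u), II (P (red h u) * P (red h u)) =
      NU D * ip P P := by
  have h1 : ∑ u ∈ Finset.univ.filter (fun u : Vec D => Uni u), II (P (red h u) * P (red h u)) =
      ∑ w : Vec c, ((Finset.univ.filter (fun u : Vec D => Uni u ∧ red h u = w)).card : ℝ) *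
        II (P w * P w) := by
    rw [← Finset.sum_fiberwise (Finset.univ.filter (fun u : Vec D => Uni u)) (fun u => red h u)]
    refine Finset.sum_congr rfl fun w _ => ?_
    rw [Finset.filter_filter]
    rw [Finset.sum_congr rfl (g := fun _ => II (P w * P w))]
    · rw [Finset.sum_const, nsmul_eq_mul]
    · intro u hu
      rw [(Finset.mem_filter.1 hu).2.2]
  rw [h1, G9.ip_eq, Finset.mul_sum, Finset.mul_sum]
  refine Finset.sum_congr rfl fun w _ => ?_
  by_cases hw : Uni w
  · rw [← mul_assoc, mul_comm (NU c : ℝ), fiber_const h w hw]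
  · rw [hP w hw]
    simp

end S8b

/-- TARGET -/
theorem bad_sup (R : ℍ[ℝ]ˣ →* Iso 3) (hR : IsRot R) (δ : ℝ) (hδ : 0 < δ) (hδ6 : δ < 1 / 6) :
    ∃ C₁ : ℝ, 0 < C₁ ∧ ∀ (D : ℕ) [NeZero D], Odd D → Nat.Coprime D 5 → ∀ t : ZMod D × ZMod D, Sq t →
    ∀ F ∈ BigS R t δ, ∀ (u : Vec D) (x : S 3),
      |F u x| ≤ C₁ * Real.sqrt (ip F F) / Real.sqrt (NU D) := by
  obtain ⟨E₁, hE1, hpb⟩ := pull_back R hR δ hδ hδ6
  obtain ⟨C, hC, hlow⟩ := bad_sup_low R hR δ hδ hδ6 E₁
  have hE1' : (1 : ℝ) ≤ E₁ := by exact_mod_cast hE1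
  refine ⟨C * E₁, by positivity, ?_⟩
  intro D _ hD h5 t ht F hF u x
  by_cases hu : Uni u
  swap
  · rw [S8b.supp_BigS R t δ hF u hu]
    simp only [ContinuousMap.zero_apply, abs_zero]
    positivity
  obtain ⟨c, hcz, h, hcE, hpull⟩ := hpb D hD h5 t ht
  have hc5 : Nat.Coprime c 5 := h5.coprime_dvd_left h
  have hPB : G9.PF h F ∈ BigS R (cst h t) δ := S8b.PF_BigS R h5 h hc5 ht δ hF
  have hl := hlow c hcE hc5 (cst h t) (cst_sq h ht) (G9.PF h F) hPB (red h u) x
  have hfib := S8b.fiber_all h (G9.PF h F) (fun w hw => S8b.supp_BigS R (cst h t) δ hPB w hw)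
  set P := G9.PF h F with hPdef
  have hd : (0 : ℝ) < NU D := by exact_mod_cast S8b.NU_pos D
  have ha : (0 : ℝ) < NU c := by exact_mod_cast S8b.NU_pos c
  have ha2 : (NU c : ℝ) ≤ (E₁ : ℝ) ^ 2 := by
    have h1 : NU c ≤ E₁ ^ 2 := (S8b.NU_le c).trans (Nat.pow_le_pow_left hcE 2)
    exact_mod_cast h1
  -- the inner products
  have hip : (NU D : ℝ) ^ 2 * ip F F = (NU c : ℝ) * (NU D * ip P P) := by
    classical
    rw [← hfib, G9.ip_eq, ← Finset.sum_filter_of_ne (s := Finset.univ) (p := fun u : Vec D => Uni u)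
      (f := fun u => II (F u * F u)), Finset.mul_sum, ← mul_assoc, Finset.mul_sum]
    · refine Finset.sum_congr rfl fun v hv => ?_
      have hv' : Uni v := (Finset.mem_filter.1 hv).2
      have e1 : II (((NU D : ℝ) • F v) * ((NU D : ℝ) • F v)) = (NU D : ℝ) ^ 2 * II (F v * F v) := by
        rw [smul_mul_smul_comm, map_smul, smul_eq_mul, _root_.sq]
      have e2 : II (((NU c : ℝ) • P (red h v)) * ((NU c : ℝ) • P (red h v))) =
          (NU c : ℝ) * NU c * II (P (red h v) * P (red h v)) := by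
        rw [smul_mul_smul_comm, map_smul, smul_eq_mul]
      rw [← e1, ← e2, hpull F hF v hv']
    · intro v _ hv
      by_contra hnv
      rw [S8b.supp_BigS R t δ hF v hnv] at hv
      simp at hv
  have hip2 : (NU D : ℝ) * ip F F = NU c * ip P P := by
    have h1 : (NU D : ℝ) * (NU D * ip F F) = NU D * (NU c * ip P P) := by
      calc (NU D : ℝ) * (NU D * ip F F) = (NU D : ℝ) ^ 2 * ip F F := by ring
        _ = _ := hip
        _ = _ := by ring
    exact mul_left_cancel₀ hd.ne' h1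
  have hF0 : 0 ≤ ip F F := G9.ip_nonneg F
  have hP0 : 0 ≤ ip P P := G9.ip_nonneg P
  -- pointwise
  have hpt : (NU D : ℝ) * |F u x| = NU c * |P (red h u) x| := by
    have h1 := congrArg (fun f : C(S 3, ℝ) => |f x|) (hpull F hF u hu)
    simp only [ContinuousMap.smul_apply, smul_eq_mul, abs_mul, abs_of_pos hd, abs_of_pos ha] at h1
    exact h1
  have hs1 : Real.sqrt (NU c) * Real.sqrt (ip P P) = Real.sqrt (NU D) * Real.sqrt (ip F F) := by
    rw [← Real.sqrt_mul ha.le, ← Real.sqrt_mul hd.le, hip2]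
  have hsc : Real.sqrt (NU c) ≤ E₁ := by
    rw [Real.sqrt_le_left (by positivity)]
    exact ha2
  have hsd : 0 < Real.sqrt (NU D) := Real.sqrt_pos.2 hd
  have hsd2 : Real.sqrt (NU D) * Real.sqrt (NU D) = NU D := Real.mul_self_sqrt hd.le
  have hsc2 : Real.sqrt (NU c) * Real.sqrt (NU c) = NU c := Real.mul_self_sqrt ha.le
  rw [le_div_iff₀ hsd]
  have key : Real.sqrt (NU D) * (|F u x| * Real.sqrt (NU D)) ≤
      Real.sqrt (NU D) * (C * E₁ * Real.sqrt (ip F F)) := by
    calc Real.sqrt (NU D) * (|F u x| * Real.sqrt (NU D)) =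
          (Real.sqrt (NU D) * Real.sqrt (NU D)) * |F u x| := by ring
      _ = NU D * |F u x| := by rw [hsd2]
      _ = NU c * |P (red h u) x| := hpt
      _ ≤ NU c * (C * Real.sqrt (ip P P)) := mul_le_mul_of_nonneg_left hl ha.le
      _ = (Real.sqrt (NU c) * Real.sqrt (NU c)) * (C * Real.sqrt (ip P P)) := by rw [hsc2]
      _ = Real.sqrt (NU c) * C * (Real.sqrt (NU c) * Real.sqrt (ip P P)) := by ring
      _ = Real.sqrt (NU c) * (C * (Real.sqrt (NU D) * Real.sqrt (ip F F))) := by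
          rw [hs1]; ring
      _ ≤ E₁ * (C * (Real.sqrt (NU D) * Real.sqrt (ip F F))) :=
          mul_le_mul_of_nonneg_right hsc (by positivity)
      _ = _ := by ring
  exact le_of_mul_le_mul_left key hsd

end Pool.Agent.H978V.Q
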