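import Pool.Agent.H978V.SDefs
import Pool.Agent.H978V.S10
import Pool.Agent.H978V.S11
import Pool.Agent.H978V.S8b

/-!
JOB S12 (owner helper978, MP_06cce2_nt).  `H978V/*.lean` (library, with `SDefs`, `Q/*.lean`) is on origin/main.

Mixing with the exponent `5/6`.  READ `H978V/Q/G9.lean` (`gap_unif`: passage to the limit) and `H978V/Q/G10.lean` (`mixing`).

PROOF.  `C₁` from `bad_sup`, `l₁` from `gap_unif`.  `i₀` with `((6 + l₁)/12)^i₀ * C₁² ≤ 1/4`.  `C = 10` (see below).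
Given `D, t, F, G` nonnegative admissible.  For `N ≥ 1`: `L = L_N` from `MN_facts N` (`L ψ x = MN N ψ x`), `F_N u = L (F u)`, `G_N u = L (G u)`: admissible (`G9.adm_L`), nonnegative (`kk ≥ 0`), `tot F_N = tot F` (`G9.tot_L`).  `F_N⁰ = F_N - (tot F/NU D) • mxU D`: admissible, `tot F_N⁰ = 0`, values in the range of `L` (`L 1 = 1`: the constants are in the range; `MN N 1 = 1` by `hL4` or directly), so `F_N⁰ ∈ G9.VN D L`.  Same for `G`.
For `H ∈ BigS R t δ` with `tot H = 0` (`H` is admissible): `ip (mxU D) H = tot H = 0` (`mx_ip_U`), so `|ip F_N⁰ H| = |ip F_N H| ≤ (sup |H|) tot F_N ≤ (C₁ √(ip H H)/√(NU D)) tot F`: `a = C₁ tot F/√(NU D)`; same `b`.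
`spec_VN`: `|ip (PW F_N⁰) G_N⁰| ≤ (6+l₁)^i₀ (6·5^(i-1)) C₁² tot F tot G/NU D + 12^i₀ · 2(i+1)(5^(5/6+δ))^i √(ip F_N⁰ F_N⁰) √(ip G_N⁰ G_N⁰)`, and `ip F_N⁰ F_N⁰ ≤ ip F_N F_N` (as in `mixing`).
`ip (PW F_N) G_N = ip (PW F_N⁰) G_N⁰ + 12^i₀ (6·5^(i-1)) tot F tot G/NU D` (`pw_add, pw_smul, pw_U, pw_tot, pw_adm`, `mx_ip_U`).
Let `N → ∞`: `F_N → F`, `G_N → G` (as in `gap_unif`), `pw_cont`, `G9.ip_cont`: with `M = 12^i₀ (6·5^(i-1)) tot F tot G/NU D ≥ 0`: `ip (PW F) G ≥ M - (1/4) M - 12^i₀ · 2(i+1)(5^(5/6+δ))^i √(ip F F) √(ip G G)`.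
By hypothesis `C (i+1) √ √ ≤ (5^(1/6-δ))^i tot F tot G/NU`; multiply by `(5^(5/6+δ))^i`: `C (i+1) (5^(5/6+δ))^i √ √ ≤ 5^i tot F tot G/NU`; so the last term is at most `12^i₀ (2/C) 5^i tot F tot G/NU = (5/3)/C · M ≤ M/4` for `C = 10`.
So `ip (PW F) G ≥ (1/2) M`; if all words of length `≤ i₀ + i` had `ip (actw w F) G < (1/2) tot F tot G/NU`, `pw_words` would give `ip (PW F) G < (1/2) M`.
-/

set_option autoImplicit false

open MeasureTheory Set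
open scoped Quaternion

namespace Pool.Agent.H978V.Q

open Pool.Agent.H978V Pool.Agent.Helper557.Rz










/-! ### auxiliary lemmas for `mixing_s` -/

section mss

lemma ms_II_mono {f g : C(S 3, ℝ)} (h : ∀ x, f x ≤ g x) : II f ≤ II g := by
  rw [II_apply, II_apply]
  exact integral_mono (intc f) (intc g) h

lemma ms_II_nn {f : C(S 3, ℝ)} (h : ∀ x, 0 ≤ f x) : 0 ≤ II f := by
  rw [II_apply]
  exact integral_nonneg h

lemma ms_tot_nn {D : ℕ} [NeZero D] {F : Vec D → C(S 3, ℝ)} (h : ∀ u x, 0 ≤ F u x) : 0 ≤ tot F := by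
  rw [mx_tot]
  exact Finset.sum_nonneg fun v _ => ms_II_nn (h v)

/-- bound of an inner product by the supremum of one factor -/
lemma ms_ip_sup {D : ℕ} [NeZero D] {F H : Vec D → C(S 3, ℝ)} (h : ∀ u x, 0 ≤ F u x) {M : ℝ}
    (hM : ∀ u x, |H u x| ≤ M) : |ip F H| ≤ M * tot F := by
  rw [mx_ip, mx_tot, Finset.mul_sum]
  refine (Finset.abs_sum_le_sum_abs _ _).trans (Finset.sum_le_sum fun v _ => ?_)
  rw [abs_le]
  constructor
  · have h1 : II ((-M) • F v) ≤ II (F v * H v) := ms_II_mono fun x => by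
      show (-M) * F v x ≤ F v x * H v x
      have h2 := (abs_le.1 (hM v x)).1
      nlinarith [h v x]
    rw [map_smul, smul_eq_mul] at h1
    linarith
  · have h1 : II (F v * H v) ≤ II (M • F v) := ms_II_mono fun x => by
      show F v x * H v x ≤ M * F v x
      have h2 := (abs_le.1 (hM v x)).2
      nlinarith [h v x]
    rwa [map_smul, smul_eq_mul] at h1

lemma ms_big_adm {D : ℕ} [NeZero D] {R : ℍ[ℝ]ˣ →* Iso 3} {t : ZMod D × ZMod D} {δ : ℝ}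
    {H : Vec D → C(S 3, ℝ)} (hH : H ∈ BigS R t δ) : AdmF H := by
  unfold BigS at hH
  induction hH using Submodule.span_induction with
  | mem x hx => exact hx.1
  | zero => exact mx_adm_zero
  | add x y _ _ hx hy => exact mx_adm_add hx hy
  | smul c x _ hx => exact mx_adm_smul c hx

lemma ms_tot_U (D : ℕ) [NeZero D] : tot (mxU D) = NU D := by rw [← mx_NU D, mx_ip_U mxU_adm]

/-- removing the mean -/
lemma ms_zero {D : ℕ} [NeZero D] {F : Vec D → C(S 3, ℝ)} (hF : AdmF F) :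
    AdmF (F + (-(tot F / NU D)) • mxU D) ∧ tot (F + (-(tot F / NU D)) • mxU D) = 0 ∧
      ip (F + (-(tot F / NU D)) • mxU D) (F + (-(tot F / NU D)) • mxU D) ≤ ip F F := by
  have hN := mx_NU_pos D
  set c := tot F / NU D with hc
  refine ⟨mx_adm_add hF (mx_adm_smul _ mxU_adm), ?_, ?_⟩
  · rw [mx_tot_add, mx_tot_smul, ms_tot_U, hc]
    field_simp
    ring
  · have e1 : ip F (mxU D) = tot F := by rw [mx_ip_comm, mx_ip_U hF]
    rw [mx_ip_add, mx_ip_add_right, mx_ip_add_right, mx_ip_smul, mx_ip_smul, mx_ip_smul_right,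
      mx_ip_smul_right, mx_NU, mx_ip_U hF, e1]
    have e2 : c * NU D = tot F := by
      rw [hc]
      field_simp
    have e4 : 0 ≤ c * tot F := by
      rw [hc, div_mul_eq_mul_div]
      exact div_nonneg (mul_self_nonneg _) hN.le
    have e5 : -c * (-c * (NU D : ℝ)) = c * tot F := by rw [← e2]; ring
    rw [e5]
    linarith

/-- the inequality for families with values in a stable finite-dimensional space -/
lemma ms_one (R : ℍ[ℝ]ˣ →* Iso 3) (hR : IsRot R) (δ : ℝ) (hδ : 0 < δ) {C₁ : ℝ} (hC₁ : 0 < C₁)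
    (D : ℕ) [NeZero D] (h5 : Nat.Coprime D 5) (t : ZMod D × ZMod D) (ht : Sq t)
    (hsup : ∀ F ∈ BigS R t δ, ∀ (u : Vec D) (x : S 3),
      |F u x| ≤ C₁ * Real.sqrt (ip F F) / Real.sqrt (NU D))
    (l₁ : ℝ) (hl0 : 0 ≤ l₁) (hl6 : l₁ < 6)
    (hgap : ∀ F : Vec D → C(S 3, ℝ), AdmF F → tot F = 0 → ip (TF R t F) F ≤ l₁ * ip F F)
    (L : C(S 3, ℝ) →ₗ[ℝ] C(S 3, ℝ)) (hL2 : FiniteDimensional ℝ (LinearMap.range L))
    (hL : ∀ (g : Iso 3) ψ, L (cr g ψ) = cr g (L ψ)) (hone : (1 : C(S 3, ℝ)) ∈ LinearMap.range L)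
    (F G : Vec D → C(S 3, ℝ)) (hF : AdmF F) (hG : AdmF G)
    (hFr : ∀ u, F u ∈ LinearMap.range L) (hGr : ∀ u, G u ∈ LinearMap.range L)
    (hF0 : ∀ u x, 0 ≤ F u x) (hG0 : ∀ u x, 0 ≤ G u x) (i₀ i : ℕ) (hi : 1 ≤ i) :
    12 ^ i₀ * (6 * 5 ^ (i - 1)) * (tot F * tot G / NU D) -
      (6 + l₁) ^ i₀ * (6 * 5 ^ (i - 1)) * (C₁ ^ 2 * (tot F * tot G / NU D)) ≤
    ip (PW R t i₀ i F) G + 12 ^ i₀ * (2 * (i + 1) * ((5 : ℝ) ^ (5 / 6 + δ)) ^ i) *
      (Real.sqrt (ip F F) * Real.sqrt (ip G G)) := by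
  have hN := mx_NU_pos D
  have hsN : 0 < Real.sqrt (NU D) := Real.sqrt_pos.2 hN
  have htF := ms_tot_nn hF0
  have htG := ms_tot_nn hG0
  obtain ⟨hFa, hFt, hFi⟩ := ms_zero hF
  obtain ⟨hGa, hGt, hGi⟩ := ms_zero hG
  set c := tot F / NU D with hc
  set d := tot G / NU D with hd
  set F₀ := F + (-c) • mxU D with hF₀
  set G₀ := G + (-d) • mxU D with hG₀
  have hmem : ∀ (H : Vec D → C(S 3, ℝ)) (b : ℝ), (∀ u, H u ∈ LinearMap.range L) →
      ∀ u, (H + b • mxU D) u ∈ LinearMap.range L := by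
    intro H b hH u
    rw [Pi.add_apply, Pi.smul_apply]
    refine Submodule.add_mem _ (hH u) (Submodule.smul_mem _ _ ?_)
    unfold mxU
    split_ifs
    · exact hone
    · exact Submodule.zero_mem _
  have hFV : F₀ ∈ G9.VN D L := ⟨hFa, hFt, hmem F (-c) hFr⟩
  have hGV : G₀ ∈ G9.VN D L := ⟨hGa, hGt, hmem G (-d) hGr⟩
  have hkey : ∀ (E : Vec D → C(S 3, ℝ)) (b : ℝ), (∀ u x, 0 ≤ E u x) → ∀ H ∈ BigS R t δ, tot H = 0 →
      |ip (E + b • mxU D) H| ≤ C₁ * tot E / Real.sqrt (NU D) * Real.sqrt (ip H H) := by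
    intro E b hE H hH hH0
    rw [mx_ip_add, mx_ip_smul, mx_ip_U (ms_big_adm hH), hH0, mul_zero, add_zero]
    have h1 := ms_ip_sup hE (hsup H hH)
    have h2 : C₁ * Real.sqrt (ip H H) / Real.sqrt (NU D) * tot E =
        C₁ * tot E / Real.sqrt (NU D) * Real.sqrt (ip H H) := by ring
    rwa [h2] at h1
  have hsp := spec_VN R hR δ hδ D h5 t ht l₁ hl0 hl6 hgap L hL2 hL F₀ G₀ hFV hGV
    (C₁ * tot F / Real.sqrt (NU D)) (C₁ * tot G / Real.sqrt (NU D)) (by positivity) (by positivity)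
    (hkey F (-c) hF0) (hkey G (-d) hG0) i₀ i hi
  have hab : C₁ * tot F / Real.sqrt (NU D) * (C₁ * tot G / Real.sqrt (NU D)) =
      C₁ ^ 2 * (tot F * tot G / NU D) := by
    have h1 : Real.sqrt (NU D) * Real.sqrt (NU D) = NU D := Real.mul_self_sqrt hN.le
    rw [div_mul_div_comm, h1]
    ring
  rw [hab] at hsp
  have e5 : F = F₀ + c • mxU D := by rw [hF₀, neg_smul, neg_add_cancel_right]
  have e6 : G = G₀ + d • mxU D := by rw [hG₀, neg_smul, neg_add_cancel_right]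
  have h4 : ip (PW R t i₀ i F) G = ip (PW R t i₀ i F₀) G₀ +
      12 ^ i₀ * (6 * 5 ^ (i - 1)) * (tot F * tot G / NU D) := by
    have h1 : ip (PW R t i₀ i F₀) (mxU D) = 0 := by
      rw [mx_ip_comm, mx_ip_U (pw_adm R h5 t ht i₀ i F₀ hFa), pw_tot R hR h5 t ht i₀ i hi F₀ hFa, hFt,
        mul_zero]
    have h2 : ip (PW R t i₀ i F₀) G = ip (PW R t i₀ i F₀) G₀ := by
      conv_lhs => rw [e6]
      rw [mx_ip_add_right, mx_ip_smul_right, h1, mul_zero, add_zero]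
    conv_lhs => rw [e5]
    rw [pw_add, pw_smul, pw_U R h5 t ht i₀ i hi, mx_ip_add, mx_ip_smul, mx_ip_smul, mx_ip_U hG, h2, hc]
    ring
  have h7 : Real.sqrt (ip F₀ F₀) * Real.sqrt (ip G₀ G₀) ≤ Real.sqrt (ip F F) * Real.sqrt (ip G G) :=
    mul_le_mul (Real.sqrt_le_sqrt hFi) (Real.sqrt_le_sqrt hGi) (Real.sqrt_nonneg _)
      (Real.sqrt_nonneg _)
  have h8 : 12 ^ i₀ * (2 * (i + 1) * ((5 : ℝ) ^ (5 / 6 + δ)) ^ i) *
      (Real.sqrt (ip F₀ F₀) * Real.sqrt (ip G₀ G₀)) ≤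
      12 ^ i₀ * (2 * (i + 1) * ((5 : ℝ) ^ (5 / 6 + δ)) ^ i) *
      (Real.sqrt (ip F F) * Real.sqrt (ip G G)) := by
    refine mul_le_mul_of_nonneg_left h7 ?_
    positivity
  have h9 := (abs_le.1 hsp).1
  rw [h4]
  linarith

lemma ms_tendsto {D : ℕ} [NeZero D] (F : Vec D → C(S 3, ℝ)) (G : ℕ → Vec D → C(S 3, ℝ))
    (hG : ∀ N, 1 ≤ N → ∀ u x, G N u x = MN N (F u) x) :
    Filter.Tendsto G Filter.atTop (nhds F) := by
  rw [tendsto_pi_nhds]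
  intro u
  rw [Metric.tendsto_atTop]
  intro ε hε
  obtain ⟨N₁, hN₁, h1⟩ := MN_tendsto (F u) (ε / 2) (by positivity)
  refine ⟨N₁, fun N hN => ?_⟩
  have h2 : dist (G N u) (F u) ≤ ε / 2 := by
    rw [ContinuousMap.dist_le (by positivity)]
    intro x
    rw [Real.dist_eq, hG N (hN₁.trans hN)]
    exact h1 N hN x
  linarith

lemma ms_MN_nn (N : ℕ) {ψ : C(S 3, ℝ)} (h : ∀ x, 0 ≤ ψ x) (x : S 3) : 0 ≤ MN N ψ x := by
  unfold MN
  refine integral_nonneg fun y => mul_nonneg ?_ (h y)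
  unfold kk
  exact mul_nonneg (Nat.cast_nonneg N) (pow_nonneg (ker_nonneg 3 x y).1 _)

lemma ms_MN_one (N : ℕ) (hN : 1 ≤ N) (x : S 3) : MN N (1 : C(S 3, ℝ)) x = 1 := by
  have h := ker3 N hN x
  unfold MN
  rw [← h]
  refine integral_congr_ae (Filter.Eventually.of_forall fun y => ?_)
  show kk N x y * 1 = kk N x y
  rw [mul_one]

end mss

/-- TARGET -/
theorem mixing_s (R : ℍ[ℝ]ˣ →* Iso 3) (hR : IsRot R) (δ : ℝ) (hδ : 0 < δ) (hδ6 : δ < 1 / 6) :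
    ∃ (i₀ : ℕ) (C : ℝ), 0 < C ∧ ∀ (D : ℕ) [NeZero D], Odd D → Nat.Coprime D 5 →
    ∀ t : ZMod D × ZMod D, Sq t → ∀ F G : Vec D → C(S 3, ℝ), AdmF F → AdmF G →
    (∀ u x, 0 ≤ F u x) → (∀ u x, 0 ≤ G u x) → ∀ i : ℕ, 1 ≤ i →
    C * (i + 1) * (Real.sqrt (ip F F) * Real.sqrt (ip G G)) ≤
      ((5 : ℝ) ^ (1 / 6 - δ)) ^ i * (tot F * tot G / NU D) →
    ∃ w : List (Fin 6), w.length ≤ i₀ + i ∧
      1 / 2 * (tot F * tot G / NU D) ≤ ip (actw R t w F) G := by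
  obtain ⟨C₁, hC₁, hsup⟩ := bad_sup R hR δ hδ hδ6
  obtain ⟨l₁, hl0, hl6, hgap⟩ := gap_unif R hR
  obtain ⟨i₀, hi₀⟩ : ∃ i₀ : ℕ, (6 + l₁) ^ i₀ * C₁ ^ 2 ≤ 12 ^ i₀ * (1 / 4) := by
    obtain ⟨n, hn⟩ := exists_pow_lt_of_lt_one (x := 1 / (4 * C₁ ^ 2)) (y := (6 + l₁) / 12)
      (by positivity) (by linarith)
    refine ⟨n, ?_⟩
    rw [div_pow, div_lt_div_iff₀ (by positivity) (by positivity)] at hn
    linarith
  refine ⟨i₀, 10, by norm_num, ?_⟩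
  intro D _ hodd h5 t ht F G hF hG hF0 hG0 i hi hyp
  by_contra hcon
  push Not at hcon
  have hN := mx_NU_pos D
  have htF := ms_tot_nn hF0
  have htG := ms_tot_nn hG0
  set T := tot F * tot G / NU D with hT
  have hT0 : 0 ≤ T := by positivity
  have h1 := pw_words R t ht (1 / 2 * T) G i₀ i hi F hcon
  set K : ℝ := 12 ^ i₀ * (2 * (i + 1) * ((5 : ℝ) ^ (5 / 6 + δ)) ^ i) with hK
  set M : ℝ := 12 ^ i₀ * (6 * 5 ^ (i - 1)) * T with hM
  have hch : ∀ N : ℕ, 1 ≤ N → ∃ F' G' : Vec D → C(S 3, ℝ), (∀ u x, F' u x = MN N (F u) x) ∧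
      (∀ u x, G' u x = MN N (G u) x) ∧
      3 / 4 * M ≤ ip (PW R t i₀ i F') G' + K * (Real.sqrt (ip F' F') * Real.sqrt (ip G' G')) := by
    intro N hN
    obtain ⟨L, hL1, hL2, hL3, hL4⟩ := MN_facts N hN
    refine ⟨fun u => L (F u), fun u => L (G u), fun u x => hL1 _ _, fun u x => hL1 _ _, ?_⟩
    have hone : (1 : C(S 3, ℝ)) ∈ LinearMap.range L := by
      refine ⟨1, ?_⟩
      ext x
      rw [hL1, ms_MN_one N hN]
      rfl
    have h2 := ms_one R hR δ hδ hC₁ D h5 t ht (hsup D hodd h5 t ht) l₁ hl0 hl6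
      (hgap D hodd h5 t ht) L hL2 hL3 hone (fun u => L (F u)) (fun u => L (G u))
      (G9.adm_L hF L) (G9.adm_L hG L) (fun u => ⟨F u, rfl⟩) (fun u => ⟨G u, rfl⟩)
      (fun u x => by rw [hL1]; exact ms_MN_nn N (hF0 u) x)
      (fun u x => by rw [hL1]; exact ms_MN_nn N (hG0 u) x) i₀ i hi
    rw [G9.tot_L F L hL4, G9.tot_L G L hL4, ← hT, ← hK, ← hM] at h2
    refine le_trans ?_ h2
    have h3 : (6 + l₁) ^ i₀ * (6 * 5 ^ (i - 1)) * (C₁ ^ 2 * T) =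
        ((6 + l₁) ^ i₀ * C₁ ^ 2) * ((6 * 5 ^ (i - 1)) * T) := by ring
    have h4 : ((6 + l₁) ^ i₀ * C₁ ^ 2) * ((6 * 5 ^ (i - 1)) * T) ≤
        (12 ^ i₀ * (1 / 4)) * ((6 * 5 ^ (i - 1)) * T) :=
      mul_le_mul_of_nonneg_right hi₀ (by positivity)
    have h5 : (12 ^ i₀ * (1 / 4)) * ((6 * 5 ^ (i - 1)) * T) = 1 / 4 * M := by rw [hM]; ring
    rw [h3]
    linarith
  choose! F' G' hF' hG' hFG using hch
  have hlF := ms_tendsto F F' hF'
  have hlG := ms_tendsto G G' hG'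
  have hc : Continuous (fun p : (Vec D → C(S 3, ℝ)) × (Vec D → C(S 3, ℝ)) =>
      ip (PW R t i₀ i p.1) p.2 + K * (Real.sqrt (ip p.1 p.1) * Real.sqrt (ip p.2 p.2))) :=
    (pw_cont R t i₀ i).add (continuous_const.mul
      ((Real.continuous_sqrt.comp (G9.ip_cont.comp continuous_fst)).mul
        (Real.continuous_sqrt.comp (G9.ip_cont.comp continuous_snd))))
  have hl := (hc.tendsto (F, G)).comp (hlF.prodMk_nhds hlG)
  have hz : 3 / 4 * M ≤ ip (PW R t i₀ i F) G + K * (Real.sqrt (ip F F) * Real.sqrt (ip G G)) := by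
    refine ge_of_tendsto hl ?_
    filter_upwards [Filter.eventually_ge_atTop 1] with N hN
    exact hFG N hN
  -- the hypothesis
  have hpow : ((5 : ℝ) ^ (5 / 6 + δ)) ^ i * ((5 : ℝ) ^ (1 / 6 - δ)) ^ i = 5 ^ i := by
    rw [← mul_pow, ← Real.rpow_add (by norm_num)]
    have : (5 / 6 + δ + (1 / 6 - δ) : ℝ) = 1 := by ring
    rw [this, Real.rpow_one]
  have h5i : (5 : ℝ) ^ i = 5 * 5 ^ (i - 1) := by
    rw [← pow_succ']
    congr 1
    omega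
  have hp : 0 < ((5 : ℝ) ^ (5 / 6 + δ)) ^ i := by positivity
  have h6 := mul_le_mul_of_nonneg_left hyp hp.le
  rw [← mul_assoc _ _ T, hpow, h5i] at h6
  have h7 : K * (Real.sqrt (ip F F) * Real.sqrt (ip G G)) ≤ 12 ^ i₀ * (5 ^ (i - 1) * T) := by
    have h8 : K * (Real.sqrt (ip F F) * Real.sqrt (ip G G)) = 12 ^ i₀ * (1 / 5 *
        (((5 : ℝ) ^ (5 / 6 + δ)) ^ i * (10 * (i + 1) *
          (Real.sqrt (ip F F) * Real.sqrt (ip G G))))) := by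
      rw [hK]; ring
    rw [h8]
    refine mul_le_mul_of_nonneg_left ?_ (by positivity)
    linarith
  have h9 : 12 ^ i₀ * (5 ^ (i - 1) * T) = 1 / 6 * M := by rw [hM]; ring
  have h10 : 0 ≤ M := by positivity
  have h11 : 12 ^ i₀ * (6 * 5 ^ (i - 1)) * (1 / 2 * T) = 1 / 2 * M := by rw [hM]; ring
  rw [h11] at h1
  linarith

end Pool.Agent.H978V.Q
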