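import Pool.Agent.H978V.MDefs
import Pool.Agent.H978V.Q.G10

/-!
# Large eigenvalues of the six gates on the product of the sphere and the vectors modulo `D`: definitions
-/

set_option autoImplicit false

open MeasureTheory Set
open scoped Quaternion

namespace Pool.Agent.H978V.Q

open Pool.Agent.H978V Pool.Agent.Helper557.Rz

/-- the threshold for large eigenvalues of the six gates -/
noncomputable def l0 (δ : ℝ) : ℝ := (5 : ℝ) ^ (5 / 6 + δ) + (5 : ℝ) ^ (1 / 6 - δ)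

/-- admissible eigenfamilies with an eigenvalue of absolute value between `l0 δ` and `6` -/
def Big {D : ℕ} (R : ℍ[ℝ]ˣ →* Iso 3) (t : ZMod D × ZMod D) (δ : ℝ) (F : Vec D → C(S 3, ℝ)) : Prop :=
  AdmF F ∧ ∃ lm : ℝ, l0 δ ≤ |lm| ∧ |lm| ≤ 6 ∧ ∀ u, TF R t F u = lm • F u

/-- their span -/
noncomputable def BigS {D : ℕ} (R : ℍ[ℝ]ˣ →* Iso 3) (t : ZMod D × ZMod D) (δ : ℝ) :
    Submodule ℝ (Vec D → C(S 3, ℝ)) :=
  Submodule.span ℝ {F | Big R t δ F}

/-- the sum over the reduced words of length `i`, after `i₀` lazy steps -/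
noncomputable def PW {D : ℕ} [NeZero D] (R : ℍ[ℝ]ˣ →* Iso 3) (t : ZMod D × ZMod D) (i₀ i : ℕ)
    (F : Vec D → C(S 3, ℝ)) : Vec D → C(S 3, ℝ) :=
  ∑ w ∈ RW i, actw R t w ((mxL R t ^ i₀) F)

end Pool.Agent.H978V.Q
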