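import Pool.Agent.H978V.NDefs
import Pool.Agent.H978V.SDefs
import Pool.Agent.H978V.M7
import Pool.Agent.H978V.S12

/-!
JOB E3 (owner helper978, MP_06cce2_nt).  `H978V/*.lean` (library, with `SDefs`, `NDefs`, `M7`) is on origin/main.

Variant of `hit_g` of `H978V/M7.lean` (PROVED; READ IT and copy its proof, its auxiliary lemmas can be used) with the mixing theorem `Q.mixing_s` instead of `Q.mixing`.

DIFFERENCES.  `R` is obtained as there.  `fA`, `fB` are nonnegative (`fam` is a sum of kernels `kk ≥ 0`).  `Q.mixing_s R hR δ` gives `i₀, C'`.  With `ip fB fB ≤ φ(D) EB`, `ip fA fA ≤ φ(D) EA`, `tot fB = |Z| φ(D)`, `tot fA = |RW j| φ(D)` (as in `M7`, `φ = totient`), `NU D ≤ D²`, the hypothesis of `mixing_s` follows from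
`C'² (i+1)² EA EB NU² ≤ (5^(1/6-δ))^(2i) φ² |Z|² |RW j|²`: `C = C'²`.
-/

set_option autoImplicit false

open MeasureTheory Set
open scoped Quaternion

namespace Pool.Agent.H978V

open Pool.Agent.Helper557.Rz

namespace Q


end Q

/-- real arithmetic for the hypothesis of the mixing theorem -/
lemma hs_real (K C' ph z c NUr D2 A B EA EB : ℝ) (i : ℕ) (hK : 0 < K) (hC : 0 < C') (hph : 0 < ph)
    (hz : 0 < z) (hc : 0 < c) (hNU : 0 < NUr) (hD2 : NUr ≤ D2) (hEA : 0 ≤ EA) (hEB : 0 ≤ EB)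
    (hA : A ≤ ph * EA) (hB : B ≤ ph * EB)
    (h : C' ^ 2 * ((i : ℝ) + 1) ^ 2 * D2 ^ 2 * (EA * EB) ≤
      K ^ (2 * i) * ph ^ 2 * z ^ 2 * c ^ 2) :
    C' * (i + 1) * (Real.sqrt B * Real.sqrt A) ≤ K ^ i * ((ph * z) * (ph * c) / NUr) := by
  have hD20 : 0 < D2 := hNU.trans_le hD2
  have h1 : Real.sqrt B * Real.sqrt A ≤ ph * Real.sqrt (EA * EB) := by
    calc Real.sqrt B * Real.sqrt A ≤ Real.sqrt (ph * EB) * Real.sqrt (ph * EA) :=
          mul_le_mul (Real.sqrt_le_sqrt hB) (Real.sqrt_le_sqrt hA) (Real.sqrt_nonneg _)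
            (Real.sqrt_nonneg _)
      _ = ph * Real.sqrt (EA * EB) := by
          rw [← Real.sqrt_mul (by positivity)]
          have : ph * EB * (ph * EA) = ph ^ 2 * (EA * EB) := by ring
          rw [this, Real.sqrt_mul (by positivity), Real.sqrt_sq hph.le]
  have h2 : C' * ((i : ℝ) + 1) * D2 * Real.sqrt (EA * EB) ≤ K ^ i * ph * z * c := by
    have hk : 0 ≤ K ^ i * ph * z * c := by positivity
    have h3 : C' * ((i : ℝ) + 1) * D2 * Real.sqrt (EA * EB) =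
        Real.sqrt (C' ^ 2 * ((i : ℝ) + 1) ^ 2 * D2 ^ 2 * (EA * EB)) := by
      have : C' ^ 2 * ((i : ℝ) + 1) ^ 2 * D2 ^ 2 * (EA * EB) =
        (C' * ((i : ℝ) + 1) * D2) ^ 2 * (EA * EB) := by ring
      rw [this, Real.sqrt_mul (sq_nonneg (C' * ((i : ℝ) + 1) * D2)), Real.sqrt_sq (by positivity)]
    rw [h3]
    refine Real.sqrt_le_iff.2 ⟨hk, h.trans (le_of_eq ?_)⟩
    rw [mul_pow, mul_pow, mul_pow, ← pow_mul, mul_comm i 2]
  calc C' * (i + 1) * (Real.sqrt B * Real.sqrt A)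
      ≤ C' * (i + 1) * (ph * Real.sqrt (EA * EB)) :=
        mul_le_mul_of_nonneg_left h1 (by positivity)
    _ = ph / D2 * (C' * ((i : ℝ) + 1) * D2 * Real.sqrt (EA * EB)) := by
        field_simp
    _ ≤ ph / D2 * (K ^ i * ph * z * c) := mul_le_mul_of_nonneg_left h2 (by positivity)
    _ = K ^ i * ((ph * z) * (ph * c) / D2) := by
        field_simp
    _ ≤ K ^ i * ((ph * z) * (ph * c) / NUr) := by
        refine mul_le_mul_of_nonneg_left ?_ (by positivity)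
        exact div_le_div_of_nonneg_left (by positivity) hNU hD2

lemma hs_fam_nonneg {D : ℕ} {ι : Type} (Z : Finset ι) (uz : ι → Vec D) (yz : ι → S 3) (N : ℕ)
    (u : Vec D) (x : S 3) : 0 ≤ fam Z uz yz N u x := by
  classical
  unfold fam
  rw [ContinuousMap.coe_sum, Finset.sum_apply]
  refine Finset.sum_nonneg fun z _ => ?_
  split_ifs
  · exact c2_kk_nonneg N x (yz z)
  · exact le_rfl

open Classical in
/-- TARGET -/
theorem hit_s (δ : ℝ) (hδ : 0 < δ) (hδ6 : δ < 1 / 6) : ∃ (i₀ : ℕ) (C : ℝ), 0 < C ∧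
    ∀ (D : ℕ) [NeZero D], Odd D → Nat.Coprime D 5 →
    ∀ t : ZMod D × ZMod D, Q.Sq t → ∀ (v : ℍ[ℤ]) (e : Vec D), Uni e → (Q.Ph t v).mulVec e = 0 →
    ∀ p₀ : ℍ[ℝ], UP p₀ → ∀ (n N j i : ℕ) (m : ℤ) (Z : Finset (ℤ × ℤ × ℤ))
    (EA EB : ℝ), 1 ≤ n → 1 ≤ N → 1 ≤ j → 1 ≤ i → IsCoprime m (D : ℤ) →
    (D : ℤ) ∣ m ^ 2 + n → Z ⊆ S3 n → Z.Nonempty →
    (∑ p ∈ (Z ×ˢ Z).filter (fun p => (D : ℤ) ∣ n - dt p.1 p.2),
      wt N (((n - dt p.1 p.2 : ℤ) : ℝ) / (8 * n))) ≤ EB →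
    (∑ w ∈ RW j, ∑ w' ∈ RW j,
      if Fx t e (qw w * star (qw w')) then wt N (Sp p₀ (qw w * star (qw w')) / (4 * 25 ^ j))
      else 0) ≤ EA →
    C * (i + 1) ^ 2 * (D : ℝ) ^ 4 * (EA * EB) ≤
      ((5 : ℝ) ^ (1 / 6 - δ)) ^ (2 * i) * (D.totient : ℝ) ^ 2 * (Z.card : ℝ) ^ 2 * (6 * 5 ^ (j - 1)) ^ 2 →
    ∃ y ∈ Z, ∃ γ : List (Fin 6), γ.length ≤ i₀ + i + j ∧ DvdQ D (v * (qw γ * mq m y)) ∧
      1 / (2 * (D : ℝ) ^ 2) ≤ wt N (‖rt γ (hat n y) - p₀‖ ^ 2 / 16) := by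
  obtain ⟨R, hR⟩ := exists_RQ
  obtain ⟨i₀, C', hC', hmix⟩ := Q.mixing_s R hR δ hδ hδ6
  refine ⟨i₀, C' ^ 2, by positivity, ?_⟩
  intro D _ hD h5 t ht v e he hve p₀ hp₀ n N j i m Z EA EB hn hN hj hi hmc hmn hZS hZ hEB hEA hmain
  have hK : (0 : ℝ) < (5 : ℝ) ^ (1 / 6 - δ) := by positivity
  have hD0 : 0 < D := NeZero.pos D
  have hn0 : (0 : ℝ) < n := by exact_mod_cast hn
  have hsn : 0 < Real.sqrt n := Real.sqrt_pos.2 hn0
  -- the target point
  obtain ⟨x₀, hx₀⟩ : ∃ x₀ : S 3, imq (x₀ : E 3) = p₀ := by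
    have h1 := hg_imq_norm (toV p₀)
    rw [imq_toV hp₀.1, hp₀.2] at h1
    have h4 := norm_nonneg (toV p₀)
    have hnorm : ‖toV p₀‖ = 1 := by nlinarith
    exact ⟨⟨toV p₀, mem_sphere_zero_iff_norm.2 hnorm⟩, imq_toV hp₀.1⟩
  subst hx₀
  -- the vectors
  have hu : ∀ y : ℤ × ℤ × ℤ, ∃ u : Vec D, y ∈ Z → (Uni u ∧
      (∀ z : Vec D, ∃ c : ZMod D, (Q.Ph t (mq m y)).mulVec z = c • u) ∧
      (Q.Ph t (star (mq m y))).mulVec u = 0) := by
    intro y
    by_cases hy : y ∈ Z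
    · have hS := mem_S3.1 (hZS hy)
      have hns : Quaternion.normSq (mq m y) = m ^ 2 + n := by
        rw [Quaternion.normSq_def', ← hS]
        simp only [mq]
        ring
      obtain ⟨u, hu⟩ := uvec_g D hD t ht (mq m y) (by rw [hns]; exact hmn) hmc
      exact ⟨u, fun _ => hu⟩
    · exact ⟨0, fun h => absurd h hy⟩
  choose u hu using hu
  -- the points of the sphere
  have hyh : ∀ y : ℤ × ℤ × ℤ, ∃ x : S 3, y ∈ Z → imq (x : E 3) = hat n y := by
    intro y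
    by_cases hy : y ∈ Z
    · have hS := mem_S3.1 (hZS hy)
      have hre : (hat n y).re = 0 := by
        unfold hat
        rw [Quaternion.re_smul]
        simp [cz, pq]
      have hnorm : ‖toV (hat n y)‖ = 1 := by
        have h1 := normSq_imq (toV (hat n y))
        rw [imq_toV hre] at h1
        have h5 : Quaternion.normSq (hat n y) =
            (1 / Real.sqrt n) ^ 2 * ((Quaternion.normSq (pq y) : ℤ) : ℝ) := by
          unfold hat
          rw [Quaternion.normSq_smul, hit_nsqr]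
        rw [h5] at h1
        have h2 : Quaternion.normSq (pq y) = n := by
          rw [Quaternion.normSq_def', ← hS]
          simp only [pq]
          ring
        rw [h2, one_div, inv_pow, Real.sq_sqrt hn0.le] at h1
        have h3 : (n : ℝ)⁻¹ * (((n : ℕ) : ℤ) : ℝ) = 1 := by
          push_cast
          exact inv_mul_cancel₀ hn0.ne'
        rw [h3] at h1
        have h4 := norm_nonneg (toV (hat n y))
        nlinarith
      exact ⟨⟨toV (hat n y), mem_sphere_zero_iff_norm.2 hnorm⟩, fun _ => imq_toV hre⟩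
    · exact ⟨ehat true, fun h => absurd h hy⟩
  choose yh hyh using hyh
  have hinn : ∀ y ∈ Z, ∀ y' ∈ Z, inner ℝ (yh y : E 3) (yh y' : E 3) = (dt y y' : ℝ) / n := by
    intro y hy y' hy'
    have co : ∀ y ∈ Z, (yh y : E 3) 0 = (1 / Real.sqrt n) * y.1 ∧
        (yh y : E 3) 1 = (1 / Real.sqrt n) * y.2.1 ∧
        (yh y : E 3) 2 = (1 / Real.sqrt n) * y.2.2 := by
      intro y hy
      have h1 := hyh y hy
      unfold hat at h1
      refine ⟨?_, ?_, ?_⟩
      · have := congrArg QuaternionAlgebra.imI h1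
        rw [Quaternion.imI_smul] at this
        exact this
      · have := congrArg QuaternionAlgebra.imJ h1
        rw [Quaternion.imJ_smul] at this
        exact this
      · have := congrArg QuaternionAlgebra.imK h1
        rw [Quaternion.imK_smul] at this
        exact this
    obtain ⟨a0, a1, a2⟩ := co y hy
    obtain ⟨b0, b1, b2⟩ := co y' hy'
    rw [PiLp.inner_apply, Fin.sum_univ_three, a0, a1, a2, b0, b1, b2]
    have h3 : (1 / Real.sqrt n) * (1 / Real.sqrt n) = (n : ℝ)⁻¹ := by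
      rw [one_div, ← mul_inv, Real.mul_self_sqrt hn0.le]
    unfold dt
    push_cast
    simp only [RCLike.inner_apply, conj_trivial]
    linear_combination ((y.1 : ℝ) * y'.1 + y.2.1 * y'.2.1 + y.2.2 * y'.2.2) * h3
  -- the two families
  obtain ⟨j', rfl⟩ : ∃ j', j = j' + 1 := ⟨j - 1, by omega⟩
  have hcard := hit_card j'
  have hRWne : (RW (j' + 1)).Nonempty := by
    rw [← Finset.card_pos, hcard]
    positivity
  have hphi : 0 < D.totient := Nat.totient_pos.2 hD0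
  have hphir : (0 : ℝ) < D.totient := by exact_mod_cast hphi
  have hNU := hit_NU D
  have hNUr : (0 : ℝ) < NU D := by exact_mod_cast hNU.1
  have hNU2 : (NU D : ℝ) ≤ (D : ℝ) ^ 2 := by exact_mod_cast hNU.2
  have hZr : (0 : ℝ) < Z.card := by exact_mod_cast hZ.card_pos
  have hUA : ∀ w ∈ RW (j' + 1), Uni ((Q.Ph t (star (qw w))).mulVec e) := fun w _ =>
    hg_Uni_star h5 ht w _ he
  have hUB : ∀ y ∈ Z, Uni (u y) := fun y hy => (hu y hy).1
  have hIB := hg_B hD ht n N m hn hN hmn Z u yh hUB (fun y hy => (hu y hy).2.1)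
    (fun y hy => (hu y hy).2.2) hinn
  have hIA := hg_A h5 ht N (j' + 1) hN e he R hR x₀ hp₀
  have hsB : ∑ y ∈ Z, ∑ y' ∈ Z, (if (D : ℤ) ∣ n - dt y y' then
        wt N (((n - dt y y' : ℤ) : ℝ) / (8 * n)) else 0) ≤ EB := by
    rw [Finset.sum_filter, Finset.sum_product] at hEB
    exact hEB
  have hEB0 : 0 ≤ EB := by
    refine le_trans (Finset.sum_nonneg fun y _ => Finset.sum_nonneg fun y' _ => ?_) hsB
    split_ifs
    · exact hit_wt0 _ _
    · exact le_rfl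
  have hEA0 : 0 ≤ EA := by
    refine le_trans (Finset.sum_nonneg fun y _ => Finset.sum_nonneg fun y' _ => ?_) hEA
    split_ifs
    · exact hit_wt0 _ _
    · exact le_rfl
  have hIB2 := hIB.trans (mul_le_mul_of_nonneg_left hsB hphir.le)
  have hIA2 := hIA.trans (mul_le_mul_of_nonneg_left hEA hphir.le)
  have htB := fam_tot Z u yh N hN hUB
  have htA := fam_tot (RW (j' + 1)) (fun w => (Q.Ph t (star (qw w))).mulVec e)
    (fun w => rot (R (uw w))⁻¹ x₀) N hN hUA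
  have hcr : ((RW (j' + 1)).card : ℝ) = 6 * 5 ^ j' := by
    rw [hcard]
    push_cast
    rfl
  have hjj : j' + 1 - 1 = j' := rfl
  rw [hjj] at hmain
  have hyp := hs_real ((5 : ℝ) ^ (1 / 6 - δ)) C' D.totient Z.card (6 * 5 ^ j') (NU D)
    ((D : ℝ) ^ 2) _ _ EA EB i hK hC' hphir
    hZr (by positivity) hNUr hNU2 hEA0 hEB0 hIA2 hIB2 (by
      have e : C' ^ 2 * ((i : ℝ) + 1) ^ 2 * ((D : ℝ) ^ 2) ^ 2 * (EA * EB) =
        C' ^ 2 * ((i : ℝ) + 1) ^ 2 * (D : ℝ) ^ 4 * (EA * EB) := by ring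
      rw [e]
      exact hmain)
  rw [← hcr, ← htA, ← htB] at hyp
  obtain ⟨w₀, hw₀, hbig⟩ := hmix D hD h5 t ht _ _ (fam_adm Z u yh N hUB)
    (fam_adm (RW (j' + 1)) (fun w => (Q.Ph t (star (qw w))).mulVec e)
      (fun w => rot (R (uw w))⁻¹ x₀) N hUA) (hs_fam_nonneg _ _ _ _) (hs_fam_nonneg _ _ _ _)
    i hi hyp
  have hUC : ∀ y ∈ Z, Uni ((Q.Ph t (star (qw w₀))).mulVec (u y)) := fun y hy =>
    hg_Uni_star h5 ht w₀ _ (hUB y hy)
  rw [actw_fam_g h5 R t ht, fam_ip _ _ _ _ _ _ N hN hUC hUA, htA, htB] at hbig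
  have hbig2 : (D.totient : ℝ) / (2 * NU D) * Z.card * (RW (j' + 1)).card ≤
      ∑ z ∈ Z, ∑ z' ∈ RW (j' + 1), if (∃ a : (ZMod D)ˣ,
        (Q.Ph t (star (qw z'))).mulVec e = (a : ZMod D) • (Q.Ph t (star (qw w₀))).mulVec (u z))
        then k2 N (rot (R (uw w₀))⁻¹ (yh z)) (rot (R (uw z'))⁻¹ x₀) else 0 := by
    have h1 : 1 / 2 * ((D.totient : ℝ) * Z.card * ((D.totient : ℝ) * (RW (j' + 1)).card) / NU D) =
        D.totient * ((D.totient : ℝ) / (2 * NU D) * Z.card * (RW (j' + 1)).card) := by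
      field_simp
    rw [h1] at hbig
    exact le_of_mul_le_mul_left hbig hphir
  obtain ⟨y, hy, w, hw, hyw⟩ := hit_avg Z (RW (j' + 1)) _ _ hZ hRWne hbig2
  have hpos : 0 < (D.totient : ℝ) / (2 * NU D) := by positivity
  have hbr : ∃ a : (ZMod D)ˣ, (Q.Ph t (star (qw w))).mulVec e =
      (a : ZMod D) • (Q.Ph t (star (qw w₀))).mulVec (u y) := by
    by_contra hc
    rw [if_neg hc] at hyw
    linarith
  rw [if_pos hbr] at hyw
  obtain ⟨a, ha⟩ := hbr
  have hγ : qw ((w₀.reverse.map (· + 3)) ++ w) = qw w * star (qw w₀) := by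
    rw [j9340_app, j9340_rev]
  have hlen : ((w₀.reverse.map (· + 3)) ++ w).length = w₀.length + w.length := by
    rw [List.length_append, List.length_map, List.length_reverse]
  -- the image of the product
  have him : ∀ z : Vec D,
      (Q.Ph t (v * (qw w * star (qw w₀) * mq m y))).mulVec z = 0 := by
    intro z
    obtain ⟨c, hc⟩ := (hu y hy).2.1 z
    have h1 : (a : ZMod D) • (Q.Ph t (qw w * star (qw w₀))).mulVec (u y) =
        ((5 : ZMod D) ^ w.length) • e := by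
      rw [Q.Ph_mul ht, ← Matrix.mulVec_mulVec, ← Matrix.mulVec_smul, ← ha, Matrix.mulVec_mulVec,
        hg_Ph_norm ht, Matrix.smul_mulVec, Matrix.one_mulVec]
    have h2 : (Q.Ph t (qw w * star (qw w₀))).mulVec (u y) =
        (((a⁻¹ : (ZMod D)ˣ) : ZMod D) * (5 : ZMod D) ^ w.length) • e := by
      rw [← smul_smul, ← h1, smul_smul, Units.inv_mul, one_smul]
    rw [Q.Ph_mul ht, Q.Ph_mul ht, ← Matrix.mulVec_mulVec, ← Matrix.mulVec_mulVec, hc,
      Matrix.mulVec_smul, h2, Matrix.mulVec_smul, Matrix.mulVec_smul, hve, smul_zero, smul_zero]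
  refine ⟨y, hy, (w₀.reverse.map (· + 3)) ++ w, ?_, ?_, ?_⟩
  · rw [hlen, hit_len hw]
    omega
  · rw [hγ]
    exact hg_kill hD ht _ him
  · have h6 : rt ((w₀.reverse.map (· + 3)) ++ w) (hat n y) =
        ((5 : ℝ) ^ (w₀.length + w.length))⁻¹ •
          (cz (qw w * star (qw w₀)) * imq (yh y : E 3) * star (cz (qw w * star (qw w₀)))) := by
      unfold rt
      rw [hγ, hlen, hyh y hy, one_div]
    rw [h6, ← hg_inner R hR w w₀ (yh y) x₀]
    refine le_trans ?_ (hyw.trans (k2_le N hN _ _).2)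
    rw [div_le_div_iff₀ (by positivity) (by positivity)]
    have h1 : (1 : ℝ) ≤ D.totient := by exact_mod_cast hphi
    nlinarith

end Pool.Agent.H978V
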