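import Pool.Agent.H978V.Defs2
import Pool.Agent.H705R2.MLogB
import Pool.Agent.H978V.B8b
import Pool.Agent.H978V.C1
import Pool.Agent.H978V.H2

/-!
JOB H3 (owner helper978, MP_06cce2_nt).  Starting files `Helper557/Rz/*`, `H705R2/MLogB.lean` (`MSW.prod_lower`: lower bound of `φ(q)/q`, or prove `φ(D) ≥ c D^{1-δ}` otherwise);
`H978V/{Ar,Defs,Defs2}.lean` are on origin/main.

Bookkeeping: the hitting theorem with the energy bounds inserted.

PROOF.  Let `δ₁ > 0` be small (depending on `δ` and `κ`), `δ' = δ₁`.  `EA = K_A (5^j N)^{δ₁} (25^j/D + N 5^j)`.  With `D N ≤ 5^j ≤ 25 D N`: `EA ≤ 650 K_A (25 D N²)^{δ₁} D N²`.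
`EB = K_B (n N)^{δ₁} (N|Z| + n/D)`.  `√n ≤ n^{δ₁}|Z|/c`, `N ≤ √n/D`, so `N|Z| ≤ n^{δ₁}|Z|²/(cD)`, `n/D ≤ n^{2δ₁}|Z|²/(c²D)`.
So `4 D⁴ EA EB ≤ K n^{C₀δ₁} D⁴ N² |Z|²` (`D, N ≤ √n ≤ n`), `C₀` an absolute constant.  The right side of the hypothesis of `hit` is `≥ κ^{2i} c₂² D^{2-2δ₁} |Z|² (36/25) D² N²` as `5^j ≥ D N` and `φ(D) ≥ c₂ D^{1-δ₁}`.
So it is enough that `κ^{2i} ≥ K' n^{(C₀+2)δ₁}`: take `i = ⌈(log K' + (C₀+2) δ₁ log n)/(2 log κ)⌉ ≤ δ log n + K''` if `(C₀+2) δ₁ ≤ 2 δ log κ`.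
(`energyB` gives its sum with `min N (N² exp (-((N-1)(n-dt)/(8n))))`, which is `wt N ((n-dt)/(8n))`.)
-/

set_option autoImplicit false

open MeasureTheory Set
open scoped Quaternion

namespace Pool.Agent.H978V

open Pool.Agent.Helper557.Rz




set_option maxHeartbeats 4000000 in
/-- TARGET -/
theorem hit_final (δ : ℝ) (hδ : 0 < δ) : ∃ δ' : ℝ, 0 < δ' ∧ ∀ c : ℝ, 0 < c → ∃ K : ℝ, 0 < K ∧
    ∀ (D : ℕ) [NeZero D], Odd D → Nat.Coprime D 5 → ∀ t : ZMod D, t * t = -1 →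
    ∀ (n N j : ℕ) (m s : ℤ) (Z : Finset (ℤ × ℤ × ℤ)) (sgn : Bool),
    1 ≤ n → 1 ≤ N → 1 ≤ j → (s = 1 ∨ s = 2) → IsCoprime m (D : ℤ) →
    (D : ℤ) ∣ m ^ 2 + s ^ 2 * n → Z ⊆ S3 n →
    c * (n : ℝ) ^ (1 / 2 - δ') ≤ (Z.card : ℝ) →
    (D : ℝ) * N ≤ Real.sqrt n → (D : ℝ) * N ≤ 5 ^ j → (5 : ℝ) ^ j ≤ 25 * (D * N) →
    ∃ y ∈ Z, ∃ γ : List (Fin 6), (γ.length : ℝ) ≤ j + δ * Real.log n + K ∧
      Ph t (qw γ * zq m s y) 1 0 = 0 ∧ Ph t (qw γ * zq m s y) 1 1 = 0 ∧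
      1 / (2 * (D : ℝ) ^ 2) ≤ wt N ((1 - (if sgn then (1 : ℝ) else -1) *
        ((qw γ * pq y * star (qw γ)).imI : ℝ) / (5 ^ γ.length * Real.sqrt n)) / 8) := by
  obtain ⟨κ, hκ, H⟩ := hit
  have hlk : 0 < Real.log κ := Real.log_pos hκ
  obtain ⟨δ₁, hδ₁⟩ : ∃ δ₁ : ℝ, δ₁ = 2 * δ * Real.log κ / 7 := ⟨_, rfl⟩
  have hδ₁p : 0 < δ₁ := by rw [hδ₁]; positivity
  obtain ⟨KA, hKA, hA⟩ := energyA δ₁ hδ₁p
  obtain ⟨KB, hKB, hB⟩ := energyB δ₁ hδ₁p
  obtain ⟨c₂, hc₂, hφ⟩ := Pool.Agent.H705R2.MSW.prod_lower hδ₁p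
  refine ⟨δ₁, hδ₁p, fun c hc => ?_⟩
  obtain ⟨P, hP⟩ : ∃ P : ℝ, P = (25 : ℝ) ^ δ₁ := ⟨_, rfl⟩
  have hPp : 0 < P := by rw [hP]; positivity
  obtain ⟨K', hK'⟩ : ∃ K' : ℝ, K' = 2600 * KA * KB * P * (1 / c + 1 / c ^ 2) * (25 / 36) / c₂ ^ 2 :=
    ⟨_, rfl⟩
  have hK'p : 0 < K' := by rw [hK']; positivity
  refine ⟨|Real.log K'| / (2 * Real.log κ) + 1, by positivity, ?_⟩
  intro D _ hDodd hD5 t ht n N j m s Z sgn hn hN hj hs hm hDm hZ hcard hL1 hL2 hL3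
  -- real numbers
  have hD1 : 1 ≤ D := Nat.one_le_iff_ne_zero.mpr (NeZero.ne D)
  have hDr : (1 : ℝ) ≤ D := by exact_mod_cast hD1
  have hNr : (1 : ℝ) ≤ N := by exact_mod_cast hN
  have hnr : (1 : ℝ) ≤ n := by exact_mod_cast hn
  have hn0 : (0 : ℝ) < n := by linarith
  have hD0 : (0 : ℝ) < D := by linarith
  have hN0 : (0 : ℝ) < N := by linarith
  obtain ⟨X, hX⟩ : ∃ X : ℝ, X = (n : ℝ) ^ δ₁ := ⟨_, rfl⟩
  have hX0 : 0 < X := by rw [hX]; positivity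
  have hX1 : 1 ≤ X := by rw [hX]; exact Real.one_le_rpow hnr hδ₁p.le
  obtain ⟨R, hR⟩ : ∃ R : ℝ, R = Real.sqrt n := ⟨_, rfl⟩
  have hR0 : 0 < R := by rw [hR]; exact Real.sqrt_pos.mpr hn0
  have hRR : R * R = n := by rw [hR]; exact Real.mul_self_sqrt hn0.le
  have hR1 : 1 ≤ R := by
    rw [hR]; exact Real.one_le_sqrt.mpr hnr
  rw [← hR] at hL1
  have hRn : R ≤ n := by nlinarith
  -- coprimality
  have hcop : Nat.Coprime n D := by
    rw [← Nat.isCoprime_iff_coprime]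
    have h1 : IsCoprime (m ^ 2) (D : ℤ) := hm.pow_left
    obtain ⟨k, hk⟩ := hDm
    have h2 : IsCoprime (s ^ 2 * n) (D : ℤ) := by
      have h3 : s ^ 2 * (n : ℤ) = -(m ^ 2) + D * k := by linarith
      rw [h3]
      exact (IsCoprime.neg_left h1).add_mul_left_left k
    exact h2.of_mul_left_right
  -- the number of points
  obtain ⟨z, hz⟩ : ∃ z : ℝ, z = (Z.card : ℝ) := ⟨_, rfl⟩
  have hzR : c * R ≤ X * z := by
    have h1 : (n : ℝ) ^ (1 / 2 - δ₁) * X = R := by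
      rw [hX, ← Real.rpow_add hn0, hR, Real.sqrt_eq_rpow]
      congr 1; ring
    rw [← h1, ← mul_assoc, mul_comm X z, hz]
    exact mul_le_mul_of_nonneg_right hcard hX0.le
  have hz0 : 0 < z := by
    have : 0 < X * z := lt_of_lt_of_le (by positivity) hzR
    exact (mul_pos_iff_of_pos_left hX0).mp this
  have hZne : Z.Nonempty := by
    rw [← Finset.card_pos]
    have : (0 : ℝ) < Z.card := by rw [← hz]; exact hz0
    exact_mod_cast this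
  -- the energies
  obtain ⟨M, hM⟩ : ∃ M : ℝ, M = (5 : ℝ) ^ j := ⟨_, rfl⟩
  rw [← hM] at hL2 hL3
  have hM0 : 0 < M := by rw [hM]; positivity
  have hM2 : (25 : ℝ) ^ j = M ^ 2 := by
    rw [hM, ← pow_mul, mul_comm, pow_mul]; norm_num
  have hDN2 : (D : ℝ) * N ^ 2 ≤ n := by
    have h1 : (D : ℝ) * N ^ 2 ≤ (D * N) * (D * N) := by
      have : (D : ℝ) * N ^ 2 * 1 ≤ D * N ^ 2 * D := by
        apply mul_le_mul_of_nonneg_left hDr (by positivity)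
      nlinarith
    have h2 : ((D : ℝ) * N) * (D * N) ≤ R * R := mul_le_mul hL1 hL1 (by positivity) hR0.le
    linarith
  have hEA : KA * ((5 : ℝ) ^ j * N) ^ δ₁ * (25 ^ j / D + N * 5 ^ j) ≤
      KA * (P * X) * (650 * (D * N ^ 2)) := by
    rw [hM2, ← hM]
    have h1 : (M * N) ^ δ₁ ≤ P * X := by
      rw [hP, hX, ← Real.mul_rpow (by norm_num) hn0.le]
      apply Real.rpow_le_rpow (by positivity) _ hδ₁p.le
      calc M * N ≤ 25 * (D * N) * N := mul_le_mul_of_nonneg_right hL3 hN0.le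
        _ = 25 * (D * N ^ 2) := by ring
        _ ≤ 25 * n := by linarith
    have h2 : M ^ 2 / D + N * M ≤ 650 * (D * N ^ 2) := by
      have h3 : M ^ 2 / D ≤ 625 * (D * N ^ 2) := by
        rw [div_le_iff₀ hD0]
        calc M ^ 2 = M * M := by ring
          _ ≤ (25 * (D * N)) * (25 * (D * N)) := mul_le_mul hL3 hL3 hM0.le (by positivity)
          _ = 625 * (D * N ^ 2) * D := by ring
      have h4 : N * M ≤ 25 * (D * N ^ 2) := by
        calc N * M ≤ N * (25 * (D * N)) := mul_le_mul_of_nonneg_left hL3 hN0.le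
          _ = 25 * (D * N ^ 2) := by ring
      linarith
    have h5 : 0 ≤ (M * N) ^ δ₁ := by positivity
    gcongr
  have hNR : (N : ℝ) ≤ R / D := by
    rw [le_div_iff₀ hD0, mul_comm]; exact hL1
  have hNn : (N : ℝ) ≤ n := by
    have : (N : ℝ) ≤ D * N := by nlinarith
    linarith
  have hRz : R ≤ X * z / c := by
    rw [le_div_iff₀ hc, mul_comm]; exact hzR
  have hEB : KB * ((n : ℝ) * N) ^ δ₁ * (N * Z.card + n / D) ≤
      KB * X ^ 2 * (X ^ 2 * (1 / c + 1 / c ^ 2) * z ^ 2 / D) := by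
    rw [← hz]
    have h1 : ((n : ℝ) * N) ^ δ₁ ≤ X ^ 2 := by
      calc ((n : ℝ) * N) ^ δ₁ ≤ ((n : ℝ) * n) ^ δ₁ := by
            apply Real.rpow_le_rpow (by positivity) _ hδ₁p.le
            exact mul_le_mul_of_nonneg_left hNn hn0.le
        _ = X ^ 2 := by rw [Real.mul_rpow hn0.le hn0.le, hX]; ring
    have h2 : N * z ≤ X ^ 2 * (1 / c) * z ^ 2 / D := by
      calc N * z ≤ (R / D) * z := mul_le_mul_of_nonneg_right hNR hz0.le
        _ ≤ ((X * z / c) / D) * z := by gcongr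
        _ = X * ((1 / c) * z ^ 2 / D) := by ring
        _ ≤ X ^ 2 * ((1 / c) * z ^ 2 / D) := by
          apply mul_le_mul_of_nonneg_right _ (by positivity)
          nlinarith
        _ = _ := by ring
    have h3 : (n : ℝ) / D ≤ X ^ 2 * (1 / c ^ 2) * z ^ 2 / D := by
      calc (n : ℝ) / D = R * R / D := by rw [hRR]
        _ ≤ (X * z / c) * (X * z / c) / D := by gcongr
        _ = _ := by field_simp
    have h4 : N * z + n / D ≤ X ^ 2 * (1 / c + 1 / c ^ 2) * z ^ 2 / D := by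
      calc N * z + n / D ≤ X ^ 2 * (1 / c) * z ^ 2 / D + X ^ 2 * (1 / c ^ 2) * z ^ 2 / D :=
            add_le_add h2 h3
        _ = _ := by ring
    have h5 : 0 ≤ ((n : ℝ) * N) ^ δ₁ := by positivity
    gcongr
  -- the totient
  have hDn : (D : ℝ) ≤ n := by
    have : (D : ℝ) ≤ D * N := by nlinarith
    linarith
  have htot : c₂ * (D * X⁻¹) ≤ (D.totient : ℝ) := by
    have h1 : (D.totient : ℝ) = D * ∏ p ∈ D.primeFactors, (1 - (p : ℝ)⁻¹) := by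
      have h2 := Nat.totient_eq_mul_prod_factors D
      have h3 : ((D.totient : ℚ) : ℝ) = ((D * ∏ p ∈ D.primeFactors, (1 - (p : ℚ)⁻¹) : ℚ) : ℝ) := by
        rw [h2]
      push_cast at h3
      exact h3
    rw [h1]
    have h2 : X⁻¹ ≤ (D : ℝ) ^ (-δ₁) := by
      rw [hX, ← Real.rpow_neg hn0.le]
      exact Real.rpow_le_rpow_of_nonpos hD0 hDn (by linarith)
    calc c₂ * (D * X⁻¹) ≤ c₂ * (D * (D : ℝ) ^ (-δ₁)) := by gcongr
      _ = D * (c₂ * (D : ℝ) ^ (-δ₁)) := by ring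
      _ ≤ _ := mul_le_mul_of_nonneg_left (hφ D hD1) hD0.le
  have hfive : (6 / 5) * ((D : ℝ) * N) ≤ 6 * 5 ^ (j - 1) := by
    have h1 : (5 : ℝ) ^ j = 5 * 5 ^ (j - 1) := by
      rw [← pow_succ']; congr 1; omega
    rw [hM, h1] at hL2
    linarith
  -- the exponent
  obtain ⟨i, hi⟩ : ∃ i : ℕ, i = ⌈(|Real.log K'| + 7 * δ₁ * Real.log n) / (2 * Real.log κ)⌉₊ :=
    ⟨_, rfl⟩
  have hlogn : 0 ≤ Real.log n := Real.log_nonneg hnr
  have hκi : K' * X ^ 7 ≤ κ ^ (2 * i) := by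
    have hκ0 : 0 < κ := by linarith
    have h1 : Real.log (K' * X ^ 7) ≤ Real.log (κ ^ (2 * i)) := by
      rw [Real.log_mul hK'p.ne' (by positivity), Real.log_pow, Real.log_pow, hX,
        Real.log_rpow hn0]
      have h2 : (|Real.log K'| + 7 * δ₁ * Real.log n) / (2 * Real.log κ) ≤ i := by
        rw [hi]; exact Nat.le_ceil _
      rw [div_le_iff₀ (by positivity)] at h2
      have h3 := le_abs_self (Real.log K')
      push_cast
      linarith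
    exact (Real.log_le_log_iff (by positivity) (by positivity)).mp h1
  have hilen : (i : ℝ) ≤ δ * Real.log n + (|Real.log K'| / (2 * Real.log κ) + 1) := by
    have h1 : (i : ℝ) < (|Real.log K'| + 7 * δ₁ * Real.log n) / (2 * Real.log κ) + 1 := by
      rw [hi]
      exact Nat.ceil_lt_add_one (by positivity)
    have h2 : (|Real.log K'| + 7 * δ₁ * Real.log n) / (2 * Real.log κ) =
        |Real.log K'| / (2 * Real.log κ) + δ * Real.log n := by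
      rw [hδ₁]; field_simp
    rw [h2] at h1
    linarith
  have hmain : 4 * (D : ℝ) ^ 4 * ((KA * ((5 : ℝ) ^ j * N) ^ δ₁ * (25 ^ j / D + N * 5 ^ j)) *
      (KB * ((n : ℝ) * N) ^ δ₁ * (N * Z.card + n / D))) ≤
      κ ^ (2 * i) * (D.totient : ℝ) ^ 2 * (Z.card : ℝ) ^ 2 * (6 * 5 ^ (j - 1)) ^ 2 := by
    have hκ0 : 0 < κ := by linarith
    calc 4 * (D : ℝ) ^ 4 * ((KA * ((5 : ℝ) ^ j * N) ^ δ₁ * (25 ^ j / D + N * 5 ^ j)) *
          (KB * ((n : ℝ) * N) ^ δ₁ * (N * Z.card + n / D)))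
        ≤ 4 * (D : ℝ) ^ 4 * ((KA * (P * X) * (650 * (D * N ^ 2))) *
          (KB * X ^ 2 * (X ^ 2 * (1 / c + 1 / c ^ 2) * z ^ 2 / D))) := by
          apply mul_le_mul_of_nonneg_left _ (by positivity)
          apply mul_le_mul hEA hEB (by positivity) (by positivity)
      _ = (K' * X ^ 7) * (c₂ * (D * X⁻¹)) ^ 2 * z ^ 2 * ((6 / 5) * ((D : ℝ) * N)) ^ 2 := by
          rw [hK']
          field_simp
          ring
      _ ≤ κ ^ (2 * i) * (D.totient : ℝ) ^ 2 * (Z.card : ℝ) ^ 2 * (6 * 5 ^ (j - 1)) ^ 2 := by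
          rw [← hz]
          have e1 : 0 ≤ c₂ * (D * X⁻¹) := by positivity
          gcongr
  obtain ⟨y, hy, γ, hγ, h1, h2, h3⟩ := H D hDodd hD5 t ht n N j i m s Z sgn _ _ hn hN hj hs hm hDm
    hZ hZne (by
      refine le_trans (le_of_eq ?_) (hB n D N hn hD1 hN hcop Z hZ)
      apply Finset.sum_congr rfl
      intro p _
      unfold wt
      rw [mul_div_assoc]) (hA D N j hD5 hN hj t) hmain
  refine ⟨y, hy, γ, ?_, h1, h2, h3⟩
  have h4 : (γ.length : ℝ) ≤ i + j := by exact_mod_cast hγ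
  linarith

end Pool.Agent.H978V
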