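import Pool.Agent.H978V.MDefs
import Pool.Agent.H978V.H3
import Pool.Agent.H978V.B8b
import Pool.Agent.H705R2.MLogB
import Pool.Agent.H978V.M7

/-!
JOB M8 (owner helper978, MP_06cce2_nt).  `H978V/*.lean` (library, with `MDefs`) is on origin/main.

Port of `hit_final` of `H978V/H3.lean` (247 lines, PROVED; READ IT and copy its proof).  The only difference: the energy of the words is a hypothesis with a factor `P ≥ 1`, and the length may contain `K log P`.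

PROOF.  As in `H3` with `EA = P (5^j N)^(δ') (25^j/D + N 5^j)`: enough that `κ^(2i) ≥ K' P n^((C₀+2)δ₁)`: `i = ⌈(log K' + log P + (C₀+2) δ₁ log n)/(2 log κ)⌉`, so `i ≤ δ log n + K log P + K`.
-/

set_option autoImplicit false

open MeasureTheory Set
open scoped Quaternion

namespace Pool.Agent.H978V

open Pool.Agent.Helper557.Rz


set_option maxHeartbeats 4000000 in
open Classical in
/-- TARGET -/
theorem hit_final_g (δ : ℝ) (hδ : 0 < δ) : ∃ δ' : ℝ, 0 < δ' ∧ ∀ c : ℝ, 0 < c → ∃ K : ℝ, 0 < K ∧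
    ∀ (D : ℕ) [NeZero D], Odd D → Nat.Coprime D 5 → ∀ t : ZMod D × ZMod D, Q.Sq t →
    ∀ (v : ℍ[ℤ]) (e : Vec D), Uni e → (Q.Ph t v).mulVec e = 0 → ∀ p₀ : ℍ[ℝ], UP p₀ →
    ∀ (n N j : ℕ) (m : ℤ) (Z : Finset (ℤ × ℤ × ℤ)) (P : ℝ),
    1 ≤ n → 1 ≤ N → 1 ≤ j → IsCoprime m (D : ℤ) → (D : ℤ) ∣ m ^ 2 + n → Z ⊆ S3 n →
    c * (n : ℝ) ^ (1 / 2 - δ') ≤ (Z.card : ℝ) → 1 ≤ P →
    (D : ℝ) * N ≤ Real.sqrt n → (D : ℝ) * N ≤ 5 ^ j → (5 : ℝ) ^ j ≤ 25 * (D * N) →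
    (∑ w ∈ RW j, ∑ w' ∈ RW j,
      if Fx t e (qw w * star (qw w')) then wt N (Sp p₀ (qw w * star (qw w')) / (4 * 25 ^ j))
      else 0) ≤ P * ((5 : ℝ) ^ j * N) ^ δ' * (25 ^ j / D + N * 5 ^ j) →
    ∃ y ∈ Z, ∃ γ : List (Fin 6), (γ.length : ℝ) ≤ j + δ * Real.log n + K * Real.log P + K ∧
      DvdQ D (v * (qw γ * mq m y)) ∧
      1 / (2 * (D : ℝ) ^ 2) ≤ wt N (‖rt γ (hat n y) - p₀‖ ^ 2 / 16) := by
  obtain ⟨κ, hκ, H⟩ := hit_g
  have hlk : 0 < Real.log κ := Real.log_pos hκ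
  obtain ⟨δ₁, hδ₁⟩ : ∃ δ₁ : ℝ, δ₁ = 2 * δ * Real.log κ / 7 := ⟨_, rfl⟩
  have hδ₁p : 0 < δ₁ := by rw [hδ₁]; positivity
  obtain ⟨KB, hKB, hB⟩ := energyB δ₁ hδ₁p
  obtain ⟨c₂, hc₂, hφ⟩ := Pool.Agent.H705R2.MSW.prod_lower hδ₁p
  refine ⟨δ₁, hδ₁p, fun c hc => ?_⟩
  obtain ⟨Q, hQ⟩ : ∃ Q : ℝ, Q = (25 : ℝ) ^ δ₁ := ⟨_, rfl⟩
  have hQp : 0 < Q := by rw [hQ]; positivity
  obtain ⟨K', hK'⟩ : ∃ K' : ℝ, K' = 2600 * KB * Q * (1 / c + 1 / c ^ 2) * (25 / 36) / c₂ ^ 2 :=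
    ⟨_, rfl⟩
  have hK'p : 0 < K' := by rw [hK']; positivity
  refine ⟨|Real.log K'| / (2 * Real.log κ) + 1 + 1 / (2 * Real.log κ), by positivity, ?_⟩
  intro D _ hDodd hD5 t ht v e he hve p₀ hp₀ n N j m Z P hn hN hj hm hDm hZ hcard hP1 hL1 hL2 hL3 hE
  have hPp : 0 < P := by linarith
  have hlogP : 0 ≤ Real.log P := Real.log_nonneg hP1
  -- real numbers
  have hD1 : 1 ≤ D := Nat.one_le_iff_ne_zero.mpr (NeZero.ne D)
  have hDr : (1 : ℝ) ≤ D := by exact_mod_cast hD1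
  have hNr : (1 : ℝ) ≤ N := by exact_mod_cast hN
  have hnr : (1 : ℝ) ≤ n := by exact_mod_cast hn
  have hn0 : (0 : ℝ) < n := by linarith
  have hD0 : (0 : ℝ) < D := by linarith
  have hN0 : (0 : ℝ) < N := by linarith
  obtain ⟨X, hX⟩ : ∃ X : ℝ, X = (n : ℝ) ^ δ₁ := ⟨_, rfl⟩
  have hX0 : 0 < X := by rw [hX]; positivity
  have hX1 : 1 ≤ X := by rw [hX]; exact Real.one_le_rpow hnr hδ₁p.le
  obtain ⟨R, hR⟩ : ∃ R : ℝ, R = Real.sqrt n := ⟨_, rfl⟩
  have hR0 : 0 < R := by rw [hR]; exact Real.sqrt_pos.mpr hn0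
  have hRR : R * R = n := by rw [hR]; exact Real.mul_self_sqrt hn0.le
  have hR1 : 1 ≤ R := by
    rw [hR]; exact Real.one_le_sqrt.mpr hnr
  rw [← hR] at hL1
  have hRn : R ≤ n := by nlinarith
  -- coprimality
  have hcop : Nat.Coprime n D := by
    rw [← Nat.isCoprime_iff_coprime]
    have h1 : IsCoprime (m ^ 2) (D : ℤ) := hm.pow_left
    obtain ⟨k, hk⟩ := hDm
    have h3 : (n : ℤ) = -(m ^ 2) + D * k := by linarith
    rw [h3]
    exact (IsCoprime.neg_left h1).add_mul_left_left k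
  -- the number of points
  obtain ⟨z, hz⟩ : ∃ z : ℝ, z = (Z.card : ℝ) := ⟨_, rfl⟩
  have hzR : c * R ≤ X * z := by
    have h1 : (n : ℝ) ^ (1 / 2 - δ₁) * X = R := by
      rw [hX, ← Real.rpow_add hn0, hR, Real.sqrt_eq_rpow]
      congr 1; ring
    rw [← h1, ← mul_assoc, mul_comm X z, hz]
    exact mul_le_mul_of_nonneg_right hcard hX0.le
  have hz0 : 0 < z := by
    have : 0 < X * z := lt_of_lt_of_le (by positivity) hzR
    exact (mul_pos_iff_of_pos_left hX0).mp this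
  have hZne : Z.Nonempty := by
    rw [← Finset.card_pos]
    have : (0 : ℝ) < Z.card := by rw [← hz]; exact hz0
    exact_mod_cast this
  -- the energies
  obtain ⟨M, hM⟩ : ∃ M : ℝ, M = (5 : ℝ) ^ j := ⟨_, rfl⟩
  rw [← hM] at hL2 hL3
  have hM0 : 0 < M := by rw [hM]; positivity
  have hM2 : (25 : ℝ) ^ j = M ^ 2 := by
    rw [hM, ← pow_mul, mul_comm, pow_mul]; norm_num
  have hDN2 : (D : ℝ) * N ^ 2 ≤ n := by
    have h1 : (D : ℝ) * N ^ 2 ≤ (D * N) * (D * N) := by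
      have : (D : ℝ) * N ^ 2 * 1 ≤ D * N ^ 2 * D := by
        apply mul_le_mul_of_nonneg_left hDr (by positivity)
      nlinarith
    have h2 : ((D : ℝ) * N) * (D * N) ≤ R * R := mul_le_mul hL1 hL1 (by positivity) hR0.le
    linarith
  have hEA : P * ((5 : ℝ) ^ j * N) ^ δ₁ * (25 ^ j / D + N * 5 ^ j) ≤
      P * (Q * X) * (650 * (D * N ^ 2)) := by
    rw [hM2, ← hM]
    have h1 : (M * N) ^ δ₁ ≤ Q * X := by
      rw [hQ, hX, ← Real.mul_rpow (by norm_num) hn0.le]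
      apply Real.rpow_le_rpow (by positivity) _ hδ₁p.le
      calc M * N ≤ 25 * (D * N) * N := mul_le_mul_of_nonneg_right hL3 hN0.le
        _ = 25 * (D * N ^ 2) := by ring
        _ ≤ 25 * n := by linarith
    have h2 : M ^ 2 / D + N * M ≤ 650 * (D * N ^ 2) := by
      have h3 : M ^ 2 / D ≤ 625 * (D * N ^ 2) := by
        rw [div_le_iff₀ hD0]
        calc M ^ 2 = M * M := by ring
          _ ≤ (25 * (D * N)) * (25 * (D * N)) := mul_le_mul hL3 hL3 hM0.le (by positivity)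
          _ = 625 * (D * N ^ 2) * D := by ring
      have h4 : N * M ≤ 25 * (D * N ^ 2) := by
        calc N * M ≤ N * (25 * (D * N)) := mul_le_mul_of_nonneg_left hL3 hN0.le
          _ = 25 * (D * N ^ 2) := by ring
      linarith
    have h5 : 0 ≤ (M * N) ^ δ₁ := by positivity
    gcongr
  have hNR : (N : ℝ) ≤ R / D := by
    rw [le_div_iff₀ hD0, mul_comm]; exact hL1
  have hNn : (N : ℝ) ≤ n := by
    have : (N : ℝ) ≤ D * N := by nlinarith
    linarith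
  have hRz : R ≤ X * z / c := by
    rw [le_div_iff₀ hc, mul_comm]; exact hzR
  have hEB : KB * ((n : ℝ) * N) ^ δ₁ * (N * Z.card + n / D) ≤
      KB * X ^ 2 * (X ^ 2 * (1 / c + 1 / c ^ 2) * z ^ 2 / D) := by
    rw [← hz]
    have h1 : ((n : ℝ) * N) ^ δ₁ ≤ X ^ 2 := by
      calc ((n : ℝ) * N) ^ δ₁ ≤ ((n : ℝ) * n) ^ δ₁ := by
            apply Real.rpow_le_rpow (by positivity) _ hδ₁p.le
            exact mul_le_mul_of_nonneg_left hNn hn0.le
        _ = X ^ 2 := by rw [Real.mul_rpow hn0.le hn0.le, hX]; ring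
    have h2 : N * z ≤ X ^ 2 * (1 / c) * z ^ 2 / D := by
      calc N * z ≤ (R / D) * z := mul_le_mul_of_nonneg_right hNR hz0.le
        _ ≤ ((X * z / c) / D) * z := by gcongr
        _ = X * ((1 / c) * z ^ 2 / D) := by ring
        _ ≤ X ^ 2 * ((1 / c) * z ^ 2 / D) := by
          apply mul_le_mul_of_nonneg_right _ (by positivity)
          nlinarith
        _ = _ := by ring
    have h3 : (n : ℝ) / D ≤ X ^ 2 * (1 / c ^ 2) * z ^ 2 / D := by
      calc (n : ℝ) / D = R * R / D := by rw [hRR]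
        _ ≤ (X * z / c) * (X * z / c) / D := by gcongr
        _ = _ := by field_simp
    have h4 : N * z + n / D ≤ X ^ 2 * (1 / c + 1 / c ^ 2) * z ^ 2 / D := by
      calc N * z + n / D ≤ X ^ 2 * (1 / c) * z ^ 2 / D + X ^ 2 * (1 / c ^ 2) * z ^ 2 / D :=
            add_le_add h2 h3
        _ = _ := by ring
    have h5 : 0 ≤ ((n : ℝ) * N) ^ δ₁ := by positivity
    gcongr
  -- the totient
  have hDn : (D : ℝ) ≤ n := by
    have : (D : ℝ) ≤ D * N := by nlinarith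
    linarith
  have htot : c₂ * (D * X⁻¹) ≤ (D.totient : ℝ) := by
    have h1 : (D.totient : ℝ) = D * ∏ p ∈ D.primeFactors, (1 - (p : ℝ)⁻¹) := by
      have h2 := Nat.totient_eq_mul_prod_factors D
      have h3 : ((D.totient : ℚ) : ℝ) = ((D * ∏ p ∈ D.primeFactors, (1 - (p : ℚ)⁻¹) : ℚ) : ℝ) := by
        rw [h2]
      push_cast at h3
      exact h3
    rw [h1]
    have h2 : X⁻¹ ≤ (D : ℝ) ^ (-δ₁) := by
      rw [hX, ← Real.rpow_neg hn0.le]
      exact Real.rpow_le_rpow_of_nonpos hD0 hDn (by linarith)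
    calc c₂ * (D * X⁻¹) ≤ c₂ * (D * (D : ℝ) ^ (-δ₁)) := by gcongr
      _ = D * (c₂ * (D : ℝ) ^ (-δ₁)) := by ring
      _ ≤ _ := mul_le_mul_of_nonneg_left (hφ D hD1) hD0.le
  have hfive : (6 / 5) * ((D : ℝ) * N) ≤ 6 * 5 ^ (j - 1) := by
    have h1 : (5 : ℝ) ^ j = 5 * 5 ^ (j - 1) := by
      rw [← pow_succ']; congr 1; omega
    rw [hM, h1] at hL2
    linarith
  -- the exponent
  obtain ⟨i, hi⟩ : ∃ i : ℕ,
      i = ⌈(|Real.log K'| + Real.log P + 7 * δ₁ * Real.log n) / (2 * Real.log κ)⌉₊ :=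
    ⟨_, rfl⟩
  have hlogn : 0 ≤ Real.log n := Real.log_nonneg hnr
  have hκi : K' * P * X ^ 7 ≤ κ ^ (2 * i) := by
    have hκ0 : 0 < κ := by linarith
    have h1 : Real.log (K' * P * X ^ 7) ≤ Real.log (κ ^ (2 * i)) := by
      rw [Real.log_mul (by positivity) (by positivity), Real.log_mul hK'p.ne' hPp.ne',
        Real.log_pow, Real.log_pow, hX, Real.log_rpow hn0]
      have h2 : (|Real.log K'| + Real.log P + 7 * δ₁ * Real.log n) / (2 * Real.log κ) ≤ i := by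
        rw [hi]; exact Nat.le_ceil _
      rw [div_le_iff₀ (by positivity)] at h2
      have h3 := le_abs_self (Real.log K')
      push_cast
      linarith
    exact (Real.log_le_log_iff (by positivity) (by positivity)).mp h1
  have hilen : (i : ℝ) ≤ δ * Real.log n +
      (|Real.log K'| / (2 * Real.log κ) + 1 + 1 / (2 * Real.log κ)) * Real.log P +
      (|Real.log K'| / (2 * Real.log κ) + 1 + 1 / (2 * Real.log κ)) := by
    have h1 : (i : ℝ) <
        (|Real.log K'| + Real.log P + 7 * δ₁ * Real.log n) / (2 * Real.log κ) + 1 := by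
      rw [hi]
      exact Nat.ceil_lt_add_one (by positivity)
    have h2 : (|Real.log K'| + Real.log P + 7 * δ₁ * Real.log n) / (2 * Real.log κ) =
        |Real.log K'| / (2 * Real.log κ) + 1 / (2 * Real.log κ) * Real.log P +
          δ * Real.log n := by
      rw [hδ₁]; field_simp
    rw [h2] at h1
    have h3 : 0 ≤ |Real.log K'| / (2 * Real.log κ) * Real.log P := by positivity
    have h4 : 0 ≤ 1 / (2 * Real.log κ) := by positivity
    nlinarith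
  have hmain : 4 * (D : ℝ) ^ 4 * ((P * ((5 : ℝ) ^ j * N) ^ δ₁ * (25 ^ j / D + N * 5 ^ j)) *
      (KB * ((n : ℝ) * N) ^ δ₁ * (N * Z.card + n / D))) ≤
      κ ^ (2 * i) * (D.totient : ℝ) ^ 2 * (Z.card : ℝ) ^ 2 * (6 * 5 ^ (j - 1)) ^ 2 := by
    have hκ0 : 0 < κ := by linarith
    calc 4 * (D : ℝ) ^ 4 * ((P * ((5 : ℝ) ^ j * N) ^ δ₁ * (25 ^ j / D + N * 5 ^ j)) *
          (KB * ((n : ℝ) * N) ^ δ₁ * (N * Z.card + n / D)))
        ≤ 4 * (D : ℝ) ^ 4 * ((P * (Q * X) * (650 * (D * N ^ 2))) *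
          (KB * X ^ 2 * (X ^ 2 * (1 / c + 1 / c ^ 2) * z ^ 2 / D))) := by
          apply mul_le_mul_of_nonneg_left _ (by positivity)
          apply mul_le_mul hEA hEB (by positivity) (by positivity)
      _ = (K' * P * X ^ 7) * (c₂ * (D * X⁻¹)) ^ 2 * z ^ 2 * ((6 / 5) * ((D : ℝ) * N)) ^ 2 := by
          rw [hK']
          field_simp
          ring
      _ ≤ κ ^ (2 * i) * (D.totient : ℝ) ^ 2 * (Z.card : ℝ) ^ 2 * (6 * 5 ^ (j - 1)) ^ 2 := by
          rw [← hz]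
          have e1 : 0 ≤ c₂ * (D * X⁻¹) := by positivity
          gcongr
  obtain ⟨y, hy, γ, hγ, h1, h2⟩ := H D hDodd hD5 t ht v e he hve p₀ hp₀ n N j i m Z _ _ hn hN hj
    hm hDm hZ hZne (by
      refine le_trans (le_of_eq ?_) (hB n D N hn hD1 hN hcop Z hZ)
      apply Finset.sum_congr rfl
      intro p _
      unfold wt
      rw [mul_div_assoc]) hE hmain
  refine ⟨y, hy, γ, ?_, h1, h2⟩
  have h4 : (γ.length : ℝ) ≤ i + j := by exact_mod_cast hγ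
  linarith

end Pool.Agent.H978V
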