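import Pool.Agent.H978V.LDefs
import Pool.Agent.H978V.Q.Defs

/-!
# Words near rational great circles of SU(2): definitions
-/

set_option autoImplicit false

open MeasureTheory Set
open scoped Quaternion

namespace Pool.Agent.H978V

open Pool.Agent.Helper557.Rz

/-- the line of `e` is stable under the matrix of `q` -/
def Fx {D : ℕ} (t : ZMod D × ZMod D) (e : Vec D) (q : ℍ[ℤ]) : Prop :=
  (Q.Ph t q).mulVec e 0 * e 1 = (Q.Ph t q).mulVec e 1 * e 0

/-- squared length of the vector product of the imaginary parts of `q` and `p` -/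
noncomputable def Sp (p : ℍ[ℝ]) (q : ℍ[ℤ]) : ℝ :=
  (q.imJ * p.imK - q.imK * p.imJ) ^ 2 + (q.imK * p.imI - q.imI * p.imK) ^ 2 +
    (q.imI * p.imJ - q.imJ * p.imI) ^ 2

/-- the direction of an integral vector -/
noncomputable def hp (h : ℤ × ℤ × ℤ) : ℍ[ℝ] := (1 / Real.sqrt (dt h h : ℝ)) • cz (pq h)

/-- the unit quaternion of angle `φ` about the axis `p` -/
noncomputable def rq (p : ℍ[ℝ]) (φ : ℝ) : ℍ[ℝ] := ((Real.cos φ : ℝ) : ℍ[ℝ]) + Real.sin φ • p

end Pool.Agent.H978V
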