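import Pool.Agent.H978V.NDefs
import Pool.Agent.H978V.M8
import Pool.Agent.H978V.H3
import Pool.Agent.H978V.B8b
import Pool.Agent.H705R2.MLogB
import Pool.Agent.H978V.MDefs
import Pool.Agent.H978V.M7
import Pool.Agent.H978V.E1
import Pool.Agent.H978V.E3

/-!
JOB E4 (owner helper978, MP_06cce2_nt).  `H978V/*.lean` (library, with `NDefs`, `M8`, `M7`) is on origin/main.

Variant of `hit_final_g` of `H978V/M8.lean` (PROVED; READ IT and `H978V/H3.lean`, copy the treatment of `EB`) with `hit_s` and `energy_gen`, and `5^j` about `(D N)^(2/3)`.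

PROOF.  WLOG `δ ≤ 1`.  `hit_s` with `δ_s = min (δ/100) (1/12)`-like; `EA = K_e (5^j N)^δ₁ 5^j (N + (5^j)^(3/2)/D)` from `energy_gen δ₁`; as `5^j ≤ 25 (D N)^(2/3)`, `(5^j)^(3/2) ≤ 125 D N`, so `EA ≤ 126 K_e (5^j N)^δ₁ 5^j N`.  `EB ≤ K_B n^(..) (n/D)`-like bound as in `M8/H3` (it uses `D N ≤ √n`).
The condition of `hit_s`: `C (i+1)² D⁴ EA EB ≤ (5^(1/6-δ_s))^(2i) φ(D)² |Z|² (6·5^(j-1))²`; with `|Z| ≥ c n^(1/2-δ')`, `φ(D)² ≥ D² n^(-small)`/const (as in `M8/H3`), `5^j ≥ (D N)^(2/3)`: it is enough that `5^((1/3 - 2δ_s) i) ≥ K' (i+1)² n^(C₀ δ₁) (D N)^(1/3)`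
(`D⁴ · 5^j N · n/D /(D² n 25^j) = D N/5^j ≤ (D N)^(1/3)`).  `i = ⌈(1 + 7·2δ_s..) log_5 (D N) + (δ/4) log n + K''⌉`: since `D N ≤ √n`, the excess over `log_5 (D N)` is `≤ δ log n + K` if `δ_s, δ₁, δ'` are small enough compared with `δ`.  (`(i+1)² ≤ C 5^(δ_s i)`.)
-/

set_option autoImplicit false

open MeasureTheory Set
open scoped Quaternion

namespace Pool.Agent.H978V

open Pool.Agent.Helper557.Rz



open Classical in
/-- TARGET -/
theorem hit_final_s (δ : ℝ) (hδ : 0 < δ) : ∃ δ' : ℝ, 0 < δ' ∧ ∀ c : ℝ, 0 < c → ∃ K : ℝ, 0 < K ∧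
    ∀ (D : ℕ) [NeZero D], Odd D → Nat.Coprime D 5 → ∀ t : ZMod D × ZMod D, Q.Sq t →
    ∀ (v : ℍ[ℤ]) (e : Vec D), Uni e → (Q.Ph t v).mulVec e = 0 → ∀ p₀ : ℍ[ℝ], UP p₀ →
    ∀ (n N j : ℕ) (m : ℤ) (Z : Finset (ℤ × ℤ × ℤ)),
    1 ≤ n → 1 ≤ N → 1 ≤ j → IsCoprime m (D : ℤ) → (D : ℤ) ∣ m ^ 2 + n → Z ⊆ S3 n →
    c * (n : ℝ) ^ (1 / 2 - δ') ≤ (Z.card : ℝ) →
    (D : ℝ) * N ≤ Real.sqrt n → ((D : ℝ) * N) ^ (2 / 3 : ℝ) ≤ 5 ^ j → (5 : ℝ) ^ j ≤ 25 * ((D : ℝ) * N) ^ (2 / 3 : ℝ) →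
    ∃ y ∈ Z, ∃ γ : List (Fin 6),
      (γ.length : ℝ) ≤ j + Real.logb 5 ((D : ℝ) * N) + δ * Real.log n + K ∧
      DvdQ D (v * (qw γ * mq m y)) ∧
      1 / (2 * (D : ℝ) ^ 2) ≤ wt N (‖rt γ (hat n y) - p₀‖ ^ 2 / 16) := by
  have hL5 : 1 ≤ Real.log 5 := by
    rw [Real.le_log_iff_exp_le (by norm_num)]
    have := Real.exp_one_lt_d9
    linarith
  have hL50 : 0 < Real.log 5 := by linarith
  obtain ⟨η, hη⟩ : ∃ η : ℝ, η = min δ 1 := ⟨_, rfl⟩
  have hη0 : 0 < η := by rw [hη]; exact lt_min hδ one_pos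
  have hη1 : η ≤ 1 := by rw [hη]; exact min_le_right _ _
  have hηδ : η ≤ δ := by rw [hη]; exact min_le_left _ _
  obtain ⟨δs, hδs⟩ : ∃ δs : ℝ, δs = η / 18 := ⟨_, rfl⟩
  obtain ⟨δ₁, hδ₁⟩ : ∃ δ₁ : ℝ, δ₁ = η / 84 := ⟨_, rfl⟩
  have hδsp : 0 < δs := by rw [hδs]; positivity
  have hδs6 : δs < 1 / 6 := by rw [hδs]; linarith
  have hδs18 : δs ≤ 1 / 18 := by rw [hδs]; linarith
  have hδ₁p : 0 < δ₁ := by rw [hδ₁]; positivity
  obtain ⟨i₀, Cs, hCs, H⟩ := hit_s δs hδsp hδs6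
  obtain ⟨Ke, hKe, hE⟩ := energy_gen δ₁ hδ₁p
  obtain ⟨KB, hKB, hB⟩ := energyB δ₁ hδ₁p
  obtain ⟨c₂, hc₂, hφ⟩ := Pool.Agent.H705R2.MSW.prod_lower hδ₁p
  have hKe0 : 0 < Ke := by linarith
  refine ⟨δ₁, hδ₁p, fun c hc => ?_⟩
  obtain ⟨Q, hQ⟩ : ∃ Q : ℝ, Q = (25 : ℝ) ^ δ₁ := ⟨_, rfl⟩
  have hQp : 0 < Q := by rw [hQ]; positivity
  obtain ⟨K', hK'⟩ : ∃ K' : ℝ,
      K' = Cs * (126 * Ke * Q * KB * (1 / c + 1 / c ^ 2)) * (25 / 36) / c₂ ^ 2 := ⟨_, rfl⟩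
  have hK'p : 0 < K' := by rw [hK']; positivity
  -- the constant for `(i + 1)²`
  obtain ⟨F, hF⟩ : ∃ F : ℝ, F = (2 / (δs * Real.log 5)) ^ 2 * Real.exp (δs * Real.log 5) :=
    ⟨_, rfl⟩
  have hFp : 0 < F := by rw [hF]; positivity
  obtain ⟨θ, hθ⟩ : ∃ θ : ℝ, θ = 1 / 3 - 3 * δs := ⟨_, rfl⟩
  have hθ6 : 1 / 6 ≤ θ := by rw [hθ]; linarith
  have hθ0 : 0 < θ := by linarith
  refine ⟨i₀ + |Real.log (K' * F)| / (θ * Real.log 5) + 2, by positivity, ?_⟩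
  intro D _ hDodd hD5 t ht v e he hve p₀ hp₀ n N j m Z hn hN hj hm hDm hZ hcard hL1 hL2 hL3
  -- real numbers
  have hD1 : 1 ≤ D := Nat.one_le_iff_ne_zero.mpr (NeZero.ne D)
  have hDr : (1 : ℝ) ≤ D := by exact_mod_cast hD1
  have hNr : (1 : ℝ) ≤ N := by exact_mod_cast hN
  have hnr : (1 : ℝ) ≤ n := by exact_mod_cast hn
  have hn0 : (0 : ℝ) < n := by linarith
  have hD0 : (0 : ℝ) < D := by linarith
  have hN0 : (0 : ℝ) < N := by linarith
  have hE1 : 1 ≤ (D : ℝ) * N := by nlinarith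
  have hE0 : 0 < (D : ℝ) * N := by linarith
  obtain ⟨X, hX⟩ : ∃ X : ℝ, X = (n : ℝ) ^ δ₁ := ⟨_, rfl⟩
  have hX0 : 0 < X := by rw [hX]; positivity
  have hX1 : 1 ≤ X := by rw [hX]; exact Real.one_le_rpow hnr hδ₁p.le
  obtain ⟨R, hR⟩ : ∃ R : ℝ, R = Real.sqrt n := ⟨_, rfl⟩
  have hR0 : 0 < R := by rw [hR]; exact Real.sqrt_pos.mpr hn0
  have hRR : R * R = n := by rw [hR]; exact Real.mul_self_sqrt hn0.le
  have hR1 : 1 ≤ R := by
    rw [hR]; exact Real.one_le_sqrt.mpr hnr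
  rw [← hR] at hL1
  have hRn : R ≤ n := by nlinarith
  -- coprimality
  have hcop : Nat.Coprime n D := by
    rw [← Nat.isCoprime_iff_coprime]
    have h1 : IsCoprime (m ^ 2) (D : ℤ) := hm.pow_left
    obtain ⟨k, hk⟩ := hDm
    have h3 : (n : ℤ) = -(m ^ 2) + D * k := by linarith
    rw [h3]
    exact (IsCoprime.neg_left h1).add_mul_left_left k
  -- the number of points
  obtain ⟨z, hz⟩ : ∃ z : ℝ, z = (Z.card : ℝ) := ⟨_, rfl⟩
  have hzR : c * R ≤ X * z := by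
    have h1 : (n : ℝ) ^ (1 / 2 - δ₁) * X = R := by
      rw [hX, ← Real.rpow_add hn0, hR, Real.sqrt_eq_rpow]
      congr 1; ring
    rw [← h1, ← mul_assoc, mul_comm X z, hz]
    exact mul_le_mul_of_nonneg_right hcard hX0.le
  have hz0 : 0 < z := by
    have : 0 < X * z := lt_of_lt_of_le (by positivity) hzR
    exact (mul_pos_iff_of_pos_left hX0).mp this
  have hZne : Z.Nonempty := by
    rw [← Finset.card_pos]
    have : (0 : ℝ) < Z.card := by rw [← hz]; exact hz0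
    exact_mod_cast this
  -- the energies
  obtain ⟨M, hM⟩ : ∃ M : ℝ, M = (5 : ℝ) ^ j := ⟨_, rfl⟩
  rw [← hM] at hL2 hL3
  have hM0 : 0 < M := by rw [hM]; positivity
  have hME : M ≤ 25 * (D * N) := by
    have h1 : ((D : ℝ) * N) ^ (2 / 3 : ℝ) ≤ (D : ℝ) * N := by
      calc ((D : ℝ) * N) ^ (2 / 3 : ℝ) ≤ ((D : ℝ) * N) ^ (1 : ℝ) :=
            Real.rpow_le_rpow_of_exponent_le hE1 (by norm_num)
        _ = (D : ℝ) * N := Real.rpow_one _
    linarith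
  have hM32 : M ^ (3 / 2 : ℝ) ≤ 125 * (D * N) := by
    have h25 : (25 : ℝ) ^ (3 / 2 : ℝ) = 125 := by
      rw [show (25 : ℝ) = 5 ^ (2 : ℝ) by norm_num, ← Real.rpow_mul (by norm_num),
        show (2 : ℝ) * (3 / 2) = 3 by norm_num]
      norm_num
    calc M ^ (3 / 2 : ℝ) ≤ (25 * ((D : ℝ) * N) ^ (2 / 3 : ℝ)) ^ (3 / 2 : ℝ) :=
          Real.rpow_le_rpow hM0.le hL3 (by norm_num)
      _ = 125 * (D * N) := by
        rw [Real.mul_rpow (by norm_num) (by positivity), ← Real.rpow_mul hE0.le, h25]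
        norm_num
  have hDN2 : (D : ℝ) * N ^ 2 ≤ n := by
    have h1 : (D : ℝ) * N ^ 2 ≤ (D * N) * (D * N) := by
      have : (D : ℝ) * N ^ 2 * 1 ≤ D * N ^ 2 * D := by
        apply mul_le_mul_of_nonneg_left hDr (by positivity)
      nlinarith
    have h2 : ((D : ℝ) * N) * (D * N) ≤ R * R := mul_le_mul hL1 hL1 (by positivity) hR0.le
    linarith
  have hEA : Ke * ((5 : ℝ) ^ j * N) ^ δ₁ * (5 ^ j * (N + ((5 : ℝ) ^ j) ^ (3 / 2 : ℝ) / D)) ≤
      Ke * (Q * X) * (M * (126 * N)) := by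
    rw [← hM]
    have h1 : (M * N) ^ δ₁ ≤ Q * X := by
      rw [hQ, hX, ← Real.mul_rpow (by norm_num) hn0.le]
      apply Real.rpow_le_rpow (by positivity) _ hδ₁p.le
      calc M * N ≤ 25 * (D * N) * N := mul_le_mul_of_nonneg_right hME hN0.le
        _ = 25 * (D * N ^ 2) := by ring
        _ ≤ 25 * n := by linarith
    have h2 : N + M ^ (3 / 2 : ℝ) / D ≤ 126 * N := by
      have h3 : M ^ (3 / 2 : ℝ) / D ≤ 125 * N := by
        rw [div_le_iff₀ hD0]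
        linarith
      linarith
    have h5 : 0 ≤ (M * N) ^ δ₁ := by positivity
    gcongr
  have hNR : (N : ℝ) ≤ R / D := by
    rw [le_div_iff₀ hD0, mul_comm]; exact hL1
  have hNn : (N : ℝ) ≤ n := by
    have : (N : ℝ) ≤ D * N := by nlinarith
    linarith
  have hRz : R ≤ X * z / c := by
    rw [le_div_iff₀ hc, mul_comm]; exact hzR
  have hEB : KB * ((n : ℝ) * N) ^ δ₁ * (N * Z.card + n / D) ≤
      KB * X ^ 2 * (X ^ 2 * (1 / c + 1 / c ^ 2) * z ^ 2 / D) := by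
    rw [← hz]
    have h1 : ((n : ℝ) * N) ^ δ₁ ≤ X ^ 2 := by
      calc ((n : ℝ) * N) ^ δ₁ ≤ ((n : ℝ) * n) ^ δ₁ := by
            apply Real.rpow_le_rpow (by positivity) _ hδ₁p.le
            exact mul_le_mul_of_nonneg_left hNn hn0.le
        _ = X ^ 2 := by rw [Real.mul_rpow hn0.le hn0.le, hX]; ring
    have h2 : N * z ≤ X ^ 2 * (1 / c) * z ^ 2 / D := by
      calc N * z ≤ (R / D) * z := mul_le_mul_of_nonneg_right hNR hz0.le
        _ ≤ ((X * z / c) / D) * z := by gcongr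
        _ = X * ((1 / c) * z ^ 2 / D) := by ring
        _ ≤ X ^ 2 * ((1 / c) * z ^ 2 / D) := by
          apply mul_le_mul_of_nonneg_right _ (by positivity)
          nlinarith
        _ = _ := by ring
    have h3 : (n : ℝ) / D ≤ X ^ 2 * (1 / c ^ 2) * z ^ 2 / D := by
      calc (n : ℝ) / D = R * R / D := by rw [hRR]
        _ ≤ (X * z / c) * (X * z / c) / D := by gcongr
        _ = _ := by field_simp
    have h4 : N * z + n / D ≤ X ^ 2 * (1 / c + 1 / c ^ 2) * z ^ 2 / D := by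
      calc N * z + n / D ≤ X ^ 2 * (1 / c) * z ^ 2 / D + X ^ 2 * (1 / c ^ 2) * z ^ 2 / D :=
            add_le_add h2 h3
        _ = _ := by ring
    have h5 : 0 ≤ ((n : ℝ) * N) ^ δ₁ := by positivity
    gcongr
  -- the totient
  have hDn : (D : ℝ) ≤ n := by
    have : (D : ℝ) ≤ D * N := by nlinarith
    linarith
  have htot : c₂ * (D * X⁻¹) ≤ (D.totient : ℝ) := by
    have h1 : (D.totient : ℝ) = D * ∏ p ∈ D.primeFactors, (1 - (p : ℝ)⁻¹) := by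
      have h2 := Nat.totient_eq_mul_prod_factors D
      have h3 : ((D.totient : ℚ) : ℝ) = ((D * ∏ p ∈ D.primeFactors, (1 - (p : ℚ)⁻¹) : ℚ) : ℝ) := by
        rw [h2]
      push_cast at h3
      exact h3
    rw [h1]
    have h2 : X⁻¹ ≤ (D : ℝ) ^ (-δ₁) := by
      rw [hX, ← Real.rpow_neg hn0.le]
      exact Real.rpow_le_rpow_of_nonpos hD0 hDn (by linarith)
    calc c₂ * (D * X⁻¹) ≤ c₂ * (D * (D : ℝ) ^ (-δ₁)) := by gcongr
      _ = D * (c₂ * (D : ℝ) ^ (-δ₁)) := by ring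
      _ ≤ _ := mul_le_mul_of_nonneg_left (hφ D hD1) hD0.le
  have hfive : (6 / 5) * M = 6 * 5 ^ (j - 1) := by
    have h1 : (5 : ℝ) ^ j = 5 * 5 ^ (j - 1) := by
      rw [← pow_succ']; congr 1; omega
    rw [hM, h1]
    ring
  -- the exponent
  have hlogn : 0 ≤ Real.log n := Real.log_nonneg hnr
  have hlogE : 0 ≤ Real.log (D * N) := Real.log_nonneg hE1
  have hlogE2 : Real.log (D * N) ≤ Real.log n / 2 := by
    have h1 : Real.log (D * N) ≤ Real.log R := Real.log_le_log hE0 hL1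
    rwa [hR, Real.log_sqrt hn0.le] at h1
  obtain ⟨S, hS⟩ : ∃ S : ℝ, S = (|Real.log (K' * F)| + 7 * δ₁ * Real.log n +
      1 / 3 * Real.log (D * N)) / (θ * Real.log 5) := ⟨_, rfl⟩
  have hS0 : 0 ≤ S := by rw [hS]; positivity
  obtain ⟨i, hi⟩ : ∃ i : ℕ, i = ⌈S⌉₊ + 1 := ⟨_, rfl⟩
  have hi1 : 1 ≤ i := by omega
  have hSi : S ≤ i := by
    have := Nat.le_ceil S
    rw [hi]; push_cast; linarith
  have hiS : (i : ℝ) ≤ S + 2 := by
    have := Nat.ceil_lt_add_one hS0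
    rw [hi]; push_cast; linarith
  have hi2 : ((i : ℝ) + 1) ^ 2 ≤ F * Real.exp (δs * Real.log 5 * i) := by
    have h0 : 0 < δs * Real.log 5 := by positivity
    have h1 : (i : ℝ) + 1 ≤ 2 / (δs * Real.log 5) * Real.exp (δs * Real.log 5 * (i + 1) / 2) := by
      have h2 : δs * Real.log 5 * (i + 1) / 2 ≤ Real.exp (δs * Real.log 5 * (i + 1) / 2) := by
        have := Real.add_one_le_exp (δs * Real.log 5 * (i + 1) / 2)
        linarith
      calc (i : ℝ) + 1 = 2 / (δs * Real.log 5) * (δs * Real.log 5 * (i + 1) / 2) := by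
            field_simp
        _ ≤ _ := mul_le_mul_of_nonneg_left h2 (by positivity)
    calc ((i : ℝ) + 1) ^ 2 ≤
          (2 / (δs * Real.log 5) * Real.exp (δs * Real.log 5 * (i + 1) / 2)) ^ 2 := by
            gcongr
      _ = F * Real.exp (δs * Real.log 5 * i) := by
        rw [hF, mul_pow, ← Real.exp_nat_mul,
          mul_assoc ((2 / (δs * Real.log 5)) ^ 2) (Real.exp (δs * Real.log 5)), ← Real.exp_add]
        congr 2
        push_cast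
        ring
  have hκi : K' * F * X ^ 7 * ((D : ℝ) * N) ^ (1 / 3 : ℝ) ≤ Real.exp (θ * Real.log 5 * i) := by
    have h0 : 0 < K' * F * X ^ 7 * ((D : ℝ) * N) ^ (1 / 3 : ℝ) := by positivity
    rw [← Real.log_le_iff_le_exp h0, Real.log_mul (by positivity) (by positivity),
      Real.log_mul (by positivity) (by positivity), Real.log_pow, Real.log_rpow hE0, hX,
      Real.log_rpow hn0]
    have h2 : S * (θ * Real.log 5) ≤ i * (θ * Real.log 5) :=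
      mul_le_mul_of_nonneg_right hSi (by positivity)
    have h3 : S * (θ * Real.log 5) = |Real.log (K' * F)| + 7 * δ₁ * Real.log n +
        1 / 3 * Real.log (D * N) := by
      rw [hS]; field_simp
    rw [h3] at h2
    have h4 := le_abs_self (Real.log (K' * F))
    push_cast
    linarith
  have hpow : ((5 : ℝ) ^ (1 / 6 - δs)) ^ (2 * i) =
      Real.exp (θ * Real.log 5 * i) * Real.exp (δs * Real.log 5 * i) := by
    rw [← Real.exp_add, ← Real.rpow_natCast, ← Real.rpow_mul (by norm_num),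
      Real.rpow_def_of_pos (by norm_num)]
    congr 1
    push_cast
    rw [hθ]
    ring
  have hEM : (D : ℝ) * N ≤ ((D : ℝ) * N) ^ (1 / 3 : ℝ) * M := by
    calc (D : ℝ) * N = ((D : ℝ) * N) ^ (1 / 3 : ℝ) * ((D : ℝ) * N) ^ (2 / 3 : ℝ) := by
          rw [← Real.rpow_add hE0]; norm_num
      _ ≤ _ := mul_le_mul_of_nonneg_left hL2 (by positivity)
  have hmain : Cs * (i + 1) ^ 2 * (D : ℝ) ^ 4 *
      ((Ke * ((5 : ℝ) ^ j * N) ^ δ₁ * (5 ^ j * (N + ((5 : ℝ) ^ j) ^ (3 / 2 : ℝ) / D))) *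
      (KB * ((n : ℝ) * N) ^ δ₁ * (N * Z.card + n / D))) ≤
      ((5 : ℝ) ^ (1 / 6 - δs)) ^ (2 * i) * (D.totient : ℝ) ^ 2 * (Z.card : ℝ) ^ 2 *
        (6 * 5 ^ (j - 1)) ^ 2 := by
    obtain ⟨Y, hY⟩ : ∃ Y : ℝ, Y = Real.exp (δs * Real.log 5 * i) := ⟨_, rfl⟩
    have hY0 : 0 < Y := by rw [hY]; positivity
    rw [← hY] at hi2 hpow
    obtain ⟨G, hG⟩ : ∃ G : ℝ, G = ((D : ℝ) * N) ^ (1 / 3 : ℝ) := ⟨_, rfl⟩
    have hG0 : 0 < G := by rw [hG]; positivity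
    rw [← hG] at hEM hκi
    have e1 : 0 ≤ c₂ * (D * X⁻¹) := by positivity
    have e2 : 0 ≤ 1 / c + 1 / c ^ 2 := by positivity
    calc Cs * (i + 1) ^ 2 * (D : ℝ) ^ 4 *
          ((Ke * ((5 : ℝ) ^ j * N) ^ δ₁ * (5 ^ j * (N + ((5 : ℝ) ^ j) ^ (3 / 2 : ℝ) / D))) *
          (KB * ((n : ℝ) * N) ^ δ₁ * (N * Z.card + n / D)))
        ≤ Cs * (F * Y) * (D : ℝ) ^ 4 * ((Ke * (Q * X) * (M * (126 * N))) *
          (KB * X ^ 2 * (X ^ 2 * (1 / c + 1 / c ^ 2) * z ^ 2 / D))) := by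
          apply mul_le_mul
          · gcongr
          · apply mul_le_mul hEA hEB (by positivity) (by positivity)
          · positivity
          · positivity
      _ = (K' * F * X ^ 7 * Y) * (D * N) * ((c₂ * (D * X⁻¹)) ^ 2 * z ^ 2 * ((6 / 5) ^ 2 * M)) := by
          rw [hK']
          field_simp
          ring
      _ ≤ (K' * F * X ^ 7 * Y) * (G * M) * ((c₂ * (D * X⁻¹)) ^ 2 * z ^ 2 * ((6 / 5) ^ 2 * M)) := by
          gcongr
      _ = (K' * F * X ^ 7 * G) * Y * ((c₂ * (D * X⁻¹)) ^ 2 * z ^ 2 * ((6 / 5) * M) ^ 2) := by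
          ring
      _ ≤ Real.exp (θ * Real.log 5 * i) * Y *
          ((D.totient : ℝ) ^ 2 * z ^ 2 * ((6 / 5) * M) ^ 2) := by
          gcongr
      _ = ((5 : ℝ) ^ (1 / 6 - δs)) ^ (2 * i) * (D.totient : ℝ) ^ 2 * (Z.card : ℝ) ^ 2 *
        (6 * 5 ^ (j - 1)) ^ 2 := by
          rw [hpow, hz, hfive]
          ring
  obtain ⟨y, hy, γ, hγ, h1, h2⟩ := H D hDodd hD5 t ht v e he hve p₀ hp₀ n N j i m Z _ _ hn hN hj
    hi1 hm hDm hZ hZne (by
      refine le_trans (le_of_eq ?_) (hB n D N hn hD1 hN hcop Z hZ)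
      apply Finset.sum_congr rfl
      intro p _
      unfold wt
      rw [mul_div_assoc]) (hE D hDodd hD5 t ht e he p₀ hp₀ N j hN hj) hmain
  refine ⟨y, hy, γ, ?_, h1, h2⟩
  have h4 : (γ.length : ℝ) ≤ i₀ + i + j := by exact_mod_cast hγ
  -- the length
  have hSle : S ≤ |Real.log (K' * F)| / (θ * Real.log 5) + Real.logb 5 ((D : ℝ) * N) +
      δ * Real.log n := by
    have h5 : S = |Real.log (K' * F)| / (θ * Real.log 5) +
        (7 * δ₁ * Real.log n) / (θ * Real.log 5) +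
        (1 / 3 * Real.log (D * N)) / (θ * Real.log 5) := by
      rw [hS]; ring
    have h6 : (7 * δ₁ * Real.log n) / (θ * Real.log 5) ≤ η / 2 * Real.log n := by
      rw [div_le_iff₀ (by positivity)]
      have h7 : 1 / 6 * 1 ≤ θ * Real.log 5 := mul_le_mul hθ6 hL5 (by norm_num) hθ0.le
      have h8 : η / 2 * Real.log n * (1 / 6 * 1) ≤ η / 2 * Real.log n * (θ * Real.log 5) :=
        mul_le_mul_of_nonneg_left h7 (by positivity)
      have h9 : 7 * δ₁ * Real.log n = η / 2 * Real.log n * (1 / 6 * 1) := by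
        rw [hδ₁]; ring
      rw [h9]; exact h8
    have h10 : (1 / 3 * Real.log (D * N)) / (θ * Real.log 5) ≤
        Real.logb 5 ((D : ℝ) * N) + η / 2 * Real.log n := by
      have h11 : (1 / 3 * Real.log (D * N)) / (θ * Real.log 5) =
          Real.logb 5 ((D : ℝ) * N) * (1 / 3 / θ) := by
        rw [← Real.log_div_log]; field_simp
      have h12 : 1 / 3 / θ ≤ 1 + 18 * δs := by
        rw [div_le_iff₀ hθ0, hθ]
        nlinarith
      have h13 : 0 ≤ Real.logb 5 ((D : ℝ) * N) := by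
        rw [← Real.log_div_log]; positivity
      have h14 : Real.logb 5 ((D : ℝ) * N) ≤ Real.log n / 2 := by
        rw [← Real.log_div_log, div_le_iff₀ hL50]
        nlinarith
      rw [h11]
      calc Real.logb 5 ((D : ℝ) * N) * (1 / 3 / θ) ≤ Real.logb 5 ((D : ℝ) * N) * (1 + 18 * δs) :=
            mul_le_mul_of_nonneg_left h12 h13
        _ = Real.logb 5 ((D : ℝ) * N) + η * Real.logb 5 ((D : ℝ) * N) := by rw [hδs]; ring
        _ ≤ Real.logb 5 ((D : ℝ) * N) + η * (Real.log n / 2) := by gcongr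
        _ = _ := by ring
    have h15 : η * Real.log n ≤ δ * Real.log n := mul_le_mul_of_nonneg_right hηδ hlogn
    rw [h5]
    linarith
  linarith

end Pool.Agent.H978V
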