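import Mathlib

set_option autoImplicit false

namespace Pool.Agent.H978V

theorem sin_half {x : ℝ} (h0 : 0 ≤ x) (h1 : x ≤ 1) : x / 2 ≤ Real.sin x := by
  rcases h0.eq_or_lt with rfl | h0
  · simp
  · have h2 := Real.sin_gt_sub_cube h0
    have h3 : x ^ 3 ≤ x := by
      have : x ^ 2 ≤ 1 := by nlinarith
      nlinarith
    linarith

theorem key (ψ a η : ℝ) (hψ : 0 ≤ ψ) (ha : 0 ≤ a) (hψ1 : ψ ≤ 1) (ha1 : a ≤ 1) (hη : η ≤ 1) :
    2 - 2 * Real.cos ψ * Real.cos a - 2 * Real.sin ψ * Real.sin a * η ≤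
      (ψ - a) ^ 2 + 2 * (ψ * a) * (1 - η) := by
  have h1 := Real.one_sub_sq_div_two_le_cos (x := ψ - a)
  rw [Real.cos_sub] at h1
  have h2 : 0 ≤ Real.sin ψ := le_trans (by linarith) (sin_half hψ hψ1)
  have h3 : 0 ≤ Real.sin a := le_trans (by linarith) (sin_half ha ha1)
  have h4 : Real.sin ψ ≤ ψ := Real.sin_le hψ
  have h5 : Real.sin a ≤ a := Real.sin_le ha
  have h6 : Real.sin ψ * Real.sin a ≤ ψ * a := mul_le_mul h4 h5 h3 hψ
  nlinarith [mul_le_mul_of_nonneg_right h6 (sub_nonneg.2 hη)]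

theorem cosdiff {x y : ℝ} (hx : 0 ≤ x) (hxy : x ≤ y) (hy : y ≤ 1) :
    (y + x) * (y - x) / 8 ≤ Real.cos x - Real.cos y := by
  rw [Real.cos_sub_cos]
  have h1 : (x + y) / 2 / 2 ≤ Real.sin ((x + y) / 2) := sin_half (by linarith) (by linarith)
  have h2 : (y - x) / 2 / 2 ≤ Real.sin ((y - x) / 2) := sin_half (by linarith) (by linarith)
  have h3 : Real.sin ((x - y) / 2) = -Real.sin ((y - x) / 2) := by
    rw [← Real.sin_neg]; congr 1; ring
  rw [h3]
  have h4 : ((x + y) / 2 / 2) * ((y - x) / 2 / 2) ≤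
      Real.sin ((x + y) / 2) * Real.sin ((y - x) / 2) :=
    mul_le_mul h1 h2 (by linarith) (le_trans (by linarith) h1)
  nlinarith

theorem exp10 : (2000 : ℝ) ≤ Real.exp 10 := by
  have h1 : (2.7182818283 : ℝ) < Real.exp 1 := Real.exp_one_gt_d9
  have h2 : Real.exp 10 = Real.exp 1 ^ 10 := by
    rw [← Real.exp_nat_mul]; norm_num
  rw [h2]
  calc (2000 : ℝ) ≤ 2.7182818283 ^ 10 := by norm_num
    _ ≤ Real.exp 1 ^ 10 := pow_le_pow_left₀ (by norm_num) h1.le 10

theorem choice (ε L a : ℝ) (k d : ℕ) (hε : ε = Real.exp (-L)) (hL : 10 ≤ L) (ha : 0 ≤ a)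
    (hd : 1 ≤ d) (h1 : (5 : ℝ) ^ k * d ≤ 4 / ε) (h2 : (5 : ℝ) ^ k * d * a ^ 2 ≤ 4 * ε) :
    ∃ (N : ℕ) (ψ₁ ψ₂ ρ : ℝ), 1 ≤ N ∧ 0 < ψ₁ ∧ ψ₁ < ψ₂ ∧ ψ₂ < 1 ∧
      (∀ ψ η : ℝ, ψ₁ ≤ ψ → ψ ≤ ψ₂ → -1 ≤ η → η ≤ 1 →
        1 / (2 * (d : ℝ) ^ 2) ≤ (N : ℝ) ^ 2 * Real.exp (-(((N : ℝ) - 1) * ((1 - η) / 8))) →
        2 - 2 * Real.cos ψ * Real.cos a - 2 * Real.sin ψ * Real.sin a * η < ε ^ 2) ∧
      ε / 2 ≤ ρ ∧ ρ ^ 2 ≤ 4 * ε ∧ (5 : ℝ) ^ k * d * ρ ^ 2 ≤ 4 * ε ∧
      (N : ℝ) ≤ 360 * (ρ / ε) ^ 2 * L ∧ ρ / 8 ≤ Real.sin ψ₁ ∧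
      ρ * ε / 100 ≤ Real.cos ψ₁ - Real.cos ψ₂ := by
  have hε0 : 0 < ε := by rw [hε]; exact Real.exp_pos _
  have heL : 2000 ≤ Real.exp L := exp10.trans (Real.exp_le_exp.2 hL)
  have hεinv : ε⁻¹ = Real.exp L := by rw [hε, Real.exp_neg, inv_inv]
  have hε1 : ε ≤ 1 / 2000 := by
    have h3 : ε = (Real.exp L)⁻¹ := by rw [← hεinv, inv_inv]
    rw [h3, one_div]
    exact inv_anti₀ (by norm_num) heL
  have h5k : (1 : ℝ) ≤ (5 : ℝ) ^ k := one_le_pow₀ (by norm_num)
  have hd1 : (1 : ℝ) ≤ d := by exact_mod_cast hd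
  have h5d : (d : ℝ) ≤ (5 : ℝ) ^ k * d := by nlinarith
  have h5d1 : (1 : ℝ) ≤ (5 : ℝ) ^ k * d := by nlinarith
  have ha2 : a ^ 2 ≤ 4 * ε := by nlinarith [sq_nonneg a]
  have ha3 : a ≤ 1 / 2 := by nlinarith
  rcases le_or_gt a (ε / 2) with hc | hc
  · refine ⟨1, ε / 8, ε / 4, ε / 2, le_refl _, by linarith, by linarith, by linarith, ?_,
      le_refl _, by nlinarith, ?_, ?_, ?_, ?_⟩
    · intro ψ η hψ1 hψ2 hη1 hη2 _
      have h3 := key ψ a η (by linarith) ha (by linarith) (by linarith) hη2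
      have h4 : (ψ - a) ^ 2 ≤ ε ^ 2 / 4 := by
        have : |ψ - a| ≤ |ε / 2| := by
          rw [abs_of_pos (by linarith : (0:ℝ) < ε / 2), abs_le]
          constructor <;> linarith
        have := sq_le_sq.2 this
        nlinarith
      have h5 : ψ * a ≤ (ε / 4) * (ε / 2) := mul_le_mul hψ2 hc ha (by linarith)
      have h6 : ψ * a * (1 - η) ≤ (ε / 4) * (ε / 2) * 2 := by
        apply mul_le_mul h5 (by linarith) (by linarith) (by positivity)
      nlinarith
    · have h3 : (5 : ℝ) ^ k * d * ε ≤ 4 := by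
        rwa [le_div_iff₀ hε0] at h1
      nlinarith
    · have : ε / 2 / ε = 1 / 2 := by field_simp
      rw [this]
      push_cast
      nlinarith
    · have := sin_half (x := ε / 8) (by linarith) (by linarith)
      linarith
    · have := cosdiff (x := ε / 8) (y := ε / 4) (by linarith) (by linarith) (by linarith)
      nlinarith
  · have ha0 : 0 < a := by linarith
    have hq : 1 / 4 ≤ (a / ε) ^ 2 := by
      have : 1 / 2 ≤ a / ε := by
        rw [le_div_iff₀ hε0]; linarith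
      nlinarith
    have hx0 : 0 ≤ 352 * (a / ε) ^ 2 * L := by positivity
    set N : ℕ := ⌈352 * (a / ε) ^ 2 * L⌉₊ + 1 with hN
    have hN1 : 352 * (a / ε) ^ 2 * L ≤ (N : ℝ) - 1 := by
      rw [hN]; push_cast
      have := Nat.le_ceil (352 * (a / ε) ^ 2 * L)
      linarith
    have hN2 : (N : ℝ) ≤ 360 * (a / ε) ^ 2 * L := by
      rw [hN]; push_cast
      have := Nat.ceil_lt_add_one hx0
      nlinarith
    refine ⟨N, a, a + ε / 8, a, by rw [hN]; omega, ha0, by linarith, by linarith, ?_,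
      hc.le, ha2, h2, hN2, ?_, ?_⟩
    · intro ψ η hψ1 hψ2 hη1 hη2 hη
      have h3 := key ψ a η (by linarith) ha (by linarith) (by linarith) hη2
      have h4 : (ψ - a) ^ 2 ≤ ε ^ 2 / 64 := by
        have : |ψ - a| ≤ |ε / 8| := by
          rw [abs_of_pos (by linarith : (0:ℝ) < ε / 8), abs_le]
          constructor <;> linarith
        have := sq_le_sq.2 this
        nlinarith
      set X := ((N : ℝ) - 1) * ((1 - η) / 8) with hX
      have hNle : (N : ℝ) ≤ Real.exp (3 * L) := by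
        have e1 : (a / ε) ^ 2 ≤ 4 * Real.exp L := by
          rw [div_pow, div_le_iff₀ (by positivity), ← hεinv]
          have : 4 * ε⁻¹ * ε ^ 2 = 4 * ε := by field_simp
          rw [this]; exact ha2
        have e2 : L ≤ Real.exp L := by
          have := Real.add_one_le_exp L
          linarith
        have e3 : Real.exp (3 * L) = Real.exp L * Real.exp L * Real.exp L := by
          rw [← Real.exp_add, ← Real.exp_add]; congr 1; ring
        rw [e3]
        calc (N : ℝ) ≤ 360 * (a / ε) ^ 2 * L := hN2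
          _ ≤ 360 * (4 * Real.exp L) * Real.exp L := by
              apply mul_le_mul _ e2 (by linarith) (by positivity)
              linarith
          _ = 1440 * (Real.exp L * Real.exp L) := by ring
          _ ≤ Real.exp L * (Real.exp L * Real.exp L) := by
              apply mul_le_mul_of_nonneg_right (by linarith) (by positivity)
          _ = _ := by ring
      have hdle : (d : ℝ) ≤ Real.exp (2 * L) := by
        have e3 : Real.exp (2 * L) = Real.exp L * Real.exp L := by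
          rw [← Real.exp_add]; congr 1; ring
        rw [e3]
        calc (d : ℝ) ≤ 4 / ε := h5d.trans h1
          _ = 4 * Real.exp L := by rw [div_eq_mul_inv, hεinv]
          _ ≤ Real.exp L * Real.exp L := by
              apply mul_le_mul_of_nonneg_right (by linarith) (by positivity)
      have hX1 : X ≤ 11 * L := by
        rw [← Real.exp_le_exp]
        have e1 : 1 ≤ 2 * (d : ℝ) ^ 2 * (N : ℝ) ^ 2 * Real.exp (-X) := by
          rw [div_le_iff₀ (by positivity)] at hη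
          linarith
        have e2 : Real.exp X * Real.exp (-X) = 1 := by
          rw [← Real.exp_add]; simp
        have e3 : Real.exp X ≤ 2 * (d : ℝ) ^ 2 * (N : ℝ) ^ 2 := by
          have h7 := mul_le_mul_of_nonneg_left e1 (Real.exp_pos X).le
          calc Real.exp X = Real.exp X * 1 := by ring
            _ ≤ Real.exp X * (2 * (d : ℝ) ^ 2 * (N : ℝ) ^ 2 * Real.exp (-X)) := h7
            _ = 2 * (d : ℝ) ^ 2 * (N : ℝ) ^ 2 * (Real.exp X * Real.exp (-X)) := by ring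
            _ = _ := by rw [e2]; ring
        refine e3.trans ?_
        have e4 : Real.exp (11 * L) = Real.exp L * Real.exp (2 * L) ^ 2 * Real.exp (3 * L) ^ 2 := by
          rw [← Real.exp_nat_mul, ← Real.exp_nat_mul, ← Real.exp_add, ← Real.exp_add]
          congr 1; push_cast; ring
        rw [e4]
        gcongr
        linarith
      have hη3 : (1 - η) * (4 * a ^ 2) ≤ ε ^ 2 := by
        have e1 : 352 * (a / ε) ^ 2 * L * (1 - η) ≤ 88 * L := by
          have e0 := mul_le_mul_of_nonneg_right hN1 (sub_nonneg.2 hη2)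
          have : ((N : ℝ) - 1) * (1 - η) = 8 * X := by rw [hX]; ring
          linarith
        have e2 : 4 * (a / ε) ^ 2 * (1 - η) ≤ 1 := by
          have : (88 * L) * (4 * (a / ε) ^ 2 * (1 - η)) ≤ (88 * L) * 1 := by linarith
          exact le_of_mul_le_mul_left this (by linarith)
        rw [div_pow] at e2
        have e3 : 4 * (a ^ 2 / ε ^ 2) * (1 - η) = (1 - η) * (4 * a ^ 2) / ε ^ 2 := by ring
        rw [e3, div_le_one (by positivity)] at e2
        exact e2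
      have h7 : ψ * a ≤ (5 / 4) * a ^ 2 := by nlinarith
      have h8 : ψ * a * (1 - η) ≤ (5 / 4) * a ^ 2 * (1 - η) :=
        mul_le_mul_of_nonneg_right h7 (by linarith)
      nlinarith [pow_pos hε0 2]
    · have := sin_half (x := a) ha (by linarith)
      linarith
    · have := cosdiff (x := a) (y := a + ε / 8) ha (by linarith) (by linarith)
      nlinarith [mul_pos ha0 hε0]

theorem parity (p : ℕ) (hp : p < 2) (d T : ℝ) (hd : 1 ≤ d) (hT : 0 < T)
    (h : Real.sqrt (d * 5) ≤ 5 * T) :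
    ∃ l₀ : ℕ, l₀ % 2 = p ∧ T ≤ Real.sqrt (d * 5 ^ l₀) ∧ Real.sqrt (d * 5 ^ l₀) ≤ 5 * T := by
  have hex : ∃ i : ℕ, T ≤ Real.sqrt (d * 5 ^ (p + 2 * i)) := by
    obtain ⟨n, hn⟩ := pow_unbounded_of_one_lt T (show (1 : ℝ) < 5 by norm_num)
    refine ⟨n, ?_⟩
    apply Real.le_sqrt_of_sq_le
    calc T ^ 2 ≤ (5 ^ n) ^ 2 := pow_le_pow_left₀ hT.le hn.le 2
      _ = 5 ^ (2 * n) := by rw [← pow_mul, mul_comm]
      _ ≤ 5 ^ (p + 2 * n) := pow_le_pow_right₀ (by norm_num) (by omega)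
      _ ≤ d * 5 ^ (p + 2 * n) := by
          have : (0 : ℝ) ≤ 5 ^ (p + 2 * n) := by positivity
          nlinarith
  classical
  refine ⟨p + 2 * Nat.find hex, by omega, Nat.find_spec hex, ?_⟩
  rcases Nat.eq_zero_or_pos (Nat.find hex) with h0 | h0
  · rw [h0]
    refine le_trans (Real.sqrt_le_sqrt ?_) h
    have : (5 : ℝ) ^ (p + 2 * 0) ≤ 5 ^ 1 := pow_le_pow_right₀ (by norm_num) (by omega)
    rw [pow_one] at this
    nlinarith
  · have h1 := Nat.find_min hex (m := Nat.find hex - 1) (by omega)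
    rw [not_le] at h1
    have h2 : d * 5 ^ (p + 2 * Nat.find hex) = d * 5 ^ (p + 2 * (Nat.find hex - 1)) * 5 ^ 2 := by
      rw [mul_assoc, ← pow_add]
      congr 2; omega
    rw [h2, Real.sqrt_mul (by positivity), Real.sqrt_sq (by norm_num)]
    linarith

/-- TARGET -/
theorem numerics (δ : ℝ) (hδ : 0 < δ) (hδ1 : δ ≤ 1) (K₁ : ℝ) (hK₁ : 0 < K₁) :
    ∃ ε₀ C : ℝ, 0 < ε₀ ∧ ε₀ < 1 ∧ ∀ (ε φ : ℝ) (k d : ℕ), 0 < ε → ε ≤ ε₀ → 1 ≤ d →
    (5 : ℝ) ^ k * d ≤ 4 / ε → (5 : ℝ) ^ k * d * φ ^ 2 ≤ 4 * ε →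
    ∃ (N : ℕ) (ψ₁ ψ₂ : ℝ), 1 ≤ N ∧ 0 < ψ₁ ∧ ψ₁ < ψ₂ ∧ ψ₂ < 1 ∧
      (∀ ψ η : ℝ, ψ₁ ≤ ψ → ψ ≤ ψ₂ → -1 ≤ η → η ≤ 1 →
        1 / (2 * (d : ℝ) ^ 2) ≤ (N : ℝ) ^ 2 * Real.exp (-(((N : ℝ) - 1) * ((1 - η) / 8))) →
        2 - 2 * Real.cos ψ * Real.cos φ - 2 * Real.sin ψ * |Real.sin φ| * η < ε ^ 2) ∧
      ∀ p : ℕ, p < 2 → ∃ l₀ : ℕ, l₀ % 2 = p ∧
        K₁ * ((d : ℝ) * 5 ^ l₀) ^ (δ / 64) ≤
          Real.sqrt (d * 5 ^ l₀) * Real.cos ψ₁ - Real.sqrt (d * 5 ^ l₀) * Real.cos ψ₂ ∧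
        (d : ℝ) * N ≤ Real.sqrt (d * 5 ^ l₀) * Real.sin ψ₁ / 2 ∧
        ∀ D j : ℕ, 1 ≤ D → D ≤ d → (5 : ℝ) ^ j ≤ 25 * (D * N) →
          (k : ℝ) + l₀ + 2 * j + δ / 48 * Real.log (d * 5 ^ l₀) ≤
            (5 + δ) * Real.logb 5 (1 / ε) + C := by
  have hlog5 : 0 < Real.log 5 := Real.log_pos (by norm_num)
  have hlog52 : Real.log 5 ≤ 2 := by
    rw [Real.log_le_iff_le_exp (by norm_num)]
    have h1 : (2.7182818283 : ℝ) < Real.exp 1 := Real.exp_one_gt_d9
    have h2 : Real.exp 2 = Real.exp 1 ^ 2 := by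
      rw [← Real.exp_nat_mul]; norm_num
    rw [h2]; nlinarith
  set L₀ : ℝ := 10 + 23040 * 128 / δ ^ 2 + 256 * 1000 * K₁ / (15 * δ) with hL₀
  have hA : 0 < 23040 * 128 / δ ^ 2 := by positivity
  have hB : 0 < 256 * 1000 * K₁ / (15 * δ) := by positivity
  set C' : ℝ := Real.log (15625 * 4 * 360 ^ 2) + 2 * (δ / 48) * Real.log 100 +
    (-2 - 2 * Real.log (δ / 8)) with hC'
  refine ⟨Real.exp (-L₀), C' / Real.log 5, Real.exp_pos _, ?_, ?_⟩
  · rw [Real.exp_lt_one_iff]; linarith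
  intro ε φ k d hε hεε₀ hd h1 h2
  set L : ℝ := -Real.log ε with hL
  have hεL : ε = Real.exp (-L) := by rw [hL, neg_neg, Real.exp_log hε]
  have hLL : L₀ ≤ L := by
    have := Real.log_le_log hε hεε₀
    rw [Real.log_exp] at this
    linarith
  have hL10 : 10 ≤ L := by linarith
  have hL0 : 0 < L := by linarith
  have hd1 : (1 : ℝ) ≤ d := by exact_mod_cast hd
  have h5k : (1 : ℝ) ≤ (5 : ℝ) ^ k := one_le_pow₀ (by norm_num)
  obtain ⟨N, ψ₁, ψ₂, ρ, hN1, hψ₁, hψ₁₂, hψ₂, hη, hρ, hρ2, hρ3, hN2, hsin, hcos⟩ :=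
    choice ε L |φ| k d hεL hL10 (abs_nonneg _) hd h1 (by rwa [sq_abs])
  have hρ0 : 0 < ρ := by linarith
  have heL : 2000 ≤ Real.exp L := exp10.trans (Real.exp_le_exp.2 hL10)
  have hεinv : ε⁻¹ = Real.exp L := by rw [hεL, Real.exp_neg, inv_inv]
  have hε1 : ε ≤ 1 / 2000 := by
    have h3 : ε = (Real.exp L)⁻¹ := by rw [← hεinv, inv_inv]
    rw [h3, one_div]
    exact inv_anti₀ (by norm_num) heL
  have hρ1 : ρ ≤ 1 / 2 := by nlinarith
  have hφ1 : |φ| ≤ 1 / 2 := by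
    have : φ ^ 2 ≤ 4 * ε := by
      have : (1 : ℝ) ≤ (5 : ℝ) ^ k * d := by nlinarith
      nlinarith [sq_nonneg φ]
    have h3 : |φ| ^ 2 ≤ 4 * ε := by rwa [sq_abs]
    nlinarith [abs_nonneg φ]
  refine ⟨N, ψ₁, ψ₂, hN1, hψ₁, hψ₁₂, hψ₂, ?_, ?_⟩
  · intro ψ η a1 a2 a3 a4 a5
    have h3 := hη ψ η a1 a2 a3 a4 a5
    rw [Real.cos_abs] at h3
    have h4 : |Real.sin φ| = Real.sin |φ| := by
      rcases le_total 0 φ with h | h
      · rw [abs_of_nonneg h, abs_of_nonneg]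
        have h5 : φ ≤ 1 / 2 := by rwa [abs_of_nonneg h] at hφ1
        exact le_trans (by linarith) (sin_half h (by linarith))
      · rw [abs_of_nonpos h, Real.sin_neg, abs_of_nonpos]
        have h5 : -φ ≤ 1 / 2 := by rwa [abs_of_nonpos h] at hφ1
        have h6 := sin_half (x := -φ) (by linarith) (by linarith)
        rw [Real.sin_neg] at h6
        linarith
    rw [h4]
    exact h3
  intro p hp
  set T : ℝ := Real.exp ((1 + δ / 8) * L) / ρ with hT
  have hT0 : 0 < T := by positivity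
  have hTle : T ≤ 2 * Real.exp ((17 / 8) * L) := by
    rw [hT, div_le_iff₀ hρ0]
    have e1 : ε / 2 * Real.exp L = 1 / 2 := by
      rw [← hεinv]; field_simp
    have e2 : 1 / 2 ≤ ρ * Real.exp L := by
      rw [← e1]
      exact mul_le_mul_of_nonneg_right hρ (by positivity)
    have e3 : Real.exp ((17 / 8) * L) = Real.exp ((9 / 8) * L) * Real.exp L := by
      rw [← Real.exp_add]; congr 1; ring
    have e4 : Real.exp ((1 + δ / 8) * L) ≤ Real.exp ((9 / 8) * L) := by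
      rw [Real.exp_le_exp]; nlinarith
    rw [e3]
    nlinarith [Real.exp_pos ((9 / 8) * L)]
  have hTρε : T * ρ * ε = Real.exp (δ / 8 * L) := by
    rw [hT, div_mul_cancel₀ _ hρ0.ne', hεL, ← Real.exp_add]
    congr 1; ring
  obtain ⟨l₀, hl₀, hT1, hT2⟩ := parity p hp d T hd1 hT0 (by
    have e1 : (d : ℝ) ≤ 4 / ε := le_trans (by nlinarith) h1
    have e2 : Real.exp L ≤ T := by
      rw [hT, le_div_iff₀ hρ0]
      have : Real.exp L ≤ Real.exp ((1 + δ / 8) * L) := by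
        rw [Real.exp_le_exp]; nlinarith
      nlinarith [Real.exp_pos L]
    rw [Real.sqrt_le_iff]
    refine ⟨by positivity, ?_⟩
    rw [div_eq_mul_inv, hεinv] at e1
    have e3 : (5 * T) ^ 2 = 25 * (T * T) := by ring
    rw [e3]
    have e4 : Real.exp L * Real.exp L ≤ T * T := mul_le_mul e2 e2 (by positivity) hT0.le
    nlinarith)
  set R : ℝ := Real.sqrt (d * 5 ^ l₀) with hR
  have hR0 : 0 < R := lt_of_lt_of_le hT0 hT1
  have hRsq : (d : ℝ) * 5 ^ l₀ = R ^ 2 := by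
    rw [hR, Real.sq_sqrt (by positivity)]
  refine ⟨l₀, hl₀, ?_, ?_, ?_⟩
  · -- (C)
    have e1 : R * (ρ * ε / 100) ≤ R * Real.cos ψ₁ - R * Real.cos ψ₂ := by
      have := mul_le_mul_of_nonneg_left hcos hR0.le
      linarith
    refine le_trans ?_ e1
    have e2 : ((d : ℝ) * 5 ^ l₀) ^ (δ / 64) = R ^ (δ / 32) := by
      rw [hRsq, ← Real.rpow_natCast, ← Real.rpow_mul hR0.le]
      congr 1; push_cast; ring
    rw [e2]
    have e3 : R ≤ 10 * Real.exp ((17 / 8) * L) := by linarith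
    have e4 : R ^ (δ / 32) ≤ 10 * Real.exp (17 / 256 * δ * L) := by
      calc R ^ (δ / 32) ≤ (10 * Real.exp ((17 / 8) * L)) ^ (δ / 32) :=
            Real.rpow_le_rpow hR0.le e3 (by positivity)
        _ = 10 ^ (δ / 32) * Real.exp ((17 / 8) * L) ^ (δ / 32) :=
            Real.mul_rpow (by norm_num) (by positivity)
        _ ≤ 10 * Real.exp (17 / 256 * δ * L) := by
            rw [← Real.exp_mul]
            have : (10 : ℝ) ^ (δ / 32) ≤ 10 ^ (1 : ℝ) :=
              Real.rpow_le_rpow_of_exponent_le (by norm_num) (by linarith)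
            rw [Real.rpow_one] at this
            have e5 : 17 / 8 * L * (δ / 32) = 17 / 256 * δ * L := by ring
            rw [e5]
            exact mul_le_mul_of_nonneg_right this (by positivity)
    have e5 : 1000 * K₁ ≤ Real.exp (15 / 256 * δ * L) := by
      have e6 : 256 * 1000 * K₁ / (15 * δ) ≤ L := by linarith
      rw [div_le_iff₀ (by positivity)] at e6
      have := Real.add_one_le_exp (15 / 256 * δ * L)
      linarith
    have e6 : Real.exp (δ / 8 * L) = Real.exp (17 / 256 * δ * L) * Real.exp (15 / 256 * δ * L) := by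
      rw [← Real.exp_add]; congr 1; ring
    have e7 : Real.exp (δ / 8 * L) ≤ R * (ρ * ε) := by
      rw [← hTρε, mul_assoc]
      exact mul_le_mul_of_nonneg_right hT1 (by positivity)
    have e8 : K₁ * R ^ (δ / 32) ≤ K₁ * (10 * Real.exp (17 / 256 * δ * L)) :=
      mul_le_mul_of_nonneg_left e4 hK₁.le
    have e9 := mul_le_mul_of_nonneg_left e5 (Real.exp_pos (17 / 256 * δ * L)).le
    linarith
  · -- (D)
    have e1 : (d : ℝ) * N ≤ 1440 * Real.exp L * L := by
      have f1 : (d : ℝ) * ρ ^ 2 ≤ 4 * ε := by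
        refine le_trans ?_ hρ3
        have : (d : ℝ) ≤ (5 : ℝ) ^ k * d := by nlinarith
        exact mul_le_mul_of_nonneg_right this (by positivity)
      calc (d : ℝ) * N ≤ d * (360 * (ρ / ε) ^ 2 * L) :=
            mul_le_mul_of_nonneg_left hN2 (by linarith)
        _ = (d * ρ ^ 2) * (360 * L / ε ^ 2) := by rw [div_pow]; ring
        _ ≤ (4 * ε) * (360 * L / ε ^ 2) := mul_le_mul_of_nonneg_right f1 (by positivity)
        _ = 1440 * ε⁻¹ * L := by field_simp; ring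
        _ = _ := by rw [hεinv]
    have e2 : 23040 * L ≤ Real.exp (δ / 8 * L) := by
      have f1 := Real.quadratic_le_exp_of_nonneg (x := δ / 8 * L) (by positivity)
      have f2 : 23040 * 128 / δ ^ 2 ≤ L := by linarith
      rw [div_le_iff₀ (by positivity)] at f2
      have f3 : 0 ≤ δ / 8 * L := by positivity
      nlinarith
    have e3 : Real.exp (δ / 8 * L) * Real.exp L ≤ R * ρ := by
      rw [← hTρε, ← hεinv]
      have : T * ρ * ε * ε⁻¹ = T * ρ := by field_simp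
      rw [this]
      exact mul_le_mul_of_nonneg_right hT1 hρ0.le
    have e4 : R * (ρ / 8) ≤ R * Real.sin ψ₁ := mul_le_mul_of_nonneg_left hsin hR0.le
    have e5 := mul_le_mul_of_nonneg_right e2 (Real.exp_pos L).le
    linarith
  · -- length
    intro D j hD hDd hj
    have hlb : Real.logb 5 (1 / ε) = L / Real.log 5 := by
      rw [Real.logb, one_div, Real.log_inv]
    rw [hlb]
    have hDd' : (D : ℝ) ≤ d := by exact_mod_cast hDd
    have hD' : (1 : ℝ) ≤ D := by exact_mod_cast hD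
    have hN' : (1 : ℝ) ≤ N := by exact_mod_cast hN1
    -- 5 ^ (k + l₀ + 2 j)
    have g1 : (5 : ℝ) ^ (k + l₀ + 2 * j) ≤
        15625 * 4 * 360 ^ 2 * Real.exp ((5 + δ / 4) * L) * L ^ 2 := by
      have f1 : (5 : ℝ) ^ (2 * j) ≤ 625 * (d * N) ^ 2 := by
        have : (5 : ℝ) ^ j ≤ 25 * (d * N) := by
          refine hj.trans ?_
          have : (D : ℝ) * N ≤ d * N := mul_le_mul_of_nonneg_right hDd' (by positivity)
          linarith
        calc (5 : ℝ) ^ (2 * j) = (5 ^ j) ^ 2 := by rw [← pow_mul, mul_comm]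
          _ ≤ (25 * (d * N)) ^ 2 := pow_le_pow_left₀ (by positivity) this 2
          _ = _ := by ring
      have f2 : (d : ℝ) * 5 ^ l₀ ≤ 25 * T ^ 2 := by
        rw [hRsq]
        calc R ^ 2 ≤ (5 * T) ^ 2 := pow_le_pow_left₀ hR0.le hT2 2
          _ = _ := by ring
      have f3 : (N : ℝ) ^ 2 ≤ (360 * (ρ / ε) ^ 2 * L) ^ 2 :=
        pow_le_pow_left₀ (by positivity) hN2 2
      calc (5 : ℝ) ^ (k + l₀ + 2 * j) = 5 ^ k * 5 ^ l₀ * 5 ^ (2 * j) := by
            rw [pow_add, pow_add]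
        _ ≤ 5 ^ k * 5 ^ l₀ * (625 * (d * N) ^ 2) :=
            mul_le_mul_of_nonneg_left f1 (by positivity)
        _ = (5 ^ k * d) * 625 * (d * 5 ^ l₀) * N ^ 2 := by ring
        _ ≤ (5 ^ k * d) * 625 * (25 * T ^ 2) * (360 * (ρ / ε) ^ 2 * L) ^ 2 := by
            gcongr
        _ = 15625 * 360 ^ 2 * (5 ^ k * d * ρ ^ 2) * (T * ρ * ε) ^ 2 * L ^ 2 * (ε⁻¹) ^ 6 := by
            field_simp
            ring
        _ ≤ 15625 * 360 ^ 2 * (4 * ε) * (T * ρ * ε) ^ 2 * L ^ 2 * (ε⁻¹) ^ 6 := by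
            gcongr
        _ = 15625 * 4 * 360 ^ 2 * ((T * ρ * ε) ^ 2 * (ε⁻¹) ^ 5) * L ^ 2 := by
            field_simp
        _ = _ := by
            rw [hTρε, hεinv, ← Real.exp_nat_mul, ← Real.exp_nat_mul, ← Real.exp_add]
            congr 3
            push_cast; ring
    have g2 : ((k : ℝ) + l₀ + 2 * j) * Real.log 5 ≤
        Real.log (15625 * 4 * 360 ^ 2) + (5 + δ / 4) * L + 2 * Real.log L := by
      have f1 := Real.log_le_log (by positivity) g1
      rw [Real.log_pow, Real.log_mul (by positivity) (by positivity),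
        Real.log_mul (by positivity) (by positivity), Real.log_exp, Real.log_pow] at f1
      push_cast at f1 ⊢
      linarith
    have g3 : Real.log (d * 5 ^ l₀) ≤ Real.log 100 + (17 / 4) * L := by
      rw [hRsq]
      have f1 : R ^ 2 ≤ 100 * Real.exp ((17 / 4) * L) := by
        have f2 : R ≤ 10 * Real.exp ((17 / 8) * L) := by linarith
        calc R ^ 2 ≤ (10 * Real.exp ((17 / 8) * L)) ^ 2 := pow_le_pow_left₀ hR0.le f2 2
          _ = 100 * (Real.exp ((17 / 8) * L)) ^ 2 := by ring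
          _ = _ := by rw [← Real.exp_nat_mul]; congr 2; push_cast; ring
      have f3 := Real.log_le_log (by positivity) f1
      rwa [Real.log_mul (by positivity) (by positivity), Real.log_exp] at f3
    have g4 : 0 ≤ Real.log (d * 5 ^ l₀) := by
      apply Real.log_nonneg
      have : (1 : ℝ) ≤ 5 ^ l₀ := one_le_pow₀ (by norm_num)
      nlinarith
    have g5 : 2 * Real.log L ≤ δ / 4 * L + (-2 - 2 * Real.log (δ / 8)) := by
      have f1 := Real.log_le_sub_one_of_pos (x := δ / 8 * L) (by positivity)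
      rw [Real.log_mul (by positivity) (by positivity)] at f1
      linarith
    have g6 : δ / 48 * Real.log (d * 5 ^ l₀) * Real.log 5 ≤
        2 * (δ / 48) * Real.log 100 + 2 * (δ / 48) * (17 / 4) * L := by
      calc δ / 48 * Real.log (d * 5 ^ l₀) * Real.log 5
          ≤ δ / 48 * Real.log (d * 5 ^ l₀) * 2 :=
            mul_le_mul_of_nonneg_left hlog52 (by positivity)
        _ ≤ δ / 48 * (Real.log 100 + (17 / 4) * L) * 2 := by gcongr
        _ = _ := by ring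
    have g7 : ((k : ℝ) + l₀ + 2 * j + δ / 48 * Real.log (d * 5 ^ l₀)) * Real.log 5 ≤
        (5 + δ) * L + C' := by
      rw [hC', add_mul]
      have : 0 < δ * L := by positivity
      linarith
    rw [mul_div_assoc', ← add_div, le_div_iff₀ hlog5]
    exact g7

end Pool.Agent.H978V
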