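import Pool.Agent.H978V.NDefs
import Pool.Agent.H978V.M10

/-!
JOB E5 (owner helper978, MP_06cce2_nt).  `H978V/*.lean` (library, with `NDefs`, `M10`) is on origin/main.

Variant of `numerics_g` of `H978V/M10.lean` (PROVED; READ IT and copy its proof; its lemmas, e.g. `choice_g`, can be used); only the last inequality is different.  Only real analysis.

PROOF of the last inequality (symbols of `M10`: `L = log (1/ε)`, `T = exp ((1 + δ/8) L)/ρ`, `√(d 5^(4k)) ≤ 25 T`, `ε/2 ≤ ρ ≤ max(|φ|, ε)`, `N ≤ 360 (ρ/ε)² L`): `5^(4k) ≤ 625 T²/d`, and `2 j log 5 + 2 log (D N) ≤ 2 log 25 + (4/3) log (D N) + 2 log (D N) = c + (10/3) log (D N)`, `log (D N) ≤ log d + 2 log ρ + 2 L + log L + c`.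
The sum of the logarithms is `≤ (2 + δ/4) L - 2 log ρ - log d + (10/3)(log d + 2 log ρ + 2 L + log L) + c = (26/3 + δ/4) L + (7/3)(log d + 2 log ρ) + (10/3) log L + c`, and `log ρ ≤ log max(|φ|,ε)`; the term `δ/48 log (d 5^(4k)) ≤ (δ/24) log (25 T)` is at most `(δ/8) L + c`.
-/

set_option autoImplicit false

namespace Pool.Agent.H978V

/-- TARGET -/
theorem numerics_s (δ : ℝ) (hδ : 0 < δ) (hδ1 : δ ≤ 1) (K₁ : ℝ) (hK₁ : 0 < K₁) :
    ∃ ε₀ C δ₁ : ℝ, 0 < ε₀ ∧ ε₀ < 1 ∧ 0 < δ₁ ∧ δ₁ ≤ 1 / 16 ∧ ∀ (ε φ : ℝ) (d : ℕ), 0 < ε → ε ≤ ε₀ → 1 ≤ d →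
    (d : ℝ) * max |φ| ε ^ 2 ≤ ε ^ (1 - δ₁) →
    ∃ (N : ℕ) (ψ₁ ψ₂ : ℝ), 1 ≤ N ∧ 0 < ψ₁ ∧ ψ₁ < ψ₂ ∧ ψ₂ < 1 ∧
      (∀ ψ η : ℝ, ψ₁ ≤ ψ → ψ ≤ ψ₂ → -1 ≤ η → η ≤ 1 →
        1 / (2 * (d : ℝ) ^ 2) ≤ (N : ℝ) ^ 2 * Real.exp (-(((N : ℝ) - 1) * ((1 - η) / 8))) →
        2 - 2 * Real.cos ψ * Real.cos φ - 2 * Real.sin ψ * |Real.sin φ| * η < ε ^ 2) ∧
      ∃ k : ℕ,
        K₁ * ((d : ℝ) * 5 ^ (4 * k)) ^ (δ / 64) ≤
          Real.sqrt (d * 5 ^ (4 * k)) * Real.cos ψ₁ - Real.sqrt (d * 5 ^ (4 * k)) * Real.cos ψ₂ ∧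
        (d : ℝ) * N ≤ Real.sqrt (d * 5 ^ (4 * k)) * Real.sin ψ₁ / 2 ∧
        ∀ D j : ℕ, 1 ≤ D → D ≤ d → (5 : ℝ) ^ j ≤ 25 * ((D : ℝ) * N) ^ (2 / 3 : ℝ) →
          (4 : ℝ) * k + 2 * j + 2 * Real.logb 5 ((D : ℝ) * N) + δ / 48 * Real.log (d * 5 ^ (4 * k)) ≤
            7 / 3 * Real.logb 5 (d * max |φ| ε ^ 2) + (26 / 3 + δ) * Real.logb 5 (1 / ε) + C := by
  have hlog5 : 0 < Real.log 5 := Real.log_pos (by norm_num)
  have hlog52 : Real.log 5 ≤ 2 := by
    rw [Real.log_le_iff_le_exp (by norm_num)]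
    have h1 : (2.7182818283 : ℝ) < Real.exp 1 := Real.exp_one_gt_d9
    have h2 : Real.exp 2 = Real.exp 1 ^ 2 := by
      rw [← Real.exp_nat_mul]; norm_num
    rw [h2]; nlinarith
  set L₀ : ℝ := 20 + 5760 * 512 / δ ^ 2 + 256 * 5000 * K₁ / (15 * δ) with hL₀
  have hA : 0 < 5760 * 512 / δ ^ 2 := by positivity
  have hB : 0 < 256 * 5000 * K₁ / (15 * δ) := by positivity
  set C' : ℝ := Real.log 625 + 2 * Real.log 25 + 10 / 3 * Real.log 360 +
    2 * (δ / 48) * Real.log 2500 + 5 / 3 * (-2 - 2 * Real.log (δ / 8)) with hC'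
  refine ⟨Real.exp (-L₀), C' / Real.log 5, δ / 16, Real.exp_pos _, ?_, by linarith,
    by linarith, ?_⟩
  · rw [Real.exp_lt_one_iff]; linarith
  intro ε φ d hε hεε₀ hd h1
  set L : ℝ := -Real.log ε with hL
  have hεL : ε = Real.exp (-L) := by rw [hL, neg_neg, Real.exp_log hε]
  have hLL : L₀ ≤ L := by
    have := Real.log_le_log hε hεε₀
    rw [Real.log_exp] at this
    linarith
  have hL20 : 20 ≤ L := by linarith
  have hL10 : 10 ≤ L := by linarith
  have hL0 : 0 < L := by linarith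
  have hd1 : (1 : ℝ) ≤ d := by exact_mod_cast hd
  set M : ℝ := max |φ| ε with hM
  have hMε : ε ≤ M := le_max_right _ _
  have hMφ : |φ| ≤ M := le_max_left _ _
  have hM0 : 0 < M := lt_of_lt_of_le hε hMε
  have hrp : ε ^ (1 - δ / 16) = Real.exp (-((1 - δ / 16) * L)) := by
    rw [hεL, ← Real.exp_mul]
    congr 1; ring
  rw [hrp] at h1
  have hhalf : Real.exp (-((1 - δ / 16) * L)) ≤ Real.exp (-(L / 2)) := by
    rw [Real.exp_le_exp]; nlinarith
  have hdM2 : (d : ℝ) * M ^ 2 ≤ Real.exp (-(L / 2)) := h1.trans hhalf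
  obtain ⟨N, ψ₁, ψ₂, ρ, hN1, hψ₁, hψ₁₂, hψ₂, hη, hρ, hρM, hN2, hsin, hcos⟩ :=
    choice_g ε L |φ| d hεL hL20 (abs_nonneg _) hd
      (le_trans (mul_le_mul_of_nonneg_left (pow_le_pow_left₀ hε.le hMε 2) (by linarith)) hdM2)
      (le_trans (mul_le_mul_of_nonneg_left (pow_le_pow_left₀ (abs_nonneg _) hMφ 2) (by linarith))
        hdM2)
  have hρ0 : 0 < ρ := by linarith
  have hdρ : (d : ℝ) * ρ ^ 2 ≤ d * M ^ 2 :=
    mul_le_mul_of_nonneg_left (pow_le_pow_left₀ hρ0.le hρM 2) (by linarith)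
  have heL2 : 2000 ≤ Real.exp (L / 2) := exp10.trans (Real.exp_le_exp.2 (by linarith))
  have hsm : Real.exp (-(L / 2)) ≤ 1 / 2000 := by
    rw [Real.exp_neg, one_div]
    exact inv_anti₀ (by norm_num) heL2
  have heL : 2000 ≤ Real.exp L := exp10.trans (Real.exp_le_exp.2 hL10)
  have hεinv : ε⁻¹ = Real.exp L := by rw [hεL, Real.exp_neg, inv_inv]
  have hMsm : M ^ 2 ≤ 1 / 2000 := by nlinarith [sq_nonneg M]
  have hM1 : M ≤ 1 / 2 := by nlinarith
  have hρ1 : ρ ≤ 1 / 2 := hρM.trans hM1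
  have hφ1 : |φ| ≤ 1 / 2 := hMφ.trans hM1
  refine ⟨N, ψ₁, ψ₂, hN1, hψ₁, hψ₁₂, hψ₂, ?_, ?_⟩
  · intro ψ η a1 a2 a3 a4 a5
    have h3 := hη ψ η a1 a2 a3 a4 a5
    rw [Real.cos_abs] at h3
    have h4 : |Real.sin φ| = Real.sin |φ| := by
      rcases le_total 0 φ with h | h
      · rw [abs_of_nonneg h, abs_of_nonneg]
        have h5 : φ ≤ 1 / 2 := by rwa [abs_of_nonneg h] at hφ1
        exact le_trans (by linarith) (sin_half h (by linarith))
      · rw [abs_of_nonpos h, Real.sin_neg, abs_of_nonpos]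
        have h5 : -φ ≤ 1 / 2 := by rwa [abs_of_nonpos h] at hφ1
        have h6 := sin_half (x := -φ) (by linarith) (by linarith)
        rw [Real.sin_neg] at h6
        linarith
    rw [h4]
    exact h3
  set T : ℝ := Real.exp ((1 + δ / 8) * L) / ρ with hT
  have hT0 : 0 < T := by positivity
  have hTρ : T * ρ = Real.exp ((1 + δ / 8) * L) := by
    rw [hT, div_mul_cancel₀ _ hρ0.ne']
  have hTle : T ≤ 2 * Real.exp ((17 / 8) * L) := by
    rw [hT, div_le_iff₀ hρ0]
    have e1 : ε / 2 * Real.exp L = 1 / 2 := by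
      rw [← hεinv]; field_simp
    have e2 : 1 / 2 ≤ ρ * Real.exp L := by
      rw [← e1]
      exact mul_le_mul_of_nonneg_right hρ (by positivity)
    have e3 : Real.exp ((17 / 8) * L) = Real.exp ((9 / 8) * L) * Real.exp L := by
      rw [← Real.exp_add]; congr 1; ring
    have e4 : Real.exp ((1 + δ / 8) * L) ≤ Real.exp ((9 / 8) * L) := by
      rw [Real.exp_le_exp]; nlinarith
    rw [e3]
    nlinarith [Real.exp_pos ((9 / 8) * L)]
  have hTρε : T * ρ * ε = Real.exp (δ / 8 * L) := by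
    rw [hTρ, hεL, ← Real.exp_add]
    congr 1; ring
  obtain ⟨k, hT1, hT2⟩ := parity4 d T hd1 hT0 (by
    have e1 : (d : ℝ) * ρ ^ 2 ≤ 1 := (hdρ.trans hdM2).trans (by linarith)
    have e2 : 1 ≤ T * ρ := by
      rw [hTρ]; apply Real.one_le_exp; positivity
    have e3 : (1 : ℝ) ≤ (T * ρ) ^ 2 := one_le_pow₀ e2
    have e4 : (d : ℝ) * ρ ^ 2 ≤ T ^ 2 * ρ ^ 2 := by rw [mul_pow] at e3; linarith
    have e5 : (d : ℝ) ≤ T ^ 2 := le_of_mul_le_mul_right e4 (by positivity)
    have e6 : Real.sqrt d ≤ T := by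
      rw [Real.sqrt_le_left hT0.le]; exact e5
    linarith)
  set R : ℝ := Real.sqrt (d * 5 ^ (4 * k)) with hR
  have hR0 : 0 < R := lt_of_lt_of_le hT0 hT1
  have hRsq : (d : ℝ) * 5 ^ (4 * k) = R ^ 2 := by
    rw [hR, Real.sq_sqrt (by positivity)]
  refine ⟨k, ?_, ?_, ?_⟩
  · -- (C)
    have e1 : R * (ρ * ε / 100) ≤ R * Real.cos ψ₁ - R * Real.cos ψ₂ := by
      have := mul_le_mul_of_nonneg_left hcos hR0.le
      linarith
    refine le_trans ?_ e1
    have e2 : ((d : ℝ) * 5 ^ (4 * k)) ^ (δ / 64) = R ^ (δ / 32) := by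
      rw [hRsq, ← Real.rpow_natCast, ← Real.rpow_mul hR0.le]
      congr 1; push_cast; ring
    rw [e2]
    have e3 : R ≤ 50 * Real.exp ((17 / 8) * L) := by linarith
    have e4 : R ^ (δ / 32) ≤ 50 * Real.exp (17 / 256 * δ * L) := by
      calc R ^ (δ / 32) ≤ (50 * Real.exp ((17 / 8) * L)) ^ (δ / 32) :=
            Real.rpow_le_rpow hR0.le e3 (by positivity)
        _ = 50 ^ (δ / 32) * Real.exp ((17 / 8) * L) ^ (δ / 32) :=
            Real.mul_rpow (by norm_num) (by positivity)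
        _ ≤ 50 * Real.exp (17 / 256 * δ * L) := by
            rw [← Real.exp_mul]
            have : (50 : ℝ) ^ (δ / 32) ≤ 50 ^ (1 : ℝ) :=
              Real.rpow_le_rpow_of_exponent_le (by norm_num) (by linarith)
            rw [Real.rpow_one] at this
            have e5 : 17 / 8 * L * (δ / 32) = 17 / 256 * δ * L := by ring
            rw [e5]
            exact mul_le_mul_of_nonneg_right this (by positivity)
    have e5 : 5000 * K₁ ≤ Real.exp (15 / 256 * δ * L) := by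
      have e6 : 256 * 5000 * K₁ / (15 * δ) ≤ L := by linarith
      rw [div_le_iff₀ (by positivity)] at e6
      have := Real.add_one_le_exp (15 / 256 * δ * L)
      linarith
    have e6 : Real.exp (δ / 8 * L) = Real.exp (17 / 256 * δ * L) * Real.exp (15 / 256 * δ * L) := by
      rw [← Real.exp_add]; congr 1; ring
    have e7 : Real.exp (δ / 8 * L) ≤ R * (ρ * ε) := by
      rw [← hTρε, mul_assoc]
      exact mul_le_mul_of_nonneg_right hT1 (by positivity)
    have e8 : K₁ * R ^ (δ / 32) ≤ K₁ * (50 * Real.exp (17 / 256 * δ * L)) :=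
      mul_le_mul_of_nonneg_left e4 hK₁.le
    have e9 := mul_le_mul_of_nonneg_left e5 (Real.exp_pos (17 / 256 * δ * L)).le
    linarith
  · -- (D)
    have e1 : (d : ℝ) * N ≤ 360 * L * Real.exp ((1 + δ / 16) * L) := by
      have f1 : (d : ℝ) * ρ ^ 2 ≤ Real.exp (-((1 - δ / 16) * L)) := hdρ.trans h1
      have f2 : Real.exp ((1 + δ / 16) * L) =
          Real.exp (-((1 - δ / 16) * L)) * (Real.exp L * Real.exp L) := by
        rw [← Real.exp_add, ← Real.exp_add]; congr 1; ring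
      calc (d : ℝ) * N ≤ d * (360 * (ρ / ε) ^ 2 * L) :=
            mul_le_mul_of_nonneg_left hN2 (by linarith)
        _ = (d * ρ ^ 2) * (360 * L * (ε⁻¹ * ε⁻¹)) := by rw [div_eq_mul_inv]; ring
        _ ≤ Real.exp (-((1 - δ / 16) * L)) * (360 * L * (ε⁻¹ * ε⁻¹)) :=
            mul_le_mul_of_nonneg_right f1 (by positivity)
        _ = _ := by rw [hεinv, f2]; ring
    have e2 : 5760 * L ≤ Real.exp (δ / 16 * L) := by
      have f1 := Real.quadratic_le_exp_of_nonneg (x := δ / 16 * L) (by positivity)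
      have f2 : 5760 * 512 / δ ^ 2 ≤ L := by linarith
      rw [div_le_iff₀ (by positivity)] at f2
      have f3 : 0 ≤ δ / 16 * L := by positivity
      nlinarith
    have e3 : Real.exp (δ / 16 * L) * Real.exp ((1 + δ / 16) * L) ≤ R * ρ := by
      rw [← Real.exp_add]
      have : δ / 16 * L + (1 + δ / 16) * L = (1 + δ / 8) * L := by ring
      rw [this, ← hTρ]
      exact mul_le_mul_of_nonneg_right hT1 hρ0.le
    have e4 : R * (ρ / 8) ≤ R * Real.sin ψ₁ := mul_le_mul_of_nonneg_left hsin hR0.le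
    have e5 := mul_le_mul_of_nonneg_right e2 (Real.exp_pos ((1 + δ / 16) * L)).le
    linarith
  · -- length
    intro D j hD hDd hj
    have hlb : Real.logb 5 (1 / ε) = L / Real.log 5 := by
      rw [Real.logb, one_div, Real.log_inv]
    have hlb2 : Real.logb 5 ((d : ℝ) * M ^ 2) = Real.log ((d : ℝ) * M ^ 2) / Real.log 5 := rfl
    rw [hlb, hlb2]
    have hDd' : (D : ℝ) ≤ d := by exact_mod_cast hDd
    have hD' : (1 : ℝ) ≤ D := by exact_mod_cast hD
    have hN' : (1 : ℝ) ≤ N := by exact_mod_cast hN1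
    have hd0 : (0 : ℝ) < d := by linarith
    have hDN1 : (1 : ℝ) ≤ (D : ℝ) * N := one_le_mul_of_one_le_of_one_le hD' hN'
    have hDN0 : (0 : ℝ) < (D : ℝ) * N := by linarith
    set B : ℝ := Real.log ((D : ℝ) * N) with hB
    have hB0 : 0 ≤ B := Real.log_nonneg hDN1
    have hBle : B ≤ Real.log d + (Real.log 360 + 2 * (Real.log ρ + L) + Real.log L) := by
      have f1 : (D : ℝ) * N ≤ d * (360 * (ρ / ε) ^ 2 * L) :=
        mul_le_mul hDd' hN2 (by positivity) (by positivity)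
      have f2 := Real.log_le_log hDN0 f1
      have f3 : Real.log (d * (360 * (ρ / ε) ^ 2 * L))
          = Real.log d + (Real.log 360 + 2 * (Real.log ρ - Real.log ε) + Real.log L) := by
        rw [Real.log_mul (by positivity) (by positivity),
          Real.log_mul (by positivity) (by positivity),
          Real.log_mul (by positivity) (by positivity), Real.log_pow,
          Real.log_div hρ0.ne' hε.ne']
        push_cast
        ring
      rw [f3] at f2
      linarith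
    have hj2 : (j : ℝ) * Real.log 5 ≤ Real.log 25 + 2 / 3 * B := by
      have f1 := Real.log_le_log (by positivity) hj
      rw [Real.log_pow, Real.log_mul (by norm_num) (by positivity), Real.log_rpow hDN0] at f1
      exact f1
    have hk2 : (4 : ℝ) * k * Real.log 5 ≤ Real.log 625 + 2 * ((1 + δ / 8) * L - Real.log ρ)
        - Real.log d := by
      have f2 : (d : ℝ) * 5 ^ (4 * k) ≤ 625 * T ^ 2 := by
        rw [hRsq]
        calc R ^ 2 ≤ (25 * T) ^ 2 := pow_le_pow_left₀ hR0.le hT2 2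
          _ = _ := by ring
      have f3 := Real.log_le_log (by positivity) f2
      have f4 : Real.log T = (1 + δ / 8) * L - Real.log ρ := by
        rw [hT, Real.log_div (Real.exp_pos _).ne' hρ0.ne', Real.log_exp]
      rw [Real.log_mul (by positivity) (by positivity), Real.log_pow,
        Real.log_mul (by norm_num) (by positivity), Real.log_pow, f4] at f3
      push_cast at f3
      linarith
    have hρlog : Real.log d + 2 * Real.log ρ ≤ Real.log (d * M ^ 2) := by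
      have f1 := Real.log_le_log (by positivity) hdρ
      rw [Real.log_mul (by positivity) (by positivity), Real.log_pow] at f1
      push_cast at f1
      exact f1
    have g2 : ((4 : ℝ) * k + 2 * j + 2 * (B / Real.log 5)) * Real.log 5 ≤
        Real.log 625 + 2 * Real.log 25 + 10 / 3 * Real.log 360 + 7 / 3 * Real.log (d * M ^ 2)
          + (26 / 3 + δ / 4) * L + 10 / 3 * Real.log L := by
      have f1 : ((4 : ℝ) * k + 2 * j + 2 * (B / Real.log 5)) * Real.log 5
          = (4 : ℝ) * k * Real.log 5 + 2 * (j * Real.log 5) + 2 * B := by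
        field_simp
      rw [f1]
      linarith
    have g3 : Real.log (d * 5 ^ (4 * k)) ≤ Real.log 2500 + (17 / 4) * L := by
      rw [hRsq]
      have f1 : R ^ 2 ≤ 2500 * Real.exp ((17 / 4) * L) := by
        have f2 : R ≤ 50 * Real.exp ((17 / 8) * L) := by linarith
        calc R ^ 2 ≤ (50 * Real.exp ((17 / 8) * L)) ^ 2 := pow_le_pow_left₀ hR0.le f2 2
          _ = 2500 * (Real.exp ((17 / 8) * L)) ^ 2 := by ring
          _ = _ := by rw [← Real.exp_nat_mul]; congr 2; push_cast; ring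
      have f3 := Real.log_le_log (by positivity) f1
      rwa [Real.log_mul (by positivity) (by positivity), Real.log_exp] at f3
    have g4 : 0 ≤ Real.log (d * 5 ^ (4 * k)) := by
      apply Real.log_nonneg
      have : (1 : ℝ) ≤ 5 ^ (4 * k) := one_le_pow₀ (by norm_num)
      exact one_le_mul_of_one_le_of_one_le hd1 this
    have g5 : 2 * Real.log L ≤ δ / 4 * L + (-2 - 2 * Real.log (δ / 8)) := by
      have f1 := Real.log_le_sub_one_of_pos (x := δ / 8 * L) (by positivity)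
      rw [Real.log_mul (by positivity) (by positivity)] at f1
      linarith
    have g6 : δ / 48 * Real.log (d * 5 ^ (4 * k)) * Real.log 5 ≤
        2 * (δ / 48) * Real.log 2500 + 2 * (δ / 48) * (17 / 4) * L := by
      calc δ / 48 * Real.log (d * 5 ^ (4 * k)) * Real.log 5
          ≤ δ / 48 * Real.log (d * 5 ^ (4 * k)) * 2 :=
            mul_le_mul_of_nonneg_left hlog52 (by positivity)
        _ ≤ δ / 48 * (Real.log 2500 + (17 / 4) * L) * 2 := by gcongr
        _ = _ := by ring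
    have g7 : ((4 : ℝ) * k + 2 * j + 2 * (B / Real.log 5)
        + δ / 48 * Real.log (d * 5 ^ (4 * k))) * Real.log 5 ≤
        7 / 3 * Real.log (d * M ^ 2) + (26 / 3 + δ) * L + C' := by
      rw [hC', add_mul]
      have : 0 < δ * L := by positivity
      linarith
    have hBl : Real.logb 5 ((D : ℝ) * N) = B / Real.log 5 := rfl
    have hR2 : 7 / 3 * (Real.log ((d : ℝ) * M ^ 2) / Real.log 5)
        + (26 / 3 + δ) * (L / Real.log 5) + C' / Real.log 5
        = (7 / 3 * Real.log (d * M ^ 2) + (26 / 3 + δ) * L + C') / Real.log 5 := by ring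
    rw [hBl, hR2, le_div_iff₀ hlog5]
    exact g7


end Pool.Agent.H978V
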