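import Pool.Agent.H978V.Defs2
import Pool.Agent.H978V.C5

set_option autoImplicit false

open scoped Quaternion

namespace Pool.Agent.H978V

open Pool.Agent.Helper557.Rz



/-- complex part of an integral quaternion -/
noncomputable def cc_cx (q : ℍ[ℤ]) : ℂ := q.re + q.imI * Complex.I

lemma cc_cx_mul (p q : ℍ[ℤ]) (h1 : p.imJ = 0) (h2 : p.imK = 0) :
    cc_cx (p * q) = cc_cx p * cc_cx q := by
  unfold cc_cx
  rw [Quaternion.re_mul, Quaternion.imI_mul, h1, h2]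
  push_cast
  linear_combination (-((p.imI : ℂ) * q.imI)) * Complex.I_mul_I

lemma cc_gd_mul (p q : ℍ[ℤ]) (hp : Gd p) (hq : Gd q) : Gd (p * q) := by
  obtain ⟨p0, p1, p2, p3⟩ := hp
  obtain ⟨q0, q1, q2, q3⟩ := hq
  obtain ⟨a0, ha0⟩ : ∃ z, p.re = 4 * z + 1 := ⟨p.re / 4, by omega⟩
  obtain ⟨a1, ha1⟩ : ∃ z, p.imI = 2 * z := ⟨p.imI / 2, by omega⟩
  obtain ⟨a2, ha2⟩ : ∃ z, p.imJ = 2 * z := ⟨p.imJ / 2, by omega⟩
  obtain ⟨a3, ha3⟩ : ∃ z, p.imK = 2 * z := ⟨p.imK / 2, by omega⟩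
  obtain ⟨b0, hb0⟩ : ∃ z, q.re = 4 * z + 1 := ⟨q.re / 4, by omega⟩
  obtain ⟨b1, hb1⟩ : ∃ z, q.imI = 2 * z := ⟨q.imI / 2, by omega⟩
  obtain ⟨b2, hb2⟩ : ∃ z, q.imJ = 2 * z := ⟨q.imJ / 2, by omega⟩
  obtain ⟨b3, hb3⟩ : ∃ z, q.imK = 2 * z := ⟨q.imK / 2, by omega⟩
  refine ⟨?_, ?_, ?_, ?_⟩
  · rw [Quaternion.re_mul, ha0, ha1, ha2, ha3, hb0, hb1, hb2, hb3]
    have : (4 * a0 + 1) * (4 * b0 + 1) - 2 * a1 * (2 * b1) - 2 * a2 * (2 * b2) - 2 * a3 * (2 * b3) =
        4 * (4 * a0 * b0 + a0 + b0 - a1 * b1 - a2 * b2 - a3 * b3) + 1 := by ring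
    rw [this]
    omega
  · rw [Quaternion.imI_mul, ha0, ha1, ha2, ha3, hb0, hb1, hb2, hb3]
    have : (4 * a0 + 1) * (2 * b1) + 2 * a1 * (4 * b0 + 1) + 2 * a2 * (2 * b3) - 2 * a3 * (2 * b2) =
        2 * ((4 * a0 + 1) * b1 + a1 * (4 * b0 + 1) + 2 * a2 * b3 - 2 * a3 * b2) := by ring
    rw [this]
    omega
  · rw [Quaternion.imJ_mul, ha0, ha1, ha2, ha3, hb0, hb1, hb2, hb3]
    have : (4 * a0 + 1) * (2 * b2) - 2 * a1 * (2 * b3) + 2 * a2 * (4 * b0 + 1) + 2 * a3 * (2 * b1) =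
        2 * ((4 * a0 + 1) * b2 - 2 * a1 * b3 + a2 * (4 * b0 + 1) + 2 * a3 * b1) := by ring
    rw [this]
    omega
  · rw [Quaternion.imK_mul, ha0, ha1, ha2, ha3, hb0, hb1, hb2, hb3]
    have : (4 * a0 + 1) * (2 * b3) + 2 * a1 * (2 * b2) - 2 * a2 * (2 * b1) + 2 * a3 * (4 * b0 + 1) =
        2 * ((4 * a0 + 1) * b3 + 2 * a1 * b2 - 2 * a2 * b1 + a3 * (4 * b0 + 1)) := by ring
    rw [this]
    omega

lemma cc_reI (u v : ℝ) : ((u : ℂ) + (v : ℂ) * Complex.I).re = u := by simp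

lemma cc_re (G : ℍ[ℤ]) (m s : ℤ) (y : ℤ × ℤ × ℤ) :
    (G * zq m s y * star G).re = Quaternion.normSq G * m := by
  have h0 : (zq m s y).re = m := rfl
  have h1 : (zq m s y).imI = s * y.1 := rfl
  have h2 : (zq m s y).imJ = s * y.2.1 := rfl
  have h3 : (zq m s y).imK = s * y.2.2 := rfl
  rw [Quaternion.normSq_def']
  simp only [Quaternion.re_mul, Quaternion.imI_mul, Quaternion.imJ_mul, Quaternion.imK_mul,
    Quaternion.re_star, Quaternion.imI_star, Quaternion.imJ_star, Quaternion.imK_star, h0, h1, h2,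
    h3]
  ring

lemma cc_imI (G : ℍ[ℤ]) (m s : ℤ) (y : ℤ × ℤ × ℤ) :
    (G * zq m s y * star G).imI = s * (G * pq y * star G).imI := by
  have h0 : (zq m s y).re = m := rfl
  have h1 : (zq m s y).imI = s * y.1 := rfl
  have h2 : (zq m s y).imJ = s * y.2.1 := rfl
  have h3 : (zq m s y).imK = s * y.2.2 := rfl
  have g0 : (pq y).re = 0 := rfl
  have g1 : (pq y).imI = y.1 := rfl
  have g2 : (pq y).imJ = y.2.1 := rfl
  have g3 : (pq y).imK = y.2.2 := rfl
  simp only [Quaternion.re_mul, Quaternion.imI_mul, Quaternion.imJ_mul, Quaternion.imK_mul,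
    Quaternion.re_star, Quaternion.imI_star, Quaternion.imJ_star, Quaternion.imK_star, h0, h1, h2,
    h3, g0, g1, g2, g3]
  ring

lemma cc_ns_zq (m s : ℤ) (y : ℤ × ℤ × ℤ) (n : ℕ) (hy : y ∈ S3 n) :
    Quaternion.normSq (zq m s y) = m ^ 2 + s ^ 2 * n := by
  rw [Quaternion.normSq_def', ← mem_S3.1 hy]
  simp only [zq]
  ring

lemma cc_ns_pq (y : ℤ × ℤ × ℤ) (n : ℕ) (hy : y ∈ S3 n) :
    Quaternion.normSq (pq y) = n := by
  rw [Quaternion.normSq_def', ← mem_S3.1 hy]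
  simp only [pq]
  ring

lemma cc_ns_vq (a b : ℤ) : Quaternion.normSq (vq a b) = a ^ 2 + b ^ 2 := by
  rw [Quaternion.normSq_def']
  simp only [vq]
  ring

/-- TARGET -/
theorem close_calc (a b m s s' : ℤ) (k l n : ℕ) (θ φ : ℝ) (y : ℤ × ℤ × ℤ) (γ : List (Fin 6))
    (x : ℍ[ℤ]) (hs' : s' = 1 ∨ s' = -1) (hab : 0 < a ^ 2 + b ^ 2) (hn : 1 ≤ n) (hy : y ∈ S3 n)
    (hN : m ^ 2 + s ^ 2 * n = (a ^ 2 + b ^ 2) * 5 ^ l) (hx : Gd x)
    (hxe : vq a b * (qw γ * zq m s y * star (qw γ)) = (a ^ 2 + b ^ 2) • x)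
    (hθ : Complex.exp (θ * Complex.I) = ((1 + 2 * s' * Complex.I) / (Real.sqrt 5 : ℂ)) ^ k *
        ((a + b * Complex.I) / (Real.sqrt ((a : ℝ) ^ 2 + b ^ 2) : ℂ)) * Complex.exp (φ * Complex.I)) :
    ∃ X : ℍ[ℤ], Gd X ∧ Quaternion.normSq X = 5 ^ (k + l + 2 * γ.length) ∧
      |((qw γ * pq y * star (qw γ)).imI : ℝ)| ≤ 5 ^ γ.length * Real.sqrt n ∧
      (Real.cos θ - X.re / Real.sqrt 5 ^ (k + l + 2 * γ.length)) ^ 2 +
        (Real.sin θ - X.imI / Real.sqrt 5 ^ (k + l + 2 * γ.length)) ^ 2 +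
        (X.imJ / Real.sqrt 5 ^ (k + l + 2 * γ.length)) ^ 2 +
        (X.imK / Real.sqrt 5 ^ (k + l + 2 * γ.length)) ^ 2 =
      2 - 2 * (m / Real.sqrt (((a : ℝ) ^ 2 + b ^ 2) * 5 ^ l)) * Real.cos φ -
        2 * (s * Real.sqrt n / Real.sqrt (((a : ℝ) ^ 2 + b ^ 2) * 5 ^ l)) * Real.sin φ *
        (((qw γ * pq y * star (qw γ)).imI : ℝ) / (5 ^ γ.length * Real.sqrt n)) := by
  obtain ⟨hG1, hG2⟩ := good_qw γ
  set Γ := qw γ with hΓ
  set L0 := γ.length with hL0
  set Y := Γ * pq y * star Γ with hY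
  set d : ℤ := a ^ 2 + b ^ 2 with hd
  have hnsY : Quaternion.normSq Y = 25 ^ L0 * n := by
    rw [hY, map_mul, map_mul, Quaternion.normSq_star, hG2, cc_ns_pq y n hy]
    have : (25 : ℤ) ^ L0 = 5 ^ L0 * 5 ^ L0 := by rw [← mul_pow]; norm_num
    rw [this]; ring
  -- the norm of x
  have hnx : Quaternion.normSq x = 5 ^ (l + 2 * L0) := by
    have h1 := congrArg Quaternion.normSq hxe
    rw [map_mul, map_mul, map_mul, Quaternion.normSq_star, hG2, cc_ns_vq, cc_ns_zq m s y n hy, hN,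
      Quaternion.normSq_smul] at h1
    have h2 : d ^ 2 * Quaternion.normSq x = d ^ 2 * 5 ^ (l + 2 * L0) := by
      rw [← h1, pow_add, two_mul, pow_add]; ring
    exact mul_left_cancel₀ (pow_ne_zero 2 hab.ne') h2
  obtain ⟨U, hU⟩ : ∃ U : ℍ[ℤ], U = ⟨1, 2 * s', 0, 0⟩ := ⟨_, rfl⟩
  have hUre : U.re = 1 := by rw [hU]
  have hUI : U.imI = 2 * s' := by rw [hU]
  have hUJ : U.imJ = 0 := by rw [hU]
  have hUK : U.imK = 0 := by rw [hU]
  have hUns : Quaternion.normSq U = 5 := by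
    rw [Quaternion.normSq_def', hUre, hUI, hUJ, hUK]
    rcases hs' with rfl | rfl <;> norm_num
  have hUg : Gd U := ⟨by rw [hUre]; rfl, by rw [hUI]; omega, by rw [hUJ]; rfl, by rw [hUK]; rfl⟩
  have hXg : ∀ j : ℕ, Gd (U ^ j * x) := by
    intro j
    induction j with
    | zero => rw [pow_zero, one_mul]; exact hx
    | succ j ih => rw [pow_succ', mul_assoc]; exact cc_gd_mul _ _ hUg ih
  have hXc : ∀ j : ℕ, cc_cx (U ^ j * x) = cc_cx U ^ j * cc_cx x := by
    intro j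
    induction j with
    | zero => rw [pow_zero, one_mul, pow_zero, one_mul]
    | succ j ih => rw [pow_succ', mul_assoc, cc_cx_mul _ _ hUJ hUK, ih, pow_succ', mul_assoc]
  have hXn : Quaternion.normSq (U ^ k * x) = 5 ^ (k + l + 2 * L0) := by
    rw [map_mul, map_pow, hUns, hnx, ← pow_add, add_assoc]
  refine ⟨U ^ k * x, hXg k, hXn, ?_, ?_⟩
  · have h1 : Y.imI ^ 2 ≤ 25 ^ L0 * n := by
      rw [← hnsY, Quaternion.normSq_def']
      nlinarith [sq_nonneg Y.re, sq_nonneg Y.imJ, sq_nonneg Y.imK]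
    have h2 : ((Y.imI : ℝ)) ^ 2 ≤ (5 ^ L0 * Real.sqrt n) ^ 2 := by
      rw [mul_pow, Real.sq_sqrt (Nat.cast_nonneg n), ← pow_mul, mul_comm L0 2, pow_mul]
      have : ((Y.imI ^ 2 : ℤ) : ℝ) ≤ ((25 ^ L0 * n : ℤ) : ℝ) := by exact_mod_cast h1
      push_cast at this
      norm_num
      exact this
    exact abs_le_of_sq_le_sq h2 (by positivity)
  · set X := U ^ k * x with hX
    have hXc' := hXc k
    rw [← hX] at hXc'
    set r : ℝ := Real.sqrt 5 ^ (k + l + 2 * L0) with hr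
    have h5 : (0 : ℝ) < Real.sqrt 5 := Real.sqrt_pos.2 (by norm_num)
    have h55 : Real.sqrt 5 * Real.sqrt 5 = 5 := Real.mul_self_sqrt (by norm_num)
    have hr0 : 0 < r := pow_pos h5 _
    have hr2 : r ^ 2 = 5 ^ (k + l + 2 * L0) := by
      rw [hr, ← pow_mul, mul_comm, pow_mul, pow_two, h55]
    have hXn' : (X.re : ℝ) ^ 2 + (X.imI : ℝ) ^ 2 + (X.imJ : ℝ) ^ 2 + (X.imK : ℝ) ^ 2 = r ^ 2 := by
      rw [hr2]
      rw [Quaternion.normSq_def'] at hXn
      exact_mod_cast hXn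
    have hn0 : 0 < Real.sqrt n := Real.sqrt_pos.2 (by exact_mod_cast hn)
    have hdR : (0 : ℝ) < (a : ℝ) ^ 2 + b ^ 2 := by exact_mod_cast hab
    have hsd : 0 < Real.sqrt ((a : ℝ) ^ 2 + b ^ 2) := Real.sqrt_pos.2 hdR
    have hsd2 : Real.sqrt ((a : ℝ) ^ 2 + b ^ 2) * Real.sqrt ((a : ℝ) ^ 2 + b ^ 2) =
        (a : ℝ) ^ 2 + b ^ 2 := Real.mul_self_sqrt hdR.le
    have hsplit : Real.sqrt (((a : ℝ) ^ 2 + b ^ 2) * 5 ^ l) =
        Real.sqrt ((a : ℝ) ^ 2 + b ^ 2) * Real.sqrt 5 ^ l := by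
      rw [Real.sqrt_mul hdR.le]
      congr 1
      rw [Real.sqrt_eq_iff_mul_self_eq (by positivity) (by positivity), ← mul_pow, h55]
    set sd := Real.sqrt ((a : ℝ) ^ 2 + b ^ 2) with hsdd
    set s5 := Real.sqrt 5 with hs5
    -- key identity
    have key : Real.cos θ * X.re + Real.sin θ * X.imI =
        s5 ^ k / sd * (Real.cos φ * (5 ^ L0 * m) + Real.sin φ * (s * Y.imI)) := by
      have hd1 : (d : ℂ) * cc_cx x = ((a : ℂ) + b * Complex.I) *
          ((5 : ℂ) ^ L0 * m + s * Y.imI * Complex.I) := by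
        have h1 := congrArg cc_cx hxe
        rw [cc_cx_mul _ _ rfl rfl] at h1
        have h2 : cc_cx (d • x) = (d : ℂ) * cc_cx x := by
          unfold cc_cx
          simp only [Quaternion.re_smul, Quaternion.imI_smul, smul_eq_mul]
          push_cast
          ring
        have h3 : cc_cx (vq a b) = (a : ℂ) + b * Complex.I := rfl
        have h4 : cc_cx (Γ * zq m s y * star Γ) = (5 : ℂ) ^ L0 * m + s * Y.imI * Complex.I := by
          unfold cc_cx
          rw [cc_re, cc_imI, hG2]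
          push_cast
          ring
        rw [h2, h3, h4] at h1
        exact h1.symm
      have hUc : cc_cx U = 1 + 2 * s' * Complex.I := by
        unfold cc_cx
        rw [hUre, hUI]
        push_cast
        ring
      -- conjugate of the hypothesis
      have hθ1 := congrArg (starRingEnd ℂ) hθ
      have e1 : (starRingEnd ℂ) (Complex.exp (θ * Complex.I)) =
          (Real.cos θ : ℂ) - Real.sin θ * Complex.I := by
        rw [Complex.exp_mul_I, ← Complex.ofReal_cos, ← Complex.ofReal_sin]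
        simp only [map_add, map_mul, Complex.conj_ofReal, Complex.conj_I]
        ring
      have e2 : (starRingEnd ℂ) (Complex.exp (φ * Complex.I)) =
          (Real.cos φ : ℂ) - Real.sin φ * Complex.I := by
        rw [Complex.exp_mul_I, ← Complex.ofReal_cos, ← Complex.ofReal_sin]
        simp only [map_add, map_mul, Complex.conj_ofReal, Complex.conj_I]
        ring
      rw [e1, map_mul, map_mul, e2, map_pow, map_div₀, map_div₀] at hθ1
      simp only [map_add, map_mul, map_one, Complex.conj_ofReal, Complex.conj_I, map_intCast,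
        map_ofNat] at hθ1
      have hs5c : (s5 : ℂ) ≠ 0 := by exact_mod_cast h5.ne'
      have hsdc : (sd : ℂ) ≠ 0 := by exact_mod_cast hsd.ne'
      have hdc : (d : ℂ) ≠ 0 := by exact_mod_cast hab.ne'
      have h55c : (s5 : ℂ) * s5 = 5 := by exact_mod_cast h55
      have hsd2c : (sd : ℂ) * sd = d := by
        rw [← Complex.ofReal_mul, hsd2, hd]
        push_cast
        ring
      have hs2 : (s' : ℂ) * s' = 1 := by
        rcases hs' with rfl | rfl <;> norm_num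
      have hP : (1 + 2 * s' * -Complex.I : ℂ) * (1 + 2 * s' * Complex.I) = s5 * s5 := by
        rw [h55c]
        linear_combination (-4 * (s' : ℂ) * s') * Complex.I_mul_I + 4 * hs2
      have hQ : ((a : ℂ) + b * -Complex.I) * ((a : ℂ) + b * Complex.I) = sd * sd := by
        rw [hsd2c, hd]
        push_cast
        linear_combination (-(b : ℂ) ^ 2) * Complex.I_mul_I
      have hfin : ((Real.cos θ : ℂ) - Real.sin θ * Complex.I) * cc_cx X =
          (s5 : ℂ) ^ k / sd * (((Real.cos φ : ℂ) - Real.sin φ * Complex.I) *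
            ((5 : ℂ) ^ L0 * m + s * Y.imI * Complex.I)) := by
        apply mul_left_cancel₀ hdc
        rw [hXc', hUc, hθ1]
        have h6 : (d : ℂ) * (((1 + 2 * s' * -Complex.I) / (s5 : ℂ)) ^ k *
            (((a : ℂ) + b * -Complex.I) / sd) * ((Real.cos φ : ℂ) - Real.sin φ * Complex.I) *
            ((1 + 2 * s' * Complex.I) ^ k * cc_cx x)) =
            (((1 + 2 * s' * -Complex.I) * (1 + 2 * s' * Complex.I)) / (s5 : ℂ)) ^ k *
            (((a : ℂ) + b * -Complex.I) / sd) * ((Real.cos φ : ℂ) - Real.sin φ * Complex.I) *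
            ((d : ℂ) * cc_cx x) := by
          rw [div_pow, div_pow, mul_pow]
          ring
        rw [h6, hd1, hP, mul_div_assoc, div_self hs5c, mul_one]
        have h7 : (s5 : ℂ) ^ k * (((a : ℂ) + b * -Complex.I) / sd) *
            ((Real.cos φ : ℂ) - Real.sin φ * Complex.I) *
            (((a : ℂ) + b * Complex.I) * ((5 : ℂ) ^ L0 * m + s * Y.imI * Complex.I)) =
            (s5 : ℂ) ^ k * ((((a : ℂ) + b * -Complex.I) * ((a : ℂ) + b * Complex.I)) / sd) *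
            (((Real.cos φ : ℂ) - Real.sin φ * Complex.I) *
              ((5 : ℂ) ^ L0 * m + s * Y.imI * Complex.I)) := by
          ring
        rw [h7, hQ, ← hsd2c]
        field_simp
      have hre := congrArg Complex.re hfin
      have hL : (((Real.cos θ : ℂ) - Real.sin θ * Complex.I) * cc_cx X).re =
          Real.cos θ * X.re + Real.sin θ * X.imI := by
        unfold cc_cx
        have h8 : ((Real.cos θ : ℂ) - Real.sin θ * Complex.I) * (X.re + X.imI * Complex.I) =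
            ((Real.cos θ * X.re + Real.sin θ * X.imI : ℝ) : ℂ) +
            ((Real.cos θ * X.imI - Real.sin θ * X.re : ℝ) : ℂ) * Complex.I := by
          push_cast
          linear_combination (-(Complex.sin θ * X.imI)) * Complex.I_mul_I
        rw [h8, cc_reI]
      have hR : ((s5 : ℂ) ^ k / sd * (((Real.cos φ : ℂ) - Real.sin φ * Complex.I) *
            ((5 : ℂ) ^ L0 * m + s * Y.imI * Complex.I))).re =
          s5 ^ k / sd * (Real.cos φ * (5 ^ L0 * m) + Real.sin φ * (s * Y.imI)) := by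
        have h8 : (s5 : ℂ) ^ k / sd * (((Real.cos φ : ℂ) - Real.sin φ * Complex.I) *
            ((5 : ℂ) ^ L0 * m + s * Y.imI * Complex.I)) =
            ((s5 ^ k / sd * (Real.cos φ * (5 ^ L0 * m) + Real.sin φ * (s * Y.imI)) : ℝ) : ℂ) +
            ((s5 ^ k / sd * (Real.cos φ * (s * Y.imI) - Real.sin φ * (5 ^ L0 * m)) : ℝ) : ℂ) *
              Complex.I := by
          push_cast
          linear_combination (-(s5 : ℂ) ^ k / sd * Complex.sin φ * (s * Y.imI)) * Complex.I_mul_I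
        rw [h8, cc_reI]
      rw [hL, hR] at hre
      exact hre
    have hexp : (Real.cos θ - X.re / r) ^ 2 + (Real.sin θ - X.imI / r) ^ 2 + (X.imJ / r) ^ 2 +
        (X.imK / r) ^ 2 = 2 - 2 * ((Real.cos θ * X.re + Real.sin θ * X.imI) / r) := by
      have h1 : (Real.cos θ - X.re / r) ^ 2 + (Real.sin θ - X.imI / r) ^ 2 + (X.imJ / r) ^ 2 +
          (X.imK / r) ^ 2 = (Real.cos θ ^ 2 + Real.sin θ ^ 2) -
          2 * ((Real.cos θ * X.re + Real.sin θ * X.imI) / r) +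
          ((X.re : ℝ) ^ 2 + (X.imI : ℝ) ^ 2 + (X.imJ : ℝ) ^ 2 + (X.imK : ℝ) ^ 2) / r ^ 2 := by
        field_simp
        ring
      rw [h1, hXn', Real.cos_sq_add_sin_sq, div_self (pow_pos hr0 2).ne']
      ring
    rw [hexp, key, hsplit]
    have hr' : r = s5 ^ k * s5 ^ l * 5 ^ L0 := by
      rw [hr, pow_add, pow_add, pow_mul, pow_two, h55]
    rw [hr']
    have hk0 : (0 : ℝ) < s5 ^ k := pow_pos h5 _
    have hl0 : (0 : ℝ) < s5 ^ l := pow_pos h5 _
    have hL00 : (0 : ℝ) < 5 ^ L0 := by positivity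
    field_simp
    ring

end Pool.Agent.H978V
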