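import Pool.Agent.H978V.Defs2
import Pool.Agent.H978V.C3a
import Pool.Agent.H978V.C3b
import Pool.Agent.H978V.C4
import Pool.Agent.H978V.C5
import Pool.Agent.H978V.F1
import Pool.Agent.H978V.F2
import Pool.Agent.H978V.H1
import Pool.Agent.H978V.H3

/-!
JOB F3 (owner helper978, MP_06cce2_nt).  `H978V/{Ar,Defs,Defs2}.lean` are on origin/main.

Final assembly (bookkeeping).

PROOF.  We may assume `δ ≤ 1` (use `min δ 1`; `logb 5 (1/ε) ≥ 0`).  `hit_final (δ/96)` gives `δ'`; `zset δ'` gives `κ`; `hit_final` with `c = κ` gives `K₂`; `sieve_m (δ/64)` gives `K₁`; `numerics δ K₁` gives `ε₀, C`.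
It is enough to treat `ε ≤ ε₀` (for `ε > ε₀` use `ε₀`, and enlarge the constant by `(5+δ) logb 5 (1/ε₀)`).
`dirichlet_v θ ε` gives `k, s', a, b, φ`.  `d = (a²+b²).toNat ≥ 1`, not divisible by 4 (`a, b` coprime): `c = 1`, `D = d` if `d` is odd, `c = 2`, `D = d/2` if `d` is even; `D` is odd, prime to 5, `1 ≤ D ≤ d`, `a² + b² = c D`.
`b` is a unit mod `D`: `t = -a b⁻¹` in `ZMod D`; `a + b t = 0`, `t² = -1`.
`numerics` gives `N, ψ₁, ψ₂`; `zset` (for `a,b,c,D`) gives `p`; `numerics` gives `l₀`; `N₀ = d 5^{l₀}`; `zset` gives `r`; `sieve_m` (for `D ≤ N₀`) gives `m ∈ [√N₀ cos ψ₂, √N₀ cos ψ₁]`, `m ≡ r mod 16`, prime to `D`, `N₀ - m²` not a square;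
`0 < m < √N₀` so `m² < N₀`; `zset` gives `s, n, Z`.  `ψ = arccos (m/√N₀) ∈ [ψ₁, ψ₂]`, `s √n = √N₀ sin ψ`, `√n ≥ √N₀ sin ψ₁/2 ≥ d N ≥ D N`.
`j` = least number `≥ 1` with `D N ≤ 5^j`; `5^j ≤ 25 D N`.  `sgn = (0 ≤ φ)`.  `hit_final` gives `y ∈ Z`, `γ`, `|γ| ≤ j + (δ/96) log n + K₂`; `log n ≤ log N₀`.  `Z.Nonempty` etc. are not needed.
`gc_conj` (with `good_qw γ`) and `extract` give `x` with `vq a b * (qw γ * zq m s y * star (qw γ)) = (a²+b²) • x`, `Gd x`.  `close_calc` gives `X`; with `η = ± Y.imI/(5^|γ| √n) ∈ [-1,1]` (sign of `φ`), `sin φ · η' = |sin φ| η`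
(`|φ| ≤ 2 < π`, so `sin φ` has the sign of `φ`), the right side is `2 - 2 cos ψ cos φ - 2 sin ψ |sin φ| η < ε²` by `numerics` (`wt N ((1-η)/8) ≤ N² exp(-(N-1)(1-η)/8)`, `1/(2d²) ≤ 1/(2D²)`).
`words_of_good` gives the word `v` of length `k + l₀ + 2|γ| ≤ k + l₀ + 2j + (δ/48) log N₀ + 2 K₂ ≤ (5+δ) logb 5 (1/ε) + C + 2 K₂`.
-/

set_option autoImplicit false

open scoped Quaternion

namespace Pool.Agent.H978V

open Pool.Agent.Helper557.Rz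











/-- splitting off the factor two -/
theorem axial_cD (a b : ℤ) (hab : IsCoprime a b) (h5 : ¬ (5 : ℤ) ∣ a ^ 2 + b ^ 2) :
    ∃ (d D : ℕ) (c : ℤ), (d : ℤ) = a ^ 2 + b ^ 2 ∧ 1 ≤ D ∧ D ≤ d ∧ (c = 1 ∨ c = 2) ∧ Odd D ∧
      a ^ 2 + b ^ 2 = c * D ∧ Nat.Coprime D 5 := by
  have hpos : 0 < a ^ 2 + b ^ 2 := by
    rcases eq_or_ne a 0 with ha | ha
    · rcases eq_or_ne b 0 with hb | hb
      · subst ha; subst hb
        rw [isCoprime_zero_left] at hab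
        exact absurd hab (by decide)
      · have := sq_nonneg a
        positivity
    · have := sq_nonneg b
      positivity
  have h4 : (a ^ 2 + b ^ 2) % 4 = 1 ∨ (a ^ 2 + b ^ 2) % 4 = 2 := by
    have h1 : ¬ (a % 2 = 0 ∧ b % 2 = 0) := by
      rintro ⟨h2, h3⟩
      have h4 : (2 : ℤ) ∣ 1 := by
        obtain ⟨u, v, huv⟩ := hab
        rw [← huv]
        exact dvd_add (Dvd.dvd.mul_left (Int.dvd_of_emod_eq_zero h2) _)
          (Dvd.dvd.mul_left (Int.dvd_of_emod_eq_zero h3) _)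
      omega
    have ha : a % 4 = 0 ∨ a % 4 = 1 ∨ a % 4 = 2 ∨ a % 4 = 3 := by omega
    have hb : b % 4 = 0 ∨ b % 4 = 1 ∨ b % 4 = 2 ∨ b % 4 = 3 := by omega
    rcases ha with ha | ha | ha | ha <;> rcases hb with hb | hb | hb | hb <;>
      simp [pow_two, Int.add_emod, Int.mul_emod, ha, hb] <;> omega
  have hd : ((a ^ 2 + b ^ 2).toNat : ℤ) = a ^ 2 + b ^ 2 := Int.toNat_of_nonneg hpos.le
  have hcop : ∀ D : ℕ, (D : ℤ) ∣ a ^ 2 + b ^ 2 → Nat.Coprime D 5 := by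
    intro D hD
    rw [Nat.coprime_comm, Nat.Prime.coprime_iff_not_dvd (by norm_num)]
    intro h
    apply h5
    exact (Int.natCast_dvd_natCast.2 h).trans hD
  rcases h4 with h4 | h4
  · refine ⟨(a ^ 2 + b ^ 2).toNat, (a ^ 2 + b ^ 2).toNat, 1, hd, by omega, le_rfl, Or.inl rfl, ?_,
      by rw [hd, one_mul], hcop _ (by rw [hd])⟩
    rw [Nat.odd_iff]
    omega
  · refine ⟨(a ^ 2 + b ^ 2).toNat, (a ^ 2 + b ^ 2).toNat / 2, 2, hd, by omega, by omega,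
      Or.inr rfl, ?_, by omega, hcop _ ⟨2, by omega⟩⟩
    rw [Nat.odd_iff]
    omega

theorem axial_t (a b c : ℤ) (D : ℕ) (hab : IsCoprime a b) (h : a ^ 2 + b ^ 2 = c * D) :
    ∃ t : ZMod D, t * t = -1 ∧ (a : ZMod D) + b * t = 0 := by
  have h1 : IsCoprime b (D : ℤ) := by
    have h2 : IsCoprime b (a ^ 2 + b ^ 2) := by
      have h3 : IsCoprime b (a ^ 2) := (hab.symm).pow_right
      have h4 := h3.add_mul_left_right b
      rw [pow_two b]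
      exact h4
    rw [h] at h2
    exact h2.of_mul_right_right
  obtain ⟨u, v, huv⟩ := h1
  have h2 : (u : ZMod D) * b = 1 := by
    have h3 := congrArg (Int.cast : ℤ → ZMod D) huv
    push_cast at h3
    rw [ZMod.natCast_self, mul_zero, add_zero] at h3
    exact h3
  have h4 : (a : ZMod D) ^ 2 + (b : ZMod D) ^ 2 = 0 := by
    have h3 := congrArg (Int.cast : ℤ → ZMod D) h
    push_cast at h3
    rw [ZMod.natCast_self, mul_zero] at h3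
    exact h3
  refine ⟨-(a * u), ?_, ?_⟩
  · linear_combination (u : ZMod D) ^ 2 * h4 - (u * b + 1) * h2
  · linear_combination -(a : ZMod D) * h2

theorem axial_j (X : ℝ) (hX : 1 ≤ X) : ∃ j : ℕ, 1 ≤ j ∧ X ≤ 5 ^ j ∧ (5 : ℝ) ^ j ≤ 25 * X := by
  classical
  have hex : ∃ j : ℕ, X ≤ 5 ^ (j + 1) := by
    obtain ⟨j, hj⟩ := pow_unbounded_of_one_lt X (show (1 : ℝ) < 5 by norm_num)
    exact ⟨j, hj.le.trans (pow_le_pow_right₀ (by norm_num) (Nat.le_succ j))⟩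
  refine ⟨Nat.find hex + 1, by omega, Nat.find_spec hex, ?_⟩
  rcases Nat.eq_zero_or_pos (Nat.find hex) with h0 | h0
  · rw [h0]; norm_num; linarith
  · have h1 := Nat.find_min hex (m := Nat.find hex - 1) (by omega)
    rw [not_le] at h1
    have h2 : Nat.find hex - 1 + 1 = Nat.find hex := by omega
    rw [h2] at h1
    rw [pow_succ]
    linarith

/-- the angle -/
theorem axial_angle (N₀ n m s ψ₁ ψ₂ dN : ℝ) (hψ₁ : 0 < ψ₁) (hψ₁₂ : ψ₁ < ψ₂) (hψ₂ : ψ₂ < 1)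
    (hN₀ : 1 ≤ N₀) (hn : 1 ≤ n) (hs1 : 1 ≤ s) (hs2 : s ≤ 2)
    (hm1 : Real.sqrt N₀ * Real.cos ψ₂ ≤ m) (hm2 : m ≤ Real.sqrt N₀ * Real.cos ψ₁)
    (hmn : m ^ 2 + s ^ 2 * n = N₀) (hd : dN ≤ Real.sqrt N₀ * Real.sin ψ₁ / 2) :
    ∃ ψ : ℝ, ψ₁ ≤ ψ ∧ ψ ≤ ψ₂ ∧ Real.cos ψ = m / Real.sqrt N₀ ∧
      Real.sin ψ = s * Real.sqrt n / Real.sqrt N₀ ∧ dN ≤ Real.sqrt n ∧ n ≤ N₀ := by
  have hpi : (3 : ℝ) < Real.pi := Real.pi_gt_three
  have hsN : 0 < Real.sqrt N₀ := Real.sqrt_pos.2 (by linarith)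
  have hcosψ₂ : 0 < Real.cos ψ₂ := Real.cos_pos_of_mem_Ioo ⟨by linarith, by linarith⟩
  have hcosψ₁ : Real.cos ψ₁ ≤ 1 := Real.cos_le_one _
  have hq1 : Real.cos ψ₂ ≤ m / Real.sqrt N₀ := by
    rw [le_div_iff₀ hsN]
    linarith
  have hq2 : m / Real.sqrt N₀ ≤ Real.cos ψ₁ := by
    rw [div_le_iff₀ hsN]
    linarith
  have hψa : ψ₁ ≤ Real.arccos (m / Real.sqrt N₀) := by
    have h1 := Real.arccos_le_arccos hq2
    rw [Real.arccos_cos (by linarith) (by linarith)] at h1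
    exact h1
  have hψb : Real.arccos (m / Real.sqrt N₀) ≤ ψ₂ := by
    have h1 := Real.arccos_le_arccos hq1
    rw [Real.arccos_cos (by linarith) (by linarith)] at h1
    exact h1
  have hsinψ : Real.sin (Real.arccos (m / Real.sqrt N₀)) = s * Real.sqrt n / Real.sqrt N₀ := by
    rw [Real.sin_arccos]
    have h1 : 1 - (m / Real.sqrt N₀) ^ 2 = (s * Real.sqrt n / Real.sqrt N₀) ^ 2 := by
      rw [div_pow, div_pow, mul_pow, Real.sq_sqrt (by linarith), Real.sq_sqrt (by linarith)]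
      have h2 : N₀ ≠ 0 := by linarith
      field_simp
      linarith
    rw [h1, Real.sqrt_sq (by positivity)]
  have hs2n : 1 ≤ s ^ 2 := by nlinarith
  refine ⟨_, hψa, hψb, Real.cos_arccos (by linarith) (by linarith), hsinψ, ?_, ?_⟩
  · have h2 : Real.sin ψ₁ ≤ Real.sin (Real.arccos (m / Real.sqrt N₀)) :=
      Real.sin_le_sin_of_le_of_le_pi_div_two (by linarith) (by linarith) hψa
    rw [hsinψ, le_div_iff₀ hsN] at h2
    have h3 : s * Real.sqrt n ≤ 2 * Real.sqrt n :=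
      mul_le_mul_of_nonneg_right hs2 (Real.sqrt_nonneg _)
    linarith
  · have h4 : n ≤ s ^ 2 * n := le_mul_of_one_le_left (by linarith) hs2n
    have h5 := sq_nonneg m
    linarith

theorem axial_m (N₀ m ψ₁ ψ₂ : ℝ) (hψ₁ : 0 < ψ₁) (hψ₁₂ : ψ₁ < ψ₂) (hψ₂ : ψ₂ < 1)
    (hN₀ : 1 ≤ N₀) (hm1 : Real.sqrt N₀ * Real.cos ψ₂ ≤ m)
    (hm2 : m ≤ Real.sqrt N₀ * Real.cos ψ₁) : m ^ 2 < N₀ := by
  have hpi : (3 : ℝ) < Real.pi := Real.pi_gt_three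
  have hsN : 0 < Real.sqrt N₀ := Real.sqrt_pos.2 (by linarith)
  have hcosψ₂ : 0 < Real.cos ψ₂ := Real.cos_pos_of_mem_Ioo ⟨by linarith, by linarith⟩
  have hcosψ₁ : Real.cos ψ₁ < 1 := by
    rw [← Real.cos_zero]
    exact Real.cos_lt_cos_of_nonneg_of_le_pi_div_two le_rfl (by linarith) hψ₁
  have hm0 : 0 < m := lt_of_lt_of_le (mul_pos hsN hcosψ₂) hm1
  have hmlt : m < Real.sqrt N₀ := by
    refine lt_of_le_of_lt hm2 ?_
    have := mul_lt_mul_of_pos_left hcosψ₁ hsN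
    linarith
  have h1 := Real.sq_sqrt (show (0 : ℝ) ≤ N₀ by linarith)
  nlinarith

/-- sign of the last term -/
theorem axial_sign (φ c s' η' E : ℝ) (hφ2 : |φ| ≤ 2) (hη' : |η'| ≤ 1)
    (w : ℝ → Prop) (hw : w (if decide (0 ≤ φ) = true then η' else -η'))
    (hfin : ∀ η : ℝ, -1 ≤ η → η ≤ 1 → w η →
      2 - 2 * c * Real.cos φ - 2 * s' * |Real.sin φ| * η < E) :
    2 - 2 * c * Real.cos φ - 2 * s' * Real.sin φ * η' < E := by
  have hpi : (3 : ℝ) < Real.pi := Real.pi_gt_three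
  obtain ⟨hη'a, hη'b⟩ := abs_le.1 hη'
  obtain ⟨hφa, hφb⟩ := abs_le.1 hφ2
  rcases le_or_gt 0 φ with hφ | hφ
  · rw [if_pos (decide_eq_true hφ)] at hw
    have h2 := hfin η' hη'a hη'b hw
    have h3 : 0 ≤ Real.sin φ := Real.sin_nonneg_of_nonneg_of_le_pi hφ (by linarith)
    rw [abs_of_nonneg h3] at h2
    exact h2
  · rw [if_neg (by rw [decide_eq_false (not_le.2 hφ)]; simp)] at hw
    have h3 := hfin (-η') (by linarith) (by linarith) hw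
    have h4 : Real.sin φ ≤ 0 :=
      Real.sin_nonpos_of_nonpos_of_neg_pi_le hφ.le (by linarith)
    rw [abs_of_nonpos h4] at h3
    linarith

/-- TARGET -/
theorem axial (δ : ℝ) (hδ : 0 < δ) : ∃ C : ℝ, ∀ θ ε : ℝ, 0 < ε → ε < 1 →
    ∃ v : List (Fin 6), (v.length : ℝ) ≤ (5 + δ) * Real.logb 5 (1 / ε) + C ∧
      (Real.cos θ - (qw v).re / Real.sqrt 5 ^ v.length) ^ 2 +
        (Real.sin θ - (qw v).imI / Real.sqrt 5 ^ v.length) ^ 2 +
        ((qw v).imJ / Real.sqrt 5 ^ v.length) ^ 2 + ((qw v).imK / Real.sqrt 5 ^ v.length) ^ 2 < ε ^ 2 := by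
  obtain ⟨δ₁, hδ₁, hδ₁1, hδ₁δ⟩ : ∃ δ₁ : ℝ, 0 < δ₁ ∧ δ₁ ≤ 1 ∧ δ₁ ≤ δ :=
    ⟨min δ 1, lt_min hδ one_pos, min_le_right _ _, min_le_left _ _⟩
  obtain ⟨δ', hδ', hit⟩ := hit_final (δ₁ / 96) (by positivity)
  obtain ⟨κ, hκ, hz⟩ := zset δ' hδ'
  obtain ⟨K₂, hK₂, hit⟩ := hit κ hκ
  obtain ⟨K₁, hK₁, hsieve⟩ := sieve_m (δ₁ / 64) (by positivity)
  obtain ⟨ε₀, C, hε₀, hε₀1, hnum⟩ := numerics δ₁ hδ₁ hδ₁1 K₁ hK₁
  -- the main case
  have main : ∀ θ ε : ℝ, 0 < ε → ε ≤ ε₀ →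
      ∃ v : List (Fin 6), (v.length : ℝ) ≤ (5 + δ₁) * Real.logb 5 (1 / ε) + C + 2 * K₂ ∧
      (Real.cos θ - (qw v).re / Real.sqrt 5 ^ v.length) ^ 2 +
        (Real.sin θ - (qw v).imI / Real.sqrt 5 ^ v.length) ^ 2 +
        ((qw v).imJ / Real.sqrt 5 ^ v.length) ^ 2 + ((qw v).imK / Real.sqrt 5 ^ v.length) ^ 2 <
          ε ^ 2 := by
    intro θ ε hε hεε₀
    obtain ⟨k, s', a, b, φ, hs', hab, h5, hk1, hk2, hφ2, hθ⟩ :=
      dirichlet_v θ ε hε (lt_of_le_of_lt hεε₀ hε₀1)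
    obtain ⟨d, D, c, hd, hD1, hDd, hc, hDodd, habc, hD5⟩ := axial_cD a b hab h5
    have : NeZero D := ⟨by omega⟩
    obtain ⟨t, ht, hv⟩ := axial_t a b c D hab habc
    have hdR : (d : ℝ) = (a : ℝ) ^ 2 + (b : ℝ) ^ 2 := by exact_mod_cast hd
    have hd1 : 1 ≤ d := hD1.trans hDd
    have hd1R : (1 : ℝ) ≤ d := by exact_mod_cast hd1
    rw [← hdR] at hk1 hk2
    obtain ⟨N, ψ₁, ψ₂, hN1, hψ₁, hψ₁₂, hψ₂, hclose, hnum2⟩ := hnum ε φ k d hε hεε₀ hd1 hk1 hk2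
    obtain ⟨p, hp, hz⟩ := hz a b c D hab hc hDodd habc
    obtain ⟨l₀, hl₀, hs1, hs2, hs3⟩ := hnum2 p hp
    obtain ⟨r, hz⟩ := hz l₀ hl₀
    set N₀ : ℕ := d * 5 ^ l₀ with hN₀
    have hN₀R : (N₀ : ℝ) = (d : ℝ) * 5 ^ l₀ := by rw [hN₀]; push_cast; ring
    have hN₀Z : (a ^ 2 + b ^ 2) * 5 ^ l₀ = (N₀ : ℤ) := by rw [hN₀, ← hd]; push_cast; ring
    have hN₀1 : 1 ≤ N₀ := Nat.mul_pos hd1 (by positivity)
    have hN₀1R : (1 : ℝ) ≤ N₀ := by exact_mod_cast hN₀1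
    have hDN₀ : D ≤ N₀ := hDd.trans (Nat.le_mul_of_pos_right _ (by positivity))
    rw [← hN₀R] at hs1 hs2 hs3
    obtain ⟨m, hm1, hm2, hm16, hmD, hmsq⟩ := hsieve D N₀ hDodd hDN₀ r _ _ hs1
    have hm2lt : (m : ℝ) ^ 2 < N₀ := axial_m N₀ m ψ₁ ψ₂ hψ₁ hψ₁₂ hψ₂ hN₀1R hm1 hm2
    have hm2ltZ : m ^ 2 < (a ^ 2 + b ^ 2) * 5 ^ l₀ := by
      rw [hN₀Z]
      exact_mod_cast hm2lt
    obtain ⟨s, n, Z, hs, hn1, hmsn, hZS, hZc, hZG⟩ := hz m hm16 hm2ltZ (by rw [hN₀Z]; exact hmsq)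
    have hmsnR : (m : ℝ) ^ 2 + (s : ℝ) ^ 2 * n = N₀ := by
      rw [hN₀Z] at hmsn
      exact_mod_cast hmsn
    have hn1R : (1 : ℝ) ≤ n := by exact_mod_cast hn1
    have hs2' : (s : ℝ) ≤ 2 := by rcases hs with rfl | rfl <;> norm_num
    have hs1' : (1 : ℝ) ≤ s := by rcases hs with rfl | rfl <;> norm_num
    obtain ⟨ψ, hψa, hψb, hcosψ, hsinψ, hdN, hnN₀⟩ := axial_angle N₀ n m s ψ₁ ψ₂ (d * N) hψ₁ hψ₁₂
      hψ₂ hN₀1R hn1R hs1' hs2' hm1 hm2 hmsnR hs2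
    have hDN : (D : ℝ) * N ≤ Real.sqrt n := by
      have h1 : (D : ℝ) * N ≤ d * N :=
        mul_le_mul_of_nonneg_right (by exact_mod_cast hDd) (Nat.cast_nonneg N)
      exact h1.trans hdN
    have hDN1 : (1 : ℝ) ≤ (D : ℝ) * N := by
      exact_mod_cast Nat.mul_pos hD1 hN1
    obtain ⟨j, hj1, hj2, hj3⟩ := axial_j _ hDN1
    obtain ⟨y, hyZ, γ, hγ, hP1, hP2, hwt⟩ := hit D hDodd hD5 t ht n N j m s Z (decide (0 ≤ φ))
      hn1 hN1 hj1 hs hmD (by rw [hmsn, habc]; exact ⟨c * 5 ^ l₀, by ring⟩) hZS hZc hDN hj2 hj3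
    obtain ⟨hgd, hnq⟩ := good_qw γ
    have hGC := gc_conj a b c D hDodd hc habc _ _ (hZG y hyZ) hgd
    obtain ⟨x, hx, hxe⟩ := extract a b c D hDodd hc habc t ht hv _ _ hGC hP1 hP2
    have habpos : 0 < a ^ 2 + b ^ 2 := by rw [← hd]; exact_mod_cast hd1
    obtain ⟨X, hXg, hXn, hXim, hXeq⟩ := close_calc a b m s s' k l₀ n θ φ y γ x hs' habpos hn1
      (hZS hyZ) hmsn hx hxe hθ
    obtain ⟨w, hw1, hw2⟩ := words_of_good _ X hXg hXn
    refine ⟨w, ?_, ?_⟩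
    · rw [hw1]
      push_cast
      have h1 := hs3 D j hD1 hDd hj3
      have h2 : Real.log n ≤ Real.log N₀ :=
        Real.log_le_log (lt_of_lt_of_le one_pos hn1R) hnN₀
      have h3 : δ₁ / 96 * Real.log n ≤ δ₁ / 96 * Real.log N₀ :=
        mul_le_mul_of_nonneg_left h2 (div_nonneg hδ₁.le (by norm_num))
      linarith only [h1, h3, hγ]
    · rw [hw1, hw2, hXeq]
      have hN₀R' : ((a : ℝ) ^ 2 + b ^ 2) * 5 ^ l₀ = N₀ := by rw [hN₀R, hdR]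
      rw [hN₀R', ← hcosψ, ← hsinψ]
      set η' : ℝ := ((qw γ * pq y * star (qw γ)).imI : ℝ) / (5 ^ γ.length * Real.sqrt n) with hη'
      have hden : (0 : ℝ) < 5 ^ γ.length * Real.sqrt n :=
        mul_pos (by positivity) (Real.sqrt_pos.2 (lt_of_lt_of_le one_pos hn1R))
      have hη'1 : |η'| ≤ 1 := by
        rw [hη', abs_div, abs_of_pos hden, div_le_one hden]
        exact hXim
      refine axial_sign φ (Real.cos ψ) (Real.sin ψ) η' (ε ^ 2) hφ2 hη'1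
        (fun η => 1 / (2 * (D : ℝ) ^ 2) ≤ wt N ((1 - η) / 8)) ?_ ?_
      · have h1 : (if decide (0 ≤ φ) = true then η' else -η') =
            (if decide (0 ≤ φ) = true then (1 : ℝ) else -1) *
            ((qw γ * pq y * star (qw γ)).imI : ℝ) / (5 ^ γ.length * Real.sqrt n) := by
          rw [mul_div_assoc]
          split_ifs
          · rw [one_mul]
          · rw [neg_one_mul]
        show 1 / (2 * (D : ℝ) ^ 2) ≤ wt N ((1 - (if decide (0 ≤ φ) = true then η' else -η')) / 8)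
        rw [h1]
        exact hwt
      · intro η hη1 hη2 hw
        apply hclose ψ η hψa hψb hη1 hη2
        refine le_trans ?_ (hw.trans (min_le_right _ _))
        have hDpos : (0 : ℝ) < D := by exact_mod_cast hD1
        have hDd' : (D : ℝ) ≤ d := by exact_mod_cast hDd
        have h3 : (D : ℝ) ^ 2 ≤ (d : ℝ) ^ 2 := pow_le_pow_left₀ hDpos.le hDd' 2
        apply one_div_le_one_div_of_le (by positivity)
        linarith only [h3]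
  -- conclusion
  have hlog : ∀ ε : ℝ, 0 < ε → ε < 1 → 0 ≤ Real.logb 5 (1 / ε) := by
    intro ε hε hε1
    apply Real.logb_nonneg (by norm_num)
    rw [le_div_iff₀ hε]
    linarith
  refine ⟨C + 2 * K₂ + (5 + δ) * Real.logb 5 (1 / ε₀), fun θ ε hε hε1 => ?_⟩
  have hL := hlog ε hε hε1
  have hL0 := hlog ε₀ hε₀ hε₀1
  rcases le_or_gt ε ε₀ with hle | hgt
  · obtain ⟨v, hv1, hv2⟩ := main θ ε hε hle
    refine ⟨v, ?_, hv2⟩
    have h1 : (5 + δ₁) * Real.logb 5 (1 / ε) ≤ (5 + δ) * Real.logb 5 (1 / ε) :=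
      mul_le_mul_of_nonneg_right (by linarith) hL
    have h2 : 0 ≤ (5 + δ) * Real.logb 5 (1 / ε₀) := mul_nonneg (by linarith) hL0
    linarith
  · obtain ⟨v, hv1, hv2⟩ := main θ ε₀ hε₀ le_rfl
    refine ⟨v, ?_, lt_trans hv2 ?_⟩
    · have h1 : (5 + δ₁) * Real.logb 5 (1 / ε₀) ≤ (5 + δ) * Real.logb 5 (1 / ε₀) :=
        mul_le_mul_of_nonneg_right (by linarith) hL0
      have h2 : 0 ≤ (5 + δ) * Real.logb 5 (1 / ε) := mul_nonneg (by linarith) hL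
      linarith
    · nlinarith

end Pool.Agent.H978V
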