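import Pool.Agent.H978V.RDefs
import Pool.Agent.H978V.C5

set_option autoImplicit false

open scoped Quaternion

namespace Pool.Agent.H978V

open Pool.Agent.Helper557.Rz

lemma r6_sq (x : ℤ) : (x % 2 = 0 ∧ (x ^ 2 % 8 = 0 ∨ x ^ 2 % 8 = 4)) ∨ (x % 2 = 1 ∧ x ^ 2 % 8 = 1) := by
  obtain ⟨a, ha | ha | ha | ha⟩ : ∃ a : ℤ, x = 4 * a ∨ x = 4 * a + 1 ∨ x = 4 * a + 2 ∨ x = 4 * a + 3 :=
    ⟨x / 4, by omega⟩
  · left
    refine ⟨by omega, Or.inl ?_⟩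
    have : x ^ 2 = 8 * (2 * a ^ 2) := by rw [ha]; ring
    omega
  · right
    refine ⟨by omega, ?_⟩
    have : x ^ 2 = 8 * (2 * a ^ 2 + a) + 1 := by rw [ha]; ring
    omega
  · left
    refine ⟨by omega, Or.inr ?_⟩
    have : x ^ 2 = 8 * (2 * a ^ 2 + 2 * a) + 4 := by rw [ha]; ring
    omega
  · right
    refine ⟨by omega, ?_⟩
    have : x ^ 2 = 8 * (2 * a ^ 2 + 3 * a + 1) + 1 := by rw [ha]; ring
    omega

lemma r6_prim (v : ℍ[ℤ]) (hv : PrimQ v) :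
    ¬ (v.re % 2 = 0 ∧ v.imI % 2 = 0 ∧ v.imJ % 2 = 0 ∧ v.imK % 2 = 0) := by
  rintro ⟨h0, h1, h2, h3⟩
  apply hv 2 Nat.prime_two
  refine ⟨?_, ?_, ?_, ?_⟩
  · exact Int.dvd_of_emod_eq_zero (by exact_mod_cast h0)
  · exact Int.dvd_of_emod_eq_zero (by exact_mod_cast h1)
  · exact Int.dvd_of_emod_eq_zero (by exact_mod_cast h2)
  · exact Int.dvd_of_emod_eq_zero (by exact_mod_cast h3)

/-- TARGET 1 -/
theorem norm_cD (v : ℍ[ℤ]) (hv : PrimQ v) : ∃ (c : ℤ) (D : ℕ), (c = 1 ∨ c = 2 ∨ c = 4) ∧ Odd D ∧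
    Quaternion.normSq v = c * D := by
  have hp := r6_prim v hv
  have hN : (Quaternion.normSq v : ℤ) = v.re ^ 2 + v.imI ^ 2 + v.imJ ^ 2 + v.imK ^ 2 :=
    Quaternion.normSq_def' v
  have h0 := r6_sq v.re
  have h1 := r6_sq v.imI
  have h2 := r6_sq v.imJ
  have h3 := r6_sq v.imK
  have p0 := sq_nonneg v.re
  have p1 := sq_nonneg v.imI
  have p2 := sq_nonneg v.imJ
  have p3 := sq_nonneg v.imK
  obtain ⟨N, hNN⟩ : ∃ N : ℕ, (Quaternion.normSq v : ℤ) = N := ⟨(Quaternion.normSq v : ℤ).toNat, by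
    rw [Int.toNat_of_nonneg]; rw [hN]; positivity⟩
  rw [hNN] at hN ⊢
  generalize v.re ^ 2 = a at *
  generalize v.imI ^ 2 = b at *
  generalize v.imJ ^ 2 = c at *
  generalize v.imK ^ 2 = d at *
  have h8 : N % 8 ≠ 0 := by omega
  by_cases hc1 : N % 2 = 1
  · exact ⟨1, N, Or.inl rfl, Nat.odd_iff.2 hc1, by ring⟩
  · by_cases hc2 : N % 4 = 2
    · refine ⟨2, N / 2, Or.inr (Or.inl rfl), Nat.odd_iff.2 (by omega), ?_⟩
      omega
    · refine ⟨4, N / 4, Or.inr (Or.inr rfl), Nat.odd_iff.2 (by omega), ?_⟩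
      omega

/-- quaternion from coordinates -/
def r6_mk (a b c d : ℤ) : ℍ[ℤ] := ⟨a, b, c, d⟩

lemma r6_mk0 (a b c d : ℤ) : (r6_mk a b c d).re = a := rfl
lemma r6_mk1 (a b c d : ℤ) : (r6_mk a b c d).imI = b := rfl
lemma r6_mk2 (a b c d : ℤ) : (r6_mk a b c d).imJ = c := rfl
lemma r6_mk3 (a b c d : ℤ) : (r6_mk a b c d).imK = d := rfl

lemma r6_cop (c : ℤ) (D : ℕ) (hD : Odd D) (hc : c = 1 ∨ c = 2 ∨ c = 4) : IsCoprime c (D : ℤ) := by
  have h2 : IsCoprime (2 : ℤ) D := by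
    have h6 : Nat.Coprime 2 D := (Nat.coprime_two_left).2 hD
    exact_mod_cast Nat.isCoprime_iff_coprime.2 h6
  rcases hc with rfl | rfl | rfl
  · exact isCoprime_one_left
  · exact h2
  · have := h2.pow_left (m := 2)
    norm_num at this
    exact this

/-- division by `c` -/
lemma r6_div (c : ℤ) (D : ℕ) (hD : Odd D) (hc : c = 1 ∨ c = 2 ∨ c = 4) (z q : ℤ) (h : D * z = c * q) :
    ∃ y, z = c * y ∧ D * y = q := by
  have h1 : c ∣ z := (r6_cop c D hD hc).dvd_of_dvd_mul_left ⟨q, h⟩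
  obtain ⟨y, hy⟩ := h1
  refine ⟨y, hy, ?_⟩
  have hc0 : c ≠ 0 := by rcases hc with rfl | rfl | rfl <;> norm_num
  apply mul_left_cancel₀ hc0
  rw [← h, hy]; ring

lemma r6_divq (c : ℤ) (D : ℕ) (hD : Odd D) (hc : c = 1 ∨ c = 2 ∨ c = 4) (Z Q : ℍ[ℤ])
    (h : (D : ℤ) • Z = c • Q) : ∃ Y : ℍ[ℤ], Z = c • Y ∧ (D : ℤ) • Y = Q := by
  have h0 := congrArg (fun x : ℍ[ℤ] => x.re) h
  have h1 := congrArg (fun x : ℍ[ℤ] => x.imI) h
  have h2 := congrArg (fun x : ℍ[ℤ] => x.imJ) h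
  have h3 := congrArg (fun x : ℍ[ℤ] => x.imK) h
  simp only [Quaternion.re_smul, Quaternion.imI_smul, Quaternion.imJ_smul, Quaternion.imK_smul,
    smul_eq_mul] at h0 h1 h2 h3
  obtain ⟨y0, hy0, hy0'⟩ := r6_div c D hD hc _ _ h0
  obtain ⟨y1, hy1, hy1'⟩ := r6_div c D hD hc _ _ h1
  obtain ⟨y2, hy2, hy2'⟩ := r6_div c D hD hc _ _ h2
  obtain ⟨y3, hy3, hy3'⟩ := r6_div c D hD hc _ _ h3
  refine ⟨r6_mk y0 y1 y2 y3, ?_, ?_⟩
  · ext <;> simp [hy0, hy1, hy2, hy3, r6_mk0, r6_mk1, r6_mk2, r6_mk3]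
  · ext <;> simp [hy0', hy1', hy2', hy3', r6_mk0, r6_mk1, r6_mk2, r6_mk3]

/-- conjugation of pure quaternions by `v` is divisible by `c` -/
lemma r6_conj (v : ℍ[ℤ]) (c : ℤ) (D : ℕ) (hD : Odd D) (hv : PrimQ v) (hc : c = 1 ∨ c = 2 ∨ c = 4)
    (hN : Quaternion.normSq v = c * D) (u : ℍ[ℤ]) (hu : u.re = 0) :
    ∃ U : ℍ[ℤ], v * u * star v = c • U ∧ U.re = 0 := by
  have hN' : v.re ^ 2 + v.imI ^ 2 + v.imJ ^ 2 + v.imK ^ 2 = c * D := by
    rw [← hN]; exact (Quaternion.normSq_def' v).symm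
  -- the entries of the matrix
  have key : ∃ m11 m12 m13 m21 m22 m23 m31 m32 m33 : ℤ,
      v.re ^ 2 + v.imI ^ 2 - v.imJ ^ 2 - v.imK ^ 2 = c * m11 ∧
      2 * (v.imI * v.imJ - v.re * v.imK) = c * m12 ∧
      2 * (v.imI * v.imK + v.re * v.imJ) = c * m13 ∧
      2 * (v.imI * v.imJ + v.re * v.imK) = c * m21 ∧
      v.re ^ 2 - v.imI ^ 2 + v.imJ ^ 2 - v.imK ^ 2 = c * m22 ∧
      2 * (v.imJ * v.imK - v.re * v.imI) = c * m23 ∧
      2 * (v.imI * v.imK - v.re * v.imJ) = c * m31 ∧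
      2 * (v.imJ * v.imK + v.re * v.imI) = c * m32 ∧
      v.re ^ 2 - v.imI ^ 2 - v.imJ ^ 2 + v.imK ^ 2 = c * m33 := by
    rcases hc with rfl | rfl | rfl
    · exact ⟨_, _, _, _, _, _, _, _, _, (one_mul _).symm, (one_mul _).symm, (one_mul _).symm,
        (one_mul _).symm, (one_mul _).symm, (one_mul _).symm, (one_mul _).symm, (one_mul _).symm,
        (one_mul _).symm⟩
    · exact ⟨D - v.imJ ^ 2 - v.imK ^ 2, _, _, _, D - v.imI ^ 2 - v.imK ^ 2, _, _, _,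
        D - v.imI ^ 2 - v.imJ ^ 2, by linarith, rfl, rfl, rfl, by linarith, rfl, rfl, rfl,
        by linarith⟩
    · have hp := r6_prim v hv
      have hodd : v.re % 2 = 1 ∧ v.imI % 2 = 1 ∧ v.imJ % 2 = 1 ∧ v.imK % 2 = 1 := by
        have h0 := r6_sq v.re
        have h1 := r6_sq v.imI
        have h2 := r6_sq v.imJ
        have h3 := r6_sq v.imK
        have hD' : (D : ℤ) % 2 = 1 := by
          have := Nat.odd_iff.1 hD
          omega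
        generalize v.re ^ 2 = a at *
        generalize v.imI ^ 2 = b at *
        generalize v.imJ ^ 2 = c at *
        generalize v.imK ^ 2 = d at *
        omega
      obtain ⟨o0, o1, o2, o3⟩ := hodd
      obtain ⟨a, ha⟩ : ∃ a, v.re = 2 * a + 1 := ⟨v.re / 2, by omega⟩
      obtain ⟨b, hb⟩ : ∃ a, v.imI = 2 * a + 1 := ⟨v.imI / 2, by omega⟩
      obtain ⟨e, he⟩ : ∃ a, v.imJ = 2 * a + 1 := ⟨v.imJ / 2, by omega⟩
      obtain ⟨f, hf⟩ : ∃ a, v.imK = 2 * a + 1 := ⟨v.imK / 2, by omega⟩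
      rw [ha, hb, he, hf]
      exact ⟨a ^ 2 + a + b ^ 2 + b - e ^ 2 - e - f ^ 2 - f,
        2 * b * e + b + e - 2 * a * f - a - f,
        2 * b * f + b + f + 2 * a * e + a + e + 1,
        2 * b * e + b + e + 2 * a * f + a + f + 1,
        a ^ 2 + a - b ^ 2 - b + e ^ 2 + e - f ^ 2 - f,
        2 * e * f + e + f - 2 * a * b - a - b,
        2 * b * f + b + f - 2 * a * e - a - e,
        2 * e * f + e + f + 2 * a * b + a + b + 1,
        a ^ 2 + a - b ^ 2 - b - e ^ 2 - e + f ^ 2 + f,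
        by ring, by ring, by ring, by ring, by ring, by ring, by ring, by ring, by ring⟩
  obtain ⟨m11, m12, m13, m21, m22, m23, m31, m32, m33, e11, e12, e13, e21, e22, e23, e31, e32, e33⟩ := key
  refine ⟨r6_mk 0 (m11 * u.imI + m12 * u.imJ + m13 * u.imK) (m21 * u.imI + m22 * u.imJ + m23 * u.imK)
    (m31 * u.imI + m32 * u.imJ + m33 * u.imK), ?_, rfl⟩
  ext
  · simp [r6_mk0, hu, -zsmul_eq_mul]
    ring
  · simp [r6_mk1, hu, -zsmul_eq_mul]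
    linear_combination u.imI * e11 + u.imJ * e12 + u.imK * e13
  · simp [r6_mk2, hu, -zsmul_eq_mul]
    linear_combination u.imI * e21 + u.imJ * e22 + u.imK * e23
  · simp [r6_mk3, hu, -zsmul_eq_mul]
    linear_combination u.imI * e31 + u.imJ * e32 + u.imK * e33

/-- real part `r` modulo four, even imaginary coordinates -/
def R6Ev (r : ℤ) (x : ℍ[ℤ]) : Prop :=
  ∃ a b c d : ℤ, x.re = r + 4 * a ∧ x.imI = 2 * b ∧ x.imJ = 2 * c ∧ x.imK = 2 * d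

lemma R6Ev.mul {r s : ℤ} {x y : ℍ[ℤ]} (hx : R6Ev r x) (hy : R6Ev s y) : R6Ev (r * s) (x * y) := by
  obtain ⟨a, b, c, d, h0, h1, h2, h3⟩ := hx
  obtain ⟨a', b', c', d', h0', h1', h2', h3'⟩ := hy
  refine ⟨r * a' + a * s + 4 * a * a' - b * b' - c * c' - d * d',
    x.re * b' + b * y.re + 2 * c * d' - 2 * d * c',
    x.re * c' + c * y.re + 2 * d * b' - 2 * b * d',
    x.re * d' + d * y.re + 2 * b * c' - 2 * c * b', ?_, ?_, ?_, ?_⟩
  · simp only [Quaternion.re_mul, h0, h1, h2, h3, h0', h1', h2', h3']; ring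
  · simp only [Quaternion.imI_mul, h0, h1, h2, h3, h0', h1', h2', h3']; ring
  · simp only [Quaternion.imJ_mul, h0, h1, h2, h3, h0', h1', h2', h3']; ring
  · simp only [Quaternion.imK_mul, h0, h1, h2, h3, h0', h1', h2', h3']; ring

lemma r6_four (D : ℕ) (hD : Odd D) (x : ℤ) (h : (4 : ℤ) ∣ D * x) : (4 : ℤ) ∣ x :=
  (r6_cop 4 D hD (Or.inr (Or.inr rfl))).dvd_of_dvd_mul_left h

lemma r6_two (D : ℕ) (hD : Odd D) (x : ℤ) (h : (2 : ℤ) ∣ D * x) : (2 : ℤ) ∣ x :=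
  (r6_cop 2 D hD (Or.inr (Or.inl rfl))).dvd_of_dvd_mul_left h

/-- TARGET 2 -/
theorem g2_conj (v : ℍ[ℤ]) (c : ℤ) (D : ℕ) (hD : Odd D) (hv : PrimQ v) (hc : c = 1 ∨ c = 2 ∨ c = 4)
    (hN : Quaternion.normSq v = c * D) (z γ : ℍ[ℤ]) (hz : G2 v c D z) (hγ : Gd γ) :
    G2 v c D (γ * z * star γ) := by
  obtain ⟨w, hw, hw0, hw1, hw2, hw3⟩ := hz
  obtain ⟨g0, g1, g2, g3⟩ := hγ
  obtain ⟨k, hk⟩ : ∃ k, γ.re = 1 + 4 * k := ⟨γ.re / 4, by omega⟩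
  obtain ⟨x1, hx1⟩ : ∃ k, γ.imI = 2 * k := ⟨γ.imI / 2, by omega⟩
  obtain ⟨x2, hx2⟩ : ∃ k, γ.imJ = 2 * k := ⟨γ.imJ / 2, by omega⟩
  obtain ⟨x3, hx3⟩ : ∃ k, γ.imK = 2 * k := ⟨γ.imK / 2, by omega⟩
  obtain ⟨u, hu0, hu1, hu2, hu3⟩ : ∃ u : ℍ[ℤ], u.re = 0 ∧ u.imI = x1 ∧ u.imJ = x2 ∧ u.imK = x3 :=
    ⟨r6_mk 0 x1 x2 x3, rfl, rfl, rfl, rfl⟩
  have hγu : γ = γ.re • (1 : ℍ[ℤ]) + (2 : ℤ) • u := by
    ext <;> simp [hu0, hu1, hu2, hu3, hx1, hx2, hx3, -zsmul_eq_mul]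
  obtain ⟨U, hU, hUre⟩ := r6_conj v c D hD hv hc hN u hu0
  have hc0 : c ≠ 0 := by rcases hc with rfl | rfl | rfl <;> norm_num
  have hvv : star v * v = (((c * D : ℤ)) : ℍ[ℤ]) := by
    rw [Quaternion.star_mul_self, hN]
    ext <;> simp
  have hvv' : v * star v = (((c * D : ℤ)) : ℍ[ℤ]) := by
    rw [Quaternion.self_mul_star, hN]
    ext <;> simp
  have hDz : (D : ℤ) • z = star v * w := by
    have h1 : c • ((D : ℤ) • z) = c • (star v * w) := by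
      calc c • ((D : ℤ) • z) = (((c * D : ℤ)) : ℍ[ℤ]) * z := by
            ext <;> simp <;> ring
        _ = star v * (v * z) := by rw [← hvv, mul_assoc]
        _ = c • (star v * w) := by rw [hw, mul_smul_comm]
    exact smul_right_injective _ hc0 h1
  set γ' : ℍ[ℤ] := (γ.re * D) • (1 : ℍ[ℤ]) + (2 : ℤ) • U with hγ'
  have hvg : v * γ * star v = c • γ' := by
    calc v * γ * star v = v * (γ.re • (1 : ℍ[ℤ]) + (2 : ℤ) • u) * star v := by rw [← hγu]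
      _ = γ.re • (v * star v) + (2 : ℤ) • (v * u * star v) := by
          rw [mul_add, add_mul, mul_smul_comm, mul_one, smul_mul_assoc, mul_smul_comm, smul_mul_assoc]
      _ = γ.re • (((c * D : ℤ)) : ℍ[ℤ]) + (2 : ℤ) • (c • U) := by rw [hvv', hU]
      _ = c • γ' := by
          rw [hγ']
          ext <;> simp [-zsmul_eq_mul] <;> ring
  have hD' : (D : ℤ) • (v * (γ * z * star γ)) = c • (γ' * w * star γ) := by
    calc (D : ℤ) • (v * (γ * z * star γ)) = v * γ * ((D : ℤ) • z) * star γ := by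
          rw [mul_smul_comm, smul_mul_assoc]
          simp only [mul_assoc]
      _ = v * γ * star v * w * star γ := by rw [hDz]; simp only [mul_assoc]
      _ = c • (γ' * w * star γ) := by rw [hvg, smul_mul_assoc, smul_mul_assoc]
  obtain ⟨Y, hY, hY'⟩ := r6_divq c D hD hc _ _ hD'
  refine ⟨Y, hY, ?_⟩
  have e1 : R6Ev D γ' := by
    refine ⟨k * D, U.imI, U.imJ, U.imK, ?_, ?_, ?_, ?_⟩
    · simp only [hγ', Quaternion.re_add, Quaternion.re_smul, smul_eq_mul, hUre, Quaternion.re_one, hk]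
      ring
    · simp [hγ', -zsmul_eq_mul]
    · simp [hγ', -zsmul_eq_mul]
    · simp [hγ', -zsmul_eq_mul]
  have e2 : R6Ev D w := by
    refine ⟨(w.re - D) / 4, w.imI / 2, w.imJ / 2, w.imK / 2, ?_, ?_, ?_, ?_⟩ <;> omega
  have e3 : R6Ev 1 (star γ) := by
    refine ⟨k, -x1, -x2, -x3, ?_, ?_, ?_, ?_⟩
    · simp [hk]
    · simp [hx1]
    · simp [hx2]
    · simp [hx3]
  have e4 := (e1.mul e2).mul e3
  rw [← hY'] at e4
  obtain ⟨a, b, d, e, h0, h1, h2, h3⟩ := e4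
  simp only [Quaternion.re_smul, Quaternion.imI_smul, Quaternion.imJ_smul, Quaternion.imK_smul,
    smul_eq_mul] at h0 h1 h2 h3
  refine ⟨?_, ?_, ?_, ?_⟩
  · apply Int.emod_eq_zero_of_dvd
    apply r6_four D hD
    exact ⟨a, by linear_combination h0⟩
  · exact Int.emod_eq_zero_of_dvd (r6_two D hD _ ⟨b, h1⟩)
  · exact Int.emod_eq_zero_of_dvd (r6_two D hD _ ⟨d, h2⟩)
  · exact Int.emod_eq_zero_of_dvd (r6_two D hD _ ⟨e, h3⟩)

/-- TARGET 3 -/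
theorem g2_extract (v : ℍ[ℤ]) (c : ℤ) (D : ℕ) (hD : Odd D) (hc : c = 1 ∨ c = 2 ∨ c = 4)
    (z : ℍ[ℤ]) (hz : G2 v c D z) (hd : DvdQ D (v * z)) :
    ∃ x : ℍ[ℤ], Gd x ∧ v * z = (c * D) • x := by
  obtain ⟨w, hw, hw0, hw1, hw2, hw3⟩ := hz
  have hcop := (r6_cop c D hD hc).symm
  rw [hw] at hd
  obtain ⟨d0, d1, d2, d3⟩ := hd
  simp only [Quaternion.re_smul, Quaternion.imI_smul, Quaternion.imJ_smul, Quaternion.imK_smul,
    smul_eq_mul] at d0 d1 d2 d3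
  obtain ⟨x0, hx0⟩ := hcop.dvd_of_dvd_mul_left d0
  obtain ⟨x1, hx1⟩ := hcop.dvd_of_dvd_mul_left d1
  obtain ⟨x2, hx2⟩ := hcop.dvd_of_dvd_mul_left d2
  obtain ⟨x3, hx3⟩ := hcop.dvd_of_dvd_mul_left d3
  refine ⟨r6_mk x0 x1 x2 x3, ⟨?_, ?_, ?_, ?_⟩, ?_⟩
  · show x0 % 4 = 1
    have h4 : (4 : ℤ) ∣ D * (x0 - 1) := by
      have : (4 : ℤ) ∣ w.re - D := Int.dvd_of_emod_eq_zero hw0
      rw [hx0] at this
      have he : (D : ℤ) * x0 - D = D * (x0 - 1) := by ring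
      rwa [he] at this
    have h6 := r6_four D hD _ h4
    omega
  · show x1 % 2 = 0
    rw [hx1] at hw1
    exact Int.emod_eq_zero_of_dvd (r6_two D hD _ (Int.dvd_of_emod_eq_zero hw1))
  · show x2 % 2 = 0
    rw [hx2] at hw2
    exact Int.emod_eq_zero_of_dvd (r6_two D hD _ (Int.dvd_of_emod_eq_zero hw2))
  · show x3 % 2 = 0
    rw [hx3] at hw3
    exact Int.emod_eq_zero_of_dvd (r6_two D hD _ (Int.dvd_of_emod_eq_zero hw3))
  · rw [hw]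
    ext <;> simp [hx0, hx1, hx2, hx3, r6_mk0, r6_mk1, r6_mk2, r6_mk3] <;> ring

/-- TARGET 4 -/
theorem dvd_conj (v z q : ℍ[ℤ]) (D : ℤ) (h : DvdQ D (v * (q * z))) :
    DvdQ D (v * (q * z * star q)) := by
  rw [← mul_assoc v (q * z) (star q)]
  generalize v * (q * z) = X at h
  obtain ⟨⟨a, ha⟩, ⟨b, hb⟩, ⟨c, hc⟩, ⟨d, hd⟩⟩ := h
  refine ⟨?_, ?_, ?_, ?_⟩
  · simp only [Quaternion.re_mul, ha, hb, hc, hd]
    exact ⟨a * (star q).re - b * (star q).imI - c * (star q).imJ - d * (star q).imK, by ring⟩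
  · simp only [Quaternion.imI_mul, ha, hb, hc, hd]
    exact ⟨a * (star q).imI + b * (star q).re + c * (star q).imK - d * (star q).imJ, by ring⟩
  · simp only [Quaternion.imJ_mul, ha, hb, hc, hd]
    exact ⟨a * (star q).imJ - b * (star q).imK + c * (star q).re + d * (star q).imI, by ring⟩
  · simp only [Quaternion.imK_mul, ha, hb, hc, hd]
    exact ⟨a * (star q).imK + b * (star q).imJ - c * (star q).imI + d * (star q).re, by ring⟩

end Pool.Agent.H978V
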