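import Pool.Agent.H978V.LDefs
import Pool.Agent.H978V.C5
import Pool.Agent.H978V.R6

/-!
JOB L11a (owner helper978, MP_06cce2_nt).  `H978V/*.lean` (library, with `LDefs`) is on origin/main.

PROOF.  `z = mq m y`, `z' = qw g * z * star (qw g)`.  `dvd_conj`: `DvdQ D (v * z')`; `G2 v c D z'` by `g2_conj` (`good_qw`), where `G2 v c D z` as `y ∈ ZS`.  `g2_extract`: `v * z' = (c D) • q`, `Gd q`.  Norms: `normSq z = m² + n = c D 5^(4k) =: N₀`, `normSq v · normSq z' = (cD)² normSq q`,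
`normSq z' = N₀ 25^|g|`: `normSq q = 5^(4k + 2|g|)`.  `cz z = m + √n • hat n y` (as a real quaternion), so `cz z' = 5^|g| (m + √n • rt g (hat n y))` (`cz (qw g) * star (cz (qw g)) = 5^|g|`).
`qh L q = cz q / √5^L`, `√5^(4k+2|g|) = √(5^(4k)) 5^|g|`; `cz q = cz v * cz z' / (cD)`, `cz v = √(cD) • vh v`, `√(cD) √(5^(4k)) = √N₀`.
(If `n = 0` both sides are fine: `√0 = 0`, `y = 0`.)
-/

set_option autoImplicit false

open scoped Quaternion

namespace Pool.Agent.H978V

open Pool.Agent.Helper557.Rz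

lemma l11_star (q : ℍ[ℤ]) : cz q * star (cz q) = (((Quaternion.normSq q : ℤ) : ℝ) : ℍ[ℝ]) := by
  rw [Quaternion.self_mul_star]
  congr 1
  rw [Quaternion.normSq_def', Quaternion.normSq_def']
  simp [cz]

lemma l11_smul (a : ℤ) (q : ℍ[ℤ]) : cz (a • q) = (a : ℝ) • cz q := by
  ext <;> simp [cz, -zsmul_eq_mul]

lemma l11_z (m : ℤ) (n : ℕ) (y : ℤ × ℤ × ℤ) (hy : y ∈ S3 n) :
    cz (mq m y) = (((m : ℝ)) : ℍ[ℝ]) + Real.sqrt n • hat n y := by
  have h1 : Real.sqrt n • hat n y = cz (pq y) := by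
    unfold hat
    rcases Nat.eq_zero_or_pos n with h0 | h0
    · subst h0
      rw [mem_S3] at hy
      have e1 : y.1 = 0 := by
        have : y.1 ^ 2 = 0 := by
          have := sq_nonneg y.1; have := sq_nonneg y.2.1; have := sq_nonneg y.2.2
          push_cast at hy
          linarith
        exact pow_eq_zero_iff (two_ne_zero) |>.1 this
      have e2 : y.2.1 = 0 := by
        have : y.2.1 ^ 2 = 0 := by
          have := sq_nonneg y.1; have := sq_nonneg y.2.1; have := sq_nonneg y.2.2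
          push_cast at hy
          linarith
        exact pow_eq_zero_iff (two_ne_zero) |>.1 this
      have e3 : y.2.2 = 0 := by
        have : y.2.2 ^ 2 = 0 := by
          have := sq_nonneg y.1; have := sq_nonneg y.2.1; have := sq_nonneg y.2.2
          push_cast at hy
          linarith
        exact pow_eq_zero_iff (two_ne_zero) |>.1 this
      have e4 : cz (pq y) = 0 := by
        ext <;> simp [cz, pq, e1, e2, e3]
      rw [e4]; simp
    · have : (0 : ℝ) < Real.sqrt n := Real.sqrt_pos.2 (by exact_mod_cast h0)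
      rw [smul_smul, mul_one_div_cancel this.ne', one_smul]
  rw [h1]
  ext <;> simp [cz, mq, pq]

/-- TARGET -/
theorem close_hole (v : ℍ[ℤ]) (hv : PrimQ v) (c : ℤ) (D : ℕ) (hc : c = 1 ∨ c = 2 ∨ c = 4) (hD : Odd D)
    (hN : Quaternion.normSq v = c * D) (k : ℕ) (m : ℤ) (n : ℕ) (y : ℤ × ℤ × ℤ) (g : List (Fin 6))
    (hy : y ∈ ZS v c D m n) (hn : (n : ℤ) = c * D * 5 ^ (4 * k) - m ^ 2)
    (hd : DvdQ D (v * (qw g * mq m y))) : ∃ q : ℍ[ℤ], Gd q ∧
      Quaternion.normSq q = 5 ^ (4 * k + 2 * g.length) ∧ qh (4 * k + 2 * g.length) q =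
        vh v * (((m / Real.sqrt (c * D * 5 ^ (4 * k)) : ℝ) : ℍ[ℝ]) +
          (Real.sqrt n / Real.sqrt (c * D * 5 ^ (4 * k)) : ℝ) • rt g (hat n y)) := by
  classical
  unfold ZS at hy
  rw [Finset.mem_filter] at hy
  obtain ⟨hyS, hyG⟩ := hy
  obtain ⟨hgd, hgn⟩ := good_qw g
  obtain ⟨q, hq, hvz⟩ := g2_extract v c D hD hc _ (g2_conj v c D hD hv hc hN _ _ hyG hgd)
    (dvd_conj v (mq m y) (qw g) D hd)
  have hc0 : (0 : ℤ) < c := by rcases hc with rfl | rfl | rfl <;> norm_num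
  have hD0 : (0 : ℤ) < D := by exact_mod_cast hD.pos
  have hcD : (0 : ℤ) < c * D := mul_pos hc0 hD0
  have hz : Quaternion.normSq (mq m y) = c * D * 5 ^ (4 * k) := by
    rw [Quaternion.normSq_def']
    have := mem_S3.1 hyS
    simp only [mq]
    have h2 : y.1 ^ 2 + y.2.1 ^ 2 + y.2.2 ^ 2 = c * D * 5 ^ (4 * k) - m ^ 2 := by rw [this, hn]
    linarith
  have hnq : Quaternion.normSq q = 5 ^ (4 * k + 2 * g.length) := by
    have h1 := congrArg (fun x : ℍ[ℤ] => Quaternion.normSq x) hvz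
    simp only [map_mul, Quaternion.normSq_star] at h1
    rw [hN, hz, hgn] at h1
    have h2 : Quaternion.normSq ((c * (D : ℤ)) • q) = (c * D) ^ 2 * Quaternion.normSq q := by
      rw [Quaternion.normSq_smul]
    rw [h2] at h1
    have h3 : (c * (D : ℤ)) ^ 2 ≠ 0 := pow_ne_zero _ hcD.ne'
    apply mul_left_cancel₀ h3
    rw [← h1, pow_add, pow_mul 5 2]
    have : ((5 : ℤ) ^ 2) ^ g.length = 5 ^ g.length * 5 ^ g.length := by
      rw [← mul_pow]; norm_num
    rw [this]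
    ring
  refine ⟨q, hq, hnq, ?_⟩
  -- the real identity
  have hR := congrArg cz hvz
  rw [l11_smul, cz_mul, cz_mul, cz_mul, cz_star, l11_z m n y hyS] at hR
  have hrt : cz (qw g) * hat n y * star (cz (qw g)) = (5 : ℝ) ^ g.length • rt g (hat n y) := by
    unfold rt
    rw [smul_smul, mul_one_div_cancel (by positivity), one_smul]
  have hgs : cz (qw g) * star (cz (qw g)) = (((5 : ℝ) ^ g.length : ℝ) : ℍ[ℝ]) := by
    rw [l11_star, hgn]
    push_cast
    rfl
  have hzz : cz (qw g) * ((((m : ℝ)) : ℍ[ℝ]) + Real.sqrt n • hat n y) * star (cz (qw g)) =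
      (5 : ℝ) ^ g.length • ((((m : ℝ)) : ℍ[ℝ]) + Real.sqrt n • rt g (hat n y)) := by
    rw [mul_add, add_mul, smul_add, mul_smul_comm, smul_mul_assoc, hrt, smul_comm]
    congr 1
    rw [← Quaternion.coe_mul_eq_smul, ← (Quaternion.coe_commutes (m : ℝ) (cz (qw g))), mul_assoc, hgs,
      Quaternion.coe_commutes]
  rw [hzz, mul_smul_comm] at hR
  have hcDR : (0 : ℝ) < c * D := by exact_mod_cast hcD
  have hs : Real.sqrt (c * D * 5 ^ (4 * k)) = Real.sqrt (c * D) * 5 ^ (2 * k) := by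
    have : ((5 : ℝ) ^ (4 * k)) = (5 ^ (2 * k)) ^ 2 := by rw [← pow_mul]; congr 1; ring
    rw [this, Real.sqrt_mul hcDR.le, Real.sqrt_sq (by positivity)]
  have h5 : Real.sqrt 5 ^ (4 * k + 2 * g.length) = 5 ^ (2 * k) * 5 ^ g.length := by
    have : 4 * k + 2 * g.length = 2 * (2 * k + g.length) := by ring
    rw [this, pow_mul, Real.sq_sqrt (by norm_num), pow_add]
  have hsq : 0 < Real.sqrt (c * D : ℝ) := Real.sqrt_pos.2 hcDR
  have hss : Real.sqrt (c * D : ℝ) * Real.sqrt (c * D : ℝ) = c * D := Real.mul_self_sqrt hcDR.le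
  have hcq : cz q = ((1 / (c * D : ℝ)) * (5 : ℝ) ^ g.length) •
      (cz v * ((((m : ℝ)) : ℍ[ℝ]) + Real.sqrt n • rt g (hat n y))) := by
    rw [mul_smul, hR, smul_smul]
    push_cast
    rw [one_div_mul_cancel hcDR.ne', one_smul]
  have hrhs : ((m / Real.sqrt (c * D * 5 ^ (4 * k)) : ℝ) : ℍ[ℝ]) +
          (Real.sqrt n / Real.sqrt (c * D * 5 ^ (4 * k)) : ℝ) • rt g (hat n y) =
      (1 / Real.sqrt (c * D * 5 ^ (4 * k)) : ℝ) •
        ((((m : ℝ)) : ℍ[ℝ]) + Real.sqrt n • rt g (hat n y)) := by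
    rw [smul_add, smul_smul]
    congr 1
    · rw [Quaternion.smul_coe, one_div, div_eq_inv_mul]
    · rw [one_div, div_eq_inv_mul]
  rw [hrhs]
  unfold qh vh
  rw [hcq, hN, smul_smul, mul_smul_comm, smul_mul_assoc, smul_smul]
  congr 1
  rw [hs, h5]
  push_cast
  have h5k : (0 : ℝ) < 5 ^ (2 * k) := by positivity
  have h5g : (0 : ℝ) < 5 ^ g.length := by positivity
  have hDR : (D : ℝ) ≠ 0 := by
    have : (0 : ℝ) < D := by exact_mod_cast hD0
    exact this.ne'
  field_simp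
  rw [Real.sq_sqrt hcDR.le]

end Pool.Agent.H978V
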