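import Pool.Agent.H978V.LDefs
import Pool.Agent.H978V.C5
import Pool.Agent.H978V.R6

/-!
JOB L2 (owner helper978, MP_06cce2_nt).  `H978V/*.lean` (library, with `LDefs`) is on origin/main.

Basic facts on `qw` and `rt`, and the shift.
PROOFS.  `qw (a :: v) = qw v * al a`, so `qw (w ++ u) = qw u * qw w` by induction on `w`.  `rt` is conjugation by the quaternion `qw w` of norm `5^|w|` (`good_qw`): linear, norm preserving (`‖x y‖ = ‖x‖ ‖y‖` in `ℍ[ℝ]`), preserves pure quaternions, invertible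
(the inverse is conjugation by `star (qw w)`).
SHIFT.  `z = mq m y = t * qw (w ++ u) = t * qw u * qw w`.  Put `z' = qw w * (t * qw u)`.  Then `z' * qw w = qw w * z`, so `5^|w| z' = qw w * z * star (qw w)`; `z'` has the same real part (`re (x y) = re (y x)`) and norm as `z`: `z' = mq m y'`, `y' ∈ S3 n`.
`G2 v c D (5^|w| z')` by `g2_conj` (with `good_qw`), and `G2 v c D ((5^l) • z')` implies `G2 v c D z'`: `5^l (v z') = c w₁`, `c ∈ {1,2,4}` is prime to 5, so `v z' = c w₂` and `w₁ = 5^l w₂`; `5^l ≡ 1 mod 4`, and 5^l is odd.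
Imaginary parts: `5^|w| cz (pq y') = cz (qw w) * cz (pq y) * star (cz (qw w))` (the real part `m` is central), i.e. `hat n y' = rt w (hat n y)`.
-/

set_option autoImplicit false

open scoped Quaternion

namespace Pool.Agent.H978V

open Pool.Agent.Helper557.Rz

lemma l2_self_star (w : List (Fin 6)) :
    qw w * star (qw w) = ((5 : ℤ) ^ w.length) • (1 : ℍ[ℤ]) := by
  rw [Quaternion.self_mul_star, (good_qw w).2]
  generalize (5 : ℤ) ^ w.length = k
  ext <;> simp

lemma l2_star_self (w : List (Fin 6)) :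
    star (qw w) * qw w = ((5 : ℤ) ^ w.length) • (1 : ℍ[ℤ]) := by
  rw [Quaternion.star_mul_self, (good_qw w).2]
  generalize (5 : ℤ) ^ w.length = k
  ext <;> simp

lemma l2_cz_smul (k : ℤ) (x : ℍ[ℤ]) : cz (k • x) = (k : ℝ) • cz x := by
  ext
  · change (((k • x).re : ℤ) : ℝ) = (k : ℝ) * x.re
    rw [Quaternion.re_smul, smul_eq_mul]
    push_cast
    rfl
  · change (((k • x).imI : ℤ) : ℝ) = (k : ℝ) * x.imI
    rw [Quaternion.imI_smul, smul_eq_mul]
    push_cast
    rfl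
  · change (((k • x).imJ : ℤ) : ℝ) = (k : ℝ) * x.imJ
    rw [Quaternion.imJ_smul, smul_eq_mul]
    push_cast
    rfl
  · change (((k • x).imK : ℤ) : ℝ) = (k : ℝ) * x.imK
    rw [Quaternion.imK_smul, smul_eq_mul]
    push_cast
    rfl

lemma l2_cz_self_star (w : List (Fin 6)) :
    cz (qw w) * star (cz (qw w)) = ((5 : ℝ) ^ w.length) • (1 : ℍ[ℝ]) := by
  rw [← cz_star, ← cz_mul, l2_self_star, l2_cz_smul, cz_one]
  push_cast
  rfl

lemma l2_cz_star_self (w : List (Fin 6)) :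
    star (cz (qw w)) * cz (qw w) = ((5 : ℝ) ^ w.length) • (1 : ℍ[ℝ]) := by
  rw [← cz_star, ← cz_mul, l2_star_self, l2_cz_smul, cz_one]
  push_cast
  rfl

lemma l2_norm_cz (w : List (Fin 6)) : ‖cz (qw w)‖ * ‖cz (qw w)‖ = (5 : ℝ) ^ w.length := by
  have h := congrArg norm (l2_cz_self_star w)
  rw [norm_mul, norm_star, norm_smul, norm_one, mul_one, Real.norm_of_nonneg (by positivity)] at h
  exact h

/-- TARGET 1 -/
theorem qw_append (w u : List (Fin 6)) : qw (w ++ u) = qw u * qw w := by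
  induction w with
  | nil =>
    change qw u = qw u * 1
    rw [mul_one]
  | cons a v ih =>
    change qw (v ++ u) * al a = qw u * (qw v * al a)
    rw [ih, mul_assoc]

/-- TARGET 2 -/
theorem rt_append (w u : List (Fin 6)) (p : ℍ[ℝ]) : rt (w ++ u) p = rt u (rt w p) := by
  unfold rt
  rw [qw_append, cz_mul, star_mul, List.length_append, pow_add, mul_smul_comm, smul_mul_assoc,
    smul_smul]
  congr 1
  · field_simp
  · simp only [mul_assoc]

/-- TARGET 3 -/
theorem rt_norm (w : List (Fin 6)) (p : ℍ[ℝ]) : ‖rt w p‖ = ‖p‖ := by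
  unfold rt
  rw [norm_smul, norm_mul, norm_mul, norm_star, Real.norm_of_nonneg (by positivity)]
  have h := l2_norm_cz w
  have h5 : (0 : ℝ) < 5 ^ w.length := by positivity
  calc 1 / (5 : ℝ) ^ w.length * (‖cz (qw w)‖ * ‖p‖ * ‖cz (qw w)‖)
      = 1 / (5 : ℝ) ^ w.length * ((‖cz (qw w)‖ * ‖cz (qw w)‖) * ‖p‖) := by ring
    _ = ‖p‖ := by rw [h]; field_simp

/-- TARGET 4 -/
theorem rt_sub (w : List (Fin 6)) (p q : ℍ[ℝ]) : rt w (p - q) = rt w p - rt w q := by
  unfold rt
  rw [mul_sub, sub_mul, smul_sub]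

lemma l2_re (a p : ℍ[ℝ]) (hp : p.re = 0) : (a * p * star a).re = 0 := by
  simp only [Quaternion.re_mul, Quaternion.imI_mul, Quaternion.imJ_mul, Quaternion.imK_mul,
    Quaternion.re_star, Quaternion.imI_star, Quaternion.imJ_star, Quaternion.imK_star, hp]
  ring

/-- TARGET 5 -/
theorem rt_up (w : List (Fin 6)) (p : ℍ[ℝ]) (hp : UP p) : UP (rt w p) := by
  refine ⟨?_, by rw [rt_norm]; exact hp.2⟩
  unfold rt
  rw [Quaternion.re_smul, l2_re _ _ hp.1, smul_zero]

/-- TARGET 6 -/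
theorem rt_inv (w : List (Fin 6)) (q : ℍ[ℝ]) (hq : UP q) : ∃ p : ℍ[ℝ], UP p ∧ rt w p = q := by
  have h5 : ((5 : ℝ) ^ w.length) ≠ 0 := by positivity
  have key : rt w ((1 / (5 : ℝ) ^ w.length) • (star (cz (qw w)) * q * cz (qw w))) = q := by
    unfold rt
    have h1 : cz (qw w) * (star (cz (qw w)) * q * cz (qw w)) * star (cz (qw w)) =
        (cz (qw w) * star (cz (qw w))) * q * (cz (qw w) * star (cz (qw w))) := by
      simp only [mul_assoc]
    rw [mul_smul_comm, smul_mul_assoc, h1, l2_cz_self_star, smul_mul_assoc, one_mul,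
      mul_smul_comm, mul_one, smul_smul, smul_smul, smul_smul]
    have h2 : 1 / (5 : ℝ) ^ w.length * (1 / 5 ^ w.length) * 5 ^ w.length * 5 ^ w.length = 1 := by
      field_simp
    rw [h2, one_smul]
  refine ⟨_, ⟨?_, ?_⟩, key⟩
  · rw [Quaternion.re_smul]
    have := l2_re (star (cz (qw w))) q hq.1
    rw [star_star] at this
    rw [this, smul_zero]
  · rw [← rt_norm w, key]
    exact hq.2

lemma l2_mq_pq (m : ℤ) (y : ℤ × ℤ × ℤ) : mq m y = m • (1 : ℍ[ℤ]) + pq y := by
  ext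
  · rw [Quaternion.re_add, Quaternion.re_smul, Quaternion.re_one, smul_eq_mul, mul_one]
    change m = m + 0
    ring
  · rw [Quaternion.imI_add, Quaternion.imI_smul, Quaternion.imI_one, smul_zero, zero_add]
    rfl
  · rw [Quaternion.imJ_add, Quaternion.imJ_smul, Quaternion.imJ_one, smul_zero, zero_add]
    rfl
  · rw [Quaternion.imK_add, Quaternion.imK_smul, Quaternion.imK_one, smul_zero, zero_add]
    rfl

lemma l2_normSq (m : ℤ) (y : ℤ × ℤ × ℤ) :
    Quaternion.normSq (mq m y) = m ^ 2 + (y.1 ^ 2 + y.2.1 ^ 2 + y.2.2 ^ 2) := by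
  rw [Quaternion.normSq_def']
  simp only [mq]
  ring

lemma l2_re_comm (a b : ℍ[ℤ]) : (a * b).re = (b * a).re := by
  simp only [Quaternion.re_mul]
  ring

/-- TARGET 7 -/
theorem shift (v : ℍ[ℤ]) (c : ℤ) (D : ℕ) (hD : Odd D) (hv : PrimQ v) (hc : c = 1 ∨ c = 2 ∨ c = 4)
    (hN : Quaternion.normSq v = c * D) (m : ℤ) (n : ℕ) (y : ℤ × ℤ × ℤ) (hy : y ∈ ZS v c D m n)
    (w u : List (Fin 6)) (t : ℍ[ℤ]) (h : mq m y = t * qw (w ++ u)) :
    ∃ y' ∈ ZS v c D m n, ((5 : ℤ) ^ w.length) • mq m y' = qw w * mq m y * star (qw w) ∧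
      hat n y' = rt w (hat n y) := by
  classical
  have hy1 : y ∈ S3 n ∧ G2 v c D (mq m y) := by
    unfold ZS at hy
    exact Finset.mem_filter.1 hy
  obtain ⟨hyS, hyG⟩ := hy1
  rw [mem_S3] at hyS
  obtain ⟨z', hz'⟩ : ∃ z' : ℍ[ℤ], z' = qw w * (t * qw u) := ⟨_, rfl⟩
  have hz : mq m y = (t * qw u) * qw w := by rw [h, qw_append, mul_assoc]
  have hre : z'.re = m := by
    rw [hz', l2_re_comm, ← hz]
    rfl
  have hns : Quaternion.normSq z' = Quaternion.normSq (mq m y) := by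
    rw [hz', hz, map_mul, map_mul _ (t * qw u), mul_comm]
  have hzm : z' = mq m (z'.imI, z'.imJ, z'.imK) := by
    ext
    · exact hre
    · rfl
    · rfl
    · rfl
  obtain ⟨y', hy'⟩ : ∃ y' : ℤ × ℤ × ℤ, y' = (z'.imI, z'.imJ, z'.imK) := ⟨_, rfl⟩
  rw [← hy'] at hzm
  have hS : y'.1 ^ 2 + y'.2.1 ^ 2 + y'.2.2 ^ 2 = n := by
    rw [hzm, l2_normSq, l2_normSq, hyS] at hns
    linarith
  have h5z : ((5 : ℤ) ^ w.length) • mq m y' = qw w * mq m y * star (qw w) := by
    rw [← hzm, hz, hz']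
    have e : qw w * (t * qw u * qw w) * star (qw w) =
        qw w * (t * qw u) * (qw w * star (qw w)) := by simp only [mul_assoc]
    rw [e, l2_self_star, mul_smul_comm, mul_one]
  refine ⟨y', ?_, h5z, ?_⟩
  · unfold ZS
    refine Finset.mem_filter.2 ⟨mem_S3.2 hS, ?_⟩
    have hg := g2_conj v c D hD hv hc hN (mq m y) (qw w) hyG (good_qw w).1
    rw [← h5z] at hg
    obtain ⟨w1, hw1, e0, e1, e2, e3⟩ := hg
    have hodd : Odd (5 ^ w.length) := Odd.pow (by decide)
    have h2 : (((5 ^ w.length : ℕ) : ℤ)) • (v * mq m y') = c • w1 := by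
      rw [← hw1, mul_smul_comm]
      push_cast
      rfl
    obtain ⟨Y, hY, hY'⟩ := r6_divq c (5 ^ w.length) hodd hc _ _ h2
    have h50 : ∃ k : ℤ, (5 : ℤ) ^ w.length = 4 * k + 1 := by
      have : (5 : ℤ) ^ w.length ≡ 1 ^ w.length [ZMOD 4] := Int.ModEq.pow _ (by decide)
      rw [one_pow] at this
      obtain ⟨k, hk⟩ := (Int.modEq_iff_dvd.1 this.symm)
      exact ⟨k, by linarith⟩
    obtain ⟨k, hk⟩ := h50
    have f0 := congrArg (fun x : ℍ[ℤ] => x.re) hY'
    have f1 := congrArg (fun x : ℍ[ℤ] => x.imI) hY'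
    have f2 := congrArg (fun x : ℍ[ℤ] => x.imJ) hY'
    have f3 := congrArg (fun x : ℍ[ℤ] => x.imK) hY'
    simp only [Quaternion.re_smul, Quaternion.imI_smul, Quaternion.imJ_smul, Quaternion.imK_smul,
      smul_eq_mul] at f0 f1 f2 f3
    push_cast at f0 f1 f2 f3
    rw [hk] at f0 f1 f2 f3
    refine ⟨Y, hY, ?_, ?_, ?_, ?_⟩
    · have : (4 * k + 1) * Y.re = 4 * (k * Y.re) + Y.re := by ring
      rw [this] at f0
      omega
    · have : (4 * k + 1) * Y.imI = 4 * (k * Y.imI) + Y.imI := by ring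
      rw [this] at f1
      omega
    · have : (4 * k + 1) * Y.imJ = 4 * (k * Y.imJ) + Y.imJ := by ring
      rw [this] at f2
      omega
    · have : (4 * k + 1) * Y.imK = 4 * (k * Y.imK) + Y.imK := by ring
      rw [this] at f3
      omega
  · have hp : ((5 : ℤ) ^ w.length) • pq y' = qw w * pq y * star (qw w) := by
      rw [l2_mq_pq, l2_mq_pq, smul_add, mul_add, add_mul, mul_smul_comm, mul_one, smul_mul_assoc,
        l2_self_star, smul_comm] at h5z
      exact add_left_cancel h5z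
    have hp2 := congrArg cz hp
    rw [l2_cz_smul, cz_mul, cz_mul, cz_star] at hp2
    push_cast at hp2
    unfold hat rt
    rw [mul_smul_comm, smul_mul_assoc, ← hp2, smul_smul, smul_smul]
    congr 1
    field_simp

end Pool.Agent.H978V
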