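import Pool.Agent.H978V.B5

/-!
# A lower bound for the number of points of the sphere, general form
-/

set_option autoImplicit false

namespace Pool.Agent.H978V

/-- The lower bound for the number of representations as a sum of three squares, for all numbers with a primitive one. -/
theorem r3_lower_gen (δ : ℝ) (hδ : 0 < δ) : ∃ c : ℝ, 0 < c ∧ ∀ n : ℕ, 1 ≤ n →
    (∃ x y z : ℤ, x ^ 2 + y ^ 2 + z ^ 2 = n ∧ Int.gcd (Int.gcd x y) z = 1) →
    c * (n : ℝ) ^ (1 / 2 - δ) ≤ ((S3 n).card : ℝ) := by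
  obtain ⟨c, K, hc, hK, h⟩ := char_sum_lower δ hδ
  refine ⟨c / 15, by positivity, fun n hn1 hprim => ?_⟩
  obtain ⟨u, v, w, h1, h2⟩ := hprim
  have hy : ((u, v, w) : ℤ × ℤ × ℤ) ∈ S3 n := mem_S3.2 h1
  set R := (K * n) ^ 4 with hR
  set x := (K * n) ^ 8 with hx
  have hxR : x = R ^ 2 := by rw [hx, hR]; ring
  have hmain := h n hn1 x le_rfl
  set ρ : ℕ → ℕ := fun m => ((Finset.range m).filter (fun b => m ∣ b ^ 2 + n)).card with hρ
  have hKn : n ≤ K * n := Nat.le_mul_of_pos_left n (by omega)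
  have hRn : n ≤ R := by
    rw [hR]
    calc n ≤ K * n := hKn
      _ = (K * n) ^ 1 := (pow_one _).symm
      _ ≤ (K * n) ^ 4 := Nat.pow_le_pow_right (by omega) (by norm_num)
  have hn0 : (0 : ℝ) < (n : ℝ) := by exact_mod_cast (show 0 < n by omega)
  have hsq : 0 < Real.sqrt n := Real.sqrt_pos.2 hn0
  have hsqR : Real.sqrt n ≤ R := by
    rw [Real.sqrt_le_left (by positivity)]
    have h3 : (n : ℝ) ≤ (R : ℝ) := by exact_mod_cast hRn
    have h4 : (1 : ℝ) ≤ (R : ℝ) := by exact_mod_cast (show 1 ≤ R by omega)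
    nlinarith
  have hR0 : (0 : ℝ) < (R : ℝ) := lt_of_lt_of_le hsq hsqR
  have hx0 : (0 : ℝ) < (x : ℝ) := by rw [hxR]; push_cast; positivity
  -- from Jacobi sums to numbers of solutions
  have hA : (∑ a ∈ (Finset.range (x + 1)).filter (fun a => Nat.Coprime a (2 * n)),
      ((∑ b ∈ a.divisors, jacobiSym (-(n : ℤ)) b : ℤ) : ℝ)) ≤
      ((∑ a ∈ (Finset.range (x + 1)).filter (fun a => Nat.Coprime a (2 * n)),
      ∑ r ∈ (Finset.range (a + 1)).filter (fun r => r ≠ 0 ∧ r ^ 2 ∣ a), ρ (a / r ^ 2) : ℕ) : ℝ) := by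
    rw [Nat.cast_sum]
    refine Finset.sum_le_sum fun a ha => ?_
    have h3 := jac_sum_le n a (by omega) (Finset.mem_filter.1 ha).2
    have h4 : ((∑ b ∈ a.divisors, jacobiSym (-(n : ℤ)) b : ℤ) : ℝ) ≤
        ((∑ r ∈ (Finset.range (a + 1)).filter (fun r => r ≠ 0 ∧ r ^ 2 ∣ a),
        (((Finset.range (a / r ^ 2)).filter (fun b => (a / r ^ 2) ∣ b ^ 2 + n)).card : ℤ) : ℤ) : ℝ) := by
      exact_mod_cast h3
    refine h4.trans (le_of_eq ?_)
    push_cast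
    rfl
  have hB := R3Lower256.exchange n R x hxR ρ
  have hB' : ((∑ a ∈ (Finset.range (x + 1)).filter (fun a => Nat.Coprime a (2 * n)),
      ∑ r ∈ (Finset.range (a + 1)).filter (fun r => r ≠ 0 ∧ r ^ 2 ∣ a), ρ (a / r ^ 2) : ℕ) : ℝ) ≤
      ((∑ r ∈ Finset.Icc 1 R, ∑ m ∈ (Finset.range (x / r ^ 2 + 1)).filter
      (fun m => Nat.Coprime m (2 * n)), ρ m : ℕ) : ℝ) := by exact_mod_cast hB
  have hC : ((∑ r ∈ Finset.Icc 1 R, ∑ m ∈ (Finset.range (x / r ^ 2 + 1)).filter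
      (fun m => Nat.Coprime m (2 * n)), ρ m : ℕ) : ℝ) ≤
      ∑ r ∈ Finset.Icc 1 R, 3 * ((S3 n).card : ℝ) *
        (2 * ((x : ℝ) * (1 / (r : ℝ) ^ 2)) / Real.sqrt n + 1) := by
    push_cast
    refine Finset.sum_le_sum fun r hr => ?_
    have h3 := pairs_le n (by omega) (u, v, w) hy h2 (x / r ^ 2)
    refine h3.trans ?_
    have h4 : ((x / r ^ 2 : ℕ) : ℝ) ≤ (x : ℝ) * (1 / (r : ℝ) ^ 2) := by
      have := @Nat.cast_div_le ℝ _ _ _ x (r ^ 2)
      rw [mul_one_div]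
      refine this.trans (le_of_eq ?_)
      push_cast
      rfl
    gcongr
  have hD : ∑ r ∈ Finset.Icc 1 R, 3 * ((S3 n).card : ℝ) *
        (2 * ((x : ℝ) * (1 / (r : ℝ) ^ 2)) / Real.sqrt n + 1) ≤
      15 * ((S3 n).card : ℝ) * (x / Real.sqrt n) := by
    rw [← Finset.mul_sum, Finset.sum_add_distrib, ← Finset.sum_div, ← Finset.mul_sum,
      ← Finset.mul_sum, Finset.sum_const, Nat.card_Icc, nsmul_eq_mul, mul_one]
    have h5 := R3Lower256.sum_inv_sq R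
    have h6 : 2 * ((x : ℝ) * ∑ r ∈ Finset.Icc 1 R, (1 : ℝ) / (r : ℝ) ^ 2) / Real.sqrt n ≤
        4 * (x / Real.sqrt n) := by
      have : 2 * ((x : ℝ) * ∑ r ∈ Finset.Icc 1 R, (1 : ℝ) / (r : ℝ) ^ 2) / Real.sqrt n =
        (2 * ∑ r ∈ Finset.Icc 1 R, (1 : ℝ) / (r : ℝ) ^ 2) * (x / Real.sqrt n) := by ring
      rw [this]
      exact mul_le_mul_of_nonneg_right (by linarith) (by positivity)
    have h7 : ((R + 1 - 1 : ℕ) : ℝ) ≤ x / Real.sqrt n := by
      rw [Nat.add_sub_cancel, le_div_iff₀ hsq, hxR]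
      push_cast
      nlinarith
    have h8 : (0 : ℝ) ≤ 3 * ((S3 n).card : ℝ) := by positivity
    calc 3 * ((S3 n).card : ℝ) * (2 * ((x : ℝ) * ∑ r ∈ Finset.Icc 1 R, (1 : ℝ) / (r : ℝ) ^ 2) /
          Real.sqrt n + ((R + 1 - 1 : ℕ) : ℝ))
        ≤ 3 * ((S3 n).card : ℝ) * (4 * (x / Real.sqrt n) + x / Real.sqrt n) :=
          mul_le_mul_of_nonneg_left (add_le_add h6 h7) h8
      _ = 15 * ((S3 n).card : ℝ) * (x / Real.sqrt n) := by ring
  have hE : c * (n : ℝ) ^ (-δ) * x ≤ 15 * ((S3 n).card : ℝ) * (x / Real.sqrt n) :=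
    hmain.trans (hA.trans (hB'.trans (hC.trans hD)))
  have hpow : (n : ℝ) ^ (1 / 2 - δ) = Real.sqrt n * (n : ℝ) ^ (-δ) := by
    rw [Real.sqrt_eq_rpow, ← Real.rpow_add hn0]
    congr 1
  rw [hpow]
  have hF : (c * (n : ℝ) ^ (-δ) * Real.sqrt n) * x ≤ (15 * ((S3 n).card : ℝ)) * x := by
    have h9 := mul_le_mul_of_nonneg_right hE hsq.le
    have h10 : 15 * ((S3 n).card : ℝ) * (x / Real.sqrt n) * Real.sqrt n =
        15 * ((S3 n).card : ℝ) * x := by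
      field_simp
    rw [h10] at h9
    linarith
  have hG := le_of_mul_le_mul_right hF hx0
  linarith

end Pool.Agent.H978V
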