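import Pool.Agent.H978V.RDefs
import Pool.Agent.H978V.B4
import Pool.Agent.H978V.B6

set_option autoImplicit false

open scoped Quaternion

namespace Pool.Agent.H978V

/-- the congruences in terms of the coordinates -/
def z_type2_C (a b c e D m x y z : ℤ) : Prop :=
  (a * m - b * x - c * y - e * z - 2 * D) % 8 = 0 ∧ (a * x + b * m + c * z - e * y) % 4 = 0 ∧
  (a * y - b * z + c * m + e * x) % 4 = 0 ∧ (a * z + b * y - c * x + e * m) % 4 = 0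

theorem z_type2_cyc {a b c e D m x y z : ℤ} (h : z_type2_C a c e b D m x y z) :
    z_type2_C a b c e D m z x y := by
  obtain ⟨h1, h2, h3, h4⟩ := h
  refine ⟨?_, ?_, ?_, ?_⟩
  · rw [← h1]; congr 1; ring
  · rw [← h4]; congr 1; ring
  · rw [← h2]; congr 1; ring
  · rw [← h3]; congr 1; ring

theorem z_type2_G2 {v : ℍ[ℤ]} {D : ℕ} {m x y z : ℤ}
    (h : z_type2_C v.re v.imI v.imJ v.imK D m x y z) : G2 v 2 D (B6.mkq m x y z) := by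
  obtain ⟨h1, h2, h3, h4⟩ := h
  obtain ⟨t1, e1⟩ := Int.dvd_of_emod_eq_zero h1
  obtain ⟨t2, e2⟩ := Int.dvd_of_emod_eq_zero h2
  obtain ⟨t3, e3⟩ := Int.dvd_of_emod_eq_zero h3
  obtain ⟨t4, e4⟩ := Int.dvd_of_emod_eq_zero h4
  refine ⟨B6.mkq (D + 4 * t1) (2 * t2) (2 * t3) (2 * t4), ?_, ?_, ?_, ?_, ?_⟩
  · refine Quaternion.ext _ _ ?_ ?_ ?_ ?_
    · rw [Quaternion.re_mul, Quaternion.re_smul, smul_eq_mul]
      simp only [B6.mkq_re, B6.mkq_imI, B6.mkq_imJ, B6.mkq_imK]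
      linarith
    · rw [Quaternion.imI_mul, Quaternion.imI_smul, smul_eq_mul]
      simp only [B6.mkq_re, B6.mkq_imI, B6.mkq_imJ, B6.mkq_imK]
      linarith
    · rw [Quaternion.imJ_mul, Quaternion.imJ_smul, smul_eq_mul]
      simp only [B6.mkq_re, B6.mkq_imI, B6.mkq_imJ, B6.mkq_imK]
      linarith
    · rw [Quaternion.imK_mul, Quaternion.imK_smul, smul_eq_mul]
      simp only [B6.mkq_re, B6.mkq_imI, B6.mkq_imJ, B6.mkq_imK]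
      linarith
  · rw [B6.mkq_re]; omega
  · rw [B6.mkq_imI]; omega
  · rw [B6.mkq_imJ]; omega
  · rw [B6.mkq_imK]; omega

/-- the verification in case A -/
theorem z_type2_A {a b c e m x y z D : ℤ} (ha : a % 2 = 1) (hb : b % 2 = 1) (hm : m % 2 = 1)
    (hD : D % 2 = 1) (hp : (y + z + c + e) % 2 = 0)
    (h : (b * x - (a * m - 2 * D - 4 * (c * y + e * z))) % 8 = 0) :
    z_type2_C a b (2 * c) (2 * e) D m x (2 * y) (2 * z) := by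
  obtain ⟨a1, rfl⟩ : ∃ t, a = 2 * t + 1 := ⟨a / 2, by omega⟩
  obtain ⟨b1, rfl⟩ : ∃ t, b = 2 * t + 1 := ⟨b / 2, by omega⟩
  obtain ⟨m1, rfl⟩ : ∃ t, m = 2 * t + 1 := ⟨m / 2, by omega⟩
  obtain ⟨D1, rfl⟩ : ∃ t, D = 2 * t + 1 := ⟨D / 2, by omega⟩
  obtain ⟨s, hs⟩ : ∃ t, y + z + c + e = 2 * t := ⟨(y + z + c + e) / 2, by omega⟩
  obtain ⟨t, ht⟩ := Int.dvd_of_emod_eq_zero h
  obtain ⟨x1, rfl⟩ : ∃ t, x = 2 * t + 1 := by
    have h1 : x = 2 * (4 * t + (2 * a1 * m1 + a1 + m1) - (2 * D1 + 1) - 2 * (c * y + e * z) - b1 * x) + 1 := by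
      linear_combination ht
    exact ⟨_, h1⟩
  refine ⟨?_, ?_, ?_, ?_⟩
  · apply Int.emod_eq_zero_of_dvd
    exact ⟨-t, by linear_combination (-1) * ht⟩
  · apply Int.emod_eq_zero_of_dvd
    refine ⟨a1 * x1 + b1 * m1 + a1 + m1 + (a1 * m1 - b1 * x1 - D1 - (c * y + e * z) + 2 * t) +
      (c * z - e * y), ?_⟩
    linear_combination ht
  · apply Int.emod_eq_zero_of_dvd
    refine ⟨s - z + a1 * y - b1 * z + c * m1 + e * x1, ?_⟩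
    linear_combination 2 * hs
  · apply Int.emod_eq_zero_of_dvd
    refine ⟨s - c + a1 * z + b1 * y - c * x1 + e * m1, ?_⟩
    linear_combination 2 * hs

theorem z_type2_sq8 {x : ℤ} (h : x % 2 = 1) : x ^ 2 % 8 = 1 := by
  obtain ⟨t, rfl⟩ : ∃ t, x = 2 * t + 1 := ⟨x / 2, by omega⟩
  obtain ⟨u, hu⟩ : ∃ u, t * (t + 1) = 2 * u := by
    obtain ⟨u, hu⟩ := Int.even_mul_succ_self t
    exact ⟨u, by rw [hu]; ring⟩
  have : (2 * t + 1) ^ 2 = 8 * u + 1 := by linear_combination 4 * hu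
  omega

theorem z_type2_sq4 {x : ℤ} (h : x % 2 = 0) : x ^ 2 % 4 = 0 := by
  obtain ⟨t, rfl⟩ : ∃ t, x = 2 * t := ⟨x / 2, by omega⟩
  have : (2 * t) ^ 2 = 4 * t ^ 2 := by ring
  omega

theorem z_type2_sq2 (x : ℤ) : (x ^ 2 - x) % 2 = 0 := by
  obtain ⟨u, hu⟩ : ∃ u, (x - 1) * x = 2 * u := by
    obtain ⟨u, hu⟩ := Int.even_mul_succ_self (x - 1)
    exact ⟨u, by rw [← two_mul] at hu; rw [← hu]; ring⟩
  have : x ^ 2 - x = 2 * u := by linear_combination hu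
  omega

/-- case A1 -/
theorem z_type2_A1 {a b c e D m : ℤ} (ha : a % 2 = 1) (hb : b % 2 = 1)
    (hce : (c + e) % 2 = 1) (hD : D % 2 = 1) (hm : m % 2 = 1) {x y z : ℤ} (hx : x % 2 = 1)
    (hyz : (y + z) % 2 = 1) : ∃ x' y' z' : ℤ, x' ^ 2 + y' ^ 2 + z' ^ 2 = x ^ 2 + (2 * y) ^ 2 + (2 * z) ^ 2 ∧
      z_type2_C a b (2 * c) (2 * e) D m x' y' z' := by
  have hbx : (b * x) % 2 = 1 := by rw [Int.mul_emod, hb, hx]; rfl
  have ham : (a * m) % 2 = 1 := by rw [Int.mul_emod, ha, hm]; rfl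
  have hd : ((a * m - 2 * D - 4 * (c * z + e * y)) - (a * m - 2 * D - 4 * (c * y + e * z)) - 4) % 8
      = 0 := by
    have h1 : ((c - e) * (y - z)) % 2 = 1 := by
      rw [Int.mul_emod, show (c - e) % 2 = 1 by omega, show (y - z) % 2 = 1 by omega]; rfl
    have h2 : (a * m - 2 * D - 4 * (c * z + e * y)) - (a * m - 2 * D - 4 * (c * y + e * z)) - 4 =
        4 * ((c - e) * (y - z)) - 4 := by ring
    rw [h2]
    omega
  have hr : (a * m - 2 * D - 4 * (c * y + e * z)) % 2 = 1 := by omega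
  have key : (b * x - (a * m - 2 * D - 4 * (c * y + e * z))) % 8 = 0 ∨
      (b * x - (a * m - 2 * D - 4 * (c * z + e * y))) % 8 = 0 ∨
      (-(b * x) - (a * m - 2 * D - 4 * (c * y + e * z))) % 8 = 0 ∨
      (-(b * x) - (a * m - 2 * D - 4 * (c * z + e * y))) % 8 = 0 := by
    generalize a * m - 2 * D - 4 * (c * y + e * z) = r at *
    generalize a * m - 2 * D - 4 * (c * z + e * y) = r' at *
    generalize b * x = s at *
    omega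
  rcases key with h | h | h | h
  · exact ⟨x, 2 * y, 2 * z, rfl, z_type2_A ha hb hm hD (by omega) h⟩
  · exact ⟨x, 2 * z, 2 * y, by ring, z_type2_A ha hb hm hD (by omega) h⟩
  · exact ⟨-x, 2 * y, 2 * z, by ring, z_type2_A ha hb hm hD (by omega) (by rw [mul_neg]; exact h)⟩
  · exact ⟨-x, 2 * z, 2 * y, by ring, z_type2_A ha hb hm hD (by omega) (by rw [mul_neg]; exact h)⟩

theorem z_type2_pm {x r : ℤ} (hx : x % 2 = 1) (hr : r % 2 = 1) (h : (x ^ 2 - r ^ 2) % 16 = 0) :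
    (x - r) % 8 = 0 ∨ (-x - r) % 8 = 0 := by
  obtain ⟨t, ht⟩ : ∃ t, x - r = 2 * t := ⟨(x - r) / 2, by omega⟩
  obtain ⟨k, hk⟩ := Int.dvd_of_emod_eq_zero h
  have h1 : t * (t + r) = 4 * k := by
    have h2 : x ^ 2 - r ^ 2 = 4 * (t * (t + r)) := by
      have : x = r + 2 * t := by linarith
      rw [this]; ring
    linarith
  rcases Int.emod_two_eq_zero_or_one t with h3 | h3
  · left
    obtain ⟨s, hs⟩ : ∃ s, t = 2 * s := ⟨t / 2, by omega⟩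
    obtain ⟨j, hj⟩ : ∃ j, t + r = 2 * j + 1 := ⟨(t + r) / 2, by omega⟩
    have h4 : t = 4 * (k - s * j) := by
      rw [hj, hs] at h1
      linear_combination h1 + hs
    apply Int.emod_eq_zero_of_dvd
    exact ⟨k - s * j, by linarith⟩
  · right
    obtain ⟨s, hs⟩ : ∃ s, t = 2 * s + 1 := ⟨t / 2, by omega⟩
    obtain ⟨j, hj⟩ : ∃ j, t + r = 2 * j := ⟨(t + r) / 2, by omega⟩
    have h4 : t + r = 4 * (k - s * j) := by
      rw [hj, hs] at h1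
      linear_combination h1 + hj
    apply Int.emod_eq_zero_of_dvd
    exact ⟨-(k - s * j), by linarith⟩

/-- case A2 -/
theorem z_type2_A2 {a b c e D m : ℤ} (ha : a % 2 = 1) (hb : b % 2 = 1)
    (hce : (c + e) % 2 = 0) (hD : D % 2 = 1) (hm : m % 2 = 1) (n : ℕ) (hn8 : n % 8 = 1)
    (hsq : ¬ IsSquare n) : ∃ x y z : ℤ, x ^ 2 + y ^ 2 + z ^ 2 = n ∧
      z_type2_C a b (2 * c) (2 * e) D m x y z := by
  have ham : (a * m) % 2 = 1 := by rw [Int.mul_emod, ha, hm]; rfl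
  set ρ := b * (a * m - 2 * D) with hρ
  have hρ2 : ρ % 2 = 1 := by
    rw [hρ, Int.mul_emod, hb, show (a * m - 2 * D) % 2 = 1 by omega]; rfl
  have hρ8 := z_type2_sq8 hρ2
  have hb8 := z_type2_sq8 hb
  -- the point
  have hS : 0 < (S3 n).card := by
    obtain ⟨x, y, z, h, -⟩ := prim3 n (by omega)
    exact Finset.card_pos.2 ⟨(x, y, z), mem_S3.2 h⟩
  have hpt : ∀ r : ℤ, r = 0 ∨ r = 2 → ∃ x y z : ℤ, x ^ 2 + y ^ 2 + z ^ 2 = n ∧ x % 2 = 1 ∧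
      y % 4 = r ∧ z % 4 = r := by
    intro r hr
    obtain ⟨C, hC, h⟩ := class_lower
    have h1 := h n hn8 hsq r hr
    have h2 : 0 < ((S3 n).filter (fun y => y.1 % 2 = 1 ∧ y.2.1 % 4 = r ∧ y.2.2 % 4 = r)).card := by
      by_contra hc
      have hc' : ((S3 n).filter (fun y => y.1 % 2 = 1 ∧ y.2.1 % 4 = r ∧ y.2.2 % 4 = r)).card = 0 := by
        omega
      rw [hc'] at h1
      have h3 : (0 : ℝ) < (S3 n).card := by exact_mod_cast hS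
      rw [Nat.cast_zero, mul_zero] at h1
      linarith
    obtain ⟨⟨x, y, z⟩, hp⟩ := Finset.card_pos.1 h2
    rw [Finset.mem_filter, mem_S3] at hp
    exact ⟨x, y, z, hp.1, hp.2.1, hp.2.2.1, hp.2.2.2⟩
  have hpt2 : ∃ x y z : ℤ, x ^ 2 + (2 * y) ^ 2 + (2 * z) ^ 2 = n ∧ x % 2 = 1 ∧ (y + z) % 2 = 0 ∧
      (x ^ 2 - ρ ^ 2) % 16 = 0 := by
    have hc : (ρ ^ 2 - n) % 16 = 0 ∨ (ρ ^ 2 - (n - 8)) % 16 = 0 := by omega
    rcases hc with hc | hc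
    · obtain ⟨x, y, z, h1, h2, h3, h4⟩ := hpt 0 (Or.inl rfl)
      obtain ⟨y1, hy1⟩ : ∃ t, y = 4 * t := ⟨y / 4, by omega⟩
      obtain ⟨z1, hz1⟩ : ∃ t, z = 4 * t := ⟨z / 4, by omega⟩
      refine ⟨x, 2 * y1, 2 * z1, ?_, h2, by omega, ?_⟩
      · rw [← h1, hy1, hz1]; ring
      · have : x ^ 2 = n - 16 * (y1 ^ 2 + z1 ^ 2) := by rw [← h1, hy1, hz1]; ring
        omega
    · obtain ⟨x, y, z, h1, h2, h3, h4⟩ := hpt 2 (Or.inr rfl)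
      obtain ⟨y1, hy1⟩ : ∃ t, y = 4 * t + 2 := ⟨y / 4, by omega⟩
      obtain ⟨z1, hz1⟩ : ∃ t, z = 4 * t + 2 := ⟨z / 4, by omega⟩
      refine ⟨x, 2 * y1 + 1, 2 * z1 + 1, ?_, h2, by omega, ?_⟩
      · rw [← h1, hy1, hz1]; ring
      · have : x ^ 2 = n - 16 * (y1 ^ 2 + y1 + z1 ^ 2 + z1) - 8 := by rw [← h1, hy1, hz1]; ring
        omega
  obtain ⟨x, y, z, h1, h2, h3, h4⟩ := hpt2
  have key : ∀ x' : ℤ, (x' - ρ) % 8 = 0 →
      (b * x' - (a * m - 2 * D - 4 * (c * y + e * z))) % 8 = 0 := by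
    intro x' hx'
    obtain ⟨t, ht⟩ := Int.dvd_of_emod_eq_zero hx'
    obtain ⟨u, hu⟩ : ∃ u, b ^ 2 = 8 * u + 1 := ⟨b ^ 2 / 8, by omega⟩
    obtain ⟨s, hs⟩ : ∃ s, c + e = 2 * s := ⟨(c + e) / 2, by omega⟩
    obtain ⟨w, hw⟩ : ∃ w, y + z = 2 * w := ⟨(y + z) / 2, by omega⟩
    apply Int.emod_eq_zero_of_dvd
    refine ⟨b * t + u * (a * m - 2 * D) + (s * y + e * w - e * y), ?_⟩
    have e1 : x' = b * (a * m - 2 * D) + 8 * t := by rw [← hρ]; linarith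
    rw [e1]
    linear_combination (a * m - 2 * D) * hu + 4 * y * hs + 4 * e * hw
  rcases z_type2_pm h2 hρ2 h4 with h | h
  · exact ⟨x, 2 * y, 2 * z, h1, z_type2_A ha hb hm hD (by omega) (key x h)⟩
  · exact ⟨-x, 2 * y, 2 * z, by rw [← h1]; ring, z_type2_A ha hb hm hD (by omega) (key (-x) h)⟩

/-- case A -/
theorem z_type2_caseA {a b c e D m : ℤ} (ha : a % 2 = 1) (hb : b % 2 = 1) (hc : c % 2 = 0)
    (he : e % 2 = 0) (hD : D % 2 = 1) (hN : a ^ 2 + b ^ 2 + c ^ 2 + e ^ 2 = 2 * D)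
    (hm : m % 2 = 1) (n : ℕ) (hn : (n - (2 * D - 1)) % 16 = 0) (hsq : ¬ IsSquare n) :
    ∃ x y z : ℤ, x ^ 2 + y ^ 2 + z ^ 2 = n ∧ z_type2_C a b c e D m x y z := by
  obtain ⟨c, rfl⟩ : ∃ t, c = 2 * t := ⟨c / 2, by omega⟩
  obtain ⟨e, rfl⟩ : ∃ t, e = 2 * t := ⟨e / 2, by omega⟩
  have h1 := z_type2_sq8 ha
  have h2 := z_type2_sq8 hb
  have h3 := z_type2_sq2 c
  have h4 := z_type2_sq2 e
  have h5 : a ^ 2 + b ^ 2 + 4 * c ^ 2 + 4 * e ^ 2 = 2 * D := by rw [← hN]; ring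
  by_cases hce : (c + e) % 2 = 0
  · exact z_type2_A2 ha hb hce hD hm n (by omega) hsq
  · have hce' : (c + e) % 2 = 1 := by omega
    have hn5 : n % 8 = 5 := by omega
    obtain ⟨x, y, z, h, -⟩ := prim3 n (by omega)
    have fin : ∀ x y z : ℤ, x ^ 2 + y ^ 2 + z ^ 2 = n → x % 2 = 1 → y % 2 = 0 → z % 2 = 0 →
        ∃ x y z : ℤ, x ^ 2 + y ^ 2 + z ^ 2 = n ∧ z_type2_C a b (2 * c) (2 * e) D m x y z := by
      intro x y z h hx hy hz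
      obtain ⟨y, rfl⟩ : ∃ t, y = 2 * t := ⟨y / 2, by omega⟩
      obtain ⟨z, rfl⟩ : ∃ t, z = 2 * t := ⟨z / 2, by omega⟩
      have h6 := z_type2_sq8 hx
      have h7 := z_type2_sq2 y
      have h8 := z_type2_sq2 z
      have h9 : x ^ 2 + 4 * y ^ 2 + 4 * z ^ 2 = n := by rw [← h]; ring
      obtain ⟨x', y', z', g1, g2⟩ := z_type2_A1 ha hb hce' hD hm (x := x) (y := y) (z := z) hx
        (by omega)
      exact ⟨x', y', z', g1.trans h, g2⟩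
    have p1 : ∀ w : ℤ, (w % 2 = 1 ∧ w ^ 2 % 8 = 1) ∨ (w % 2 = 0 ∧ w ^ 2 % 4 = 0) := by
      intro w
      rcases Int.emod_two_eq_zero_or_one w with hw | hw
      · exact Or.inr ⟨hw, z_type2_sq4 hw⟩
      · exact Or.inl ⟨hw, z_type2_sq8 hw⟩
    rcases p1 x with ⟨hx, gx⟩ | ⟨hx, gx⟩ <;> rcases p1 y with ⟨hy, gy⟩ | ⟨hy, gy⟩ <;>
      rcases p1 z with ⟨hz, gz⟩ | ⟨hz, gz⟩
    · omega
    · omega
    · omega
    · exact fin x y z h hx hy hz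
    · omega
    · exact fin y x z (by rw [← h]; ring) hy hx hz
    · exact fin z x y (by rw [← h]; ring) hz hx hy
    · omega

/-- the verification in case B -/
theorem z_type2_B {p q c e m x y z D : ℤ} (hc : c % 2 = 1) (he : e % 2 = 1) (hy : y % 2 = 1)
    (hz : z % 2 = 1) (hp : (p + q + x + m) % 2 = 0)
    (h1 : (c * y - e * z) % 4 = 0)
    (h : (4 * (p * m - q * x) - (c * y + e * z) - 2 * D) % 8 = 0) :
    z_type2_C (2 * p) (2 * q) c e D (2 * m) (2 * x) y z := by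
  obtain ⟨c1, rfl⟩ : ∃ t, c = 2 * t + 1 := ⟨c / 2, by omega⟩
  obtain ⟨e1, rfl⟩ : ∃ t, e = 2 * t + 1 := ⟨e / 2, by omega⟩
  obtain ⟨y1, rfl⟩ : ∃ t, y = 2 * t + 1 := ⟨y / 2, by omega⟩
  obtain ⟨z1, rfl⟩ : ∃ t, z = 2 * t + 1 := ⟨z / 2, by omega⟩
  obtain ⟨s, hs⟩ : ∃ t, p + q + x + m = 2 * t := ⟨(p + q + x + m) / 2, by omega⟩
  obtain ⟨t, ht⟩ := Int.dvd_of_emod_eq_zero h1
  obtain ⟨u, hu⟩ := Int.dvd_of_emod_eq_zero h
  refine ⟨?_, ?_, ?_, ?_⟩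
  · apply Int.emod_eq_zero_of_dvd
    exact ⟨u, by linear_combination hu⟩
  · apply Int.emod_eq_zero_of_dvd
    -- c1 + y1 - e1 - z1 = 2 (t - c1 y1 + e1 z1)
    refine ⟨p * x + q * m + c1 * z1 - e1 * y1 + z1 - y1 + (t - c1 * y1 + e1 * z1), ?_⟩
    linear_combination ht
  · apply Int.emod_eq_zero_of_dvd
    refine ⟨p * y1 - q * z1 + c1 * m + e1 * x + s - q, ?_⟩
    linear_combination 2 * hs
  · apply Int.emod_eq_zero_of_dvd
    refine ⟨p * z1 + q * y1 - c1 * x + e1 * m + s - x, ?_⟩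
    linear_combination 2 * hs

/-- case B -/
theorem z_type2_caseB {a b c e D m : ℤ} (ha : a % 2 = 0) (hb : b % 2 = 0) (hc : c % 2 = 1)
    (he : e % 2 = 1) (hD : D % 2 = 1) (hN : a ^ 2 + b ^ 2 + c ^ 2 + e ^ 2 = 2 * D)
    (hm : m % 16 = 0) (n : ℕ) (hn : (n - 2 * D) % 16 = 0) :
    ∃ x y z : ℤ, x ^ 2 + y ^ 2 + z ^ 2 = n ∧ z_type2_C a b c e D m x y z := by
  obtain ⟨p, rfl⟩ : ∃ t, a = 2 * t := ⟨a / 2, by omega⟩
  obtain ⟨q, rfl⟩ : ∃ t, b = 2 * t := ⟨b / 2, by omega⟩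
  obtain ⟨m, rfl⟩ : ∃ t, m = 2 * t := ⟨m / 2, by omega⟩
  have h1 := z_type2_sq8 hc
  have h2 := z_type2_sq8 he
  have h3 := z_type2_sq2 p
  have h4 := z_type2_sq2 q
  have h5 : 4 * p ^ 2 + 4 * q ^ 2 + c ^ 2 + e ^ 2 = 2 * D := by rw [← hN]; ring
  obtain ⟨x, y, z, h, -⟩ := prim3 n (by omega)
  have fin : ∀ x y z : ℤ, x ^ 2 + y ^ 2 + z ^ 2 = n → x % 2 = 0 → y % 2 = 1 → z % 2 = 1 →
      ∃ x y z : ℤ, x ^ 2 + y ^ 2 + z ^ 2 = n ∧ z_type2_C (2 * p) (2 * q) c e D (2 * m) x y z := by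
    intro x y z h hx hy hz
    obtain ⟨x, rfl⟩ : ∃ t, x = 2 * t := ⟨x / 2, by omega⟩
    have h6 := z_type2_sq8 hy
    have h7 := z_type2_sq8 hz
    have h8 := z_type2_sq2 x
    have h9 : 4 * x ^ 2 + y ^ 2 + z ^ 2 = n := by rw [← h]; ring
    have hpar : (p + q + x + m) % 2 = 0 := by omega
    have g1 : (c * y) % 2 = 1 := by rw [Int.mul_emod, hc, hy]; rfl
    have g2 : (e * z) % 2 = 1 := by rw [Int.mul_emod, he, hz]; rfl
    have key : (((c * y) - (e * z)) % 4 = 0 ∧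
          (4 * (p * m - q * x) - (c * y + e * z) - 2 * D) % 8 = 0) ∨
        ((-(c * y) - -(e * z)) % 4 = 0 ∧
          (4 * (p * m - q * x) - (-(c * y) + -(e * z)) - 2 * D) % 8 = 0) ∨
        (((c * y) - -(e * z)) % 4 = 0 ∧
          (4 * (p * m - q * x) - (c * y + -(e * z)) - 2 * D) % 8 = 0) ∨
        ((-(c * y) - (e * z)) % 4 = 0 ∧
          (4 * (p * m - q * x) - (-(c * y) + (e * z)) - 2 * D) % 8 = 0) := by
      generalize c * y = u at *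
      generalize e * z = v at *
      generalize p * m - q * x = w at *
      omega
    rcases key with ⟨k1, k2⟩ | ⟨k1, k2⟩ | ⟨k1, k2⟩ | ⟨k1, k2⟩
    · exact ⟨2 * x, y, z, h, z_type2_B hc he hy hz hpar k1 k2⟩
    · refine ⟨2 * x, -y, -z, by rw [← h]; ring, z_type2_B hc he (by omega) (by omega) hpar ?_ ?_⟩
      · rw [mul_neg, mul_neg]; exact k1
      · rw [mul_neg, mul_neg]; exact k2
    · refine ⟨2 * x, y, -z, by rw [← h]; ring, z_type2_B hc he hy (by omega) hpar ?_ ?_⟩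
      · rw [mul_neg]; exact k1
      · rw [mul_neg]; exact k2
    · refine ⟨2 * x, -y, z, by rw [← h]; ring, z_type2_B hc he (by omega) hz hpar ?_ ?_⟩
      · rw [mul_neg]; exact k1
      · rw [mul_neg]; exact k2
  have p1 : ∀ w : ℤ, (w % 2 = 1 ∧ w ^ 2 % 8 = 1) ∨ (w % 2 = 0 ∧ w ^ 2 % 4 = 0) := by
    intro w
    rcases Int.emod_two_eq_zero_or_one w with hw | hw
    · exact Or.inr ⟨hw, z_type2_sq4 hw⟩
    · exact Or.inl ⟨hw, z_type2_sq8 hw⟩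
  rcases p1 x with ⟨hx, gx⟩ | ⟨hx, gx⟩ <;> rcases p1 y with ⟨hy, gy⟩ | ⟨hy, gy⟩ <;>
    rcases p1 z with ⟨hz, gz⟩ | ⟨hz, gz⟩
  · omega
  · exact fin z x y (by rw [← h]; ring) hz hx hy
  · exact fin y x z (by rw [← h]; ring) hy hx hz
  · omega
  · exact fin x y z h hx hy hz
  · omega
  · omega
  · omega

theorem z_type2_pow (k : ℕ) : ∃ t : ℤ, (5 : ℤ) ^ (4 * k) = 16 * t + 1 := by
  induction k with
  | zero => exact ⟨0, by norm_num⟩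
  | succ k ih =>
    obtain ⟨t, ht⟩ := ih
    refine ⟨625 * t + 39, ?_⟩
    rw [mul_add, pow_add, ht]
    ring

theorem z_type2_core (a b c e D : ℤ) (hD : D % 2 = 1)
    (hN : a ^ 2 + b ^ 2 + c ^ 2 + e ^ 2 = 2 * D) :
    ∃ r : ℤ, ∀ (k : ℕ) (m : ℤ), m % 16 = r % 16 → m ^ 2 < 2 * D * 5 ^ (4 * k) →
      ¬ IsSquare ((2 * D * 5 ^ (4 * k) : ℤ) - m ^ 2) →
      ∃ x y z : ℤ, m ^ 2 + x ^ 2 + y ^ 2 + z ^ 2 = 2 * D * 5 ^ (4 * k) ∧
        z_type2_C a b c e D m x y z := by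
  have p1 : ∀ w : ℤ, (w % 2 = 1 ∧ w ^ 2 % 8 = 1) ∨ (w % 2 = 0 ∧ w ^ 2 % 4 = 0) := by
    intro w
    rcases Int.emod_two_eq_zero_or_one w with hw | hw
    · exact Or.inr ⟨hw, z_type2_sq4 hw⟩
    · exact Or.inl ⟨hw, z_type2_sq8 hw⟩
  have main : ∀ (k : ℕ) (m : ℤ), m ^ 2 < 2 * D * 5 ^ (4 * k) →
      ¬ IsSquare ((2 * D * 5 ^ (4 * k) : ℤ) - m ^ 2) → ∃ n : ℕ,
        (n : ℤ) = 2 * D * 5 ^ (4 * k) - m ^ 2 ∧ ¬ IsSquare n ∧ (n - (2 * D - m ^ 2)) % 16 = 0 := by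
    intro k m h1 h2
    refine ⟨(2 * D * 5 ^ (4 * k) - m ^ 2).toNat, ?_, ?_, ?_⟩
    · exact Int.toNat_of_nonneg (by linarith)
    · rintro ⟨w, hw⟩
      apply h2
      refine ⟨w, ?_⟩
      rw [← Int.toNat_of_nonneg (show 0 ≤ 2 * D * 5 ^ (4 * k) - m ^ 2 by linarith), hw]
      push_cast
      ring
    · rw [Int.toNat_of_nonneg (by linarith)]
      obtain ⟨t, ht⟩ := z_type2_pow k
      rw [ht]
      apply Int.emod_eq_zero_of_dvd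
      exact ⟨2 * D * t, by ring⟩
  have gA : ∀ a b c e : ℤ, a % 2 = 1 → b % 2 = 1 → c % 2 = 0 → e % 2 = 0 →
      a ^ 2 + b ^ 2 + c ^ 2 + e ^ 2 = 2 * D → ∀ (k : ℕ) (m : ℤ), m % 16 = 1 % 16 →
      m ^ 2 < 2 * D * 5 ^ (4 * k) → ¬ IsSquare ((2 * D * 5 ^ (4 * k) : ℤ) - m ^ 2) →
      ∃ x y z : ℤ, m ^ 2 + x ^ 2 + y ^ 2 + z ^ 2 = 2 * D * 5 ^ (4 * k) ∧
        z_type2_C a b c e D m x y z := by
    intro a b c e ha hb hc he hN k m hm h1 h2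
    obtain ⟨n, hn, hsq, hn16⟩ := main k m h1 h2
    have hm2 : (m ^ 2 - 1) % 16 = 0 := by
      obtain ⟨t, ht⟩ : ∃ t, m = 16 * t + 1 := ⟨m / 16, by omega⟩
      apply Int.emod_eq_zero_of_dvd
      exact ⟨16 * t ^ 2 + 2 * t, by rw [ht]; ring⟩
    obtain ⟨x, y, z, g1, g2⟩ := z_type2_caseA (m := m) ha hb hc he hD hN (by omega) n (by omega) hsq
    exact ⟨x, y, z, by linarith, g2⟩
  have gB : ∀ a b c e : ℤ, a % 2 = 0 → b % 2 = 0 → c % 2 = 1 → e % 2 = 1 →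
      a ^ 2 + b ^ 2 + c ^ 2 + e ^ 2 = 2 * D → ∀ (k : ℕ) (m : ℤ), m % 16 = 0 % 16 →
      m ^ 2 < 2 * D * 5 ^ (4 * k) → ¬ IsSquare ((2 * D * 5 ^ (4 * k) : ℤ) - m ^ 2) →
      ∃ x y z : ℤ, m ^ 2 + x ^ 2 + y ^ 2 + z ^ 2 = 2 * D * 5 ^ (4 * k) ∧
        z_type2_C a b c e D m x y z := by
    intro a b c e ha hb hc he hN k m hm h1 h2
    obtain ⟨n, hn, hsq, hn16⟩ := main k m h1 h2
    have hm2 : (m ^ 2) % 16 = 0 := by
      obtain ⟨t, ht⟩ : ∃ t, m = 16 * t := ⟨m / 16, by omega⟩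
      apply Int.emod_eq_zero_of_dvd
      exact ⟨16 * t ^ 2, by rw [ht]; ring⟩
    obtain ⟨x, y, z, g1, g2⟩ := z_type2_caseB (m := m) ha hb hc he hD hN (by omega) n (by omega)
    exact ⟨x, y, z, by linarith, g2⟩
  rcases p1 a with ⟨ha, ga⟩ | ⟨ha, ga⟩ <;> rcases p1 b with ⟨hb, gb⟩ | ⟨hb, gb⟩ <;>
    rcases p1 c with ⟨hc, gc⟩ | ⟨hc, gc⟩ <;> rcases p1 e with ⟨he, ge⟩ | ⟨he, ge⟩
  all_goals try (exfalso; omega)
  · exact ⟨1, gA a b c e ha hb hc he hN⟩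
  · refine ⟨1, fun k m hm h1 h2 => ?_⟩
    obtain ⟨x, y, z, g1, g2⟩ := gA a c e b ha hc he hb (by rw [← hN]; ring) k m hm h1 h2
    exact ⟨z, x, y, by rw [← g1]; ring, z_type2_cyc g2⟩
  · refine ⟨1, fun k m hm h1 h2 => ?_⟩
    obtain ⟨x, y, z, g1, g2⟩ := gA a e b c ha he hb hc (by rw [← hN]; ring) k m hm h1 h2
    exact ⟨y, z, x, by rw [← g1]; ring, z_type2_cyc (z_type2_cyc g2)⟩
  · refine ⟨0, fun k m hm h1 h2 => ?_⟩
    obtain ⟨x, y, z, g1, g2⟩ := gB a e b c ha he hb hc (by rw [← hN]; ring) k m hm h1 h2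
    exact ⟨y, z, x, by rw [← g1]; ring, z_type2_cyc (z_type2_cyc g2)⟩
  · refine ⟨0, fun k m hm h1 h2 => ?_⟩
    obtain ⟨x, y, z, g1, g2⟩ := gB a c e b ha hc he hb (by rw [← hN]; ring) k m hm h1 h2
    exact ⟨z, x, y, by rw [← g1]; ring, z_type2_cyc g2⟩
  · exact ⟨0, gB a b c e ha hb hc he hN⟩

/-- TARGET -/
theorem z_type2 (v : ℍ[ℤ]) (D : ℕ) (hD : Odd D) (hN : Quaternion.normSq v = 2 * D) :
    ∃ r : ℤ, ∀ (k : ℕ) (m : ℤ), m % 16 = r % 16 → m ^ 2 < 2 * D * 5 ^ (4 * k) →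
      ¬ IsSquare ((2 * D * 5 ^ (4 * k) : ℤ) - m ^ 2) →
      ∃ z : ℍ[ℤ], z.re = m ∧ Quaternion.normSq z = 2 * D * 5 ^ (4 * k) ∧ G2 v 2 D z := by
  have hD' : (D : ℤ) % 2 = 1 := by
    have := Nat.odd_iff.1 hD
    omega
  rw [Quaternion.normSq_def'] at hN
  obtain ⟨r, hr⟩ := z_type2_core v.re v.imI v.imJ v.imK D hD' hN
  refine ⟨r, fun k m hm h1 h2 => ?_⟩
  obtain ⟨x, y, z, g1, g2⟩ := hr k m hm h1 h2
  refine ⟨B6.mkq m x y z, rfl, ?_, z_type2_G2 g2⟩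
  rw [Quaternion.normSq_def', ← g1]
  simp only [B6.mkq_re, B6.mkq_imI, B6.mkq_imJ, B6.mkq_imK]

end Pool.Agent.H978V
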