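import Pool.Agent.H978V.LDefs
import Pool.Agent.H978V.R7b
import Pool.Agent.H978V.R1
import Pool.Agent.H978V.B4
import Pool.Agent.H978V.B6
import Pool.Agent.H978V.L0b

/-!
# The counting version of `z_type2`
-/

set_option autoImplicit false

open scoped Quaternion

namespace Pool.Agent.H978V

open Pool.Agent.Helper557.Rz

namespace L10b

/-- every coordinate of the first vector is up to sign a coordinate of the second -/
def SP (x y z x' y' z' : ℤ) : Prop :=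
  (x ^ 2 = x' ^ 2 ∨ x ^ 2 = y' ^ 2 ∨ x ^ 2 = z' ^ 2) ∧
  (y ^ 2 = x' ^ 2 ∨ y ^ 2 = y' ^ 2 ∨ y ^ 2 = z' ^ 2) ∧
  (z ^ 2 = x' ^ 2 ∨ z ^ 2 = y' ^ 2 ∨ z ^ 2 = z' ^ 2)

theorem SP.cyc {x y z x' y' z' : ℤ} (h : SP x y z x' y' z') : SP x y z z' x' y' := by
  obtain ⟨h1, h2, h3⟩ := h
  refine ⟨?_, ?_, ?_⟩ <;> tauto

theorem SP.p1 {x y z x' y' z' : ℤ} (h : SP x y z x' y' z') : SP y x z x' y' z' := by
  obtain ⟨h1, h2, h3⟩ := h
  exact ⟨h2, h1, h3⟩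

theorem SP.p2 {x y z x' y' z' : ℤ} (h : SP x y z x' y' z') : SP y z x x' y' z' := by
  obtain ⟨h1, h2, h3⟩ := h
  exact ⟨h2, h3, h1⟩

theorem count (T T' : Finset (ℤ × ℤ × ℤ))
    (h : ∀ y ∈ T', ∃ y' ∈ T, SP y.1 y.2.1 y.2.2 y'.1 y'.2.1 y'.2.2) : T'.card ≤ 216 * T.card := by
  classical
  set S : ℤ × ℤ × ℤ → Finset ℤ := fun y' => {y'.1, -y'.1, y'.2.1, -y'.2.1, y'.2.2, -y'.2.2} with hS
  have hsub : T' ⊆ T.biUnion (fun y' => (S y') ×ˢ (S y') ×ˢ (S y')) := by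
    intro y hy
    obtain ⟨y', hy', h1, h2, h3⟩ := h y hy
    rw [Finset.mem_biUnion]
    refine ⟨y', hy', ?_⟩
    have key : ∀ x : ℤ, (x ^ 2 = y'.1 ^ 2 ∨ x ^ 2 = y'.2.1 ^ 2 ∨ x ^ 2 = y'.2.2 ^ 2) → x ∈ S y' := by
      intro x hx
      rw [hS]
      simp only [Finset.mem_insert, Finset.mem_singleton]
      rcases hx with hx | hx | hx
      · rcases sq_eq_sq_iff_eq_or_eq_neg.1 hx with hx | hx <;> tauto
      · rcases sq_eq_sq_iff_eq_or_eq_neg.1 hx with hx | hx <;> tauto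
      · rcases sq_eq_sq_iff_eq_or_eq_neg.1 hx with hx | hx <;> tauto
    rw [Finset.mem_product, Finset.mem_product]
    exact ⟨key _ h1, key _ h2, key _ h3⟩
  have hc : ∀ y', (S y').card ≤ 6 := fun y' => by
    rw [hS]
    exact Finset.card_le_six
  calc T'.card ≤ (T.biUnion (fun y' => (S y') ×ˢ (S y') ×ˢ (S y'))).card := Finset.card_le_card hsub
    _ ≤ T.card * 216 := by
      refine Finset.card_biUnion_le_card_mul _ _ _ fun y' _ => ?_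
      rw [Finset.card_product, Finset.card_product]
      have := hc y'
      calc (S y').card * ((S y').card * (S y').card) ≤ 6 * (6 * 6) := by gcongr
        _ = 216 := by norm_num
    _ = 216 * T.card := mul_comm _ _

/-- case A1 -/
theorem A1 {a b c e D m : ℤ} (ha : a % 2 = 1) (hb : b % 2 = 1)
    (hce : (c + e) % 2 = 1) (hD : D % 2 = 1) (hm : m % 2 = 1) {x y z : ℤ} (hx : x % 2 = 1)
    (hyz : (y + z) % 2 = 1) : ∃ x' y' z' : ℤ, x' ^ 2 + y' ^ 2 + z' ^ 2 = x ^ 2 + (2 * y) ^ 2 + (2 * z) ^ 2 ∧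
      z_type2_C a b (2 * c) (2 * e) D m x' y' z' ∧ SP x (2 * y) (2 * z) x' y' z' := by
  have hbx : (b * x) % 2 = 1 := by rw [Int.mul_emod, hb, hx]; rfl
  have ham : (a * m) % 2 = 1 := by rw [Int.mul_emod, ha, hm]; rfl
  have hd : ((a * m - 2 * D - 4 * (c * z + e * y)) - (a * m - 2 * D - 4 * (c * y + e * z)) - 4) % 8
      = 0 := by
    have h1 : ((c - e) * (y - z)) % 2 = 1 := by
      rw [Int.mul_emod, show (c - e) % 2 = 1 by omega, show (y - z) % 2 = 1 by omega]; rfl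
    have h2 : (a * m - 2 * D - 4 * (c * z + e * y)) - (a * m - 2 * D - 4 * (c * y + e * z)) - 4 =
        4 * ((c - e) * (y - z)) - 4 := by ring
    rw [h2]
    omega
  have hr : (a * m - 2 * D - 4 * (c * y + e * z)) % 2 = 1 := by omega
  have key : (b * x - (a * m - 2 * D - 4 * (c * y + e * z))) % 8 = 0 ∨
      (b * x - (a * m - 2 * D - 4 * (c * z + e * y))) % 8 = 0 ∨
      (-(b * x) - (a * m - 2 * D - 4 * (c * y + e * z))) % 8 = 0 ∨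
      (-(b * x) - (a * m - 2 * D - 4 * (c * z + e * y))) % 8 = 0 := by
    generalize a * m - 2 * D - 4 * (c * y + e * z) = r at *
    generalize a * m - 2 * D - 4 * (c * z + e * y) = r' at *
    generalize b * x = s at *
    omega
  rcases key with h | h | h | h
  · exact ⟨x, 2 * y, 2 * z, rfl, z_type2_A ha hb hm hD (by omega) h, by
      refine ⟨?_, ?_, ?_⟩ <;> first | (left; ring1) | (right; left; ring1) | (right; right; ring1)⟩
  · exact ⟨x, 2 * z, 2 * y, by ring, z_type2_A ha hb hm hD (by omega) h, by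
      refine ⟨?_, ?_, ?_⟩ <;> first | (left; ring1) | (right; left; ring1) | (right; right; ring1)⟩
  · exact ⟨-x, 2 * y, 2 * z, by ring,
      z_type2_A ha hb hm hD (by omega) (by rw [mul_neg]; exact h), by
      refine ⟨?_, ?_, ?_⟩ <;> first | (left; ring1) | (right; left; ring1) | (right; right; ring1)⟩
  · exact ⟨-x, 2 * z, 2 * y, by ring,
      z_type2_A ha hb hm hD (by omega) (by rw [mul_neg]; exact h), by
      refine ⟨?_, ?_, ?_⟩ <;> first | (left; ring1) | (right; left; ring1) | (right; right; ring1)⟩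

/-- the conclusion of the core -/
def Conc (a b c e D m : ℤ) (n : ℕ) : Prop :=
  (n % 4 = 1 ∨ n % 4 = 2) ∧
  ∃ T' : Finset (ℤ × ℤ × ℤ), (S3 n).card ≤ 27 * T'.card ∧ ∀ y ∈ T', ∃ x' y' z' : ℤ,
    x' ^ 2 + y' ^ 2 + z' ^ 2 = n ∧ z_type2_C a b c e D m x' y' z' ∧ SP y.1 y.2.1 y.2.2 x' y' z'

theorem Conc.cyc {a b c e D m : ℤ} {n : ℕ} (h : Conc a c e b D m n) : Conc a b c e D m n := by
  obtain ⟨h0, T', h1, h2⟩ := h
  refine ⟨h0, T', h1, fun y hy => ?_⟩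
  obtain ⟨x', y', z', g1, g2, g3⟩ := h2 y hy
  exact ⟨z', x', y', by rw [← g1]; ring, z_type2_cyc g2, g3.cyc⟩

/-- case A2 -/
theorem A2 {a b c e D m : ℤ} (ha : a % 2 = 1) (hb : b % 2 = 1)
    (hce : (c + e) % 2 = 0) (hD : D % 2 = 1) (hm : m % 2 = 1) (n : ℕ) (hn8 : n % 8 = 1)
    (hsq : ¬ IsSquare n) : Conc a b (2 * c) (2 * e) D m n := by
  classical
  refine ⟨by omega, ?_⟩
  have ham : (a * m) % 2 = 1 := by rw [Int.mul_emod, ha, hm]; rfl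
  set ρ := b * (a * m - 2 * D) with hρ
  have hρ2 : ρ % 2 = 1 := by
    rw [hρ, Int.mul_emod, hb, show (a * m - 2 * D) % 2 = 1 by omega]; rfl
  have hρ8 := z_type2_sq8 hρ2
  have hb8 := z_type2_sq8 hb
  have hcl : ∀ r : ℤ, r = 0 ∨ r = 2 → (S3 n).card ≤ 27 * ((S3 n).filter
      (fun y => y.1 % 2 = 1 ∧ y.2.1 % 4 = r ∧ y.2.2 % 4 = r)).card := by
    intro r hr
    have h2 := B6.cl_card n r
    rcases hr with rfl | rfl
    · have h3 := B6.S3_card hn8 hsq (r := 0) (r' := 2) (Or.inl ⟨rfl, rfl⟩)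
      omega
    · have h3 := B6.S3_card hn8 hsq (r := 2) (r' := 0) (Or.inr ⟨rfl, rfl⟩)
      omega
  have fin : ∀ x y z : ℤ, x ^ 2 + (2 * y) ^ 2 + (2 * z) ^ 2 = n → x % 2 = 1 → (y + z) % 2 = 0 →
      (x ^ 2 - ρ ^ 2) % 16 = 0 → ∃ x' y' z' : ℤ, x' ^ 2 + y' ^ 2 + z' ^ 2 = n ∧
        z_type2_C a b (2 * c) (2 * e) D m x' y' z' ∧ SP x (2 * y) (2 * z) x' y' z' := by
    intro x y z h1 h2 h3 h4
    have key : ∀ x' : ℤ, (x' - ρ) % 8 = 0 →
        (b * x' - (a * m - 2 * D - 4 * (c * y + e * z))) % 8 = 0 := by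
      intro x' hx'
      obtain ⟨t, ht⟩ := Int.dvd_of_emod_eq_zero hx'
      obtain ⟨u, hu⟩ : ∃ u, b ^ 2 = 8 * u + 1 := ⟨b ^ 2 / 8, by omega⟩
      obtain ⟨s, hs⟩ : ∃ s, c + e = 2 * s := ⟨(c + e) / 2, by omega⟩
      obtain ⟨w, hw⟩ : ∃ w, y + z = 2 * w := ⟨(y + z) / 2, by omega⟩
      apply Int.emod_eq_zero_of_dvd
      refine ⟨b * t + u * (a * m - 2 * D) + (s * y + e * w - e * y), ?_⟩
      have e1 : x' = b * (a * m - 2 * D) + 8 * t := by rw [← hρ]; linarith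
      rw [e1]
      linear_combination (a * m - 2 * D) * hu + 4 * y * hs + 4 * e * hw
    rcases z_type2_pm h2 hρ2 h4 with h | h
    · exact ⟨x, 2 * y, 2 * z, h1, z_type2_A ha hb hm hD (by omega) (key x h), by
      refine ⟨?_, ?_, ?_⟩ <;> first | (left; ring1) | (right; left; ring1) | (right; right; ring1)⟩
    · exact ⟨-x, 2 * y, 2 * z, by rw [← h1]; ring,
        z_type2_A ha hb hm hD (by omega) (key (-x) h), by
      refine ⟨?_, ?_, ?_⟩ <;> first | (left; ring1) | (right; left; ring1) | (right; right; ring1)⟩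
  have hc : (ρ ^ 2 - n) % 16 = 0 ∨ (ρ ^ 2 - (n - 8)) % 16 = 0 := by omega
  rcases hc with hc | hc
  · refine ⟨_, hcl 0 (Or.inl rfl), ?_⟩
    rintro ⟨x, y, z⟩ hy
    rw [Finset.mem_filter, mem_S3] at hy
    obtain ⟨h1, h2, h3, h4⟩ := hy
    simp only at h1 h2 h3 h4 ⊢
    obtain ⟨y1, hy1⟩ : ∃ t, y = 4 * t := ⟨y / 4, by omega⟩
    obtain ⟨z1, hz1⟩ : ∃ t, z = 4 * t := ⟨z / 4, by omega⟩
    have h5 := fin x (2 * y1) (2 * z1) (by rw [← h1, hy1, hz1]; ring) h2 (by omega) (by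
      have : x ^ 2 = n - 16 * (y1 ^ 2 + z1 ^ 2) := by rw [← h1, hy1, hz1]; ring
      omega)
    rw [show y = 2 * (2 * y1) by omega, show z = 2 * (2 * z1) by omega]
    exact h5
  · refine ⟨_, hcl 2 (Or.inr rfl), ?_⟩
    rintro ⟨x, y, z⟩ hy
    rw [Finset.mem_filter, mem_S3] at hy
    obtain ⟨h1, h2, h3, h4⟩ := hy
    simp only at h1 h2 h3 h4 ⊢
    obtain ⟨y1, hy1⟩ : ∃ t, y = 4 * t + 2 := ⟨y / 4, by omega⟩
    obtain ⟨z1, hz1⟩ : ∃ t, z = 4 * t + 2 := ⟨z / 4, by omega⟩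
    have h5 := fin x (2 * y1 + 1) (2 * z1 + 1) (by rw [← h1, hy1, hz1]; ring) h2 (by omega) (by
      have : x ^ 2 = n - 16 * (y1 ^ 2 + y1 + z1 ^ 2 + z1) - 8 := by rw [← h1, hy1, hz1]; ring
      omega)
    rw [show y = 2 * (2 * y1 + 1) by omega, show z = 2 * (2 * z1 + 1) by omega]
    exact h5

/-- case A -/
theorem caseA {a b c e D m : ℤ} (ha : a % 2 = 1) (hb : b % 2 = 1) (hc : c % 2 = 0)
    (he : e % 2 = 0) (hD : D % 2 = 1) (hN : a ^ 2 + b ^ 2 + c ^ 2 + e ^ 2 = 2 * D)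
    (hm : m % 2 = 1) (n : ℕ) (hn : (n - (2 * D - 1)) % 16 = 0) (hsq : ¬ IsSquare n) :
    Conc a b c e D m n := by
  obtain ⟨c, rfl⟩ : ∃ t, c = 2 * t := ⟨c / 2, by omega⟩
  obtain ⟨e, rfl⟩ : ∃ t, e = 2 * t := ⟨e / 2, by omega⟩
  have h1 := z_type2_sq8 ha
  have h2 := z_type2_sq8 hb
  have h3 := z_type2_sq2 c
  have h4 := z_type2_sq2 e
  have h5 : a ^ 2 + b ^ 2 + 4 * c ^ 2 + 4 * e ^ 2 = 2 * D := by rw [← hN]; ring
  by_cases hce : (c + e) % 2 = 0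
  · exact A2 ha hb hce hD hm n (by omega) hsq
  · have hce' : (c + e) % 2 = 1 := by omega
    have hn5 : n % 8 = 5 := by omega
    refine ⟨by omega, S3 n, by omega, ?_⟩
    rintro ⟨x, y, z⟩ hxyz
    rw [mem_S3] at hxyz
    have h := hxyz
    simp only at h ⊢
    have fin : ∀ x y z : ℤ, x ^ 2 + y ^ 2 + z ^ 2 = n → x % 2 = 1 → y % 2 = 0 → z % 2 = 0 →
        ∃ x' y' z' : ℤ, x' ^ 2 + y' ^ 2 + z' ^ 2 = n ∧ z_type2_C a b (2 * c) (2 * e) D m x' y' z' ∧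
          SP x y z x' y' z' := by
      intro x y z h hx hy hz
      obtain ⟨y, rfl⟩ : ∃ t, y = 2 * t := ⟨y / 2, by omega⟩
      obtain ⟨z, rfl⟩ : ∃ t, z = 2 * t := ⟨z / 2, by omega⟩
      have h6 := z_type2_sq8 hx
      have h7 := z_type2_sq2 y
      have h8 := z_type2_sq2 z
      have h9 : x ^ 2 + 4 * y ^ 2 + 4 * z ^ 2 = n := by rw [← h]; ring
      obtain ⟨x', y', z', g1, g2, g3⟩ := A1 ha hb hce' hD hm (x := x) (y := y) (z := z) hx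
        (by omega)
      exact ⟨x', y', z', g1.trans h, g2, g3⟩
    have p1 : ∀ w : ℤ, (w % 2 = 1 ∧ w ^ 2 % 8 = 1) ∨ (w % 2 = 0 ∧ w ^ 2 % 4 = 0) := by
      intro w
      rcases Int.emod_two_eq_zero_or_one w with hw | hw
      · exact Or.inr ⟨hw, z_type2_sq4 hw⟩
      · exact Or.inl ⟨hw, z_type2_sq8 hw⟩
    rcases p1 x with ⟨hx, gx⟩ | ⟨hx, gx⟩ <;> rcases p1 y with ⟨hy, gy⟩ | ⟨hy, gy⟩ <;>
      rcases p1 z with ⟨hz, gz⟩ | ⟨hz, gz⟩
    · omega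
    · omega
    · omega
    · exact fin x y z h hx hy hz
    · omega
    · obtain ⟨x', y', z', g1, g2, g3⟩ := fin y x z (by rw [← h]; ring) hy hx hz
      exact ⟨x', y', z', g1, g2, g3.p1⟩
    · obtain ⟨x', y', z', g1, g2, g3⟩ := fin z x y (by rw [← h]; ring) hz hx hy
      exact ⟨x', y', z', g1, g2, g3.p2⟩
    · omega

/-- case B -/
theorem caseB {a b c e D m : ℤ} (ha : a % 2 = 0) (hb : b % 2 = 0) (hc : c % 2 = 1)
    (he : e % 2 = 1) (hD : D % 2 = 1) (hN : a ^ 2 + b ^ 2 + c ^ 2 + e ^ 2 = 2 * D)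
    (hm : m % 16 = 0) (n : ℕ) (hn : (n - 2 * D) % 16 = 0) :
    Conc a b c e D m n := by
  obtain ⟨p, rfl⟩ : ∃ t, a = 2 * t := ⟨a / 2, by omega⟩
  obtain ⟨q, rfl⟩ : ∃ t, b = 2 * t := ⟨b / 2, by omega⟩
  obtain ⟨m, rfl⟩ : ∃ t, m = 2 * t := ⟨m / 2, by omega⟩
  have h1 := z_type2_sq8 hc
  have h2 := z_type2_sq8 he
  have h3 := z_type2_sq2 p
  have h4 := z_type2_sq2 q
  have h5 : 4 * p ^ 2 + 4 * q ^ 2 + c ^ 2 + e ^ 2 = 2 * D := by rw [← hN]; ring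
  refine ⟨by omega, S3 n, by omega, ?_⟩
  rintro ⟨x, y, z⟩ hxyz
  rw [mem_S3] at hxyz
  have h := hxyz
  simp only at h ⊢
  have fin : ∀ x y z : ℤ, x ^ 2 + y ^ 2 + z ^ 2 = n → x % 2 = 0 → y % 2 = 1 → z % 2 = 1 →
      ∃ x' y' z' : ℤ, x' ^ 2 + y' ^ 2 + z' ^ 2 = n ∧
        z_type2_C (2 * p) (2 * q) c e D (2 * m) x' y' z' ∧ SP x y z x' y' z' := by
    intro x y z h hx hy hz
    obtain ⟨x, rfl⟩ : ∃ t, x = 2 * t := ⟨x / 2, by omega⟩
    have h6 := z_type2_sq8 hy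
    have h7 := z_type2_sq8 hz
    have h8 := z_type2_sq2 x
    have h9 : 4 * x ^ 2 + y ^ 2 + z ^ 2 = n := by rw [← h]; ring
    have hpar : (p + q + x + m) % 2 = 0 := by omega
    have g1 : (c * y) % 2 = 1 := by rw [Int.mul_emod, hc, hy]; rfl
    have g2 : (e * z) % 2 = 1 := by rw [Int.mul_emod, he, hz]; rfl
    have key : (((c * y) - (e * z)) % 4 = 0 ∧
          (4 * (p * m - q * x) - (c * y + e * z) - 2 * D) % 8 = 0) ∨
        ((-(c * y) - -(e * z)) % 4 = 0 ∧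
          (4 * (p * m - q * x) - (-(c * y) + -(e * z)) - 2 * D) % 8 = 0) ∨
        (((c * y) - -(e * z)) % 4 = 0 ∧
          (4 * (p * m - q * x) - (c * y + -(e * z)) - 2 * D) % 8 = 0) ∨
        ((-(c * y) - (e * z)) % 4 = 0 ∧
          (4 * (p * m - q * x) - (-(c * y) + (e * z)) - 2 * D) % 8 = 0) := by
      generalize c * y = u at *
      generalize e * z = v at *
      generalize p * m - q * x = w at *
      omega
    rcases key with ⟨k1, k2⟩ | ⟨k1, k2⟩ | ⟨k1, k2⟩ | ⟨k1, k2⟩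
    · exact ⟨2 * x, y, z, h, z_type2_B hc he hy hz hpar k1 k2, by
      refine ⟨?_, ?_, ?_⟩ <;> first | (left; ring1) | (right; left; ring1) | (right; right; ring1)⟩
    · refine ⟨2 * x, -y, -z, by rw [← h]; ring,
        z_type2_B hc he (by omega) (by omega) hpar ?_ ?_, by
      refine ⟨?_, ?_, ?_⟩ <;> first | (left; ring1) | (right; left; ring1) | (right; right; ring1)⟩
      · rw [mul_neg, mul_neg]; exact k1
      · rw [mul_neg, mul_neg]; exact k2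
    · refine ⟨2 * x, y, -z, by rw [← h]; ring,
        z_type2_B hc he hy (by omega) hpar ?_ ?_, by
      refine ⟨?_, ?_, ?_⟩ <;> first | (left; ring1) | (right; left; ring1) | (right; right; ring1)⟩
      · rw [mul_neg]; exact k1
      · rw [mul_neg]; exact k2
    · refine ⟨2 * x, -y, z, by rw [← h]; ring,
        z_type2_B hc he (by omega) hz hpar ?_ ?_, by
      refine ⟨?_, ?_, ?_⟩ <;> first | (left; ring1) | (right; left; ring1) | (right; right; ring1)⟩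
      · rw [mul_neg]; exact k1
      · rw [mul_neg]; exact k2
  have p1 : ∀ w : ℤ, (w % 2 = 1 ∧ w ^ 2 % 8 = 1) ∨ (w % 2 = 0 ∧ w ^ 2 % 4 = 0) := by
    intro w
    rcases Int.emod_two_eq_zero_or_one w with hw | hw
    · exact Or.inr ⟨hw, z_type2_sq4 hw⟩
    · exact Or.inl ⟨hw, z_type2_sq8 hw⟩
  rcases p1 x with ⟨hx, gx⟩ | ⟨hx, gx⟩ <;> rcases p1 y with ⟨hy, gy⟩ | ⟨hy, gy⟩ <;>
    rcases p1 z with ⟨hz, gz⟩ | ⟨hz, gz⟩
  · omega
  · obtain ⟨x', y', z', g1, g2, g3⟩ := fin z x y (by rw [← h]; ring) hz hx hy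
    exact ⟨x', y', z', g1, g2, g3.p2⟩
  · obtain ⟨x', y', z', g1, g2, g3⟩ := fin y x z (by rw [← h]; ring) hy hx hz
    exact ⟨x', y', z', g1, g2, g3.p1⟩
  · omega
  · exact fin x y z h hx hy hz
  · omega
  · omega
  · omega

theorem core (a b c e D : ℤ) (hD : D % 2 = 1)
    (hN : a ^ 2 + b ^ 2 + c ^ 2 + e ^ 2 = 2 * D) :
    ∃ r : ℤ, ∀ (k : ℕ) (m : ℤ) (n : ℕ), m % 16 = r % 16 →
      (n : ℤ) = 2 * D * 5 ^ (4 * k) - m ^ 2 → ¬ IsSquare n → Conc a b c e D m n := by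
  have p1 : ∀ w : ℤ, (w % 2 = 1 ∧ w ^ 2 % 8 = 1) ∨ (w % 2 = 0 ∧ w ^ 2 % 4 = 0) := by
    intro w
    rcases Int.emod_two_eq_zero_or_one w with hw | hw
    · exact Or.inr ⟨hw, z_type2_sq4 hw⟩
    · exact Or.inl ⟨hw, z_type2_sq8 hw⟩
  have main : ∀ (k : ℕ) (m : ℤ) (n : ℕ), (n : ℤ) = 2 * D * 5 ^ (4 * k) - m ^ 2 →
      (n - (2 * D - m ^ 2)) % 16 = 0 := by
    intro k m n h1
    rw [h1]
    obtain ⟨t, ht⟩ := z_type2_pow k
    rw [ht]
    apply Int.emod_eq_zero_of_dvd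
    exact ⟨2 * D * t, by ring⟩
  have gA : ∀ a b c e : ℤ, a % 2 = 1 → b % 2 = 1 → c % 2 = 0 → e % 2 = 0 →
      a ^ 2 + b ^ 2 + c ^ 2 + e ^ 2 = 2 * D → ∀ (k : ℕ) (m : ℤ) (n : ℕ), m % 16 = 1 % 16 →
      (n : ℤ) = 2 * D * 5 ^ (4 * k) - m ^ 2 → ¬ IsSquare n → Conc a b c e D m n := by
    intro a b c e ha hb hc he hN k m n hm h1 hsq
    have hn16 := main k m n h1
    have hm2 : (m ^ 2 - 1) % 16 = 0 := by
      obtain ⟨t, ht⟩ : ∃ t, m = 16 * t + 1 := ⟨m / 16, by omega⟩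
      apply Int.emod_eq_zero_of_dvd
      exact ⟨16 * t ^ 2 + 2 * t, by rw [ht]; ring⟩
    exact caseA (m := m) ha hb hc he hD hN (by omega) n (by omega) hsq
  have gB : ∀ a b c e : ℤ, a % 2 = 0 → b % 2 = 0 → c % 2 = 1 → e % 2 = 1 →
      a ^ 2 + b ^ 2 + c ^ 2 + e ^ 2 = 2 * D → ∀ (k : ℕ) (m : ℤ) (n : ℕ), m % 16 = 0 % 16 →
      (n : ℤ) = 2 * D * 5 ^ (4 * k) - m ^ 2 → ¬ IsSquare n → Conc a b c e D m n := by
    intro a b c e ha hb hc he hN k m n hm h1 hsq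
    have hn16 := main k m n h1
    have hm2 : (m ^ 2) % 16 = 0 := by
      obtain ⟨t, ht⟩ : ∃ t, m = 16 * t := ⟨m / 16, by omega⟩
      apply Int.emod_eq_zero_of_dvd
      exact ⟨16 * t ^ 2, by rw [ht]; ring⟩
    exact caseB (m := m) ha hb hc he hD hN (by omega) n (by omega)
  rcases p1 a with ⟨ha, ga⟩ | ⟨ha, ga⟩ <;> rcases p1 b with ⟨hb, gb⟩ | ⟨hb, gb⟩ <;>
    rcases p1 c with ⟨hc, gc⟩ | ⟨hc, gc⟩ <;> rcases p1 e with ⟨he, ge⟩ | ⟨he, ge⟩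
  all_goals try (exfalso; omega)
  · exact ⟨1, gA a b c e ha hb hc he hN⟩
  · exact ⟨1, fun k m n hm h1 h2 =>
      (gA a c e b ha hc he hb (by rw [← hN]; ring) k m n hm h1 h2).cyc⟩
  · exact ⟨1, fun k m n hm h1 h2 =>
      (gA a e b c ha he hb hc (by rw [← hN]; ring) k m n hm h1 h2).cyc.cyc⟩
  · exact ⟨0, fun k m n hm h1 h2 =>
      (gB a e b c ha he hb hc (by rw [← hN]; ring) k m n hm h1 h2).cyc.cyc⟩
  · exact ⟨0, fun k m n hm h1 h2 =>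
      (gB a c e b ha hc he hb (by rw [← hN]; ring) k m n hm h1 h2).cyc⟩
  · exact ⟨0, gB a b c e ha hb hc he hN⟩

end L10b

/-- TARGET -/
theorem zc2 (v : ℍ[ℤ]) (D : ℕ) (hD : Odd D) (hN : Quaternion.normSq v = 2 * D) :
    ∃ r : ℤ, ∀ δ : ℝ, 0 < δ → ∃ c₀ : ℝ, 0 < c₀ ∧ ∀ (k : ℕ) (m : ℤ) (n : ℕ), m % 16 = r % 16 →
      (n : ℤ) = 2 * D * 5 ^ (4 * k) - m ^ 2 → 1 ≤ n → ¬ IsSquare n →
      c₀ * (n : ℝ) ^ (1 / 2 - δ) ≤ (ZS v 2 D m n).card := by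
  have hD' : (D : ℤ) % 2 = 1 := by
    have := Nat.odd_iff.1 hD
    omega
  rw [Quaternion.normSq_def'] at hN
  obtain ⟨r, hr⟩ := L10b.core v.re v.imI v.imJ v.imK D hD' hN
  refine ⟨r, fun δ hδ => ?_⟩
  obtain ⟨c, hc, h⟩ := r3_lower_gen δ hδ
  refine ⟨c / (27 * 216), by positivity, fun k m n hm hn hn1 hsq => ?_⟩
  obtain ⟨h4, T', h5, h6⟩ := hr k m n hm hn hsq
  have h7 := h n hn1 (prim3 n h4)
  have h8 : T'.card ≤ 216 * (ZS v 2 D m n).card := by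
    refine L10b.count _ _ fun y hy => ?_
    obtain ⟨x', y', z', g1, g2, g3⟩ := h6 y hy
    refine ⟨(x', y', z'), ?_, g3⟩
    classical
    unfold ZS
    rw [Finset.mem_filter, mem_S3]
    exact ⟨g1, z_type2_G2 g2⟩
  have h9 : (S3 n).card ≤ 27 * 216 * (ZS v 2 D m n).card := by
    have := Nat.mul_le_mul_left 27 h8
    omega
  have h10 : ((S3 n).card : ℝ) ≤ 27 * 216 * ((ZS v 2 D m n).card : ℝ) := by exact_mod_cast h9
  have h11 : c / (27 * 216) * (n : ℝ) ^ (1 / 2 - δ) = c * (n : ℝ) ^ (1 / 2 - δ) / (27 * 216) := by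
    ring
  rw [h11, div_le_iff₀ (by norm_num)]
  linarith

end Pool.Agent.H978V
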