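import Pool.Agent.H978V.LDefs
import Pool.Agent.H978V.B4

/-!
JOB L0a (owner helper978, MP_06cce2_nt).  `H978V/*.lean` (library, with `LDefs`) is on origin/main.

Primitive sums of three squares for `m = 3 mod 8`.  Adapt `prim_one`, `prim_two` in `H978V/B4.lean` (they end with `exists_sq_prim`, `prim_init`), using the construction for `m = 3 mod 8` in the proof of
`three_squares` in `H591R2/ThreeSq.lean` (the initial state there: make sure it is primitive in the sense of `Prim`, as for `prim_one`; all the work is done in that file, only the primitivity of the state has to be carried through).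
-/

set_option autoImplicit false

open scoped Quaternion

namespace Pool.Agent.H978V

open Pool.Agent.Helper557.Rz

/-- From an auxiliary prime to a primitive state. -/
theorem exists_good_prim {m q : ℕ} (hm : m % 8 = 3) (hq : q.Prime) (hq2 : q ≠ 2)
    (hcop : Nat.Coprime q m) {u : ℤ} (hu : (m : ℤ) ∣ u ^ 2 + 2 * q) :
    ∃ (s : Pool.Agent.H591R2.St) (M : ℤ), Pool.Agent.H591R2.St.Good (m : ℤ) M s ∧ Prim s := by
  obtain ⟨b₀, hb₀⟩ := Pool.Agent.H591R2.exists_root hm hq hq2 hcop hu
  have hqodd : Odd q := hq.odd_of_ne_two hq2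
  have hmodd : Odd m := Nat.odd_iff.2 (by omega)
  obtain ⟨b, hb, hbodd⟩ : ∃ b : ℤ, (q : ℤ) ∣ b ^ 2 + m ∧ Odd b := by
    rcases Int.even_or_odd b₀ with h | h
    · refine ⟨b₀ + q, ?_, h.add_odd (by exact_mod_cast hqodd)⟩
      have : (b₀ + q) ^ 2 + (m : ℤ) = (b₀ ^ 2 + m) + q * (2 * b₀ + q) := by ring
      rw [this]
      exact dvd_add hb₀ (dvd_mul_right _ _)
    · exact ⟨b₀, hb₀, h⟩
  have h2q : (2 * q : ℤ) ∣ b ^ 2 + m := by
    apply IsCoprime.mul_dvd _ _ hb
    · rw [← Nat.cast_ofNat, Nat.isCoprime_iff_coprime]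
      exact Nat.coprime_two_left.2 hqodd
    · rw [← even_iff_two_dvd]
      exact (hbodd.pow).add_odd (by exact_mod_cast hmodd)
  obtain ⟨c, hc⟩ := h2q
  have hucop : IsCoprime u (m : ℤ) := by
    have h1 : IsCoprime (u ^ 2) (m : ℤ) := by
      have h2 : IsCoprime (-(2 * (q : ℤ))) (m : ℤ) := by
        rw [IsCoprime.neg_left_iff]
        apply IsCoprime.mul_left
        · rw [← Nat.cast_ofNat, Nat.isCoprime_iff_coprime]
          exact Nat.coprime_two_left.2 hmodd
        · exact Nat.isCoprime_iff_coprime.2 hcop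
      obtain ⟨t, ht⟩ := hu
      have e : u ^ 2 = -(2 * (q : ℤ)) + m * t := by linarith
      rw [e]
      exact (IsCoprime.add_mul_left_left_iff).2 h2
    exact (IsCoprime.pow_left_iff (by norm_num)).1 h1
  obtain ⟨k, j, hkj⟩ := hucop
  have hl : (m : ℤ) ∣ 2 * q * k ^ 2 + 1 := by
    have e : 2 * q * k ^ 2 + 1 = (u ^ 2 + 2 * q) * k ^ 2 + m * (j * (1 + k * u)) := by
      have : (m : ℤ) * j = 1 - k * u := by linarith
      have e2 : (m : ℤ) * (j * (1 + k * u)) = (m * j) * (1 + k * u) := by ring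
      rw [e2, this]; ring
    rw [e]
    exact dvd_add (hu.mul_right _) (dvd_mul_right _ _)
  obtain ⟨l, hl⟩ := hl
  refine ⟨Pool.Agent.H591R2.init q b c k l, max (2 * q) (max c l),
    Pool.Agent.H591R2.init_good (by omega)
    (by exact_mod_cast hq.pos) hc hl (le_max_left _ _)
    ((le_max_left _ _).trans (le_max_right _ _)) ((le_max_right _ _).trans (le_max_right _ _)), ?_⟩
  exact prim_init _ _ _ _ _ _ _ _

/-- given, proved elsewhere (`H978V/L0a.lean`) -/
theorem prim_three {m : ℕ} (hm : m % 8 = 3) :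
    ∃ x y z : ℤ, x ^ 2 + y ^ 2 + z ^ 2 = m ∧ Int.gcd (Int.gcd x y) z = 1 := by
  have : NeZero m := ⟨by omega⟩
  have hmodd : Odd m := Nat.odd_iff.2 (by omega)
  have h2 : IsUnit ((2 : ℕ) : ZMod m) := by
    rw [ZMod.isUnit_iff_coprime]
    exact Nat.coprime_two_left.2 hmodd
  obtain ⟨v, hv⟩ := h2
  obtain ⟨q, hqm, hq, hqv⟩ := Nat.forall_exists_prime_gt_and_eq_mod
    (a := -((v⁻¹ : (ZMod m)ˣ) : ZMod m)) (by rw [IsUnit.neg_iff]; exact Units.isUnit _) (m + 2)
  have hu : (m : ℤ) ∣ 1 ^ 2 + 2 * q := by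
    rw [← ZMod.intCast_zmod_eq_zero_iff_dvd]
    push_cast
    rw [hqv]
    have : (2 : ZMod m) = v := by rw [hv]; simp
    rw [this]
    simp
  obtain ⟨s, M, hs, hp⟩ := exists_good_prim hm hq (by omega)
    ((Nat.Prime.coprime_iff_not_dvd hq).2 fun h => by
      have := Nat.le_of_dvd (by omega) h
      omega) hu
  exact exists_sq_prim hs hp

end Pool.Agent.H978V
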