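import Pool.Agent.H978V.RDefs
import Pool.Agent.H591R2.ThreeSq

set_option autoImplicit false

open scoped Quaternion

namespace Pool.Agent.H978V

private theorem sq_mod8 (x : ℤ) : (x % 2 = 1 ∧ x ^ 2 % 8 = 1) ∨ (x % 2 = 0 ∧ (x ^ 2 % 8 = 0 ∨ x ^ 2 % 8 = 4)) := by
  have h : x % 8 = 0 ∨ x % 8 = 1 ∨ x % 8 = 2 ∨ x % 8 = 3 ∨ x % 8 = 4 ∨ x % 8 = 5 ∨ x % 8 = 6 ∨ x % 8 = 7 := by omega
  rcases h with h | h | h | h | h | h | h | h <;>
    (have h2 : x ^ 2 % 8 = ((x % 8) ^ 2) % 8 := by rw [pow_two, pow_two, Int.mul_emod]) <;>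
    rw [h] at h2 <;> norm_num at h2 <;> omega

private theorem sign_choice (b x : ℤ) (hb : b % 2 = 1) (hx : x % 2 = 1) :
    ∃ y : ℤ, (-b + 4 * y) ^ 2 = x ^ 2 := by
  by_cases h : (x + b) % 4 = 0
  · exact ⟨(x + b) / 4, by
      have : 4 * ((x + b) / 4) = x + b := by omega
      rw [this]; ring⟩
  · exact ⟨(-x + b) / 4, by
      have : 4 * ((-x + b) / 4) = -x + b := by omega
      rw [this]; ring⟩

private theorem pow_mod16 (k : ℕ) : ∃ t : ℤ, (5 : ℤ) ^ (4 * k) = 16 * t + 1 := by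
  induction k with
  | zero => exact ⟨0, by norm_num⟩
  | succ k ih =>
    obtain ⟨t, ht⟩ := ih
    refine ⟨625 * t + 39, ?_⟩
    rw [Nat.mul_succ, pow_add, ht]; ring

private theorem odd_mul_mod (a b : ℤ) (ha : a % 2 = 1) : (a * b) % 2 = b % 2 := by
  rw [Int.mul_emod, ha]; simp

private theorem sq_mod2 (b : ℤ) : (b ^ 2) % 2 = b % 2 := by
  rcases Int.emod_two_eq_zero_or_one b with h | h <;>
    (rw [pow_two, Int.mul_emod, h]; norm_num)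

private theorem exq (a b c d : ℤ) :
    ∃ z : ℍ[ℤ], z.re = a ∧ z.imI = b ∧ z.imJ = c ∧ z.imK = d :=
  ⟨(⟨a, b, c, d⟩ : ℍ[ℤ]), rfl, rfl, rfl, rfl⟩

/-- TARGET -/
theorem z_type4 (v : ℍ[ℤ]) (D : ℕ) (hD : Odd D) (hv : PrimQ v) (hN : Quaternion.normSq v = 4 * D) :
    ∃ r : ℤ, ∀ (k : ℕ) (m : ℤ), m % 16 = r % 16 → m ^ 2 < 4 * D * 5 ^ (4 * k) →
      ∃ z : ℍ[ℤ], z.re = m ∧ Quaternion.normSq z = 4 * D * 5 ^ (4 * k) ∧ G2 v 4 D z := by
  rw [Quaternion.normSq_def'] at hN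
  obtain ⟨a, eva⟩ : ∃ a, v.re = a := ⟨_, rfl⟩
  obtain ⟨b, evb⟩ : ∃ a, v.imI = a := ⟨_, rfl⟩
  obtain ⟨c, evc⟩ : ∃ a, v.imJ = a := ⟨_, rfl⟩
  obtain ⟨d, evd⟩ : ∃ a, v.imK = a := ⟨_, rfl⟩
  rw [eva, evb, evc, evd] at hN
  have hDm : (D : ℤ) % 2 = 1 := by
    obtain ⟨e, he⟩ := hD; omega
  -- all coordinates odd
  have hodd : a % 2 = 1 ∧ b % 2 = 1 ∧ c % 2 = 1 ∧ d % 2 = 1 := by
    have h2 : ¬ (a % 2 = 0 ∧ b % 2 = 0 ∧ c % 2 = 0 ∧ d % 2 = 0) := by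
      rintro ⟨h1, h2, h3, h4⟩
      refine hv 2 Nat.prime_two ⟨?_, ?_, ?_, ?_⟩
      · rw [eva]; exact_mod_cast Int.dvd_of_emod_eq_zero h1
      · rw [evb]; exact_mod_cast Int.dvd_of_emod_eq_zero h2
      · rw [evc]; exact_mod_cast Int.dvd_of_emod_eq_zero h3
      · rw [evd]; exact_mod_cast Int.dvd_of_emod_eq_zero h4
    have := sq_mod8 a
    have := sq_mod8 b
    have := sq_mod8 c
    have := sq_mod8 d
    omega
  obtain ⟨ha, hb, hc, hd⟩ := hodd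
  refine ⟨a, fun k m hm hlt => ?_⟩
  obtain ⟨t, ht⟩ := pow_mod16 k
  have hm2 : m % 2 = 1 := by omega
  -- the number to be represented
  obtain ⟨n, hn⟩ : ∃ n : ℕ, (n : ℤ) = 4 * D * 5 ^ (4 * k) - m ^ 2 :=
    ⟨(4 * D * 5 ^ (4 * k) - m ^ 2 : ℤ).toNat, by rw [Int.toNat_of_nonneg]; linarith⟩
  have hn8 : n % 8 = 3 := by
    have h1 : (4 * D * 5 ^ (4 * k) : ℤ) = 64 * (D * t) + 4 * D := by rw [ht]; ring
    have h2 : m ^ 2 % 8 = 1 := by
      rcases sq_mod8 m with h | h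
      · exact h.2
      · omega
    omega
  obtain ⟨x1, x2, x3, hx⟩ := Pool.Agent.H591R2.three_squares hn8
  have hxo : x1 % 2 = 1 ∧ x2 % 2 = 1 ∧ x3 % 2 = 1 := by
    have := sq_mod8 x1
    have := sq_mod8 x2
    have := sq_mod8 x3
    omega
  obtain ⟨y1, hy1⟩ := sign_choice b x1 hb hxo.1
  obtain ⟨y2, hy2⟩ := sign_choice c x2 hc hxo.2.1
  obtain ⟨y3, hy3⟩ := sign_choice d x3 hd hxo.2.2
  obtain ⟨y0, hy0⟩ : ∃ y0 : ℤ, m = a + 4 * y0 := ⟨(m - a) / 4, by omega⟩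
  have hsum : (a + 4 * y0) ^ 2 + (-b + 4 * y1) ^ 2 + (-c + 4 * y2) ^ 2 + (-d + 4 * y3) ^ 2
      = 4 * D * 5 ^ (4 * k) := by
    rw [hy1, hy2, hy3, ← hy0]; linarith
  -- T + 2 S = 8 * (D * t)
  have hTS : (a * y0 - b * y1 - c * y2 - d * y3) + 2 * (y0 ^ 2 + y1 ^ 2 + y2 ^ 2 + y3 ^ 2) = 8 * (D * t) := by
    rw [ht] at hsum
    have : 8 * ((a * y0 - b * y1 - c * y2 - d * y3) + 2 * (y0 ^ 2 + y1 ^ 2 + y2 ^ 2 + y3 ^ 2))
        = 8 * (8 * (D * t)) := by linear_combination hsum - hN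
    linarith
  have o1 := odd_mul_mod a y0 ha
  have o2 := odd_mul_mod b y1 hb
  have o3 := odd_mul_mod c y2 hc
  have o4 := odd_mul_mod d y3 hd
  have s0 := sq_mod2 y0
  have s1 := sq_mod2 y1
  have s2 := sq_mod2 y2
  have s3 := sq_mod2 y3
  obtain ⟨z, z0, z1, z2, z3⟩ := exq (a + 4 * y0) (-b + 4 * y1) (-c + 4 * y2) (-d + 4 * y3)
  obtain ⟨w, w0, w1, w2, w3⟩ := exq (D + (a * y0 - b * y1 - c * y2 - d * y3))
    (a * y1 + b * y0 + c * y3 - d * y2) (a * y2 - b * y3 + c * y0 + d * y1)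
    (a * y3 + b * y2 - c * y1 + d * y0)
  refine ⟨z, by rw [z0, hy0], ?_, ?_⟩
  · rw [Quaternion.normSq_def', z0, z1, z2, z3]
    exact hsum
  · refine ⟨w, ?_, ?_, ?_, ?_, ?_⟩
    · ext
      · simp only [Quaternion.re_mul, Quaternion.re_smul, smul_eq_mul, eva, evb, evc, evd, z0, z1, z2, z3, w0]
        linear_combination hN
      · simp only [Quaternion.imI_mul, Quaternion.imI_smul, smul_eq_mul, eva, evb, evc, evd, z0, z1, z2, z3, w1]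
        ring
      · simp only [Quaternion.imJ_mul, Quaternion.imJ_smul, smul_eq_mul, eva, evb, evc, evd, z0, z1, z2, z3, w2]
        ring
      · simp only [Quaternion.imK_mul, Quaternion.imK_smul, smul_eq_mul, eva, evb, evc, evd, z0, z1, z2, z3, w3]
        ring
    · rw [w0]
      omega
    · rw [w1]
      have p1 := odd_mul_mod a y1 ha
      have p2 := odd_mul_mod b y0 hb
      have p3 := odd_mul_mod c y3 hc
      have p4 := odd_mul_mod d y2 hd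
      omega
    · rw [w2]
      have p1 := odd_mul_mod a y2 ha
      have p2 := odd_mul_mod b y3 hb
      have p3 := odd_mul_mod c y0 hc
      have p4 := odd_mul_mod d y1 hd
      omega
    · rw [w3]
      have p1 := odd_mul_mod a y3 ha
      have p2 := odd_mul_mod b y2 hb
      have p3 := odd_mul_mod c y1 hc
      have p4 := odd_mul_mod d y0 hd
      omega

end Pool.Agent.H978V
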