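import Pool.Agent.H978V.LDefs
import Pool.Agent.H978V.R7c
import Pool.Agent.H978V.R1
import Pool.Agent.H978V.L0b
import Pool.Agent.H978V.L0a

/-!
JOB L10c (owner helper978, MP_06cce2_nt).  `H978V/*.lean` (library, with `LDefs`) is on origin/main.

The counting version of `z_type4` (`H978V/R7c.lean`, PROVED; read it and adapt: there ONE suitable `z` is constructed, here we need many).  `N₀ = 4 D 5^(4k)`, `m` odd (`r = v₀`, `m ≡ v₀ mod 4`), `n ≡ 3 mod 8`.  For EVERY `y ∈ S3 n` (all coordinates odd) the signs can be chosen such that `y_i ≡ -v_i mod 4`,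
and then (proof of `z_type4`) `G2 v 4 D (mq m y)`.  The map `y ↦` (y with these signs) has fibres of size at most 8: `|S3 n| ≤ 8 |ZS|`, and `|S3 n| ≥ c n^(1/2-δ)` (`r3_lower_gen`, `prim_three`).
-/

set_option autoImplicit false

open scoped Quaternion

namespace Pool.Agent.H978V

open Pool.Agent.Helper557.Rz


theorem zc4_sq_mod8 (x : ℤ) :
    (x % 2 = 1 ∧ x ^ 2 % 8 = 1) ∨ (x % 2 = 0 ∧ (x ^ 2 % 8 = 0 ∨ x ^ 2 % 8 = 4)) := by
  have h : x % 8 = 0 ∨ x % 8 = 1 ∨ x % 8 = 2 ∨ x % 8 = 3 ∨ x % 8 = 4 ∨ x % 8 = 5 ∨ x % 8 = 6 ∨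
    x % 8 = 7 := by omega
  rcases h with h | h | h | h | h | h | h | h <;>
    (have h2 : x ^ 2 % 8 = ((x % 8) ^ 2) % 8 := by rw [pow_two, pow_two, Int.mul_emod]) <;>
    rw [h] at h2 <;> norm_num at h2 <;> omega

theorem zc4_pow_mod16 (k : ℕ) : ∃ t : ℤ, (5 : ℤ) ^ (4 * k) = 16 * t + 1 := by
  induction k with
  | zero => exact ⟨0, by norm_num⟩
  | succ k ih =>
    obtain ⟨t, ht⟩ := ih
    refine ⟨625 * t + 39, ?_⟩
    rw [Nat.mul_succ, pow_add, ht]; ring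

theorem zc4_odd_mul_mod (a b : ℤ) (ha : a % 2 = 1) : (a * b) % 2 = b % 2 := by
  rw [Int.mul_emod, ha]; simp

theorem zc4_sq_mod2 (b : ℤ) : (b ^ 2) % 2 = b % 2 := by
  rcases Int.emod_two_eq_zero_or_one b with h | h <;>
    (rw [pow_two, Int.mul_emod, h]; norm_num)

theorem zc4_exq (a b c d : ℤ) :
    ∃ z : ℍ[ℤ], z.re = a ∧ z.imI = b ∧ z.imJ = c ∧ z.imK = d :=
  ⟨(⟨a, b, c, d⟩ : ℍ[ℤ]), rfl, rfl, rfl, rfl⟩

/-- the choice of the sign -/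
def zc4_sg (b x : ℤ) : ℤ := if (x + b) % 4 = 0 then x else -x

theorem zc4_sg_sq (b x : ℤ) : zc4_sg b x ^ 2 = x ^ 2 := by
  unfold zc4_sg
  split_ifs
  · rfl
  · ring

theorem zc4_sg_mod (b x : ℤ) (hb : b % 2 = 1) (hx : x % 2 = 1) :
    ∃ y : ℤ, zc4_sg b x = -b + 4 * y := by
  unfold zc4_sg
  split_ifs with h
  · exact ⟨(x + b) / 4, by omega⟩
  · exact ⟨(-x + b) / 4, by omega⟩

theorem zc4_sg_inj (b x y : ℤ) (h1 : zc4_sg b x = zc4_sg b y)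
    (h2 : decide ((x + b) % 4 = 0) = decide ((y + b) % 4 = 0)) : x = y := by
  unfold zc4_sg at h1
  by_cases h3 : (x + b) % 4 = 0
  · have h4 : (y + b) % 4 = 0 := by
      rw [decide_eq_true h3] at h2
      exact of_decide_eq_true h2.symm
    rw [if_pos h3, if_pos h4] at h1
    exact h1
  · have h4 : ¬ (y + b) % 4 = 0 := by
      rw [decide_eq_false h3] at h2
      exact of_decide_eq_false h2.symm
    rw [if_neg h3, if_neg h4] at h1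
    omega

theorem zc4_G2 (v : ℍ[ℤ]) (D : ℕ) (hD : (D : ℤ) % 2 = 1) (a b c d : ℤ) (eva : v.re = a)
    (evb : v.imI = b) (evc : v.imJ = c) (evd : v.imK = d) (ha : a % 2 = 1) (hb : b % 2 = 1)
    (hc : c % 2 = 1) (hd : d % 2 = 1) (hN : a ^ 2 + b ^ 2 + c ^ 2 + d ^ 2 = 4 * D) (k : ℕ) (m : ℤ)
    (y0 y1 y2 y3 : ℤ) (hm : m = a + 4 * y0) (w : ℤ × ℤ × ℤ) (hw1 : w.1 = -b + 4 * y1)
    (hw2 : w.2.1 = -c + 4 * y2) (hw3 : w.2.2 = -d + 4 * y3)
    (hsum : m ^ 2 + w.1 ^ 2 + w.2.1 ^ 2 + w.2.2 ^ 2 = 4 * D * 5 ^ (4 * k)) :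
    G2 v 4 D (mq m w) := by
  obtain ⟨t, ht⟩ := zc4_pow_mod16 k
  rw [hm, hw1, hw2, hw3] at hsum
  have hTS : (a * y0 - b * y1 - c * y2 - d * y3) + 2 * (y0 ^ 2 + y1 ^ 2 + y2 ^ 2 + y3 ^ 2)
      = 8 * (D * t) := by
    rw [ht] at hsum
    have : 8 * ((a * y0 - b * y1 - c * y2 - d * y3) + 2 * (y0 ^ 2 + y1 ^ 2 + y2 ^ 2 + y3 ^ 2))
        = 8 * (8 * (D * t)) := by linear_combination hsum - hN
    linarith
  have o1 := zc4_odd_mul_mod a y0 ha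
  have o2 := zc4_odd_mul_mod b y1 hb
  have o3 := zc4_odd_mul_mod c y2 hc
  have o4 := zc4_odd_mul_mod d y3 hd
  have s0 := zc4_sq_mod2 y0
  have s1 := zc4_sq_mod2 y1
  have s2 := zc4_sq_mod2 y2
  have s3 := zc4_sq_mod2 y3
  have z0 : (mq m w).re = a + 4 * y0 := hm
  have z1 : (mq m w).imI = -b + 4 * y1 := hw1
  have z2 : (mq m w).imJ = -c + 4 * y2 := hw2
  have z3 : (mq m w).imK = -d + 4 * y3 := hw3
  obtain ⟨w, w0, w1, w2, w3⟩ := zc4_exq (D + (a * y0 - b * y1 - c * y2 - d * y3))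
    (a * y1 + b * y0 + c * y3 - d * y2) (a * y2 - b * y3 + c * y0 + d * y1)
    (a * y3 + b * y2 - c * y1 + d * y0)
  refine ⟨w, ?_, ?_, ?_, ?_, ?_⟩
  · ext
    · simp only [Quaternion.re_mul, Quaternion.re_smul, smul_eq_mul, eva, evb, evc, evd, z0, z1,
        z2, z3, w0]
      linear_combination hN
    · simp only [Quaternion.imI_mul, Quaternion.imI_smul, smul_eq_mul, eva, evb, evc, evd, z0, z1,
        z2, z3, w1]
      ring
    · simp only [Quaternion.imJ_mul, Quaternion.imJ_smul, smul_eq_mul, eva, evb, evc, evd, z0, z1,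
        z2, z3, w2]
      ring
    · simp only [Quaternion.imK_mul, Quaternion.imK_smul, smul_eq_mul, eva, evb, evc, evd, z0, z1,
        z2, z3, w3]
      ring
  · rw [w0]
    omega
  · rw [w1]
    have p1 := zc4_odd_mul_mod a y1 ha
    have p2 := zc4_odd_mul_mod b y0 hb
    have p3 := zc4_odd_mul_mod c y3 hc
    have p4 := zc4_odd_mul_mod d y2 hd
    omega
  · rw [w2]
    have p1 := zc4_odd_mul_mod a y2 ha
    have p2 := zc4_odd_mul_mod b y3 hb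
    have p3 := zc4_odd_mul_mod c y0 hc
    have p4 := zc4_odd_mul_mod d y1 hd
    omega
  · rw [w3]
    have p1 := zc4_odd_mul_mod a y3 ha
    have p2 := zc4_odd_mul_mod b y2 hb
    have p3 := zc4_odd_mul_mod c y1 hc
    have p4 := zc4_odd_mul_mod d y0 hd
    omega

/-- TARGET -/
theorem zc4 (v : ℍ[ℤ]) (D : ℕ) (hD : Odd D) (hv : PrimQ v) (hN : Quaternion.normSq v = 4 * D) :
    ∃ r : ℤ, ∀ δ : ℝ, 0 < δ → ∃ c₀ : ℝ, 0 < c₀ ∧ ∀ (k : ℕ) (m : ℤ) (n : ℕ), m % 16 = r % 16 →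
      (n : ℤ) = 4 * D * 5 ^ (4 * k) - m ^ 2 → 1 ≤ n → c₀ * (n : ℝ) ^ (1 / 2 - δ) ≤ (ZS v 4 D m n).card := by
  classical
  rw [Quaternion.normSq_def'] at hN
  obtain ⟨a, eva⟩ : ∃ a, v.re = a := ⟨_, rfl⟩
  obtain ⟨b, evb⟩ : ∃ a, v.imI = a := ⟨_, rfl⟩
  obtain ⟨c, evc⟩ : ∃ a, v.imJ = a := ⟨_, rfl⟩
  obtain ⟨d, evd⟩ : ∃ a, v.imK = a := ⟨_, rfl⟩
  rw [eva, evb, evc, evd] at hN
  have hDm : (D : ℤ) % 2 = 1 := by
    obtain ⟨e, he⟩ := hD; omega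
  -- all coordinates odd
  have hodd : a % 2 = 1 ∧ b % 2 = 1 ∧ c % 2 = 1 ∧ d % 2 = 1 := by
    have h2 : ¬ (a % 2 = 0 ∧ b % 2 = 0 ∧ c % 2 = 0 ∧ d % 2 = 0) := by
      rintro ⟨h1, h2, h3, h4⟩
      refine hv 2 Nat.prime_two ⟨?_, ?_, ?_, ?_⟩
      · rw [eva]; exact_mod_cast Int.dvd_of_emod_eq_zero h1
      · rw [evb]; exact_mod_cast Int.dvd_of_emod_eq_zero h2
      · rw [evc]; exact_mod_cast Int.dvd_of_emod_eq_zero h3
      · rw [evd]; exact_mod_cast Int.dvd_of_emod_eq_zero h4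
    have := zc4_sq_mod8 a
    have := zc4_sq_mod8 b
    have := zc4_sq_mod8 c
    have := zc4_sq_mod8 d
    omega
  obtain ⟨ha, hb, hc, hd⟩ := hodd
  refine ⟨a, fun δ hδ => ?_⟩
  obtain ⟨c₁, hc₁, hlow⟩ := r3_lower_gen δ hδ
  refine ⟨c₁ / 8, by positivity, fun k m n hm hn hn1 => ?_⟩
  obtain ⟨t, ht⟩ := zc4_pow_mod16 k
  have hm2 : m % 2 = 1 := by omega
  have hn8 : n % 8 = 3 := by
    have h1 : (4 * D * 5 ^ (4 * k) : ℤ) = 64 * (D * t) + 4 * D := by rw [ht]; ring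
    have h2 : m ^ 2 % 8 = 1 := by
      rcases zc4_sq_mod8 m with h | h
      · exact h.2
      · omega
    omega
  have hS := hlow n hn1 (prim_three hn8)
  obtain ⟨y0, hy0⟩ : ∃ y0 : ℤ, m = a + 4 * y0 := ⟨(m - a) / 4, by omega⟩
  have hcard : (S3 n).card ≤ (ZS v 4 D m n).card * 8 := by
    have h8 : (Finset.univ : Finset (Bool × Bool × Bool)).card = 8 := by decide
    rw [← h8, ← Finset.card_product]
    refine Finset.card_le_card_of_injOn (fun y : ℤ × ℤ × ℤ =>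
      ((zc4_sg b y.1, zc4_sg c y.2.1, zc4_sg d y.2.2),
        (decide ((y.1 + b) % 4 = 0), decide ((y.2.1 + c) % 4 = 0),
          decide ((y.2.2 + d) % 4 = 0)))) ?_ ?_
    · intro y hy
      have hy' : y.1 ^ 2 + y.2.1 ^ 2 + y.2.2 ^ 2 = n := mem_S3.1 hy
      have hxo : y.1 % 2 = 1 ∧ y.2.1 % 2 = 1 ∧ y.2.2 % 2 = 1 := by
        have := zc4_sq_mod8 y.1
        have := zc4_sq_mod8 y.2.1
        have := zc4_sq_mod8 y.2.2
        omega
      obtain ⟨y1, hy1⟩ := zc4_sg_mod b y.1 hb hxo.1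
      obtain ⟨y2, hy2⟩ := zc4_sg_mod c y.2.1 hc hxo.2.1
      obtain ⟨y3, hy3⟩ := zc4_sg_mod d y.2.2 hd hxo.2.2
      refine Finset.mem_coe.2 (Finset.mem_product.2 ⟨Finset.mem_filter.2 ⟨?_, ?_⟩,
        Finset.mem_univ _⟩)
      · rw [mem_S3]
        simp only [zc4_sg_sq]
        exact hy'
      · refine zc4_G2 v D hDm a b c d eva evb evc evd ha hb hc hd hN k m y0 y1 y2 y3 hy0 _
          hy1 hy2 hy3 ?_
        simp only [zc4_sg_sq]
        linarith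
    · intro y _ z _ hyz
      simp only [Prod.mk.injEq] at hyz
      obtain ⟨⟨h1, h2, h3⟩, h4, h5, h6⟩ := hyz
      exact Prod.ext (zc4_sg_inj b _ _ h1 h4) (Prod.ext (zc4_sg_inj c _ _ h2 h5)
        (zc4_sg_inj d _ _ h3 h6))
  have hcard' : ((S3 n).card : ℝ) ≤ ((ZS v 4 D m n).card : ℝ) * 8 := by exact_mod_cast hcard
  have : c₁ / 8 * (n : ℝ) ^ (1 / 2 - δ) = (c₁ * (n : ℝ) ^ (1 / 2 - δ)) / 8 := by ring
  rw [this]
  linarith

end Pool.Agent.H978V
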