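import Pool.Agent.H978V.L10a
import Pool.Agent.H978V.L10b
import Pool.Agent.H978V.L10c

/-!
# Many suitable quaternions, uniformly in the rational point
-/

set_option autoImplicit false

open scoped Quaternion

namespace Pool.Agent.H978V

open Pool.Agent.Helper557.Rz

theorem zu1 (δ : ℝ) (c : ℝ) (hc : 0 < c) (h : ∀ n : ℕ, 1 ≤ n →
    (∃ x y z : ℤ, x ^ 2 + y ^ 2 + z ^ 2 = n ∧ Int.gcd (Int.gcd x y) z = 1) →
    c * (n : ℝ) ^ (1 / 2 - δ) ≤ ((S3 n).card : ℝ)) (hδ : 0 < δ) (v : ℍ[ℤ]) (D : ℕ) (hD : Odd D)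
    (hN : Quaternion.normSq v = D) :
    ∃ r : ℤ, ∀ (k : ℕ) (m : ℤ) (n : ℕ), m % 16 = r % 16 →
      (n : ℤ) = D * 5 ^ (4 * k) - m ^ 2 → 1 ≤ n →
      (c / 48) * (n : ℝ) ^ (1 / 2 - δ) ≤ (ZS v 1 D m n).card := by
  have hD2 : (D : ℤ) % 2 = 1 := by
    have := Nat.odd_iff.1 hD
    omega
  have hN' : v.re ^ 2 + v.imI ^ 2 + v.imJ ^ 2 + v.imK ^ 2 = (D : ℤ) := by
    rw [← hN, Quaternion.normSq_def']
  obtain ⟨k0, e0, hk0, he0, hf0⟩ := r7a_sq4 v.re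
  obtain ⟨k1, e1, hk1, he1, hf1⟩ := r7a_sq4 v.imI
  obtain ⟨k2, e2, hk2, he2, hf2⟩ := r7a_sq4 v.imJ
  obtain ⟨k3, e3, hk3, he3, hf3⟩ := r7a_sq4 v.imK
  have hD4 : (D : ℤ) = 4 * (k0 + k1 + k2 + k3) + (e0 + (e1 + e2 + e3)) := by linarith
  by_cases hs : e1 + e2 + e3 = 0
  · have h01 : e0 = 1 := by clear he0 he1 he2 he3 hk0 hk1 hk2 hk3 hN'; omega
    have g1 : e1 = 0 := by clear he0 he1 he2 he3 hk0 hk1 hk2 hk3 hN' hD4; omega
    have g2 : e2 = 0 := by clear he0 he1 he2 he3 hk0 hk1 hk2 hk3 hN' hD4; omega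
    have g3 : e3 = 0 := by clear he0 he1 he2 he3 hk0 hk1 hk2 hk3 hN' hD4; omega
    have hD41 : (D : ℤ) % 4 = 1 := by
      rw [hD4, h01, hs]
      clear he0 he1 he2 he3 hk0 hk1 hk2 hk3 hN' hD4
      omega
    obtain ⟨r, hr⟩ := zc1_caseA v D k0 (by rw [hk0, h01]) (he0.trans h01) hD41 (he1.trans g1)
      (he2.trans g2) (he3.trans g3)
    refine ⟨r, fun k m N hm hmN hN1 => ?_⟩
    have hcc : (c / 48) * (N : ℝ) ^ (1 / 2 - δ) ≤ c * (1 / 4 : ℝ) ^ (1 / 2 - δ) * (N : ℝ) ^ (1 / 2 - δ) := by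
      refine mul_le_mul_of_nonneg_right ?_ (by positivity)
      have h0 : (1 / 4 : ℝ) ^ (1 : ℝ) ≤ (1 / 4 : ℝ) ^ (1 / 2 - δ) :=
        Real.rpow_le_rpow_of_exponent_ge (by norm_num) (by norm_num) (by linarith)
      rw [Real.rpow_one] at h0
      have := mul_le_mul_of_nonneg_left h0 hc.le
      linarith
    refine hcc.trans ?_
    obtain ⟨n, hn4, hn, hy⟩ := hr k m N hm hmN hN1
    have hn1 : 1 ≤ n := by omega
    have h1 := h n hn1 (prim3 n hn)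
    have h2 : (S3 n).card ≤ (ZS v 1 D m N).card := by
      refine Finset.card_le_card_of_injOn (fun y => (2 * y.1, 2 * y.2.1, 2 * y.2.2))
        (fun y hy' => hy y hy') ?_
      rintro ⟨x, y, z⟩ - ⟨x', y', z'⟩ - h3
      simp only [Prod.mk.injEq] at h3
      obtain ⟨h4, h5, h6⟩ := h3
      have h4' : x = x' := by omega
      have h5' : y = y' := by omega
      have h6' : z = z' := by omega
      rw [h4', h5', h6']
    have h3 : c * (1 / 4 : ℝ) ^ (1 / 2 - δ) * (N : ℝ) ^ (1 / 2 - δ) =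
        c * (n : ℝ) ^ (1 / 2 - δ) := by
      rw [mul_assoc, ← Real.mul_rpow (by norm_num) (by positivity), hn4]
      congr 2
      push_cast
      ring
    rw [h3]
    exact h1.trans (by exact_mod_cast h2)
  · obtain ⟨r, hr⟩ := zc1_caseB v D hN k0 k1 k2 k3 e0 e1 e2 e3 he0 he1 he2 he3 hf0 hf1 hf2 hf3 hD2
      hD4 hs
    refine ⟨r, fun k m n hm hmn hn1 => ?_⟩
    obtain ⟨hp, hy⟩ := hr k m n hm hmn hn1
    have h1 := h n hn1 hp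
    choose! f hf using hy
    have h2 := signed_perm_count f fun y hy => ⟨(hf y hy).1, (hf y hy).2⟩
    have h3 : ((S3 n).card : ℝ) ≤ 48 * ((ZS v 1 D m n).card : ℝ) := by exact_mod_cast h2
    linarith

theorem zu2 (δ : ℝ) (c : ℝ) (h : ∀ n : ℕ, 1 ≤ n →
    (∃ x y z : ℤ, x ^ 2 + y ^ 2 + z ^ 2 = n ∧ Int.gcd (Int.gcd x y) z = 1) →
    c * (n : ℝ) ^ (1 / 2 - δ) ≤ ((S3 n).card : ℝ)) (v : ℍ[ℤ]) (D : ℕ) (hD : Odd D)
    (hN : Quaternion.normSq v = 2 * D) :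
    ∃ r : ℤ, ∀ (k : ℕ) (m : ℤ) (n : ℕ), m % 16 = r % 16 →
      (n : ℤ) = 2 * D * 5 ^ (4 * k) - m ^ 2 → 1 ≤ n → ¬ IsSquare n →
      c / (27 * 216) * (n : ℝ) ^ (1 / 2 - δ) ≤ (ZS v 2 D m n).card := by
  have hD' : (D : ℤ) % 2 = 1 := by
    have := Nat.odd_iff.1 hD
    omega
  rw [Quaternion.normSq_def'] at hN
  obtain ⟨r, hr⟩ := L10b.core v.re v.imI v.imJ v.imK D hD' hN
  refine ⟨r, fun k m n hm hn hn1 hsq => ?_⟩
  obtain ⟨h4, T', h5, h6⟩ := hr k m n hm hn hsq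
  have h7 := h n hn1 (prim3 n h4)
  have h8 : T'.card ≤ 216 * (ZS v 2 D m n).card := by
    refine L10b.count _ _ fun y hy => ?_
    obtain ⟨x', y', z', g1, g2, g3⟩ := h6 y hy
    refine ⟨(x', y', z'), ?_, g3⟩
    classical
    unfold ZS
    rw [Finset.mem_filter, mem_S3]
    exact ⟨g1, z_type2_G2 g2⟩
  have h9 : (S3 n).card ≤ 27 * 216 * (ZS v 2 D m n).card := by
    have := Nat.mul_le_mul_left 27 h8
    omega
  have h10 : ((S3 n).card : ℝ) ≤ 27 * 216 * ((ZS v 2 D m n).card : ℝ) := by exact_mod_cast h9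
  have h11 : c / (27 * 216) * (n : ℝ) ^ (1 / 2 - δ) = c * (n : ℝ) ^ (1 / 2 - δ) / (27 * 216) := by
    ring
  rw [h11, div_le_iff₀ (by norm_num)]
  linarith

theorem zu4 (δ : ℝ) (c₁ : ℝ) (hlow : ∀ n : ℕ, 1 ≤ n →
    (∃ x y z : ℤ, x ^ 2 + y ^ 2 + z ^ 2 = n ∧ Int.gcd (Int.gcd x y) z = 1) →
    c₁ * (n : ℝ) ^ (1 / 2 - δ) ≤ ((S3 n).card : ℝ)) (v : ℍ[ℤ]) (D : ℕ) (hD : Odd D) (hv : PrimQ v)
    (hN : Quaternion.normSq v = 4 * D) :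
    ∃ r : ℤ, ∀ (k : ℕ) (m : ℤ) (n : ℕ), m % 16 = r % 16 →
      (n : ℤ) = 4 * D * 5 ^ (4 * k) - m ^ 2 → 1 ≤ n →
      c₁ / 8 * (n : ℝ) ^ (1 / 2 - δ) ≤ (ZS v 4 D m n).card := by
  classical
  rw [Quaternion.normSq_def'] at hN
  obtain ⟨a, eva⟩ : ∃ a, v.re = a := ⟨_, rfl⟩
  obtain ⟨b, evb⟩ : ∃ a, v.imI = a := ⟨_, rfl⟩
  obtain ⟨c, evc⟩ : ∃ a, v.imJ = a := ⟨_, rfl⟩
  obtain ⟨d, evd⟩ : ∃ a, v.imK = a := ⟨_, rfl⟩
  rw [eva, evb, evc, evd] at hN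
  have hDm : (D : ℤ) % 2 = 1 := by
    obtain ⟨e, he⟩ := hD; omega
  -- all coordinates odd
  have hodd : a % 2 = 1 ∧ b % 2 = 1 ∧ c % 2 = 1 ∧ d % 2 = 1 := by
    have h2 : ¬ (a % 2 = 0 ∧ b % 2 = 0 ∧ c % 2 = 0 ∧ d % 2 = 0) := by
      rintro ⟨h1, h2, h3, h4⟩
      refine hv 2 Nat.prime_two ⟨?_, ?_, ?_, ?_⟩
      · rw [eva]; exact_mod_cast Int.dvd_of_emod_eq_zero h1
      · rw [evb]; exact_mod_cast Int.dvd_of_emod_eq_zero h2
      · rw [evc]; exact_mod_cast Int.dvd_of_emod_eq_zero h3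
      · rw [evd]; exact_mod_cast Int.dvd_of_emod_eq_zero h4
    have := zc4_sq_mod8 a
    have := zc4_sq_mod8 b
    have := zc4_sq_mod8 c
    have := zc4_sq_mod8 d
    omega
  obtain ⟨ha, hb, hc, hd⟩ := hodd
  refine ⟨a, fun k m n hm hn hn1 => ?_⟩
  obtain ⟨t, ht⟩ := zc4_pow_mod16 k
  have hm2 : m % 2 = 1 := by omega
  have hn8 : n % 8 = 3 := by
    have h1 : (4 * D * 5 ^ (4 * k) : ℤ) = 64 * (D * t) + 4 * D := by rw [ht]; ring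
    have h2 : m ^ 2 % 8 = 1 := by
      rcases zc4_sq_mod8 m with h | h
      · exact h.2
      · omega
    omega
  have hS := hlow n hn1 (prim_three hn8)
  obtain ⟨y0, hy0⟩ : ∃ y0 : ℤ, m = a + 4 * y0 := ⟨(m - a) / 4, by omega⟩
  have hcard : (S3 n).card ≤ (ZS v 4 D m n).card * 8 := by
    have h8 : (Finset.univ : Finset (Bool × Bool × Bool)).card = 8 := by decide
    rw [← h8, ← Finset.card_product]
    refine Finset.card_le_card_of_injOn (fun y : ℤ × ℤ × ℤ =>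
      ((zc4_sg b y.1, zc4_sg c y.2.1, zc4_sg d y.2.2),
        (decide ((y.1 + b) % 4 = 0), decide ((y.2.1 + c) % 4 = 0),
          decide ((y.2.2 + d) % 4 = 0)))) ?_ ?_
    · intro y hy
      have hy' : y.1 ^ 2 + y.2.1 ^ 2 + y.2.2 ^ 2 = n := mem_S3.1 hy
      have hxo : y.1 % 2 = 1 ∧ y.2.1 % 2 = 1 ∧ y.2.2 % 2 = 1 := by
        have := zc4_sq_mod8 y.1
        have := zc4_sq_mod8 y.2.1
        have := zc4_sq_mod8 y.2.2
        omega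
      obtain ⟨y1, hy1⟩ := zc4_sg_mod b y.1 hb hxo.1
      obtain ⟨y2, hy2⟩ := zc4_sg_mod c y.2.1 hc hxo.2.1
      obtain ⟨y3, hy3⟩ := zc4_sg_mod d y.2.2 hd hxo.2.2
      refine Finset.mem_coe.2 (Finset.mem_product.2 ⟨Finset.mem_filter.2 ⟨?_, ?_⟩,
        Finset.mem_univ _⟩)
      · rw [mem_S3]
        simp only [zc4_sg_sq]
        exact hy'
      · refine zc4_G2 v D hDm a b c d eva evb evc evd ha hb hc hd hN k m y0 y1 y2 y3 hy0 _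
          hy1 hy2 hy3 ?_
        simp only [zc4_sg_sq]
        linarith
    · intro y _ z _ hyz
      simp only [Prod.mk.injEq] at hyz
      obtain ⟨⟨h1, h2, h3⟩, h4, h5, h6⟩ := hyz
      exact Prod.ext (zc4_sg_inj b _ _ h1 h4) (Prod.ext (zc4_sg_inj c _ _ h2 h5)
        (zc4_sg_inj d _ _ h3 h6))
  have hcard' : ((S3 n).card : ℝ) ≤ ((ZS v 4 D m n).card : ℝ) * 8 := by exact_mod_cast hcard
  have : c₁ / 8 * (n : ℝ) ^ (1 / 2 - δ) = (c₁ * (n : ℝ) ^ (1 / 2 - δ)) / 8 := by ring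
  rw [this]
  linarith

/-- the vectors `y` for which `m + y` is suitable for `v` are many, uniformly in `v` -/
theorem zset_g (δ : ℝ) (hδ : 0 < δ) : ∃ κ : ℝ, 0 < κ ∧ ∀ (v : ℍ[ℤ]) (c : ℤ) (D : ℕ), PrimQ v →
    (c = 1 ∨ c = 2 ∨ c = 4) → Odd D → Quaternion.normSq v = c * D → ∃ r : ℤ,
    ∀ (k : ℕ) (m : ℤ) (n : ℕ), m % 16 = r % 16 → (n : ℤ) = c * D * 5 ^ (4 * k) - m ^ 2 → 1 ≤ n →
      ¬ IsSquare n → κ * (n : ℝ) ^ (1 / 2 - δ) ≤ ((ZS v c D m n).card : ℝ) := by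
  obtain ⟨c₀, hc₀, h⟩ := r3_lower_gen δ hδ
  refine ⟨c₀ / (27 * 216), by positivity, fun v c D hv hc hD hN => ?_⟩
  have hle : ∀ (a : ℝ) (n : ℕ), 0 < a → a ≤ 27 * 216 →
      c₀ / (27 * 216) * (n : ℝ) ^ (1 / 2 - δ) ≤ c₀ / a * (n : ℝ) ^ (1 / 2 - δ) := by
    intro a n ha ha'
    refine mul_le_mul_of_nonneg_right ?_ (by positivity)
    exact div_le_div_of_nonneg_left hc₀.le ha ha'
  rcases hc with rfl | rfl | rfl
  · obtain ⟨r, hr⟩ := zu1 δ c₀ hc₀ h hδ v D hD (by rw [hN]; ring)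
    refine ⟨r, fun k m n hm hn hn1 _ => ?_⟩
    exact (hle 48 n (by norm_num) (by norm_num)).trans (hr k m n hm (by rw [hn]; ring) hn1)
  · obtain ⟨r, hr⟩ := zu2 δ c₀ h v D hD hN
    exact ⟨r, fun k m n hm hn hn1 hsq => hr k m n hm hn hn1 hsq⟩
  · obtain ⟨r, hr⟩ := zu4 δ c₀ h v D hD hv hN
    refine ⟨r, fun k m n hm hn hn1 _ => ?_⟩
    exact (hle 8 n (by norm_num) (by norm_num)).trans (hr k m n hm hn hn1)

end Pool.Agent.H978V
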