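import Pool.Agent.H978V.MDefs
import Pool.Agent.H978V.M1
import Pool.Agent.H978V.M5
import Pool.Agent.H978V.C3a
import Pool.Agent.H978V.F3
import Pool.Agent.H978V.L11a
import Pool.Agent.H978V.L2
import Pool.Agent.H978V.M10
import Pool.Agent.H978V.M4
import Pool.Agent.H978V.M8

/-!
JOB M12 (owner helper978, MP_06cce2_nt).  `H978V/*.lean` (library, with `MDefs`, `M1`, `M5`) is on origin/main.

Assembly: words near points of rational great circles.  READ `H978V/F3.lean` (the proof of `axial`, main case) FIRST: the proof has the same structure; the helper lemmas `axial_j`, `axial_angle`, `axial_m` there can be used (with `s = 1`).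

PROOF.  WLOG `δ ≤ 1` (replace `δ` by `min δ 1`; `logb 5 (1/ε) ≥ 0`).  Constants, in this order: `δ'` from `hit_final_g (δ/192)`; `κ` from `zset_g δ'`; `K₂` from `hit_final_g` with `c = κ`; `K_e ≥ 1` from `energy_circ δ'`; `K₁` from `sieve_m (δ/2/64)` (`C3a`); `ε₁, C, δ₂` from `numerics_g (δ/2) K₁`.
`δ₁ = min δ₂ (δ/(32 K₂ + 32))`-like: small enough that `8 K₂ δ₁ log (1/ε) ≤ (δ/2) logb 5 (1/ε)` (`logb 5 x = log x/log 5`, `log 5 ≤ 2`) and `δ₁ ≤ δ₂`.  `ε₀ = ε₁`.  (`ε^(1-δ₁) ≤ ε^(1-δ₂)` as `ε < 1`; `ε^(-δ₁) ≤ ..`.)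
Given `v, h, N₁, φ, ε`: `norm_cD` (`R6`): `normSq v = c D`; `d : ℕ` with `(d : ℤ) = normSq v`; `D ≤ d`, `D` coprime to `5`.  `t = (r, s)` from `split_rs` (`R1`), `e` from `ker_g` (`M5`; `PrimMod D v` from `PrimQ v`).  `Fx t e (N₁ • pq h)`: from `ker_g`, as `v * (N₁ • pq h) * star v = N₁ • (v * pq h * star v)` and `D ∣ normSq v`.
`numerics_g`: `N, ψ₁, ψ₂, k`; `N₀ = d 5^(4k)`; `r` from `zset_g`; `m` from `sieve_m D N₀ r` with the interval `[√N₀ cos ψ₂, √N₀ cos ψ₁]`; `m² < N₀` (`axial_m`), `n = N₀ - m² ≥ 1` (natural), not a square; `ψ` from `axial_angle` (`s = 1`): `cos ψ = m/√N₀`, `sin ψ = √n/√N₀`, `d N ≤ √n`, `n ≤ N₀`.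
`Z = ZS v c D m n ⊆ S3 n`.  `j` from `axial_j` for `D N`.  `P = K_e (H N₁)²` (`H = dt h h`), `1 ≤ P`.  `p₀ = hp h` if `0 ≤ φ`, `p₀ = - hp h` otherwise (`Sp (-p) = Sp p`, `UP p₀`).  `hit_final_g` gives `y ∈ Z`, `γ`; `close_hole` (`L11a`) gives the quaternion `q`, `L = 4k + 2|γ|`,
`qh L q = vh v * (cos ψ + sin ψ • r)`, `r = rt γ (hat n y)` a unit pure quaternion.
Distance: `‖vh v * rq (hp h) φ - qh L q‖ = ‖rq (hp h) φ - (cos ψ + sin ψ • r)‖` (`‖vh v‖ = 1`), whose square is `2 - 2 cos ψ cos φ - 2 sin ψ sin φ ⟨r, hp h⟩ = 2 - 2 cos ψ cos φ - 2 sin ψ |sin φ| η`, `η = ⟨r, p₀⟩ = 1 - ‖r - p₀‖²/2` (`sin φ` has the sign of `φ` as `|φ| ≤ 2`), `-1 ≤ η ≤ 1`.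
`wt N (‖r - p₀‖²/16) = wt N ((1 - η)/8) ≥ 1/(2D²) ≥ 1/(2d²)`, so `numerics_g` gives `< ε²`.
Length: `4k + 2|γ| ≤ 4k + 2j + 2(δ/192) log n + 2 K₂ log P + 2 K₂`; `(δ/2)/48 log N₀ ≥ 2 (δ/192) log n`; `log P ≤ log K_e + 4 δ₁ log (1/ε)`.
-/

set_option autoImplicit false

open MeasureTheory Set
open scoped Quaternion

namespace Pool.Agent.H978V

open Pool.Agent.Helper557.Rz





theorem m12_dir (y : ℤ × ℤ × ℤ) (s : ℝ) (hs : 0 < s) (h : ((dt y y : ℤ) : ℝ) = s) :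
    UP ((1 / Real.sqrt s) • cz (pq y)) := by
  have hs' : 0 < Real.sqrt s := Real.sqrt_pos.2 hs
  constructor
  · rw [Quaternion.re_smul]
    simp [cz, pq]
  · rw [norm_smul, Real.norm_of_nonneg (by positivity)]
    have h1 : ‖cz (pq y)‖ = Real.sqrt s := by
      have h2 : ‖cz (pq y)‖ * ‖cz (pq y)‖ = s := by
        rw [← Quaternion.normSq_eq_norm_mul_self, Quaternion.normSq_def', ← h]
        simp only [cz, pq, dt]
        push_cast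
        ring
      rw [← h2, Real.sqrt_mul_self (norm_nonneg _)]
    rw [h1, one_div, inv_mul_cancel₀ hs'.ne']

/-- scalar product of the imaginary parts -/
noncomputable def m12_ip (p r : ℍ[ℝ]) : ℝ := p.imI * r.imI + p.imJ * r.imJ + p.imK * r.imK

theorem m12_up {p : ℍ[ℝ]} (hp : UP p) : p.imI ^ 2 + p.imJ ^ 2 + p.imK ^ 2 = 1 := by
  obtain ⟨h0, h1⟩ := hp
  have h2 := Quaternion.normSq_eq_norm_mul_self p
  rw [h1, Quaternion.normSq_def', h0] at h2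
  linarith

theorem m12_normsq (x : ℍ[ℝ]) : ‖x‖ ^ 2 = x.re ^ 2 + x.imI ^ 2 + x.imJ ^ 2 + x.imK ^ 2 := by
  rw [pow_two, ← Quaternion.normSq_eq_norm_mul_self, Quaternion.normSq_def']

theorem m12_dist (p r : ℍ[ℝ]) (hp : UP p) (hr : UP r) (φ ψ : ℝ) :
    ‖rq p φ - (((Real.cos ψ : ℝ) : ℍ[ℝ]) + (Real.sin ψ : ℝ) • r)‖ ^ 2 =
      2 - 2 * Real.cos ψ * Real.cos φ - 2 * Real.sin ψ * Real.sin φ * m12_ip p r := by
  have h1 := m12_up hp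
  have h2 := m12_up hr
  have h3 := Real.sin_sq_add_cos_sq φ
  have h4 := Real.sin_sq_add_cos_sq ψ
  rw [m12_normsq]
  unfold rq m12_ip
  simp only [Quaternion.re_sub, Quaternion.re_add, Quaternion.re_coe, Quaternion.re_smul,
    Quaternion.imI_sub, Quaternion.imI_add, Quaternion.imI_coe, Quaternion.imI_smul,
    Quaternion.imJ_sub, Quaternion.imJ_add, Quaternion.imJ_coe, Quaternion.imJ_smul,
    Quaternion.imK_sub, Quaternion.imK_add, Quaternion.imK_coe, Quaternion.imK_smul, hp.1, hr.1,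
    smul_eq_mul]
  linear_combination Real.sin φ ^ 2 * h1 + Real.sin ψ ^ 2 * h2 + h3 + h4

theorem m12_sub (p r : ℍ[ℝ]) (hp : UP p) (hr : UP r) : ‖r - p‖ ^ 2 = 2 - 2 * m12_ip p r := by
  have h1 := m12_up hp
  have h2 := m12_up hr
  rw [m12_normsq]
  unfold m12_ip
  simp only [Quaternion.re_sub, Quaternion.imI_sub, Quaternion.imJ_sub, Quaternion.imK_sub, hp.1,
    hr.1]
  linear_combination h1 + h2

theorem m12_neg {p : ℍ[ℝ]} (hp : UP p) : UP (-p) :=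
  ⟨by rw [Quaternion.re_neg, hp.1, neg_zero], by rw [norm_neg]; exact hp.2⟩

theorem m12_ip_neg (p r : ℍ[ℝ]) : m12_ip (-p) r = -m12_ip p r := by
  unfold m12_ip
  simp only [Quaternion.imI_neg, Quaternion.imJ_neg, Quaternion.imK_neg]
  ring

theorem m12_ip_le (p r : ℍ[ℝ]) (hp : UP p) (hr : UP r) : |m12_ip p r| ≤ 1 := by
  have h1 := m12_sub p r hp hr
  have h2 := m12_sub (-p) r (m12_neg hp) hr
  rw [m12_ip_neg] at h2
  have h3 := sq_nonneg ‖r - p‖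
  have h4 := sq_nonneg ‖r - -p‖
  rw [abs_le]
  constructor <;> linarith

theorem m12_Sp_neg (p : ℍ[ℝ]) (q : ℍ[ℤ]) : Sp (-p) q = Sp p q := by
  unfold Sp
  simp only [Quaternion.imI_neg, Quaternion.imJ_neg, Quaternion.imK_neg]
  ring

theorem m12_logP (Ke a b ε δ₁ : ℝ) (hKe : 1 ≤ Ke) (ha : 1 ≤ a) (hb : 1 ≤ b) (hε : 0 < ε)
    (ha' : a ≤ ε ^ (-δ₁)) (hb' : b ≤ ε ^ (-δ₁)) :
    Real.log (Ke * (a * b) ^ 2) ≤ Real.log Ke + 4 * δ₁ * Real.log (1 / ε) := by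
  have h1 : Real.log (ε ^ (-δ₁)) = δ₁ * Real.log (1 / ε) := by
    rw [Real.log_rpow hε, one_div, Real.log_inv]
    ring
  have h2 : Real.log a ≤ δ₁ * Real.log (1 / ε) := by
    rw [← h1]
    exact Real.log_le_log (by linarith) ha'
  have h3 : Real.log b ≤ δ₁ * Real.log (1 / ε) := by
    rw [← h1]
    exact Real.log_le_log (by linarith) hb'
  have hab : a * b ≠ 0 := by positivity
  rw [Real.log_mul (by positivity) (pow_ne_zero _ hab), Real.log_pow,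
    Real.log_mul (by positivity) (by positivity)]
  push_cast
  linarith

theorem m12_num (δ₀ K₂ δ₁ ε : ℝ) (hδ₀ : 0 < δ₀) (hK₂ : 0 < K₂) (hδ₁ : δ₁ ≤ δ₀ / (32 * K₂ + 32))
    (hε : 0 < ε) (hε1 : ε ≤ 1) :
    8 * K₂ * δ₁ * Real.log (1 / ε) ≤ δ₀ / 2 * Real.logb 5 (1 / ε) := by
  have hL : 0 ≤ Real.log (1 / ε) := Real.log_nonneg (by rw [le_div_iff₀ hε]; linarith)
  have h5 : Real.log 5 ≤ 2 := by
    rw [← Real.log_exp 2]
    apply Real.log_le_log (by norm_num)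
    have h1 : Real.exp 2 = Real.exp 1 * Real.exp 1 := by rw [← Real.exp_add]; norm_num
    have h2 := Real.exp_one_gt_d9
    rw [h1]
    nlinarith
  have h50 : 0 < Real.log 5 := Real.log_pos (by norm_num)
  have h1 : 8 * K₂ * δ₁ ≤ δ₀ / 4 := by
    rw [le_div_iff₀ (by positivity)] at hδ₁
    rcases le_or_gt 0 δ₁ with h | h
    · nlinarith
    · nlinarith
  have h2 : Real.log (1 / ε) / 2 ≤ Real.logb 5 (1 / ε) := by
    unfold Real.logb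
    exact div_le_div_of_nonneg_left hL h50 h5
  have h3 := mul_le_mul_of_nonneg_right h1 hL
  have h4 := mul_le_mul_of_nonneg_left h2 (show (0 : ℝ) ≤ δ₀ / 2 by positivity)
  linarith

theorem m12_dvd_smul (D : ℤ) (v : ℍ[ℤ]) (N₁ : ℤ) (x : ℍ[ℤ]) (M : ℤ) (hD : D ∣ M)
    (h : DvdQ M (N₁ • (v * x * star v))) : DvdQ D (v * (N₁ • x) * star v) := by
  rw [mul_smul_comm, smul_mul_assoc]
  obtain ⟨h1, h2, h3, h4⟩ := h
  exact ⟨hD.trans h1, hD.trans h2, hD.trans h3, hD.trans h4⟩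

theorem m12_vh (v : ℍ[ℤ]) (h : 0 < Quaternion.normSq v) : ‖vh v‖ = 1 := by
  have h0 : (0 : ℝ) < ((Quaternion.normSq v : ℤ) : ℝ) := by exact_mod_cast h
  have h1 : ‖cz v‖ * ‖cz v‖ = ((Quaternion.normSq v : ℤ) : ℝ) := by
    rw [← Quaternion.normSq_eq_norm_mul_self, Quaternion.normSq_def', Quaternion.normSq_def']
    simp [cz]
  have h2 : ‖cz v‖ = Real.sqrt ((Quaternion.normSq v : ℤ) : ℝ) := by
    rw [← h1, Real.sqrt_mul_self (norm_nonneg _)]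
  unfold vh
  rw [norm_smul, h2, Real.norm_of_nonneg (by positivity)]
  have h3 : Real.sqrt ((Quaternion.normSq v : ℤ) : ℝ) ≠ 0 := (Real.sqrt_pos.mpr h0).ne'
  field_simp

/-- TARGET -/
theorem circ_main (δ : ℝ) (hδ : 0 < δ) : ∃ ε₀ C δ₁ : ℝ, 0 < ε₀ ∧ ε₀ < 1 ∧ 0 < δ₁ ∧ δ₁ ≤ 1 / 16 ∧
    ∀ (v : ℍ[ℤ]), PrimQ v → ¬ (5 : ℤ) ∣ Quaternion.normSq v → ∀ (h : ℤ × ℤ × ℤ) (N₁ : ℕ),
    1 ≤ N₁ → 0 < dt h h → DvdQ (Quaternion.normSq v) ((N₁ : ℤ) • (v * pq h * star v)) →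
    ∀ φ ε : ℝ, 0 < ε → ε ≤ ε₀ → |φ| ≤ 2 → (dt h h : ℝ) ≤ ε ^ (-δ₁) → (N₁ : ℝ) ≤ ε ^ (-δ₁) →
    ((Quaternion.normSq v : ℤ) : ℝ) * max |φ| ε ^ 2 ≤ ε ^ (1 - δ₁) →
    ∃ (L : ℕ) (q : ℍ[ℤ]), Gd q ∧ Quaternion.normSq q = 5 ^ L ∧
      (L : ℝ) ≤ Real.logb 5 (((Quaternion.normSq v : ℤ) : ℝ) * max |φ| ε ^ 2) +
        (6 + δ) * Real.logb 5 (1 / ε) + C ∧
      ‖vh v * rq (hp h) φ - qh L q‖ < ε := by
  obtain ⟨δ₀, hδ₀, hδ₀1, hδ₀δ⟩ : ∃ δ₀ : ℝ, 0 < δ₀ ∧ δ₀ ≤ 1 ∧ δ₀ ≤ δ :=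
    ⟨min δ 1, lt_min hδ one_pos, min_le_right _ _, min_le_left _ _⟩
  obtain ⟨δ', hδ', hit⟩ := hit_final_g (δ₀ / 192) (by positivity)
  obtain ⟨κ, hκ, hz⟩ := zset_g δ' hδ'
  obtain ⟨K₂, hK₂, hit⟩ := hit κ hκ
  obtain ⟨Ke, hKe, hen⟩ := energy_circ δ' hδ'
  obtain ⟨K₁, hK₁, hsieve⟩ := sieve_m (δ₀ / 2 / 64) (by positivity)
  obtain ⟨ε₀, C, δ₂, hε₀, hε₀1, hδ₂, hδ₂1, hnum⟩ :=
    numerics_g (δ₀ / 2) (by positivity) (by linarith) K₁ hK₁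
  obtain ⟨δ₁, hδ₁, hδ₁δ₂, hδ₁K⟩ : ∃ δ₁ : ℝ, 0 < δ₁ ∧ δ₁ ≤ δ₂ ∧ δ₁ ≤ δ₀ / (32 * K₂ + 32) :=
    ⟨min δ₂ (δ₀ / (32 * K₂ + 32)), lt_min hδ₂ (by positivity), min_le_left _ _, min_le_right _ _⟩
  refine ⟨ε₀, C + 2 * K₂ * Real.log Ke + 2 * K₂, δ₁, hε₀, hε₀1, hδ₁, hδ₁δ₂.trans hδ₂1, ?_⟩
  intro v hv h5 h N₁ hN₁ hdt hDv φ ε hε hεε₀ hφ2 hdtε hN₁ε hsize
  have hε1 : ε ≤ 1 := hεε₀.trans hε₀1.le
  obtain ⟨c, D, hc, hDodd, hcD⟩ := norm_cD v hv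
  have hD1 : 1 ≤ D := hDodd.pos
  have hc1 : 1 ≤ c := by rcases hc with rfl | rfl | rfl <;> norm_num
  have hcDpos : 0 < c * (D : ℤ) := mul_pos (by linarith) (by exact_mod_cast hD1)
  have hvpos : 0 < Quaternion.normSq v := by rw [hcD]; exact hcDpos
  obtain ⟨d, hd⟩ := Int.eq_ofNat_of_zero_le hvpos.le
  have hd' : (d : ℤ) = c * D := by rw [← hcD, hd]
  have hDd : D ≤ d := by
    have h1 : (D : ℤ) ≤ d := by
      rw [hd']
      have : (0 : ℤ) ≤ D := Nat.cast_nonneg D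
      nlinarith
    exact_mod_cast h1
  have hd1 : 1 ≤ d := hD1.trans hDd
  have : NeZero D := ⟨by omega⟩
  have hD5 : Nat.Coprime D 5 := by
    rw [Nat.coprime_comm, Nat.Prime.coprime_iff_not_dvd (by norm_num)]
    intro h6
    apply h5
    rw [hcD]
    exact Dvd.dvd.mul_left (by exact_mod_cast h6) _
  obtain ⟨r₀, s₀, hrs⟩ := split_rs D hDodd
  obtain ⟨t, ht⟩ : ∃ t : ZMod D × ZMod D, Q.Sq t := ⟨(r₀, s₀), hrs⟩
  have hDN' : (D : ℤ) ∣ Quaternion.normSq v := by rw [hcD]; exact dvd_mul_left _ _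
  obtain ⟨e, he, hve, hFx⟩ := ker_g D hDodd t ht v (fun p hp _ => hv p hp) hDN'
  have hFxh : Fx t e ((N₁ : ℤ) • pq h) := hFx _ (m12_dvd_smul _ v _ _ _ hDN' hDv)
  have hdR : ((Quaternion.normSq v : ℤ) : ℝ) = d := by rw [hd]; simp
  rw [hdR] at hsize ⊢
  have hd1R : (1 : ℝ) ≤ d := by exact_mod_cast hd1
  have hsize₂ : (d : ℝ) * max |φ| ε ^ 2 ≤ ε ^ (1 - δ₂) :=
    hsize.trans (Real.rpow_le_rpow_of_exponent_ge hε hε1 (by linarith))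
  obtain ⟨N, ψ₁, ψ₂, hN1, hψ₁, hψ₁₂, hψ₂, hclose, k, hs1, hs2, hs3⟩ :=
    hnum ε φ d hε hεε₀ hd1 hsize₂
  obtain ⟨r, hz⟩ := hz v c D hv hc hDodd hcD
  set N₀ : ℕ := d * 5 ^ (4 * k) with hN₀
  have hN₀R : (N₀ : ℝ) = (d : ℝ) * 5 ^ (4 * k) := by rw [hN₀]; push_cast; ring
  have hN₀Z : (N₀ : ℤ) = c * D * 5 ^ (4 * k) := by rw [hN₀, ← hd']; push_cast; ring
  have hN₀1 : 1 ≤ N₀ := Nat.mul_pos hd1 (by positivity)
  have hN₀1R : (1 : ℝ) ≤ N₀ := by exact_mod_cast hN₀1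
  have hDN₀ : D ≤ N₀ := hDd.trans (Nat.le_mul_of_pos_right _ (by positivity))
  rw [← hN₀R] at hs1 hs2 hs3
  obtain ⟨m, hm1, hm2, hm16, hmD, hmsq⟩ := hsieve D N₀ hDodd hDN₀ r _ _ hs1
  have hm2lt : (m : ℝ) ^ 2 < N₀ := axial_m N₀ m ψ₁ ψ₂ hψ₁ hψ₁₂ hψ₂ hN₀1R hm1 hm2
  have hm2ltZ : m ^ 2 < (N₀ : ℤ) := by exact_mod_cast hm2lt
  obtain ⟨n, hn⟩ := Int.eq_ofNat_of_zero_le (show (0 : ℤ) ≤ N₀ - m ^ 2 by linarith)
  have hn' : (n : ℤ) = N₀ - m ^ 2 := hn.symm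
  have hn1 : 1 ≤ n := by
    have : (1 : ℤ) ≤ n := by rw [hn']; linarith
    exact_mod_cast this
  have hnsq : ¬ IsSquare n := by
    rintro ⟨a, ha⟩
    apply hmsq
    refine ⟨a, ?_⟩
    rw [← hn', ha]
    push_cast
    rfl
  have hncD : (n : ℤ) = c * D * 5 ^ (4 * k) - m ^ 2 := by rw [← hN₀Z]; exact hn'
  have hcard := hz k m n hm16 hncD hn1 hnsq
  have hmnR : (m : ℝ) ^ 2 + (1 : ℝ) ^ 2 * n = N₀ := by
    have h1 : (m : ℤ) ^ 2 + 1 ^ 2 * (n : ℤ) = N₀ := by rw [hn']; ring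
    exact_mod_cast h1
  have hn1R : (1 : ℝ) ≤ n := by exact_mod_cast hn1
  obtain ⟨ψ, hψa, hψb, hcosψ, hsinψ, hdN, hnN₀⟩ := axial_angle N₀ n m 1 ψ₁ ψ₂ (d * N) hψ₁ hψ₁₂
    hψ₂ hN₀1R hn1R le_rfl (by norm_num) hm1 hm2 hmnR hs2
  rw [one_mul] at hsinψ
  have hDNle : (D : ℝ) * N ≤ Real.sqrt n := by
    have h1 : (D : ℝ) * N ≤ d * N :=
      mul_le_mul_of_nonneg_right (by exact_mod_cast hDd) (Nat.cast_nonneg N)
    exact h1.trans hdN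
  have hDN1 : (1 : ℝ) ≤ (D : ℝ) * N := by
    exact_mod_cast Nat.mul_pos hD1 hN1
  obtain ⟨j, hj1, hj2, hj3⟩ := axial_j _ hDN1
  -- the axis
  have hdtR : (0 : ℝ) < (dt h h : ℝ) := by exact_mod_cast hdt
  have hdt1 : (1 : ℝ) ≤ (dt h h : ℝ) := by exact_mod_cast hdt
  have hN₁1 : (1 : ℝ) ≤ (N₁ : ℝ) := by exact_mod_cast hN₁
  have hph : UP (hp h) := m12_dir h _ hdtR rfl
  obtain ⟨p₀, hp₀, hp₀S, hp₀i⟩ : ∃ p₀ : ℍ[ℝ], UP p₀ ∧ (∀ q, Sp p₀ q = Sp (hp h) q) ∧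
      ∀ r, m12_ip p₀ r = if decide (0 ≤ φ) = true then m12_ip (hp h) r else -m12_ip (hp h) r := by
    by_cases h0 : 0 ≤ φ
    · refine ⟨hp h, hph, fun q => rfl, fun r => ?_⟩
      rw [if_pos (decide_eq_true h0)]
    · refine ⟨-hp h, m12_neg hph, m12_Sp_neg _, fun r => ?_⟩
      rw [if_neg (by rw [decide_eq_false h0]; simp), m12_ip_neg]
  set P : ℝ := Ke * ((dt h h : ℝ) * N₁) ^ 2 with hP
  have hP1 : 1 ≤ P := by
    have h1 : 1 ≤ (dt h h : ℝ) * N₁ := one_le_mul_of_one_le_of_one_le hdt1 hN₁1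
    have h2 : 1 ≤ ((dt h h : ℝ) * N₁) ^ 2 := one_le_pow₀ h1
    rw [hP]
    exact one_le_mul_of_one_le_of_one_le hKe h2
  have hE := hen D hDodd hD5 t ht e he h N₁ hN₁ hdt hFxh N j hN1 hj1
  have hmn0 : (D : ℤ) ∣ m ^ 2 + n := by
    rw [hncD]
    exact ⟨c * 5 ^ (4 * k), by ring⟩
  have hZS : ZS v c D m n ⊆ S3 n := by
    classical
    intro y hy
    unfold ZS at hy
    rw [Finset.mem_filter] at hy
    exact hy.1
  obtain ⟨y, hyZ, γ, hγ, hdvd, hwt⟩ := hit D hDodd hD5 t ht v e he hve p₀ hp₀ n N j m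
    (ZS v c D m n) P hn1 hN1 hj1 hmD hmn0 hZS hcard hP1 hDNle hj2 hj3
    (by simp only [hp₀S]; exact hE)
  obtain ⟨q, hq1, hq2, hq3⟩ := close_hole v hv c D hc hDodd hcD k m n y γ hyZ hncD hdvd
  have hsq : Real.sqrt (c * D * 5 ^ (4 * k)) = Real.sqrt N₀ := by
    congr 1
    have h1 := congrArg (Int.cast : ℤ → ℝ) hN₀Z
    push_cast at h1
    exact h1.symm
  rw [hsq, ← hcosψ, ← hsinψ] at hq3
  have hyS : y ∈ S3 n := hZS hyZ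
  have hhat : UP (hat n y) := by
    refine m12_dir y n (by linarith) ?_
    have h1 := mem_S3.1 hyS
    have h2 : dt y y = n := by unfold dt; linarith
    rw [h2]
    simp
  have hr : UP (rt γ (hat n y)) := rt_up γ _ hhat
  refine ⟨4 * k + 2 * γ.length, q, hq1, hq2, ?_, ?_⟩
  · push_cast
    have h1 := hs3 D j hD1 hDd hj3
    have h2 : Real.log n ≤ Real.log N₀ :=
      Real.log_le_log (lt_of_lt_of_le one_pos hn1R) hnN₀
    have h3 : δ₀ / 192 * Real.log n ≤ δ₀ / 192 * Real.log N₀ :=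
      mul_le_mul_of_nonneg_left h2 (by positivity)
    have h4 := m12_logP Ke _ _ ε δ₁ hKe hdt1 hN₁1 hε hdtε hN₁ε
    rw [← hP] at h4
    have h5' := mul_le_mul_of_nonneg_left h4 hK₂.le
    have h6 := m12_num δ₀ K₂ δ₁ ε hδ₀ hK₂ hδ₁K hε hε1
    have h7 : 0 ≤ Real.logb 5 (1 / ε) :=
      Real.logb_nonneg (by norm_num) (by rw [le_div_iff₀ hε]; linarith)
    have h8 := mul_le_mul_of_nonneg_right hδ₀δ h7
    linarith only [h1, h3, h5', h6, h8, hγ]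
  · rw [hq3, ← mul_sub, norm_mul, m12_vh v hvpos, one_mul]
    apply lt_of_pow_lt_pow_left₀ 2 hε.le
    rw [m12_dist (hp h) _ hph hr φ ψ]
    refine axial_sign φ (Real.cos ψ) (Real.sin ψ) _ (ε ^ 2) hφ2 (m12_ip_le _ _ hph hr)
      (fun η => 1 / (2 * (D : ℝ) ^ 2) ≤ wt N ((1 - η) / 8)) ?_ ?_
    · show 1 / (2 * (D : ℝ) ^ 2) ≤ wt N ((1 - (if decide (0 ≤ φ) = true then
        m12_ip (hp h) (rt γ (hat n y)) else -m12_ip (hp h) (rt γ (hat n y)))) / 8)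
      rw [← hp₀i, show (1 - m12_ip p₀ (rt γ (hat n y))) / 8 =
        ‖rt γ (hat n y) - p₀‖ ^ 2 / 16 by rw [m12_sub p₀ _ hp₀ hr]; ring]
      exact hwt
    · intro η hη1 hη2 hw
      apply hclose ψ η hψa hψb hη1 hη2
      refine le_trans ?_ (hw.trans (min_le_right _ _))
      have hDpos : (0 : ℝ) < D := by exact_mod_cast hD1
      have hDd' : (D : ℝ) ≤ d := by exact_mod_cast hDd
      have h3 : (D : ℝ) ^ 2 ≤ (d : ℝ) ^ 2 := pow_le_pow_left₀ hDpos.le hDd' 2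
      apply one_div_le_one_div_of_le (by positivity)
      linarith only [h3]

end Pool.Agent.H978V
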