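import Pool.Agent.H978V.NDefs
import Pool.Agent.H978V.M12
import Pool.Agent.H978V.E4
import Pool.Agent.H978V.E5

/-!
JOB E6 (owner helper978, MP_06cce2_nt).  `H978V/*.lean` (library, with `NDefs`, `M12`) is on origin/main.

Variant of `circ_main` of `H978V/M12.lean` (PROVED; READ IT and copy its proof; its lemmas can be used) with a general unit pure quaternion `p₀` instead of `hp h`, and `hit_final_s`, `numerics_s` instead of `hit_final_g`, `numerics_g`, `energy_circ`.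

DIFFERENCES.  No `h`, `N₁`, `P`, no condition `Fx`.  The direction is `p₀` if `0 ≤ φ`, `-p₀` otherwise.  `j ≥ 1` with `(D N)^(2/3) ≤ 5^j ≤ 25 (D N)^(2/3)` (`D N ≥ 1`).  Constants: `δ'` from `hit_final_s (δ/192)`; `κ` from `zset_g δ'`; `K₂` from `hit_final_s` with `c = κ`; `K₁` from `sieve_m (δ/2/64)`; `ε₀, C, δ₁` from `numerics_s (δ/2) K₁`.
Length: `L = 4k + 2|γ| ≤ 4k + 2j + 2 logb 5 (D N) + 2 (δ/192) log n + 2 K₂`, `n ≤ d 5^(4k)`.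
-/

set_option autoImplicit false

open MeasureTheory Set
open scoped Quaternion

namespace Pool.Agent.H978V

open Pool.Agent.Helper557.Rz



/-- TARGET -/
theorem gen_main (δ : ℝ) (hδ : 0 < δ) : ∃ ε₀ C δ₁ : ℝ, 0 < ε₀ ∧ ε₀ < 1 ∧ 0 < δ₁ ∧ δ₁ ≤ 1 / 16 ∧
    ∀ (v : ℍ[ℤ]), PrimQ v → ¬ (5 : ℤ) ∣ Quaternion.normSq v → ∀ p₀ : ℍ[ℝ], UP p₀ →
    ∀ φ ε : ℝ, 0 < ε → ε ≤ ε₀ → |φ| ≤ 2 →
    ((Quaternion.normSq v : ℤ) : ℝ) * max |φ| ε ^ 2 ≤ ε ^ (1 - δ₁) →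
    ∃ (L : ℕ) (q : ℍ[ℤ]), Gd q ∧ Quaternion.normSq q = 5 ^ L ∧
      (L : ℝ) ≤ 7 / 3 * Real.logb 5 (((Quaternion.normSq v : ℤ) : ℝ) * max |φ| ε ^ 2) +
        (26 / 3 + δ) * Real.logb 5 (1 / ε) + C ∧
      ‖vh v * rq p₀ φ - qh L q‖ < ε := by
  obtain ⟨δ₀, hδ₀, hδ₀1, hδ₀δ⟩ : ∃ δ₀ : ℝ, 0 < δ₀ ∧ δ₀ ≤ 1 ∧ δ₀ ≤ δ :=
    ⟨min δ 1, lt_min hδ one_pos, min_le_right _ _, min_le_left _ _⟩
  obtain ⟨δ', hδ', hit⟩ := hit_final_s (δ₀ / 192) (by positivity)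
  obtain ⟨κ, hκ, hz⟩ := zset_g δ' hδ'
  obtain ⟨K₂, hK₂, hit⟩ := hit κ hκ
  obtain ⟨K₁, hK₁, hsieve⟩ := sieve_m (δ₀ / 2 / 64) (by positivity)
  obtain ⟨ε₀, C, δ₁, hε₀, hε₀1, hδ₁, hδ₁1, hnum⟩ :=
    numerics_s (δ₀ / 2) (by positivity) (by linarith) K₁ hK₁
  refine ⟨ε₀, C + 2 * K₂, δ₁, hε₀, hε₀1, hδ₁, hδ₁1, ?_⟩
  intro v hv h5 p₁ hp₁ φ ε hε hεε₀ hφ2 hsize
  have hε1 : ε ≤ 1 := hεε₀.trans hε₀1.le
  obtain ⟨c, D, hc, hDodd, hcD⟩ := norm_cD v hv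
  have hD1 : 1 ≤ D := hDodd.pos
  have hc1 : 1 ≤ c := by rcases hc with rfl | rfl | rfl <;> norm_num
  have hcDpos : 0 < c * (D : ℤ) := mul_pos (by linarith) (by exact_mod_cast hD1)
  have hvpos : 0 < Quaternion.normSq v := by rw [hcD]; exact hcDpos
  obtain ⟨d, hd⟩ := Int.eq_ofNat_of_zero_le hvpos.le
  have hd' : (d : ℤ) = c * D := by rw [← hcD, hd]
  have hDd : D ≤ d := by
    have h1 : (D : ℤ) ≤ d := by
      rw [hd']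
      have : (0 : ℤ) ≤ D := Nat.cast_nonneg D
      nlinarith
    exact_mod_cast h1
  have hd1 : 1 ≤ d := hD1.trans hDd
  have : NeZero D := ⟨by omega⟩
  have hD5 : Nat.Coprime D 5 := by
    rw [Nat.coprime_comm, Nat.Prime.coprime_iff_not_dvd (by norm_num)]
    intro h6
    apply h5
    rw [hcD]
    exact Dvd.dvd.mul_left (by exact_mod_cast h6) _
  obtain ⟨r₀, s₀, hrs⟩ := split_rs D hDodd
  obtain ⟨t, ht⟩ : ∃ t : ZMod D × ZMod D, Q.Sq t := ⟨(r₀, s₀), hrs⟩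
  have hDN' : (D : ℤ) ∣ Quaternion.normSq v := by rw [hcD]; exact dvd_mul_left _ _
  obtain ⟨e, he, hve, -⟩ := ker_g D hDodd t ht v (fun p hp _ => hv p hp) hDN'
  have hdR : ((Quaternion.normSq v : ℤ) : ℝ) = d := by rw [hd]; simp
  rw [hdR] at hsize ⊢
  have hd1R : (1 : ℝ) ≤ d := by exact_mod_cast hd1
  obtain ⟨N, ψ₁, ψ₂, hN1, hψ₁, hψ₁₂, hψ₂, hclose, k, hs1, hs2, hs3⟩ :=
    hnum ε φ d hε hεε₀ hd1 hsize
  obtain ⟨r, hz⟩ := hz v c D hv hc hDodd hcD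
  set N₀ : ℕ := d * 5 ^ (4 * k) with hN₀
  have hN₀R : (N₀ : ℝ) = (d : ℝ) * 5 ^ (4 * k) := by rw [hN₀]; push_cast; ring
  have hN₀Z : (N₀ : ℤ) = c * D * 5 ^ (4 * k) := by rw [hN₀, ← hd']; push_cast; ring
  have hN₀1 : 1 ≤ N₀ := Nat.mul_pos hd1 (by positivity)
  have hN₀1R : (1 : ℝ) ≤ N₀ := by exact_mod_cast hN₀1
  have hDN₀ : D ≤ N₀ := hDd.trans (Nat.le_mul_of_pos_right _ (by positivity))
  rw [← hN₀R] at hs1 hs2 hs3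
  obtain ⟨m, hm1, hm2, hm16, hmD, hmsq⟩ := hsieve D N₀ hDodd hDN₀ r _ _ hs1
  have hm2lt : (m : ℝ) ^ 2 < N₀ := axial_m N₀ m ψ₁ ψ₂ hψ₁ hψ₁₂ hψ₂ hN₀1R hm1 hm2
  have hm2ltZ : m ^ 2 < (N₀ : ℤ) := by exact_mod_cast hm2lt
  obtain ⟨n, hn⟩ := Int.eq_ofNat_of_zero_le (show (0 : ℤ) ≤ N₀ - m ^ 2 by linarith)
  have hn' : (n : ℤ) = N₀ - m ^ 2 := hn.symm
  have hn1 : 1 ≤ n := by
    have : (1 : ℤ) ≤ n := by rw [hn']; linarith
    exact_mod_cast this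
  have hnsq : ¬ IsSquare n := by
    rintro ⟨a, ha⟩
    apply hmsq
    refine ⟨a, ?_⟩
    rw [← hn', ha]
    push_cast
    rfl
  have hncD : (n : ℤ) = c * D * 5 ^ (4 * k) - m ^ 2 := by rw [← hN₀Z]; exact hn'
  have hcard := hz k m n hm16 hncD hn1 hnsq
  have hmnR : (m : ℝ) ^ 2 + (1 : ℝ) ^ 2 * n = N₀ := by
    have h1 : (m : ℤ) ^ 2 + 1 ^ 2 * (n : ℤ) = N₀ := by rw [hn']; ring
    exact_mod_cast h1
  have hn1R : (1 : ℝ) ≤ n := by exact_mod_cast hn1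
  obtain ⟨ψ, hψa, hψb, hcosψ, hsinψ, hdN, hnN₀⟩ := axial_angle N₀ n m 1 ψ₁ ψ₂ (d * N) hψ₁ hψ₁₂
    hψ₂ hN₀1R hn1R le_rfl (by norm_num) hm1 hm2 hmnR hs2
  rw [one_mul] at hsinψ
  have hDNle : (D : ℝ) * N ≤ Real.sqrt n := by
    have h1 : (D : ℝ) * N ≤ d * N :=
      mul_le_mul_of_nonneg_right (by exact_mod_cast hDd) (Nat.cast_nonneg N)
    exact h1.trans hdN
  have hDN1 : (1 : ℝ) ≤ (D : ℝ) * N := by
    exact_mod_cast Nat.mul_pos hD1 hN1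
  have hDN23 : (1 : ℝ) ≤ ((D : ℝ) * N) ^ (2 / 3 : ℝ) :=
    Real.one_le_rpow hDN1 (by norm_num)
  obtain ⟨j, hj1, hj2, hj3⟩ := axial_j _ hDN23
  -- the axis
  obtain ⟨p₀, hp₀, hp₀i⟩ : ∃ p₀ : ℍ[ℝ], UP p₀ ∧
      ∀ r, m12_ip p₀ r = if decide (0 ≤ φ) = true then m12_ip p₁ r else -m12_ip p₁ r := by
    by_cases h0 : 0 ≤ φ
    · refine ⟨p₁, hp₁, fun r => ?_⟩
      rw [if_pos (decide_eq_true h0)]
    · refine ⟨-p₁, m12_neg hp₁, fun r => ?_⟩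
      rw [if_neg (by rw [decide_eq_false h0]; simp), m12_ip_neg]
  have hmn0 : (D : ℤ) ∣ m ^ 2 + n := by
    rw [hncD]
    exact ⟨c * 5 ^ (4 * k), by ring⟩
  have hZS : ZS v c D m n ⊆ S3 n := by
    classical
    intro y hy
    unfold ZS at hy
    rw [Finset.mem_filter] at hy
    exact hy.1
  obtain ⟨y, hyZ, γ, hγ, hdvd, hwt⟩ := hit D hDodd hD5 t ht v e he hve p₀ hp₀ n N j m
    (ZS v c D m n) hn1 hN1 hj1 hmD hmn0 hZS hcard hDNle hj2 hj3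
  obtain ⟨q, hq1, hq2, hq3⟩ := close_hole v hv c D hc hDodd hcD k m n y γ hyZ hncD hdvd
  have hsq : Real.sqrt (c * D * 5 ^ (4 * k)) = Real.sqrt N₀ := by
    congr 1
    have h1 := congrArg (Int.cast : ℤ → ℝ) hN₀Z
    push_cast at h1
    exact h1.symm
  rw [hsq, ← hcosψ, ← hsinψ] at hq3
  have hyS : y ∈ S3 n := hZS hyZ
  have hhat : UP (hat n y) := by
    refine m12_dir y n (by linarith) ?_
    have h1 := mem_S3.1 hyS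
    have h2 : dt y y = n := by unfold dt; linarith
    rw [h2]
    simp
  have hr : UP (rt γ (hat n y)) := rt_up γ _ hhat
  refine ⟨4 * k + 2 * γ.length, q, hq1, hq2, ?_, ?_⟩
  · push_cast
    have h1 := hs3 D j hD1 hDd hj3
    have h2 : Real.log n ≤ Real.log N₀ :=
      Real.log_le_log (lt_of_lt_of_le one_pos hn1R) hnN₀
    have h3 : δ₀ / 192 * Real.log n ≤ δ₀ / 192 * Real.log N₀ :=
      mul_le_mul_of_nonneg_left h2 (by positivity)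
    have h7 : 0 ≤ Real.logb 5 (1 / ε) :=
      Real.logb_nonneg (by norm_num) (by rw [le_div_iff₀ hε]; linarith)
    have h8 := mul_le_mul_of_nonneg_right hδ₀δ h7
    have h9 := mul_nonneg hδ₀.le h7
    linarith only [h1, h3, h8, h9, hγ]
  · rw [hq3, ← mul_sub, norm_mul, m12_vh v hvpos, one_mul]
    apply lt_of_pow_lt_pow_left₀ 2 hε.le
    rw [m12_dist p₁ _ hp₁ hr φ ψ]
    refine axial_sign φ (Real.cos ψ) (Real.sin ψ) _ (ε ^ 2) hφ2 (m12_ip_le _ _ hp₁ hr)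
      (fun η => 1 / (2 * (D : ℝ) ^ 2) ≤ wt N ((1 - η) / 8)) ?_ ?_
    · show 1 / (2 * (D : ℝ) ^ 2) ≤ wt N ((1 - (if decide (0 ≤ φ) = true then
        m12_ip p₁ (rt γ (hat n y)) else -m12_ip p₁ (rt γ (hat n y)))) / 8)
      rw [← hp₀i, show (1 - m12_ip p₀ (rt γ (hat n y))) / 8 =
        ‖rt γ (hat n y) - p₀‖ ^ 2 / 16 by rw [m12_sub p₀ _ hp₀ hr]; ring]
      exact hwt
    · intro η hη1 hη2 hw
      apply hclose ψ η hψa hψb hη1 hη2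
      refine le_trans ?_ (hw.trans (min_le_right _ _))
      have hDpos : (0 : ℝ) < D := by exact_mod_cast hD1
      have hDd' : (D : ℝ) ≤ d := by exact_mod_cast hDd
      have h3 : (D : ℝ) ^ 2 ≤ (d : ℝ) ^ 2 := pow_le_pow_left₀ hDpos.le hDd' 2
      apply one_div_le_one_div_of_le (by positivity)
      linarith only [h3]

end Pool.Agent.H978V
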