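import Pool.Agent.H978V.KDefs2
import Pool.Agent.H978V.C5
import Pool.Agent.H978V.C7

set_option autoImplicit false

open scoped Quaternion

namespace Pool.Agent.H978V

open Pool.Agent.Helper557.Rz

theorem k14_Uquat (t₀ t₁ t₂ t₃ : ℝ) : Uquat t₀ t₁ t₂ t₃ = Mq t₀ t₁ t₂ t₃ := by
  unfold Uquat Mq
  ext i j
  fin_cases i <;> fin_cases j <;> simp [pauli, Complex.ext_iff]

open scoped Matrix.Norms.L2Operator in
theorem k14_norm (t₀ t₁ t₂ t₃ : ℝ) (q : ℍ[ℤ]) (L : ℕ) :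
    ‖Uquat t₀ t₁ t₂ t₃ - (1 / (Real.sqrt 5 : ℂ) ^ L) • Mz q‖ ^ 2 = qd t₀ t₁ t₂ t₃ q L := by
  have h : Uquat t₀ t₁ t₂ t₃ - (1 / (Real.sqrt 5 : ℂ) ^ L) • Mz q =
      Mq (t₀ - q.re / Real.sqrt 5 ^ L) (t₁ - q.imI / Real.sqrt 5 ^ L)
        (t₂ - q.imJ / Real.sqrt 5 ^ L) (t₃ - q.imK / Real.sqrt 5 ^ L) := by
    rw [k14_Uquat]
    unfold Mz Mq
    ext i j
    fin_cases i <;> fin_cases j <;> simp <;> ring
  rw [h, norm_Mq]
  rfl

theorem k14_al (k : Fin 3) (s : ℂ) (hs : s = 1 ∨ s = -1) :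
    ∃ a : Fin 6, Mz (al a) = 1 + (2 * s * Complex.I) • pauli k := by
  fin_cases k
  · rcases hs with rfl | rfl
    · refine ⟨2, ?_⟩
      ext i j; fin_cases i <;> fin_cases j <;> simp [Mz, Mq, al, pauli, sub_eq_add_neg]
    · refine ⟨5, ?_⟩
      ext i j; fin_cases i <;> fin_cases j <;> simp [Mz, Mq, al, pauli, sub_eq_add_neg]
  · rcases hs with rfl | rfl
    · refine ⟨1, ?_⟩
      ext i j; fin_cases i <;> fin_cases j <;> simp [Mz, Mq, al, pauli, sub_eq_add_neg, mul_assoc]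
    · refine ⟨4, ?_⟩
      ext i j; fin_cases i <;> fin_cases j <;> simp [Mz, Mq, al, pauli, sub_eq_add_neg, mul_assoc]
  · rcases hs with rfl | rfl
    · refine ⟨0, ?_⟩
      ext i j; fin_cases i <;> fin_cases j <;> simp [Mz, Mq, al, pauli, sub_eq_add_neg]
    · refine ⟨3, ?_⟩
      ext i j; fin_cases i <;> fin_cases j <;> simp [Mz, Mq, al, pauli, sub_eq_add_neg]

theorem k14_word (v : List (Fin 6)) : ∃ w : List (Matrix (Fin 2) (Fin 2) ℂ),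
    (∀ g ∈ w, g ∈ Vset) ∧ w.length = v.length ∧
      w.prod = (1 / (Real.sqrt 5 : ℂ) ^ v.length) • Mz (qw v) := by
  induction v with
  | nil => exact ⟨[], by simp, rfl, by simp [qw, Mz_one]⟩
  | cons a v ih =>
    obtain ⟨w, h1, h2, h3⟩ := ih
    refine ⟨w ++ [(1 / (Real.sqrt 5 : ℂ)) • Mz (al a)], ?_, ?_, ?_⟩
    · intro g hg
      rcases List.mem_append.1 hg with hg | hg
      · exact h1 g hg
      · rw [List.mem_singleton.1 hg]; exact al_mem a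
    · simp [h2]
    · rw [List.prod_append, h3, List.prod_singleton, qw, Mz_mul, smul_mul_smul_comm,
        List.length_cons, pow_succ]
      congr 1
      rw [one_div_mul_one_div]

theorem k14_unword (w : List (Matrix (Fin 2) (Fin 2) ℂ)) (hw : ∀ g ∈ w, g ∈ Vset) :
    ∃ v : List (Fin 6), v.length = w.length ∧
      w.prod = (1 / (Real.sqrt 5 : ℂ) ^ w.length) • Mz (qw v) := by
  induction w using List.reverseRecOn with
  | nil => exact ⟨[], rfl, by simp [qw, Mz_one]⟩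
  | append_singleton w g ih =>
    obtain ⟨v, h1, h2⟩ := ih (fun g' hg' => hw g' (List.mem_append.2 (Or.inl hg')))
    obtain ⟨k, s, hs, hg⟩ := hw g (List.mem_append.2 (Or.inr (List.mem_singleton.2 rfl)))
    obtain ⟨a, ha⟩ := k14_al k s hs
    refine ⟨a :: v, by simp [h1], ?_⟩
    rw [List.prod_append, h2, List.prod_singleton, hg, ← ha, qw, Mz_mul, smul_mul_smul_comm,
      List.length_append, List.length_singleton, pow_succ]
    congr 1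
    rw [one_div_mul_one_div]

open scoped Matrix.Norms.L2Operator in
/-- TARGET 1 -/
theorem word_of_quat (L : ℕ) (q : ℍ[ℤ]) (hq : Gd q) (hn : Quaternion.normSq q = 5 ^ L) :
    ∃ w : List (Matrix (Fin 2) (Fin 2) ℂ), (∀ g ∈ w, g ∈ Vset) ∧ w.length = L ∧
      ∀ t₀ t₁ t₂ t₃ : ℝ, ‖Uquat t₀ t₁ t₂ t₃ - w.prod‖ ^ 2 = qd t₀ t₁ t₂ t₃ q L := by
  obtain ⟨v, hv, hqv⟩ := words_of_good L q hq hn
  obtain ⟨w, h1, h2, h3⟩ := k14_word v
  refine ⟨w, h1, h2.trans hv, fun t₀ t₁ t₂ t₃ => ?_⟩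
  rw [h3, hqv, hv]
  exact k14_norm t₀ t₁ t₂ t₃ q L

open scoped Matrix.Norms.L2Operator in
/-- TARGET 2 -/
theorem quat_of_word (w : List (Matrix (Fin 2) (Fin 2) ℂ)) (hw : ∀ g ∈ w, g ∈ Vset) :
    ∃ q : ℍ[ℤ], Gd q ∧ Quaternion.normSq q = 5 ^ w.length ∧
      ∀ t₀ t₁ t₂ t₃ : ℝ, ‖Uquat t₀ t₁ t₂ t₃ - w.prod‖ ^ 2 = qd t₀ t₁ t₂ t₃ q w.length := by
  obtain ⟨v, h1, h2⟩ := k14_unword w hw
  obtain ⟨g1, g2⟩ := good_qw v
  refine ⟨qw v, g1, h1 ▸ g2, fun t₀ t₁ t₂ t₃ => ?_⟩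
  rw [h2]
  exact k14_norm t₀ t₁ t₂ t₃ (qw v) w.length

end Pool.Agent.H978V
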