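import Pool.Agent.H978V.KDefs
import Pool.Agent.H978V.G5
import Pool.Agent.H978V.C2

/-!
JOB K11 (owner helper978, MP_06cce2_nt).  `H978V/*.lean` (library) and `Helper557/Rz/*` are on origin/main.

The set of directions `x` for which the point `(τ, √(1-τ²) x)` has a word of length `≤ (3-δ) log_5(1/ε)` within `ε` is small.

PROOF of TARGET 1 (caps).  If `t ≥ 1` the bound is trivial (`C ≥ 1`).  For `t < 1` let `N = ⌈1/t²⌉₊ ≥ 2`(or `+1`).  For `dist x y < t`: `kk N x y = N (1 - dist²/4)^{N-1} ≥ N (1 - t²/4)^{N-1} ≥ N/ e` say (Bernoulli: `(1-t²/4)^{N-1} ≥ 1 - (N-1)t²/4 ≥ 1/2`).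
`∫ kk N x y dx = 1` (`c2_kk_int` in `H978V/C2.lean`), so the measure of the cap is `≤ 2/N ≤ 2 t²` (Markov).
PROOF of TARGET 2.  `σ = √(1-τ²)`.  If `δ > 3` the set is empty (`L ≤ negative`; `logb 5 (1/ε) > 0`).  For one `q` with `normSq q = 5^L`, `a = q.re`: if `qs τ x q L < ε²` then `|τ - a/√5^L| < ε` and `|σ x - v| < ε` with
`v = (q.imI,q.imJ,q.imK)/√5^L`; two such `x, x'` have `dist x x' < 2ε/σ`, so the set of such `x` is contained in a cap of radius `2ε/σ`, measure `≤ 4C₁ε²/σ²`.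
The number of `q` with `normSq q = 5^L`, `|a - τ √5^L| < ε √5^L`: at most `2 ε √5^L + 1` values of `a`, and for each one `m = 5^L - a²`: at most `1` vector if `m = 0`, at most `C √m (5^L)^{δ'}` if `m ≥ 1` (`scalar_count_r3` in `H978V/G5.lean`), so
`≤ C (2ε √5^L + 1) √5^L (5^L)^{δ'}` in total.  Sum over `L ≤ L₀ = (3-δ) log_5 (1/ε)` (`5^{L₀} = ε^{-(3-δ)}`):
measure `≤ C ε² (L₀+1) (ε 5^{L₀} + 5^{L₀/2}) (5^{L₀})^{δ'} ≤ C (L₀+1)(ε^{δ} + ε^{1/2}) ε^{-3δ'}`; `δ' = min(δ,1)/12` and `L₀ + 1 ≤ C ε^{-δ'}` give `≤ C ε^{η}`, `η = min(δ, 1/2)/2` or smaller.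
-/

set_option autoImplicit false

open MeasureTheory Set
open scoped Quaternion

namespace Pool.Agent.H978V

open Pool.Agent.Helper557.Rz

/-- TARGET 1 -/
theorem cap_le : ∃ C : ℝ, 0 < C ∧ ∀ (y : S 3) (t : ℝ), 0 < t →
    (sg 3).real {x | dist x y < t} ≤ C * t ^ 2 := by
  haveI := sg_prob 3 (by norm_num)
  refine ⟨2, by norm_num, ?_⟩
  intro y t ht
  rcases le_total 1 t with h1 | h1
  · have : (sg 3).real {x | dist x y < t} ≤ 1 := measureReal_le_one
    nlinarith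
  · set N : ℕ := ⌈1 / t ^ 2⌉₊ with hN
    have ht2 : 0 < t ^ 2 := by positivity
    have hN1 : 1 ≤ N := Nat.one_le_iff_ne_zero.mpr (Nat.ceil_pos.mpr (by positivity)).ne'
    have hNle : 1 / t ^ 2 ≤ (N : ℝ) := Nat.le_ceil _
    have hNlt : (N : ℝ) < 1 / t ^ 2 + 1 := Nat.ceil_lt_add_one (by positivity)
    have hN0 : (0 : ℝ) < N := by exact_mod_cast hN1
    have hb : ((N : ℝ) - 1) * t ^ 2 ≤ 1 := by
      have : (N : ℝ) - 1 ≤ 1 / t ^ 2 := by linarith
      calc ((N : ℝ) - 1) * t ^ 2 ≤ 1 / t ^ 2 * t ^ 2 := mul_le_mul_of_nonneg_right this ht2.le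
        _ = 1 := by field_simp
    have hpt : ∀ x : S 3, dist x y < t → (N : ℝ) * (3 / 4) ≤ kk N x y := by
      intro x hx
      have e1 : u x y = 1 - dist x y ^ 2 / 4 := by rw [dist_sq_u]; ring
      have hd0 : 0 ≤ dist x y := dist_nonneg
      have hd : dist x y ^ 2 ≤ t ^ 2 := by nlinarith
      have h2 : 1 + ((N - 1 : ℕ) : ℝ) * (-(t ^ 2 / 4)) ≤ (1 + -(t ^ 2 / 4)) ^ (N - 1) :=
        one_add_mul_le_pow (by nlinarith) _
      have h3 : (1 + -(t ^ 2 / 4)) ^ (N - 1) ≤ u x y ^ (N - 1) := by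
        apply pow_le_pow_left₀
        · nlinarith
        · rw [e1]; linarith
      have h4 : ((N - 1 : ℕ) : ℝ) = (N : ℝ) - 1 := by
        rw [Nat.cast_sub hN1]; norm_num
      rw [h4] at h2
      unfold kk
      apply mul_le_mul_of_nonneg_left _ hN0.le
      nlinarith
    have hm := mul_meas_ge_le_integral_of_nonneg (μ := sg 3) (f := fun x => kk N x y)
      (Filter.Eventually.of_forall (fun x => c2_kk_nonneg N x y)) (c2_intc (kkC N y))
      ((N : ℝ) * (3 / 4))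
    rw [c2_kk_int N hN1] at hm
    have hsub : {x | dist x y < t} ⊆ {x : S 3 | (N : ℝ) * (3 / 4) ≤ kk N x y} := fun x hx => hpt x hx
    have hmono : (sg 3).real {x | dist x y < t} ≤ (sg 3).real {x : S 3 | (N : ℝ) * (3 / 4) ≤ kk N x y} :=
      measureReal_mono hsub
    have hge : 1 / t ^ 2 * (3 / 4) * (sg 3).real {x | dist x y < t} ≤ 1 := by
      refine le_trans ?_ hm
      apply mul_le_mul _ hmono measureReal_nonneg (by positivity)
      linarith
    have h5 : (3 / 4) * (sg 3).real {x | dist x y < t} ≤ t ^ 2 := by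
      have := mul_le_mul_of_nonneg_left hge ht2.le
      have e : t ^ 2 * (1 / t ^ 2 * (3 / 4) * (sg 3).real {x | dist x y < t}) =
          (3 / 4) * (sg 3).real {x | dist x y < t} := by field_simp
      rw [e] at this
      linarith
    nlinarith [(measureReal_nonneg : 0 ≤ (sg 3).real {x | dist x y < t})]

lemma k11_union {ι : Type} (s : Finset ι) (f : ι → Set (S 3)) (c : ℝ)
    (h : ∀ i ∈ s, (sg 3).real (f i) ≤ c) : (sg 3).real (⋃ i ∈ s, f i) ≤ s.card * c := by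
  refine (measureReal_biUnion_finset_le s f).trans ?_
  refine (Finset.sum_le_sum h).trans ?_
  simp

lemma k11_nsq (w : E 3) : ‖w‖ ^ 2 = w 0 ^ 2 + w 1 ^ 2 + w 2 ^ 2 := by
  rw [EuclideanSpace.norm_eq, Real.sq_sqrt (Finset.sum_nonneg (fun _ _ => by positivity)),
    Fin.sum_univ_three]
  simp

lemma k11_one (τ : ℝ) (h1 : -1 < τ) (h2 : τ < 1) {C : ℝ} (hC : 0 < C)
    (hcap : ∀ (y : S 3) (t : ℝ), 0 < t → (sg 3).real {x | dist x y < t} ≤ C * t ^ 2)
    (ε : ℝ) (hε : 0 < ε) (L : ℕ) (q : ℍ[ℤ]) :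
    (sg 3).real {x | qs τ x q L < ε ^ 2} ≤ C * (2 * ε / Real.sqrt (1 - τ ^ 2)) ^ 2 := by
  haveI := sg_prob 3 (by norm_num)
  set σ := Real.sqrt (1 - τ ^ 2) with hσ
  have hσ0 : 0 < σ := Real.sqrt_pos.mpr (by nlinarith)
  rcases Set.eq_empty_or_nonempty {x | qs τ x q L < ε ^ 2} with he | ⟨x0, hx0⟩
  · rw [he]; simp; positivity
  · have hsub : {x | qs τ x q L < ε ^ 2} ⊆ {x | dist x x0 < 2 * ε / σ} := by
      intro x hx
      set v : E 3 := !₂[(q.imI : ℝ) / Real.sqrt 5 ^ L, (q.imJ : ℝ) / Real.sqrt 5 ^ L,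
        (q.imK : ℝ) / Real.sqrt 5 ^ L] with hv
      have key : ∀ z : S 3, qs τ z q L < ε ^ 2 → ‖σ • (z : E 3) - v‖ < ε := by
        intro z hz
        have h3 : ‖σ • (z : E 3) - v‖ ^ 2 < ε ^ 2 := by
          rw [k11_nsq]
          unfold qs qd at hz
          simp only [hv, PiLp.sub_apply, PiLp.smul_apply, smul_eq_mul]
          simp
          nlinarith [sq_nonneg (τ - (q.re : ℝ) / Real.sqrt 5 ^ L)]
        exact lt_of_pow_lt_pow_left₀ 2 hε.le h3
      have ha := key x hx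
      have hb := key x0 hx0
      have hc : ‖σ • ((x : E 3) - (x0 : E 3))‖ < 2 * ε := by
        have e : σ • ((x : E 3) - (x0 : E 3)) = (σ • (x : E 3) - v) - (σ • (x0 : E 3) - v) := by
          rw [smul_sub]; abel
        rw [e]
        refine (norm_sub_le _ _).trans_lt ?_
        linarith
      rw [norm_smul, Real.norm_of_nonneg hσ0.le] at hc
      show dist x x0 < 2 * ε / σ
      rw [Subtype.dist_eq, dist_eq_norm, lt_div_iff₀ hσ0]
      linarith
    exact (measureReal_mono hsub).trans (hcap x0 _ (by positivity))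

lemma k11_card (τ r ε : ℝ) (hr : 0 < r) (hε : 0 < ε) :
    ((Finset.Icc ⌈(τ - ε) * r⌉ ⌊(τ + ε) * r⌋).card : ℝ) ≤ 2 * ε * r + 1 := by
  rw [Int.card_Icc]
  have h1 := Int.floor_le ((τ + ε) * r)
  have h2 := Int.le_ceil ((τ - ε) * r)
  have h3 : (((⌊(τ + ε) * r⌋ + 1 - ⌈(τ - ε) * r⌉).toNat : ℤ) : ℝ) ≤ 2 * ε * r + 1 := by
    rw [Int.toNat_eq_max]
    push_cast
    apply max_le
    · nlinarith
    · positivity
  exact_mod_cast h3

lemma k11_S30 : (S3 0).card ≤ 1 := by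
  rw [Finset.card_le_one]
  intro p hp p' hp'
  rw [mem_S3] at hp hp'
  have key : ∀ p : ℤ × ℤ × ℤ, p.1 ^ 2 + p.2.1 ^ 2 + p.2.2 ^ 2 = ((0 : ℕ) : ℤ) → p = (0, 0, 0) := by
    intro p hp
    have h1 := sq_nonneg p.1
    have h2 := sq_nonneg p.2.1
    have h3 := sq_nonneg p.2.2
    have e1 : p.1 ^ 2 = 0 := by push_cast at hp; linarith
    have e2 : p.2.1 ^ 2 = 0 := by push_cast at hp; linarith
    have e3 : p.2.2 ^ 2 = 0 := by push_cast at hp; linarith
    have f1 := pow_eq_zero_iff (two_ne_zero) |>.mp e1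
    have f2 := pow_eq_zero_iff (two_ne_zero) |>.mp e2
    have f3 := pow_eq_zero_iff (two_ne_zero) |>.mp e3
    obtain ⟨a, b, c⟩ := p
    simp only at f1 f2 f3
    rw [f1, f2, f3]
  rw [key p hp, key p' hp']

/-- TARGET 2 -/
theorem lower_scale (τ : ℝ) (h1 : -1 < τ) (h2 : τ < 1) (δ : ℝ) (hδ : 0 < δ) :
    ∃ η C : ℝ, 0 < η ∧ 0 < C ∧ ∀ ε : ℝ, 0 < ε → ε < 1 →
      (sg 3).real {x | ∃ (L : ℕ) (q : ℍ[ℤ]), Quaternion.normSq q = 5 ^ L ∧
        (L : ℝ) ≤ (3 - δ) * Real.logb 5 (1 / ε) ∧ qs τ x q L < ε ^ 2} ≤ C * ε ^ η := by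
  haveI := sg_prob 3 (by norm_num)
  obtain ⟨C₁, hC₁, hcap⟩ := cap_le
  set d := min δ 1 with hd
  have hd0 : 0 < d := lt_min hδ one_pos
  have hdδ : d ≤ δ := min_le_left _ _
  have hd1 : d ≤ 1 := min_le_right _ _
  obtain ⟨C₂, hC₂, hr3⟩ := scalar_count_r3 (d / 12) (by positivity)
  set σ := Real.sqrt (1 - τ ^ 2) with hσ
  have hσ0 : 0 < σ := Real.sqrt_pos.mpr (by nlinarith)
  refine ⟨d / 2, 3 * (1 + 12 / d) * C₂ * (C₁ * (2 / σ) ^ 2), by positivity, by positivity, ?_⟩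
  intro ε hε hε1
  set L0 : ℝ := (3 - δ) * Real.logb 5 (1 / ε) with hL0
  have hlog : 0 < Real.logb 5 (1 / ε) :=
    Real.logb_pos (by norm_num) (by rw [lt_div_iff₀ hε]; linarith)
  rcases lt_or_ge L0 0 with hneg | hpos
  · have he : {x : S 3 | ∃ (L : ℕ) (q : ℍ[ℤ]), Quaternion.normSq q = 5 ^ L ∧
        (L : ℝ) ≤ L0 ∧ qs τ x q L < ε ^ 2} = ∅ := by
      ext x
      simp only [mem_setOf_eq, mem_empty_iff_false, iff_false]
      rintro ⟨L, q, -, hL, -⟩
      have : (0 : ℝ) ≤ L := Nat.cast_nonneg L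
      linarith
    rw [he]
    simp
    positivity
  set K : ℕ := ⌊L0⌋₊ with hK
  have hKle : (K : ℝ) ≤ L0 := Nat.floor_le hpos
  set c0 : ℝ := C₁ * (2 * ε / σ) ^ 2 with hc0
  have hc00 : 0 ≤ c0 := by positivity
  set R : ℝ := Real.sqrt 5 ^ K with hR
  have hs5 : (1 : ℝ) ≤ Real.sqrt 5 := by
    rw [Real.le_sqrt (by norm_num) (by norm_num)]; norm_num
  have hR1 : 1 ≤ R := one_le_pow₀ hs5
  set X : ℝ := (5 : ℝ) ^ K with hX
  have hRX : R ^ 2 = X := by
    rw [hR, hX, ← pow_mul, mul_comm, pow_mul, Real.sq_sqrt (by norm_num)]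
  have hX1 : 1 ≤ X := one_le_pow₀ (by norm_num)
  have hX0 : 0 < X := by linarith
  -- the three levels
  set m : ℕ → ℤ → ℕ := fun L a => ((5 : ℤ) ^ L - a ^ 2).toNat with hm
  set A : ℕ → Finset ℤ := fun L =>
    Finset.Icc ⌈(τ - ε) * Real.sqrt 5 ^ L⌉ ⌊(τ + ε) * Real.sqrt 5 ^ L⌋ with hA
  have hS3 : ∀ L ≤ K, ∀ a : ℤ, ((S3 (m L a)).card : ℝ) ≤ C₂ * R * X ^ (d / 12) := by
    intro L hL a
    have hXd : 1 ≤ X ^ (d / 12) := Real.one_le_rpow hX1 (by positivity)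
    rcases Nat.eq_zero_or_pos (m L a) with h0 | h0
    · rw [h0]
      have : (S3 0).card ≤ 1 := k11_S30
      have h3 : ((S3 0).card : ℝ) ≤ 1 := by exact_mod_cast this
      have h4 : 1 ≤ C₂ * R * X ^ (d / 12) := by
        have : 1 ≤ C₂ * R := by nlinarith
        nlinarith
      linarith
    · have hmle : m L a ≤ 5 ^ K := by
        have e1 : (m L a : ℤ) ≤ 5 ^ L := by
          simp only [hm]
          have h5 : (0 : ℤ) ≤ 5 ^ L := by positivity
          have h6 := sq_nonneg a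
          rcases le_total (5 ^ L - a ^ 2) 0 with h | h
          · rw [Int.toNat_of_nonpos h]; simpa using h5
          · rw [Int.toNat_of_nonneg h]; linarith
        have e2 : m L a ≤ 5 ^ L := by exact_mod_cast e1
        exact e2.trans (Nat.pow_le_pow_right (by norm_num) hL)
      have h3 := hr3 (m L a) (5 ^ K) h0 hmle (S3 (m L a)) (fun p hp => mem_S3.mp hp)
      refine h3.trans ?_
      have h4 : ((5 ^ K : ℕ) : ℝ) = X := by push_cast; rfl
      rw [h4]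
      apply mul_le_mul_of_nonneg_right _ (by positivity)
      apply mul_le_mul_of_nonneg_left _ (by linarith)
      rw [Real.sqrt_le_left (by linarith), hRX, ← h4]
      exact_mod_cast hmle
  have hlev3 : ∀ L ≤ K, ∀ a : ℤ, (sg 3).real (⋃ y ∈ S3 (m L a),
      {x | qs τ x ⟨a, y.1, y.2.1, y.2.2⟩ L < ε ^ 2}) ≤ C₂ * R * X ^ (d / 12) * c0 := by
    intro L hL a
    refine (k11_union _ _ c0 (fun y _ => k11_one τ h1 h2 hC₁ hcap ε hε L _)).trans ?_
    exact mul_le_mul_of_nonneg_right (hS3 L hL a) hc00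
  have hlev2 : ∀ L ≤ K, (sg 3).real (⋃ a ∈ A L, ⋃ y ∈ S3 (m L a),
      {x | qs τ x ⟨a, y.1, y.2.1, y.2.2⟩ L < ε ^ 2}) ≤
      (2 * ε * R + 1) * (C₂ * R * X ^ (d / 12) * c0) := by
    intro L hL
    refine (k11_union _ _ _ (fun a _ => hlev3 L hL a)).trans ?_
    apply mul_le_mul_of_nonneg_right _ (by positivity)
    refine (k11_card τ (Real.sqrt 5 ^ L) ε (by positivity) hε).trans ?_
    have : Real.sqrt 5 ^ L ≤ R := pow_le_pow_right₀ hs5 hL
    nlinarith
  have hlev1 : (sg 3).real (⋃ L ∈ Finset.range (K + 1), ⋃ a ∈ A L, ⋃ y ∈ S3 (m L a),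
      {x | qs τ x ⟨a, y.1, y.2.1, y.2.2⟩ L < ε ^ 2}) ≤
      ((K : ℝ) + 1) * ((2 * ε * R + 1) * (C₂ * R * X ^ (d / 12) * c0)) := by
    refine (k11_union _ _ _ (fun L hL => hlev2 L
      (by rw [Finset.mem_range] at hL; omega))).trans ?_
    rw [Finset.card_range]
    push_cast
    exact le_rfl
  have hsub : {x : S 3 | ∃ (L : ℕ) (q : ℍ[ℤ]), Quaternion.normSq q = 5 ^ L ∧
        (L : ℝ) ≤ L0 ∧ qs τ x q L < ε ^ 2} ⊆
      ⋃ L ∈ Finset.range (K + 1), ⋃ a ∈ A L, ⋃ y ∈ S3 (m L a),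
      {x | qs τ x ⟨a, y.1, y.2.1, y.2.2⟩ L < ε ^ 2} := by
    rintro x ⟨L, q, hq, hL, hx⟩
    simp only [mem_iUnion]
    have hr0 : 0 < Real.sqrt 5 ^ L := by positivity
    refine ⟨L, ?_, q.re, ?_, (q.imI, q.imJ, q.imK), ?_, ?_⟩
    · rw [Finset.mem_range, Nat.lt_succ_iff]
      exact Nat.le_floor hL
    · have hre : (τ - q.re / Real.sqrt 5 ^ L) ^ 2 < ε ^ 2 := by
        refine lt_of_le_of_lt ?_ hx
        unfold qs qd
        nlinarith [sq_nonneg (Real.sqrt (1 - τ ^ 2) * (x : E 3) 0 - q.imI / Real.sqrt 5 ^ L),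
          sq_nonneg (Real.sqrt (1 - τ ^ 2) * (x : E 3) 1 - q.imJ / Real.sqrt 5 ^ L),
          sq_nonneg (Real.sqrt (1 - τ ^ 2) * (x : E 3) 2 - q.imK / Real.sqrt 5 ^ L)]
      obtain ⟨ha, hb⟩ := abs_lt.mp (abs_lt_of_sq_lt_sq hre hε.le)
      simp only [hA, Finset.mem_Icc]
      constructor
      · rw [Int.ceil_le]
        have : τ - ε ≤ q.re / Real.sqrt 5 ^ L := by linarith
        rwa [le_div_iff₀ hr0] at this
      · rw [Int.le_floor]
        have : q.re / Real.sqrt 5 ^ L ≤ τ + ε := by linarith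
        rwa [div_le_iff₀ hr0] at this
    · rw [mem_S3]
      rw [Quaternion.normSq_def'] at hq
      simp only [hm]
      have h5 : (0 : ℤ) ≤ 5 ^ L - q.re ^ 2 := by
        nlinarith [sq_nonneg q.imI, sq_nonneg q.imJ, sq_nonneg q.imK]
      rw [Int.toNat_of_nonneg h5]
      linarith
    · exact hx
  refine (measureReal_mono hsub (measure_ne_top _ _)).trans (hlev1.trans ?_)
  -- the final estimate
  have hXle : X ≤ ε ^ (-(3 - δ)) := by
    rw [hX, ← Real.rpow_natCast]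
    calc (5 : ℝ) ^ (K : ℝ) ≤ 5 ^ L0 := Real.rpow_le_rpow_of_exponent_le (by norm_num) hKle
      _ = ε ^ (-(3 - δ)) := by
        rw [hL0, mul_comm, Real.rpow_mul (by norm_num), Real.rpow_logb (by norm_num) (by norm_num)
          (by positivity), one_div, Real.inv_rpow hε.le, Real.rpow_neg hε.le]
  have hRle : R ≤ ε ^ (-(3 - δ) / 2) := by
    have h3 : R ^ 2 ≤ (ε ^ (-(3 - δ) / 2)) ^ 2 := by
      rw [hRX, ← Real.rpow_natCast, ← Real.rpow_mul hε.le]
      convert hXle using 2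
      push_cast
      ring
    exact le_of_sq_le_sq h3 (by positivity)
  have hKX : (K : ℝ) + 1 ≤ (1 + 12 / d) * X ^ (d / 12) := by
    have h3 : 1 + (K : ℝ) * (d / 12) ≤ X ^ (d / 12) := by
      rw [hX, ← Real.rpow_natCast, ← Real.rpow_mul (by norm_num),
        Real.rpow_def_of_pos (by norm_num)]
      have h5 : 1 ≤ Real.log 5 := by
        rw [Real.le_log_iff_exp_le (by norm_num)]
        have := Real.exp_one_lt_d9
        linarith
      have h6 := Real.add_one_le_exp (Real.log 5 * ((K : ℝ) * (d / 12)))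
      have h7 : 0 ≤ (K : ℝ) * (d / 12) := by positivity
      nlinarith
    have h4 : (K : ℝ) + 1 ≤ (1 + 12 / d) * (1 + (K : ℝ) * (d / 12)) := by
      have e : (1 + 12 / d) * (1 + (K : ℝ) * (d / 12)) = 1 + K * (d / 12) + 12 / d + K := by
        field_simp
        ring
      rw [e]
      have : 0 ≤ (K : ℝ) * (d / 12) := by positivity
      have : 0 ≤ 12 / d := by positivity
      linarith
    exact h4.trans (mul_le_mul_of_nonneg_left h3 (by positivity))
  have hXd : X ^ (d / 12) * X ^ (d / 12) ≤ ε ^ (-(d / 2)) := by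
    rw [← Real.rpow_add hX0]
    rcases le_total 3 δ with h3 | h3
    · have hX1' : X ≤ 1 := hXle.trans (Real.rpow_le_one hε.le hε1.le (by linarith))
      calc X ^ (d / 12 + d / 12) ≤ 1 := Real.rpow_le_one hX0.le hX1' (by positivity)
        _ ≤ ε ^ (-(d / 2)) := Real.one_le_rpow_of_pos_of_le_one_of_nonpos hε hε1.le (by linarith)
    · calc X ^ (d / 12 + d / 12) ≤ (ε ^ (-(3 - δ))) ^ (d / 12 + d / 12) :=
            Real.rpow_le_rpow hX0.le hXle (by positivity)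
        _ = ε ^ (-(3 - δ) * (d / 12 + d / 12)) := by rw [← Real.rpow_mul hε.le]
        _ ≤ ε ^ (-(d / 2)) := by
          apply Real.rpow_le_rpow_of_exponent_ge hε hε1.le
          nlinarith
  have hmain : ε ^ 2 * ((2 * ε * R + 1) * R) ≤ 3 * ε ^ d := by
    have e1 : ε ^ 2 * ((2 * ε * R + 1) * R) = 2 * (ε ^ 3 * X) + ε ^ 2 * R := by
      rw [← hRX]; ring
    have e2 : ε ^ 3 * X ≤ ε ^ d := by
      calc ε ^ 3 * X ≤ ε ^ 3 * ε ^ (-(3 - δ)) := mul_le_mul_of_nonneg_left hXle (by positivity)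
        _ = ε ^ δ := by
          rw [← Real.rpow_natCast ε 3, ← Real.rpow_add hε]
          congr 1
          push_cast
          ring
        _ ≤ ε ^ d := Real.rpow_le_rpow_of_exponent_ge hε hε1.le hdδ
    have e3 : ε ^ 2 * R ≤ ε ^ d := by
      calc ε ^ 2 * R ≤ ε ^ 2 * ε ^ (-(3 - δ) / 2) := mul_le_mul_of_nonneg_left hRle (by positivity)
        _ = ε ^ ((1 + δ) / 2) := by
          rw [← Real.rpow_natCast ε 2, ← Real.rpow_add hε]
          congr 1
          push_cast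
          ring
        _ ≤ ε ^ d := by
          apply Real.rpow_le_rpow_of_exponent_ge hε hε1.le
          linarith
    rw [e1]
    linarith
  calc ((K : ℝ) + 1) * ((2 * ε * R + 1) * (C₂ * R * X ^ (d / 12) * c0))
      ≤ ((1 + 12 / d) * X ^ (d / 12)) * ((2 * ε * R + 1) * (C₂ * R * X ^ (d / 12) * c0)) :=
        mul_le_mul_of_nonneg_right hKX (by positivity)
    _ = (1 + 12 / d) * C₂ * (C₁ * (2 / σ) ^ 2) *
          ((X ^ (d / 12) * X ^ (d / 12)) * (ε ^ 2 * ((2 * ε * R + 1) * R))) := by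
        rw [hc0]; ring
    _ ≤ (1 + 12 / d) * C₂ * (C₁ * (2 / σ) ^ 2) * (ε ^ (-(d / 2)) * (3 * ε ^ d)) := by
        apply mul_le_mul_of_nonneg_left _ (by positivity)
        exact mul_le_mul hXd hmain (by positivity) (by positivity)
    _ = 3 * (1 + 12 / d) * C₂ * (C₁ * (2 / σ) ^ 2) * (ε ^ (-(d / 2)) * ε ^ d) := by ring
    _ = 3 * (1 + 12 / d) * C₂ * (C₁ * (2 / σ) ^ 2) * ε ^ (d / 2) := by
        rw [← Real.rpow_add hε]
        congr 2
        ring

end Pool.Agent.H978V
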