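import Mathlib

/-!
JOB K2 (owner helper978, MP_06cce2_nt).
-/

set_option autoImplicit false

namespace Pool.Agent.H978V

theorem binary5_five {a b : ℤ} (h : (5 : ℤ) ∣ a * b) : 5 ∣ a ∨ 5 ∣ b :=
  (by norm_num : Prime (5 : ℤ)).dvd_or_dvd h

theorem binary5_sq {a : ℤ} (h : (5 : ℤ) ∣ a ^ 2) : 5 ∣ a :=
  (by norm_num : Prime (5 : ℤ)).dvd_of_dvd_pow h

theorem binary5_aux (H : ℤ) (hH : 1 ≤ H) (n : ℤ) (hn : 0 < n) (x g x' g' : ℤ)
    (e : x ^ 2 + 4 * H * g ^ 2 = n) (e' : x' ^ 2 + 4 * H * g' ^ 2 = n)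
    (hd : n ∣ x * g' - x' * g) : x ^ 2 = x' ^ 2 ∧ g ^ 2 = g' ^ 2 := by
  have hA : x * g' - x' * g = 0 := by
    by_contra hne
    obtain ⟨c, hc⟩ := hd
    have hc0 : c ≠ 0 := by
      rintro rfl
      exact hne (by simpa using hc)
    have hc1 : 1 ≤ c ^ 2 := by
      have : 0 < c ^ 2 := by positivity
      omega
    have id1 : (x * x' + 4 * H * g * g') ^ 2 + 4 * H * (x * g' - x' * g) ^ 2 = n ^ 2 := by
      calc (x * x' + 4 * H * g * g') ^ 2 + 4 * H * (x * g' - x' * g) ^ 2
          = (x ^ 2 + 4 * H * g ^ 2) * (x' ^ 2 + 4 * H * g' ^ 2) := by ring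
        _ = n ^ 2 := by rw [e, e']; ring
    rw [hc] at id1
    have h1 : 4 * H * (n * c) ^ 2 ≤ n ^ 2 := by nlinarith [sq_nonneg (x * x' + 4 * H * g * g')]
    have h2 : n ^ 2 ≤ (n * c) ^ 2 := by
      rw [mul_pow]
      nlinarith [sq_nonneg n]
    have h3 : 0 < n ^ 2 := by positivity
    nlinarith
  have h1 : x * g' = x' * g := by linarith
  have h2 : (x ^ 2 - x' ^ 2) * n = 0 := by
    have h3 : x ^ 2 * g' ^ 2 = x' ^ 2 * g ^ 2 := by
      rw [← mul_pow, h1, mul_pow]
    linear_combination x' ^ 2 * e - x ^ 2 * e' + 4 * H * h3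
  have h4 : x ^ 2 = x' ^ 2 := by
    rcases mul_eq_zero.1 h2 with h | h
    · linarith
    · omega
  refine ⟨h4, ?_⟩
  have h5 : 4 * H * (g ^ 2 - g' ^ 2) = 0 := by linear_combination e - e' - h4
  rcases mul_eq_zero.1 h5 with h | h
  · omega
  · linarith

theorem binary5_prim (j : ℕ) : ∀ (H : ℤ), 1 ≤ H → ∀ (x g x' g' : ℤ),
    x ^ 2 + 4 * H * g ^ 2 = 5 ^ j → x' ^ 2 + 4 * H * g' ^ 2 = 5 ^ j →
    ¬ (5 ∣ x ∧ 5 ∣ g) → ¬ (5 ∣ x' ∧ 5 ∣ g') → x ^ 2 = x' ^ 2 ∧ g ^ 2 = g' ^ 2 := by
  induction j using Nat.strong_induction_on with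
  | _ j ih =>
    intro H hH x g x' g' e e' hp hp'
    rcases Nat.eq_zero_or_pos j with rfl | hj
    · have key : ∀ a b : ℤ, a ^ 2 + 4 * H * b ^ 2 = 5 ^ 0 → b = 0 := by
        intro a b hab
        by_contra hb
        have : 0 < b ^ 2 := by positivity
        nlinarith [sq_nonneg a]
      have h1 := key x g e
      have h2 := key x' g' e'
      subst h1 h2
      constructor
      · linarith
      · rfl
    · have h5j : (5 : ℤ) ∣ 5 ^ j := dvd_pow_self 5 (by omega)
      by_cases h5 : (5 : ℤ) ∣ H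
      · -- descend
        have key : ∀ a b : ℤ, a ^ 2 + 4 * H * b ^ 2 = 5 ^ j → ¬ (5 ∣ a ∧ 5 ∣ b) →
            (5 : ℤ) ∣ a ∧ ¬ (5 : ℤ) ∣ b ∧ 2 ≤ j := by
          intro a b hab hpr
          have ha : (5 : ℤ) ∣ a := by
            apply binary5_sq
            have : a ^ 2 = 5 ^ j - 4 * H * b ^ 2 := by linarith
            rw [this]
            exact dvd_sub h5j (Dvd.dvd.mul_right (Dvd.dvd.mul_left h5 4) _)
          refine ⟨ha, fun hb => hpr ⟨ha, hb⟩, ?_⟩
          by_contra hj2
          have hj1 : j = 1 := by omega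
          subst hj1
          obtain ⟨c, rfl⟩ := ha
          have hc : c = 0 := by
            by_contra hc
            have : 0 < c ^ 2 := by positivity
            have : 0 ≤ 4 * H * b ^ 2 := by positivity
            nlinarith
          subst hc
          have : (4 : ℤ) ∣ 5 := ⟨H * b ^ 2, by linarith⟩
          omega
        obtain ⟨⟨x1, rfl⟩, hg, hj2⟩ := key x g e hp
        obtain ⟨⟨x1', rfl⟩, hg', _⟩ := key x' g' e' hp'
        obtain ⟨k, rfl⟩ : ∃ k, j = k + 2 := ⟨j - 2, by omega⟩
        have h25 : (25 : ℤ) ∣ H := by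
          have h1 : (25 : ℤ) ∣ H * (4 * g ^ 2) :=
            ⟨5 ^ k - x1 ^ 2, by linear_combination e⟩
          have h2 : IsCoprime (25 : ℤ) (4 * g ^ 2) := by
            have h3 : IsCoprime (5 : ℤ) g :=
              (by norm_num : Prime (5 : ℤ)).coprime_iff_not_dvd.2 hg
            have h4 : IsCoprime (5 : ℤ) 4 := ⟨1, -1, by norm_num⟩
            have h5 : IsCoprime (5 : ℤ) (4 * g ^ 2) := IsCoprime.mul_right h4 h3.pow_right
            have : (25 : ℤ) = 5 ^ 2 := by norm_num
            rw [this]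
            exact h5.pow_left
          exact h2.dvd_of_dvd_mul_right h1
        obtain ⟨H1, rfl⟩ := h25
        have := ih k (by omega) H1 (by omega) x1 g x1' g'
          (by linarith [show (5 : ℤ) ^ (k + 2) = 25 * 5 ^ k by ring])
          (by linarith [show (5 : ℤ) ^ (k + 2) = 25 * 5 ^ k by ring])
          (fun hh => hg hh.2) (fun hh => hg' hh.2)
        refine ⟨?_, this.2⟩
        rw [mul_pow, mul_pow, this.1]
      · -- 5 does not divide H
        have key : ∀ a b : ℤ, a ^ 2 + 4 * H * b ^ 2 = 5 ^ j → ¬ (5 ∣ a ∧ 5 ∣ b) →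
            ¬ (5 : ℤ) ∣ a ∧ ¬ (5 : ℤ) ∣ b := by
          intro a b hab hpr
          constructor
          · intro ha
            apply hpr
            refine ⟨ha, ?_⟩
            have h1 : (5 : ℤ) ∣ 4 * H * b ^ 2 := by
              have : 4 * H * b ^ 2 = 5 ^ j - a * a := by linarith
              rw [this]
              exact dvd_sub h5j (Dvd.dvd.mul_right ha _)
            rcases binary5_five h1 with h2 | h2
            · rcases binary5_five h2 with h3 | h3
              · omega
              · exact absurd h3 h5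
            · exact binary5_sq h2
          · intro hb
            apply hpr
            refine ⟨?_, hb⟩
            apply binary5_sq
            have : a ^ 2 = 5 ^ j - 4 * H * b * b := by linarith
            rw [this]
            exact dvd_sub h5j (Dvd.dvd.mul_left hb _)
        obtain ⟨hx, hg⟩ := key x g e hp
        obtain ⟨hx', hg'⟩ := key x' g' e' hp'
        have hprod : (x * g' - x' * g) * (x * g' + x' * g) = 5 ^ j * (g' ^ 2 - g ^ 2) := by
          linear_combination g' ^ 2 * e - g ^ 2 * e'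
        have h5p : (0 : ℤ) < 5 ^ j := by positivity
        have hP : Prime (5 : ℤ) := by norm_num
        by_cases hs : (5 : ℤ) ∣ x * g' + x' * g
        · have hd : ¬ (5 : ℤ) ∣ x * g' - x' * g := by
            intro hd
            have : (5 : ℤ) ∣ 2 * (x * g') := by
              have h := dvd_add hs hd
              have e2 : x * g' + x' * g + (x * g' - x' * g) = 2 * (x * g') := by ring
              rwa [e2] at h
            rcases binary5_five this with h | h
            · omega
            · rcases binary5_five h with h | h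
              · exact hx h
              · exact hg' h
          have hc : IsCoprime ((5 : ℤ) ^ j) (x * g' - x' * g) :=
            (hP.coprime_iff_not_dvd.2 hd).pow_left
          have : (5 : ℤ) ^ j ∣ x * g' + x' * g :=
            hc.dvd_of_dvd_mul_left (Dvd.intro _ hprod.symm)
          have h2 := binary5_aux H hH (5 ^ j) h5p x g x' (-g') (by linarith) (by linarith)
            (by
              have e3 : x * -g' - x' * g = -(x * g' + x' * g) := by ring
              rw [e3]
              exact (dvd_neg).2 this)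
          refine ⟨h2.1, ?_⟩
          linarith [h2.2, neg_sq g']
        · have hc : IsCoprime ((5 : ℤ) ^ j) (x * g' + x' * g) :=
            (hP.coprime_iff_not_dvd.2 hs).pow_left
          have : (5 : ℤ) ^ j ∣ x * g' - x' * g :=
            hc.dvd_of_dvd_mul_right (Dvd.intro _ hprod.symm)
          exact binary5_aux H hH (5 ^ j) h5p x g x' g' e e' this

theorem binary5_four (F : Finset (ℤ × ℤ)) (a b : ℤ) (hF : ∀ p ∈ F, p.1 ^ 2 = a ^ 2 ∧ p.2 ^ 2 = b ^ 2) :
    F.card ≤ 4 := by
  have hsub : F ⊆ ({a, -a} : Finset ℤ) ×ˢ ({b, -b} : Finset ℤ) := by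
    intro p hp
    obtain ⟨h1, h2⟩ := hF p hp
    rw [Finset.mem_product]
    constructor
    · simpa using sq_eq_sq_iff_eq_or_eq_neg.1 h1
    · simpa using sq_eq_sq_iff_eq_or_eq_neg.1 h2
  refine (Finset.card_le_card hsub).trans ?_
  rw [Finset.card_product]
  have h1 : ({a, -a} : Finset ℤ).card ≤ 2 := Finset.card_le_two
  have h2 : ({b, -b} : Finset ℤ).card ≤ 2 := Finset.card_le_two
  calc _ ≤ 2 * 2 := Nat.mul_le_mul h1 h2
    _ = 4 := by norm_num

theorem binary5_ind (l : ℕ) : ∀ (H : ℤ), 1 ≤ H → ∀ F : Finset (ℤ × ℤ),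
    (∀ p ∈ F, p.1 ^ 2 + 4 * H * p.2 ^ 2 = 5 ^ l) → F.card ≤ 2 * l + 4 := by
  classical
  induction l using Nat.strong_induction_on with
  | _ l ih =>
    intro H hH F hF
    set P : ℤ × ℤ → Prop := fun p => 5 ∣ p.1 ∧ 5 ∣ p.2 with hPdef
    have hsplit : (F.filter P).card + (F.filter fun p => ¬ P p).card = F.card :=
      Finset.card_filter_add_card_filter_not P
    have hprim : (F.filter fun p => ¬ P p).card ≤ 4 := by
      rcases (F.filter fun p => ¬ P p).eq_empty_or_nonempty with h0 | ⟨p0, hp0⟩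
      · rw [h0]; simp
      · refine binary5_four _ p0.1 p0.2 fun p hp => ?_
        rw [Finset.mem_filter] at hp hp0
        exact binary5_prim l H hH p.1 p.2 p0.1 p0.2 (hF p hp.1) (hF p0 hp0.1) hp.2 hp0.2
    by_cases hl : l < 2
    · have hempty : F.filter P = ∅ := by
        rw [Finset.filter_eq_empty_iff]
        rintro ⟨a, b⟩ hp ⟨⟨c, hc⟩, ⟨d, hd⟩⟩
        have h1 := hF _ hp
        simp only at hc hd h1
        subst hc hd
        have h25 : (25 : ℤ) ∣ 5 ^ l := ⟨c ^ 2 + 4 * H * d ^ 2, by linarith⟩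
        interval_cases l
        · norm_num at h25
        · norm_num at h25
      rw [hempty] at hsplit
      simp at hsplit
      omega
    · obtain ⟨k, rfl⟩ : ∃ k, l = k + 2 := ⟨l - 2, by omega⟩
      have hnon : (F.filter P).card ≤ 2 * k + 4 := by
        have hinj : Set.InjOn (fun p : ℤ × ℤ => (p.1 / 5, p.2 / 5)) (F.filter P) := by
          rintro ⟨a, b⟩ hp ⟨a', b'⟩ hp' heq
          simp only [Finset.coe_filter, Set.mem_ofPred_eq, hPdef] at hp hp'
          simp only [Prod.mk.injEq] at heq ⊢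
          omega
        rw [← Finset.card_image_of_injOn hinj]
        refine ih k (by omega) H hH _ ?_
        intro p hp
        rw [Finset.mem_image] at hp
        obtain ⟨⟨a, b⟩, hq, rfl⟩ := hp
        rw [Finset.mem_filter] at hq
        obtain ⟨hq, ⟨c, hc⟩, ⟨d, hd⟩⟩ := hq
        have h1 := hF _ hq
        simp only at hc hd h1
        subst hc hd
        have e1 : 5 * c / 5 = c := by omega
        have e2 : 5 * d / 5 = d := by omega
        simp only [e1, e2]
        have : (5 : ℤ) ^ (k + 2) = 25 * 5 ^ k := by ring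
        rw [this] at h1
        linarith
      omega

/-- TARGET -/
theorem binary5 (l H : ℕ) (hH : 1 ≤ H) (F : Finset (ℤ × ℤ))
    (hF : ∀ p ∈ F, p.1 ^ 2 + 4 * H * p.2 ^ 2 = 5 ^ l) : F.card ≤ 8 * (l + 1) := by
  have := binary5_ind l (H : ℤ) (by exact_mod_cast hH) F hF
  omega

end Pool.Agent.H978V
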