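import Pool.Agent.H978V.KDefs
import Pool.Agent.H510R2.Div
import Pool.Agent.H978V.K1
import Pool.Agent.H978V.K2

/-!
JOB K3 (owner helper978, MP_06cce2_nt).  `H978V/{Ar,Defs,Defs2,KDefs}.lean` are on origin/main.  `Pool.Agent.H510R2.divisor_bound` in `Pool/Agent/H510R2/Div.lean`; `gcd_sum` in `H978V/B8b.lean`
(`∑_{u ∈ Ioc 0 U} gcd n u ≤ τ(n) U`) may be copied.

Pairs of near points in a window of spheres.

PROOF.  For `a ∈ A`: `a` is odd, so `5^l - a² ≡ 0 mod 4`, `a² + 4 nA l a = 5^l`, `1 ≤ nA l a ≤ 5^l`.  For `p = (a,y), p' = (a',y') ∈ PW l A` with `sqd y y' ≤ X`.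
(1) PARALLEL pairs, `(dt y y')² = |y|²|y'|²`.  Write `y = g w` with `w` primitive (`g = ` content of `y ≠ 0`), then `y'` is an integral multiple `g' w` of `w` (`y'` is parallel to `w` and `w` is primitive), and
`(a', g')` is a solution of `x² + 4 |w|² g² = 5^l`.  So for each `p` there are at most `8 (l+1)` parallel `p'` (`binary5`; `p' ↦ (a', g')` is injective).  Total `≤ 8(l+1) |PW|`.
(2) OTHER pairs: for fixed `a, a'` with `n = nA l a`, `n' = nA l a'`; `D = sqd y y' = n + n' - 2b`, `b = dt y y'`, `b² < n n'` (Cauchy-Schwarz, not parallel), `1 ≤ D ≤ X` (`D = |y-y'|² > 0` as `y ≠ y'`).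
For given `D` there is at most one `b`, and `linnik2` bounds the number of pairs by `K (nn')^{δ/4} gcd(gcd(n,n'),|b|)`, and this gcd divides `n` and `D`.  So the sum over `1 ≤ D ≤ X` is
`≤ K (nn')^{δ/4} ∑_{D ≤ X} gcd(n, D) ≤ K (nn')^{δ/4} τ(n) X ≤ K' (5^l)^{δ/2 + δ/4} X`.  Sum over `(a,a') ∈ A²`.
`l + 1 ≤ C (5^l)^δ`.
-/

set_option autoImplicit false

open scoped Quaternion

namespace Pool.Agent.H978V

open Pool.Agent.Helper557.Rz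



/-! ### elementary facts -/

lemma k3_nA {l : ℕ} {a : ℤ} (h : a % 4 = 1 ∧ a ^ 2 < 5 ^ l) :
    a ^ 2 + 4 * (nA l a : ℤ) = 5 ^ l ∧ 1 ≤ nA l a ∧ nA l a ≤ 5 ^ l := by
  obtain ⟨h1, h2⟩ := h
  obtain ⟨k, hk⟩ : ∃ k : ℤ, a = 4 * k + 1 := ⟨a / 4, by omega⟩
  have h5 : (5 : ℤ) ^ l % 4 = 1 := by
    have : (5 : ℤ) ^ l ≡ 1 ^ l [ZMOD 4] := Int.ModEq.pow l (by decide)
    rw [one_pow] at this
    exact this
  have ha : a ^ 2 % 4 = 1 := by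
    rw [hk]
    have : (4 * k + 1) ^ 2 = 4 * (4 * k ^ 2 + 2 * k) + 1 := by ring
    rw [this]
    omega
  have hpos : 0 < (5 : ℤ) ^ l - a ^ 2 := by linarith
  have h4 : ((5 : ℤ) ^ l - a ^ 2) / 4 * 4 = 5 ^ l - a ^ 2 := by omega
  have hn : (nA l a : ℤ) = ((5 : ℤ) ^ l - a ^ 2) / 4 := by
    unfold nA
    exact Int.toNat_of_nonneg (by omega)
  have e : a ^ 2 + 4 * (nA l a : ℤ) = 5 ^ l := by rw [hn]; linarith
  refine ⟨e, ?_, ?_⟩
  · have : (1 : ℤ) ≤ nA l a := by omega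
    exact_mod_cast this
  · have : (nA l a : ℤ) ≤ 5 ^ l := by nlinarith [sq_nonneg a]
    exact_mod_cast this

lemma k3_bezout (y : ℤ × ℤ × ℤ) (hy : y ≠ 0) : ∃ (g : ℤ) (w u : ℤ × ℤ × ℤ), g ≠ 0 ∧
    y = (g * w.1, g * w.2.1, g * w.2.2) ∧ u.1 * w.1 + u.2.1 * w.2.1 + u.2.2 * w.2.2 = 1 := by
  obtain ⟨a, b, c⟩ := y
  set g₁ : ℤ := (Int.gcd a b : ℤ) with hg₁
  set g : ℤ := (Int.gcd g₁ c : ℤ) with hg
  have b1 : g₁ = a * Int.gcdA a b + b * Int.gcdB a b := Int.gcd_eq_gcd_ab a b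
  have b2 : g = g₁ * Int.gcdA g₁ c + c * Int.gcdB g₁ c := Int.gcd_eq_gcd_ab g₁ c
  have d1 : g ∣ g₁ := Int.gcd_dvd_left ..
  have d2 : g ∣ c := Int.gcd_dvd_right ..
  have d3 : g ∣ a := d1.trans (Int.gcd_dvd_left ..)
  have d4 : g ∣ b := d1.trans (Int.gcd_dvd_right ..)
  have hg0 : g ≠ 0 := by
    intro h0
    apply hy
    rw [h0, zero_dvd_iff] at d2 d3 d4
    rw [d2, d3, d4]
    rfl
  obtain ⟨wa, hwa⟩ := d3
  obtain ⟨wb, hwb⟩ := d4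
  obtain ⟨wc, hwc⟩ := d2
  refine ⟨g, (wa, wb, wc), (Int.gcdA a b * Int.gcdA g₁ c, Int.gcdB a b * Int.gcdA g₁ c,
    Int.gcdB g₁ c), hg0, ?_, ?_⟩
  · simp only [← hwa, ← hwb, ← hwc]
  · apply mul_left_cancel₀ hg0
    calc g * (Int.gcdA a b * Int.gcdA g₁ c * wa + Int.gcdB a b * Int.gcdA g₁ c * wb +
          Int.gcdB g₁ c * wc) = ((g * wa) * Int.gcdA a b + (g * wb) * Int.gcdB a b) *
          Int.gcdA g₁ c + (g * wc) * Int.gcdB g₁ c := by ring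
      _ = (a * Int.gcdA a b + b * Int.gcdB a b) * Int.gcdA g₁ c + c * Int.gcdB g₁ c := by
          rw [← hwa, ← hwb, ← hwc]
      _ = g := by rw [← b1, ← b2]
      _ = g * 1 := by ring

lemma k3_par {n n' : ℕ} {y z : ℤ × ℤ × ℤ} (hy : y ∈ S3 n) (hz : z ∈ S3 n')
    (h : (dt y z) ^ 2 = (n : ℤ) * n') :
    y.1 * z.2.1 = y.2.1 * z.1 ∧ y.1 * z.2.2 = y.2.2 * z.1 ∧ y.2.1 * z.2.2 = y.2.2 * z.2.1 := by
  rw [mem_S3] at hy hz
  unfold dt at h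
  rw [← hy, ← hz] at h
  have h0 : (y.1 * z.2.1 - y.2.1 * z.1) ^ 2 + (y.1 * z.2.2 - y.2.2 * z.1) ^ 2 +
    (y.2.1 * z.2.2 - y.2.2 * z.2.1) ^ 2 = 0 := by linear_combination -h
  have s1 := sq_nonneg (y.1 * z.2.1 - y.2.1 * z.1)
  have s2 := sq_nonneg (y.1 * z.2.2 - y.2.2 * z.1)
  have s3 := sq_nonneg (y.2.1 * z.2.2 - y.2.2 * z.2.1)
  have e1 := pow_eq_zero_iff (two_ne_zero) |>.1 (show (y.1 * z.2.1 - y.2.1 * z.1) ^ 2 = 0 by linarith)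
  have e2 := pow_eq_zero_iff (two_ne_zero) |>.1 (show (y.1 * z.2.2 - y.2.2 * z.1) ^ 2 = 0 by linarith)
  have e3 := pow_eq_zero_iff (two_ne_zero) |>.1
    (show (y.2.1 * z.2.2 - y.2.2 * z.2.1) ^ 2 = 0 by linarith)
  exact ⟨by linarith, by linarith, by linarith⟩

lemma k3_cs {n n' : ℕ} {y z : ℤ × ℤ × ℤ} (hy : y ∈ S3 n) (hz : z ∈ S3 n') :
    (dt y z) ^ 2 ≤ (n : ℤ) * n' := by
  rw [mem_S3] at hy hz
  unfold dt
  rw [← hy, ← hz]
  nlinarith [sq_nonneg (y.1 * z.2.1 - y.2.1 * z.1), sq_nonneg (y.1 * z.2.2 - y.2.2 * z.1),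
    sq_nonneg (y.2.1 * z.2.2 - y.2.2 * z.2.1)]

lemma k3_sqd {n n' : ℕ} {y z : ℤ × ℤ × ℤ} (hy : y ∈ S3 n) (hz : z ∈ S3 n') :
    sqd y z = (n : ℤ) + n' - 2 * dt y z := by
  rw [mem_S3] at hy hz
  unfold sqd
  rw [← hy, ← hz]
  unfold dt
  ring

lemma k3_sqd_nonneg (y z : ℤ × ℤ × ℤ) : 0 ≤ sqd y z := by
  unfold sqd dt
  nlinarith [sq_nonneg (y.1 - z.1), sq_nonneg (y.2.1 - z.2.1), sq_nonneg (y.2.2 - z.2.2)]

lemma k3_sqd_zero {y z : ℤ × ℤ × ℤ} (h : sqd y z = 0) : y = z := by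
  unfold sqd dt at h
  have h0 : (z.1 - y.1) ^ 2 + (z.2.1 - y.2.1) ^ 2 + (z.2.2 - y.2.2) ^ 2 = 0 := by nlinarith
  have s1 := sq_nonneg (z.1 - y.1)
  have s2 := sq_nonneg (z.2.1 - y.2.1)
  have s3 := sq_nonneg (z.2.2 - y.2.2)
  have e1 := pow_eq_zero_iff (two_ne_zero) |>.1 (show (z.1 - y.1) ^ 2 = 0 by linarith)
  have e2 := pow_eq_zero_iff (two_ne_zero) |>.1 (show (z.2.1 - y.2.1) ^ 2 = 0 by linarith)
  have e3 := pow_eq_zero_iff (two_ne_zero) |>.1 (show (z.2.2 - y.2.2) ^ 2 = 0 by linarith)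
  ext
  · linarith
  · linarith
  · linarith

lemma k3_gcd_sum (n U : ℕ) (hn : 1 ≤ n) :
    (∑ u ∈ Finset.Ioc 0 U, Nat.gcd n u) ≤ n.divisors.card * U := by
  classical
  have h1 : ∀ u ∈ Finset.Ioc 0 U, Nat.gcd n u ≤ ∑ g ∈ n.divisors, if g ∣ u then g else 0 := by
    intro u _
    have hmem : Nat.gcd n u ∈ n.divisors :=
      Nat.mem_divisors.2 ⟨Nat.gcd_dvd_left _ _, by omega⟩
    calc Nat.gcd n u = (if Nat.gcd n u ∣ u then Nat.gcd n u else 0) := by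
          rw [if_pos (Nat.gcd_dvd_right _ _)]
      _ ≤ ∑ g ∈ n.divisors, if g ∣ u then g else 0 :=
          Finset.single_le_sum (f := fun g => if g ∣ u then g else 0) (fun _ _ => Nat.zero_le _) hmem
  refine (Finset.sum_le_sum h1).trans ?_
  rw [Finset.sum_comm]
  have h2 : ∀ g ∈ n.divisors, (∑ u ∈ Finset.Ioc 0 U, if g ∣ u then g else 0) ≤ U := by
    intro g _
    rw [← Finset.sum_filter, Finset.sum_const, Nat.Ioc_filter_dvd_card_eq_div, smul_eq_mul]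
    exact Nat.div_mul_le_self U g
  refine (Finset.sum_le_sum h2).trans ?_
  rw [Finset.sum_const, smul_eq_mul]

/-! ### parallel pairs -/

lemma k3_parallel (l : ℕ) (A : Finset ℤ) (hA : ∀ a ∈ A, a % 4 = 1 ∧ a ^ 2 < 5 ^ l)
    (p : ℤ × (ℤ × ℤ × ℤ)) (hp : p ∈ PW l A) :
    ((PW l A).filter (fun p' => (dt p.2 p'.2) ^ 2 = (nA l p.1 : ℤ) * nA l p'.1)).card ≤
      8 * (l + 1) := by
  classical
  obtain ⟨h1, h2⟩ := mem_PW.1 hp
  obtain ⟨e1, e2, e3⟩ := k3_nA (hA _ h1)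
  have hy0 : p.2 ≠ 0 := by
    intro h0
    rw [mem_S3, h0] at h2
    simp at h2
    omega
  obtain ⟨g, w, u, hg, hy, hu⟩ := k3_bezout p.2 hy0
  set H : ℕ := (w.1 ^ 2 + w.2.1 ^ 2 + w.2.2 ^ 2).toNat with hH
  have hHe : (H : ℤ) = w.1 ^ 2 + w.2.1 ^ 2 + w.2.2 ^ 2 := Int.toNat_of_nonneg (by positivity)
  have hH1 : 1 ≤ H := by
    by_contra hc
    have hc0 : H = 0 := by omega
    rw [hc0] at hHe
    have s1 := sq_nonneg w.1
    have s2 := sq_nonneg w.2.1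
    have s3 := sq_nonneg w.2.2
    push_cast at hHe
    have z1 := pow_eq_zero_iff (two_ne_zero) |>.1 (show w.1 ^ 2 = 0 by linarith)
    have z2 := pow_eq_zero_iff (two_ne_zero) |>.1 (show w.2.1 ^ 2 = 0 by linarith)
    have z3 := pow_eq_zero_iff (two_ne_zero) |>.1 (show w.2.2 ^ 2 = 0 by linarith)
    rw [z1, z2, z3] at hu
    simp at hu
  set T := (PW l A).filter (fun p' => (dt p.2 p'.2) ^ 2 = (nA l p.1 : ℤ) * nA l p'.1) with hT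
  let f : ℤ × (ℤ × ℤ × ℤ) → ℤ × ℤ := fun q => (q.1, u.1 * q.2.1 + u.2.1 * q.2.2.1 + u.2.2 * q.2.2.2)
  have key : ∀ q ∈ T, q.2.1 = (f q).2 * w.1 ∧ q.2.2.1 = (f q).2 * w.2.1 ∧
      q.2.2.2 = (f q).2 * w.2.2 := by
    intro q hq
    rw [hT, Finset.mem_filter] at hq
    obtain ⟨hq1, hq2⟩ := hq
    obtain ⟨q1, q2⟩ := mem_PW.1 hq1
    obtain ⟨c1, c2, c3⟩ := k3_par h2 q2 hq2
    have y1 : p.2.1 = g * w.1 := by rw [hy]
    have y2 : p.2.2.1 = g * w.2.1 := by rw [hy]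
    have y3 : p.2.2.2 = g * w.2.2 := by rw [hy]
    rw [y1, y2] at c1
    rw [y1, y3] at c2
    rw [y2, y3] at c3
    have d1 : w.1 * q.2.2.1 = w.2.1 * q.2.1 := by
      apply mul_left_cancel₀ hg; linarith
    have d2 : w.1 * q.2.2.2 = w.2.2 * q.2.1 := by
      apply mul_left_cancel₀ hg; linarith
    have d3 : w.2.1 * q.2.2.2 = w.2.2 * q.2.2.1 := by
      apply mul_left_cancel₀ hg; linarith
    refine ⟨?_, ?_, ?_⟩
    · show q.2.1 = (u.1 * q.2.1 + u.2.1 * q.2.2.1 + u.2.2 * q.2.2.2) * w.1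
      linear_combination (-q.2.1) * hu - u.2.1 * d1 - u.2.2 * d2
    · show q.2.2.1 = (u.1 * q.2.1 + u.2.1 * q.2.2.1 + u.2.2 * q.2.2.2) * w.2.1
      linear_combination (-q.2.2.1) * hu + u.1 * d1 - u.2.2 * d3
    · show q.2.2.2 = (u.1 * q.2.1 + u.2.1 * q.2.2.1 + u.2.2 * q.2.2.2) * w.2.2
      linear_combination (-q.2.2.2) * hu + u.1 * d2 + u.2.1 * d3
  have hinj : Set.InjOn f T := by
    intro q hq q' hq' h
    obtain ⟨a1, a2, a3⟩ := key q hq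
    obtain ⟨b1, b2, b3⟩ := key q' hq'
    have hf1 : q.1 = q'.1 := congrArg (fun r : ℤ × ℤ => r.1) h
    have hf2 : (f q).2 = (f q').2 := congrArg (fun r : ℤ × ℤ => r.2) h
    rw [← hf2] at b1 b2 b3
    ext
    · exact hf1
    · rw [a1, b1]
    · rw [a2, b2]
    · rw [a3, b3]
  rw [← Finset.card_image_of_injOn hinj]
  apply binary5 l H hH1
  intro r hr
  obtain ⟨q, hq, rfl⟩ := Finset.mem_image.1 hr
  obtain ⟨a1, a2, a3⟩ := key q hq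
  rw [hT, Finset.mem_filter] at hq
  obtain ⟨q1, q2⟩ := mem_PW.1 hq.1
  obtain ⟨b1, -, -⟩ := k3_nA (hA _ q1)
  rw [mem_S3] at q2
  rw [hHe]
  rw [← b1, ← q2, a1, a2, a3]
  show q.1 ^ 2 + 4 * _ * (f q).2 ^ 2 = _
  ring

/-! ### other pairs -/

lemma k3_D (δ K : ℝ) (hK : 0 < K) (hL : ∀ (n n' : ℕ) (b : ℤ), b ^ 2 < n * n' →
    ((((S3 n) ×ˢ (S3 n')).filter (fun p => dt p.1 p.2 = b)).card : ℝ) ≤
      K * ((n : ℝ) * n') ^ δ * (Nat.gcd (Nat.gcd n n') b.natAbs : ℝ)) (n n' : ℕ) (hn : 1 ≤ n)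
    (D : ℕ) :
    ((((S3 n) ×ˢ (S3 n')).filter (fun p => (n : ℤ) + n' - 2 * dt p.1 p.2 = D ∧
      (dt p.1 p.2) ^ 2 < (n : ℤ) * n')).card : ℝ) ≤
      K * ((n : ℝ) * n') ^ δ * (Nat.gcd n D : ℝ) := by
  classical
  have hr : 0 ≤ K * ((n : ℝ) * n') ^ δ :=
    mul_nonneg hK.le (Real.rpow_nonneg (by positivity) _)
  rcases Finset.eq_empty_or_nonempty (((S3 n) ×ˢ (S3 n')).filter (fun p =>
      (n : ℤ) + n' - 2 * dt p.1 p.2 = D ∧ (dt p.1 p.2) ^ 2 < (n : ℤ) * n')) with h | h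
  · rw [h]
    simp only [Finset.card_empty, Nat.cast_zero]
    exact mul_nonneg hr (by positivity)
  · obtain ⟨q, hq⟩ := h
    rw [Finset.mem_filter] at hq
    obtain ⟨-, hq1, hq2⟩ := hq
    set b := dt q.1 q.2 with hb
    have hsub : ((S3 n) ×ˢ (S3 n')).filter (fun p => (n : ℤ) + n' - 2 * dt p.1 p.2 = D ∧
      (dt p.1 p.2) ^ 2 < (n : ℤ) * n') ⊆ ((S3 n) ×ˢ (S3 n')).filter (fun p => dt p.1 p.2 = b) := by
      intro r hr
      rw [Finset.mem_filter] at hr ⊢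
      exact ⟨hr.1, by linarith [hr.2.1]⟩
    have h1 : ((((S3 n) ×ˢ (S3 n')).filter (fun p => (n : ℤ) + n' - 2 * dt p.1 p.2 = D ∧
      (dt p.1 p.2) ^ 2 < (n : ℤ) * n')).card : ℝ) ≤
        ((((S3 n) ×ˢ (S3 n')).filter (fun p => dt p.1 p.2 = b)).card : ℝ) := by
      exact_mod_cast Finset.card_le_card hsub
    refine h1.trans ((hL n n' b hq2).trans ?_)
    refine mul_le_mul_of_nonneg_left ?_ hr
    have hdvd : Nat.gcd (Nat.gcd n n') b.natAbs ∣ Nat.gcd n D := by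
      set g := Nat.gcd (Nat.gcd n n') b.natAbs with hg
      have g1 : g ∣ n := (Nat.gcd_dvd_left _ _).trans (Nat.gcd_dvd_left _ _)
      have g2 : g ∣ n' := (Nat.gcd_dvd_left _ _).trans (Nat.gcd_dvd_right _ _)
      have g3 : (g : ℤ) ∣ b := by
        rw [← Int.dvd_natAbs]
        exact_mod_cast Nat.gcd_dvd_right (Nat.gcd n n') b.natAbs
      have g4 : (g : ℤ) ∣ (D : ℤ) := by
        rw [← hq1]
        exact dvd_sub (dvd_add (by exact_mod_cast g1) (by exact_mod_cast g2))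
          (Dvd.dvd.mul_left g3 2)
      exact Nat.dvd_gcd g1 (by exact_mod_cast g4)
    have : Nat.gcd (Nat.gcd n n') b.natAbs ≤ Nat.gcd n D :=
      Nat.le_of_dvd (Nat.gcd_pos_of_pos_left _ (by omega)) hdvd
    exact_mod_cast this

lemma k3_nonpar (δ : ℝ) (hδ : 0 < δ) : ∃ K : ℝ, 0 < K ∧ ∀ (n n' M X : ℕ), 1 ≤ n → 1 ≤ n' →
    n ≤ M → n' ≤ M →
    ((((S3 n) ×ˢ (S3 n')).filter (fun p => 0 < (n : ℤ) + n' - 2 * dt p.1 p.2 ∧
      (n : ℤ) + n' - 2 * dt p.1 p.2 ≤ X ∧ (dt p.1 p.2) ^ 2 < (n : ℤ) * n')).card : ℝ) ≤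
      K * (M : ℝ) ^ δ * X := by
  classical
  obtain ⟨K₁, hK₁, h₁⟩ := linnik2 (δ / 4) (by positivity)
  obtain ⟨K₂, hK₂, h₂⟩ := Pool.Agent.H510R2.divisor_bound (δ / 2) (by positivity)
  refine ⟨K₁ * K₂, by positivity, fun n n' M X hn hn' hM hM' => ?_⟩
  set F : ℕ → Finset ((ℤ × ℤ × ℤ) × (ℤ × ℤ × ℤ)) := fun D =>
    ((S3 n) ×ˢ (S3 n')).filter (fun p => (n : ℤ) + n' - 2 * dt p.1 p.2 = D ∧
      (dt p.1 p.2) ^ 2 < (n : ℤ) * n') with hF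
  have hsub : ((S3 n) ×ˢ (S3 n')).filter (fun p => 0 < (n : ℤ) + n' - 2 * dt p.1 p.2 ∧
      (n : ℤ) + n' - 2 * dt p.1 p.2 ≤ X ∧ (dt p.1 p.2) ^ 2 < (n : ℤ) * n') ⊆
      (Finset.Ioc 0 X).biUnion F := by
    intro p hp
    rw [Finset.mem_filter] at hp
    obtain ⟨p0, p1, p2, p3⟩ := hp
    rw [Finset.mem_biUnion]
    refine ⟨((n : ℤ) + n' - 2 * dt p.1 p.2).toNat, ?_, ?_⟩
    · rw [Finset.mem_Ioc]
      omega
    · rw [hF]
      simp only [Finset.mem_filter]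
      exact ⟨p0, (Int.toNat_of_nonneg p1.le).symm, p3⟩
  have hMn : (0 : ℝ) < M := by
    have : 1 ≤ M := hn.trans hM
    exact_mod_cast this
  have hnn : ((n : ℝ) * n') ^ (δ / 4) ≤ (M : ℝ) ^ (δ / 2) := by
    calc ((n : ℝ) * n') ^ (δ / 4) ≤ ((M : ℝ) * M) ^ (δ / 4) := by
          refine Real.rpow_le_rpow (by positivity) ?_ (by positivity)
          exact mul_le_mul (by exact_mod_cast hM) (by exact_mod_cast hM') (by positivity) hMn.le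
      _ = (M : ℝ) ^ (δ / 2) := by
          rw [Real.mul_rpow hMn.le hMn.le, ← Real.rpow_add hMn]
          congr 1
          ring
  have hdiv : (n.divisors.card : ℝ) ≤ K₂ * (M : ℝ) ^ (δ / 2) := by
    refine (h₂ n hn).trans (mul_le_mul_of_nonneg_left ?_ hK₂.le)
    exact Real.rpow_le_rpow (by positivity) (by exact_mod_cast hM) (by positivity)
  calc ((((S3 n) ×ˢ (S3 n')).filter (fun p => 0 < (n : ℤ) + n' - 2 * dt p.1 p.2 ∧
      (n : ℤ) + n' - 2 * dt p.1 p.2 ≤ X ∧ (dt p.1 p.2) ^ 2 < (n : ℤ) * n')).card : ℝ)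
      ≤ (((Finset.Ioc 0 X).biUnion F).card : ℝ) := by exact_mod_cast Finset.card_le_card hsub
    _ ≤ ((∑ D ∈ Finset.Ioc 0 X, (F D).card : ℕ) : ℝ) := by
        exact_mod_cast Finset.card_biUnion_le
    _ = ∑ D ∈ Finset.Ioc 0 X, ((F D).card : ℝ) := by push_cast; rfl
    _ ≤ ∑ D ∈ Finset.Ioc 0 X, K₁ * ((n : ℝ) * n') ^ (δ / 4) * (Nat.gcd n D : ℝ) :=
        Finset.sum_le_sum fun D _ => k3_D (δ / 4) K₁ hK₁ h₁ n n' hn D
    _ = K₁ * ((n : ℝ) * n') ^ (δ / 4) * ((∑ D ∈ Finset.Ioc 0 X, Nat.gcd n D : ℕ) : ℝ) := by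
        rw [← Finset.mul_sum]; push_cast; rfl
    _ ≤ K₁ * (M : ℝ) ^ (δ / 2) * ((n.divisors.card : ℝ) * X) := by
        refine mul_le_mul (mul_le_mul_of_nonneg_left hnn hK₁.le) ?_ (by positivity) (by positivity)
        exact_mod_cast k3_gcd_sum n X hn
    _ ≤ K₁ * (M : ℝ) ^ (δ / 2) * ((K₂ * (M : ℝ) ^ (δ / 2)) * X) := by
        refine mul_le_mul_of_nonneg_left ?_ (by positivity)
        exact mul_le_mul_of_nonneg_right hdiv (by positivity)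
    _ = K₁ * K₂ * (M : ℝ) ^ δ * X := by
        have : (M : ℝ) ^ δ = (M : ℝ) ^ (δ / 2) * (M : ℝ) ^ (δ / 2) := by
          rw [← Real.rpow_add hMn]
          congr 1
          ring
        rw [this]
        ring

/-- TARGET -/
theorem window_pairs (δ : ℝ) (hδ : 0 < δ) : ∃ K : ℝ, 0 < K ∧ ∀ (l : ℕ) (A : Finset ℤ),
    (∀ a ∈ A, a % 4 = 1 ∧ a ^ 2 < 5 ^ l) → ∀ X : ℕ,
    ((((PW l A) ×ˢ (PW l A)).filter (fun p => sqd p.1.2 p.2.2 ≤ X)).card : ℝ) ≤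
      K * ((5 : ℝ) ^ l) ^ δ * ((PW l A).card + (A.card : ℝ) ^ 2 * X) := by
  classical
  obtain ⟨C, hC1, hC⟩ := Pool.Agent.H510R2.prime_pow_aux δ hδ
  obtain ⟨K₀, hK₀, h₀⟩ := k3_nonpar δ hδ
  refine ⟨8 * C + K₀, by positivity, fun l A hA X => ?_⟩
  set P := PW l A with hP
  set T := (P ×ˢ P).filter (fun p => sqd p.1.2 p.2.2 ≤ X) with hT
  set T₁ := (P ×ˢ P).filter (fun p => (dt p.1.2 p.2.2) ^ 2 = (nA l p.1.1 : ℤ) * nA l p.2.1)
    with hT₁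
  set N : ℤ × ℤ → Finset ((ℤ × ℤ × ℤ) × (ℤ × ℤ × ℤ)) := fun c =>
    ((S3 (nA l c.1)) ×ˢ (S3 (nA l c.2))).filter (fun p =>
      0 < (nA l c.1 : ℤ) + nA l c.2 - 2 * dt p.1 p.2 ∧
      (nA l c.1 : ℤ) + nA l c.2 - 2 * dt p.1 p.2 ≤ X ∧
      (dt p.1 p.2) ^ 2 < (nA l c.1 : ℤ) * nA l c.2) with hN
  set T₂ := (A ×ˢ A).biUnion (fun c => (N c).image (fun q => ((c.1, q.1), (c.2, q.2)))) with hT₂
  have hsub : T ⊆ T₁ ∪ T₂ := by
    intro p hp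
    rw [hT, Finset.mem_filter, Finset.mem_product] at hp
    obtain ⟨⟨p1, p2⟩, p3⟩ := hp
    obtain ⟨a1, y1⟩ := mem_PW.1 p1
    obtain ⟨a2, y2⟩ := mem_PW.1 p2
    rw [Finset.mem_union]
    by_cases hpar : (dt p.1.2 p.2.2) ^ 2 = (nA l p.1.1 : ℤ) * nA l p.2.1
    · left
      rw [hT₁, Finset.mem_filter, Finset.mem_product]
      exact ⟨⟨p1, p2⟩, hpar⟩
    · right
      rw [hT₂, Finset.mem_biUnion]
      refine ⟨(p.1.1, p.2.1), Finset.mem_product.2 ⟨a1, a2⟩, ?_⟩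
      rw [Finset.mem_image]
      refine ⟨(p.1.2, p.2.2), ?_, rfl⟩
      rw [hN]
      simp only [Finset.mem_filter, Finset.mem_product]
      refine ⟨⟨y1, y2⟩, ?_, ?_, lt_of_le_of_ne (k3_cs y1 y2) hpar⟩
      · rw [← k3_sqd y1 y2]
        refine lt_of_le_of_ne (k3_sqd_nonneg _ _) fun h0 => hpar ?_
        have he := k3_sqd_zero h0.symm
        have y3 := y1
        rw [he] at y3
        rw [mem_S3] at y2 y3
        rw [he, ← y3, ← y2]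
        unfold dt
        ring
      · rw [← k3_sqd y1 y2]
        exact p3
  have c₁ : T₁.card ≤ P.card * (8 * (l + 1)) := by
    rw [hT₁, Finset.card_filter, Finset.sum_product]
    calc (∑ x ∈ P, ∑ y ∈ P, if (dt x.2 y.2) ^ 2 = (nA l x.1 : ℤ) * nA l y.1 then 1 else 0)
        ≤ ∑ x ∈ P, 8 * (l + 1) := by
          refine Finset.sum_le_sum fun x hx => ?_
          rw [← Finset.card_filter]
          exact k3_parallel l A hA x hx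
      _ = P.card * (8 * (l + 1)) := by rw [Finset.sum_const, smul_eq_mul]
  have c₂ : (T₂.card : ℝ) ≤ (A.card : ℝ) ^ 2 * (K₀ * ((5 : ℝ) ^ l) ^ δ * X) := by
    have s1 : T₂.card ≤ ∑ c ∈ A ×ˢ A, (N c).card := by
      refine Finset.card_biUnion_le.trans (Finset.sum_le_sum fun c _ => Finset.card_image_le)
    have s2 : (T₂.card : ℝ) ≤ ∑ c ∈ A ×ˢ A, ((N c).card : ℝ) := by exact_mod_cast s1
    refine s2.trans ?_
    have s3 : ∀ c ∈ A ×ˢ A, ((N c).card : ℝ) ≤ K₀ * ((5 : ℝ) ^ l) ^ δ * X := by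
      intro c hc
      rw [Finset.mem_product] at hc
      obtain ⟨-, n1, n2⟩ := k3_nA (hA _ hc.1)
      obtain ⟨-, m1, m2⟩ := k3_nA (hA _ hc.2)
      have := h₀ (nA l c.1) (nA l c.2) (5 ^ l) X n1 m1 n2 m2
      push_cast at this
      exact this
    refine (Finset.sum_le_sum s3).trans (le_of_eq ?_)
    rw [Finset.sum_const, Finset.card_product, nsmul_eq_mul]
    push_cast
    ring
  have c₃ : (T.card : ℝ) ≤ T₁.card + T₂.card := by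
    have := (Finset.card_le_card hsub).trans (Finset.card_union_le _ _)
    exact_mod_cast this
  have c₄ : ((l : ℝ) + 1) ≤ C * ((5 : ℝ) ^ l) ^ δ := by
    have := hC 5 (by norm_num) l
    exact_mod_cast this
  have c₅ : (T₁.card : ℝ) ≤ P.card * (8 * ((l : ℝ) + 1)) := by exact_mod_cast c₁
  have hp0 : (0 : ℝ) ≤ P.card := by positivity
  have c₆ : (P.card : ℝ) * (8 * ((l : ℝ) + 1)) ≤ P.card * (8 * (C * ((5 : ℝ) ^ l) ^ δ)) :=
    mul_le_mul_of_nonneg_left (by linarith) hp0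
  have hr0 : 0 ≤ ((5 : ℝ) ^ l) ^ δ := by positivity
  have hx0 : 0 ≤ (A.card : ℝ) ^ 2 * X := by positivity
  have hCC : 0 ≤ C := by linarith
  calc (T.card : ℝ) ≤ P.card * (8 * (C * ((5 : ℝ) ^ l) ^ δ)) +
        (A.card : ℝ) ^ 2 * (K₀ * ((5 : ℝ) ^ l) ^ δ * X) := by linarith
    _ = 8 * C * ((5 : ℝ) ^ l) ^ δ * P.card + K₀ * ((5 : ℝ) ^ l) ^ δ * ((A.card : ℝ) ^ 2 * X) := by
        ring
    _ ≤ (8 * C + K₀) * ((5 : ℝ) ^ l) ^ δ * (P.card + (A.card : ℝ) ^ 2 * X) := by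
        have q1 : 0 ≤ K₀ * ((5 : ℝ) ^ l) ^ δ * P.card := by positivity
        have q2 : 0 ≤ 8 * C * ((5 : ℝ) ^ l) ^ δ * ((A.card : ℝ) ^ 2 * X) := by positivity
        nlinarith

end Pool.Agent.H978V
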