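import Pool.Agent.H978V.KDefs
import Pool.Agent.H978V.C2
import Pool.Agent.H978V.K3

/-!
JOB K4 (owner helper978, MP_06cce2_nt).  `H978V/{Ar,Defs,Defs2,KDefs,C2}.lean` are on origin/main.

Energy of the kernels placed at the directions of the points of `PW l A`.

PROOF.  For `p = (a,y), p' = (a',y') ∈ PW l A`, `n = nA l a`, `n' = nA l a'` (`1 ≤ n, n' ≤ 5^l`, `|y|² = n`, `|y'|² = n'`), `c = inner (yh p) (yh p') = dt y y'/√(nn')`:
`sqd y y' = n + n' - 2 √(nn') c = (√n - √n')² + √(nn') (2 - 2c) ≤ W + 5^l (2 - 2c)`.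
Let `M = (PW l A).card ≤ (2·5^l+1)^4` and `t = 16 (2 log (M+1) + 2 log N)/(N-1)`, `X = ⌊W + 5^l t⌋₊` (`W ≥ 0` if `A` is nonempty; `A = ∅` trivial).  If `2 - 2c ≥ t`: `k2 ≤ wt N ((2-2c)/16) ≤ N² exp(-(N-1) t/16) ≤ N² / ((M+1)² N²)`;
the sum over these pairs is `≤ 1`.  Otherwise `sqd ≤ X`, `k2 ≤ N`, and `window_pairs` bounds the number of pairs.  Total `≤ 1 + N K (5^l)^{δ/2} (M + |A|² (W + 5^l t))`, `N t ≤ 64 (log (M+1) + log N) ≤ C (5^l N)^{δ/2}`.
If `A` is nonempty and `M ≥ 1` the `1` is absorbed by `N M`; if `M = 0` the left side is `0`.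
-/

set_option autoImplicit false

open MeasureTheory Set
open scoped Quaternion

namespace Pool.Agent.H978V

open Pool.Agent.Helper557.Rz



lemma nA_facts {l : ℕ} {a : ℤ} (h1 : a % 4 = 1) (h2 : a ^ 2 < 5 ^ l) :
    1 ≤ nA l a ∧ nA l a ≤ 5 ^ l := by
  have h5 : (5 : ℤ) ^ l % 4 = 1 := by
    have h : (5 : ℤ) ^ l ≡ 1 [ZMOD 4] := by
      simpa using (show (5 : ℤ) ≡ 1 [ZMOD 4] by decide).pow l
    exact h
  have ha : a ^ 2 % 4 = 1 := by
    have h : a ≡ 1 [ZMOD 4] := h1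
    have h' : a ^ 2 ≡ 1 [ZMOD 4] := by simpa using h.pow 2
    exact h'
  have hq : 0 ≤ a ^ 2 := sq_nonneg a
  have hz : ((5 ^ l : ℕ) : ℤ) = (5 : ℤ) ^ l := by push_cast; rfl
  unfold nA
  generalize a ^ 2 = q at *
  generalize (5 : ℤ) ^ l = z at *
  generalize 5 ^ l = y at *
  omega

lemma card_S3_le (n : ℕ) : (S3 n).card ≤ (2 * n + 1) ^ 3 := by
  unfold S3
  refine (Finset.card_filter_le _ _).trans ?_
  rw [Finset.card_product, Finset.card_product, Int.card_Icc]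
  have : ((n : ℤ) + 1 - -(n : ℤ)).toNat = 2 * n + 1 := by omega
  rw [this]
  apply le_of_eq
  ring

lemma card_PW_le {l : ℕ} {A : Finset ℤ} (hA : ∀ a ∈ A, a % 4 = 1 ∧ a ^ 2 < 5 ^ l) :
    (PW l A).card ≤ (2 * 5 ^ l + 1) ^ 4 := by
  have h1 : (PW l A).card ≤ A.card * (2 * 5 ^ l + 1) ^ 3 := by
    unfold PW
    refine Finset.card_biUnion_le_card_mul _ _ _ ?_
    intro a ha
    refine Finset.card_image_le.trans ?_
    refine (card_S3_le _).trans ?_
    have := (nA_facts (hA a ha).1 (hA a ha).2).2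
    gcongr
  have h2 : A.card ≤ 2 * 5 ^ l + 1 := by
    have hsub : A ⊆ Finset.Icc (-((5 ^ l : ℕ) : ℤ)) ((5 ^ l : ℕ) : ℤ) := by
      intro a ha
      have h := (hA a ha).2
      have hz : ((5 ^ l : ℕ) : ℤ) = (5 : ℤ) ^ l := by push_cast; rfl
      have h5 : (1 : ℤ) ≤ (5 : ℤ) ^ l := one_le_pow₀ (by norm_num)
      rw [Finset.mem_Icc, hz]
      constructor
      · by_contra hc
        push Not at hc
        nlinarith
      · by_contra hc
        push Not at hc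
        nlinarith
    have h3 := Finset.card_le_card hsub
    rw [Int.card_Icc] at h3
    have : (((5 ^ l : ℕ) : ℤ) + 1 - -((5 ^ l : ℕ) : ℤ)).toNat = 2 * 5 ^ l + 1 := by
      generalize 5 ^ l = y
      omega
    rwa [this] at h3
  calc (PW l A).card ≤ A.card * (2 * 5 ^ l + 1) ^ 3 := h1
    _ ≤ (2 * 5 ^ l + 1) * (2 * 5 ^ l + 1) ^ 3 := by gcongr
    _ = (2 * 5 ^ l + 1) ^ 4 := by ring

/-- the logarithmic factor is absorbed -/
lemma log_absorb (δ : ℝ) (hδ : 0 < δ) (l N M : ℕ) (hN : 2 ≤ N) (hM : M ≤ (2 * 5 ^ l + 1) ^ 4) :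
    64 * (Real.log ((M : ℝ) + 1) + Real.log N) ≤
      (64 * (162 + 4 / (δ / 2))) * ((5 : ℝ) ^ l * N) ^ (δ / 2) := by
  have hN' : (2 : ℝ) ≤ N := by exact_mod_cast hN
  have h5 : (1 : ℝ) ≤ (5 : ℝ) ^ l := one_le_pow₀ (by norm_num)
  have hM' : (M : ℝ) ≤ (2 * (5 : ℝ) ^ l + 1) ^ 4 := by exact_mod_cast hM
  have hM2 : (M : ℝ) + 1 ≤ 162 * ((5 : ℝ) ^ l) ^ 4 := by
    have h1 : (2 * (5 : ℝ) ^ l + 1) ^ 4 ≤ (3 * (5 : ℝ) ^ l) ^ 4 := by
      gcongr
      linarith
    have h2 : (1 : ℝ) ≤ ((5 : ℝ) ^ l) ^ 4 := one_le_pow₀ h5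
    nlinarith
  set Y : ℝ := (5 : ℝ) ^ l * N with hY
  have hY1 : 1 ≤ Y := by nlinarith
  have hlog1 : Real.log ((M : ℝ) + 1) ≤ Real.log 162 + 4 * Real.log ((5 : ℝ) ^ l) := by
    have := Real.log_le_log (by positivity) hM2
    rwa [Real.log_mul (by norm_num) (by positivity), Real.log_pow] at this
  have hlogN : 0 ≤ Real.log (N : ℝ) := Real.log_nonneg (by linarith)
  have hlogY : Real.log Y = Real.log ((5 : ℝ) ^ l) + Real.log N := by
    rw [hY, Real.log_mul (by positivity) (by positivity)]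
  have hd : 0 < δ / 2 := by positivity
  have hlog2 : Real.log Y ≤ Y ^ (δ / 2) / (δ / 2) := Real.log_le_rpow_div (by linarith) hd
  have hlog3 : Real.log 162 ≤ 162 := by
    have := Real.log_le_sub_one_of_pos (show (0 : ℝ) < 162 by norm_num)
    linarith
  have hP : 1 ≤ Y ^ (δ / 2) := Real.one_le_rpow hY1 hd.le
  have h4 : 4 * Real.log Y ≤ 4 / (δ / 2) * Y ^ (δ / 2) := by
    have : 4 / (δ / 2) * Y ^ (δ / 2) = 4 * (Y ^ (δ / 2) / (δ / 2)) := by ring
    rw [this]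
    linarith
  nlinarith

lemma far_aux (M N Lg s t : ℝ) (hM : 0 < M) (hN : 2 ≤ N)
    (hLg : Lg = Real.log (M + 1) + Real.log N) (ht : t = 16 * (2 * Lg) / (N - 1)) (hs : t ≤ s) :
    N ^ 2 * Real.exp (-((N - 1) * (s / 16))) ≤ 1 / (M * M) := by
  have hN1 : 0 < N - 1 := by linarith
  have h2 : 2 * Lg ≤ (N - 1) * (s / 16) := by
    have h : 2 * Lg = (N - 1) * (t / 16) := by
      rw [ht]
      field_simp
    rw [h]
    gcongr
  have h3 : Real.exp (-((N - 1) * (s / 16))) ≤ Real.exp (-(2 * Lg)) :=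
    Real.exp_le_exp.mpr (by linarith)
  have h4 : Real.exp (-(2 * Lg)) = 1 / ((M + 1) ^ 2 * N ^ 2) := by
    rw [Real.exp_neg, one_div]
    congr 1
    have : 2 * Lg = Real.log (((M + 1) * N) ^ 2) := by
      rw [Real.log_pow, Real.log_mul (by positivity) (by positivity), hLg]
      push_cast
      ring
    rw [this, Real.exp_log (by positivity)]
    ring
  rw [h4] at h3
  calc N ^ 2 * Real.exp (-((N - 1) * (s / 16)))
      ≤ N ^ 2 * (1 / ((M + 1) ^ 2 * N ^ 2)) := by gcongr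
    _ = 1 / (M + 1) ^ 2 := by field_simp
    _ ≤ 1 / (M * M) := by
      apply one_div_le_one_div_of_le (by positivity)
      nlinarith

lemma near_aux (c r r' d : ℝ) (h1 : 0 < r) (h2 : 0 < r') (h : c = d / (r * r')) :
    d = c * (r * r') := by
  rw [h]
  field_simp

lemma mm_aux (M : ℝ) (hM : 1 ≤ M) : M * (M * (1 / (M * M))) = 1 := by
  have : 0 < M := by linarith
  field_simp

lemma final_aux (N M W L t P K1 C a2 S : ℝ) (hN : 2 ≤ N) (hM : 1 ≤ M) (hW : 0 ≤ W) (hL : 1 ≤ L)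
    (hP : 1 ≤ P) (hK1 : 0 < K1) (hC : 0 < C) (ha2 : 0 ≤ a2) (hNt : N * t ≤ C * P)
    (hS : S ≤ K1 * P * (M + a2 * (W + L * t))) :
    1 + N * S ≤ (1 + K1 + K1 * C) * (P * P) * (N * M + a2 * (L + N * W)) := by
  have hN0 : 0 ≤ N := by linarith
  have hP0 : 0 < P := by linarith
  have hL0 : 0 < L := by linarith
  have hM0 : 0 < M := by linarith
  have e1 : N * S ≤ N * (K1 * P * (M + a2 * (W + L * t))) := mul_le_mul_of_nonneg_left hS hN0
  have e2 : N * (K1 * P * (M + a2 * (W + L * t))) =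
      K1 * P * (N * M + a2 * (N * W)) + K1 * P * (a2 * L) * (N * t) := by ring
  have e3 : K1 * P * (a2 * L) * (N * t) ≤ K1 * P * (a2 * L) * (C * P) :=
    mul_le_mul_of_nonneg_left hNt (by positivity)
  have e4 : K1 * P * (N * M + a2 * (N * W)) ≤ K1 * (P * P) * (N * M + a2 * (N * W)) := by
    have : P ≤ P * P := by nlinarith
    have h : 0 ≤ N * M + a2 * (N * W) := by positivity
    apply mul_le_mul_of_nonneg_right _ h
    exact mul_le_mul_of_nonneg_left this hK1.le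
  have e5 : 1 ≤ (P * P) * (N * M) := by
    have h1 : 1 ≤ P * P := by nlinarith
    have h2 : 1 ≤ N * M := by nlinarith
    nlinarith
  have goal_eq : (1 + K1 + K1 * C) * (P * P) * (N * M + a2 * (L + N * W)) =
      (P * P) * (N * M) + K1 * (P * P) * (N * M + a2 * (N * W)) +
      K1 * C * (P * P) * (a2 * L) +
      ((P * P) * (a2 * L + a2 * (N * W)) + K1 * (P * P) * (a2 * L) +
        K1 * C * (P * P) * (N * M + a2 * (N * W))) := by ring
  rw [goal_eq]
  have z5 : 0 ≤ (P * P) * (a2 * L + a2 * (N * W)) + K1 * (P * P) * (a2 * L) +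
        K1 * C * (P * P) * (N * M + a2 * (N * W)) := by positivity
  have e6 : K1 * P * (a2 * L) * (C * P) = K1 * C * (P * P) * (a2 * L) := by ring
  linarith

theorem window_energy (δ : ℝ) (hδ : 0 < δ) : ∃ K : ℝ, 0 < K ∧ ∀ (l : ℕ) (A : Finset ℤ),
    (∀ a ∈ A, a % 4 = 1 ∧ a ^ 2 < 5 ^ l) → ∀ N : ℕ, 2 ≤ N → ∀ W : ℝ,
    (∀ a ∈ A, ∀ a' ∈ A, (Real.sqrt (nA l a) - Real.sqrt (nA l a')) ^ 2 ≤ W) →
    ∀ yh : ℤ × (ℤ × ℤ × ℤ) → S 3,
    (∀ p ∈ PW l A, ∀ p' ∈ PW l A, inner ℝ (yh p : E 3) (yh p' : E 3) =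
      (dt p.2 p'.2 : ℝ) / (Real.sqrt (nA l p.1) * Real.sqrt (nA l p'.1))) →
    (∑ p ∈ PW l A, ∑ p' ∈ PW l A, k2 N (yh p) (yh p')) ≤
      K * ((5 : ℝ) ^ l * N) ^ δ * (N * (PW l A).card + (A.card : ℝ) ^ 2 * (5 ^ l + N * W)) := by
  classical
  obtain ⟨K1, hK1, hwp⟩ := window_pairs (δ / 2) (by positivity)
  set C : ℝ := 64 * (162 + 4 / (δ / 2)) with hC
  have hCpos : 0 < C := by positivity
  refine ⟨1 + K1 + K1 * C, by positivity, ?_⟩
  intro l A hA N hN W hW yh hyh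
  have hN' : (2 : ℝ) ≤ N := by exact_mod_cast hN
  have h5 : (1 : ℝ) ≤ (5 : ℝ) ^ l := one_le_pow₀ (by norm_num)
  set M : ℕ := (PW l A).card with hM
  have hMle : M ≤ (2 * 5 ^ l + 1) ^ 4 := card_PW_le hA
  set Y : ℝ := (5 : ℝ) ^ l * N with hY
  have hY1 : 1 ≤ Y := by nlinarith
  set P : ℝ := Y ^ (δ / 2) with hPdef
  have hP1 : 1 ≤ P := Real.one_le_rpow hY1 (by positivity)
  have hPP : Y ^ δ = P * P := by
    rw [hPdef, ← Real.rpow_add (by linarith)]
    congr 1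
    ring
  rcases (PW l A).eq_empty_or_nonempty with he | hne
  · -- no points
    rw [he]
    simp only [Finset.sum_empty]
    have hW0 : 0 ≤ (A.card : ℝ) ^ 2 * (5 ^ l + N * W) := by
      rcases A.eq_empty_or_nonempty with hA0 | ⟨a, ha⟩
      · rw [hA0]; simp
      · have hW0 : 0 ≤ W := (sq_nonneg _).trans (hW a ha a ha)
        positivity
    have hM0 : (0 : ℝ) ≤ N * (M : ℝ) := by positivity
    have : 0 ≤ N * (M : ℝ) + (A.card : ℝ) ^ 2 * (5 ^ l + N * W) := by linarith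
    positivity
  -- the main case
  have hM1 : 1 ≤ M := by
    rw [hM]
    exact Finset.card_pos.mpr hne
  have hM1' : (1 : ℝ) ≤ M := by exact_mod_cast hM1
  obtain ⟨p0, hp0⟩ := hne
  have hW0 : 0 ≤ W := (sq_nonneg _).trans (hW p0.1 (mem_PW.1 hp0).1 p0.1 (mem_PW.1 hp0).1)
  set Lg : ℝ := Real.log ((M : ℝ) + 1) + Real.log N with hLg
  have hLg0 : 0 ≤ Lg := by
    have h1 : 0 ≤ Real.log ((M : ℝ) + 1) := Real.log_nonneg (by linarith)
    have h2 : 0 ≤ Real.log (N : ℝ) := Real.log_nonneg (by linarith)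
    linarith
  set t : ℝ := 16 * (2 * Lg) / (N - 1) with ht
  have hN1 : (0 : ℝ) < (N : ℝ) - 1 := by linarith
  have ht0 : 0 ≤ t := by rw [ht]; positivity
  have hNt : N * t ≤ C * P := by
    have h1 : N * t ≤ 64 * Lg := by
      rw [ht, ← mul_div_assoc, div_le_iff₀ hN1]
      nlinarith
    exact h1.trans (log_absorb δ hδ l N M hN hMle)
  set X : ℕ := ⌊W + 5 ^ l * t⌋₊ with hX
  have hX0 : 0 ≤ W + 5 ^ l * t := by positivity
  have hXle : (X : ℝ) ≤ W + 5 ^ l * t := Nat.floor_le hX0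
  -- pointwise estimate
  have hpt : ∀ p ∈ PW l A, ∀ p' ∈ PW l A, k2 N (yh p) (yh p') ≤
      1 / ((M : ℝ) * M) + (if sqd p.2 p'.2 ≤ X then (N : ℝ) else 0) := by
    intro p hp p' hp'
    obtain ⟨ha, hy⟩ := mem_PW.1 hp
    obtain ⟨ha', hy'⟩ := mem_PW.1 hp'
    obtain ⟨hn1, hn2⟩ := nA_facts (hA _ ha).1 (hA _ ha).2
    obtain ⟨hn1', hn2'⟩ := nA_facts (hA _ ha').1 (hA _ ha').2
    rw [mem_S3] at hy hy'
    have hk := (k2_le N (by omega) (yh p) (yh p')).2
    set c : ℝ := inner ℝ (yh p : E 3) (yh p' : E 3) with hc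
    have hc1 : c ≤ 1 := by
      have h := real_inner_le_norm (yh p : E 3) (yh p' : E 3)
      rw [norm_eq_of_mem_sphere, norm_eq_of_mem_sphere] at h
      simpa using h
    have hcc := hyh p hp p' hp'
    rw [← hc] at hcc
    have hs1 : 0 < Real.sqrt (nA l p.1) := Real.sqrt_pos.mpr (by exact_mod_cast hn1)
    have hs2 : 0 < Real.sqrt (nA l p'.1) := Real.sqrt_pos.mpr (by exact_mod_cast hn1')
    have hq1 : Real.sqrt (nA l p.1) ^ 2 = nA l p.1 := Real.sq_sqrt (by positivity)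
    have hq2 : Real.sqrt (nA l p'.1) ^ 2 = nA l p'.1 := Real.sq_sqrt (by positivity)
    have hb1 : ((nA l p.1 : ℕ) : ℝ) ≤ (5 : ℝ) ^ l := by exact_mod_cast hn2
    have hb2 : ((nA l p'.1 : ℕ) : ℝ) ≤ (5 : ℝ) ^ l := by exact_mod_cast hn2'
    have hWp := hW _ ha _ ha'
    set r : ℝ := Real.sqrt (nA l p.1) with hr
    set r' : ℝ := Real.sqrt (nA l p'.1) with hr'
    have hdt : (dt p.2 p'.2 : ℝ) = c * (r * r') := near_aux c r r' _ hs1 hs2 hcc
    have hd1 : ((dt p.2 p.2 : ℤ) : ℝ) = r ^ 2 := by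
      rw [hq1]
      have : dt p.2 p.2 = (nA l p.1 : ℤ) := by
        rw [← hy]; unfold dt; ring
      rw [this]; simp
    have hd2 : ((dt p'.2 p'.2 : ℤ) : ℝ) = r' ^ 2 := by
      rw [hq2]
      have : dt p'.2 p'.2 = (nA l p'.1 : ℤ) := by
        rw [← hy']; unfold dt; ring
      rw [this]; simp
    have hrr : r * r' ≤ (5 : ℝ) ^ l := by nlinarith [sq_nonneg (r - r')]
    have hsq : ((sqd p.2 p'.2 : ℤ) : ℝ) = (r - r') ^ 2 + (r * r') * (2 - 2 * c) := by
      unfold sqd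
      push_cast
      rw [hd1, hd2, hdt]
      ring
    by_cases hfar : t ≤ 2 - 2 * c
    · -- far
      have h1 : k2 N (yh p) (yh p') ≤ 1 / ((M : ℝ) * M) :=
        (hk.trans (min_le_right _ _)).trans
          (far_aux M N Lg (2 - 2 * c) t (by linarith) hN' hLg ht hfar)
      have h7 : (0 : ℝ) ≤ (if sqd p.2 p'.2 ≤ X then (N : ℝ) else 0) := by
        split_ifs <;> positivity
      linarith
    · -- near
      push Not at hfar
      have h1 : k2 N (yh p) (yh p') ≤ N := hk.trans (min_le_left _ _)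
      have h2 : ((sqd p.2 p'.2 : ℤ) : ℝ) ≤ W + 5 ^ l * t := by
        rw [hsq]
        have h3 : (r * r') * (2 - 2 * c) ≤ 5 ^ l * t := by
          apply mul_le_mul hrr hfar.le (by linarith) (by positivity)
        linarith
      have h3 : sqd p.2 p'.2 ≤ X := by
        have h0 : 0 ≤ sqd p.2 p'.2 := by
          have : (0 : ℝ) ≤ ((sqd p.2 p'.2 : ℤ) : ℝ) := by
            rw [hsq]
            have : 0 ≤ 2 - 2 * c := by linarith
            positivity
          exact_mod_cast this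
        obtain ⟨n, hn⟩ := Int.eq_ofNat_of_zero_le h0
        rw [hn] at h2 ⊢
        have h4 : n ≤ X := by
          rw [hX]
          apply Nat.le_floor
          simpa using h2
        exact_mod_cast h4
      rw [if_pos h3]
      have h9 : 0 ≤ 1 / ((M : ℝ) * M) :=
        one_div_nonneg.mpr (mul_nonneg (by linarith) (by linarith))
      linarith
  -- summation
  have hsum : (∑ p ∈ PW l A, ∑ p' ∈ PW l A, k2 N (yh p) (yh p')) ≤
      1 + N * ((((PW l A) ×ˢ (PW l A)).filter (fun p => sqd p.1.2 p.2.2 ≤ X)).card : ℝ) := by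
    calc (∑ p ∈ PW l A, ∑ p' ∈ PW l A, k2 N (yh p) (yh p'))
        ≤ ∑ p ∈ PW l A, ∑ p' ∈ PW l A,
          (1 / ((M : ℝ) * M) + (if sqd p.2 p'.2 ≤ X then (N : ℝ) else 0)) := by
          apply Finset.sum_le_sum
          intro p hp
          apply Finset.sum_le_sum
          intro p' hp'
          exact hpt p hp p' hp'
      _ = 1 + N * ((((PW l A) ×ˢ (PW l A)).filter (fun p => sqd p.1.2 p.2.2 ≤ X)).card : ℝ) := by
          simp only [Finset.sum_add_distrib, Finset.sum_const, nsmul_eq_mul]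
          have hS := Finset.sum_product (PW l A) (PW l A)
            (fun q => if sqd q.1.2 q.2.2 ≤ (X : ℤ) then (N : ℝ) else 0)
          simp only at hS
          rw [← hM, ← hS, ← Finset.sum_filter, Finset.sum_const, nsmul_eq_mul]
          have hMM : (M : ℝ) * (M * (1 / ((M : ℝ) * M))) = 1 := mm_aux M hM1'
          rw [hMM]
          ring
  have hpairs := hwp l A hA X
  have hP5 : ((5 : ℝ) ^ l) ^ (δ / 2) ≤ P := by
    rw [hPdef, hY]
    apply Real.rpow_le_rpow (by positivity) _ (by positivity)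
    nlinarith
  have hA2 : (0 : ℝ) ≤ (A.card : ℝ) ^ 2 := by positivity
  have hcard : ((((PW l A) ×ˢ (PW l A)).filter (fun p => sqd p.1.2 p.2.2 ≤ X)).card : ℝ) ≤
      K1 * P * (M + (A.card : ℝ) ^ 2 * (W + 5 ^ l * t)) := by
    refine hpairs.trans ?_
    gcongr
  refine hsum.trans ?_
  rw [hPP]
  exact final_aux N M W ((5 : ℝ) ^ l) t P K1 C ((A.card : ℝ) ^ 2) _ hN' hM1' hW0 h5 hP1 hK1 hCpos
    hA2 hNt hcard

end Pool.Agent.H978V
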