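import Pool.Agent.H978V.KDefs
import Pool.Agent.H978V.G10

/-!
JOB K5 (owner helper978, MP_06cce2_nt).  `H978V/*.lean` (library) and `Helper557/Rz/*` are on origin/main.

Chebyshev's inequality with the spectral gap of the six rotations on the two-sphere.
-/

set_option autoImplicit false

open MeasureTheory Set
open scoped Quaternion

namespace Pool.Agent.H978V

open Pool.Agent.Helper557.Rz

section avgpt

/-- pointwise version of `mx_words` -/
lemma ap_words {D : ℕ} [NeZero D] {R : ℍ[ℝ]ˣ →* Iso 3} {t : ZMod D} (ht : t * t = -1) {c : ℝ}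
    (v : Vec D) (x : S 3) (i : ℕ) :
    ∀ F : Vec D → C(S 3, ℝ), (∀ w : List (Fin 6), w.length ≤ i → actw R t w F v x < c) →
      ((mxL R t ^ i) F) v x < 12 ^ i * c := by
  induction i with
  | zero =>
    intro F h
    have := h [] (le_refl _)
    rw [mx_actw_nil] at this
    simpa using this
  | succ i ih =>
    intro F h
    rw [pow_succ, Module.End.mul_apply, mxL_apply, map_add, map_smul, map_sum, Pi.add_apply,
      Pi.smul_apply, Finset.sum_apply, ContinuousMap.add_apply, ContinuousMap.smul_apply,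
      ContinuousMap.sum_apply, smul_eq_mul]
    have h1 := ih F fun w hw => h w (by omega)
    have h2 : ∀ a : Fin 6, ((mxL R t ^ i) (mxg R t a F)) v x < 12 ^ i * c := fun a =>
      ih _ fun w hw => by
        rw [mx_actw ht]
        exact h _ (by simp; omega)
    have h3 := Finset.sum_lt_sum_of_nonempty (s := (Finset.univ : Finset (Fin 6)))
      Finset.univ_nonempty fun a _ => h2 a
    rw [Finset.sum_const, Finset.card_univ, Fintype.card_fin, nsmul_eq_mul] at h3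
    push_cast at h3
    rw [pow_succ]
    linarith

lemma ap_uni (v : Vec 1) : Uni v := ⟨0, 0, Subsingleton.elim _ _⟩

lemma ap_ip (F G : Vec 1 → C(S 3, ℝ)) : ip F G = ∫ x, F 0 x * G 0 x ∂(sg 3) := by
  unfold ip
  rw [Fintype.sum_unique, Subsingleton.elim (default : Vec 1) 0]

lemma ap_tot (F : Vec 1 → C(S 3, ℝ)) : tot F = ∫ x, F 0 x ∂(sg 3) := by
  unfold tot
  rw [Fintype.sum_unique, Subsingleton.elim (default : Vec 1) 0]

lemma ap_adm (F : Vec 1 → C(S 3, ℝ)) : AdmF F where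
  supp := fun v hv => absurd (ap_uni v) hv
  inv := fun a v => by rw [Subsingleton.elim ((a : ZMod 1) • v) v]

lemma ap_U (v : Vec 1) (x : S 3) : mxU 1 v x = 1 := by
  unfold mxU
  rw [if_pos (ap_uni v)]
  rfl

end avgpt

/-- TARGET -/
theorem avg_point (R : ℍ[ℝ]ˣ →* Iso 3) (hR : IsRot R) : ∃ κ : ℝ, 0 < κ ∧ κ < 1 ∧
    ∀ (F : C(S 3, ℝ)) (T : ℝ), 0 < T → ∫ x, F x ∂(sg 3) = T → ∀ i : ℕ,
    (sg 3).real {x | ∀ w : List (Fin 6), w.length ≤ i → F (rot (R (uw w)) x) < T / 2} ≤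
      4 * κ ^ (2 * i) * (∫ x, F x ^ 2 ∂(sg 3)) / T ^ 2 := by
  haveI := sg_prob 3 (by norm_num)
  obtain ⟨l₁, h0, h6, hgap⟩ := gap_unif R hR
  refine ⟨(6 + l₁) / 12, by linarith, by linarith, ?_⟩
  intro F T hT hFT i
  set t : ZMod 1 := 0 with htdef
  have ht : t * t = -1 := Subsingleton.elim _ _
  have h5 : Nat.Coprime 1 5 := by norm_num
  have hodd : Odd 1 := odd_one
  set Ft : Vec 1 → C(S 3, ℝ) := fun _ => F with hFt
  set f : Vec 1 → C(S 3, ℝ) := Ft - T • mxU 1 with hf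
  have htU : tot (mxU 1) = 1 := by
    rw [ap_tot]
    simp only [ap_U]
    simp
  have e0 : f = Ft + (-T) • mxU 1 := by rw [hf, neg_smul, sub_eq_add_neg]
  have htotF : tot Ft = T := by rw [ap_tot]; exact hFT
  have htot : tot f = 0 := by
    rw [e0, mx_tot_add, mx_tot_smul, htU, htotF]
    ring
  have hgap' : ∀ F : Vec 1 → C(S 3, ℝ), AdmF F → tot F = 0 →
      ip (mxL R t F) F ≤ (6 + l₁) * ip F F := by
    intro F hF hF0
    have := hgap 1 hodd h5 t ht F hF hF0
    rw [mxL_apply, mx_ip_add, mx_ip_smul, ← mx_TF]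
    linarith
  obtain ⟨-, -, h2⟩ := mx_pow hR ht h5 (c := 6 + l₁) (by linarith) hgap' (ap_adm f) htot i
  have hc : (0 : ℝ) < 6 + l₁ := by linarith
  -- squared form
  have h2' : ip ((mxL R t ^ i) f) ((mxL R t ^ i) f) ≤ (6 + l₁) ^ (2 * i) * ip f f := by
    have h3 := mul_self_le_mul_self (Real.sqrt_nonneg _) h2
    rw [Real.mul_self_sqrt (mx_ip_nonneg _)] at h3
    calc ip ((mxL R t ^ i) f) ((mxL R t ^ i) f)
        ≤ ((6 + l₁) ^ i * Real.sqrt (ip f f)) * ((6 + l₁) ^ i * Real.sqrt (ip f f)) := h3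
      _ = (6 + l₁) ^ (2 * i) * (Real.sqrt (ip f f) * Real.sqrt (ip f f)) := by ring
      _ = (6 + l₁) ^ (2 * i) * ip f f := by rw [Real.mul_self_sqrt (mx_ip_nonneg _)]
  have hUU : ip (mxU 1) (mxU 1) = 1 := by rw [mx_ip_U mxU_adm, htU]
  have h3 : ip f f ≤ ∫ x, F x ^ 2 ∂(sg 3) := by
    have e1 : ip Ft (mxU 1) = T := by rw [mx_ip_comm, mx_ip_U (ap_adm _), htotF]
    have e2 : ip Ft Ft = ∫ x, F x ^ 2 ∂(sg 3) := by
      rw [ap_ip]
      refine integral_congr_ae (Filter.Eventually.of_forall fun x => ?_)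
      simp only [hFt]
      ring
    rw [hf, mx_ip_sub, mx_ip_sub_right, mx_ip_sub_right, mx_ip_smul, mx_ip_smul, mx_ip_smul_right,
      mx_ip_smul_right, hUU, mx_ip_U (ap_adm _), e1, htotF, e2]
    nlinarith
  have e5 : Ft = f + T • mxU 1 := by rw [hf, sub_add_cancel]
  -- pointwise
  set g : C(S 3, ℝ) := ((mxL R t ^ i) f) 0 with hg
  have hpt : ∀ x : S 3, (∀ w : List (Fin 6), w.length ≤ i → F (rot (R (uw w)) x) < T / 2) →
      (144 : ℝ) ^ i * (T ^ 2 / 4) ≤ g x * g x := by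
    intro x hx
    have h7 := ap_words (R := R) (t := t) ht (c := T / 2) (0 : Vec 1) x i Ft (fun w hw => by
      unfold actw
      exact hx w hw)
    rw [e5, map_add, map_smul, mxU_pow ht h5, Pi.add_apply, Pi.smul_apply, Pi.smul_apply,
      ContinuousMap.add_apply, ContinuousMap.smul_apply, ContinuousMap.smul_apply, ap_U, ← hg] at h7
    simp only [smul_eq_mul, mul_one] at h7
    have h8 : (12 : ℝ) ^ i * (T / 2) ≤ - g x := by linarith
    have h9 : (0 : ℝ) ≤ 12 ^ i * (T / 2) := by positivity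
    have h10 := mul_self_le_mul_self h9 h8
    have h11 : (144 : ℝ) ^ i = 12 ^ i * 12 ^ i := by
      rw [← mul_pow]; norm_num
    rw [h11]
    nlinarith
  have hint : Integrable (fun x => g x * g x) (sg 3) := by
    have := intc (g * g)
    simpa using this
  have hmk := mul_meas_ge_le_integral_of_nonneg (μ := sg 3) (f := fun x => g x * g x)
    (Filter.Eventually.of_forall fun x => mul_self_nonneg _) hint ((144 : ℝ) ^ i * (T ^ 2 / 4))
  have hsub : (sg 3).real {x | ∀ w : List (Fin 6), w.length ≤ i → F (rot (R (uw w)) x) < T / 2} ≤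
      (sg 3).real {x | (144 : ℝ) ^ i * (T ^ 2 / 4) ≤ g x * g x} :=
    measureReal_mono (fun x hx => hpt x hx)
  have hpos : (0 : ℝ) < 144 ^ i * (T ^ 2 / 4) := by positivity
  have hfin : 144 ^ i * (T ^ 2 / 4) *
      (sg 3).real {x | ∀ w : List (Fin 6), w.length ≤ i → F (rot (R (uw w)) x) < T / 2} ≤
      (6 + l₁) ^ (2 * i) * ∫ x, F x ^ 2 ∂(sg 3) := by
    calc _ ≤ 144 ^ i * (T ^ 2 / 4) * (sg 3).real {x | (144 : ℝ) ^ i * (T ^ 2 / 4) ≤ g x * g x} :=
          mul_le_mul_of_nonneg_left hsub hpos.le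
      _ ≤ ∫ x, g x * g x ∂(sg 3) := hmk
      _ = ip ((mxL R t ^ i) f) ((mxL R t ^ i) f) := by rw [ap_ip]
      _ ≤ (6 + l₁) ^ (2 * i) * ip f f := h2'
      _ ≤ _ := mul_le_mul_of_nonneg_left h3 (by positivity)
  rw [le_div_iff₀ (by positivity), div_pow]
  have h12 : (12 : ℝ) ^ (2 * i) = 144 ^ i := by
    rw [pow_mul]; norm_num
  rw [h12]
  have h144 : (0 : ℝ) < 144 ^ i := by positivity
  have e7 : 4 * ((6 + l₁) ^ (2 * i) / 144 ^ i) * (∫ x, F x ^ 2 ∂(sg 3)) =
      4 * ((6 + l₁) ^ (2 * i) * ∫ x, F x ^ 2 ∂(sg 3)) / 144 ^ i := by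
    ring
  rw [e7, le_div_iff₀ h144]
  linarith

end Pool.Agent.H978V
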