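import Pool.Agent.H978V.KDefs
import Pool.Agent.H978V.H2
import Pool.Agent.H978V.F1
import Pool.Agent.H978V.C5

/-!
From a large value of the kernel to a word (lemma K6 of the project of helper978).
-/

set_option autoImplicit false

open MeasureTheory Set
open scoped Quaternion

namespace Pool.Agent.H978V

open Pool.Agent.Helper557.Rz

/-- TARGET 1 -/
theorem kk_close (N : ℕ) (hN : 2 ≤ N) (x y : S 3) (h : 1 / 2 ≤ kk N x y) :
    dist x y ^ 2 ≤ 4 * Real.log (2 * N) / (N - 1) := by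
  have hN' : (2 : ℝ) ≤ N := by exact_mod_cast hN
  have h1 : (0 : ℝ) < (N : ℝ) - 1 := by linarith
  have hu : u x y = 1 - dist x y ^ 2 / 4 := by
    have := dist_sq_u x y
    linarith
  have hu0 : 0 ≤ u x y := by
    unfold u
    have hin : |inner ℝ (x : E 3) (y : E 3)| ≤ ‖(x : E 3)‖ * ‖(y : E 3)‖ :=
      abs_real_inner_le_norm _ _
    rw [norm_eq_of_mem_sphere, norm_eq_of_mem_sphere, mul_one] at hin
    have := (abs_le.1 hin).1
    linarith
  have hle : u x y ≤ Real.exp (-(dist x y ^ 2 / 4)) := by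
    rw [hu]
    have := Real.add_one_le_exp (-(dist x y ^ 2 / 4))
    linarith
  have hpow : u x y ^ (N - 1) ≤ Real.exp (-(((N : ℝ) - 1) * (dist x y ^ 2 / 4))) := by
    refine (pow_le_pow_left₀ hu0 hle (N - 1)).trans (le_of_eq ?_)
    rw [← Real.exp_nat_mul]
    congr 1
    rw [Nat.cast_sub (by omega : 1 ≤ N)]
    push_cast
    ring
  have h2 : 1 / 2 ≤ (N : ℝ) * Real.exp (-(((N : ℝ) - 1) * (dist x y ^ 2 / 4))) := by
    refine h.trans ?_
    unfold kk
    exact mul_le_mul_of_nonneg_left hpow (by positivity)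
  rw [Real.exp_neg] at h2
  have he : 0 < Real.exp (((N : ℝ) - 1) * (dist x y ^ 2 / 4)) := Real.exp_pos _
  have h3 : Real.exp (((N : ℝ) - 1) * (dist x y ^ 2 / 4)) ≤ 2 * N := by
    rw [← div_eq_mul_inv, div_le_div_iff₀ (by norm_num) he] at h2
    linarith
  have h4 : ((N : ℝ) - 1) * (dist x y ^ 2 / 4) ≤ Real.log (2 * N) := by
    rw [Real.le_log_iff_exp_le (by linarith)]
    exact h3
  rw [le_div_iff₀ h1]
  linarith

/-- conjugation by an integral quaternion -/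
lemma k6_conj (p z : ℍ[ℤ]) :
    (star p * z * p).re = (p.re ^ 2 + p.imI ^ 2 + p.imJ ^ 2 + p.imK ^ 2) * z.re ∧
    (star p * z * p).imI = (p.re ^ 2 + p.imI ^ 2 - p.imJ ^ 2 - p.imK ^ 2) * z.imI +
      2 * (p.imI * p.imJ + p.re * p.imK) * z.imJ + 2 * (p.imI * p.imK - p.re * p.imJ) * z.imK ∧
    (star p * z * p).imJ = 2 * (p.imI * p.imJ - p.re * p.imK) * z.imI +
      (p.re ^ 2 - p.imI ^ 2 + p.imJ ^ 2 - p.imK ^ 2) * z.imJ +
      2 * (p.imJ * p.imK + p.re * p.imI) * z.imK ∧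
    (star p * z * p).imK = 2 * (p.imI * p.imK + p.re * p.imJ) * z.imI +
      2 * (p.imJ * p.imK - p.re * p.imI) * z.imJ +
      (p.re ^ 2 - p.imI ^ 2 - p.imJ ^ 2 + p.imK ^ 2) * z.imK := by
  refine ⟨?_, ?_, ?_, ?_⟩ <;>
  · simp only [Quaternion.re_mul, Quaternion.imI_mul, Quaternion.imJ_mul, Quaternion.imK_mul,
      Quaternion.re_star, Quaternion.imI_star, Quaternion.imJ_star, Quaternion.imK_star]
    ring

lemma k6_comp (p : ℍ[ℤ]) (a : ℤ) (y : ℤ × ℤ × ℤ) :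
    (star p * zq a 2 y * p).re = Quaternion.normSq p * a ∧
    (star p * zq a 2 y * p).imI = 2 * (star p * pq y * p).imI ∧
    (star p * zq a 2 y * p).imJ = 2 * (star p * pq y * p).imJ ∧
    (star p * zq a 2 y * p).imK = 2 * (star p * pq y * p).imK := by
  obtain ⟨a0, a1, a2, a3⟩ := k6_conj p (zq a 2 y)
  obtain ⟨_, b1, b2, b3⟩ := k6_conj p (pq y)
  rw [a0, a1, a2, a3, b1, b2, b3, Quaternion.normSq_def']
  refine ⟨?_, ?_, ?_, ?_⟩ <;>
  · simp only [zq, pq]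
    try ring

lemma k6_gd_star (p : ℍ[ℤ]) (hp : Gd p) : Gd (star p) := by
  obtain ⟨h0, h1, h2, h3⟩ := hp
  refine ⟨?_, ?_, ?_, ?_⟩
  · rw [Quaternion.re_star]
    exact h0
  · rw [Quaternion.imI_star]
    omega
  · rw [Quaternion.imJ_star]
    omega
  · rw [Quaternion.imK_star]
    omega

/-- TARGET 2 -/
theorem point_word (R : ℍ[ℝ]ˣ →* Iso 3) (hR : IsRot R) (l n N : ℕ) (a : ℤ) (y : ℤ × ℤ × ℤ)
    (w : List (Fin 6)) (x yh : S 3) (ha : a % 4 = 1) (hn : 1 ≤ n) (hy : y ∈ S3 n)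
    (h : a ^ 2 + 4 * n = 5 ^ l) (hyh : imq (yh : E 3) = (Real.sqrt n)⁻¹ • cz (pq y)) (hN : 2 ≤ N)
    (hk : 1 / 2 ≤ kk N (rot (R (uw w)) x) yh) :
    ∃ q : ℍ[ℤ], Gd q ∧ Quaternion.normSq q = 5 ^ (l + 2 * w.length) ∧
      q.re = 5 ^ w.length * a ∧
      ((x : E 3) 0 - q.imI / (5 ^ w.length * (2 * Real.sqrt n))) ^ 2 +
      ((x : E 3) 1 - q.imJ / (5 ^ w.length * (2 * Real.sqrt n))) ^ 2 +
      ((x : E 3) 2 - q.imK / (5 ^ w.length * (2 * Real.sqrt n))) ^ 2 ≤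
        4 * Real.log (2 * N) / (N - 1) := by
  obtain ⟨hg, hnq⟩ := good_qw w
  obtain ⟨c0, c1, c2, c3⟩ := k6_comp (qw w) a y
  refine ⟨star (qw w) * zq a 2 y * qw w, ?_, ?_, ?_, ?_⟩
  · refine cc_gd_mul _ _ (cc_gd_mul _ _ (k6_gd_star _ hg) ?_) hg
    refine ⟨ha, ?_, ?_, ?_⟩ <;> simp [zq]
  · rw [map_mul, map_mul, Quaternion.normSq_star, hnq]
    have hz : Quaternion.normSq (zq a 2 y) = 5 ^ l := by
      rw [Quaternion.normSq_def', ← h]
      have := mem_S3.1 hy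
      simp only [zq]
      linear_combination 4 * this
    rw [hz]
    ring
  · rw [c0, hnq]
  · have hd := kk_close N hN _ _ hk
    refine le_trans (le_of_eq ?_) hd
    have hiso : dist (rot (R (uw w)) x) yh = dist (x : E 3) ((R (uw w))⁻¹ (yh : E 3)) := by
      rw [Subtype.dist_eq]
      show dist (R (uw w) (x : E 3)) (yh : E 3) = _
      have e1 : (yh : E 3) = R (uw w) ((R (uw w))⁻¹ (yh : E 3)) := by
        have := LinearIsometryEquiv.apply_symm_apply (R (uw w)) (yh : E 3)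
        exact this.symm
      conv_lhs => rw [e1]
      exact (R (uw w)).dist_map _ _
    rw [hiso, EuclideanSpace.dist_eq, Real.sq_sqrt (Finset.sum_nonneg fun i _ => sq_nonneg _),
      Fin.sum_univ_three]
    simp only [Real.dist_eq, sq_abs]
    have hrot := hit_rot R hR [] w (yh : E 3)
    have hnil : R (uw []) ((R (uw w))⁻¹ (yh : E 3)) = (R (uw w))⁻¹ (yh : E 3) := by
      show R 1 _ = _
      rw [map_one]
      rfl
    rw [hnil, hyh] at hrot
    have hq : cz (qw [] * star (qw w)) * ((Real.sqrt n)⁻¹ • cz (pq y)) *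
        star (cz (qw [] * star (qw w))) = (Real.sqrt n)⁻¹ • cz (star (qw w) * pq y * qw w) := by
      have e0 : (qw [] : ℍ[ℤ]) = 1 := rfl
      rw [e0, one_mul, cz_mul, cz_mul, ← cz_star, star_star, mul_smul_comm, smul_mul_assoc]
    rw [hq, smul_smul] at hrot
    rw [List.length_nil, add_zero] at hrot
    have hI : ((R (uw w))⁻¹ (yh : E 3)) 0 = ((5 ^ w.length : ℝ)⁻¹ * (Real.sqrt n)⁻¹) *
        ((star (qw w) * pq y * qw w).imI : ℝ) := congrArg QuaternionAlgebra.imI hrot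
    have hJ : ((R (uw w))⁻¹ (yh : E 3)) 1 = ((5 ^ w.length : ℝ)⁻¹ * (Real.sqrt n)⁻¹) *
        ((star (qw w) * pq y * qw w).imJ : ℝ) := congrArg QuaternionAlgebra.imJ hrot
    have hK : ((R (uw w))⁻¹ (yh : E 3)) 2 = ((5 ^ w.length : ℝ)⁻¹ * (Real.sqrt n)⁻¹) *
        ((star (qw w) * pq y * qw w).imK : ℝ) := congrArg QuaternionAlgebra.imK hrot
    have hs : 0 < Real.sqrt n := Real.sqrt_pos.2 (by exact_mod_cast hn)
    rw [hI, hJ, hK, c1, c2, c3]
    push_cast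
    have e : ∀ t : ℝ, 2 * t / (5 ^ w.length * (2 * Real.sqrt n)) =
        ((5 : ℝ) ^ w.length)⁻¹ * (Real.sqrt n)⁻¹ * t := by
      intro t
      field_simp
    rw [e, e, e]

end Pool.Agent.H978V
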