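import Pool.Agent.H978V.KDefs

/-!
JOB K7 (owner helper978, MP_06cce2_nt).  `H978V/{Ar,Defs,Defs2,KDefs}.lean` are on origin/main.

Two elementary facts.

PROOF of TARGET 1.  `R = √5^l = √(5^l)`, `c = a/R`, `s = 2√n/R`, `c² + s² = 1`, `σ = √(1-τ²) > 0`, `q/√5^{l+2k} = (c, s ŷ)` where `ŷ = Im q/(5^k 2√n)`: a unit vector, because `normSq q = 5^{l+2k}`, `q.re = 5^k a`, `a² + 4n = 5^l`
(`√5^{l+2k} = √5^l 5^k`).  `qs = (τ-c)² + |σx - sŷ|² = (τ-c)² + (σ-s)² + σ s |x-ŷ|²`, `σ s ≤ 1`, `|σ - s| = |c²-τ²|/(σ+s) ≤ 2|c-τ|/σ`.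

PROOF of TARGET 2.  Put `M = (1+|τ|)/2 < 1`, `κ₀ = (1-|τ|)/2`, `c = min 1 ((1-M²)/4)`.  `R = √(5^l)`.  Let `r = 1` or `5` be such that `(5^l - r²) % 16 ∈ {4, 8}`: `5^l mod 16 ∈ {1,5,9,13}`, `r = 5` if `5^l ≡ 1, 13`, `r = 1` if `5^l ≡ 5, 9`;
for every `a ≡ r mod 8`: `a² ≡ r² mod 16`, so `nA l a % 4 ∈ {1, 2}`.  `A` = all integers `a ≡ r mod 8` with `|a - τR| ≤ ηR`.  `|a| ≤ (|τ| + η) R ≤ M R`, so `a² < 5^l` and `nA l a = (5^l - a²)/4 ≥ (1-M²)5^l/4`.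
The number of integers `≡ r mod 8` in an interval of length `2ηR ≥ 64` is `≥ 2ηR/8 - 1 ≥ ηR/16`... and `≤ 2ηR/8 + 1 ≤ ηR`.
`(√n - √n')²`, `n = (R²-a²)/4`, `n' = (R²-a'²)/4`: `|√n - √n'| = |n-n'|/(√n+√n') ≤ |a-a'||a+a'|/(8 √(c) R) ≤ (2ηR)(2R)/(8√c R) = ηR/(2√c)`, so the square is `≤ η² 5^l/(4c)`.
-/

set_option autoImplicit false

open MeasureTheory Set
open scoped Quaternion

namespace Pool.Agent.H978V

open Pool.Agent.Helper557.Rz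

namespace K7

theorem im_sum {A N I J K T : ℝ} (h : (T * A) ^ 2 + I + J + K = (A ^ 2 + 4 * N) * T ^ 2) :
    I + J + K = T ^ 2 * (2 ^ 2 * N) := by linarith [mul_pow T A 2]

theorem le_one {c s : ℝ} (h : c ^ 2 + s ^ 2 = 1) : c ≤ 1 := by nlinarith [sq_nonneg s]

theorem ge_neg {c s : ℝ} (h : c ^ 2 + s ^ 2 = 1) : -1 ≤ c := by nlinarith [sq_nonneg s]

theorem keyineq {τ σ s c : ℝ} (h1 : -1 < τ) (h2 : τ < 1) (hσ : 0 < σ) (hs : 0 < s)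
    (hσ2 : σ ^ 2 = 1 - τ ^ 2) (hcs : c ^ 2 + s ^ 2 = 1) :
    (σ - s) ^ 2 ≤ 4 / (1 - τ ^ 2) * (c - τ) ^ 2 := by
  have hc1 := le_one hcs
  have hc2 := ge_neg hcs
  rw [← hσ2, div_mul_eq_mul_div, le_div_iff₀ (by positivity)]
  have k1 : (σ - s) * (σ + s) = (c - τ) * (c + τ) := by linarith [sq_nonneg s]
  have k2 : (c + τ) ^ 2 ≤ 2 ^ 2 := by
    rw [← sq_abs]
    exact pow_le_pow_left₀ (abs_nonneg _) (abs_le.2 ⟨by linarith, by linarith⟩) 2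
  have k3 : σ ^ 2 ≤ (σ + s) ^ 2 := pow_le_pow_left₀ hσ.le (by linarith) 2
  calc (σ - s) ^ 2 * σ ^ 2 ≤ (σ - s) ^ 2 * (σ + s) ^ 2 := by gcongr
    _ = (c - τ) ^ 2 * (c + τ) ^ 2 := by rw [← mul_pow, k1, mul_pow]
    _ ≤ (c - τ) ^ 2 * 2 ^ 2 := by gcongr
    _ = 4 * (c - τ) ^ 2 := by ring

end K7

/-- TARGET 1 -/
theorem close_class (τ : ℝ) (h1 : -1 < τ) (h2 : τ < 1) (l k n : ℕ) (a : ℤ) (hn : 1 ≤ n)
    (h : a ^ 2 + 4 * n = 5 ^ l) (q : ℍ[ℤ]) (hq : Quaternion.normSq q = 5 ^ (l + 2 * k))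
    (hre : q.re = 5 ^ k * a) (x : S 3) :
    qs τ x q (l + 2 * k) ≤ (1 + 4 / (1 - τ ^ 2)) * (a / Real.sqrt (5 ^ l) - τ) ^ 2 +
      (((x : E 3) 0 - q.imI / (5 ^ k * (2 * Real.sqrt n))) ^ 2 +
      ((x : E 3) 1 - q.imJ / (5 ^ k * (2 * Real.sqrt n))) ^ 2 +
      ((x : E 3) 2 - q.imK / (5 ^ k * (2 * Real.sqrt n))) ^ 2) := by
  have h5l : (0 : ℝ) < 5 ^ l := by positivity
  have hR : 0 < Real.sqrt (5 ^ l) := Real.sqrt_pos.2 h5l
  set R : ℝ := Real.sqrt (5 ^ l) with hRdef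
  have hR2 : R ^ 2 = 5 ^ l := Real.sq_sqrt h5l.le
  have hn0 : (0 : ℝ) < n := by exact_mod_cast hn
  have hsn : 0 < Real.sqrt n := Real.sqrt_pos.2 hn0
  set w : ℝ := Real.sqrt n with hwdef
  have hw2 : w ^ 2 = n := Real.sq_sqrt hn0.le
  have h1τ : 0 < 1 - τ ^ 2 := by nlinarith
  have hσ : 0 < Real.sqrt (1 - τ ^ 2) := Real.sqrt_pos.2 h1τ
  set σ : ℝ := Real.sqrt (1 - τ ^ 2) with hσdef
  have hσ2 : σ ^ 2 = 1 - τ ^ 2 := Real.sq_sqrt h1τ.le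
  have hK : (0 : ℝ) < 5 ^ k := by positivity
  have hN : Real.sqrt 5 ^ (l + 2 * k) = R * 5 ^ k := by
    have e5 : Real.sqrt 5 ^ l = Real.sqrt (5 ^ l) := by
      rw [eq_comm, Real.sqrt_eq_iff_mul_self_eq (by positivity) (by positivity), ← mul_pow,
        Real.mul_self_sqrt (by norm_num)]
    rw [pow_add, pow_mul, Real.sq_sqrt (by norm_num : (0 : ℝ) ≤ 5), hRdef, e5]
  have hh : (a : ℝ) ^ 2 + 4 * n = 5 ^ l := by exact_mod_cast h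
  have hcs : ((a : ℝ) / R) ^ 2 + (2 * w / R) ^ 2 = 1 := by
    rw [div_pow, div_pow, ← add_div, mul_pow, hw2, hR2, div_eq_one_iff_eq h5l.ne']
    linarith
  set c : ℝ := (a : ℝ) / R with hc
  set s : ℝ := 2 * w / R with hs
  have hs0 : 0 < s := by positivity
  have hq' : (q.re : ℝ) ^ 2 + (q.imI : ℝ) ^ 2 + (q.imJ : ℝ) ^ 2 + (q.imK : ℝ) ^ 2 =
      5 ^ (l + 2 * k) := by
    rw [Quaternion.normSq_def'] at hq
    exact_mod_cast hq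
  have hre' : (q.re : ℝ) = 5 ^ k * a := by rw [hre]; push_cast; ring
  have him : (q.imI : ℝ) ^ 2 + (q.imJ : ℝ) ^ 2 + (q.imK : ℝ) ^ 2 = (5 ^ k * (2 * w)) ^ 2 := by
    have e1 : (5 : ℝ) ^ (l + 2 * k) = 5 ^ l * (5 ^ k) ^ 2 := by ring
    rw [mul_pow, mul_pow, hw2]
    rw [hre', e1, ← hh] at hq'
    have := K7.im_sum hq'
    linarith
  have hd : (0 : ℝ) < 5 ^ k * (2 * w) := by positivity
  set y0 : ℝ := q.imI / (5 ^ k * (2 * w)) with hy0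
  set y1 : ℝ := q.imJ / (5 ^ k * (2 * w)) with hy1
  set y2 : ℝ := q.imK / (5 ^ k * (2 * w)) with hy2
  have hy : y0 ^ 2 + y1 ^ 2 + y2 ^ 2 = 1 := by
    rw [hy0, hy1, hy2, div_pow, div_pow, div_pow, ← add_div, ← add_div, him]
    exact div_self (by positivity)
  have hx : ((x : E 3) 0) ^ 2 + ((x : E 3) 1) ^ 2 + ((x : E 3) 2) ^ 2 = 1 := by
    have h0 : ‖(x : E 3)‖ = 1 := mem_sphere_zero_iff_norm.1 x.2
    have h2 : ‖(x : E 3)‖ ^ 2 = 1 := by rw [h0]; norm_num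
    rw [EuclideanSpace.norm_sq_eq] at h2
    simpa [Fin.sum_univ_three] using h2
  have e0 : (q.re : ℝ) / (R * 5 ^ k) = c := by
    rw [hc, hre']; field_simp
  have e1 : (q.imI : ℝ) / (R * 5 ^ k) = s * y0 := by
    rw [hs, hy0]; field_simp
  have e2 : (q.imJ : ℝ) / (R * 5 ^ k) = s * y1 := by
    rw [hs, hy1]; field_simp
  have e3 : (q.imK : ℝ) / (R * 5 ^ k) = s * y2 := by
    rw [hs, hy2]; field_simp
  unfold qs qd
  rw [hN, e0, e1, e2, e3]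
  generalize (x : E 3) 0 = x0 at *
  generalize (x : E 3) 1 = x1 at *
  generalize (x : E 3) 2 = x2 at *
  have hσ1 : σ ≤ 1 := K7.le_one (s := τ) (by linarith)
  have hs1 : s ≤ 1 := K7.le_one (s := c) (by linarith)
  have hσs : σ * s ≤ 1 := mul_le_one₀ hσ1 hs0.le hs1
  have key : (σ - s) ^ 2 ≤ 4 / (1 - τ ^ 2) * (c - τ) ^ 2 :=
    K7.keyineq h1 h2 hσ hs0 hσ2 hcs
  have e : (τ - c) ^ 2 + (σ * x0 - s * y0) ^ 2 + (σ * x1 - s * y1) ^ 2 + (σ * x2 - s * y2) ^ 2 =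
      (τ - c) ^ 2 + (σ - s) ^ 2 + σ * s * ((x0 - y0) ^ 2 + (x1 - y1) ^ 2 + (x2 - y2) ^ 2) := by
    linear_combination (σ ^ 2 - σ * s) * hx + (s ^ 2 - σ * s) * hy
  rw [e]
  have hD : 0 ≤ (x0 - y0) ^ 2 + (x1 - y1) ^ 2 + (x2 - y2) ^ 2 := by positivity
  have := mul_le_mul_of_nonneg_right hσs hD
  rw [one_mul] at this
  have e4 : (1 + 4 / (1 - τ ^ 2)) * (c - τ) ^ 2 = (τ - c) ^ 2 + 4 / (1 - τ ^ 2) * (c - τ) ^ 2 := by
    ring
  rw [e4]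
  linarith

namespace K7

theorem five_mod (l : ℕ) : ∃ r : ℤ, (r = 1 ∨ r = 5) ∧ ∀ t : ℤ,
    ((5 : ℤ) ^ l - (r + 8 * t) ^ 2) % 16 = 4 ∨ ((5 : ℤ) ^ l - (r + 8 * t) ^ 2) % 16 = 8 := by
  have h5 : (5 : ℤ) ^ l % 16 = 1 ∨ (5 : ℤ) ^ l % 16 = 5 ∨ (5 : ℤ) ^ l % 16 = 9 ∨
      (5 : ℤ) ^ l % 16 = 13 := by
    induction l with
    | zero => left; norm_num
    | succ l ih =>
      rw [pow_succ]
      omega
  have hsq : ∀ r t : ℤ, (r + 8 * t) ^ 2 = r ^ 2 + 16 * (r * t + 4 * t ^ 2) := fun r t => by ring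
  rcases h5 with h | h | h | h
  · refine ⟨5, Or.inr rfl, fun t => ?_⟩
    rw [hsq]
    generalize (5 * t + 4 * t ^ 2 : ℤ) = u
    omega
  · refine ⟨1, Or.inl rfl, fun t => ?_⟩
    rw [hsq]
    generalize (1 * t + 4 * t ^ 2 : ℤ) = u
    omega
  · refine ⟨1, Or.inl rfl, fun t => ?_⟩
    rw [hsq]
    generalize (1 * t + 4 * t ^ 2 : ℤ) = u
    omega
  · refine ⟨5, Or.inr rfl, fun t => ?_⟩
    rw [hsq]
    generalize (5 * t + 4 * t ^ 2 : ℤ) = u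
    omega

end K7

/-- TARGET 2 -/
theorem window_set (τ : ℝ) (h1 : -1 < τ) (h2 : τ < 1) : ∃ c κ₀ : ℝ, 0 < c ∧ c ≤ 1 ∧ 0 < κ₀ ∧
    ∀ (l : ℕ) (η : ℝ), 0 < η → η ≤ κ₀ → 32 ≤ η * Real.sqrt (5 ^ l) → ∃ A : Finset ℤ,
      (∀ a ∈ A, a % 4 = 1 ∧ a ^ 2 < 5 ^ l ∧ a ^ 2 + 4 * (nA l a : ℤ) = 5 ^ l ∧
        (nA l a % 4 = 1 ∨ nA l a % 4 = 2) ∧ |a / Real.sqrt (5 ^ l) - τ| ≤ η ∧
        c * 5 ^ l ≤ (nA l a : ℝ)) ∧
      (∀ a ∈ A, ∀ a' ∈ A, (Real.sqrt (nA l a) - Real.sqrt (nA l a')) ^ 2 ≤ η ^ 2 * 5 ^ l / (4 * c)) ∧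
      η * Real.sqrt (5 ^ l) / 16 ≤ A.card ∧ (A.card : ℝ) ≤ η * Real.sqrt (5 ^ l) := by
  set M : ℝ := (1 + |τ|) / 2 with hM
  have hτ : |τ| < 1 := abs_lt.2 ⟨h1, h2⟩
  have hτ0 : 0 ≤ |τ| := abs_nonneg τ
  have hM0 : 0 < M := by positivity
  have hM1 : M < 1 := by rw [hM]; linarith
  have hM2 : M ^ 2 < 1 := by nlinarith
  have hc0 : 0 < (1 - M ^ 2) / 4 := by linarith
  refine ⟨(1 - M ^ 2) / 4, (1 - |τ|) / 2, hc0, ?_, by linarith, ?_⟩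
  · nlinarith [sq_nonneg M]
  intro l η hη hη2 h32
  set c : ℝ := (1 - M ^ 2) / 4 with hc
  have h5l : (0 : ℝ) < 5 ^ l := by positivity
  have hR : 0 < Real.sqrt (5 ^ l) := Real.sqrt_pos.2 h5l
  set R : ℝ := Real.sqrt (5 ^ l) with hRdef
  have hR2 : R ^ 2 = 5 ^ l := Real.sq_sqrt h5l.le
  obtain ⟨r, hr, hmod⟩ := K7.five_mod l
  let A' : ℝ := (τ * R - η * R - r) / 8
  let B' : ℝ := (τ * R + η * R - r) / 8
  have hAB : B' - A' = η * R / 4 := by simp only [A', B']; ring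
  let A : Finset ℤ := (Finset.Icc ⌈A'⌉ ⌊B'⌋).image (fun t => r + 8 * t)
  have hcard : A.card = (⌊B'⌋ + 1 - ⌈A'⌉).toNat := by
    rw [Finset.card_image_of_injective _ (fun s t hst => by
      have hst' : r + 8 * s = r + 8 * t := hst
      omega), Int.card_Icc]
  have hmem : ∀ a ∈ A, ∃ t : ℤ, a = r + 8 * t ∧ |(a : ℝ) - τ * R| ≤ η * R := by
    intro a ha
    obtain ⟨t, ht, rfl⟩ := Finset.mem_image.1 ha
    rw [Finset.mem_Icc] at ht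
    have t1 := Int.ceil_le.1 ht.1
    have t2 := Int.le_floor.1 ht.2
    simp only [A', B'] at t1 t2
    rw [div_le_iff₀ (by norm_num)] at t1
    rw [le_div_iff₀ (by norm_num)] at t2
    refine ⟨t, rfl, ?_⟩
    rw [abs_le]
    push_cast
    constructor <;> linarith
  have habs : ∀ a : ℤ, |(a : ℝ) - τ * R| ≤ η * R → |(a : ℝ)| ≤ M * R := by
    intro a ha
    have e : (a : ℝ) = (a - τ * R) + τ * R := by ring
    calc |(a : ℝ)| = |(a - τ * R) + τ * R| := by rw [← e]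
      _ ≤ |a - τ * R| + |τ * R| := abs_add_le _ _
      _ ≤ η * R + |τ| * R := by rw [abs_mul, abs_of_pos hR]; linarith
      _ ≤ (1 - |τ|) / 2 * R + |τ| * R := by nlinarith
      _ = M * R := by rw [hM]; ring
  have hsqr : ∀ a : ℤ, |(a : ℝ) - τ * R| ≤ η * R → (a : ℝ) ^ 2 ≤ M ^ 2 * 5 ^ l := by
    intro a ha
    rw [← hR2, ← mul_pow, ← sq_abs (a : ℝ)]
    exact pow_le_pow_left₀ (abs_nonneg _) (habs a ha) 2
  have hlt : ∀ a : ℤ, |(a : ℝ) - τ * R| ≤ η * R → a ^ 2 < 5 ^ l := by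
    intro a ha
    have h3 := hsqr a ha
    have : (a : ℝ) ^ 2 < 5 ^ l := by nlinarith
    exact_mod_cast this
  have hnA : ∀ a ∈ A, a ^ 2 + 4 * (nA l a : ℤ) = 5 ^ l ∧ (nA l a % 4 = 1 ∨ nA l a % 4 = 2) := by
    intro a ha
    obtain ⟨t, hat, hab⟩ := hmem a ha
    have h3 := hlt a hab
    have h4 := hmod t
    rw [← hat] at h4
    unfold nA
    generalize (5 : ℤ) ^ l = P at *
    generalize a ^ 2 = Q at *
    omega
  have hnAr : ∀ a ∈ A, (a : ℝ) ^ 2 + 4 * (nA l a : ℝ) = 5 ^ l := by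
    intro a ha
    exact_mod_cast (hnA a ha).1
  have hnAc : ∀ a ∈ A, c * 5 ^ l ≤ (nA l a : ℝ) := by
    intro a ha
    obtain ⟨t, hat, hab⟩ := hmem a ha
    have h3 := hsqr a hab
    have h4 := hnAr a ha
    rw [hc]
    nlinarith
  refine ⟨A, ?_, ?_, ?_, ?_⟩
  · intro a ha
    obtain ⟨t, hat, hab⟩ := hmem a ha
    refine ⟨?_, hlt a hab, (hnA a ha).1, (hnA a ha).2, ?_, hnAc a ha⟩
    · rcases hr with rfl | rfl <;> omega
    · have e : (a : ℝ) / R - τ = (a - τ * R) / R := by field_simp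
      rw [e, abs_div, abs_of_pos hR, div_le_iff₀ hR]
      exact hab
  · intro a ha a' ha'
    obtain ⟨t, hat, hab⟩ := hmem a ha
    obtain ⟨t', hat', hab'⟩ := hmem a' ha'
    have n1 := hnAr a ha
    have n2 := hnAr a' ha'
    have c1 := hnAc a ha
    have c2 := hnAc a' ha'
    have m1 : |(a : ℝ)| ≤ R := (habs a hab).trans (by nlinarith)
    have m2 : |(a' : ℝ)| ≤ R := (habs a' hab').trans (by nlinarith)
    have z1 : (0 : ℝ) ≤ nA l a := Nat.cast_nonneg _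
    have z2 : (0 : ℝ) ≤ nA l a' := Nat.cast_nonneg _
    generalize (nA l a : ℝ) = n at *
    generalize (nA l a' : ℝ) = n' at *
    have w1 := Real.sq_sqrt z1
    have w2 := Real.sq_sqrt z2
    have v1 := Real.sqrt_nonneg n
    have v2 := Real.sqrt_nonneg n'
    have lo : c * R ^ 2 ≤ n := by rw [hR2]; exact c1
    have lo' : c * R ^ 2 ≤ n' := by rw [hR2]; exact c2
    have s1 : Real.sqrt c * R ≤ Real.sqrt n := by
      rw [Real.le_sqrt (by positivity) z1, mul_pow, Real.sq_sqrt hc0.le]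
      exact lo
    have s2 : Real.sqrt c * R ≤ Real.sqrt n' := by
      rw [Real.le_sqrt (by positivity) z2, mul_pow, Real.sq_sqrt hc0.le]
      exact lo'
    generalize Real.sqrt n = u at *
    generalize Real.sqrt n' = u' at *
    have hcs := Real.sqrt_pos.2 hc0
    have hcs2 := Real.sq_sqrt hc0.le
    have big : 4 * c * R ^ 2 ≤ (u + u') ^ 2 := by
      calc 4 * c * R ^ 2 = (2 * (Real.sqrt c * R)) ^ 2 := by rw [mul_pow, mul_pow, hcs2]; ring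
        _ ≤ (u + u') ^ 2 := by
            apply pow_le_pow_left₀ (by positivity)
            linarith
    have dif : |(a : ℝ) - a'| ≤ 2 * (η * R) := by
      have e : (a : ℝ) - a' = (a - τ * R) - (a' - τ * R) := by ring
      rw [e]
      refine (abs_sub _ _).trans ?_
      linarith
    have sm : |(a : ℝ) + a'| ≤ 2 * R := (abs_add_le _ _).trans (by linarith)
    have e5 : (u - u') * (u + u') = -(((a : ℝ) - a') * (a + a')) / 4 := by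
      linear_combination w1 - w2 + (n1 - n2) / 4
    have e6 : ((u - u') * (u + u')) ^ 2 ≤ (η * R ^ 2) ^ 2 := by
      rw [e5, ← sq_abs]
      apply pow_le_pow_left₀ (abs_nonneg _)
      rw [abs_div, abs_neg, abs_mul]
      have : |(a : ℝ) - a'| * |(a : ℝ) + a'| ≤ 2 * (η * R) * (2 * R) :=
        mul_le_mul dif sm (abs_nonneg _) (by positivity)
      rw [show |(4 : ℝ)| = 4 by norm_num]
      rw [div_le_iff₀ (by norm_num)]
      linarith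
    rw [mul_pow] at e6
    rw [← hR2, le_div_iff₀ (by positivity)]
    have e7 : (u - u') ^ 2 * (4 * c * R ^ 2) ≤ (η * R ^ 2) ^ 2 :=
      (mul_le_mul_of_nonneg_left big (sq_nonneg _)).trans e6
    have hRR : 0 < R ^ 2 := by positivity
    have e8 : ((u - u') ^ 2 * (4 * c)) * R ^ 2 ≤ (η ^ 2 * R ^ 2) * R ^ 2 := by
      calc ((u - u') ^ 2 * (4 * c)) * R ^ 2 = (u - u') ^ 2 * (4 * c * R ^ 2) := by ring
        _ ≤ _ := e7
        _ = _ := by ring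
    exact le_of_mul_le_mul_right e8 hRR
  · rw [hcard]
    have f1 := Int.sub_one_lt_floor B'
    have f2 := Int.ceil_lt_add_one A'
    have hz : ((⌊B'⌋ + 1 - ⌈A'⌉ : ℤ) : ℝ) ≤ (((⌊B'⌋ + 1 - ⌈A'⌉).toNat : ℤ) : ℝ) := by
      exact_mod_cast Int.self_le_toNat _
    push_cast at hz ⊢
    linarith
  · rw [hcard]
    have f1 := Int.floor_le B'
    have f2 := Int.le_ceil A'
    have hz0 : 0 ≤ ⌊B'⌋ + 1 - ⌈A'⌉ := by
      have f3 := Int.sub_one_lt_floor B'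
      have f4 := Int.ceil_lt_add_one A'
      have : (0 : ℝ) ≤ ((⌊B'⌋ + 1 - ⌈A'⌉ : ℤ) : ℝ) := by push_cast; linarith
      exact_mod_cast this
    have hz : (((⌊B'⌋ + 1 - ⌈A'⌉).toNat : ℤ) : ℝ) = ((⌊B'⌋ + 1 - ⌈A'⌉ : ℤ) : ℝ) := by
      rw [Int.toNat_of_nonneg hz0]
    have hz2 : (((⌊B'⌋ + 1 - ⌈A'⌉).toNat : ℕ) : ℝ) = ((⌊B'⌋ + 1 - ⌈A'⌉ : ℤ) : ℝ) := by
      rw [← hz]; push_cast; rfl
    rw [hz2]
    push_cast
    linarith

end Pool.Agent.H978V
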