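import Pool.Agent.H978V.Defs
import Pool.Agent.Helper557.Rz.M_rq

/-!
# The rotation homomorphism
-/

set_option autoImplicit false

open scoped Quaternion

namespace Pool.Agent.H978V

open Pool.Agent.Helper557.Rz

/-- the rotation homomorphism exists -/
theorem exists_RQ' : ∃ R : ℍ[ℝ]ˣ →* Iso 3, IsRot R := exists_RQ

end Pool.Agent.H978V
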