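import Pool.Agent.H978V.KDefs
import Pool.Agent.H978V.B5
import Pool.Agent.H978V.C2
import Pool.Agent.H978V.K4
import Pool.Agent.H978V.K5
import Pool.Agent.H978V.K6
import Pool.Agent.H978V.K7
import Pool.Agent.H978V.K9a

/-!
JOB K9 (owner helper978, MP_06cce2_nt).  `H978V/{Ar,Defs,Defs2,KDefs}.lean` (and the library `H978V/*.lean`, `Helper557/Rz/*`) are on origin/main.

Assembly: outside a set of directions `x` of measure `≤ C ε^η` the point `(τ, √(1-τ²) x)` has a word of length `≤ (3+δ) log_5(1/ε) + C` within `ε`.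

PROOF.  We may assume `δ ≤ 1`.  `R` from `exists_RQ`.  `c, κ₀` from `window_set τ`, `κ` from `avg_point R`.  Write `σ² = 1 - τ²`, `c₁ > 0` a small constant with `(1 + 4/σ²) c₁² ≤ 1/4` and `c₁ ≤ κ₀`.  Let `δ₁ > 0` be small (to be fixed).
For `ε ≥ ε₀` (a constant to be fixed) the measure is at most `1 ≤ C ε^η` if `C ≥ ε₀^{-η}`.  For `ε < ε₀`:
`η' = c₁ ε` (the window), `l = ⌈3 log_5 (1/ε)⌉₊`, so `ε^{-3} ≤ 5^l ≤ 5 ε^{-3}`; `η' √(5^l) ≥ c₁ ε^{-1/2} ≥ 32`.  `A` from `window_set l η'`.  `N = ⌈ε^{-2-δ₁}⌉₊`: `4 log(2N)/(N-1) < ε²/2` for small `ε`.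
For `p = (a,y) ∈ PW l A` let `yh p ∈ S 3` be the unit vector with `imq (yh p) = (√n)⁻¹ • cz (pq y)`, `n = nA l a ≥ 1`, `|y|² = n`; the inner products are as in `window_energy`.
`F = ∑_{p ∈ PW l A} kkC N (yh p)`, `∫ F = T := (PW l A).card` (`∫ kk N x y dx = 1`, `c2_kk_int` in `H978V/C2.lean`), `∫ F² = ∑∑ k2 N (yh p) (yh p')`.
`r3_lower δ₁`: `T = ∑_{a ∈ A} |S3 (nA l a)| ≥ |A| c₂ (c 5^l)^{1/2-δ₁} ≥ c₃ η' √(5^l) (5^l)^{1/2-δ₁} > 0`, so `T ≥ c₄ ε (ε^{-3})^{1-δ₁} = c₄ ε^{-2+3δ₁}`.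
`window_energy δ₁` with `W = η'² 5^l/(4c)`: `N W ≤ 2 ε^{-2-δ₁} c₁² ε² 5^l/(4c) ≤ C ε^{-δ₁} 5^l`; `5^l N ≤ C ε^{-6}`, so
`∫F² ≤ C ε^{-6δ₁} (ε^{-2-δ₁} T + |A|² 5^l ε^{-δ₁})`, and `|A| ≤ C T (5^l)^{-1/2+δ₁}`, so `∫F²/T² ≤ C ε^{-6δ₁-δ₁} (ε^{-2}/T + (5^l)^{2δ₁}) ≤ C ε^{-20 δ₁}`.
`i = ⌊(δ/4) log_5 (1/ε)⌋₊`: `κ^{2i} ≤ κ^{-2} ε^{(δ/2) log(1/κ)/log 5}`.  Choose `δ₁` with `20 δ₁ ≤ (δ/4) log(1/κ)/log 5`; `η = (δ/4) log(1/κ)/log 5`.
If `x` is not in the set of `avg_point`: some `w`, `|w| ≤ i`, `F (rot (R (uw w)) x) ≥ T/2`, so some `p = (a,y)` has `kk N (rot (R (uw w)) x) (yh p) ≥ 1/2` (`kkC N y x = kk N x y`); `point_word` gives `q`, `close_class` (`k = |w|`) gives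
`qs τ x q (l + 2|w|) ≤ (1 + 4/σ²) η'² + ε²/2 < ε²`; `L = l + 2|w| ≤ 3 log_5(1/ε) + 1 + (δ/2) log_5 (1/ε)`.
-/

set_option autoImplicit false

open MeasureTheory Set
open scoped Quaternion

namespace Pool.Agent.H978V

open Pool.Agent.Helper557.Rz









theorem us_real (d c c₁ c₂ K : ℝ) (hd : 0 < d) (hd1 : d ≤ 1 / 4) (hc : 0 < c) (hc1 : 0 < c₁)
    (hc2 : 0 < c₂) (hK : 0 < K) : ∃ K₁ : ℝ, 0 < K₁ ∧ ∀ t X N T α W En : ℝ, 1 ≤ t → t ^ 3 ≤ X →
      X ≤ 5 * t ^ 3 → 0 ≤ N → N ≤ 2 * t ^ (2 + d) → (c₁ / t) * Real.sqrt X / 16 ≤ α →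
      α * (c₂ * (c * X) ^ (1 / 2 - d)) ≤ T → W = (c₁ / t) ^ 2 * X / (4 * c) →
      En ≤ K * (X * N) ^ d * (N * T + α ^ 2 * (X + N * W)) → En ≤ K₁ * t ^ (13 * d) * T ^ 2 := by
  set a0 : ℝ := c₁ * c₂ * c ^ (1 / 2 - d) / 16 with ha0
  have ha0' : 0 < a0 := by positivity
  set b0 : ℝ := (c₂ ^ 2)⁻¹ * (c ^ (1 - 2 * d))⁻¹ * 5 ^ (2 * d) * (1 + c₁ ^ 2 / (2 * c)) with hb0
  have hb0' : 0 < b0 := by positivity
  refine ⟨K * 10 ^ d * (2 / a0 + b0), by positivity, ?_⟩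
  intro t X N T α W En ht hX1 hX2 hN0 hN hα hT hW hE
  have ht0 : 0 < t := by linarith
  have hX0 : 0 < X := lt_of_lt_of_le (by positivity) hX1
  have hp : (0 : ℝ) ≤ 1 / 2 - d := by linarith
  have ht3 : (t ^ 3 : ℝ) = t ^ (3 : ℝ) := by norm_cast
  -- lower bound for α
  have hα1 : c₁ / 16 * t ^ ((1 : ℝ) / 2) ≤ α := by
    refine le_trans ?_ hα
    have h1 : t ^ ((3 : ℝ) / 2) ≤ Real.sqrt X := by
      rw [Real.sqrt_eq_rpow]
      calc t ^ ((3 : ℝ) / 2) = (t ^ 3) ^ ((1 : ℝ) / 2) := by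
            rw [ht3, ← Real.rpow_mul ht0.le]; norm_num
        _ ≤ X ^ ((1 : ℝ) / 2) := Real.rpow_le_rpow (by positivity) hX1 (by norm_num)
    have h2 : t ^ ((1 : ℝ) / 2) = t⁻¹ * t ^ ((3 : ℝ) / 2) := by
      rw [← Real.rpow_neg_one t, ← Real.rpow_add ht0]; norm_num
    rw [h2]
    have h3 : 0 < c₁ / t / 16 := by positivity
    calc c₁ / 16 * (t⁻¹ * t ^ ((3 : ℝ) / 2)) = (c₁ / t / 16) * t ^ ((3 : ℝ) / 2) := by
          field_simp
      _ ≤ (c₁ / t / 16) * Real.sqrt X := mul_le_mul_of_nonneg_left h1 h3.le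
      _ = (c₁ / t) * Real.sqrt X / 16 := by ring
  have hα0 : 0 < α := lt_of_lt_of_le (by positivity) hα1
  have hs0 : 0 < c₂ * (c * X) ^ (1 / 2 - d) := by positivity
  have hT0 : 0 < T := lt_of_lt_of_le (mul_pos hα0 hs0) hT
  -- lower bound for T
  have hT1 : a0 * t ^ (2 - 3 * d) ≤ T := by
    refine le_trans ?_ hT
    have h1 : c ^ (1 / 2 - d) * t ^ (3 / 2 - 3 * d) ≤ (c * X) ^ (1 / 2 - d) := by
      calc c ^ (1 / 2 - d) * t ^ (3 / 2 - 3 * d) = (c * t ^ 3) ^ (1 / 2 - d) := by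
            rw [Real.mul_rpow hc.le (by positivity), ht3, ← Real.rpow_mul ht0.le]
            congr 2; ring
        _ ≤ (c * X) ^ (1 / 2 - d) :=
            Real.rpow_le_rpow (by positivity) (mul_le_mul_of_nonneg_left hX1 hc.le) hp
    calc a0 * t ^ (2 - 3 * d) = (c₁ / 16 * t ^ ((1 : ℝ) / 2)) *
          (c₂ * (c ^ (1 / 2 - d) * t ^ (3 / 2 - 3 * d))) := by
            have h2 : t ^ (2 - 3 * d) = t ^ ((1 : ℝ) / 2) * t ^ (3 / 2 - 3 * d) := by
              rw [← Real.rpow_add ht0]; congr 1; ring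
            rw [h2, ha0]; ring
      _ ≤ α * (c₂ * (c * X) ^ (1 / 2 - d)) := by
            apply mul_le_mul hα1 (mul_le_mul_of_nonneg_left h1 hc2.le) (by positivity) hα0.le
  have hNT : N * T ≤ 2 / a0 * t ^ (4 * d) * T ^ 2 := by
    have h1 : N ≤ 2 / a0 * t ^ (4 * d) * T := by
      calc N ≤ 2 * t ^ (2 + d) := hN
        _ = 2 / a0 * t ^ (4 * d) * (a0 * t ^ (2 - 3 * d)) := by
            have h2 : t ^ (2 + d) = t ^ (4 * d) * t ^ (2 - 3 * d) := by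
              rw [← Real.rpow_add ht0]; congr 1; ring
            rw [h2]; field_simp
        _ ≤ 2 / a0 * t ^ (4 * d) * T := mul_le_mul_of_nonneg_left hT1 (by positivity)
    calc N * T ≤ (2 / a0 * t ^ (4 * d) * T) * T := mul_le_mul_of_nonneg_right h1 hT0.le
      _ = _ := by ring
  have hXW : α ^ 2 * (X + N * W) ≤ b0 * t ^ (7 * d) * T ^ 2 := by
    have h1 : X + N * W ≤ (1 + c₁ ^ 2 / (2 * c)) * t ^ d * X := by
      have h2 : N * W ≤ c₁ ^ 2 / (2 * c) * t ^ d * X := by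
        have hW0 : 0 ≤ W := by rw [hW]; positivity
        calc N * W ≤ (2 * t ^ (2 + d)) * W := mul_le_mul_of_nonneg_right hN hW0
          _ = c₁ ^ 2 / (2 * c) * t ^ d * X := by
            rw [hW]
            have h3 : t ^ (2 + d) = t ^ 2 * t ^ d := by
              rw [Real.rpow_add ht0]; norm_cast
            rw [h3]; field_simp; ring
      have h4 : 1 ≤ t ^ d := Real.one_le_rpow ht hd.le
      nlinarith
    have h5 : α ^ 2 * (c₂ ^ 2 * (c * X) ^ (1 - 2 * d)) ≤ T ^ 2 := by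
      have h6 : α ^ 2 * (c₂ ^ 2 * (c * X) ^ (1 - 2 * d)) = (α * (c₂ * (c * X) ^ (1 / 2 - d))) ^ 2 := by
        have h7 : (c * X) ^ (1 - 2 * d) = ((c * X) ^ (1 / 2 - d)) ^ 2 := by
          rw [← Real.rpow_natCast, ← Real.rpow_mul (by positivity)]
          congr 1; push_cast; ring
        rw [h7]; ring
      rw [h6]
      exact pow_le_pow_left₀ (by positivity) hT 2
    have h8 : X ≤ (c ^ (1 - 2 * d))⁻¹ * 5 ^ (2 * d) * t ^ (6 * d) * (c * X) ^ (1 - 2 * d) := by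
      have h9 : X ^ (2 * d) ≤ 5 ^ (2 * d) * t ^ (6 * d) := by
        calc X ^ (2 * d) ≤ (5 * t ^ 3) ^ (2 * d) :=
              Real.rpow_le_rpow hX0.le hX2 (by positivity)
          _ = 5 ^ (2 * d) * t ^ (6 * d) := by
              rw [Real.mul_rpow (by norm_num) (by positivity), ht3, ← Real.rpow_mul ht0.le]
              congr 2; ring
      have h10 : X = X ^ (2 * d) * X ^ (1 - 2 * d) := by
        rw [← Real.rpow_add hX0]
        have : 2 * d + (1 - 2 * d) = 1 := by ring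
        rw [this, Real.rpow_one]
      calc X = X ^ (2 * d) * X ^ (1 - 2 * d) := h10
        _ ≤ (5 ^ (2 * d) * t ^ (6 * d)) * X ^ (1 - 2 * d) :=
            mul_le_mul_of_nonneg_right h9 (by positivity)
        _ = (c ^ (1 - 2 * d))⁻¹ * 5 ^ (2 * d) * t ^ (6 * d) * (c * X) ^ (1 - 2 * d) := by
            rw [Real.mul_rpow hc.le hX0.le]
            have : c ^ (1 - 2 * d) ≠ 0 := by positivity
            field_simp
    have ht7 : t ^ (7 * d) = t ^ d * t ^ (6 * d) := by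
      rw [← Real.rpow_add ht0]; congr 1; ring
    calc α ^ 2 * (X + N * W) ≤ α ^ 2 * ((1 + c₁ ^ 2 / (2 * c)) * t ^ d * X) :=
          mul_le_mul_of_nonneg_left h1 (by positivity)
      _ ≤ α ^ 2 * ((1 + c₁ ^ 2 / (2 * c)) * t ^ d *
          ((c ^ (1 - 2 * d))⁻¹ * 5 ^ (2 * d) * t ^ (6 * d) * (c * X) ^ (1 - 2 * d))) :=
          mul_le_mul_of_nonneg_left (mul_le_mul_of_nonneg_left h8 (by positivity)) (by positivity)
      _ = b0 * t ^ (7 * d) * (α ^ 2 * (c₂ ^ 2 * (c * X) ^ (1 - 2 * d))) := by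
          rw [hb0, ht7]
          have : c₂ ≠ 0 := hc2.ne'
          field_simp
      _ ≤ b0 * t ^ (7 * d) * T ^ 2 := mul_le_mul_of_nonneg_left h5 (by positivity)
  have hXN : (X * N) ^ d ≤ 10 ^ d * t ^ (6 * d) := by
    have h1 : X * N ≤ 10 * t ^ (5 + d) := by
      calc X * N ≤ (5 * t ^ 3) * (2 * t ^ (2 + d)) := mul_le_mul hX2 hN hN0 (by positivity)
        _ = 10 * t ^ (5 + d) := by
          have : t ^ (5 + d) = t ^ 3 * t ^ (2 + d) := by
            rw [ht3, ← Real.rpow_add ht0]; congr 1; ring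
          rw [this]; ring
    calc (X * N) ^ d ≤ (10 * t ^ (5 + d)) ^ d :=
          Real.rpow_le_rpow (by positivity) h1 hd.le
      _ = 10 ^ d * t ^ ((5 + d) * d) := by
          rw [Real.mul_rpow (by norm_num) (by positivity), ← Real.rpow_mul ht0.le]
      _ ≤ 10 ^ d * t ^ (6 * d) := by
          refine mul_le_mul_of_nonneg_left ?_ (by positivity)
          exact Real.rpow_le_rpow_of_exponent_le ht (by nlinarith)
  have hsum : N * T + α ^ 2 * (X + N * W) ≤ (2 / a0 + b0) * t ^ (7 * d) * T ^ 2 := by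
    have h1 : t ^ (4 * d) ≤ t ^ (7 * d) := Real.rpow_le_rpow_of_exponent_le ht (by linarith)
    have h2 : 2 / a0 * t ^ (4 * d) * T ^ 2 ≤ 2 / a0 * t ^ (7 * d) * T ^ 2 :=
      mul_le_mul_of_nonneg_right (mul_le_mul_of_nonneg_left h1 (by positivity)) (by positivity)
    calc N * T + α ^ 2 * (X + N * W) ≤ 2 / a0 * t ^ (7 * d) * T ^ 2 + b0 * t ^ (7 * d) * T ^ 2 :=
          add_le_add (hNT.trans h2) hXW
      _ = _ := by ring
  calc En ≤ K * (X * N) ^ d * (N * T + α ^ 2 * (X + N * W)) := hE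
    _ ≤ K * (10 ^ d * t ^ (6 * d)) * ((2 / a0 + b0) * t ^ (7 * d) * T ^ 2) := by
        apply mul_le_mul (mul_le_mul_of_nonneg_left hXN hK.le) hsum
        · have hW0 : 0 ≤ W := by rw [hW]; positivity
          positivity
        · positivity
    _ = K * 10 ^ d * (2 / a0 + b0) * t ^ (13 * d) * T ^ 2 := by
        have : t ^ (13 * d) = t ^ (6 * d) * t ^ (7 * d) := by
          rw [← Real.rpow_add ht0]; congr 1; ring
        rw [this]; ring

theorem us_event (d : ℝ) (hd : 0 < d) :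
    ∀ᶠ t : ℝ in Filter.atTop, 8 * t ^ 2 * Real.log (4 * t ^ (2 + d)) < t ^ (2 + d) - 1 := by
  have h1 := (isLittleO_log_rpow_atTop hd).def (c := 1 / (32 * (2 + d))) (by positivity)
  have h2 := (tendsto_rpow_atTop hd).eventually_ge_atTop (32 * Real.log 4 + 1)
  have h3 := (tendsto_rpow_atTop (show (0 : ℝ) < 2 + d by linarith)).eventually_ge_atTop 8
  filter_upwards [h1, h2, h3, Filter.eventually_ge_atTop (1 : ℝ)] with t h1 h2 h3 ht
  have ht0 : 0 < t := by linarith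
  have e1 : t ^ (2 + d) = t ^ 2 * t ^ d := by
    rw [Real.rpow_add ht0]; norm_cast
  have e2 : Real.log (4 * t ^ (2 + d)) = Real.log 4 + (2 + d) * Real.log t := by
    rw [Real.log_mul (by norm_num) (by positivity), Real.log_rpow ht0]
  have hlog : 0 ≤ Real.log t := Real.log_nonneg ht
  rw [Real.norm_of_nonneg hlog, Real.norm_of_nonneg (by positivity)] at h1
  have h5 : (2 + d) * Real.log t ≤ t ^ d / 32 := by
    calc (2 + d) * Real.log t ≤ (2 + d) * (1 / (32 * (2 + d)) * t ^ d) :=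
          mul_le_mul_of_nonneg_left h1 (by positivity)
      _ = t ^ d / 32 := by field_simp
  have h6 : Real.log 4 ≤ t ^ d / 32 := by linarith
  rw [e2]
  have ht2 : 0 < t ^ 2 := by positivity
  calc 8 * t ^ 2 * (Real.log 4 + (2 + d) * Real.log t) ≤ 8 * t ^ 2 * (t ^ d / 32 + t ^ d / 32) :=
        mul_le_mul_of_nonneg_left (by linarith) (by positivity)
    _ = t ^ (2 + d) / 2 := by rw [e1]; ring
    _ < t ^ (2 + d) - 1 := by linarith

/-- the vector of a pair -/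
noncomputable def us_vec (l : ℕ) (p : ℤ × (ℤ × ℤ × ℤ)) : E 3 :=
  (Real.sqrt (nA l p.1))⁻¹ • (WithLp.toLp 2 ![(p.2.1 : ℝ), (p.2.2.1 : ℝ), (p.2.2.2 : ℝ)] : E 3)

theorem us_inner (l : ℕ) (p p' : ℤ × (ℤ × ℤ × ℤ)) :
    inner ℝ (us_vec l p) (us_vec l p') =
      (dt p.2 p'.2 : ℝ) / (Real.sqrt (nA l p.1) * Real.sqrt (nA l p'.1)) := by
  unfold us_vec
  rw [inner_smul_left, inner_smul_right, PiLp.inner_apply, Fin.sum_univ_three]
  simp only [Matrix.cons_val_zero, Matrix.cons_val_one, Matrix.cons_val, RCLike.inner_apply,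
    conj_trivial, dt]
  push_cast
  rw [div_eq_mul_inv, mul_inv]
  ring

theorem us_norm (l : ℕ) (A : Finset ℤ) (p : ℤ × (ℤ × ℤ × ℤ)) (hp : p ∈ PW l A)
    (hn : 1 ≤ nA l p.1) : ‖us_vec l p‖ = 1 := by
  have h1 := us_inner l p p
  have h2 := mem_S3.1 (mem_PW.1 hp).2
  have hn' : (0 : ℝ) < nA l p.1 := by exact_mod_cast hn
  have h3 : (dt p.2 p.2 : ℝ) = nA l p.1 := by
    have : dt p.2 p.2 = (nA l p.1 : ℤ) := by
      rw [← h2]; unfold dt; ring
    rw [this]; push_cast; rfl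
  rw [h3, Real.mul_self_sqrt hn'.le, div_self hn'.ne', real_inner_self_eq_norm_sq] at h1
  nlinarith [norm_nonneg (us_vec l p)]

open Classical in
/-- the point of a pair -/
noncomputable def us_pt (l : ℕ) (p : ℤ × (ℤ × ℤ × ℤ)) : S 3 :=
  if h : ‖us_vec l p‖ = 1 then ⟨us_vec l p, by rwa [mem_sphere_zero_iff_norm]⟩ else ehat true

theorem us_pt_coe (l : ℕ) (A : Finset ℤ) (p : ℤ × (ℤ × ℤ × ℤ)) (hp : p ∈ PW l A)
    (hn : 1 ≤ nA l p.1) : (us_pt l p : E 3) = us_vec l p := by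
  unfold us_pt
  rw [dif_pos (us_norm l A p hp hn)]

theorem us_imq_smul (r : ℝ) (v : E 3) : imq (r • v) = r • imq v := by
  have h0 : (imq (r • v)).re = (r • imq v).re := by rw [Quaternion.re_smul]; simp [imq]
  have h1 : (imq (r • v)).imI = (r • imq v).imI := by rw [Quaternion.imI_smul]; simp [imq]
  have h2 : (imq (r • v)).imJ = (r • imq v).imJ := by rw [Quaternion.imJ_smul]; simp [imq]
  have h3 : (imq (r • v)).imK = (r • imq v).imK := by rw [Quaternion.imK_smul]; simp [imq]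
  exact Quaternion.ext _ _ h0 h1 h2 h3

theorem us_imq (l : ℕ) (A : Finset ℤ) (p : ℤ × (ℤ × ℤ × ℤ)) (hp : p ∈ PW l A)
    (hn : 1 ≤ nA l p.1) :
    imq (us_pt l p : E 3) = (Real.sqrt (nA l p.1))⁻¹ • cz (pq p.2) := by
  rw [us_pt_coe l A p hp hn]
  unfold us_vec
  rw [us_imq_smul]
  congr 1
  ext <;> simp [imq, cz, pq]

theorem us_int (N : ℕ) (hN : 1 ≤ N) {ι : Type} (Z : Finset ι) (y : ι → S 3) :
    ∫ x, (∑ p ∈ Z, kkC N (y p)) x ∂(sg 3) = Z.card := by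
  have := sg_prob 3 (by norm_num)
  have hint : ∀ f : C(S 3, ℝ), Integrable (fun x => f x) (sg 3) := fun f =>
    f.continuous.integrable_of_hasCompactSupport (HasCompactSupport.of_compactSpace _)
  have h1 : ∀ x, (∑ p ∈ Z, kkC N (y p)) x = ∑ p ∈ Z, kkC N (y p) x := fun x => by
    rw [ContinuousMap.coe_sum, Finset.sum_apply]
  simp only [h1]
  rw [integral_finsetSum _ fun p _ => hint _]
  have h2 : ∀ p ∈ Z, ∫ x, kkC N (y p) x ∂(sg 3) = 1 := fun p _ => c2_kk_int N hN (y p)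
  rw [Finset.sum_congr rfl h2]
  simp

theorem us_int2 (N : ℕ) {ι : Type} (Z : Finset ι) (y : ι → S 3) :
    ∫ x, (∑ p ∈ Z, kkC N (y p)) x ^ 2 ∂(sg 3) = ∑ p ∈ Z, ∑ p' ∈ Z, k2 N (y p) (y p') := by
  have := sg_prob 3 (by norm_num)
  have hint : ∀ f : C(S 3, ℝ), Integrable (fun x => f x) (sg 3) := fun f =>
    f.continuous.integrable_of_hasCompactSupport (HasCompactSupport.of_compactSpace _)
  have h1 : ∀ x, (∑ p ∈ Z, kkC N (y p)) x ^ 2 =
      ∑ p ∈ Z, ∑ p' ∈ Z, (kkC N (y p) * kkC N (y p')) x := fun x => by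
    rw [ContinuousMap.coe_sum, Finset.sum_apply, pow_two, Finset.sum_mul_sum]
    rfl
  simp only [h1]
  rw [integral_finsetSum _ fun p _ => integrable_finsetSum _ fun p' _ => hint _]
  refine Finset.sum_congr rfl fun p _ => ?_
  rw [integral_finsetSum _ fun p' _ => hint _]
  rfl

theorem us_exists {ι : Type} (Z : Finset ι) (f : ι → ℝ) (hZ : 0 < Z.card)
    (h : (Z.card : ℝ) / 2 ≤ ∑ p ∈ Z, f p) : ∃ p ∈ Z, 1 / 2 ≤ f p := by
  by_contra hcon
  push Not at hcon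
  have hne : Z.Nonempty := Finset.card_pos.1 hZ
  have h1 : ∑ p ∈ Z, f p < ∑ _p ∈ Z, (1 / 2 : ℝ) := Finset.sum_lt_sum_of_nonempty hne hcon
  rw [Finset.sum_const, nsmul_eq_mul] at h1
  linarith



theorem us_card (l : ℕ) (A : Finset ℤ) : (PW l A).card = ∑ a ∈ A, (S3 (nA l a)).card := by
  unfold PW
  rw [Finset.card_biUnion]
  · refine Finset.sum_congr rfl fun a _ => ?_
    rw [Finset.card_image_of_injective]
    intro y y' h
    exact (Prod.mk.inj h).2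
  · intro a _ b _ hab
    rw [Function.onFun, Finset.disjoint_left]
    intro x hx hx'
    obtain ⟨y, _, rfl⟩ := Finset.mem_image.1 hx
    obtain ⟨y', _, h⟩ := Finset.mem_image.1 hx'
    exact hab (Prod.mk.inj h).1.symm

/-- the arithmetic input at one scale -/
theorem us_scale (τ : ℝ) (h1 : -1 < τ) (h2 : τ < 1) (d : ℝ) (hd : 0 < d) (hd1 : d ≤ 1 / 4) :
    ∃ c₁ K₁ t₀ : ℝ, 0 < c₁ ∧ (1 + 4 / (1 - τ ^ 2)) * c₁ ^ 2 ≤ 1 / 4 ∧ 0 < K₁ ∧ 1 ≤ t₀ ∧
      ∀ t : ℝ, t₀ ≤ t → ∃ (l N : ℕ) (A : Finset ℤ), (l : ℝ) ≤ 3 * Real.logb 5 t + 1 ∧ 2 ≤ N ∧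
        4 * Real.log (2 * N) / (N - 1) < 1 / (2 * t ^ 2) ∧ 0 < (PW l A).card ∧
        (∀ a ∈ A, a % 4 = 1 ∧ a ^ 2 + 4 * (nA l a : ℤ) = 5 ^ l ∧ 1 ≤ nA l a ∧
          (a / Real.sqrt (5 ^ l) - τ) ^ 2 ≤ (c₁ / t) ^ 2) ∧
        (∑ p ∈ PW l A, ∑ p' ∈ PW l A, k2 N (us_pt l p) (us_pt l p')) ≤
          K₁ * t ^ (13 * d) * ((PW l A).card : ℝ) ^ 2 := by
  obtain ⟨c, κ₀, hc, hcle, hκ₀, hwin⟩ := window_set τ h1 h2
  obtain ⟨c₂, hc₂, hr3⟩ := r3_lower d hd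
  obtain ⟨K, hK, hwe⟩ := window_energy d hd
  have hσ : 0 < 1 - τ ^ 2 := by nlinarith
  set s : ℝ := 1 + 4 / (1 - τ ^ 2) with hs
  have hs1 : 1 ≤ s := by
    have : 0 < 4 / (1 - τ ^ 2) := by positivity
    rw [hs]; linarith
  set c₁ : ℝ := min κ₀ (1 / (2 * s)) with hc₁
  have hc₁0 : 0 < c₁ := lt_min hκ₀ (by positivity)
  have hc₁κ : c₁ ≤ κ₀ := min_le_left _ _
  have hc₁s : s * c₁ ^ 2 ≤ 1 / 4 := by
    have h3 : c₁ ≤ 1 / (2 * s) := min_le_right _ _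
    have h4 : c₁ * s ≤ 1 / 2 := by
      calc c₁ * s ≤ 1 / (2 * s) * s := mul_le_mul_of_nonneg_right h3 (by linarith)
        _ = 1 / 2 := by field_simp
    have h5 : c₁ ≤ 1 / 2 := by nlinarith
    nlinarith
  obtain ⟨K₁, hK₁, hreal⟩ := us_real d c c₁ c₂ K hd hd1 hc hc₁0 hc₂ hK
  obtain ⟨t₁, ht₁⟩ := Filter.eventually_atTop.1 (us_event d hd)
  refine ⟨c₁, K₁, max (max 2 t₁) ((32 / c₁) ^ 2), hc₁0, hc₁s, hK₁,
    le_trans (by norm_num) ((le_max_left (2 : ℝ) t₁).trans (le_max_left _ _)), ?_⟩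
  intro t ht
  have ht2 : 2 ≤ t := ((le_max_left (2 : ℝ) t₁).trans (le_max_left _ _)).trans ht
  have ht1' : t₁ ≤ t := ((le_max_right (2 : ℝ) t₁).trans (le_max_left _ _)).trans ht
  have ht32 : (32 / c₁) ^ 2 ≤ t := (le_max_right _ _).trans ht
  have ht0 : 0 < t := by linarith
  have ht1 : 1 ≤ t := by linarith
  have hlog : 0 ≤ 3 * Real.logb 5 t :=
    mul_nonneg (by norm_num) (Real.logb_nonneg (by norm_num) ht1)
  set l : ℕ := ⌈3 * Real.logb 5 t⌉₊ with hl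
  have hl1 : 3 * Real.logb 5 t ≤ l := Nat.le_ceil _
  have hl2 : (l : ℝ) < 3 * Real.logb 5 t + 1 := Nat.ceil_lt_add_one hlog
  have h5t : (5 : ℝ) ^ (3 * Real.logb 5 t) = t ^ 3 := by
    rw [mul_comm, Real.rpow_mul (by norm_num), Real.rpow_logb (by norm_num) (by norm_num) ht0]
    norm_cast
  have hX1 : t ^ 3 ≤ (5 : ℝ) ^ l := by
    rw [← h5t, ← Real.rpow_natCast]
    exact Real.rpow_le_rpow_of_exponent_le (by norm_num) hl1
  have hX2 : (5 : ℝ) ^ l ≤ 5 * t ^ 3 := by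
    rw [← h5t, ← Real.rpow_natCast]
    calc (5 : ℝ) ^ (l : ℝ) ≤ 5 ^ (3 * Real.logb 5 t + 1) :=
          Real.rpow_le_rpow_of_exponent_le (by norm_num) hl2.le
      _ = 5 * 5 ^ (3 * Real.logb 5 t) := by
          rw [Real.rpow_add (by norm_num), Real.rpow_one, mul_comm]
  set N : ℕ := ⌈t ^ (2 + d)⌉₊ with hN
  have hN1 : t ^ (2 + d) ≤ N := Nat.le_ceil _
  have htd : t ≤ t ^ (2 + d) := by
    calc t = t ^ (1 : ℝ) := (Real.rpow_one t).symm
      _ ≤ t ^ (2 + d) := Real.rpow_le_rpow_of_exponent_le ht1 (by linarith)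
  have hN2 : (N : ℝ) ≤ 2 * t ^ (2 + d) := by
    have := Nat.ceil_lt_add_one (show (0 : ℝ) ≤ t ^ (2 + d) by positivity)
    rw [← hN] at this
    linarith
  have hN2' : 2 ≤ N := by
    have : (2 : ℝ) ≤ N := by linarith
    exact_mod_cast this
  have hNlog : 4 * Real.log (2 * N) / (N - 1) < 1 / (2 * t ^ 2) := by
    have h3 := ht₁ t ht1'
    have h4 : Real.log (2 * N) ≤ Real.log (4 * t ^ (2 + d)) :=
      Real.log_le_log (by positivity) (by linarith)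
    have h5 : (0 : ℝ) < N - 1 := by linarith
    rw [div_lt_div_iff₀ h5 (by positivity)]
    have h6 : 8 * t ^ 2 * Real.log (2 * N) ≤ 8 * t ^ 2 * Real.log (4 * t ^ (2 + d)) :=
      mul_le_mul_of_nonneg_left h4 (by positivity)
    linarith
  have hη0 : 0 < c₁ / t := by positivity
  have hηκ : c₁ / t ≤ κ₀ := (div_le_self hc₁0.le ht1).trans hc₁κ
  have hη32 : 32 ≤ c₁ / t * Real.sqrt (5 ^ l) := by
    have h3 : t * Real.sqrt t ≤ Real.sqrt (5 ^ l) := by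
      calc t * Real.sqrt t = Real.sqrt (t ^ 3) := by
            have : t ^ 3 = t ^ 2 * t := by ring
            rw [this, Real.sqrt_mul (by positivity), Real.sqrt_sq ht0.le]
        _ ≤ Real.sqrt (5 ^ l) := Real.sqrt_le_sqrt hX1
    have h4 : 32 / c₁ ≤ Real.sqrt t := Real.le_sqrt_of_sq_le ht32
    calc (32 : ℝ) = c₁ * (32 / c₁) := by field_simp
      _ ≤ c₁ * Real.sqrt t := mul_le_mul_of_nonneg_left h4 hc₁0.le
      _ = c₁ / t * (t * Real.sqrt t) := by field_simp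
      _ ≤ c₁ / t * Real.sqrt (5 ^ l) := mul_le_mul_of_nonneg_left h3 hη0.le
  obtain ⟨A, hA, hAW, hAl, hAu⟩ := hwin l (c₁ / t) hη0 hηκ hη32
  have hX0 : (0 : ℝ) < 5 ^ l := by positivity
  have hα0 : (0 : ℝ) < A.card := lt_of_lt_of_le (by linarith) hAl
  have hTl : (A.card : ℝ) * (c₂ * (c * 5 ^ l) ^ (1 / 2 - d)) ≤ ((PW l A).card : ℝ) := by
    rw [us_card, Nat.cast_sum, ← nsmul_eq_mul, ← Finset.sum_const]
    refine Finset.sum_le_sum fun a ha => ?_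
    obtain ⟨_, _, _, h6, _, h7⟩ := hA a ha
    refine le_trans ?_ (hr3 _ h6)
    refine mul_le_mul_of_nonneg_left ?_ hc₂.le
    exact Real.rpow_le_rpow (by positivity) h7 (by linarith)
  have hT0 : (0 : ℝ) < ((PW l A).card : ℝ) := lt_of_lt_of_le (by positivity) hTl
  refine ⟨l, N, A, hl2.le, hN2', hNlog, by exact_mod_cast hT0, ?_, ?_⟩
  · intro a ha
    obtain ⟨h3, _, h5, _, h6, h7⟩ := hA a ha
    have h8 : (0 : ℝ) < nA l a := lt_of_lt_of_le (by positivity) h7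
    refine ⟨h3, h5, by exact_mod_cast h8, ?_⟩
    exact sq_le_sq' (abs_le.1 h6).1 (abs_le.1 h6).2
  · refine hreal t (5 ^ l) N ((PW l A).card : ℝ) (A.card : ℝ)
      ((c₁ / t) ^ 2 * 5 ^ l / (4 * c)) _ ht1 hX1 hX2 (Nat.cast_nonneg _) hN2 hAl hTl rfl ?_
    refine hwe l A (fun a ha => ⟨(hA a ha).1, (hA a ha).2.1⟩) N hN2' _ hAW (us_pt l) ?_
    intro p hp p' hp'
    have hn : ∀ q ∈ PW l A, 1 ≤ nA l q.1 := by
      intro q hq
      obtain ⟨_, _, _, _, _, h7⟩ := hA q.1 (mem_PW.1 hq).1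
      have h8 : (0 : ℝ) < nA l q.1 := lt_of_lt_of_le (by positivity) h7
      exact_mod_cast h8
    rw [us_pt_coe l A p hp (hn p hp), us_pt_coe l A p' hp' (hn p' hp')]
    exact us_inner l p p'

/-- TARGET -/
theorem upper_scale (τ : ℝ) (h1 : -1 < τ) (h2 : τ < 1) (δ : ℝ) (hδ : 0 < δ) :
    ∃ η C : ℝ, 0 < η ∧ 0 < C ∧ ∀ ε : ℝ, 0 < ε → ε < 1 →
      (sg 3).real {x | ¬ ∃ (L : ℕ) (q : ℍ[ℤ]), Gd q ∧ Quaternion.normSq q = 5 ^ L ∧
        (L : ℝ) ≤ (3 + δ) * Real.logb 5 (1 / ε) + C ∧ qs τ x q L < ε ^ 2} ≤ C * ε ^ η := by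
  have hprob := sg_prob 3 (by norm_num)
  obtain ⟨R, hR⟩ := exists_RQ'
  obtain ⟨κ, hκ0, hκ1, havg⟩ := avg_point R hR
  have hlog5 : 0 < Real.log 5 := Real.log_pos (by norm_num)
  have hlogκ : Real.log κ < 0 := Real.log_neg hκ0 hκ1
  set ρ : ℝ := δ / 4 * (-Real.log κ) / Real.log 5 with hρ
  have hρ0 : 0 < ρ := by
    have : 0 < -Real.log κ := by linarith
    positivity
  set d : ℝ := min (1 / 4) (ρ / 13) with hd
  have hd0 : 0 < d := lt_min (by norm_num) (by positivity)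
  have hd1 : d ≤ 1 / 4 := min_le_left _ _
  have hdρ : 13 * d ≤ ρ := by
    have : d ≤ ρ / 13 := min_le_right _ _
    linarith
  obtain ⟨c₁, K₁, t₀, hc₁, hc₁s, hK₁, ht₀, hscale⟩ := us_scale τ h1 h2 d hd0 hd1
  set C : ℝ := 1 + t₀ ^ ρ + 4 * (κ ^ 2)⁻¹ * K₁ with hC
  have hC0 : 0 < C := by positivity
  have hC1 : 1 ≤ C := by
    have : 0 < t₀ ^ ρ + 4 * (κ ^ 2)⁻¹ * K₁ := by positivity
    rw [hC]; linarith
  refine ⟨ρ, C, hρ0, hC0, ?_⟩
  intro ε hε hε1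
  set t : ℝ := 1 / ε with ht
  have ht0 : 0 < t := by positivity
  have htε : t * ε = 1 := by rw [ht]; field_simp
  have ht1 : 1 ≤ t := by nlinarith
  have hεt : ε ^ ρ = t ^ (-ρ) := by
    rw [ht, one_div, Real.inv_rpow hε.le, Real.rpow_neg hε.le, inv_inv]
  by_cases htt : t₀ ≤ t
  · obtain ⟨l, N, A, hl, hN2, hNlog, hcard, hA, hE⟩ := hscale t htt
    have hlogt : 0 ≤ Real.logb 5 t := Real.logb_nonneg (by norm_num) ht1
    set i : ℕ := ⌊δ / 4 * Real.logb 5 t⌋₊ with hi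
    have hi1 : (i : ℝ) ≤ δ / 4 * Real.logb 5 t := Nat.floor_le (by positivity)
    have hi2 : δ / 4 * Real.logb 5 t - 1 ≤ i := by
      have := Nat.lt_floor_add_one (δ / 4 * Real.logb 5 t)
      rw [← hi] at this
      linarith
    set F : C(S 3, ℝ) := ∑ p ∈ PW l A, kkC N (us_pt l p) with hF
    have hT0 : (0 : ℝ) < (PW l A).card := by exact_mod_cast hcard
    have hint1 : ∫ x, F x ∂(sg 3) = (PW l A).card := us_int N (by omega) (PW l A) (us_pt l)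
    have hint2 : ∫ x, F x ^ 2 ∂(sg 3) =
        ∑ p ∈ PW l A, ∑ p' ∈ PW l A, k2 N (us_pt l p) (us_pt l p') :=
      us_int2 N (PW l A) (us_pt l)
    have hav := havg F _ hT0 hint1 i
    have hsub : {x : S 3 | ¬ ∃ (L : ℕ) (q : ℍ[ℤ]), Gd q ∧ Quaternion.normSq q = 5 ^ L ∧
        (L : ℝ) ≤ (3 + δ) * Real.logb 5 t + C ∧ qs τ x q L < ε ^ 2} ⊆
        {x | ∀ w : List (Fin 6), w.length ≤ i →
          F (rot (R (uw w)) x) < ((PW l A).card : ℝ) / 2} := by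
      intro x hx w hw
      by_contra hcon
      push Not at hcon
      refine hx ?_
      have hFv : F (rot (R (uw w)) x) = ∑ p ∈ PW l A, kk N (rot (R (uw w)) x) (us_pt l p) := by
        rw [hF, ContinuousMap.coe_sum, Finset.sum_apply]
        rfl
      rw [hFv] at hcon
      obtain ⟨p, hp, hkp⟩ := us_exists (PW l A) _ hcard hcon
      obtain ⟨ha4, hasum, han, haτ⟩ := hA p.1 (mem_PW.1 hp).1
      obtain ⟨q, hq1, hq2, hq3, hq4⟩ := point_word R hR l (nA l p.1) N p.1 p.2 w x (us_pt l p) ha4 han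
        (mem_PW.1 hp).2 hasum (us_imq l A p hp han) hN2 hkp
      have hcc := close_class τ h1 h2 l w.length (nA l p.1) p.1 han hasum q hq2 hq3 x
      refine ⟨l + 2 * w.length, q, hq1, hq2, ?_, ?_⟩
      · push_cast
        have hw' : (w.length : ℝ) ≤ i := by exact_mod_cast hw
        have hm0 : 0 ≤ δ * Real.logb 5 t := by positivity
        have e1 : (3 + δ) * Real.logb 5 t = 3 * Real.logb 5 t + δ * Real.logb 5 t := by ring
        have e2 : δ / 4 * Real.logb 5 t = δ * Real.logb 5 t / 4 := by ring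
        rw [e2] at hi1
        rw [e1]
        linarith only [hw', hm0, hi1, hl, hC1]
      · have h3 : (1 + 4 / (1 - τ ^ 2)) * (p.1 / Real.sqrt (5 ^ l) - τ) ^ 2 ≤ ε ^ 2 / 4 := by
          have h4 : 0 < 1 + 4 / (1 - τ ^ 2) := by
            have : 0 < 1 - τ ^ 2 := by nlinarith
            positivity
          calc (1 + 4 / (1 - τ ^ 2)) * (p.1 / Real.sqrt (5 ^ l) - τ) ^ 2
              ≤ (1 + 4 / (1 - τ ^ 2)) * (c₁ / t) ^ 2 := mul_le_mul_of_nonneg_left haτ h4.le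
            _ = ((1 + 4 / (1 - τ ^ 2)) * c₁ ^ 2) * ε ^ 2 := by rw [ht]; field_simp
            _ ≤ 1 / 4 * ε ^ 2 := mul_le_mul_of_nonneg_right hc₁s (by positivity)
            _ = ε ^ 2 / 4 := by ring
        have h5 : (1 : ℝ) / (2 * t ^ 2) = ε ^ 2 / 2 := by rw [ht]; field_simp
        rw [h5] at hNlog
        have hε2 : 0 < ε ^ 2 := by positivity
        linarith only [hε2, hNlog, h3, hcc, hq4]
    have hfin : (sg 3) {x | ∀ w : List (Fin 6), w.length ≤ i →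
          F (rot (R (uw w)) x) < ((PW l A).card : ℝ) / 2} ≠ ⊤ := measure_ne_top _ _
    refine (measureReal_mono hsub hfin).trans (hav.trans ?_)
    rw [hint2]
    have h6 : κ ^ (2 * i) ≤ (κ ^ 2)⁻¹ * t ^ (-(2 * ρ)) := by
      calc κ ^ (2 * i) = κ ^ ((2 * i : ℕ) : ℝ) := (Real.rpow_natCast _ _).symm
        _ ≤ κ ^ (δ / 2 * Real.logb 5 t - 2) := by
            refine Real.rpow_le_rpow_of_exponent_ge hκ0 hκ1.le ?_
            push_cast
            linarith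
        _ = (κ ^ 2)⁻¹ * κ ^ (δ / 2 * Real.logb 5 t) := by
            rw [Real.rpow_sub hκ0, div_eq_mul_inv, mul_comm]
            norm_cast
        _ = (κ ^ 2)⁻¹ * t ^ (-(2 * ρ)) := by
            congr 1
            rw [Real.rpow_def_of_pos hκ0, Real.rpow_def_of_pos ht0, hρ, Real.logb]
            congr 1
            field_simp
            ring
    have h7 : (4 * κ ^ (2 * i) *
        ∑ p ∈ PW l A, ∑ p' ∈ PW l A, k2 N (us_pt l p) (us_pt l p')) / ((PW l A).card : ℝ) ^ 2 ≤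
        4 * κ ^ (2 * i) * (K₁ * t ^ (13 * d)) := by
      rw [div_le_iff₀ (by positivity)]
      calc 4 * κ ^ (2 * i) * ∑ p ∈ PW l A, ∑ p' ∈ PW l A, k2 N (us_pt l p) (us_pt l p')
          ≤ 4 * κ ^ (2 * i) * (K₁ * t ^ (13 * d) * ((PW l A).card : ℝ) ^ 2) :=
            mul_le_mul_of_nonneg_left hE (by positivity)
        _ = _ := by ring
    refine h7.trans ?_
    have h8 : t ^ (-(2 * ρ)) * t ^ (13 * d) ≤ t ^ (-ρ) := by
      rw [← Real.rpow_add ht0]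
      exact Real.rpow_le_rpow_of_exponent_le ht1 (by linarith)
    rw [hεt]
    calc 4 * κ ^ (2 * i) * (K₁ * t ^ (13 * d))
        ≤ 4 * ((κ ^ 2)⁻¹ * t ^ (-(2 * ρ))) * (K₁ * t ^ (13 * d)) := by
          refine mul_le_mul_of_nonneg_right ?_ (by positivity)
          exact mul_le_mul_of_nonneg_left h6 (by norm_num)
      _ = 4 * (κ ^ 2)⁻¹ * K₁ * (t ^ (-(2 * ρ)) * t ^ (13 * d)) := by ring
      _ ≤ 4 * (κ ^ 2)⁻¹ * K₁ * t ^ (-ρ) := mul_le_mul_of_nonneg_left h8 (by positivity)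
      _ ≤ C * t ^ (-ρ) := by
          refine mul_le_mul_of_nonneg_right ?_ (by positivity)
          have : 0 < 1 + t₀ ^ ρ := by positivity
          rw [hC]; linarith
  · push Not at htt
    have h3 : 1 ≤ t₀ ^ ρ * ε ^ ρ := by
      rw [← Real.mul_rpow (by linarith) hε.le]
      refine Real.one_le_rpow ?_ hρ0.le
      nlinarith
    have h4 : (1 : ℝ) ≤ C * ε ^ ρ := by
      refine h3.trans (mul_le_mul_of_nonneg_right ?_ (by positivity))
      have : 0 < 4 * (κ ^ 2)⁻¹ * K₁ := by positivity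
      rw [hC]; linarith
    exact measureReal_le_one.trans h4

end Pool.Agent.H978V
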