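import Pool.Agent.H978V.KDefs2
import Pool.Agent.Helper557.Rz.M_meas
import Pool.Agent.H978V.K11
import Pool.Agent.H978V.K9

/-!
JOB K12 (owner helper978, MP_06cce2_nt).  `H978V/{Ar,Defs,Defs2,KDefs,VDefs,KDefs2}.lean` and `Helper557/Rz/*` are on origin/main.

Borel-Cantelli along dyadic scales, and the passage from dyadic scales to all scales.

PROOF of TARGET 1.  `sg 3` is a probability measure (`sg_prob`).  Fix `m` (countably many).  Upper part: `upper_scale` with `δ = 1/(2(m+1))` gives `η, C`; at `ε = (1/2)^k`, `k ≥ 1`, the bad sets have summable measures `C 2^{-kη}`, so by Borel-Cantelli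
(`MeasureTheory.ae_eventually_notMem`) a.e. `x` is outside for all large `k`, and `(3 + 1/(2(m+1))) k logb 5 2 + C ≤ (3 + 1/(m+1)) k logb 5 2` for large `k`; `ε² = (1/4)^k`, `logb 5 (1/ε) = k logb 5 2`.
Lower part: `lower_scale` with `δ = 1/(m+1)`: a.e. `x` is outside the sets for all large `k`, so `qs < (1/4)^k` implies `L > (3-δ) k logb 5 2`.
`qs τ x = qd τ (√(1-τ²) x 0) ..` by definition.
PROOF of TARGET 2.  Given `δ > 0` choose `m` with `1/(m+1) ≤ δ/2` and `k₀` from `GoodD` for `m`.  For small `ε ∈ (0,1)` let `k` be such that `(1/2)^{k+1} ≤ ε... `: upper part: `k = ⌈log_2 (1/ε)⌉₊`, so `(1/2)^k ≤ ε`, `k ≤ log_2(1/ε) + 1`, `qd < (1/4)^k ≤ ε²`,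
`L ≤ (3+δ/2)(logb 5 (1/ε) + logb 5 2) ≤ (3+δ) logb 5 (1/ε)` for small `ε`.  Lower part: `k = ⌊log_2(1/ε)⌋₊`, `ε ≤ (1/2)^k`, `qd < ε² ≤ (1/4)^k`, `L ≥ (3-1/(m+1)) k logb 5 2 ≥ (3-δ/2)(logb 5 (1/ε) - logb 5 2) ≥ (3-δ) logb 5 (1/ε)` for small `ε`
(if `3 - δ ≤ 0` trivial).  Both `k → ∞` as `ε → 0+`.
-/

set_option autoImplicit false

open MeasureTheory Set
open scoped Quaternion

namespace Pool.Agent.H978V

open Pool.Agent.Helper557.Rz



theorem cl_bc (A : ℕ → Set (S 3)) (η C : ℝ) (hη : 0 < η) (hC : 0 < C)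
    (h : ∀ k : ℕ, 1 ≤ k → (sg 3).real (A k) ≤ C * ((1 / 2 : ℝ) ^ k) ^ η) :
    ∀ᵐ x ∂(sg 3), ∀ᶠ k in Filter.atTop, x ∉ A k := by
  haveI := sg_prob 3 (by norm_num)
  apply ae_eventually_notMem
  have hρ0 : (0 : ℝ) < (1 / 2 : ℝ) ^ η := Real.rpow_pos_of_pos (by norm_num) η
  have hρ1 : (1 / 2 : ℝ) ^ η < 1 := Real.rpow_lt_one (by norm_num) (by norm_num) hη
  have hb : ∀ k, (sg 3) (A k) ≤ ENNReal.ofReal ((C + 1) * ((1 / 2 : ℝ) ^ η) ^ k) := by
    intro k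
    have e1 : (sg 3) (A k) = ENNReal.ofReal ((sg 3).real (A k)) := by
      rw [Measure.real, ENNReal.ofReal_toReal (measure_ne_top _ _)]
    rw [e1]
    refine ENNReal.ofReal_le_ofReal ?_
    rcases Nat.eq_zero_or_pos k with hk | hk
    · subst hk
      have h1 : (sg 3).real (A 0) ≤ 1 := measureReal_le_one
      simp only [pow_zero, mul_one]
      linarith
    · refine (h k hk).trans ?_
      have h2 : ((1 / 2 : ℝ) ^ k) ^ η = ((1 / 2 : ℝ) ^ η) ^ k := by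
        rw [← Real.rpow_natCast, ← Real.rpow_mul (by norm_num), mul_comm,
          Real.rpow_mul (by norm_num), Real.rpow_natCast]
      rw [h2]
      exact mul_le_mul_of_nonneg_right (by linarith) (by positivity)
  have hs : Summable (fun k : ℕ => (C + 1) * ((1 / 2 : ℝ) ^ η) ^ k) :=
    (summable_geometric_of_lt_one hρ0.le hρ1).mul_left _
  exact ne_top_of_le_ne_top hs.tsum_ofReal_ne_top (ENNReal.tsum_le_tsum hb)

theorem cl_logb (k : ℕ) : Real.logb 5 (1 / (1 / 2 : ℝ) ^ k) = k * Real.logb 5 2 := by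
  have h : (1 / (1 / 2 : ℝ) ^ k) = 2 ^ k := by
    rw [one_div_pow, one_div_one_div]
  rw [h, Real.logb_pow]

theorem cl_sq (k : ℕ) : ((1 / 2 : ℝ) ^ k) ^ 2 = (1 / 4) ^ k := by
  rw [← pow_mul, mul_comm, pow_mul]
  norm_num

/-- TARGET 1 -/
theorem class_ae (τ : ℝ) (h1 : -1 < τ) (h2 : τ < 1) : ∀ᵐ x : S 3 ∂(sg 3),
    GoodD τ (Real.sqrt (1 - τ ^ 2) * (x : E 3) 0) (Real.sqrt (1 - τ ^ 2) * (x : E 3) 1)
      (Real.sqrt (1 - τ ^ 2) * (x : E 3) 2) := by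
  unfold GoodD
  rw [ae_all_iff]
  intro m
  have hm : (0 : ℝ) < 1 / ((m : ℝ) + 1) := by positivity
  have hl : 0 < Real.logb 5 2 := Real.logb_pos (by norm_num) (by norm_num)
  obtain ⟨η, C, hη, hC, H⟩ := upper_scale τ h1 h2 (1 / ((m : ℝ) + 1) / 2) (by positivity)
  obtain ⟨η', C', hη', hC', H'⟩ := lower_scale τ h1 h2 (1 / ((m : ℝ) + 1)) hm
  have hk1 : ∀ k : ℕ, 1 ≤ k → (0 : ℝ) < (1 / 2 : ℝ) ^ k ∧ (1 / 2 : ℝ) ^ k < 1 := fun k hk =>
    ⟨by positivity, pow_lt_one₀ (by norm_num) (by norm_num) (by omega)⟩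
  have hU := cl_bc _ η C hη hC (fun k hk => H _ (hk1 k hk).1 (hk1 k hk).2)
  have hL := cl_bc _ η' C' hη' hC' (fun k hk => H' _ (hk1 k hk).1 (hk1 k hk).2)
  have hlarge : ∀ᶠ k : ℕ in Filter.atTop, C ≤ 1 / ((m : ℝ) + 1) / 2 * (k * Real.logb 5 2) := by
    have ht : Filter.Tendsto (fun k : ℕ => 1 / ((m : ℝ) + 1) / 2 * ((k : ℝ) * Real.logb 5 2))
        Filter.atTop Filter.atTop :=
      (tendsto_natCast_atTop_atTop.atTop_mul_const hl).const_mul_atTop (by positivity)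
    exact ht.eventually_ge_atTop C
  filter_upwards [hU, hL] with x hxU hxL
  filter_upwards [hxU, hxL, hlarge] with k hkU hkL hkl
  constructor
  · have h3 := not_not.1 hkU
    obtain ⟨L, q, hq, hn, hLe, hqs⟩ := h3
    refine ⟨L, q, hq, hn, ?_, ?_⟩
    · rw [cl_logb] at hLe
      refine hLe.trans ?_
      have e : (3 + 1 / ((m : ℝ) + 1)) * (k * Real.logb 5 2) =
          (3 + 1 / ((m : ℝ) + 1) / 2) * (k * Real.logb 5 2) +
            1 / ((m : ℝ) + 1) / 2 * (k * Real.logb 5 2) := by ring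
      rw [e]
      linarith
    · rw [← cl_sq]
      exact hqs
  · intro L q _ hn hqs
    by_contra hcon
    rw [not_le] at hcon
    apply hkL
    refine ⟨L, q, hn, ?_, ?_⟩
    · rw [cl_logb]
      exact hcon.le
    · rw [cl_sq]
      exact hqs

/-- TARGET 2 -/
theorem good_of_dyadic (t₀ t₁ t₂ t₃ : ℝ) (h : GoodD t₀ t₁ t₂ t₃) (δ : ℝ) (hδ : 0 < δ) :
    ∀ᶠ ε : ℝ in nhdsWithin 0 (Set.Ioi 0),
      (∃ (L : ℕ) (q : ℍ[ℤ]), Gd q ∧ Quaternion.normSq q = 5 ^ L ∧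
        (L : ℝ) ≤ (3 + δ) * Real.logb 5 (1 / ε) ∧ qd t₀ t₁ t₂ t₃ q L < ε ^ 2) ∧
      (∀ (L : ℕ) (q : ℍ[ℤ]), Gd q → Quaternion.normSq q = 5 ^ L →
        qd t₀ t₁ t₂ t₃ q L < ε ^ 2 → (3 - δ) * Real.logb 5 (1 / ε) ≤ L) := by
  obtain ⟨m, hm⟩ := exists_nat_one_div_lt (half_pos hδ)
  obtain ⟨k₀, hk₀⟩ := Filter.eventually_atTop.1 (h m)
  have hl : 0 < Real.logb 5 2 := Real.logb_pos (by norm_num) (by norm_num)
  have hinv : Filter.Tendsto (fun ε : ℝ => 1 / ε) (nhdsWithin 0 (Set.Ioi 0)) Filter.atTop := by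
    simp only [one_div]
    exact tendsto_inv_nhdsGT_zero
  have ht5 : Filter.Tendsto (fun ε : ℝ => Real.logb 5 (1 / ε)) (nhdsWithin 0 (Set.Ioi 0))
      Filter.atTop := (Real.tendsto_logb_atTop (by norm_num)).comp hinv
  have ht2 : Filter.Tendsto (fun ε : ℝ => Real.logb 2 (1 / ε)) (nhdsWithin 0 (Set.Ioi 0))
      Filter.atTop := (Real.tendsto_logb_atTop (by norm_num)).comp hinv
  filter_upwards [ht5.eventually_ge_atTop ((3 + δ / 2) * Real.logb 5 2 * (2 / δ)),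
    ht2.eventually_ge_atTop ((k₀ : ℝ) + 1), self_mem_nhdsWithin] with ε hX hY hε
  have hε0 : 0 < ε := hε
  have hinv0 : 0 < 1 / ε := by positivity
  have hXY : Real.logb 5 (1 / ε) = Real.logb 2 (1 / ε) * Real.logb 5 2 := by
    unfold Real.logb
    have h2 : Real.log 2 ≠ 0 := (Real.log_pos (by norm_num)).ne'
    field_simp
  obtain ⟨X, hXd⟩ : ∃ X, X = Real.logb 5 (1 / ε) := ⟨_, rfl⟩
  obtain ⟨Y, hYd⟩ : ∃ Y, Y = Real.logb 2 (1 / ε) := ⟨_, rfl⟩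
  obtain ⟨l, hld⟩ : ∃ l, l = Real.logb 5 2 := ⟨_, rfl⟩
  have hY0 : 0 ≤ Y := by
    rw [hYd]
    have : (0 : ℝ) ≤ (k₀ : ℝ) := Nat.cast_nonneg _
    linarith
  have hX2 : (3 + δ / 2) * l ≤ δ / 2 * X := by
    rw [← hXd, ← hld] at hX
    have h3 : (3 + δ / 2) * l * (2 / δ) * (δ / 2) = (3 + δ / 2) * l := by field_simp
    have h4 := mul_le_mul_of_nonneg_right hX (by positivity : (0:ℝ) ≤ δ / 2)
    rw [h3] at h4
    linarith
  rw [← hXd, ← hYd, ← hld] at hXY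
  rw [← hYd] at hY
  rw [← hld] at hl
  have hX0 : 0 ≤ X := by rw [hXY]; positivity
  rw [← hXd]
  constructor
  · have hkY : Y ≤ (⌈Y⌉₊ : ℝ) := Nat.le_ceil Y
    have hkY2 : (⌈Y⌉₊ : ℝ) < Y + 1 := Nat.ceil_lt_add_one hY0
    have hkk : k₀ ≤ ⌈Y⌉₊ := by
      have : (k₀ : ℝ) ≤ (⌈Y⌉₊ : ℝ) := by linarith
      exact_mod_cast this
    obtain ⟨L, q, hq, hn, hLe, hqs⟩ := (hk₀ _ hkk).1
    rw [← hld] at hLe
    refine ⟨L, q, hq, hn, ?_, ?_⟩
    · calc (L : ℝ) ≤ (3 + 1 / ((m : ℝ) + 1)) * ((⌈Y⌉₊ : ℝ) * l) := hLe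
        _ ≤ (3 + δ / 2) * ((Y + 1) * l) := by
            refine mul_le_mul (by linarith) (mul_le_mul_of_nonneg_right hkY2.le hl.le)
              (by positivity) (by positivity)
        _ = (3 + δ / 2) * X + (3 + δ / 2) * l := by rw [hXY]; ring
        _ ≤ (3 + δ) * X := by linarith
    · refine hqs.trans_le ?_
      rw [← cl_sq]
      have h5 : 1 / ε ≤ 2 ^ ⌈Y⌉₊ := by
        have h6 := (Real.logb_le_iff_le_rpow (by norm_num : (1:ℝ) < 2) hinv0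
          (y := (⌈Y⌉₊ : ℝ))).1 (by rw [← hYd]; exact hkY)
        rwa [Real.rpow_natCast] at h6
      have h7 : (1 / 2 : ℝ) ^ ⌈Y⌉₊ ≤ ε := by
        rw [one_div_pow, one_div_le (by positivity) hε0]
        exact h5
      exact pow_le_pow_left₀ (by positivity) h7 2
  · intro L q hq hn hqs
    rcases le_or_gt (3 - δ) 0 with h3 | h3
    · have h4 : (3 - δ) * X ≤ 0 := mul_nonpos_of_nonpos_of_nonneg h3 hX0
      exact h4.trans (Nat.cast_nonneg _)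
    · have hkY : (⌊Y⌋₊ : ℝ) ≤ Y := Nat.floor_le hY0
      have hkY2 : Y < (⌊Y⌋₊ : ℝ) + 1 := Nat.lt_floor_add_one Y
      have hkk : k₀ ≤ ⌊Y⌋₊ := by
        have : k₀ ≤ ⌊Y⌋₊ := Nat.le_floor (by linarith)
        exact this
      have h7 : ε ≤ (1 / 2 : ℝ) ^ ⌊Y⌋₊ := by
        have h6 := (Real.le_logb_iff_rpow_le (by norm_num : (1:ℝ) < 2) hinv0
          (x := (⌊Y⌋₊ : ℝ))).1 (by rw [← hYd]; exact hkY)
        rw [Real.rpow_natCast] at h6
        rw [one_div_pow, le_one_div hε0 (by positivity)]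
        exact h6
      have h8 : ε ^ 2 ≤ (1 / 4 : ℝ) ^ ⌊Y⌋₊ := by
        rw [← cl_sq]
        exact pow_le_pow_left₀ hε0.le h7 2
      have h9 := (hk₀ _ hkk).2 L q hq hn (hqs.trans_le h8)
      rw [← hld] at h9
      refine le_trans ?_ h9
      have h10 : (0 : ℝ) ≤ (⌊Y⌋₊ : ℝ) * l := by positivity
      calc (3 - δ) * X ≤ (3 - δ / 2) * X - (3 - δ / 2) * l := by nlinarith
        _ = (3 - δ / 2) * ((Y - 1) * l) := by rw [hXY]; ring
        _ ≤ (3 - δ / 2) * ((⌊Y⌋₊ : ℝ) * l) :=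
            mul_le_mul_of_nonneg_left (mul_le_mul_of_nonneg_right (by linarith) hl.le)
              (by linarith)
        _ ≤ (3 - 1 / ((m : ℝ) + 1)) * ((⌊Y⌋₊ : ℝ) * l) :=
            mul_le_mul_of_nonneg_right (by linarith) h10

end Pool.Agent.H978V
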