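import Pool.Agent.H978V.KDefs2
import Pool.Agent.Helper557.Rz.M_meas

/-!
JOB K16 (owner helper978, MP_06cce2_nt).  `H978V/{Ar,Defs,Defs2,KDefs,VDefs,KDefs2}.lean` and `Helper557/Rz/*` are on origin/main.

Fubini: from every conjugacy class to the three-sphere.
-/

set_option autoImplicit false

open MeasureTheory Set
open scoped Quaternion

namespace Pool.Agent.H978V

open Pool.Agent.Helper557.Rz

lemma k16_open (q : ℍ[ℤ]) (L : ℕ) (c : ℝ) :
    IsOpen {t : ℝ × ℝ × ℝ × ℝ | qd t.1 t.2.1 t.2.2.1 t.2.2.2 q L < c} := by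
  refine isOpen_lt ?_ continuous_const
  unfold qd
  fun_prop

lemma k16_openU (P : ℕ → ℍ[ℤ] → Prop) (c : ℝ) :
    IsOpen {t : ℝ × ℝ × ℝ × ℝ | ∃ (L : ℕ) (q : ℍ[ℤ]), P L q ∧ qd t.1 t.2.1 t.2.2.1 t.2.2.2 q L < c} := by
  have : {t : ℝ × ℝ × ℝ × ℝ | ∃ (L : ℕ) (q : ℍ[ℤ]), P L q ∧ qd t.1 t.2.1 t.2.2.1 t.2.2.2 q L < c} =
      ⋃ (L : ℕ), ⋃ (q : ℍ[ℤ]), ⋃ (_ : P L q), {t | qd t.1 t.2.1 t.2.2.1 t.2.2.2 q L < c} := by
    ext t
    simp
  rw [this]
  exact isOpen_iUnion fun L => isOpen_iUnion fun q => isOpen_iUnion fun _ => k16_open q L c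

/-- TARGET 1 -/
theorem goodD_meas : MeasurableSet {t : ℝ × ℝ × ℝ × ℝ | GoodD t.1 t.2.1 t.2.2.1 t.2.2.2} := by
  have : {t : ℝ × ℝ × ℝ × ℝ | GoodD t.1 t.2.1 t.2.2.1 t.2.2.2} =
      ⋂ m : ℕ, ⋃ N : ℕ, ⋂ k : ℕ, ⋂ (_ : N ≤ k),
        ({t : ℝ × ℝ × ℝ × ℝ | ∃ (L : ℕ) (q : ℍ[ℤ]), (Gd q ∧ Quaternion.normSq q = 5 ^ L ∧
          (L : ℝ) ≤ (3 + 1 / (m + 1)) * (k * Real.logb 5 2)) ∧ qd t.1 t.2.1 t.2.2.1 t.2.2.2 q L < (1 / 4) ^ k} ∩
        {t : ℝ × ℝ × ℝ × ℝ | ∃ (L : ℕ) (q : ℍ[ℤ]), (Gd q ∧ Quaternion.normSq q = 5 ^ L ∧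
          ¬ (3 - 1 / (m + 1)) * (k * Real.logb 5 2) ≤ L) ∧ qd t.1 t.2.1 t.2.2.1 t.2.2.2 q L < (1 / 4) ^ k}ᶜ) := by
    ext t
    change GoodD t.1 t.2.1 t.2.2.1 t.2.2.2 ↔ _
    unfold GoodD
    rw [Set.mem_iInter]
    refine forall_congr' fun m => ?_
    rw [Filter.eventually_atTop, Set.mem_iUnion]
    refine exists_congr fun N => ?_
    rw [Set.mem_iInter]
    refine forall_congr' fun k => ?_
    rw [Set.mem_iInter]
    refine forall_congr' fun _ => ?_
    refine and_congr ?_ ?_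
    · refine exists_congr fun L => exists_congr fun q => ?_
      tauto
    · change _ ↔ ¬ ∃ (L : ℕ) (q : ℍ[ℤ]), (Gd q ∧ Quaternion.normSq q = 5 ^ L ∧
          ¬ (3 - 1 / ((m : ℝ) + 1)) * (k * Real.logb 5 2) ≤ L) ∧ qd t.1 t.2.1 t.2.2.1 t.2.2.2 q L < (1 / 4) ^ k
      constructor
      · rintro h ⟨L, q, ⟨h1, h2, h3⟩, h4⟩
        exact h3 (h L q h1 h2 h4)
      · intro h L q h1 h2 h3
        by_contra h4
        exact h ⟨L, q, ⟨h1, h2, h4⟩, h3⟩
  rw [this]
  refine MeasurableSet.iInter fun m => MeasurableSet.iUnion fun N => MeasurableSet.iInter fun k =>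
    MeasurableSet.iInter fun _ => ?_
  exact (k16_openU _ _).measurableSet.inter (k16_openU _ _).measurableSet.compl

/-- the radius -/
noncomputable def k16_rho (p : ℝ × E 3) : ℝ := Real.sqrt (p.1 ^ 2 + ‖p.2‖ ^ 2)

/-- the bad cone -/
def k16_N : Set (ℝ × E 3) := {p | ¬ GoodD (p.1 / k16_rho p) (p.2 0 / k16_rho p) (p.2 1 / k16_rho p)
  (p.2 2 / k16_rho p)}

lemma k16_N_meas : MeasurableSet k16_N := by
  have hf : Measurable (fun p : ℝ × E 3 => ((p.1 / k16_rho p, p.2 0 / k16_rho p,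
      p.2 1 / k16_rho p, p.2 2 / k16_rho p) : ℝ × ℝ × ℝ × ℝ)) := by
    have hρ : Measurable k16_rho := by
      unfold k16_rho
      exact Continuous.measurable (by fun_prop)
    have h1 : ∀ i : Fin 3, Measurable (fun p : ℝ × E 3 => p.2 i) := fun i =>
      Continuous.measurable (by fun_prop)
    exact (measurable_fst.div hρ).prodMk (((h1 0).div hρ).prodMk (((h1 1).div hρ).prodMk
      ((h1 2).div hρ)))
  exact hf goodD_meas.compl

open scoped Pointwise in
/-- TARGET 2 -/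
theorem sphere_ae (h : ∀ τ : ℝ, -1 < τ → τ < 1 → ∀ᵐ x : S 3 ∂(sg 3),
      GoodD τ (Real.sqrt (1 - τ ^ 2) * (x : E 3) 0) (Real.sqrt (1 - τ ^ 2) * (x : E 3) 1)
        (Real.sqrt (1 - τ ^ 2) * (x : E 3) 2)) :
    ∀ᵐ t : S 4 ∂((volume : Measure (E 4)).toSphere), GoodD ((t : E 4) 0) ((t : E 4) 1) ((t : E 4) 2)
      ((t : E 4) 3) := by
  -- the cone over the slices
  have hslice : ∀ (a r : ℝ), 0 < r →
      (volume : Measure (E 3)).toSphere {x : S 3 | (a, r • (x : E 3)) ∈ k16_N} = 0 := by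
    intro a r hr
    have hρ : ∀ x : S 3, k16_rho (a, r • (x : E 3)) = Real.sqrt (a ^ 2 + r ^ 2) := by
      intro x
      have hx : ‖(x : E 3)‖ = 1 := by simp
      simp only [k16_rho]
      rw [norm_smul, hx, mul_one, Real.norm_eq_abs, sq_abs]
    set ρ := Real.sqrt (a ^ 2 + r ^ 2) with hρdef
    have hpos : 0 < a ^ 2 + r ^ 2 := by positivity
    have hρ0 : 0 < ρ := Real.sqrt_pos.mpr hpos
    have hρ2 : ρ ^ 2 = a ^ 2 + r ^ 2 := Real.sq_sqrt hpos.le
    have habs : |a / ρ| < 1 := by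
      rw [abs_div, abs_of_pos hρ0, div_lt_one hρ0]
      refine abs_lt_of_sq_lt_sq ?_ hρ0.le
      rw [hρ2]
      nlinarith
    have hsq : Real.sqrt (1 - (a / ρ) ^ 2) = r / ρ := by
      have e : 1 - (a / ρ) ^ 2 = (r / ρ) ^ 2 := by
        rw [div_pow, div_pow, hρ2]
        field_simp
        ring
      rw [e, Real.sqrt_sq (div_pos hr hρ0).le]
    have hae := h (a / ρ) (abs_lt.mp habs).1 (abs_lt.mp habs).2
    have hsg : ∀ᵐ x : S 3 ∂((volume : Measure (E 3)).toSphere),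
        GoodD (a / ρ) (Real.sqrt (1 - (a / ρ) ^ 2) * (x : E 3) 0)
          (Real.sqrt (1 - (a / ρ) ^ 2) * (x : E 3) 1)
          (Real.sqrt (1 - (a / ρ) ^ 2) * (x : E 3) 2) := by
      unfold sg at hae
      rwa [Measure.ae_ennreal_smul_measure_iff (ENNReal.inv_ne_zero.mpr (measure_ne_top _ _))] at hae
    rw [ae_iff] at hsg
    refine measure_mono_null ?_ hsg
    intro x hx
    change ¬ GoodD _ _ _ _ at hx
    change ¬ GoodD _ _ _ _
    simp only [hρ x] at hx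
    rw [hsq]
    have e : ∀ i : Fin 3, (r • (x : E 3)) i / ρ = r / ρ * (x : E 3) i := by
      intro i
      rw [PiLp.smul_apply, smul_eq_mul]
      ring
    rw [e, e, e] at hx
    exact hx
  -- slices with fixed first coordinate
  have hE3 : ∀ a : ℝ, (volume : Measure (E 3)) {w : E 3 | (a, w) ∈ k16_N} = 0 := by
    intro a
    have hNa : MeasurableSet {w : E 3 | (a, w) ∈ k16_N} := measurable_prodMk_left k16_N_meas
    let T : Set (S 3 × Set.Ioi (0 : ℝ)) := {z | (a, z.2.1 • (z.1 : E 3)) ∈ k16_N}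
    have hT : MeasurableSet T := by
      have : Measurable (fun z : S 3 × Set.Ioi (0 : ℝ) => ((a, z.2.1 • (z.1 : E 3)) : ℝ × E 3)) :=
        Continuous.measurable (by fun_prop)
      exact this k16_N_meas
    have hT0 : ((volume : Measure (E 3)).toSphere.prod
        (Measure.volumeIoiPow (Module.finrank ℝ (E 3) - 1))) T = 0 := by
      rw [Measure.prod_apply_symm hT]
      have : ∀ r : Set.Ioi (0 : ℝ), (volume : Measure (E 3)).toSphere
          ((fun x => (x, r)) ⁻¹' T) = 0 := fun r => hslice a r.1 r.2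
      simp [this]
    have hmp := (volume : Measure (E 3)).measurePreserving_homeomorphUnitSphereProd
    have h1 := hmp.measure_preimage hT.nullMeasurableSet
    rw [hT0] at h1
    have h2 : (homeomorphUnitSphereProd (E 3)) ⁻¹' T =
        (Subtype.val : ({0}ᶜ : Set (E 3)) → E 3) ⁻¹' {w : E 3 | (a, w) ∈ k16_N} := by
      ext z
      have hz := congrArg Subtype.val ((homeomorphUnitSphereProd (E 3)).symm_apply_apply z)
      rw [homeomorphUnitSphereProd_symm_apply_coe] at hz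
      change (a, _) ∈ k16_N ↔ (a, (z : E 3)) ∈ k16_N
      rw [hz]
    rw [h2, comap_subtype_coe_apply (measurableSet_singleton _).compl, Subtype.image_preimage_coe] at h1
    have h3 : {w : E 3 | (a, w) ∈ k16_N} ⊆ {0} ∪ ({0}ᶜ ∩ {w : E 3 | (a, w) ∈ k16_N}) := by
      intro w hw
      by_cases h0 : w = 0
      · left; exact h0
      · right; exact ⟨h0, hw⟩
    refine measure_mono_null h3 (measure_union_null (measure_singleton _) h1)
  have hN : (volume : Measure (ℝ × E 3)) k16_N = 0 := by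
    rw [Measure.volume_eq_prod, Measure.measure_prod_null k16_N_meas]
    exact Filter.Eventually.of_forall fun a => hE3 a
  -- coordinates
  let F : E 4 → ℝ × E 3 := fun v => (v 0, WithLp.toLp 2 fun i : Fin 3 => v i.succ)
  have hF : MeasurePreserving F volume volume := by
    have m1 := PiLp.volume_preserving_ofLp (Fin 4)
    have m2 := volume_preserving_piFinSuccAbove (fun _ : Fin 4 => ℝ) 0
    have m3 := (MeasurePreserving.id (volume : Measure ℝ)).prod (PiLp.volume_preserving_toLp (Fin 3))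
    exact (m3.comp m2).comp m1
  have hFN : (volume : Measure (E 4)) (F ⁻¹' k16_N) = 0 := by
    rw [hF.measure_preimage k16_N_meas.nullMeasurableSet, hN]
  rw [ae_iff]
  have hB : MeasurableSet {t : S 4 | ¬ GoodD ((t : E 4) 0) ((t : E 4) 1) ((t : E 4) 2) ((t : E 4) 3)} := by
    have : Measurable (fun t : S 4 => (((t : E 4) 0, (t : E 4) 1, (t : E 4) 2, (t : E 4) 3) :
        ℝ × ℝ × ℝ × ℝ)) := Continuous.measurable (by fun_prop)
    exact this goodD_meas.compl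
  rw [Measure.toSphere_apply' _ hB]
  have hsub : (Set.Ioo (0 : ℝ) 1 • ((fun x : S 4 => (x : E 4)) ''
      {t : S 4 | ¬ GoodD ((t : E 4) 0) ((t : E 4) 1) ((t : E 4) 2) ((t : E 4) 3)})) ⊆ F ⁻¹' k16_N := by
    rintro _ ⟨s, hs, _, ⟨t, ht, rfl⟩, rfl⟩
    have hs0 : 0 < s := hs.1
    have ht1 : ‖(t : E 4)‖ = 1 := by simp
    have hsum : (t : E 4) 0 ^ 2 + (t : E 4) 1 ^ 2 + (t : E 4) 2 ^ 2 + (t : E 4) 3 ^ 2 = 1 := by
      have h5 := EuclideanSpace.norm_sq_eq (t : E 4)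
      rw [ht1, Fin.sum_univ_four] at h5
      simp only [Real.norm_eq_abs, sq_abs] at h5
      linarith
    have hrho : k16_rho (F (s • (t : E 4))) = s := by
      simp only [k16_rho, F]
      rw [EuclideanSpace.norm_sq_eq, Fin.sum_univ_three]
      simp only [Real.norm_eq_abs, sq_abs, PiLp.smul_apply, smul_eq_mul]
      have : (s * (t : E 4) 0) ^ 2 + ((s * (t : E 4) (Fin.succ 0)) ^ 2 +
          (s * (t : E 4) (Fin.succ 1)) ^ 2 + (s * (t : E 4) (Fin.succ 2)) ^ 2) = s ^ 2 := by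
        have e1 : (Fin.succ 0 : Fin 4) = 1 := rfl
        have e2 : (Fin.succ 1 : Fin 4) = 2 := rfl
        have e3 : (Fin.succ 2 : Fin 4) = 3 := rfl
        rw [e1, e2, e3]
        linear_combination s ^ 2 * hsum
      rw [this, Real.sqrt_sq hs0.le]
    change ¬ GoodD _ _ _ _
    change ¬ GoodD _ _ _ _ at ht
    change ¬ GoodD (_ / k16_rho (F (s • (t : E 4)))) (_ / k16_rho (F (s • (t : E 4))))
      (_ / k16_rho (F (s • (t : E 4)))) (_ / k16_rho (F (s • (t : E 4))))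
    rw [hrho]
    have f0 : (F (s • (t : E 4))).1 / s = (t : E 4) 0 := by
      simp only [F, PiLp.smul_apply, smul_eq_mul]
      field_simp
    have f1 : (F (s • (t : E 4))).2 0 / s = (t : E 4) 1 := by
      have e1 : (Fin.succ 0 : Fin 4) = 1 := rfl
      simp only [F, PiLp.smul_apply, smul_eq_mul, e1]
      field_simp
    have f2 : (F (s • (t : E 4))).2 1 / s = (t : E 4) 2 := by
      have e1 : (Fin.succ 1 : Fin 4) = 2 := rfl
      simp only [F, PiLp.smul_apply, smul_eq_mul, e1]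
      field_simp
    have f3 : (F (s • (t : E 4))).2 2 / s = (t : E 4) 3 := by
      have e1 : (Fin.succ 2 : Fin 4) = 3 := rfl
      simp only [F, PiLp.smul_apply, smul_eq_mul, e1]
      field_simp
    rw [f0, f1, f2, f3]
    exact ht
  have h6 := measure_mono_null hsub hFN
  rw [h6, mul_zero]

end Pool.Agent.H978V
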