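import Pool.Agent.H978V.LDefs
import Pool.Agent.H978V.K12
import Pool.Agent.H978V.K16

/-!
JOB L12 (owner helper978, MP_06cce2_nt).  `H978V/*.lean` (library, with `LDefs`) is on origin/main.

Words of bounded length are `ε`-dense in the unit quaternions.
PROOF.  `sphere_ae class_ae` (`H978V/K16.lean`, `H978V/K12.lean`; see their use in `H978V/K18.lean`, theorem `haar_len3`): for almost every point `x` of the unit sphere `S 4` of `E 4 = EuclideanSpace ℝ (Fin 4)`, `GoodD (x 0) (x 1) (x 2) (x 3)`; in particular for some `L, q` with `Gd q`, `normSq q = 5^L`: `qd x₀ x₁ x₂ x₃ q L < (ε/2)²` (take `m = 0` and a large `k`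
in the definition of `GoodD`).  A set of full measure of the sphere is dense (the surface measure `toSphere` is positive on nonempty open sets).  `qd` at the coordinates of `t` is `‖t - qh L q‖²`.  So every unit quaternion is within `ε/2` of one which is within `ε/2` of some `qh L q`.
By compactness of the unit sphere finitely many `(L, q)` suffice for `ε` (balls of radius `ε` around the points `qh L q` form an open cover): `L₁` is the maximum of their lengths.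
-/

set_option autoImplicit false

open scoped Quaternion

namespace Pool.Agent.H978V

open Pool.Agent.Helper557.Rz

/-- the point of the sphere of a unit quaternion -/
noncomputable def L12_pt (t : ℍ[ℝ]) : E 4 := !₂[t.re, t.imI, t.imJ, t.imK]

/-- the point of the space of a word -/
noncomputable def L12_w (L : ℕ) (q : ℍ[ℤ]) : E 4 :=
  !₂[(q.re : ℝ) / Real.sqrt 5 ^ L, q.imI / Real.sqrt 5 ^ L, q.imJ / Real.sqrt 5 ^ L,
    q.imK / Real.sqrt 5 ^ L]

theorem L12_qd (x : E 4) (L : ℕ) (q : ℍ[ℤ]) :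
    qd (x 0) (x 1) (x 2) (x 3) q L = ‖x - L12_w L q‖ ^ 2 := by
  rw [EuclideanSpace.norm_sq_eq, Fin.sum_univ_four]
  simp [qd, L12_w]

theorem L12_norm (t : ℍ[ℝ]) (ht : ‖t‖ = 1) : L12_pt t ∈ Metric.sphere (0 : E 4) 1 := by
  rw [mem_sphere_zero_iff_norm]
  have h1 : ‖L12_pt t‖ ^ 2 = 1 := by
    rw [EuclideanSpace.norm_sq_eq, Fin.sum_univ_four]
    have h2 : Quaternion.normSq t = 1 := by
      rw [Quaternion.normSq_eq_norm_mul_self, ht, mul_one]
    rw [Quaternion.normSq_def'] at h2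
    simpa [L12_pt] using h2
  nlinarith [norm_nonneg (L12_pt t)]

theorem L12_dist (t : ℍ[ℝ]) (L : ℕ) (q : ℍ[ℤ]) : ‖t - qh L q‖ = ‖L12_pt t - L12_w L q‖ := by
  have h1 : ‖t - qh L q‖ ^ 2 = ‖L12_pt t - L12_w L q‖ ^ 2 := by
    rw [EuclideanSpace.norm_sq_eq, Fin.sum_univ_four, pow_two ‖t - qh L q‖,
      ← Quaternion.normSq_eq_norm_mul_self, Quaternion.normSq_def']
    have a0 : (qh L q).re = q.re / Real.sqrt 5 ^ L := by
      change (1 / Real.sqrt 5 ^ L) * (q.re : ℝ) = _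
      ring
    have a1 : (qh L q).imI = q.imI / Real.sqrt 5 ^ L := by
      change (1 / Real.sqrt 5 ^ L) * (q.imI : ℝ) = _
      ring
    have a2 : (qh L q).imJ = q.imJ / Real.sqrt 5 ^ L := by
      change (1 / Real.sqrt 5 ^ L) * (q.imJ : ℝ) = _
      ring
    have a3 : (qh L q).imK = q.imK / Real.sqrt 5 ^ L := by
      change (1 / Real.sqrt 5 ^ L) * (q.imK : ℝ) = _
      ring
    simp [a0, a1, a2, a3, L12_pt, L12_w]
  exact (pow_left_inj₀ (norm_nonneg _) (norm_nonneg _) (by norm_num)).1 h1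

/-- TARGET -/
theorem dense_words (ε : ℝ) (hε : 0 < ε) : ∃ L₁ : ℕ, ∀ t : ℍ[ℝ], ‖t‖ = 1 →
    ∃ (L : ℕ) (q : ℍ[ℤ]), Gd q ∧ Quaternion.normSq q = 5 ^ L ∧ L ≤ L₁ ∧ ‖t - qh L q‖ < ε := by
  have hD : Dense {x : S 4 | GoodD ((x : E 4) 0) ((x : E 4) 1) ((x : E 4) 2) ((x : E 4) 3)} :=
    MeasureTheory.Measure.dense_of_ae (sphere_ae class_ae)
  have hcov : ∀ x : S 4, ∃ p : ℕ × ℍ[ℤ], (Gd p.2 ∧ Quaternion.normSq p.2 = 5 ^ p.1) ∧
      ‖(x : E 4) - L12_w p.1 p.2‖ < ε := by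
    intro x
    obtain ⟨x', hx', hd⟩ := hD.exists_dist_lt x (half_pos hε)
    have h1 := hx' 0
    have h2 : ∀ᶠ k : ℕ in Filter.atTop, (1 / 4 : ℝ) ^ k < (ε / 2) ^ 2 :=
      (tendsto_pow_atTop_nhds_zero_of_lt_one (by norm_num) (by norm_num)).eventually_lt_const
        (by positivity)
    obtain ⟨k, hk1, hk2⟩ := (h1.and h2).exists
    obtain ⟨⟨L, q, g1, g2, -, g4⟩, -⟩ := hk1
    refine ⟨(L, q), ⟨g1, g2⟩, ?_⟩
    rw [L12_qd] at g4
    have g5 : ‖(x' : E 4) - L12_w L q‖ < ε / 2 :=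
      lt_of_pow_lt_pow_left₀ 2 (half_pos hε).le (g4.trans hk2)
    have g6 : ‖(x : E 4) - (x' : E 4)‖ < ε / 2 := by
      rw [← dist_eq_norm]
      exact hd
    calc ‖(x : E 4) - L12_w L q‖ = ‖((x : E 4) - x') + ((x' : E 4) - L12_w L q)‖ := by
          congr 1
          abel
      _ ≤ ‖(x : E 4) - x'‖ + ‖(x' : E 4) - L12_w L q‖ := norm_add_le _ _
      _ < ε := by linarith
  have hcpt : IsCompact (Set.univ : Set (S 4)) := isCompact_univ
  obtain ⟨F, hF⟩ := hcpt.elim_finite_subcover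
    (fun p : {p : ℕ × ℍ[ℤ] // Gd p.2 ∧ Quaternion.normSq p.2 = 5 ^ p.1} =>
      {x : S 4 | ‖(x : E 4) - L12_w p.1.1 p.1.2‖ < ε})
    (fun p => isOpen_lt (by fun_prop) continuous_const)
    (fun x _ => by
      obtain ⟨p, hp, hx⟩ := hcov x
      exact Set.mem_iUnion.2 ⟨⟨p, hp⟩, hx⟩)
  refine ⟨F.sup (fun p => p.1.1), fun t ht => ?_⟩
  have := hF (Set.mem_univ (⟨L12_pt t, L12_norm t ht⟩ : S 4))
  rw [Set.mem_iUnion₂] at this
  obtain ⟨p, hp, hx⟩ := this
  refine ⟨p.1.1, p.1.2, p.2.1, p.2.2, Finset.le_sup (f := fun p => p.1.1) hp, ?_⟩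
  rw [L12_dist]
  exact hx

end Pool.Agent.H978V
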