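import Pool.Agent.H978V.RDefs
import Pool.Agent.H978V.B4

/-!
JOB R7a (owner helper978, MP_06cce2_nt).  `H978V/*.lean` (library, with `RDefs`) is on origin/main.  `prim3` in `H978V/B4.lean` (sums of three squares for `n ≡ 1, 2 mod 4`), `Pool.Agent.H591R2.three_squares` in `H591R2/ThreeSq.lean` (`n ≡ 3 mod 8`;
check the name there).

Construction of `z` with given real part `m`, norm `N₀ = D 5^{4k}` and the 2-adic condition, for `v` of ODD norm `D` (`c = 1`).  Note `5^{4k} ≡ 1 mod 16`, so `N₀ ≡ D mod 16`.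
Write `v = (v₀,v₁,v₂,v₃)`, `z = (m, ζ₁,ζ₂,ζ₃)`.  `G2 v 1 D z` says: all imaginary coordinates of `v * z` are even and its real part `v₀ m - v₁ζ₁ - v₂ζ₂ - v₃ζ₃ ≡ D mod 4`.
If `z ≡ star v mod 2` (coordinatewise, i.e. `m ≡ v₀`, `ζ_i ≡ v_i mod 2`) then the imaginary coordinates of `v z` are even (they are those of `v star v` mod 2) and the real part is odd.  If some `ζ_i` is odd and `v_i` is odd, then changing the sign of `ζ_i` changes
the real part by `2 v_i ζ_i ≡ 2 mod 4`, so one of the two signs gives `≡ D mod 4`.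
So: (i) `v₀` odd, `v₁,v₂,v₃` even (`D ≡ 1 mod 4`): `r` with `r ≡ v₀ mod 4` and (`r ≡ ±1 mod 8` if `D ≡ 5, 9 mod 16`; `r ≡ ±3 mod 8` if `D ≡ 1, 13 mod 16`): possible, as `v₀, v₀+4` have different squares mod 16.  For `m ≡ r mod 16`: `N₀ - m² ≡ 4` or `8 mod 16`,
`n = (N₀-m²)/4 ≡ 1, 2 mod 4`, `n = |y|²`, `ζ = 2y`; real part of `v z` `≡ v₀ m ≡ 1 ≡ D mod 4`.
(ii) `v₀` even, exactly one `v_i` odd (`D ≡ 1 mod 4`): `r = 0`; `n = N₀ - m² ≡ 1 mod 4`, `n = |ζ|²` with exactly one odd coordinate (squares mod 4); permute the coordinates so that the odd one is at the place `i`; choose its sign.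
(iii) `v₀` even, `v₁,v₂,v₃` odd (`D ≡ 3 mod 4`): `r = 0` if `D ≡ 3 mod 8`, `r = 2` if `D ≡ 7 mod 8`; `n = N₀ - m² ≡ 3 mod 8` (`m² ≡ 0`, resp. `4 mod 8`), `n = |ζ|²`, all coordinates odd; choose a sign.
(iv) `v₀` odd, exactly two `v_i` odd (`D ≡ 3 mod 4`): `r = 1`; `n = N₀ - m² ≡ 2 mod 4`, exactly two odd coordinates; permute; choose a sign.
(`v₀` odd and exactly one or three of the `v_i` odd: norm even, excluded; `v₀` even and two or none odd: excluded.)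
-/

set_option autoImplicit false

open scoped Quaternion

namespace Pool.Agent.H978V

/-- Squares modulo 16. -/
theorem r7a_sq (x : ℤ) : (x % 8 = 1 ∨ x % 8 = 7 → x ^ 2 % 16 = 1) ∧
    (x % 8 = 3 ∨ x % 8 = 5 → x ^ 2 % 16 = 9) ∧
    (x % 4 = 0 → x ^ 2 % 16 = 0) ∧ (x % 4 = 2 → x ^ 2 % 16 = 4) := by
  obtain ⟨q, a, hq, h1, h2⟩ : ∃ q a : ℤ, x = 8 * q + a ∧ 0 ≤ a ∧ a < 8 :=
    ⟨x / 8, x % 8, (Int.mul_ediv_add_emod x 8).symm, Int.emod_nonneg _ (by norm_num),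
      Int.emod_lt_of_pos _ (by norm_num)⟩
  have h3 : x ^ 2 = 16 * (4 * q ^ 2 + q * a) + a ^ 2 := by rw [hq]; ring
  rw [h3]
  generalize 4 * q ^ 2 + q * a = T
  interval_cases a <;> refine ⟨?_, ?_, ?_, ?_⟩ <;> intro h <;> omega

theorem r7a_sq4 (x : ℤ) : ∃ k e, x ^ 2 = 4 * k + e ∧ x % 2 = e ∧ (e = 0 ∨ e = 1) := by
  rcases Int.emod_two_eq_zero_or_one x with h | h
  · obtain ⟨q, rfl⟩ : ∃ q, x = 2 * q := ⟨x / 2, by omega⟩
    exact ⟨q ^ 2, 0, by ring, h, Or.inl rfl⟩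
  · obtain ⟨q, rfl⟩ : ∃ q, x = 2 * q + 1 := ⟨x / 2, by omega⟩
    exact ⟨q ^ 2 + q, 1, by ring, h, Or.inr rfl⟩

/-- A permutation with given parities. -/
theorem r7a_perm (x y z : ℤ) (n k e1 e2 e3 : ℤ) (hn : x ^ 2 + y ^ 2 + z ^ 2 = n)
    (h : n = 4 * k + (e1 + e2 + e3)) (h1 : e1 = 0 ∨ e1 = 1) (h2 : e2 = 0 ∨ e2 = 1)
    (h3 : e3 = 0 ∨ e3 = 1) (hs : 1 ≤ e1 + e2 + e3) :
    ∃ a b c : ℤ, a ^ 2 + b ^ 2 + c ^ 2 = n ∧ a % 2 = e1 ∧ b % 2 = e2 ∧ c % 2 = e3 := by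
  obtain ⟨ka, ea, ha1, ha2, ha3⟩ := r7a_sq4 x
  obtain ⟨kb, eb, hb1, hb2, hb3⟩ := r7a_sq4 y
  obtain ⟨kc, ec, hc1, hc2, hc3⟩ := r7a_sq4 z
  have h4 : ea + eb + ec = e1 + e2 + e3 := by
    have : ea + eb + ec + 4 * (ka + kb + kc - k) = e1 + e2 + e3 := by linarith
    omega
  clear ha1 hb1 hc1 h
  by_cases g1 : ea = e1
  · by_cases g2 : eb = e2
    · exact ⟨x, y, z, hn, ha2.trans g1, hb2.trans g2, hc2.trans (by omega)⟩
    · exact ⟨x, z, y, by linarith, ha2.trans g1, hc2.trans (by omega), hb2.trans (by omega)⟩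
  · by_cases g2 : eb = e1
    · by_cases g3 : ea = e2
      · exact ⟨y, x, z, by linarith, hb2.trans g2, ha2.trans g3, hc2.trans (by omega)⟩
      · exact ⟨y, z, x, by linarith, hb2.trans g2, hc2.trans (by omega), ha2.trans (by omega)⟩
    · by_cases g3 : eb = e2
      · exact ⟨z, y, x, by linarith, hc2.trans (by omega), hb2.trans g3, ha2.trans (by omega)⟩
      · exact ⟨z, x, y, by linarith, hc2.trans (by omega), ha2.trans (by omega),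
          hb2.trans (by omega)⟩

/-- The quaternion with given coordinates. -/
def r7a_q (m a b c : ℤ) : ℍ[ℤ] := ⟨m, a, b, c⟩

theorem r7a_re (m a b c : ℤ) : (r7a_q m a b c).re = m := rfl
theorem r7a_imI (m a b c : ℤ) : (r7a_q m a b c).imI = a := rfl
theorem r7a_imJ (m a b c : ℤ) : (r7a_q m a b c).imJ = b := rfl
theorem r7a_imK (m a b c : ℤ) : (r7a_q m a b c).imK = c := rfl

theorem r7a_norm (m a b c : ℤ) :
    Quaternion.normSq (r7a_q m a b c) = m ^ 2 + a ^ 2 + b ^ 2 + c ^ 2 := by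
  rw [Quaternion.normSq_def']
  rfl

theorem r7a_G2 (v : ℍ[ℤ]) (D : ℕ) (m a b c : ℤ) (hm : m % 2 = v.re % 2) (ha : a % 2 = v.imI % 2)
    (hb : b % 2 = v.imJ % 2) (hc : c % 2 = v.imK % 2)
    (hR : (v.re * m - v.imI * a - v.imJ * b - v.imK * c - D) % 4 = 0) :
    G2 v 1 D (r7a_q m a b c) := by
  have hm' : Even m ↔ Even v.re := by rw [Int.even_iff, Int.even_iff, hm]
  have ha' : Even a ↔ Even v.imI := by rw [Int.even_iff, Int.even_iff, ha]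
  have hb' : Even b ↔ Even v.imJ := by rw [Int.even_iff, Int.even_iff, hb]
  have hc' : Even c ↔ Even v.imK := by rw [Int.even_iff, Int.even_iff, hc]
  refine ⟨v * r7a_q m a b c, (one_smul ℤ (v * r7a_q m a b c)).symm, ?_, ?_, ?_, ?_⟩
  · rw [Quaternion.re_mul]
    exact hR
  · rw [Quaternion.imI_mul, ← Int.even_iff, r7a_re, r7a_imI, r7a_imJ, r7a_imK]
    simp only [Int.even_add, Int.even_sub, Int.even_mul, hm', ha', hb', hc']
    by_cases h1 : Even v.re <;> by_cases h2 : Even v.imI <;> by_cases h3 : Even v.imJ <;>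
      by_cases h4 : Even v.imK <;> simp [h1, h2, h3, h4]
  · rw [Quaternion.imJ_mul, ← Int.even_iff, r7a_re, r7a_imI, r7a_imJ, r7a_imK]
    simp only [Int.even_add, Int.even_sub, Int.even_mul, hm', ha', hb', hc']
    by_cases h1 : Even v.re <;> by_cases h2 : Even v.imI <;> by_cases h3 : Even v.imJ <;>
      by_cases h4 : Even v.imK <;> simp [h1, h2, h3, h4]
  · rw [Quaternion.imK_mul, ← Int.even_iff, r7a_re, r7a_imI, r7a_imJ, r7a_imK]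
    simp only [Int.even_add, Int.even_sub, Int.even_mul, hm', ha', hb', hc']
    by_cases h1 : Even v.re <;> by_cases h2 : Even v.imI <;> by_cases h3 : Even v.imJ <;>
      by_cases h4 : Even v.imK <;> simp [h1, h2, h3, h4]

theorem r7a_mul (x y : ℤ) (hx : x % 2 = 1) (hy : y % 2 = 1) : ∃ t, x * y = 2 * t + 1 := by
  obtain ⟨i, rfl⟩ : ∃ i, x = 2 * i + 1 := ⟨x / 2, by omega⟩
  obtain ⟨j, rfl⟩ : ∃ j, y = 2 * j + 1 := ⟨y / 2, by omega⟩
  exact ⟨2 * i * j + i + j, by ring⟩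

theorem r7a_sign (v : ℍ[ℤ]) (D : ℕ) (hN : Quaternion.normSq v = D) (m a b c : ℤ)
    (hm : m % 2 = v.re % 2) (ha : a % 2 = v.imI % 2)
    (hb : b % 2 = v.imJ % 2) (hc : c % 2 = v.imK % 2)
    (hodd : v.imI % 2 = 1 ∨ v.imJ % 2 = 1 ∨ v.imK % 2 = 1) :
    ∃ z : ℍ[ℤ], z.re = m ∧ Quaternion.normSq z = m ^ 2 + a ^ 2 + b ^ 2 + c ^ 2 ∧ G2 v 1 D z := by
  have hm' : Even m ↔ Even v.re := by rw [Int.even_iff, Int.even_iff, hm]
  have ha' : Even a ↔ Even v.imI := by rw [Int.even_iff, Int.even_iff, ha]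
  have hb' : Even b ↔ Even v.imJ := by rw [Int.even_iff, Int.even_iff, hb]
  have hc' : Even c ↔ Even v.imK := by rw [Int.even_iff, Int.even_iff, hc]
  have h0 : (v.re * m - v.imI * a - v.imJ * b - v.imK * c - D) % 2 = 0 := by
    rw [← hN, Quaternion.normSq_def', ← Int.even_iff]
    simp only [Int.even_add, Int.even_sub, Int.even_mul, Int.even_pow, hm', ha', hb', hc']
    by_cases h1 : Even v.re <;> by_cases h2 : Even v.imI <;> by_cases h3 : Even v.imJ <;>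
      by_cases h4 : Even v.imK <;> simp [h1, h2, h3, h4]
  by_cases h4 : (v.re * m - v.imI * a - v.imJ * b - v.imK * c - D) % 4 = 0
  · exact ⟨r7a_q m a b c, rfl, r7a_norm _ _ _ _, r7a_G2 v D m a b c hm ha hb hc h4⟩
  · have h5 : (v.re * m - v.imI * a - v.imJ * b - v.imK * c - D) % 4 = 2 := by
      generalize v.re * m - v.imI * a - v.imJ * b - v.imK * c - D = R at h0 h4 ⊢
      omega
    rcases hodd with h | h | h
    · obtain ⟨t, ht⟩ := r7a_mul _ _ h (ha.trans h)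
      refine ⟨r7a_q m (-a) b c, rfl, by rw [r7a_norm]; ring,
        r7a_G2 v D m (-a) b c hm (by clear h0 h4 h5 ht; omega) hb hc ?_⟩
      have h6 : v.re * m - v.imI * (-a) - v.imJ * b - v.imK * c - D =
        v.re * m - v.imI * a - v.imJ * b - v.imK * c - D + 4 * t + 2 := by linarith
      rw [h6]
      generalize v.re * m - v.imI * a - v.imJ * b - v.imK * c - D = R at h5 ⊢
      clear ha hb hc hm h0 h4 h
      omega
    · obtain ⟨t, ht⟩ := r7a_mul _ _ h (hb.trans h)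
      refine ⟨r7a_q m a (-b) c, rfl, by rw [r7a_norm]; ring,
        r7a_G2 v D m a (-b) c hm ha (by clear h0 h4 h5 ht; omega) hc ?_⟩
      have h6 : v.re * m - v.imI * a - v.imJ * (-b) - v.imK * c - D =
        v.re * m - v.imI * a - v.imJ * b - v.imK * c - D + 4 * t + 2 := by linarith
      rw [h6]
      generalize v.re * m - v.imI * a - v.imJ * b - v.imK * c - D = R at h5 ⊢
      clear ha hb hc hm h0 h4 h
      omega
    · obtain ⟨t, ht⟩ := r7a_mul _ _ h (hc.trans h)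
      refine ⟨r7a_q m a b (-c), rfl, by rw [r7a_norm]; ring,
        r7a_G2 v D m a b (-c) hm ha hb (by clear h0 h4 h5 ht; omega) ?_⟩
      have h6 : v.re * m - v.imI * a - v.imJ * b - v.imK * (-c) - D =
        v.re * m - v.imI * a - v.imJ * b - v.imK * c - D + 4 * t + 2 := by linarith
      rw [h6]
      generalize v.re * m - v.imI * a - v.imJ * b - v.imK * c - D = R at h5 ⊢
      clear ha hb hc hm h0 h4 h
      omega

theorem r7a_five (D k : ℕ) : ∃ T : ℤ, (D : ℤ) * 5 ^ (4 * k) = D + 16 * T := by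
  obtain ⟨t, ht⟩ : ∃ t : ℤ, (5 : ℤ) ^ (4 * k) = 1 + 16 * t := by
    induction k with
    | zero => exact ⟨0, by norm_num⟩
    | succ k ih =>
      obtain ⟨t, ht⟩ := ih
      refine ⟨39 + 625 * t, ?_⟩
      rw [show 4 * (k + 1) = 4 * k + 4 by ring, pow_add, ht]
      ring
  exact ⟨D * t, by rw [ht]; ring⟩

/-- the case of even imaginary coordinates -/
theorem r7a_caseA (v : ℍ[ℤ]) (D : ℕ) (k0 : ℤ) (hk0 : v.re ^ 2 = 4 * k0 + 1) (hv0 : v.re % 2 = 1)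
    (hD4 : (D : ℤ) % 4 = 1) (hs1 : v.imI % 2 = 0) (hs2 : v.imJ % 2 = 0) (hs3 : v.imK % 2 = 0) :
    ∃ r : ℤ, ∀ (k : ℕ) (m : ℤ), m % 16 = r % 16 → m ^ 2 < D * 5 ^ (4 * k) →
      ∃ z : ℍ[ℤ], z.re = m ∧ Quaternion.normSq z = D * 5 ^ (4 * k) ∧ G2 v 1 D z := by
  obtain ⟨r, hr4, hr⟩ : ∃ r : ℤ, r % 4 = v.re % 4 ∧
      (((D : ℤ) % 16 = 5 ∨ (D : ℤ) % 16 = 9) ∧ (r % 8 = 1 ∨ r % 8 = 7) ∨
        ((D : ℤ) % 16 = 1 ∨ (D : ℤ) % 16 = 13) ∧ (r % 8 = 3 ∨ r % 8 = 5)) := by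
    clear hk0 hs1 hs2 hs3
    by_cases h1 : (D : ℤ) % 16 = 5 ∨ (D : ℤ) % 16 = 9
    · by_cases h2 : v.re % 8 = 1 ∨ v.re % 8 = 7
      · exact ⟨v.re, rfl, Or.inl ⟨h1, h2⟩⟩
      · exact ⟨v.re + 4, by omega, Or.inl ⟨h1, by clear h1 hD4; omega⟩⟩
    · have h1' : (D : ℤ) % 16 = 1 ∨ (D : ℤ) % 16 = 13 := by clear hv0; omega
      by_cases h2 : v.re % 8 = 1 ∨ v.re % 8 = 7
      · exact ⟨v.re + 4, by omega, Or.inr ⟨h1', by clear h1 h1' hD4; omega⟩⟩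
      · exact ⟨v.re, rfl, Or.inr ⟨h1', by clear h1 h1' hD4; omega⟩⟩
  refine ⟨r, fun k m hmr hmk => ?_⟩
  obtain ⟨T, hT⟩ := r7a_five D k
  obtain ⟨s1, s2, -, -⟩ := r7a_sq m
  have hm4 : m % 4 = v.re % 4 := by clear hr s1 s2 hT hmk hk0 hs1 hs2 hs3 hv0 hD4; omega
  have hn : (((D : ℤ) * 5 ^ (4 * k) - m ^ 2) % 16 = 4) ∨
      (((D : ℤ) * 5 ^ (4 * k) - m ^ 2) % 16 = 8) := by
    rw [hT]
    rcases hr with ⟨h1, h2⟩ | ⟨h1, h2⟩
    · have h3 : m % 8 = 1 ∨ m % 8 = 7 := by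
        clear hm4 s1 s2 hT hmk hk0 hs1 hs2 hs3 hv0 hD4 h1 hr4
        omega
      have h4 := s1 h3
      clear hm4 s1 s2 hT hmk hk0 hs1 hs2 hs3 hv0 hD4 hr4 hmr h2 h3
      omega
    · have h3 : m % 8 = 3 ∨ m % 8 = 5 := by
        clear hm4 s1 s2 hT hmk hk0 hs1 hs2 hs3 hv0 hD4 h1 hr4
        omega
      have h4 := s2 h3
      clear hm4 s1 s2 hT hmk hk0 hs1 hs2 hs3 hv0 hD4 hr4 hmr h2 h3
      omega
  obtain ⟨n, hn4⟩ : ∃ n : ℕ, (D : ℤ) * 5 ^ (4 * k) - m ^ 2 = 4 * n := by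
    have h5 : 0 < (D : ℤ) * 5 ^ (4 * k) - m ^ 2 := by linarith
    refine ⟨(((D : ℤ) * 5 ^ (4 * k) - m ^ 2) / 4).toNat, ?_⟩
    generalize (D : ℤ) * 5 ^ (4 * k) - m ^ 2 = R at hn h5 ⊢
    clear hm4 s1 s2 hT hmk hk0 hs1 hs2 hs3 hv0 hD4 hr4 hmr hr
    omega
  rw [hn4] at hn
  obtain ⟨x, y, z, hxyz, -⟩ := prim3 n (by
    clear hm4 s1 s2 hT hmk hk0 hs1 hs2 hs3 hv0 hD4 hr4 hmr hr hn4; omega)
  refine ⟨r7a_q m (2 * x) (2 * y) (2 * z), rfl, ?_, ?_⟩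
  · have : m ^ 2 + (2 * x) ^ 2 + (2 * y) ^ 2 + (2 * z) ^ 2 = m ^ 2 + 4 * (x ^ 2 + y ^ 2 + z ^ 2) := by
      ring
    rw [r7a_norm, this, hxyz]
    linarith
  · refine r7a_G2 v D m _ _ _ (by clear hr s1 s2 hT hmk hk0 hs1 hs2 hs3 hn hn4 hmr hxyz; omega)
      (by rw [hs1]; exact Int.mul_emod_right 2 x) (by rw [hs2]; exact Int.mul_emod_right 2 y)
      (by rw [hs3]; exact Int.mul_emod_right 2 z) ?_
    obtain ⟨u, hu⟩ : ∃ u, m = v.re + 4 * u := ⟨(m - v.re) / 4, by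
      clear hr s1 s2 hT hmk hk0 hs1 hs2 hs3 hn hn4 hmr hxyz; omega⟩
    obtain ⟨i1, hi1⟩ : ∃ i, v.imI = 2 * i := ⟨v.imI / 2, by
      clear hr s1 s2 hT hmk hk0 hs2 hs3 hn hn4 hmr hxyz hm4; omega⟩
    obtain ⟨i2, hi2⟩ : ∃ i, v.imJ = 2 * i := ⟨v.imJ / 2, by
      clear hr s1 s2 hT hmk hk0 hs1 hs3 hn hn4 hmr hxyz hm4; omega⟩
    obtain ⟨i3, hi3⟩ : ∃ i, v.imK = 2 * i := ⟨v.imK / 2, by
      clear hr s1 s2 hT hmk hk0 hs1 hs2 hn hn4 hmr hxyz hm4; omega⟩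
    have h5 : v.re * m - v.imI * (2 * x) - v.imJ * (2 * y) - v.imK * (2 * z) =
        v.re ^ 2 + 4 * (v.re * u - i1 * x - i2 * y - i3 * z) := by
      rw [hu, hi1, hi2, hi3]
      ring
    rw [h5, hk0]
    generalize v.re * u - i1 * x - i2 * y - i3 * z = t
    clear hr s1 s2 hT hmk hk0 hs1 hs2 hs3 hn hn4 hmr hxyz hm4 h5 hi1 hi2 hi3 hu
    omega

/-- TARGET -/
theorem z_type1 (v : ℍ[ℤ]) (D : ℕ) (hD : Odd D) (hN : Quaternion.normSq v = D) :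
    ∃ r : ℤ, ∀ (k : ℕ) (m : ℤ), m % 16 = r % 16 → m ^ 2 < D * 5 ^ (4 * k) →
      ∃ z : ℍ[ℤ], z.re = m ∧ Quaternion.normSq z = D * 5 ^ (4 * k) ∧ G2 v 1 D z := by
  have hD2 : (D : ℤ) % 2 = 1 := by
    have := Nat.odd_iff.1 hD
    omega
  have hN' : v.re ^ 2 + v.imI ^ 2 + v.imJ ^ 2 + v.imK ^ 2 = (D : ℤ) := by
    rw [← hN, Quaternion.normSq_def']
  obtain ⟨k0, e0, hk0, he0, hf0⟩ := r7a_sq4 v.re
  obtain ⟨k1, e1, hk1, he1, hf1⟩ := r7a_sq4 v.imI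
  obtain ⟨k2, e2, hk2, he2, hf2⟩ := r7a_sq4 v.imJ
  obtain ⟨k3, e3, hk3, he3, hf3⟩ := r7a_sq4 v.imK
  have hD4 : (D : ℤ) = 4 * (k0 + k1 + k2 + k3) + (e0 + (e1 + e2 + e3)) := by linarith
  by_cases hs : e1 + e2 + e3 = 0
  · have h01 : e0 = 1 := by clear he0 he1 he2 he3 hk0 hk1 hk2 hk3 hN'; omega
    have g1 : e1 = 0 := by clear he0 he1 he2 he3 hk0 hk1 hk2 hk3 hN' hD4; omega
    have g2 : e2 = 0 := by clear he0 he1 he2 he3 hk0 hk1 hk2 hk3 hN' hD4; omega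
    have g3 : e3 = 0 := by clear he0 he1 he2 he3 hk0 hk1 hk2 hk3 hN' hD4; omega
    refine r7a_caseA v D k0 (by rw [hk0, h01]) (he0.trans h01) ?_ (he1.trans g1) (he2.trans g2)
      (he3.trans g3)
    rw [hD4, h01, hs]
    clear he0 he1 he2 he3 hk0 hk1 hk2 hk3 hN' hD4
    omega
  · -- some imaginary coordinate is odd
    have hs1 : 1 ≤ e1 + e2 + e3 := by clear he0 he1 he2 he3 hk0 hk1 hk2 hk3 hN' hD4; omega
    have hodd : v.imI % 2 = 1 ∨ v.imJ % 2 = 1 ∨ v.imK % 2 = 1 := by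
      rw [he1, he2, he3]
      clear he0 he1 he2 he3 hk0 hk1 hk2 hk3 hN' hD4
      omega
    obtain ⟨r, hr2, hr⟩ : ∃ r : ℤ, r % 2 = e0 ∧
        (e1 + e2 + e3 = 3 → (D : ℤ) % 8 = 3 ∧ r = 0 ∨ (D : ℤ) % 8 = 7 ∧ r = 2) := by
      by_cases h1 : e1 + e2 + e3 = 3
      · rw [h1] at hD4
        have h0 : e0 = 0 := by clear he0 he1 he2 he3 hk0 hk1 hk2 hk3 hN' hs hs1; omega
        by_cases h2 : (D : ℤ) % 8 = 3
        · exact ⟨0, by rw [h0]; rfl, fun _ => Or.inl ⟨h2, rfl⟩⟩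
        · refine ⟨2, by rw [h0]; rfl, fun _ => Or.inr ⟨?_, rfl⟩⟩
          clear he0 he1 he2 he3 hk0 hk1 hk2 hk3 hN' hs hs1
          omega
      · exact ⟨v.re, he0, fun h => absurd h h1⟩
    refine ⟨r, fun k m hmr hmk => ?_⟩
    obtain ⟨T, hT⟩ := r7a_five D k
    obtain ⟨-, -, s3, s4⟩ := r7a_sq m
    obtain ⟨km, em, hkm, hem, hfm⟩ := r7a_sq4 m
    have hem0 : em = e0 := by
      rw [← hem, ← hr2]
      clear he0 he1 he2 he3 hk0 hk1 hk2 hk3 hN' hD4 hs hs1 s3 s4 hT hr hodd hkm hem hfm hr2 hmk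
      omega
    obtain ⟨n, hn⟩ : ∃ n : ℕ, (n : ℤ) = (D : ℤ) * 5 ^ (4 * k) - m ^ 2 :=
      ⟨((D : ℤ) * 5 ^ (4 * k) - m ^ 2).toNat, by rw [Int.toNat_of_nonneg]; linarith⟩
    have hn4 : (n : ℤ) = 4 * (k0 + k1 + k2 + k3 + 4 * T - km) + (e1 + e2 + e3) := by
      rw [hn, hT, hkm, hem0]
      linarith
    obtain ⟨x, y, z, hxyz⟩ : ∃ x y z : ℤ, x ^ 2 + y ^ 2 + z ^ 2 = n := by
      by_cases h3 : e1 + e2 + e3 = 3
      · refine Pool.Agent.H591R2.three_squares ?_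
        rcases hr h3 with ⟨h6, h7⟩ | ⟨h6, h7⟩
        · have h8 := s3 (by rw [h7] at hmr; clear * - hmr; omega)
          rw [hT] at hn
          clear * - hn h8 h6
          omega
        · have h8 := s4 (by rw [h7] at hmr; clear * - hmr; omega)
          rw [hT] at hn
          clear * - hn h8 h6
          omega
      · have h4 : n % 4 = 1 ∨ n % 4 = 2 := by
          clear * - hn4 h3 hs1 hf1 hf2 hf3
          omega
        obtain ⟨x, y, z, h, -⟩ := prim3 n h4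
        exact ⟨x, y, z, h⟩
    obtain ⟨a, b, c, habc, ha, hb, hc⟩ := r7a_perm x y z n _ e1 e2 e3 hxyz hn4 hf1 hf2 hf3 hs1
    obtain ⟨w, hw1, hw2, hw3⟩ := r7a_sign v D hN m a b c (by rw [hem, he0, hem0])
      (by rw [ha, he1]) (by rw [hb, he2]) (by rw [hc, he3]) hodd
    refine ⟨w, hw1, ?_, hw3⟩
    rw [hw2]
    linarith

end Pool.Agent.H978V
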