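import Pool.Agent.H978V.LDefs
import Pool.Agent.H978V.R7a
import Pool.Agent.H978V.R1
import Pool.Agent.H978V.B4
import Pool.Agent.H978V.L0b
import Pool.Agent.H978V.L0a

set_option autoImplicit false

open scoped Quaternion

namespace Pool.Agent.H978V

open Pool.Agent.Helper557.Rz

/-! ### Signed permutations -/

/-- `z` is a signed permutation of `y`. -/
def SgP (y z : ℤ × ℤ × ℤ) : Prop :=
  (z.1 ^ 2 = y.1 ^ 2 ∧ z.2.1 ^ 2 = y.2.1 ^ 2 ∧ z.2.2 ^ 2 = y.2.2 ^ 2) ∨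
  (z.1 ^ 2 = y.1 ^ 2 ∧ z.2.1 ^ 2 = y.2.2 ^ 2 ∧ z.2.2 ^ 2 = y.2.1 ^ 2) ∨
  (z.1 ^ 2 = y.2.1 ^ 2 ∧ z.2.1 ^ 2 = y.1 ^ 2 ∧ z.2.2 ^ 2 = y.2.2 ^ 2) ∨
  (z.1 ^ 2 = y.2.1 ^ 2 ∧ z.2.1 ^ 2 = y.2.2 ^ 2 ∧ z.2.2 ^ 2 = y.1 ^ 2) ∨
  (z.1 ^ 2 = y.2.2 ^ 2 ∧ z.2.1 ^ 2 = y.2.1 ^ 2 ∧ z.2.2 ^ 2 = y.1 ^ 2) ∨
  (z.1 ^ 2 = y.2.2 ^ 2 ∧ z.2.1 ^ 2 = y.1 ^ 2 ∧ z.2.2 ^ 2 = y.2.1 ^ 2)

/-- sign change -/
def sgpm (b : Bool) (x : ℤ) : ℤ := if b then x else -x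

/-- the signed permutations of `z` -/
def sgAct (g : Fin 6 × Bool × Bool × Bool) (z : ℤ × ℤ × ℤ) : ℤ × ℤ × ℤ :=
  if g.1 = 0 then (sgpm g.2.1 z.1, sgpm g.2.2.1 z.2.1, sgpm g.2.2.2 z.2.2) else
  if g.1 = 1 then (sgpm g.2.1 z.1, sgpm g.2.2.1 z.2.2, sgpm g.2.2.2 z.2.1) else
  if g.1 = 2 then (sgpm g.2.1 z.2.1, sgpm g.2.2.1 z.1, sgpm g.2.2.2 z.2.2) else
  if g.1 = 3 then (sgpm g.2.1 z.2.2, sgpm g.2.2.1 z.1, sgpm g.2.2.2 z.2.1) else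
  if g.1 = 4 then (sgpm g.2.1 z.2.2, sgpm g.2.2.1 z.2.1, sgpm g.2.2.2 z.1) else
  (sgpm g.2.1 z.2.1, sgpm g.2.2.1 z.2.2, sgpm g.2.2.2 z.1)

theorem sgpm_of_sq {x y : ℤ} (h : x ^ 2 = y ^ 2) : ∃ b, y = sgpm b x := by
  rcases sq_eq_sq_iff_eq_or_eq_neg.1 h with h | h
  · exact ⟨true, by simp [sgpm, h]⟩
  · exact ⟨false, by simp [sgpm, h]⟩

theorem sgP_act {y z : ℤ × ℤ × ℤ} (h : SgP y z) : ∃ g, y = sgAct g z := by
  obtain ⟨y1, y2, y3⟩ := y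
  obtain ⟨z1, z2, z3⟩ := z
  rcases h with ⟨h1, h2, h3⟩ | ⟨h1, h2, h3⟩ | ⟨h1, h2, h3⟩ | ⟨h1, h2, h3⟩ | ⟨h1, h2, h3⟩ |
    ⟨h1, h2, h3⟩ <;> obtain ⟨a, ha⟩ := sgpm_of_sq h1 <;> obtain ⟨b, hb⟩ := sgpm_of_sq h2 <;>
    obtain ⟨c, hc⟩ := sgpm_of_sq h3 <;> simp only at ha hb hc
  · exact ⟨(0, a, b, c), by simp [sgAct, ha, hb, hc]⟩
  · exact ⟨(1, a, c, b), by simp [sgAct, ha, hb, hc]⟩
  · exact ⟨(2, b, a, c), by simp [sgAct, ha, hb, hc]⟩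
  · exact ⟨(3, c, a, b), by simp [sgAct, ha, hb, hc]⟩
  · exact ⟨(4, c, b, a), by simp [sgAct, ha, hb, hc]⟩
  · exact ⟨(5, b, c, a), by simp [sgAct, ha, hb, hc]⟩

/-- A map to signed permutations is at most 48 to one. -/
theorem signed_perm_count {n : ℕ} {T : Finset (ℤ × ℤ × ℤ)} (f : ℤ × ℤ × ℤ → ℤ × ℤ × ℤ)
    (h : ∀ y ∈ S3 n, f y ∈ T ∧ SgP y (f y)) : (S3 n).card ≤ 48 * T.card := by
  classical
  have h1 : S3 n ⊆ T.biUnion fun z => Finset.univ.image fun g => sgAct g z := by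
    intro y hy
    obtain ⟨h2, h3⟩ := h y hy
    obtain ⟨g, hg⟩ := sgP_act h3
    exact Finset.mem_biUnion.2 ⟨f y, h2, Finset.mem_image.2 ⟨g, Finset.mem_univ _, hg.symm⟩⟩
  refine (Finset.card_le_card h1).trans ?_
  rw [mul_comm]
  refine Finset.card_biUnion_le_card_mul _ _ _ fun z _ => ?_
  refine Finset.card_image_le.trans ?_
  rw [Finset.card_univ]
  simp only [Fintype.card_prod, Fintype.card_fin, Fintype.card_bool]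
  norm_num


/-- A permutation with given parities. -/
theorem zc1_perm (x y z : ℤ) (n k e1 e2 e3 : ℤ) (hn : x ^ 2 + y ^ 2 + z ^ 2 = n)
    (h : n = 4 * k + (e1 + e2 + e3)) (h1 : e1 = 0 ∨ e1 = 1) (h2 : e2 = 0 ∨ e2 = 1)
    (h3 : e3 = 0 ∨ e3 = 1) (hs : 1 ≤ e1 + e2 + e3) :
    ∃ a b c : ℤ, SgP (x, y, z) (a, b, c) ∧ a % 2 = e1 ∧ b % 2 = e2 ∧ c % 2 = e3 := by
  obtain ⟨ka, ea, ha1, ha2, ha3⟩ := r7a_sq4 x
  obtain ⟨kb, eb, hb1, hb2, hb3⟩ := r7a_sq4 y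
  obtain ⟨kc, ec, hc1, hc2, hc3⟩ := r7a_sq4 z
  have h4 : ea + eb + ec = e1 + e2 + e3 := by
    have : ea + eb + ec + 4 * (ka + kb + kc - k) = e1 + e2 + e3 := by linarith
    omega
  clear ha1 hb1 hc1 h
  by_cases g1 : ea = e1
  · by_cases g2 : eb = e2
    · exact ⟨x, y, z, Or.inl ⟨rfl, rfl, rfl⟩, ha2.trans g1, hb2.trans g2, hc2.trans (by omega)⟩
    · exact ⟨x, z, y, Or.inr (Or.inl ⟨rfl, rfl, rfl⟩), ha2.trans g1, hc2.trans (by omega),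
        hb2.trans (by omega)⟩
  · by_cases g2 : eb = e1
    · by_cases g3 : ea = e2
      · exact ⟨y, x, z, Or.inr (Or.inr (Or.inl ⟨rfl, rfl, rfl⟩)), hb2.trans g2, ha2.trans g3,
          hc2.trans (by omega)⟩
      · exact ⟨y, z, x, Or.inr (Or.inr (Or.inr (Or.inl ⟨rfl, rfl, rfl⟩))), hb2.trans g2,
          hc2.trans (by omega), ha2.trans (by omega)⟩
    · by_cases g3 : eb = e2
      · exact ⟨z, y, x, Or.inr (Or.inr (Or.inr (Or.inr (Or.inl ⟨rfl, rfl, rfl⟩)))),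
          hc2.trans (by omega), hb2.trans g3, ha2.trans (by omega)⟩
      · exact ⟨z, x, y, Or.inr (Or.inr (Or.inr (Or.inr (Or.inr ⟨rfl, rfl, rfl⟩)))),
          hc2.trans (by omega), ha2.trans (by omega), hb2.trans (by omega)⟩

theorem zc1_sign (v : ℍ[ℤ]) (D : ℕ) (hN : Quaternion.normSq v = D) (m a b c : ℤ)
    (hm : m % 2 = v.re % 2) (ha : a % 2 = v.imI % 2)
    (hb : b % 2 = v.imJ % 2) (hc : c % 2 = v.imK % 2)
    (hodd : v.imI % 2 = 1 ∨ v.imJ % 2 = 1 ∨ v.imK % 2 = 1) :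
    ∃ a' b' c' : ℤ, a' ^ 2 = a ^ 2 ∧ b' ^ 2 = b ^ 2 ∧ c' ^ 2 = c ^ 2 ∧
      G2 v 1 D (mq m (a', b', c')) := by
  have hm' : Even m ↔ Even v.re := by rw [Int.even_iff, Int.even_iff, hm]
  have ha' : Even a ↔ Even v.imI := by rw [Int.even_iff, Int.even_iff, ha]
  have hb' : Even b ↔ Even v.imJ := by rw [Int.even_iff, Int.even_iff, hb]
  have hc' : Even c ↔ Even v.imK := by rw [Int.even_iff, Int.even_iff, hc]
  have h0 : (v.re * m - v.imI * a - v.imJ * b - v.imK * c - D) % 2 = 0 := by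
    rw [← hN, Quaternion.normSq_def', ← Int.even_iff]
    simp only [Int.even_add, Int.even_sub, Int.even_mul, Int.even_pow, hm', ha', hb', hc']
    by_cases h1 : Even v.re <;> by_cases h2 : Even v.imI <;> by_cases h3 : Even v.imJ <;>
      by_cases h4 : Even v.imK <;> simp [h1, h2, h3, h4]
  by_cases h4 : (v.re * m - v.imI * a - v.imJ * b - v.imK * c - D) % 4 = 0
  · exact ⟨a, b, c, rfl, rfl, rfl, r7a_G2 v D m a b c hm ha hb hc h4⟩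
  · have h5 : (v.re * m - v.imI * a - v.imJ * b - v.imK * c - D) % 4 = 2 := by
      generalize v.re * m - v.imI * a - v.imJ * b - v.imK * c - D = R at h0 h4 ⊢
      omega
    rcases hodd with h | h | h
    · obtain ⟨t, ht⟩ := r7a_mul _ _ h (ha.trans h)
      refine ⟨-a, b, c, by ring, rfl, rfl,
        r7a_G2 v D m (-a) b c hm (by clear h0 h4 h5 ht; omega) hb hc ?_⟩
      have h6 : v.re * m - v.imI * (-a) - v.imJ * b - v.imK * c - D =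
        v.re * m - v.imI * a - v.imJ * b - v.imK * c - D + 4 * t + 2 := by linarith
      rw [h6]
      generalize v.re * m - v.imI * a - v.imJ * b - v.imK * c - D = R at h5 ⊢
      clear ha hb hc hm h0 h4 h
      omega
    · obtain ⟨t, ht⟩ := r7a_mul _ _ h (hb.trans h)
      refine ⟨a, -b, c, rfl, by ring, rfl,
        r7a_G2 v D m a (-b) c hm ha (by clear h0 h4 h5 ht; omega) hc ?_⟩
      have h6 : v.re * m - v.imI * a - v.imJ * (-b) - v.imK * c - D =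
        v.re * m - v.imI * a - v.imJ * b - v.imK * c - D + 4 * t + 2 := by linarith
      rw [h6]
      generalize v.re * m - v.imI * a - v.imJ * b - v.imK * c - D = R at h5 ⊢
      clear ha hb hc hm h0 h4 h
      omega
    · obtain ⟨t, ht⟩ := r7a_mul _ _ h (hc.trans h)
      refine ⟨a, b, -c, rfl, rfl, by ring,
        r7a_G2 v D m a b (-c) hm ha hb (by clear h0 h4 h5 ht; omega) ?_⟩
      have h6 : v.re * m - v.imI * a - v.imJ * b - v.imK * (-c) - D =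
        v.re * m - v.imI * a - v.imJ * b - v.imK * c - D + 4 * t + 2 := by linarith
      rw [h6]
      generalize v.re * m - v.imI * a - v.imJ * b - v.imK * c - D = R at h5 ⊢
      clear ha hb hc hm h0 h4 h
      omega

theorem zc1_mem_ZS {v : ℍ[ℤ]} {c : ℤ} {D : ℕ} {m : ℤ} {n : ℕ} {y : ℤ × ℤ × ℤ} :
    y ∈ ZS v c D m n ↔ y.1 ^ 2 + y.2.1 ^ 2 + y.2.2 ^ 2 = n ∧ G2 v c D (mq m y) := by
  classical
  unfold ZS
  simp only [Finset.mem_filter, mem_S3]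

/-- the case of even imaginary coordinates -/
theorem zc1_caseA (v : ℍ[ℤ]) (D : ℕ) (k0 : ℤ) (hk0 : v.re ^ 2 = 4 * k0 + 1) (hv0 : v.re % 2 = 1)
    (hD4 : (D : ℤ) % 4 = 1) (hs1 : v.imI % 2 = 0) (hs2 : v.imJ % 2 = 0) (hs3 : v.imK % 2 = 0) :
    ∃ r : ℤ, ∀ (k : ℕ) (m : ℤ) (N : ℕ), m % 16 = r % 16 → (N : ℤ) = D * 5 ^ (4 * k) - m ^ 2 →
      1 ≤ N → ∃ n : ℕ, N = 4 * n ∧ (n % 4 = 1 ∨ n % 4 = 2) ∧
        ∀ y ∈ S3 n, (2 * y.1, 2 * y.2.1, 2 * y.2.2) ∈ ZS v 1 D m N := by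
  obtain ⟨r, hr4, hr⟩ : ∃ r : ℤ, r % 4 = v.re % 4 ∧
      (((D : ℤ) % 16 = 5 ∨ (D : ℤ) % 16 = 9) ∧ (r % 8 = 1 ∨ r % 8 = 7) ∨
        ((D : ℤ) % 16 = 1 ∨ (D : ℤ) % 16 = 13) ∧ (r % 8 = 3 ∨ r % 8 = 5)) := by
    clear hk0 hs1 hs2 hs3
    by_cases h1 : (D : ℤ) % 16 = 5 ∨ (D : ℤ) % 16 = 9
    · by_cases h2 : v.re % 8 = 1 ∨ v.re % 8 = 7
      · exact ⟨v.re, rfl, Or.inl ⟨h1, h2⟩⟩
      · exact ⟨v.re + 4, by omega, Or.inl ⟨h1, by clear h1 hD4; omega⟩⟩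
    · have h1' : (D : ℤ) % 16 = 1 ∨ (D : ℤ) % 16 = 13 := by clear hv0; omega
      by_cases h2 : v.re % 8 = 1 ∨ v.re % 8 = 7
      · exact ⟨v.re + 4, by omega, Or.inr ⟨h1', by clear h1 h1' hD4; omega⟩⟩
      · exact ⟨v.re, rfl, Or.inr ⟨h1', by clear h1 h1' hD4; omega⟩⟩
  refine ⟨r, fun k m N hmr hN hN1 => ?_⟩
  obtain ⟨T, hT⟩ := r7a_five D k
  obtain ⟨s1, s2, -, -⟩ := r7a_sq m
  have hm4 : m % 4 = v.re % 4 := by clear hr s1 s2 hT hN hN1 hk0 hs1 hs2 hs3 hv0 hD4; omega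
  have hn : ((N : ℤ) % 16 = 4) ∨ ((N : ℤ) % 16 = 8) := by
    rw [hN, hT]
    rcases hr with ⟨h1, h2⟩ | ⟨h1, h2⟩
    · have h3 : m % 8 = 1 ∨ m % 8 = 7 := by
        clear hm4 s1 s2 hT hN hN1 hk0 hs1 hs2 hs3 hv0 hD4 h1 hr4
        omega
      have h4 := s1 h3
      clear hm4 s1 s2 hT hN hN1 hk0 hs1 hs2 hs3 hv0 hD4 hr4 hmr h2 h3
      omega
    · have h3 : m % 8 = 3 ∨ m % 8 = 5 := by
        clear hm4 s1 s2 hT hN hN1 hk0 hs1 hs2 hs3 hv0 hD4 h1 hr4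
        omega
      have h4 := s2 h3
      clear hm4 s1 s2 hT hN hN1 hk0 hs1 hs2 hs3 hv0 hD4 hr4 hmr h2 h3
      omega
  obtain ⟨n, hn4⟩ : ∃ n : ℕ, N = 4 * n := ⟨N / 4, by
    clear hm4 s1 s2 hT hN hk0 hs1 hs2 hs3 hv0 hD4 hr4 hmr hr
    omega⟩
  refine ⟨n, hn4, ?_, ?_⟩
  · rw [hn4] at hn
    clear hm4 s1 s2 hT hN hk0 hs1 hs2 hs3 hv0 hD4 hr4 hmr hr
    omega
  rintro ⟨x, y, z⟩ hy
  rw [mem_S3] at hy
  simp only at hy
  rw [zc1_mem_ZS]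
  constructor
  · simp only
    rw [hn4]
    push_cast
    rw [← hy]
    ring
  · refine r7a_G2 v D m _ _ _ (by clear hr s1 s2 hT hN hN1 hk0 hs1 hs2 hs3 hn hn4 hmr hy; omega)
      (by rw [hs1]; exact Int.mul_emod_right 2 x) (by rw [hs2]; exact Int.mul_emod_right 2 y)
      (by rw [hs3]; exact Int.mul_emod_right 2 z) ?_
    obtain ⟨u, hu⟩ : ∃ u, m = v.re + 4 * u := ⟨(m - v.re) / 4, by
      clear hr s1 s2 hT hN hN1 hk0 hs1 hs2 hs3 hn hn4 hmr hy; omega⟩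
    obtain ⟨i1, hi1⟩ : ∃ i, v.imI = 2 * i := ⟨v.imI / 2, by
      clear hr s1 s2 hT hN hN1 hk0 hs2 hs3 hn hn4 hmr hy hm4; omega⟩
    obtain ⟨i2, hi2⟩ : ∃ i, v.imJ = 2 * i := ⟨v.imJ / 2, by
      clear hr s1 s2 hT hN hN1 hk0 hs1 hs3 hn hn4 hmr hy hm4; omega⟩
    obtain ⟨i3, hi3⟩ : ∃ i, v.imK = 2 * i := ⟨v.imK / 2, by
      clear hr s1 s2 hT hN hN1 hk0 hs1 hs2 hn hn4 hmr hy hm4; omega⟩
    have h5 : v.re * m - v.imI * (2 * x) - v.imJ * (2 * y) - v.imK * (2 * z) =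
        v.re ^ 2 + 4 * (v.re * u - i1 * x - i2 * y - i3 * z) := by
      rw [hu, hi1, hi2, hi3]
      ring
    rw [h5, hk0]
    generalize v.re * u - i1 * x - i2 * y - i3 * z = t
    clear hr s1 s2 hT hN hN1 hk0 hs1 hs2 hs3 hn hn4 hmr hy hm4 h5 hi1 hi2 hi3 hu
    omega

/-- the other cases -/
theorem zc1_caseB (v : ℍ[ℤ]) (D : ℕ) (hN : Quaternion.normSq v = D)
    (k0 k1 k2 k3 e0 e1 e2 e3 : ℤ) (he0 : v.re % 2 = e0) (he1 : v.imI % 2 = e1)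
    (he2 : v.imJ % 2 = e2) (he3 : v.imK % 2 = e3) (hf0 : e0 = 0 ∨ e0 = 1)
    (hf1 : e1 = 0 ∨ e1 = 1) (hf2 : e2 = 0 ∨ e2 = 1) (hf3 : e3 = 0 ∨ e3 = 1) (hD2 : (D : ℤ) % 2 = 1)
    (hD4 : (D : ℤ) = 4 * (k0 + k1 + k2 + k3) + (e0 + (e1 + e2 + e3)))
    (hs : ¬ e1 + e2 + e3 = 0) :
    ∃ r : ℤ, ∀ (k : ℕ) (m : ℤ) (n : ℕ), m % 16 = r % 16 → (n : ℤ) = D * 5 ^ (4 * k) - m ^ 2 →
      1 ≤ n → (∃ x y z : ℤ, x ^ 2 + y ^ 2 + z ^ 2 = n ∧ Int.gcd (Int.gcd x y) z = 1) ∧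
        ∀ y ∈ S3 n, ∃ z ∈ ZS v 1 D m n, SgP y z := by
  have hs1 : 1 ≤ e1 + e2 + e3 := by clear he0 he1 he2 he3 hD4; omega
  have hodd : v.imI % 2 = 1 ∨ v.imJ % 2 = 1 ∨ v.imK % 2 = 1 := by
    rw [he1, he2, he3]
    clear he0 he1 he2 he3 hD4
    omega
  obtain ⟨r, hr2, hr⟩ : ∃ r : ℤ, r % 2 = e0 ∧
      (e1 + e2 + e3 = 3 → (D : ℤ) % 8 = 3 ∧ r = 0 ∨ (D : ℤ) % 8 = 7 ∧ r = 2) := by
    by_cases h1 : e1 + e2 + e3 = 3
    · rw [h1] at hD4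
      have h0 : e0 = 0 := by clear he0 he1 he2 he3 hs hs1; omega
      by_cases h2 : (D : ℤ) % 8 = 3
      · exact ⟨0, by rw [h0]; rfl, fun _ => Or.inl ⟨h2, rfl⟩⟩
      · refine ⟨2, by rw [h0]; rfl, fun _ => Or.inr ⟨?_, rfl⟩⟩
        clear he0 he1 he2 he3 hs hs1
        omega
    · exact ⟨v.re, he0, fun h => absurd h h1⟩
  refine ⟨r, fun k m n hmr hn hn1 => ?_⟩
  obtain ⟨T, hT⟩ := r7a_five D k
  obtain ⟨-, -, s3, s4⟩ := r7a_sq m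
  obtain ⟨km, em, hkm, hem, hfm⟩ := r7a_sq4 m
  have hem0 : em = e0 := by
    rw [← hem, ← hr2]
    clear * - hmr
    omega
  have hn4 : (n : ℤ) = 4 * (k0 + k1 + k2 + k3 + 4 * T - km) + (e1 + e2 + e3) := by
    rw [hn, hT, hkm, hem0]
    linarith
  constructor
  · by_cases h3 : e1 + e2 + e3 = 3
    · refine prim_three ?_
      rcases hr h3 with ⟨h6, h7⟩ | ⟨h6, h7⟩
      · have h8 := s3 (by rw [h7] at hmr; clear * - hmr; omega)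
        rw [hT] at hn
        clear * - hn h8 h6
        omega
      · have h8 := s4 (by rw [h7] at hmr; clear * - hmr; omega)
        rw [hT] at hn
        clear * - hn h8 h6
        omega
    · have h4 : n % 4 = 1 ∨ n % 4 = 2 := by
        clear * - hn4 h3 hs1 hf1 hf2 hf3
        omega
      exact prim3 n h4
  · rintro ⟨x, y, z⟩ hy
    rw [mem_S3] at hy
    obtain ⟨a, b, c, habc, ha, hb, hc⟩ := zc1_perm x y z n _ e1 e2 e3 hy hn4 hf1 hf2 hf3 hs1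
    obtain ⟨a', b', c', h1, h2, h3, h4⟩ := zc1_sign v D hN m a b c (by rw [hem, he0, hem0])
      (by rw [ha, he1]) (by rw [hb, he2]) (by rw [hc, he3]) hodd
    have h5 : SgP (x, y, z) (a', b', c') := by
      unfold SgP at habc ⊢
      simp only at habc ⊢
      rw [h1, h2, h3]
      exact habc
    refine ⟨(a', b', c'), ?_, h5⟩
    rw [zc1_mem_ZS]
    refine ⟨?_, h4⟩
    simp only at hy ⊢
    rw [← hy]
    unfold SgP at h5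
    simp only at h5
    rcases h5 with h | h | h | h | h | h <;> obtain ⟨g1, g2, g3⟩ := h <;> rw [g1, g2, g3] <;> ring

/-- TARGET -/
theorem zc1 (v : ℍ[ℤ]) (D : ℕ) (hD : Odd D) (hN : Quaternion.normSq v = D) :
    ∃ r : ℤ, ∀ δ : ℝ, 0 < δ → ∃ c₀ : ℝ, 0 < c₀ ∧ ∀ (k : ℕ) (m : ℤ) (n : ℕ), m % 16 = r % 16 →
      (n : ℤ) = D * 5 ^ (4 * k) - m ^ 2 → 1 ≤ n → c₀ * (n : ℝ) ^ (1 / 2 - δ) ≤ (ZS v 1 D m n).card := by
  have hD2 : (D : ℤ) % 2 = 1 := by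
    have := Nat.odd_iff.1 hD
    omega
  have hN' : v.re ^ 2 + v.imI ^ 2 + v.imJ ^ 2 + v.imK ^ 2 = (D : ℤ) := by
    rw [← hN, Quaternion.normSq_def']
  obtain ⟨k0, e0, hk0, he0, hf0⟩ := r7a_sq4 v.re
  obtain ⟨k1, e1, hk1, he1, hf1⟩ := r7a_sq4 v.imI
  obtain ⟨k2, e2, hk2, he2, hf2⟩ := r7a_sq4 v.imJ
  obtain ⟨k3, e3, hk3, he3, hf3⟩ := r7a_sq4 v.imK
  have hD4 : (D : ℤ) = 4 * (k0 + k1 + k2 + k3) + (e0 + (e1 + e2 + e3)) := by linarith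
  by_cases hs : e1 + e2 + e3 = 0
  · have h01 : e0 = 1 := by clear he0 he1 he2 he3 hk0 hk1 hk2 hk3 hN'; omega
    have g1 : e1 = 0 := by clear he0 he1 he2 he3 hk0 hk1 hk2 hk3 hN' hD4; omega
    have g2 : e2 = 0 := by clear he0 he1 he2 he3 hk0 hk1 hk2 hk3 hN' hD4; omega
    have g3 : e3 = 0 := by clear he0 he1 he2 he3 hk0 hk1 hk2 hk3 hN' hD4; omega
    have hD41 : (D : ℤ) % 4 = 1 := by
      rw [hD4, h01, hs]
      clear he0 he1 he2 he3 hk0 hk1 hk2 hk3 hN' hD4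
      omega
    obtain ⟨r, hr⟩ := zc1_caseA v D k0 (by rw [hk0, h01]) (he0.trans h01) hD41 (he1.trans g1)
      (he2.trans g2) (he3.trans g3)
    refine ⟨r, fun δ hδ => ?_⟩
    obtain ⟨c, hc, h⟩ := r3_lower_gen δ hδ
    refine ⟨c * (1 / 4 : ℝ) ^ (1 / 2 - δ), by positivity, fun k m N hm hmN hN1 => ?_⟩
    obtain ⟨n, hn4, hn, hy⟩ := hr k m N hm hmN hN1
    have hn1 : 1 ≤ n := by omega
    have h1 := h n hn1 (prim3 n hn)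
    have h2 : (S3 n).card ≤ (ZS v 1 D m N).card := by
      refine Finset.card_le_card_of_injOn (fun y => (2 * y.1, 2 * y.2.1, 2 * y.2.2))
        (fun y hy' => hy y hy') ?_
      rintro ⟨x, y, z⟩ - ⟨x', y', z'⟩ - h3
      simp only [Prod.mk.injEq] at h3
      obtain ⟨h4, h5, h6⟩ := h3
      have h4' : x = x' := by omega
      have h5' : y = y' := by omega
      have h6' : z = z' := by omega
      rw [h4', h5', h6']
    have h3 : c * (1 / 4 : ℝ) ^ (1 / 2 - δ) * (N : ℝ) ^ (1 / 2 - δ) =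
        c * (n : ℝ) ^ (1 / 2 - δ) := by
      rw [mul_assoc, ← Real.mul_rpow (by norm_num) (by positivity), hn4]
      congr 2
      push_cast
      ring
    rw [h3]
    exact h1.trans (by exact_mod_cast h2)
  · obtain ⟨r, hr⟩ := zc1_caseB v D hN k0 k1 k2 k3 e0 e1 e2 e3 he0 he1 he2 he3 hf0 hf1 hf2 hf3 hD2
      hD4 hs
    refine ⟨r, fun δ hδ => ?_⟩
    obtain ⟨c, hc, h⟩ := r3_lower_gen δ hδ
    refine ⟨c / 48, by positivity, fun k m n hm hmn hn1 => ?_⟩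
    obtain ⟨hp, hy⟩ := hr k m n hm hmn hn1
    have h1 := h n hn1 hp
    choose! f hf using hy
    have h2 := signed_perm_count f fun y hy => ⟨(hf y hy).1, (hf y hy).2⟩
    have h3 : ((S3 n).card : ℝ) ≤ 48 * ((ZS v 1 D m n).card : ℝ) := by exact_mod_cast h2
    linarith

end Pool.Agent.H978V
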