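import Pool.Agent.H978V.LDefs
import Pool.Agent.H978V.L10a
import Pool.Agent.H978V.L10b
import Pool.Agent.H978V.L10c

/-!
JOB L10m (owner helper978, MP_06cce2_nt).  `H978V/*.lean` (library, with `LDefs`) is on origin/main.

PROOF.  `r` from `zc1`, `zc2`, `zc4` according to `c`.  `P k m`: `m % 16 = r % 16`, `IsCoprime m (5 * D)`, and `¬ IsSquare ((c * D * 5^(4k) : ℤ) - m^2)`.  For `n` with `(n : ℤ) = ...`, `¬ IsSquare n` follows.
Existence of `m` in every interval `[x, x + M]`: write `D = 7^j · D'`... and `D' = 5^i D''` (or just use the modulus `16 · 5 · 7 · D₀` where `D₀` is the largest divisor of `D` prime to 35): by the Chinese remainder theorem there is a residue class modulo `M = 16·5·7·D₀` with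
`m ≡ r mod 16`, `m ≡ 1 mod 5`, `m ≡ 1 mod D₀`, and `m ≡ m₇ mod 7`, where `m₇ ≢ 0 mod 7` and `N₀ - m₇²` is a nonresidue mod 7 (`3, 5, 6`; `N₀ = c D 5^(4k)`): `N₀ ≡ 0: m² = 1`; `1: m² = 2`; `2: m² = 4`; `3: m² = 4`; `4: m² = 1`; `5: m² = 2`; `6: m² = 1` (squares mod 7: `1, 2, 4`).
COMPARE `m_choice` in `H978V/R7m.lean` (PROVED), which does almost the same.  The class depends on `k` (through `N₀ mod 7`) but `M` does not.
-/

set_option autoImplicit false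

open scoped Quaternion

namespace Pool.Agent.H978V

open Pool.Agent.Helper557.Rz




theorem L10m_crt (a b x y : ℤ) (h : IsCoprime a b) : ∃ z : ℤ, a ∣ z - x ∧ b ∣ z - y := by
  obtain ⟨u, w, huw⟩ := h
  refine ⟨x * (w * b) + y * (u * a), ⟨u * (y - x), ?_⟩, ⟨w * (x - y), ?_⟩⟩
  · linear_combination x * huw
  · linear_combination y * huw

theorem L10m_seven (n : ℤ) : ∃ m : ℤ, ¬ (7 : ℤ) ∣ m ∧ ∀ m' k : ℤ, (7 : ℤ) ∣ m' - m → n - m' ^ 2 ≠ k * k := by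
  have key : ∀ a : ZMod 7, ∃ b : ZMod 7, b ≠ 0 ∧ ∀ k : ZMod 7, a - b ^ 2 ≠ k * k := by decide
  obtain ⟨b, hb, hb2⟩ := key (n : ZMod 7)
  obtain ⟨m, hm⟩ := ZMod.intCast_surjective b
  refine ⟨m, ?_, ?_⟩
  · intro hd
    apply hb
    rw [← hm]
    exact (ZMod.intCast_zmod_eq_zero_iff_dvd m 7).2 hd
  · intro m' k hd he
    have h1 : ((m' - m : ℤ) : ZMod 7) = 0 := (ZMod.intCast_zmod_eq_zero_iff_dvd _ 7).2 hd
    have h2 : (m' : ZMod 7) = b := by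
      rw [← hm]
      push_cast at h1
      exact sub_eq_zero.1 h1
    apply hb2 (k : ZMod 7)
    have h3 := congrArg (fun z : ℤ => (z : ZMod 7)) he
    push_cast at h3
    rw [h2] at h3
    exact h3

/-- the choice of `m` in an interval -/
theorem L10m_choice (D : ℕ) (hD : Odd D) : ∃ M : ℝ, 0 < M ∧ ∀ (N₀ : ℤ) (r : ℤ) (x : ℝ), ∃ m : ℤ,
    (m % 16 = r % 16 ∧ IsCoprime m (5 * D : ℤ) ∧ ¬ IsSquare (N₀ - m ^ 2)) ∧
      x ≤ m ∧ (m : ℝ) ≤ x + M := by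
  have hD0 : 5 * D ≠ 0 := by
    have : D ≠ 0 := by
      rintro rfl
      exact absurd hD (by decide)
    omega
  obtain ⟨j, D', hD', hDD⟩ := Nat.exists_eq_pow_mul_and_not_dvd hD0 7 (by norm_num)
  have hD'0 : 0 < D' := by
    rcases Nat.eq_zero_or_pos D' with h | h
    · exact absurd (h ▸ dvd_zero 7) hD'
    · exact h
  have hodd : Odd D' := by
    have h5 : Odd (5 * D) := Odd.mul (by decide) hD
    rw [hDD] at h5
    exact (Nat.odd_mul.1 h5).2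
  have hc1 : IsCoprime (16 : ℤ) (7 : ℤ) := by
    refine ⟨-3, 7, by norm_num⟩
  have hc2 : IsCoprime (16 * 7 : ℤ) (D' : ℤ) := by
    apply IsCoprime.mul_left
    · have : Nat.Coprime (2 ^ 4) D' := Nat.Coprime.pow_left 4 (Nat.coprime_two_left.2 hodd)
      have h := Nat.isCoprime_iff_coprime.2 this
      exact_mod_cast h
    · have : Nat.Coprime 7 D' := (Nat.Prime.coprime_iff_not_dvd (by norm_num)).2 hD'
      have h := Nat.isCoprime_iff_coprime.2 this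
      exact_mod_cast h
  have hM : (0 : ℝ) < 112 * D' := by
    have : (0 : ℝ) < D' := by exact_mod_cast hD'0
    positivity
  refine ⟨112 * D', hM, ?_⟩
  intro N₀ r x
  obtain ⟨m₇, h7, h7'⟩ := L10m_seven N₀
  obtain ⟨m₁, ha, hb⟩ := L10m_crt 16 7 r m₇ hc1
  obtain ⟨m₂, hc, hd⟩ := L10m_crt (16 * 7) D' m₁ 1 hc2
  set t : ℤ := ⌈(x - m₂) / (112 * D')⌉ with ht
  have ht1 : x - m₂ ≤ (t : ℝ) * (112 * D') := by
    rw [← div_le_iff₀ hM]
    exact Int.le_ceil _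
  have ht2 : (t : ℝ) * (112 * D') < x - m₂ + (112 * D') := by
    have h1 : (t : ℝ) < (x - m₂) / (112 * D') + 1 := Int.ceil_lt_add_one _
    have h2 := mul_lt_mul_of_pos_right h1 hM
    rw [add_mul, div_mul_cancel₀ _ hM.ne', one_mul] at h2
    exact h2
  have e16 : (16 : ℤ) ∣ (m₂ + t * (112 * D')) - r := by
    have h1 : (16 : ℤ) ∣ m₂ - m₁ := (Dvd.intro _ rfl).trans hc
    have h2 : (16 : ℤ) ∣ t * (112 * D') := ⟨t * (7 * D'), by ring⟩
    have h3 := dvd_add (dvd_add h1 h2) ha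
    have h4 : m₂ - m₁ + t * (112 * D') + (m₁ - r) = (m₂ + t * (112 * D')) - r := by ring
    rwa [h4] at h3
  have e7 : (7 : ℤ) ∣ (m₂ + t * (112 * D')) - m₇ := by
    have h1 : (7 : ℤ) ∣ m₂ - m₁ := (Dvd.intro_left _ rfl).trans hc
    have h2 : (7 : ℤ) ∣ t * (112 * D') := ⟨t * (16 * D'), by ring⟩
    have h3 := dvd_add (dvd_add h1 h2) hb
    have h4 : m₂ - m₁ + t * (112 * D') + (m₁ - m₇) = (m₂ + t * (112 * D')) - m₇ := by ring
    rwa [h4] at h3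
  have eD : (D' : ℤ) ∣ (m₂ + t * (112 * D')) - 1 := by
    have h2 : (D' : ℤ) ∣ t * (112 * D') := ⟨t * 112, by ring⟩
    have h3 := dvd_add hd h2
    have h4 : m₂ - 1 + t * (112 * D') = (m₂ + t * (112 * D')) - 1 := by ring
    rwa [h4] at h3
  refine ⟨m₂ + t * (112 * D'), ⟨?_, ?_, ?_⟩, ?_, ?_⟩
  · exact Int.emod_emod_of_dvd _ (dvd_refl _) ▸ (Int.emod_emod_of_dvd r (dvd_refl (16 : ℤ)) ▸
      (Int.emod_emod_of_dvd (m₂ + t * (112 * D')) (dvd_refl (16 : ℤ)) ▸ by omega))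
  · have hcast : (5 * D : ℤ) = ((7 ^ j * D' : ℕ) : ℤ) := by
      rw [← hDD]; push_cast; ring
    rw [hcast]
    push_cast
    apply IsCoprime.mul_right
    · apply IsCoprime.pow_right
      have hp : Prime (7 : ℤ) := by
        have := Nat.prime_iff_prime_int.1 (show Nat.Prime 7 by norm_num)
        exact_mod_cast this
      refine ((Prime.coprime_iff_not_dvd hp).2 ?_).symm
      intro h
      apply h7
      have := dvd_sub h e7
      simpa using this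
    · obtain ⟨q, hq⟩ := eD
      exact ⟨1, -q, by linear_combination hq⟩
  · rintro ⟨k, hk⟩
    exact h7' _ k e7 hk
  · push_cast
    linarith
  · push_cast
    linarith

/-- TARGET -/
theorem zs_data (v : ℍ[ℤ]) (hv : PrimQ v) (c : ℤ) (D : ℕ) (hc : c = 1 ∨ c = 2 ∨ c = 4) (hD : Odd D)
    (hN : Quaternion.normSq v = c * D) : ∃ (P : ℕ → ℤ → Prop) (M : ℝ), 0 < M ∧
      (∀ (k : ℕ) (x : ℝ), ∃ m : ℤ, P k m ∧ x ≤ m ∧ (m : ℝ) ≤ x + M) ∧
      (∀ k m, P k m → IsCoprime m (5 * D : ℤ)) ∧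
      (∀ δ : ℝ, 0 < δ → ∃ c₀ : ℝ, 0 < c₀ ∧ ∀ (k : ℕ) (m : ℤ) (n : ℕ), P k m →
        (n : ℤ) = c * D * 5 ^ (4 * k) - m ^ 2 → 1 ≤ n →
          c₀ * (n : ℝ) ^ (1 / 2 - δ) ≤ (ZS v c D m n).card) := by
  obtain ⟨M, hM, hch⟩ := L10m_choice D hD
  have hr : ∃ r : ℤ, ∀ δ : ℝ, 0 < δ → ∃ c₀ : ℝ, 0 < c₀ ∧ ∀ (k : ℕ) (m : ℤ) (n : ℕ),
      m % 16 = r % 16 → (n : ℤ) = c * D * 5 ^ (4 * k) - m ^ 2 → 1 ≤ n → ¬ IsSquare n →
        c₀ * (n : ℝ) ^ (1 / 2 - δ) ≤ (ZS v c D m n).card := by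
    rcases hc with rfl | rfl | rfl
    · obtain ⟨r, hr⟩ := zc1 v D hD (by rw [hN, one_mul])
      refine ⟨r, fun δ hδ => ?_⟩
      obtain ⟨c₀, hc₀, h⟩ := hr δ hδ
      refine ⟨c₀, hc₀, fun k m n h1 h2 h3 _ => h k m n h1 (by rw [h2, one_mul]) h3⟩
    · obtain ⟨r, hr⟩ := zc2 v D hD hN
      exact ⟨r, hr⟩
    · obtain ⟨r, hr⟩ := zc4 v D hD hv hN
      refine ⟨r, fun δ hδ => ?_⟩
      obtain ⟨c₀, hc₀, h⟩ := hr δ hδ
      exact ⟨c₀, hc₀, fun k m n h1 h2 h3 _ => h k m n h1 h2 h3⟩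
  obtain ⟨r, hr⟩ := hr
  refine ⟨fun k m => m % 16 = r % 16 ∧ IsCoprime m (5 * D : ℤ) ∧
    ¬ IsSquare ((c * D * 5 ^ (4 * k) : ℤ) - m ^ 2), M, hM, ?_, ?_, ?_⟩
  · intro k x
    exact hch _ r x
  · intro k m h
    exact h.2.1
  · intro δ hδ
    obtain ⟨c₀, hc₀, h⟩ := hr δ hδ
    refine ⟨c₀, hc₀, fun k m n hP h2 h3 => h k m n hP.1 h2 h3 ?_⟩
    rintro ⟨y, hy⟩
    apply hP.2.2
    rw [← h2, hy]
    exact ⟨(y : ℤ), by push_cast; ring⟩

end Pool.Agent.H978V
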