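import Pool.Agent.H978V.LDefs
import Pool.Agent.H978V.C5

/-!
JOB L1 (owner helper978, MP_06cce2_nt).  `H978V/*.lean` (library, with `LDefs`) is on origin/main.

Every integral quaternion not divisible by 5 whose norm is divisible by `5^i` is divisible on the right by the product of a reduced word of length `i`.
PROOF.  Induction on `i`.  `c5_exists`: `x = y * al a`; `normSq y = normSq x / 5`, `y` is not divisible by 5.  By induction `y = t * qw v`, `v ∈ RW i`, so `x = t * qw (a :: v)` (`qw (a :: v) = qw v * al a` by definition).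
`a :: v ∈ RW (i+1)` unless `v = (a+3) :: v'`, but then `qw v * al a = qw v' * al (a+3) * al a = 5 • qw v'` and `5` divides `x`, a contradiction.
-/

set_option autoImplicit false

open scoped Quaternion

namespace Pool.Agent.H978V

open Pool.Agent.Helper557.Rz

theorem l1_al (a : Fin 6) : al (a + 3) * al a = (5 : ℤ) • (1 : ℍ[ℤ]) := by
  have h1 : (5 : ℤ) • (1 : ℍ[ℤ]) = (⟨5, 0, 0, 0⟩ : ℍ[ℤ]) := by
    ext
    · rw [Quaternion.re_smul, Quaternion.re_one]; rfl
    · rw [Quaternion.imI_smul, Quaternion.imI_one]; rfl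
    · rw [Quaternion.imJ_smul, Quaternion.imJ_one]; rfl
    · rw [Quaternion.imK_smul, Quaternion.imK_one]; rfl
  have h2 : al (a + 3) * al a = (⟨5, 0, 0, 0⟩ : ℍ[ℤ]) := by
    fin_cases a <;> refine c5_ext _ _ _ ?_ ?_ ?_ ?_ <;> simp [al]
  rw [h1, h2]

theorem l1_dvd_mul {x : ℍ[ℤ]} (h : DvdQ 5 x) (a : Fin 6) : DvdQ 5 (x * al a) := by
  obtain ⟨⟨r, hr⟩, ⟨i, hi⟩, ⟨j, hj⟩, ⟨k, hk⟩⟩ := h
  unfold DvdQ
  rw [Quaternion.re_mul, Quaternion.imI_mul, Quaternion.imJ_mul, Quaternion.imK_mul, hr, hi, hj, hk]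
  refine ⟨?_, ?_, ?_, ?_⟩
  · exact ⟨r * (al a).re - i * (al a).imI - j * (al a).imJ - k * (al a).imK, by ring⟩
  · exact ⟨r * (al a).imI + i * (al a).re + j * (al a).imK - k * (al a).imJ, by ring⟩
  · exact ⟨r * (al a).imJ - i * (al a).imK + j * (al a).re + k * (al a).imI, by ring⟩
  · exact ⟨r * (al a).imK + i * (al a).imJ - j * (al a).imI + k * (al a).re, by ring⟩

/-- TARGET -/
theorem suffix_word (i : ℕ) (x : ℍ[ℤ]) (h : (5 : ℤ) ^ i ∣ Quaternion.normSq x) (hp : ¬ DvdQ 5 x) :
    ∃ w ∈ RW i, ∃ t : ℍ[ℤ], x = t * qw w := by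
  induction i generalizing x with
  | zero => exact ⟨[], by simp [RW], x, by simp [qw]⟩
  | succ i ih =>
    obtain ⟨a, y, hy⟩ := c5_exists x ((dvd_pow_self 5 (Nat.succ_ne_zero i)).trans h)
    have hn : Quaternion.normSq x = Quaternion.normSq y * 5 := by
      rw [← hy, map_mul, c5_norm_al]
    have h1 : (5 : ℤ) ^ i ∣ Quaternion.normSq y := by
      rw [hn, pow_succ] at h
      exact Int.dvd_of_mul_dvd_mul_right (by norm_num) h
    have h2 : ¬ DvdQ 5 y := by
      intro h3
      apply hp
      rw [← hy]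
      exact l1_dvd_mul h3 a
    obtain ⟨w, hw, t, ht⟩ := ih y h1 h2
    refine ⟨a :: w, ?_, t, ?_⟩
    · simp only [RW, Finset.mem_image, Finset.mem_filter, Finset.mem_product, Finset.mem_univ,
        true_and]
      refine ⟨(a, w), ⟨hw, ?_⟩, rfl⟩
      intro h3
      simp only at h3
      cases w with
      | nil => simp at h3
      | cons b w' =>
        simp only [List.head?_cons, Option.some.injEq] at h3
        subst h3
        apply hp
        have h4 : x = (5 : ℤ) • (t * qw w') := by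
          rw [← hy, ht]
          change t * (qw w' * al (a + 3)) * al a = _
          rw [mul_assoc, mul_assoc, l1_al, mul_smul_comm, mul_smul_comm, mul_one]
        rw [h4]
        unfold DvdQ
        rw [Quaternion.re_smul, Quaternion.imI_smul, Quaternion.imJ_smul, Quaternion.imK_smul]
        simp only [smul_eq_mul]
        exact ⟨dvd_mul_right _ _, dvd_mul_right _ _, dvd_mul_right _ _, dvd_mul_right _ _⟩
    · rw [← hy, ht]
      change t * qw w * al a = t * (qw w * al a)
      rw [mul_assoc]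

end Pool.Agent.H978V
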