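import Pool.Agent.H978V.LDefs
import Pool.Agent.H978V.B8b
import Pool.Agent.H978V.C5

/-!
JOB L4 (owner helper978, MP_06cce2_nt).  `H978V/*.lean` (library, with `LDefs`) is on origin/main.

Pairs with the same suffix word.
PROOF.  Cauchy-Schwarz (`Finset.card_eq_sum_card_fiberwise`, `inner_mul_le_norm_mul_norm` or `Finset.sum_mul_sq_le_sq_mul_sq` / `sq_sum_le_card_mul_sum_sq`): `|Z|^2 ≤ |W(Z)| · #{(y,y') ∈ Z² : W y = W y'}`.
If `W y = W y' = w` then `mq m y = t * qw w`, `mq m y' = t' * qw w`, so `mq m y * star (mq m y') = t * qw w * star (qw w) * star t' = 5^i (t * star t')` and its real part `m² + dt y y'` is divisible by `5^i`; as `n - dt y y' = N₀ - (m² + dt y y')`, `5^i ∣ n - dt y y'`.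
Also `n - dt y y' ≤ 2n` (Cauchy-Schwarz, `dt y y = n`).  `n ≡ -m² ≢ 0 mod 5`, so `n` is prime to `5^i`: `pairs_cong δ` with `D = 5^i`, `X = 2n`.
-/

set_option autoImplicit false

open scoped Quaternion

namespace Pool.Agent.H978V

open Pool.Agent.Helper557.Rz

theorem l4_len (i : ℕ) : ∀ w ∈ RW i, w.length = i := by
  induction i with
  | zero =>
    intro w hw
    simp only [RW, Finset.mem_singleton] at hw
    rw [hw]
    rfl
  | succ l ih =>
    intro w hw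
    simp only [RW, Finset.mem_image, Finset.mem_filter, Finset.mem_product] at hw
    obtain ⟨p, ⟨⟨_, hp⟩, _⟩, rfl⟩ := hw
    rw [List.length_cons, ih _ hp]

theorem l4_re (m : ℤ) (y z : ℤ × ℤ × ℤ) : (mq m y * star (mq m z)).re = m ^ 2 + dt y z := by
  have h1 : (star (mq m z)).re = m := Quaternion.re_star _
  have h2 : (star (mq m z)).imI = -z.1 := Quaternion.imI_star _
  have h3 : (star (mq m z)).imJ = -z.2.1 := Quaternion.imJ_star _
  have h4 : (star (mq m z)).imK = -z.2.2 := Quaternion.imK_star _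
  rw [Quaternion.re_mul, h1, h2, h3, h4]
  simp only [mq, dt]
  ring

theorem l4_dvd {m : ℤ} {y z : ℤ × ℤ × ℤ} {w : List (Fin 6)} {i : ℕ} (hw : w.length = i)
    {t s : ℍ[ℤ]} (ht : mq m y = t * qw w) (hs : mq m z = s * qw w) :
    (5 : ℤ) ^ i ∣ m ^ 2 + dt y z := by
  have h1 : mq m y * star (mq m z) = t * (qw w * star (qw w)) * star s := by
    rw [ht, hs, star_mul]
    simp only [mul_assoc]
  rw [Quaternion.self_mul_star, (good_qw w).2, hw] at h1
  have h2 := congrArg (fun q : ℍ[ℤ] => q.re) h1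
  simp only [l4_re] at h2
  rw [h2]
  refine ⟨(t * star s).re, ?_⟩
  rw [Quaternion.mul_coe_eq_smul, smul_mul_assoc]
  exact Quaternion.re_smul _ _

theorem l4_cs {α β : Type} [DecidableEq α] [DecidableEq β] (Z : Finset α) (W : α → β) :
    (Z.card : ℝ) ^ 2 ≤ (Z.image W).card *
      (((Z ×ˢ Z).filter (fun p => W p.1 = W p.2)).card : ℝ) := by
  have h1 : Z.card = ∑ b ∈ Z.image W, (Z.filter (fun a => W a = b)).card :=
    Finset.card_eq_sum_card_fiberwise (fun x hx => Finset.mem_coe.2 (Finset.mem_image_of_mem _ hx))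
  have h2 : ((Z ×ˢ Z).filter (fun p => W p.1 = W p.2)).card =
      ∑ b ∈ Z.image W, (Z.filter (fun a => W a = b)).card ^ 2 := by
    rw [Finset.card_eq_sum_card_fiberwise (f := fun p : α × α => W p.1) (t := Z.image W)]
    · apply Finset.sum_congr rfl
      intro b _
      rw [pow_two, ← Finset.card_product]
      congr 1
      ext p
      simp only [Finset.mem_filter, Finset.mem_product]
      constructor
      · rintro ⟨⟨⟨h1, h2⟩, h3⟩, h4⟩
        exact ⟨⟨h1, h4⟩, ⟨h2, h3 ▸ h4⟩⟩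
      · rintro ⟨⟨h1, h4⟩, ⟨h2, h5⟩⟩
        exact ⟨⟨⟨h1, h2⟩, h4.trans h5.symm⟩, h4⟩
    · intro p hp
      have hp' := Finset.mem_coe.1 hp
      rw [Finset.mem_filter, Finset.mem_product] at hp'
      exact Finset.mem_coe.2 (Finset.mem_image_of_mem _ hp'.1.1)
  rw [h2]
  have h3 := sq_sum_le_card_mul_sum_sq (s := Z.image W)
    (f := fun b => ((Z.filter (fun a => W a = b)).card : ℝ))
  have h4 : (Z.card : ℝ) = ∑ b ∈ Z.image W, ((Z.filter (fun a => W a = b)).card : ℝ) := by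
    exact_mod_cast h1
  rw [h4]
  push_cast
  exact h3

/-- TARGET -/
theorem suffix_pairs (δ : ℝ) (hδ : 0 < δ) : ∃ K : ℝ, 0 < K ∧ ∀ (n : ℕ) (m : ℤ) (i : ℕ) (N₀ : ℤ),
    1 ≤ n → 1 ≤ i → (n : ℤ) + m ^ 2 = N₀ → (5 : ℤ) ^ i ∣ N₀ → ¬ (5 : ℤ) ∣ m →
    ∀ Z : Finset (ℤ × ℤ × ℤ), Z ⊆ S3 n → ∀ W : ℤ × ℤ × ℤ → List (Fin 6),
      (∀ y ∈ Z, W y ∈ RW i ∧ ∃ t : ℍ[ℤ], mq m y = t * qw (W y)) →
      (Z.card : ℝ) ^ 2 ≤ (Z.image W).card * (2 * Z.card + K * (n : ℝ) ^ δ * (2 * n / 5 ^ i)) := by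
  classical
  obtain ⟨K, hK, hP⟩ := pairs_cong δ hδ
  refine ⟨K, hK, ?_⟩
  intro n m i N₀ hn hi hN hdvd hm Z hZ W hW
  have hcop : Nat.Coprime n (5 ^ i) := by
    apply Nat.Coprime.pow_right
    rw [Nat.coprime_comm, Nat.Prime.coprime_iff_not_dvd (by norm_num)]
    intro h5
    apply hm
    have h5n : (5 : ℤ) ∣ n := by exact_mod_cast h5
    have h5N : (5 : ℤ) ∣ N₀ := (dvd_pow_self 5 (by omega)).trans hdvd
    have h6 : (5 : ℤ) ∣ m ^ 2 := by
      have h7 : m ^ 2 = N₀ - n := by linarith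
      rw [h7]
      exact dvd_sub h5N h5n
    exact (Int.prime_iff_natAbs_prime.2 (by norm_num)).dvd_of_dvd_pow h6
  have h1 := hP n (5 ^ i) hn (Nat.one_le_pow _ _ (by norm_num)) hcop Z hZ (2 * n) (by positivity)
  have hsub : (Z ×ˢ Z).filter (fun p => W p.1 = W p.2) ⊆ (Z ×ˢ Z).filter (fun p =>
      (((5 ^ i : ℕ) : ℤ) ∣ n - dt p.1 p.2 ∧ ((n - dt p.1 p.2 : ℤ) : ℝ) ≤ 2 * n)) := by
    intro p hp
    rw [Finset.mem_filter, Finset.mem_product] at hp ⊢
    obtain ⟨⟨hp1, hp2⟩, hp3⟩ := hp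
    refine ⟨⟨hp1, hp2⟩, ?_, ?_⟩
    · obtain ⟨hr1, t, ht⟩ := hW _ hp1
      obtain ⟨hr2, s, hs⟩ := hW _ hp2
      rw [← hp3] at hs
      have h2 := l4_dvd (l4_len i _ hr1) ht hs
      have h3 : (n : ℤ) - dt p.1 p.2 = N₀ - (m ^ 2 + dt p.1 p.2) := by linarith
      rw [h3]
      push_cast
      exact dvd_sub hdvd h2
    · have habs := B8b.dt_le (hZ hp1) (hZ hp2)
      rw [abs_le] at habs
      have : (n : ℤ) - dt p.1 p.2 ≤ 2 * n := by linarith [habs.1]
      exact_mod_cast this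
  refine (l4_cs Z W).trans ?_
  refine mul_le_mul_of_nonneg_left ?_ (Nat.cast_nonneg _)
  refine le_trans ?_ (h1.trans (le_of_eq ?_))
  · exact_mod_cast Finset.card_le_card hsub
  · push_cast
    ring

end Pool.Agent.H978V
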