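import Pool.Agent.H978V.LDefs

/-!
JOB L5a (owner helper978, MP_06cce2_nt).  `H978V/*.lean` (library, with `LDefs`) is on origin/main.

Powers of `ω = (-3+4i)/5` with exponents in `N ℕ` are dense in the unit circle, with a bound for the exponents.
-/

set_option autoImplicit false

open scoped Quaternion

namespace Pool.Agent.H978V

open Pool.Agent.Helper557.Rz

theorem circ_pow (k : ℕ) : ∃ a b : ℤ, (-3 + 4 * Complex.I : ℂ) ^ (k + 1) = a + b * Complex.I ∧
    (5 : ℤ) ∣ b - 2 * a ∧ ¬ (5 : ℤ) ∣ a := by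
  induction k with
  | zero => exact ⟨-3, 4, by push_cast; ring, by norm_num, by norm_num⟩
  | succ k ih =>
    obtain ⟨a, b, h1, h2, h3⟩ := ih
    refine ⟨-3 * a - 4 * b, 4 * a - 3 * b, ?_, ?_, ?_⟩
    · rw [pow_succ, h1]
      push_cast
      linear_combination (4 * (b : ℂ)) * Complex.I_sq
    · omega
    · omega

theorem circ_ne_one (k : ℕ) (hk : 1 ≤ k) : ((-3 + 4 * Complex.I) / 5 : ℂ) ^ k ≠ 1 := by
  obtain ⟨k, rfl⟩ : ∃ l, k = l + 1 := ⟨k - 1, by omega⟩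
  intro h
  obtain ⟨a, b, h1, h2, h3⟩ := circ_pow k
  rw [div_pow, h1, div_eq_one_iff_eq (by norm_num)] at h
  have h4 := congrArg Complex.im h
  have h5 : ((5 : ℂ) ^ (k + 1)).im = 0 := by
    have : (5 : ℂ) ^ (k + 1) = (((5 : ℝ) ^ (k + 1) : ℝ) : ℂ) := by push_cast; rfl
    rw [this, Complex.ofReal_im]
  rw [h5] at h4
  simp at h4
  rw [h4] at h2
  omega

theorem circ_norm : ‖((-3 + 4 * Complex.I) / 5 : ℂ)‖ = 1 := by
  have h : ‖(-3 + 4 * Complex.I : ℂ)‖ = 5 := by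
    rw [Complex.norm_def, Complex.normSq_apply]
    have : Real.sqrt ((5 : ℝ) ^ 2) = 5 := Real.sqrt_sq (by norm_num)
    simp only [Complex.add_re, Complex.neg_re, Complex.mul_re, Complex.I_re, Complex.I_im,
      Complex.add_im, Complex.neg_im, Complex.mul_im, Complex.re_ofNat, Complex.im_ofNat]
    norm_num
  rw [norm_div, h]
  simp

theorem circ_exp_sub (a b : ℝ) :
    ‖Complex.exp (a * Complex.I) - Complex.exp (b * Complex.I)‖ ≤ |a - b| := by
  have h1 : Complex.exp (a * Complex.I) - Complex.exp (b * Complex.I) =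
      Complex.exp (b * Complex.I) * (Complex.exp (Complex.I * ((a - b : ℝ) : ℂ)) - 1) := by
    rw [mul_sub, ← Complex.exp_add, mul_one]
    congr 2
    push_cast
    ring
  rw [h1, norm_mul, Complex.norm_exp_ofReal_mul_I, one_mul]
  exact Real.norm_exp_I_mul_ofReal_sub_one_le

/-- TARGET -/
theorem circ (N : ℕ) (hN : 1 ≤ N) (κ : ℝ) (hκ : 0 < κ) : ∃ A : ℕ, 1 ≤ A ∧ ∀ z : ℂ, ‖z‖ = 1 →
    ∃ r : ℕ, 1 ≤ r ∧ r ≤ A ∧ ‖((-3 + 4 * Complex.I) / 5 : ℂ) ^ (N * r) - z‖ < κ := by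
  have hpi := Real.pi_pos
  set w : ℂ := (-3 + 4 * Complex.I) / 5 with hw
  have hwn : ‖w‖ = 1 := circ_norm
  have hwe : w = Complex.exp (w.arg * Complex.I) := by
    have := Complex.norm_mul_exp_arg_mul_I w
    rw [hwn] at this
    simpa using this.symm
  obtain ⟨ξ, hξ⟩ : ∃ ξ : ℝ, ξ = N * w.arg / (2 * Real.pi) := ⟨_, rfl⟩
  have hpow : ∀ r : ℕ, w ^ (N * r) = Complex.exp (((2 * Real.pi * (r * ξ) : ℝ) : ℂ) * Complex.I) := by
    intro r
    rw [hwe, ← Complex.exp_nat_mul]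
    congr 1
    have : 2 * Real.pi * (r * ξ) = (N * r) * w.arg := by
      rw [hξ]; field_simp
    rw [this]
    push_cast
    ring
  -- periodicity
  have hper : ∀ (y : ℝ) (m : ℤ), Complex.exp (((2 * Real.pi * (y + m) : ℝ) : ℂ) * Complex.I) =
      Complex.exp (((2 * Real.pi * y : ℝ) : ℂ) * Complex.I) := by
    intro y m
    have : (((2 * Real.pi * (y + m) : ℝ) : ℂ) * Complex.I) =
        ((2 * Real.pi * y : ℝ) : ℂ) * Complex.I + m * (2 * Real.pi * Complex.I) := by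
      push_cast; ring
    rw [this, Complex.exp_add, Complex.exp_int_mul_two_pi_mul_I, mul_one]
  obtain ⟨n, hn⟩ := exists_nat_gt (2 * Real.pi / κ)
  have hn0 : (0 : ℝ) < n := lt_trans (by positivity) hn
  obtain ⟨s, hs0, -, hs⟩ := Real.exists_nat_abs_mul_sub_round_le ξ (n := n) (by exact_mod_cast hn0)
  obtain ⟨β, hβ⟩ : ∃ β : ℝ, β = s * ξ - round (s * ξ) := ⟨_, rfl⟩
  rw [← hβ] at hs
  have hβ0 : β ≠ 0 := by
    intro h0
    have h1 : w ^ (N * s) = 1 := by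
      rw [hpow]
      have h2 : (s : ℝ) * ξ = 0 + (round ((s : ℝ) * ξ) : ℤ) := by linarith
      rw [h2, hper]
      simp
    exact circ_ne_one (N * s) (Nat.mul_pos (by omega) hs0) h1
  have hβp : 0 < |β| := abs_pos.mpr hβ0
  have hβκ : 2 * Real.pi * |β| < κ := by
    have h1 : |β| < κ / (2 * Real.pi) := by
      refine lt_of_le_of_lt hs ?_
      rw [div_lt_div_iff₀ (by positivity) (by positivity)]
      rw [div_lt_iff₀ hκ] at hn
      nlinarith
    rw [lt_div_iff₀ (by positivity)] at h1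
    linarith
  have hstep : ∀ j : ℕ, w ^ (N * (s * j)) =
      Complex.exp (((2 * Real.pi * (j * β) : ℝ) : ℂ) * Complex.I) := by
    intro j
    rw [hpow]
    have h2 : (((s * j : ℕ) : ℝ) * ξ) = j * β + ((j * round ((s : ℝ) * ξ) : ℤ) : ℝ) := by
      rw [hβ]; push_cast; ring
    rw [h2, hper]
  obtain ⟨ε, hε, hεβ⟩ : ∃ ε : ℝ, (ε = 1 ∨ ε = -1) ∧ β = ε * |β| := by
    rcases lt_or_gt_of_ne hβ0 with h | h
    · exact ⟨-1, Or.inr rfl, by rw [abs_of_neg h]; ring⟩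
    · exact ⟨1, Or.inl rfl, by rw [abs_of_pos h]; ring⟩
  refine ⟨s * ⌈1 / |β|⌉₊, ?_, fun z hz => ?_⟩
  · exact Nat.mul_pos hs0 (Nat.ceil_pos.mpr (by positivity))
  · obtain ⟨φ, hφ⟩ : ∃ φ : ℝ, z = Complex.exp (((2 * Real.pi * φ : ℝ) : ℂ) * Complex.I) := by
      refine ⟨z.arg / (2 * Real.pi), ?_⟩
      have h1 := Complex.norm_mul_exp_arg_mul_I z
      rw [hz] at h1
      have h2 : 2 * Real.pi * (z.arg / (2 * Real.pi)) = z.arg := by field_simp
      rw [h2]
      simpa using h1.symm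
    -- representative in `(0, 1]`
    obtain ⟨τ, hτ0, hτ1, hτ⟩ : ∃ τ : ℝ, 0 < τ ∧ τ ≤ 1 ∧ z = Complex.exp (((2 * Real.pi * (ε * τ) : ℝ) : ℂ) * Complex.I) := by
      refine ⟨1 - Int.fract (-(ε * φ)), by linarith [Int.fract_lt_one (-(ε * φ))],
        by linarith [Int.fract_nonneg (-(ε * φ))], ?_⟩
      have h1 : Int.fract (-(ε * φ)) = -(ε * φ) - ⌊-(ε * φ)⌋ := rfl
      rw [hφ, h1]
      rcases hε with rfl | rfl
      · rw [← hper φ (1 + ⌊-(1 * φ)⌋)]
        congr 3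
        push_cast
        ring_nf
      · rw [← hper φ (-(1 + ⌊-(-1 * φ)⌋))]
        congr 3
        push_cast
        ring_nf
    refine ⟨s * ⌈τ / |β|⌉₊, ?_, ?_, ?_⟩
    · exact Nat.mul_pos hs0 (Nat.ceil_pos.mpr (by positivity))
    · apply Nat.mul_le_mul_left
      apply Nat.ceil_mono
      exact div_le_div_of_nonneg_right hτ1 hβp.le
    · rw [hstep, hτ]
      refine lt_of_le_of_lt (circ_exp_sub _ _) ?_
      have h1 : τ ≤ ⌈τ / |β|⌉₊ * |β| := by
        have := Nat.le_ceil (τ / |β|)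
        rwa [div_le_iff₀ hβp] at this
      have h2 : ⌈τ / |β|⌉₊ * |β| < τ + |β| := by
        have := Nat.ceil_lt_add_one (a := τ / |β|) (by positivity)
        have h3 : (⌈τ / |β|⌉₊ : ℝ) * |β| < (τ / |β| + 1) * |β| :=
          mul_lt_mul_of_pos_right this hβp
        have h4 : (τ / |β| + 1) * |β| = τ + |β| := by field_simp
        linarith
      have h5 : 2 * Real.pi * (⌈τ / |β|⌉₊ * β) - 2 * Real.pi * (ε * τ) =
          2 * Real.pi * (ε * (⌈τ / |β|⌉₊ * |β| - τ)) := by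
        rw [hεβ, abs_mul, abs_abs]
        rcases hε with rfl | rfl
        · simp; ring
        · simp; ring
      rw [h5, abs_mul, abs_mul, abs_mul, abs_of_pos hpi, abs_two,
        abs_of_nonneg (by linarith : (0 : ℝ) ≤ ⌈τ / |β|⌉₊ * |β| - τ)]
      have h6 : |ε| = 1 := by rcases hε with rfl | rfl <;> simp
      rw [h6, one_mul]
      nlinarith

end Pool.Agent.H978V
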