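import Pool.Agent.H978V.LDefs
import Pool.Agent.H978V.C5
import Pool.Agent.H978V.L2
import Pool.Agent.H978V.L5a

/-!
JOB L5b (owner helper978, MP_06cce2_nt).  `H978V/*.lean` (library, with `LDefs`) is on origin/main.

Moving a point of the two-sphere near any other with three powers of gates.
PROOF.  Let `ω = (-3+4i)/5` (`= (1+2i)²/5`).  For a pure `p = (p₁,p₂,p₃)`: conjugation by `al 0 = 1+2i` fixes `p₁` and multiplies the complex number `p₂ + i p₃` by `ω`; `al 3 = 1-2i` multiplies it by `conj ω`; `al 1 = 1+2j` fixes `p₂` and multiplies `p₃ + i p₁` by `ω`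
(check: `j (x k + y i) = x i - y k`).  So `rt (replicate M 0) p` has `p₂ + i p₃` multiplied by `ω^M` (induction on `M`; `rt_append`), etc.
`A` from `circ N (κ/3)` (with `κ` replaced by `min κ 1` if convenient).  Given `s`, `p`, `q`: put `ρ = √(p₂²+p₃²)`, `ρ' = √(q₂²+q₃²)`.  (1) choose `a` such that `(p₂ + i p₃)` goes to within `κ/3` of `i ρ` (unit factor `z = iρ/(p₂+ip₃)`, anything if `ρ = 0`; for `s = 3` apply `circ` to the conjugate);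
(2) choose `b` such that the factor `ω^(Nb)` is within `κ/3` of `z = (ρ' + i q₁)/(ρ + i p₁)` (both of modulus 1): the point `(p₁, 0, ρ)` goes near `(q₁, 0, ρ')`; (3) choose `c` such that `ω^(Nc) (i ρ')` is within `κ/3` of `q₂ + i q₃`.
The errors add since rotations are isometries (`rt_sub`, `rt_norm`).  Take care that the strict inequalities add up (use `κ/4` if needed).
-/

set_option autoImplicit false

open scoped Quaternion

namespace Pool.Agent.H978V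

open Pool.Agent.Helper557.Rz







private lemma bl_qw (a : Fin 6) : qw [a] = al a := by
  change (1 : ℍ[ℤ]) * al a = al a
  exact one_mul _

private lemma bl_c0 : (cz (qw [0])).re = 1 ∧ (cz (qw [0])).imI = 2 ∧ (cz (qw [0])).imJ = 0 ∧
    (cz (qw [0])).imK = 0 := by
  rw [bl_qw]
  refine ⟨?_, ?_, ?_, ?_⟩ <;> simp [cz, al]

private lemma bl_c3 : (cz (qw [3])).re = 1 ∧ (cz (qw [3])).imI = -2 ∧ (cz (qw [3])).imJ = 0 ∧
    (cz (qw [3])).imK = 0 := by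
  rw [bl_qw]
  refine ⟨?_, ?_, ?_, ?_⟩ <;> simp [cz, al]

private lemma bl_c1 : (cz (qw [1])).re = 1 ∧ (cz (qw [1])).imI = 0 ∧ (cz (qw [1])).imJ = 2 ∧
    (cz (qw [1])).imK = 0 := by
  rw [bl_qw]
  refine ⟨?_, ?_, ?_, ?_⟩ <;> simp [cz, al]

private lemma bl_step0 (p : ℍ[ℝ]) (hp : p.re = 0) :
    rt [0] p = ⟨0, p.imI, (-3 * p.imJ - 4 * p.imK) / 5, (4 * p.imJ - 3 * p.imK) / 5⟩ := by
  unfold rt
  obtain ⟨h0, h1, h2, h3⟩ := bl_c0
  ext <;> simp [hp, h0, h1, h2, h3] <;> ring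

private lemma bl_step3 (p : ℍ[ℝ]) (hp : p.re = 0) :
    rt [3] p = ⟨0, p.imI, (-3 * p.imJ + 4 * p.imK) / 5, (-4 * p.imJ - 3 * p.imK) / 5⟩ := by
  unfold rt
  obtain ⟨h0, h1, h2, h3⟩ := bl_c3
  ext <;> simp [hp, h0, h1, h2, h3] <;> ring

private lemma bl_step1 (p : ℍ[ℝ]) (hp : p.re = 0) :
    rt [1] p = ⟨0, (4 * p.imK - 3 * p.imI) / 5, p.imJ, (-3 * p.imK - 4 * p.imI) / 5⟩ := by
  unfold rt
  obtain ⟨h0, h1, h2, h3⟩ := bl_c1
  ext <;> simp [hp, h0, h1, h2, h3] <;> ring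

/-- the complex number of the second and third imaginary coordinates -/
private noncomputable def blc (p : ℍ[ℝ]) : ℂ := ⟨p.imJ, p.imK⟩

/-- the complex number of the third and first imaginary coordinates -/
private noncomputable def bld (p : ℍ[ℝ]) : ℂ := ⟨p.imK, p.imI⟩

private noncomputable def blw : ℂ := (-3 + 4 * Complex.I) / 5

private lemma bl_w_re : blw.re = -3 / 5 := by
  have : blw = ((-3 / 5 : ℝ) : ℂ) + ((4 / 5 : ℝ) : ℂ) * Complex.I := by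
    unfold blw; push_cast; ring
  rw [this]; simp

private lemma bl_w_im : blw.im = 4 / 5 := by
  have : blw = ((-3 / 5 : ℝ) : ℂ) + ((4 / 5 : ℝ) : ℂ) * Complex.I := by
    unfold blw; push_cast; ring
  rw [this]; simp

private lemma bl_nil (p : ℍ[ℝ]) : rt [] p = p := by
  unfold rt
  simp [qw, cz_one]

private lemma bl_rep0 (p : ℍ[ℝ]) (hp : p.re = 0) (M : ℕ) :
    (rt (List.replicate M 0) p).re = 0 ∧ (rt (List.replicate M 0) p).imI = p.imI ∧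
      blc (rt (List.replicate M 0) p) = blw ^ M * blc p := by
  induction M with
  | zero => simp [bl_nil, hp]
  | succ M ih =>
    obtain ⟨h1, h2, h3⟩ := ih
    rw [List.replicate_succ', rt_append, bl_step0 _ h1]
    refine ⟨rfl, h2, ?_⟩
    rw [pow_succ', mul_assoc, ← h3]
    apply Complex.ext
    · simp only [blc, Complex.mul_re, bl_w_re, bl_w_im]; ring
    · simp only [blc, Complex.mul_im, bl_w_re, bl_w_im]; ring

private lemma bl_rep3 (p : ℍ[ℝ]) (hp : p.re = 0) (M : ℕ) :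
    (rt (List.replicate M 3) p).re = 0 ∧ (rt (List.replicate M 3) p).imI = p.imI ∧
      blc (rt (List.replicate M 3) p) = (starRingEnd ℂ blw) ^ M * blc p := by
  induction M with
  | zero => simp [bl_nil, hp]
  | succ M ih =>
    obtain ⟨h1, h2, h3⟩ := ih
    rw [List.replicate_succ', rt_append, bl_step3 _ h1]
    refine ⟨rfl, h2, ?_⟩
    rw [pow_succ', mul_assoc, ← h3]
    apply Complex.ext
    · simp only [blc, Complex.mul_re, Complex.conj_re, Complex.conj_im, bl_w_re, bl_w_im]; ring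
    · simp only [blc, Complex.mul_im, Complex.conj_re, Complex.conj_im, bl_w_re, bl_w_im]; ring

private lemma bl_rep1 (p : ℍ[ℝ]) (hp : p.re = 0) (M : ℕ) :
    (rt (List.replicate M 1) p).re = 0 ∧ (rt (List.replicate M 1) p).imJ = p.imJ ∧
      bld (rt (List.replicate M 1) p) = blw ^ M * bld p := by
  induction M with
  | zero => simp [bl_nil, hp]
  | succ M ih =>
    obtain ⟨h1, h2, h3⟩ := ih
    rw [List.replicate_succ', rt_append, bl_step1 _ h1]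
    refine ⟨rfl, h2, ?_⟩
    rw [pow_succ', mul_assoc, ← h3]
    apply Complex.ext
    · simp only [bld, Complex.mul_re, bl_w_re, bl_w_im]; ring
    · simp only [bld, Complex.mul_im, bl_w_re, bl_w_im]; ring

private lemma bl_norm_sq (x : ℍ[ℝ]) : ‖x‖ ^ 2 = x.re ^ 2 + x.imI ^ 2 + x.imJ ^ 2 + x.imK ^ 2 := by
  rw [pow_two ‖x‖, ← Quaternion.normSq_eq_norm_mul_self, Quaternion.normSq_def']

private lemma bl_norm_c (x y : ℍ[ℝ]) (h1 : x.re = y.re) (h2 : x.imI = y.imI) :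
    ‖x - y‖ = ‖blc x - blc y‖ := by
  have e : ‖x - y‖ ^ 2 = ‖blc x - blc y‖ ^ 2 := by
    rw [bl_norm_sq, Complex.sq_norm, Complex.normSq_apply]
    simp [blc, h1, h2]
    ring
  exact (sq_eq_sq₀ (norm_nonneg _) (norm_nonneg _)).mp e

private lemma bl_norm_d (x y : ℍ[ℝ]) (h1 : x.re = y.re) (h2 : x.imJ = y.imJ) :
    ‖x - y‖ = ‖bld x - bld y‖ := by
  have e : ‖x - y‖ ^ 2 = ‖bld x - bld y‖ ^ 2 := by
    rw [bl_norm_sq, Complex.sq_norm, Complex.normSq_apply]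
    simp [bld, h1, h2]
    ring
  exact (sq_eq_sq₀ (norm_nonneg _) (norm_nonneg _)).mp e

private lemma bl_turn {N A : ℕ} {κ : ℝ} (hκ : 0 < κ) (hA : ∀ z : ℂ, ‖z‖ = 1 →
    ∃ r : ℕ, 1 ≤ r ∧ r ≤ A ∧ ‖((-3 + 4 * Complex.I) / 5 : ℂ) ^ (N * r) - z‖ < κ)
    (u v : ℂ) (huv : ‖u‖ = ‖v‖) (hu : ‖u‖ ≤ 1) :
    ∃ r : ℕ, 1 ≤ r ∧ r ≤ A ∧ ‖blw ^ (N * r) * u - v‖ < κ := by
  by_cases h0 : u = 0
  · have hv : v = 0 := by
      rw [← norm_eq_zero, ← huv, h0, norm_zero]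
    obtain ⟨r, h1, h2, _⟩ := hA 1 norm_one
    refine ⟨r, h1, h2, ?_⟩
    rw [h0, hv, mul_zero, sub_zero, norm_zero]
    exact hκ
  · have hn : ‖u‖ ≠ 0 := norm_ne_zero_iff.mpr h0
    obtain ⟨r, h1, h2, h3⟩ := hA (v / u) (by rw [norm_div, ← huv, div_self hn])
    refine ⟨r, h1, h2, ?_⟩
    have e : blw ^ (N * r) * u - v = (blw ^ (N * r) - v / u) * u := by
      rw [sub_mul, div_mul_cancel₀ _ h0]
    rw [e, norm_mul]
    calc ‖blw ^ (N * r) - v / u‖ * ‖u‖ ≤ ‖blw ^ (N * r) - v / u‖ * 1 := by gcongr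
      _ = ‖blw ^ (N * r) - v / u‖ := mul_one _
      _ < κ := h3

private lemma bl_turn' {N A : ℕ} {κ : ℝ} (hκ : 0 < κ) (hA : ∀ z : ℂ, ‖z‖ = 1 →
    ∃ r : ℕ, 1 ≤ r ∧ r ≤ A ∧ ‖((-3 + 4 * Complex.I) / 5 : ℂ) ^ (N * r) - z‖ < κ)
    (u v : ℂ) (huv : ‖u‖ = ‖v‖) (hu : ‖u‖ ≤ 1) :
    ∃ r : ℕ, 1 ≤ r ∧ r ≤ A ∧ ‖(starRingEnd ℂ blw) ^ (N * r) * u - v‖ < κ := by
  obtain ⟨r, h1, h2, h3⟩ := bl_turn hκ hA (starRingEnd ℂ u) (starRingEnd ℂ v)
    (by rw [RCLike.norm_conj, RCLike.norm_conj, huv]) (by rwa [RCLike.norm_conj])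
  refine ⟨r, h1, h2, ?_⟩
  have e : (starRingEnd ℂ blw) ^ (N * r) * u - v =
      starRingEnd ℂ (blw ^ (N * r) * starRingEnd ℂ u - starRingEnd ℂ v) := by
    simp
  rw [e, RCLike.norm_conj]
  exact h3

/-- TARGET -/
theorem block (N : ℕ) (hN : 1 ≤ N) (κ : ℝ) (hκ : 0 < κ) : ∃ A : ℕ, 1 ≤ A ∧ ∀ s : Fin 6,
    s = 0 ∨ s = 3 → ∀ p q : ℍ[ℝ], UP p → UP q → ∃ a b c : ℕ, (1 ≤ a ∧ a ≤ A) ∧ (1 ≤ b ∧ b ≤ A) ∧
      (1 ≤ c ∧ c ≤ A) ∧ ‖rt (List.replicate (N * a) s ++ List.replicate (N * b) 1 ++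
        List.replicate (N * c) 0) p - q‖ < κ := by
  obtain ⟨A, hA1, hA⟩ := circ N hN (κ / 3) (by linarith)
  have hκ3 : 0 < κ / 3 := by linarith
  refine ⟨A, hA1, fun s hs p q hp hq => ?_⟩
  obtain ⟨hp0, hpn⟩ := hp
  obtain ⟨hq0, hqn⟩ := hq
  have hps : p.imI ^ 2 + p.imJ ^ 2 + p.imK ^ 2 = 1 := by
    have := bl_norm_sq p
    rw [hpn, hp0] at this; linarith
  have hqs : q.imI ^ 2 + q.imJ ^ 2 + q.imK ^ 2 = 1 := by
    have := bl_norm_sq q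
    rw [hqn, hq0] at this; linarith
  have hcn : ∀ x : ℍ[ℝ], ‖blc x‖ ^ 2 = x.imJ ^ 2 + x.imK ^ 2 := by
    intro x
    rw [Complex.sq_norm, Complex.normSq_apply]; simp [blc]; ring
  have hdn : ∀ x : ℍ[ℝ], ‖bld x‖ ^ 2 = x.imK ^ 2 + x.imI ^ 2 := by
    intro x
    rw [Complex.sq_norm, Complex.normSq_apply]; simp [bld]; ring
  set ρ := ‖blc p‖ with hρ
  set ρ' := ‖blc q‖ with hρ'
  have hρ2 : ρ ^ 2 = p.imJ ^ 2 + p.imK ^ 2 := hcn p
  have hρ'2 : ρ' ^ 2 = q.imJ ^ 2 + q.imK ^ 2 := hcn q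
  have hρ0 : 0 ≤ ρ := norm_nonneg _
  have hρ'0 : 0 ≤ ρ' := norm_nonneg _
  have hρ1 : ρ ≤ 1 := by nlinarith [sq_nonneg p.imI]
  have hρ'1 : ρ' ≤ 1 := by nlinarith [sq_nonneg q.imI]
  let P1 : ℍ[ℝ] := ⟨0, p.imI, 0, ρ⟩
  let P2 : ℍ[ℝ] := ⟨0, q.imI, 0, ρ'⟩
  have hcP1 : ‖blc p‖ = ‖blc P1‖ := by
    have e : ‖blc P1‖ ^ 2 = ρ ^ 2 := by rw [hcn]; simp [P1]
    exact ((sq_eq_sq₀ (norm_nonneg _) hρ0).mp e).symm
  have hcP2 : ‖blc P2‖ = ‖blc q‖ := by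
    have e : ‖blc P2‖ ^ 2 = ρ' ^ 2 := by rw [hcn]; simp [P2]
    exact (sq_eq_sq₀ (norm_nonneg _) hρ'0).mp e
  have hdP1 : ‖bld P1‖ = 1 := by
    have e : ‖bld P1‖ ^ 2 = 1 ^ 2 := by
      rw [hdn]
      change ρ ^ 2 + p.imI ^ 2 = 1 ^ 2
      linarith
    exact (sq_eq_sq₀ (norm_nonneg _) zero_le_one).mp e
  have hdP2 : ‖bld P2‖ = 1 := by
    have e : ‖bld P2‖ ^ 2 = 1 ^ 2 := by
      rw [hdn]
      change ρ' ^ 2 + q.imI ^ 2 = 1 ^ 2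
      linarith
    exact (sq_eq_sq₀ (norm_nonneg _) zero_le_one).mp e
  have h1 : ∃ a : ℕ, 1 ≤ a ∧ a ≤ A ∧ ‖rt (List.replicate (N * a) s) p - P1‖ < κ / 3 := by
    rcases hs with rfl | rfl
    · obtain ⟨a, ha1, ha2, ha3⟩ := bl_turn hκ3 hA (blc p) (blc P1) hcP1 hρ1
      refine ⟨a, ha1, ha2, ?_⟩
      obtain ⟨e1, e2, e3⟩ := bl_rep0 p hp0 (N * a)
      rw [bl_norm_c _ P1 e1 e2, e3]
      exact ha3
    · obtain ⟨a, ha1, ha2, ha3⟩ := bl_turn' hκ3 hA (blc p) (blc P1) hcP1 hρ1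
      refine ⟨a, ha1, ha2, ?_⟩
      obtain ⟨e1, e2, e3⟩ := bl_rep3 p hp0 (N * a)
      rw [bl_norm_c _ P1 e1 e2, e3]
      exact ha3
  obtain ⟨a, ha1, ha2, ha3⟩ := h1
  obtain ⟨b, hb1, hb2, hb3⟩ := bl_turn hκ3 hA (bld P1) (bld P2) (by rw [hdP1, hdP2]) hdP1.le
  obtain ⟨c, hc1, hc2, hc3⟩ := bl_turn hκ3 hA (blc P2) (blc q) hcP2 (by rw [hcP2]; exact hρ'1)
  refine ⟨a, b, c, ⟨ha1, ha2⟩, ⟨hb1, hb2⟩, ⟨hc1, hc2⟩, ?_⟩
  have hb4 : ‖rt (List.replicate (N * b) 1) P1 - P2‖ < κ / 3 := by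
    obtain ⟨e1, e2, e3⟩ := bl_rep1 P1 rfl (N * b)
    rw [bl_norm_d _ P2 e1 e2, e3]
    exact hb3
  have hc4 : ‖rt (List.replicate (N * c) 0) P2 - q‖ < κ / 3 := by
    obtain ⟨e1, e2, e3⟩ := bl_rep0 P2 rfl (N * c)
    rw [bl_norm_c _ q (by rw [e1, hq0]) e2, e3]
    exact hc3
  rw [rt_append, rt_append]
  set w1 := List.replicate (N * a) s
  set w2 := List.replicate (N * b) (1 : Fin 6)
  set w3 := List.replicate (N * c) (0 : Fin 6)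
  have t1 : ‖rt w3 (rt w2 (rt w1 p)) - rt w3 (rt w2 P1)‖ < κ / 3 := by
    rw [← rt_sub, rt_norm, ← rt_sub, rt_norm]
    exact ha3
  have t2 : ‖rt w3 (rt w2 P1) - rt w3 P2‖ < κ / 3 := by
    rw [← rt_sub, rt_norm]
    exact hb4
  calc ‖rt w3 (rt w2 (rt w1 p)) - q‖
      = ‖(rt w3 (rt w2 (rt w1 p)) - rt w3 (rt w2 P1)) + (rt w3 (rt w2 P1) - rt w3 P2) +
          (rt w3 P2 - q)‖ := by congr 1; abel
    _ ≤ ‖rt w3 (rt w2 (rt w1 p)) - rt w3 (rt w2 P1)‖ + ‖rt w3 (rt w2 P1) - rt w3 P2‖ +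
          ‖rt w3 P2 - q‖ := norm_add₃_le
    _ < κ := by linarith

end Pool.Agent.H978V
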