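import Pool.Agent.H978V.LDefs
import Pool.Agent.H978V.C5

set_option autoImplicit false

open scoped Quaternion

namespace Pool.Agent.H978V

open Pool.Agent.Helper557.Rz

theorem ac_mem_succ {l : ℕ} {x : List (Fin 6)} :
    x ∈ RW (l + 1) ↔ ∃ a v, v ∈ RW l ∧ v.head? ≠ some (a + 3) ∧ x = a :: v := by
  simp only [RW, Finset.mem_image, Finset.mem_filter, Finset.mem_product, Finset.mem_univ,
    true_and, Prod.exists]
  constructor
  · rintro ⟨a, v, ⟨h1, h2⟩, rfl⟩
    exact ⟨a, v, h1, h2, rfl⟩
  · rintro ⟨a, v, h1, h2, rfl⟩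
    exact ⟨a, v, ⟨h1, h2⟩, rfl⟩

theorem ac_zero {x : List (Fin 6)} : x ∈ RW 0 ↔ x = [] := by simp [RW]

theorem ac_len {l : ℕ} {x : List (Fin 6)} (h : x ∈ RW l) : x.length = l := by
  induction l generalizing x with
  | zero => rw [ac_zero.1 h]; rfl
  | succ l ih =>
    obtain ⟨a, v, hv, _, rfl⟩ := ac_mem_succ.1 h
    simp [ih hv]

theorem ac_snoc {l : ℕ} {x : List (Fin 6)} (h : x ∈ RW (l + 1)) :
    ∃ v a, v ∈ RW l ∧ x = v ++ [a] ∧ ∀ b, v.getLast? = some b → a ≠ b + 3 := by
  induction l generalizing x with
  | zero =>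
    obtain ⟨a, v, hv, _, rfl⟩ := ac_mem_succ.1 h
    rw [ac_zero] at hv
    subst hv
    exact ⟨[], a, by simp [RW], rfl, by simp⟩
  | succ l ih =>
    obtain ⟨b, y, hy, hb, rfl⟩ := ac_mem_succ.1 h
    obtain ⟨v, a, hv, rfl, hlast⟩ := ih hy
    cases v with
    | nil =>
      refine ⟨[b], a, ?_, rfl, ?_⟩
      · refine ac_mem_succ.2 ⟨b, [], hv, by simp, rfl⟩
      · intro c hc
        simp only [List.getLast?_singleton, Option.some.injEq] at hc
        subst hc
        intro hab
        apply hb
        simp [hab]
    | cons c v =>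
      refine ⟨b :: c :: v, a, ?_, rfl, ?_⟩
      · refine ac_mem_succ.2 ⟨b, c :: v, hv, ?_, rfl⟩
        simpa using hb
      · intro d hd
        apply hlast d
        simpa using hd

theorem ac_take {i j : ℕ} {x : List (Fin 6)} (h : x ∈ RW (i + j)) : x.take i ∈ RW i := by
  induction j generalizing x with
  | zero =>
    rw [Nat.add_zero] at h
    rw [List.take_of_length_le (by rw [ac_len h])]
    exact h
  | succ j ih =>
    obtain ⟨v, a, hv, rfl, _⟩ := ac_snoc (l := i + j) h
    have := ih hv
    rwa [List.take_append_of_le_length (by rw [ac_len hv]; omega)]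

open Classical in
/-- the reduced extensions of a word -/
noncomputable def acExt (w : List (Fin 6)) (J : ℕ) : Finset (List (Fin 6)) :=
  (RW (w.length + J)).filter (fun x => x.take w.length = w)

theorem ac_ext_card (w : List (Fin 6)) (hw : w ≠ []) (J : ℕ) : (acExt w J).card ≤ 5 ^ J := by
  classical
  induction J with
  | zero =>
    have : acExt w 0 ⊆ {w} := by
      intro x hx
      simp only [acExt, Finset.mem_filter, Nat.add_zero] at hx
      obtain ⟨h1, h2⟩ := hx
      rw [List.take_of_length_le (by rw [ac_len h1])] at h2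
      simp [h2]
    simpa using Finset.card_le_card this
  | succ J ih =>
    let f : List (Fin 6) → Finset (List (Fin 6)) := fun v =>
      ((Finset.univ : Finset (Fin 6)).filter
        (fun a => ∀ b, v.getLast? = some b → a ≠ b + 3)).image (fun a => v ++ [a])
    have hsub : acExt w (J + 1) ⊆ (acExt w J).biUnion f := by
      intro x hx
      simp only [acExt, Finset.mem_filter] at hx
      obtain ⟨h1, h2⟩ := hx
      obtain ⟨v, a, hv, rfl, hlast⟩ := ac_snoc (l := w.length + J) h1
      rw [List.take_append_of_le_length (by rw [ac_len hv]; omega)] at h2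
      simp only [Finset.mem_biUnion]
      refine ⟨v, ?_, ?_⟩
      · simp only [acExt, Finset.mem_filter]
        exact ⟨hv, h2⟩
      · simp only [f, Finset.mem_image, Finset.mem_filter, Finset.mem_univ, true_and]
        exact ⟨a, hlast, rfl⟩
    have hf : ∀ v ∈ acExt w J, (f v).card ≤ 5 := by
      intro v hv
      simp only [acExt, Finset.mem_filter] at hv
      have hne : v ≠ [] := by
        rintro rfl
        apply hw
        simpa using hv.2.symm
      obtain ⟨b, hb⟩ : ∃ b, v.getLast? = some b := by
        cases h : v.getLast? with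
        | none => exact absurd (List.getLast?_eq_none_iff.1 h) hne
        | some b => exact ⟨b, rfl⟩
      refine le_trans Finset.card_image_le ?_
      have : ((Finset.univ : Finset (Fin 6)).filter
          (fun a => ∀ b, v.getLast? = some b → a ≠ b + 3)) ⊆ Finset.univ.erase (b + 3) := by
        intro a ha
        simp only [Finset.mem_filter, Finset.mem_univ, true_and] at ha
        simp [ha b hb]
      refine le_trans (Finset.card_le_card this) ?_
      rw [Finset.card_erase_of_mem (Finset.mem_univ _)]
      simp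
    calc (acExt w (J + 1)).card ≤ ((acExt w J).biUnion f).card := Finset.card_le_card hsub
      _ ≤ (acExt w J).card * 5 := Finset.card_biUnion_le_card_mul _ _ _ hf
      _ ≤ 5 ^ J * 5 := Nat.mul_le_mul_right _ ih
      _ = 5 ^ (J + 1) := by ring

theorem ac_card_le (l : ℕ) : (RW (l + 1)).card ≤ 6 * 5 ^ l := by
  classical
  have hsub : RW (l + 1) ⊆ (Finset.univ : Finset (Fin 6)).biUnion (fun a => acExt [a] l) := by
    intro x hx
    obtain ⟨a, v, hv, hh, rfl⟩ := ac_mem_succ.1 hx
    simp only [Finset.mem_biUnion, Finset.mem_univ, true_and]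
    refine ⟨a, ?_⟩
    simp only [acExt, Finset.mem_filter, List.length_singleton]
    refine ⟨by rw [Nat.add_comm]; exact hx, by simp⟩
  calc (RW (l + 1)).card ≤ _ := Finset.card_le_card hsub
    _ ≤ (Finset.univ : Finset (Fin 6)).card * 5 ^ l :=
        Finset.card_biUnion_le_card_mul _ _ _ fun a _ => ac_ext_card [a] (by simp) l
    _ = 6 * 5 ^ l := by simp

/-- TARGET -/
theorem avoid_count (J : ℕ) (hJ : 1 ≤ J) (H : List (Fin 6) → Prop)
    (hH : ∀ i : ℕ, ∀ w ∈ RW i, ∃ u : List (Fin 6), w ++ u ∈ RW (i + J) ∧ ∃ j ≤ J, H (w ++ u.take j))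
    (t : ℕ) : Set.ncard {w : List (Fin 6) | w ∈ RW (J * t) ∧ ∀ j : ℕ, ¬ H (w.take j)} ≤
      2 * (5 ^ J - 1) ^ t := by
  classical
  let A : ℕ → Finset (List (Fin 6)) := fun t =>
    (RW (J * t)).filter (fun w => ∀ j : ℕ, ¬ H (w.take j))
  have hset : ∀ t, {w : List (Fin 6) | w ∈ RW (J * t) ∧ ∀ j : ℕ, ¬ H (w.take j)} = (A t : Set _) := by
    intro t
    ext w
    simp [A]
  rw [hset, Set.ncard_coe_finset]
  choose u hu1 hu2 using hH
  -- the extension of a word with a hit
  have hkey : ∀ i w (hw : w ∈ RW i), w ++ u i w hw ∈ acExt w J := by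
    intro i w hw
    have hl := ac_len hw
    subst hl
    simp only [acExt, Finset.mem_filter]
    exact ⟨hu1 _ w hw, by simp⟩
  have hsub : ∀ t, A (t + 1) ⊆ (A t).biUnion fun w =>
      if hw : w ∈ RW (J * t) then (acExt w J).erase (w ++ u (J * t) w hw) else ∅ := by
    intro t x hx
    simp only [A, Finset.mem_filter] at hx
    obtain ⟨h1, h2⟩ := hx
    rw [Nat.mul_succ] at h1
    have ht := ac_take h1
    simp only [Finset.mem_biUnion]
    refine ⟨x.take (J * t), ?_, ?_⟩
    · simp only [A, Finset.mem_filter]
      refine ⟨ht, fun j => ?_⟩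
      rw [List.take_take]
      exact h2 _
    · rw [dif_pos ht, Finset.mem_erase]
      have hlen := ac_len ht
      constructor
      · intro hx
        obtain ⟨j, hj, hHj⟩ := hu2 (J * t) (x.take (J * t)) ht
        apply h2 (J * t + j)
        rw [hx]
        have : List.take (J * t + j) (List.take (J * t) x ++ u (J * t) (List.take (J * t) x) ht) =
            List.take (J * t) x ++ (u (J * t) (List.take (J * t) x) ht).take j := by
          conv_lhs => rw [List.take_append]
          rw [hlen]
          congr 1
          · rw [List.take_take]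
            congr 1
            omega
          · congr 1
            omega
        rw [this]
        exact hHj
      · simp only [acExt, Finset.mem_filter]
        rw [hlen]
        exact ⟨h1, rfl⟩
  have hpos : 1 ≤ 5 ^ J := Nat.one_le_pow _ _ (by norm_num)
  have hstep : ∀ t, (A (t + 2)).card ≤ (A (t + 1)).card * (5 ^ J - 1) := by
    intro t
    refine le_trans (Finset.card_le_card (hsub (t + 1))) ?_
    refine Finset.card_biUnion_le_card_mul _ _ _ ?_
    intro w hw
    simp only [A, Finset.mem_filter] at hw
    rw [dif_pos hw.1, Finset.card_erase_of_mem (hkey _ _ _)]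
    have hne : w ≠ [] := by
      intro hw0
      have := ac_len hw.1
      rw [hw0] at this
      simp only [List.length_nil] at this
      have : 0 < J * (t + 1) := by positivity
      omega
    have := ac_ext_card w hne J
    omega
  have hone : (A 1).card ≤ 2 * (5 ^ J - 1) := by
    refine le_trans (Finset.card_le_card (hsub 0)) ?_
    have h0 : A 0 ⊆ {[]} := by
      intro w hw
      simp only [A, Finset.mem_filter, Nat.mul_zero] at hw
      simp [ac_zero.1 hw.1]
    have hb : ∀ w ∈ A 0, (if hw : w ∈ RW (J * 0) then (acExt w J).erase (w ++ u (J * 0) w hw)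
        else ∅).card ≤ 2 * (5 ^ J - 1) := by
      intro w hw
      have hw0 := hw
      simp only [A, Finset.mem_filter] at hw0
      rw [dif_pos hw0.1, Finset.card_erase_of_mem (hkey _ _ _)]
      have hw1 : w = [] := by simpa using h0 hw
      subst hw1
      have h2 : acExt [] J ⊆ RW J := by
        intro x hx
        simp only [acExt, Finset.mem_filter, List.length_nil, Nat.zero_add] at hx
        exact hx.1
      obtain ⟨J', rfl⟩ : ∃ J', J = J' + 1 := ⟨J - 1, by omega⟩
      have h3 := le_trans (Finset.card_le_card h2) (ac_card_le J')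
      have h4 : 1 ≤ 5 ^ J' := Nat.one_le_pow _ _ (by norm_num)
      rw [pow_succ]
      omega
    refine le_trans (Finset.card_biUnion_le_card_mul _ _ _ hb) ?_
    have h5 := Finset.card_le_card h0
    simp only [Finset.card_singleton] at h5
    calc (A 0).card * (2 * (5 ^ J - 1)) ≤ 1 * (2 * (5 ^ J - 1)) := Nat.mul_le_mul_right _ h5
      _ = 2 * (5 ^ J - 1) := one_mul _
  have hall : ∀ t, (A (t + 1)).card ≤ 2 * (5 ^ J - 1) ^ (t + 1) := by
    intro t
    induction t with
    | zero => simpa using hone
    | succ t ih =>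
      calc (A (t + 2)).card ≤ (A (t + 1)).card * (5 ^ J - 1) := hstep t
        _ ≤ 2 * (5 ^ J - 1) ^ (t + 1) * (5 ^ J - 1) := Nat.mul_le_mul_right _ ih
        _ = 2 * (5 ^ J - 1) ^ (t + 1 + 1) := by ring
  cases t with
  | zero =>
    have h0 : A 0 ⊆ {[]} := by
      intro w hw
      simp only [A, Finset.mem_filter, Nat.mul_zero] at hw
      simp [ac_zero.1 hw.1]
    have h5 := Finset.card_le_card h0
    simp only [Finset.card_singleton] at h5
    simp only [pow_zero, mul_one]
    omega
  | succ t => exact hall t

end Pool.Agent.H978V
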