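import Pool.Agent.H978V.LDefs
import Pool.Agent.H978V.C5

set_option autoImplicit false

open scoped Quaternion

namespace Pool.Agent.H978V

open Pool.Agent.Helper557.Rz

theorem l7_add {D : ℤ} {x y : ℍ[ℤ]} (hx : DvdQ D x) (hy : DvdQ D y) : DvdQ D (x + y) := by
  obtain ⟨a1, a2, a3, a4⟩ := hx
  obtain ⟨b1, b2, b3, b4⟩ := hy
  exact ⟨by simpa using dvd_add a1 b1, by simpa using dvd_add a2 b2,
    by simpa using dvd_add a3 b3, by simpa using dvd_add a4 b4⟩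

theorem l7_mul {D : ℤ} {x : ℍ[ℤ]} (y : ℍ[ℤ]) (hx : DvdQ D x) : DvdQ D (y * x) := by
  obtain ⟨⟨a1, h1⟩, ⟨a2, h2⟩, ⟨a3, h3⟩, ⟨a4, h4⟩⟩ := hx
  refine ⟨⟨y.re * a1 - y.imI * a2 - y.imJ * a3 - y.imK * a4, ?_⟩,
    ⟨y.re * a2 + y.imI * a1 + y.imJ * a4 - y.imK * a3, ?_⟩,
    ⟨y.re * a3 - y.imI * a4 + y.imJ * a1 + y.imK * a2, ?_⟩,
    ⟨y.re * a4 + y.imI * a3 - y.imJ * a2 + y.imK * a1, ?_⟩⟩
  · rw [Quaternion.re_mul, h1, h2, h3, h4]; ring
  · rw [Quaternion.imI_mul, h1, h2, h3, h4]; ring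
  · rw [Quaternion.imJ_mul, h1, h2, h3, h4]; ring
  · rw [Quaternion.imK_mul, h1, h2, h3, h4]; ring

theorem l7_pow {D : ℤ} {x : ℍ[ℤ]} (hx : DvdQ D (x - 1)) (k : ℕ) : DvdQ D (x ^ k - 1) := by
  induction k with
  | zero => simp [DvdQ]
  | succ k ih =>
    have : x ^ (k + 1) - 1 = x ^ k * (x - 1) + (x ^ k - 1) := by
      rw [pow_succ]; noncomm_ring
    rw [this]
    exact l7_add (l7_mul _ hx) ih

theorem l7_qw (a : Fin 6) (M : ℕ) : qw (List.replicate M a) = (al a) ^ M := by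
  induction M with
  | zero => simp [qw]
  | succ M ih => rw [List.replicate_succ, qw, ih, pow_succ]

theorem l7_star (x : ℍ[ℤ]) (hx : Quaternion.normSq x = 5) (i : ℕ) (y : ℍ[ℤ]) :
    (star x) ^ i * (x ^ i * y) = ((5 : ℤ) ^ i) • y := by
  induction i generalizing y with
  | zero => simp
  | succ i ih =>
    have h1 : (star x) ^ (i + 1) * (x ^ (i + 1) * y) = (star x) ^ i * ((star x * x) * (x ^ i * y)) := by
      rw [pow_succ, pow_succ']
      simp only [mul_assoc]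
    rw [h1, Quaternion.star_mul_self, hx, Quaternion.coe_mul_eq_smul, mul_smul_comm, ih, smul_smul,
      ← pow_succ']

/-- TARGET -/
theorem order_mod (D : ℕ) (hD : Odd D) (h5 : Nat.Coprime D 5) : ∃ N : ℕ, 1 ≤ N ∧ ∀ (a : Fin 6) (k : ℕ),
    DvdQ D (qw (List.replicate (N * k) a) - 1) := by
  have hD0 : D ≠ 0 := by rintro rfl; simp at hD
  have : NeZero D := ⟨hD0⟩
  have key : ∀ a : Fin 6, ∃ p : ℕ, 1 ≤ p ∧ DvdQ D ((al a) ^ p - 1) := by
    intro a
    let f : ℕ → ZMod D × ZMod D × ZMod D × ZMod D := fun i =>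
      (((al a) ^ i).re, ((al a) ^ i).imI, ((al a) ^ i).imJ, ((al a) ^ i).imK)
    obtain ⟨i, j, hij, hf⟩ := Finite.exists_ne_map_eq_of_infinite f
    wlog hlt : i < j generalizing i j
    · exact this j i hij.symm hf.symm (lt_of_le_of_ne (not_lt.1 hlt) hij.symm)
    refine ⟨j - i, by omega, ?_⟩
    simp only [f, Prod.mk.injEq] at hf
    obtain ⟨h1, h2, h3, h4⟩ := hf
    have hd : DvdQ D ((al a) ^ j - (al a) ^ i) := by
      refine ⟨?_, ?_, ?_, ?_⟩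
      · rw [Quaternion.re_sub]; exact (ZMod.intCast_eq_intCast_iff_dvd_sub _ _ _).1 h1
      · rw [Quaternion.imI_sub]; exact (ZMod.intCast_eq_intCast_iff_dvd_sub _ _ _).1 h2
      · rw [Quaternion.imJ_sub]; exact (ZMod.intCast_eq_intCast_iff_dvd_sub _ _ _).1 h3
      · rw [Quaternion.imK_sub]; exact (ZMod.intCast_eq_intCast_iff_dvd_sub _ _ _).1 h4
    have he : (al a) ^ j - (al a) ^ i = (al a) ^ i * ((al a) ^ (j - i) - 1) := by
      rw [mul_sub, ← pow_add, Nat.add_sub_cancel' hlt.le, mul_one]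
    rw [he] at hd
    have h6 := l7_mul ((star (al a)) ^ i) hd
    rw [l7_star _ (c5_norm_al a)] at h6
    have hc : IsCoprime (D : ℤ) ((5 : ℤ) ^ i) := by
      apply IsCoprime.pow_right
      exact_mod_cast Nat.isCoprime_iff_coprime.2 h5
    obtain ⟨g1, g2, g3, g4⟩ := h6
    rw [Quaternion.re_smul, smul_eq_mul] at g1
    rw [Quaternion.imI_smul, smul_eq_mul] at g2
    rw [Quaternion.imJ_smul, smul_eq_mul] at g3
    rw [Quaternion.imK_smul, smul_eq_mul] at g4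
    exact ⟨hc.dvd_of_dvd_mul_left g1, hc.dvd_of_dvd_mul_left g2, hc.dvd_of_dvd_mul_left g3,
      hc.dvd_of_dvd_mul_left g4⟩
  choose p hp hpd using key
  refine ⟨∏ a, p a, Nat.one_le_iff_ne_zero.2 (Finset.prod_ne_zero_iff.2 fun a _ => by
    have := hp a; omega), ?_⟩
  intro a k
  obtain ⟨c, hc⟩ := Finset.dvd_prod_of_mem p (Finset.mem_univ a)
  rw [l7_qw, hc, mul_assoc, pow_mul]
  exact l7_pow (hpd a) _

end Pool.Agent.H978V
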