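import Pool.Agent.H978V.LDefs
import Pool.Agent.H978V.C5
import Pool.Agent.H978V.R4
import Pool.Agent.H978V.L2
import Pool.Agent.H978V.L5b
import Pool.Agent.H978V.L6
import Pool.Agent.H978V.L7

/-!
JOB L8 (owner helper978, MP_06cce2_nt).  `H978V/*.lean` (library, with `LDefs`) is on origin/main.

PROOF.  `L₀` from `reach_g`; `N` from `order_mod`; `A` from `block N κ`; `J = 3 N A`.  Apply `avoid_count` with `H = Hit v D L₀ κ η ζ p`.  Let `w ∈ RW i`; `p' = rt w p` (`UP`), `ζ' = qw w * ζ * star (qw w)`: `PrimMod D ζ'` (if a prime `l ∣ D` divides `ζ'` then it divides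
`star (qw w) * ζ' * qw w = 25^i ζ`, and `l ≠ 5`) and `D ∣ normSq ζ'`.  `reach_g`: `g` with `|g| ≤ L₀`, `DvdQ D (v * (qw g * ζ'))`, hence also `DvdQ D (v * (qw g * ζ' * y))`.  `rt_inv`: `q` with `UP q`, `rt g q = η`.
Let `f` be the last letter of `w` (if any) and `s = 3` if `f = 3`, otherwise `s = 0` (so `s ≠ f + 3`).  `block`: `a, b, c` and `u₀ = replicate (N a) s ++ replicate (N b) 1 ++ replicate (N c) 0` with `‖rt u₀ p' - q‖ < κ`, of length `N(a+b+c) ≤ J`; `u = u₀ ++ replicate (J - |u₀|) 0`.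
`w ++ u ∈ RW (i + J)`: prove a lemma characterising `RW` (`w ∈ RW w.length` iff no two consecutive letters `x, y` with `y = x + 3`, e.g. with `List.IsChain`), `s, 1, 0` never differ by 3 (`0,1,3`: `0` and `3` are not adjacent here, except `s = 3` after `f`, `f + 3 ≠ 3` as `f = 3`).
With `j = |u₀|`: `u.take j = u₀`, `rt g (rt (w ++ u₀) p) = rt g (rt u₀ p')` is within `κ` of `rt g q = η`.  `qw (w ++ u₀) = qw u₀ * qw w` and `qw u₀ ≡ 1 mod D` (`order_mod` three times), so
`qw (w++u₀) * ζ * star (qw (w++u₀)) = qw u₀ * ζ' * star (qw u₀) ≡ ζ' mod D`, hence the divisibility in `Hit`.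
-/

set_option autoImplicit false

open scoped Quaternion

namespace Pool.Agent.H978V

open Pool.Agent.Helper557.Rz










theorem l8_mem (l : ℕ) (w : List (Fin 6)) :
    w ∈ RW l ↔ w.length = l ∧ List.IsChain (fun a b : Fin 6 => b ≠ a + 3) w := by
  induction l generalizing w with
  | zero =>
    constructor
    · intro h
      have h1 : w = [] := by simpa [RW] using h
      subst h1
      exact ⟨rfl, List.IsChain.nil⟩
    · rintro ⟨h, -⟩
      have h1 : w = [] := List.length_eq_zero_iff.1 h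
      subst h1
      simp [RW]
  | succ l ih =>
    cases w with
    | nil =>
      constructor
      · intro h
        simp [RW] at h
      · rintro ⟨h, -⟩
        simp at h
    | cons a v =>
      rw [List.isChain_cons]
      constructor
      · intro h
        simp only [RW, Finset.mem_image, Finset.mem_filter, Finset.mem_product, Finset.mem_univ,
          true_and, Prod.exists] at h
        obtain ⟨a', v', ⟨h1, h2⟩, h3⟩ := h
        obtain ⟨rfl, rfl⟩ := List.cons_eq_cons.1 h3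
        obtain ⟨h4, h5⟩ := (ih v').1 h1
        refine ⟨by simp [h4], ?_, h5⟩
        intro y hy h6
        apply h2
        rw [← h6]
        exact hy
      · rintro ⟨h1, h2, h3⟩
        simp only [RW, Finset.mem_image, Finset.mem_filter, Finset.mem_product, Finset.mem_univ,
          true_and, Prod.exists]
        refine ⟨a, v, ⟨(ih v).2 ⟨by simpa using h1, h3⟩, ?_⟩, rfl⟩
        intro h4
        exact h2 (a + 3) h4 rfl

theorem l8_dvd {l : ℤ} {x : ℍ[ℤ]} : DvdQ l x ↔ ∃ y : ℍ[ℤ], x = l • y := by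
  constructor
  · rintro ⟨⟨a, ha⟩, ⟨b, hb⟩, ⟨c, hc⟩, ⟨d, hd⟩⟩
    refine ⟨⟨a, b, c, d⟩, ?_⟩
    ext <;> simp [ha, hb, hc, hd]
  · rintro ⟨y, rfl⟩
    refine ⟨?_, ?_, ?_, ?_⟩ <;> simp

theorem l8_mul {l : ℤ} {x : ℍ[ℤ]} (h : DvdQ l x) (a b : ℍ[ℤ]) : DvdQ l (a * x * b) := by
  obtain ⟨y, rfl⟩ := l8_dvd.1 h
  refine l8_dvd.2 ⟨a * y * b, ?_⟩
  rw [mul_smul_comm, smul_mul_assoc]

theorem l8_add {l : ℤ} {x y : ℍ[ℤ]} (hx : DvdQ l x) (hy : DvdQ l y) : DvdQ l (x + y) := by
  obtain ⟨x', rfl⟩ := l8_dvd.1 hx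
  obtain ⟨y', rfl⟩ := l8_dvd.1 hy
  exact l8_dvd.2 ⟨x' + y', (smul_add _ _ _).symm⟩

/-- words congruent to one -/
theorem l8_congr {D : ℤ} {x y : ℍ[ℤ]} (hx : DvdQ D (x - 1)) (hy : DvdQ D (y - 1)) :
    DvdQ D (x * y - 1) := by
  have h1 : x * y - 1 = 1 * (x - 1) * y + 1 * (y - 1) * 1 := by
    rw [one_mul, one_mul, mul_one, sub_mul, one_mul]
    abel
  rw [h1]
  exact l8_add (l8_mul hx _ _) (l8_mul hy _ _)

theorem l8_star {D : ℤ} {x : ℍ[ℤ]} (hx : DvdQ D (x - 1)) : DvdQ D (star x - 1) := by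
  obtain ⟨y, hy⟩ := l8_dvd.1 hx
  refine l8_dvd.2 ⟨star y, ?_⟩
  have h1 : star x - 1 = star (x - 1) := by simp
  rw [h1, hy]
  ext <;> simp [mul_comm]

theorem l8_conj {D : ℤ} {q z a : ℍ[ℤ]} (hq : DvdQ D (q - 1)) (ha : DvdQ D (a * z)) :
    DvdQ D (a * (q * z * star q)) := by
  have h1 : a * (q * z * star q) = a * (q - 1) * (z * star q) + 1 * (a * z) * star q := by
    noncomm_ring
  rw [h1]
  exact l8_add (l8_mul hq _ _) (l8_mul ha _ _)

theorem l8_norm (w : List (Fin 6)) : Quaternion.normSq (qw w) = 5 ^ w.length := (good_qw w).2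

theorem l8_prim {D : ℕ} (h5 : Nat.Coprime D 5) {ζ : ℍ[ℤ]} (hζ : PrimMod D ζ) (w : List (Fin 6)) :
    PrimMod D (qw w * ζ * star (qw w)) := by
  intro l hl hlD hd
  apply hζ l hl hlD
  have h1 := l8_mul hd (star (qw w)) (qw w)
  have h2 : star (qw w) * (qw w * ζ * star (qw w)) * qw w =
      ((5 ^ w.length * 5 ^ w.length : ℤ)) • ζ := by
    obtain ⟨M, hM⟩ : ∃ M : ℤ, M = 5 ^ w.length := ⟨_, rfl⟩
    have h3 : star (qw w) * qw w = M • (1 : ℍ[ℤ]) := by
      rw [Quaternion.star_mul_self, l8_norm, ← hM]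
      ext <;> simp
    rw [← hM]
    calc star (qw w) * (qw w * ζ * star (qw w)) * qw w
        = (star (qw w) * qw w) * ζ * (star (qw w) * qw w) := by noncomm_ring
      _ = (M * M) • ζ := by
        rw [h3, smul_mul_assoc, one_mul, mul_smul_comm, mul_one, smul_smul]
  rw [h2] at h1
  have hcop : IsCoprime (l : ℤ) (5 ^ w.length * 5 ^ w.length : ℤ) := by
    have h4 : Nat.Coprime l 5 := Nat.Coprime.coprime_dvd_left hlD h5
    have h5' : IsCoprime (l : ℤ) 5 := by
      exact_mod_cast Nat.isCoprime_iff_coprime.2 h4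
    exact (h5'.pow_right).mul_right (h5'.pow_right)
  obtain ⟨a1, a2, a3, a4⟩ := h1
  rw [Quaternion.re_smul, smul_eq_mul] at a1
  rw [Quaternion.imI_smul, smul_eq_mul] at a2
  rw [Quaternion.imJ_smul, smul_eq_mul] at a3
  rw [Quaternion.imK_smul, smul_eq_mul] at a4
  exact ⟨hcop.dvd_of_dvd_mul_left a1, hcop.dvd_of_dvd_mul_left a2,
    hcop.dvd_of_dvd_mul_left a3, hcop.dvd_of_dvd_mul_left a4⟩

theorem l8_normSq {D : ℕ} {ζ : ℍ[ℤ]} (hN : (D : ℤ) ∣ Quaternion.normSq ζ) (w : List (Fin 6)) :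
    (D : ℤ) ∣ Quaternion.normSq (qw w * ζ * star (qw w)) := by
  rw [map_mul, map_mul]
  exact Dvd.dvd.mul_right (Dvd.dvd.mul_left hN _) _

theorem l8_chain (f : Option (Fin 6)) : ∃ s : Fin 6, (s = 0 ∨ s = 3) ∧ ∀ x ∈ f, s ≠ x + 3 := by
  cases f with
  | none => exact ⟨0, Or.inl rfl, by simp⟩
  | some x =>
    by_cases h : x = 3
    · subst h
      exact ⟨3, Or.inr rfl, by
        intro y hy
        simp only [Option.mem_def, Option.some.injEq] at hy
        subst hy
        decide⟩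
    · refine ⟨0, Or.inl rfl, ?_⟩
      intro y hy
      simp only [Option.mem_def, Option.some.injEq] at hy
      subst hy
      revert h
      revert x
      decide

theorem l8_rep (n : ℕ) (a : Fin 6) :
    List.IsChain (fun a b : Fin 6 => b ≠ a + 3) (List.replicate n a) :=
  List.isChain_replicate_of_rel n (by revert a; decide)

theorem l8_word (s : Fin 6) (hs : s = 0 ∨ s = 3) (a b c d : ℕ) (ha : 1 ≤ a) (hb : 1 ≤ b)
    (hc : 1 ≤ c) :
    List.IsChain (fun a b : Fin 6 => b ≠ a + 3) (List.replicate a s ++ List.replicate b 1 ++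
      List.replicate c 0 ++ List.replicate d 0) ∧
    ∀ y ∈ (List.replicate a s ++ List.replicate b 1 ++
      List.replicate c 0 ++ List.replicate d 0).head?, y = s := by
  obtain ⟨a, rfl⟩ : ∃ k, a = k + 1 := ⟨a - 1, by omega⟩
  obtain ⟨b, rfl⟩ : ∃ k, b = k + 1 := ⟨b - 1, by omega⟩
  obtain ⟨c, rfl⟩ : ∃ k, c = k + 1 := ⟨c - 1, by omega⟩
  constructor
  · rw [List.append_assoc, ← List.replicate_add]
    rw [List.isChain_append, List.isChain_append]
    refine ⟨⟨l8_rep _ _, l8_rep _ _, ?_⟩, l8_rep _ _, ?_⟩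
    · intro x hx y hy
      have hx' : x = s := by
        have := List.mem_of_mem_getLast? hx
        exact (List.mem_replicate.1 this).2
      have hy' : y = 1 := by
        have := List.mem_of_mem_head? hy
        exact (List.mem_replicate.1 this).2
      subst hx' hy'
      rcases hs with rfl | rfl <;> decide
    · intro x hx y hy
      have hx' : x = 1 := by
        rw [List.getLast?_append_of_ne_nil _ (by simp)] at hx
        have := List.mem_of_mem_getLast? hx
        exact (List.mem_replicate.1 this).2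
      have hy' : y = 0 := by
        have := List.mem_of_mem_head? hy
        exact (List.mem_replicate.1 this).2
      subst hx' hy'
      decide
  · intro y hy
    simp [List.replicate_succ] at hy
    exact hy.symm

/-- TARGET -/
theorem hit_count (v : ℍ[ℤ]) (D : ℕ) (hD : Odd D) (h5 : Nat.Coprime D 5) (hv : PrimMod D v)
    (hN : (D : ℤ) ∣ Quaternion.normSq v) (κ : ℝ) (hκ : 0 < κ) : ∃ L₀ J : ℕ, 1 ≤ J ∧
      ∀ (η p : ℍ[ℝ]) (ζ : ℍ[ℤ]), UP η → UP p → PrimMod D ζ → (D : ℤ) ∣ Quaternion.normSq ζ → ∀ t : ℕ,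
        Set.ncard {w : List (Fin 6) | w ∈ RW (J * t) ∧ ∀ j : ℕ, ¬ Hit v D L₀ κ η ζ p (w.take j)} ≤
          2 * (5 ^ J - 1) ^ t := by
  obtain ⟨L₀, hL⟩ := reach_g D hD h5 v hv hN
  obtain ⟨N, hN1, hN2⟩ := order_mod D hD h5
  obtain ⟨A, hA1, hA2⟩ := block N hN1 κ hκ
  have hJ : 1 ≤ 3 * N * A := by
    have : 0 < 3 * N * A := by positivity
    exact this
  refine ⟨L₀, 3 * N * A, hJ, ?_⟩
  intro η p ζ hη hp hζ hζN t
  refine avoid_count (3 * N * A) hJ (fun w => Hit v D L₀ κ η ζ p w) ?_ t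
  intro i w hw
  obtain ⟨hw1, hw2⟩ := (l8_mem i w).1 hw
  have hp' : UP (rt w p) := rt_up w p hp
  obtain ⟨g, hg1, hg2⟩ := hL (qw w * ζ * star (qw w)) (l8_prim h5 hζ w) (l8_normSq hζN w)
  obtain ⟨q, hq1, hq2⟩ := rt_inv g η hη
  obtain ⟨s, hs1, hs2⟩ := l8_chain w.getLast?
  obtain ⟨a, b, c, ha, hb, hc, hclose⟩ := hA2 s hs1 (rt w p) q hp' hq1
  set u₀ : List (Fin 6) := List.replicate (N * a) s ++ List.replicate (N * b) 1 ++
    List.replicate (N * c) 0 with hu₀
  have hlen : u₀.length = N * a + N * b + N * c := by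
    rw [hu₀]
    simp [add_assoc]
  have hle : u₀.length ≤ 3 * N * A := by
    rw [hlen]
    have h1 := Nat.mul_le_mul_left N ha.2
    have h2 := Nat.mul_le_mul_left N hb.2
    have h3 := Nat.mul_le_mul_left N hc.2
    calc N * a + N * b + N * c ≤ N * A + N * A + N * A := by omega
      _ = 3 * N * A := by ring
  have hword := l8_word s hs1 (N * a) (N * b) (N * c) (3 * N * A - u₀.length)
    (Nat.mul_pos hN1 ha.1) (Nat.mul_pos hN1 hb.1) (Nat.mul_pos hN1 hc.1)
  rw [← hu₀] at hword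
  refine ⟨u₀ ++ List.replicate (3 * N * A - u₀.length) 0, ?_, u₀.length, hle, ?_⟩
  · rw [l8_mem]
    constructor
    · rw [List.length_append, List.length_append, List.length_replicate, hw1]
      omega
    · rw [List.isChain_append]
      refine ⟨hw2, hword.1, ?_⟩
      intro x hx y hy
      rw [hword.2 y hy]
      exact hs2 x hx
  · rw [List.take_left]
    have hqu : DvdQ D (qw u₀ - 1) := by
      rw [hu₀, qw_append, qw_append]
      exact l8_congr (hN2 0 c) (l8_congr (hN2 1 b) (hN2 s a))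
    refine ⟨g, hg1, ?_, ?_⟩
    · rw [qw_append, star_mul]
      have h1 := l8_conj (q := qw u₀) (z := qw w * ζ * star (qw w)) (a := v * qw g) hqu (by
        rw [mul_assoc]
        exact hg2)
      have h2 : v * (qw g * (qw u₀ * qw w * ζ * (star (qw w) * star (qw u₀)))) =
          v * qw g * (qw u₀ * (qw w * ζ * star (qw w)) * star (qw u₀)) := by noncomm_ring
      rw [h2]
      exact h1
    · rw [rt_append, ← hq2, ← rt_sub, rt_norm]
      exact hclose


end Pool.Agent.H978V
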