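import Pool.Agent.H978V.LDefs
import Pool.Agent.H978V.C5
import Pool.Agent.H978V.L2
import Pool.Agent.H978V.L8

/-!
JOB L9b (owner helper978, MP_06cce2_nt).  `H978V/*.lean` (library, with `LDefs`) is on origin/main.

PROOF.  `L₀, J` from `hit_count` with `κ/2` (`PrimMod D v` as `PrimQ v`; `D ∣ normSq v`).  Finitely many unit pure quaternions `p₀ ∈ 𝒫` such that every unit pure quaternion is within `κ/2` of one of them (compactness / total boundedness of the unit sphere of the finite dimensional space `ℍ[ℝ]`, intersected with `re = 0`).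
`B = |𝒫| · D^4 · 2` (or `(D+1)^4` etc.).  For `y ∈ ZS`: `z = mq m y`, `w = W y ∈ RW (J t)`, `p₀ ∈ 𝒫` with `‖hat n y - p₀‖ < κ/2` (`UP (hat n y)`: `|y|² = n ≥ 1`), and the residue class `ρ` of `z` modulo `D` (four coordinates in `ZMod D`).
CLAIM: for all `j`, not `Hit v D L₀ (κ/2) η z p₀ (w.take j)`.  Indeed `w = w.take j ++ w.drop j`, and `shift` gives `y' ∈ ZS` with `5^l z' = qw (take) * z * star (qw (take))` (`z' = mq m y'`, `l` the length of the take) and `hat n y' = rt (w.take j) (hat n y)`.  If `g` were as in `Hit` then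
`DvdQ D (v * (qw g * (5^l • z')))`, so `DvdQ D (v * (qw g * z'))` (`5` prime to `D`), and `‖rt g (hat n y') - η‖ ≤ ‖rt g (rt (take) (hat n y)) - rt g (rt (take) p₀)‖ + κ/2 < κ` (isometry), contradicting the hypothesis.
`Hit ... z ...` depends only on `z` modulo `D` (`DvdQ D (x * (z₁ - z₂) * y)`); so for each pair `(p₀, ρ)` that occurs fix one representative `z_ρ`: all words `W y` for the pair `(p₀, ρ)` lie in the set `{w ∈ RW (J t) | ∀ j, ¬ Hit v D L₀ (κ/2) η z_ρ p₀ (w.take j)}` of cardinality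
`≤ 2 (5^J - 1)^t` (`hit_count`; `PrimMod D z_ρ` since `m` is prime to `D`; `normSq z_ρ = m² + n`).  The set is finite (subset of `RW`), so `Set.ncard` is monotone.
-/

set_option autoImplicit false

open scoped Quaternion

namespace Pool.Agent.H978V

open Pool.Agent.Helper557.Rz






/-- an integral quaternion from its coordinates -/
def l9b_mk (a b c d : ℤ) : ℍ[ℤ] := ⟨a, b, c, d⟩

theorem l9b_dvdQ_iff (D : ℤ) (v : ℍ[ℤ]) : DvdQ D v ↔ ∃ x : ℍ[ℤ], v = D • x := by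
  constructor
  · rintro ⟨⟨a, ha⟩, ⟨b, hb⟩, ⟨c, hc⟩, ⟨d, hd⟩⟩
    refine ⟨l9b_mk a b c d, ?_⟩
    ext
    · rw [ha, Quaternion.re_smul, smul_eq_mul, l9b_mk]
    · rw [hb, Quaternion.imI_smul, smul_eq_mul, l9b_mk]
    · rw [hc, Quaternion.imJ_smul, smul_eq_mul, l9b_mk]
    · rw [hd, Quaternion.imK_smul, smul_eq_mul, l9b_mk]
  · rintro ⟨x, rfl⟩
    exact ⟨⟨x.re, by rw [Quaternion.re_smul, smul_eq_mul]⟩,
      ⟨x.imI, by rw [Quaternion.imI_smul, smul_eq_mul]⟩,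
      ⟨x.imJ, by rw [Quaternion.imJ_smul, smul_eq_mul]⟩,
      ⟨x.imK, by rw [Quaternion.imK_smul, smul_eq_mul]⟩⟩

theorem l9b_dvdQ_add {D : ℤ} {x y : ℍ[ℤ]} (hx : DvdQ D x) (hy : DvdQ D y) : DvdQ D (x + y) := by
  rw [l9b_dvdQ_iff] at *
  obtain ⟨a, rfl⟩ := hx
  obtain ⟨b, rfl⟩ := hy
  exact ⟨a + b, by rw [smul_add]⟩

theorem l9b_dvdQ_mul_left {D : ℤ} {x : ℍ[ℤ]} (hx : DvdQ D x) (y : ℍ[ℤ]) : DvdQ D (y * x) := by
  rw [l9b_dvdQ_iff] at *
  obtain ⟨a, rfl⟩ := hx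
  exact ⟨y * a, by rw [mul_smul_comm]⟩

theorem l9b_dvdQ_mul_right {D : ℤ} {x : ℍ[ℤ]} (hx : DvdQ D x) (y : ℍ[ℤ]) : DvdQ D (x * y) := by
  rw [l9b_dvdQ_iff] at *
  obtain ⟨a, rfl⟩ := hx
  exact ⟨a * y, by rw [smul_mul_assoc]⟩

theorem l9b_dvdQ_of_smul {D k : ℤ} {x : ℍ[ℤ]} (hk : IsCoprime D k) (h : DvdQ D (k • x)) :
    DvdQ D x := by
  obtain ⟨h1, h2, h3, h4⟩ := h
  rw [Quaternion.re_smul, smul_eq_mul] at h1
  rw [Quaternion.imI_smul, smul_eq_mul] at h2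
  rw [Quaternion.imJ_smul, smul_eq_mul] at h3
  rw [Quaternion.imK_smul, smul_eq_mul] at h4
  exact ⟨hk.dvd_of_dvd_mul_left h1, hk.dvd_of_dvd_mul_left h2, hk.dvd_of_dvd_mul_left h3,
    hk.dvd_of_dvd_mul_left h4⟩

/-- the residues of the coordinates modulo `D` -/
def l9b_rho (D : ℕ) (z : ℍ[ℤ]) : ZMod D × ZMod D × ZMod D × ZMod D :=
  ((z.re : ZMod D), (z.imI : ZMod D), (z.imJ : ZMod D), (z.imK : ZMod D))

theorem l9b_rho_sub {D : ℕ} {x y : ℍ[ℤ]} (h : l9b_rho D x = l9b_rho D y) : DvdQ D (x - y) := by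
  unfold l9b_rho at h
  simp only [Prod.mk.injEq] at h
  obtain ⟨h1, h2, h3, h4⟩ := h
  have key : ∀ a b : ℤ, (a : ZMod D) = (b : ZMod D) → (D : ℤ) ∣ a - b := fun a b hab => by
    rw [← ZMod.intCast_zmod_eq_zero_iff_dvd, Int.cast_sub, hab, sub_self]
  exact ⟨key _ _ h1, key _ _ h2, key _ _ h3, key _ _ h4⟩

theorem l9b_hat_UP {n : ℕ} (hn : 1 ≤ n) {y : ℤ × ℤ × ℤ} (hy : y ∈ S3 n) : UP (hat n y) := by
  rw [mem_S3] at hy
  have hn0 : (0 : ℝ) < n := by exact_mod_cast hn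
  have hs : 0 < Real.sqrt n := Real.sqrt_pos.2 hn0
  constructor
  · unfold hat
    rw [Quaternion.re_smul]
    simp [cz, pq]
  · unfold hat
    rw [norm_smul, Real.norm_of_nonneg (by positivity)]
    have h1 : ‖cz (pq y)‖ = Real.sqrt n := by
      have h2 : ‖cz (pq y)‖ * ‖cz (pq y)‖ = n := by
        rw [← Quaternion.normSq_eq_norm_mul_self, Quaternion.normSq_def']
        simp only [cz, pq]
        have : ((y.1 ^ 2 + y.2.1 ^ 2 + y.2.2 ^ 2 : ℤ) : ℝ) = ((n : ℤ) : ℝ) := by rw [hy]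
        push_cast at this ⊢
        linarith
      rw [← h2, Real.sqrt_mul_self (norm_nonneg _)]
    rw [h1, one_div, inv_mul_cancel₀ hs.ne']

theorem l9b_cover {κ : ℝ} (hκ : 0 < κ) : ∃ P : Finset ℍ[ℝ], (∀ p ∈ P, UP p) ∧
    ∀ p, UP p → ∃ p₀ ∈ P, ‖p - p₀‖ < κ := by
  have hprop : ProperSpace ℍ[ℝ] := FiniteDimensional.proper ℝ ℍ[ℝ]
  have hK : IsCompact {p : ℍ[ℝ] | UP p} := by
    have h1 : {p : ℍ[ℝ] | UP p} = {p : ℍ[ℝ] | p.re = 0} ∩ Metric.sphere 0 1 := by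
      ext p
      simp [UP]
    rw [h1]
    exact (isCompact_sphere _ _).inter_left (isClosed_eq Quaternion.continuous_re continuous_const)
  obtain ⟨t, ht, htf, hcov⟩ := hK.finite_cover_balls hκ
  refine ⟨htf.toFinset, fun p hp => ht (htf.mem_toFinset.1 hp), fun p hp => ?_⟩
  have := hcov (show p ∈ {p : ℍ[ℝ] | UP p} from hp)
  simp only [Set.mem_iUnion, Metric.mem_ball, exists_prop] at this
  obtain ⟨p₀, h1, h2⟩ := this
  exact ⟨p₀, htf.mem_toFinset.2 h1, by rwa [dist_eq_norm] at h2⟩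

theorem l9b_normSq (m : ℤ) (y : ℤ × ℤ × ℤ) : Quaternion.normSq (mq m y) =
    (y.1 ^ 2 + y.2.1 ^ 2 + y.2.2 ^ 2) + m ^ 2 := by
  rw [Quaternion.normSq_def']
  simp only [mq]
  ring

/-- TARGET -/
theorem image_bound (v : ℍ[ℤ]) (hv : PrimQ v) (c : ℤ) (D : ℕ) (hc : c = 1 ∨ c = 2 ∨ c = 4) (hD : Odd D)
    (h5 : Nat.Coprime D 5) (hN : Quaternion.normSq v = c * D) (κ : ℝ) (hκ : 0 < κ) :
    ∃ L₀ J B : ℕ, 1 ≤ J ∧ ∀ (η : ℍ[ℝ]) (m : ℤ) (n t : ℕ), UP η → 1 ≤ n → IsCoprime m (D : ℤ) →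
      (D : ℤ) ∣ (n : ℤ) + m ^ 2 →
      (∀ y ∈ ZS v c D m n, ∀ g : List (Fin 6), g.length ≤ L₀ → DvdQ D (v * (qw g * mq m y)) →
        κ ≤ ‖rt g (hat n y) - η‖) →
      ∀ W : ℤ × ℤ × ℤ → List (Fin 6),
        (∀ y ∈ ZS v c D m n, W y ∈ RW (J * t) ∧ ∃ t' : ℍ[ℤ], mq m y = t' * qw (W y)) →
        ((ZS v c D m n).image W).card ≤ B * (5 ^ J - 1) ^ t := by
  classical
  obtain ⟨L₀, J, hJ, hcount⟩ := hit_count v D hD h5 (fun p hp _ => hv p hp)
    (by rw [hN]; exact dvd_mul_left _ _) (κ / 2) (half_pos hκ)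
  obtain ⟨P, hPU, hPc⟩ := l9b_cover (half_pos hκ)
  have : NeZero D := ⟨by rintro rfl; exact absurd hD (by decide)⟩
  refine ⟨L₀, J, P.card * D ^ 4 * 2, hJ, ?_⟩
  intro η m n t hη hn hmD hDn hyp W hW
  have hS : ∀ y ∈ ZS v c D m n, y ∈ S3 n := fun y hy => (Finset.mem_filter.1 hy).1
  have hUP : ∀ y ∈ ZS v c D m n, UP (hat n y) := fun y hy => l9b_hat_UP hn (hS y hy)
  -- the nearest point
  let pc : ℤ × ℤ × ℤ → ℍ[ℝ] := fun y =>
    if h : y ∈ ZS v c D m n then (hPc _ (hUP y h)).choose else 0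
  have hpc : ∀ y ∈ ZS v c D m n, pc y ∈ P ∧ ‖hat n y - pc y‖ < κ / 2 := by
    intro y hy
    have := (hPc _ (hUP y hy)).choose_spec
    simp only [pc, dif_pos hy]
    exact this
  -- the fibres
  let Fb : ℍ[ℝ] × (ZMod D × ZMod D × ZMod D × ZMod D) → Finset (ℤ × ℤ × ℤ) := fun i =>
    (ZS v c D m n).filter (fun y => pc y = i.1 ∧ l9b_rho D (mq m y) = i.2)
  let I : Finset (ℍ[ℝ] × (ZMod D × ZMod D × ZMod D × ZMod D)) := P ×ˢ Finset.univ
  have hIc : I.card = P.card * D ^ 4 := by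
    simp only [I, Finset.card_product, Finset.card_univ, Fintype.card_prod, ZMod.card]
    ring
  have hsub : (ZS v c D m n).image W ⊆ I.biUnion (fun i => (Fb i).image W) := by
    intro w hw
    obtain ⟨y, hy, rfl⟩ := Finset.mem_image.1 hw
    refine Finset.mem_biUnion.2 ⟨(pc y, l9b_rho D (mq m y)), ?_, ?_⟩
    · exact Finset.mem_product.2 ⟨(hpc y hy).1, Finset.mem_univ _⟩
    · exact Finset.mem_image.2 ⟨y, Finset.mem_filter.2 ⟨hy, rfl, rfl⟩, rfl⟩
  have hfib : ∀ i ∈ I, ((Fb i).image W).card ≤ 2 * (5 ^ J - 1) ^ t := by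
    intro i hi
    rcases (Fb i).eq_empty_or_nonempty with he | ⟨y0, hy0⟩
    · rw [he]
      simp
    obtain ⟨hy0Z, hy0p, hy0r⟩ := Finset.mem_filter.1 hy0
    have hpU : UP i.1 := hPU _ (Finset.mem_product.1 hi).1
    have hprim : PrimMod D (mq m y0) := by
      intro p hp hpD h
      have h1 : (p : ℤ) ∣ m := h.1
      have h2 : (p : ℤ) ∣ (D : ℤ) := by exact_mod_cast hpD
      have h3 := hmD.isUnit_of_dvd' h1 h2
      rw [Int.isUnit_iff] at h3
      have h4 := hp.two_le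
      omega
    have hdn : (D : ℤ) ∣ Quaternion.normSq (mq m y0) := by
      rw [l9b_normSq, (mem_S3.1 (hS y0 hy0Z))]
      exact hDn
    have hc1 := hcount η i.1 (mq m y0) hη hpU hprim hdn t
    refine le_trans ?_ hc1
    rw [← Set.ncard_coe_finset]
    refine Set.ncard_le_ncard ?_ ?_
    · intro w hw
      obtain ⟨y, hy, rfl⟩ := Finset.mem_image.1 (Finset.mem_coe.1 hw)
      obtain ⟨hyZ, hyq, hyr⟩ := Finset.mem_filter.1 hy
      obtain ⟨hWR, t', ht'⟩ := hW y hyZ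
      refine ⟨hWR, fun j hhit => ?_⟩
      obtain ⟨g, hg, hdv, hlt⟩ := hhit
      obtain ⟨y', hy', h5y, hhat⟩ := shift v c D hD hv hc hN m n y hyZ ((W y).take j) ((W y).drop j) t'
        (by rw [List.take_append_drop]; exact ht')
      set wj := (W y).take j with hwj
      have hd1 : DvdQ D (mq m y - mq m y0) := l9b_rho_sub (hyr.trans hy0r.symm)
      have hd2 : DvdQ D (v * (qw g * (qw wj * (mq m y - mq m y0) * star (qw wj)))) :=
        l9b_dvdQ_mul_left (l9b_dvdQ_mul_left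
          (l9b_dvdQ_mul_right (l9b_dvdQ_mul_left hd1 _) _) _) _
      have hd3 := l9b_dvdQ_add hd2 hdv
      have he : v * (qw g * (qw wj * (mq m y - mq m y0) * star (qw wj))) +
          v * (qw g * (qw wj * mq m y0 * star (qw wj)))
          = ((5 : ℤ) ^ wj.length) • (v * (qw g * mq m y')) := by
        rw [← mul_add, ← mul_add, ← add_mul, ← mul_add, sub_add_cancel, ← h5y, mul_smul_comm,
          mul_smul_comm]
      rw [he] at hd3
      have hcop : IsCoprime (D : ℤ) ((5 : ℤ) ^ wj.length) := by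
        refine IsCoprime.pow_right ?_
        exact_mod_cast Nat.isCoprime_iff_coprime.2 h5
      have hd4 := l9b_dvdQ_of_smul hcop hd3
      have h6 := hyp y' hy' g hg hd4
      have h7 : ‖hat n y - i.1‖ < κ / 2 := by
        rw [← hyq]
        exact (hpc y hyZ).2
      have h8 : rt g (hat n y') - η = rt g (rt wj (hat n y - i.1)) + (rt g (rt wj i.1) - η) := by
        rw [hhat, rt_sub, rt_sub]
        abel
      rw [h8] at h6
      have h9 := norm_add_le (rt g (rt wj (hat n y - i.1))) (rt g (rt wj i.1) - η)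
      rw [rt_norm, rt_norm] at h9
      linarith
    · exact (RW (J * t)).finite_toSet.subset fun w hw => hw.1
  calc ((ZS v c D m n).image W).card ≤ (I.biUnion (fun i => (Fb i).image W)).card :=
        Finset.card_le_card hsub
    _ ≤ ∑ i ∈ I, ((Fb i).image W).card := Finset.card_biUnion_le
    _ ≤ ∑ _i ∈ I, 2 * (5 ^ J - 1) ^ t := Finset.sum_le_sum hfib
    _ = P.card * D ^ 4 * 2 * (5 ^ J - 1) ^ t := by
        rw [Finset.sum_const, hIc, smul_eq_mul]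
        ring

end Pool.Agent.H978V
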