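import Pool.Agent.H978V.LDefs
import Pool.Agent.H978V.C5
import Pool.Agent.H978V.L1
import Pool.Agent.H978V.L4
import Pool.Agent.H978V.L9b

/-!
JOB L9 (owner helper978, MP_06cce2_nt).  `H978V/*.lean` (library, with `LDefs`) is on origin/main.

PROOF.  `L₀, J, B` from `image_bound`.  `θ = (1/2) (1 - logb 5 ((5^J - 1)) / J) > 0`, i.e. `(5^J - 1)^t = 5^(J t (1 - 2θ))`; `δ = θ/4` (say), `c₀` from `hP2 δ`, `K` from `suffix_pairs δ`.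
Let `n ≥ n₀` (large), and suppose that no `y ∈ ZS`, `g` as required exist for some `η`.  Choose `t` with `5^(J t) ≤ √n < 5^(J (t+1))` (`t ≥ 1` for large `n`), `i = J t ≥ 1`.  `n ≤ c D 5^(4k) ≤ 4 D 5^(4k)`, so `5^i ≤ √n ≤ √(4D) 5^(2k) ≤ 5^(4k)` as soon as `4 D ≤ 5^(4k)`,
which holds if `n₀ ≥ (4D)^2`; so `i ≤ 4k` and `5^i ∣ N₀ := c D 5^(4k) = n + m²`.  `m` is prime to `5 D`.
`suffix_word` gives `W y` for all `y` (`normSq (mq m y) = N₀` for `y ∈ S3 n`; `mq m y` is not divisible by 5 as `5 ∤ m`).  `suffix_pairs` with `Z = ZS v c D m n ⊆ S3 n` and `image_bound`: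
`|Z|² ≤ B (5^J - 1)^t (2 |Z| + 2 K n^(1+δ) / 5^i)`, and `5^i ≥ √n / 5^J`.  `(5^J-1)^t = (5^(J t))^(1-2θ) ≤ n^(1/2 - θ)`.
Case `2|Z| ≥ 2K n^(1+δ)/5^i`: `|Z| ≤ 4 B n^(1/2-θ)`, but `|Z| ≥ c₀ n^(1/2-δ)`.  Other case: `c₀² n^(1-2δ) ≤ |Z|² ≤ B n^(1/2-θ) · 4 K 5^J n^(1/2+δ)`, i.e. `n^(θ - 3δ) ≤ 4 B K 5^J / c₀²`.  Both are false for `n ≥ n₀`.
-/

set_option autoImplicit false

open scoped Quaternion

namespace Pool.Agent.H978V

open Pool.Agent.Helper557.Rz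




theorem lh_normSq (m : ℤ) (y : ℤ × ℤ × ℤ) (n : ℕ) (hy : y ∈ S3 n) :
    Quaternion.normSq (mq m y) = (n : ℤ) + m ^ 2 := by
  rw [mem_S3] at hy
  rw [Quaternion.normSq_def', ← hy]
  simp only [mq]
  ring

/-- TARGET -/
theorem linnik_hit (v : ℍ[ℤ]) (hv : PrimQ v) (c : ℤ) (D : ℕ) (hc : c = 1 ∨ c = 2 ∨ c = 4) (hD : Odd D)
    (h5 : Nat.Coprime D 5) (hN : Quaternion.normSq v = c * D) (P : ℕ → ℤ → Prop)
    (hP1 : ∀ k m, P k m → IsCoprime m (5 * D : ℤ))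
    (hP2 : ∀ δ : ℝ, 0 < δ → ∃ c₀ : ℝ, 0 < c₀ ∧ ∀ (k : ℕ) (m : ℤ) (n : ℕ), P k m →
      (n : ℤ) = c * D * 5 ^ (4 * k) - m ^ 2 → 1 ≤ n → c₀ * (n : ℝ) ^ (1 / 2 - δ) ≤ (ZS v c D m n).card)
    (κ : ℝ) (hκ : 0 < κ) : ∃ L₀ n₀ : ℕ, ∀ (k : ℕ) (m : ℤ) (n : ℕ), P k m →
      (n : ℤ) = c * D * 5 ^ (4 * k) - m ^ 2 → n₀ ≤ n → ∀ η : ℍ[ℝ], UP η → ∃ y ∈ ZS v c D m n,
        ∃ g : List (Fin 6), g.length ≤ L₀ ∧ DvdQ D (v * (qw g * mq m y)) ∧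
          ‖rt g (hat n y) - η‖ < κ := by
  classical
  obtain ⟨L₀, J, B, hJ, himg⟩ := image_bound v hv c D hc hD h5 hN κ hκ
  -- the exponent
  obtain ⟨b, hb⟩ : ∃ b : ℕ, b = 5 ^ J - 1 := ⟨_, rfl⟩
  have h5J : 5 ≤ 5 ^ J := by
    calc 5 = 5 ^ 1 := (pow_one 5).symm
      _ ≤ 5 ^ J := Nat.pow_le_pow_right (by norm_num) hJ
  have hb4 : 4 ≤ b := by omega
  have hblt : b < 5 ^ J := by omega
  have hbR : (4 : ℝ) ≤ b := by exact_mod_cast hb4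
  have hb0 : (0 : ℝ) < b := by linarith
  have hJR : (0 : ℝ) < J := by exact_mod_cast hJ
  obtain ⟨θ, hθ⟩ : ∃ θ : ℝ, θ = 1 / 2 * (1 - Real.logb 5 b / J) := ⟨_, rfl⟩
  have hlog1 : Real.logb 5 b < J := by
    rw [Real.logb_lt_iff_lt_rpow (by norm_num) hb0, Real.rpow_natCast]
    exact_mod_cast hblt
  have hlog0 : 0 ≤ Real.logb 5 b := Real.logb_nonneg (by norm_num) (by linarith)
  have hθ0 : 0 < θ := by
    rw [hθ]
    have : Real.logb 5 b / J < 1 := by rw [div_lt_one hJR]; exact hlog1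
    linarith
  have hθ1 : 0 ≤ 1 - 2 * θ := by
    rw [hθ]
    have : 0 ≤ Real.logb 5 b / J := by positivity
    linarith
  have hbpow : (b : ℝ) = (5 : ℝ) ^ ((J : ℝ) * (1 - 2 * θ)) := by
    have : (J : ℝ) * (1 - 2 * θ) = Real.logb 5 b := by rw [hθ]; field_simp; ring
    rw [this, Real.rpow_logb (by norm_num) (by norm_num) hb0]
  obtain ⟨c₀, hc₀, hP2'⟩ := hP2 (θ / 4) (by positivity)
  obtain ⟨K, hK, hsuf⟩ := suffix_pairs (θ / 4) (by positivity)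
  -- the bound on n
  obtain ⟨n1, hn1⟩ : ∃ n1 : ℕ, ∀ n : ℕ, n1 ≤ n →
      4 * (B : ℝ) / c₀ + 4 * B * K * 5 ^ J / c₀ ^ 2 < (n : ℝ) ^ (θ / 4) := by
    have h1 : Filter.Tendsto (fun n : ℕ => (n : ℝ) ^ (θ / 4)) Filter.atTop Filter.atTop :=
      (tendsto_rpow_atTop (by positivity)).comp tendsto_natCast_atTop_atTop
    exact Filter.eventually_atTop.1 (h1.eventually_gt_atTop _)
  refine ⟨L₀, max n1 (max (25 ^ J) ((4 * D * 5 ^ J) ^ 2)), ?_⟩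
  intro k m n hPkm hn hn0 η hη
  by_contra hcon
  push Not at hcon
  have hnn1 : n1 ≤ n := (le_max_left _ _).trans hn0
  have hn25 : 25 ^ J ≤ n := (le_max_left _ _).trans ((le_max_right _ _).trans hn0)
  have hnD : (4 * D * 5 ^ J) ^ 2 ≤ n := (le_max_right _ _).trans ((le_max_right _ _).trans hn0)
  have hn1' : 1 ≤ n := le_trans (Nat.one_le_pow _ _ (by norm_num)) hn25
  have hnR : (1 : ℝ) ≤ n := by exact_mod_cast hn1'
  have hnpos : (0 : ℝ) < n := by linarith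
  -- the length
  obtain ⟨t, ht⟩ : ∃ t : ℕ, t = Nat.log (25 ^ J) n := ⟨_, rfl⟩
  have h25 : 1 < 25 ^ J := Nat.one_lt_pow (by omega) (by norm_num)
  have ht1 : 1 ≤ t := by
    rw [ht]
    exact Nat.log_pos h25 hn25
  have ht2 : (25 ^ J) ^ t ≤ n := by rw [ht]; exact Nat.pow_log_le_self _ (by omega)
  have ht3 : n < (25 ^ J) ^ (t + 1) := by rw [ht]; exact Nat.lt_pow_succ_log_self h25 n
  have hi2 : (5 ^ (J * t)) ^ 2 ≤ n := by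
    have e : (5 ^ (J * t)) ^ 2 = (25 ^ J) ^ t := by
      rw [show (25 : ℕ) = 5 ^ 2 by norm_num, ← pow_mul, ← pow_mul, ← pow_mul]
      congr 1; ring
    rw [e]; exact ht2
  have hi3 : n < (5 ^ (J * t) * 5 ^ J) ^ 2 := by
    have e : (5 ^ (J * t) * 5 ^ J) ^ 2 = (25 ^ J) ^ (t + 1) := by
      rw [← pow_add, show (25 : ℕ) = 5 ^ 2 by norm_num, ← pow_mul, ← pow_mul, ← pow_mul]
      congr 1; ring
    rw [e]; exact ht3
  obtain ⟨i, hi⟩ : ∃ i : ℕ, i = J * t := ⟨_, rfl⟩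
  rw [← hi] at hi2 hi3
  have hi1 : 1 ≤ i := by rw [hi]; exact Nat.mul_pos hJ ht1
  have hc0 : 0 < c := by rcases hc with h | h | h <;> omega
  have hc4 : c ≤ 4 := by rcases hc with h | h | h <;> omega
  have hD0 : 0 < D := hD.pos
  have hnle : (n : ℤ) ≤ 4 * D * 5 ^ (4 * k) := by
    rw [hn]
    have h1 : c * D * 5 ^ (4 * k) ≤ 4 * D * 5 ^ (4 * k) := by
      have : (0 : ℤ) ≤ D * 5 ^ (4 * k) := by positivity
      nlinarith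
    have h2 : 0 ≤ m ^ 2 := sq_nonneg m
    linarith
  have hnle' : n ≤ 4 * D * 5 ^ (4 * k) := by exact_mod_cast hnle
  have hik : i ≤ 4 * k := by
    by_contra hlt
    push Not at hlt
    have h1 : 5 ^ (4 * k) < 5 ^ i := Nat.pow_lt_pow_right (by norm_num) hlt
    have h2 : 5 ^ i * 5 ^ i < 4 * D * 5 ^ i := by
      calc 5 ^ i * 5 ^ i = (5 ^ i) ^ 2 := by ring
        _ ≤ n := hi2
        _ ≤ 4 * D * 5 ^ (4 * k) := hnle'
        _ < 4 * D * 5 ^ i := Nat.mul_lt_mul_of_pos_left h1 (by positivity)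
    have h3 : 5 ^ i < 4 * D := Nat.lt_of_mul_lt_mul_right h2
    have h4 : (5 ^ i * 5 ^ J) ^ 2 ≤ (4 * D * 5 ^ J) ^ 2 :=
      Nat.pow_le_pow_left (Nat.mul_le_mul_right _ h3.le) 2
    omega
  have hN0 : (n : ℤ) + m ^ 2 = c * D * 5 ^ (4 * k) := by rw [hn]; ring
  have hdvd : (5 : ℤ) ^ i ∣ c * D * 5 ^ (4 * k) := Dvd.dvd.mul_left (pow_dvd_pow 5 hik) _
  have hcop := hP1 k m hPkm
  have h5m : ¬ (5 : ℤ) ∣ m := by
    intro h
    have h1 : IsCoprime m (5 : ℤ) := IsCoprime.of_mul_right_left hcop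
    have h2 : IsUnit (5 : ℤ) := h1.isUnit_of_dvd' h dvd_rfl
    rw [Int.isUnit_iff] at h2
    omega
  have hDm : IsCoprime m (D : ℤ) := IsCoprime.of_mul_right_right hcop
  have hDn : (D : ℤ) ∣ (n : ℤ) + m ^ 2 := by
    rw [hN0]
    exact ⟨c * 5 ^ (4 * k), by ring⟩
  -- the words
  have hword : ∀ y : ℤ × ℤ × ℤ, ∃ w : List (Fin 6), y ∈ S3 n →
      w ∈ RW i ∧ ∃ t' : ℍ[ℤ], mq m y = t' * qw w := by
    intro y
    by_cases hy : y ∈ S3 n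
    · obtain ⟨w, hw, t', ht'⟩ := suffix_word i (mq m y)
        (by rw [lh_normSq m y n hy, hN0]; exact hdvd) (fun h => h5m h.1)
      exact ⟨w, fun _ => ⟨hw, t', ht'⟩⟩
    · exact ⟨[], fun h => absurd h hy⟩
  choose W hW using hword
  have hZS : ZS v c D m n ⊆ S3 n := by
    unfold ZS
    exact Finset.filter_subset _ _
  have hWZ : ∀ y ∈ ZS v c D m n, W y ∈ RW i ∧ ∃ t' : ℍ[ℤ], mq m y = t' * qw (W y) :=
    fun y hy => hW y (hZS hy)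
  have hi1' := himg η m n t hη hn1' hDm hDn hcon W (by rw [← hi]; exact hWZ)
  have hs := hsuf n m i (c * D * 5 ^ (4 * k)) hn1' hi1 hN0 hdvd h5m (ZS v c D m n) hZS W hWZ
  have hlow := hP2' k m n hPkm hn hn1'
  -- real numbers
  obtain ⟨Z, hZ⟩ : ∃ Z : ℝ, Z = ((ZS v c D m n).card : ℝ) := ⟨_, rfl⟩
  rw [← hZ] at hs hlow
  have hZ0 : 0 < Z := lt_of_lt_of_le (by positivity) hlow
  have hsqrt : ((5 : ℝ) ^ i) ≤ (n : ℝ) ^ (1 / 2 : ℝ) := by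
    rw [← Real.sqrt_eq_rpow]
    apply Real.le_sqrt_of_sq_le
    exact_mod_cast hi2
  have hsqrt2 : (n : ℝ) ^ (1 / 2 : ℝ) ≤ (5 : ℝ) ^ i * 5 ^ J := by
    rw [← Real.sqrt_eq_rpow]
    apply Real.sqrt_le_iff.2
    refine ⟨by positivity, ?_⟩
    exact_mod_cast hi3.le
  have hbt : (b : ℝ) ^ t ≤ (n : ℝ) ^ (1 / 2 - θ) := by
    have e1 : (b : ℝ) ^ t = ((5 : ℝ) ^ i) ^ (1 - 2 * θ) := by
      rw [hbpow, ← Real.rpow_natCast ((5 : ℝ) ^ _) t, ← Real.rpow_mul (by norm_num),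
        ← Real.rpow_natCast (5 : ℝ) i, ← Real.rpow_mul (by norm_num), hi]
      congr 1
      push_cast
      ring
    have e2 : (n : ℝ) ^ (1 / 2 - θ) = ((n : ℝ) ^ (1 / 2 : ℝ)) ^ (1 - 2 * θ) := by
      rw [← Real.rpow_mul hnpos.le]
      congr 1
      ring
    rw [e1, e2]
    exact Real.rpow_le_rpow (by positivity) hsqrt hθ1
  have himgR : (((ZS v c D m n).image W).card : ℝ) ≤ B * (n : ℝ) ^ (1 / 2 - θ) := by
    have h1 : (((ZS v c D m n).image W).card : ℝ) ≤ B * (b : ℝ) ^ t := by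
      rw [← hb] at hi1'
      exact_mod_cast hi1'
    refine h1.trans ?_
    gcongr
  obtain ⟨E, hE⟩ : ∃ E : ℝ, E = K * (n : ℝ) ^ (θ / 4) * (2 * n / 5 ^ i) := ⟨_, rfl⟩
  rw [← hE] at hs
  have hE0 : 0 ≤ E := by rw [hE]; positivity
  have hmain : Z ^ 2 ≤ B * (n : ℝ) ^ (1 / 2 - θ) * (2 * Z + E) :=
    hs.trans (mul_le_mul_of_nonneg_right himgR (by positivity))
  have hbig := hn1 n hnn1
  have hB0 : (0 : ℝ) ≤ B := Nat.cast_nonneg B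
  have ht1' : 0 ≤ 4 * (B : ℝ) / c₀ := by positivity
  have ht2' : 0 ≤ 4 * (B : ℝ) * K * 5 ^ J / c₀ ^ 2 := by positivity
  rcases le_total E (2 * Z) with hcase | hcase
  · -- first case
    have h1 : Z ^ 2 ≤ B * (n : ℝ) ^ (1 / 2 - θ) * (4 * Z) := by
      refine hmain.trans ?_
      gcongr
      linarith
    have h2 : Z ≤ 4 * B * (n : ℝ) ^ (1 / 2 - θ) := by
      have h3 : Z * Z ≤ (4 * B * (n : ℝ) ^ (1 / 2 - θ)) * Z := by nlinarith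
      exact le_of_mul_le_mul_right h3 hZ0
    have h4 : c₀ * (n : ℝ) ^ (1 / 2 - θ / 4) ≤ 4 * B * (n : ℝ) ^ (1 / 2 - θ) := hlow.trans h2
    have e1 : (n : ℝ) ^ (1 / 2 - θ / 4) = (n : ℝ) ^ (1 / 2 - θ) * (n : ℝ) ^ (3 * θ / 4) := by
      rw [← Real.rpow_add hnpos]; congr 1; ring
    rw [e1] at h4
    have hpos : 0 < (n : ℝ) ^ (1 / 2 - θ) := by positivity
    have h5 : c₀ * (n : ℝ) ^ (3 * θ / 4) ≤ 4 * B := by
      have h6 : (c₀ * (n : ℝ) ^ (3 * θ / 4)) * (n : ℝ) ^ (1 / 2 - θ)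
          ≤ (4 * B) * (n : ℝ) ^ (1 / 2 - θ) := by nlinarith
      exact le_of_mul_le_mul_right h6 hpos
    have h7 : (n : ℝ) ^ (θ / 4) ≤ (n : ℝ) ^ (3 * θ / 4) :=
      Real.rpow_le_rpow_of_exponent_le hnR (by linarith)
    have h8 : (n : ℝ) ^ (3 * θ / 4) ≤ 4 * B / c₀ := by
      rw [le_div_iff₀ hc₀]; linarith
    linarith
  · -- second case
    have h1 : Z ^ 2 ≤ B * (n : ℝ) ^ (1 / 2 - θ) * (2 * E) := by
      refine hmain.trans ?_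
      gcongr
      linarith
    have hEle : E ≤ 2 * K * 5 ^ J * (n : ℝ) ^ (1 / 2 + θ / 4) := by
      have h2 : (2 * n / 5 ^ i : ℝ) ≤ 2 * 5 ^ J * (n : ℝ) ^ (1 / 2 : ℝ) := by
        rw [div_le_iff₀ (by positivity)]
        have h3 : (n : ℝ) = (n : ℝ) ^ (1 / 2 : ℝ) * (n : ℝ) ^ (1 / 2 : ℝ) := by
          rw [← Real.rpow_add hnpos]; norm_num
        have h4 : (n : ℝ) ≤ (n : ℝ) ^ (1 / 2 : ℝ) * (5 ^ i * 5 ^ J) := by
          conv_lhs => rw [h3]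
          gcongr
        nlinarith
      rw [hE]
      calc K * (n : ℝ) ^ (θ / 4) * (2 * n / 5 ^ i)
          ≤ K * (n : ℝ) ^ (θ / 4) * (2 * 5 ^ J * (n : ℝ) ^ (1 / 2 : ℝ)) := by gcongr
        _ = 2 * K * 5 ^ J * ((n : ℝ) ^ (1 / 2 : ℝ) * (n : ℝ) ^ (θ / 4)) := by ring
        _ = 2 * K * 5 ^ J * (n : ℝ) ^ (1 / 2 + θ / 4) := by rw [← Real.rpow_add hnpos]
    have h2 : Z ^ 2 ≤ 4 * B * K * 5 ^ J * (n : ℝ) ^ (1 - 3 * θ / 4) := by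
      calc Z ^ 2 ≤ B * (n : ℝ) ^ (1 / 2 - θ) * (2 * E) := h1
        _ ≤ B * (n : ℝ) ^ (1 / 2 - θ) * (2 * (2 * K * 5 ^ J * (n : ℝ) ^ (1 / 2 + θ / 4))) := by
            gcongr
        _ = 4 * B * K * 5 ^ J * ((n : ℝ) ^ (1 / 2 - θ) * (n : ℝ) ^ (1 / 2 + θ / 4)) := by ring
        _ = 4 * B * K * 5 ^ J * (n : ℝ) ^ (1 - 3 * θ / 4) := by
            rw [← Real.rpow_add hnpos]; congr 2; ring
    have h3 : (c₀ * (n : ℝ) ^ (1 / 2 - θ / 4)) ^ 2 ≤ Z ^ 2 :=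
      pow_le_pow_left₀ (by positivity) hlow 2
    have e1 : (c₀ * (n : ℝ) ^ (1 / 2 - θ / 4)) ^ 2
        = c₀ ^ 2 * (n : ℝ) ^ (θ / 4) * (n : ℝ) ^ (1 - 3 * θ / 4) := by
      rw [mul_pow, ← Real.rpow_natCast ((n : ℝ) ^ _) 2, ← Real.rpow_mul hnpos.le, mul_assoc,
        ← Real.rpow_add hnpos]
      congr 2
      push_cast
      ring
    rw [e1] at h3
    have h4 := h3.trans h2
    have hpos : 0 < (n : ℝ) ^ (1 - 3 * θ / 4) := by positivity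
    have h5 : c₀ ^ 2 * (n : ℝ) ^ (θ / 4) ≤ 4 * B * K * 5 ^ J := le_of_mul_le_mul_right h4 hpos
    have h6 : (n : ℝ) ^ (θ / 4) ≤ 4 * B * K * 5 ^ J / c₀ ^ 2 := by
      rw [le_div_iff₀ (by positivity)]; linarith
    linarith

end Pool.Agent.H978V
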