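import Pool.Agent.H978V.LDefs
import Pool.Agent.H978V.C5
import Pool.Agent.H978V.R6
import Pool.Agent.H978V.L10m
import Pool.Agent.H978V.L11a
import Pool.Agent.H978V.L9

/-!
JOB L11 (owner helper978, MP_06cce2_nt).  `H978V/*.lean` (library, with `LDefs`) is on origin/main.

PROOF.  `c, D` from `norm_cD`; `5 ∤ D`.  `P, M` from `zs_data`; `L₀, n₀` from `linnik_hit` with `κ = 1/(4K)`.  Let `0 < ε < ε₁` (small, in particular `K ε ≤ 1/4`), `t` as given, `τ = star (vh v) * t` (norm 1), `t = vh v * τ`, `‖τ - 1‖ ≤ K ε`.  Write `τ = τ₀ + s η` with `s = ‖Im τ‖ ≥ 0`, `UP η` (any `η` if `s = 0`):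
`s ≤ K ε ≤ 1/4`, `τ₀ = √(1 - s²)` (`τ₀ > 0`).
Let `s₁ = s + ε/8`, `s₂ = s + ε/4`, `N₀ = c D 5^(4k)` (real), and `x = √N₀ √(1 - s₂²)`, `x' = √N₀ √(1 - s₁²)`: `x' - x ≥ √N₀ (s₂² - s₁²)/2 ≥ √N₀ (ε/8)(3ε/8)/2 = (3/128) √N₀ ε²`.  Let `k` be the least natural number with `(3/128) √(c D) 5^(2k) ε² ≥ M`; then
`5^(2k) ≤ 25 · 128 M/(3 √(cD) ε²) + 1` and so `4 k ≤ 4 logb 5 (1/ε) + C'`.
There is `m` with `P k m`, `x ≤ m ≤ x + M ≤ x'`.  So `n = N₀ - m²` (an integer) satisfies `s₁ ≤ √n/√N₀ ≤ s₂`, `n ≥ N₀ ε²/64 ≥ n₀` for small `ε` (`√N₀ ≥ M·128/(3ε²)`, so `N₀ ε² ≥ M' / ε²`).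
`linnik_hit`: `y ∈ ZS`, `g`; `close_hole`: `q`, `L = 4k + 2|g| ≤ 4k + 2L₀`, and `t - qh L q = vh v * (τ - (m/√N₀ + s' rt g (hat n y)))` with `s' = √n/√N₀ ∈ [s + ε/8, s + ε/4]`, `m/√N₀ = √(1 - s'²)`:
norm `≤ |√(1-s²) - √(1-s'²)| + |s' - s| + s ‖η - rt g (hat n y)‖ ≤ (s'-s)(s+s')/(..)+ ε/4 + K ε κ ≤ ε/4 + ε/4 + ε/4 < ε` (`|√(1-a²) - √(1-b²)| ≤ |a-b|` for `0 ≤ a, b ≤ 1/2`).
-/

set_option autoImplicit false

open scoped Quaternion

namespace Pool.Agent.H978V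

open Pool.Agent.Helper557.Rz




theorem l11_cz_normSq (v : ℍ[ℤ]) : Quaternion.normSq (cz v) = ((Quaternion.normSq v : ℤ) : ℝ) := by
  rw [Quaternion.normSq_def', Quaternion.normSq_def']
  simp [cz]

theorem l11_vh (v : ℍ[ℤ]) (h : 0 < Quaternion.normSq v) : ‖vh v‖ = 1 := by
  have h0 : (0 : ℝ) < ((Quaternion.normSq v : ℤ) : ℝ) := by exact_mod_cast h
  have h1 : ‖cz v‖ * ‖cz v‖ = ((Quaternion.normSq v : ℤ) : ℝ) := by
    rw [← Quaternion.normSq_eq_norm_mul_self, l11_cz_normSq]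
  have h2 : ‖cz v‖ = Real.sqrt ((Quaternion.normSq v : ℤ) : ℝ) := by
    rw [← h1, Real.sqrt_mul_self (norm_nonneg _)]
  unfold vh
  rw [norm_smul, h2, Real.norm_of_nonneg (by positivity)]
  have h3 : Real.sqrt ((Quaternion.normSq v : ℤ) : ℝ) ≠ 0 := (Real.sqrt_pos.mpr h0).ne'
  field_simp

theorem l11_unit (p : ℍ[ℝ]) (h0 : p.re = 0) (h1 : p.imI = 1) (h2 : p.imJ = 0) (h3 : p.imK = 0) :
    ‖p‖ = 1 := by
  have := Quaternion.normSq_eq_norm_mul_self p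
  rw [Quaternion.normSq_def', h0, h1, h2, h3] at this
  have h4 := norm_nonneg p
  nlinarith

/-- polar decomposition of a unit quaternion near 1 -/
theorem l11_polar (τ : ℍ[ℝ]) (h1 : ‖τ‖ = 1) (δ : ℝ) (hδ : δ ≤ 1 / 4) (h : ‖τ - 1‖ ≤ δ) :
    ∃ (a s : ℝ) (η : ℍ[ℝ]), UP η ∧ 0 ≤ s ∧ s ≤ δ ∧ 0 < a ∧ a ^ 2 + s ^ 2 = 1 ∧
      τ = (a : ℍ[ℝ]) + s • η := by
  have e1 : τ.re ^ 2 + ‖τ.im‖ ^ 2 = 1 := by
    have := Quaternion.normSq_eq_norm_mul_self τ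
    have h3 := Quaternion.normSq_eq_norm_mul_self τ.im
    rw [Quaternion.normSq_def'] at this h3
    rw [h1] at this
    simp at h3
    nlinarith
  have e2 : (τ.re - 1) ^ 2 + ‖τ.im‖ ^ 2 = ‖τ - 1‖ ^ 2 := by
    have := Quaternion.normSq_eq_norm_mul_self (τ - 1)
    have h3 := Quaternion.normSq_eq_norm_mul_self τ.im
    rw [Quaternion.normSq_def'] at this h3
    simp at h3 this
    nlinarith
  have hδ0 : 0 ≤ δ := (norm_nonneg _).trans h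
  have e3 : ‖τ - 1‖ ^ 2 ≤ δ ^ 2 := pow_le_pow_left₀ (norm_nonneg _) h 2
  have e4 : ‖τ.im‖ ≤ δ := by
    apply abs_le_of_sq_le_sq' _ hδ0 |>.2
    nlinarith [sq_nonneg (τ.re - 1)]
  have e5 : 0 < τ.re := by
    have : (τ.re - 1) ^ 2 ≤ (1 / 4) ^ 2 := by nlinarith [sq_nonneg ‖τ.im‖]
    have := abs_le_of_sq_le_sq' this (by norm_num)
    linarith [this.1]
  by_cases hs : ‖τ.im‖ = 0
  · refine ⟨τ.re, 0, ⟨0, 1, 0, 0⟩, ⟨rfl, ?_⟩, le_rfl, hδ0, e5, ?_, ?_⟩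
    · exact l11_unit ⟨0, 1, 0, 0⟩ rfl rfl rfl rfl
    · rw [hs] at e1; linarith
    · have h4 : τ.im = 0 := norm_eq_zero.mp hs
      rw [zero_smul, add_zero]
      conv_lhs => rw [← Quaternion.re_add_im τ, h4, add_zero]
  · refine ⟨τ.re, ‖τ.im‖, (1 / ‖τ.im‖) • τ.im, ⟨?_, ?_⟩, norm_nonneg _, e4, e5, e1, ?_⟩
    · simp
    · rw [norm_smul, Real.norm_of_nonneg (by positivity)]
      field_simp
    · rw [smul_smul, mul_one_div_cancel hs, one_smul, Quaternion.re_add_im]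

theorem l11_le_of_sq {x y : ℝ} (h : x ^ 2 ≤ y ^ 2) (hy : 0 ≤ y) : x ≤ y :=
  (abs_le_of_sq_le_sq' h hy).2

/-- the choice of the radius -/
theorem l11_gap {s ε Q M : ℝ} (hs : 0 ≤ s) (hs' : s ≤ 1 / 4) (hε : 0 < ε) (hε' : ε ≤ 1 / 4) (hQ : 0 < Q)
    (hM : M ≤ 3 / 128 * Q * ε ^ 2) {m : ℝ} (h1 : Q * Real.sqrt (1 - (s + ε / 4) ^ 2) ≤ m)
    (h2 : m ≤ Q * Real.sqrt (1 - (s + ε / 4) ^ 2) + M) :
    0 ≤ m ∧ Q ^ 2 * (s + ε / 8) ^ 2 ≤ Q ^ 2 - m ^ 2 ∧ Q ^ 2 - m ^ 2 ≤ Q ^ 2 * (s + ε / 4) ^ 2 := by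
  have a1 : (0 : ℝ) ≤ 1 - (s + ε / 4) ^ 2 := by nlinarith
  have a2 : (0 : ℝ) ≤ 1 - (s + ε / 8) ^ 2 := by nlinarith
  set b := Real.sqrt (1 - (s + ε / 4) ^ 2) with hb
  have hb0 : 0 ≤ b := Real.sqrt_nonneg _
  have hb2 : b ^ 2 = 1 - (s + ε / 4) ^ 2 := Real.sq_sqrt a1
  set a := Real.sqrt (1 - (s + ε / 8) ^ 2) with ha
  have ha0 : 0 ≤ a := Real.sqrt_nonneg _
  have ha2 : a ^ 2 = 1 - (s + ε / 8) ^ 2 := Real.sq_sqrt a2
  have hm0 : 0 ≤ m := (mul_nonneg hQ.le hb0).trans h1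
  have hab : b ≤ a := Real.sqrt_le_sqrt (by nlinarith)
  have ha1 : a ≤ 1 := by nlinarith [sq_nonneg (s + ε / 8)]
  have hb1 : b ≤ 1 := hab.trans ha1
  have hd : 3 / 128 * ε ^ 2 ≤ a - b := by
    have : (a - b) * (a + b) = (s + ε / 4) ^ 2 - (s + ε / 8) ^ 2 := by ring_nf; nlinarith
    have h3 : (a - b) * (a + b) ≤ (a - b) * 2 := by nlinarith
    nlinarith [mul_nonneg hs hε.le]
  have hma : m ≤ Q * a := by nlinarith
  refine ⟨hm0, ?_, ?_⟩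
  · have : m ^ 2 ≤ (Q * a) ^ 2 := pow_le_pow_left₀ hm0 hma 2
    rw [mul_pow, ha2] at this
    linarith
  · have : (Q * b) ^ 2 ≤ m ^ 2 := pow_le_pow_left₀ (mul_nonneg hQ.le hb0) h1 2
    rw [mul_pow, hb2] at this
    linarith

/-- TARGET -/
theorem hole_prim (v : ℍ[ℤ]) (hv : PrimQ v) (h5 : ¬ (5 : ℤ) ∣ Quaternion.normSq v) (K : ℝ) (hK : 1 ≤ K) :
    ∃ C ε₁ : ℝ, 0 < ε₁ ∧ ∀ ε : ℝ, 0 < ε → ε < ε₁ → ∀ t : ℍ[ℝ], ‖t‖ = 1 → ‖t - vh v‖ ≤ K * ε →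
      ∃ (L : ℕ) (q : ℍ[ℤ]), Gd q ∧ Quaternion.normSq q = 5 ^ L ∧
        (L : ℝ) ≤ 4 * Real.logb 5 (1 / ε) + C ∧ ‖t - qh L q‖ < ε := by
  obtain ⟨c, D, hc, hD, hN⟩ := norm_cD v hv
  have hDpos : 0 < D := hD.pos
  have hcpos : 0 < c := by rcases hc with h | h | h <;> omega
  have h5D : Nat.Coprime D 5 := by
    rw [Nat.coprime_comm, Nat.Prime.coprime_iff_not_dvd (by norm_num)]
    intro h
    apply h5
    rw [hN]
    exact Dvd.dvd.mul_left (by exact_mod_cast h) _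
  have hNpos : 0 < Quaternion.normSq v := by
    rw [hN]; positivity
  obtain ⟨P, M, hM, hP0, hP1, hP2⟩ := zs_data v hv c D hc hD hN
  obtain ⟨L₀, n₀, hlin⟩ := linnik_hit v hv c D hc hD h5D hN P hP1 hP2 (1 / (4 * K)) (by positivity)
  have hcR : (0 : ℝ) < (c : ℝ) := by exact_mod_cast hcpos
  have hDR : (0 : ℝ) < (D : ℝ) := by exact_mod_cast hDpos
  set B : ℝ := (c : ℝ) * (D : ℝ) with hB
  have hBpos : 0 < B := by positivity
  set A : ℝ := 128 * M / (3 * Real.sqrt B) with hA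
  have hsB : 0 < Real.sqrt B := Real.sqrt_pos.mpr hBpos
  have hApos : 0 < A := by positivity
  refine ⟨2 * Real.logb 5 A + 4 + 2 * L₀, min (1 / (4 * K)) (min A (B * A ^ 2 / (64 * (n₀ + 1)))),
    by positivity, fun ε hε hε1 t ht htv => ?_⟩
  have g1 : ε < 1 / (4 * K) := hε1.trans_le (min_le_left _ _)
  have g2 : ε < A := hε1.trans_le ((min_le_right _ _).trans (min_le_left _ _))
  have g3 : ε < B * A ^ 2 / (64 * (n₀ + 1)) :=
    hε1.trans_le ((min_le_right _ _).trans (min_le_right _ _))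
  have g1' : K * ε ≤ 1 / 4 := by
    rw [lt_div_iff₀ (by positivity)] at g1
    linarith
  have gK : ε ≤ K * ε := le_mul_of_one_le_left hε.le hK
  have g4 : ε ≤ 1 / 4 := gK.trans g1'
  have g5 : ε ^ 2 ≤ ε := by
    rw [pow_two]
    exact mul_le_of_le_one_left hε.le (by linarith)
  have g2' : ε ^ 2 ≤ A := by linarith
  have g3' : ε ^ 2 * (64 * (n₀ + 1)) ≤ B * A ^ 2 := by
    rw [lt_div_iff₀ (by positivity)] at g3
    have := mul_le_mul_of_nonneg_right g5 (by positivity : (0 : ℝ) ≤ 64 * (n₀ + 1))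
    linarith
  -- the level
  set Y : ℝ := A / ε ^ 2 with hY
  have hY1 : 1 ≤ Y := by rw [hY, le_div_iff₀ (by positivity)]; linarith
  have hYpos : 0 < Y := by linarith
  have hlY : 0 ≤ Real.logb 5 Y := Real.logb_nonneg (by norm_num) hY1
  set k : ℕ := ⌈Real.logb 5 Y / 2⌉₊ with hk
  have hk1 : Real.logb 5 Y ≤ (2 * k : ℕ) := by
    have := Nat.le_ceil (Real.logb 5 Y / 2)
    rw [← hk] at this
    push_cast
    linarith
  have hk2 : (k : ℝ) < Real.logb 5 Y / 2 + 1 := Nat.ceil_lt_add_one (by positivity)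
  have hk3 : Y ≤ 5 ^ (2 * k) := by
    rw [Real.logb_le_iff_le_rpow (by norm_num) hYpos, Real.rpow_natCast] at hk1
    exact hk1
  have hlog : Real.logb 5 Y = Real.logb 5 A + 2 * Real.logb 5 (1 / ε) := by
    rw [hY, Real.logb_div hApos.ne' (by positivity), Real.logb_div (by norm_num) hε.ne', Real.logb_one]
    have : Real.logb 5 (ε ^ 2) = 2 * Real.logb 5 ε := by
      rw [Real.logb_pow]; norm_num
    rw [this]; ring
  set Q : ℝ := Real.sqrt ((c : ℝ) * (D : ℝ) * 5 ^ (4 * k)) with hQ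
  have hQ2 : Q ^ 2 = (c : ℝ) * (D : ℝ) * 5 ^ (4 * k) := Real.sq_sqrt (by positivity)
  have hQe : Q = Real.sqrt B * 5 ^ (2 * k) := by
    rw [hQ, ← hB, Real.sqrt_mul hBpos.le]
    congr 1
    have : (5 : ℝ) ^ (4 * k) = (5 ^ (2 * k)) ^ 2 := by rw [← pow_mul]; congr 1; ring
    rw [this, Real.sqrt_sq (by positivity)]
  have hQpos : 0 < Q := by rw [hQe]; positivity
  have hQM : M ≤ 3 / 128 * Q * ε ^ 2 := by
    have h1 : A = Y * ε ^ 2 := by rw [hY]; field_simp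
    have h2 : 128 * M = A * (3 * Real.sqrt B) := by rw [hA]; field_simp
    have h3 : Y * (Real.sqrt B * ε ^ 2) ≤ 5 ^ (2 * k) * (Real.sqrt B * ε ^ 2) :=
      mul_le_mul_of_nonneg_right hk3 (by positivity)
    rw [hQe]
    rw [h1] at h2
    have h4 : 128 * M = 3 * (Y * (Real.sqrt B * ε ^ 2)) := by rw [h2]; ring
    have h5 : 3 / 128 * (Real.sqrt B * 5 ^ (2 * k)) * ε ^ 2 =
        3 / 128 * (5 ^ (2 * k) * (Real.sqrt B * ε ^ 2)) := by ring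
    rw [h5]
    linarith
  -- polar coordinates
  have hvn : ‖vh v‖ = 1 := l11_vh v hNpos
  have hss : star (vh v) * vh v = 1 := by
    rw [Quaternion.star_mul_self, Quaternion.normSq_eq_norm_mul_self, hvn]; simp
  have hss' : vh v * star (vh v) = 1 := by
    rw [Quaternion.self_mul_star, Quaternion.normSq_eq_norm_mul_self, hvn]; simp
  have hτ1 : ‖star (vh v) * t‖ = 1 := by
    rw [norm_mul, Quaternion.norm_star, hvn, ht, one_mul]
  have hτ2 : ‖star (vh v) * t - 1‖ ≤ K * ε := by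
    have : star (vh v) * t - 1 = star (vh v) * (t - vh v) := by rw [mul_sub, hss]
    rw [this, norm_mul, Quaternion.norm_star, hvn, one_mul]
    exact htv
  obtain ⟨a, s, η, hη, hs0, hsK, ha0, has, hτ⟩ := l11_polar _ hτ1 (K * ε) g1' hτ2
  -- the real part
  obtain ⟨m, hPm, hm1, hm2⟩ := hP0 k (Q * Real.sqrt (1 - (s + ε / 4) ^ 2))
  obtain ⟨hm0, hn1, hn2⟩ := l11_gap hs0 (hsK.trans g1') hε g4 hQpos hQM hm1 hm2
  have hnR : (((c * D * 5 ^ (4 * k) - m ^ 2 : ℤ)) : ℝ) = Q ^ 2 - (m : ℝ) ^ 2 := by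
    rw [hQ2]; push_cast; ring
  have hn0 : (0 : ℤ) ≤ c * D * 5 ^ (4 * k) - m ^ 2 := by
    have : (0 : ℝ) ≤ ((c * D * 5 ^ (4 * k) - m ^ 2 : ℤ) : ℝ) := by
      rw [hnR]
      exact le_trans (by positivity) hn1
    exact_mod_cast this
  obtain ⟨n, hn⟩ := Int.eq_ofNat_of_zero_le hn0
  have hn' : (n : ℤ) = c * D * 5 ^ (4 * k) - m ^ 2 := hn.symm
  have hnr : (n : ℝ) = Q ^ 2 - (m : ℝ) ^ 2 := by
    rw [← hnR, hn]; simp
  have hnn : n₀ ≤ n := by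
    have h1 : Q ^ 2 * (ε / 8) ^ 2 ≤ (n : ℝ) := by
      rw [hnr]
      refine le_trans ?_ hn1
      have : (ε / 8) ^ 2 ≤ (s + ε / 8) ^ 2 := pow_le_pow_left₀ (by positivity) (by linarith) 2
      exact mul_le_mul_of_nonneg_left this (by positivity)
    have h2 : B * Y ^ 2 ≤ Q ^ 2 := by
      rw [hQe, mul_pow, Real.sq_sqrt hBpos.le]
      exact mul_le_mul_of_nonneg_left (pow_le_pow_left₀ hYpos.le hk3 2) hBpos.le
    have h3 : Y * ε ^ 2 = A := by rw [hY]; field_simp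
    have h4 : (n₀ : ℝ) ≤ n := by
      have h5 : B * Y ^ 2 * (ε / 8) ^ 2 ≤ n :=
        (mul_le_mul_of_nonneg_right h2 (by positivity)).trans h1
      have h6 : ε ^ 2 * (64 * (n₀ + 1)) ≤ ε ^ 2 * (64 * n) := by
        calc ε ^ 2 * (64 * ((n₀ : ℝ) + 1)) ≤ B * A ^ 2 := g3'
          _ = (B * Y ^ 2 * (ε / 8) ^ 2) * (64 * ε ^ 2) := by rw [← h3]; ring
          _ ≤ n * (64 * ε ^ 2) := mul_le_mul_of_nonneg_right h5 (by positivity)
          _ = ε ^ 2 * (64 * n) := by ring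
      have h7 := le_of_mul_le_mul_left h6 (by positivity)
      linarith
    exact_mod_cast h4
  obtain ⟨y, hy, g, hg, hdv, hcl⟩ := hlin k m n hPm hn' hnn η hη
  obtain ⟨q, hq1, hq2, hq3⟩ := close_hole v hv c D hc hD hN k m n y g hy hn' hdv
  refine ⟨4 * k + 2 * g.length, q, hq1, hq2, ?_, ?_⟩
  · push_cast
    have : (g.length : ℝ) ≤ L₀ := by exact_mod_cast hg
    rw [hlog] at hk2
    linarith
  · rw [hq3, ← hQ]
    set ρ := rt g (hat n y) with hρ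
    set s' : ℝ := Real.sqrt n / Q with hs'
    set b : ℝ := m / Q with hb
    have hs'0 : 0 ≤ s' := by positivity
    have hs'2 : s' ^ 2 = n / Q ^ 2 := by
      rw [hs', div_pow, Real.sq_sqrt (by positivity)]
    have hb0 : 0 ≤ b := div_nonneg hm0 hQpos.le
    have hbs : b ^ 2 + s' ^ 2 = 1 := by
      rw [hs'2, hb, div_pow, hnr]; field_simp; ring
    have hs1 : s + ε / 8 ≤ s' := by
      have h1 : (s + ε / 8) ^ 2 ≤ s' ^ 2 := by
        rw [hs'2, le_div_iff₀ (by positivity), hnr]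
        linarith
      exact l11_le_of_sq h1 hs'0
    have hs2 : s' ≤ s + ε / 4 := by
      have h1 : s' ^ 2 ≤ (s + ε / 4) ^ 2 := by
        rw [hs'2, div_le_iff₀ (by positivity), hnr]
        linarith
      exact l11_le_of_sq h1 (by positivity)
    have ht' : t = vh v * (star (vh v) * t) := by rw [← mul_assoc, hss', one_mul]
    rw [ht', ← mul_sub, norm_mul, hvn, one_mul, hτ]
    have hdec : (a : ℍ[ℝ]) + s • η - ((b : ℍ[ℝ]) + s' • ρ) =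
        ((a - b : ℝ) : ℍ[ℝ]) + ((s - s') • η + s' • (η - ρ)) := by
      rw [Quaternion.coe_sub, sub_smul, smul_sub]; abel
    rw [hdec]
    have hs'h : s' ≤ 5 / 16 := by linarith
    have hab' : 0 ≤ a - b := by
      have h0 : s ^ 2 ≤ s' ^ 2 := pow_le_pow_left₀ hs0 (by linarith) 2
      have h1 : b ^ 2 ≤ a ^ 2 := by linarith
      have h2 := l11_le_of_sq h1 ha0.le
      linarith
    have hab : a - b ≤ s' - s := by
      have h1 : (a - b) * (a + b) = (s' - s) * (s' + s) := by linear_combination has - hbs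
      have h2 : 1 / 2 ≤ b := by
        have h0 : s' ^ 2 ≤ (5 / 16) ^ 2 := pow_le_pow_left₀ hs'0 hs'h 2
        have : (1 / 2 : ℝ) ^ 2 ≤ b ^ 2 := by norm_num at h0 ⊢; linarith
        exact l11_le_of_sq this hb0
      have h3 : (a - b) * 1 ≤ (a - b) * (a + b) := mul_le_mul_of_nonneg_left (by linarith) hab'
      have h4 : (s' - s) * (s' + s) ≤ (s' - s) * 1 :=
        mul_le_mul_of_nonneg_left (by linarith) (by linarith)
      linarith
    have k1 : ‖((a - b : ℝ) : ℍ[ℝ])‖ ≤ s' - s := by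
      rw [Quaternion.norm_coe, Real.norm_of_nonneg hab']
      exact hab
    have k2 : ‖(s - s') • η‖ ≤ s' - s := by
      rw [norm_smul, hη.2, mul_one, Real.norm_eq_abs, abs_sub_comm, abs_of_nonneg (by linarith)]
    have k3 : ‖s' • (η - ρ)‖ ≤ s' * (1 / (4 * K)) := by
      rw [norm_smul, Real.norm_of_nonneg hs'0, norm_sub_rev]
      exact mul_le_mul_of_nonneg_left hcl.le hs'0
    have k4 : s' * (1 / (4 * K)) ≤ 5 / 16 * ε := by
      rw [mul_one_div, div_le_iff₀ (by positivity)]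
      have h0 : 5 / 16 * ε * (4 * K) = 5 / 4 * (K * ε) := by ring
      rw [h0]
      linarith
    calc ‖((a - b : ℝ) : ℍ[ℝ]) + ((s - s') • η + s' • (η - ρ))‖
        ≤ ‖((a - b : ℝ) : ℍ[ℝ])‖ + (‖(s - s') • η‖ + ‖s' • (η - ρ)‖) :=
          (norm_add_le _ _).trans (add_le_add_right (norm_add_le _ _) _)
      _ ≤ (s' - s) + ((s' - s) + 5 / 16 * ε) :=
          add_le_add k1 (add_le_add k2 (k3.trans k4))
      _ < ε := by linarith

end Pool.Agent.H978V
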