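import Pool.Agent.H978V.RDefs
import Pool.Agent.H978V.C5

/-!
JOB R8 (owner helper978, MP_06cce2_nt).  `H978V/*.lean` (library, with `RDefs`) is on origin/main.

PROOF of TARGET 1.  `qd` is `|v̂ - q̂|² = 1 + 1 - 2 ⟨v,q⟩/(√d √5^L)` for the unit vectors `v̂ = v/√d`, `q̂ = q/√5^L`; `⟨v,q⟩ = Re(star v * q)`; `√d √5^L = √(d 5^L)`.
PROOF of TARGET 2.  Norms: `N(v) 25^{|w|} N(z) = (cD)² N(x)`, `N(qw w) = 5^{|w|}` (`good_qw`), so `N(x) = 5^{l+2|w|}`.  `(cD) • (star v * x) = star v * v * (qw w * z * star (qw w)) = (cD) • (qw w * z * star (qw w))`, so `star v * x = qw w * z * star (qw w)`,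
whose real part is `5^{|w|} z.re`.  Then TARGET 1 with `√(d 5^{l+2|w|}) = 5^{|w|} √(d 5^l)`.
PROOF of TARGET 3.  For a positive integer `g`, `v = g v'` has the same direction.  For `v = y * al a` and `q' = q * al a`: `star v * q' = star (al a) * (star y * q) * al a`, real part `5 Re(star y * q)`, `normSq v = 5 normSq y`; use TARGET 1.
-/

set_option autoImplicit false

open scoped Quaternion

namespace Pool.Agent.H978V

open Pool.Agent.Helper557.Rz

theorem r8_dot (v q : ℍ[ℤ]) :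
    (star v * q).re = v.re * q.re + v.imI * q.imI + v.imJ * q.imJ + v.imK * q.imK := by
  simp [Quaternion.re_mul]

theorem r8_coe (r : ℤ) (y : ℍ[ℤ]) : (Quaternion.coe r * y).re = r * y.re := by
  rw [Quaternion.coe_mul_eq_smul]
  simp

theorem r8_smul (r : ℤ) (y : ℍ[ℤ]) : (r • y).re = r * y.re := by
  simp

theorem r8_conj (q z : ℍ[ℤ]) : (q * z * star q).re = Quaternion.normSq q * z.re := by
  rw [c5_norm]
  simp [Quaternion.re_mul, Quaternion.imI_mul, Quaternion.imJ_mul, Quaternion.imK_mul]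
  ring

theorem r8_conj' (q z : ℍ[ℤ]) : (star q * z * q).re = Quaternion.normSq q * z.re := by
  rw [c5_norm]
  simp [Quaternion.re_mul, Quaternion.imI_mul, Quaternion.imJ_mul, Quaternion.imK_mul]
  ring

theorem r8_pos {v : ℍ[ℤ]} (hv : v ≠ 0) : 0 < Quaternion.normSq v :=
  lt_of_le_of_ne Quaternion.normSq_nonneg (Ne.symm (Quaternion.normSq_ne_zero.2 hv))

theorem r8_sqrt (a b : ℝ) (hb : 0 ≤ b) : Real.sqrt (b ^ 2 * a) = b * Real.sqrt a := by
  rw [Real.sqrt_mul (sq_nonneg b), Real.sqrt_sq hb]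

/-- TARGET 1 -/
theorem qv_eq (v q : ℍ[ℤ]) (L : ℕ) (hv : v ≠ 0) (hq : Quaternion.normSq q = 5 ^ L) :
    qv v q L = 2 - 2 * (((star v * q).re : ℝ) / Real.sqrt ((Quaternion.normSq v : ℤ) * 5 ^ L)) := by
  have hN : (0 : ℝ) < ((Quaternion.normSq v : ℤ) : ℝ) := by exact_mod_cast r8_pos hv
  have h5 : (0 : ℝ) < Real.sqrt 5 ^ L := by positivity
  have e5 : (Real.sqrt 5 ^ L) ^ 2 = (5 : ℝ) ^ L := by
    rw [← pow_mul, mul_comm, pow_mul, Real.sq_sqrt (by norm_num)]
  have hs : 0 < Real.sqrt ((Quaternion.normSq v : ℤ) : ℝ) := Real.sqrt_pos.2 hN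
  have es : Real.sqrt ((Quaternion.normSq v : ℤ) : ℝ) ^ 2 = ((Quaternion.normSq v : ℤ) : ℝ) :=
    Real.sq_sqrt hN.le
  have e1 : Real.sqrt (((Quaternion.normSq v : ℤ) : ℝ) * 5 ^ L) =
      Real.sqrt ((Quaternion.normSq v : ℤ) : ℝ) * Real.sqrt 5 ^ L := by
    rw [Real.sqrt_mul hN.le]
    congr 1
    rw [← e5, Real.sqrt_sq h5.le]
  have ev : ((Quaternion.normSq v : ℤ) : ℝ) = (v.re : ℝ) * v.re + v.imI * v.imI + v.imJ * v.imJ +
      v.imK * v.imK := by
    rw [c5_norm]
    push_cast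
    ring
  have eq : (5 : ℝ) ^ L = (q.re : ℝ) * q.re + q.imI * q.imI + q.imJ * q.imJ + q.imK * q.imK := by
    have := congrArg (fun z : ℤ => (z : ℝ)) hq
    simp only [c5_norm] at this
    push_cast at this
    exact this.symm
  rw [e1, r8_dot]
  unfold qv qd
  push_cast
  generalize Real.sqrt ((Quaternion.normSq v : ℤ) : ℝ) = s at hs es ⊢
  generalize Real.sqrt 5 ^ L = f at h5 e5 ⊢
  have a1 : (v.re : ℝ) * v.re + v.imI * v.imI + v.imJ * v.imJ + v.imK * v.imK = s ^ 2 := by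
    rw [es, ev]
  have a2 : (q.re : ℝ) * q.re + q.imI * q.imI + q.imJ * q.imJ + q.imK * q.imK = f ^ 2 := by
    rw [e5, eq]
  have hs' := hs.ne'
  have hf' := h5.ne'
  field_simp
  linear_combination (f ^ 2) * a1 + (s ^ 2) * a2

/-- TARGET 2 -/
theorem close_rat (v z x : ℍ[ℤ]) (w : List (Fin 6)) (c : ℤ) (D l : ℕ) (hc : 0 < c) (hD : 0 < D)
    (hv : Quaternion.normSq v = c * D) (hz : Quaternion.normSq z = c * D * 5 ^ l)
    (hx : v * (qw w * z * star (qw w)) = (c * D) • x) :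
    Quaternion.normSq x = 5 ^ (l + 2 * w.length) ∧
      qv v x (l + 2 * w.length) = 2 - 2 * ((z.re : ℝ) / Real.sqrt (c * D * 5 ^ l)) := by
  have hcD : (0 : ℤ) < c * D := mul_pos hc (by exact_mod_cast hD)
  have hn : Quaternion.normSq x = 5 ^ (l + 2 * w.length) := by
    have h1 := congrArg Quaternion.normSq hx
    rw [map_mul, map_mul, map_mul, Quaternion.normSq_star, Quaternion.normSq_smul, hv, hz,
      (good_qw w).2] at h1
    have h2 : (c * D : ℤ) ^ 2 * Quaternion.normSq x = (c * D) ^ 2 * 5 ^ (l + 2 * w.length) := by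
      rw [← h1]
      ring
    exact mul_left_cancel₀ (pow_ne_zero 2 hcD.ne') h2
  refine ⟨hn, ?_⟩
  have hv0 : v ≠ 0 := by
    rintro rfl
    simp at hv
    rcases hv with h | h
    · omega
    · omega
  rw [qv_eq v x _ hv0 hn]
  have h3 : (star v * x).re = 5 ^ w.length * z.re := by
    have h4 : (c * D : ℤ) * (star v * x).re = (c * D) * (5 ^ w.length * z.re) := by
      have h5 : star v * (v * (qw w * z * star (qw w))) = star v * ((c * D : ℤ) • x) := by rw [hx]
      rw [← mul_assoc, Quaternion.star_mul_self, hv] at h5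
      have h6 : (Quaternion.coe (c * D) * (qw w * z * star (qw w))).re =
          (star v * ((c * D : ℤ) • x)).re := congrArg (fun y : ℍ[ℤ] => y.re) h5
      rw [r8_coe, r8_conj, (good_qw w).2, mul_smul_comm, r8_smul] at h6
      exact h6.symm
    exact mul_left_cancel₀ hcD.ne' h4
  have h7 : Real.sqrt (((Quaternion.normSq v : ℤ) : ℝ) * 5 ^ (l + 2 * w.length)) =
      5 ^ w.length * Real.sqrt (c * D * 5 ^ l) := by
    rw [← r8_sqrt _ _ (by positivity), hv]
    congr 1
    push_cast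
    ring
  rw [h7, h3]
  push_cast
  congr 2
  exact mul_div_mul_left _ _ (by positivity)

/-- TARGET 3 -/
theorem qv_scale (v q : ℍ[ℤ]) (L : ℕ) (hv : v ≠ 0) (hq : Quaternion.normSq q = 5 ^ L) :
    (∀ g : ℤ, 0 < g → qv (g • v) q L = qv v q L) ∧
      ∀ a : Fin 6, qv (v * al a) (q * al a) (L + 1) = qv v q L := by
  constructor
  · intro g hg
    have hg' : (0 : ℝ) < g := by exact_mod_cast hg
    have h1 : g • v ≠ 0 := smul_ne_zero hg.ne' hv
    rw [qv_eq _ _ _ h1 hq, qv_eq _ _ _ hv hq]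
    have h2 : (star (g • v) * q).re = g * (star v * q).re := by
      simp [Quaternion.re_mul]
      ring
    have h3 : Real.sqrt (((Quaternion.normSq (g • v) : ℤ) : ℝ) * 5 ^ L) =
        g * Real.sqrt (((Quaternion.normSq v : ℤ) : ℝ) * 5 ^ L) := by
      rw [← r8_sqrt _ _ hg'.le, Quaternion.normSq_smul]
      congr 1
      push_cast
      ring
    rw [h2, h3]
    push_cast
    rw [mul_div_mul_left _ _ hg'.ne']
  · intro a
    have h0 : Quaternion.normSq (al a) = 5 := c5_norm_al a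
    have ha : al a ≠ 0 := by
      intro h
      rw [h] at h0
      simp at h0
    have h1 : v * al a ≠ 0 := mul_ne_zero hv ha
    have h2 : Quaternion.normSq (q * al a) = 5 ^ (L + 1) := by
      rw [map_mul, hq, h0, pow_succ]
    rw [qv_eq _ _ _ h1 h2, qv_eq _ _ _ hv hq]
    have h3 : (star (v * al a) * (q * al a)).re = 5 * (star v * q).re := by
      rw [← h0, ← r8_conj' (al a), star_mul]
      congr 1
      noncomm_ring
    have h4 : Real.sqrt (((Quaternion.normSq (v * al a) : ℤ) : ℝ) * 5 ^ (L + 1)) =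
        5 * Real.sqrt (((Quaternion.normSq v : ℤ) : ℝ) * 5 ^ L) := by
      rw [← r8_sqrt _ _ (by norm_num), map_mul, h0]
      congr 1
      push_cast
      ring
    rw [h3, h4]
    push_cast
    rw [mul_div_mul_left _ _ (by norm_num)]

end Pool.Agent.H978V
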