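import Pool.Agent.H978V.LDefs
import Pool.Agent.H978V.C5
import Pool.Agent.H978V.R8
import Pool.Agent.H978V.L11
import Pool.Agent.H978V.L12

/-!
JOB L13 (owner helper978, MP_06cce2_nt).  `H978V/*.lean` (library, with `LDefs`) is on origin/main.

PROOF.  (a) Small `ε`: there are `C, ε₁` such that the statement holds for `ε < ε₁`, for every `v ≠ 0`.  `v = g • v'` with `v'` primitive (`PrimQ`), `g ≥ 1`: `vh v = vh v'`.  Then induction on the norm of the primitive `v'`: if `5 ∤ normSq v'`, `hole_prim` (with `max K 1`).  If `5 ∣ normSq v'`: `v' = y * al a` (`c5_exists`), `y` primitive of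
smaller norm, `vh v' = vh y * (1/√5 • cz (al a))`; with `β = (1/√5) • cz (al a)` (norm 1): `‖t * star β - vh y‖ = ‖t - vh v'‖`, and from `q` for `t * star β`: `q * al a` for `t` (`c5_good`, norm `5^(L+1)`, `qh (L+1) (q * al a) = qh L q * β`), constant `C + 1`.
(b) For `ε₁ ≤ ε < 1`: `dense_words ε₁`: length `≤ L₁ ≤ 4 logb 5 (1/ε) + L₁`.  Take the maximum of the constants.
-/

set_option autoImplicit false

open scoped Quaternion

namespace Pool.Agent.H978V

open Pool.Agent.Helper557.Rz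




/-- the quaternion with given coordinates -/
def l13_mk (a b c d : ℤ) : ℍ[ℤ] := ⟨a, b, c, d⟩

theorem l13_re (v : ℍ[ℤ]) : (cz v).re = v.re := rfl
theorem l13_imI (v : ℍ[ℤ]) : (cz v).imI = v.imI := rfl
theorem l13_imJ (v : ℍ[ℤ]) : (cz v).imJ = v.imJ := rfl
theorem l13_imK (v : ℍ[ℤ]) : (cz v).imK = v.imK := rfl

theorem l13_cz_smul (g : ℤ) (v : ℍ[ℤ]) : cz (g • v) = (g : ℝ) • cz v := by
  ext
  · rw [Quaternion.re_smul, l13_re, l13_re, Quaternion.re_smul, smul_eq_mul, smul_eq_mul]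
    push_cast
    rfl
  · rw [Quaternion.imI_smul, l13_imI, l13_imI, Quaternion.imI_smul, smul_eq_mul, smul_eq_mul]
    push_cast
    rfl
  · rw [Quaternion.imJ_smul, l13_imJ, l13_imJ, Quaternion.imJ_smul, smul_eq_mul, smul_eq_mul]
    push_cast
    rfl
  · rw [Quaternion.imK_smul, l13_imK, l13_imK, Quaternion.imK_smul, smul_eq_mul, smul_eq_mul]
    push_cast
    rfl

theorem l13_normSq_cz (v : ℍ[ℤ]) : Quaternion.normSq (cz v) = ((Quaternion.normSq v : ℤ) : ℝ) := by
  rw [c5_norm, Quaternion.normSq_def']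
  simp only [cz]
  push_cast
  ring

theorem l13_vh_smul (g : ℤ) (hg : 0 < g) (v : ℍ[ℤ]) : vh (g • v) = vh v := by
  have hg' : (0 : ℝ) < g := by exact_mod_cast hg
  unfold vh
  rw [l13_cz_smul, Quaternion.normSq_smul]
  have h : Real.sqrt (((g ^ 2 * Quaternion.normSq v : ℤ)) : ℝ) =
      g * Real.sqrt ((Quaternion.normSq v : ℤ) : ℝ) := by
    rw [← r8_sqrt _ _ hg'.le]
    push_cast
    rfl
  rw [h, smul_smul]
  congr 1
  rw [one_div, one_div, mul_inv]
  field_simp

/-- the unit quaternion of a gate -/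
noncomputable def l13_be (a : Fin 6) : ℍ[ℝ] := (1 / Real.sqrt 5) • cz (al a)

theorem l13_be_norm (a : Fin 6) : ‖l13_be a‖ = 1 := by
  have h5 : (0 : ℝ) < Real.sqrt 5 := by positivity
  have h : ‖cz (al a)‖ * ‖cz (al a)‖ = 5 := by
    rw [← Quaternion.normSq_eq_norm_mul_self, l13_normSq_cz, c5_norm_al]
    norm_num
  have h1 : ‖cz (al a)‖ = Real.sqrt 5 := by
    rw [← h, Real.sqrt_mul_self (norm_nonneg _)]
  unfold l13_be
  rw [norm_smul, h1, Real.norm_eq_abs, abs_of_pos (by positivity)]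
  field_simp

theorem l13_be_star (a : Fin 6) : l13_be a * star (l13_be a) = 1 := by
  rw [Quaternion.self_mul_star, Quaternion.normSq_eq_norm_mul_self, l13_be_norm]
  simp

theorem l13_be_star' (a : Fin 6) : star (l13_be a) * l13_be a = 1 := by
  rw [Quaternion.star_mul_self, Quaternion.normSq_eq_norm_mul_self, l13_be_norm]
  simp

theorem l13_vh_al (y : ℍ[ℤ]) (a : Fin 6) : vh (y * al a) = vh y * l13_be a := by
  unfold vh l13_be
  rw [cz_mul, map_mul, c5_norm_al, smul_mul_smul_comm]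
  congr 1
  push_cast
  rw [Real.sqrt_mul (by exact_mod_cast Quaternion.normSq_nonneg)]
  rw [one_div_mul_one_div]

theorem l13_qh_al (L : ℕ) (q : ℍ[ℤ]) (a : Fin 6) :
    qh (L + 1) (q * al a) = qh L q * l13_be a := by
  unfold qh l13_be
  rw [cz_mul, smul_mul_smul_comm, pow_succ, one_div_mul_one_div]

/-- the statement for small `ε` -/
theorem l13_small (K : ℝ) (hK : 1 ≤ K) : ∀ (n : ℕ) (v : ℍ[ℤ]), v ≠ 0 →
    (Quaternion.normSq v).natAbs = n →
    ∃ C ε₁ : ℝ, 0 < ε₁ ∧ ∀ ε : ℝ, 0 < ε → ε < ε₁ → ∀ t : ℍ[ℝ], ‖t‖ = 1 → ‖t - vh v‖ ≤ K * ε →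
      ∃ (L : ℕ) (q : ℍ[ℤ]), Gd q ∧ Quaternion.normSq q = 5 ^ L ∧
        (L : ℝ) ≤ 4 * Real.logb 5 (1 / ε) + C ∧ ‖t - qh L q‖ < ε := by
  intro n
  induction n using Nat.strong_induction_on with
  | _ n ih =>
    intro v hv hn
    have hpos := r8_pos hv
    by_cases h5 : (5 : ℤ) ∣ Quaternion.normSq v
    · obtain ⟨a, y, rfl⟩ := c5_exists v h5
      have hy : y ≠ 0 := by
        rintro rfl
        exact hv (zero_mul _)
      have hypos := r8_pos hy
      have hlt : (Quaternion.normSq y).natAbs < n := by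
        rw [map_mul, c5_norm_al] at hn
        omega
      obtain ⟨C, ε₁, hε₁, H⟩ := ih _ hlt y hy rfl
      refine ⟨C + 1, ε₁, hε₁, fun ε h1 h2 t ht htv => ?_⟩
      rw [l13_vh_al] at htv
      have e1 : t * star (l13_be a) - vh y = (t - vh y * l13_be a) * star (l13_be a) := by
        rw [sub_mul, mul_assoc, l13_be_star, mul_one]
      have e2 : ‖t * star (l13_be a)‖ = 1 := by
        rw [norm_mul, norm_star, l13_be_norm, ht, mul_one]
      have e3 : ‖t * star (l13_be a) - vh y‖ ≤ K * ε := by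
        rw [e1, norm_mul, norm_star, l13_be_norm, mul_one]
        exact htv
      obtain ⟨L, q, hq1, hq2, hq3, hq4⟩ := H ε h1 h2 _ e2 e3
      refine ⟨L + 1, q * al a, (c5_good a q).2 hq1, ?_, ?_, ?_⟩
      · rw [map_mul, hq2, c5_norm_al, pow_succ]
      · push_cast
        linarith
      · have e4 : t - qh (L + 1) (q * al a) = (t * star (l13_be a) - qh L q) * l13_be a := by
          rw [l13_qh_al, sub_mul, mul_assoc, l13_be_star', mul_one]
        rw [e4, norm_mul, l13_be_norm, mul_one]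
        exact hq4
    · by_cases hp : PrimQ v
      · exact hole_prim v hp h5 K hK
      · unfold PrimQ at hp
        push Not at hp
        obtain ⟨p, hp, hd⟩ := hp
        have hp2 : 2 ≤ p := hp.two_le
        obtain ⟨⟨a0, e0⟩, ⟨a1, e1⟩, ⟨a2, e2⟩, ⟨a3, e3⟩⟩ := hd
        obtain ⟨y, hvv⟩ : ∃ y : ℍ[ℤ], v = (p : ℤ) • y := by
          refine ⟨l13_mk a0 a1 a2 a3, ?_⟩
          apply Quaternion.ext
          · rw [Quaternion.re_smul, e0]; rfl
          · rw [Quaternion.imI_smul, e1]; rfl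
          · rw [Quaternion.imJ_smul, e2]; rfl
          · rw [Quaternion.imK_smul, e3]; rfl
        have hy : y ≠ 0 := by
          intro h
          rw [h, smul_zero] at hvv
          exact hv hvv
        have hypos := r8_pos hy
        have hnv : Quaternion.normSq v = (p : ℤ) ^ 2 * Quaternion.normSq y := by
          rw [hvv, Quaternion.normSq_smul]
        have hlt : (Quaternion.normSq y).natAbs < n := by
          have h1 : Quaternion.normSq y < Quaternion.normSq v := by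
            rw [hnv]
            have h2 : (2 : ℤ) ≤ p := by exact_mod_cast hp2
            have h3 : (4 : ℤ) ≤ (p : ℤ) ^ 2 := by nlinarith
            nlinarith
          omega
        obtain ⟨C, ε₁, hε₁, H⟩ := ih _ hlt y hy rfl
        have hvh : vh v = vh y := by
          rw [hvv, l13_vh_smul _ (by exact_mod_cast hp.pos)]
        exact ⟨C, ε₁, hε₁, fun ε h1 h2 t ht htv => H ε h1 h2 t ht (by rwa [hvh] at htv)⟩

/-- TARGET -/
theorem hole_upper (v : ℍ[ℤ]) (hv : v ≠ 0) (K : ℝ) : ∃ C : ℝ, ∀ ε : ℝ, 0 < ε → ε < 1 → ∀ t : ℍ[ℝ],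
    ‖t‖ = 1 → ‖t - vh v‖ ≤ K * ε → ∃ (L : ℕ) (q : ℍ[ℤ]), Gd q ∧ Quaternion.normSq q = 5 ^ L ∧
      (L : ℝ) ≤ 4 * Real.logb 5 (1 / ε) + C ∧ ‖t - qh L q‖ < ε := by
  obtain ⟨C, ε₁, hε₁, H⟩ := l13_small (max K 1) (le_max_right _ _) _ v hv rfl
  obtain ⟨L₁, H₁⟩ := dense_words ε₁ hε₁
  refine ⟨max C L₁, fun ε h1 h2 t ht htv => ?_⟩
  by_cases hlt : ε < ε₁
  · have h3 : ‖t - vh v‖ ≤ max K 1 * ε :=
      htv.trans (mul_le_mul_of_nonneg_right (le_max_left _ _) h1.le)
    obtain ⟨L, q, hq1, hq2, hq3, hq4⟩ := H ε h1 hlt t ht h3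
    exact ⟨L, q, hq1, hq2, hq3.trans (by linarith [le_max_left C (L₁ : ℝ)]), hq4⟩
  · obtain ⟨L, q, hq1, hq2, hq3, hq4⟩ := H₁ t ht
    refine ⟨L, q, hq1, hq2, ?_, hq4.trans_le (not_lt.1 hlt)⟩
    have hlog : 0 ≤ Real.logb 5 (1 / ε) := by
      refine Real.logb_nonneg (by norm_num) ?_
      rw [le_div_iff₀ h1]
      linarith
    have h4 : (L : ℝ) ≤ L₁ := by exact_mod_cast hq3
    linarith [le_max_right C (L₁ : ℝ)]

end Pool.Agent.H978V
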