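import Pool.Agent.H820R3.DG.Gap

/-!
# Ridout's theorem for powers of `5`
-/

set_option autoImplicit false

namespace Pool.Agent.H978V

/-- Ridout's theorem for the denominators `5 ^ L` -/
theorem ridout5 {y : ℝ} (halg : IsAlgebraic ℚ y) (hirr : Irrational y) (δ : ℝ) (hδ : 0 < δ)
    (hδ1 : δ ≤ 1) : ∃ L0 : ℕ, ∀ L : ℕ, L0 ≤ L → ∀ P : ℤ,
      Real.exp (-(δ * (L * Real.log 5))) < |y * (5 : ℝ) ^ L - P| := by
  simpa using Pool.Agent.H820R3.DG.ridout (b := 5) (y := y) (by norm_num) halg hirr δ hδ hδ1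

end Pool.Agent.H978V
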