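import Pool.Agent.H978V.RDefs
import Pool.Agent.H978V.R10a
import Pool.Agent.H978V.R8

/-!
JOB R10 (owner helper978, MP_06cce2_nt).  `H978V/*.lean` (library, with `RDefs`) is on origin/main; Ridout's theorem `ridout5` is given (it is in a starting file).
-/

set_option autoImplicit false

open scoped Quaternion

namespace Pool.Agent.H978V

open Pool.Agent.Helper557.Rz



theorem gap5_pow_le_one (δ : ℝ) (hδ : 0 < δ) (j : ℕ) : (5 : ℝ) ^ (-(δ * j)) ≤ 1 := by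
  apply Real.rpow_le_one_of_one_le_of_nonpos (by norm_num)
  have : 0 ≤ δ * j := by positivity
  linarith

theorem gap5_fin (y : ℝ) (hy : Irrational y) (n : ℕ) :
    ∃ c : ℝ, 0 < c ∧ c ≤ 1 ∧ ∀ j < n, c ≤ Int.fract (y * (5 : ℝ) ^ j) := by
  induction n with
  | zero => exact ⟨1, one_pos, le_rfl, fun j hj => absurd hj (Nat.not_lt_zero j)⟩
  | succ n ih =>
    obtain ⟨c, hc, hc1, h⟩ := ih
    have hirr : Irrational (y * (5 : ℝ) ^ n) := by
      have h1 : Irrational (y * ((5 ^ n : ℚ) : ℝ)) := hy.mul_ratCast (by positivity)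
      simpa using h1
    have hpos : 0 < Int.fract (y * (5 : ℝ) ^ n) := by
      rcases (Int.fract_nonneg (y * (5 : ℝ) ^ n)).lt_or_eq with h0 | h0
      · exact h0
      · exfalso
        have h2 : (y * (5 : ℝ) ^ n) = ⌊y * (5 : ℝ) ^ n⌋ := by
          have := Int.self_sub_floor (y * (5 : ℝ) ^ n)
          linarith
        exact hirr.ne_int _ h2
    refine ⟨min c (Int.fract (y * (5 : ℝ) ^ n)), lt_min hc hpos, (min_le_left _ _).trans hc1, ?_⟩
    intro j hj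
    rcases Nat.lt_succ_iff_lt_or_eq.mp hj with h3 | rfl
    · exact (min_le_left _ _).trans (h j h3)
    · exact min_le_right _ _

theorem gap5_aux (e : ℕ) (he : 1 ≤ e) (δ : ℝ) (hδ : 0 < δ) : ∃ c : ℝ, 0 < c ∧ ∀ (j : ℕ) (m : ℤ),
    (m : ℝ) < Real.sqrt e * 5 ^ j → c * (5 : ℝ) ^ (-(δ * j)) ≤ Real.sqrt e * 5 ^ j - m := by
  by_cases hirr : Irrational (Real.sqrt e)
  · have halg : IsAlgebraic ℚ (Real.sqrt e) := by
      refine ⟨Polynomial.X ^ 2 - Polynomial.C (e : ℚ), Polynomial.X_pow_sub_C_ne_zero (by norm_num) _, ?_⟩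
      simp [Real.sq_sqrt (Nat.cast_nonneg e : (0 : ℝ) ≤ (e : ℝ))]
    obtain ⟨L0, hL0⟩ := ridout5 halg hirr (min δ 1) (lt_min hδ one_pos) (min_le_right _ _)
    obtain ⟨c, hc, hc1, hfin⟩ := gap5_fin _ hirr L0
    refine ⟨c, hc, ?_⟩
    intro j m hm
    rcases lt_or_ge j L0 with hj | hj
    · have h1 : (m : ℝ) ≤ ⌊Real.sqrt e * (5 : ℝ) ^ j⌋ := by
        exact_mod_cast Int.le_floor.mpr hm.le
      have h2 := hfin j hj
      have h3 := Int.self_sub_floor (Real.sqrt e * (5 : ℝ) ^ j)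
      have h4 := gap5_pow_le_one δ hδ j
      have h5 : c * (5 : ℝ) ^ (-(δ * j)) ≤ c := by nlinarith
      linarith
    · have h1 := hL0 j hj m
      rw [abs_of_pos (by linarith)] at h1
      have h2 : (5 : ℝ) ^ (-(δ * j)) ≤ Real.exp (-(min δ 1 * (j * Real.log 5))) := by
        rw [Real.rpow_def_of_pos (by norm_num : (0 : ℝ) < 5)]
        apply Real.exp_le_exp.mpr
        have h3 : min δ 1 ≤ δ := min_le_left _ _
        have h4 : 0 ≤ (j : ℝ) * Real.log 5 := mul_nonneg (Nat.cast_nonneg _) (Real.log_nonneg (by norm_num))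
        nlinarith [mul_le_mul_of_nonneg_right h3 h4]
      have h5 : 0 < (5 : ℝ) ^ (-(δ * j)) := Real.rpow_pos_of_pos (by norm_num) _
      have h6 : c * (5 : ℝ) ^ (-(δ * j)) ≤ (5 : ℝ) ^ (-(δ * j)) := by nlinarith
      linarith
  · rw [irrational_sqrt_natCast_iff, not_not] at hirr
    obtain ⟨k, hk⟩ := hirr
    have hs : Real.sqrt e = k := by
      rw [hk]; push_cast
      exact Real.sqrt_mul_self (Nat.cast_nonneg k)
    refine ⟨1, one_pos, ?_⟩
    intro j m hm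
    rw [hs] at hm ⊢
    have h1 : m < (k : ℤ) * 5 ^ j := by exact_mod_cast hm
    have h2 : m + 1 ≤ (k : ℤ) * 5 ^ j := h1
    have h3 : (m : ℝ) + 1 ≤ (k : ℝ) * 5 ^ j := by exact_mod_cast h2
    have h4 := gap5_pow_le_one δ hδ j
    linarith

/-- TARGET 1 -/
theorem gap5 (d : ℕ) (hd : 1 ≤ d) (δ : ℝ) (hδ : 0 < δ) : ∃ c : ℝ, 0 < c ∧ ∀ (l : ℕ) (m : ℤ),
    (m : ℝ) < Real.sqrt (d * 5 ^ l) → c * (5 : ℝ) ^ (-(δ * l)) ≤ Real.sqrt (d * 5 ^ l) - m := by
  obtain ⟨c1, hc1, h1⟩ := gap5_aux d hd δ hδ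
  obtain ⟨c2, hc2, h2⟩ := gap5_aux (5 * d) (by omega) δ hδ
  refine ⟨min c1 c2, lt_min hc1 hc2, ?_⟩
  intro l m hm
  have hmono : ∀ j : ℕ, j ≤ l → (5 : ℝ) ^ (-(δ * l)) ≤ (5 : ℝ) ^ (-(δ * j)) := by
    intro j hj
    apply Real.rpow_le_rpow_of_exponent_le (by norm_num)
    have : (j : ℝ) ≤ l := by exact_mod_cast hj
    nlinarith
  have hp : 0 < (5 : ℝ) ^ (-(δ * l)) := Real.rpow_pos_of_pos (by norm_num) _
  rcases Nat.even_or_odd' l with ⟨j, hj | hj⟩
  · have hs : Real.sqrt (d * 5 ^ l) = Real.sqrt d * 5 ^ j := by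
      rw [hj, pow_mul', Real.sqrt_mul (Nat.cast_nonneg d), Real.sqrt_sq (by positivity)]
    rw [hs] at hm ⊢
    have h3 := h1 j m hm
    have h4 := hmono j (by omega)
    calc min c1 c2 * (5 : ℝ) ^ (-(δ * l)) ≤ c1 * (5 : ℝ) ^ (-(δ * l)) :=
          mul_le_mul_of_nonneg_right (min_le_left _ _) hp.le
      _ ≤ c1 * (5 : ℝ) ^ (-(δ * j)) := mul_le_mul_of_nonneg_left h4 hc1.le
      _ ≤ _ := h3
  · have hs : Real.sqrt (d * 5 ^ l) = Real.sqrt ((5 * d : ℕ) : ℝ) * 5 ^ j := by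
      have h5 : ((d : ℝ) * 5 ^ l) = ((5 * d : ℕ) : ℝ) * (5 ^ j) ^ 2 := by
        rw [hj]; push_cast; ring
      rw [h5, Real.sqrt_mul (Nat.cast_nonneg _), Real.sqrt_sq (by positivity)]
    rw [hs] at hm ⊢
    have h3 := h2 j m hm
    have h4 := hmono j (by omega)
    calc min c1 c2 * (5 : ℝ) ^ (-(δ * l)) ≤ c2 * (5 : ℝ) ^ (-(δ * l)) :=
          mul_le_mul_of_nonneg_right (min_le_right _ _) hp.le
      _ ≤ c2 * (5 : ℝ) ^ (-(δ * j)) := mul_le_mul_of_nonneg_left h4 hc2.le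
      _ ≤ _ := h3

/-- TARGET 2 -/
theorem rat_lower (v : ℍ[ℤ]) (hv : v ≠ 0) (η : ℝ) (hη : 0 < η) : ∃ ε₀ : ℝ, 0 < ε₀ ∧ ε₀ < 1 ∧
    ∀ ε : ℝ, 0 < ε → ε < ε₀ → ∀ (L : ℕ) (q : ℍ[ℤ]), Quaternion.normSq q = 5 ^ L →
      qv v q L < ε ^ 2 → qv v q L ≠ 0 → (4 - η) * Real.logb 5 (1 / ε) ≤ L := by
  have hlogpos : ∀ ε : ℝ, 0 < ε → ε < 1 → 0 < Real.logb 5 (1 / ε) := by
    intro ε h0 h1
    apply Real.logb_pos (by norm_num)
    rw [lt_div_iff₀ h0]; linarith
  rcases le_or_gt 4 η with h4 | h4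
  · refine ⟨1 / 2, by norm_num, by norm_num, ?_⟩
    intro ε h0 h1 L q _ _ _
    have h2 := hlogpos ε h0 (by linarith)
    have h3 : (0 : ℝ) ≤ L := Nat.cast_nonneg L
    nlinarith
  have hdz : (0 : ℤ) < Quaternion.normSq v := by
    have h0 : 0 ≤ Quaternion.normSq v := Quaternion.normSq_nonneg
    rcases h0.lt_or_eq with h | h
    · exact h
    · exact absurd (Quaternion.normSq_eq_zero.mp h.symm) hv
  obtain ⟨d, hd⟩ := Int.eq_ofNat_of_zero_le hdz.le
  have hd1 : 1 ≤ d := by omega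
  have hdR : ((Quaternion.normSq v : ℤ) : ℝ) = (d : ℝ) := by rw [hd]; simp
  obtain ⟨c, hc, hgap⟩ := gap5 d hd1 (η / 32) (by positivity)
  have hd0 : (0 : ℝ) < d := by exact_mod_cast hd1
  set K : ℝ := Real.logb 5 (2 * c / Real.sqrt d) with hK
  have hsd : 0 < Real.sqrt d := Real.sqrt_pos.mpr hd0
  refine ⟨(5 : ℝ) ^ (-(8 * |K| / (3 * η) + 1)), Real.rpow_pos_of_pos (by norm_num) _, ?_, ?_⟩
  · apply Real.rpow_lt_one_of_one_lt_of_neg (by norm_num)
    have : 0 ≤ 8 * |K| / (3 * η) := by positivity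
    linarith
  intro ε h0 h1 L q hq hlt hne
  have hε1 : ε < 1 := by
    refine h1.trans ?_
    apply Real.rpow_lt_one_of_one_lt_of_neg (by norm_num)
    have : 0 ≤ 8 * |K| / (3 * η) := by positivity
    linarith
  set X : ℝ := Real.logb 5 (1 / ε) with hX
  have hX1 : 8 * |K| / (3 * η) + 1 < X := by
    rw [hX, one_div, Real.logb_inv]
    have h2 : Real.logb 5 ε < -(8 * |K| / (3 * η) + 1) := by
      rw [Real.logb_lt_iff_lt_rpow (by norm_num) h0]
      exact h1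
    linarith
  have hnn : 0 ≤ qv v q L := by unfold qv qd; positivity
  have hpos : 0 < qv v q L := lt_of_le_of_ne hnn (Ne.symm hne)
  have hqe := qv_eq v q L hv hq
  rw [hdR] at hqe
  set s : ℝ := Real.sqrt ((d : ℝ) * 5 ^ L) with hs
  have hs0 : 0 < s := Real.sqrt_pos.mpr (by positivity)
  have hprod : s * qv v q L = 2 * (s - ((star v * q).re : ℝ)) := by
    rw [hqe]; field_simp
  have hm : (((star v * q).re : ℤ) : ℝ) < s := by
    have := mul_pos hs0 hpos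
    linarith
  have hg := hgap L _ hm
  have h5 : c * (5 : ℝ) ^ (-(η / 32 * L)) < s * ε ^ 2 / 2 := by
    have := mul_lt_mul_of_pos_left hlt hs0
    linarith
  have hsL : Real.logb 5 s = Real.logb 5 (Real.sqrt d) + L / 2 := by
    rw [hs, Real.sqrt_mul hd0.le, Real.logb_mul hsd.ne' (by positivity)]
    congr 1
    rw [Real.logb, Real.log_sqrt (by positivity), Real.log_pow]
    have : Real.log 5 ≠ 0 := (Real.log_pos (by norm_num)).ne'
    field_simp
  have h5pos : 0 < (5 : ℝ) ^ (-(η / 32 * L)) := Real.rpow_pos_of_pos (by norm_num) _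
  have h6 : Real.logb 5 (c * (5 : ℝ) ^ (-(η / 32 * L))) < Real.logb 5 (s * ε ^ 2 / 2) :=
    Real.logb_lt_logb (by norm_num) (by positivity) h5
  have h7 : Real.logb 5 (c * (5 : ℝ) ^ (-(η / 32 * L))) = Real.logb 5 c - η / 32 * L := by
    rw [Real.logb_mul hc.ne' h5pos.ne', Real.logb_rpow (by norm_num) (by norm_num)]
    ring
  have h8 : Real.logb 5 (s * ε ^ 2 / 2) = Real.logb 5 (Real.sqrt d) + L / 2 - 2 * X - Real.logb 5 2 := by
    rw [Real.logb_div (by positivity) (by norm_num), Real.logb_mul hs0.ne' (by positivity), hsL,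
      Real.logb_pow, hX, one_div, Real.logb_inv]
    push_cast
    ring
  have hKe : K = Real.logb 5 2 + Real.logb 5 c - Real.logb 5 (Real.sqrt d) := by
    rw [hK, Real.logb_div (by positivity) hsd.ne', Real.logb_mul (by norm_num) hc.ne']
  rw [h7, h8] at h6
  have h9 : 2 * X + K < (1 / 2 + η / 32) * L := by
    rw [hKe]; linarith
  have hXpos : 0 < X := hlogpos ε h0 hε1
  have h10 : 0 ≤ K + 3 * η / 8 * X := by
    have h11 : 8 * |K| / (3 * η) ≤ X := by linarith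
    rw [div_le_iff₀ (by positivity)] at h11
    have h12 := neg_abs_le K
    linarith
  have h13 : (4 - η) * X * (1 / 2 + η / 32) ≤ (1 / 2 + η / 32) * L := by
    refine le_trans ?_ h9.le
    have h14 : 0 ≤ η ^ 2 * X := by positivity
    nlinarith
  have h15 : (0 : ℝ) < 1 / 2 + η / 32 := by positivity
  have h16 : (1 / 2 + η / 32) * ((4 - η) * X) ≤ (1 / 2 + η / 32) * L := by linarith
  exact le_of_mul_le_mul_left h16 h15

end Pool.Agent.H978V
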