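import Pool.Agent.H978V.LDefs
import Pool.Agent.H978V.C7
import Pool.Agent.H978V.R10
import Pool.Agent.H978V.K14

set_option autoImplicit false

open scoped Quaternion

namespace Pool.Agent.H978V

open Pool.Agent.Helper557.Rz

lemma l14_norm_sq (a : ℍ[ℝ]) : ‖a‖ ^ 2 = a.re ^ 2 + a.imI ^ 2 + a.imJ ^ 2 + a.imK ^ 2 := by
  rw [pow_two, ← Quaternion.normSq_eq_norm_mul_self, Quaternion.normSq_def']

/-- TARGET 1 -/
theorem qh_dist (t : ℍ[ℝ]) (L : ℕ) (q : ℍ[ℤ]) : ‖t - qh L q‖ ^ 2 = qd t.re t.imI t.imJ t.imK q L := by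
  rw [l14_norm_sq]
  simp only [qh, cz, qd, Quaternion.re_sub, Quaternion.imI_sub, Quaternion.imJ_sub, Quaternion.imK_sub,
    Quaternion.re_smul, Quaternion.imI_smul, Quaternion.imJ_smul, Quaternion.imK_smul, smul_eq_mul,
    one_div_mul_eq_div]

lemma l14_qv (v : ℍ[ℤ]) (L : ℕ) (q : ℍ[ℤ]) : ‖vh v - qh L q‖ ^ 2 = qv v q L := by
  rw [qh_dist]
  simp only [vh, cz, qv, Quaternion.re_smul, Quaternion.imI_smul, Quaternion.imJ_smul,
    Quaternion.imK_smul, smul_eq_mul, one_div_mul_eq_div]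

/-- TARGET 2 -/
theorem hole_lower (v : ℍ[ℤ]) (hv : v ≠ 0) (K η : ℝ) (hη : 0 < η) : ∃ ε₀ : ℝ, 0 < ε₀ ∧ ∀ ε : ℝ, 0 < ε →
    ε < ε₀ → ∀ t : ℍ[ℝ], ‖t - vh v‖ ≤ K * ε → ∀ (L : ℕ) (q : ℍ[ℤ]), Quaternion.normSq q = 5 ^ L →
      ‖t - qh L q‖ < ε → qh L q ≠ vh v → (4 - η) * Real.logb 5 (1 / ε) ≤ L := by
  obtain ⟨ε₁, h1, -, h2⟩ := rat_lower v hv (η / 2) (by positivity)
  have hK1 : 1 ≤ |K| + 1 := by linarith [abs_nonneg K]
  have hKK : K ≤ |K| := le_abs_self K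
  have hKp : 0 < |K| + 1 := by linarith
  generalize hK' : |K| + 1 = K' at *
  have hκ : 0 ≤ Real.logb 5 K' := Real.logb_nonneg (by norm_num) hK1
  refine ⟨min (ε₁ / K') ((5 : ℝ) ^ (-(8 / η * Real.logb 5 K'))),
    lt_min (div_pos h1 hKp) (Real.rpow_pos_of_pos (by norm_num) _), ?_⟩
  intro ε hε hlt t ht L q hq hd hne
  have hlt1 : ε < ε₁ / K' := lt_of_lt_of_le hlt (min_le_left _ _)
  have hlt2 : ε < (5 : ℝ) ^ (-(8 / η * Real.logb 5 K')) := lt_of_lt_of_le hlt (min_le_right _ _)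
  have h3 : K' * ε < ε₁ := by
    rw [lt_div_iff₀ hKp] at hlt1; linarith
  have h4 : ‖vh v - qh L q‖ < K' * ε := by
    have e1 : ‖vh v - qh L q‖ ≤ ‖t - vh v‖ + ‖t - qh L q‖ := by
      have : vh v - qh L q = (t - qh L q) - (t - vh v) := by abel
      rw [this]
      exact (norm_sub_le _ _).trans (by rw [add_comm])
    have e2 : K * ε ≤ |K| * ε := mul_le_mul_of_nonneg_right hKK hε.le
    have e3 : K' * ε = |K| * ε + ε := by rw [← hK']; ring
    linarith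
  have h5 : qv v q L < (K' * ε) ^ 2 := by
    rw [← l14_qv]
    exact pow_lt_pow_left₀ h4 (norm_nonneg _) (by norm_num)
  have h6 : qv v q L ≠ 0 := by
    rw [← l14_qv]
    refine pow_ne_zero 2 (norm_ne_zero_iff.2 (sub_ne_zero.2 fun h => hne h.symm))
  have h7 := h2 (K' * ε) (mul_pos hKp hε) h3 L q hq h5 h6
  have h8 : Real.logb 5 (1 / (K' * ε)) = Real.logb 5 (1 / ε) - Real.logb 5 K' := by
    rw [one_div, one_div, Real.logb_inv, Real.logb_inv, Real.logb_mul hKp.ne' hε.ne']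
    ring
  have h9 : 8 / η * Real.logb 5 K' < Real.logb 5 (1 / ε) := by
    rw [one_div, Real.logb_inv]
    have := (Real.logb_lt_iff_lt_rpow (by norm_num : (1 : ℝ) < 5) hε).2 hlt2
    linarith
  rw [h8] at h7
  refine le_trans ?_ h7
  have h10 : 8 * Real.logb 5 K' < η * Real.logb 5 (1 / ε) := by
    have := mul_lt_mul_of_pos_left h9 hη
    have e : η * (8 / η * Real.logb 5 K') = 8 * Real.logb 5 K' := by field_simp
    linarith
  have h11 : 0 ≤ η * Real.logb 5 K' := mul_nonneg hη.le hκ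
  nlinarith

/-- TARGET 3 -/
theorem su2_quat (U : Matrix (Fin 2) (Fin 2) ℂ) (hU : U ∈ Matrix.specialUnitaryGroup (Fin 2) ℂ) :
    ∃ t : ℍ[ℝ], ‖t‖ = 1 ∧ U = Uquat t.re t.imI t.imJ t.imK := by
  rw [Matrix.mem_specialUnitaryGroup_iff] at hU
  obtain ⟨h1, h2⟩ := hU
  rw [Matrix.mem_unitaryGroup_iff'] at h1
  have h3 : star U = U.adjugate := by
    have e1 : U * U.adjugate = 1 := by rw [Matrix.mul_adjugate, h2, one_smul]
    calc star U = star U * (U * U.adjugate) := by rw [e1, mul_one]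
      _ = U.adjugate := by rw [← mul_assoc, h1, one_mul]
  rw [Matrix.adjugate_fin_two] at h3
  have e1 : (starRingEnd ℂ) (U 0 0) = U 1 1 := by
    simpa [Matrix.star_apply] using congrFun (congrFun h3 0) 0
  have e2 : (starRingEnd ℂ) (U 0 1) = -U 1 0 := by
    simpa [Matrix.star_apply] using congrFun (congrFun h3 1) 0
  rw [Matrix.det_fin_two, ← e1] at h2
  have e3 : U 1 0 = -(starRingEnd ℂ) (U 0 1) := by rw [e2, neg_neg]
  rw [e3] at h2
  obtain ⟨t, t0, t1, t2, t3⟩ : ∃ t : ℍ[ℝ], t.re = (U 0 0).re ∧ t.imI = (U 0 0).im ∧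
      t.imJ = (U 0 1).re ∧ t.imK = (U 0 1).im :=
    ⟨⟨(U 0 0).re, (U 0 0).im, (U 0 1).re, (U 0 1).im⟩, rfl, rfl, rfl, rfl⟩
  refine ⟨t, ?_, ?_⟩
  · have h4 : ‖t‖ ^ 2 = 1 := by
      rw [l14_norm_sq, t0, t1, t2, t3]
      have := congrArg Complex.re h2
      simp at this
      nlinarith
    nlinarith [norm_nonneg t]
  · rw [k14_Uquat, t0, t1, t2, t3]
    unfold Mq
    ext i j
    fin_cases i <;> fin_cases j
    · simp
    · simp
    · simp [e3, Complex.ext_iff]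
    · simp [← e1, Complex.ext_iff]

open scoped Matrix.Norms.L2Operator in
/-- TARGET 4 -/
theorem uquat_norm (s t : ℍ[ℝ]) : ‖Uquat t.re t.imI t.imJ t.imK - Uquat s.re s.imI s.imJ s.imK‖ = ‖t - s‖ := by
  have h1 : Uquat t.re t.imI t.imJ t.imK - Uquat s.re s.imI s.imJ s.imK =
      Mq (t.re - s.re) (t.imI - s.imI) (t.imJ - s.imJ) (t.imK - s.imK) := by
    rw [k14_Uquat, k14_Uquat]
    unfold Mq
    ext i j
    fin_cases i <;> fin_cases j <;> simp <;> ring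
  have h2 : ‖Uquat t.re t.imI t.imJ t.imK - Uquat s.re s.imI s.imJ s.imK‖ ^ 2 = ‖t - s‖ ^ 2 := by
    rw [h1, norm_Mq, l14_norm_sq]
    simp only [Quaternion.re_sub, Quaternion.imI_sub, Quaternion.imJ_sub, Quaternion.imK_sub]
  exact (pow_left_inj₀ (norm_nonneg _) (norm_nonneg _) (by norm_num : (2 : ℕ) ≠ 0)).1 h2

end Pool.Agent.H978V
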