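import Pool.Agent.H978V.MDefs
import Pool.Agent.H978V.M5
import Pool.Agent.H978V.C5
import Pool.Agent.H978V.L13

/-!
JOB M13a (owner helper978, MP_06cce2_nt).  `H978V/*.lean` (library, with `MDefs`) is on origin/main.

Two algebraic lemmas.

PROOF of `strip5`: strong induction on `normSq v` (as `l13_small` in `H978V/L13.lean`, read it).  If `5 ∣ normSq v`: `v = y' * al a` (`c5_exists`), `normSq y' = normSq v/5`; `y' = g • (y * qw w)` gives `v = g • (y * qw (a :: w))` (`qw (a :: w) = qw w * al a`).  Otherwise, if `v` is not primitive, `v = p • y'` with a prime `p`,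
`y' = g • (y * qw w)`, `v = (p g) • (..)`.  Otherwise `g = 1`, `w = []`.
PROOF of `axis_strip`.  Here `v₀ * ((p : ℍ[ℤ]) + q • pq h) = g • (y * u)`, `u = qw w`, `normSq u = 5^k`, `k = w.length`.  Write `hh = pq h`, `M = p² + H q²`, `H = dt h h`.
`star (p + q hh) = p - q hh`, `(p + q hh) hh (p - q hh) = M hh` (they commute, `hh² = -H`).  So `M v₀ hh star v₀ = g² y (u hh star u) star y`, and norms: `normSq v₀ · M = g² normSq y 5^k`.  Let `normSq v₀ = 5^a n₀`, `5 ∤ n₀`.  `X = star y * (v₀ hh star v₀) * y` is integral and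
`M X = g² (normSq y)² (u hh star u)`.  Multiply by `5^a n₀ = normSq v₀`: `g² normSq y 5^k X = 5^a n₀ g² (normSq y)² (u hh star u)`, so `5^k X = 5^a n₀ normSq y (u hh star u)`; as `5 ∤ n₀ normSq y`: `5^k` divides the coordinates of `5^a (u hh star u)` (which is pure).
So there is an integral vector `h'` with `5^k pq h' = 5^a (u hh star u)`; then `n₀ normSq y pq h' = X`, so `n₀ normSq y (y pq h' star y) = (normSq y)² v₀ hh star v₀`, `n₀ (y pq h' star y) = normSq y · v₀ hh star v₀`: divisible by `normSq y`.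
`dt h' h' · 25^k = 25^a dt h h · 25^k`, so `dt h' h' = 25^a H ≤ (normSq v₀)² H`.  `hp h' = û * hp h * star û` with `û = qh k u` (a positive multiple of it, both of norm one).
-/

set_option autoImplicit false

open scoped Quaternion

namespace Pool.Agent.H978V

open Pool.Agent.Helper557.Rz

theorem m13_decomp (v : ℍ[ℤ]) (D : ℤ) (hd : DvdQ D v) : ∃ y : ℍ[ℤ], v = D • y := by
  obtain ⟨⟨a0, e0⟩, ⟨a1, e1⟩, ⟨a2, e2⟩, ⟨a3, e3⟩⟩ := hd
  refine ⟨l13_mk a0 a1 a2 a3, ?_⟩
  apply Quaternion.ext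
  · rw [Quaternion.re_smul, e0]; rfl
  · rw [Quaternion.imI_smul, e1]; rfl
  · rw [Quaternion.imJ_smul, e2]; rfl
  · rw [Quaternion.imK_smul, e3]; rfl

theorem m13_strip : ∀ (n : ℕ) (v : ℍ[ℤ]), v ≠ 0 → (Quaternion.normSq v).natAbs = n →
    ∃ (g : ℕ) (y : ℍ[ℤ]) (w : List (Fin 6)), 1 ≤ g ∧ PrimQ y ∧
    ¬ (5 : ℤ) ∣ Quaternion.normSq y ∧ v = (g : ℤ) • (y * qw w) := by
  intro n
  induction n using Nat.strong_induction_on with
  | _ n ih =>
    intro v hv hn
    have hpos := r8_pos hv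
    by_cases h5 : (5 : ℤ) ∣ Quaternion.normSq v
    · obtain ⟨a, y, rfl⟩ := c5_exists v h5
      have hy : y ≠ 0 := by
        rintro rfl
        exact hv (zero_mul _)
      have hypos := r8_pos hy
      have hlt : (Quaternion.normSq y).natAbs < n := by
        rw [map_mul, c5_norm_al] at hn
        omega
      obtain ⟨g, z, w, h1, h2, h3, h4⟩ := ih _ hlt y hy rfl
      refine ⟨g, z, a :: w, h1, h2, h3, ?_⟩
      change y * al a = (g : ℤ) • (z * (qw w * al a))
      rw [h4, smul_mul_assoc, mul_assoc]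
    · by_cases hp : PrimQ v
      · refine ⟨1, v, [], le_refl _, hp, h5, ?_⟩
        change v = ((1 : ℕ) : ℤ) • (v * 1)
        rw [mul_one, Nat.cast_one, one_smul]
      · unfold PrimQ at hp
        push Not at hp
        obtain ⟨p, hp, hd⟩ := hp
        have hp2 : 2 ≤ p := hp.two_le
        obtain ⟨y, hvv⟩ := m13_decomp v p hd
        have hy : y ≠ 0 := by
          intro h
          rw [h, smul_zero] at hvv
          exact hv hvv
        have hypos := r8_pos hy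
        have hnv : Quaternion.normSq v = (p : ℤ) ^ 2 * Quaternion.normSq y := by
          rw [hvv, Quaternion.normSq_smul]
        have hlt : (Quaternion.normSq y).natAbs < n := by
          have h1 : Quaternion.normSq y < Quaternion.normSq v := by
            rw [hnv]
            have h2 : (2 : ℤ) ≤ p := by exact_mod_cast hp2
            have h3 : (4 : ℤ) ≤ (p : ℤ) ^ 2 := by nlinarith
            nlinarith
          omega
        obtain ⟨g, z, w, h1, h2, h3, h4⟩ := ih _ hlt y hy rfl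
        refine ⟨p * g, z, w, ?_, h2, h3, ?_⟩
        · have : 1 ≤ p := by omega
          exact Nat.one_le_iff_ne_zero.2 (by positivity)
        · rw [hvv, h4, smul_smul, Nat.cast_mul]

theorem m13_ys (y : ℍ[ℤ]) : y * star y = (Quaternion.normSq y) • (1 : ℍ[ℤ]) := by
  rw [c5_norm]
  ext <;> simp <;> ring

theorem m13_sy (y : ℍ[ℤ]) : star y * y = (Quaternion.normSq y) • (1 : ℍ[ℤ]) := by
  rw [c5_norm]
  ext <;> simp <;> ring

theorem m13_conj (p q : ℤ) (h : ℤ × ℤ × ℤ) (c : ℤ) (hc : c = p ^ 2 + dt h h * q ^ 2) :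
    (((p : ℤ) : ℍ[ℤ]) + q • pq h) * pq h * star (((p : ℤ) : ℍ[ℤ]) + q • pq h) = c • pq h := by
  unfold dt at hc
  ext <;> simp [pq] <;> subst hc <;> ring

theorem m13_nP (p q : ℤ) (h : ℤ × ℤ × ℤ) :
    Quaternion.normSq (((p : ℤ) : ℍ[ℤ]) + q • pq h) = p ^ 2 + dt h h * q ^ 2 := by
  rw [c5_norm]
  simp [pq, dt]
  ring

theorem m13_re (u : ℍ[ℤ]) (h : ℤ × ℤ × ℤ) : (u * pq h * star u).re = 0 := by
  simp [pq]
  ring

theorem m13_npq (h : ℤ × ℤ × ℤ) : Quaternion.normSq (pq h) = dt h h := by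
  rw [c5_norm]
  simp [pq, dt]

theorem m13_cancel (c : ℤ) (hc : c ≠ 0) (x y : ℍ[ℤ]) (h : c • x = c • y) : x = y := by
  have h0 := congrArg QuaternionAlgebra.re h
  have h1 := congrArg QuaternionAlgebra.imI h
  have h2 := congrArg QuaternionAlgebra.imJ h
  have h3 := congrArg QuaternionAlgebra.imK h
  simp only [Quaternion.re_smul, Quaternion.imI_smul, Quaternion.imJ_smul, Quaternion.imK_smul,
    smul_eq_mul] at h0 h1 h2 h3
  apply Quaternion.ext
  · exact mul_left_cancel₀ hc h0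
  · exact mul_left_cancel₀ hc h1
  · exact mul_left_cancel₀ hc h2
  · exact mul_left_cancel₀ hc h3

/-- TARGET 1 -/
theorem strip5 (v : ℍ[ℤ]) (hv : v ≠ 0) : ∃ (g : ℕ) (y : ℍ[ℤ]) (w : List (Fin 6)), 1 ≤ g ∧ PrimQ y ∧
    ¬ (5 : ℤ) ∣ Quaternion.normSq y ∧ v = (g : ℤ) • (y * qw w) := by
  exact m13_strip _ v hv rfl

/-- TARGET 2 -/
theorem axis_strip (v₀ : ℍ[ℤ]) (hv₀ : v₀ ≠ 0) (h : ℤ × ℤ × ℤ) (hh : 0 < dt h h) (p q : ℤ)
    (hpq : 1 ≤ p ^ 2 + dt h h * q ^ 2) (g : ℕ) (hg : 1 ≤ g) (y : ℍ[ℤ]) (w : List (Fin 6))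
    (h5 : ¬ (5 : ℤ) ∣ Quaternion.normSq y)
    (he : v₀ * (((p : ℤ) : ℍ[ℤ]) + q • pq h) = (g : ℤ) • (y * qw w)) :
    ∃ (h' : ℤ × ℤ × ℤ) (N₁ : ℕ), 1 ≤ N₁ ∧ ((N₁ : ℕ) : ℤ) ≤ Quaternion.normSq v₀ ∧ 0 < dt h' h' ∧
      dt h' h' ≤ (Quaternion.normSq v₀) ^ 2 * dt h h ∧
      DvdQ (Quaternion.normSq y) ((N₁ : ℤ) • (y * pq h' * star y)) ∧
      hp h' = qh w.length (qw w) * hp h * star (qh w.length (qw w)) := by
  classical
  have hN0 : (0 : ℤ) < Quaternion.normSq v₀ := r8_pos hv₀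
  obtain ⟨N, hN⟩ : ∃ N : ℕ, ((N : ℕ) : ℤ) = Quaternion.normSq v₀ :=
    ⟨(Quaternion.normSq v₀).toNat, Int.toNat_of_nonneg hN0.le⟩
  have hNne : N ≠ 0 := by
    intro h
    rw [h] at hN
    simp at hN
    omega
  obtain ⟨a, n₀, hn5, hNa⟩ := Nat.exists_eq_pow_mul_and_not_dvd hNne 5 (by norm_num)
  have hn0 : n₀ ≠ 0 := by
    rintro rfl
    simp at hn5
  have hNy : Quaternion.normSq y ≠ 0 := by
    intro h
    rw [h] at h5
    exact h5 (dvd_zero _)
  have hNyZ : (0 : ℤ) ≤ Quaternion.normSq y := Quaternion.normSq_nonneg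
  set u := qw w with hu
  set k := w.length with hk
  have hnu : Quaternion.normSq u = 5 ^ k := (good_qw w).2
  set M : ℤ := p ^ 2 + dt h h * q ^ 2 with hM
  set Ny := Quaternion.normSq y with hNyd
  have hg0 : (g : ℤ) ≠ 0 := by
    have : (1 : ℤ) ≤ g := by exact_mod_cast hg
    omega
  have hMne : M ≠ 0 := by omega
  -- norms
  have hnorm : Quaternion.normSq v₀ * M = (g : ℤ) ^ 2 * (Ny * 5 ^ k) := by
    have h1 := congrArg Quaternion.normSq he
    rw [map_mul, m13_nP, Quaternion.normSq_smul, map_mul, hnu] at h1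
    exact h1
  -- conjugation
  have hc : M • (v₀ * pq h * star v₀) = ((g : ℤ) ^ 2) • (y * (u * pq h * star u) * star y) := by
    have h1 : v₀ * (((p : ℤ) : ℍ[ℤ]) + q • pq h) * pq h *
        star (v₀ * (((p : ℤ) : ℍ[ℤ]) + q • pq h)) =
        ((g : ℤ) • (y * u)) * pq h * star ((g : ℤ) • (y * u)) := by rw [he]
    have h2 : v₀ * (((p : ℤ) : ℍ[ℤ]) + q • pq h) * pq h *
        star (v₀ * (((p : ℤ) : ℍ[ℤ]) + q • pq h)) = M • (v₀ * pq h * star v₀) := by
      rw [star_mul]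
      calc v₀ * (((p : ℤ) : ℍ[ℤ]) + q • pq h) * pq h *
          (star (((p : ℤ) : ℍ[ℤ]) + q • pq h) * star v₀)
          = v₀ * ((((p : ℤ) : ℍ[ℤ]) + q • pq h) * pq h *
            star (((p : ℤ) : ℍ[ℤ]) + q • pq h)) * star v₀ := by
            simp only [mul_assoc]
        _ = v₀ * (M • pq h) * star v₀ := by rw [m13_conj p q h M hM]
        _ = M • (v₀ * pq h * star v₀) := by rw [mul_smul_comm, smul_mul_assoc]
    rw [← h2, h1, star_smul, star_mul, smul_mul_assoc, smul_mul_assoc, mul_smul_comm, smul_smul]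
    have h3 : star (g : ℤ) = (g : ℤ) := rfl
    rw [h3, pow_two]
    simp only [mul_assoc]
  set X := star y * (v₀ * pq h * star v₀) * y with hX
  have hMX : M • X = ((g : ℤ) ^ 2 * Ny ^ 2) • (u * pq h * star u) := by
    have h1 : M • X = star y * (M • (v₀ * pq h * star v₀)) * y := by
      rw [hX, mul_smul_comm, smul_mul_assoc]
    rw [h1, hc, mul_smul_comm, smul_mul_assoc]
    have h2 : star y * (y * (u * pq h * star u) * star y) * y =
        (star y * y) * (u * pq h * star u) * (star y * y) := by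
      simp only [mul_assoc]
    rw [h2, m13_sy, smul_mul_assoc, one_mul, mul_smul_comm, mul_one, smul_smul, smul_smul]
    congr 1
    rw [hNyd]
    ring
  have hNv : Quaternion.normSq v₀ = 5 ^ a * (n₀ : ℤ) := by
    rw [← hN, hNa]
    push_cast
    rfl
  have h5X : (5 : ℤ) ^ k • X = ((n₀ : ℤ) * Ny) • ((5 : ℤ) ^ a • (u * pq h * star u)) := by
    refine m13_cancel ((g : ℤ) ^ 2 * Ny) (mul_ne_zero (pow_ne_zero _ hg0) hNy) _ _ ?_
    have h1 : ((g : ℤ) ^ 2 * Ny) • ((5 : ℤ) ^ k • X) = Quaternion.normSq v₀ • (M • X) := by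
      rw [smul_smul, smul_smul, hnorm]
      congr 1
      ring
    rw [h1, hMX, hNv]
    simp only [smul_smul]
    congr 1
    ring
  -- divisibility
  have hcop : IsCoprime ((5 : ℤ) ^ k) ((n₀ : ℤ) * Ny) := by
    refine IsCoprime.pow_left ?_
    have hp5 : Prime (5 : ℤ) := Int.prime_iff_natAbs_prime.2 (by norm_num)
    refine IsCoprime.mul_right ?_ ?_
    · refine (hp5.coprime_iff_not_dvd).2 ?_
      intro hd
      exact hn5 (by exact_mod_cast hd)
    · exact (hp5.coprime_iff_not_dvd).2 h5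
  have hdv : DvdQ ((5 : ℤ) ^ k) ((5 : ℤ) ^ a • (u * pq h * star u)) := by
    set Z := (5 : ℤ) ^ a • (u * pq h * star u) with hZ
    have e0 := congrArg QuaternionAlgebra.re h5X
    have e1 := congrArg QuaternionAlgebra.imI h5X
    have e2 := congrArg QuaternionAlgebra.imJ h5X
    have e3 := congrArg QuaternionAlgebra.imK h5X
    simp only [Quaternion.re_smul, Quaternion.imI_smul, Quaternion.imJ_smul, Quaternion.imK_smul,
      smul_eq_mul] at e0 e1 e2 e3
    exact ⟨hcop.dvd_of_dvd_mul_left ⟨_, e0.symm⟩, hcop.dvd_of_dvd_mul_left ⟨_, e1.symm⟩,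
      hcop.dvd_of_dvd_mul_left ⟨_, e2.symm⟩, hcop.dvd_of_dvd_mul_left ⟨_, e3.symm⟩⟩
  obtain ⟨h0q, hh0⟩ := m13_decomp _ _ hdv
  have h5k : ((5 : ℤ) ^ k) ≠ 0 := pow_ne_zero _ (by norm_num)
  have h5a : ((5 : ℤ) ^ a) ≠ 0 := pow_ne_zero _ (by norm_num)
  have hre0 : h0q.re = 0 := by
    have e0 := congrArg QuaternionAlgebra.re hh0
    simp only [Quaternion.re_smul, smul_eq_mul] at e0
    rw [m13_re, mul_zero] at e0
    rcases mul_eq_zero.1 e0.symm with h1 | h1
    · exact absurd h1 h5k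
    · exact h1
  obtain ⟨h', hh'⟩ : ∃ h' : ℤ × ℤ × ℤ, pq h' = h0q := by
    refine ⟨(h0q.imI, h0q.imJ, h0q.imK), ?_⟩
    apply Quaternion.ext
    · exact hre0.symm
    · rfl
    · rfl
    · rfl
  rw [← hh'] at hh0
  have hXh : X = ((n₀ : ℤ) * Ny) • pq h' := by
    refine m13_cancel _ h5k _ _ ?_
    rw [h5X, hh0, smul_smul, smul_smul, mul_comm]
  have hyy : (n₀ : ℤ) • (y * pq h' * star y) = Ny • (v₀ * pq h * star v₀) := by
    refine m13_cancel Ny hNy _ _ ?_
    have h1 : y * X * star y = (Ny ^ 2) • (v₀ * pq h * star v₀) := by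
      have h2 : y * X * star y = (y * star y) * (v₀ * pq h * star v₀) * (y * star y) := by
        rw [hX]
        simp only [mul_assoc]
      rw [h2, m13_ys, smul_mul_assoc, one_mul, mul_smul_comm, mul_one, smul_smul, pow_two]
    rw [smul_smul Ny Ny, ← pow_two, ← h1, hXh, mul_smul_comm, smul_mul_assoc, smul_smul, mul_comm]
  have hdt : dt h' h' = ((5 : ℤ) ^ a) ^ 2 * dt h h := by
    have e := congrArg Quaternion.normSq hh0
    rw [Quaternion.normSq_smul, Quaternion.normSq_smul, map_mul, map_mul, Quaternion.normSq_star, hnu,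
      m13_npq, m13_npq] at e
    have e2 : ((5 : ℤ) ^ k) ^ 2 * dt h' h' = ((5 : ℤ) ^ k) ^ 2 * (((5 : ℤ) ^ a) ^ 2 * dt h h) := by
      rw [← e]
      ring
    exact mul_left_cancel₀ (pow_ne_zero _ h5k) e2
  have h5ale : (5 : ℤ) ^ a ≤ Quaternion.normSq v₀ := by
    rw [hNv]
    have h1 : (1 : ℤ) ≤ (n₀ : ℤ) := by
      have := Nat.pos_of_ne_zero hn0
      exact_mod_cast this
    have h2 : (0 : ℤ) < 5 ^ a := by positivity
    nlinarith
  have hn0le : ((n₀ : ℕ) : ℤ) ≤ Quaternion.normSq v₀ := by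
    rw [hNv]
    have h1 : (0 : ℤ) ≤ (n₀ : ℤ) := by positivity
    have h2 : (1 : ℤ) ≤ 5 ^ a := one_le_pow₀ (by norm_num)
    nlinarith
  refine ⟨h', n₀, Nat.pos_of_ne_zero hn0, hn0le, ?_, ?_, ?_, ?_⟩
  · rw [hdt]
    positivity
  · rw [hdt]
    have h2 : (0 : ℤ) < 5 ^ a := by positivity
    have h3 : ((5 : ℤ) ^ a) ^ 2 ≤ (Quaternion.normSq v₀) ^ 2 := by nlinarith
    exact mul_le_mul_of_nonneg_right h3 hh.le
  · rw [hyy]
    refine ⟨?_, ?_, ?_, ?_⟩
    · rw [Quaternion.re_smul, smul_eq_mul]; exact dvd_mul_right _ _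
    · rw [Quaternion.imI_smul, smul_eq_mul]; exact dvd_mul_right _ _
    · rw [Quaternion.imJ_smul, smul_eq_mul]; exact dvd_mul_right _ _
    · rw [Quaternion.imK_smul, smul_eq_mul]; exact dvd_mul_right _ _
  · have hHpos : (0 : ℝ) < (dt h h : ℝ) := by exact_mod_cast hh
    have hsq : Real.sqrt (dt h' h' : ℝ) = (5 : ℝ) ^ a * Real.sqrt (dt h h : ℝ) := by
      rw [hdt]
      push_cast
      rw [Real.sqrt_mul (by positivity), Real.sqrt_sq (by positivity)]
    have hcz : ((5 : ℝ) ^ k) • cz (pq h') = ((5 : ℝ) ^ a) • (cz u * cz (pq h) * star (cz u)) := by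
      have e := congrArg cz hh0
      rw [l13_cz_smul, l13_cz_smul, cz_mul, cz_mul, cz_star] at e
      push_cast at e
      exact e.symm
    have hcz2 : cz (pq h') = ((5 : ℝ) ^ a / (5 : ℝ) ^ k) • (cz u * cz (pq h) * star (cz u)) := by
      have h5r : ((5 : ℝ) ^ k) ≠ 0 := by positivity
      have e : ((5 : ℝ) ^ k)⁻¹ • (((5 : ℝ) ^ k) • cz (pq h')) =
          ((5 : ℝ) ^ k)⁻¹ • (((5 : ℝ) ^ a) • (cz u * cz (pq h) * star (cz u))) := by rw [hcz]
      rw [smul_smul, smul_smul, inv_mul_cancel₀ h5r, one_smul] at e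
      rw [e]
      congr 1
      field_simp
    unfold hp qh
    rw [hsq, hcz2, Quaternion.star_smul, smul_smul, smul_mul_smul_comm, smul_mul_smul_comm]
    congr 1
    have hs5 : (0 : ℝ) < Real.sqrt 5 := by positivity
    have hsH : (0 : ℝ) < Real.sqrt (dt h h : ℝ) := Real.sqrt_pos.2 hHpos
    have hss : (Real.sqrt 5) ^ k * (Real.sqrt 5) ^ k = (5 : ℝ) ^ k := by
      rw [← mul_pow, Real.mul_self_sqrt (by norm_num)]
    rw [← hss]
    field_simp

end Pool.Agent.H978V
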