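import Pool.Agent.H978V.NDefs
import Pool.Agent.H978V.K14
import Pool.Agent.H978V.L12
import Pool.Agent.H978V.L13
import Pool.Agent.H978V.L14
import Pool.Agent.H978V.M13a
import Pool.Agent.H978V.E6

/-!
JOB E7 (owner helper978, MP_06cce2_nt).  `H978V/*.lean` (library, with `NDefs`, `M13a`, `L12` (`dense_words`), `L13`, `L14`, `K14`) is on origin/main.

PROOF of `near_final`.  `ε₀, C₁, δ₁` from `gen_main (δ)`; make `ε₀` smaller so that `4 ε₀ ≤ ε₀^(1-δ₁)`, i.e. `4 ≤ ε^(-δ₁)` for `ε ≤ ε₀`, and `ε₀ ≤ 1/16`.  For `ε > ε₀`: `dense_words` (`L12`, see how it is used in `L13`) gives a word of bounded length within `ε₀`; the right side of the bound is `≥ (7/3) logb 5 (ε²) + (26/3 + δ) logb 5 (1/ε) + C ≥ C` as `normSq v ≥ 1` and `max ≥ ε`.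
For `ε ≤ ε₀`: `strip5` (`M13a`): `v = g • (y * qw w)`, `k = w.length`, `ω = qh k (qw w)`, `‖ω‖ = 1`, `vh v = vh y * ω`, `normSq v = g² normSq y 5^k`.  `z = star (vh v) * u` is a unit quaternion, `‖z - 1‖ = ‖u - vh v‖ =: r`; `z = rq p φ` with `UP p`, `0 ≤ φ ≤ π` (`cos φ = z.re`, `p = Im z/|Im z|`, any `p` if `Im z = 0`); `r² = 2 - 2 cos φ = 4 sin²(φ/2)`, so `φ ≤ (π/2) r ≤ 2 r`.
`normSq v · max(r,ε)² ≤ ε ≤ ε₀` gives `r ≤ 1/4`, so `φ ≤ 2`.  `u = vh y * ω * rq p φ = vh y * rq p' φ * ω`, `p' = ω p star ω` (`UP p'`).  `gen_main` for `y, p', φ, ε`: `normSq y max(φ,ε)² ≤ 4 normSq y max(r,ε)² ≤ 4 ε ≤ ε^(1-δ₁)`: `L, X` with `‖vh y * rq p' φ - qh L X‖ < ε`;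
then `X * qw w` (norm `5^(L+k)`, `Gd`; `qh (L+k) (X * qw w) = qh L X * ω`; see `M13b.lean`, `circ_pt`, for the same step).  Length: `L + k ≤ (7/3) logb 5 (4 normSq y max(r,ε)²) + k + ..` and `normSq y · 5^k ≤ normSq v`, so `(7/3) logb 5 (normSq y ..) + k ≤ (7/3) logb 5 (normSq v ..)`.
PROOF of `near_matrix`.  `v = ⟨a, d, c, b⟩`; see `Pool/Agent/Results/MP_06cce2_nt/HolesFour.lean` (`Urat_eq`, the proof of `result`: `su2_quat`, `uquat_norm`, `word_of_quat`, `qh_dist`).  With `M = a²+b²+c²+d² = normSq v`, `r = ‖U - V‖`, `y = M max(r/ε, 1)² = M max(r, ε)²/ε²`: the hypothesis `y ≤ 1/ε` is `M max(r,ε)² ≤ ε`, and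
`(7/3) logb 5 (M max²) + (26/3 + δ) logb 5 (1/ε) = (7/3) logb 5 y - (14/3) logb 5 (1/ε) + (26/3 + δ) logb 5 (1/ε) = (7/3) logb 5 y + (4 + δ) logb 5 (1/ε)`.
-/

set_option autoImplicit false

open scoped Quaternion Matrix.Norms.L2Operator

namespace Pool.Agent.H978V

open Pool.Agent.Helper557.Rz

/-- The point of `SU(2)` with the integral quaternion coordinates `(a, b, c, d)` up to a positive factor:
`(a I + i (b X + c Y + d Z)) / √(a² + b² + c² + d²)`. -/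
noncomputable def UratN (a b c d : ℤ) : Matrix (Fin 2) (Fin 2) ℂ :=
  (1 / (Real.sqrt ((a : ℝ) ^ 2 + b ^ 2 + c ^ 2 + d ^ 2) : ℂ)) •
    ((a : ℂ) • 1 + Complex.I • ((b : ℂ) • pauli 0 + (c : ℂ) • pauli 1 + (d : ℂ) • pauli 2))


theorem e7_qh_norm (w : List (Fin 6)) : ‖qh w.length (qw w)‖ = 1 := by
  induction w with
  | nil =>
    change ‖qh 0 1‖ = 1
    unfold qh
    rw [cz_one]
    simp
  | cons a v ih =>
    change ‖qh (v.length + 1) (qw v * al a)‖ = 1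
    rw [l13_qh_al, norm_mul, ih, l13_be_norm, mul_one]

theorem e7_vh (y : ℍ[ℤ]) (w : List (Fin 6)) :
    vh (y * qw w) = vh y * qh w.length (qw w) := by
  induction w with
  | nil =>
    change vh (y * 1) = vh y * qh 0 1
    unfold qh
    rw [mul_one, cz_one]
    simp
  | cons a v ih =>
    change vh (y * (qw v * al a)) = vh y * qh (v.length + 1) (qw v * al a)
    rw [← mul_assoc, l13_vh_al, ih, l13_qh_al, mul_assoc]

theorem e7_qh (L : ℕ) (x : ℍ[ℤ]) (w : List (Fin 6)) :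
    qh (L + w.length) (x * qw w) = qh L x * qh w.length (qw w) := by
  induction w with
  | nil =>
    change qh (L + 0) (x * 1) = qh L x * qh 0 1
    rw [mul_one, add_zero]
    have : qh 0 1 = 1 := by
      unfold qh
      rw [cz_one]
      simp
    rw [this, mul_one]
  | cons a v ih =>
    change qh (L + (v.length + 1)) (x * (qw v * al a)) = qh L x * qh (v.length + 1) (qw v * al a)
    rw [← mul_assoc, ← add_assoc, l13_qh_al, ih, l13_qh_al, mul_assoc]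

theorem e7_gd (x : ℍ[ℤ]) (w : List (Fin 6)) (hx : Gd x) : Gd (x * qw w) := by
  induction w with
  | nil =>
    change Gd (x * 1)
    rw [mul_one]
    exact hx
  | cons a v ih =>
    change Gd (x * (qw v * al a))
    rw [← mul_assoc]
    exact (c5_good a _).2 ih

theorem e7_rot (p p' u : ℍ[ℝ]) (φ : ℝ) (hu : star u * u = 1) (h : p' = u * p * star u) :
    u * rq p φ = rq p' φ * u := by
  unfold rq
  rw [h, mul_add, add_mul, mul_smul_comm, smul_mul_assoc, mul_assoc (u * p), hu, mul_one]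
  congr 1
  exact (Quaternion.coe_commutes _ _).symm

theorem e7_star (x : ℍ[ℝ]) (hx : ‖x‖ = 1) : star x * x = 1 ∧ x * star x = 1 := by
  constructor
  · rw [Quaternion.star_mul_self, Quaternion.normSq_eq_norm_mul_self, hx]
    simp
  · rw [Quaternion.self_mul_star, Quaternion.normSq_eq_norm_mul_self, hx]
    simp

theorem e7_vh_norm (v : ℍ[ℤ]) (hv : v ≠ 0) : ‖vh v‖ = 1 := by
  have hpos := r8_pos hv
  have hr : (0 : ℝ) < ((Quaternion.normSq v : ℤ) : ℝ) := by exact_mod_cast hpos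
  have h : ‖cz v‖ * ‖cz v‖ = ((Quaternion.normSq v : ℤ) : ℝ) := by
    rw [← Quaternion.normSq_eq_norm_mul_self, l13_normSq_cz]
  have h1 : ‖cz v‖ = Real.sqrt ((Quaternion.normSq v : ℤ) : ℝ) := by
    rw [← h, Real.sqrt_mul_self (norm_nonneg _)]
  have hs : 0 < Real.sqrt ((Quaternion.normSq v : ℤ) : ℝ) := Real.sqrt_pos.2 hr
  unfold vh
  rw [norm_smul, h1, Real.norm_eq_abs, abs_of_pos (by positivity)]
  field_simp

theorem e7_up (p ω : ℍ[ℝ]) (hp : UP p) (hω : ‖ω‖ = 1) : UP (ω * p * star ω) := by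
  constructor
  · have h := hp.1
    simp only [Quaternion.re_mul, Quaternion.imI_mul, Quaternion.imJ_mul, Quaternion.imK_mul,
      Quaternion.re_star, Quaternion.imI_star, Quaternion.imJ_star, Quaternion.imK_star, h]
    ring
  · rw [norm_mul, norm_mul, norm_star, hω, hp.2]
    norm_num

/-- polar form of a unit quaternion -/
theorem e7_polar (z : ℍ[ℝ]) (hz : ‖z‖ = 1) : ∃ (p : ℍ[ℝ]) (φ : ℝ), UP p ∧ 0 ≤ φ ∧ φ ≤ Real.pi ∧
    Real.cos φ = z.re ∧ z = rq p φ := by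
  have hn : z.re ^ 2 + z.imI ^ 2 + z.imJ ^ 2 + z.imK ^ 2 = 1 := by
    rw [← Quaternion.normSq_def', Quaternion.normSq_eq_norm_mul_self, hz, mul_one]
  have h1 : z.re ^ 2 ≤ 1 := by nlinarith [sq_nonneg z.imI, sq_nonneg z.imJ, sq_nonneg z.imK]
  have h2 := abs_le_one_iff_mul_self_le_one.2 (by nlinarith : z.re * z.re ≤ 1)
  rw [abs_le] at h2
  have hc : Real.cos (Real.arccos z.re) = z.re := Real.cos_arccos h2.1 h2.2
  obtain ⟨s, hs⟩ : ∃ s, s = Real.sqrt (1 - z.re ^ 2) := ⟨_, rfl⟩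
  have hss : Real.sin (Real.arccos z.re) = s := by rw [Real.sin_arccos, hs]
  have hs2 : s ^ 2 = 1 - z.re ^ 2 := by rw [hs, Real.sq_sqrt (by linarith)]
  by_cases hs0 : s = 0
  · have h3 : z.imI ^ 2 + z.imJ ^ 2 + z.imK ^ 2 = 0 := by
      rw [hs0] at hs2
      linarith
    have hI : z.imI = 0 := by
      have : z.imI ^ 2 = 0 := by nlinarith [sq_nonneg z.imI, sq_nonneg z.imJ, sq_nonneg z.imK]
      exact pow_eq_zero_iff (two_ne_zero) |>.1 this
    have hJ : z.imJ = 0 := by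
      have : z.imJ ^ 2 = 0 := by nlinarith [sq_nonneg z.imI, sq_nonneg z.imJ, sq_nonneg z.imK]
      exact pow_eq_zero_iff (two_ne_zero) |>.1 this
    have hK : z.imK = 0 := by
      have : z.imK ^ 2 = 0 := by nlinarith [sq_nonneg z.imI, sq_nonneg z.imJ, sq_nonneg z.imK]
      exact pow_eq_zero_iff (two_ne_zero) |>.1 this
    obtain ⟨e, e0, e1, e2, e3⟩ : ∃ e : ℍ[ℝ], e.re = 0 ∧ e.imI = 1 ∧ e.imJ = 0 ∧ e.imK = 0 :=
      ⟨⟨0, 1, 0, 0⟩, rfl, rfl, rfl, rfl⟩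
    refine ⟨e, Real.arccos z.re, ⟨e0, ?_⟩, Real.arccos_nonneg _, Real.arccos_le_pi _, hc, ?_⟩
    · have h4 : ‖e‖ * ‖e‖ = 1 := by
        rw [← Quaternion.normSq_eq_norm_mul_self, Quaternion.normSq_def', e0, e1, e2, e3]
        norm_num
      nlinarith [norm_nonneg e]
    · unfold rq
      rw [hc, hss, hs0, zero_smul, add_zero]
      ext
      · simp
      · simp [hI]
      · simp [hJ]
      · simp [hK]
  · obtain ⟨e, e0, e1, e2, e3⟩ : ∃ e : ℍ[ℝ], e.re = 0 ∧ e.imI = z.imI ∧ e.imJ = z.imJ ∧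
        e.imK = z.imK := ⟨⟨0, z.imI, z.imJ, z.imK⟩, rfl, rfl, rfl, rfl⟩
    refine ⟨(1 / s) • e, Real.arccos z.re, ⟨?_, ?_⟩, Real.arccos_nonneg _,
      Real.arccos_le_pi _, hc, ?_⟩
    · rw [Quaternion.re_smul, e0, smul_zero]
    · have hsp : 0 < s := lt_of_le_of_ne (by rw [hs]; exact Real.sqrt_nonneg _) (Ne.symm hs0)
      have h4 : ‖e‖ * ‖e‖ = s * s := by
        rw [← Quaternion.normSq_eq_norm_mul_self, Quaternion.normSq_def', e0, e1, e2, e3]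
        nlinarith
      have h5 : ‖e‖ = s := (mul_self_inj (norm_nonneg _) hsp.le).1 h4
      rw [norm_smul, h5, Real.norm_eq_abs, abs_of_pos (by positivity)]
      field_simp
    · unfold rq
      rw [hc, hss, smul_smul, mul_one_div_cancel hs0, one_smul]
      ext
      · simp [e0]
      · simp [e1]
      · simp [e2]
      · simp [e3]

theorem e7_angle (z : ℍ[ℝ]) (hz : ‖z‖ = 1) (φ : ℝ) (h0 : 0 ≤ φ) (h1 : φ ≤ Real.pi)
    (hc : Real.cos φ = z.re) : φ ≤ 2 * ‖z - 1‖ := by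
  have hn : z.re ^ 2 + z.imI ^ 2 + z.imJ ^ 2 + z.imK ^ 2 = 1 := by
    rw [← Quaternion.normSq_def', Quaternion.normSq_eq_norm_mul_self, hz, mul_one]
  have h2 : ‖z - 1‖ * ‖z - 1‖ = 2 - 2 * z.re := by
    rw [← Quaternion.normSq_eq_norm_mul_self, Quaternion.normSq_def']
    simp only [Quaternion.re_sub, Quaternion.imI_sub, Quaternion.imJ_sub, Quaternion.imK_sub,
      Quaternion.re_one, Quaternion.imI_one, Quaternion.imJ_one, Quaternion.imK_one]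
    nlinarith
  have h3 := Real.cos_le_one_sub_mul_cos_sq (x := φ) (by rw [abs_of_nonneg h0]; exact h1)
  rw [hc] at h3
  have hpi := Real.pi_pos
  have hpi4 := Real.pi_le_four
  have h4 : 1 / 8 ≤ 2 / Real.pi ^ 2 := by
    rw [div_le_div_iff₀ (by norm_num) (by positivity)]
    nlinarith
  have h5 : 1 / 8 * φ ^ 2 ≤ 2 / Real.pi ^ 2 * φ ^ 2 :=
    mul_le_mul_of_nonneg_right h4 (sq_nonneg φ)
  have h6 : φ ^ 2 ≤ (2 * ‖z - 1‖) ^ 2 := by nlinarith
  exact (pow_le_pow_iff_left₀ h0 (by positivity) two_ne_zero).1 h6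

/-- TARGET 1 -/
theorem near_final (δ : ℝ) (hδ : 0 < δ) : ∃ C : ℝ, ∀ (v : ℍ[ℤ]), v ≠ 0 → ∀ u : ℍ[ℝ], ‖u‖ = 1 →
    ∀ ε : ℝ, 0 < ε → ε < 1 → ((Quaternion.normSq v : ℤ) : ℝ) * max ‖u - vh v‖ ε ^ 2 ≤ ε →
    ∃ (L : ℕ) (q : ℍ[ℤ]), Gd q ∧ Quaternion.normSq q = 5 ^ L ∧
      (L : ℝ) ≤ 7 / 3 * Real.logb 5 (((Quaternion.normSq v : ℤ) : ℝ) * max ‖u - vh v‖ ε ^ 2) +
        (26 / 3 + δ) * Real.logb 5 (1 / ε) + C ∧
      ‖u - qh L q‖ < ε := by
  obtain ⟨ε₁, C₁, δ₁, hε₁, hε₁1, hδ₁, hδ₁', H⟩ := gen_main δ hδ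
  obtain ⟨e0, he0⟩ : ∃ e0 : ℝ, e0 = (1 / 4 : ℝ) ^ (1 / δ₁) := ⟨_, rfl⟩
  have he0p : 0 < e0 := by rw [he0]; positivity
  obtain ⟨ε₀, hε₀⟩ : ∃ e, e = min (min ε₁ e0) (1 / 16) := ⟨_, rfl⟩
  have hε₀p : 0 < ε₀ := by rw [hε₀]; positivity
  have hle1 : ε₀ ≤ ε₁ := by rw [hε₀]; exact (min_le_left _ _).trans (min_le_left _ _)
  have hle2 : ε₀ ≤ e0 := by rw [hε₀]; exact (min_le_left _ _).trans (min_le_right _ _)
  have hle3 : ε₀ ≤ 1 / 16 := by rw [hε₀]; exact min_le_right _ _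
  obtain ⟨L₁, H₁⟩ := dense_words ε₀ hε₀p
  refine ⟨max (C₁ + 7 / 3 * Real.logb 5 4) L₁, ?_⟩
  intro v hv u hu ε hε hε1 hc
  obtain ⟨N, hN⟩ : ∃ N : ℤ, N = Quaternion.normSq v := ⟨_, rfl⟩
  obtain ⟨m, hm⟩ : ∃ m : ℝ, m = max ‖u - vh v‖ ε := ⟨_, rfl⟩
  rw [← hN, ← hm] at hc ⊢
  have hmε : ε ≤ m := by rw [hm]; exact le_max_right _ _
  have hmr : ‖u - vh v‖ ≤ m := by rw [hm]; exact le_max_left _ _
  have hm0 : 0 < m := hε.trans_le hmε
  have hNp : 1 ≤ N := by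
    have := r8_pos hv
    omega
  have hNr : (1 : ℝ) ≤ N := by exact_mod_cast hNp
  have hlog0 : 0 ≤ Real.logb 5 (1 / ε) :=
    Real.logb_nonneg (by norm_num) (by rw [le_div_iff₀ hε]; linarith)
  by_cases hlt : ε ≤ ε₀
  · -- small ε
    have h4 : (4 : ℝ) ≤ ε ^ (-δ₁) := by
      have h1 : ε ^ δ₁ ≤ 1 / 4 := by
        calc ε ^ δ₁ ≤ e0 ^ δ₁ :=
              Real.rpow_le_rpow hε.le (hlt.trans hle2) hδ₁.le
          _ = 1 / 4 := by
              rw [he0, ← Real.rpow_mul (by norm_num)]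
              have : 1 / δ₁ * δ₁ = 1 := by field_simp
              rw [this, Real.rpow_one]
      rw [Real.rpow_neg hε.le]
      have h2 : 0 < ε ^ δ₁ := Real.rpow_pos_of_pos hε _
      rw [le_inv_comm₀ (by norm_num) h2]
      linarith
    obtain ⟨g, y, w, hg, hyP, hy5, he⟩ := strip5 v hv
    have hg0 : (0 : ℤ) < (g : ℤ) := by exact_mod_cast hg
    obtain ⟨Y, hY⟩ : ∃ Y : ℤ, Y = Quaternion.normSq y := ⟨_, rfl⟩
    have hnorm : N = (g : ℤ) ^ 2 * (Y * 5 ^ w.length) := by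
      rw [hN, he, Quaternion.normSq_smul, map_mul, (good_qw w).2, ← hY]
    have hY0 : 0 ≤ Y := by rw [hY]; exact Quaternion.normSq_nonneg
    have hYp : 1 ≤ Y := by
      have h2 : Y ≠ 0 := by
        intro h0
        rw [h0, zero_mul, mul_zero] at hnorm
        omega
      omega
    have hy : y ≠ 0 := by
      rintro rfl
      rw [map_zero] at hY
      omega
    have hYr : (1 : ℝ) ≤ Y := by exact_mod_cast hYp
    have hg1 : (1 : ℝ) ≤ (g : ℝ) ^ 2 := by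
      have : (1 : ℝ) ≤ g := by exact_mod_cast hg
      nlinarith
    have h5p : (0 : ℝ) < (5 : ℝ) ^ w.length := by positivity
    have hnormR : (N : ℝ) = (g : ℝ) ^ 2 * (Y * 5 ^ w.length) := by exact_mod_cast hnorm
    have hY5 : (Y : ℝ) * 5 ^ w.length ≤ N := by
      rw [hnormR]
      have : 0 < (Y : ℝ) * 5 ^ w.length := by positivity
      nlinarith
    have hYle : (Y : ℝ) ≤ N := by
      have h51 : (1 : ℝ) ≤ 5 ^ w.length := one_le_pow₀ (by norm_num)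
      nlinarith
    obtain ⟨ω, hω⟩ : ∃ ω, ω = qh w.length (qw w) := ⟨_, rfl⟩
    have hωn : ‖ω‖ = 1 := by rw [hω]; exact e7_qh_norm w
    have hvv : vh v = vh y * ω := by
      rw [he, l13_vh_smul _ hg0, e7_vh, hω]
    have hvn := e7_vh_norm v hv
    obtain ⟨s1, s2⟩ := e7_star (vh v) hvn
    obtain ⟨z, hz⟩ : ∃ z, z = star (vh v) * u := ⟨_, rfl⟩
    have hzn : ‖z‖ = 1 := by rw [hz, norm_mul, norm_star, hvn, hu, one_mul]
    have hz1 : ‖z - 1‖ = ‖u - vh v‖ := by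
      have : z - 1 = star (vh v) * (u - vh v) := by rw [mul_sub, s1, hz]
      rw [this, norm_mul, norm_star, hvn, one_mul]
    have huz : u = vh v * z := by rw [hz, ← mul_assoc, s2, one_mul]
    obtain ⟨p, φ, hp, hφ0, hφπ, hcos, hzp⟩ := e7_polar z hzn
    have hφr := e7_angle z hzn φ hφ0 hφπ hcos
    rw [hz1] at hφr
    have hφm : φ ≤ 2 * m := hφr.trans (by linarith)
    have hm4 : m ≤ 1 / 4 := by
      have h1 : m ^ 2 ≤ (1 / 4) ^ 2 := by
        have h2 : m ^ 2 ≤ N * m ^ 2 := by nlinarith [sq_nonneg m]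
        linarith
      exact (pow_le_pow_iff_left₀ hm0.le (by norm_num) two_ne_zero).1 h1
    have hmax : max |φ| ε ≤ 2 * m := by
      rw [abs_of_nonneg hφ0]
      exact max_le hφm (by linarith)
    have hmax0 : 0 < max |φ| ε := hε.trans_le (le_max_right _ _)
    have hsq : max |φ| ε ^ 2 ≤ 4 * m ^ 2 := by
      calc max |φ| ε ^ 2 ≤ (2 * m) ^ 2 := pow_le_pow_left₀ hmax0.le hmax 2
        _ = 4 * m ^ 2 := by ring
    have c3 : ((Quaternion.normSq y : ℤ) : ℝ) * max |φ| ε ^ 2 ≤ ε ^ (1 - δ₁) := by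
      rw [← hY]
      calc (Y : ℝ) * max |φ| ε ^ 2 ≤ N * (4 * m ^ 2) :=
            mul_le_mul hYle hsq (by positivity) (by positivity)
        _ = 4 * (N * m ^ 2) := by ring
        _ ≤ ε ^ (-δ₁) * ε := by
            apply mul_le_mul h4 hc (by positivity) (by positivity)
        _ = ε ^ (1 - δ₁) := by
            rw [sub_eq_neg_add, Real.rpow_add hε, Real.rpow_one]
    have hup := e7_up p ω hp hωn
    obtain ⟨L, X, hXg, hXn, hL, hX⟩ := H y hyP hy5 (ω * p * star ω) hup φ ε hε (hlt.trans hle1)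
      (by rw [abs_of_nonneg hφ0]; linarith) c3
    refine ⟨L + w.length, X * qw w, e7_gd X w hXg, ?_, ?_, ?_⟩
    · rw [map_mul, hXn, (good_qw w).2, pow_add]
    · rw [← hY] at hL
      have h5k : Real.logb 5 ((5 : ℝ) ^ w.length) = w.length := by
        rw [Real.logb_pow, Real.logb_self_eq_one (by norm_num), mul_one]
      have e1 : Real.logb 5 ((Y : ℝ) * max |φ| ε ^ 2) ≤ Real.logb 5 (4 * ((Y : ℝ) * m ^ 2)) := by
        apply Real.logb_le_logb_of_le (by norm_num) (by positivity)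
        have : (Y : ℝ) * max |φ| ε ^ 2 ≤ Y * (4 * m ^ 2) :=
          mul_le_mul_of_nonneg_left hsq (by positivity)
        linarith
      have e2 : Real.logb 5 (4 * ((Y : ℝ) * m ^ 2)) = Real.logb 5 4 + Real.logb 5 ((Y : ℝ) * m ^ 2) :=
        Real.logb_mul (by norm_num) (by positivity)
      have e3 : Real.logb 5 (((Y : ℝ) * m ^ 2) * (5 : ℝ) ^ w.length) =
          Real.logb 5 ((Y : ℝ) * m ^ 2) + Real.logb 5 ((5 : ℝ) ^ w.length) :=
        Real.logb_mul (by positivity) (by positivity)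
      have e4 : Real.logb 5 (((Y : ℝ) * m ^ 2) * (5 : ℝ) ^ w.length) ≤ Real.logb 5 (N * m ^ 2) := by
        apply Real.logb_le_logb_of_le (by norm_num) (by positivity)
        calc ((Y : ℝ) * m ^ 2) * (5 : ℝ) ^ w.length = (Y * 5 ^ w.length) * m ^ 2 := by ring
          _ ≤ N * m ^ 2 := mul_le_mul_of_nonneg_right hY5 (by positivity)
      have hw0 : (0 : ℝ) ≤ w.length := by positivity
      have hCle := le_max_left (C₁ + 7 / 3 * Real.logb 5 4) (L₁ : ℝ)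
      push_cast
      linarith
    · have hrot := e7_rot p (ω * p * star ω) ω φ (e7_star ω hωn).1 rfl
      rw [e7_qh, ← hω, huz, hvv, hzp, mul_assoc, hrot, ← mul_assoc, ← sub_mul, norm_mul, hωn,
        mul_one]
      exact hX
  · -- large ε
    push Not at hlt
    obtain ⟨L, q, hq1, hq2, hq3, hq4⟩ := H₁ u hu
    refine ⟨L, q, hq1, hq2, ?_, hq4.trans hlt⟩
    have h4 : (L : ℝ) ≤ L₁ := by exact_mod_cast hq3
    have h5 : Real.logb 5 (ε ^ 2) ≤ Real.logb 5 (N * m ^ 2) := by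
      apply Real.logb_le_logb_of_le (by norm_num) (by positivity)
      have h6 : ε ^ 2 ≤ m ^ 2 := pow_le_pow_left₀ hε.le hmε 2
      have h7 : m ^ 2 ≤ N * m ^ 2 := by nlinarith [sq_nonneg m]
      linarith
    have h6 : Real.logb 5 (ε ^ 2) = -(2 * Real.logb 5 (1 / ε)) := by
      rw [one_div, Real.logb_inv, Real.logb_pow]
      push_cast
      ring
    have h7 : 0 ≤ δ * Real.logb 5 (1 / ε) := by positivity
    have h8 := le_max_right (C₁ + 7 / 3 * Real.logb 5 4) (L₁ : ℝ)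
    linarith

theorem e7_vh_coord (v : ℍ[ℤ]) :
    (vh v).re = (1 / Real.sqrt ((Quaternion.normSq v : ℤ) : ℝ)) * v.re ∧
    (vh v).imI = (1 / Real.sqrt ((Quaternion.normSq v : ℤ) : ℝ)) * v.imI ∧
    (vh v).imJ = (1 / Real.sqrt ((Quaternion.normSq v : ℤ) : ℝ)) * v.imJ ∧
    (vh v).imK = (1 / Real.sqrt ((Quaternion.normSq v : ℤ) : ℝ)) * v.imK := by
  refine ⟨?_, ?_, ?_, ?_⟩
  · rw [vh, Quaternion.re_smul]; rfl
  · rw [vh, Quaternion.imI_smul]; rfl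
  · rw [vh, Quaternion.imJ_smul]; rfl
  · rw [vh, Quaternion.imK_smul]; rfl

theorem e7_ns (a b c d : ℤ) :
    (((Quaternion.normSq (⟨a, d, c, b⟩ : ℍ[ℤ]) : ℤ) : ℝ)) = (a : ℝ) ^ 2 + b ^ 2 + c ^ 2 + d ^ 2 := by
  rw [Quaternion.normSq_def']
  push_cast
  ring

theorem e7_Urat (a b c d : ℤ) :
    let v : ℍ[ℤ] := ⟨a, d, c, b⟩
    UratN a b c d = Uquat (vh v).re (vh v).imI (vh v).imJ (vh v).imK := by
  intro v
  have h : (((Quaternion.normSq v : ℤ) : ℝ)) = (a : ℝ) ^ 2 + b ^ 2 + c ^ 2 + d ^ 2 := e7_ns a b c d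
  obtain ⟨h1, h2, h3, h4⟩ := e7_vh_coord v
  rw [h1, h2, h3, h4, h]
  unfold UratN Uquat
  set s := Real.sqrt ((a : ℝ) ^ 2 + b ^ 2 + c ^ 2 + d ^ 2)
  simp only [v]
  push_cast
  module

/-- TARGET 2 -/
theorem near_matrix (δ : ℝ) (hδ : 0 < δ) : ∃ C : ℝ, ∀ a b c d : ℤ, ¬ (a = 0 ∧ b = 0 ∧ c = 0 ∧ d = 0) →
    ∀ U : Matrix (Fin 2) (Fin 2) ℂ, U ∈ Matrix.specialUnitaryGroup (Fin 2) ℂ → ∀ ε : ℝ, 0 < ε → ε < 1 →
    ((a : ℝ) ^ 2 + b ^ 2 + c ^ 2 + d ^ 2) * (max (‖U - UratN a b c d‖ / ε) 1) ^ 2 ≤ 1 / ε →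
    ∃ w : List (Matrix (Fin 2) (Fin 2) ℂ), (∀ g ∈ w, g ∈ Vset) ∧
      (w.length : ℝ) ≤ (4 + δ) * Real.logb 5 (1 / ε) +
        7 / 3 * Real.logb 5 (((a : ℝ) ^ 2 + b ^ 2 + c ^ 2 + d ^ 2) * (max (‖U - UratN a b c d‖ / ε) 1) ^ 2) + C ∧
      ‖U - w.prod‖ < ε := by
  obtain ⟨C, hC⟩ := near_final δ hδ
  refine ⟨C, ?_⟩
  intro a b c d h0 U hUs ε hε hε1 hcond
  set v : ℍ[ℤ] := ⟨a, d, c, b⟩ with hv
  have hv0 : v ≠ 0 := by
    intro h
    apply h0
    have h1 := congrArg (fun q : ℍ[ℤ] => q.re) h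
    have h2 := congrArg (fun q : ℍ[ℤ] => q.imI) h
    have h3 := congrArg (fun q : ℍ[ℤ] => q.imJ) h
    have h4 := congrArg (fun q : ℍ[ℤ] => q.imK) h
    simp [hv] at h1 h2 h3 h4
    exact ⟨h1, h4, h3, h2⟩
  have hU := e7_Urat a b c d
  simp only [← hv] at hU
  rw [hU] at hcond ⊢
  obtain ⟨t, ht, rfl⟩ := su2_quat U hUs
  rw [uquat_norm] at hcond ⊢
  have hM : (a : ℝ) ^ 2 + b ^ 2 + c ^ 2 + d ^ 2 = ((Quaternion.normSq v : ℤ) : ℝ) := (e7_ns a b c d).symm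
  rw [hM] at hcond ⊢
  obtain ⟨M, hMd⟩ : ∃ M : ℝ, M = ((Quaternion.normSq v : ℤ) : ℝ) := ⟨_, rfl⟩
  have hMpos : 0 < M := by
    rw [hMd]
    exact_mod_cast r8_pos hv0
  obtain ⟨r, hr⟩ : ∃ r, r = ‖t - vh v‖ := ⟨_, rfl⟩
  rw [← hMd, ← hr] at hcond ⊢
  have hmx : max (r / ε) 1 = max r ε / ε := by
    have h1 := max_div_div_right hε.le r ε
    rw [div_self hε.ne'] at h1
    exact h1
  have hmpos : 0 < max r ε := hε.trans_le (le_max_right _ _)
  rw [hmx] at hcond ⊢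
  have hc1 : M * max r ε ^ 2 ≤ ε := by
    have h1 : M * (max r ε / ε) ^ 2 = (M * max r ε ^ 2) / ε ^ 2 := by
      rw [div_pow]; ring
    rw [h1, div_le_div_iff₀ (by positivity) hε, one_mul] at hcond
    have h2 : M * max r ε ^ 2 * ε ≤ ε * ε := by rw [← pow_two ε]; exact hcond
    exact le_of_mul_le_mul_right h2 hε
  obtain ⟨L, q, hq1, hq2, hL, hqv⟩ := hC v hv0 t ht ε hε hε1 (by rw [← hMd, ← hr]; exact hc1)
  rw [← hMd, ← hr] at hL
  obtain ⟨w, hw1, hw2, hw3⟩ := word_of_quat L q hq1 hq2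
  refine ⟨w, hw1, ?_, ?_⟩
  · rw [hw2]
    have h1 : Real.logb 5 (M * (max r ε / ε) ^ 2) =
        Real.logb 5 (M * max r ε ^ 2) + 2 * Real.logb 5 (1 / ε) := by
      have h2 : M * (max r ε / ε) ^ 2 = (M * max r ε ^ 2) * (1 / ε) ^ 2 := by
        rw [div_pow, div_pow]; ring
      rw [h2, Real.logb_mul (by positivity) (by positivity), Real.logb_pow]
      push_cast
      ring
    rw [h1]
    linarith
  · have h5 : ‖Uquat t.re t.imI t.imJ t.imK - w.prod‖ ^ 2 < ε ^ 2 := by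
      rw [hw3, ← qh_dist]
      exact pow_lt_pow_left₀ hqv (norm_nonneg _) (by norm_num)
    exact lt_of_pow_lt_pow_left₀ 2 hε.le h5

end Pool.Agent.H978V
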