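import Pool.Agent.H978V.K12
import Pool.Agent.H978V.K14
import Pool.Agent.H978V.K16

/-!
# Words near a conjugacy class of SU(2): the statements for matrices
-/

set_option autoImplicit false

open MeasureTheory Set
open scoped Quaternion

namespace Pool.Agent.H978V

open Pool.Agent.Helper557.Rz

open scoped Matrix.Norms.L2Operator in
/-- `U` has the asymptotic word length `3 log_5 (1/ε)`: for every `δ > 0` and all sufficiently small `ε > 0` there is a word in the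
V-basis of length at most `(3 + δ) log_5 (1/ε)` within `ε` of `U`, and every word within `ε` of `U` has length at least
`(3 - δ) log_5 (1/ε)`. -/
def Len3 (U : Matrix (Fin 2) (Fin 2) ℂ) : Prop := ∀ δ : ℝ, 0 < δ → ∀ᶠ ε : ℝ in nhdsWithin 0 (Set.Ioi 0),
  (∃ w : List (Matrix (Fin 2) (Fin 2) ℂ), (∀ g ∈ w, g ∈ Vset) ∧
    (w.length : ℝ) ≤ (3 + δ) * Real.logb 5 (1 / ε) ∧ ‖U - w.prod‖ < ε) ∧
  (∀ w : List (Matrix (Fin 2) (Fin 2) ℂ), (∀ g ∈ w, g ∈ Vset) → ‖U - w.prod‖ < ε →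
    (3 - δ) * Real.logb 5 (1 / ε) ≤ w.length)

open scoped Matrix.Norms.L2Operator in
theorem len3_of_good (t₀ t₁ t₂ t₃ : ℝ) (h : GoodD t₀ t₁ t₂ t₃) : Len3 (Uquat t₀ t₁ t₂ t₃) := by
  intro δ hδ
  filter_upwards [good_of_dyadic t₀ t₁ t₂ t₃ h δ hδ, self_mem_nhdsWithin] with ε h1 hε
  have hε' : (0 : ℝ) < ε := hε
  obtain ⟨⟨L, q, hq1, hq2, hq3, hq4⟩, hlo⟩ := h1
  constructor
  · obtain ⟨w, hw1, hw2, hw3⟩ := word_of_quat L q hq1 hq2
    refine ⟨w, hw1, by rw [hw2]; exact hq3, ?_⟩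
    rw [← hw3] at hq4
    exact lt_of_pow_lt_pow_left₀ 2 hε'.le hq4
  · intro w hw1 hw2
    obtain ⟨q', h1, h2, h3⟩ := quat_of_word w hw1
    refine hlo _ q' h1 h2 ?_
    rw [← h3]
    have h0 : 0 ≤ ‖Uquat t₀ t₁ t₂ t₃ - w.prod‖ := norm_nonneg _
    exact pow_lt_pow_left₀ hw2 h0 (by norm_num)

/-- the unitary `τ I + i √(1-τ²) (n₀ X + n₁ Y + n₂ Z)` -/
noncomputable def Uax (τ : ℝ) (n : EuclideanSpace ℝ (Fin 3)) : Matrix (Fin 2) (Fin 2) ℂ :=
  (τ : ℂ) • 1 + ((Real.sqrt (1 - τ ^ 2) : ℝ) * Complex.I : ℂ) •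
    ((n 0 : ℂ) • pauli 0 + (n 1 : ℂ) • pauli 1 + (n 2 : ℂ) • pauli 2)

/-- the matrix `t₀ I + i (t₁ X + t₂ Y + t₃ Z)` -/
noncomputable def USU (t : EuclideanSpace ℝ (Fin 4)) : Matrix (Fin 2) (Fin 2) ℂ :=
  (t 0 : ℂ) • 1 + Complex.I • ((t 1 : ℂ) • pauli 0 + (t 2 : ℂ) • pauli 1 + (t 3 : ℂ) • pauli 2)

theorem Uax_eq (τ : ℝ) (n : EuclideanSpace ℝ (Fin 3)) : Uax τ n =
    Uquat τ (Real.sqrt (1 - τ ^ 2) * n 2) (Real.sqrt (1 - τ ^ 2) * n 1)
      (Real.sqrt (1 - τ ^ 2) * n 0) := by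
  unfold Uax Uquat
  push_cast
  module

theorem USU_eq (t : EuclideanSpace ℝ (Fin 4)) : USU t = Uquat (t 0) (t 3) (t 2) (t 1) := by
  unfold USU Uquat
  module

/-- exchange of two coordinates -/
noncomputable def swp {d : ℕ} (i j : Fin d) : Iso d :=
  LinearIsometryEquiv.piLpCongrLeft 2 ℝ ℝ (Equiv.swap i j)

theorem swp_apply {d : ℕ} (i j k : Fin d) (x : E d) : swp i j x k = x (Equiv.swap i j k) := by
  simp [swp]

theorem ae_swp {d : ℕ} (hd : 1 ≤ d) (i j : Fin d) (P : S d → Prop)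
    (h : ∀ᵐ x : S d ∂(volume : Measure (E d)).toSphere, P x) :
    ∀ᵐ x : S d ∂(volume : Measure (E d)).toSphere, P (rot (swp i j) x) := by
  have hc : ((volume : Measure (E d)).toSphere Set.univ)⁻¹ ≠ 0 :=
    ENNReal.inv_ne_zero.mpr (measure_ne_top _ _)
  have h1 : ∀ᵐ x : S d ∂(sg d), P x := (Measure.ae_ennreal_smul_measure_iff hc).2 h
  exact (Measure.ae_ennreal_smul_measure_iff hc).1
    ((rot_mp d hd (swp i j)).quasiMeasurePreserving.ae h1)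

theorem class_len3 (τ : ℝ) (h1 : -1 < τ) (h2 : τ < 1) :
    ∀ᵐ n : Metric.sphere (0 : EuclideanSpace ℝ (Fin 3)) 1
      ∂((volume : Measure (EuclideanSpace ℝ (Fin 3))).toSphere), Len3 (Uax τ n) := by
  have hc : ((volume : Measure (E 3)).toSphere Set.univ)⁻¹ ≠ 0 :=
    ENNReal.inv_ne_zero.mpr (measure_ne_top _ _)
  have h3 := ae_swp (by norm_num : 1 ≤ 3) 0 2 _
    ((Measure.ae_ennreal_smul_measure_iff hc).1 (class_ae τ h1 h2))
  filter_upwards [h3] with n hn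
  have := len3_of_good _ _ _ _ hn
  rw [Uax_eq]
  have e1 : Equiv.swap (0 : Fin 3) 2 1 = 1 := by decide
  simpa [rot_coe, swp_apply, e1] using this

theorem haar_len3 : ∀ᵐ t : Metric.sphere (0 : EuclideanSpace ℝ (Fin 4)) 1
      ∂((volume : Measure (EuclideanSpace ℝ (Fin 4))).toSphere), Len3 (USU t) := by
  have h3 := ae_swp (by norm_num : 1 ≤ 4) 1 3 _ (sphere_ae class_ae)
  filter_upwards [h3] with n hn
  have := len3_of_good _ _ _ _ hn
  rw [USU_eq]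
  have e0 : Equiv.swap (1 : Fin 4) 3 0 = 0 := by decide
  have e2 : Equiv.swap (1 : Fin 4) 3 2 = 2 := by decide
  simpa [rot_coe, swp_apply, e0, e2] using this

end Pool.Agent.H978V
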