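import Pool.Agent.H978V.Defs2

/-!
# Words near a conjugacy class of SU(2): definitions
-/

set_option autoImplicit false

open MeasureTheory Set
open scoped Quaternion

namespace Pool.Agent.H978V

open Pool.Agent.Helper557.Rz

/-- for odd `a` with `a² < 5^l`: the number `n` with `a² + 4 n = 5^l` -/
def nA (l : ℕ) (a : ℤ) : ℕ := (((5 : ℤ) ^ l - a ^ 2) / 4).toNat

/-- pairs `(a, y)` with `a ∈ A` and `y` an integral vector with `|y|² = nA l a` -/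
noncomputable def PW (l : ℕ) (A : Finset ℤ) : Finset (ℤ × (ℤ × ℤ × ℤ)) :=
  A.biUnion (fun a => (S3 (nA l a)).image (fun y => (a, y)))

lemma mem_PW {l : ℕ} {A : Finset ℤ} {p : ℤ × (ℤ × ℤ × ℤ)} :
    p ∈ PW l A ↔ p.1 ∈ A ∧ p.2 ∈ S3 (nA l p.1) := by
  unfold PW
  simp only [Finset.mem_biUnion, Finset.mem_image]
  constructor
  · rintro ⟨a, ha, y, hy, rfl⟩
    exact ⟨ha, hy⟩
  · rintro ⟨h1, h2⟩
    exact ⟨p.1, h1, p.2, h2, rfl⟩

/-- squared distance of integral vectors -/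
def sqd (y z : ℤ × ℤ × ℤ) : ℤ := dt y y + dt z z - 2 * dt y z

/-- squared distance of the real vector `(t₀,t₁,t₂,t₃)` and the quaternion `q / √5^L` -/
noncomputable def qd (t₀ t₁ t₂ t₃ : ℝ) (q : ℍ[ℤ]) (L : ℕ) : ℝ :=
  (t₀ - q.re / Real.sqrt 5 ^ L) ^ 2 + (t₁ - q.imI / Real.sqrt 5 ^ L) ^ 2 +
    (t₂ - q.imJ / Real.sqrt 5 ^ L) ^ 2 + (t₃ - q.imK / Real.sqrt 5 ^ L) ^ 2

/-- the same for the point `(τ, √(1-τ²) x)` of the three-sphere, `x` on the two-sphere -/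
noncomputable def qs (τ : ℝ) (x : S 3) (q : ℍ[ℤ]) (L : ℕ) : ℝ :=
  qd τ (Real.sqrt (1 - τ ^ 2) * (x : E 3) 0) (Real.sqrt (1 - τ ^ 2) * (x : E 3) 1)
    (Real.sqrt (1 - τ ^ 2) * (x : E 3) 2) q L

end Pool.Agent.H978V
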