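import Pool.Agent.H978V.KDefs
import Pool.Agent.H978V.VDefs

/-!
# Words near a conjugacy class of SU(2): more definitions
-/

set_option autoImplicit false

open MeasureTheory Set
open scoped Quaternion

namespace Pool.Agent.H978V

open Pool.Agent.Helper557.Rz

/-- At all small dyadic scales the vector `(t₀,t₁,t₂,t₃)` has an approximation of length at most `(3 + 1/(m+1)) log_5 (2^k)`
and none of length less than `(3 - 1/(m+1)) log_5 (2^k)`. -/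
def GoodD (t₀ t₁ t₂ t₃ : ℝ) : Prop := ∀ m : ℕ, ∀ᶠ k : ℕ in Filter.atTop,
  (∃ (L : ℕ) (q : ℍ[ℤ]), Gd q ∧ Quaternion.normSq q = 5 ^ L ∧
    (L : ℝ) ≤ (3 + 1 / (m + 1)) * (k * Real.logb 5 2) ∧ qd t₀ t₁ t₂ t₃ q L < (1 / 4) ^ k) ∧
  (∀ (L : ℕ) (q : ℍ[ℤ]), Gd q → Quaternion.normSq q = 5 ^ L →
    qd t₀ t₁ t₂ t₃ q L < (1 / 4) ^ k → (3 - 1 / (m + 1)) * (k * Real.logb 5 2) ≤ L)

/-- the matrix with the quaternion coordinates `(t₀,t₁,t₂,t₃)` -/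
noncomputable def Uquat (t₀ t₁ t₂ t₃ : ℝ) : Matrix (Fin 2) (Fin 2) ℂ :=
  (t₀ : ℂ) • 1 + (t₁ * Complex.I) • pauli 2 + (t₂ * Complex.I) • pauli 1 + (t₃ * Complex.I) • pauli 0

end Pool.Agent.H978V
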