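import Pool.Agent.H978V.RDefs

/-!
# Words near the holes around rational points of SU(2): definitions
-/

set_option autoImplicit false

open scoped Quaternion

namespace Pool.Agent.H978V

open Pool.Agent.Helper557.Rz

/-- unit pure quaternions -/
def UP (p : ℍ[ℝ]) : Prop := p.re = 0 ∧ ‖p‖ = 1

/-- rotation of a real quaternion by a word -/
noncomputable def rt (w : List (Fin 6)) (p : ℍ[ℝ]) : ℍ[ℝ] :=
  (1 / (5 : ℝ) ^ w.length) • (cz (qw w) * p * star (cz (qw w)))

/-- the quaternion with real part `m` and imaginary part `y` -/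
def mq (m : ℤ) (y : ℤ × ℤ × ℤ) : ℍ[ℤ] := ⟨m, y.1, y.2.1, y.2.2⟩

/-- direction of an integral vector of squared length `n` -/
noncomputable def hat (n : ℕ) (y : ℤ × ℤ × ℤ) : ℍ[ℝ] := (1 / Real.sqrt n) • cz (pq y)

/-- the unit quaternion of a nonzero integral quaternion -/
noncomputable def vh (v : ℍ[ℤ]) : ℍ[ℝ] := (1 / Real.sqrt ((Quaternion.normSq v : ℤ) : ℝ)) • cz v

/-- the unit quaternion of an integral quaternion of norm `5^L` -/
noncomputable def qh (L : ℕ) (q : ℍ[ℤ]) : ℍ[ℝ] := (1 / Real.sqrt 5 ^ L) • cz q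

/-- The word `w` brings the pair `(ζ, p)` to a pair which some word `g` of length at most `L₀` brings to the left annihilated by `v`
modulo `D` and to a direction near `η`. -/
def Hit (v : ℍ[ℤ]) (D L₀ : ℕ) (κ : ℝ) (η : ℍ[ℝ]) (ζ : ℍ[ℤ]) (p : ℍ[ℝ]) (w : List (Fin 6)) : Prop :=
  ∃ g : List (Fin 6), g.length ≤ L₀ ∧ DvdQ D (v * (qw g * (qw w * ζ * star (qw w)))) ∧
    ‖rt g (rt w p) - η‖ < κ

open Classical in
/-- the integral vectors `y` of squared length `n` for which `m + y` satisfies the 2-adic condition -/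
noncomputable def ZS (v : ℍ[ℤ]) (c : ℤ) (D : ℕ) (m : ℤ) (n : ℕ) : Finset (ℤ × ℤ × ℤ) :=
  (S3 n).filter (fun y => G2 v c D (mq m y))

end Pool.Agent.H978V
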