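import Pool.Agent.H978V.MDefs

set_option autoImplicit false

namespace Pool.Agent.H978V

theorem circ_dirichlet_exists (H : ℕ) (hH : 1 ≤ H) (θ ε : ℝ) (hε : 0 < ε) (hε1 : ε < 1) :
    ∃ (p q : ℤ), 1 ≤ p ^ 2 + H * q ^ 2 ∧ ((p : ℝ) ^ 2 + H * q ^ 2) ≤ 20 * H / ε ∧
      ((p : ℝ) * Real.sin θ - q * Real.sqrt H * Real.cos θ) ^ 2 ≤ ε := by
  set c := Real.cos θ with hc
  set σ := Real.sin θ with hσ
  have hcs : σ ^ 2 + c ^ 2 = 1 := Real.sin_sq_add_cos_sq θ
  set S := Real.sqrt H with hS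
  have hHr : (1 : ℝ) ≤ H := by exact_mod_cast hH
  have hSS : S ^ 2 = H := Real.sq_sqrt (by linarith)
  have hS1 : 1 ≤ S := by rw [hS]; exact Real.one_le_sqrt.mpr hHr
  set e := Real.sqrt ε with he
  have he0 : 0 < e := Real.sqrt_pos.mpr hε
  have hee : e ^ 2 = ε := Real.sq_sqrt hε.le
  have he1 : e < 1 := by nlinarith
  by_cases h : |c| ≤ |σ|
  · have hσ0 : σ ≠ 0 := by
      intro h0
      rw [h0, abs_zero] at h
      have : c = 0 := abs_eq_zero.mp (le_antisymm h (abs_nonneg _))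
      rw [h0, this] at hcs
      norm_num at hcs
    set n := ⌈1 / e⌉₊ with hn
    have hn1 : 1 / e ≤ n := Nat.le_ceil _
    have hn2 : (n : ℝ) < 1 / e + 1 := Nat.ceil_lt_add_one (by positivity)
    have hone : 1 < 1 / e := by rw [lt_div_iff₀ he0]; linarith
    have hnpos : 0 < n := by
      have : (0 : ℝ) < n := by linarith
      exact_mod_cast this
    obtain ⟨j, k, hk0, hkn, hjk⟩ := Real.exists_int_int_abs_mul_sub_le (S * c / σ) hnpos
    have hk0' : (0 : ℝ) < k := by exact_mod_cast hk0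
    have hkn' : (k : ℝ) ≤ n := by exact_mod_cast hkn
    have hn0' : (0 : ℝ) < n := by exact_mod_cast hnpos
    have hle : 1 / ((n : ℝ) + 1) ≤ e := by
      rw [div_le_iff₀ (by positivity)]
      have : 1 ≤ e * n := by
        rw [div_le_iff₀ he0] at hn1; linarith
      nlinarith
    have hσ1 : |σ| ≤ 1 := by
      rw [hσ]; exact Real.abs_sin_le_one θ
    have hξ : |S * c / σ| ≤ S := by
      rw [abs_div, abs_mul, abs_of_pos (by linarith : (0 : ℝ) < S),
        div_le_iff₀ (abs_pos.mpr hσ0)]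
      exact mul_le_mul_of_nonneg_left h (by linarith)
    refine ⟨j, k, ?_, ?_, ?_⟩
    · have h1 : 0 ≤ j ^ 2 := sq_nonneg _
      have h2 : 1 ≤ k ^ 2 := by nlinarith
      have h3 : (1 : ℤ) ≤ H := by exact_mod_cast hH
      nlinarith
    · have hj : |(j : ℝ)| ≤ n * S + 1 := by
        have h1 : |(j : ℝ)| ≤ |(k : ℝ) * (S * c / σ) - j| + |(k : ℝ) * (S * c / σ)| := by
          have := abs_sub_abs_le_abs_sub (j : ℝ) ((k : ℝ) * (S * c / σ))
          rw [abs_sub_comm] at this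
          linarith
        have h2 : |(k : ℝ) * (S * c / σ)| ≤ n * S := by
          rw [abs_mul, abs_of_pos hk0']
          exact mul_le_mul hkn' hξ (abs_nonneg _) hn0'.le
        have h3 : 1 / ((n : ℝ) + 1) ≤ 1 := by linarith
        linarith
      have hj2 : (j : ℝ) ^ 2 ≤ (n * S + 1) ^ 2 := by
        rw [← sq_abs]
        exact pow_le_pow_left₀ (abs_nonneg _) hj 2
      have hnS : 1 ≤ n * S := by
        have : (1 : ℝ) ≤ n := by linarith
        nlinarith
      have hk2 : (k : ℝ) ^ 2 ≤ n ^ 2 := pow_le_pow_left₀ hk0'.le hkn' 2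
      have hM : (j : ℝ) ^ 2 + H * k ^ 2 ≤ 5 * H * n ^ 2 := by
        have h1 : (n * S + 1) ^ 2 ≤ 4 * H * n ^ 2 := by
          rw [← hSS]; nlinarith
        have h2 : (H : ℝ) * k ^ 2 ≤ H * n ^ 2 := mul_le_mul_of_nonneg_left hk2 (by linarith)
        linarith
      have hn3 : (n : ℝ) ≤ 2 / e := by
        have : 2 / e = 1 / e + 1 / e := by ring
        linarith
      have hn4 : (n : ℝ) ^ 2 ≤ 4 / ε := by
        have : (n : ℝ) ^ 2 ≤ (2 / e) ^ 2 := pow_le_pow_left₀ hn0'.le hn3 2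
        rw [div_pow, hee] at this
        linarith [this, (by norm_num : (2 : ℝ) ^ 2 = 4)]
      calc (j : ℝ) ^ 2 + H * k ^ 2 ≤ 5 * H * n ^ 2 := hM
        _ ≤ 5 * H * (4 / ε) := mul_le_mul_of_nonneg_left hn4 (by positivity)
        _ = 20 * H / ε := by ring
    · have h1 : (j : ℝ) * σ - k * S * c = - (σ * ((k : ℝ) * (S * c / σ) - j)) := by
        field_simp
        ring
      rw [h1, neg_sq, mul_pow, ← sq_abs ((k : ℝ) * (S * c / σ) - j), ← sq_abs σ]
      have h2 : |(k : ℝ) * (S * c / σ) - j| ^ 2 ≤ e ^ 2 :=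
        pow_le_pow_left₀ (abs_nonneg _) (hjk.trans hle) 2
      have h3 : |σ| ^ 2 ≤ 1 := by
        have := pow_le_pow_left₀ (abs_nonneg _) hσ1 2
        simpa using this
      calc |σ| ^ 2 * |(k : ℝ) * (S * c / σ) - j| ^ 2 ≤ 1 * e ^ 2 :=
            mul_le_mul h3 h2 (by positivity) (by norm_num)
        _ = ε := by rw [one_mul, hee]
  · push Not at h
    have hc0 : c ≠ 0 := by
      intro h0
      rw [h0, abs_zero] at h
      exact absurd h (not_lt.mpr (abs_nonneg _))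
    set n := ⌈S / e⌉₊ with hn
    have hS0 : 0 < S := by linarith
    have hn1 : S / e ≤ n := Nat.le_ceil _
    have hn2 : (n : ℝ) < S / e + 1 := Nat.ceil_lt_add_one (by positivity)
    have hone : S < S / e := by rw [lt_div_iff₀ he0]; nlinarith
    have hnpos : 0 < n := by
      have : (0 : ℝ) < n := by linarith
      exact_mod_cast this
    obtain ⟨j, k, hk0, hkn, hjk⟩ := Real.exists_int_int_abs_mul_sub_le (σ / (S * c)) hnpos
    have hk0' : (0 : ℝ) < k := by exact_mod_cast hk0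
    have hkn' : (k : ℝ) ≤ n := by exact_mod_cast hkn
    have hn0' : (0 : ℝ) < n := by exact_mod_cast hnpos
    have hle : 1 / ((n : ℝ) + 1) ≤ e / S := by
      rw [div_le_div_iff₀ (by positivity) hS0]
      have : S ≤ e * n := by
        rw [div_le_iff₀ he0] at hn1; linarith
      nlinarith
    have hc1 : |c| ≤ 1 := by
      rw [hc]; exact Real.abs_cos_le_one θ
    refine ⟨k, j, ?_, ?_, ?_⟩
    · have h1 : 0 ≤ j ^ 2 := sq_nonneg _
      have h2 : 1 ≤ k ^ 2 := by nlinarith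
      have h3 : (1 : ℤ) ≤ H := by exact_mod_cast hH
      nlinarith
    · have hξ : |σ / (S * c)| ≤ 1 / S := by
        rw [abs_div, abs_mul, abs_of_pos hS0, div_le_div_iff₀ (mul_pos hS0 (abs_pos.mpr hc0)) hS0]
        nlinarith
      have hj : |(j : ℝ)| * S ≤ n + S := by
        have h1 : |(j : ℝ)| ≤ |(k : ℝ) * (σ / (S * c)) - j| + |(k : ℝ) * (σ / (S * c))| := by
          have := abs_sub_abs_le_abs_sub (j : ℝ) ((k : ℝ) * (σ / (S * c)))
          rw [abs_sub_comm] at this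
          linarith
        have h2 : |(k : ℝ) * (σ / (S * c))| ≤ n * (1 / S) := by
          rw [abs_mul, abs_of_pos hk0']
          exact mul_le_mul hkn' hξ (abs_nonneg _) hn0'.le
        have h3 : 1 / ((n : ℝ) + 1) ≤ 1 := by
          rw [div_le_iff₀ (by positivity)]; linarith
        have h4 : |(j : ℝ)| ≤ 1 + n * (1 / S) := by linarith
        calc |(j : ℝ)| * S ≤ (1 + n * (1 / S)) * S := mul_le_mul_of_nonneg_right h4 hS0.le
          _ = S + n * (S / S) := by ring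
          _ = n + S := by rw [div_self hS0.ne']; ring
      have hj2 : (H : ℝ) * j ^ 2 ≤ (n + S) ^ 2 := by
        have := pow_le_pow_left₀ (by positivity) hj 2
        rw [mul_pow, sq_abs, hSS] at this
        linarith
      have hk2 : (k : ℝ) ^ 2 ≤ n ^ 2 := pow_le_pow_left₀ hk0'.le hkn' 2
      have hM : (k : ℝ) ^ 2 + H * j ^ 2 ≤ 5 * n ^ 2 := by
        nlinarith
      have hn3 : (n : ℝ) ≤ 2 * S / e := by
        have : 2 * S / e = S / e + S / e := by ring
        linarith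
      have hn4 : (n : ℝ) ^ 2 ≤ 4 * H / ε := by
        have : (n : ℝ) ^ 2 ≤ (2 * S / e) ^ 2 := pow_le_pow_left₀ hn0'.le hn3 2
        rw [div_pow, hee, mul_pow, hSS] at this
        calc (n : ℝ) ^ 2 ≤ 2 ^ 2 * H / ε := this
          _ = 4 * H / ε := by ring
      calc (k : ℝ) ^ 2 + H * j ^ 2 ≤ 5 * n ^ 2 := hM
        _ ≤ 5 * (4 * H / ε) := mul_le_mul_of_nonneg_left hn4 (by norm_num)
        _ = 20 * H / ε := by ring
    · have h1 : (k : ℝ) * σ - j * S * c = (c * S) * ((k : ℝ) * (σ / (S * c)) - j) := by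
        field_simp
      rw [h1, mul_pow, mul_pow, ← sq_abs ((k : ℝ) * (σ / (S * c)) - j), ← sq_abs c]
      have h2 : |(k : ℝ) * (σ / (S * c)) - j| ^ 2 ≤ (e / S) ^ 2 :=
        pow_le_pow_left₀ (abs_nonneg _) (hjk.trans hle) 2
      have h3 : |c| ^ 2 ≤ 1 := by
        have := pow_le_pow_left₀ (abs_nonneg _) hc1 2
        simpa using this
      calc |c| ^ 2 * S ^ 2 * |(k : ℝ) * (σ / (S * c)) - j| ^ 2
          ≤ 1 * S ^ 2 * (e / S) ^ 2 := by
            apply mul_le_mul _ h2 (by positivity) (by positivity)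
            exact mul_le_mul_of_nonneg_right h3 (by positivity)
        _ = ε := by rw [div_pow, hee, one_mul, mul_div_cancel₀ _ (pow_ne_zero 2 hS0.ne')]

/-- TARGET -/
theorem circ_dirichlet (H : ℕ) (hH : 1 ≤ H) (θ ε : ℝ) (hε : 0 < ε) (hε1 : ε < 1) :
    ∃ (p q : ℤ) (φ : ℝ), 1 ≤ p ^ 2 + H * q ^ 2 ∧ ((p : ℝ) ^ 2 + H * q ^ 2) ≤ 20 * H / ε ∧
      ((p : ℝ) ^ 2 + H * q ^ 2) * φ ^ 2 ≤ 4 * ε ∧ |φ| ≤ 2 ∧
      Real.cos θ = (p * Real.cos φ - q * Real.sqrt H * Real.sin φ) / Real.sqrt ((p : ℝ) ^ 2 + H * q ^ 2) ∧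
      Real.sin θ = (q * Real.sqrt H * Real.cos φ + p * Real.sin φ) / Real.sqrt ((p : ℝ) ^ 2 + H * q ^ 2) := by
  have key : ∃ (p q : ℤ), 1 ≤ p ^ 2 + H * q ^ 2 ∧ ((p : ℝ) ^ 2 + H * q ^ 2) ≤ 20 * H / ε ∧
      ((p : ℝ) * Real.sin θ - q * Real.sqrt H * Real.cos θ) ^ 2 ≤ ε ∧
      0 ≤ (p : ℝ) * Real.cos θ + q * Real.sqrt H * Real.sin θ := by
    obtain ⟨p, q, h1, h2, h3⟩ := circ_dirichlet_exists H hH θ ε hε hε1
    rcases le_total 0 ((p : ℝ) * Real.cos θ + q * Real.sqrt H * Real.sin θ) with h | h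
    · exact ⟨p, q, h1, h2, h3, h⟩
    · refine ⟨-p, -q, by simpa using h1, by simpa using h2, ?_, ?_⟩
      · have : ((((-p : ℤ)) : ℝ) * Real.sin θ - (((-q : ℤ)) : ℝ) * Real.sqrt H * Real.cos θ) ^ 2
            = ((p : ℝ) * Real.sin θ - q * Real.sqrt H * Real.cos θ) ^ 2 := by
          push_cast; ring
        rw [this]; exact h3
      · push_cast
        linarith
  obtain ⟨p, q, h1, h2, h3, h4⟩ := key
  have hcs : Real.sin θ ^ 2 + Real.cos θ ^ 2 = 1 := Real.sin_sq_add_cos_sq θ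
  have hHr : (1 : ℝ) ≤ H := by exact_mod_cast hH
  have hSS : Real.sqrt H ^ 2 = H := Real.sq_sqrt (by linarith)
  have hM1 : (1 : ℝ) ≤ (p : ℝ) ^ 2 + H * q ^ 2 := by exact_mod_cast h1
  set M : ℝ := (p : ℝ) ^ 2 + H * q ^ 2 with hM
  set r := Real.sqrt M with hr
  have hr0 : 0 < r := Real.sqrt_pos.mpr (by linarith)
  have hrr : r ^ 2 = M := Real.sq_sqrt (by linarith)
  set S := Real.sqrt H with hS
  set c := Real.cos θ with hc
  set σ := Real.sin θ with hσ
  set x := ((p : ℝ) * c + q * S * σ) / r with hx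
  set y := ((p : ℝ) * σ - q * S * c) / r with hy
  have hx0 : 0 ≤ x := div_nonneg h4 hr0.le
  have hxy : x ^ 2 + y ^ 2 = 1 := by
    rw [hx, hy, div_pow, div_pow, ← add_div, hrr, div_eq_one_iff_eq (by linarith)]
    have : ((p : ℝ) * c + q * S * σ) ^ 2 + ((p : ℝ) * σ - q * S * c) ^ 2
        = (p ^ 2 + S ^ 2 * q ^ 2) * (σ ^ 2 + c ^ 2) := by ring
    rw [this, hcs, mul_one, hSS]
  have hy1 : y ≤ 1 := by nlinarith
  have hy1' : -1 ≤ y := by nlinarith
  have hsin : Real.sin (Real.arcsin y) = y := Real.sin_arcsin hy1' hy1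
  have hcos : Real.cos (Real.arcsin y) = x := by
    rw [Real.cos_arcsin, show 1 - y ^ 2 = x ^ 2 by linarith, Real.sqrt_sq hx0]
  have habs : |Real.arcsin y| ≤ Real.pi / 2 :=
    abs_le.mpr ⟨by linarith [Real.neg_pi_div_two_le_arcsin y], Real.arcsin_le_pi_div_two y⟩
  have hry : r * y = (p : ℝ) * σ - q * S * c := by
    rw [hy]; field_simp
  have hrx : r * x = (p : ℝ) * c + q * S * σ := by
    rw [hx]; field_simp
  refine ⟨p, q, Real.arcsin y, h1, h2, ?_, ?_, ?_, ?_⟩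
  · have h5 := Real.mul_abs_le_abs_sin habs
    rw [hsin] at h5
    have hpi := Real.pi_pos
    have h6 : |Real.arcsin y| ≤ 2 * |y| := by
      have h7 : |Real.arcsin y| ≤ Real.pi / 2 * |y| := by
        have : |Real.arcsin y| = Real.pi / 2 * (2 / Real.pi * |Real.arcsin y|) := by
          field_simp
        rw [this]
        exact mul_le_mul_of_nonneg_left h5 (by positivity)
      have h8 : Real.pi / 2 ≤ 2 := by linarith [Real.pi_le_four]
      exact h7.trans (mul_le_mul_of_nonneg_right h8 (abs_nonneg _))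
    have h7 : Real.arcsin y ^ 2 ≤ 4 * y ^ 2 := by
      have := pow_le_pow_left₀ (abs_nonneg _) h6 2
      rw [sq_abs, mul_pow, sq_abs] at this
      linarith [this, (by norm_num : (2 : ℝ) ^ 2 = 4)]
    calc M * Real.arcsin y ^ 2 ≤ M * (4 * y ^ 2) := mul_le_mul_of_nonneg_left h7 (by linarith)
      _ = 4 * (r * y) ^ 2 := by rw [mul_pow, hrr]; ring
      _ ≤ 4 * ε := by rw [hry]; linarith
  · exact habs.trans (by linarith [Real.pi_le_four])
  · rw [hsin, hcos, eq_div_iff hr0.ne']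
    have : r * ((p : ℝ) * x - q * S * y) = r * (c * r) := by
      calc r * ((p : ℝ) * x - q * S * y) = p * (r * x) - q * S * (r * y) := by ring
        _ = (p ^ 2 + S ^ 2 * q ^ 2) * c := by rw [hrx, hry]; ring
        _ = M * c := by rw [hSS]
        _ = r * (c * r) := by rw [← hrr]; ring
    exact (mul_left_cancel₀ hr0.ne' this).symm
  · rw [hsin, hcos, eq_div_iff hr0.ne']
    have : r * ((q : ℝ) * S * x + p * y) = r * (σ * r) := by
      calc r * ((q : ℝ) * S * x + p * y) = q * S * (r * x) + p * (r * y) := by ring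
        _ = (p ^ 2 + S ^ 2 * q ^ 2) * σ := by rw [hrx, hry]; ring
        _ = M * σ := by rw [hSS]
        _ = r * (σ * r) := by rw [← hrr]; ring
    exact (mul_left_cancel₀ hr0.ne' this).symm

end Pool.Agent.H978V
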