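import Pool.Agent.H978V.MDefs
import Pool.Agent.H978V.M5
import Pool.Agent.H978V.C5
import Pool.Agent.H978V.L13
import Pool.Agent.H978V.M12
import Pool.Agent.H978V.M13a

/-!
JOB M13b (owner helper978, MP_06cce2_nt).  `H978V/*.lean` (library, with `MDefs`) is on origin/main.

PROOF.  Take `ε₁, C₁, δ₁` from `circ_main (δ/2)`; `δ₂` small: `δ₂ ≤ δ₁/4`, `δ₂ ≤ δ/8`; `ε₀ ≤ ε₁` small enough that `20 ≤ ε₀^(-δ₁/4)`.  Write `H = dt h h`, `M = p² + H q²`, `v' = v₀ * (p + q • pq h)` (`≠ 0`, `normSq v' = normSq v₀ · M`).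
`strip5`: `v' = g • (y * qw w)`, `k = w.length`, `u = qw w`, `û = qh k u` (a unit quaternion: `‖û‖ = 1`).  `vh v' = vh y * û` (`g > 0`; `normSq v' = g² normSq y 5^k`).  `axis_strip`: `h', N₁`, `hp h' = û * hp h * star û`.
So `û * rq (hp h) φ = rq (hp h') φ * û` and `vh v' * rq (hp h) φ = vh y * rq (hp h') φ * û`.
`circ_main` for `y, h', N₁, φ, ε`: `dt h' h' ≤ (normSq v₀)² H ≤ (normSq v₀ · H)² ≤ ε^(-2δ₂) ≤ ε^(-δ₁)`; `N₁ ≤ normSq v₀ ≤ ε^(-δ₂)`; `normSq y · max² ≤ normSq v₀ · M · max² ≤ ε^(-δ₂) · 20 ε^(1-δ₂) ≤ ε^(1-δ₁)` (`normSq y ≤ normSq v'`).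
It gives `L, X` with `‖vh y * rq (hp h') φ - qh L X‖ < ε`; take `X * u`: `Gd (X * qw w)` (`c5_good` by induction on `w`, as `qw (a :: w) = qw w * al a`), norm `5^(L+k)`, `qh (L+k) (X * u) = qh L X * û`.
Length: `L + k ≤ logb 5 (normSq y · max²) + k + (6 + δ/2) logb 5 (1/ε) + C₁` and `normSq y · 5^k ≤ normSq v₀ · M`, `normSq v₀ ≤ ε^(-δ₂)`: `≤ logb 5 (M · max²) + δ₂ logb 5 (1/ε) + (6 + δ/2) logb 5 (1/ε) + C₁`.
-/

set_option autoImplicit false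

open scoped Quaternion

namespace Pool.Agent.H978V

open Pool.Agent.Helper557.Rz




theorem j521_qh_norm (w : List (Fin 6)) : ‖qh w.length (qw w)‖ = 1 := by
  induction w with
  | nil =>
    change ‖qh 0 1‖ = 1
    unfold qh
    rw [cz_one]
    simp
  | cons a v ih =>
    change ‖qh (v.length + 1) (qw v * al a)‖ = 1
    rw [l13_qh_al, norm_mul, ih, l13_be_norm, mul_one]

theorem j521_vh (y : ℍ[ℤ]) (w : List (Fin 6)) :
    vh (y * qw w) = vh y * qh w.length (qw w) := by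
  induction w with
  | nil =>
    change vh (y * 1) = vh y * qh 0 1
    unfold qh
    rw [mul_one, cz_one]
    simp
  | cons a v ih =>
    change vh (y * (qw v * al a)) = vh y * qh (v.length + 1) (qw v * al a)
    rw [← mul_assoc, l13_vh_al, ih, l13_qh_al, mul_assoc]

theorem j521_qh (L : ℕ) (x : ℍ[ℤ]) (w : List (Fin 6)) :
    qh (L + w.length) (x * qw w) = qh L x * qh w.length (qw w) := by
  induction w with
  | nil =>
    change qh (L + 0) (x * 1) = qh L x * qh 0 1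
    rw [mul_one, add_zero]
    have : qh 0 1 = 1 := by
      unfold qh
      rw [cz_one]
      simp
    rw [this, mul_one]
  | cons a v ih =>
    change qh (L + (v.length + 1)) (x * (qw v * al a)) = qh L x * qh (v.length + 1) (qw v * al a)
    rw [← mul_assoc, ← add_assoc, l13_qh_al, ih, l13_qh_al, mul_assoc]

theorem j521_gd (x : ℍ[ℤ]) (w : List (Fin 6)) (hx : Gd x) : Gd (x * qw w) := by
  induction w with
  | nil =>
    change Gd (x * 1)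
    rw [mul_one]
    exact hx
  | cons a v ih =>
    change Gd (x * (qw v * al a))
    rw [← mul_assoc]
    exact (c5_good a _).2 ih

theorem j521_ns (v₀ : ℍ[ℤ]) (h : ℤ × ℤ × ℤ) (p q : ℤ) :
    Quaternion.normSq (v₀ * (((p : ℤ) : ℍ[ℤ]) + q • pq h)) =
      Quaternion.normSq v₀ * (p ^ 2 + dt h h * q ^ 2) := by
  rw [map_mul]
  congr 1
  rw [c5_norm]
  simp only [Quaternion.re_add, Quaternion.imI_add, Quaternion.imJ_add, Quaternion.imK_add,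
    Quaternion.re_smul, Quaternion.imI_smul, Quaternion.imJ_smul, Quaternion.imK_smul,
    Quaternion.re_intCast, Quaternion.imI_intCast, Quaternion.imJ_intCast,
    Quaternion.imK_intCast, pq, dt, smul_eq_mul]
  push_cast
  ring

theorem j521_rot (p p' u : ℍ[ℝ]) (φ : ℝ) (hu : star u * u = 1) (h : p' = u * p * star u) :
    u * rq p φ = rq p' φ * u := by
  unfold rq
  rw [h, mul_add, add_mul, mul_smul_comm, smul_mul_assoc, mul_assoc (u * p), hu, mul_one]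
  congr 1
  exact (Quaternion.coe_commutes _ _).symm

/-- TARGET -/
theorem circ_pt (δ : ℝ) (hδ : 0 < δ) : ∃ ε₀ C δ₂ : ℝ, 0 < ε₀ ∧ ε₀ < 1 ∧ 0 < δ₂ ∧ δ₂ ≤ 1 / 16 ∧
    ∀ (v₀ : ℍ[ℤ]) (h : ℤ × ℤ × ℤ) (p q : ℤ), v₀ ≠ 0 → 0 < dt h h → 1 ≤ p ^ 2 + dt h h * q ^ 2 →
    ∀ φ ε : ℝ, 0 < ε → ε ≤ ε₀ → |φ| ≤ 2 →
    ((Quaternion.normSq v₀ : ℤ) : ℝ) * (dt h h : ℝ) ≤ ε ^ (-δ₂) →
    (((p ^ 2 + dt h h * q ^ 2 : ℤ)) : ℝ) * max |φ| ε ^ 2 ≤ 20 * ε ^ (1 - δ₂) →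
    ∃ (L : ℕ) (x : ℍ[ℤ]), Gd x ∧ Quaternion.normSq x = 5 ^ L ∧
      (L : ℝ) ≤ Real.logb 5 ((((p ^ 2 + dt h h * q ^ 2 : ℤ)) : ℝ) * max |φ| ε ^ 2) +
        (6 + δ) * Real.logb 5 (1 / ε) + C ∧
      ‖vh (v₀ * (((p : ℤ) : ℍ[ℤ]) + q • pq h)) * rq (hp h) φ - qh L x‖ < ε := by
  obtain ⟨ε₁, C₁, δ₁, hε₁, hε₁1, hδ₁, hδ₁', H⟩ := circ_main (δ / 2) (by positivity)
  obtain ⟨δ₂, hδ₂⟩ : ∃ δ₂, δ₂ = min (δ₁ / 4) (δ / 8) := ⟨_, rfl⟩
  have hd0 : 0 < δ₂ := by rw [hδ₂]; positivity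
  have hd1 : δ₂ ≤ δ₁ / 4 := by rw [hδ₂]; exact min_le_left _ _
  have hd2 : δ₂ ≤ δ / 8 := by rw [hδ₂]; exact min_le_right _ _
  obtain ⟨e0, he0⟩ : ∃ e0 : ℝ, e0 = (1 / 20 : ℝ) ^ (4 / δ₁) := ⟨_, rfl⟩
  have he0p : 0 < e0 := by rw [he0]; positivity
  refine ⟨min ε₁ e0, C₁, δ₂, lt_min hε₁ he0p, (min_le_left _ _).trans_lt hε₁1, hd0,
    by linarith, ?_⟩
  intro v₀ h p q hv₀ hh hpq φ ε hε hεle hφ hA hB
  have hεε₁ : ε ≤ ε₁ := hεle.trans (min_le_left _ _)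
  have hε1 : ε < 1 := hεε₁.trans_lt hε₁1
  have h20 : (20 : ℝ) ≤ ε ^ (-(δ₁ / 4)) := by
    have h1 : ε ^ (δ₁ / 4) ≤ 1 / 20 := by
      calc ε ^ (δ₁ / 4) ≤ e0 ^ (δ₁ / 4) :=
            Real.rpow_le_rpow hε.le (hεle.trans (min_le_right _ _)) (by positivity)
        _ = 1 / 20 := by
            rw [he0, ← Real.rpow_mul (by norm_num)]
            have : 4 / δ₁ * (δ₁ / 4) = 1 := by field_simp
            rw [this, Real.rpow_one]
    rw [Real.rpow_neg hε.le]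
    have h2 : 0 < ε ^ (δ₁ / 4) := Real.rpow_pos_of_pos hε _
    rw [le_inv_comm₀ (by norm_num) h2]
    linarith
  obtain ⟨M, hM⟩ : ∃ M : ℤ, M = p ^ 2 + dt h h * q ^ 2 := ⟨_, rfl⟩
  obtain ⟨m, hm⟩ : ∃ m : ℝ, m = max |φ| ε := ⟨_, rfl⟩
  have hmp : 0 < m := by rw [hm]; exact lt_of_lt_of_le hε (le_max_right _ _)
  obtain ⟨N, hN⟩ : ∃ N : ℤ, N = Quaternion.normSq v₀ := ⟨_, rfl⟩
  have hNp : 1 ≤ N := by
    have h1 : 0 ≤ Quaternion.normSq v₀ := Quaternion.normSq_nonneg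
    have h2 : Quaternion.normSq v₀ ≠ 0 := Quaternion.normSq_ne_zero.2 hv₀
    omega
  rw [← hM] at hB hpq ⊢
  rw [← hm] at hB ⊢
  rw [← hN] at hA
  have hMr : (1 : ℝ) ≤ M := by exact_mod_cast hpq
  have hNr : (1 : ℝ) ≤ N := by exact_mod_cast hNp
  have hHr : (1 : ℝ) ≤ (dt h h : ℝ) := by exact_mod_cast hh
  have hns : Quaternion.normSq (v₀ * (((p : ℤ) : ℍ[ℤ]) + q • pq h)) = N * M := by
    rw [j521_ns, ← hN, ← hM]
  have hvne : v₀ * (((p : ℤ) : ℍ[ℤ]) + q • pq h) ≠ 0 := by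
    intro h0
    rw [h0, map_zero] at hns
    have : 0 < N * M := mul_pos (by omega) (by omega)
    omega
  obtain ⟨g, y, w, hg, hyP, hy5, he⟩ := strip5 _ hvne
  obtain ⟨h', N₁, hN₁, hN₁', hh', hh'', hdv, hrot⟩ :=
    axis_strip v₀ hv₀ h hh p q (by rw [← hM]; exact hpq) g hg y w hy5 he
  rw [← hN] at hN₁' hh''
  obtain ⟨Y, hY⟩ : ∃ Y : ℤ, Y = Quaternion.normSq y := ⟨_, rfl⟩
  have hnorm : N * M = (g : ℤ) ^ 2 * (Y * 5 ^ w.length) := by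
    rw [← hns, he, Quaternion.normSq_smul, map_mul, (good_qw w).2, ← hY]
  have hY0 : 0 ≤ Y := by rw [hY]; exact Quaternion.normSq_nonneg
  have hYp : 1 ≤ Y := by
    have h2 : Y ≠ 0 := by
      intro h0
      rw [h0, zero_mul, mul_zero] at hnorm
      have : 0 < N * M := mul_pos (by omega) (by omega)
      omega
    omega
  have hYr : (1 : ℝ) ≤ Y := by exact_mod_cast hYp
  have h5p : (0 : ℝ) < (5 : ℝ) ^ w.length := by positivity
  have hg1 : (1 : ℝ) ≤ (g : ℝ) ^ 2 := by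
    have : (1 : ℝ) ≤ g := by exact_mod_cast hg
    nlinarith
  have hnormR : (N : ℝ) * M = (g : ℝ) ^ 2 * (Y * 5 ^ w.length) := by exact_mod_cast hnorm
  have hY5 : (Y : ℝ) * 5 ^ w.length ≤ N * M := by
    rw [hnormR]
    have : 0 < (Y : ℝ) * 5 ^ w.length := by positivity
    nlinarith
  have hYle : (Y : ℝ) ≤ N * M := by
    have h51 : (1 : ℝ) ≤ 5 ^ w.length := one_le_pow₀ (by norm_num)
    nlinarith
  have hNe : (N : ℝ) ≤ ε ^ (-δ₂) := by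
    refine le_trans ?_ hA
    nlinarith
  have hmono : ∀ a b : ℝ, b ≤ a → ε ^ a ≤ ε ^ b := fun a b hab =>
    Real.rpow_le_rpow_of_exponent_ge hε hε1.le hab
  have c1 : (dt h' h' : ℝ) ≤ ε ^ (-δ₁) := by
    have h1 : (dt h' h' : ℝ) ≤ (N : ℝ) ^ 2 * dt h h := by exact_mod_cast hh''
    have h2 : (N : ℝ) ^ 2 * dt h h ≤ (N * dt h h) ^ 2 := by nlinarith [sq_nonneg (N : ℝ)]
    have h3 : ((N : ℝ) * dt h h) ^ 2 ≤ (ε ^ (-δ₂)) ^ 2 :=
      pow_le_pow_left₀ (by positivity) hA 2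
    have h4 : (ε ^ (-δ₂)) ^ 2 = ε ^ (-δ₂ + -δ₂) := by
      rw [Real.rpow_add hε, pow_two]
    have h5 : ε ^ (-δ₂ + -δ₂) ≤ ε ^ (-δ₁) := hmono _ _ (by linarith)
    linarith
  have c2 : (N₁ : ℝ) ≤ ε ^ (-δ₁) := by
    have h1 : (N₁ : ℝ) ≤ N := by exact_mod_cast hN₁'
    have h2 : ε ^ (-δ₂) ≤ ε ^ (-δ₁) := hmono _ _ (by linarith)
    linarith
  have c3 : ((Quaternion.normSq y : ℤ) : ℝ) * max |φ| ε ^ 2 ≤ ε ^ (1 - δ₁) := by
    rw [← hY, ← hm]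
    calc (Y : ℝ) * m ^ 2 ≤ (N * M) * m ^ 2 := by gcongr
      _ = N * (M * m ^ 2) := by ring
      _ ≤ ε ^ (-δ₂) * (20 * ε ^ (1 - δ₂)) := by
          apply mul_le_mul hNe hB (by positivity) (by positivity)
      _ = 20 * ε ^ (-δ₂ + (1 - δ₂)) := by
          rw [Real.rpow_add hε]; ring
      _ ≤ ε ^ (-(δ₁ / 4)) * ε ^ (-δ₂ + (1 - δ₂)) := by gcongr
      _ = ε ^ (-(δ₁ / 4) + (-δ₂ + (1 - δ₂))) := by
          rw [← Real.rpow_add hε]
      _ ≤ ε ^ (1 - δ₁) := hmono _ _ (by linarith)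
  obtain ⟨L, X, hXg, hXn, hL, hX⟩ := H y hyP hy5 h' N₁ hN₁ hh' hdv φ ε hε hεε₁ hφ c1 c2 c3
  refine ⟨L + w.length, X * qw w, j521_gd X w hXg, ?_, ?_, ?_⟩
  · rw [map_mul, hXn, (good_qw w).2, pow_add]
  · rw [← hY, ← hm] at hL
    have hlog0 : 0 ≤ Real.logb 5 (1 / ε) :=
      Real.logb_nonneg (by norm_num) (by rw [le_div_iff₀ hε]; linarith)
    have e1 : Real.logb 5 ((Y : ℝ) * m ^ 2) + w.length =
        Real.logb 5 ((Y * 5 ^ w.length) * m ^ 2) := by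
      have : ((Y : ℝ) * 5 ^ w.length) * m ^ 2 = ((Y : ℝ) * m ^ 2) * 5 ^ w.length := by ring
      have h5k : Real.logb 5 ((5 : ℝ) ^ w.length) = w.length := by
        rw [Real.logb_pow, Real.logb_self_eq_one (by norm_num), mul_one]
      have h5m : Real.logb 5 (((Y : ℝ) * m ^ 2) * (5 : ℝ) ^ w.length) =
          Real.logb 5 ((Y : ℝ) * m ^ 2) + Real.logb 5 ((5 : ℝ) ^ w.length) :=
        Real.logb_mul (by positivity) (by positivity)
      rw [this, h5m, h5k]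
    have e2 : Real.logb 5 ((Y * 5 ^ w.length) * m ^ 2) ≤ Real.logb 5 ((N * M) * m ^ 2) := by
      apply Real.logb_le_logb_of_le (by norm_num) (by positivity)
      gcongr
    have e3 : Real.logb 5 ((N * M) * m ^ 2) = Real.logb 5 N + Real.logb 5 (M * m ^ 2) := by
      rw [mul_assoc, Real.logb_mul (by positivity) (by positivity)]
    have e4 : Real.logb 5 N ≤ δ₂ * Real.logb 5 (1 / ε) := by
      have h1 : Real.logb 5 N ≤ Real.logb 5 (ε ^ (-δ₂)) :=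
        Real.logb_le_logb_of_le (by norm_num) (by positivity) hNe
      have h2 : Real.logb 5 (ε ^ (-δ₂)) = δ₂ * Real.logb 5 (1 / ε) := by
        rw [Real.logb_rpow_eq_mul_logb_of_pos hε, one_div, Real.logb_inv]
        ring
      linarith
    have e5 : δ₂ * Real.logb 5 (1 / ε) ≤ δ / 8 * Real.logb 5 (1 / ε) := by gcongr
    have e6 : 0 ≤ δ * Real.logb 5 (1 / ε) := by positivity
    push_cast
    linarith
  · have hû : star (qh w.length (qw w)) * qh w.length (qw w) = 1 := by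
      rw [Quaternion.star_mul_self, Quaternion.normSq_eq_norm_mul_self, j521_qh_norm]
      simp
    have hg0 : (0 : ℤ) < (g : ℤ) := by exact_mod_cast hg
    rw [he, l13_vh_smul _ hg0, j521_vh, j521_qh, mul_assoc, j521_rot _ _ _ φ hû hrot,
      ← mul_assoc, ← sub_mul, norm_mul, j521_qh_norm, mul_one]
    exact hX

end Pool.Agent.H978V
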