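import Pool.Agent.H978V.MDefs
import Pool.Agent.H978V.M5
import Pool.Agent.H978V.M11
import Pool.Agent.H978V.M13b

/-!
JOB M13c (owner helper978, MP_06cce2_nt).  `H978V/*.lean` (library, with `MDefs`) is on origin/main.

PROOF.  `ε₀, C₁, δ₂` from `circ_pt (δ/2)` (we may also decrease: assume `δ₂ ≤ δ/2`; the hypotheses of `circ_pt` for a smaller `δ₂` imply those for the original one, as `ε < 1`).  Write `P = normSq v₀ · dt h h ≥ 1`, `H = dt h h`, `M = p² + H q² ≥ 1`.  `ε' = ε₀ · ε · P^(-1/δ₂)`: `0 < ε' ≤ ε₀`, `ε' ≤ ε`, `P ≤ ε'^(-δ₂)`,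
`ℓ' := logb 5 (1/ε') = logb 5 (1/ε) + (1/δ₂) logb 5 P + logb 5 (1/ε₀)`.
(I) Every point: `circ_dirichlet H.toNat θ ε'` gives `p₁, q₁, φ₁` with `M₁ ε'² ≤ 20 H ε'`, `M₁ φ₁² ≤ 4 ε'`, `|φ₁| ≤ 2`, so `M₁ max(|φ₁|, ε')² ≤ 20 H ε' ≤ 20 ε'^(1-δ₂)` (`H ≤ P ≤ ε'^(-δ₂)`), and `rq (hp h) θ = (1/√M₁) • (p₁ + q₁ √H • hp h) * rq (hp h) φ₁` (`hp h * hp h = -1`), and
`vh (v₀ * (p₁ + q₁ • pq h)) = vh v₀ * ((1/√M₁) • (p₁ + q₁ √H • hp h))` (`pq h` as a real quaternion is `√H • hp h`).  So `circ_pt` gives `L, x` with `‖vh v₀ * rq (hp h) θ - qh L x‖ < ε' ≤ ε` and `L ≤ logb 5 (20 ε'^(1-δ₂)) + (6 + δ/2) ℓ' + C₁ ≤ (5 + δ) ℓ' + C₁ + logb 5 20`.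
(II) The given point: if `M max(|φ|, ε')² ≤ ε'^(1-δ₂)` (then `|φ| ≤ 1`), `circ_pt` for `p, q, φ, ε'`: `L ≤ logb 5 (M max(|φ|,ε')²) + (6 + δ/2) ℓ' + C₁ ≤ logb 5 (M max(|φ|,ε)²) + (6 + δ/2) ℓ' + C₁`.
Otherwise `logb 5 (M max(|φ|,ε)²) ≥ logb 5 (M max(|φ|,ε')²) ≥ -(1-δ₂) ℓ'`, and (I) gives `L ≤ (5 + δ) ℓ' + C' ≤ (6 + δ) ℓ' + logb 5 (M max(|φ|,ε)²) + C'` (as `-(1-δ₂) ℓ' ≥ -ℓ'`).
Conclusion: if `ε ≤ M max(|φ|,ε)²` the minimum is `ε`, `logb 5 ε = - logb 5 (1/ε)`: use (I); otherwise use (II).  In both cases `(6+δ) ℓ' = (6+δ) logb 5 (1/ε) + (6+δ)(1/δ₂) logb 5 P + const`, so `A = (6+δ)/δ₂`.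
-/

set_option autoImplicit false

open scoped Quaternion

namespace Pool.Agent.H978V

open Pool.Agent.Helper557.Rz



theorem circ_final_H (h : ℤ × ℤ × ℤ) (hh : 0 < dt h h) : (1 : ℝ) ≤ (dt h h : ℝ) := by
  have : (1 : ℤ) ≤ dt h h := hh
  exact_mod_cast this

theorem circ_final_hp (h : ℤ × ℤ × ℤ) (hh : 0 < dt h h) :
    Real.sqrt (dt h h : ℝ) • hp h = cz (pq h) := by
  have h1 := circ_final_H h hh
  have h2 : Real.sqrt (dt h h : ℝ) ≠ 0 := (Real.sqrt_pos.2 (by linarith)).ne'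
  unfold hp
  rw [smul_smul, mul_one_div_cancel h2, one_smul]

theorem circ_final_c0 (h : ℤ × ℤ × ℤ) : (cz (pq h)).re = 0 ∧ (cz (pq h)).imI = h.1 ∧
    (cz (pq h)).imJ = h.2.1 ∧ (cz (pq h)).imK = h.2.2 := by
  refine ⟨?_, rfl, rfl, rfl⟩
  show ((0 : ℤ) : ℝ) = 0
  simp

theorem circ_final_c1 (h : ℤ × ℤ × ℤ) : (pq h).re = 0 ∧ (pq h).imI = h.1 ∧
    (pq h).imJ = h.2.1 ∧ (pq h).imK = h.2.2 := ⟨rfl, rfl, rfl, rfl⟩

theorem circ_final_cz (h : ℤ × ℤ × ℤ) : cz (pq h) * cz (pq h) = ((-(dt h h : ℝ) : ℝ) : ℍ[ℝ]) := by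
  obtain ⟨h0, h1, h2, h3⟩ := circ_final_c0 h
  ext
  · rw [Quaternion.re_mul, h0, h1, h2, h3, Quaternion.re_coe]
    simp only [dt]
    push_cast
    ring
  · rw [Quaternion.imI_mul, h0, h1, h2, h3, Quaternion.imI_coe]
    ring
  · rw [Quaternion.imJ_mul, h0, h1, h2, h3, Quaternion.imJ_coe]
    ring
  · rw [Quaternion.imK_mul, h0, h1, h2, h3, Quaternion.imK_coe]
    ring

theorem circ_final_sq (h : ℤ × ℤ × ℤ) (hh : 0 < dt h h) : hp h * hp h = -1 := by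
  have h1 := circ_final_H h hh
  have h2 : Real.sqrt (dt h h : ℝ) ≠ 0 := (Real.sqrt_pos.2 (by linarith)).ne'
  unfold hp
  rw [smul_mul_smul_comm, circ_final_cz]
  have h3 : (1 / Real.sqrt (dt h h : ℝ)) * (1 / Real.sqrt (dt h h : ℝ)) = 1 / (dt h h : ℝ) := by
    rw [div_mul_div_comm, one_mul, Real.mul_self_sqrt (by linarith)]
  rw [h3, ← Quaternion.coe_smul]
  have h4 : (1 / (dt h h : ℝ)) • (-(dt h h : ℝ)) = -1 := by
    rw [smul_eq_mul]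
    field_simp
  rw [h4]
  simp

theorem circ_final_rq (h : ℤ × ℤ × ℤ) (hh : 0 < dt h h) (a b φ : ℝ) :
    ((a : ℝ) + (b : ℝ) • hp h) * rq (hp h) φ =
      ((a * Real.cos φ - b * Real.sin φ : ℝ) : ℍ[ℝ]) +
        (b * Real.cos φ + a * Real.sin φ) • hp h := by
  have hsq := circ_final_sq h hh
  unfold rq
  rw [add_mul, mul_add, mul_add, ← Quaternion.coe_mul, smul_mul_smul_comm, hsq,
    Quaternion.coe_mul_eq_smul, smul_mul_assoc, Quaternion.mul_coe_eq_smul, smul_smul, smul_smul]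
  ext <;> simp <;> ring

theorem circ_final_norm (h : ℤ × ℤ × ℤ) (p q : ℤ) :
    Quaternion.normSq (((p : ℤ) : ℍ[ℤ]) + q • pq h) = p ^ 2 + dt h h * q ^ 2 := by
  obtain ⟨h0, h1, h2, h3⟩ := circ_final_c1 h
  rw [Quaternion.normSq_def']
  simp only [Quaternion.re_add, Quaternion.imI_add, Quaternion.imJ_add, Quaternion.imK_add,
    Quaternion.re_smul, Quaternion.imI_smul, Quaternion.imJ_smul, Quaternion.imK_smul,
    Quaternion.re_intCast, Quaternion.imI_intCast, Quaternion.imJ_intCast, Quaternion.imK_intCast,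
    h0, h1, h2, h3, dt, smul_eq_mul, Int.cast_id]
  ring

theorem circ_final_vh (v₀ : ℍ[ℤ]) (h : ℤ × ℤ × ℤ) (hh : 0 < dt h h) (p q : ℤ) :
    vh (v₀ * (((p : ℤ) : ℍ[ℤ]) + q • pq h)) =
      vh v₀ * ((1 / Real.sqrt ((p ^ 2 + dt h h * q ^ 2 : ℤ) : ℝ)) •
        (((p : ℝ) : ℍ[ℝ]) + ((q : ℝ) * Real.sqrt (dt h h : ℝ)) • hp h)) := by
  have hcz : cz (((p : ℤ) : ℍ[ℤ]) + q • pq h) =
      ((p : ℝ) : ℍ[ℝ]) + ((q : ℝ) * Real.sqrt (dt h h : ℝ)) • hp h := by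
    rw [mul_smul, circ_final_hp h hh]
    obtain ⟨h0, h1, h2, h3⟩ := circ_final_c1 h
    obtain ⟨g0, g1, g2, g3⟩ := circ_final_c0 h
    ext
    · show (((((p : ℤ) : ℍ[ℤ]) + q • pq h).re : ℤ) : ℝ) = _
      simp only [Quaternion.re_add, Quaternion.re_smul, Quaternion.re_intCast, Quaternion.re_coe,
        h0, g0, smul_eq_mul]
      push_cast
      ring
    · show (((((p : ℤ) : ℍ[ℤ]) + q • pq h).imI : ℤ) : ℝ) = _
      simp only [Quaternion.imI_add, Quaternion.imI_smul, Quaternion.imI_intCast,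
        Quaternion.imI_coe, h1, g1, smul_eq_mul]
      push_cast
      ring
    · show (((((p : ℤ) : ℍ[ℤ]) + q • pq h).imJ : ℤ) : ℝ) = _
      simp only [Quaternion.imJ_add, Quaternion.imJ_smul, Quaternion.imJ_intCast,
        Quaternion.imJ_coe, h2, g2, smul_eq_mul]
      push_cast
      ring
    · show (((((p : ℤ) : ℍ[ℤ]) + q • pq h).imK : ℤ) : ℝ) = _
      simp only [Quaternion.imK_add, Quaternion.imK_smul, Quaternion.imK_intCast,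
        Quaternion.imK_coe, h3, g3, smul_eq_mul]
      push_cast
      ring
  unfold vh
  rw [map_mul, circ_final_norm, cz_mul, hcz]
  push_cast
  have hn : (0 : ℝ) ≤ ((Quaternion.normSq v₀ : ℤ) : ℝ) := by
    exact_mod_cast Quaternion.normSq_nonneg
  rw [Real.sqrt_mul hn, smul_mul_smul_comm, one_div_mul_one_div]

theorem circ_final_eps (ε₀ d ε P : ℝ) (h0 : 0 < ε₀) (h0' : ε₀ < 1) (hd : 0 < d) (hε : 0 < ε)
    (hε1 : ε < 1) (hP : 1 ≤ P) :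
    ∃ e : ℝ, 0 < e ∧ e ≤ ε₀ ∧ e ≤ ε ∧ P ≤ e ^ (-d) ∧
      Real.logb 5 (1 / e) = Real.logb 5 (1 / ε) + 1 / d * Real.logb 5 P + Real.logb 5 (1 / ε₀) := by
  have hP0 : 0 < P := by linarith
  have h1 : 0 < P ^ (-(1 / d)) := Real.rpow_pos_of_pos hP0 _
  have h2 : P ^ (-(1 / d)) ≤ 1 := Real.rpow_le_one_of_one_le_of_nonpos hP (by
    rw [neg_nonpos]
    positivity)
  refine ⟨ε₀ * ε * P ^ (-(1 / d)), by positivity, ?_, ?_, ?_, ?_⟩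
  · have : ε * P ^ (-(1 / d)) ≤ 1 := mul_le_one₀ hε1.le h1.le h2
    calc ε₀ * ε * P ^ (-(1 / d)) = ε₀ * (ε * P ^ (-(1 / d))) := by ring
      _ ≤ ε₀ * 1 := mul_le_mul_of_nonneg_left this h0.le
      _ = ε₀ := mul_one _
  · have : ε₀ * P ^ (-(1 / d)) ≤ 1 := mul_le_one₀ h0'.le h1.le h2
    calc ε₀ * ε * P ^ (-(1 / d)) = ε * (ε₀ * P ^ (-(1 / d))) := by ring
      _ ≤ ε * 1 := mul_le_mul_of_nonneg_left this hε.le
      _ = ε := mul_one _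
  · rw [Real.mul_rpow (by positivity) h1.le, ← Real.rpow_mul hP0.le]
    have h3 : -(1 / d) * -d = 1 := by
      field_simp
    rw [h3, Real.rpow_one]
    have h4 : 1 ≤ (ε₀ * ε) ^ (-d) := by
      refine Real.one_le_rpow_of_pos_of_le_one_of_nonpos (by positivity) ?_ (by linarith)
      exact mul_le_one₀ h0'.le hε.le hε1.le
    nlinarith
  · have h5 : ∀ x : ℝ, Real.logb 5 (1 / x) = -Real.logb 5 x := fun x => by
      rw [one_div, Real.logb_inv]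
    rw [h5, h5, h5, Real.logb_mul (by positivity) h1.ne', Real.logb_mul h0.ne' hε.ne',
      Real.logb_rpow_eq_mul_logb_of_pos hP0]
    ring

theorem circ_final_I (δ ε₀ C₁ δ₂ d e θ : ℝ)
    (hpt : ∀ (v₀ : ℍ[ℤ]) (h : ℤ × ℤ × ℤ) (p q : ℤ), v₀ ≠ 0 → 0 < dt h h →
      1 ≤ p ^ 2 + dt h h * q ^ 2 →
      ∀ φ ε : ℝ, 0 < ε → ε ≤ ε₀ → |φ| ≤ 2 →
      ((Quaternion.normSq v₀ : ℤ) : ℝ) * (dt h h : ℝ) ≤ ε ^ (-δ₂) →
      (((p ^ 2 + dt h h * q ^ 2 : ℤ)) : ℝ) * max |φ| ε ^ 2 ≤ 20 * ε ^ (1 - δ₂) →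
      ∃ (L : ℕ) (x : ℍ[ℤ]), Gd x ∧ Quaternion.normSq x = 5 ^ L ∧
        (L : ℝ) ≤ Real.logb 5 ((((p ^ 2 + dt h h * q ^ 2 : ℤ)) : ℝ) * max |φ| ε ^ 2) +
          (6 + δ / 2) * Real.logb 5 (1 / ε) + C₁ ∧
        ‖vh (v₀ * (((p : ℤ) : ℍ[ℤ]) + q • pq h)) * rq (hp h) φ - qh L x‖ < ε)
    (v₀ : ℍ[ℤ]) (h : ℤ × ℤ × ℤ) (hv₀ : v₀ ≠ 0) (hh : 0 < dt h h) (hH : (1 : ℝ) ≤ (dt h h : ℝ))
    (hdδ : d ≤ δ / 2) (he0 : 0 < e) (heε₀ : e ≤ ε₀) (he1 : e < 1)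
    (hle : 0 ≤ Real.logb 5 (1 / e))
    (hPe2 : ((Quaternion.normSq v₀ : ℤ) : ℝ) * (dt h h : ℝ) ≤ e ^ (-δ₂))
    (hed : e * (dt h h : ℝ) ≤ e ^ (1 - d)) (hed2 : e ^ (1 - d) ≤ e ^ (1 - δ₂))
    (hloge : Real.logb 5 e = -Real.logb 5 (1 / e)) :
    ∃ (L : ℕ) (x : ℍ[ℤ]), Gd x ∧ Quaternion.normSq x = 5 ^ L ∧
      (L : ℝ) ≤ (5 + δ) * Real.logb 5 (1 / e) + C₁ + Real.logb 5 20 ∧
      ‖vh v₀ * rq (hp h) θ - qh L x‖ < e := by
  have hnat : ((dt h h).toNat : ℤ) = dt h h := Int.toNat_of_nonneg hh.le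
  have hnatR : (((dt h h).toNat : ℕ) : ℝ) = (dt h h : ℝ) := by
    exact_mod_cast congrArg (fun t : ℤ => (t : ℝ)) hnat
  obtain ⟨p₁, q₁, φ₁, h1, h2, h3, h4, h5, h6⟩ :=
    circ_dirichlet (dt h h).toNat (by omega) θ e he0 he1
  rw [hnat] at h1
  rw [hnatR] at h2 h3 h5 h6
  have hM1 : (((p₁ ^ 2 + dt h h * q₁ ^ 2 : ℤ)) : ℝ) = (p₁ : ℝ) ^ 2 + (dt h h : ℝ) * q₁ ^ 2 := by
    push_cast
    ring
  have hM1' : (1 : ℝ) ≤ (p₁ : ℝ) ^ 2 + (dt h h : ℝ) * q₁ ^ 2 := by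
    rw [← hM1]
    exact_mod_cast h1
  have hmax : ((p₁ : ℝ) ^ 2 + (dt h h : ℝ) * q₁ ^ 2) * max |φ₁| e ^ 2 ≤ 20 * (e * (dt h h : ℝ)) := by
    rcases le_total |φ₁| e with h7 | h7
    · rw [max_eq_right h7]
      rw [le_div_iff₀ he0] at h2
      nlinarith
    · rw [max_eq_left h7, sq_abs]
      nlinarith
  have hmax2 : ((p₁ : ℝ) ^ 2 + (dt h h : ℝ) * q₁ ^ 2) * max |φ₁| e ^ 2 ≤ 20 * e ^ (1 - d) := by
    linarith
  have hrq : rq (hp h) θ = (1 / Real.sqrt ((p₁ ^ 2 + dt h h * q₁ ^ 2 : ℤ) : ℝ)) •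
      (((p₁ : ℝ) : ℍ[ℝ]) + ((q₁ : ℝ) * Real.sqrt (dt h h : ℝ)) • hp h) * rq (hp h) φ₁ := by
    rw [smul_mul_assoc, circ_final_rq h hh, hM1]
    show ((Real.cos θ : ℝ) : ℍ[ℝ]) + Real.sin θ • hp h = _
    rw [h5, h6, smul_add, smul_smul, ← Quaternion.coe_smul, smul_eq_mul, one_div_mul_eq_div,
      one_div_mul_eq_div]
  obtain ⟨L, x, hx1, hx2, hx3, hx4⟩ := hpt v₀ h p₁ q₁ hv₀ hh h1 φ₁ e he0 heε₀ h4 hPe2 (by
    rw [hM1]
    linarith)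
  refine ⟨L, x, hx1, hx2, ?_, ?_⟩
  · rw [hM1] at hx3
    have hpos : 0 < ((p₁ : ℝ) ^ 2 + (dt h h : ℝ) * q₁ ^ 2) * max |φ₁| e ^ 2 := by
      have : 0 < max |φ₁| e := lt_of_lt_of_le he0 (le_max_right _ _)
      positivity
    have h7 := Real.logb_le_logb_of_le (b := 5) (by norm_num) hpos hmax2
    rw [Real.logb_mul (by norm_num) (Real.rpow_pos_of_pos he0 _).ne',
      Real.logb_rpow_eq_mul_logb_of_pos he0, hloge] at h7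
    have h8 : d * Real.logb 5 (1 / e) ≤ δ / 2 * Real.logb 5 (1 / e) :=
      mul_le_mul_of_nonneg_right hdδ hle
    linarith
  · rw [circ_final_vh v₀ h hh, mul_assoc, ← hrq] at hx4
    exact hx4

/-- TARGET -/
theorem circ_final (δ : ℝ) (hδ : 0 < δ) : ∃ A C : ℝ, 0 ≤ A ∧
    ∀ (v₀ : ℍ[ℤ]) (h : ℤ × ℤ × ℤ) (p q : ℤ), v₀ ≠ 0 → 0 < dt h h → 1 ≤ p ^ 2 + dt h h * q ^ 2 →
    ∀ θ φ ε : ℝ, 0 < ε → ε < 1 →
    rq (hp h) θ = (1 / Real.sqrt ((p ^ 2 + dt h h * q ^ 2 : ℤ) : ℝ)) •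
      (((p : ℝ) : ℍ[ℝ]) + ((q : ℝ) * Real.sqrt (dt h h : ℝ)) • hp h) * rq (hp h) φ →
    ∃ (L : ℕ) (x : ℍ[ℤ]), Gd x ∧ Quaternion.normSq x = 5 ^ L ∧
      (L : ℝ) ≤ (6 + δ) * Real.logb 5 (1 / ε) +
        Real.logb 5 (min ε ((((p ^ 2 + dt h h * q ^ 2 : ℤ)) : ℝ) * max |φ| ε ^ 2)) +
        A * Real.logb 5 (((Quaternion.normSq v₀ : ℤ) : ℝ) * (dt h h : ℝ)) + C ∧
      ‖vh v₀ * rq (hp h) θ - qh L x‖ < ε := by
  obtain ⟨ε₀, C₁, δ₂, hε₀, hε₀1, hδ₂, hδ₂', hpt⟩ := circ_pt (δ / 2) (by linarith)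
  obtain ⟨d, hd0, hd2, hdδ⟩ : ∃ d : ℝ, 0 < d ∧ d ≤ δ₂ ∧ d ≤ δ / 2 :=
    ⟨min δ₂ (δ / 2), lt_min hδ₂ (by linarith), min_le_left _ _, min_le_right _ _⟩
  refine ⟨(6 + δ) / d, (6 + δ) * Real.logb 5 (1 / ε₀) + C₁ + Real.logb 5 20, by positivity, ?_⟩
  intro v₀ h p q hv₀ hh hM θ φ ε hε hε1 hrot
  have hH := circ_final_H h hh
  have hN : (1 : ℝ) ≤ ((Quaternion.normSq v₀ : ℤ) : ℝ) := by
    have h1 : (0 : ℤ) ≤ Quaternion.normSq v₀ := Quaternion.normSq_nonneg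
    have h2 : Quaternion.normSq v₀ ≠ 0 := fun h3 => hv₀ (Quaternion.normSq_eq_zero.1 h3)
    have h3 : (1 : ℤ) ≤ Quaternion.normSq v₀ := by omega
    exact_mod_cast h3
  obtain ⟨P, hP⟩ : ∃ P : ℝ, P = ((Quaternion.normSq v₀ : ℤ) : ℝ) * (dt h h : ℝ) := ⟨_, rfl⟩
  have hP1 : 1 ≤ P := by
    rw [hP]
    nlinarith
  have hHP : (dt h h : ℝ) ≤ P := by
    rw [hP]
    nlinarith
  have hlP : 0 ≤ Real.logb 5 P := Real.logb_nonneg (by norm_num) hP1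
  have hl20 : 0 ≤ Real.logb 5 20 := Real.logb_nonneg (by norm_num) (by norm_num)
  obtain ⟨e, he0, heε₀, heε, hPe, hlog⟩ := circ_final_eps ε₀ d ε P hε₀ hε₀1 hd0 hε hε1 hP1
  have he1 : e < 1 := lt_of_le_of_lt heε₀ hε₀1
  have hle : 0 ≤ Real.logb 5 (1 / e) := Real.logb_nonneg (by norm_num) (by
    rw [le_div_iff₀ he0]
    linarith)
  have hlε : 0 ≤ Real.logb 5 (1 / ε) := Real.logb_nonneg (by norm_num) (by
    rw [le_div_iff₀ hε]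
    linarith)
  have hlε0 : 0 ≤ Real.logb 5 (1 / ε₀) := Real.logb_nonneg (by norm_num) (by
    rw [le_div_iff₀ hε₀]
    linarith)
  have hPe2 : ((Quaternion.normSq v₀ : ℤ) : ℝ) * (dt h h : ℝ) ≤ e ^ (-δ₂) := by
    rw [← hP]
    exact hPe.trans (Real.rpow_le_rpow_of_exponent_ge he0 he1.le (by linarith))
  have hed : e * (dt h h : ℝ) ≤ e ^ (1 - d) := by
    have h1 : e ^ (1 - d) = e * e ^ (-d) := by
      rw [sub_eq_add_neg, Real.rpow_add he0, Real.rpow_one]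
    rw [h1]
    exact mul_le_mul_of_nonneg_left (hHP.trans hPe) he0.le
  have hed2 : e ^ (1 - d) ≤ e ^ (1 - δ₂) :=
    Real.rpow_le_rpow_of_exponent_ge he0 he1.le (by linarith)
  have hloge : Real.logb 5 e = -Real.logb 5 (1 / e) := by
    rw [one_div, Real.logb_inv, neg_neg]
  have hI := circ_final_I δ ε₀ C₁ δ₂ d e θ hpt v₀ h hv₀ hh hH hdδ he0 heε₀ he1 hle hPe2 hed hed2
    hloge
  have hMR : (1 : ℝ) ≤ (((p ^ 2 + dt h h * q ^ 2 : ℤ)) : ℝ) := by exact_mod_cast hM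
  have hA : (6 + δ) / d * Real.logb 5 P = (6 + δ) * (1 / d * Real.logb 5 P) := by ring
  have hdP : 0 ≤ 1 / d * Real.logb 5 P := by positivity
  rw [← hP]
  by_cases hmin : ε ≤ (((p ^ 2 + dt h h * q ^ 2 : ℤ)) : ℝ) * max |φ| ε ^ 2
  · obtain ⟨L, x, hx1, hx2, hx3, hx4⟩ := hI
    refine ⟨L, x, hx1, hx2, ?_, lt_of_lt_of_le hx4 heε⟩
    rw [min_eq_left hmin, hA]
    have h7 : Real.logb 5 ε = -Real.logb 5 (1 / ε) := by
      rw [one_div, Real.logb_inv, neg_neg]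
    rw [h7]
    rw [hlog] at hx3
    linarith
  · rw [min_eq_right (not_le.1 hmin).le]
    have hmm : (((p ^ 2 + dt h h * q ^ 2 : ℤ)) : ℝ) * max |φ| e ^ 2 ≤
        (((p ^ 2 + dt h h * q ^ 2 : ℤ)) : ℝ) * max |φ| ε ^ 2 := by
      have : max |φ| e ≤ max |φ| ε := max_le_max (le_refl _) heε
      have h0 : 0 ≤ max |φ| e := le_trans he0.le (le_max_right _ _)
      gcongr
    have hpos : 0 < (((p ^ 2 + dt h h * q ^ 2 : ℤ)) : ℝ) * max |φ| e ^ 2 := by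
      have : 0 < max |φ| e := lt_of_lt_of_le he0 (le_max_right _ _)
      have h1 : (0 : ℝ) < (((p ^ 2 + dt h h * q ^ 2 : ℤ)) : ℝ) := by linarith
      exact mul_pos h1 (pow_pos this 2)
    have hlm := Real.logb_le_logb_of_le (b := 5) (by norm_num) hpos hmm
    by_cases hbig : (((p ^ 2 + dt h h * q ^ 2 : ℤ)) : ℝ) * max |φ| e ^ 2 ≤ e ^ (1 - δ₂)
    · have hφ : |φ| ≤ 2 := by
        have h1 : e ^ (1 - δ₂) ≤ 1 := Real.rpow_le_one he0.le he1.le (by linarith)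
        have h2 : |φ| ≤ max |φ| e := le_max_left _ _
        have h3 : max |φ| e ^ 2 ≤ 1 := by
          have h4 : 0 ≤ max |φ| e ^ 2 := by positivity
          nlinarith
        have h4 : 0 ≤ |φ| := abs_nonneg _
        nlinarith
      obtain ⟨L, x, hx1, hx2, hx3, hx4⟩ := hpt v₀ h p q hv₀ hh hM φ e he0 heε₀ hφ hPe2 (by
        have : 0 < e ^ (1 - δ₂) := Real.rpow_pos_of_pos he0 _
        linarith)
      refine ⟨L, x, hx1, hx2, ?_, ?_⟩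
      · rw [hA]
        have h9 : 0 ≤ δ / 2 * Real.logb 5 (1 / e) := by positivity
        rw [hlog] at hx3 h9
        linarith
      · rw [circ_final_vh v₀ h hh, mul_assoc, ← hrot] at hx4
        exact lt_of_lt_of_le hx4 heε
    · obtain ⟨L, x, hx1, hx2, hx3, hx4⟩ := hI
      refine ⟨L, x, hx1, hx2, ?_, lt_of_lt_of_le hx4 heε⟩
      have h7 := Real.logb_le_logb_of_le (b := 5) (by norm_num) (Real.rpow_pos_of_pos he0 _)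
        (not_le.1 hbig).le
      rw [Real.logb_rpow_eq_mul_logb_of_pos he0, hloge] at h7
      rw [hA]
      have h8 : 0 ≤ δ₂ * Real.logb 5 (1 / e) := by positivity
      have h9 : (6 + δ) * Real.logb 5 (1 / e) = (6 + δ) * Real.logb 5 (1 / ε) +
          (6 + δ) * (1 / d * Real.logb 5 P) + (6 + δ) * Real.logb 5 (1 / ε₀) := by
        rw [hlog]
        ring
      linarith

end Pool.Agent.H978V
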