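import Pool.Agent.H978V.MDefs
import Pool.Agent.H978V.K14
import Pool.Agent.H978V.L14
import Pool.Agent.H978V.M13c

/-!
JOB M14 (owner helper978, MP_06cce2_nt).  `H978V/*.lean` (library, with `MDefs`) is on origin/main.

Matrix form of `circ_final`.  (`H978V/L14.lean`: `qh_dist`, `uquat_norm`; `K14.lean`: `k14_Uquat`, `word_of_quat`; the file `Pool/Agent/Results/MP_06cce2_nt/HolesFour.lean` on origin/main has a similar final step, with `Urat_eq`.)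

PROOF.  `v₀ = ⟨a, d, c, b⟩`, `h = (z, y, x)`, `H = dt h h = x² + y² + z²`, `M = p² + H q²`.  `Uq t := Uquat t.re t.imI t.imJ t.imK` is multiplicative: `Uq s * Uq t = Uq (s * t)` (expand; `k14_Uquat` gives the matrix with explicit entries).  `Urat a b c d = Uq (vh v₀)`, `Uax x y z θ = Uq (rq (hp h) θ)`,
`Urat p (q x) (q y) (q z) = Uq w`, `w = (1/√M) • (p + (q √H) • hp h)`.  Let `θ₀` be a real number with `cos θ₀ = p/√M`, `sin θ₀ = q √H/√M` (`Complex.arg`), so `w = rq (hp h) θ₀`; let `φ ∈ [-π, π]` with `φ - (θ - θ₀) ∈ 2πℤ` (`toIocMod` or `Complex.arg (exp (i (θ-θ₀)))`).  `hp h * hp h = -1`, so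
`rq (hp h) θ = w * rq (hp h) φ`: the hypothesis of `circ_final`.  `‖U - W‖ = ‖vh v₀ * (rq θ - w)‖ = ‖rq (hp h) φ - 1‖ = 2 |sin (φ/2)| ≥ (2/π) |φ|` (`uquat_norm`, the norm of quaternions is multiplicative, `‖vh v₀‖ = ‖w‖ = 1`; `Real.mul_le_sin` or similar), so `|φ| ≤ 2 ‖U - W‖` and
`M max(|φ|,ε)² ≤ 4 M max(‖U - W‖, ε)²`, `min ε (4 X) ≤ 4 min ε X`.  `C' = C + logb 5 4`.  `word_of_quat` and `qh_dist` give the word and the distance.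
-/

set_option autoImplicit false

open scoped Quaternion Matrix.Norms.L2Operator

namespace Pool.Agent.H978V

open Pool.Agent.Helper557.Rz

/-- The point of `SU(2)` with the integral quaternion coordinates `(a, b, c, d)` up to a positive factor:
`(a I + i (b X + c Y + d Z)) / √(a² + b² + c² + d²)`. -/
noncomputable def Urat' (a b c d : ℤ) : Matrix (Fin 2) (Fin 2) ℂ :=
  (1 / (Real.sqrt ((a : ℝ) ^ 2 + b ^ 2 + c ^ 2 + d ^ 2) : ℂ)) •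
    ((a : ℂ) • 1 + Complex.I • ((b : ℂ) • pauli 0 + (c : ℂ) • pauli 1 + (d : ℂ) • pauli 2))

/-- The rotation `cos θ + i sin θ (x X + y Y + z Z) / √(x² + y² + z²)`. -/
noncomputable def Urot' (x y z : ℤ) (θ : ℝ) : Matrix (Fin 2) (Fin 2) ℂ :=
  (Real.cos θ : ℂ) • 1 + (Complex.I * (Real.sin θ : ℂ) / (Real.sqrt ((x : ℝ) ^ 2 + y ^ 2 + z ^ 2) : ℂ)) •
    ((x : ℂ) • pauli 0 + (y : ℂ) • pauli 1 + (z : ℂ) • pauli 2)


/-- the matrix of a real quaternion -/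
noncomputable def m14Uq (t : ℍ[ℝ]) : Matrix (Fin 2) (Fin 2) ℂ := Uquat t.re t.imI t.imJ t.imK

lemma m14_mul (s t : ℍ[ℝ]) : m14Uq s * m14Uq t = m14Uq (s * t) := by
  unfold m14Uq
  rw [k14_Uquat, k14_Uquat, k14_Uquat]
  unfold Mq
  ext i j
  fin_cases i <;> fin_cases j <;>
    simp [Matrix.mul_apply, Fin.sum_univ_two, Complex.ext_iff] <;> constructor <;> ring

lemma m14_vh (v : ℍ[ℤ]) :
    Urat' v.re v.imK v.imJ v.imI = m14Uq (vh v) := by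
  have h : (((Quaternion.normSq v : ℤ) : ℝ)) =
      (v.re : ℝ) ^ 2 + v.imK ^ 2 + v.imJ ^ 2 + v.imI ^ 2 := by
    rw [Quaternion.normSq_def']
    push_cast
    ring
  have h1 : (vh v).re = (1 / Real.sqrt ((v.re : ℝ) ^ 2 + v.imK ^ 2 + v.imJ ^ 2 + v.imI ^ 2)) * v.re := by
    rw [vh, Quaternion.re_smul, h]; rfl
  have h2 : (vh v).imI = (1 / Real.sqrt ((v.re : ℝ) ^ 2 + v.imK ^ 2 + v.imJ ^ 2 + v.imI ^ 2)) * v.imI := by
    rw [vh, Quaternion.imI_smul, h]; rfl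
  have h3 : (vh v).imJ = (1 / Real.sqrt ((v.re : ℝ) ^ 2 + v.imK ^ 2 + v.imJ ^ 2 + v.imI ^ 2)) * v.imJ := by
    rw [vh, Quaternion.imJ_smul, h]; rfl
  have h4 : (vh v).imK = (1 / Real.sqrt ((v.re : ℝ) ^ 2 + v.imK ^ 2 + v.imJ ^ 2 + v.imI ^ 2)) * v.imK := by
    rw [vh, Quaternion.imK_smul, h]; rfl
  unfold m14Uq
  rw [h1, h2, h3, h4]
  unfold Urat' Uquat
  set s := Real.sqrt ((v.re : ℝ) ^ 2 + v.imK ^ 2 + v.imJ ^ 2 + v.imI ^ 2)
  push_cast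
  module

lemma m14_hp (x y z : ℤ) :
    (hp (z, y, x)).re = 0 ∧
    (hp (z, y, x)).imI = (1 / Real.sqrt ((x : ℝ) ^ 2 + y ^ 2 + z ^ 2)) * z ∧
    (hp (z, y, x)).imJ = (1 / Real.sqrt ((x : ℝ) ^ 2 + y ^ 2 + z ^ 2)) * y ∧
    (hp (z, y, x)).imK = (1 / Real.sqrt ((x : ℝ) ^ 2 + y ^ 2 + z ^ 2)) * x := by
  have h : ((dt (z, y, x) (z, y, x) : ℤ) : ℝ) = (x : ℝ) ^ 2 + y ^ 2 + z ^ 2 := by
    unfold dt
    push_cast
    ring
  refine ⟨?_, ?_, ?_, ?_⟩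
  · rw [hp, Quaternion.re_smul]
    simp [cz, pq]
  · rw [hp, Quaternion.imI_smul, h]; rfl
  · rw [hp, Quaternion.imJ_smul, h]; rfl
  · rw [hp, Quaternion.imK_smul, h]; rfl

lemma m14_rot (x y z : ℤ) (θ : ℝ) : Urot' x y z θ = m14Uq (rq (hp (z, y, x)) θ) := by
  obtain ⟨h0, h1, h2, h3⟩ := m14_hp x y z
  unfold m14Uq rq
  simp only [Quaternion.re_add, Quaternion.imI_add, Quaternion.imJ_add, Quaternion.imK_add,
    Quaternion.re_coe, Quaternion.imI_coe, Quaternion.imJ_coe, Quaternion.imK_coe,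
    Quaternion.re_smul, Quaternion.imI_smul, Quaternion.imJ_smul, Quaternion.imK_smul,
    h0, h1, h2, h3, smul_eq_mul, mul_zero, add_zero, zero_add]
  unfold Urot' Uquat
  set s := Real.sqrt ((x : ℝ) ^ 2 + y ^ 2 + z ^ 2)
  push_cast
  module

lemma m14_rat (x y z p q : ℤ) (hH : 0 < (x : ℝ) ^ 2 + y ^ 2 + z ^ 2) :
    Urat' p (q * x) (q * y) (q * z) =
      m14Uq ((1 / Real.sqrt ((p : ℝ) ^ 2 + ((x : ℝ) ^ 2 + y ^ 2 + z ^ 2) * q ^ 2)) •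
      (((p : ℝ) : ℍ[ℝ]) + ((q : ℝ) * Real.sqrt ((x : ℝ) ^ 2 + y ^ 2 + z ^ 2)) • hp (z, y, x))) := by
  obtain ⟨h0, h1, h2, h3⟩ := m14_hp x y z
  have hM : ((p : ℝ) ^ 2 + ((q * x : ℤ) : ℝ) ^ 2 + ((q * y : ℤ) : ℝ) ^ 2 + ((q * z : ℤ) : ℝ) ^ 2) =
      (p : ℝ) ^ 2 + ((x : ℝ) ^ 2 + y ^ 2 + z ^ 2) * q ^ 2 := by
    push_cast; ring
  have hs : Real.sqrt ((x : ℝ) ^ 2 + y ^ 2 + z ^ 2) ≠ 0 := (Real.sqrt_pos.2 hH).ne'
  unfold m14Uq
  simp only [Quaternion.re_add, Quaternion.imI_add, Quaternion.imJ_add, Quaternion.imK_add,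
    Quaternion.re_coe, Quaternion.imI_coe, Quaternion.imJ_coe, Quaternion.imK_coe,
    Quaternion.re_smul, Quaternion.imI_smul, Quaternion.imJ_smul, Quaternion.imK_smul,
    h0, h1, h2, h3, smul_eq_mul, mul_zero, add_zero, zero_add]
  unfold Urat' Uquat
  rw [hM]
  set s := Real.sqrt ((x : ℝ) ^ 2 + y ^ 2 + z ^ 2)
  set r := Real.sqrt ((p : ℝ) ^ 2 + ((x : ℝ) ^ 2 + y ^ 2 + z ^ 2) * q ^ 2)
  have e1 : (q : ℝ) * s * (1 / s * z) = q * z := by field_simp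
  have e2 : (q : ℝ) * s * (1 / s * y) = q * y := by field_simp
  have e3 : (q : ℝ) * s * (1 / s * x) = q * x := by field_simp
  rw [e1, e2, e3]
  push_cast
  module

lemma m14_hp_sq (x y z : ℤ) (hH : 0 < (x : ℝ) ^ 2 + y ^ 2 + z ^ 2) :
    hp (z, y, x) * hp (z, y, x) = -1 := by
  obtain ⟨h0, h1, h2, h3⟩ := m14_hp x y z
  have hs : Real.sqrt ((x : ℝ) ^ 2 + y ^ 2 + z ^ 2) ≠ 0 := (Real.sqrt_pos.2 hH).ne'
  have hs2 : Real.sqrt ((x : ℝ) ^ 2 + y ^ 2 + z ^ 2) ^ 2 = (x : ℝ) ^ 2 + y ^ 2 + z ^ 2 :=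
    Real.sq_sqrt hH.le
  generalize Real.sqrt ((x : ℝ) ^ 2 + y ^ 2 + z ^ 2) = s at *
  ext
  · simp only [Quaternion.re_mul, h0, h1, h2, h3, Quaternion.re_neg, Quaternion.re_one]
    field_simp
    linarith
  · simp only [Quaternion.imI_mul, h0, h1, h2, h3, Quaternion.imI_neg, Quaternion.imI_one]
    ring
  · simp only [Quaternion.imJ_mul, h0, h1, h2, h3, Quaternion.imJ_neg, Quaternion.imJ_one]
    ring
  · simp only [Quaternion.imK_mul, h0, h1, h2, h3, Quaternion.imK_neg, Quaternion.imK_one]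
    ring

lemma m14_rq_mul (u : ℍ[ℝ]) (hu : u * u = -1) (α β : ℝ) : rq u α * rq u β = rq u (α + β) := by
  unfold rq
  rw [Real.cos_add, Real.sin_add, add_mul, mul_add, mul_add, smul_mul_smul_comm, hu,
    Quaternion.coe_mul_eq_smul, Quaternion.coe_mul_eq_smul, Quaternion.mul_coe_eq_smul]
  ext <;> simp <;> ring

lemma m14_rq_cos (u : ℍ[ℝ]) (α β : ℝ) (h1 : Real.cos α = Real.cos β) (h2 : Real.sin α = Real.sin β) :
    rq u α = rq u β := by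
  unfold rq
  rw [h1, h2]

lemma m14_rq_sub_one (x y z : ℤ) (hH : 0 < (x : ℝ) ^ 2 + y ^ 2 + z ^ 2) (φ : ℝ) :
    ‖rq (hp (z, y, x)) φ - 1‖ ^ 2 = 2 - 2 * Real.cos φ := by
  obtain ⟨h0, h1, h2, h3⟩ := m14_hp x y z
  have hs : Real.sqrt ((x : ℝ) ^ 2 + y ^ 2 + z ^ 2) ≠ 0 := (Real.sqrt_pos.2 hH).ne'
  have hs2 : Real.sqrt ((x : ℝ) ^ 2 + y ^ 2 + z ^ 2) ^ 2 = (x : ℝ) ^ 2 + y ^ 2 + z ^ 2 :=
    Real.sq_sqrt hH.le
  rw [l14_norm_sq]
  unfold rq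
  simp only [Quaternion.re_add, Quaternion.imI_add, Quaternion.imJ_add, Quaternion.imK_add,
    Quaternion.re_sub, Quaternion.imI_sub, Quaternion.imJ_sub, Quaternion.imK_sub,
    Quaternion.re_one, Quaternion.imI_one, Quaternion.imJ_one, Quaternion.imK_one,
    Quaternion.re_coe, Quaternion.imI_coe, Quaternion.imJ_coe, Quaternion.imK_coe,
    Quaternion.re_smul, Quaternion.imI_smul, Quaternion.imJ_smul, Quaternion.imK_smul,
    h0, h1, h2, h3, smul_eq_mul, mul_zero, add_zero, zero_add, sub_zero]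
  generalize Real.sqrt ((x : ℝ) ^ 2 + y ^ 2 + z ^ 2) = s at *
  have e : (Real.sin φ * (1 / s * z)) ^ 2 + (Real.sin φ * (1 / s * y)) ^ 2 +
      (Real.sin φ * (1 / s * x)) ^ 2 = Real.sin φ ^ 2 := by
    field_simp
    rw [hs2]
    ring
  have := Real.sin_sq_add_cos_sq φ
  nlinarith

lemma m14_rq_norm (x y z : ℤ) (hH : 0 < (x : ℝ) ^ 2 + y ^ 2 + z ^ 2) (φ : ℝ) :
    ‖rq (hp (z, y, x)) φ‖ = 1 := by
  obtain ⟨h0, h1, h2, h3⟩ := m14_hp x y z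
  have hs : Real.sqrt ((x : ℝ) ^ 2 + y ^ 2 + z ^ 2) ≠ 0 := (Real.sqrt_pos.2 hH).ne'
  have hs2 : Real.sqrt ((x : ℝ) ^ 2 + y ^ 2 + z ^ 2) ^ 2 = (x : ℝ) ^ 2 + y ^ 2 + z ^ 2 :=
    Real.sq_sqrt hH.le
  have key : ‖rq (hp (z, y, x)) φ‖ ^ 2 = 1 := by
    rw [l14_norm_sq]
    unfold rq
    simp only [Quaternion.re_add, Quaternion.imI_add, Quaternion.imJ_add, Quaternion.imK_add,
      Quaternion.re_coe, Quaternion.imI_coe, Quaternion.imJ_coe, Quaternion.imK_coe,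
      Quaternion.re_smul, Quaternion.imI_smul, Quaternion.imJ_smul, Quaternion.imK_smul,
      h0, h1, h2, h3, smul_eq_mul, mul_zero, add_zero, zero_add]
    generalize Real.sqrt ((x : ℝ) ^ 2 + y ^ 2 + z ^ 2) = s at *
    have e : (Real.sin φ * (1 / s * z)) ^ 2 + (Real.sin φ * (1 / s * y)) ^ 2 +
        (Real.sin φ * (1 / s * x)) ^ 2 = Real.sin φ ^ 2 := by
      field_simp
      rw [hs2]
      ring
    have := Real.sin_sq_add_cos_sq φ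
    nlinarith
  nlinarith [norm_nonneg (rq (hp (z, y, x)) φ)]

lemma m14_vh_norm (v : ℍ[ℤ]) (hv : v ≠ 0) : ‖vh v‖ = 1 := by
  have hn : (0 : ℝ) < ((Quaternion.normSq v : ℤ) : ℝ) := by
    have h1 : Quaternion.normSq v ≠ 0 := Quaternion.normSq_ne_zero.2 hv
    have h2 : 0 ≤ Quaternion.normSq v := Quaternion.normSq_nonneg
    exact_mod_cast lt_of_le_of_ne h2 h1.symm
  have hs : Real.sqrt ((Quaternion.normSq v : ℤ) : ℝ) ≠ 0 := (Real.sqrt_pos.2 hn).ne'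
  have hs2 : Real.sqrt ((Quaternion.normSq v : ℤ) : ℝ) ^ 2 = ((Quaternion.normSq v : ℤ) : ℝ) :=
    Real.sq_sqrt hn.le
  have key : ‖vh v‖ ^ 2 = 1 := by
    rw [l14_norm_sq]
    have e : ((Quaternion.normSq v : ℤ) : ℝ) = (v.re : ℝ) ^ 2 + v.imI ^ 2 + v.imJ ^ 2 + v.imK ^ 2 := by
      rw [Quaternion.normSq_def']
      push_cast
      ring
    have h1 : (vh v).re = (1 / Real.sqrt ((Quaternion.normSq v : ℤ) : ℝ)) * v.re := by
      rw [vh, Quaternion.re_smul]; rfl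
    have h2 : (vh v).imI = (1 / Real.sqrt ((Quaternion.normSq v : ℤ) : ℝ)) * v.imI := by
      rw [vh, Quaternion.imI_smul]; rfl
    have h3 : (vh v).imJ = (1 / Real.sqrt ((Quaternion.normSq v : ℤ) : ℝ)) * v.imJ := by
      rw [vh, Quaternion.imJ_smul]; rfl
    have h4 : (vh v).imK = (1 / Real.sqrt ((Quaternion.normSq v : ℤ) : ℝ)) * v.imK := by
      rw [vh, Quaternion.imK_smul]; rfl
    rw [h1, h2, h3, h4]
    generalize Real.sqrt ((Quaternion.normSq v : ℤ) : ℝ) = s at *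
    field_simp
    rw [hs2, e]
  nlinarith [norm_nonneg (vh v)]

lemma m14_w (u : ℍ[ℝ]) (P Q r : ℝ) :
    (1 / r) • ((P : ℍ[ℝ]) + Q • u) = (((P / r : ℝ)) : ℍ[ℝ]) + (Q / r) • u := by
  ext
  · simp only [Quaternion.re_smul, Quaternion.re_add, Quaternion.re_coe, smul_eq_mul]; ring
  · simp only [Quaternion.imI_smul, Quaternion.imI_add, Quaternion.imI_coe, smul_eq_mul]; ring
  · simp only [Quaternion.imJ_smul, Quaternion.imJ_add, Quaternion.imJ_coe, smul_eq_mul]; ring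
  · simp only [Quaternion.imK_smul, Quaternion.imK_add, Quaternion.imK_coe, smul_eq_mul]; ring

/-- the angle between the rational point of the circle and `θ` -/
lemma m14_angle (P Q θ : ℝ) (h : 0 < P ^ 2 + Q ^ 2) : ∃ φ : ℝ, |φ| ≤ Real.pi ∧ ∃ θ₀ : ℝ,
    Real.cos θ₀ = P / Real.sqrt (P ^ 2 + Q ^ 2) ∧ Real.sin θ₀ = Q / Real.sqrt (P ^ 2 + Q ^ 2) ∧
    Real.cos φ = Real.cos (θ - θ₀) ∧ Real.sin φ = Real.sin (θ - θ₀) := by
  have hz : (⟨P, Q⟩ : ℂ) ≠ 0 := by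
    intro h0
    have h1 := congrArg Complex.re h0
    have h2 := congrArg Complex.im h0
    simp at h1 h2
    rw [h1, h2] at h
    norm_num at h
  have hn : ‖(⟨P, Q⟩ : ℂ)‖ = Real.sqrt (P ^ 2 + Q ^ 2) := by
    rw [Complex.norm_def, Complex.normSq_mk]
    congr 1
    ring
  set θ₀ : ℝ := Complex.arg ⟨P, Q⟩ with hθ₀
  refine ⟨Complex.arg (Complex.exp ((θ - θ₀ : ℝ) * Complex.I)), ?_, θ₀, ?_, ?_, ?_, ?_⟩
  · exact Complex.abs_arg_le_pi _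
  · rw [hθ₀, Complex.cos_arg hz, hn]
  · rw [hθ₀, Complex.sin_arg, hn]
  · rw [Complex.cos_arg (Complex.exp_ne_zero _), Complex.norm_exp_ofReal_mul_I, div_one,
      Complex.exp_ofReal_mul_I_re]
  · rw [Complex.sin_arg, Complex.norm_exp_ofReal_mul_I, div_one, Complex.exp_ofReal_mul_I_im]

lemma m14_abs_le (φ X : ℝ) (hφ : |φ| ≤ Real.pi) (hX : 0 ≤ X) (h : X ^ 2 = 2 - 2 * Real.cos φ) :
    |φ| ≤ 2 * X := by
  have h1 := Real.cos_le_one_sub_mul_cos_sq hφ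
  have h2 : 0 < Real.pi := Real.pi_pos
  have h3 : Real.pi ≤ 4 := Real.pi_le_four
  have h4 : 4 / Real.pi ^ 2 * φ ^ 2 ≤ X ^ 2 := by
    have : 4 / Real.pi ^ 2 * φ ^ 2 = 2 * (2 / Real.pi ^ 2 * φ ^ 2) := by ring
    rw [h, this]
    linarith
  have h5 : φ ^ 2 / 4 ≤ X ^ 2 := by
    refine le_trans ?_ h4
    have h6 : (1 : ℝ) / 4 ≤ 4 / Real.pi ^ 2 := by
      rw [div_le_div_iff₀ (by norm_num) (by positivity)]
      nlinarith
    have := mul_le_mul_of_nonneg_right h6 (sq_nonneg φ)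
    linarith
  have h7 : |φ| ^ 2 ≤ (2 * X) ^ 2 := by
    rw [sq_abs]
    nlinarith
  exact le_of_sq_le_sq h7 (by positivity)

lemma m14_log (M X φ ε : ℝ) (hM : 0 < M) (hε : 0 < ε) (hφ : |φ| ≤ 2 * X) :
    Real.logb 5 (min ε (M * max |φ| ε ^ 2)) ≤ Real.logb 5 4 + Real.logb 5 (min ε (M * max X ε ^ 2)) := by
  have h1 : 0 < max X ε := lt_of_lt_of_le hε (le_max_right _ _)
  have h1' : 0 < max |φ| ε := lt_of_lt_of_le hε (le_max_right _ _)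
  have h2 : 0 < min ε (M * max X ε ^ 2) := lt_min hε (by positivity)
  have h3 : 0 < min ε (M * max |φ| ε ^ 2) := lt_min hε (by positivity)
  rw [← Real.logb_mul (by norm_num) h2.ne']
  refine Real.logb_le_logb_of_le (by norm_num) h3 ?_
  have h4 : max |φ| ε ≤ 2 * max X ε := by
    refine max_le ?_ ?_
    · exact hφ.trans (mul_le_mul_of_nonneg_left (le_max_left _ _) (by norm_num))
    · have := le_max_right X ε
      linarith
  have h5 : M * max |φ| ε ^ 2 ≤ 4 * (M * max X ε ^ 2) := by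
    have : max |φ| ε ^ 2 ≤ (2 * max X ε) ^ 2 := pow_le_pow_left₀ h1'.le h4 2
    nlinarith
  rw [mul_min_of_nonneg _ _ (by norm_num : (0 : ℝ) ≤ 4)]
  refine le_min ?_ ?_
  · exact (min_le_left _ _).trans (by linarith)
  · exact (min_le_right _ _).trans h5

/-- TARGET -/
theorem circ_matrix (δ : ℝ) (hδ : 0 < δ) : ∃ A C : ℝ, ∀ a b c d x y z p q : ℤ,
    ¬ (a = 0 ∧ b = 0 ∧ c = 0 ∧ d = 0) → ¬ (x = 0 ∧ y = 0 ∧ z = 0) → ¬ (p = 0 ∧ q = 0) →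
    ∀ θ ε : ℝ, 0 < ε → ε < 1 → ∃ w : List (Matrix (Fin 2) (Fin 2) ℂ), (∀ g ∈ w, g ∈ Vset) ∧
      (w.length : ℝ) ≤ (6 + δ) * Real.logb 5 (1 / ε) +
        Real.logb 5 (min ε (((p : ℝ) ^ 2 + q ^ 2 * (x ^ 2 + y ^ 2 + z ^ 2)) *
          (max ‖Urat' a b c d * Urot' x y z θ - Urat' a b c d * Urat' p (q * x) (q * y) (q * z)‖ ε) ^ 2)) +
        A * Real.logb 5 (((a : ℝ) ^ 2 + b ^ 2 + c ^ 2 + d ^ 2) * ((x : ℝ) ^ 2 + y ^ 2 + z ^ 2)) + C ∧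
      ‖Urat' a b c d * Urot' x y z θ - w.prod‖ < ε := by
  obtain ⟨A, C, -, hAC⟩ := circ_final δ hδ
  refine ⟨A, C + Real.logb 5 4, ?_⟩
  intro a b c d x y z p q habcd hxyz hpq θ ε hε hε1
  -- the quaternion `v`
  set v : ℍ[ℤ] := ⟨a, d, c, b⟩ with hv
  have hv0 : v ≠ 0 := by
    intro h
    apply habcd
    have h1 := congrArg (fun q : ℍ[ℤ] => q.re) h
    have h2 := congrArg (fun q : ℍ[ℤ] => q.imI) h
    have h3 := congrArg (fun q : ℍ[ℤ] => q.imJ) h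
    have h4 := congrArg (fun q : ℍ[ℤ] => q.imK) h
    simp [hv] at h1 h2 h3 h4
    exact ⟨h1, h4, h3, h2⟩
  have hU : Urat' a b c d = m14Uq (vh v) := m14_vh v
  have hvn : ((Quaternion.normSq v : ℤ) : ℝ) = (a : ℝ) ^ 2 + b ^ 2 + c ^ 2 + d ^ 2 := by
    rw [Quaternion.normSq_def']
    push_cast
    simp only [hv]
    ring
  -- the vector `h`
  have hHz : 0 < x ^ 2 + y ^ 2 + z ^ 2 := by
    by_contra hcon
    push Not at hcon
    apply hxyz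
    have hx : x ^ 2 = 0 := by nlinarith [sq_nonneg x, sq_nonneg y, sq_nonneg z]
    have hy : y ^ 2 = 0 := by nlinarith [sq_nonneg x, sq_nonneg y, sq_nonneg z]
    have hz : z ^ 2 = 0 := by nlinarith [sq_nonneg x, sq_nonneg y, sq_nonneg z]
    exact ⟨pow_eq_zero_iff (two_ne_zero) |>.1 hx, pow_eq_zero_iff (two_ne_zero) |>.1 hy,
      pow_eq_zero_iff (two_ne_zero) |>.1 hz⟩
  have hH : 0 < (x : ℝ) ^ 2 + y ^ 2 + z ^ 2 := by exact_mod_cast hHz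
  have hdt : dt (z, y, x) (z, y, x) = x ^ 2 + y ^ 2 + z ^ 2 := by
    unfold dt
    ring
  have hdtR : ((dt (z, y, x) (z, y, x) : ℤ) : ℝ) = (x : ℝ) ^ 2 + y ^ 2 + z ^ 2 := by
    rw [hdt]; push_cast; ring
  have hMz : 0 < p ^ 2 + dt (z, y, x) (z, y, x) * q ^ 2 := by
    rw [hdt]
    by_contra hcon
    push Not at hcon
    apply hpq
    have hq' : 0 ≤ (x ^ 2 + y ^ 2 + z ^ 2) * q ^ 2 := mul_nonneg hHz.le (sq_nonneg q)
    have hp2 : p ^ 2 = 0 := by nlinarith [sq_nonneg p]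
    have hq2 : (x ^ 2 + y ^ 2 + z ^ 2) * q ^ 2 = 0 := by nlinarith [sq_nonneg p]
    rcases mul_eq_zero.1 hq2 with h | h
    · exact absurd h hHz.ne'
    · exact ⟨pow_eq_zero_iff (two_ne_zero) |>.1 hp2, pow_eq_zero_iff (two_ne_zero) |>.1 h⟩
  have hMR : ((p ^ 2 + dt (z, y, x) (z, y, x) * q ^ 2 : ℤ) : ℝ) =
      (p : ℝ) ^ 2 + ((x : ℝ) ^ 2 + y ^ 2 + z ^ 2) * q ^ 2 := by
    rw [hdt]; push_cast; ring
  have hM : 0 < (p : ℝ) ^ 2 + ((x : ℝ) ^ 2 + y ^ 2 + z ^ 2) * q ^ 2 := by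
    rw [← hMR]; exact_mod_cast hMz
  -- the angles
  have hsq : ((q : ℝ) * Real.sqrt ((x : ℝ) ^ 2 + y ^ 2 + z ^ 2)) ^ 2 =
      ((x : ℝ) ^ 2 + y ^ 2 + z ^ 2) * q ^ 2 := by
    rw [mul_pow, Real.sq_sqrt hH.le]; ring
  obtain ⟨φ, hφ, θ₀, hc0, hs0, hc, hs⟩ := m14_angle (p : ℝ)
    ((q : ℝ) * Real.sqrt ((x : ℝ) ^ 2 + y ^ 2 + z ^ 2)) θ (by rw [hsq]; exact hM)
  rw [hsq] at hc0 hs0
  set u : ℍ[ℝ] := hp (z, y, x) with hu
  have huu : u * u = -1 := m14_hp_sq x y z hH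
  have hw : (1 / Real.sqrt ((p : ℝ) ^ 2 + ((x : ℝ) ^ 2 + y ^ 2 + z ^ 2) * q ^ 2)) •
      (((p : ℝ) : ℍ[ℝ]) + ((q : ℝ) * Real.sqrt ((x : ℝ) ^ 2 + y ^ 2 + z ^ 2)) • u) = rq u θ₀ := by
    unfold rq
    rw [hc0, hs0, m14_w]
  have hrq : rq u θ = rq u θ₀ * rq u φ := by
    rw [m14_rq_cos u φ (θ - θ₀) hc hs, m14_rq_mul u huu]
    congr 1
    ring
  obtain ⟨L, g, hg1, hg2, hL, hd⟩ := hAC v (z, y, x) p q hv0 (by rw [hdt]; exact hHz) hMz θ φ ε hε hε1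
    (by rw [hMR, hdtR, ← hu, hw]; exact hrq)
  obtain ⟨w, hw1, hw2, hw3⟩ := word_of_quat L g hg1 hg2
  have hUU : Urat' a b c d * Urot' x y z θ = m14Uq (vh v * rq u θ) := by
    rw [hU, m14_rot, m14_mul]
  have hW : Urat' a b c d * Urat' p (q * x) (q * y) (q * z) = m14Uq (vh v * rq u θ₀) := by
    rw [hU, m14_rat x y z p q hH, m14_mul, ← hu, hw]
  have hX : ‖Urat' a b c d * Urot' x y z θ - Urat' a b c d * Urat' p (q * x) (q * y) (q * z)‖ =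
      ‖rq u φ - 1‖ := by
    rw [hUU, hW]
    unfold m14Uq
    rw [uquat_norm, hrq, ← mul_assoc]
    have : vh v * rq u θ₀ * rq u φ - vh v * rq u θ₀ = vh v * rq u θ₀ * (rq u φ - 1) := by
      rw [mul_sub, mul_one]
    rw [this, norm_mul, norm_mul, m14_vh_norm v hv0, m14_rq_norm x y z hH, one_mul, one_mul]
  refine ⟨w, hw1, ?_, ?_⟩
  · rw [hw2, hX]
    have h1 := m14_abs_le φ ‖rq u φ - 1‖ hφ (norm_nonneg _) (m14_rq_sub_one x y z hH φ)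
    have h2 := m14_log _ ‖rq u φ - 1‖ φ ε hM hε h1
    rw [hMR, hvn, hdtR] at hL
    have h3 : (p : ℝ) ^ 2 + q ^ 2 * (x ^ 2 + y ^ 2 + z ^ 2) =
      (p : ℝ) ^ 2 + ((x : ℝ) ^ 2 + y ^ 2 + z ^ 2) * q ^ 2 := by ring
    rw [h3]
    linarith
  · have h5 : ‖Urat' a b c d * Urot' x y z θ - w.prod‖ ^ 2 < ε ^ 2 := by
      rw [hUU]
      unfold m14Uq
      rw [hw3, ← qh_dist]
      exact pow_lt_pow_left₀ hd (norm_nonneg _) (by norm_num)
    exact lt_of_pow_lt_pow_left₀ 2 hε.le h5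

end Pool.Agent.H978V
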