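import Pool.Agent.H978V.MDefs

/-!
# Words near rational points, general directions: definitions
-/

set_option autoImplicit false

open scoped Quaternion

namespace Pool.Agent.H978V

open Pool.Agent.Helper557.Rz

/-- vector product of integral vectors -/
def crz (h x : ℤ × ℤ × ℤ) : ℤ × ℤ × ℤ :=
  (h.2.1 * x.2.2 - h.2.2 * x.2.1, h.2.2 * x.1 - h.1 * x.2.2, h.1 * x.2.1 - h.2.1 * x.1)

/-- integral vectors in the needle of length `X` and width `Y` in direction `p` -/
def Nd (p : ℍ[ℝ]) (X Y : ℝ) (x : ℤ × ℤ × ℤ) : Prop := (dt x x : ℝ) ≤ X ^ 2 ∧ Sp p (pq x) ≤ Y ^ 2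

end Pool.Agent.H978V
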