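import Pool.Agent.H978V.NDefs
import Pool.Agent.H978V.KDefs
import Pool.Agent.H978V.M0
import Pool.Agent.H978V.K1
import Pool.Agent.H978V.K3
import Pool.Agent.H978V.K4

set_option autoImplicit false

open MeasureTheory Set
open scoped Quaternion

namespace Pool.Agent.H978V

open Pool.Agent.Helper557.Rz

/-! ### elementary facts -/

/-- the square of the length of the second part, as a natural number -/
def p1n (N₀ : ℕ) (m : ℤ) : ℕ := ((N₀ : ℤ) - m ^ 2).toNat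

lemma p1_facts {N₀ : ℕ} {p : ℤ × (ℤ × ℤ × ℤ)} (h1 : p.1 ^ 2 + dt p.2 p.2 = N₀) (h2 : p.2 ≠ 0) :
    (p1n N₀ p.1 : ℤ) = dt p.2 p.2 ∧ 1 ≤ p1n N₀ p.1 ∧ p1n N₀ p.1 ≤ N₀ ∧
      p.2 ∈ S3 (p1n N₀ p.1) := by
  have h3 : 0 < dt p.2 p.2 := by
    have h4 : 0 ≤ dt p.2 p.2 := by
      unfold dt
      nlinarith [mul_self_nonneg p.2.1, mul_self_nonneg p.2.2.1, mul_self_nonneg p.2.2.2]
    refine lt_of_le_of_ne h4 fun h0 => h2 ?_
    unfold dt at h0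
    have s1 := mul_self_nonneg p.2.1
    have s2 := mul_self_nonneg p.2.2.1
    have s3 := mul_self_nonneg p.2.2.2
    have e1 : p.2.1 = 0 := mul_self_eq_zero.1 (by linarith)
    have e2 : p.2.2.1 = 0 := mul_self_eq_zero.1 (by linarith)
    have e3 : p.2.2.2 = 0 := mul_self_eq_zero.1 (by linarith)
    ext
    · exact e1
    · exact e2
    · exact e3
  have h5 : (N₀ : ℤ) - p.1 ^ 2 = dt p.2 p.2 := by linarith
  have h6 : (p1n N₀ p.1 : ℤ) = dt p.2 p.2 := by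
    unfold p1n
    rw [h5]
    exact Int.toNat_of_nonneg h3.le
  have h7 := sq_nonneg p.1
  refine ⟨h6, by omega, by omega, ?_⟩
  rw [mem_S3, h6]
  unfold dt
  ring

/-! ### parallel pairs -/

lemma p1_parallel (N₀ : ℕ) (Z : Finset (ℤ × (ℤ × ℤ × ℤ)))
    (hZ : ∀ p ∈ Z, p.1 ^ 2 + dt p.2 p.2 = N₀ ∧ p.2 ≠ 0) (C : ℝ)
    (hC : ∀ H : ℕ, 1 ≤ H → ∀ F : Finset (ℤ × ℤ), (∀ p ∈ F, p.1 ^ 2 + H * p.2 ^ 2 = N₀) →
      (F.card : ℝ) ≤ C)
    (p : ℤ × (ℤ × ℤ × ℤ)) (hp : p ∈ Z) :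
    ((Z.filter (fun p' => (dt p.2 p'.2) ^ 2 =
      (p1n N₀ p.1 : ℤ) * p1n N₀ p'.1)).card : ℝ) ≤ C := by
  classical
  obtain ⟨e1, e2, e3, h2⟩ := p1_facts (hZ p hp).1 (hZ p hp).2
  have hy0 : p.2 ≠ 0 := (hZ p hp).2
  obtain ⟨g, w, u, hg, hy, hu⟩ := k3_bezout p.2 hy0
  set H : ℕ := (w.1 ^ 2 + w.2.1 ^ 2 + w.2.2 ^ 2).toNat with hH
  have hHe : (H : ℤ) = w.1 ^ 2 + w.2.1 ^ 2 + w.2.2 ^ 2 := Int.toNat_of_nonneg (by positivity)
  have hH1 : 1 ≤ H := by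
    by_contra hc
    have hc0 : H = 0 := by omega
    rw [hc0] at hHe
    have s1 := sq_nonneg w.1
    have s2 := sq_nonneg w.2.1
    have s3 := sq_nonneg w.2.2
    push_cast at hHe
    have z1 := pow_eq_zero_iff (two_ne_zero) |>.1 (show w.1 ^ 2 = 0 by linarith)
    have z2 := pow_eq_zero_iff (two_ne_zero) |>.1 (show w.2.1 ^ 2 = 0 by linarith)
    have z3 := pow_eq_zero_iff (two_ne_zero) |>.1 (show w.2.2 ^ 2 = 0 by linarith)
    rw [z1, z2, z3] at hu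
    simp at hu
  set T := Z.filter (fun p' => (dt p.2 p'.2) ^ 2 = (p1n N₀ p.1 : ℤ) * p1n N₀ p'.1) with hT
  let f : ℤ × (ℤ × ℤ × ℤ) → ℤ × ℤ := fun q => (q.1, u.1 * q.2.1 + u.2.1 * q.2.2.1 + u.2.2 * q.2.2.2)
  have key : ∀ q ∈ T, q.2.1 = (f q).2 * w.1 ∧ q.2.2.1 = (f q).2 * w.2.1 ∧
      q.2.2.2 = (f q).2 * w.2.2 := by
    intro q hq
    rw [hT, Finset.mem_filter] at hq
    obtain ⟨hq1, hq2⟩ := hq
    obtain ⟨-, -, -, q2⟩ := p1_facts (hZ q hq1).1 (hZ q hq1).2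
    obtain ⟨c1, c2, c3⟩ := k3_par h2 q2 hq2
    have y1 : p.2.1 = g * w.1 := by rw [hy]
    have y2 : p.2.2.1 = g * w.2.1 := by rw [hy]
    have y3 : p.2.2.2 = g * w.2.2 := by rw [hy]
    rw [y1, y2] at c1
    rw [y1, y3] at c2
    rw [y2, y3] at c3
    have d1 : w.1 * q.2.2.1 = w.2.1 * q.2.1 := by
      apply mul_left_cancel₀ hg; linarith
    have d2 : w.1 * q.2.2.2 = w.2.2 * q.2.1 := by
      apply mul_left_cancel₀ hg; linarith
    have d3 : w.2.1 * q.2.2.2 = w.2.2 * q.2.2.1 := by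
      apply mul_left_cancel₀ hg; linarith
    refine ⟨?_, ?_, ?_⟩
    · show q.2.1 = (u.1 * q.2.1 + u.2.1 * q.2.2.1 + u.2.2 * q.2.2.2) * w.1
      linear_combination (-q.2.1) * hu - u.2.1 * d1 - u.2.2 * d2
    · show q.2.2.1 = (u.1 * q.2.1 + u.2.1 * q.2.2.1 + u.2.2 * q.2.2.2) * w.2.1
      linear_combination (-q.2.2.1) * hu + u.1 * d1 - u.2.2 * d3
    · show q.2.2.2 = (u.1 * q.2.1 + u.2.1 * q.2.2.1 + u.2.2 * q.2.2.2) * w.2.2
      linear_combination (-q.2.2.2) * hu + u.1 * d2 + u.2.1 * d3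
  have hinj : Set.InjOn f T := by
    intro q hq q' hq' h
    obtain ⟨a1, a2, a3⟩ := key q hq
    obtain ⟨b1, b2, b3⟩ := key q' hq'
    have hf1 : q.1 = q'.1 := congrArg (fun r : ℤ × ℤ => r.1) h
    have hf2 : (f q).2 = (f q').2 := congrArg (fun r : ℤ × ℤ => r.2) h
    rw [← hf2] at b1 b2 b3
    ext
    · exact hf1
    · rw [a1, b1]
    · rw [a2, b2]
    · rw [a3, b3]
  rw [← Finset.card_image_of_injOn hinj]
  apply hC H hH1
  intro r hr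
  obtain ⟨q, hq, rfl⟩ := Finset.mem_image.1 hr
  obtain ⟨a1, a2, a3⟩ := key q hq
  rw [hT, Finset.mem_filter] at hq
  have q1 := (hZ q hq.1).1
  rw [hHe]
  rw [← q1]
  unfold dt
  rw [a1, a2, a3]
  show q.1 ^ 2 + _ * (f q).2 ^ 2 = _
  ring

/-- TARGET 1 -/
theorem wpairs (δ : ℝ) (hδ : 0 < δ) : ∃ K : ℝ, 0 < K ∧ ∀ (N₀ : ℕ) (A : Finset ℤ)
    (Z : Finset (ℤ × (ℤ × ℤ × ℤ))), (∀ p ∈ Z, p.1 ∈ A ∧ p.1 ^ 2 + dt p.2 p.2 = N₀ ∧ p.2 ≠ 0) → ∀ X : ℕ,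
    (((Z ×ˢ Z).filter (fun p => sqd p.1.2 p.2.2 ≤ X)).card : ℝ) ≤
      K * (N₀ : ℝ) ^ δ * (Z.card + (A.card : ℝ) ^ 2 * X) := by
  classical
  obtain ⟨C, hC1, hC⟩ := binrep δ hδ
  obtain ⟨K₀, hK₀, h₀⟩ := k3_nonpar δ hδ
  refine ⟨C + K₀, by positivity, fun N₀ A Z hZ X => ?_⟩
  rcases Z.eq_empty_or_nonempty with he | hne
  · rw [he]
    simp only [Finset.product_empty, Finset.filter_empty, Finset.card_empty, Nat.cast_zero]
    positivity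
  have hN1 : 1 ≤ N₀ := by
    obtain ⟨p, hp⟩ := hne
    obtain ⟨-, e2, e3, -⟩ := p1_facts (hZ p hp).2.1 (hZ p hp).2.2
    omega
  set T := (Z ×ˢ Z).filter (fun p => sqd p.1.2 p.2.2 ≤ X) with hT
  set T₁ := (Z ×ˢ Z).filter (fun p => (dt p.1.2 p.2.2) ^ 2 =
    (p1n N₀ p.1.1 : ℤ) * p1n N₀ p.2.1) with hT₁
  set A' := A.filter (fun m => 1 ≤ p1n N₀ m ∧ p1n N₀ m ≤ N₀) with hA'
  set N : ℤ × ℤ → Finset ((ℤ × ℤ × ℤ) × (ℤ × ℤ × ℤ)) := fun c =>
    ((S3 (p1n N₀ c.1)) ×ˢ (S3 (p1n N₀ c.2))).filter (fun p =>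
      0 < (p1n N₀ c.1 : ℤ) + p1n N₀ c.2 - 2 * dt p.1 p.2 ∧
      (p1n N₀ c.1 : ℤ) + p1n N₀ c.2 - 2 * dt p.1 p.2 ≤ X ∧
      (dt p.1 p.2) ^ 2 < (p1n N₀ c.1 : ℤ) * p1n N₀ c.2) with hN
  set T₂ := (A' ×ˢ A').biUnion (fun c => (N c).image (fun q => ((c.1, q.1), (c.2, q.2)))) with hT₂
  have hsub : T ⊆ T₁ ∪ T₂ := by
    intro p hp
    rw [hT, Finset.mem_filter, Finset.mem_product] at hp
    obtain ⟨⟨p1, p2⟩, p3⟩ := hp
    obtain ⟨-, u2, u3, y1⟩ := p1_facts (hZ _ p1).2.1 (hZ _ p1).2.2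
    obtain ⟨-, v2, v3, y2⟩ := p1_facts (hZ _ p2).2.1 (hZ _ p2).2.2
    rw [Finset.mem_union]
    by_cases hpar : (dt p.1.2 p.2.2) ^ 2 = (p1n N₀ p.1.1 : ℤ) * p1n N₀ p.2.1
    · left
      rw [hT₁, Finset.mem_filter, Finset.mem_product]
      exact ⟨⟨p1, p2⟩, hpar⟩
    · right
      rw [hT₂, Finset.mem_biUnion]
      refine ⟨(p.1.1, p.2.1), Finset.mem_product.2 ⟨?_, ?_⟩, ?_⟩
      · rw [hA', Finset.mem_filter]
        exact ⟨(hZ _ p1).1, u2, u3⟩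
      · rw [hA', Finset.mem_filter]
        exact ⟨(hZ _ p2).1, v2, v3⟩
      rw [Finset.mem_image]
      refine ⟨(p.1.2, p.2.2), ?_, rfl⟩
      rw [hN]
      simp only [Finset.mem_filter, Finset.mem_product]
      refine ⟨⟨y1, y2⟩, ?_, ?_, lt_of_le_of_ne (k3_cs y1 y2) hpar⟩
      · rw [← k3_sqd y1 y2]
        refine lt_of_le_of_ne (k3_sqd_nonneg _ _) fun h0 => hpar ?_
        have he := k3_sqd_zero h0.symm
        have y3 := y1
        rw [he] at y3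
        rw [mem_S3] at y2 y3
        rw [he, ← y3, ← y2]
        unfold dt
        ring
      · rw [← k3_sqd y1 y2]
        exact p3
  have c₁ : (T₁.card : ℝ) ≤ Z.card * (C * (N₀ : ℝ) ^ δ) := by
    have s0 : T₁.card = ∑ x ∈ Z, (Z.filter (fun y => (dt x.2 y.2) ^ 2 =
        (p1n N₀ x.1 : ℤ) * p1n N₀ y.1)).card := by
      rw [hT₁, Finset.card_filter, Finset.sum_product]
      refine Finset.sum_congr rfl fun x _ => ?_
      rw [Finset.card_filter]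
    rw [s0]
    push_cast
    calc (∑ x ∈ Z, ((Z.filter (fun y => (dt x.2 y.2) ^ 2 =
        (p1n N₀ x.1 : ℤ) * p1n N₀ y.1)).card : ℝ)) ≤ ∑ x ∈ Z, C * (N₀ : ℝ) ^ δ := by
          refine Finset.sum_le_sum fun x hx => ?_
          exact p1_parallel N₀ Z (fun p hp => (hZ p hp).2) _
            (fun H hH F hF => hC H N₀ hH hN1 F hF) x hx
      _ = Z.card * (C * (N₀ : ℝ) ^ δ) := by rw [Finset.sum_const, nsmul_eq_mul]
  have c₂ : (T₂.card : ℝ) ≤ (A.card : ℝ) ^ 2 * (K₀ * (N₀ : ℝ) ^ δ * X) := by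
    have s1 : T₂.card ≤ ∑ c ∈ A' ×ˢ A', (N c).card := by
      refine Finset.card_biUnion_le.trans (Finset.sum_le_sum fun c _ => Finset.card_image_le)
    have s2 : (T₂.card : ℝ) ≤ ∑ c ∈ A' ×ˢ A', ((N c).card : ℝ) := by exact_mod_cast s1
    refine s2.trans ?_
    have s3 : ∀ c ∈ A' ×ˢ A', ((N c).card : ℝ) ≤ K₀ * (N₀ : ℝ) ^ δ * X := by
      intro c hc
      rw [Finset.mem_product, hA', Finset.mem_filter, Finset.mem_filter] at hc
      obtain ⟨⟨-, n1, n2⟩, -, m1, m2⟩ := hc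
      exact h₀ (p1n N₀ c.1) (p1n N₀ c.2) N₀ X n1 m1 n2 m2
    refine (Finset.sum_le_sum s3).trans ?_
    rw [Finset.sum_const, Finset.card_product, nsmul_eq_mul]
    have hA2 : (A'.card : ℝ) ≤ A.card := by
      exact_mod_cast Finset.card_filter_le _ _
    have hn : 0 ≤ K₀ * (N₀ : ℝ) ^ δ * X := by positivity
    push_cast
    calc (A'.card : ℝ) * A'.card * (K₀ * (N₀ : ℝ) ^ δ * X)
        ≤ (A.card : ℝ) * A.card * (K₀ * (N₀ : ℝ) ^ δ * X) := by gcongr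
      _ = (A.card : ℝ) ^ 2 * (K₀ * (N₀ : ℝ) ^ δ * X) := by ring
  have c₃ : (T.card : ℝ) ≤ T₁.card + T₂.card := by
    have := (Finset.card_le_card hsub).trans (Finset.card_union_le _ _)
    exact_mod_cast this
  have hr0 : 0 ≤ (N₀ : ℝ) ^ δ := by positivity
  calc (T.card : ℝ) ≤ Z.card * (C * (N₀ : ℝ) ^ δ) +
        (A.card : ℝ) ^ 2 * (K₀ * (N₀ : ℝ) ^ δ * X) := by linarith
    _ = C * (N₀ : ℝ) ^ δ * Z.card + K₀ * (N₀ : ℝ) ^ δ * ((A.card : ℝ) ^ 2 * X) := by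
        ring
    _ ≤ (C + K₀) * (N₀ : ℝ) ^ δ * (Z.card + (A.card : ℝ) ^ 2 * X) := by
        have q1 : 0 ≤ K₀ * (N₀ : ℝ) ^ δ * Z.card := by positivity
        have q2 : 0 ≤ C * (N₀ : ℝ) ^ δ * ((A.card : ℝ) ^ 2 * X) := by positivity
        nlinarith

/-! ### energy -/

lemma p1_card {N₀ : ℕ} {Z : Finset (ℤ × (ℤ × ℤ × ℤ))}
    (hZ : ∀ p ∈ Z, p.1 ^ 2 + dt p.2 p.2 = N₀ ∧ p.2 ≠ 0) : Z.card ≤ (2 * N₀ + 1) ^ 4 := by
  classical
  set I := Finset.Icc (-(N₀ : ℤ)) N₀ with hI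
  have hsub : Z ⊆ I ×ˢ (I ×ˢ (I ×ˢ I)) := by
    intro p hp
    obtain ⟨h1, -⟩ := hZ p hp
    unfold dt at h1
    have s0 := sq_nonneg p.1
    have s1 := mul_self_nonneg p.2.1
    have s2 := mul_self_nonneg p.2.2.1
    have s3 := mul_self_nonneg p.2.2.2
    have hb : ∀ x : ℤ, x * x ≤ N₀ → x ∈ I := by
      intro x hx
      rw [hI, Finset.mem_Icc]
      constructor
      · by_contra hc
        push Not at hc
        nlinarith [Int.natCast_nonneg N₀]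
      · by_contra hc
        push Not at hc
        nlinarith [Int.natCast_nonneg N₀]
    rw [Finset.mem_product, Finset.mem_product, Finset.mem_product]
    exact ⟨hb _ (by nlinarith), hb _ (by nlinarith), hb _ (by nlinarith), hb _ (by nlinarith)⟩
  have h := Finset.card_le_card hsub
  rw [Finset.card_product, Finset.card_product, Finset.card_product, hI, Int.card_Icc] at h
  have : ((N₀ : ℤ) + 1 - -(N₀ : ℤ)).toNat = 2 * N₀ + 1 := by omega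
  rw [this] at h
  refine h.trans (le_of_eq ?_)
  ring

/-- the logarithmic factor is absorbed -/
lemma p1_log (δ : ℝ) (hδ : 0 < δ) (N₀ N M : ℕ) (h0 : 1 ≤ N₀) (hN : 2 ≤ N)
    (hM : M ≤ (2 * N₀ + 1) ^ 4) :
    64 * (Real.log ((M : ℝ) + 1) + Real.log N) ≤
      (64 * (162 + 4 / (δ / 2))) * ((N₀ : ℝ) * N) ^ (δ / 2) := by
  have hN' : (2 : ℝ) ≤ N := by exact_mod_cast hN
  have h5 : (1 : ℝ) ≤ (N₀ : ℝ) := by exact_mod_cast h0
  have hM' : (M : ℝ) ≤ (2 * (N₀ : ℝ) + 1) ^ 4 := by exact_mod_cast hM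
  have hM2 : (M : ℝ) + 1 ≤ 162 * (N₀ : ℝ) ^ 4 := by
    have h1 : (2 * (N₀ : ℝ) + 1) ^ 4 ≤ (3 * (N₀ : ℝ)) ^ 4 := by
      gcongr
      linarith
    have h2 : (1 : ℝ) ≤ (N₀ : ℝ) ^ 4 := one_le_pow₀ h5
    nlinarith
  set Y : ℝ := (N₀ : ℝ) * N with hY
  have hY1 : 1 ≤ Y := by nlinarith
  have hlog1 : Real.log ((M : ℝ) + 1) ≤ Real.log 162 + 4 * Real.log (N₀ : ℝ) := by
    have := Real.log_le_log (by positivity) hM2
    rwa [Real.log_mul (by norm_num) (by positivity), Real.log_pow] at this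
  have hlogN : 0 ≤ Real.log (N : ℝ) := Real.log_nonneg (by linarith)
  have hlogY : Real.log Y = Real.log (N₀ : ℝ) + Real.log N := by
    rw [hY, Real.log_mul (by positivity) (by positivity)]
  have hd : 0 < δ / 2 := by positivity
  have hlog2 : Real.log Y ≤ Y ^ (δ / 2) / (δ / 2) := Real.log_le_rpow_div (by linarith) hd
  have hlog3 : Real.log 162 ≤ 162 := by
    have := Real.log_le_sub_one_of_pos (show (0 : ℝ) < 162 by norm_num)
    linarith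
  have hP : 1 ≤ Y ^ (δ / 2) := Real.one_le_rpow hY1 hd.le
  have h4 : 4 * Real.log Y ≤ 4 / (δ / 2) * Y ^ (δ / 2) := by
    have : 4 / (δ / 2) * Y ^ (δ / 2) = 4 * (Y ^ (δ / 2) / (δ / 2)) := by ring
    rw [this]
    linarith
  nlinarith

/-- TARGET 2 -/
theorem wenergy (δ : ℝ) (hδ : 0 < δ) : ∃ K : ℝ, 0 < K ∧ ∀ (N₀ : ℕ) (A : Finset ℤ)
    (Z : Finset (ℤ × (ℤ × ℤ × ℤ))), (∀ p ∈ Z, p.1 ∈ A ∧ p.1 ^ 2 + dt p.2 p.2 = N₀ ∧ p.2 ≠ 0) →
    ∀ N : ℕ, 2 ≤ N → ∀ B W : ℝ, 0 ≤ B → 0 ≤ W → (∀ p ∈ Z, (dt p.2 p.2 : ℝ) ≤ B) →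
    (∀ p ∈ Z, ∀ p' ∈ Z, (Real.sqrt (dt p.2 p.2) - Real.sqrt (dt p'.2 p'.2)) ^ 2 ≤ W) →
    ∀ yh : ℤ × (ℤ × ℤ × ℤ) → S 3,
    (∀ p ∈ Z, ∀ p' ∈ Z, inner ℝ (yh p : E 3) (yh p' : E 3) =
      (dt p.2 p'.2 : ℝ) / (Real.sqrt (dt p.2 p.2) * Real.sqrt (dt p'.2 p'.2))) →
    (∑ p ∈ Z, ∑ p' ∈ Z, k2 N (yh p) (yh p')) ≤
      K * ((N₀ : ℝ) * N) ^ δ * (N * Z.card + (A.card : ℝ) ^ 2 * (B + N * W)) := by
  classical
  obtain ⟨K1, hK1, hwp⟩ := wpairs (δ / 2) (by positivity)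
  set C : ℝ := 64 * (162 + 4 / (δ / 2)) with hC
  have hCpos : 0 < C := by positivity
  refine ⟨1 + K1 + K1 * C, by positivity, ?_⟩
  intro N₀ A Z hZ N hN B W hB hW hBd hWd yh hyh
  have hN' : (2 : ℝ) ≤ N := by exact_mod_cast hN
  rcases Z.eq_empty_or_nonempty with he | hne
  · rw [he]
    simp only [Finset.sum_empty, Finset.card_empty, Nat.cast_zero, mul_zero, zero_add]
    positivity
  have hZ' : ∀ p ∈ Z, p.1 ^ 2 + dt p.2 p.2 = N₀ ∧ p.2 ≠ 0 := fun p hp => (hZ p hp).2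
  have hdpos : ∀ p ∈ Z, (1 : ℝ) ≤ (dt p.2 p.2 : ℝ) := by
    intro p hp
    obtain ⟨e1, e2, -, -⟩ := p1_facts (hZ' p hp).1 (hZ' p hp).2
    have : (1 : ℤ) ≤ dt p.2 p.2 := by rw [← e1]; exact_mod_cast e2
    exact_mod_cast this
  have hN01 : 1 ≤ N₀ := by
    obtain ⟨p, hp⟩ := hne
    obtain ⟨-, e2, e3, -⟩ := p1_facts (hZ' p hp).1 (hZ' p hp).2
    omega
  have h5 : (1 : ℝ) ≤ (N₀ : ℝ) := by exact_mod_cast hN01
  have hB1 : 1 ≤ B := by
    obtain ⟨p, hp⟩ := hne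
    exact (hdpos p hp).trans (hBd p hp)
  set M : ℕ := Z.card with hM
  have hMle : M ≤ (2 * N₀ + 1) ^ 4 := p1_card hZ'
  set Y : ℝ := (N₀ : ℝ) * N with hY
  have hY1 : 1 ≤ Y := by nlinarith
  set P : ℝ := Y ^ (δ / 2) with hPdef
  have hP1 : 1 ≤ P := Real.one_le_rpow hY1 (by positivity)
  have hPP : Y ^ δ = P * P := by
    rw [hPdef, ← Real.rpow_add (by linarith)]
    congr 1
    ring
  have hM1 : 1 ≤ M := by
    rw [hM]
    exact Finset.card_pos.mpr hne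
  have hM1' : (1 : ℝ) ≤ M := by exact_mod_cast hM1
  set Lg : ℝ := Real.log ((M : ℝ) + 1) + Real.log N with hLg
  have hLg0 : 0 ≤ Lg := by
    have h1 : 0 ≤ Real.log ((M : ℝ) + 1) := Real.log_nonneg (by linarith)
    have h2 : 0 ≤ Real.log (N : ℝ) := Real.log_nonneg (by linarith)
    linarith
  set t : ℝ := 16 * (2 * Lg) / (N - 1) with ht
  have hN1 : (0 : ℝ) < (N : ℝ) - 1 := by linarith
  have ht0 : 0 ≤ t := by rw [ht]; positivity
  have hNt : N * t ≤ C * P := by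
    have h1 : N * t ≤ 64 * Lg := by
      rw [ht, ← mul_div_assoc, div_le_iff₀ hN1]
      nlinarith
    exact h1.trans (p1_log δ hδ N₀ N M hN01 hN hMle)
  set X : ℕ := ⌊W + B * t⌋₊ with hX
  have hX0 : 0 ≤ W + B * t := by positivity
  have hXle : (X : ℝ) ≤ W + B * t := Nat.floor_le hX0
  -- pointwise estimate
  have hpt : ∀ p ∈ Z, ∀ p' ∈ Z, k2 N (yh p) (yh p') ≤
      1 / ((M : ℝ) * M) + (if sqd p.2 p'.2 ≤ X then (N : ℝ) else 0) := by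
    intro p hp p' hp'
    have hn1 := hdpos p hp
    have hn1' := hdpos p' hp'
    have hk := (k2_le N (by omega) (yh p) (yh p')).2
    set c : ℝ := inner ℝ (yh p : E 3) (yh p' : E 3) with hc
    have hc1 : c ≤ 1 := by
      have h := real_inner_le_norm (yh p : E 3) (yh p' : E 3)
      rw [norm_eq_of_mem_sphere, norm_eq_of_mem_sphere] at h
      simpa using h
    have hcc := hyh p hp p' hp'
    rw [← hc] at hcc
    have hs1 : 0 < Real.sqrt (dt p.2 p.2) := Real.sqrt_pos.mpr (by linarith)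
    have hs2 : 0 < Real.sqrt (dt p'.2 p'.2) := Real.sqrt_pos.mpr (by linarith)
    have hq1 : Real.sqrt (dt p.2 p.2) ^ 2 = dt p.2 p.2 := Real.sq_sqrt (by linarith)
    have hq2 : Real.sqrt (dt p'.2 p'.2) ^ 2 = dt p'.2 p'.2 := Real.sq_sqrt (by linarith)
    have hb1 := hBd p hp
    have hb2 := hBd p' hp'
    have hWp := hWd p hp p' hp'
    have hsq0 : ((sqd p.2 p'.2 : ℤ) : ℝ) = (dt p.2 p.2 : ℝ) + dt p'.2 p'.2 - 2 * dt p.2 p'.2 := by
      unfold sqd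
      push_cast
      ring
    rw [← hq1] at hb1
    rw [← hq2] at hb2
    rw [← hq1, ← hq2] at hsq0
    set r : ℝ := Real.sqrt (dt p.2 p.2) with hr
    set r' : ℝ := Real.sqrt (dt p'.2 p'.2) with hr'
    have hdt : (dt p.2 p'.2 : ℝ) = c * (r * r') := near_aux c r r' _ hs1 hs2 hcc
    have hrr : r * r' ≤ B := by nlinarith [sq_nonneg (r - r')]
    have hsq : ((sqd p.2 p'.2 : ℤ) : ℝ) = (r - r') ^ 2 + (r * r') * (2 - 2 * c) := by
      rw [hsq0, hdt]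
      ring
    by_cases hfar : t ≤ 2 - 2 * c
    · -- far
      have h1 : k2 N (yh p) (yh p') ≤ 1 / ((M : ℝ) * M) :=
        (hk.trans (min_le_right _ _)).trans
          (far_aux M N Lg (2 - 2 * c) t (by linarith) hN' hLg ht hfar)
      have h7 : (0 : ℝ) ≤ (if sqd p.2 p'.2 ≤ X then (N : ℝ) else 0) := by
        split_ifs <;> positivity
      linarith
    · -- near
      push Not at hfar
      have h1 : k2 N (yh p) (yh p') ≤ N := hk.trans (min_le_left _ _)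
      have h2 : ((sqd p.2 p'.2 : ℤ) : ℝ) ≤ W + B * t := by
        rw [hsq]
        have h3 : (r * r') * (2 - 2 * c) ≤ B * t := by
          apply mul_le_mul hrr hfar.le (by linarith) (by positivity)
        linarith
      have h3 : sqd p.2 p'.2 ≤ X := by
        have h0 : 0 ≤ sqd p.2 p'.2 := k3_sqd_nonneg _ _
        obtain ⟨n, hn⟩ := Int.eq_ofNat_of_zero_le h0
        rw [hn] at h2 ⊢
        have h4 : n ≤ X := by
          rw [hX]
          apply Nat.le_floor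
          simpa using h2
        exact_mod_cast h4
      rw [if_pos h3]
      have h9 : 0 ≤ 1 / ((M : ℝ) * M) :=
        one_div_nonneg.mpr (mul_nonneg (by linarith) (by linarith))
      linarith
  -- summation
  have hsum : (∑ p ∈ Z, ∑ p' ∈ Z, k2 N (yh p) (yh p')) ≤
      1 + N * (((Z ×ˢ Z).filter (fun p => sqd p.1.2 p.2.2 ≤ X)).card : ℝ) := by
    calc (∑ p ∈ Z, ∑ p' ∈ Z, k2 N (yh p) (yh p'))
        ≤ ∑ p ∈ Z, ∑ p' ∈ Z,
          (1 / ((M : ℝ) * M) + (if sqd p.2 p'.2 ≤ X then (N : ℝ) else 0)) := by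
          apply Finset.sum_le_sum
          intro p hp
          apply Finset.sum_le_sum
          intro p' hp'
          exact hpt p hp p' hp'
      _ = 1 + N * (((Z ×ˢ Z).filter (fun p => sqd p.1.2 p.2.2 ≤ X)).card : ℝ) := by
          simp only [Finset.sum_add_distrib, Finset.sum_const, nsmul_eq_mul]
          have hS := Finset.sum_product Z Z
            (fun q => if sqd q.1.2 q.2.2 ≤ (X : ℤ) then (N : ℝ) else 0)
          simp only at hS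
          rw [← hM, ← hS, ← Finset.sum_filter, Finset.sum_const, nsmul_eq_mul]
          have hMM : (M : ℝ) * (M * (1 / ((M : ℝ) * M))) = 1 := mm_aux M hM1'
          rw [hMM]
          ring
  have hpairs := hwp N₀ A Z hZ X
  have hP5 : (N₀ : ℝ) ^ (δ / 2) ≤ P := by
    rw [hPdef, hY]
    apply Real.rpow_le_rpow (by positivity) _ (by positivity)
    nlinarith
  have hA2 : (0 : ℝ) ≤ (A.card : ℝ) ^ 2 := by positivity
  have hcard : (((Z ×ˢ Z).filter (fun p => sqd p.1.2 p.2.2 ≤ X)).card : ℝ) ≤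
      K1 * P * (M + (A.card : ℝ) ^ 2 * (W + B * t)) := by
    refine hpairs.trans ?_
    gcongr
  refine hsum.trans ?_
  rw [hPP]
  exact final_aux N M W B t P K1 C ((A.card : ℝ) ^ 2) _ hN' hM1' hW hB1 hP1 hK1 hCpos
    hA2 hNt hcard

end Pool.Agent.H978V
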