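import Pool.Agent.H978V.NDefs
import Pool.Agent.H978V.SDefs
import Pool.Agent.H978V.K5

/-!
JOB P3 (owner helper978, MP_06cce2_nt).  `H978V/*.lean` (library, with `SDefs`, `Q/*.lean`, `K5`) is on origin/main.

Chebyshev's inequality with the spectral gap of the gates on the product of the two-sphere and the vectors modulo `D`.  READ `H978V/K5.lean` (`avg_point`, the case `D = 1`) and `H978V/Q/G10.lean` (`mixing`, `mx_pow`, `mxL`, `mxU`).

PROOF.  `l₁` from `Q.gap_unif R hR` (`Q/G9.lean`), `κ = (6 + l₁)/12`.  `F₀ = F - T • mxU D`: admissible, `tot F₀ = 0` (`tot (mxU D) = NU D`), `ip F₀ F₀ ≤ ip F F`.  `mx_pow`: `ip (mxL^i F₀)(mxL^i F₀) ≤ (6+l₁)^(2i) ip F₀ F₀` (or with square roots).  `mxL^i F = 12^i T • mxU D + mxL^i F₀`.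
For `u = e` unimodular: `∫ ((mxL^i F e)(x)/12^i - T)² dx ≤ ip (mxL^i F₀)(mxL^i F₀)/12^(2i) ≤ κ^(2i) ip F F` (one term of the sum over `u`; all terms are nonnegative).
If `F ((Q.Ph t (qw w)).mulVec e) (rot (R (uw w)) x) < T/2` for all words of length `≤ i` then `(mxL^i F e)(x) < 12^i T/2` (as in `K5`/`mx_words`: `actw R t w F u x = F ((Q.Ph t (qw w)).mulVec u) (rot (R (uw w)) x)`), so `(.. - T)² > T²/4` there; Markov's inequality.
-/

set_option autoImplicit false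

open MeasureTheory Set
open scoped Quaternion

namespace Pool.Agent.H978V

open Pool.Agent.Helper557.Rz

section avgd

/-- pointwise version of `Q.mx_words` -/
lemma apd_words {D : ℕ} [NeZero D] {R : ℍ[ℝ]ˣ →* Iso 3} {t : ZMod D × ZMod D} (ht : Q.Sq t) {c : ℝ}
    (v : Vec D) (x : S 3) (i : ℕ) :
    ∀ F : Vec D → C(S 3, ℝ), (∀ w : List (Fin 6), w.length ≤ i → Q.actw R t w F v x < c) →
      ((Q.mxL R t ^ i) F) v x < 12 ^ i * c := by
  induction i with
  | zero =>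
    intro F h
    have := h [] (le_refl _)
    rw [Q.mx_actw_nil] at this
    simpa using this
  | succ i ih =>
    intro F h
    rw [pow_succ, Module.End.mul_apply, Q.mxL_apply, map_add, map_smul, map_sum, Pi.add_apply,
      Pi.smul_apply, Finset.sum_apply, ContinuousMap.add_apply, ContinuousMap.smul_apply,
      ContinuousMap.sum_apply, smul_eq_mul]
    have h1 := ih F fun w hw => h w (by omega)
    have h2 : ∀ a : Fin 6, ((Q.mxL R t ^ i) (Q.mxg R t a F)) v x < 12 ^ i * c := fun a =>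
      ih _ fun w hw => by
        rw [Q.mx_actw ht]
        exact h _ (by simp; omega)
    have h3 := Finset.sum_lt_sum_of_nonempty (s := (Finset.univ : Finset (Fin 6)))
      Finset.univ_nonempty fun a _ => h2 a
    rw [Finset.sum_const, Finset.card_univ, Fintype.card_fin, nsmul_eq_mul] at h3
    push_cast at h3
    rw [pow_succ]
    linarith

lemma apd_U {D : ℕ} {v : Vec D} (hv : Uni v) (x : S 3) : Q.mxU D v x = 1 := by
  unfold Q.mxU
  rw [if_pos hv]
  rfl

lemma apd_term {D : ℕ} [NeZero D] (F : Vec D → C(S 3, ℝ)) (v : Vec D) :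
    ∫ x, F v x * F v x ∂(sg 3) ≤ ip F F := by
  unfold ip
  exact Finset.single_le_sum (f := fun v : Vec D => ∫ x, F v x * F v x ∂(sg 3))
    (fun u _ => integral_nonneg fun x => mul_self_nonneg _) (Finset.mem_univ v)

end avgd

/-- TARGET -/
theorem avg_point_D (R : ℍ[ℝ]ˣ →* Iso 3) (hR : IsRot R) : ∃ κ : ℝ, 0 < κ ∧ κ < 1 ∧
    ∀ (D : ℕ) [NeZero D], Odd D → Nat.Coprime D 5 → ∀ t : ZMod D × ZMod D, Q.Sq t →
    ∀ F : Vec D → C(S 3, ℝ), AdmF F → ∀ T : ℝ, 0 < T → tot F = T * NU D → ∀ e : Vec D, Uni e → ∀ i : ℕ,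
    (sg 3).real {x | ∀ w : List (Fin 6), w.length ≤ i →
        F ((Q.Ph t (qw w)).mulVec e) (rot (R (uw w)) x) < T / 2} ≤
      4 * κ ^ (2 * i) * (ip F F) / T ^ 2 := by
  haveI := sg_prob 3 (by norm_num)
  obtain ⟨l₁, h0, h6, hgap⟩ := Q.gap_unif R hR
  refine ⟨(6 + l₁) / 12, by linarith, by linarith, ?_⟩
  intro D _ hodd h5 t ht F hF T hT hFT e he i
  have hN := Q.mx_NU_pos D
  set f : Vec D → C(S 3, ℝ) := F - T • Q.mxU D with hf
  have htU : tot (Q.mxU D) = NU D := by rw [← Q.mx_NU D, Q.mx_ip_U Q.mxU_adm]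
  have e0 : f = F + (-T) • Q.mxU D := by rw [hf, neg_smul, sub_eq_add_neg]
  have hadm : AdmF f := by
    rw [e0]
    exact Q.mx_adm_add hF (Q.mx_adm_smul _ Q.mxU_adm)
  have htot : tot f = 0 := by
    rw [e0, Q.mx_tot_add, Q.mx_tot_smul, htU, hFT]
    ring
  have hgap' : ∀ F : Vec D → C(S 3, ℝ), AdmF F → tot F = 0 →
      ip (Q.mxL R t F) F ≤ (6 + l₁) * ip F F := by
    intro F hF hF0
    have := hgap D hodd h5 t ht F hF hF0
    rw [Q.mxL_apply, Q.mx_ip_add, Q.mx_ip_smul, ← Q.mx_TF]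
    linarith
  obtain ⟨-, -, h2⟩ := Q.mx_pow hR ht h5 (c := 6 + l₁) (by linarith) hgap' hadm htot i
  have hc : (0 : ℝ) < 6 + l₁ := by linarith
  -- squared form
  have h2' : ip ((Q.mxL R t ^ i) f) ((Q.mxL R t ^ i) f) ≤ (6 + l₁) ^ (2 * i) * ip f f := by
    have h3 := mul_self_le_mul_self (Real.sqrt_nonneg _) h2
    rw [Real.mul_self_sqrt (Q.mx_ip_nonneg _)] at h3
    calc ip ((Q.mxL R t ^ i) f) ((Q.mxL R t ^ i) f)
        ≤ ((6 + l₁) ^ i * Real.sqrt (ip f f)) * ((6 + l₁) ^ i * Real.sqrt (ip f f)) := h3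
      _ = (6 + l₁) ^ (2 * i) * (Real.sqrt (ip f f) * Real.sqrt (ip f f)) := by ring
      _ = (6 + l₁) ^ (2 * i) * ip f f := by rw [Real.mul_self_sqrt (Q.mx_ip_nonneg _)]
  have h3 : ip f f ≤ ip F F := by
    have e1 : ip F (Q.mxU D) = tot F := by rw [Q.mx_ip_comm, Q.mx_ip_U hF]
    rw [hf, Q.mx_ip_sub, Q.mx_ip_sub_right, Q.mx_ip_sub_right, Q.mx_ip_smul, Q.mx_ip_smul,
      Q.mx_ip_smul_right, Q.mx_ip_smul_right, Q.mx_NU, Q.mx_ip_U hF, e1, hFT]
    have e4 : 0 ≤ T * (T * (NU D : ℝ)) := by positivity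
    linarith
  have e5 : F = f + T • Q.mxU D := by rw [hf, sub_add_cancel]
  -- pointwise
  set g : C(S 3, ℝ) := ((Q.mxL R t ^ i) f) e with hg
  have hpt : ∀ x : S 3, (∀ w : List (Fin 6), w.length ≤ i →
      F ((Q.Ph t (qw w)).mulVec e) (rot (R (uw w)) x) < T / 2) →
      (144 : ℝ) ^ i * (T ^ 2 / 4) ≤ g x * g x := by
    intro x hx
    have h7 := apd_words (R := R) (t := t) ht (c := T / 2) e x i F (fun w hw => by
      unfold Q.actw
      exact hx w hw)
    rw [e5, map_add, map_smul, Q.mxU_pow ht h5, Pi.add_apply, Pi.smul_apply, Pi.smul_apply,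
      ContinuousMap.add_apply, ContinuousMap.smul_apply, ContinuousMap.smul_apply, apd_U he,
      ← hg] at h7
    simp only [smul_eq_mul, mul_one] at h7
    have h8 : (12 : ℝ) ^ i * (T / 2) ≤ - g x := by linarith
    have h9 : (0 : ℝ) ≤ 12 ^ i * (T / 2) := by positivity
    have h10 := mul_self_le_mul_self h9 h8
    have h11 : (144 : ℝ) ^ i = 12 ^ i * 12 ^ i := by
      rw [← mul_pow]; norm_num
    rw [h11]
    nlinarith
  have hint : Integrable (fun x => g x * g x) (sg 3) := by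
    have := intc (g * g)
    simpa using this
  have hmk := mul_meas_ge_le_integral_of_nonneg (μ := sg 3) (f := fun x => g x * g x)
    (Filter.Eventually.of_forall fun x => mul_self_nonneg _) hint ((144 : ℝ) ^ i * (T ^ 2 / 4))
  have hsub : (sg 3).real {x | ∀ w : List (Fin 6), w.length ≤ i →
      F ((Q.Ph t (qw w)).mulVec e) (rot (R (uw w)) x) < T / 2} ≤
      (sg 3).real {x | (144 : ℝ) ^ i * (T ^ 2 / 4) ≤ g x * g x} :=
    measureReal_mono (fun x hx => hpt x hx)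
  have hpos : (0 : ℝ) < 144 ^ i * (T ^ 2 / 4) := by positivity
  have hfin : 144 ^ i * (T ^ 2 / 4) *
      (sg 3).real {x | ∀ w : List (Fin 6), w.length ≤ i →
        F ((Q.Ph t (qw w)).mulVec e) (rot (R (uw w)) x) < T / 2} ≤
      (6 + l₁) ^ (2 * i) * ip F F := by
    calc _ ≤ 144 ^ i * (T ^ 2 / 4) * (sg 3).real {x | (144 : ℝ) ^ i * (T ^ 2 / 4) ≤ g x * g x} :=
          mul_le_mul_of_nonneg_left hsub hpos.le
      _ ≤ ∫ x, g x * g x ∂(sg 3) := hmk
      _ ≤ ip ((Q.mxL R t ^ i) f) ((Q.mxL R t ^ i) f) := apd_term _ e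
      _ ≤ (6 + l₁) ^ (2 * i) * ip f f := h2'
      _ ≤ _ := mul_le_mul_of_nonneg_left h3 (by positivity)
  rw [le_div_iff₀ (by positivity), div_pow]
  have h12 : (12 : ℝ) ^ (2 * i) = 144 ^ i := by
    rw [pow_mul]; norm_num
  rw [h12]
  have h144 : (0 : ℝ) < 144 ^ i := by positivity
  have e7 : 4 * ((6 + l₁) ^ (2 * i) / 144 ^ i) * (ip F F) =
      4 * ((6 + l₁) ^ (2 * i) * ip F F) / 144 ^ i := by
    ring
  rw [e7, le_div_iff₀ h144]
  linarith

end Pool.Agent.H978V
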