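import Pool.Agent.H978V.NDefs
import Pool.Agent.H978V.SDefs
import Pool.Agent.H978V.K6
import Pool.Agent.H978V.M5
import Pool.Agent.H978V.M7
import Pool.Agent.H978V.L11a
import Pool.Agent.H978V.L2

/-!
JOB P4 (owner helper978, MP_06cce2_nt).  `H978V/*.lean` (library, with `M7`, `L11a`, `K6`) is on origin/main.

From a large value of the kernel at a matching line to a word.  READ step (C) of the proof of `hit_g` in `H978V/M7.lean` and `point_word` in `H978V/K6.lean`.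

PROOF.  Let `γ = (w.map (· + 3)).reverse` (see `M7`: `qw γ = star (qw w)`, `γ.length = w.length`).  `Ph t (qw w) e = a • u` implies (multiply by `Ph t (star (qw w))`, `star (qw w) * qw w = 5^|w|`, `5` a unit) `Ph t (qw γ) u = unit • e`; the image of `Ph t (mq m y)` is in `(ZMod D) u`, and `Ph t v e = 0`, so
`Ph t (v * (qw γ * mq m y)) = 0`, i.e. `DvdQ D (v * (qw γ * mq m y))` (`Q.Ph_zero`, `D` odd).  `close_hole` (`L11a`) with `g = γ`: `q` and `qh (4k + 2|w|) q = vh v * (m/√N₀ + (√n/√N₀) • rt γ (hat n y))`; `r' = rt γ (hat n y)` (`UP`, `rt_up` in `L2.lean`; `UP (hat n y)` as `n ≥ 1`).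
`rt γ (hat n y) = imq (rot (R (uw w))⁻¹ yh)`-like (`hit_uw`, `hit_uwinv` in `H2.lean`; see `K6`), so `‖r' - imq x‖ = dist (rot (R (uw w)) x) yh`; `kk N a b = N (1 - |a-b|²/4)^(N-1) ≤ N exp (-(N-1)|a-b|²/4)` and `kk ≥ 1/(2D²)` give `|a-b|² ≤ 4 log (2 D² N)/(N-1)` (as `kk_close` in `K6`).
-/

set_option autoImplicit false

open MeasureTheory Set
open scoped Quaternion

namespace Pool.Agent.H978V

open Pool.Agent.Helper557.Rz


/-- the distance from a large value of the kernel -/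
lemma p4_close (N D : ℕ) (hN : 2 ≤ N) (hD : 1 ≤ D) (x y : S 3)
    (h : 1 / (2 * (D : ℝ) ^ 2) ≤ kk N x y) :
    dist x y ^ 2 ≤ 4 * Real.log (2 * (D : ℝ) ^ 2 * N) / (N - 1) := by
  have hN' : (2 : ℝ) ≤ N := by exact_mod_cast hN
  have hD' : (1 : ℝ) ≤ D := by exact_mod_cast hD
  have h1 : (0 : ℝ) < (N : ℝ) - 1 := by linarith
  have hu : Pool.Agent.Helper557.Rz.u x y = 1 - dist x y ^ 2 / 4 := by
    have := dist_sq_u x y
    linarith
  have hu0 : 0 ≤ Pool.Agent.Helper557.Rz.u x y := by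
    unfold Pool.Agent.Helper557.Rz.u
    have hin : |inner ℝ (x : E 3) (y : E 3)| ≤ ‖(x : E 3)‖ * ‖(y : E 3)‖ :=
      abs_real_inner_le_norm _ _
    rw [norm_eq_of_mem_sphere, norm_eq_of_mem_sphere, mul_one] at hin
    have := (abs_le.1 hin).1
    linarith
  have hle : Pool.Agent.Helper557.Rz.u x y ≤ Real.exp (-(dist x y ^ 2 / 4)) := by
    rw [hu]
    have := Real.add_one_le_exp (-(dist x y ^ 2 / 4))
    linarith
  have hpow : Pool.Agent.Helper557.Rz.u x y ^ (N - 1) ≤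
      Real.exp (-(((N : ℝ) - 1) * (dist x y ^ 2 / 4))) := by
    refine (pow_le_pow_left₀ hu0 hle (N - 1)).trans (le_of_eq ?_)
    rw [← Real.exp_nat_mul]
    congr 1
    rw [Nat.cast_sub (by omega : 1 ≤ N)]
    push_cast
    ring
  have h2 : 1 / (2 * (D : ℝ) ^ 2) ≤
      (N : ℝ) * Real.exp (-(((N : ℝ) - 1) * (dist x y ^ 2 / 4))) := by
    refine h.trans ?_
    unfold kk
    exact mul_le_mul_of_nonneg_left hpow (by positivity)
  rw [Real.exp_neg] at h2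
  have he : 0 < Real.exp (((N : ℝ) - 1) * (dist x y ^ 2 / 4)) := Real.exp_pos _
  have h3 : Real.exp (((N : ℝ) - 1) * (dist x y ^ 2 / 4)) ≤ 2 * (D : ℝ) ^ 2 * N := by
    rw [← div_eq_mul_inv, div_le_div_iff₀ (by positivity) he] at h2
    linarith
  have h4 : ((N : ℝ) - 1) * (dist x y ^ 2 / 4) ≤ Real.log (2 * (D : ℝ) ^ 2 * N) := by
    rw [Real.le_log_iff_exp_le (by positivity)]
    exact h3
  rw [le_div_iff₀ h1]
  linarith

lemma p4_up (n : ℕ) (hn1 : 1 ≤ n) (y : ℤ × ℤ × ℤ) (yh : S 3)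
    (hyh : imq (yh : E 3) = hat n y) : UP (hat n y) := by
  refine ⟨?_, ?_⟩
  · unfold hat
    rw [Quaternion.re_smul]
    simp [cz, pq]
  · rw [← hyh]
    have h1 := hg_imq_norm (yh : E 3)
    have h2 : ‖(yh : E 3)‖ = 1 := mem_sphere_zero_iff_norm.1 yh.2
    rw [h2, one_pow] at h1
    have h3 := norm_nonneg (imq (yh : E 3))
    nlinarith

/-- TARGET -/
theorem point_hit (R : ℍ[ℝ]ˣ →* Iso 3) (hR : IsRot R) (v : ℍ[ℤ]) (hv : PrimQ v) (c : ℤ) (D : ℕ) [NeZero D]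
    (hc : c = 1 ∨ c = 2 ∨ c = 4) (hD : Odd D) (h5 : Nat.Coprime D 5) (hN : Quaternion.normSq v = c * D)
    (t : ZMod D × ZMod D) (ht : Q.Sq t) (e : Vec D) (hve : (Q.Ph t v).mulVec e = 0)
    (k : ℕ) (m : ℤ) (n : ℕ) (hn : (n : ℤ) = c * D * 5 ^ (4 * k) - m ^ 2) (hn1 : 1 ≤ n) (y : ℤ × ℤ × ℤ)
    (hy : y ∈ ZS v c D m n) (u : Vec D) (hu : ∀ z : Vec D, ∃ s : ZMod D, (Q.Ph t (mq m y)).mulVec z = s • u)
    (w : List (Fin 6)) (hline : ∃ a : (ZMod D)ˣ, (Q.Ph t (qw w)).mulVec e = (a : ZMod D) • u)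
    (x yh : S 3) (hyh : imq (yh : E 3) = (Real.sqrt n)⁻¹ • cz (pq y)) (N : ℕ) (hN2 : 2 ≤ N)
    (hk : 1 / (2 * (D : ℝ) ^ 2) ≤ kk N (rot (R (uw w)) x) yh) :
    ∃ (q : ℍ[ℤ]) (r' : ℍ[ℝ]), Gd q ∧ Quaternion.normSq q = 5 ^ (4 * k + 2 * w.length) ∧ UP r' ∧
      qh (4 * k + 2 * w.length) q =
        vh v * (((m / Real.sqrt (c * D * 5 ^ (4 * k)) : ℝ) : ℍ[ℝ]) +
          (Real.sqrt n / Real.sqrt (c * D * 5 ^ (4 * k)) : ℝ) • r') ∧
      ‖r' - imq (x : E 3)‖ ^ 2 ≤ 4 * Real.log (2 * (D : ℝ) ^ 2 * N) / (N - 1) := by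
  classical
  have hD1 : 1 ≤ D := NeZero.one_le
  obtain ⟨γ, hγdef⟩ : ∃ γ : List (Fin 6), γ = w.reverse.map (· + 3) := ⟨_, rfl⟩
  have hγ : qw γ = star (qw w) := by rw [hγdef, j9340_rev]
  have hlen : γ.length = w.length := by rw [hγdef, List.length_map, List.length_reverse]
  obtain ⟨a, ha⟩ := hline
  have hss : star (qw w) * qw w = ((5 ^ w.length : ℤ) : ℍ[ℤ]) := by
    rw [Quaternion.star_mul_self, hit_nsq]
    rfl
  have h1 : (a : ZMod D) • (Q.Ph t (star (qw w))).mulVec u = ((5 : ZMod D) ^ w.length) • e := by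
    rw [← Matrix.mulVec_smul, ← ha, Matrix.mulVec_mulVec, ← Q.Ph_mul ht, hss, Q.Ph_int,
      Matrix.smul_mulVec, Matrix.one_mulVec]
    push_cast
    rfl
  have h2 : (Q.Ph t (star (qw w))).mulVec u =
      (((a⁻¹ : (ZMod D)ˣ) : ZMod D) * (5 : ZMod D) ^ w.length) • e := by
    rw [← smul_smul, ← h1, smul_smul, Units.inv_mul, one_smul]
  have him : ∀ z : Vec D, (Q.Ph t (v * (qw γ * mq m y))).mulVec z = 0 := by
    intro z
    obtain ⟨s, hs⟩ := hu z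
    rw [Q.Ph_mul ht, Q.Ph_mul ht, ← Matrix.mulVec_mulVec, ← Matrix.mulVec_mulVec, hs,
      Matrix.mulVec_smul, hγ, h2, Matrix.mulVec_smul, Matrix.mulVec_smul, hve, smul_zero, smul_zero]
  have hdvd : DvdQ D (v * (qw γ * mq m y)) := hg_kill hD ht _ him
  obtain ⟨q, hq, hnq, hqe⟩ := close_hole v hv c D hc hD hN k m n y γ hy hn hdvd
  rw [hlen] at hnq hqe
  have hyh' : imq (yh : E 3) = hat n y := by
    rw [hyh]
    unfold hat
    rw [one_div]
  refine ⟨q, rt γ (hat n y), hq, hnq, rt_up γ _ (p4_up n hn1 y yh hyh'), hqe, ?_⟩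
  have hr : rt γ (hat n y) = imq ((R (uw w))⁻¹ (yh : E 3)) := by
    have hrot := hit_rot R hR [] w (yh : E 3)
    have hnil : R (uw []) ((R (uw w))⁻¹ (yh : E 3)) = (R (uw w))⁻¹ (yh : E 3) := by
      show R 1 _ = _
      rw [map_one]
      rfl
    have e0 : (qw [] : ℍ[ℤ]) = 1 := rfl
    rw [hnil, hyh', e0, one_mul, List.length_nil, add_zero] at hrot
    rw [hrot]
    unfold rt
    rw [hγ, hlen, one_div]
  have hd := p4_close N D hN2 hD1 _ _ hk
  refine le_trans (le_of_eq ?_) hd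
  have hiso : dist (rot (R (uw w)) x) yh = dist (x : E 3) ((R (uw w))⁻¹ (yh : E 3)) := by
    rw [Subtype.dist_eq]
    show dist (R (uw w) (x : E 3)) (yh : E 3) = _
    have e1 : (yh : E 3) = R (uw w) ((R (uw w))⁻¹ (yh : E 3)) := by
      have := LinearIsometryEquiv.apply_symm_apply (R (uw w)) (yh : E 3)
      exact this.symm
    conv_lhs => rw [e1]
    exact (R (uw w)).dist_map _ _
  rw [hr, ← hg_imq_sub, hg_imq_norm, hiso, dist_comm, dist_eq_norm]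


end Pool.Agent.H978V
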