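import Pool.Agent.H978V.NDefs
import Pool.Agent.H978V.SDefs
import Pool.Agent.H978V.M5
import Pool.Agent.H978V.M7
import Pool.Agent.H978V.K9
import Pool.Agent.H978V.L10m
import Pool.Agent.H978V.R6
import Pool.Agent.H978V.P1
import Pool.Agent.H978V.P3
import Pool.Agent.H978V.P4

set_option autoImplicit false

open MeasureTheory Set
open scoped Quaternion

namespace Pool.Agent.H978V

open Pool.Agent.Helper557.Rz




/-- lower bound for the sine -/
theorem p5_sin (r₂ : ℝ) (h0 : 0 < r₂) (h1 : r₂ < Real.pi) : ∃ c : ℝ, 0 < c ∧ c ≤ 1 ∧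
    ∀ φ : ℝ, 0 ≤ φ → φ ≤ r₂ → c * φ ≤ Real.sin φ := by
  have hs : 0 < Real.sin r₂ := Real.sin_pos_of_pos_of_lt_pi h0 h1
  refine ⟨Real.sin r₂ / r₂, by positivity, ?_, ?_⟩
  · rw [div_le_one h0]
    exact (Real.sin_lt h0).le
  intro φ hφ hφ2
  have hcon := strictConcaveOn_sin_Icc.concaveOn.2
    (show r₂ ∈ Set.Icc (0 : ℝ) Real.pi from ⟨h0.le, h1.le⟩)
    (show (0 : ℝ) ∈ Set.Icc (0 : ℝ) Real.pi from ⟨le_rfl, Real.pi_pos.le⟩)
    (show 0 ≤ φ / r₂ by positivity)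
    (show 0 ≤ 1 - φ / r₂ by rw [sub_nonneg, div_le_one h0]; exact hφ2) (by ring)
  simp only [smul_eq_mul, Real.sin_zero, mul_zero, add_zero] at hcon
  have e : φ / r₂ * r₂ = φ := by field_simp
  rw [e] at hcon
  calc Real.sin r₂ / r₂ * φ = φ / r₂ * Real.sin r₂ := by ring
    _ ≤ _ := hcon

/-- many integers in an interval -/
theorem p5_window (P : ℤ → Prop) (M : ℝ) (hM : 0 < M)
    (hP : ∀ x : ℝ, ∃ m : ℤ, P m ∧ x ≤ m ∧ (m : ℝ) ≤ x + M) (a b : ℝ) (hab : 2 * (M + 1) ≤ b - a) :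
    ∃ A : Finset ℤ, (∀ m ∈ A, P m ∧ a ≤ m ∧ (m : ℝ) ≤ b) ∧ (b - a) / (2 * (M + 1)) ≤ A.card := by
  choose f hf using hP
  set J : ℕ := ⌊(b - a) / (M + 1)⌋₊ with hJ
  have hM1 : 0 < M + 1 := by linarith
  have hJ1 : (J : ℝ) ≤ (b - a) / (M + 1) := Nat.floor_le (by apply div_nonneg <;> linarith)
  have hJ2 : (b - a) / (M + 1) - 1 < J := by
    have := Nat.lt_floor_add_one ((b - a) / (M + 1))
    rw [← hJ] at this
    linarith
  have hJ3 : (J : ℝ) * (M + 1) ≤ b - a := by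
    rw [le_div_iff₀ hM1] at hJ1
    exact hJ1
  set g : ℕ → ℤ := fun j => f (a + j * (M + 1)) with hg
  have hinj : Function.Injective g := by
    have hmono : StrictMono g := by
      refine strictMono_nat_of_lt_succ fun j => ?_
      obtain ⟨_, _, h2⟩ := hf (a + j * (M + 1))
      obtain ⟨_, h3, _⟩ := hf (a + ((j + 1 : ℕ) : ℝ) * (M + 1))
      push_cast at h3
      have : (g j : ℝ) < g (j + 1) := by
        simp only [hg]
        push_cast
        nlinarith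
      exact_mod_cast this
    exact hmono.injective
  refine ⟨(Finset.range J).image g, ?_, ?_⟩
  · intro m hm
    obtain ⟨j, hj, rfl⟩ := Finset.mem_image.1 hm
    rw [Finset.mem_range] at hj
    obtain ⟨h1, h2, h3⟩ := hf (a + j * (M + 1))
    refine ⟨h1, ?_, ?_⟩
    · refine le_trans ?_ h2
      have : 0 ≤ (j : ℝ) * (M + 1) := by positivity
      linarith
    · have hj' : (j : ℝ) + 1 ≤ J := by exact_mod_cast hj
      have : ((j : ℝ) + 1) * (M + 1) ≤ J * (M + 1) := mul_le_mul_of_nonneg_right hj' hM1.le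
      refine h3.trans ?_
      nlinarith
  · rw [Finset.card_image_of_injective _ hinj, Finset.card_range]
    have h2 : 2 ≤ (b - a) / (M + 1) := by
      rw [le_div_iff₀ hM1]
      exact hab
    have h3 : (b - a) / (2 * (M + 1)) = (b - a) / (M + 1) / 2 := by
      field_simp
    rw [h3]
    linarith

/-- choice of the scale -/
theorem p5_scale (q₀ Q₁ : ℝ) (h0 : 1 ≤ q₀) (h1 : q₀ ≤ Q₁) : ∃ k : ℕ, Q₁ ≤ q₀ * 25 ^ k ∧
    q₀ * 25 ^ k ≤ 25 * Q₁ ∧ (4 * k : ℝ) ≤ 2 * Real.logb 5 Q₁ + 4 := by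
  have hq : 0 < q₀ := by linarith
  have hQ : 0 < Q₁ := by linarith
  have hr : 1 ≤ Q₁ / q₀ := by rw [one_le_div hq]; exact h1
  have hr0 : 0 < Q₁ / q₀ := by linarith
  set k : ℕ := ⌈Real.logb 25 (Q₁ / q₀)⌉₊ with hk
  have hl : 0 ≤ Real.logb 25 (Q₁ / q₀) := Real.logb_nonneg (by norm_num) hr
  have hk1 : Real.logb 25 (Q₁ / q₀) ≤ k := Nat.le_ceil _
  have hk2 : (k : ℝ) < Real.logb 25 (Q₁ / q₀) + 1 := Nat.ceil_lt_add_one hl
  have he : (25 : ℝ) ^ (Real.logb 25 (Q₁ / q₀)) = Q₁ / q₀ :=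
    Real.rpow_logb (by norm_num) (by norm_num) hr0
  refine ⟨k, ?_, ?_, ?_⟩
  · have h2 : Q₁ / q₀ ≤ 25 ^ k := by
      rw [← he, ← Real.rpow_natCast]
      exact Real.rpow_le_rpow_of_exponent_le (by norm_num) hk1
    rw [div_le_iff₀ hq] at h2
    linarith
  · have h2 : (25 : ℝ) ^ k ≤ Q₁ / q₀ * 25 := by
      rw [← he, ← Real.rpow_natCast]
      calc (25 : ℝ) ^ (k : ℝ) ≤ 25 ^ (Real.logb 25 (Q₁ / q₀) + 1) :=
            Real.rpow_le_rpow_of_exponent_le (by norm_num) hk2.le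
        _ = _ := by rw [Real.rpow_add (by norm_num), Real.rpow_one]
    calc q₀ * 25 ^ k ≤ q₀ * (Q₁ / q₀ * 25) := mul_le_mul_of_nonneg_left h2 hq.le
      _ = 25 * Q₁ := by field_simp
  · have h3 : Real.logb 25 (Q₁ / q₀) = Real.logb 5 (Q₁ / q₀) / 2 := by
      rw [Real.logb, Real.logb, show (25 : ℝ) = 5 ^ 2 by norm_num, Real.log_pow]
      push_cast
      rw [div_div, mul_comm]
    have h4 : Real.logb 5 (Q₁ / q₀) ≤ Real.logb 5 Q₁ := by
      refine Real.logb_le_logb_of_le (by norm_num) hr0 ?_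
      exact div_le_self hQ.le h0
    rw [h3] at hk2
    linarith

theorem p5_real (d K c₀ c₃ a₁ : ℝ) (hd : 0 < d) (hd1 : d ≤ 1 / 4) (hK : 0 < K) (hc0 : 0 < c₀)
    (hc3 : 0 < c₃) (ha1 : 0 < a₁) : ∃ K₁ : ℝ, 0 < K₁ ∧ ∀ t r Q N α Zc En : ℝ, 1 ≤ t → 0 < r →
      r ≤ 4 → 0 < Q → t ^ (1 + d) ≤ Q * r → t ^ (3 / 2 + d) ≤ Q → Q ≤ 25 * t ^ 3 → 0 ≤ N →
      N ≤ 4 * (r * t) ^ 2 * t ^ d → a₁ * (Q * r / t) ≤ α →
      α * (c₀ * (c₃ * (Q * r)) ^ (1 - 2 * d)) ≤ Zc →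
      En ≤ K * (Q ^ 2 * N) ^ d * (N * Zc + α ^ 2 * (4 * Q ^ 2 * r ^ 2 + N * (Q ^ 2 / (64 * t ^ 2)))) →
      En ≤ K₁ * t ^ (22 * d) * Zc ^ 2 := by
  set s3 : ℝ := c₃ ^ (1 - 2 * d) with hs3
  have hs3' : 0 < s3 := by positivity
  set C₁ : ℝ := 4 / (a₁ * c₀ * s3) with hC1
  have hC1' : 0 < C₁ := by positivity
  set C₂ : ℝ := 5 / (c₀ ^ 2 * s3 ^ 2) with hC2
  have hC2' : 0 < C₂ := by positivity
  refine ⟨K * 40000 ^ d * (C₁ + C₂) * 100 ^ (4 * d), by positivity, ?_⟩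
  intro t r Q N α Zc En ht hr hr4 hQ hX1 hQ1 hQ2 hN0 hN hα hZ hE
  have ht0 : 0 < t := by linarith
  set X : ℝ := Q * r with hX
  have hX0 : 0 < X := by positivity
  have hX11 : 1 ≤ X := by
    refine le_trans ?_ hX1
    exact Real.one_le_rpow ht (by linarith)
  set s : ℝ := X ^ (1 - 2 * d) with hs
  have hs0 : 0 < s := by positivity
  have hsX : s * X ^ (2 * d) = X := by
    rw [hs, ← Real.rpow_add hX0]
    have : 1 - 2 * d + 2 * d = 1 := by ring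
    rw [this, Real.rpow_one]
  have hcs : (c₃ * X) ^ (1 - 2 * d) = s3 * s := Real.mul_rpow hc3.le hX0.le
  rw [hcs] at hZ
  have hα0 : 0 < α := lt_of_lt_of_le (by positivity) hα
  have hZ0 : 0 < Zc := lt_of_lt_of_le (by positivity) hZ
  have h4d : X ^ (2 * d) ≤ X ^ (4 * d) := Real.rpow_le_rpow_of_exponent_le hX11 (by linarith)
  have h2d0 : 0 < X ^ (2 * d) := by positivity
  have h4d0 : 0 < X ^ (4 * d) := by positivity
  have htd : 1 ≤ t ^ d := Real.one_le_rpow ht hd.le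
  -- N t ≤ 4 X²
  have hNt : N * t ≤ 4 * X ^ 2 := by
    have h1 : t ^ 3 * (t ^ d) ^ 2 ≤ Q ^ 2 := by
      have h2 : (t ^ (3 / 2 + d)) ^ 2 ≤ Q ^ 2 := pow_le_pow_left₀ (by positivity) hQ1 2
      have h3 : (t ^ (3 / 2 + d)) ^ 2 = t ^ 3 * (t ^ d) ^ 2 := by
        rw [← Real.rpow_natCast (t ^ (3 / 2 + d)), ← Real.rpow_mul ht0.le,
          ← Real.rpow_natCast (t ^ d), ← Real.rpow_mul ht0.le, ← Real.rpow_natCast t,
          ← Real.rpow_add ht0]
        congr 1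
        push_cast
        ring
      rwa [h3] at h2
    calc N * t ≤ (4 * (r * t) ^ 2 * t ^ d) * t := mul_le_mul_of_nonneg_right hN ht0.le
      _ = 4 * r ^ 2 * (t ^ 3 * t ^ d) := by ring
      _ ≤ 4 * r ^ 2 * (t ^ 3 * (t ^ d) ^ 2) := by
          have : t ^ d ≤ (t ^ d) ^ 2 := by nlinarith
          gcongr
      _ ≤ 4 * r ^ 2 * Q ^ 2 := by gcongr
      _ = 4 * X ^ 2 := by rw [hX]; ring
  have hterm1 : N * Zc ≤ C₁ * X ^ (4 * d) * Zc ^ 2 := by
    have h1 : N ≤ C₁ * X ^ (2 * d) * Zc := by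
      have h2 : a₁ * (X / t) * (c₀ * (s3 * s)) ≤ Zc :=
        le_trans (mul_le_mul_of_nonneg_right hα (by positivity)) hZ
      have h3 : N ≤ 4 * X ^ 2 / t := by rw [le_div_iff₀ ht0]; exact hNt
      refine h3.trans ?_
      calc 4 * X ^ 2 / t = C₁ * X ^ (2 * d) * (a₁ * (X / t) * (c₀ * (s3 * s))) := by
            have e : 4 * X ^ 2 / t = 4 * X * (s * X ^ (2 * d)) / t := by rw [hsX]; ring
            rw [e, hC1]
            field_simp
        _ ≤ C₁ * X ^ (2 * d) * Zc := mul_le_mul_of_nonneg_left h2 (by positivity)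
    calc N * Zc ≤ (C₁ * X ^ (2 * d) * Zc) * Zc := mul_le_mul_of_nonneg_right h1 hZ0.le
      _ = C₁ * X ^ (2 * d) * Zc ^ 2 := by ring
      _ ≤ C₁ * X ^ (4 * d) * Zc ^ 2 := by gcongr
  have hterm2 : α ^ 2 * (4 * Q ^ 2 * r ^ 2 + N * (Q ^ 2 / (64 * t ^ 2))) ≤
      C₂ * t ^ d * X ^ (4 * d) * Zc ^ 2 := by
    have h1 : N * (Q ^ 2 / (64 * t ^ 2)) ≤ t ^ d * X ^ 2 := by
      calc N * (Q ^ 2 / (64 * t ^ 2)) ≤ (4 * (r * t) ^ 2 * t ^ d) * (Q ^ 2 / (64 * t ^ 2)) :=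
            mul_le_mul_of_nonneg_right hN (by positivity)
        _ = 1 / 16 * (t ^ d * X ^ 2) := by rw [hX]; field_simp; ring
        _ ≤ t ^ d * X ^ 2 := by
            have : 0 ≤ t ^ d * X ^ 2 := by positivity
            linarith
    have h2 : 4 * Q ^ 2 * r ^ 2 + N * (Q ^ 2 / (64 * t ^ 2)) ≤ 5 * t ^ d * X ^ 2 := by
      have h3 : 4 * Q ^ 2 * r ^ 2 = 4 * X ^ 2 := by rw [hX]; ring
      rw [h3]
      have : X ^ 2 ≤ t ^ d * X ^ 2 := by nlinarith [sq_nonneg X]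
      nlinarith
    have h4 : (α * (c₀ * (s3 * s))) ^ 2 ≤ Zc ^ 2 := pow_le_pow_left₀ (by positivity) hZ 2
    have h5 : X ^ (4 * d) = (X ^ (2 * d)) ^ 2 := by
      rw [← Real.rpow_natCast, ← Real.rpow_mul hX0.le]
      congr 1
      push_cast
      ring
    calc α ^ 2 * (4 * Q ^ 2 * r ^ 2 + N * (Q ^ 2 / (64 * t ^ 2))) ≤ α ^ 2 * (5 * t ^ d * X ^ 2) :=
          mul_le_mul_of_nonneg_left h2 (by positivity)
      _ = C₂ * t ^ d * X ^ (4 * d) * (α * (c₀ * (s3 * s))) ^ 2 := by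
          have e : X ^ 2 = s ^ 2 * (X ^ (2 * d)) ^ 2 := by
            nth_rewrite 1 [← hsX]
            ring
          rw [e, h5, hC2]
          field_simp
      _ ≤ C₂ * t ^ d * X ^ (4 * d) * Zc ^ 2 := mul_le_mul_of_nonneg_left h4 (by positivity)
  have hsum : N * Zc + α ^ 2 * (4 * Q ^ 2 * r ^ 2 + N * (Q ^ 2 / (64 * t ^ 2))) ≤
      (C₁ + C₂) * t ^ d * X ^ (4 * d) * Zc ^ 2 := by
    have h1 : C₁ * X ^ (4 * d) * Zc ^ 2 ≤ C₁ * t ^ d * X ^ (4 * d) * Zc ^ 2 := by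
      have : 0 ≤ C₁ * X ^ (4 * d) * Zc ^ 2 := by positivity
      nlinarith
    calc _ ≤ C₁ * t ^ d * X ^ (4 * d) * Zc ^ 2 + C₂ * t ^ d * X ^ (4 * d) * Zc ^ 2 :=
          add_le_add (hterm1.trans h1) hterm2
      _ = _ := by ring
  have ht3 : (t ^ 3 : ℝ) = t ^ (3 : ℝ) := by norm_cast
  have hX4 : X ^ (4 * d) ≤ 100 ^ (4 * d) * t ^ (12 * d) := by
    have h1 : X ≤ 100 * t ^ 3 := by
      calc X = Q * r := rfl
        _ ≤ (25 * t ^ 3) * 4 := mul_le_mul hQ2 hr4 hr.le (by positivity)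
        _ = 100 * t ^ 3 := by ring
    calc X ^ (4 * d) ≤ (100 * t ^ 3) ^ (4 * d) := Real.rpow_le_rpow hX0.le h1 (by positivity)
      _ = 100 ^ (4 * d) * t ^ (12 * d) := by
          rw [Real.mul_rpow (by norm_num) (by positivity), ht3, ← Real.rpow_mul ht0.le]
          congr 2
          ring
  have hQN : (Q ^ 2 * N) ^ d ≤ 40000 ^ d * t ^ (9 * d) := by
    have h1 : Q ^ 2 * N ≤ 40000 * t ^ 9 := by
      have h2 : Q ^ 2 ≤ (25 * t ^ 3) ^ 2 := pow_le_pow_left₀ hQ.le hQ2 2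
      have h3 : N ≤ 64 * t ^ 3 := by
        refine hN.trans ?_
        have h4 : t ^ d ≤ t := by
          calc t ^ d ≤ t ^ (1 : ℝ) := Real.rpow_le_rpow_of_exponent_le ht (by linarith)
            _ = t := Real.rpow_one t
        have h5 : (r * t) ^ 2 ≤ (4 * t) ^ 2 := by gcongr
        calc 4 * (r * t) ^ 2 * t ^ d ≤ 4 * (4 * t) ^ 2 * t := by gcongr
          _ = 64 * t ^ 3 := by ring
      calc Q ^ 2 * N ≤ (25 * t ^ 3) ^ 2 * (64 * t ^ 3) := mul_le_mul h2 h3 hN0 (by positivity)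
        _ = 40000 * t ^ 9 := by ring
    have ht9 : (t ^ 9 : ℝ) = t ^ (9 : ℝ) := by norm_cast
    calc (Q ^ 2 * N) ^ d ≤ (40000 * t ^ 9) ^ d :=
          Real.rpow_le_rpow (by positivity) h1 hd.le
      _ = 40000 ^ d * t ^ (9 * d) := by
          rw [Real.mul_rpow (by norm_num) (by positivity), ht9, ← Real.rpow_mul ht0.le]
  calc En ≤ K * (Q ^ 2 * N) ^ d *
        (N * Zc + α ^ 2 * (4 * Q ^ 2 * r ^ 2 + N * (Q ^ 2 / (64 * t ^ 2)))) := hE
    _ ≤ K * (40000 ^ d * t ^ (9 * d)) *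
        ((C₁ + C₂) * t ^ d * (100 ^ (4 * d) * t ^ (12 * d)) * Zc ^ 2) := by
        refine mul_le_mul ?_ (hsum.trans ?_) (by positivity) (by positivity)
        · gcongr
        · gcongr
    _ = K * 40000 ^ d * (C₁ + C₂) * 100 ^ (4 * d) * t ^ (22 * d) * Zc ^ 2 := by
        have e : t ^ (22 * d) = t ^ (9 * d) * t ^ d * t ^ (12 * d) := by
          rw [← Real.rpow_add ht0, ← Real.rpow_add ht0]
          congr 1
          ring
        rw [e]
        ring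

theorem p5_event (d : ℝ) (hd : 0 < d) (B : ℝ) (hB : 0 < B) :
    ∀ᶠ t : ℝ in Filter.atTop, 64 * Real.log (B * t ^ 3) ≤ t ^ d := by
  have h1 := (isLittleO_log_rpow_atTop hd).def (c := 1 / (64 * 6)) (by positivity)
  have h2 := (tendsto_rpow_atTop hd).eventually_ge_atTop (128 * Real.log B)
  filter_upwards [h1, h2, Filter.eventually_ge_atTop (1 : ℝ)] with t h1 h2 ht
  have ht0 : 0 < t := by linarith
  have e2 : Real.log (B * t ^ 3) = Real.log B + 3 * Real.log t := by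
    rw [Real.log_mul hB.ne' (by positivity), Real.log_pow]
    push_cast
    ring
  have hlog : 0 ≤ Real.log t := Real.log_nonneg ht
  rw [Real.norm_of_nonneg hlog, Real.norm_of_nonneg (by positivity)] at h1
  rw [e2]
  linarith

theorem p5_pt (n : ℕ) (hn : 1 ≤ n) (y : ℤ × ℤ × ℤ) (hy : y ∈ S3 n) :
    ∃ x : S 3, imq (x : E 3) = (Real.sqrt n)⁻¹ • cz (pq y) := by
  have hn0 : (0 : ℝ) < n := by exact_mod_cast hn
  have hS := mem_S3.1 hy
  have hre : ((Real.sqrt n)⁻¹ • cz (pq y)).re = 0 := by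
    rw [Quaternion.re_smul]
    simp [cz, pq]
  have hnorm : ‖toV ((Real.sqrt n)⁻¹ • cz (pq y))‖ = 1 := by
    have h1 := normSq_imq (toV ((Real.sqrt n)⁻¹ • cz (pq y)))
    rw [imq_toV hre, Quaternion.normSq_smul, hit_nsqr] at h1
    have h2 : Quaternion.normSq (pq y) = n := by
      rw [Quaternion.normSq_def', ← hS]
      simp only [pq]
      ring
    rw [h2, inv_pow, Real.sq_sqrt hn0.le] at h1
    have h3 : (n : ℝ)⁻¹ * (((n : ℕ) : ℤ) : ℝ) = 1 := by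
      push_cast
      exact inv_mul_cancel₀ hn0.ne'
    rw [h3] at h1
    have h4 := norm_nonneg (toV ((Real.sqrt n)⁻¹ • cz (pq y)))
    nlinarith
  exact ⟨⟨toV ((Real.sqrt n)⁻¹ • cz (pq y)), mem_sphere_zero_iff_norm.2 hnorm⟩, imq_toV hre⟩

theorem p5_coord (n : ℕ) (y : ℤ × ℤ × ℤ) (x : S 3)
    (h : imq (x : E 3) = (Real.sqrt n)⁻¹ • cz (pq y)) : (x : E 3) 0 = (Real.sqrt n)⁻¹ * y.1 ∧
      (x : E 3) 1 = (Real.sqrt n)⁻¹ * y.2.1 ∧ (x : E 3) 2 = (Real.sqrt n)⁻¹ * y.2.2 := by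
  refine ⟨?_, ?_, ?_⟩
  · have := congrArg QuaternionAlgebra.imI h
    rw [Quaternion.imI_smul] at this
    exact this
  · have := congrArg QuaternionAlgebra.imJ h
    rw [Quaternion.imJ_smul] at this
    exact this
  · have := congrArg QuaternionAlgebra.imK h
    rw [Quaternion.imK_smul] at this
    exact this

theorem p5_inner (n n' : ℕ) (y y' : ℤ × ℤ × ℤ) (x x' : S 3)
    (h : imq (x : E 3) = (Real.sqrt n)⁻¹ • cz (pq y))
    (h' : imq (x' : E 3) = (Real.sqrt n')⁻¹ • cz (pq y')) :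
    inner ℝ (x : E 3) (x' : E 3) = (dt y y' : ℝ) / (Real.sqrt n * Real.sqrt n') := by
  obtain ⟨a0, a1, a2⟩ := p5_coord n y x h
  obtain ⟨b0, b1, b2⟩ := p5_coord n' y' x' h'
  rw [PiLp.inner_apply, Fin.sum_univ_three, a0, a1, a2, b0, b1, b2]
  simp only [RCLike.inner_apply, conj_trivial, dt]
  push_cast
  rw [div_eq_mul_inv, mul_inv]
  ring

/-- the angle of a point of the window -/
theorem p5_arc (Q r s m : ℝ) (hQ : 0 < Q) (hr : 0 ≤ r) (hs : r ≤ s) (hs2 : s ≤ Real.pi)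
    (h1 : Q * Real.cos s ≤ m) (h2 : m ≤ Q * Real.cos r) :
    ∃ φ : ℝ, r ≤ φ ∧ φ ≤ s ∧ m = Q * Real.cos φ := by
  have h3 : Real.cos s ≤ m / Q := by rw [le_div_iff₀ hQ]; linarith
  have h4 : m / Q ≤ Real.cos r := by rw [div_le_iff₀ hQ]; linarith
  refine ⟨Real.arccos (m / Q), ?_, ?_, ?_⟩
  · calc r = Real.arccos (Real.cos r) := (Real.arccos_cos hr (hs.trans hs2)).symm
      _ ≤ _ := Real.antitone_arccos h4
  · calc Real.arccos (m / Q) ≤ Real.arccos (Real.cos s) := Real.antitone_arccos h3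
      _ = s := Real.arccos_cos (hr.trans hs) hs2
  · rw [Real.cos_arccos]
    · field_simp
    · exact (Real.neg_one_le_cos s).trans h3
    · exact h4.trans (Real.cos_le_one r)

theorem p5_vh (v : ℍ[ℤ]) (h : 0 < Quaternion.normSq v) : ‖vh v‖ = 1 := by
  have h0 : (0 : ℝ) < ((Quaternion.normSq v : ℤ) : ℝ) := by exact_mod_cast h
  have h1 : ‖cz v‖ * ‖cz v‖ = ((Quaternion.normSq v : ℤ) : ℝ) := by
    rw [← Quaternion.normSq_eq_norm_mul_self, hit_nsqr]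
  have h2 : ‖cz v‖ = Real.sqrt ((Quaternion.normSq v : ℤ) : ℝ) := by
    rw [← h1, Real.sqrt_mul_self (norm_nonneg _)]
  unfold vh
  rw [norm_smul, h2, Real.norm_of_nonneg (by positivity)]
  have h3 : Real.sqrt ((Quaternion.normSq v : ℤ) : ℝ) ≠ 0 := (Real.sqrt_pos.mpr h0).ne'
  field_simp

theorem p5_dist (v : ℍ[ℤ]) (hv : 0 < Quaternion.normSq v) (x : S 3) (r φ ε : ℝ) (r' : ℍ[ℝ])
    (hε : 0 < ε) (hr : ε ≤ r) (hφ1 : r ≤ φ) (hφ2 : φ ≤ r + ε / 8) (hφ3 : φ ≤ Real.pi)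
    (hr' : ‖r' - imq (x : E 3)‖ ≤ ε / (4 * r)) :
    ‖vh v * rq (imq (x : E 3)) r -
      vh v * (((Real.cos φ : ℝ) : ℍ[ℝ]) + (Real.sin φ : ℝ) • r')‖ < ε := by
  have hr0 : 0 < r := by linarith
  have hφ0 : 0 < φ := by linarith
  rw [← mul_sub, norm_mul, p5_vh v hv, one_mul]
  have hx : ‖imq (x : E 3)‖ = 1 := by
    have h1 := hg_imq_norm (x : E 3)
    have h2 : ‖(x : E 3)‖ = 1 := mem_sphere_zero_iff_norm.1 x.2
    rw [h2] at h1
    have h3 := norm_nonneg (imq (x : E 3))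
    nlinarith
  have e : rq (imq (x : E 3)) r - (((Real.cos φ : ℝ) : ℍ[ℝ]) + (Real.sin φ : ℝ) • r') =
      ((Real.cos r - Real.cos φ : ℝ) : ℍ[ℝ]) + (Real.sin r - Real.sin φ) • imq (x : E 3) -
        Real.sin φ • (r' - imq (x : E 3)) := by
    unfold rq
    rw [smul_sub, sub_smul]
    push_cast
    abel
  rw [e]
  have h1 : ‖((Real.cos r - Real.cos φ : ℝ) : ℍ[ℝ])‖ ≤ φ - r := by
    rw [Quaternion.norm_coe, Real.norm_eq_abs]
    refine (Real.abs_cos_sub_cos_le r φ).trans ?_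
    rw [abs_sub_comm, abs_of_nonneg (by linarith)]
  have h2 : ‖(Real.sin r - Real.sin φ) • imq (x : E 3)‖ ≤ φ - r := by
    rw [norm_smul, hx, mul_one, Real.norm_eq_abs]
    refine (Real.abs_sin_sub_sin_le r φ).trans ?_
    rw [abs_sub_comm, abs_of_nonneg (by linarith)]
  have hs0 : 0 ≤ Real.sin φ := Real.sin_nonneg_of_nonneg_of_le_pi hφ0.le hφ3
  have hs1 : Real.sin φ ≤ 2 * r := by
    have := (Real.sin_lt hφ0).le
    linarith
  have h3 : ‖Real.sin φ • (r' - imq (x : E 3))‖ ≤ ε / 2 := by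
    rw [norm_smul, Real.norm_of_nonneg hs0]
    calc Real.sin φ * ‖r' - imq (x : E 3)‖ ≤ 2 * r * (ε / (4 * r)) :=
          mul_le_mul hs1 hr' (norm_nonneg _) (by positivity)
      _ = ε / 2 := by field_simp; norm_num
  have h4 := norm_sub_le (((Real.cos r - Real.cos φ : ℝ) : ℍ[ℝ]) +
    (Real.sin r - Real.sin φ) • imq (x : E 3)) (Real.sin φ • (r' - imq (x : E 3)))
  have h5 := norm_add_le (((Real.cos r - Real.cos φ : ℝ) : ℍ[ℝ]))
    ((Real.sin r - Real.sin φ) • imq (x : E 3))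
  linarith

open Classical in
/-- the arithmetic input at one scale -/
theorem p5_data (v : ℍ[ℤ]) (hv : PrimQ v) (c : ℤ) (D : ℕ) (hc : c = 1 ∨ c = 2 ∨ c = 4) (hD : Odd D)
    (hN : Quaternion.normSq v = c * D) (r₁ : ℝ) (hr₁ : 0 < r₁) (hr₁' : r₁ < Real.pi) (d : ℝ)
    (hd : 0 < d) (hd1 : d ≤ 1 / 4) :
    ∃ K₁ t₀ : ℝ, 0 < K₁ ∧ 1 ≤ t₀ ∧ ∀ t r : ℝ, t₀ ≤ t → 1 / t ≤ r → r ≤ r₁ →
      ∃ (k N : ℕ) (Z : Finset (ℤ × (ℤ × ℤ × ℤ))) (nf : ℤ → ℕ) (yh : ℤ × (ℤ × ℤ × ℤ) → S 3),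
        (4 * k : ℝ) ≤ 2 * Real.logb 5 (max (t / r) (t ^ ((3 : ℝ) / 2)) * t ^ d) + 4 ∧ 2 ≤ N ∧
        4 * Real.log (2 * (D : ℝ) ^ 2 * N) / (N - 1) ≤ (1 / (4 * (r * t))) ^ 2 ∧ 0 < Z.card ∧
        (∀ p ∈ Z, IsCoprime p.1 (D : ℤ) ∧ (nf p.1 : ℤ) = c * D * 5 ^ (4 * k) - p.1 ^ 2 ∧
          1 ≤ nf p.1 ∧ p.2 ∈ ZS v c D p.1 (nf p.1) ∧
          imq (yh p : E 3) = (Real.sqrt (nf p.1))⁻¹ • cz (pq p.2) ∧
          ∃ φ : ℝ, r ≤ φ ∧ φ ≤ r + 1 / (8 * t) ∧ φ ≤ Real.pi ∧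
            (p.1 : ℝ) / Real.sqrt (c * D * 5 ^ (4 * k)) = Real.cos φ ∧
            Real.sqrt (nf p.1) / Real.sqrt (c * D * 5 ^ (4 * k)) = Real.sin φ) ∧
        (∑ p ∈ Z, ∑ p' ∈ Z, k2 N (yh p) (yh p')) ≤ K₁ * t ^ (22 * d) * (Z.card : ℝ) ^ 2 := by
  obtain ⟨P, M, hM, hPex, hPco, hPcard⟩ := zs_data v hv c D hc hD hN
  obtain ⟨c₀, hc₀, hPc⟩ := hPcard d hd
  obtain ⟨K, hK, hwe⟩ := wenergy d hd
  have hpi := Real.pi_pos
  obtain ⟨c₃, hc₃, hc₃1, hsin⟩ := p5_sin ((r₁ + Real.pi) / 2) (by linarith) (by linarith)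
  have hc1 : (1 : ℤ) ≤ c := by rcases hc with h | h | h <;> omega
  have hD1 : 1 ≤ D := hD.pos
  have hcR : (1 : ℝ) ≤ c := by exact_mod_cast hc1
  have hDR : (1 : ℝ) ≤ D := by exact_mod_cast hD1
  have hcD : (1 : ℝ) ≤ c * D := by nlinarith
  set q₀ : ℝ := Real.sqrt (c * D) with hq₀
  have hq1 : 1 ≤ q₀ := by rw [hq₀, Real.one_le_sqrt]; exact hcD
  set a₁ : ℝ := c₃ ^ 2 / (16 * (M + 1)) with ha₁
  have ha₁0 : 0 < a₁ := by positivity
  obtain ⟨K₁, hK₁, hreal⟩ := p5_real d K c₀ c₃ a₁ hd hd1 hK hc₀ hc₃ ha₁0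
  obtain ⟨t₁, ht₁⟩ := Filter.eventually_atTop.1 ((p5_event d hd (128 * (D : ℝ) ^ 2)
    (by positivity)).and ((tendsto_rpow_atTop hd).eventually_ge_atTop (16 * (M + 1) / c₃ ^ 2)))
  refine ⟨K₁, max (max 1 t₁) (max (1 / (4 * (Real.pi - r₁))) q₀), hK₁,
    (le_max_left _ _).trans (le_max_left _ _), ?_⟩
  intro t r ht hr hr2
  have ht1 : 1 ≤ t := ((le_max_left (1 : ℝ) t₁).trans (le_max_left _ _)).trans ht
  have ht1' : t₁ ≤ t := ((le_max_right (1 : ℝ) t₁).trans (le_max_left _ _)).trans ht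
  have htpi : 1 / (4 * (Real.pi - r₁)) ≤ t :=
    ((le_max_left _ q₀).trans (le_max_right _ _)).trans ht
  have htq : q₀ ≤ t := ((le_max_right _ q₀).trans (le_max_right _ _)).trans ht
  obtain ⟨hlog, htdM⟩ := ht₁ t ht1'
  have ht0 : 0 < t := by linarith
  have hr0 : 0 < r := lt_of_lt_of_le (by positivity) hr
  have hrt : 1 ≤ r * t := by
    rw [div_le_iff₀ ht0] at hr
    exact hr
  have htd : 1 ≤ t ^ d := Real.one_le_rpow ht1 hd.le
  have hpi4 : Real.pi < 4 := Real.pi_lt_four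
  -- angles
  have hr8 : r + 1 / (8 * t) ≤ (r₁ + Real.pi) / 2 := by
    have h1 : 1 / (8 * t) ≤ (Real.pi - r₁) / 2 := by
      have h2 : 0 < Real.pi - r₁ := by linarith
      rw [div_le_iff₀ (by positivity)] at htpi ⊢
      nlinarith
    linarith
  -- the scale
  set Q₁ : ℝ := max (t / r) (t ^ ((3 : ℝ) / 2)) * t ^ d with hQ₁
  have hm0 : 0 < max (t / r) (t ^ ((3 : ℝ) / 2)) := lt_of_lt_of_le (by positivity) (le_max_left _ _)
  have hQa : t / r * t ^ d ≤ Q₁ := mul_le_mul_of_nonneg_right (le_max_left _ _) (by positivity)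
  have hQb : t ^ ((3 : ℝ) / 2) * t ^ d ≤ Q₁ :=
    mul_le_mul_of_nonneg_right (le_max_right _ _) (by positivity)
  have ht32 : t ≤ t ^ ((3 : ℝ) / 2) := by
    calc t = t ^ (1 : ℝ) := (Real.rpow_one t).symm
      _ ≤ _ := Real.rpow_le_rpow_of_exponent_le ht1 (by norm_num)
  have hqQ : q₀ ≤ Q₁ := by
    refine le_trans ?_ hQb
    have : t ^ ((3 : ℝ) / 2) ≤ t ^ ((3 : ℝ) / 2) * t ^ d := by
      have : 0 < t ^ ((3 : ℝ) / 2) := by positivity
      nlinarith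
    linarith
  obtain ⟨k, hk1, hk2, hk3⟩ := p5_scale q₀ Q₁ hq1 hqQ
  set Q : ℝ := q₀ * 25 ^ k with hQ
  have hQ0 : 0 < Q := by positivity
  have hQsq : Q ^ 2 = c * D * 5 ^ (4 * k) := by
    rw [hQ, mul_pow, hq₀, Real.sq_sqrt (by linarith), ← pow_mul,
      show (25 : ℝ) = 5 ^ 2 by norm_num, ← pow_mul]
    congr 2
    ring
  have hQsqrt : Real.sqrt (c * D * 5 ^ (4 * k)) = Q := by
    rw [← hQsq, Real.sqrt_sq hQ0.le]
  have hQr : t ^ (1 + d) ≤ Q * r := by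
    calc t ^ (1 + d) = t / r * t ^ d * r := by
          rw [Real.rpow_add ht0, Real.rpow_one]
          field_simp
      _ ≤ Q₁ * r := mul_le_mul_of_nonneg_right hQa hr0.le
      _ ≤ Q * r := mul_le_mul_of_nonneg_right hk1 hr0.le
  have hQ3 : t ^ (3 / 2 + d) ≤ Q := by
    calc t ^ (3 / 2 + d) = t ^ ((3 : ℝ) / 2) * t ^ d := by rw [Real.rpow_add ht0]
      _ ≤ Q₁ := hQb
      _ ≤ Q := hk1
  have hQ4 : Q ≤ 25 * t ^ 3 := by
    refine hk2.trans (mul_le_mul_of_nonneg_left ?_ (by norm_num))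
    have h1 : t ^ d ≤ t := by
      calc t ^ d ≤ t ^ (1 : ℝ) := Real.rpow_le_rpow_of_exponent_le ht1 (by linarith)
        _ = t := Real.rpow_one t
    have h2 : max (t / r) (t ^ ((3 : ℝ) / 2)) ≤ t ^ 2 := by
      refine max_le ?_ ?_
      · rw [div_le_iff₀ hr0]
        nlinarith
      · calc t ^ ((3 : ℝ) / 2) ≤ t ^ (2 : ℝ) :=
              Real.rpow_le_rpow_of_exponent_le ht1 (by norm_num)
          _ = t ^ 2 := by norm_cast
    calc Q₁ ≤ t ^ 2 * t := mul_le_mul h2 h1 (by positivity) (by positivity)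
      _ = t ^ 3 := by ring
  -- the window
  set a : ℝ := Q * Real.cos (r + 1 / (8 * t)) with ha
  set b : ℝ := Q * Real.cos r with hb
  have hab : c₃ ^ 2 / 8 * (Q * r / t) ≤ b - a := by
    have h1 : Real.cos r - Real.cos (r + 1 / (8 * t)) =
        2 * Real.sin (r + 1 / (16 * t)) * Real.sin (1 / (16 * t)) := by
      rw [Real.cos_sub_cos]
      have e1 : (r + (r + 1 / (8 * t))) / 2 = r + 1 / (16 * t) := by field_simp; ring
      have e2 : (r - (r + 1 / (8 * t))) / 2 = -(1 / (16 * t)) := by field_simp; ring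
      rw [e1, e2, Real.sin_neg]
      ring
    have h16 : 1 / (16 * t) ≤ 1 / (8 * t) := by
      apply one_div_le_one_div_of_le <;> nlinarith
    have h160 : 0 < 1 / (16 * t) := by positivity
    have h2 : c₃ * r ≤ Real.sin (r + 1 / (16 * t)) := by
      refine le_trans ?_ (hsin _ (by positivity) (by linarith))
      nlinarith
    have h3 : c₃ * (1 / (16 * t)) ≤ Real.sin (1 / (16 * t)) :=
      hsin _ h160.le (by linarith)
    have h4 : 2 * (c₃ * r) * (c₃ * (1 / (16 * t))) ≤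
        2 * Real.sin (r + 1 / (16 * t)) * Real.sin (1 / (16 * t)) := by
      refine mul_le_mul (by linarith) h3 (by positivity) ?_
      have : 0 ≤ c₃ * r := by positivity
      linarith
    have h5 : b - a = Q * (Real.cos r - Real.cos (r + 1 / (8 * t))) := by rw [ha, hb]; ring
    rw [h5, h1]
    calc c₃ ^ 2 / 8 * (Q * r / t) = Q * (2 * (c₃ * r) * (c₃ * (1 / (16 * t)))) := by
          field_simp; norm_num
      _ ≤ _ := mul_le_mul_of_nonneg_left h4 hQ0.le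
  have hM1 : 0 < M + 1 := by linarith
  have hlen : 2 * (M + 1) ≤ b - a := by
    refine le_trans ?_ hab
    have h1 : t ^ d ≤ Q * r / t := by
      rw [le_div_iff₀ ht0]
      calc t ^ d * t = t ^ (1 + d) := by
            rw [Real.rpow_add ht0, Real.rpow_one, mul_comm]
        _ ≤ Q * r := hQr
    have h2 : 16 * (M + 1) / c₃ ^ 2 ≤ Q * r / t := htdM.trans h1
    rw [div_le_iff₀ (by positivity)] at h2
    linarith
  obtain ⟨A, hA, hAc⟩ := p5_window (P k) M hM (hPex k) a b hlen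
  have hα : a₁ * (Q * r / t) ≤ A.card := by
    refine le_trans ?_ hAc
    rw [le_div_iff₀ (by positivity)]
    calc a₁ * (Q * r / t) * (2 * (M + 1)) = c₃ ^ 2 / 8 * (Q * r / t) := by
          rw [ha₁]; field_simp; norm_num
      _ ≤ b - a := hab
  have hA0 : (0 : ℝ) < A.card := lt_of_lt_of_le (by positivity) hα
  -- the numbers n
  set nf : ℤ → ℕ := fun m => (c * D * 5 ^ (4 * k) - m ^ 2).toNat with hnf
  have hArc : ∀ m ∈ A, ∃ φ : ℝ, r ≤ φ ∧ φ ≤ r + 1 / (8 * t) ∧ (m : ℝ) = Q * Real.cos φ ∧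
      (nf m : ℤ) = c * D * 5 ^ (4 * k) - m ^ 2 ∧ 1 ≤ nf m ∧
      Real.sqrt (nf m) = Q * Real.sin φ := by
    intro m hm
    obtain ⟨_, h1, h2⟩ := hA m hm
    have h8t : 0 < 1 / (8 * t) := by positivity
    obtain ⟨φ, hφ1, hφ2, hφ3⟩ := p5_arc Q r (r + 1 / (8 * t)) m hQ0 hr0.le (by linarith)
      (by linarith) h1 h2
    have hs : c₃ * φ ≤ Real.sin φ := hsin φ (by linarith) (by linarith)
    have hs0 : 0 < Real.sin φ := lt_of_lt_of_le (mul_pos hc₃ (by linarith)) hs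
    have hre : (((c * D * 5 ^ (4 * k) - m ^ 2 : ℤ)) : ℝ) = (Q * Real.sin φ) ^ 2 := by
      push_cast
      rw [← hQsq, hφ3]
      have := Real.sin_sq_add_cos_sq φ
      linear_combination (-Q ^ 2) * this
    have hpos : (0 : ℤ) < c * D * 5 ^ (4 * k) - m ^ 2 := by
      have : (0 : ℝ) < (((c * D * 5 ^ (4 * k) - m ^ 2 : ℤ)) : ℝ) := by
        rw [hre]; positivity
      exact_mod_cast this
    have hcast : (nf m : ℤ) = c * D * 5 ^ (4 * k) - m ^ 2 := Int.toNat_of_nonneg hpos.le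
    refine ⟨φ, hφ1, hφ2, hφ3, hcast, ?_, ?_⟩
    · have : (1 : ℤ) ≤ nf m := by rw [hcast]; exact hpos
      exact_mod_cast this
    · have h3 : ((nf m : ℕ) : ℝ) = (Q * Real.sin φ) ^ 2 := by
        rw [← hre, ← hcast]
        push_cast
        rfl
      rw [h3, Real.sqrt_sq (by positivity)]
  set Z : Finset (ℤ × (ℤ × ℤ × ℤ)) := A.biUnion (fun m => (ZS v c D m (nf m)).image (fun y => (m, y)))
    with hZ
  have hmem : ∀ p ∈ Z, p.1 ∈ A ∧ p.2 ∈ ZS v c D p.1 (nf p.1) := by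
    intro p hp
    rw [hZ] at hp
    simp only [Finset.mem_biUnion, Finset.mem_image] at hp
    obtain ⟨m, hm, y, hy, rfl⟩ := hp
    exact ⟨hm, hy⟩
  have hZS3 : ∀ p ∈ Z, p.2 ∈ S3 (nf p.1) := by
    intro p hp
    have := (hmem p hp).2
    unfold ZS at this
    exact (Finset.mem_filter.1 this).1
  have hcardZ : Z.card = ∑ m ∈ A, (ZS v c D m (nf m)).card := by
    rw [hZ, Finset.card_biUnion]
    · refine Finset.sum_congr rfl fun m _ => ?_
      rw [Finset.card_image_of_injective]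
      intro y y' h
      exact (Prod.mk.inj h).2
    · intro m _ m' _ hmm
      rw [Function.onFun, Finset.disjoint_left]
      intro x hx hx'
      obtain ⟨y, _, rfl⟩ := Finset.mem_image.1 hx
      obtain ⟨y', _, h⟩ := Finset.mem_image.1 hx'
      exact hmm (Prod.mk.inj h).1.symm
  have hTl : (A.card : ℝ) * (c₀ * (c₃ * (Q * r)) ^ (1 - 2 * d)) ≤ (Z.card : ℝ) := by
    rw [hcardZ, Nat.cast_sum, ← nsmul_eq_mul, ← Finset.sum_const]
    refine Finset.sum_le_sum fun m hm => ?_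
    obtain ⟨φ, h1, h2, h3, h4, h5, h6⟩ := hArc m hm
    refine le_trans ?_ (hPc k m (nf m) (hA m hm).1 h4 h5)
    refine mul_le_mul_of_nonneg_left ?_ hc₀.le
    have h7 : c₃ * (Q * r) ≤ Real.sqrt (nf m) := by
      rw [h6]
      have h8 : c₃ * φ ≤ Real.sin φ := hsin φ (by linarith) (by linarith)
      have h9 : c₃ * r ≤ Real.sin φ := le_trans (by nlinarith) h8
      nlinarith
    have h10 : ((nf m : ℕ) : ℝ) ^ (1 / 2 - d) = Real.sqrt (nf m) ^ (1 - 2 * d) := by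
      rw [Real.sqrt_eq_rpow, ← Real.rpow_mul (Nat.cast_nonneg _)]
      congr 1
      ring
    rw [h10]
    exact Real.rpow_le_rpow (by positivity) h7 (by linarith)
  have hT0 : (0 : ℝ) < (Z.card : ℝ) := lt_of_lt_of_le (by positivity) hTl
  -- the number N
  set N : ℕ := ⌈(r * t) ^ 2 * t ^ d⌉₊ + 2 with hNdef
  have hN1 : (r * t) ^ 2 * t ^ d + 2 ≤ (N : ℝ) := by
    rw [hNdef]
    push_cast
    have := Nat.le_ceil ((r * t) ^ 2 * t ^ d)
    linarith
  have hrt2 : 1 ≤ (r * t) ^ 2 := one_le_pow₀ hrt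
  have hrtd : 1 ≤ (r * t) ^ 2 * t ^ d := by nlinarith
  have hN2 : (N : ℝ) ≤ 4 * (r * t) ^ 2 * t ^ d := by
    rw [hNdef]
    push_cast
    have := Nat.ceil_lt_add_one (show (0 : ℝ) ≤ (r * t) ^ 2 * t ^ d by positivity)
    nlinarith
  have hN64 : (N : ℝ) ≤ 64 * t ^ 3 := by
    refine hN2.trans ?_
    have h4 : t ^ d ≤ t := by
      calc t ^ d ≤ t ^ (1 : ℝ) := Real.rpow_le_rpow_of_exponent_le ht1 (by linarith)
        _ = t := Real.rpow_one t
    have h5 : (r * t) ^ 2 ≤ (4 * t) ^ 2 := by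
      have : r ≤ 4 := by linarith
      gcongr
    calc 4 * (r * t) ^ 2 * t ^ d ≤ 4 * (4 * t) ^ 2 * t := by gcongr
      _ = 64 * t ^ 3 := by ring
  have hNlog : 4 * Real.log (2 * (D : ℝ) ^ 2 * N) / (N - 1) ≤ (1 / (4 * (r * t))) ^ 2 := by
    have hN0 : (0 : ℝ) < N := by linarith
    have h1 : Real.log (2 * (D : ℝ) ^ 2 * N) ≤ Real.log (128 * (D : ℝ) ^ 2 * t ^ 3) := by
      refine Real.log_le_log (by positivity) ?_
      have : (0 : ℝ) < (D : ℝ) ^ 2 := by positivity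
      nlinarith
    have h2 : 64 * Real.log (2 * (D : ℝ) ^ 2 * N) ≤ t ^ d := by linarith
    have h3 : (0 : ℝ) < (N : ℝ) - 1 := by linarith
    rw [div_le_iff₀ h3]
    have h4 : (1 / (4 * (r * t))) ^ 2 * ((N : ℝ) - 1) ≥ (1 / (4 * (r * t))) ^ 2 * ((r * t) ^ 2 * t ^ d) :=
      mul_le_mul_of_nonneg_left (by linarith) (by positivity)
    have h5 : (1 / (4 * (r * t))) ^ 2 * ((r * t) ^ 2 * t ^ d) = t ^ d / 16 := by
      have : r * t ≠ 0 := by positivity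
      field_simp
      norm_num
    linarith
  have hpt : ∀ p : ℤ × (ℤ × ℤ × ℤ), ∃ x : S 3, p ∈ Z →
      imq (x : E 3) = (Real.sqrt (nf p.1))⁻¹ • cz (pq p.2) := by
    intro p
    by_cases hp : p ∈ Z
    · obtain ⟨φ, _, _, _, _, h5, _⟩ := hArc p.1 (hmem p hp).1
      obtain ⟨x, hx⟩ := p5_pt (nf p.1) h5 p.2 (hZS3 p hp)
      exact ⟨x, fun _ => hx⟩
    · exact ⟨ehat true, fun h => absurd h hp⟩
  choose yh hyh using hpt
  refine ⟨k, N, Z, nf, yh, hk3, by omega, hNlog, by exact_mod_cast hT0, ?_, ?_⟩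
  · intro p hp
    obtain ⟨φ, h1, h2, h3, h4, h5, h6⟩ := hArc p.1 (hmem p hp).1
    refine ⟨?_, h4, h5, (hmem p hp).2, hyh p hp, φ, h1, h2, by linarith, ?_, ?_⟩
    · exact (hPco k p.1 (hA p.1 (hmem p hp).1).1).of_isCoprime_of_dvd_right (Dvd.intro_left _ rfl)
    · rw [hQsqrt, h3]
      field_simp
    · rw [hQsqrt, h6]
      field_simp
  · obtain ⟨N₀, hN₀⟩ : ∃ N₀ : ℕ, (N₀ : ℤ) = c * D * 5 ^ (4 * k) :=
      ⟨(c * D * 5 ^ (4 * k)).toNat, Int.toNat_of_nonneg (by positivity)⟩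
    have hN₀R : (N₀ : ℝ) = Q ^ 2 := by
      rw [hQsq]
      have : ((N₀ : ℤ) : ℝ) = ((c * D * 5 ^ (4 * k) : ℤ) : ℝ) := by rw [hN₀]
      push_cast at this
      exact this
    have hdt : ∀ p ∈ Z, dt p.2 p.2 = (nf p.1 : ℤ) := by
      intro p hp
      rw [← mem_S3.1 (hZS3 p hp)]
      unfold dt
      ring
    have hE := hwe N₀ A Z (by
      intro p hp
      obtain ⟨φ, h1, h2, h3, h4, h5, h6⟩ := hArc p.1 (hmem p hp).1
      refine ⟨(hmem p hp).1, ?_, ?_⟩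
      · rw [hdt p hp, h4, hN₀]
        ring
      · intro h0
        have h7 := hdt p hp
        rw [h0] at h7
        simp [dt] at h7
        omega) N (by omega) (4 * Q ^ 2 * r ^ 2) (Q ^ 2 / (64 * t ^ 2)) (by positivity)
      (by positivity) (by
      intro p hp
      obtain ⟨φ, h1, h2, h3, h4, h5, h6⟩ := hArc p.1 (hmem p hp).1
      rw [hdt p hp]
      have h7 : (((nf p.1 : ℕ) : ℤ) : ℝ) = (Real.sqrt (nf p.1)) ^ 2 := by
        rw [Real.sq_sqrt (Nat.cast_nonneg _)]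
        push_cast
        rfl
      rw [h7, h6]
      have h8 : Real.sin φ ≤ 2 * r := by
        have h9 := (Real.sin_lt (show 0 < φ by linarith)).le
        have h10 : 1 / (8 * t) ≤ r := by
          refine le_trans ?_ hr
          apply one_div_le_one_div_of_le <;> linarith
        linarith
      have h11 : 0 ≤ Real.sin φ := Real.sin_nonneg_of_nonneg_of_le_pi (by linarith) (by linarith)
      calc (Q * Real.sin φ) ^ 2 ≤ (Q * (2 * r)) ^ 2 := by gcongr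
        _ = 4 * Q ^ 2 * r ^ 2 := by ring) (by
      intro p hp p' hp'
      obtain ⟨φ, h1, h2, h3, h4, h5, h6⟩ := hArc p.1 (hmem p hp).1
      obtain ⟨φ', h1', h2', h3', h4', h5', h6'⟩ := hArc p'.1 (hmem p' hp').1
      rw [hdt p hp, hdt p' hp']
      have e1 : Real.sqrt (((nf p.1 : ℕ) : ℤ) : ℝ) = Q * Real.sin φ := by
        rw [← h6]; push_cast; rfl
      have e2 : Real.sqrt (((nf p'.1 : ℕ) : ℤ) : ℝ) = Q * Real.sin φ' := by
        rw [← h6']; push_cast; rfl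
      rw [e1, e2, ← mul_sub, mul_pow]
      have h7 : |Real.sin φ - Real.sin φ'| ≤ 1 / (8 * t) := by
        refine (Real.abs_sin_sub_sin_le φ φ').trans ?_
        rw [abs_le]
        constructor <;> linarith
      have h8 : (Real.sin φ - Real.sin φ') ^ 2 ≤ (1 / (8 * t)) ^ 2 := by
        rw [← sq_abs]
        exact pow_le_pow_left₀ (abs_nonneg _) h7 2
      calc Q ^ 2 * (Real.sin φ - Real.sin φ') ^ 2 ≤ Q ^ 2 * (1 / (8 * t)) ^ 2 :=
            mul_le_mul_of_nonneg_left h8 (by positivity)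
        _ = Q ^ 2 / (64 * t ^ 2) := by field_simp; norm_num) yh (by
      intro p hp p' hp'
      rw [p5_inner (nf p.1) (nf p'.1) p.2 p'.2 (yh p) (yh p') (hyh p hp) (hyh p' hp'),
        hdt p hp, hdt p' hp']
      push_cast
      rfl)
    rw [hN₀R] at hE
    exact hreal t r Q N (A.card : ℝ) (Z.card : ℝ) _ ht1 hr0 (by linarith) hQ0 hQr hQ3 hQ4
      (Nat.cast_nonneg _) hN2 hα hTl hE

theorem p5_pos {ι : Type} (Z : Finset ι) (f : ι → ℝ) (τ : ℝ) (hZ : 0 < Z.card)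
    (h : (Z.card : ℝ) * τ ≤ ∑ p ∈ Z, f p) : ∃ p ∈ Z, τ ≤ f p := by
  by_contra hcon
  push Not at hcon
  have hne : Z.Nonempty := Finset.card_pos.1 hZ
  have h1 : ∑ p ∈ Z, f p < ∑ _p ∈ Z, τ := Finset.sum_lt_sum_of_nonempty hne hcon
  rw [Finset.sum_const, nsmul_eq_mul] at h1
  linarith

theorem p5_NU_le (D : ℕ) [NeZero D] : (NU D : ℝ) ≤ (D : ℝ) ^ 2 := by
  have h1 : NU D ≤ D ^ 2 := by
    classical
    unfold NU
    refine (Finset.card_filter_le _ _).trans ?_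
    rw [Finset.card_univ, Fintype.card_fun, ZMod.card, Fintype.card_fin]
  exact_mod_cast h1

theorem p5_NU_pos (D : ℕ) [NeZero D] (e : Vec D) (he : Uni e) : 0 < (NU D : ℝ) := by
  have h1 : 0 < NU D := by
    classical
    unfold NU
    exact Finset.card_pos.2 ⟨e, Finset.mem_filter.2 ⟨Finset.mem_univ _, he⟩⟩
  exact_mod_cast h1

theorem p5_length (t r d δ : ℝ) (k n i : ℕ) (ht : 1 ≤ t) (hr : 0 < r) (hd : 0 < d)
    (hdδ : d ≤ δ / 8) (hi : (i : ℝ) ≤ δ / 8 * Real.logb 5 t) (hn : n ≤ i)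
    (hk : (4 * k : ℝ) ≤ 2 * Real.logb 5 (max (t / r) (t ^ ((3 : ℝ) / 2)) * t ^ d) + 4) :
    ((4 * k + 2 * n : ℕ) : ℝ) ≤
      max (3 * Real.logb 5 t) (2 * Real.logb 5 (t / r)) + δ * Real.logb 5 t + 4 := by
  have ht0 : 0 < t := by linarith
  have hl : 0 ≤ Real.logb 5 t := Real.logb_nonneg (by norm_num) ht
  have h1 : Real.logb 5 (max (t / r) (t ^ ((3 : ℝ) / 2)) * t ^ d) =
      Real.logb 5 (max (t / r) (t ^ ((3 : ℝ) / 2))) + d * Real.logb 5 t := by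
    rw [Real.logb_mul (ne_of_gt (lt_of_lt_of_le (by positivity) (le_max_left _ _)))
      (by positivity), Real.logb_rpow_eq_mul_logb_of_pos ht0]
  have h2 : 2 * Real.logb 5 (max (t / r) (t ^ ((3 : ℝ) / 2))) ≤
      max (3 * Real.logb 5 t) (2 * Real.logb 5 (t / r)) := by
    rcases le_total (t / r) (t ^ ((3 : ℝ) / 2)) with h | h
    · rw [max_eq_right h, Real.logb_rpow_eq_mul_logb_of_pos ht0]
      refine le_trans (le_of_eq ?_) (le_max_left _ _)
      ring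
    · rw [max_eq_left h]
      exact le_max_right _ _
  have hn' : (n : ℝ) ≤ i := by exact_mod_cast hn
  push_cast
  rw [h1] at hk
  have h3 : d * Real.logb 5 t ≤ δ / 8 * Real.logb 5 t := mul_le_mul_of_nonneg_right hdδ hl
  have h4 : 0 ≤ δ * Real.logb 5 t := mul_nonneg (by linarith) hl
  have h5 : δ / 8 * Real.logb 5 t = δ * Real.logb 5 t / 8 := by ring
  rw [h5] at h3 hi
  linarith

theorem p5_alg1 (z f n : ℝ) (hn : 0 < n) : z * (f / (2 * n)) = f * z / n / 2 := by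
  field_simp

theorem p5_alg2 (κi I f z n E : ℝ) (hκ : 0 < κi) (hf : 1 ≤ f) (hz : 0 < z) (hn : 0 < n) (hE : 0 ≤ E)
    (hI : I ≤ f * (E * z ^ 2)) : 4 * κi * I / (f * z / n) ^ 2 ≤ 4 * κi * (E * n ^ 2) := by
  rw [div_le_iff₀ (by positivity)]
  have h9 : f ≤ f ^ 2 := by nlinarith
  calc 4 * κi * I ≤ 4 * κi * (f * (E * z ^ 2)) := mul_le_mul_of_nonneg_left hI (by positivity)
    _ ≤ 4 * κi * (f ^ 2 * (E * z ^ 2)) := by gcongr
    _ = 4 * κi * (E * n ^ 2) * (f * z / n) ^ 2 := by field_simp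

theorem p5_alg3 (f n D : ℝ) (hf : 1 ≤ f) (hn : 0 < n) (hD : 0 < D) (h : n ≤ D ^ 2) :
    1 / (2 * D ^ 2) ≤ f / (2 * n) := by
  rw [div_le_div_iff₀ (by positivity) (by positivity)]
  nlinarith

/-- TARGET -/
theorem upper_g (v : ℍ[ℤ]) (hv : PrimQ v) (h5 : ¬ (5 : ℤ) ∣ Quaternion.normSq v) (r₁ : ℝ) (hr : 0 < r₁)
    (hr' : r₁ < Real.pi) (δ : ℝ) (hδ : 0 < δ) :
    ∃ η C : ℝ, 0 < η ∧ 0 < C ∧ ∀ ε : ℝ, 0 < ε → ε < 1 → ∀ r : ℝ, ε ≤ r → r ≤ r₁ →
      (sg 3).real {x | ¬ ∃ (L : ℕ) (q : ℍ[ℤ]), Gd q ∧ Quaternion.normSq q = 5 ^ L ∧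
        (L : ℝ) ≤ max (3 * Real.logb 5 (1 / ε)) (2 * Real.logb 5 (1 / (r * ε))) + δ * Real.logb 5 (1 / ε) + C ∧
        ‖vh v * rq (imq (x : E 3)) r - qh L q‖ < ε} ≤ C * ε ^ η := by
  classical
  have hprob := sg_prob 3 (by norm_num)
  obtain ⟨c, D, hc, hD, hN⟩ := norm_cD v hv
  have hDpos : 0 < D := hD.pos
  have : NeZero D := ⟨hDpos.ne'⟩
  have hc1 : (1 : ℤ) ≤ c := by rcases hc with h | h | h <;> omega
  have hnpos : 0 < Quaternion.normSq v := by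
    rw [hN]
    have : (0 : ℤ) < D := by exact_mod_cast hDpos
    positivity
  have hD5 : Nat.Coprime D 5 := by
    rw [Nat.coprime_comm, Nat.Prime.coprime_iff_not_dvd (by norm_num)]
    intro h
    refine h5 ?_
    rw [hN]
    exact Dvd.dvd.mul_left (by exact_mod_cast h) _
  obtain ⟨s₁, s₂, hs⟩ := split_rs D hD
  set tt : ZMod D × ZMod D := (s₁, s₂) with htt
  have hSq : Q.Sq tt := hs
  obtain ⟨e, he, hve, _⟩ := ker_g D hD tt hSq v (fun p hp _ h => hv p hp h)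
    (by rw [hN]; exact Dvd.intro_left _ rfl)
  obtain ⟨R, hR⟩ := exists_RQ'
  obtain ⟨κ, hκ0, hκ1, havg⟩ := avg_point_D R hR
  have hlog5 : 0 < Real.log 5 := Real.log_pos (by norm_num)
  have hlogκ : Real.log κ < 0 := Real.log_neg hκ0 hκ1
  set ρ : ℝ := δ / 8 * (-Real.log κ) / Real.log 5 with hρ
  have hρ0 : 0 < ρ := by
    have : 0 < -Real.log κ := by linarith
    positivity
  set d : ℝ := min (1 / 4) (min (ρ / 22) (δ / 8)) with hd
  have hd0 : 0 < d := lt_min (by norm_num) (lt_min (by positivity) (by positivity))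
  have hd1 : d ≤ 1 / 4 := min_le_left _ _
  have hdρ : 22 * d ≤ ρ := by
    have : d ≤ ρ / 22 := (min_le_right _ _).trans (min_le_left _ _)
    linarith
  have hdδ : d ≤ δ / 8 := (min_le_right _ _).trans (min_le_right _ _)
  obtain ⟨K₁, t₀, hK₁, ht₀, hdata⟩ := p5_data v hv c D hc hD hN r₁ hr hr' d hd0 hd1
  have hNU := p5_NU_pos D e he
  have hNUle := p5_NU_le D
  have hphi : (1 : ℝ) ≤ D.totient := by exact_mod_cast Nat.totient_pos.2 hDpos
  have hDR : (1 : ℝ) ≤ D := by exact_mod_cast hDpos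
  set C : ℝ := 4 + t₀ ^ ρ + 4 * (κ ^ 2)⁻¹ * K₁ * (NU D : ℝ) ^ 2 with hC
  have hC0 : 0 < C := by positivity
  have hC4 : 4 ≤ C := by
    have : 0 < t₀ ^ ρ + 4 * (κ ^ 2)⁻¹ * K₁ * (NU D : ℝ) ^ 2 := by positivity
    rw [hC]; linarith
  refine ⟨ρ, C, hρ0, hC0, ?_⟩
  intro ε hε hε1 r hrε hrr
  set t : ℝ := 1 / ε with ht
  have ht0 : 0 < t := by positivity
  have htε : t * ε = 1 := by rw [ht]; field_simp
  have ht1 : 1 ≤ t := by nlinarith
  have hr0 : 0 < r := by linarith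
  have htr : 1 / (r * ε) = t / r := by rw [ht]; field_simp
  have hεt : ε ^ ρ = t ^ (-ρ) := by
    rw [ht, one_div, Real.inv_rpow hε.le, Real.rpow_neg hε.le, inv_inv]
  have hεt1 : 1 / t = ε := by rw [ht, one_div_one_div]
  rw [htr]
  by_cases htt' : t₀ ≤ t
  · obtain ⟨k, N, Z, nf, yh, hk, hN2, hNlog, hcard, hZ, hE⟩ := hdata t r htt'
      (by rw [hεt1]; exact hrε) hrr
    have hlogt : 0 ≤ Real.logb 5 t := Real.logb_nonneg (by norm_num) ht1
    set i : ℕ := ⌊δ / 8 * Real.logb 5 t⌋₊ with hi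
    have hi1 : (i : ℝ) ≤ δ / 8 * Real.logb 5 t := Nat.floor_le (by positivity)
    have hi2 : δ / 8 * Real.logb 5 t - 1 ≤ i := by
      have := Nat.lt_floor_add_one (δ / 8 * Real.logb 5 t)
      rw [← hi] at this
      linarith
    have hZ0 : (0 : ℝ) < Z.card := by exact_mod_cast hcard
    -- the vectors
    have huex : ∀ p : ℤ × (ℤ × ℤ × ℤ), ∃ u : Vec D, p ∈ Z → (Uni u ∧
        ∀ z : Vec D, ∃ s : ZMod D, (Q.Ph tt (mq p.1 p.2)).mulVec z = s • u) := by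
      intro p
      by_cases hp : p ∈ Z
      · obtain ⟨g1, g2, g3, g4, _⟩ := hZ p hp
        have hS : p.2 ∈ S3 (nf p.1) := by
          unfold ZS at g4
          exact (Finset.mem_filter.1 g4).1
        obtain ⟨u, hu1, hu2, _⟩ := uvec_g D hD tt hSq (mq p.1 p.2) (by
          have e1 : Quaternion.normSq (mq p.1 p.2) = c * D * 5 ^ (4 * k) := by
            rw [Quaternion.normSq_def']
            have := mem_S3.1 hS
            simp only [mq]
            linarith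
          rw [e1]
          exact ⟨c * 5 ^ (4 * k), by ring⟩) g1
        exact ⟨u, fun _ => ⟨hu1, hu2⟩⟩
      · exact ⟨0, fun h => absurd h hp⟩
    choose uz huz using huex
    set F : Vec D → C(S 3, ℝ) := fam Z uz yh N with hF
    have hFadm : AdmF F := fam_adm Z uz yh N (fun p hp => (huz p hp).1)
    have hFtot : tot F = D.totient * Z.card := fam_tot Z uz yh N (by omega) (fun p hp => (huz p hp).1)
    set T : ℝ := D.totient * Z.card / NU D with hT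
    have hT0 : 0 < T := by positivity
    have hTtot : tot F = T * NU D := by
      rw [hFtot, hT, div_mul_cancel₀ _ hNU.ne']
    have hip : ip F F ≤ D.totient * (K₁ * t ^ (22 * d) * (Z.card : ℝ) ^ 2) := by
      have h1 := fam_ip Z uz yh Z uz yh N (by omega) (fun p hp => (huz p hp).1)
        (fun p hp => (huz p hp).1)
      rw [hF, h1]
      refine mul_le_mul_of_nonneg_left (le_trans ?_ hE) (by positivity)
      refine Finset.sum_le_sum fun p _ => Finset.sum_le_sum fun p' _ => ?_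
      split_ifs
      · exact le_rfl
      · exact (k2_le N (by omega) _ _).1
    have hav := havg D hD hD5 tt hSq F hFadm T hT0 hTtot e he i
    have hsub : {x : S 3 | ¬ ∃ (L : ℕ) (q : ℍ[ℤ]), Gd q ∧ Quaternion.normSq q = 5 ^ L ∧
        (L : ℝ) ≤ max (3 * Real.logb 5 t) (2 * Real.logb 5 (t / r)) + δ * Real.logb 5 t + C ∧
        ‖vh v * rq (imq (x : E 3)) r - qh L q‖ < ε} ⊆
        {x | ∀ w : List (Fin 6), w.length ≤ i →
          F ((Q.Ph tt (qw w)).mulVec e) (rot (R (uw w)) x) < T / 2} := by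
      intro x hx w hw
      by_contra hcon
      push Not at hcon
      refine hx ?_
      rw [hF, c2_fam_apply] at hcon
      have hTZ : (Z.card : ℝ) * (D.totient / (2 * NU D)) = T / 2 :=
        p5_alg1 _ _ _ hNU
      rw [← hTZ] at hcon
      obtain ⟨p, hp, hkp⟩ := p5_pos Z _ _ hcard hcon
      have hlow : 1 / (2 * (D : ℝ) ^ 2) ≤ D.totient / (2 * NU D) :=
        p5_alg3 _ _ _ hphi hNU (by linarith) hNUle
      have hpos : (0 : ℝ) < 1 / (2 * (D : ℝ) ^ 2) := by positivity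
      by_cases hline : ∃ a : (ZMod D)ˣ, (Q.Ph tt (qw w)).mulVec e = (a : ZMod D) • uz p
      · rw [if_pos hline] at hkp
        obtain ⟨g1, g2, g3, g4, g5, φ, g6, g7, g8, g9, g10⟩ := hZ p hp
        obtain ⟨q, r', hq1, hq2, _, hq4, hq5⟩ := point_hit R hR v hv c D hc hD hD5 hN tt hSq e hve k
          p.1 (nf p.1) g2 g3 p.2 g4 (uz p) (huz p hp).2 w hline x (yh p) g5 N hN2 (hlow.trans hkp)
        refine ⟨4 * k + 2 * w.length, q, hq1, hq2, ?_, ?_⟩
        · have := p5_length t r d δ k w.length i ht1 hr0 hd0 hdδ hi1 hw hk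
          linarith
        · rw [hq4, g9, g10]
          have h8 : ε / 8 = 1 / (8 * t) := by rw [ht]; field_simp
          refine p5_dist v hnpos x r φ ε r' hε hrε g6 (by rw [h8]; exact g7) g8 ?_
          have h9 := hq5.trans hNlog
          have h10 : ε / (4 * r) = 1 / (4 * (r * t)) := by rw [ht]; field_simp
          rw [h10]
          exact (pow_le_pow_iff_left₀ (norm_nonneg _) (by positivity) (by norm_num)).1 h9
      · rw [if_neg hline] at hkp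
        linarith
    have hfin : (sg 3) {x | ∀ w : List (Fin 6), w.length ≤ i →
          F ((Q.Ph tt (qw w)).mulVec e) (rot (R (uw w)) x) < T / 2} ≠ ⊤ := measure_ne_top _ _
    refine (measureReal_mono hsub hfin).trans (hav.trans ?_)
    have h6 : κ ^ (2 * i) ≤ (κ ^ 2)⁻¹ * t ^ (-(2 * ρ)) := by
      calc κ ^ (2 * i) = κ ^ ((2 * i : ℕ) : ℝ) := (Real.rpow_natCast _ _).symm
        _ ≤ κ ^ (δ / 4 * Real.logb 5 t - 2) := by
            refine Real.rpow_le_rpow_of_exponent_ge hκ0 hκ1.le ?_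
            push_cast
            linarith
        _ = (κ ^ 2)⁻¹ * κ ^ (δ / 4 * Real.logb 5 t) := by
            rw [Real.rpow_sub hκ0, div_eq_mul_inv, mul_comm]
            norm_cast
        _ = (κ ^ 2)⁻¹ * t ^ (-(2 * ρ)) := by
            congr 1
            rw [Real.rpow_def_of_pos hκ0, Real.rpow_def_of_pos ht0, hρ, Real.logb]
            congr 1
            field_simp
            ring
    have h7 : 4 * κ ^ (2 * i) * ip F F / T ^ 2 ≤
        4 * κ ^ (2 * i) * (K₁ * t ^ (22 * d) * (NU D : ℝ) ^ 2) :=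
      p5_alg2 _ _ _ _ _ _ (by positivity) hphi hZ0 hNU (by positivity) hip
    refine h7.trans ?_
    have h8 : t ^ (-(2 * ρ)) * t ^ (22 * d) ≤ t ^ (-ρ) := by
      rw [← Real.rpow_add ht0]
      exact Real.rpow_le_rpow_of_exponent_le ht1 (by linarith)
    rw [hεt]
    calc 4 * κ ^ (2 * i) * (K₁ * t ^ (22 * d) * (NU D : ℝ) ^ 2)
        ≤ 4 * ((κ ^ 2)⁻¹ * t ^ (-(2 * ρ))) * (K₁ * t ^ (22 * d) * (NU D : ℝ) ^ 2) := by
          refine mul_le_mul_of_nonneg_right ?_ (by positivity)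
          exact mul_le_mul_of_nonneg_left h6 (by norm_num)
      _ = 4 * (κ ^ 2)⁻¹ * K₁ * (NU D : ℝ) ^ 2 * (t ^ (-(2 * ρ)) * t ^ (22 * d)) := by ring
      _ ≤ 4 * (κ ^ 2)⁻¹ * K₁ * (NU D : ℝ) ^ 2 * t ^ (-ρ) :=
          mul_le_mul_of_nonneg_left h8 (by positivity)
      _ ≤ C * t ^ (-ρ) := by
          refine mul_le_mul_of_nonneg_right ?_ (by positivity)
          have : 0 < 4 + t₀ ^ ρ := by positivity
          rw [hC]; linarith
  · push Not at htt'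
    have h3 : 1 ≤ t₀ ^ ρ * ε ^ ρ := by
      rw [← Real.mul_rpow (by linarith) hε.le]
      refine Real.one_le_rpow ?_ hρ0.le
      nlinarith
    have h4 : (1 : ℝ) ≤ C * ε ^ ρ := by
      refine h3.trans (mul_le_mul_of_nonneg_right ?_ (by positivity))
      have : 0 < 4 * (κ ^ 2)⁻¹ * K₁ * (NU D : ℝ) ^ 2 := by positivity
      rw [hC]; linarith
    exact measureReal_le_one.trans h4

end Pool.Agent.H978V
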