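import Pool.Agent.H978V.NDefs
import Pool.Agent.H978V.SDefs
import Pool.Agent.H978V.M13a
import Pool.Agent.H978V.L13
import Pool.Agent.Helper557.Rz.M_rq
import Pool.Agent.Helper557.Rz.M_meas
import Pool.Agent.H978V.P5

/-!
JOB P5b (owner helper978, MP_06cce2_nt), done by helper459.

Reduction from arbitrary `v ≠ 0` to primitive `v` of norm prime to `5`.
-/

set_option autoImplicit false

open MeasureTheory Set
open scoped Quaternion

namespace Pool.Agent.H978V

open Pool.Agent.Helper557.Rz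

theorem p5b_qh_norm (w : List (Fin 6)) : ‖qh w.length (qw w)‖ = 1 := by
  induction w with
  | nil =>
    change ‖qh 0 1‖ = 1
    unfold qh
    rw [cz_one]
    simp
  | cons a v ih =>
    change ‖qh (v.length + 1) (qw v * al a)‖ = 1
    rw [l13_qh_al, norm_mul, ih, l13_be_norm, mul_one]

theorem p5b_vh (y : ℍ[ℤ]) (w : List (Fin 6)) :
    vh (y * qw w) = vh y * qh w.length (qw w) := by
  induction w with
  | nil =>
    change vh (y * 1) = vh y * qh 0 1
    unfold qh
    rw [mul_one, cz_one]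
    simp
  | cons a v ih =>
    change vh (y * (qw v * al a)) = vh y * qh (v.length + 1) (qw v * al a)
    rw [← mul_assoc, l13_vh_al, ih, l13_qh_al, mul_assoc]

theorem p5b_qh (L : ℕ) (x : ℍ[ℤ]) (w : List (Fin 6)) :
    qh (L + w.length) (x * qw w) = qh L x * qh w.length (qw w) := by
  induction w with
  | nil =>
    change qh (L + 0) (x * 1) = qh L x * qh 0 1
    rw [mul_one, add_zero]
    have : qh 0 1 = 1 := by
      unfold qh
      rw [cz_one]
      simp
    rw [this, mul_one]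
  | cons a v ih =>
    change qh (L + (v.length + 1)) (x * (qw v * al a)) = qh L x * qh (v.length + 1) (qw v * al a)
    rw [← mul_assoc, ← add_assoc, l13_qh_al, ih, l13_qh_al, mul_assoc]

theorem p5b_gd (x : ℍ[ℤ]) (w : List (Fin 6)) (hx : Gd x) : Gd (x * qw w) := by
  induction w with
  | nil =>
    change Gd (x * 1)
    rw [mul_one]
    exact hx
  | cons a v ih =>
    change Gd (x * (qw v * al a))
    rw [← mul_assoc]
    exact (c5_good a _).2 ih

theorem p5b_uw (w : List (Fin 6)) : ((uw w : ℍ[ℝ]ˣ) : ℍ[ℝ]) = cz (qw w) := by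
  induction w with
  | nil =>
    change ((1 : ℍ[ℝ]ˣ) : ℍ[ℝ]) = cz 1
    rw [cz_one, Units.val_one]
  | cons a v ih =>
    change ((uw v * ua a : ℍ[ℝ]ˣ) : ℍ[ℝ]) = cz (qw v * al a)
    rw [Units.val_mul, ih, cz_mul]
    rfl

theorem p5b_rot (p p' u : ℍ[ℝ]) (φ : ℝ) (hu : star u * u = 1) (h : p' = u * p * star u) :
    u * rq p φ = rq p' φ * u := by
  unfold rq
  rw [h, mul_add, add_mul, mul_smul_comm, smul_mul_assoc, mul_assoc (u * p), hu, mul_one]
  congr 1
  exact (Quaternion.coe_commutes _ _).symm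

theorem p5b_conj (w : List (Fin 6)) (p : ℍ[ℝ]) :
    ((uw w : ℍ[ℝ]ˣ) : ℍ[ℝ]) * p * (((uw w)⁻¹ : ℍ[ℝ]ˣ) : ℍ[ℝ]) =
      qh w.length (qw w) * p * star (qh w.length (qw w)) := by
  rw [unit_inv, p5b_uw, l13_normSq_cz, (good_qw w).2]
  unfold qh
  rw [Quaternion.star_smul, smul_mul_assoc, smul_mul_assoc, mul_smul_comm, mul_smul_comm, smul_smul]
  congr 1
  push_cast
  have h5 : (Real.sqrt 5) ^ w.length * (Real.sqrt 5) ^ w.length = (5 : ℝ) ^ w.length := by
    rw [← mul_pow, Real.mul_self_sqrt (by norm_num)]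
  rw [one_div_mul_one_div, h5, one_div]

theorem p5b_meas (g : Iso 3) (A B : Set (S 3)) (h : A ⊆ rot g ⁻¹' B) :
    (sg 3).real A ≤ (sg 3).real B := by
  have hp := sg_prob 3 (by norm_num)
  have h1 : (sg 3) A ≤ (sg 3) B := by
    calc (sg 3) A ≤ (sg 3) (rot g ⁻¹' (toMeasurable (sg 3) B)) :=
          measure_mono (h.trans (Set.preimage_mono (subset_toMeasurable _ _)))
      _ = (sg 3) (toMeasurable (sg 3) B) :=
          (rot_mp 3 (by norm_num) g).measure_preimage
            (measurableSet_toMeasurable _ _).nullMeasurableSet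
      _ = (sg 3) B := measure_toMeasurable _
  exact ENNReal.toReal_mono (measure_ne_top _ _) h1


/-- TARGET -/
theorem upper_all (v : ℍ[ℤ]) (hv : v ≠ 0) (r₁ : ℝ) (hr : 0 < r₁)
    (hr' : r₁ < Real.pi) (δ : ℝ) (hδ : 0 < δ) :
    ∃ η C : ℝ, 0 < η ∧ 0 < C ∧ ∀ ε : ℝ, 0 < ε → ε < 1 → ∀ r : ℝ, ε ≤ r → r ≤ r₁ →
      (sg 3).real {x | ¬ ∃ (L : ℕ) (q : ℍ[ℤ]), Gd q ∧ Quaternion.normSq q = 5 ^ L ∧
        (L : ℝ) ≤ max (3 * Real.logb 5 (1 / ε)) (2 * Real.logb 5 (1 / (r * ε))) + δ * Real.logb 5 (1 / ε) + C ∧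
        ‖vh v * rq (imq (x : E 3)) r - qh L q‖ < ε} ≤ C * ε ^ η := by
  obtain ⟨g, y, w, hg, hyP, hy5, he⟩ := strip5 v hv
  obtain ⟨R, hR⟩ := exists_RQ
  obtain ⟨η, C, hη, hC, H⟩ := upper_g y hyP hy5 r₁ hr hr' δ hδ
  refine ⟨η, C + w.length, hη, by positivity, ?_⟩
  intro ε hε hε1 r hr1 hr2
  have hg0 : (0 : ℤ) < (g : ℤ) := by exact_mod_cast hg
  have hω : star (qh w.length (qw w)) * qh w.length (qw w) = 1 := by
    rw [Quaternion.star_mul_self, Quaternion.normSq_eq_norm_mul_self, p5b_qh_norm]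
    simp
  have hvv : vh v = vh y * qh w.length (qw w) := by
    rw [he, l13_vh_smul _ hg0, p5b_vh]
  have hεη : 0 < ε ^ η := Real.rpow_pos_of_pos hε _
  refine (p5b_meas (R (uw w)) _ _ ?_).trans ((H ε hε hε1 r hr1 hr2).trans ?_)
  · intro x hx hP
    apply hx
    obtain ⟨L, q, hq, hn, hL, hd⟩ := hP
    refine ⟨L + w.length, q * qw w, p5b_gd q w hq, ?_, ?_, ?_⟩
    · rw [map_mul, hn, (good_qw w).2, pow_add]
    · push_cast
      linarith
    · have hx' : imq ((rot (R (uw w)) x : S 3) : E 3) =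
          qh w.length (qw w) * imq (x : E 3) * star (qh w.length (qw w)) := by
        rw [rot_coe, hR, p5b_conj]
      rw [hvv, p5b_qh, mul_assoc, p5b_rot _ _ _ r hω hx', ← mul_assoc, ← sub_mul, norm_mul,
        p5b_qh_norm, mul_one]
      exact hd
  · have : 0 ≤ (w.length : ℝ) * ε ^ η := by positivity
    linarith

end Pool.Agent.H978V
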