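import Pool.Agent.H978V.NDefs
import Pool.Agent.H978V.K11
import Pool.Agent.H978V.G5

/-!
JOB P6 (owner helper978, MP_06cce2_nt).  `H978V/*.lean` (library, with `K11` (`cap_le`, `lower_scale`)) is on origin/main.

At distance `r ≥ s₀ √ε` from a rational point the set of directions `x` with a word of length `≤ (3-δ) log_5(1/ε)` within `ε` is small.  READ `H978V/K11.lean` (`cap_le`, `lower_scale`, PROVED; the case `v = 1`, `r` fixed).

PROOF.  `d = normSq v ≥ 1`, `c₃ > 0` with `c₃ r ≤ sin r` for `0 ≤ r ≤ r₁`.  We may assume `ε` small in terms of `v, r₁, s₀` (otherwise the measure is `≤ 1 ≤ C ε^η`) and `δ ≤ 3`.  Let `q` have norm `5^L`, `star v * q = m + z` (`m` the real part, `z` the imaginary part, integral), `N₀ = d 5^L = m² + |z|²`, `star (vh v) * qh L q = (m + z)/√N₀ = cos φ + sin φ • p'`, `0 ≤ φ ≤ π`, `p'` a unit pure quaternion.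
If `‖vh v * rq (imq x) r - qh L q‖ < ε` then `‖rq (imq x) r - (cos φ + sin φ • p')‖ < ε`.  The squared norm is `2 - 2 cos r cos φ - 2 sin r sin φ ⟨x,p'⟩ ≥ 2 - 2 cos (φ - r) = 4 sin²((φ-r)/2)`, so `|φ - r| ≤ (π/2) ε ≤ 2ε`; and `sin r ‖imq x - p'‖ ≤ ‖sin r • imq x - sin φ • p'‖ + |sin r - sin φ| ≤ 3ε`.
So `x` is in a cap of radius `3ε/(c₃ r)` (if there are several `x` for the same `q`: all are within `3ε/(c₃ r)` of the point `p'`; note `z ≠ 0`, since `sin φ ≥ sin r - 2ε ≥ c₃ s₀ √ε - 2ε > 0`), measure `≤ C (ε/r)²` (`cap_le`).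
Number of `q`: `m = √N₀ cos φ` with `|φ - r| ≤ 2ε`, so `m` is in an interval of length `≤ 4ε √N₀ (r + 2ε) ≤ C ε r √N₀` (`ε ≤ √ε ≤ r/s₀`): at most `C ε r √N₀ + 1` values; for each `m` the number of `z` with `|z|² = N₀ - m² = N₀ sin² φ ≤ C N₀ r²` is at most `C √N₀ r N₀^δ'` (`scalar_count_r3` in `G5.lean`; `N₀ - m² ≥ 1`); `q` is determined by `m, z` (`star v * q` determines `q`).
Total measure for `L`: `≤ C (1 + ε r √N₀) √N₀ r N₀^δ' (ε/r)² = C N₀^δ' (√N₀ ε²/r + N₀ ε³)`; with `N₀ ≤ d ε^(-(3-δ))`, `r ≥ s₀ √ε`: `√N₀ ε²/r ≤ (√d / s₀) ε^(δ/2)`, `N₀ ε³ ≤ d ε^δ`.  Sum over `L ≤ (3-δ) logb 5 (1/ε)`: a factor `≤ C ε^(-δ')`.  `δ' = δ/100`-like, `η = δ/4`.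
-/

set_option autoImplicit false

open MeasureTheory Set
open scoped Quaternion

namespace Pool.Agent.H978V

open Pool.Agent.Helper557.Rz

private lemma p6_cap (s c : ℝ) (hs : 0 < s) {C : ℝ} (hC : 0 < C)
    (hcap : ∀ (y : S 3) (t : ℝ), 0 < t → (sg 3).real {x | dist x y < t} ≤ C * t ^ 2)
    (ε : ℝ) (hε : 0 < ε) (a b1 b2 b3 : ℝ) :
    (sg 3).real {x : S 3 | (c - a) ^ 2 + ((s * (x : E 3) 0 - b1) ^ 2 + (s * (x : E 3) 1 - b2) ^ 2 +
      (s * (x : E 3) 2 - b3) ^ 2) < ε ^ 2} ≤ C * (2 * ε / s) ^ 2 := by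
  haveI := sg_prob 3 (by norm_num)
  rcases Set.eq_empty_or_nonempty {x : S 3 | (c - a) ^ 2 + ((s * (x : E 3) 0 - b1) ^ 2 +
      (s * (x : E 3) 1 - b2) ^ 2 + (s * (x : E 3) 2 - b3) ^ 2) < ε ^ 2} with he | ⟨x0, hx0⟩
  · rw [he]; simp; positivity
  · have hsub : {x : S 3 | (c - a) ^ 2 + ((s * (x : E 3) 0 - b1) ^ 2 +
      (s * (x : E 3) 1 - b2) ^ 2 + (s * (x : E 3) 2 - b3) ^ 2) < ε ^ 2} ⊆ {x | dist x x0 < 2 * ε / s} := by
      intro x hx
      set v : E 3 := !₂[b1, b2, b3] with hv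
      have key : ∀ z : S 3, (c - a) ^ 2 + ((s * (z : E 3) 0 - b1) ^ 2 +
          (s * (z : E 3) 1 - b2) ^ 2 + (s * (z : E 3) 2 - b3) ^ 2) < ε ^ 2 → ‖s • (z : E 3) - v‖ < ε := by
        intro z hz
        have h3 : ‖s • (z : E 3) - v‖ ^ 2 < ε ^ 2 := by
          rw [k11_nsq]
          simp only [hv, PiLp.sub_apply, PiLp.smul_apply, smul_eq_mul]
          simp
          nlinarith [sq_nonneg (c - a)]
        exact lt_of_pow_lt_pow_left₀ 2 hε.le h3
      have ha := key x hx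
      have hb := key x0 hx0
      have hc : ‖s • ((x : E 3) - (x0 : E 3))‖ < 2 * ε := by
        have e : s • ((x : E 3) - (x0 : E 3)) = (s • (x : E 3) - v) - (s • (x0 : E 3) - v) := by
          rw [smul_sub]; abel
        rw [e]
        refine (norm_sub_le _ _).trans_lt ?_
        linarith
      rw [norm_smul, Real.norm_of_nonneg hs.le] at hc
      show dist x x0 < 2 * ε / s
      rw [Subtype.dist_eq, dist_eq_norm, lt_div_iff₀ hs]
      linarith
    exact (measureReal_mono hsub).trans (hcap x0 _ (by positivity))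

/-- lower bound for the sine -/
private lemma p6_sin (r₁ : ℝ) (hr : 0 < r₁) (hr' : r₁ < Real.pi) :
    ∃ c : ℝ, 0 < c ∧ ∀ r : ℝ, 0 ≤ r → r ≤ r₁ → c * r ≤ Real.sin r := by
  have hpi := Real.pi_pos
  have hA : 0 < 2 / Real.pi := by positivity
  have hB : 0 < 2 / Real.pi * (Real.pi - r₁) / Real.pi := by
    have : 0 < Real.pi - r₁ := by linarith
    positivity
  refine ⟨min (2 / Real.pi) (2 / Real.pi * (Real.pi - r₁) / Real.pi), lt_min hA hB, ?_⟩
  intro r h0 h1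
  rcases le_total r (Real.pi / 2) with h | h
  · exact (mul_le_mul_of_nonneg_right (min_le_left _ _) h0).trans (Real.mul_le_sin h0 h)
  · have h2 : 2 / Real.pi * (Real.pi - r) ≤ Real.sin (Real.pi - r) :=
      Real.mul_le_sin (by linarith) (by linarith)
    rw [Real.sin_pi_sub] at h2
    refine le_trans ?_ h2
    refine (mul_le_mul_of_nonneg_right (min_le_right _ _) h0).trans ?_
    have h3 : 2 / Real.pi * (Real.pi - r₁) / Real.pi * r ≤ 2 / Real.pi * (Real.pi - r₁) / Real.pi * Real.pi :=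
      mul_le_mul_of_nonneg_left (by linarith) hB.le
    refine h3.trans ?_
    rw [div_mul_cancel₀ _ hpi.ne']
    exact mul_le_mul_of_nonneg_left (by linarith) hA.le

private lemma p6_geom (c₃ s₀ r ε a b1 b2 b3 : ℝ) (x : S 3) (hs₀ : 0 < s₀)
    (hε : 0 < ε) (hε4 : ε ≤ 1 / 4) (hεs : Real.sqrt ε < c₃ * s₀)
    (hr : s₀ * Real.sqrt ε ≤ r) (hc₃ : 0 < c₃) (hsin : c₃ * r ≤ Real.sin r)
    (hN : a ^ 2 + (b1 ^ 2 + b2 ^ 2 + b3 ^ 2) = 1)
    (h : (Real.cos r - a) ^ 2 + ((Real.sin r * (x : E 3) 0 - b1) ^ 2 + (Real.sin r * (x : E 3) 1 - b2) ^ 2 +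
      (Real.sin r * (x : E 3) 2 - b3) ^ 2) < ε ^ 2) :
    |Real.cos r - a| ≤ (2 + 1 / s₀) * ε * r ∧ 0 < b1 ^ 2 + b2 ^ 2 + b3 ^ 2 ∧
      b1 ^ 2 + b2 ^ 2 + b3 ^ 2 ≤ (1 + 1 / s₀) ^ 2 * r ^ 2 := by
  have hsq : 0 < Real.sqrt ε := Real.sqrt_pos.mpr hε
  have hss : Real.sqrt ε * Real.sqrt ε = ε := Real.mul_self_sqrt hε.le
  have hr0 : 0 < r := lt_of_lt_of_le (by positivity) hr
  have hsin0 : 0 < Real.sin r := lt_of_lt_of_le (by positivity) hsin
  have hsr : Real.sin r ≤ r := Real.sin_le hr0.le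
  have hεr : ε ≤ 1 / s₀ * r := by
    have h1 : Real.sqrt ε ≤ 1 / s₀ * r := by
      rw [one_div, ← div_eq_inv_mul, le_div_iff₀ hs₀]; linarith
    have h2 : ε ≤ Real.sqrt ε := by
      have : Real.sqrt ε ≤ 1 := by rw [← Real.sqrt_one]; exact Real.sqrt_le_sqrt (by linarith)
      nlinarith
    linarith
  set v : E 3 := !₂[b1, b2, b3] with hv
  have hvn : ‖v‖ ^ 2 = b1 ^ 2 + b2 ^ 2 + b3 ^ 2 := by
    rw [k11_nsq]; simp [hv]
  have hxn : ‖(x : E 3)‖ = 1 := by simpa using x.2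
  have h3 : ‖Real.sin r • (x : E 3) - v‖ ^ 2 = (Real.sin r * (x : E 3) 0 - b1) ^ 2 + (Real.sin r * (x : E 3) 1 - b2) ^ 2 +
      (Real.sin r * (x : E 3) 2 - b3) ^ 2 := by
    rw [k11_nsq]
    simp only [hv, PiLp.sub_apply, PiLp.smul_apply, smul_eq_mul]
    simp
  have h4 : |Real.sin r - ‖v‖| ≤ ‖Real.sin r • (x : E 3) - v‖ := by
    have := abs_norm_sub_norm_le (Real.sin r • (x : E 3)) v
    rwa [norm_smul, Real.norm_of_nonneg hsin0.le, hxn, mul_one] at this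
  have h5 : (Real.sin r - ‖v‖) ^ 2 ≤ ‖Real.sin r • (x : E 3) - v‖ ^ 2 := by
    rw [← sq_abs (Real.sin r - ‖v‖)]
    exact pow_le_pow_left₀ (abs_nonneg _) h4 2
  rw [h3] at h5
  have hZ0 : 0 ≤ ‖v‖ := norm_nonneg _
  rw [← hvn] at hN ⊢
  set Z := ‖v‖ with hZ
  have h6 : (Real.sin r - Z) ^ 2 < ε ^ 2 := by nlinarith [sq_nonneg (Real.cos r - a)]
  have h7 : (Real.cos r - a) ^ 2 < ε ^ 2 := by nlinarith [sq_nonneg (Real.sin r - Z)]
  have h6' := abs_lt.mp (abs_lt_of_sq_lt_sq h6 hε.le)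
  have h7' := abs_lt.mp (abs_lt_of_sq_lt_sq h7 hε.le)
  refine ⟨?_, ?_, ?_⟩
  · rcases le_total (1 / 2) r with h12 | h12
    · have : |Real.cos r - a| < ε := abs_lt_of_sq_lt_sq h7 hε.le
      have h8 : 0 < 1 / s₀ * ε * r := by positivity
      nlinarith
    · have hcos : 7 / 8 ≤ Real.cos r := by
        have := Real.one_sub_sq_div_two_le_cos (x := r)
        nlinarith
      have hsum : 1 ≤ Real.cos r + a := by linarith [h7'.2]
      have hid : (Real.cos r - a) * (Real.cos r + a) = (Z - Real.sin r) * (Z + Real.sin r) := by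
        have := Real.sin_sq_add_cos_sq r
        nlinarith
      have h9 : |Real.cos r - a| * (Real.cos r + a) = |Z - Real.sin r| * (Z + Real.sin r) := by
        have e := congrArg abs hid
        rw [abs_mul, abs_mul, abs_of_nonneg (show 0 ≤ Real.cos r + a by linarith),
          abs_of_nonneg (show 0 ≤ Z + Real.sin r by linarith)] at e
        exact e
      have h10 : |Z - Real.sin r| ≤ ε := by
        rw [abs_sub_comm]; exact (abs_lt_of_sq_lt_sq h6 hε.le).le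
      have h11 : Z + Real.sin r ≤ (2 + 1 / s₀) * r := by
        have : Z ≤ Real.sin r + ε := by linarith [h6'.1]
        linarith
      calc |Real.cos r - a| ≤ |Real.cos r - a| * (Real.cos r + a) :=
            le_mul_of_one_le_right (abs_nonneg _) hsum
        _ = |Z - Real.sin r| * (Z + Real.sin r) := h9
        _ ≤ ε * ((2 + 1 / s₀) * r) := mul_le_mul h10 h11 (by linarith) hε.le
        _ = (2 + 1 / s₀) * ε * r := by ring
  · have h8 : 0 < Z := by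
      have h9 : c₃ * (s₀ * Real.sqrt ε) ≤ Real.sin r := (mul_le_mul_of_nonneg_left hr hc₃.le).trans hsin
      have h10 : ε < c₃ * (s₀ * Real.sqrt ε) := by
        calc ε = Real.sqrt ε * Real.sqrt ε := hss.symm
          _ < (c₃ * s₀) * Real.sqrt ε := mul_lt_mul_of_pos_right hεs hsq
          _ = c₃ * (s₀ * Real.sqrt ε) := by ring
      linarith [h6'.2]
    positivity
  · have h8 : Z ≤ (1 + 1 / s₀) * r := by
      have : Z ≤ Real.sin r + ε := by linarith [h6'.1]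
      linarith
    calc Z ^ 2 ≤ ((1 + 1 / s₀) * r) ^ 2 := pow_le_pow_left₀ hZ0 h8 2
      _ = (1 + 1 / s₀) ^ 2 * r ^ 2 := by ring

/-- the condition in coordinates -/
private lemma p6_coord (v : ℍ[ℤ]) (hv : v ≠ 0) (L : ℕ) (q : ℍ[ℤ]) (hq : Quaternion.normSq q = 5 ^ L)
    (r ε : ℝ) (hε : 0 < ε) (x : S 3)
    (h : ‖vh v * rq (imq (x : E 3)) r - qh L q‖ < ε) :
    (((Quaternion.normSq v * 5 ^ L - (star v * q).re ^ 2 : ℤ)) =
        (star v * q).imI ^ 2 + (star v * q).imJ ^ 2 + (star v * q).imK ^ 2) ∧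
    (Real.cos r - (star v * q).re / (Real.sqrt ((Quaternion.normSq v : ℤ) : ℝ) * Real.sqrt 5 ^ L)) ^ 2 +
      ((Real.sin r * (x : E 3) 0 - (star v * q).imI / (Real.sqrt ((Quaternion.normSq v : ℤ) : ℝ) * Real.sqrt 5 ^ L)) ^ 2 +
      (Real.sin r * (x : E 3) 1 - (star v * q).imJ / (Real.sqrt ((Quaternion.normSq v : ℤ) : ℝ) * Real.sqrt 5 ^ L)) ^ 2 +
      (Real.sin r * (x : E 3) 2 - (star v * q).imK / (Real.sqrt ((Quaternion.normSq v : ℤ) : ℝ) * Real.sqrt 5 ^ L)) ^ 2) < ε ^ 2 := by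
  set d : ℤ := Quaternion.normSq v with hd
  have hd0 : 0 < d := by
    have h1 : 0 ≤ Quaternion.normSq v := Quaternion.normSq_nonneg
    exact lt_of_le_of_ne h1 (Ne.symm (Quaternion.normSq_ne_zero.mpr hv))
  have hdr : (0 : ℝ) < (d : ℝ) := by exact_mod_cast hd0
  have hsd : 0 < Real.sqrt (d : ℝ) := Real.sqrt_pos.mpr hdr
  have hs5 : 0 < Real.sqrt 5 ^ L := by positivity
  constructor
  · have h1 : Quaternion.normSq (star v * q) = d * 5 ^ L := by
      rw [map_mul, Quaternion.normSq_star, hq]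
    rw [Quaternion.normSq_def'] at h1
    linarith
  · have hvh : Quaternion.normSq (vh v) = 1 := by
      rw [Quaternion.normSq_def']
      have h2 := hd
      rw [Quaternion.normSq_def'] at h2
      have h3 : (d : ℝ) = (v.re : ℝ) ^ 2 + (v.imI : ℝ) ^ 2 + (v.imJ : ℝ) ^ 2 + (v.imK : ℝ) ^ 2 := by
        rw [h2]; push_cast; ring
      simp only [vh, cz, Quaternion.re_smul, Quaternion.imI_smul, Quaternion.imJ_smul, Quaternion.imK_smul,
        smul_eq_mul, ← hd]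
      have h4 : (1 / Real.sqrt (d : ℝ)) ^ 2 = 1 / (d : ℝ) := by
        rw [div_pow, one_pow, Real.sq_sqrt hdr.le]
      calc (1 / Real.sqrt (d : ℝ) * (v.re : ℝ)) ^ 2 + (1 / Real.sqrt (d : ℝ) * (v.imI : ℝ)) ^ 2 +
            (1 / Real.sqrt (d : ℝ) * (v.imJ : ℝ)) ^ 2 + (1 / Real.sqrt (d : ℝ) * (v.imK : ℝ)) ^ 2
          = (1 / Real.sqrt (d : ℝ)) ^ 2 * ((v.re : ℝ) ^ 2 + (v.imI : ℝ) ^ 2 + (v.imJ : ℝ) ^ 2 + (v.imK : ℝ) ^ 2) := by ring
        _ = 1 := by rw [h4, ← h3]; field_simp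
    have h5 : star (vh v) * (vh v * rq (imq (x : E 3)) r - qh L q) =
        rq (imq (x : E 3)) r - star (vh v) * qh L q := by
      rw [mul_sub, ← mul_assoc, Quaternion.star_mul_self, hvh]
      simp
    have h6 : ‖rq (imq (x : E 3)) r - star (vh v) * qh L q‖ < ε := by
      rw [← h5, norm_mul]
      have : ‖star (vh v)‖ = 1 := by
        have h7 := Quaternion.normSq_eq_norm_mul_self (vh v)
        rw [hvh] at h7
        rw [norm_star]
        nlinarith [norm_nonneg (vh v)]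
      rw [this, one_mul]
      exact h
    have h7 : ‖rq (imq (x : E 3)) r - star (vh v) * qh L q‖ ^ 2 < ε ^ 2 :=
      pow_lt_pow_left₀ h6 (norm_nonneg _) two_ne_zero
    rw [pow_two ‖_‖, ← Quaternion.normSq_eq_norm_mul_self, Quaternion.normSq_def'] at h7
    have h8 : star (vh v) * qh L q = (1 / (Real.sqrt (d : ℝ) * Real.sqrt 5 ^ L)) • cz (star v * q) := by
      rw [cz_mul, cz_star]
      simp only [vh, qh, ← hd]
      rw [Quaternion.star_smul, smul_mul_smul_comm]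
      congr 1
      rw [one_div_mul_one_div]
    rw [h8] at h7
    set p : ℍ[ℤ] := star v * q with hp
    set κ : ℝ := 1 / (Real.sqrt (d : ℝ) * Real.sqrt 5 ^ L) with hκ
    have e1 : (rq (imq (x : E 3)) r - κ • cz p).re = Real.cos r - κ * p.re := by
      show (Real.cos r + Real.sin r * 0) - κ * (p.re : ℝ) = Real.cos r - κ * p.re
      ring
    have e2 : (rq (imq (x : E 3)) r - κ • cz p).imI = Real.sin r * (x : E 3) 0 - κ * p.imI := by
      show (0 + Real.sin r * (x : E 3) 0) - κ * (p.imI : ℝ) = Real.sin r * (x : E 3) 0 - κ * p.imI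
      ring
    have e3 : (rq (imq (x : E 3)) r - κ • cz p).imJ = Real.sin r * (x : E 3) 1 - κ * p.imJ := by
      show (0 + Real.sin r * (x : E 3) 1) - κ * (p.imJ : ℝ) = Real.sin r * (x : E 3) 1 - κ * p.imJ
      ring
    have e4 : (rq (imq (x : E 3)) r - κ • cz p).imK = Real.sin r * (x : E 3) 2 - κ * p.imK := by
      show (0 + Real.sin r * (x : E 3) 2) - κ * (p.imK : ℝ) = Real.sin r * (x : E 3) 2 - κ * p.imK
      ring
    rw [e1, e2, e3, e4] at h7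
    have hdiv : ∀ y : ℝ, y / (Real.sqrt (d : ℝ) * Real.sqrt 5 ^ L) = κ * y := by
      intro y; rw [hκ]; ring
    rw [hdiv, hdiv, hdiv, hdiv]
    linarith

/-- TARGET -/
theorem lower_g' (v : ℍ[ℤ]) (hv : v ≠ 0) (r₁ : ℝ) (hr : 0 < r₁) (hr' : r₁ < Real.pi) (s₀ : ℝ) (hs₀ : 0 < s₀)
    (δ : ℝ) (hδ : 0 < δ) :
    ∃ η C : ℝ, 0 < η ∧ 0 < C ∧ ∀ ε : ℝ, 0 < ε → ε < 1 → ∀ r : ℝ, s₀ * Real.sqrt ε ≤ r → r ≤ r₁ →
      (sg 3).real {x | ∃ (L : ℕ) (q : ℍ[ℤ]), Quaternion.normSq q = 5 ^ L ∧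
        (L : ℝ) ≤ (3 - δ) * Real.logb 5 (1 / ε) ∧ ‖vh v * rq (imq (x : E 3)) r - qh L q‖ < ε} ≤ C * ε ^ η := by
  haveI := sg_prob 3 (by norm_num)
  obtain ⟨C₁, hC₁, hcap⟩ := cap_le
  obtain ⟨c₃, hc₃, hsin⟩ := p6_sin r₁ hr hr'
  set d := min δ 1 with hd
  have hd0 : 0 < d := lt_min hδ one_pos
  have hdδ : d ≤ δ := min_le_left _ _
  have hd1 : d ≤ 1 := min_le_right _ _
  obtain ⟨C₂, hC₂, hr3⟩ := scalar_count_r3 (d / 24) (by positivity)
  set D : ℤ := Quaternion.normSq v with hD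
  have hD0 : 0 < D := by
    have h1 : 0 ≤ Quaternion.normSq v := Quaternion.normSq_nonneg
    exact lt_of_le_of_ne h1 (Ne.symm (Quaternion.normSq_ne_zero.mpr hv))
  have hDr : (0 : ℝ) < (D : ℝ) := by exact_mod_cast hD0
  have hD1 : (1 : ℝ) ≤ (D : ℝ) := by exact_mod_cast hD0
  set sD : ℝ := Real.sqrt (D : ℝ) with hsD
  have hsD0 : 0 < sD := Real.sqrt_pos.mpr hDr
  have hsD2 : sD ^ 2 = D := Real.sq_sqrt hDr.le
  have hDn : ((D.toNat : ℕ) : ℤ) = D := Int.toNat_of_nonneg hD0.le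
  have hDnr : ((D.toNat : ℕ) : ℝ) = (D : ℝ) := by exact_mod_cast hDn
  set C₄ : ℝ := 2 + 1 / s₀ with hC₄
  set C₅ : ℝ := 1 + 1 / s₀ with hC₅
  have hC₄0 : 0 < C₄ := by positivity
  have hC₅0 : 0 < C₅ := by positivity
  set ε₀ : ℝ := min (1 / 4) ((c₃ * s₀) ^ 2 / 4) with hε₀
  have hε₀0 : 0 < ε₀ := lt_min (by norm_num) (by positivity)
  set CM : ℝ := (1 + 24 / d) * (D : ℝ) ^ (d / 24) * (C₁ * (4 / c₃ ^ 2) * C₂ * C₅) * (2 * C₄ * D + sD / s₀) with hCM
  have hCM0 : 0 < CM := by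
    have : 0 < C₂ := by linarith
    positivity
  refine ⟨d / 4, CM + ε₀ ^ (-(d / 4)), by positivity, by positivity, ?_⟩
  intro ε hε hε1 r hrs hrr
  rcases lt_or_ge ε₀ ε with hbig | hsmall
  · refine (measureReal_le_one).trans ?_
    have h1 : 1 ≤ ε₀ ^ (-(d / 4)) * ε ^ (d / 4) := by
      have h2 : ε₀ ^ (d / 4) ≤ ε ^ (d / 4) := Real.rpow_le_rpow hε₀0.le hbig.le (by positivity)
      have h3 : ε₀ ^ (-(d / 4)) * ε₀ ^ (d / 4) = 1 := by
        rw [← Real.rpow_add hε₀0]; simp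
      rw [← h3]
      exact mul_le_mul_of_nonneg_left h2 (by positivity)
    have h4 : 0 ≤ CM * ε ^ (d / 4) := by positivity
    linarith [add_mul CM (ε₀ ^ (-(d / 4))) (ε ^ (d / 4))]
  suffices hmainS : (sg 3).real {x | ∃ (L : ℕ) (q : ℍ[ℤ]), Quaternion.normSq q = 5 ^ L ∧
        (L : ℝ) ≤ (3 - δ) * Real.logb 5 (1 / ε) ∧ ‖vh v * rq (imq (x : E 3)) r - qh L q‖ < ε} ≤ CM * ε ^ (d / 4) by
    refine hmainS.trans ?_
    have h4 : 0 ≤ ε₀ ^ (-(d / 4)) * ε ^ (d / 4) := by positivity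
    linarith [add_mul CM (ε₀ ^ (-(d / 4))) (ε ^ (d / 4))]
  have hε4 : ε ≤ 1 / 4 := hsmall.trans (min_le_left _ _)
  have hεs : Real.sqrt ε < c₃ * s₀ := by
    have h1 : ε ≤ (c₃ * s₀) ^ 2 / 4 := hsmall.trans (min_le_right _ _)
    have h2 : 0 < c₃ * s₀ := by positivity
    rw [Real.sqrt_lt' h2]
    nlinarith
  have hsq : 0 < Real.sqrt ε := Real.sqrt_pos.mpr hε
  have hr0 : 0 < r := lt_of_lt_of_le (by positivity) hrs
  have hsinr : c₃ * r ≤ Real.sin r := hsin r hr0.le hrr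
  have hsin0 : 0 < Real.sin r := lt_of_lt_of_le (by positivity) hsinr
  set L0 : ℝ := (3 - δ) * Real.logb 5 (1 / ε) with hL0
  have hlog : 0 < Real.logb 5 (1 / ε) :=
    Real.logb_pos (by norm_num) (by rw [lt_div_iff₀ hε]; linarith)
  rcases lt_or_ge L0 0 with hneg | hpos
  · have he : {x : S 3 | ∃ (L : ℕ) (q : ℍ[ℤ]), Quaternion.normSq q = 5 ^ L ∧
        (L : ℝ) ≤ L0 ∧ ‖vh v * rq (imq (x : E 3)) r - qh L q‖ < ε} = ∅ := by
      ext x
      simp only [mem_setOf_eq, mem_empty_iff_false, iff_false]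
      rintro ⟨L, q, -, hL, -⟩
      have : (0 : ℝ) ≤ L := Nat.cast_nonneg L
      linarith
    rw [he]
    simp
    positivity
  set K : ℕ := ⌊L0⌋₊ with hK
  have hKle : (K : ℝ) ≤ L0 := Nat.floor_le hpos
  set c0 : ℝ := C₁ * (2 * ε / Real.sin r) ^ 2 with hc0
  have hc00 : 0 ≤ c0 := by positivity
  set R : ℝ := Real.sqrt 5 ^ K with hR
  have hs5 : (1 : ℝ) ≤ Real.sqrt 5 := by
    rw [Real.le_sqrt (by norm_num) (by norm_num)]; norm_num
  have hR1 : 1 ≤ R := one_le_pow₀ hs5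
  have hR0 : 0 < R := by linarith
  set X : ℝ := (5 : ℝ) ^ K with hX
  have hRX : R ^ 2 = X := by
    rw [hR, hX, ← pow_mul, mul_comm, pow_mul, Real.sq_sqrt (by norm_num)]
  have hX1 : 1 ≤ X := one_le_pow₀ (by norm_num)
  have hX0 : 0 < X := by linarith
  set T : ℝ := (D * X) ^ (d / 24) with hT
  have hT0 : 0 ≤ T := by positivity
  -- the three levels
  set m : ℕ → ℤ → ℕ := fun L a => (D * (5 : ℤ) ^ L - a ^ 2).toNat with hm
  set A : ℕ → Finset ℤ := fun L =>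
    (Finset.Icc ⌈(Real.cos r - C₄ * ε * r) * (sD * Real.sqrt 5 ^ L)⌉ ⌊(Real.cos r + C₄ * ε * r) * (sD * Real.sqrt 5 ^ L)⌋).filter
      (fun a => 1 ≤ m L a ∧ (m L a : ℝ) ≤ (C₅ * r * (sD * Real.sqrt 5 ^ L)) ^ 2) with hA
  have hS3 : ∀ L ≤ K, ∀ a ∈ A L, ((S3 (m L a)).card : ℝ) ≤ C₂ * (C₅ * r * (sD * R)) * T := by
    intro L hL a ha
    rw [hA, Finset.mem_filter] at ha
    obtain ⟨-, h0, hle⟩ := ha
    have hmle : m L a ≤ D.toNat * 5 ^ K := by
      have e1 : (m L a : ℤ) ≤ D * 5 ^ L := by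
        simp only [hm]
        have h5 : (0 : ℤ) ≤ D * 5 ^ L := by positivity
        have h6 := sq_nonneg a
        rcases le_total (D * 5 ^ L - a ^ 2) 0 with h | h
        · rw [Int.toNat_of_nonpos h]; simpa using h5
        · rw [Int.toNat_of_nonneg h]; linarith
      have e2 : m L a ≤ D.toNat * 5 ^ L := by
        have : (m L a : ℤ) ≤ ((D.toNat * 5 ^ L : ℕ) : ℤ) := by
          push_cast [hDn]; exact e1
        exact_mod_cast this
      exact e2.trans (Nat.mul_le_mul_left _ (Nat.pow_le_pow_right (by norm_num) hL))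
    have h3 := hr3 (m L a) (D.toNat * 5 ^ K) h0 hmle (S3 (m L a)) (fun p hp => mem_S3.mp hp)
    refine h3.trans ?_
    have h4 : ((D.toNat * 5 ^ K : ℕ) : ℝ) = D * X := by push_cast [hDnr]; rfl
    rw [h4]
    apply mul_le_mul_of_nonneg_right _ (by positivity)
    apply mul_le_mul_of_nonneg_left _ (by linarith)
    have h5 : Real.sqrt (m L a) ≤ C₅ * r * (sD * Real.sqrt 5 ^ L) := by
      rw [Real.sqrt_le_left (by positivity)]
      exact hle
    refine h5.trans ?_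
    have : Real.sqrt 5 ^ L ≤ R := pow_le_pow_right₀ hs5 hL
    gcongr
  set W : ℕ → ℤ → ℤ × ℤ × ℤ → Set (S 3) := fun L a y =>
    {x : S 3 | (Real.cos r - a / (sD * Real.sqrt 5 ^ L)) ^ 2 +
      ((Real.sin r * (x : E 3) 0 - y.1 / (sD * Real.sqrt 5 ^ L)) ^ 2 +
      (Real.sin r * (x : E 3) 1 - y.2.1 / (sD * Real.sqrt 5 ^ L)) ^ 2 +
      (Real.sin r * (x : E 3) 2 - y.2.2 / (sD * Real.sqrt 5 ^ L)) ^ 2) < ε ^ 2} with hW
  have hlev3 : ∀ L ≤ K, ∀ a ∈ A L, (sg 3).real (⋃ y ∈ S3 (m L a), W L a y) ≤ C₂ * (C₅ * r * (sD * R)) * T * c0 := by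
    intro L hL a ha
    refine (k11_union _ _ c0 (fun y _ => p6_cap _ _ hsin0 hC₁ hcap ε hε _ _ _ _)).trans ?_
    exact mul_le_mul_of_nonneg_right (hS3 L hL a ha) hc00
  have hlev2 : ∀ L ≤ K, (sg 3).real (⋃ a ∈ A L, ⋃ y ∈ S3 (m L a), W L a y) ≤
      (2 * (C₄ * ε * r) * (sD * R) + 1) * (C₂ * (C₅ * r * (sD * R)) * T * c0) := by
    intro L hL
    refine (k11_union _ _ _ (fun a ha => hlev3 L hL a ha)).trans ?_
    have hC₂0 : 0 < C₂ := by linarith
    apply mul_le_mul_of_nonneg_right _ (by positivity)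
    have hcard : ((A L).card : ℝ) ≤ 2 * (C₄ * ε * r) * (sD * Real.sqrt 5 ^ L) + 1 := by
      refine le_trans ?_ (k11_card (Real.cos r) (sD * Real.sqrt 5 ^ L) (C₄ * ε * r) (by positivity) (by positivity))
      exact_mod_cast Finset.card_filter_le _ _
    refine hcard.trans ?_
    have : Real.sqrt 5 ^ L ≤ R := pow_le_pow_right₀ hs5 hL
    gcongr
  have hlev1 : (sg 3).real (⋃ L ∈ Finset.range (K + 1), ⋃ a ∈ A L, ⋃ y ∈ S3 (m L a), W L a y) ≤
      ((K : ℝ) + 1) * ((2 * (C₄ * ε * r) * (sD * R) + 1) * (C₂ * (C₅ * r * (sD * R)) * T * c0)) := by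
    refine (k11_union _ _ _ (fun L hL => hlev2 L
      (by rw [Finset.mem_range] at hL; omega))).trans ?_
    rw [Finset.card_range]
    push_cast
    exact le_rfl
  have hsub : {x : S 3 | ∃ (L : ℕ) (q : ℍ[ℤ]), Quaternion.normSq q = 5 ^ L ∧
        (L : ℝ) ≤ L0 ∧ ‖vh v * rq (imq (x : E 3)) r - qh L q‖ < ε} ⊆
      ⋃ L ∈ Finset.range (K + 1), ⋃ a ∈ A L, ⋃ y ∈ S3 (m L a), W L a y := by
    rintro x ⟨L, q, hq, hL, hx⟩
    simp only [mem_iUnion]
    obtain ⟨hint, hcond⟩ := p6_coord v hv L q hq r ε hε x hx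
    rw [← hD] at hint
    rw [← hD, ← hsD] at hcond
    set p : ℍ[ℤ] := star v * q with hp
    have hsN : 0 < sD * Real.sqrt 5 ^ L := by positivity
    have hsN2 : (sD * Real.sqrt 5 ^ L) ^ 2 = D * 5 ^ L := by
      rw [mul_pow, hsD2, ← pow_mul, mul_comm L 2, pow_mul, Real.sq_sqrt (by norm_num)]
    have hintr : (D : ℝ) * 5 ^ L = (p.re : ℝ) ^ 2 + ((p.imI : ℝ) ^ 2 + (p.imJ : ℝ) ^ 2 + (p.imK : ℝ) ^ 2) := by
      have : D * 5 ^ L = p.re ^ 2 + (p.imI ^ 2 + p.imJ ^ 2 + p.imK ^ 2) := by linarith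
      exact_mod_cast this
    have hN1 : (p.re / (sD * Real.sqrt 5 ^ L)) ^ 2 + ((p.imI / (sD * Real.sqrt 5 ^ L)) ^ 2 +
        (p.imJ / (sD * Real.sqrt 5 ^ L)) ^ 2 + (p.imK / (sD * Real.sqrt 5 ^ L)) ^ 2) = 1 := by
      simp only [div_pow]
      rw [← add_div, ← add_div, ← add_div, ← hintr, hsN2]
      have : (D : ℝ) * 5 ^ L ≠ 0 := by positivity
      field_simp
    obtain ⟨g1, g2, g3⟩ := p6_geom c₃ s₀ r ε _ _ _ _ x hs₀ hε hε4 hεs hrs hc₃ hsinr hN1 hcond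
    have hZe : (p.imI / (sD * Real.sqrt 5 ^ L)) ^ 2 + (p.imJ / (sD * Real.sqrt 5 ^ L)) ^ 2 +
        (p.imK / (sD * Real.sqrt 5 ^ L)) ^ 2 =
        ((p.imI : ℝ) ^ 2 + (p.imJ : ℝ) ^ 2 + (p.imK : ℝ) ^ 2) / (sD * Real.sqrt 5 ^ L) ^ 2 := by
      simp only [div_pow]
      rw [← add_div, ← add_div]
    rw [hZe] at g2 g3
    have hmz : (m L p.re : ℤ) = p.imI ^ 2 + p.imJ ^ 2 + p.imK ^ 2 := by
      simp only [hm]
      rw [Int.toNat_of_nonneg]
      · exact hint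
      · rw [hint]; positivity
    have hmr : (m L p.re : ℝ) = (p.imI : ℝ) ^ 2 + (p.imJ : ℝ) ^ 2 + (p.imK : ℝ) ^ 2 := by
      exact_mod_cast hmz
    refine ⟨L, ?_, p.re, ?_, (p.imI, p.imJ, p.imK), ?_, ?_⟩
    · rw [Finset.mem_range, Nat.lt_succ_iff]
      exact Nat.le_floor hL
    · rw [hA, Finset.mem_filter, Finset.mem_Icc]
      obtain ⟨ha, hb⟩ := abs_le.mp g1
      refine ⟨⟨?_, ?_⟩, ?_, ?_⟩
      · rw [Int.ceil_le]
        have : Real.cos r - C₄ * ε * r ≤ p.re / (sD * Real.sqrt 5 ^ L) := by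
          rw [hC₄]; linarith
        rwa [le_div_iff₀ hsN] at this
      · rw [Int.le_floor]
        have : p.re / (sD * Real.sqrt 5 ^ L) ≤ Real.cos r + C₄ * ε * r := by
          rw [hC₄]; linarith
        rwa [div_le_iff₀ hsN] at this
      · have h1 : (0 : ℝ) < (p.imI : ℝ) ^ 2 + (p.imJ : ℝ) ^ 2 + (p.imK : ℝ) ^ 2 := by
          by_contra hcon
          push_neg at hcon
          have : ((p.imI : ℝ) ^ 2 + (p.imJ : ℝ) ^ 2 + (p.imK : ℝ) ^ 2) / (sD * Real.sqrt 5 ^ L) ^ 2 ≤ 0 :=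
            div_nonpos_of_nonpos_of_nonneg hcon (by positivity)
          linarith
        rw [← hmr] at h1
        exact_mod_cast h1
      · rw [hmr]
        rw [div_le_iff₀ (by positivity)] at g3
        refine g3.trans (le_of_eq ?_)
        rw [hC₅]; ring
    · rw [mem_S3]
      exact hmz.symm
    · exact hcond
  refine (measureReal_mono hsub (measure_ne_top _ _)).trans (hlev1.trans ?_)
  -- the final estimate
  have hXle : X ≤ ε ^ (-(3 - δ)) := by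
    rw [hX, ← Real.rpow_natCast]
    calc (5 : ℝ) ^ (K : ℝ) ≤ 5 ^ L0 := Real.rpow_le_rpow_of_exponent_le (by norm_num) hKle
      _ = ε ^ (-(3 - δ)) := by
        rw [hL0, mul_comm, Real.rpow_mul (by norm_num), Real.rpow_logb (by norm_num) (by norm_num)
          (by positivity), one_div, Real.inv_rpow hε.le, Real.rpow_neg hε.le]
  have hRle : R ≤ ε ^ (-(3 - δ) / 2) := by
    have h3 : R ^ 2 ≤ (ε ^ (-(3 - δ) / 2)) ^ 2 := by
      rw [hRX, ← Real.rpow_natCast, ← Real.rpow_mul hε.le]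
      convert hXle using 2
      push_cast
      ring
    exact le_of_sq_le_sq h3 (by positivity)
  have hKX : (K : ℝ) + 1 ≤ (1 + 24 / d) * X ^ (d / 24) := by
    have h3 : 1 + (K : ℝ) * (d / 24) ≤ X ^ (d / 24) := by
      rw [hX, ← Real.rpow_natCast, ← Real.rpow_mul (by norm_num),
        Real.rpow_def_of_pos (by norm_num)]
      have h5 : 1 ≤ Real.log 5 := by
        rw [Real.le_log_iff_exp_le (by norm_num)]
        have := Real.exp_one_lt_d9
        linarith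
      have h6 := Real.add_one_le_exp (Real.log 5 * ((K : ℝ) * (d / 24)))
      have h7 : 0 ≤ (K : ℝ) * (d / 24) := by positivity
      nlinarith
    have h4 : (K : ℝ) + 1 ≤ (1 + 24 / d) * (1 + (K : ℝ) * (d / 24)) := by
      have e : (1 + 24 / d) * (1 + (K : ℝ) * (d / 24)) = 1 + K * (d / 24) + 24 / d + K := by
        field_simp
        ring
      rw [e]
      have : 0 ≤ (K : ℝ) * (d / 24) := by positivity
      have : 0 ≤ 24 / d := by positivity
      linarith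
    exact h4.trans (mul_le_mul_of_nonneg_left h3 (by positivity))
  have hXd : X ^ (d / 24) * X ^ (d / 24) ≤ ε ^ (-(d / 4)) := by
    rw [← Real.rpow_add hX0]
    rcases le_total 3 δ with h3 | h3
    · have hX1' : X ≤ 1 := hXle.trans (Real.rpow_le_one hε.le hε1.le (by linarith))
      calc X ^ (d / 24 + d / 24) ≤ 1 := Real.rpow_le_one hX0.le hX1' (by positivity)
        _ ≤ ε ^ (-(d / 4)) := Real.one_le_rpow_of_pos_of_le_one_of_nonpos hε hε1.le (by linarith)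
    · calc X ^ (d / 24 + d / 24) ≤ (ε ^ (-(3 - δ))) ^ (d / 24 + d / 24) :=
            Real.rpow_le_rpow hX0.le hXle (by positivity)
        _ = ε ^ (-(3 - δ) * (d / 24 + d / 24)) := by rw [← Real.rpow_mul hε.le]
        _ ≤ ε ^ (-(d / 4)) := by
          apply Real.rpow_le_rpow_of_exponent_ge hε hε1.le
          nlinarith
  have hTe : T = (D : ℝ) ^ (d / 24) * X ^ (d / 24) := by
    rw [hT, Real.mul_rpow hDr.le hX0.le]
  have hεr : ε ^ 2 / r ≤ 1 / s₀ * (ε * Real.sqrt ε) := by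
    rw [div_le_iff₀ hr0]
    have h1 : Real.sqrt ε * Real.sqrt ε = ε := Real.mul_self_sqrt hε.le
    calc ε ^ 2 = 1 / s₀ * (ε * Real.sqrt ε) * (s₀ * Real.sqrt ε) := by
          have : 1 / s₀ * (ε * Real.sqrt ε) * (s₀ * Real.sqrt ε) = (1 / s₀ * s₀) * ε * (Real.sqrt ε * Real.sqrt ε) := by ring
          rw [this, h1, one_div, inv_mul_cancel₀ hs₀.ne']
          ring
      _ ≤ 1 / s₀ * (ε * Real.sqrt ε) * r := mul_le_mul_of_nonneg_left hrs (by positivity)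
  have hmain : ε ^ 3 * (sD * R) ^ 2 * (2 * C₄) + ε ^ 2 / r * (sD * R) ≤ (2 * C₄ * D + sD / s₀) * ε ^ (d / 2) := by
    have e2 : ε ^ 3 * X ≤ ε ^ (d / 2) := by
      calc ε ^ 3 * X ≤ ε ^ 3 * ε ^ (-(3 - δ)) := mul_le_mul_of_nonneg_left hXle (by positivity)
        _ = ε ^ δ := by
          rw [← Real.rpow_natCast ε 3, ← Real.rpow_add hε]
          congr 1
          push_cast
          ring
        _ ≤ ε ^ (d / 2) := Real.rpow_le_rpow_of_exponent_ge hε hε1.le (by linarith)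
    have e3 : ε * Real.sqrt ε * R ≤ ε ^ (d / 2) := by
      calc ε * Real.sqrt ε * R ≤ ε * Real.sqrt ε * ε ^ (-(3 - δ) / 2) := mul_le_mul_of_nonneg_left hRle (by positivity)
        _ = ε ^ (1 : ℝ) * ε ^ (1 / 2 : ℝ) * ε ^ (-(3 - δ) / 2) := by
          rw [Real.rpow_one, Real.sqrt_eq_rpow]
        _ = ε ^ (δ / 2) := by
          rw [← Real.rpow_add hε, ← Real.rpow_add hε]
          congr 1
          ring
        _ ≤ ε ^ (d / 2) := by
          apply Real.rpow_le_rpow_of_exponent_ge hε hε1.le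
          linarith
    have e4 : ε ^ 3 * (sD * R) ^ 2 * (2 * C₄) = 2 * C₄ * D * (ε ^ 3 * X) := by
      rw [mul_pow, hsD2, hRX]; ring
    have e5 : ε ^ 2 / r * (sD * R) ≤ sD / s₀ * (ε * Real.sqrt ε * R) := by
      calc ε ^ 2 / r * (sD * R) ≤ 1 / s₀ * (ε * Real.sqrt ε) * (sD * R) :=
            mul_le_mul_of_nonneg_right hεr (by positivity)
        _ = sD / s₀ * (ε * Real.sqrt ε * R) := by ring
    rw [e4, add_mul]
    refine add_le_add (mul_le_mul_of_nonneg_left e2 (by positivity)) (e5.trans ?_)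
    exact mul_le_mul_of_nonneg_left e3 (by positivity)
  have hC₂0 : 0 < C₂ := by linarith
  have hc0le : c0 ≤ C₁ * (4 / c₃ ^ 2) * (ε ^ 2 / r ^ 2) := by
    rw [hc0]
    have h1 : 2 * ε / Real.sin r ≤ 2 * ε / (c₃ * r) := by
      apply div_le_div_of_nonneg_left (by positivity) (by positivity) hsinr
    calc C₁ * (2 * ε / Real.sin r) ^ 2 ≤ C₁ * (2 * ε / (c₃ * r)) ^ 2 := by gcongr
      _ = C₁ * (4 / c₃ ^ 2) * (ε ^ 2 / r ^ 2) := by
        field_simp
        ring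
  calc ((K : ℝ) + 1) * ((2 * (C₄ * ε * r) * (sD * R) + 1) * (C₂ * (C₅ * r * (sD * R)) * T * c0))
      ≤ ((1 + 24 / d) * X ^ (d / 24)) * ((2 * (C₄ * ε * r) * (sD * R) + 1) * (C₂ * (C₅ * r * (sD * R)) * T *
          (C₁ * (4 / c₃ ^ 2) * (ε ^ 2 / r ^ 2)))) := by
        gcongr
    _ = (1 + 24 / d) * (D : ℝ) ^ (d / 24) * (C₁ * (4 / c₃ ^ 2) * C₂ * C₅) *
          ((X ^ (d / 24) * X ^ (d / 24)) * (ε ^ 3 * (sD * R) ^ 2 * (2 * C₄) + ε ^ 2 / r * (sD * R))) := by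
        rw [hTe]
        field_simp
    _ ≤ (1 + 24 / d) * (D : ℝ) ^ (d / 24) * (C₁ * (4 / c₃ ^ 2) * C₂ * C₅) *
          (ε ^ (-(d / 4)) * ((2 * C₄ * D + sD / s₀) * ε ^ (d / 2))) := by
        apply mul_le_mul_of_nonneg_left _ (by positivity)
        exact mul_le_mul hXd hmain (by positivity) (by positivity)
    _ = CM * (ε ^ (-(d / 4)) * ε ^ (d / 2)) := by rw [hCM]; ring
    _ = CM * ε ^ (d / 4) := by
        rw [← Real.rpow_add hε]
        congr 2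
        ring

end Pool.Agent.H978V
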