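import Pool.Agent.H978V.NDefs
import Pool.Agent.H978V.R10

-- radial_g proved, compiles with NDefs and R10 (the hypothesis k <= 2 j is not used)
/-!
JOB P7 (owner helper978, MP_06cce2_nt).  `H978V/*.lean` (library, with `R10` (`gap5`)) is on origin/main.

For most radii `s/2^j`, `k/2 ≤ j ≤ k`, no word of length less than `2 (j+k) log_5 2` is within `2^{-k}` of a point at distance about `s/2^j` from a rational point (other than the point itself).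

PROOF.  `d = normSq v ≥ 1`.  Let `s, j, k, L, q, p` be as in the set, `r = s/2^j`, `N₀ = d 5^L`, `star v * q = m + z`, `star (vh v) * qh L q = (m+z)/√N₀ = cos φ + sin φ • p'`, `0 ≤ φ ≤ π`, `cos φ = m/√N₀`.  `‖rq p r - (cos φ + sin φ • p')‖² ≥ 2 - 2 cos (φ - r)`, so `|φ - r| ≤ (π/2) 2^{-k} ≤ 2·2^{-k}`.  `φ ≠ 0` since `qh L q ≠ vh v`.
So `|s - 2^j φ| ≤ 2·2^(j-k)`: for given `L, m` the set of such `s` is contained in an interval of length `4·2^(j-k)`.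
The `m` that occur satisfy `m < √N₀` (`φ ≠ 0`) and `m = √N₀ cos φ ≥ √N₀ (1 - φ²/2)` with `φ ≤ (s₁ + 2) 2^(-j) ` (`j ≤ k`): `√N₀ - m ≤ C₁ √N₀ 4^(-j)`, `C₁ = (s₁+2)²/2`.  So there are at most `1 + C₁ √N₀ 4^(-j)` values of `m`, and none if `C₁ √N₀ 4^(-j) < c 5^(-η' L)` (`gap5 d` with `η'`: `√(d 5^L) - m ≥ c 5^(-η' L)`).
`L ≤ (2(j+k) - δk) logb 5 2` means `5^L ≤ 4^(j+k) 2^(-δk)`, `√N₀ ≤ √d 2^(j+k) 2^(-δk/2)`; `L ≤ 4k`, so at most `4k + 1` values of `L`.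
(1) `j ≤ (1 - δ/4) k`: the measure is at most `(4k+1) · 4·2^(j-k) (1 + C₁ √d 2^(k - j - δk/2)) ≤ (4k+1)(4·2^(-δk/4) + 4 C₁ √d 2^(-δk/2))`.
(2) `j > (1 - δ/4) k`: `C₁ √N₀ 4^(-j) ≤ C₁ √d 2^(k-j-δk/2) ≤ C₁ √d 2^(-δk/4)`, and `c 5^(-η'L) ≥ c 5^(-4η' k logb 5 2) = c 2^(-4η'k)` (`L ≤ 4k logb 5 2`); with `η' = δ/32` there are no `m` for `k ≥ k₀`, and for `k < k₀` the measure is `≤ s₁ - s₀ ≤ C 2^(-ηk)`.
(If `δ ≥ 4` the set is empty unless `L = 0`..., treat `δ` by replacing it with `min δ 1`: the set for a larger `δ` is smaller.)  `η = δ/8` (`(4k+1) ≤ C 2^(δk/8)`).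
-/

set_option autoImplicit false

open MeasureTheory Set
open scoped Quaternion

namespace Pool.Agent.H978V

open Pool.Agent.Helper557.Rz

theorem radial_g_norm_cz (q : ℍ[ℤ]) : ‖cz q‖ = Real.sqrt ((Quaternion.normSq q : ℤ) : ℝ) := by
  have h : ‖cz q‖ * ‖cz q‖ = ((Quaternion.normSq q : ℤ) : ℝ) := by
    rw [← Quaternion.normSq_eq_norm_mul_self, Quaternion.normSq_def', Quaternion.normSq_def']
    simp only [cz]
    push_cast
    ring
  rw [← h, Real.sqrt_mul_self (norm_nonneg _)]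

theorem radial_g_ang (p U : ℍ[ℝ]) (hp : UP p) (hU : ‖U‖ = 1) (r : ℝ) (hr0 : 0 ≤ r)
    (hrπ : r ≤ Real.pi) (ε : ℝ) (h : ‖rq p r - U‖ < ε) :
    |r - Real.arccos U.re| ≤ Real.pi / 2 * ε := by
  have hU2 : U.re ^ 2 + U.imI ^ 2 + U.imJ ^ 2 + U.imK ^ 2 = 1 := by
    have := Quaternion.normSq_eq_norm_mul_self U
    rw [hU, Quaternion.normSq_def'] at this
    linarith
  have hp2 : p.imI ^ 2 + p.imJ ^ 2 + p.imK ^ 2 = 1 := by
    have := Quaternion.normSq_eq_norm_mul_self p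
    rw [hp.2, Quaternion.normSq_def', hp.1] at this
    linarith
  have hε : 0 < ε := (norm_nonneg _).trans_lt h
  have h1 : ‖rq p r - U‖ ^ 2 = 2 - 2 * (Real.cos r * U.re +
      Real.sin r * (p.imI * U.imI + p.imJ * U.imJ + p.imK * U.imK)) := by
    rw [pow_two, ← Quaternion.normSq_eq_norm_mul_self, Quaternion.normSq_def']
    simp only [rq, Quaternion.re_sub, Quaternion.re_add, Quaternion.re_coe, Quaternion.re_smul,
      Quaternion.imI_sub, Quaternion.imI_add, Quaternion.imI_coe, Quaternion.imI_smul,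
      Quaternion.imJ_sub, Quaternion.imJ_add, Quaternion.imJ_coe, Quaternion.imJ_smul,
      Quaternion.imK_sub, Quaternion.imK_add, Quaternion.imK_coe, Quaternion.imK_smul, hp.1,
      smul_eq_mul]
    have hsc := Real.sin_sq_add_cos_sq r
    linear_combination hU2 + (Real.sin r) ^ 2 * hp2 + hsc
  have hc1 : U.re ≤ 1 := by nlinarith [sq_nonneg U.imI, sq_nonneg U.imJ, sq_nonneg U.imK]
  have hc2 : -1 ≤ U.re := by nlinarith [sq_nonneg U.imI, sq_nonneg U.imJ, sq_nonneg U.imK]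
  have hcs : p.imI * U.imI + p.imJ * U.imJ + p.imK * U.imK ≤ Real.sqrt (1 - U.re ^ 2) := by
    apply Real.le_sqrt_of_sq_le
    have e : 1 - U.re ^ 2 = (p.imI ^ 2 + p.imJ ^ 2 + p.imK ^ 2) * (U.imI ^ 2 + U.imJ ^ 2 + U.imK ^ 2) := by
      rw [hp2]; linarith
    rw [e]
    nlinarith [sq_nonneg (p.imI * U.imJ - p.imJ * U.imI), sq_nonneg (p.imI * U.imK - p.imK * U.imI),
      sq_nonneg (p.imJ * U.imK - p.imK * U.imJ)]
  obtain ⟨φ, hφ⟩ : ∃ φ, φ = Real.arccos U.re := ⟨_, rfl⟩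
  have hcφ : Real.cos φ = U.re := by rw [hφ]; exact Real.cos_arccos hc2 hc1
  have hsφ : Real.sin φ = Real.sqrt (1 - U.re ^ 2) := by rw [hφ]; exact Real.sin_arccos _
  have hφ0 : 0 ≤ φ := by rw [hφ]; exact Real.arccos_nonneg _
  have hφπ : φ ≤ Real.pi := by rw [hφ]; exact Real.arccos_le_pi _
  have hsr : 0 ≤ Real.sin r := Real.sin_nonneg_of_nonneg_of_le_pi hr0 hrπ
  have h2 : 2 - 2 * Real.cos (r - φ) ≤ ‖rq p r - U‖ ^ 2 := by
    rw [h1, Real.cos_sub, hcφ, hsφ]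
    have := mul_le_mul_of_nonneg_left hcs hsr
    linarith
  have h3 : 2 - 2 * Real.cos (r - φ) = 4 * Real.sin ((r - φ) / 2) ^ 2 := by
    have h4 := Real.cos_sq' ((r - φ) / 2)
    have h5 := Real.cos_two_mul ((r - φ) / 2)
    rw [mul_div_cancel₀ (r - φ) two_ne_zero] at h5
    nlinarith
  have h6 : |2 * Real.sin ((r - φ) / 2)| ≤ ε := by
    refine (Real.abs_le_sqrt (y := ‖rq p r - U‖ ^ 2) ?_).trans ?_
    · nlinarith
    · rw [Real.sqrt_sq (norm_nonneg _)]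
      exact h.le
  have h7 : 2 / Real.pi * (|r - φ| / 2) ≤ Real.sin (|r - φ| / 2) := by
    apply Real.mul_le_sin
    · positivity
    · have : |r - φ| ≤ Real.pi := by
        rw [abs_le]
        constructor <;> linarith
      linarith
  have h8 : |Real.sin ((r - φ) / 2)| = Real.sin (|r - φ| / 2) := by
    have h9 : 0 ≤ Real.sin (|r - φ| / 2) := by
      refine le_trans ?_ h7
      have := Real.pi_pos
      positivity
    rcases abs_cases (r - φ) with ⟨h10, _⟩ | ⟨h10, _⟩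
    · rw [h10] at h9 ⊢
      exact abs_of_nonneg h9
    · rw [h10] at h9 ⊢
      have e : -(r - φ) / 2 = -((r - φ) / 2) := by ring
      rw [e, Real.sin_neg] at h9 ⊢
      rw [abs_of_nonpos (by linarith)]
  rw [abs_mul, abs_two, h8] at h6
  have hpi := Real.pi_pos
  rw [← hφ]
  have h11 : 2 / Real.pi * |r - φ| ≤ ε := by linarith
  rw [div_mul_eq_mul_div, div_le_iff₀ hpi] at h11
  linarith

theorem radial_g_sqrt5 (L : ℕ) : Real.sqrt 5 ^ L = Real.sqrt (5 ^ L) := by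
  symm
  rw [Real.sqrt_eq_iff_mul_self_eq (by positivity) (by positivity), ← mul_pow,
    Real.mul_self_sqrt (by norm_num)]

theorem radial_g_word (v : ℍ[ℤ]) (d : ℕ) (hd0 : 1 ≤ d) (hd : Quaternion.normSq v = (d : ℤ))
    (p : ℍ[ℝ]) (hp : UP p) (L : ℕ) (q : ℍ[ℤ]) (hq : Quaternion.normSq q = 5 ^ L) (r : ℝ)
    (hr0 : 0 ≤ r) (hrπ : r ≤ Real.pi) (ε : ℝ) (h : ‖vh v * rq p r - qh L q‖ < ε)
    (hne : qh L q ≠ vh v) :
    ∃ m : ℤ, -Real.sqrt (d * 5 ^ L) ≤ m ∧ (m : ℝ) < Real.sqrt (d * 5 ^ L) ∧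
      |r - Real.arccos (m / Real.sqrt (d * 5 ^ L))| ≤ Real.pi / 2 * ε := by
  have hdr : (0 : ℝ) < d := by exact_mod_cast hd0
  have hsd : 0 < Real.sqrt d := Real.sqrt_pos.2 hdr
  have hs5 : 0 < Real.sqrt 5 ^ L := by positivity
  have hsN : Real.sqrt (d * 5 ^ L) = Real.sqrt d * Real.sqrt 5 ^ L := by
    rw [Real.sqrt_mul hdr.le, radial_g_sqrt5]
  have hN0 : 0 < Real.sqrt (d * 5 ^ L) := by rw [hsN]; positivity
  have hnv : ‖vh v‖ = 1 := by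
    unfold vh
    rw [norm_smul, radial_g_norm_cz, hd, Real.norm_of_nonneg (by positivity)]
    push_cast
    rw [one_div, inv_mul_cancel₀ hsd.ne']
  have hnq : ‖qh L q‖ = 1 := by
    unfold qh
    rw [norm_smul, radial_g_norm_cz, hq, Real.norm_of_nonneg (by positivity)]
    push_cast
    rw [← radial_g_sqrt5, one_div, inv_mul_cancel₀ hs5.ne']
  have hvv : star (vh v) * vh v = 1 := by
    rw [Quaternion.star_mul_self, Quaternion.normSq_eq_norm_mul_self, hnv]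
    simp
  have hvv' : vh v * star (vh v) = 1 := by
    rw [Quaternion.self_mul_star, Quaternion.normSq_eq_norm_mul_self, hnv]
    simp
  obtain ⟨U, hUdef⟩ : ∃ U, U = star (vh v) * qh L q := ⟨_, rfl⟩
  have hU : ‖U‖ = 1 := by rw [hUdef, norm_mul, norm_star, hnv, hnq, one_mul]
  have hUr : U.re = ((star v * q).re : ℝ) / Real.sqrt (d * 5 ^ L) := by
    have h1 : U = ((1 / Real.sqrt d) * (1 / Real.sqrt 5 ^ L)) • cz (star v * q) := by
      rw [hUdef, vh, qh, cz_mul, cz_star, Quaternion.star_smul, smul_mul_smul_comm, hd]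
      simp
    have h2 : (cz (star v * q)).re = ((star v * q).re : ℝ) := rfl
    rw [h1, Quaternion.re_smul, h2, hsN, smul_eq_mul]
    field_simp
  have hdist : ‖rq p r - U‖ = ‖vh v * rq p r - qh L q‖ := by
    have h1 : rq p r - U = star (vh v) * (vh v * rq p r - qh L q) := by
      rw [mul_sub, ← mul_assoc, hvv, one_mul, hUdef]
    rw [h1, norm_mul, norm_star, hnv, one_mul]
  have hU2 : U.re ^ 2 + U.imI ^ 2 + U.imJ ^ 2 + U.imK ^ 2 = 1 := by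
    have := Quaternion.normSq_eq_norm_mul_self U
    rw [hU, Quaternion.normSq_def'] at this
    linarith
  refine ⟨(star v * q).re, ?_, ?_, ?_⟩
  · have hc2 : -1 ≤ U.re := by nlinarith [sq_nonneg U.imI, sq_nonneg U.imJ, sq_nonneg U.imK]
    rw [hUr, le_div_iff₀ hN0] at hc2
    linarith
  · by_contra hcon
    have h1 : 1 ≤ U.re := by
      rw [hUr, one_le_div hN0]
      exact not_lt.1 hcon
    have hI : U.imI = 0 := by
      have : U.imI ^ 2 = 0 := by nlinarith [sq_nonneg U.imI, sq_nonneg U.imJ, sq_nonneg U.imK]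
      exact pow_eq_zero_iff two_ne_zero |>.1 this
    have hJ : U.imJ = 0 := by
      have : U.imJ ^ 2 = 0 := by nlinarith [sq_nonneg U.imI, sq_nonneg U.imJ, sq_nonneg U.imK]
      exact pow_eq_zero_iff two_ne_zero |>.1 this
    have hK : U.imK = 0 := by
      have : U.imK ^ 2 = 0 := by nlinarith [sq_nonneg U.imI, sq_nonneg U.imJ, sq_nonneg U.imK]
      exact pow_eq_zero_iff two_ne_zero |>.1 this
    have hR : U.re = 1 := by
      rw [hI, hJ, hK] at hU2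
      nlinarith
    have hU1 : U = 1 := by
      ext
      · rw [hR]; rfl
      · rw [hI]; rfl
      · rw [hJ]; rfl
      · rw [hK]; rfl
    apply hne
    have h2 : vh v * U = qh L q := by rw [hUdef, ← mul_assoc, hvv', one_mul]
    rw [← h2, hU1, mul_one]
  · rw [← hUr]
    refine radial_g_ang p U hp hU r hr0 hrπ ε ?_
    rw [hdist]
    exact h

/-- the width -/
noncomputable def radial_g_W (s₁ δ : ℝ) (d k j : ℕ) : ℝ :=
  (s₁ + 2) ^ 2 / 2 * Real.sqrt d * (2 : ℝ) ^ ((k : ℝ) - j - δ * k / 2)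

theorem radial_g_pt (s₁ : ℝ) (hs₁ : 0 < s₁) (hs₁' : s₁ < Real.pi) (δ : ℝ) (hδ : 0 < δ)
    (v : ℍ[ℤ]) (d : ℕ) (hd0 : 1 ≤ d) (hd : Quaternion.normSq v = (d : ℤ)) (k j : ℕ) (hjk : j ≤ k)
    (s : ℝ) (h0 : 0 < s) (h1 : s < s₁) (p : ℍ[ℝ]) (L : ℕ) (q : ℍ[ℤ]) (hp : UP p)
    (hq : Quaternion.normSq q = 5 ^ L) (hL : (L : ℝ) ≤ (2 * (j + k) - δ * k) * Real.logb 5 2)
    (hn : ‖vh v * rq p (s / 2 ^ j) - qh L q‖ < 1 / 2 ^ k) (hne : qh L q ≠ vh v) :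
    L < 4 * k + 1 ∧ (5 : ℝ) ^ L ≤ (2 : ℝ) ^ ((4 : ℝ) * k) ∧ ∃ m : ℤ, (m : ℝ) < Real.sqrt (d * 5 ^ L) ∧
      Real.sqrt (d * 5 ^ L) - m ≤ radial_g_W s₁ δ d k j ∧
      |s - 2 ^ j * Real.arccos (m / Real.sqrt (d * 5 ^ L))| ≤ 2 * (2 ^ j / 2 ^ k) := by
  have h2j : (1 : ℝ) ≤ 2 ^ j := one_le_pow₀ (by norm_num)
  have h2j0 : (0 : ℝ) < 2 ^ j := by positivity
  have h2k0 : (0 : ℝ) < 2 ^ k := by positivity
  have h2jk : (2 : ℝ) ^ j ≤ 2 ^ k := pow_le_pow_right₀ (by norm_num) hjk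
  have hjk' : (j : ℝ) ≤ k := by exact_mod_cast hjk
  have hdr : (0 : ℝ) < d := by exact_mod_cast hd0
  have hN0 : 0 < Real.sqrt (d * 5 ^ L) := Real.sqrt_pos.2 (by positivity)
  have hr0 : 0 ≤ s / 2 ^ j := by positivity
  have hrs : s / 2 ^ j ≤ s := div_le_self h0.le h2j
  obtain ⟨m, hm1, hm2, hm3⟩ := radial_g_word v d hd0 hd p hp L q hq (s / 2 ^ j) hr0 (by linarith) _ hn hne
  obtain ⟨φ, hφ⟩ : ∃ φ, φ = Real.arccos (m / Real.sqrt (d * 5 ^ L)) := ⟨_, rfl⟩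
  rw [← hφ] at hm3
  -- the length
  have hℓ0 : 0 < Real.logb 5 2 := Real.logb_pos (by norm_num) (by norm_num)
  have hℓ1 : Real.logb 5 2 ≤ 1 := by
    rw [Real.logb_le_iff_le_rpow (by norm_num) (by norm_num)]
    norm_num
  obtain ⟨X, hX⟩ : ∃ X : ℝ, X = 2 * (j + k) - δ * k := ⟨_, rfl⟩
  rw [← hX] at hL
  have hX0 : 0 ≤ X := by
    by_contra hc
    have : X * Real.logb 5 2 < 0 := mul_neg_of_neg_of_pos (not_le.1 hc) hℓ0
    have hL0 : (0 : ℝ) ≤ L := Nat.cast_nonneg L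
    linarith
  have hX4 : X ≤ 4 * k := by
    have : 0 ≤ δ * k := by positivity
    rw [hX]
    linarith
  have hLX : (L : ℝ) ≤ X := hL.trans (mul_le_of_le_one_right hX0 hℓ1)
  have h5X : (5 : ℝ) ^ L ≤ (2 : ℝ) ^ X := by
    have e1 : (5 : ℝ) ^ (Real.logb 5 2) = 2 := Real.rpow_logb (by norm_num) (by norm_num) (by norm_num)
    calc (5 : ℝ) ^ L = (5 : ℝ) ^ (L : ℝ) := (Real.rpow_natCast _ _).symm
      _ ≤ (5 : ℝ) ^ (X * Real.logb 5 2) := Real.rpow_le_rpow_of_exponent_le (by norm_num) hL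
      _ = ((5 : ℝ) ^ (Real.logb 5 2)) ^ X := by rw [mul_comm, Real.rpow_mul (by norm_num)]
      _ = (2 : ℝ) ^ X := by rw [e1]
  have hcase : |s - 2 ^ j * φ| ≤ 2 * (2 ^ j / 2 ^ k) := by
    have e1 : s - 2 ^ j * φ = 2 ^ j * (s / 2 ^ j - φ) := by field_simp
    rw [e1, abs_mul, abs_of_pos h2j0]
    have hpi := Real.pi_lt_four
    calc (2 : ℝ) ^ j * |s / 2 ^ j - φ| ≤ 2 ^ j * (Real.pi / 2 * (1 / 2 ^ k)) :=
          mul_le_mul_of_nonneg_left hm3 h2j0.le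
      _ ≤ 2 ^ j * (2 * (1 / 2 ^ k)) := by gcongr; linarith
      _ = 2 * (2 ^ j / 2 ^ k) := by ring
  refine ⟨?_, ?_, m, hm2, ?_, by rw [← hφ]; exact hcase⟩
  · have h3 : (L : ℝ) < ((4 * k + 1 : ℕ) : ℝ) := by
      push_cast
      linarith
    exact_mod_cast h3
  · exact h5X.trans (Real.rpow_le_rpow_of_exponent_le (by norm_num) hX4)
  · have hcφ : Real.cos φ = m / Real.sqrt (d * 5 ^ L) := by
      rw [hφ]
      apply Real.cos_arccos
      · rw [le_div_iff₀ hN0]; linarith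
      · rw [div_le_one hN0]; exact hm2.le
    have hφ0 : 0 ≤ φ := by rw [hφ]; exact Real.arccos_nonneg _
    have hφ1 : φ ≤ (s₁ + 2) / 2 ^ j := by
      rw [le_div_iff₀ h2j0]
      have h4 := (abs_le.1 hcase).1
      have h5 : (2 : ℝ) ^ j / 2 ^ k ≤ 1 := by rw [div_le_one h2k0]; exact h2jk
      linarith
    have h6 : Real.sqrt (d * 5 ^ L) - m = Real.sqrt (d * 5 ^ L) * (1 - Real.cos φ) := by
      rw [hcφ]
      field_simp
    have h7 : 1 - Real.cos φ ≤ (s₁ + 2) ^ 2 / 2 * (2 : ℝ) ^ (-(2 * (j : ℝ))) := by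
      have h8 := Real.one_sub_sq_div_two_le_cos (x := φ)
      have h9 : φ ^ 2 ≤ ((s₁ + 2) / 2 ^ j) ^ 2 := pow_le_pow_left₀ hφ0 hφ1 2
      have h10 : (2 : ℝ) ^ (-(2 * (j : ℝ))) = 1 / (2 ^ j) ^ 2 := by
        rw [Real.rpow_neg (by norm_num), mul_comm, Real.rpow_mul (by norm_num), Real.rpow_natCast]
        norm_num
      rw [h10]
      rw [div_pow] at h9
      have h11 : (s₁ + 2) ^ 2 / 2 * (1 / (2 ^ j) ^ 2) = (s₁ + 2) ^ 2 / (2 ^ j) ^ 2 / 2 := by ring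
      rw [h11]
      linarith
    have h12 : Real.sqrt (d * 5 ^ L) ≤ Real.sqrt d * (2 : ℝ) ^ (X / 2) := by
      rw [Real.sqrt_mul hdr.le]
      refine mul_le_mul_of_nonneg_left ?_ (Real.sqrt_nonneg _)
      rw [Real.sqrt_le_left (by positivity), ← Real.rpow_natCast ((2 : ℝ) ^ (X / 2)), ← Real.rpow_mul (by norm_num)]
      have : X / 2 * ((2 : ℕ) : ℝ) = X := by push_cast; ring
      rw [this]
      exact h5X
    rw [h6, radial_g_W]
    calc Real.sqrt (d * 5 ^ L) * (1 - Real.cos φ)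
        ≤ (Real.sqrt d * (2 : ℝ) ^ (X / 2)) * ((s₁ + 2) ^ 2 / 2 * (2 : ℝ) ^ (-(2 * (j : ℝ)))) :=
          mul_le_mul h12 h7 (by linarith [Real.cos_le_one φ]) (by positivity)
      _ = (s₁ + 2) ^ 2 / 2 * Real.sqrt d * ((2 : ℝ) ^ (X / 2) * (2 : ℝ) ^ (-(2 * (j : ℝ)))) := by ring
      _ = _ := by
          rw [← Real.rpow_add (by norm_num)]
          congr 2
          rw [hX]
          ring

theorem radial_g_two_rpow (x : ℝ) (hx : 0 ≤ x) : x / 2 ≤ (2 : ℝ) ^ x := by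
  have h1 : x * Real.log 2 + 1 ≤ Real.exp (x * Real.log 2) := Real.add_one_le_exp _
  have h2 : (2 : ℝ) ^ x = Real.exp (x * Real.log 2) := by
    rw [Real.rpow_def_of_pos (by norm_num), mul_comm]
  have h3 : (1 : ℝ) / 2 ≤ Real.log 2 := by
    have := Real.log_two_gt_d9
    linarith
  rw [h2]
  nlinarith

/-- the measure of a finite union -/
theorem radial_g_meas (A : Set ℝ) (K : ℕ) (w b : ℝ) (hw : 0 ≤ w) (hb : 0 ≤ b) (N : ℕ → ℝ)
    (ψ : ℕ → ℤ → ℝ) (hA : ∀ s ∈ A, ∃ L < K, ∃ m : ℤ, (m : ℝ) < N L ∧ N L - m ≤ w ∧ |s - ψ L m| ≤ b) :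
    (volume : Measure ℝ).real A ≤ K * ((w + 1) * (2 * b)) := by
  classical
  set M : ℕ → Finset ℤ := fun L => Finset.Ico ⌈N L - w⌉ ⌈N L⌉ with hM
  have hsub : A ⊆ ⋃ L ∈ Finset.range K, ⋃ m ∈ M L, Icc (ψ L m - b) (ψ L m + b) := by
    intro s hs
    obtain ⟨L, hL, m, h1, h2, h3⟩ := hA s hs
    rw [mem_iUnion₂]
    refine ⟨L, Finset.mem_range.2 hL, ?_⟩
    rw [mem_iUnion₂]
    refine ⟨m, ?_, ?_⟩
    · rw [hM, Finset.mem_Ico]
      exact ⟨Int.ceil_le.2 (by linarith), Int.lt_ceil.2 h1⟩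
    · rw [abs_le] at h3
      exact ⟨by linarith [h3.1], by linarith [h3.2]⟩
  have hI : ∀ (L : ℕ) (m : ℤ), (volume : Measure ℝ).real (Icc (ψ L m - b) (ψ L m + b)) = 2 * b := by
    intro L m
    rw [Real.volume_real_Icc_of_le (by linarith)]
    ring
  have hfin : (volume : Measure ℝ) (⋃ L ∈ Finset.range K, ⋃ m ∈ M L, Icc (ψ L m - b) (ψ L m + b)) ≠ ⊤ := by
    apply ne_of_lt
    refine (measure_biUnion_finset_le _ _).trans_lt ?_
    rw [ENNReal.sum_lt_top]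
    intro L _
    refine (measure_biUnion_finset_le _ _).trans_lt ?_
    rw [ENNReal.sum_lt_top]
    intro m _
    exact measure_Icc_lt_top
  have hcard : ∀ L, ((M L).card : ℝ) ≤ w + 1 := by
    intro L
    rw [hM, Int.card_Ico]
    have h1 : ⌈N L - w⌉ ≤ ⌈N L⌉ := Int.ceil_mono (by linarith)
    have h2 : (((⌈N L⌉ - ⌈N L - w⌉).toNat : ℤ) : ℝ) = (⌈N L⌉ : ℝ) - ⌈N L - w⌉ := by
      rw [Int.toNat_of_nonneg (by omega)]
      push_cast
      ring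
    have h3 : (((⌈N L⌉ - ⌈N L - w⌉).toNat : ℕ) : ℝ) = (((⌈N L⌉ - ⌈N L - w⌉).toNat : ℤ) : ℝ) := by
      push_cast
      rfl
    rw [h3, h2]
    have h4 := Int.ceil_lt_add_one (N L)
    have h5 := Int.le_ceil (N L - w)
    linarith
  calc (volume : Measure ℝ).real A
      ≤ (volume : Measure ℝ).real (⋃ L ∈ Finset.range K, ⋃ m ∈ M L, Icc (ψ L m - b) (ψ L m + b)) :=
        measureReal_mono hsub hfin
    _ ≤ ∑ L ∈ Finset.range K, (volume : Measure ℝ).real (⋃ m ∈ M L, Icc (ψ L m - b) (ψ L m + b)) :=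
        measureReal_biUnion_finset_le _ _
    _ ≤ ∑ L ∈ Finset.range K, ∑ m ∈ M L, (volume : Measure ℝ).real (Icc (ψ L m - b) (ψ L m + b)) :=
        Finset.sum_le_sum fun L _ => measureReal_biUnion_finset_le _ _
    _ ≤ ∑ L ∈ Finset.range K, (w + 1) * (2 * b) := by
        refine Finset.sum_le_sum fun L _ => ?_
        rw [Finset.sum_congr rfl fun m _ => hI L m, Finset.sum_const, nsmul_eq_mul]
        exact mul_le_mul_of_nonneg_right (hcard L) (by positivity)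
    _ = _ := by rw [Finset.sum_const, Finset.card_range, nsmul_eq_mul]

/-- TARGET -/
theorem radial_g (v : ℍ[ℤ]) (hv : v ≠ 0) (s₁ : ℝ) (hs₁ : 0 < s₁) (hs₁' : s₁ < Real.pi)
    (δ : ℝ) (hδ : 0 < δ) : ∃ η C : ℝ, 0 < η ∧ 0 < C ∧ ∀ k j : ℕ, k ≤ 2 * j → j ≤ k →
      (volume : Measure ℝ).real {s : ℝ | 0 < s ∧ s < s₁ ∧ ∃ (p : ℍ[ℝ]) (L : ℕ) (q : ℍ[ℤ]), UP p ∧
        Quaternion.normSq q = 5 ^ L ∧ (L : ℝ) ≤ (2 * (j + k) - δ * k) * Real.logb 5 2 ∧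
        ‖vh v * rq p (s / 2 ^ j) - qh L q‖ < 1 / 2 ^ k ∧ qh L q ≠ vh v} ≤ C * (2 : ℝ) ^ (-(η * k)) := by
  obtain ⟨d, hd0, hd⟩ : ∃ d : ℕ, 1 ≤ d ∧ Quaternion.normSq v = (d : ℤ) := by
    have h1 : 0 < Quaternion.normSq v :=
      lt_of_le_of_ne Quaternion.normSq_nonneg (Ne.symm (Quaternion.normSq_ne_zero.2 hv))
    refine ⟨(Quaternion.normSq v).toNat, ?_, ?_⟩
    · omega
    · rw [Int.toNat_of_nonneg h1.le]
  have hdr : (0 : ℝ) < d := by exact_mod_cast hd0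
  obtain ⟨c, hc, hgap⟩ := gap5 d hd0 (δ / 32) (by positivity)
  obtain ⟨C1, hC1⟩ : ∃ C1 : ℝ, C1 = (s₁ + 2) ^ 2 / 2 * Real.sqrt d := ⟨_, rfl⟩
  have hC10 : 0 < C1 := by rw [hC1]; have := Real.sqrt_pos.2 hdr; positivity
  obtain ⟨C2, hC2⟩ : ∃ C2 : ℝ, C2 = (64 / δ + 1) * (4 + 4 * C1) := ⟨_, rfl⟩
  have hC20 : 0 < C2 := by rw [hC2]; positivity
  refine ⟨δ / 8, C2 + s₁ * (C1 / c), by positivity, by positivity, fun k j _ hjk => ?_⟩
  set A := {s : ℝ | 0 < s ∧ s < s₁ ∧ ∃ (p : ℍ[ℝ]) (L : ℕ) (q : ℍ[ℤ]), UP p ∧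
        Quaternion.normSq q = 5 ^ L ∧ (L : ℝ) ≤ (2 * (j + k) - δ * k) * Real.logb 5 2 ∧
        ‖vh v * rq p (s / 2 ^ j) - qh L q‖ < 1 / 2 ^ k ∧ qh L q ≠ vh v} with hA
  have hk0 : (0 : ℝ) ≤ k := Nat.cast_nonneg k
  have hW0 : 0 ≤ radial_g_W s₁ δ d k j := by unfold radial_g_W; positivity
  have hWe : radial_g_W s₁ δ d k j = C1 * (2 : ℝ) ^ ((k : ℝ) - j - δ * k / 2) := by
    rw [radial_g_W, hC1]
  have hpt : ∀ s ∈ A, ∃ L : ℕ, L < 4 * k + 1 ∧ (5 : ℝ) ^ L ≤ (2 : ℝ) ^ ((4 : ℝ) * k) ∧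
      ∃ m : ℤ, (m : ℝ) < Real.sqrt (d * 5 ^ L) ∧
      Real.sqrt (d * 5 ^ L) - m ≤ radial_g_W s₁ δ d k j ∧
      |s - 2 ^ j * Real.arccos (m / Real.sqrt (d * 5 ^ L))| ≤ 2 * (2 ^ j / 2 ^ k) := by
    rintro s ⟨h0, h1, p, L, q, hp, hq, hL, hn, hne⟩
    exact ⟨L, radial_g_pt s₁ hs₁ hs₁' δ hδ v d hd0 hd k j hjk s h0 h1 p L q hp hq hL hn hne⟩
  have hE : (0 : ℝ) < (2 : ℝ) ^ (-(δ / 8 * k)) := Real.rpow_pos_of_pos (by norm_num) _
  rcases le_or_gt ((j : ℝ)) ((1 - δ / 4) * k) with hcase | hcase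
  · -- small j
    have h1 := radial_g_meas A (4 * k + 1) (radial_g_W s₁ δ d k j) (2 * (2 ^ j / 2 ^ k)) hW0 (by positivity)
      (fun L => Real.sqrt (d * 5 ^ L)) (fun L m => 2 ^ j * Real.arccos (m / Real.sqrt (d * 5 ^ L)))
      (fun s hs => by
        obtain ⟨L, hL, -, m, h2, h3, h4⟩ := hpt s hs
        exact ⟨L, hL, m, h2, h3, h4⟩)
    refine h1.trans ?_
    have e1 : (2 : ℝ) ^ j / 2 ^ k = (2 : ℝ) ^ ((j : ℝ) - k) := by
      rw [Real.rpow_sub (by norm_num), Real.rpow_natCast, Real.rpow_natCast]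
    have e2 : (radial_g_W s₁ δ d k j + 1) * (2 * (2 * (2 ^ j / 2 ^ k))) =
        4 * (2 : ℝ) ^ ((j : ℝ) - k) + 4 * C1 * (2 : ℝ) ^ (-(δ * k / 2)) := by
      rw [hWe, e1]
      have e3 : (2 : ℝ) ^ ((k : ℝ) - j - δ * k / 2) * (2 : ℝ) ^ ((j : ℝ) - k) = (2 : ℝ) ^ (-(δ * k / 2)) := by
        rw [← Real.rpow_add (by norm_num)]
        congr 1
        ring
      linear_combination 4 * C1 * e3
    have h5 : (2 : ℝ) ^ ((j : ℝ) - k) ≤ (2 : ℝ) ^ (-(δ * k / 4)) :=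
      Real.rpow_le_rpow_of_exponent_le (by norm_num) (by linarith)
    have hδk : 0 ≤ δ * k := by positivity
    have h6 : (2 : ℝ) ^ (-(δ * k / 2)) ≤ (2 : ℝ) ^ (-(δ * k / 4)) :=
      Real.rpow_le_rpow_of_exponent_le (by norm_num) (by linarith)
    have h7 : (radial_g_W s₁ δ d k j + 1) * (2 * (2 * (2 ^ j / 2 ^ k))) ≤
        (4 + 4 * C1) * (2 : ℝ) ^ (-(δ * k / 4)) := by
      rw [e2]
      nlinarith
    have e4 : (2 : ℝ) ^ (-(δ * k / 4)) = (2 : ℝ) ^ (-(δ / 8 * k)) * (2 : ℝ) ^ (-(δ / 8 * k)) := by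
      rw [← Real.rpow_add (by norm_num)]
      congr 1
      ring
    have h8 : ((4 * k + 1 : ℕ) : ℝ) * (2 : ℝ) ^ (-(δ / 8 * k)) ≤ 64 / δ + 1 := by
      have h9 := radial_g_two_rpow (δ / 8 * k) (by positivity)
      have e5 : (2 : ℝ) ^ (-(δ / 8 * k)) = ((2 : ℝ) ^ (δ / 8 * k))⁻¹ := Real.rpow_neg (by norm_num) _
      have h10 : (0 : ℝ) < (2 : ℝ) ^ (δ / 8 * k) := Real.rpow_pos_of_pos (by norm_num) _
      have h11 : (1 : ℝ) ≤ (2 : ℝ) ^ (δ / 8 * k) := Real.one_le_rpow (by norm_num) (by positivity)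
      rw [e5, ← div_eq_mul_inv, div_le_iff₀ h10]
      push_cast
      have h12 : 4 * (k : ℝ) = 64 / δ * (δ / 8 * k / 2) := by
        field_simp
        ring
      have h13 : 64 / δ * (δ / 8 * k / 2) ≤ 64 / δ * (2 : ℝ) ^ (δ / 8 * k) :=
        mul_le_mul_of_nonneg_left h9 (by positivity)
      linarith
    calc ((4 * k + 1 : ℕ) : ℝ) * ((radial_g_W s₁ δ d k j + 1) * (2 * (2 * (2 ^ j / 2 ^ k))))
        ≤ ((4 * k + 1 : ℕ) : ℝ) * ((4 + 4 * C1) * (2 : ℝ) ^ (-(δ * k / 4))) :=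
          mul_le_mul_of_nonneg_left h7 (Nat.cast_nonneg _)
      _ = (((4 * k + 1 : ℕ) : ℝ) * (2 : ℝ) ^ (-(δ / 8 * k))) * ((4 + 4 * C1) * (2 : ℝ) ^ (-(δ / 8 * k))) := by
          rw [e4]; ring
      _ ≤ (64 / δ + 1) * ((4 + 4 * C1) * (2 : ℝ) ^ (-(δ / 8 * k))) :=
          mul_le_mul_of_nonneg_right h8 (by positivity)
      _ = C2 * (2 : ℝ) ^ (-(δ / 8 * k)) := by rw [hC2]; ring
      _ ≤ _ := mul_le_mul_of_nonneg_right (by
          have : 0 ≤ s₁ * (C1 / c) := by positivity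
          linarith) hE.le
  · -- large j
    rcases A.eq_empty_or_nonempty with hemp | ⟨s, hs⟩
    · rw [hemp]
      simp only [measureReal_empty]
      positivity
    · obtain ⟨L, -, h5L, m, h2, h3, -⟩ := hpt s hs
      have hg := hgap L m h2
      have h4 : c * (2 : ℝ) ^ (-(δ / 8 * k)) ≤ C1 * ((2 : ℝ) ^ (-(δ / 8 * k)) * (2 : ℝ) ^ (-(δ / 8 * k))) := by
        have e1 : (5 : ℝ) ^ (-(δ / 32 * L)) = ((5 : ℝ) ^ L) ^ (-(δ / 32)) := by
          rw [← Real.rpow_natCast, ← Real.rpow_mul (by norm_num)]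
          congr 1
          ring
        have e2 : (2 : ℝ) ^ (-(δ / 8 * k)) = ((2 : ℝ) ^ ((4 : ℝ) * k)) ^ (-(δ / 32)) := by
          rw [← Real.rpow_mul (by norm_num)]
          congr 1
          ring
        have h5 : (2 : ℝ) ^ (-(δ / 8 * k)) ≤ (5 : ℝ) ^ (-(δ / 32 * L)) := by
          rw [e1, e2]
          exact Real.rpow_le_rpow_of_nonpos (by positivity) h5L (by linarith)
        have h6 : (2 : ℝ) ^ ((k : ℝ) - j - δ * k / 2) ≤ (2 : ℝ) ^ (-(δ / 8 * k)) * (2 : ℝ) ^ (-(δ / 8 * k)) := by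
          rw [← Real.rpow_add (by norm_num)]
          exact Real.rpow_le_rpow_of_exponent_le (by norm_num) (by nlinarith)
        calc c * (2 : ℝ) ^ (-(δ / 8 * k)) ≤ c * (5 : ℝ) ^ (-(δ / 32 * L)) := mul_le_mul_of_nonneg_left h5 hc.le
          _ ≤ Real.sqrt (d * 5 ^ L) - m := hg
          _ ≤ C1 * (2 : ℝ) ^ ((k : ℝ) - j - δ * k / 2) := by rw [← hWe]; exact h3
          _ ≤ _ := mul_le_mul_of_nonneg_left h6 hC10.le
      have h7 : 1 ≤ C1 / c * (2 : ℝ) ^ (-(δ / 8 * k)) := by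
        rw [div_mul_eq_mul_div, le_div_iff₀ hc, one_mul]
        have h8 : c * (2 : ℝ) ^ (-(δ / 8 * k)) ≤ (C1 * (2 : ℝ) ^ (-(δ / 8 * k))) * (2 : ℝ) ^ (-(δ / 8 * k)) := by
          linarith
        exact le_of_mul_le_mul_right h8 hE
      have h9 : (volume : Measure ℝ).real A ≤ s₁ := by
        have h10 : A ⊆ Ioo 0 s₁ := fun s hs => ⟨hs.1, hs.2.1⟩
        refine (measureReal_mono h10 measure_Ioo_lt_top.ne).trans (le_of_eq ?_)
        rw [Real.volume_real_Ioo_of_le hs₁.le, sub_zero]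
      calc (volume : Measure ℝ).real A ≤ s₁ * 1 := by linarith
        _ ≤ s₁ * (C1 / c * (2 : ℝ) ^ (-(δ / 8 * k))) := mul_le_mul_of_nonneg_left h7 hs₁.le
        _ = (s₁ * (C1 / c)) * (2 : ℝ) ^ (-(δ / 8 * k)) := by ring
        _ ≤ _ := mul_le_mul_of_nonneg_right (by linarith) hE.le

end Pool.Agent.H978V
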