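import Pool.Agent.H978V.NDefs
import Pool.Agent.H978V.K12
import Pool.Agent.H978V.L13
import Pool.Agent.H978V.P5b
import Pool.Agent.H978V.P6
import Pool.Agent.H978V.P7

/-!
JOB P8 (owner helper978, MP_06cce2_nt).  `H978V/*.lean` (library, with `K12` (`class_ae`), `L13` (`hole_upper`)) is on origin/main.

Borel-Cantelli.  READ `H978V/K12.lean` (`class_ae`).

PROOF of `profile_dir`.  `sg 3` is a probability measure.  Choose `r₁` with `s ≤ r₁ < π`.  Let `δ = 1/(i+1)`, `i ∈ ℕ` (countably many; the statement for smaller `δ` implies it for larger).  Upper part: for `j ≤ k` with `2^(-k) ≤ s/2^j`: `upper_all` with `δ/2`, `ε = 2^(-k)`, `r = s/2^j`: bad sets of measure `≤ C 2^(-ηk)`, `k + 1` values of `j`: `∑ (k+1) C 2^(-ηk) < ∞`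
(sum over `k` of the measures of the finite unions over `j`; `MeasureTheory.ae_eventually_notMem` or `measure_limsup_..`).  `logb 5 (1/ε) = k logb 5 2`, `logb 5 (1/(rε)) = (j + k) logb 5 2 - logb 5 s`, so the length is `≤ (max (3k) (2(j+k)) + (δ/2) k) logb 5 2 + C' ≤ (max (3k) (2 (j+k)) + δ k) logb 5 2` for large `k`.
For `j ≤ k` with `s/2^j < 2^(-k)` (so `2^(k-j) < 1/s`, `k - j ≤ C_s`): `hole_upper v hv (2)`: `‖vh v * rq p r - vh v‖ = ‖rq p r - 1‖ ≤ r ≤ 2^(-k)`: length `≤ 4 k logb 5 2 + C ≤ (2(j+k) + 2 C_s) logb 5 2 + C ≤ (max .. + δk) logb 5 2` for large `k`, for all `x`.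
Lower part: `lower_g'` with `s₀ = s`, `ε = 2^(-k)`, `r = s/2^j`: for `2j ≤ k`, `s √ε = s 2^(-k/2) ≤ s 2^(-j) = r`; again `k+1` values of `j` and summable measures; `L ≤ (3-δ) k logb 5 2` is excluded, so `L > (3-δ) k logb 5 2`.
PROOF of `profile_rad`.  `radial_g` with `s₁ = π - 1/(i+1)` and `δ = 1/(i+1)`: for each `i` the sets for `k`, `k/2 ≤ j ≤ k` have summable measures; Borel-Cantelli on `(0, s₁)`; countable intersection.
-/

set_option autoImplicit false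

open MeasureTheory Set
open scoped Quaternion

namespace Pool.Agent.H978V

open Pool.Agent.Helper557.Rz




theorem p8_bc {α : Type*} [MeasurableSpace α] (μ : Measure α) (B : ℕ → ℕ → Set α) (η C : ℝ) (hη : 0 < η)
    (hC : 0 < C)
    (h : ∀ k : ℕ, 1 ≤ k → ∀ j : ℕ, j ≤ k → μ (B k j) ≤ ENNReal.ofReal (C * (2 : ℝ) ^ (-(η * k)))) :
    ∀ᵐ x ∂μ, ∀ᶠ k in Filter.atTop, ∀ j : ℕ, j ≤ k → x ∉ B k j := by
  have hρ0 : (0 : ℝ) < (2 : ℝ) ^ (-η) := Real.rpow_pos_of_pos (by norm_num) _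
  have hρ1 : (2 : ℝ) ^ (-η) < 1 := Real.rpow_lt_one_of_one_lt_of_neg (by norm_num) (by linarith)
  have hpow : ∀ k : ℕ, (2 : ℝ) ^ (-(η * k)) = ((2 : ℝ) ^ (-η)) ^ k := by
    intro k
    rw [← Real.rpow_natCast, ← Real.rpow_mul (by norm_num)]
    congr 1
    ring
  have hs : Summable (fun k : ℕ => ((k : ℝ) + 1) * (C * ((2 : ℝ) ^ (-η)) ^ k)) := by
    have h1 : Summable (fun k : ℕ => (k : ℝ) * ((2 : ℝ) ^ (-η)) ^ k) := by
      have := summable_pow_mul_geometric_of_norm_lt_one (R := ℝ) 1 (r := (2 : ℝ) ^ (-η))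
        (by rw [Real.norm_of_nonneg hρ0.le]; exact hρ1)
      simpa using this
    have h2 : Summable (fun k : ℕ => ((2 : ℝ) ^ (-η)) ^ k) := summable_geometric_of_lt_one hρ0.le hρ1
    have h3 := (h1.mul_left C).add (h2.mul_left C)
    refine h3.congr (fun k => ?_)
    ring
  have hm : ∀ᵐ x ∂μ, ∀ᶠ k in Filter.atTop, x ∉ (if k = 0 then (∅ : Set α) else ⋃ j ∈ Finset.range (k + 1), B k j) := by
    apply ae_eventually_notMem
    refine ne_top_of_le_ne_top hs.tsum_ofReal_ne_top (ENNReal.tsum_le_tsum (fun k => ?_))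
    by_cases hk : k = 0
    · rw [if_pos hk, measure_empty]
      exact bot_le
    · rw [if_neg hk]
      refine (measure_biUnion_finset_le _ _).trans ?_
      calc ∑ j ∈ Finset.range (k + 1), μ (B k j)
          ≤ ∑ j ∈ Finset.range (k + 1), ENNReal.ofReal (C * ((2 : ℝ) ^ (-η)) ^ k) := by
            refine Finset.sum_le_sum (fun j hj => ?_)
            rw [← hpow]
            exact h k (Nat.one_le_iff_ne_zero.2 hk) j (by have := Finset.mem_range.1 hj; omega)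
        _ = ENNReal.ofReal (((k : ℝ) + 1) * (C * ((2 : ℝ) ^ (-η)) ^ k)) := by
            rw [Finset.sum_const, Finset.card_range, nsmul_eq_mul,
              ENNReal.ofReal_mul (p := (k : ℝ) + 1) (by positivity)]
            congr 1
            rw [ENNReal.ofReal_add (by positivity) (by norm_num), ENNReal.ofReal_natCast, ENNReal.ofReal_one]
            push_cast
            rfl
  filter_upwards [hm] with x hx
  filter_upwards [hx, Filter.eventually_ge_atTop 1] with k hk hk1 j hj hmem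
  rw [if_neg (by omega)] at hk
  apply hk
  simp only [mem_iUnion, Finset.mem_range]
  exact ⟨j, by omega, hmem⟩

theorem p8_large (l a D : ℝ) (hl : 0 < l) (ha : 0 < a) : ∀ᶠ k : ℕ in Filter.atTop, D ≤ a * k * l := by
  have ht : Filter.Tendsto (fun k : ℕ => (k : ℝ) * (a * l)) Filter.atTop Filter.atTop :=
    tendsto_natCast_atTop_atTop.atTop_mul_const (by positivity)
  filter_upwards [ht.eventually_ge_atTop D] with k hk
  calc D ≤ (k : ℝ) * (a * l) := hk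
    _ = a * k * l := by ring

theorem p8_log (k : ℕ) : Real.logb 5 (1 / (1 / (2 : ℝ) ^ k)) = k * Real.logb 5 2 := by
  rw [one_div_one_div, Real.logb_pow]

theorem p8_log2 (s : ℝ) (hs : 0 < s) (j k : ℕ) :
    Real.logb 5 (1 / (s / 2 ^ j * (1 / (2 : ℝ) ^ k))) = (j + k) * Real.logb 5 2 - Real.logb 5 s := by
  have e : (1 / (s / 2 ^ j * (1 / (2 : ℝ) ^ k))) = 2 ^ (j + k) / s := by
    rw [pow_add]
    field_simp
  rw [e, Real.logb_div (by positivity) hs.ne', Real.logb_pow]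
  push_cast
  ring

theorem p8_eps (k : ℕ) (hk : 1 ≤ k) : (0 : ℝ) < 1 / 2 ^ k ∧ (1 : ℝ) / 2 ^ k < 1 := by
  refine ⟨by positivity, ?_⟩
  rw [div_lt_one (by positivity)]
  exact one_lt_pow₀ (by norm_num) (by omega)

theorem p8_rpow (η : ℝ) (k : ℕ) : ((1 : ℝ) / 2 ^ k) ^ η = (2 : ℝ) ^ (-(η * k)) := by
  rw [one_div, ← Real.rpow_natCast, ← Real.rpow_neg (by norm_num), ← Real.rpow_mul (by norm_num)]
  congr 1
  ring

theorem p8_sg (A : Set (S 3)) (D : ℝ) (h : (sg 3).real A ≤ D) : (sg 3) A ≤ ENNReal.ofReal D := by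
  have := sg_prob 3 (by norm_num)
  have e1 : (sg 3) A = ENNReal.ofReal ((sg 3).real A) := by
    rw [Measure.real, ENNReal.ofReal_toReal (measure_ne_top _ _)]
  rw [e1]
  exact ENNReal.ofReal_le_ofReal h

theorem p8_cz_normSq (v : ℍ[ℤ]) : Quaternion.normSq (cz v) = ((Quaternion.normSq v : ℤ) : ℝ) := by
  rw [Quaternion.normSq_def', Quaternion.normSq_def']
  simp [cz]

theorem p8_vh (v : ℍ[ℤ]) (hv : v ≠ 0) : ‖vh v‖ = 1 := by
  have h : 0 < Quaternion.normSq v := by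
    rcases (Quaternion.normSq_nonneg (a := v)).lt_or_eq with h | h
    · exact h
    · exact absurd (Quaternion.normSq_eq_zero.1 h.symm) hv
  have h0 : (0 : ℝ) < ((Quaternion.normSq v : ℤ) : ℝ) := by exact_mod_cast h
  have h1 : ‖cz v‖ * ‖cz v‖ = ((Quaternion.normSq v : ℤ) : ℝ) := by
    rw [← Quaternion.normSq_eq_norm_mul_self, p8_cz_normSq]
  have h2 : ‖cz v‖ = Real.sqrt ((Quaternion.normSq v : ℤ) : ℝ) := by
    rw [← h1, Real.sqrt_mul_self (norm_nonneg _)]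
  unfold vh
  rw [norm_smul, h2, Real.norm_of_nonneg (by positivity)]
  have h3 : Real.sqrt ((Quaternion.normSq v : ℤ) : ℝ) ≠ 0 := (Real.sqrt_pos.mpr h0).ne'
  field_simp

theorem p8_up {p : ℍ[ℝ]} (hp : UP p) : p.imI ^ 2 + p.imJ ^ 2 + p.imK ^ 2 = 1 := by
  have h := Quaternion.normSq_eq_norm_mul_self p
  rw [Quaternion.normSq_def', hp.1, hp.2] at h
  linarith

theorem p8_rq_norm {p : ℍ[ℝ]} (hp : UP p) (r : ℝ) : ‖rq p r‖ = 1 := by
  have h := Quaternion.normSq_eq_norm_mul_self (rq p r)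
  rw [Quaternion.normSq_def'] at h
  have h1 := p8_up hp
  have h2 : (rq p r).re = Real.cos r := by unfold rq; simp [hp.1]
  have h3 : (rq p r).imI = Real.sin r * p.imI := by unfold rq; simp
  have h4 : (rq p r).imJ = Real.sin r * p.imJ := by unfold rq; simp
  have h5 : (rq p r).imK = Real.sin r * p.imK := by unfold rq; simp
  rw [h2, h3, h4, h5] at h
  have h6 := Real.sin_sq_add_cos_sq r
  have h7 : ‖rq p r‖ * ‖rq p r‖ = 1 := by
    rw [← h]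
    have : Real.cos r ^ 2 + (Real.sin r * p.imI) ^ 2 + (Real.sin r * p.imJ) ^ 2 + (Real.sin r * p.imK) ^ 2
        = Real.cos r ^ 2 + Real.sin r ^ 2 * (p.imI ^ 2 + p.imJ ^ 2 + p.imK ^ 2) := by ring
    rw [this, h1]
    linarith
  have h8 := norm_nonneg (rq p r)
  nlinarith

theorem p8_rq_sub {p : ℍ[ℝ]} (hp : UP p) (r : ℝ) (hr : 0 ≤ r) : ‖rq p r - 1‖ ≤ r := by
  have h := Quaternion.normSq_eq_norm_mul_self (rq p r - 1)
  rw [Quaternion.normSq_def'] at h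
  have h1 := p8_up hp
  have h2 : (rq p r - 1).re = Real.cos r - 1 := by unfold rq; simp [hp.1]
  have h3 : (rq p r - 1).imI = Real.sin r * p.imI := by unfold rq; simp
  have h4 : (rq p r - 1).imJ = Real.sin r * p.imJ := by unfold rq; simp
  have h5 : (rq p r - 1).imK = Real.sin r * p.imK := by unfold rq; simp
  rw [h2, h3, h4, h5] at h
  have h6 := Real.sin_sq_add_cos_sq r
  have h7 := Real.one_sub_sq_div_two_le_cos (x := r)
  have h8 : ‖rq p r - 1‖ * ‖rq p r - 1‖ ≤ r * r := by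
    rw [← h]
    have : (Real.cos r - 1) ^ 2 + (Real.sin r * p.imI) ^ 2 + (Real.sin r * p.imJ) ^ 2 + (Real.sin r * p.imK) ^ 2
        = (Real.cos r - 1) ^ 2 + Real.sin r ^ 2 * (p.imI ^ 2 + p.imJ ^ 2 + p.imK ^ 2) := by ring
    rw [this, h1]
    nlinarith
  have h9 := norm_nonneg (rq p r - 1)
  nlinarith

theorem p8_imq_up (x : S 3) : UP (imq (x : E 3)) := by
  refine ⟨rfl, ?_⟩
  have h := Quaternion.normSq_eq_norm_mul_self (imq (x : E 3))
  rw [Quaternion.normSq_def'] at h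
  have hx : ‖(x : E 3)‖ = 1 := by
    have := x.2
    simpa using this
  have h1 : (x : E 3) 0 ^ 2 + (x : E 3) 1 ^ 2 + (x : E 3) 2 ^ 2 = 1 := by
    have h2 := EuclideanSpace.norm_sq_eq (x : E 3)
    rw [hx] at h2
    simp [Fin.sum_univ_three] at h2
    linarith
  have e0 : (imq (x : E 3)).re = 0 := rfl
  have e1 : (imq (x : E 3)).imI = (x : E 3) 0 := rfl
  have e2 : (imq (x : E 3)).imJ = (x : E 3) 1 := rfl
  have e3 : (imq (x : E 3)).imK = (x : E 3) 2 := rfl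
  rw [e0, e1, e2, e3] at h
  have h8 := norm_nonneg (imq (x : E 3))
  nlinarith

/-- upper part near the rational point -/
theorem p8_near (v : ℍ[ℤ]) (hv : v ≠ 0) (s : ℝ) (hs : 0 < s) (δ : ℝ) (hδ : 0 < δ) :
    ∀ᶠ k : ℕ in Filter.atTop, ∀ j : ℕ, j ≤ k → s / 2 ^ j < 1 / 2 ^ k → ∀ p : ℍ[ℝ], UP p →
      ∃ (L : ℕ) (q : ℍ[ℤ]), Gd q ∧ Quaternion.normSq q = 5 ^ L ∧
        (L : ℝ) ≤ (max (3 * (k : ℝ)) (2 * (j + k)) + δ * k) * Real.logb 5 2 ∧
        ‖vh v * rq p (s / 2 ^ j) - qh L q‖ < 1 / 2 ^ k := by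
  have hl : 0 < Real.logb 5 2 := Real.logb_pos (by norm_num) (by norm_num)
  obtain ⟨C, H⟩ := hole_upper v hv 1
  filter_upwards [p8_large (Real.logb 5 2) δ (C - 2 * Real.logb 5 s) hl hδ, Filter.eventually_ge_atTop 1]
    with k hk hk1 j hj hjk p hp
  obtain ⟨he0, he1⟩ := p8_eps k hk1
  have hr0 : 0 < s / 2 ^ j := by positivity
  have ht : ‖vh v * rq p (s / 2 ^ j)‖ = 1 := by
    rw [norm_mul, p8_vh v hv, p8_rq_norm hp, mul_one]
  have htv : ‖vh v * rq p (s / 2 ^ j) - vh v‖ ≤ 1 * (1 / 2 ^ k) := by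
    have e : vh v * rq p (s / 2 ^ j) - vh v = vh v * (rq p (s / 2 ^ j) - 1) := by
      rw [mul_sub, mul_one]
    rw [e, norm_mul, p8_vh v hv, one_mul, one_mul]
    exact (p8_rq_sub hp _ hr0.le).trans hjk.le
  obtain ⟨L, q, hq, hn, hL, hd⟩ := H _ he0 he1 _ ht htv
  refine ⟨L, q, hq, hn, ?_, hd⟩
  rw [p8_log] at hL
  -- `2^k s < 2^j`
  have h1 : (k : ℝ) * Real.logb 5 2 + Real.logb 5 s ≤ j * Real.logb 5 2 := by
    have h2 : (2 : ℝ) ^ k * s ≤ 2 ^ j := by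
      rw [div_lt_div_iff₀ (by positivity) (by positivity)] at hjk
      linarith
    have h3 := Real.logb_le_logb_of_le (b := 5) (by norm_num) (by positivity) h2
    rw [Real.logb_mul (by positivity) hs.ne', Real.logb_pow, Real.logb_pow] at h3
    exact h3
  have h4 : 2 * ((j : ℝ) + k) * Real.logb 5 2 ≤ max (3 * (k : ℝ)) (2 * (j + k)) * Real.logb 5 2 :=
    mul_le_mul_of_nonneg_right (le_max_right _ _) hl.le
  nlinarith

/-- upper part away from the rational point -/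
theorem p8_far (v : ℍ[ℤ]) (hv : v ≠ 0) (s : ℝ) (hs : 0 < s) (hs' : s < Real.pi) (δ : ℝ) (hδ : 0 < δ) :
    ∀ᵐ x : S 3 ∂(sg 3), ∀ᶠ k : ℕ in Filter.atTop, ∀ j : ℕ, j ≤ k → 1 / 2 ^ k ≤ s / 2 ^ j →
      ∃ (L : ℕ) (q : ℍ[ℤ]), Gd q ∧ Quaternion.normSq q = 5 ^ L ∧
        (L : ℝ) ≤ (max (3 * (k : ℝ)) (2 * (j + k)) + δ * k) * Real.logb 5 2 ∧
        ‖vh v * rq (imq (x : E 3)) (s / 2 ^ j) - qh L q‖ < 1 / 2 ^ k := by
  have hl : 0 < Real.logb 5 2 := Real.logb_pos (by norm_num) (by norm_num)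
  obtain ⟨η, C, hη, hC, H⟩ := upper_all v hv s hs hs' (δ / 2) (by positivity)
  have hbc := p8_bc (sg 3) (fun k j => {x : S 3 | (1 : ℝ) / 2 ^ k ≤ s / 2 ^ j ∧
    ¬ ∃ (L : ℕ) (q : ℍ[ℤ]), Gd q ∧ Quaternion.normSq q = 5 ^ L ∧
        (L : ℝ) ≤ max (3 * Real.logb 5 (1 / (1 / (2 : ℝ) ^ k))) (2 * Real.logb 5 (1 / (s / 2 ^ j * (1 / 2 ^ k))))
          + δ / 2 * Real.logb 5 (1 / (1 / (2 : ℝ) ^ k)) + C ∧
        ‖vh v * rq (imq (x : E 3)) (s / 2 ^ j) - qh L q‖ < 1 / 2 ^ k}) η C hη hC (by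
      intro k hk j hj
      by_cases hc : (1 : ℝ) / 2 ^ k ≤ s / 2 ^ j
      · apply p8_sg
        obtain ⟨he0, he1⟩ := p8_eps k hk
        have h1 := H _ he0 he1 (s / 2 ^ j) hc (by
          rw [div_le_iff₀ (by positivity)]
          have : (1 : ℝ) ≤ 2 ^ j := one_le_pow₀ (by norm_num)
          nlinarith)
        rw [p8_rpow] at h1
        simpa only [hc, true_and] using h1
      · simp only [hc, false_and, ofPred_false, measure_empty]
        exact bot_le)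
  filter_upwards [hbc] with x hx
  filter_upwards [hx, p8_large (Real.logb 5 2) (δ / 2) (C + 2 * |Real.logb 5 s|) hl (by positivity)]
    with k hk hkl j hj hc
  have h1 := hk j hj
  simp only [not_and, not_not] at h1
  obtain ⟨L, q, hq, hn, hL, hd⟩ := h1 hc
  refine ⟨L, q, hq, hn, ?_, hd⟩
  rw [p8_log, p8_log2 s hs] at hL
  have h2 : max (3 * ((k : ℝ) * Real.logb 5 2)) (2 * (((j : ℝ) + k) * Real.logb 5 2 - Real.logb 5 s)) ≤
      max (3 * (k : ℝ)) (2 * (j + k)) * Real.logb 5 2 + 2 * |Real.logb 5 s| := by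
    have h4 : 2 * ((j : ℝ) + k) * Real.logb 5 2 ≤ max (3 * (k : ℝ)) (2 * (j + k)) * Real.logb 5 2 :=
      mul_le_mul_of_nonneg_right (le_max_right _ _) hl.le
    have h5 : 3 * (k : ℝ) * Real.logb 5 2 ≤ max (3 * (k : ℝ)) (2 * (j + k)) * Real.logb 5 2 :=
      mul_le_mul_of_nonneg_right (le_max_left _ _) hl.le
    have h6 := neg_abs_le (Real.logb 5 s)
    have h7 := abs_nonneg (Real.logb 5 s)
    refine max_le ?_ ?_
    · linarith
    · linarith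
  nlinarith

/-- lower part -/
theorem p8_low (v : ℍ[ℤ]) (hv : v ≠ 0) (s : ℝ) (hs : 0 < s) (hs' : s < Real.pi) (δ : ℝ) (hδ : 0 < δ) :
    ∀ᵐ x : S 3 ∂(sg 3), ∀ᶠ k : ℕ in Filter.atTop, ∀ j : ℕ, j ≤ k → 2 * j ≤ k →
      ∀ (L : ℕ) (q : ℍ[ℤ]), Quaternion.normSq q = 5 ^ L →
        ‖vh v * rq (imq (x : E 3)) (s / 2 ^ j) - qh L q‖ < 1 / 2 ^ k →
        (3 - δ) * k * Real.logb 5 2 ≤ L := by
  obtain ⟨η, C, hη, hC, H⟩ := lower_g' v hv s hs hs' s hs δ hδ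
  have hbc := p8_bc (sg 3) (fun k j => {x : S 3 | 2 * j ≤ k ∧
    ∃ (L : ℕ) (q : ℍ[ℤ]), Quaternion.normSq q = 5 ^ L ∧
        (L : ℝ) ≤ (3 - δ) * Real.logb 5 (1 / (1 / (2 : ℝ) ^ k)) ∧
        ‖vh v * rq (imq (x : E 3)) (s / 2 ^ j) - qh L q‖ < 1 / 2 ^ k}) η C hη hC (by
      intro k hk j hj
      by_cases hc : 2 * j ≤ k
      · apply p8_sg
        obtain ⟨he0, he1⟩ := p8_eps k hk
        have h1 := H _ he0 he1 (s / 2 ^ j) (by
          have h3 : Real.sqrt (1 / (2 : ℝ) ^ k) ≤ 1 / 2 ^ j := by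
            rw [Real.sqrt_le_left (by positivity), div_pow, one_pow, ← pow_mul]
            apply one_div_le_one_div_of_le (by positivity)
            exact pow_le_pow_right₀ (by norm_num) (by omega)
          calc s * Real.sqrt (1 / (2 : ℝ) ^ k) ≤ s * (1 / 2 ^ j) := mul_le_mul_of_nonneg_left h3 hs.le
            _ = s / 2 ^ j := by ring) (by
          rw [div_le_iff₀ (by positivity)]
          have : (1 : ℝ) ≤ 2 ^ j := one_le_pow₀ (by norm_num)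
          nlinarith)
        rw [p8_rpow] at h1
        simpa only [hc, true_and] using h1
      · simp only [hc, false_and, ofPred_false, measure_empty]
        exact bot_le)
  filter_upwards [hbc] with x hx
  filter_upwards [hx] with k hk j hj hc L q hn hd
  by_contra hcon
  rw [not_le] at hcon
  apply hk j hj
  refine ⟨hc, L, q, hn, ?_, hd⟩
  rw [p8_log]
  linarith

/-- TARGET 1 -/
theorem profile_dir (v : ℍ[ℤ]) (hv : v ≠ 0) (s : ℝ) (hs : 0 < s) (hs' : s < Real.pi) :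
    ∀ᵐ x : S 3 ∂(sg 3), ∀ δ : ℝ, 0 < δ → ∃ k₀ : ℕ, ∀ k : ℕ, k₀ ≤ k → ∀ j : ℕ, j ≤ k →
      (∃ (L : ℕ) (q : ℍ[ℤ]), Gd q ∧ Quaternion.normSq q = 5 ^ L ∧
        (L : ℝ) ≤ (max (3 * (k : ℝ)) (2 * (j + k)) + δ * k) * Real.logb 5 2 ∧
        ‖vh v * rq (imq (x : E 3)) (s / 2 ^ j) - qh L q‖ < 1 / 2 ^ k) ∧
      (2 * j ≤ k → ∀ (L : ℕ) (q : ℍ[ℤ]), Quaternion.normSq q = 5 ^ L →
        ‖vh v * rq (imq (x : E 3)) (s / 2 ^ j) - qh L q‖ < 1 / 2 ^ k →
        (3 - δ) * k * Real.logb 5 2 ≤ L) := by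
  have hl : 0 < Real.logb 5 2 := Real.logb_pos (by norm_num) (by norm_num)
  have h1 : ∀ᵐ x : S 3 ∂(sg 3), ∀ i : ℕ, ∀ᶠ k : ℕ in Filter.atTop, ∀ j : ℕ, j ≤ k → 1 / 2 ^ k ≤ s / 2 ^ j →
      ∃ (L : ℕ) (q : ℍ[ℤ]), Gd q ∧ Quaternion.normSq q = 5 ^ L ∧
        (L : ℝ) ≤ (max (3 * (k : ℝ)) (2 * (j + k)) + 1 / ((i : ℝ) + 1) * k) * Real.logb 5 2 ∧
        ‖vh v * rq (imq (x : E 3)) (s / 2 ^ j) - qh L q‖ < 1 / 2 ^ k := by
    rw [ae_all_iff]
    intro i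
    exact p8_far v hv s hs hs' _ (by positivity)
  have h2 : ∀ᵐ x : S 3 ∂(sg 3), ∀ i : ℕ, ∀ᶠ k : ℕ in Filter.atTop, ∀ j : ℕ, j ≤ k → 2 * j ≤ k →
      ∀ (L : ℕ) (q : ℍ[ℤ]), Quaternion.normSq q = 5 ^ L →
        ‖vh v * rq (imq (x : E 3)) (s / 2 ^ j) - qh L q‖ < 1 / 2 ^ k →
        (3 - 1 / ((i : ℝ) + 1)) * k * Real.logb 5 2 ≤ L := by
    rw [ae_all_iff]
    intro i
    exact p8_low v hv s hs hs' _ (by positivity)
  filter_upwards [h1, h2] with x hx1 hx2 δ hδ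
  obtain ⟨i, hi⟩ := exists_nat_one_div_lt hδ
  obtain ⟨k₀, hk₀⟩ := Filter.eventually_atTop.1 ((hx1 i).and ((hx2 i).and (p8_near v hv s hs δ hδ)))
  refine ⟨k₀, fun k hk j hj => ?_⟩
  obtain ⟨a1, a2, a3⟩ := hk₀ k hk
  have hk0 : (0 : ℝ) ≤ k := Nat.cast_nonneg k
  constructor
  · by_cases hc : (1 : ℝ) / 2 ^ k ≤ s / 2 ^ j
    · obtain ⟨L, q, hq, hn, hL, hd⟩ := a1 j hj hc
      refine ⟨L, q, hq, hn, hL.trans ?_, hd⟩
      refine mul_le_mul_of_nonneg_right ?_ hl.le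
      have := mul_le_mul_of_nonneg_right hi.le hk0
      linarith
    · exact a3 j hj (not_le.1 hc) _ (p8_imq_up x)
  · intro hc L q hn hd
    refine le_trans ?_ (a2 j hj hc L q hn hd)
    refine mul_le_mul_of_nonneg_right ?_ hl.le
    refine mul_le_mul_of_nonneg_right ?_ hk0
    linarith

theorem p8_vol (s₁ : ℝ) (A : Set ℝ) (hA : A ⊆ Ioo 0 s₁) (D : ℝ) (h : (volume : Measure ℝ).real A ≤ D) :
    (volume : Measure ℝ) A ≤ ENNReal.ofReal D := by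
  have hf : (volume : Measure ℝ) A ≠ ⊤ := by
    refine ne_top_of_le_ne_top ?_ (measure_mono hA)
    rw [Real.volume_Ioo]
    exact ENNReal.ofReal_ne_top
  have e1 : (volume : Measure ℝ) A = ENNReal.ofReal ((volume : Measure ℝ).real A) := by
    rw [Measure.real, ENNReal.ofReal_toReal hf]
  rw [e1]
  exact ENNReal.ofReal_le_ofReal h

/-- TARGET 2 -/
theorem profile_rad (v : ℍ[ℤ]) (hv : v ≠ 0) :
    ∀ᵐ s : ℝ ∂(volume.restrict (Set.Ioo 0 Real.pi)), ∀ p : ℍ[ℝ], UP p → ∀ δ : ℝ, 0 < δ →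
      ∃ k₀ : ℕ, ∀ k : ℕ, k₀ ≤ k → ∀ j : ℕ, k ≤ 2 * j → j ≤ k → ∀ (L : ℕ) (q : ℍ[ℤ]),
        Quaternion.normSq q = 5 ^ L → ‖vh v * rq p (s / 2 ^ j) - qh L q‖ < 1 / 2 ^ k → qh L q ≠ vh v →
        (2 * (j + k) - δ * k) * Real.logb 5 2 ≤ L := by
  have hl : 0 < Real.logb 5 2 := Real.logb_pos (by norm_num) (by norm_num)
  have h1 : ∀ᵐ s : ℝ, ∀ i : ℕ, ∀ᶠ k : ℕ in Filter.atTop, ∀ j : ℕ, j ≤ k →
      s ∉ {s : ℝ | k ≤ 2 * j ∧ (0 < s ∧ s < Real.pi - 1 / ((i : ℝ) + 1) ∧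
        ∃ (p : ℍ[ℝ]) (L : ℕ) (q : ℍ[ℤ]), UP p ∧
        Quaternion.normSq q = 5 ^ L ∧ (L : ℝ) ≤ (2 * (j + k) - 1 / ((i : ℝ) + 1) * k) * Real.logb 5 2 ∧
        ‖vh v * rq p (s / 2 ^ j) - qh L q‖ < 1 / 2 ^ k ∧ qh L q ≠ vh v)} := by
    rw [ae_all_iff]
    intro i
    have hi0 : (0 : ℝ) < 1 / ((i : ℝ) + 1) := by positivity
    have hi1 : 1 / ((i : ℝ) + 1) ≤ 1 := by
      rw [div_le_one (by positivity)]
      have : (0 : ℝ) ≤ i := Nat.cast_nonneg i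
      linarith
    obtain ⟨η, C, hη, hC, H⟩ := radial_g v hv (Real.pi - 1 / ((i : ℝ) + 1))
      (by linarith [Real.pi_gt_three]) (by linarith) (1 / ((i : ℝ) + 1)) hi0
    refine p8_bc (volume : Measure ℝ) (fun k j => {s : ℝ | k ≤ 2 * j ∧
        (0 < s ∧ s < Real.pi - 1 / ((i : ℝ) + 1) ∧
        ∃ (p : ℍ[ℝ]) (L : ℕ) (q : ℍ[ℤ]), UP p ∧
        Quaternion.normSq q = 5 ^ L ∧ (L : ℝ) ≤ (2 * (j + k) - 1 / ((i : ℝ) + 1) * k) * Real.logb 5 2 ∧
        ‖vh v * rq p (s / 2 ^ j) - qh L q‖ < 1 / 2 ^ k ∧ qh L q ≠ vh v)}) η C hη hC ?_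
    intro k hk j hj
    refine p8_vol (Real.pi - 1 / ((i : ℝ) + 1)) _ (fun s hs => ⟨hs.2.1, hs.2.2.1⟩) _ ?_
    by_cases hc : k ≤ 2 * j
    · have h2 := H k j hc hj
      simpa only [hc, true_and] using h2
    · simp only [hc, false_and, ofPred_false, measureReal_empty]
      positivity
  filter_upwards [ae_restrict_of_ae h1, ae_restrict_mem measurableSet_Ioo] with s hs hsm p hp δ hδ
  obtain ⟨i, hi⟩ := exists_nat_one_div_lt (lt_min hδ (sub_pos.2 hsm.2))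
  obtain ⟨k₀, hk₀⟩ := Filter.eventually_atTop.1 (hs i)
  refine ⟨k₀, fun k hk j hjk hj L q hn hd hne => ?_⟩
  have hk0 : (0 : ℝ) ≤ k := Nat.cast_nonneg k
  by_contra hcon
  rw [not_le] at hcon
  refine hk₀ k hk j hj ⟨hjk, hsm.1, ?_, p, L, q, hp, hn, hcon.le.trans ?_, hd, hne⟩
  · have := hi.trans_le (min_le_right _ _)
    linarith
  · refine mul_le_mul_of_nonneg_right ?_ hl.le
    have := mul_le_mul_of_nonneg_right (hi.le.trans (min_le_left _ _)) hk0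
    linarith

end Pool.Agent.H978V
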