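import Pool.Agent.H978V.NDefs
import Pool.Agent.H978V.K18
import Pool.Agent.H978V.M14
import Pool.Agent.H978V.P8

set_option autoImplicit false

open MeasureTheory Set
open scoped Quaternion Matrix.Norms.L2Operator

namespace Pool.Agent.H978V

open Pool.Agent.Helper557.Rz



/-- the rotation `cos s I + i sin s (n₀ X + n₁ Y + n₂ Z)` -/
noncomputable def Axr (s : ℝ) (n : EuclideanSpace ℝ (Fin 3)) : Matrix (Fin 2) (Fin 2) ℂ :=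
  (Real.cos s : ℂ) • 1 + ((Real.sin s : ℝ) * Complex.I : ℂ) •
    ((n 0 : ℂ) • pauli 0 + (n 1 : ℂ) • pauli 1 + (n 2 : ℂ) • pauli 2)

lemma axr_eq (s : ℝ) (n : E 3) :
    Axr s n = m14Uq (rq (imq (swp 0 2 n)) s) := by
  have e1 : Equiv.swap (0 : Fin 3) 2 1 = 1 := by decide
  have e0 : (swp 0 2 n : E 3) 0 = n 2 := by rw [swp_apply]; simp
  have e2 : (swp 0 2 n : E 3) 2 = n 0 := by rw [swp_apply]; simp
  have e3 : (swp 0 2 n : E 3) 1 = n 1 := by rw [swp_apply, e1]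
  have h0 : (imq (swp 0 2 n : E 3)).re = 0 := rfl
  have h1 : (imq (swp 0 2 n : E 3)).imI = n 2 := e0
  have h2 : (imq (swp 0 2 n : E 3)).imJ = n 1 := e3
  have h3 : (imq (swp 0 2 n : E 3)).imK = n 0 := e2
  unfold m14Uq rq
  simp only [Quaternion.re_add, Quaternion.imI_add, Quaternion.imJ_add, Quaternion.imK_add,
    Quaternion.re_coe, Quaternion.imI_coe, Quaternion.imJ_coe, Quaternion.imK_coe,
    Quaternion.re_smul, Quaternion.imI_smul, Quaternion.imJ_smul, Quaternion.imK_smul,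
    h0, h1, h2, h3, smul_eq_mul, mul_zero, add_zero, zero_add]
  unfold Axr Uquat
  push_cast
  module

lemma axr_up (n : E 3) (hn : ‖n‖ = 1) : UP (imq (swp 0 2 n)) := by
  refine ⟨rfl, ?_⟩
  have h1 := normSq_imq (swp 0 2 n)
  have h2 : ‖(swp 0 2 n : E 3)‖ = 1 := by rw [LinearIsometryEquiv.norm_map, hn]
  rw [h2, Quaternion.normSq_eq_norm_mul_self] at h1
  nlinarith [norm_nonneg (imq (swp 0 2 n))]

/-- words from quaternions and back -/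
lemma p9_word (t : ℍ[ℝ]) (ε : ℝ) (hε : 0 < ε) (L : ℕ) (q : ℍ[ℤ]) (hq : Gd q)
    (hn : Quaternion.normSq q = 5 ^ L) (hd : ‖t - qh L q‖ < ε) :
    ∃ w : List (Matrix (Fin 2) (Fin 2) ℂ), (∀ g ∈ w, g ∈ Vset) ∧ w.length = L ∧
      ‖m14Uq t - w.prod‖ < ε := by
  obtain ⟨w, hw1, hw2, hw3⟩ := word_of_quat L q hq hn
  refine ⟨w, hw1, hw2, ?_⟩
  have h5 : ‖m14Uq t - w.prod‖ ^ 2 < ε ^ 2 := by
    unfold m14Uq
    rw [hw3, ← qh_dist]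
    exact pow_lt_pow_left₀ hd (norm_nonneg _) (by norm_num)
  exact lt_of_pow_lt_pow_left₀ 2 hε.le h5

lemma p9_quat (w : List (Matrix (Fin 2) (Fin 2) ℂ)) (hw : ∀ g ∈ w, g ∈ Vset) :
    ∃ q : ℍ[ℤ], Quaternion.normSq q = 5 ^ w.length ∧ ∀ t : ℍ[ℝ],
      ‖t - qh w.length q‖ = ‖m14Uq t - w.prod‖ := by
  obtain ⟨q, -, hq2, hq3⟩ := quat_of_word w hw
  refine ⟨q, hq2, fun t => ?_⟩
  have h := hq3 t.re t.imI t.imJ t.imK
  rw [← qh_dist] at h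
  have h1 : ‖m14Uq t - w.prod‖ = ‖t - qh w.length q‖ := by
    have h2 : (0 : ℝ) ≤ ‖m14Uq t - w.prod‖ := norm_nonneg _
    exact (pow_left_inj₀ h2 (norm_nonneg _) (by norm_num : (2 : ℕ) ≠ 0)).1 h
  exact h1.symm

/-- TARGET 1 -/
theorem profile_matrix_dir (a b c d : ℤ) (h0 : ¬ (a = 0 ∧ b = 0 ∧ c = 0 ∧ d = 0)) (s : ℝ) (hs : 0 < s)
    (hs' : s < Real.pi) :
    ∀ᵐ n : Metric.sphere (0 : EuclideanSpace ℝ (Fin 3)) 1
      ∂((volume : Measure (EuclideanSpace ℝ (Fin 3))).toSphere),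
      ∀ δ : ℝ, 0 < δ → ∃ k₀ : ℕ, ∀ k : ℕ, k₀ ≤ k → ∀ j : ℕ, j ≤ k →
      (∃ w : List (Matrix (Fin 2) (Fin 2) ℂ), (∀ g ∈ w, g ∈ Vset) ∧
        (w.length : ℝ) ≤ (max (3 * (k : ℝ)) (2 * (j + k)) + δ * k) * Real.logb 5 2 ∧
        ‖Urat' a b c d * Axr (s / 2 ^ j) n - w.prod‖ < 1 / 2 ^ k) ∧
      (2 * j ≤ k → ∀ w : List (Matrix (Fin 2) (Fin 2) ℂ), (∀ g ∈ w, g ∈ Vset) →
        ‖Urat' a b c d * Axr (s / 2 ^ j) n - w.prod‖ < 1 / 2 ^ k →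
        (3 - δ) * k * Real.logb 5 2 ≤ w.length) := by
  set v : ℍ[ℤ] := ⟨a, d, c, b⟩ with hv
  have hv0 : v ≠ 0 := by
    intro h
    apply h0
    have h1 := congrArg (fun q : ℍ[ℤ] => q.re) h
    have h2 := congrArg (fun q : ℍ[ℤ] => q.imI) h
    have h3 := congrArg (fun q : ℍ[ℤ] => q.imJ) h
    have h4 := congrArg (fun q : ℍ[ℤ] => q.imK) h
    simp [hv] at h1 h2 h3 h4
    exact ⟨h1, h4, h3, h2⟩
  have hU : Urat' a b c d = m14Uq (vh v) := m14_vh v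
  have hc : ((volume : Measure (E 3)).toSphere Set.univ)⁻¹ ≠ 0 :=
    ENNReal.inv_ne_zero.mpr (measure_ne_top _ _)
  have h3 := ae_swp (by norm_num : 1 ≤ 3) 0 2 _
    ((Measure.ae_ennreal_smul_measure_iff hc).1 (profile_dir v hv0 s hs hs'))
  filter_upwards [h3] with n hn δ hδ
  obtain ⟨k₀, hk₀⟩ := hn δ hδ
  refine ⟨k₀, fun k hk j hj => ?_⟩
  obtain ⟨⟨L, q, hq1, hq2, hL, hqd⟩, hlow⟩ := hk₀ k hk j hj
  have hpos : (0 : ℝ) < 1 / 2 ^ k := by positivity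
  have hmat : Urat' a b c d * Axr (s / 2 ^ j) n =
      m14Uq (vh v * rq (imq ((rot (swp 0 2) n : S 3) : E 3)) (s / 2 ^ j)) := by
    rw [hU, axr_eq, m14_mul, rot_coe]
  rw [hmat]
  constructor
  · obtain ⟨w, hw1, hw2, hw3⟩ := p9_word _ _ hpos L q hq1 hq2 hqd
    exact ⟨w, hw1, by rw [hw2]; exact hL, hw3⟩
  · intro h2j w hw hwd
    obtain ⟨q, hq2, hq3⟩ := p9_quat w hw
    exact hlow h2j _ q hq2 (by rw [hq3]; exact hwd)

/-- TARGET 2 -/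
theorem profile_matrix_rad (a b c d : ℤ) (h0 : ¬ (a = 0 ∧ b = 0 ∧ c = 0 ∧ d = 0)) :
    ∀ᵐ s : ℝ ∂(volume.restrict (Set.Ioo 0 Real.pi)), ∀ n : EuclideanSpace ℝ (Fin 3), ‖n‖ = 1 →
      ∀ δ : ℝ, 0 < δ → ∃ k₀ : ℕ, ∀ k : ℕ, k₀ ≤ k → ∀ j : ℕ, k ≤ 2 * j → j ≤ k →
      ∀ w : List (Matrix (Fin 2) (Fin 2) ℂ), (∀ g ∈ w, g ∈ Vset) → w.prod ≠ Urat' a b c d →
        ‖Urat' a b c d * Axr (s / 2 ^ j) n - w.prod‖ < 1 / 2 ^ k →
        (2 * (j + k) - δ * k) * Real.logb 5 2 ≤ w.length := by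
  set v : ℍ[ℤ] := ⟨a, d, c, b⟩ with hv
  have hv0 : v ≠ 0 := by
    intro h
    apply h0
    have h1 := congrArg (fun q : ℍ[ℤ] => q.re) h
    have h2 := congrArg (fun q : ℍ[ℤ] => q.imI) h
    have h3 := congrArg (fun q : ℍ[ℤ] => q.imJ) h
    have h4 := congrArg (fun q : ℍ[ℤ] => q.imK) h
    simp [hv] at h1 h2 h3 h4
    exact ⟨h1, h4, h3, h2⟩
  have hU : Urat' a b c d = m14Uq (vh v) := m14_vh v
  filter_upwards [profile_rad v hv0] with s hs n hn δ hδ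
  obtain ⟨k₀, hk₀⟩ := hs _ (axr_up n hn) δ hδ
  refine ⟨k₀, fun k hk j hj hj' w hw hne hwd => ?_⟩
  obtain ⟨q, hq2, hq3⟩ := p9_quat w hw
  refine hk₀ k hk j hj hj' _ q hq2 ?_ ?_
  · rw [hq3, ← m14_mul, ← hU, ← axr_eq]
    exact hwd
  · intro h
    apply hne
    have h6 := hq3 (vh v)
    rw [h, sub_self, norm_zero] at h6
    have h7 := norm_eq_zero.1 h6.symm
    rw [hU]
    exact (sub_eq_zero.1 h7).symm

end Pool.Agent.H978V
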