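import Pool.Agent.H978V.RDefs
import Pool.Agent.H978V.R10

/-!
# Generic points of the three-sphere and of the circle (MP_06cce2_nt, job R12)
-/

set_option autoImplicit false

open scoped Quaternion

namespace Pool.Agent.H978V

open Pool.Agent.Helper557.Rz


/-! ### auxiliary results -/

theorem r12_abs_le_sq (a : ℤ) : |a| ≤ a ^ 2 := by
  rcases eq_or_ne a 0 with rfl | h
  · simp
  · have h1 : 1 ≤ |a| := Int.one_le_abs h
    have h2 : |a| ^ 2 = a ^ 2 := sq_abs a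
    nlinarith

theorem r12_coord {a b : ℤ} {L N : ℕ} (hL : L < N) (h : a ^ 2 + b = 5 ^ L) (hb : 0 ≤ b) :
    a ∈ Finset.Icc (-(5 : ℤ) ^ N) (5 ^ N) := by
  have h1 := r12_abs_le_sq a
  have h2 : (5 : ℤ) ^ L ≤ 5 ^ N := pow_le_pow_right₀ (by norm_num) hL.le
  have h3 : |a| ≤ 5 ^ N := by linarith
  rw [abs_le] at h3
  exact Finset.mem_Icc.2 ⟨h3.1, h3.2⟩

theorem r12_fin (N : ℕ) : {p : ℕ × ℍ[ℤ] | p.1 < N ∧ Quaternion.normSq p.2 = 5 ^ p.1}.Finite := by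
  classical
  obtain ⟨B, hB⟩ : ∃ B : Finset ℤ, B = Finset.Icc (-(5 : ℤ) ^ N) (5 ^ N) := ⟨_, rfl⟩
  refine Set.Finite.subset (((Finset.range N ×ˢ (B ×ˢ B ×ˢ B ×ˢ B)).image
    (fun p : ℕ × ℤ × ℤ × ℤ × ℤ => ((p.1, (⟨p.2.1, p.2.2.1, p.2.2.2.1, p.2.2.2.2⟩ : ℍ[ℤ])) :
      ℕ × ℍ[ℤ]))).finite_toSet) ?_
  rintro ⟨L, q⟩ ⟨hL, hq⟩
  simp only at hL hq
  rw [Quaternion.normSq_def'] at hq
  rw [Finset.mem_coe, Finset.mem_image]
  refine ⟨(L, q.re, q.imI, q.imJ, q.imK), ?_, rfl⟩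
  rw [Finset.mem_product, Finset.mem_product, Finset.mem_product, Finset.mem_product]
  refine ⟨Finset.mem_range.2 hL, ?_, ?_, ?_, ?_⟩
  · rw [hB]
    exact r12_coord (b := q.imI ^ 2 + q.imJ ^ 2 + q.imK ^ 2) hL (by rw [← hq]; ring) (by positivity)
  · rw [hB]
    exact r12_coord (b := q.re ^ 2 + q.imJ ^ 2 + q.imK ^ 2) hL (by rw [← hq]; ring) (by positivity)
  · rw [hB]
    exact r12_coord (b := q.re ^ 2 + q.imI ^ 2 + q.imK ^ 2) hL (by rw [← hq]; ring) (by positivity)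
  · rw [hB]
    exact r12_coord (b := q.re ^ 2 + q.imI ^ 2 + q.imJ ^ 2) hL (by rw [← hq]; ring) (by positivity)

/-- the triangle inequality for the squared distance -/
theorem r12_tri {a b c d x y z w : ℝ} {p q r s ε : ℝ} (hε : 0 < ε)
    (h1 : (a - x) ^ 2 + (b - y) ^ 2 + (c - z) ^ 2 + (d - w) ^ 2 ≤ ε ^ 2)
    (h2 : (a - p) ^ 2 + (b - q) ^ 2 + (c - r) ^ 2 + (d - s) ^ 2 = (2 * ε) ^ 2) :
    (p - x) ^ 2 + (q - y) ^ 2 + (r - z) ^ 2 + (s - w) ^ 2 < (4 * ε) ^ 2 ∧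
      (p - x) ^ 2 + (q - y) ^ 2 + (r - z) ^ 2 + (s - w) ^ 2 ≠ 0 := by
  have n1 : ∀ u : EuclideanSpace ℝ (Fin 4), ‖u‖ ^ 2 = u 0 ^ 2 + u 1 ^ 2 + u 2 ^ 2 + u 3 ^ 2 := by
    intro u
    rw [EuclideanSpace.norm_sq_eq, Fin.sum_univ_four]
    simp only [Real.norm_eq_abs, sq_abs]
  obtain ⟨A, hA⟩ : ∃ A : EuclideanSpace ℝ (Fin 4), A = !₂[a - x, b - y, c - z, d - w] := ⟨_, rfl⟩
  obtain ⟨B, hB⟩ : ∃ B : EuclideanSpace ℝ (Fin 4), B = !₂[a - p, b - q, c - r, d - s] := ⟨_, rfl⟩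
  have eA : ‖A‖ ^ 2 ≤ ε ^ 2 := by rw [n1, hA]; simpa using h1
  have eB : ‖B‖ ^ 2 = (2 * ε) ^ 2 := by rw [n1, hB]; simpa using h2
  have eA' : ‖A‖ ≤ ε := by
    exact (pow_le_pow_iff_left₀ (norm_nonneg _) hε.le (by norm_num)).1 eA
  have eB' : ‖B‖ = 2 * ε := by
    exact (pow_left_inj₀ (norm_nonneg _) (by positivity) (by norm_num)).1 eB
  have eC : ‖A - B‖ ^ 2 = (p - x) ^ 2 + (q - y) ^ 2 + (r - z) ^ 2 + (s - w) ^ 2 := by
    rw [n1, hA, hB]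
    simp
  have h3 : ‖A - B‖ ≤ 3 * ε := by
    have := norm_sub_le A B
    linarith
  have h4 : ε ≤ ‖A - B‖ := by
    have := norm_sub_norm_le B A
    rw [norm_sub_rev] at this
    linarith
  rw [← eC]
  refine ⟨?_, ?_⟩
  · have := norm_nonneg (A - B)
    nlinarith
  · have : 0 < ‖A - B‖ := lt_of_lt_of_le hε h4
    positivity

/-- the set of points with a good scale -/
def r12_O {X : Type*} (t0 t1 t2 t3 : X → ℝ) (n : ℕ) : Set X :=
  {x | ∃ ε : ℝ, 0 < ε ∧ ε < 1 / (n + 1) ∧ ∀ (L : ℕ) (q : ℍ[ℤ]), Quaternion.normSq q = 5 ^ L →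
    (L : ℝ) < (4 - 1 / (n + 1)) * Real.logb 5 (1 / ε) → ε ^ 2 < qd (t0 x) (t1 x) (t2 x) (t3 x) q L}

theorem r12_open {X : Type*} [TopologicalSpace X] (t0 t1 t2 t3 : X → ℝ) (h0 : Continuous t0)
    (h1 : Continuous t1) (h2 : Continuous t2) (h3 : Continuous t3) (n : ℕ) :
    IsOpen (r12_O t0 t1 t2 t3 n) := by
  have key : r12_O t0 t1 t2 t3 n = ⋃ ε ∈ {ε : ℝ | 0 < ε ∧ ε < 1 / (n + 1)},
      ⋂ p ∈ {p : ℕ × ℍ[ℤ] | Quaternion.normSq p.2 = 5 ^ p.1 ∧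
        (p.1 : ℝ) < (4 - 1 / (n + 1)) * Real.logb 5 (1 / ε)},
        {x | ε ^ 2 < qd (t0 x) (t1 x) (t2 x) (t3 x) p.2 p.1} := by
    ext x
    simp only [r12_O, Set.mem_ofPred_eq, Set.mem_iUnion, Set.mem_iInter, exists_prop]
    constructor
    · rintro ⟨ε, a, b, c⟩
      exact ⟨ε, ⟨a, b⟩, fun p hp => c p.1 p.2 hp.1 hp.2⟩
    · rintro ⟨ε, ⟨a, b⟩, c⟩
      exact ⟨ε, a, b, fun L q hq hL => c (L, q) ⟨hq, hL⟩⟩
  rw [key]
  refine isOpen_biUnion fun ε _ => ?_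
  refine Set.Finite.isOpen_biInter ?_ ?_
  · refine (r12_fin ⌈(4 - 1 / ((n : ℝ) + 1)) * Real.logb 5 (1 / ε)⌉₊).subset ?_
    rintro p ⟨hp1, hp2⟩
    exact ⟨Nat.lt_ceil.2 hp2, hp1⟩
  · intro p _
    refine isOpen_lt continuous_const ?_
    unfold qd
    fun_prop

theorem r12_small (n : ℕ) : ∃ ε₁ : ℝ, 0 < ε₁ ∧ ∀ ε : ℝ, 0 < ε → ε < ε₁ →
    (4 - 1 / ((n : ℝ) + 1)) * Real.logb 5 (1 / ε) ≤
      (4 - 1 / (2 * ((n : ℝ) + 1))) * Real.logb 5 (1 / (4 * ε)) := by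
  have hn : (0 : ℝ) < n + 1 := by positivity
  refine ⟨(5 : ℝ) ^ (-(8 * ((n : ℝ) + 1) * Real.logb 5 4)), by positivity, ?_⟩
  intro ε hε hlt
  have h5 : (1 : ℝ) < 5 := by norm_num
  have e1 : Real.logb 5 (1 / ε) = - Real.logb 5 ε := by
    rw [one_div, Real.logb_inv]
  have e2 : Real.logb 5 (1 / (4 * ε)) = - Real.logb 5 4 - Real.logb 5 ε := by
    rw [one_div, Real.logb_inv, Real.logb_mul (by norm_num) hε.ne']
    ring
  have e3 : Real.logb 5 ε ≤ -(8 * ((n : ℝ) + 1) * Real.logb 5 4) := by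
    have := (Real.logb_lt_logb_iff h5 hε (by positivity)).2 hlt
    rw [Real.logb_rpow (by norm_num) (by norm_num)] at this
    exact this.le
  have e4 : 0 < Real.logb 5 4 := Real.logb_pos h5 (by norm_num)
  rw [e1, e2]
  obtain ⟨δ, hδ⟩ : ∃ δ : ℝ, δ = 1 / (2 * ((n : ℝ) + 1)) := ⟨_, rfl⟩
  have hδ2 : 1 / ((n : ℝ) + 1) = 2 * δ := by
    rw [hδ]
    field_simp
  have hδ0 : 0 < δ := by rw [hδ]; positivity
  have hδm : δ * (8 * ((n : ℝ) + 1)) = 4 := by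
    rw [hδ]
    field_simp
    norm_num
  rw [hδ2, ← hδ]
  have h6 : δ * Real.logb 5 ε ≤ δ * (-(8 * ((n : ℝ) + 1) * Real.logb 5 4)) :=
    mul_le_mul_of_nonneg_left e3 hδ0.le
  have h7 : δ * (-(8 * ((n : ℝ) + 1) * Real.logb 5 4)) = -4 * Real.logb 5 4 := by
    calc δ * (-(8 * ((n : ℝ) + 1) * Real.logb 5 4)) = -(δ * (8 * ((n : ℝ) + 1))) * Real.logb 5 4 := by ring
      _ = _ := by rw [hδm]
  have h8 : 0 < δ * Real.logb 5 4 := mul_pos hδ0 e4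
  nlinarith

theorem r12_dense {X : Type*} [TopologicalSpace X] (t0 t1 t2 t3 : X → ℝ)
    (path : ∀ x : X, ∃ p : ℝ → X, Continuous p ∧ p 0 = x ∧ ∀ φ : ℝ, (t0 (p φ) - t0 x) ^ 2 +
      (t1 (p φ) - t1 x) ^ 2 + (t2 (p φ) - t2 x) ^ 2 + (t3 (p φ) - t3 x) ^ 2 = 2 - 2 * Real.cos φ)
    (dns : ∀ U : Set X, IsOpen U → U.Nonempty → ∃ x ∈ U, ∃ v : ℍ[ℤ], v ≠ 0 ∧
      t0 x = v.re / Real.sqrt (Quaternion.normSq v : ℤ) ∧ t1 x = v.imI / Real.sqrt (Quaternion.normSq v : ℤ) ∧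
      t2 x = v.imJ / Real.sqrt (Quaternion.normSq v : ℤ) ∧ t3 x = v.imK / Real.sqrt (Quaternion.normSq v : ℤ))
    (n : ℕ) : Dense (r12_O t0 t1 t2 t3 n) := by
  rw [dense_iff_inter_open]
  intro U hU hne
  obtain ⟨x, hx, v, hv, k0, k1, k2, k3⟩ := dns U hU hne
  obtain ⟨p, hp, hp0, hpd⟩ := path x
  have hn : (0 : ℝ) < n + 1 := by positivity
  obtain ⟨ε₀, hε₀, hε₀1, hrat⟩ := rat_lower v hv (1 / (2 * ((n : ℝ) + 1))) (by positivity)
  obtain ⟨ε₁, hε₁, hsm⟩ := r12_small n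
  -- small angles stay in `U`
  have hev : ∀ᶠ ε : ℝ in nhds 0, p (2 * Real.arcsin ε) ∈ U := by
    have hc : Continuous (fun ε : ℝ => p (2 * Real.arcsin ε)) := by fun_prop
    refine hc.continuousAt.eventually_mem ?_
    refine hU.mem_nhds ?_
    simpa [hp0] using hx
  obtain ⟨ε₂, hε₂, hball⟩ := Metric.eventually_nhds_iff.1 hev
  obtain ⟨ε, hε⟩ : ∃ ε : ℝ, ε = min (min (ε₀ / 4) ε₁) (min ε₂ (min (1 / ((n : ℝ) + 1)) 1)) / 2 := ⟨_, rfl⟩
  have hm : 0 < min (min (ε₀ / 4) ε₁) (min ε₂ (min (1 / ((n : ℝ) + 1)) 1)) := by positivity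
  have hεp : 0 < ε := by rw [hε]; positivity
  have hεm : ε < min (min (ε₀ / 4) ε₁) (min ε₂ (min (1 / ((n : ℝ) + 1)) 1)) := by rw [hε]; linarith
  rw [lt_min_iff, lt_min_iff, lt_min_iff, lt_min_iff] at hεm
  obtain ⟨⟨m1, m2⟩, m3, m4, m5⟩ := hεm
  refine ⟨p (2 * Real.arcsin ε), hball (by rw [Real.dist_eq, sub_zero, abs_of_pos hεp]; exact m3), ?_⟩
  refine ⟨ε, hεp, m4, ?_⟩
  intro L q hq hL
  by_contra hcon
  push Not at hcon
  have hd := hpd (2 * Real.arcsin ε)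
  have hcos : 2 - 2 * Real.cos (2 * Real.arcsin ε) = (2 * ε) ^ 2 := by
    rw [Real.cos_two_mul, Real.cos_sq', Real.sin_arcsin (by linarith) m5.le]
    ring
  rw [hcos] at hd
  unfold qd at hcon
  obtain ⟨t1', t2'⟩ := r12_tri hεp hcon hd
  have hqv : qv v q L = (t0 x - q.re / Real.sqrt 5 ^ L) ^ 2 + (t1 x - q.imI / Real.sqrt 5 ^ L) ^ 2 +
      (t2 x - q.imJ / Real.sqrt 5 ^ L) ^ 2 + (t3 x - q.imK / Real.sqrt 5 ^ L) ^ 2 := by
    unfold qv qd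
    rw [k0, k1, k2, k3]
  rw [← hqv] at t1' t2'
  have h1 := hrat (4 * ε) (by positivity) (by linarith) L q hq t1' t2'
  have h2 := hsm ε hεp m2
  linarith

theorem r12_gen {X : Type*} [TopologicalSpace X] (t0 t1 t2 t3 : X → ℝ) (h0 : Continuous t0)
    (h1 : Continuous t1) (h2 : Continuous t2) (h3 : Continuous t3)
    (path : ∀ x : X, ∃ p : ℝ → X, Continuous p ∧ p 0 = x ∧ ∀ φ : ℝ, (t0 (p φ) - t0 x) ^ 2 +
      (t1 (p φ) - t1 x) ^ 2 + (t2 (p φ) - t2 x) ^ 2 + (t3 (p φ) - t3 x) ^ 2 = 2 - 2 * Real.cos φ)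
    (dns : ∀ U : Set X, IsOpen U → U.Nonempty → ∃ x ∈ U, ∃ v : ℍ[ℤ], v ≠ 0 ∧
      t0 x = v.re / Real.sqrt (Quaternion.normSq v : ℤ) ∧ t1 x = v.imI / Real.sqrt (Quaternion.normSq v : ℤ) ∧
      t2 x = v.imJ / Real.sqrt (Quaternion.normSq v : ℤ) ∧ t3 x = v.imK / Real.sqrt (Quaternion.normSq v : ℤ)) :
    {x : X | ∀ η : ℝ, 0 < η → ∀ ε₀ : ℝ, 0 < ε₀ → ∃ ε : ℝ, 0 < ε ∧ ε < ε₀ ∧
      ∀ (L : ℕ) (q : ℍ[ℤ]), Quaternion.normSq q = 5 ^ L → qd (t0 x) (t1 x) (t2 x) (t3 x) q L < ε ^ 2 →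
        (4 - η) * Real.logb 5 (1 / ε) ≤ L} ∈ residual X := by
  have hres : (⋂ n : ℕ, r12_O t0 t1 t2 t3 n) ∈ residual X :=
    countable_iInter_mem.2 fun n => residual_of_dense_open (r12_open t0 t1 t2 t3 h0 h1 h2 h3 n)
      (r12_dense t0 t1 t2 t3 path dns n)
  refine Filter.mem_of_superset hres ?_
  intro x hx η hη ε₀ hε₀
  obtain ⟨n, hn⟩ := exists_nat_one_div_lt (lt_min hη hε₀)
  rw [lt_min_iff] at hn
  obtain ⟨ε, e1, e2, e3⟩ := Set.mem_iInter.1 hx n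
  refine ⟨ε, e1, lt_trans e2 hn.2, ?_⟩
  intro L q hq hlt
  by_contra hcon
  push Not at hcon
  have hn1 : (1 : ℝ) / (n + 1) ≤ 1 := by
    rw [div_le_one (by positivity)]
    have : (0 : ℝ) ≤ n := Nat.cast_nonneg n
    linarith
  have hlog : 0 < Real.logb 5 (1 / ε) := by
    apply Real.logb_pos (by norm_num)
    rw [lt_div_iff₀ e1]
    linarith
  have h4 : (4 - η) * Real.logb 5 (1 / ε) ≤ (4 - 1 / ((n : ℝ) + 1)) * Real.logb 5 (1 / ε) :=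
    mul_le_mul_of_nonneg_right (by linarith [hn.1]) hlog.le
  have := e3 L q hq (by linarith)
  linarith

theorem r12_floor (y : ℝ) : Filter.Tendsto (fun N : ℕ => (⌊(N : ℝ) * y⌋ : ℝ) / N) Filter.atTop (nhds y) := by
  have h1 : Filter.Tendsto (fun N : ℕ => y - 1 / (N : ℝ)) Filter.atTop (nhds (y - 0)) :=
    tendsto_const_nhds.sub tendsto_one_div_atTop_nhds_zero_nat
  rw [sub_zero] at h1
  refine tendsto_of_tendsto_of_tendsto_of_le_of_le' h1 tendsto_const_nhds ?_ ?_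
  · filter_upwards [Filter.eventually_gt_atTop 0] with N hN
    have hN' : (0 : ℝ) < N := by exact_mod_cast hN
    rw [le_div_iff₀ hN', sub_mul, one_div, inv_mul_cancel₀ hN'.ne']
    have := Int.sub_one_lt_floor ((N : ℝ) * y)
    linarith [mul_comm (N : ℝ) y]
  · filter_upwards [Filter.eventually_gt_atTop 0] with N hN
    have hN' : (0 : ℝ) < N := by exact_mod_cast hN
    rw [div_le_iff₀ hN', mul_comm y]
    exact Int.floor_le _

/-- TARGET 1 -/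
theorem generic_sphere : {t : S 4 | ∀ η : ℝ, 0 < η → ∀ ε₀ : ℝ, 0 < ε₀ → ∃ ε : ℝ, 0 < ε ∧ ε < ε₀ ∧
    ∀ (L : ℕ) (q : ℍ[ℤ]), Quaternion.normSq q = 5 ^ L →
      qd ((t : E 4) 0) ((t : E 4) 1) ((t : E 4) 2) ((t : E 4) 3) q L < ε ^ 2 →
      (4 - η) * Real.logb 5 (1 / ε) ≤ L} ∈ residual (S 4) := by
  have n1 : ∀ u : E 4, ‖u‖ ^ 2 = u 0 ^ 2 + u 1 ^ 2 + u 2 ^ 2 + u 3 ^ 2 := by
    intro u
    rw [EuclideanSpace.norm_sq_eq, Fin.sum_univ_four]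
    simp only [Real.norm_eq_abs, sq_abs]
  refine r12_gen (X := S 4) (fun t => (t : E 4) 0) (fun t => (t : E 4) 1) (fun t => (t : E 4) 2)
    (fun t => (t : E 4) 3) (by fun_prop) (by fun_prop) (by fun_prop) (by fun_prop) ?_ ?_
  · rintro ⟨x, hx⟩
    have hx1 : ‖x‖ = 1 := by simpa using hx
    have hx2 : x 0 ^ 2 + x 1 ^ 2 + x 2 ^ 2 + x 3 ^ 2 = 1 := by rw [← n1, hx1]; norm_num
    obtain ⟨e, he⟩ : ∃ e : E 4, e = !₂[-x 1, x 0, -x 3, x 2] := ⟨_, rfl⟩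
    have he0 : e 0 = -x 1 := by rw [he]; simp
    have he1 : e 1 = x 0 := by rw [he]; simp
    have he2 : e 2 = -x 3 := by rw [he]; simp
    have he3 : e 3 = x 2 := by rw [he]; simp
    have hs : ∀ φ : ℝ, Real.cos φ • x + Real.sin φ • e ∈ Metric.sphere (0 : E 4) 1 := by
      intro φ
      rw [mem_sphere_zero_iff_norm]
      have : ‖Real.cos φ • x + Real.sin φ • e‖ ^ 2 = 1 ^ 2 := by
        rw [n1]
        simp only [PiLp.add_apply, PiLp.smul_apply, smul_eq_mul, he0, he1, he2, he3]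
        have h := Real.sin_sq_add_cos_sq φ
        linear_combination (Real.sin φ ^ 2 + Real.cos φ ^ 2) * hx2 + h
      exact (pow_left_inj₀ (norm_nonneg _) (by norm_num) (by norm_num)).1 this
    refine ⟨fun φ => ⟨Real.cos φ • x + Real.sin φ • e, hs φ⟩, by fun_prop, ?_, ?_⟩
    · apply Subtype.ext
      simp
    · intro φ
      simp only [PiLp.add_apply, PiLp.smul_apply, smul_eq_mul, he0, he1, he2, he3]
      have h := Real.sin_sq_add_cos_sq φ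
      linear_combination ((Real.cos φ - 1) ^ 2 + Real.sin φ ^ 2) * hx2 + h
  · rintro U hU ⟨y, hy⟩
    obtain ⟨V, hV, rfl⟩ := isOpen_induced_iff.1 hU
    have hy1 : ‖(y : E 4)‖ = 1 := mem_sphere_zero_iff_norm.1 y.2
    have c1 : Filter.Tendsto (fun N : ℕ => (WithLp.toLp 2 (fun i => (⌊(N : ℝ) * (y : E 4) i⌋ : ℝ) / N) : E 4))
        Filter.atTop (nhds (y : E 4)) := by
      have := ((PiLp.continuous_toLp 2 (fun _ : Fin 4 => ℝ)).tendsto (WithLp.ofLp (y : E 4))).comp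
        (tendsto_pi_nhds.2 (fun i : Fin 4 => r12_floor ((y : E 4) i)))
      exact this
    have c2 := c1.norm
    rw [hy1] at c2
    have c3 := (c2.inv₀ one_ne_zero).smul c1
    rw [inv_one, one_smul] at c3
    have d1 := c3.eventually (hV.mem_nhds hy)
    have d2 := c2.eventually_ne one_ne_zero
    obtain ⟨N, ⟨hN1, hN2⟩, hN3⟩ := ((d1.and d2).and (Filter.eventually_gt_atTop 0)).exists
    have hN' : (0 : ℝ) < N := by exact_mod_cast hN3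
    obtain ⟨u, hu⟩ : ∃ u : E 4, u = WithLp.toLp 2 (fun i => (⌊(N : ℝ) * (y : E 4) i⌋ : ℝ) / N) := ⟨_, rfl⟩
    rw [← hu] at hN1 hN2
    have hui : ∀ i, u i = (⌊(N : ℝ) * (y : E 4) i⌋ : ℝ) / N := by
      intro i
      rw [hu]
    have hupos : 0 < ‖u‖ := lt_of_le_of_ne (norm_nonneg _) (Ne.symm hN2)
    obtain ⟨v, hv⟩ : ∃ v : ℍ[ℤ], v = ⟨⌊(N : ℝ) * (y : E 4) 0⌋, ⌊(N : ℝ) * (y : E 4) 1⌋,
      ⌊(N : ℝ) * (y : E 4) 2⌋, ⌊(N : ℝ) * (y : E 4) 3⌋⟩ := ⟨_, rfl⟩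
    have w0 : (v.re : ℝ) = u 0 * N := by rw [hv, hui]; field_simp
    have w1 : (v.imI : ℝ) = u 1 * N := by rw [hv, hui]; field_simp
    have w2 : (v.imJ : ℝ) = u 2 * N := by rw [hv, hui]; field_simp
    have w3 : (v.imK : ℝ) = u 3 * N := by rw [hv, hui]; field_simp
    have hnq : ((Quaternion.normSq v : ℤ) : ℝ) = (‖u‖ * N) ^ 2 := by
      rw [Quaternion.normSq_def', mul_pow, n1]
      push_cast
      rw [w0, w1, w2, w3]
      ring
    have hsq : Real.sqrt ((Quaternion.normSq v : ℤ) : ℝ) = ‖u‖ * N := by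
      rw [hnq, Real.sqrt_sq (by positivity)]
    have hv0 : v ≠ 0 := by
      rintro rfl
      have : (0 : ℝ) = (‖u‖ * N) ^ 2 := by simpa using hnq
      have h2 : 0 < (‖u‖ * N) ^ 2 := by positivity
      linarith
    refine ⟨⟨‖u‖⁻¹ • u, ?_⟩, hN1, v, hv0, ?_, ?_, ?_, ?_⟩
    · rw [mem_sphere_zero_iff_norm, norm_smul, norm_inv, norm_norm, inv_mul_cancel₀ hupos.ne']
    · rw [hsq, w0]
      simp only [PiLp.smul_apply, smul_eq_mul]
      field_simp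
    · rw [hsq, w1]
      simp only [PiLp.smul_apply, smul_eq_mul]
      field_simp
    · rw [hsq, w2]
      simp only [PiLp.smul_apply, smul_eq_mul]
      field_simp
    · rw [hsq, w3]
      simp only [PiLp.smul_apply, smul_eq_mul]
      field_simp

/-- TARGET 2 -/
theorem generic_circle : {θ : ℝ | ∀ η : ℝ, 0 < η → ∀ ε₀ : ℝ, 0 < ε₀ → ∃ ε : ℝ, 0 < ε ∧ ε < ε₀ ∧
    ∀ (L : ℕ) (q : ℍ[ℤ]), Quaternion.normSq q = 5 ^ L →
      qd (Real.cos θ) (Real.sin θ) 0 0 q L < ε ^ 2 →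
      (4 - η) * Real.logb 5 (1 / ε) ≤ L} ∈ residual ℝ := by
  refine r12_gen (X := ℝ) (fun θ => Real.cos θ) (fun θ => Real.sin θ) (fun _ => 0)
    (fun _ => 0) (by fun_prop) (by fun_prop) (by fun_prop) (by fun_prop) ?_ ?_
  · intro θ
    refine ⟨fun φ => θ + φ, by fun_prop, by simp, ?_⟩
    intro φ
    simp only [Real.cos_add, Real.sin_add]
    have h1 := Real.sin_sq_add_cos_sq φ
    have h2 := Real.sin_sq_add_cos_sq θ
    linear_combination ((Real.cos φ - 1) ^ 2 + Real.sin φ ^ 2) * h2 + h1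
  · rintro U hU ⟨θ, hθ⟩
    have c0 := r12_floor (Real.cos θ)
    have c0' := r12_floor (Real.sin θ)
    have c1 : Filter.Tendsto (fun N : ℕ => (((⌊(N : ℝ) * Real.cos θ⌋ : ℝ) / N : ℝ) : ℂ) +
        (((⌊(N : ℝ) * Real.sin θ⌋ : ℝ) / N : ℝ) : ℂ) * Complex.I) Filter.atTop
        (nhds ((Real.cos θ : ℂ) + (Real.sin θ : ℂ) * Complex.I)) :=
      ((Complex.continuous_ofReal.tendsto _).comp c0).add
        (((Complex.continuous_ofReal.tendsto _).comp c0').mul tendsto_const_nhds)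
    have c2 := c1.mul (tendsto_const_nhds (x := Complex.exp (-(θ : ℂ) * Complex.I)))
    have e1 : ((Real.cos θ : ℂ) + (Real.sin θ : ℂ) * Complex.I) * Complex.exp (-(θ : ℂ) * Complex.I) = 1 := by
      rw [Complex.ofReal_cos, Complex.ofReal_sin, ← Complex.exp_mul_I, ← Complex.exp_add]
      simp
    rw [e1] at c2
    have c3 := (Complex.continuousAt_arg (x := 1) (by simp)).tendsto.comp c2
    rw [Complex.arg_one] at c3
    have c4 := (tendsto_const_nhds (x := θ)).add c3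
    rw [add_zero] at c4
    have d1 := c4.eventually (hU.mem_nhds hθ)
    have d2 := c2.eventually_ne one_ne_zero
    obtain ⟨N, ⟨hN1, hN2⟩, hN3⟩ := ((d1.and d2).and (Filter.eventually_gt_atTop 0)).exists
    have hN' : (0 : ℝ) < N := by exact_mod_cast hN3
    simp only [Function.comp_apply] at hN1
    obtain ⟨a, ha⟩ : ∃ a : ℤ, a = ⌊(N : ℝ) * Real.cos θ⌋ := ⟨_, rfl⟩
    obtain ⟨b, hb⟩ : ∃ b : ℤ, b = ⌊(N : ℝ) * Real.sin θ⌋ := ⟨_, rfl⟩
    rw [← ha, ← hb] at hN1 hN2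
    obtain ⟨z, hz⟩ : ∃ z : ℂ, z = (((a : ℝ) / N : ℝ) : ℂ) + (((b : ℝ) / N : ℝ) : ℂ) * Complex.I := ⟨_, rfl⟩
    rw [← hz] at hN1 hN2
    have hz0 : z ≠ 0 := by
      rintro rfl
      simp at hN2
    have hzpos : 0 < ‖z‖ := norm_pos_iff.2 hz0
    have hzre : z.re = (a : ℝ) / N := by rw [hz]; simp
    have hzim : z.im = (b : ℝ) / N := by rw [hz]; simp
    have hzn : ‖z‖ ^ 2 = z.re ^ 2 + z.im ^ 2 := by
      rw [← Complex.normSq_eq_norm_sq, Complex.normSq_apply]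
      ring
    obtain ⟨w, hw⟩ : ∃ w : ℂ, w = z * Complex.exp (-(θ : ℂ) * Complex.I) := ⟨_, rfl⟩
    rw [← hw] at hN1
    have hwn : ‖w‖ = ‖z‖ := by
      rw [hw, norm_mul]
      have : ‖Complex.exp (-(θ : ℂ) * Complex.I)‖ = 1 := by
        have := Complex.norm_exp_ofReal_mul_I (-θ)
        simpa using this
      rw [this, mul_one]
    have hexp : Complex.exp (((θ + Complex.arg w : ℝ) : ℂ) * Complex.I) * ‖z‖ = z := by
      have h1 := Complex.norm_mul_exp_arg_mul_I w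
      rw [hwn] at h1
      calc Complex.exp (((θ + Complex.arg w : ℝ) : ℂ) * Complex.I) * ‖z‖ =
          Complex.exp ((θ : ℂ) * Complex.I) * (‖z‖ * Complex.exp (Complex.arg w * Complex.I)) := by
            push_cast
            rw [add_mul, Complex.exp_add]
            ring
        _ = Complex.exp ((θ : ℂ) * Complex.I) * (z * Complex.exp (-(θ : ℂ) * Complex.I)) := by rw [h1, hw]
        _ = z * (Complex.exp ((θ : ℂ) * Complex.I) * Complex.exp (-(θ : ℂ) * Complex.I)) := by ring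
        _ = z := by rw [← Complex.exp_add]; simp
    have hre : Real.cos (θ + Complex.arg w) * ‖z‖ = z.re := by
      have := congrArg Complex.re hexp
      rw [Complex.re_mul_ofReal, Complex.exp_ofReal_mul_I_re] at this
      exact this
    have him : Real.sin (θ + Complex.arg w) * ‖z‖ = z.im := by
      have := congrArg Complex.im hexp
      rw [Complex.im_mul_ofReal, Complex.exp_ofReal_mul_I_im] at this
      exact this
    obtain ⟨v, hv⟩ : ∃ v : ℍ[ℤ], v = ⟨a, b, 0, 0⟩ := ⟨_, rfl⟩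
    have w0 : (v.re : ℝ) = z.re * N := by rw [hv, hzre]; field_simp
    have w1 : (v.imI : ℝ) = z.im * N := by rw [hv, hzim]; field_simp
    have w2 : v.imJ = 0 := by rw [hv]
    have w3 : v.imK = 0 := by rw [hv]
    have hnq : ((Quaternion.normSq v : ℤ) : ℝ) = (‖z‖ * N) ^ 2 := by
      rw [Quaternion.normSq_def', mul_pow, hzn, w2, w3]
      push_cast
      rw [w0, w1]
      ring
    have hsq : Real.sqrt ((Quaternion.normSq v : ℤ) : ℝ) = ‖z‖ * N := by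
      rw [hnq, Real.sqrt_sq (by positivity)]
    have hv0 : v ≠ 0 := by
      rintro rfl
      have : (0 : ℝ) = (‖z‖ * N) ^ 2 := by simpa using hnq
      have h2 : 0 < (‖z‖ * N) ^ 2 := by positivity
      linarith
    refine ⟨θ + Complex.arg w, hN1, v, hv0, ?_, ?_, ?_, ?_⟩
    · rw [hsq, w0, ← hre]
      field_simp
    · rw [hsq, w1, ← him]
      field_simp
    · rw [w2]
      simp
    · rw [w3]
      simp

end Pool.Agent.H978V
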