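import Pool.Agent.H978V.RDefs
import Pool.Agent.H978V.R7a
import Pool.Agent.H978V.R7b
import Pool.Agent.H978V.R7c

/-!
JOB R7m (owner helper978, MP_06cce2_nt).  `H978V/*.lean` (library, with `RDefs`) is on origin/main.

PROOF of TARGET 1.  Choose `m₇` with `m₇ ≢ 0 mod 7` and `N₀ - m₇²` a nonresidue mod 7, i.e. `≡ 3, 5, 6`: (squares `1,2,4`) `N₀ ≡ 0: m² = 1`; `1: m²=2`; `2: m²=4`; `3: m²=4`; `4: m²=1`; `5: m²=2`; `6: m²=1`.
`D = 7^j D'` with `7 ∤ D'`.  By the Chinese remainder theorem there is a residue class modulo `M = 16·7·D'` (`D'` odd, prime to 7) with `m ≡ r mod 16`, `m ≡ m₇ mod 7`, `m ≡ 1 mod D'`; such `m` is prime to `D`, and `N₀ - m²` is not a square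
(modulo 7).  `Q = M ≤ 112 D`: there is such an `m` in `(√N₀ - M, √N₀]`.
PROOF of TARGET 2.  `r` from `z_type1`, `z_type2`, `z_type4` according to `c`.  `N₀ = c D 5^{4k}`; `m` from TARGET 1 with `Q`; for `k ≥ k₀` `√N₀ > Q`, so `0 < m`; `m ≤ √N₀` and `N₀ - m²` is not a square, so `m² < N₀`.
`z.re = m` is prime to `D`, so `PrimMod D z`.
-/

set_option autoImplicit false

open scoped Quaternion

namespace Pool.Agent.H978V




theorem R7m_crt (a b x y : ℤ) (h : IsCoprime a b) : ∃ z : ℤ, a ∣ z - x ∧ b ∣ z - y := by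
  obtain ⟨u, w, huw⟩ := h
  refine ⟨x * (w * b) + y * (u * a), ⟨u * (y - x), ?_⟩, ⟨w * (x - y), ?_⟩⟩
  · linear_combination x * huw
  · linear_combination y * huw

/-- the choice modulo `7` -/
theorem R7m_seven (n : ℤ) : ∃ m : ℤ, ¬ (7 : ℤ) ∣ m ∧ ∀ m' k : ℤ, (7 : ℤ) ∣ m' - m → n - m' ^ 2 ≠ k * k := by
  have key : ∀ a : ZMod 7, ∃ b : ZMod 7, b ≠ 0 ∧ ∀ k : ZMod 7, a - b ^ 2 ≠ k * k := by decide
  obtain ⟨b, hb, hb2⟩ := key (n : ZMod 7)
  obtain ⟨m, hm⟩ := ZMod.intCast_surjective b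
  refine ⟨m, ?_, ?_⟩
  · intro hd
    apply hb
    rw [← hm]
    exact (ZMod.intCast_zmod_eq_zero_iff_dvd m 7).2 hd
  · intro m' k hd he
    have h1 : ((m' - m : ℤ) : ZMod 7) = 0 := (ZMod.intCast_zmod_eq_zero_iff_dvd _ 7).2 hd
    have h2 : (m' : ZMod 7) = b := by
      rw [← hm]
      push_cast at h1
      exact sub_eq_zero.1 h1
    apply hb2 (k : ZMod 7)
    have h3 := congrArg (fun z : ℤ => (z : ZMod 7)) he
    push_cast at h3
    rw [h2] at h3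
    exact h3

/-- TARGET 1 -/
theorem m_choice (D : ℕ) (hD : Odd D) : ∃ Q : ℝ, 0 < Q ∧ ∀ (N₀ : ℕ) (r : ℤ), ∃ m : ℤ,
    m % 16 = r % 16 ∧ IsCoprime m (D : ℤ) ∧ Real.sqrt N₀ - Q ≤ m ∧ (m : ℝ) ≤ Real.sqrt N₀ ∧
      ¬ IsSquare ((N₀ : ℤ) - m ^ 2) := by
  have hD0 : D ≠ 0 := by
    rintro rfl
    exact absurd hD (by decide)
  obtain ⟨j, D', hD', hDD⟩ := Nat.exists_eq_pow_mul_and_not_dvd hD0 7 (by norm_num)
  have hD'0 : 0 < D' := by
    rcases Nat.eq_zero_or_pos D' with h | h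
    · exact absurd (h ▸ dvd_zero 7) hD'
    · exact h
  have hodd : Odd D' := by
    rw [hDD] at hD
    exact (Nat.odd_mul.1 hD).2
  have hc1 : IsCoprime (16 : ℤ) (7 : ℤ) := by
    refine ⟨-3, 7, by norm_num⟩
  have hc2 : IsCoprime (16 * 7 : ℤ) (D' : ℤ) := by
    apply IsCoprime.mul_left
    · have : Nat.Coprime (2 ^ 4) D' := Nat.Coprime.pow_left 4 (Nat.coprime_two_left.2 hodd)
      have h := Nat.isCoprime_iff_coprime.2 this
      exact_mod_cast h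
    · have : Nat.Coprime 7 D' := (Nat.Prime.coprime_iff_not_dvd (by norm_num)).2 hD'
      have h := Nat.isCoprime_iff_coprime.2 this
      exact_mod_cast h
  have hM : (0 : ℝ) < 112 * D' := by
    have : (0 : ℝ) < D' := by exact_mod_cast hD'0
    positivity
  refine ⟨112 * D', hM, ?_⟩
  intro N₀ r
  obtain ⟨m₇, h7, h7'⟩ := R7m_seven (N₀ : ℤ)
  obtain ⟨m₁, ha, hb⟩ := R7m_crt 16 7 r m₇ hc1
  obtain ⟨m₂, hc, hd⟩ := R7m_crt (16 * 7) D' m₁ 1 hc2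
  set t : ℤ := ⌊(Real.sqrt N₀ - m₂) / (112 * D')⌋ with ht
  have ht1 : (t : ℝ) * (112 * D') ≤ Real.sqrt N₀ - m₂ := by
    rw [← le_div_iff₀ hM]
    exact Int.floor_le _
  have ht2 : Real.sqrt N₀ - m₂ < ((t : ℝ) + 1) * (112 * D') := by
    rw [← div_lt_iff₀ hM]
    exact Int.lt_floor_add_one _
  have e16 : (16 : ℤ) ∣ (m₂ + t * (112 * D')) - r := by
    have h1 : (16 : ℤ) ∣ m₂ - m₁ := (Dvd.intro _ rfl).trans hc
    have h2 : (16 : ℤ) ∣ t * (112 * D') := ⟨t * (7 * D'), by ring⟩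
    have h3 := dvd_add (dvd_add h1 h2) ha
    have h4 : m₂ - m₁ + t * (112 * D') + (m₁ - r) = (m₂ + t * (112 * D')) - r := by ring
    rwa [h4] at h3
  have e7 : (7 : ℤ) ∣ (m₂ + t * (112 * D')) - m₇ := by
    have h1 : (7 : ℤ) ∣ m₂ - m₁ := (Dvd.intro_left _ rfl).trans hc
    have h2 : (7 : ℤ) ∣ t * (112 * D') := ⟨t * (16 * D'), by ring⟩
    have h3 := dvd_add (dvd_add h1 h2) hb
    have h4 : m₂ - m₁ + t * (112 * D') + (m₁ - m₇) = (m₂ + t * (112 * D')) - m₇ := by ring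
    rwa [h4] at h3
  have eD : (D' : ℤ) ∣ (m₂ + t * (112 * D')) - 1 := by
    have h2 : (D' : ℤ) ∣ t * (112 * D') := ⟨t * 112, by ring⟩
    have h3 := dvd_add hd h2
    have h4 : m₂ - 1 + t * (112 * D') = (m₂ + t * (112 * D')) - 1 := by ring
    rwa [h4] at h3
  refine ⟨m₂ + t * (112 * D'), ?_, ?_, ?_, ?_, ?_⟩
  · exact Int.emod_emod_of_dvd _ (dvd_refl _) ▸ (Int.emod_emod_of_dvd r (dvd_refl (16 : ℤ)) ▸
      (Int.emod_emod_of_dvd (m₂ + t * (112 * D')) (dvd_refl (16 : ℤ)) ▸ by omega))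
  · rw [hDD]
    push_cast
    apply IsCoprime.mul_right
    · apply IsCoprime.pow_right
      have hp : Prime (7 : ℤ) := by
        have := Nat.prime_iff_prime_int.1 (show Nat.Prime 7 by norm_num)
        exact_mod_cast this
      refine ((Prime.coprime_iff_not_dvd hp).2 ?_).symm
      intro h
      apply h7
      have := dvd_sub h e7
      simpa using this
    · obtain ⟨q, hq⟩ := eD
      exact ⟨1, -q, by linear_combination hq⟩
  · push_cast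
    nlinarith
  · push_cast
    linarith
  · rintro ⟨k, hk⟩
    exact h7' _ k e7 hk

theorem R7m_main (v : ℍ[ℤ]) (c : ℕ) (hc : 0 < c) (D : ℕ) (hD : Odd D) (r : ℤ)
    (H : ∀ (k : ℕ) (m : ℤ), m % 16 = r % 16 → m ^ 2 < (c : ℤ) * D * 5 ^ (4 * k) →
      ¬ IsSquare (((c : ℤ) * D * 5 ^ (4 * k) : ℤ) - m ^ 2) →
      ∃ z : ℍ[ℤ], z.re = m ∧ Quaternion.normSq z = (c : ℤ) * D * 5 ^ (4 * k) ∧ G2 v (c : ℤ) D z) :
    ∃ (Q : ℝ) (k₀ : ℕ), 0 < Q ∧ ∀ k : ℕ, k₀ ≤ k → ∃ z : ℍ[ℤ],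
      Quaternion.normSq z = (c : ℤ) * D * 5 ^ (4 * k) ∧ G2 v (c : ℤ) D z ∧ PrimMod D z ∧
      Real.sqrt (((c : ℤ) : ℝ) * D * 5 ^ (4 * k)) - Q ≤ z.re := by
  obtain ⟨Q, hQ, hm⟩ := m_choice D hD
  have hD0 : 0 < D := hD.pos
  refine ⟨Q, ⌈Q⌉₊ + 1, hQ, ?_⟩
  intro k hk
  obtain ⟨m, h16, hco, hlow, hup, hns⟩ := hm (c * D * 5 ^ (4 * k)) r
  have hcast : Real.sqrt ((c * D * 5 ^ (4 * k) : ℕ) : ℝ) =
      Real.sqrt (((c : ℤ) : ℝ) * D * 5 ^ (4 * k)) := by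
    congr 1
    push_cast
    ring
  have hbig : Q < Real.sqrt ((c * D * 5 ^ (4 * k) : ℕ) : ℝ) := by
    have h1 : Q < k := by
      have h2 : Q ≤ ⌈Q⌉₊ := Nat.le_ceil Q
      have h3 : ((⌈Q⌉₊ + 1 : ℕ) : ℝ) ≤ k := by exact_mod_cast hk
      push_cast at h3
      linarith
    have h2 : (k : ℝ) ≤ Real.sqrt ((c * D * 5 ^ (4 * k) : ℕ) : ℝ) := by
      apply Real.le_sqrt_of_sq_le
      have h3 : k ^ 2 ≤ c * D * 5 ^ (4 * k) := by
        have h4 : k < 5 ^ (2 * k) := by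
          calc k ≤ 2 * k := by omega
            _ < 5 ^ (2 * k) := Nat.lt_pow_self (by norm_num)
        calc k ^ 2 ≤ (5 ^ (2 * k)) ^ 2 := Nat.pow_le_pow_left h4.le 2
          _ = 5 ^ (4 * k) := by rw [← pow_mul]; congr 1; ring
          _ ≤ c * D * 5 ^ (4 * k) := Nat.le_mul_of_pos_left _ (Nat.mul_pos hc hD0)
      exact_mod_cast h3
    linarith
  have hmpos : (0 : ℝ) < m := by linarith
  have hmlt : m ^ 2 < (c : ℤ) * D * 5 ^ (4 * k) := by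
    have h1 : (m : ℝ) ^ 2 ≤ ((c * D * 5 ^ (4 * k) : ℕ) : ℝ) := by
      have := pow_le_pow_left₀ hmpos.le hup 2
      rwa [Real.sq_sqrt (Nat.cast_nonneg _)] at this
    have h2 : m ^ 2 ≤ ((c * D * 5 ^ (4 * k) : ℕ) : ℤ) := by exact_mod_cast h1
    push_cast at h2
    rcases h2.lt_or_eq with h | h
    · exact h
    · exfalso
      apply hns
      push_cast
      rw [h]
      exact ⟨0, by ring⟩
  have hns' : ¬ IsSquare (((c : ℤ) * D * 5 ^ (4 * k) : ℤ) - m ^ 2) := by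
    push_cast at hns
    exact hns
  obtain ⟨z, hz1, hz2, hz3⟩ := H k m h16 hmlt hns'
  refine ⟨z, hz2, hz3, ?_, ?_⟩
  · intro p hp hpD hd
    have h1 : (p : ℤ) ∣ m := hz1 ▸ hd.1
    have h2 : (p : ℤ) ∣ (D : ℤ) := by exact_mod_cast hpD
    have h3 : IsUnit (p : ℤ) := hco.isUnit_of_dvd' h1 h2
    rw [Int.isUnit_iff] at h3
    have := hp.two_le
    rcases h3 with h | h <;> omega
  · rw [← hcast, hz1]
    exact hlow

/-- TARGET 2 -/
theorem z_exists (v : ℍ[ℤ]) (hv : PrimQ v) (c : ℤ) (D : ℕ) (hc : c = 1 ∨ c = 2 ∨ c = 4) (hD : Odd D)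
    (hN : Quaternion.normSq v = c * D) : ∃ (Q : ℝ) (k₀ : ℕ), 0 < Q ∧ ∀ k : ℕ, k₀ ≤ k → ∃ z : ℍ[ℤ],
      Quaternion.normSq z = c * D * 5 ^ (4 * k) ∧ G2 v c D z ∧ PrimMod D z ∧
      Real.sqrt (c * D * 5 ^ (4 * k)) - Q ≤ z.re := by
  rcases hc with rfl | rfl | rfl
  · obtain ⟨r, hr⟩ := z_type1 v D hD (by rw [hN]; ring)
    have h := R7m_main v 1 one_pos D hD r (by
      intro k m h1 h2 _
      obtain ⟨z, a, b, d⟩ := hr k m h1 (by simpa using h2)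
      exact ⟨z, a, by simpa using b, by simpa using d⟩)
    simpa using h
  · obtain ⟨r, hr⟩ := z_type2 v D hD hN
    have h := R7m_main v 2 two_pos D hD r (by
      intro k m h1 h2 h3
      obtain ⟨z, a, b, d⟩ := hr k m h1 (by simpa using h2) (by simpa using h3)
      exact ⟨z, a, by simpa using b, by simpa using d⟩)
    simpa using h
  · obtain ⟨r, hr⟩ := z_type4 v D hD hv hN
    have h := R7m_main v 4 four_pos D hD r (by
      intro k m h1 h2 _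
      obtain ⟨z, a, b, d⟩ := hr k m h1 (by simpa using h2)
      exact ⟨z, a, by simpa using b, by simpa using d⟩)
    simpa using h

end Pool.Agent.H978V
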