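import Pool.Agent.H978V.RDefs
import Pool.Agent.H978V.C5
import Pool.Agent.H978V.R4
import Pool.Agent.H978V.R6
import Pool.Agent.H978V.R7m
import Pool.Agent.H978V.R8

/-!
JOB R9 (owner helper978, MP_06cce2_nt).  `H978V/*.lean` (library, with `RDefs`) is on origin/main.

Every rational point has words of length `≤ 4 log_5 (1/ε) + C`.

PROOF.  Reduction 1: `v = g v'` with `v'` primitive (`PrimQ v'`), `qv_scale`.  Reduction 2 (induction on the norm): if `5 ∣ normSq v`, `v` primitive, then `v = y * al a` (`c5_exists`), `y` is primitive (a prime dividing `y` divides `v`), `normSq y = normSq v/5`;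
from `q` for `y` take `q * al a` for `v`: `Gd (q * al a)` by `c5_good`, `normSq = 5^{L+1}`, same distance (`qv_scale`), constant `C + 1`.
Main case: `PrimQ v`, `normSq v = c D` (`norm_cD`), `5 ∤ D`.  `Q, k₀` from `z_exists`, `L₀` from `reach_g` for `v` and for the modulus `D` (`PrimMod D v` as `PrimQ v`).  Given `ε`, let `k ≥ k₀` be the least natural number with `2Q/√(cD 5^{4k}) < ε²`
(so `5^{2k} ≤ max (5^{2k₀}) (25·2Q/(√(cD)) ε^{-2})`, `4k ≤ 4 log_5 (1/ε) + C`).  `z` from `z_exists`, `w` from `reach_g` (`D ∣ normSq z`), `DvdQ D (v * (qw w * z))`; `dvd_conj`, `g2_conj` (with `good_qw`), `g2_extract` for `qw w * z * star (qw w)`: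
`v * (qw w * z * star (qw w)) = (cD) • x`, `Gd x`.  `close_rat` (`l = 4k`): `normSq x = 5^{4k+2|w|}`, `qv = 2 - 2 z.re/√N₀ ≤ 2Q/√N₀ < ε²`, length `4k + 2|w| ≤ 4 log_5(1/ε) + C + 2L₀`.
-/

set_option autoImplicit false

open scoped Quaternion

namespace Pool.Agent.H978V

open Pool.Agent.Helper557.Rz













/-- the conclusion for the vector `v` -/
def OkR9 (v : ℍ[ℤ]) : Prop := ∃ C : ℝ, ∀ ε : ℝ, 0 < ε → ε < 1 →
    ∃ (L : ℕ) (q : ℍ[ℤ]), Gd q ∧ Quaternion.normSq q = 5 ^ L ∧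
      (L : ℝ) ≤ 4 * Real.logb 5 (1 / ε) + C ∧ qv v q L < ε ^ 2

lemma r9_ok_scale (v : ℍ[ℤ]) (hv : v ≠ 0) (g : ℤ) (hg : 0 < g) (h : OkR9 v) : OkR9 (g • v) := by
  obtain ⟨C, hC⟩ := h
  refine ⟨C, fun ε h0 h1 => ?_⟩
  obtain ⟨L, q, hq, hn, hL, hd⟩ := hC ε h0 h1
  exact ⟨L, q, hq, hn, hL, by rw [(qv_scale v q L hv hn).1 g hg]; exact hd⟩

lemma r9_ok_al (v : ℍ[ℤ]) (hv : v ≠ 0) (a : Fin 6) (h : OkR9 v) : OkR9 (v * al a) := by
  obtain ⟨C, hC⟩ := h
  refine ⟨C + 1, fun ε h0 h1 => ?_⟩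
  obtain ⟨L, q, hq, hn, hL, hd⟩ := hC ε h0 h1
  refine ⟨L + 1, q * al a, (c5_good a q).2 hq, ?_, ?_, ?_⟩
  · rw [map_mul, hn, c5_norm_al, pow_succ]
  · push_cast
    linarith
  · rw [(qv_scale v q L hv hn).2 a]
    exact hd

lemma r9_primQ_ne (v : ℍ[ℤ]) (hv : PrimQ v) : v ≠ 0 := by
  rintro rfl
  exact hv 2 Nat.prime_two ⟨dvd_zero _, dvd_zero _, dvd_zero _, dvd_zero _⟩

lemma r9_ok_main (v : ℍ[ℤ]) (hv : PrimQ v) (h5 : ¬ (5 : ℤ) ∣ Quaternion.normSq v) : OkR9 v := by
  obtain ⟨c, D, hc, hD, hN⟩ := norm_cD v hv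
  have hc0 : 0 < c := by rcases hc with h | h | h <;> omega
  have hD0 : 0 < D := hD.pos
  have hco : Nat.Coprime D 5 := by
    rw [Nat.coprime_comm]
    refine (Nat.Prime.coprime_iff_not_dvd (by norm_num)).2 ?_
    rintro ⟨e, he⟩
    apply h5
    rw [hN, he]
    exact ⟨c * e, by push_cast; ring⟩
  obtain ⟨Q, k₀, hQ, hz⟩ := z_exists v hv c D hc hD hN
  obtain ⟨L₀, hL₀⟩ := reach_g D hD hco v (fun p hp _ => hv p hp) (by rw [hN]; exact dvd_mul_left _ _)
  set B : ℕ := ⌈|Real.logb 5 (2 * Q)|⌉₊ with hB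
  refine ⟨4 * (k₀ + B + 1) + 2 * L₀, fun ε h0 h1 => ?_⟩
  have hlog : 0 < Real.logb 5 (1 / ε) := by
    apply Real.logb_pos (by norm_num)
    rw [lt_div_iff₀ h0]
    linarith
  set A : ℕ := ⌊Real.logb 5 (1 / ε)⌋₊ with hA
  set k : ℕ := k₀ + B + A + 1 with hk
  obtain ⟨z, hz1, hz2, hz3, hz4⟩ := hz k (by omega)
  obtain ⟨w, hw, hdv⟩ := hL₀ z hz3 (by rw [hz1]; exact ⟨c * 5 ^ (4 * k), by ring⟩)
  have h2 := dvd_conj v z (qw w) D hdv
  have h3 := g2_conj v c D hD hv hc hN z (qw w) hz2 (good_qw w).1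
  obtain ⟨x, hx, hx2⟩ := g2_extract v c D hD hc _ h3 h2
  obtain ⟨h4, h6⟩ := close_rat v z x w c D (4 * k) hc0 hD0 hN hz1 hx2
  refine ⟨4 * k + 2 * w.length, x, hx, h4, ?_, ?_⟩
  · have hA' : (A : ℝ) ≤ Real.logb 5 (1 / ε) := Nat.floor_le hlog.le
    have hw' : (w.length : ℝ) ≤ L₀ := by exact_mod_cast hw
    rw [hk]
    push_cast
    linarith
  · rw [h6]
    have hcR : (1 : ℝ) ≤ (c : ℝ) := by exact_mod_cast hc0
    have hDR : (1 : ℝ) ≤ (D : ℝ) := by exact_mod_cast hD0
    have hcD : (1 : ℝ) ≤ (c : ℝ) * D := by nlinarith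
    set N : ℝ := (c : ℝ) * D * 5 ^ (4 * k) with hNN
    have hNpos : 0 < N := by positivity
    have hsN : 0 < Real.sqrt N := Real.sqrt_pos.2 hNpos
    have hlow : (5 : ℝ) ^ (2 * k) ≤ Real.sqrt N := by
      apply Real.le_sqrt_of_sq_le
      rw [← pow_mul, show 2 * k * 2 = 4 * k by ring]
      have : (0 : ℝ) < 5 ^ (4 * k) := by positivity
      nlinarith
    have hkey : 2 * Q < ε ^ 2 * 5 ^ (2 * k) := by
      have e1 : Real.logb 5 (2 * Q) + 2 * Real.logb 5 (1 / ε) < (2 * k : ℕ) := by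
        have hA' : Real.logb 5 (1 / ε) < A + 1 := Nat.lt_floor_add_one _
        have hB' : |Real.logb 5 (2 * Q)| ≤ B := Nat.le_ceil _
        have hB2 := le_abs_self (Real.logb 5 (2 * Q))
        have hB3 : (0 : ℝ) ≤ B := Nat.cast_nonneg _
        have hk0 : (0 : ℝ) ≤ k₀ := Nat.cast_nonneg _
        rw [hk]
        push_cast
        linarith
      have e2 : Real.logb 5 (2 * Q) + 2 * Real.logb 5 (1 / ε) = Real.logb 5 (2 * Q / ε ^ 2) := by
        have f1 : Real.logb 5 (2 * Q / ε ^ 2) = Real.logb 5 (2 * Q) - Real.logb 5 (ε ^ 2) :=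
          Real.logb_div (by positivity) (by positivity)
        have f2 : Real.logb 5 (ε ^ 2) = (2 : ℕ) * Real.logb 5 ε := Real.logb_pow _ _ _
        have f3 : Real.logb 5 (1 / ε) = - Real.logb 5 ε := by rw [one_div, Real.logb_inv]
        rw [f1, f2, f3]
        push_cast
        ring
      rw [e2, Real.logb_lt_iff_lt_rpow (by norm_num) (by positivity), Real.rpow_natCast,
        div_lt_iff₀ (by positivity)] at e1
      linarith
    have e3 : 2 - 2 * ((z.re : ℝ) / Real.sqrt N) ≤ 2 * Q / Real.sqrt N := by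
      rw [le_div_iff₀ hsN, sub_mul]
      have : 2 * ((z.re : ℝ) / Real.sqrt N) * Real.sqrt N = 2 * z.re := by
        field_simp
      rw [this]
      linarith
    refine lt_of_le_of_lt e3 ?_
    rw [div_lt_iff₀ hsN]
    have : ε ^ 2 * 5 ^ (2 * k) ≤ ε ^ 2 * Real.sqrt N := mul_le_mul_of_nonneg_left hlow (by positivity)
    linarith

lemma r9_normSq_pos_int (v : ℍ[ℤ]) (hv : v ≠ 0) : 0 < Quaternion.normSq v := by
  rw [Quaternion.normSq_def']
  by_contra h
  push Not at h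
  have h1 := sq_nonneg v.re
  have h2 := sq_nonneg v.imI
  have h3 := sq_nonneg v.imJ
  have h4 := sq_nonneg v.imK
  have a1 : v.re ^ 2 = 0 := by linarith
  have a2 : v.imI ^ 2 = 0 := by linarith
  have a3 : v.imJ ^ 2 = 0 := by linarith
  have a4 : v.imK ^ 2 = 0 := by linarith
  apply hv
  ext
  · simpa using a1
  · simpa using a2
  · simpa using a3
  · simpa using a4

lemma r9_ok_all : ∀ (n : ℕ) (v : ℍ[ℤ]), v ≠ 0 → (Quaternion.normSq v).toNat ≤ n → OkR9 v := by
  intro n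
  induction n with
  | zero =>
    intro v hv hn
    have := r9_normSq_pos_int v hv
    omega
  | succ n ih =>
    intro v hv hn
    have hpos := r9_normSq_pos_int v hv
    by_cases h5 : (5 : ℤ) ∣ Quaternion.normSq v
    · obtain ⟨a, y, hy⟩ := c5_exists v h5
      have hy0 : y ≠ 0 := by
        rintro rfl
        apply hv
        rw [← hy, zero_mul]
      have hyp := r9_normSq_pos_int y hy0
      have e : Quaternion.normSq v = Quaternion.normSq y * 5 := by
        rw [← hy, map_mul, c5_norm_al]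
      rw [← hy]
      exact r9_ok_al y hy0 a (ih y hy0 (by omega))
    · by_cases hp : PrimQ v
      · exact r9_ok_main v hp h5
      · unfold PrimQ at hp
        push Not at hp
        obtain ⟨p, hpp, ⟨a, ha⟩, ⟨b, hb⟩, ⟨c, hc⟩, ⟨d, hd⟩⟩ := hp
        have hv' : v = (p : ℤ) • (⟨a, b, c, d⟩ : ℍ[ℤ]) := by
          ext
          · simpa using ha
          · simpa using hb
          · simpa using hc
          · simpa using hd
        set y : ℍ[ℤ] := ⟨a, b, c, d⟩ with hyd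
        have hy0 : y ≠ 0 := by
          intro h
          apply hv
          have a1 : a = 0 := congrArg (fun q : ℍ[ℤ] => q.re) h
          have a2 : b = 0 := congrArg (fun q : ℍ[ℤ] => q.imI) h
          have a3 : c = 0 := congrArg (fun q : ℍ[ℤ] => q.imJ) h
          have a4 : d = 0 := congrArg (fun q : ℍ[ℤ] => q.imK) h
          rw [a1, mul_zero] at ha
          rw [a2, mul_zero] at hb
          rw [a3, mul_zero] at hc
          rw [a4, mul_zero] at hd
          ext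
          · simpa using ha
          · simpa using hb
          · simpa using hc
          · simpa using hd
        have hyp := r9_normSq_pos_int y hy0
        have hp2 : (2 : ℤ) ≤ p := by exact_mod_cast hpp.two_le
        have e : Quaternion.normSq v = (p : ℤ) ^ 2 * Quaternion.normSq y := by
          rw [Quaternion.normSq_def', Quaternion.normSq_def', ha, hb, hc, hd]
          simp only [hyd]
          ring
        rw [hv']
        refine r9_ok_scale y hy0 p (by omega) (ih y hy0 ?_)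
        have : Quaternion.normSq y < Quaternion.normSq v := by
          rw [e]
          have hq : (4 : ℤ) ≤ (p : ℤ) ^ 2 := by nlinarith
          have := mul_le_mul_of_nonneg_right hq hyp.le
          linarith
        omega

/-- TARGET -/
theorem rat_upper (v : ℍ[ℤ]) (hv : v ≠ 0) : ∃ C : ℝ, ∀ ε : ℝ, 0 < ε → ε < 1 →
    ∃ (L : ℕ) (q : ℍ[ℤ]), Gd q ∧ Quaternion.normSq q = 5 ^ L ∧
      (L : ℝ) ≤ 4 * Real.logb 5 (1 / ε) + C ∧ qv v q L < ε ^ 2 :=
  r9_ok_all _ v hv le_rfl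

end Pool.Agent.H978V
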