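import Pool.Agent.H978V.KDefs2

/-!
# Words near rational points of SU(2): definitions
-/

set_option autoImplicit false

open scoped Quaternion

namespace Pool.Agent.H978V

open Pool.Agent.Helper557.Rz

/-- the matrix of an integral quaternion modulo `e`, for a pair `(r, s)` with `r² + s² = -1` -/
def Pg {e : ℕ} (r s : ZMod e) (x : ℍ[ℤ]) : Matrix (Fin 2) (Fin 2) (ZMod e) :=
  !![(x.re : ZMod e) + x.imI * r - x.imK * s, (x.imI : ZMod e) * s + x.imJ + x.imK * r;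
     (x.imI : ZMod e) * s - x.imJ + x.imK * r, (x.re : ZMod e) - x.imI * r + x.imK * s]

/-- `D` divides all coordinates -/
def DvdQ (D : ℤ) (v : ℍ[ℤ]) : Prop := D ∣ v.re ∧ D ∣ v.imI ∧ D ∣ v.imJ ∧ D ∣ v.imK

/-- no prime divisor of `D` divides all coordinates -/
def PrimMod (D : ℕ) (v : ℍ[ℤ]) : Prop := ∀ p : ℕ, p.Prime → p ∣ D → ¬ DvdQ p v

/-- no prime divides all coordinates -/
def PrimQ (v : ℍ[ℤ]) : Prop := ∀ p : ℕ, p.Prime → ¬ DvdQ p v

/-- The 2-adic condition: `v z = c w` with `w` of real part `D` modulo `4` and even imaginary coordinates. -/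
def G2 (v : ℍ[ℤ]) (c : ℤ) (D : ℕ) (z : ℍ[ℤ]) : Prop :=
  ∃ w : ℍ[ℤ], v * z = c • w ∧ (w.re - D) % 4 = 0 ∧ w.imI % 2 = 0 ∧ w.imJ % 2 = 0 ∧ w.imK % 2 = 0

/-- squared distance of `v/|v|` and `q/√5^L` -/
noncomputable def qv (v q : ℍ[ℤ]) (L : ℕ) : ℝ :=
  qd (v.re / Real.sqrt (Quaternion.normSq v : ℤ)) (v.imI / Real.sqrt (Quaternion.normSq v : ℤ))
    (v.imJ / Real.sqrt (Quaternion.normSq v : ℤ)) (v.imK / Real.sqrt (Quaternion.normSq v : ℤ)) q L

end Pool.Agent.H978V
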