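import Pool.Agent.H978V.K14
import Pool.Agent.H978V.R9
import Pool.Agent.H978V.R10

/-!
# At every rational point of `SU(2)` the V-word length is `(4 + o(1)) log_5 (1/ε)`, with upper bound `4 log_5 (1/ε) + C`

A rational point is a matrix `U = (a I + i (b X + c Y + d Z)) / √(a² + b² + c² + d²)` with integers `a, b, c, d`, not all zero.
For each of them there is `C` such that for all `ε` in `(0,1)` some word in the V-basis of length at most `4 log_5 (1/ε) + C` is
within `ε` of `U`; and for every `η > 0` and all small `ε` every word other than `U` itself within `ε` of `U` has length at least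
`(4 - η) log_5 (1/ε)`.

Upper bound: sums of three squares give quaternions `z` of norm `N(v) 5^(4k)` and real part as large as possible; conjugation by a word
makes `v z` divisible by `N(v)`.  Lower bound: Ridout's theorem.
-/

set_option autoImplicit false

namespace Pool.Agent.H978V.RationalFour

open Pool.Agent.H978V
open scoped Quaternion Matrix.Norms.L2Operator

/-- The point of `SU(2)` with the integral quaternion coordinates `(a, b, c, d)` up to a positive factor:
`(a I + i (b X + c Y + d Z)) / √(a² + b² + c² + d²)`. -/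
noncomputable def Urat (a b c d : ℤ) : Matrix (Fin 2) (Fin 2) ℂ :=
  (1 / (Real.sqrt ((a : ℝ) ^ 2 + b ^ 2 + c ^ 2 + d ^ 2) : ℂ)) •
    ((a : ℂ) • 1 + Complex.I • ((b : ℂ) • pauli 0 + (c : ℂ) • pauli 1 + (d : ℂ) • pauli 2))

theorem Urat_eq (a b c d : ℤ) :
    let v : ℍ[ℤ] := ⟨a, d, c, b⟩
    Urat a b c d = Uquat (v.re / Real.sqrt (Quaternion.normSq v : ℤ)) (v.imI / Real.sqrt (Quaternion.normSq v : ℤ))
      (v.imJ / Real.sqrt (Quaternion.normSq v : ℤ)) (v.imK / Real.sqrt (Quaternion.normSq v : ℤ)) := by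
  intro v
  have h : (((Quaternion.normSq v : ℤ) : ℝ)) = (a : ℝ) ^ 2 + b ^ 2 + c ^ 2 + d ^ 2 := by
    rw [Quaternion.normSq_def']
    push_cast
    simp only [v]
    ring
  unfold Urat Uquat
  rw [h]
  set s := Real.sqrt ((a : ℝ) ^ 2 + b ^ 2 + c ^ 2 + d ^ 2)
  simp only [v]
  push_cast
  module

/-- For integers `a, b, c, d`, not all zero, the matrix `U = (a I + i (b X + c Y + d Z)) / √(a² + b² + c² + d²)` has, with some
constant `C`, for all `ε` in `(0,1)` a word in the V-basis of length at most `4 log_5 (1/ε) + C` within `ε`; and for every `η > 0`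
and all sufficiently small `ε > 0` every word within `ε` of `U`, other than `U` itself, has length at least `(4 - η) log_5 (1/ε)`. -/
theorem rational_four (a b c d : ℤ) (h0 : ¬ (a = 0 ∧ b = 0 ∧ c = 0 ∧ d = 0)) :
    (∃ C : ℝ, ∀ ε : ℝ, 0 < ε → ε < 1 →
      ∃ w : List (Matrix (Fin 2) (Fin 2) ℂ), (∀ g ∈ w, g ∈ Vset) ∧
        (w.length : ℝ) ≤ 4 * Real.logb 5 (1 / ε) + C ∧ ‖Urat a b c d - w.prod‖ < ε) ∧
    (∀ η : ℝ, 0 < η → ∃ ε₀ : ℝ, 0 < ε₀ ∧ ∀ ε : ℝ, 0 < ε → ε < ε₀ →
      ∀ w : List (Matrix (Fin 2) (Fin 2) ℂ), (∀ g ∈ w, g ∈ Vset) → w.prod ≠ Urat a b c d →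
        ‖Urat a b c d - w.prod‖ < ε → (4 - η) * Real.logb 5 (1 / ε) ≤ w.length) := by
  set v : ℍ[ℤ] := ⟨a, d, c, b⟩ with hv
  have hv0 : v ≠ 0 := by
    intro h
    apply h0
    have h1 := congrArg (fun q : ℍ[ℤ] => q.re) h
    have h2 := congrArg (fun q : ℍ[ℤ] => q.imI) h
    have h3 := congrArg (fun q : ℍ[ℤ] => q.imJ) h
    have h4 := congrArg (fun q : ℍ[ℤ] => q.imK) h
    simp [hv] at h1 h2 h3 h4
    exact ⟨h1, h4, h3, h2⟩
  have hU := Urat_eq a b c d
  simp only [← hv] at hU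
  rw [hU]
  constructor
  · obtain ⟨C, hC⟩ := rat_upper v hv0
    refine ⟨C, fun ε hε hε1 => ?_⟩
    obtain ⟨L, q, hq1, hq2, hL, hqv⟩ := hC ε hε hε1
    obtain ⟨w, hw1, hw2, hw3⟩ := word_of_quat L q hq1 hq2
    refine ⟨w, hw1, by rw [hw2]; exact hL, ?_⟩
    unfold qv at hqv
    rw [← hw3] at hqv
    exact lt_of_pow_lt_pow_left₀ 2 hε.le hqv
  · intro η hη
    obtain ⟨ε₀, he0, -, hlow⟩ := rat_lower v hv0 η hη
    refine ⟨ε₀, he0, fun ε hε hε' w hw hne hd => ?_⟩
    obtain ⟨q, -, hq2, hq3⟩ := quat_of_word w hw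
    refine hlow ε hε hε' _ q hq2 ?_ ?_
    · unfold qv
      rw [← hq3]
      exact pow_lt_pow_left₀ hd (norm_nonneg _) (by norm_num)
    · unfold qv
      rw [← hq3]
      intro h
      apply hne
      have := pow_eq_zero_iff (n := 2) (by norm_num) |>.1 h
      rw [norm_eq_zero, sub_eq_zero] at this
      exact this.symm

end Pool.Agent.H978V.RationalFour
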